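import Pool.Agent.QUR.ExF

set_option autoImplicit false

/-!
# QUR/Key: nodes of the T-case with a common disjoint pair (helper22's KEY LEMMA)

`{f, a, b}` is a triangle, `T` a form in `V(M \ f)`. `key_ex`: if `T` extends to `M_κ` for the typed elements `κ` of a set `N` (outside of the triangle), some
disjoint pair `(c0, d0)` with `a` in `c0`, `f` in `d0` is a pair of all `M_κ`, and every disjoint pair with `a` in `c`, `f` in `d` is a pair of some `M_κ`,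
then `T` extends to `M`. `key_del`: the deletions of the elements of a set `F` with `a` in the closure of `F` and `f`.
-/

namespace Pool.Agent.QU

variable {K E : Type} [Field K] [Fintype E] [DecidableEq E]

omit [Fintype E] in
private theorem ky_van {U : Submodule K (E → K)} {A : Finset E} {c : E → K} (hc : c ∈ van U A) {x : E}
    (h : c x = 0) : c ∈ van U (insert x A) := by
  refine ⟨hc.1, fun y hy => ?_⟩
  rcases Finset.mem_insert.1 hy with h1 | h1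
  · rw [h1, h]
  · exact hc.2 y h1

omit [Fintype E] in
private theorem ky_spt {W : Submodule K (E → K)} {A : Finset E} {d : E → K} (hd : d ∈ spt W A) {x : E}
    (h : d x = 0) : d ∈ spt W (A.erase x) := by
  refine ⟨hd.1, fun y hy => ?_⟩
  by_cases hyx : y = x
  · rw [hyx, h]
  · exact hd.2 y fun h1 => hy (Finset.mem_erase.2 ⟨hyx, h1⟩)

omit [Fintype E] in
private theorem ky_mem {U W : Submodule K (E → K)} {p : Itv E} {c d : E → K} (hc : c ∈ van U p.1) (hd : d ∈ spt W p.2) {s : Bool} {w : E}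
    (h : (s = true ∧ d w = 0) ∨ (s = false ∧ c w = 0)) : c ∈ van U (rm s w p).1 ∧ d ∈ spt W (rm s w p).2 := by
  rcases h with ⟨rfl, h⟩ | ⟨rfl, h⟩
  · exact ⟨hc, ky_spt hd h⟩
  · exact ⟨ky_van hc h, hd⟩

/-- typed nodes with a common pair -/
theorem key_ex (S : TP K E) {p : Itv E} {f a b : E} (hp : p.1 ⊆ p.2) (hf : f ∈ gs p) (ha : a ∈ gs p) (hb : b ∈ gs p)
    (hfa : f ≠ a) (hfb : f ≠ b) (hab : a ≠ b) (hL : Tri3 S.r p f a b) (N : Set (Bool × E))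
    (hN : ∀ k ∈ N, k.2 ∈ gs p ∧ k.2 ≠ f ∧ k.2 ≠ a ∧ k.2 ≠ b ∧ Ex S true f (rm k.1 k.2 p))
    {c0 d0 : E → K} (hc0 : c0 ∈ van S.U p.1) (hd0 : d0 ∈ spt S.W p.2) (hcd0 : ∀ x, c0 x * d0 x = 0) (hca0 : c0 a ≠ 0) (hdf0 : d0 f ≠ 0)
    (h0 : ∀ k ∈ N, (k.1 = true ∧ d0 k.2 = 0) ∨ (k.1 = false ∧ c0 k.2 = 0))
    (hcov : ∀ c ∈ van S.U p.1, ∀ d ∈ spt S.W p.2, (∀ x, c x * d x = 0) → c a ≠ 0 → d f ≠ 0 →
      ∃ k ∈ N, (k.1 = true ∧ d k.2 = 0) ∨ (k.1 = false ∧ c k.2 = 0)) : Ex S true f p := by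
  intro T hT
  obtain ⟨t, ht, htf⟩ := tri_vec S hfa hfb hf hL.1
  have D : Tdat S p f a b T t := ⟨hp, hf, ha, hb, hfa, hfb, hab, hL, hT, ht, htf⟩
  have hnode : ∀ k ∈ N, ∃ θ : K, InV S.U S.W (rm k.1 k.2 p) (thf T t f a θ) := by
    intro k hk
    obtain ⟨h1, h2, h3, h4, h5⟩ := hN k hk
    obtain ⟨Te, hTe, ee⟩ := h5 T (hT.mono ((rm_sub k.1 k.2 p).rm true f))
    refine D.node (q := rm k.1 k.2 p) (rm_sub k.1 k.2 p).1 ?_ hTe ee
    obtain ⟨s, e⟩ := k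
    cases s
    · exact D.sub
    · intro x hx
      refine Finset.mem_erase.2 ⟨?_, D.sub hx⟩
      rintro rfl
      simp only [Finset.mem_insert] at hx
      rcases hx with h | h | h | h
      · exact h2 h
      · exact h3 h
      · exact h4 h
      · exact (Finset.mem_sdiff.1 h1).2 h
  -- the scalar
  have hθ : ∀ k ∈ N, InV S.U S.W (rm k.1 k.2 p) (thf T t f a ((d0 f * c0 a)⁻¹ * (d0 f * T c0 t - T c0 d0))) := by
    intro k hk
    obtain ⟨θ, hθ⟩ := hnode k hk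
    obtain ⟨m1, m2⟩ := ky_mem hc0 hd0 (h0 k hk)
    have e1 := hθ c0 m1 d0 m2 hcd0
    rw [thf_apply] at e1
    have hne : d0 f * c0 a ≠ 0 := mul_ne_zero hdf0 hca0
    have e2 : (d0 f * c0 a)⁻¹ * (d0 f * T c0 t - T c0 d0) = θ := by
      have e3 : d0 f * T c0 t - T c0 d0 = (d0 f * c0 a) * θ := by linear_combination -e1
      rw [e3, ← mul_assoc, inv_mul_cancel₀ hne, one_mul]
    rw [e2]
    exact hθ
  refine ⟨thf T t f a ((d0 f * c0 a)⁻¹ * (d0 f * T c0 t - T c0 d0)), ?_, thf_f T t f a _⟩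
  intro c hc d hd hcd
  by_cases hca : c a = 0
  · exact D.a0 _ hc hd hcd hca
  by_cases hdf : d f = 0
  · exact D.f0 _ hc hd hcd hdf
  obtain ⟨k, hk, h⟩ := hcov c hc d hd hcd hca hdf
  obtain ⟨m1, m2⟩ := ky_mem hc hd h
  exact hθ k hk c m1 d m2 hcd

/-- deletion nodes `F` with `a` in the closure of `F` and `f` -/
theorem key_del (S : TP K E) {p : Itv E} {f a b : E} (hp : p.1 ⊆ p.2) (hf : f ∈ gs p) (ha : a ∈ gs p) (hb : b ∈ gs p)
    (hfa : f ≠ a) (hfb : f ≠ b) (hab : a ≠ b) (hL : Tri3 S.r p f a b) {F : Finset E} (hF : F ⊆ gs p) (hfF : f ∉ F) (haF : a ∉ F) (hbF : b ∉ F)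
    (k1 : ∀ w ∈ F, Ex S true f (rm true w p)) (k2 : S.r (insert a (insert f (p.1 ∪ F))) = S.r (insert f (p.1 ∪ F)))
    {c0 d0 : E → K} (hc0 : c0 ∈ van S.U p.1) (hd0 : d0 ∈ spt S.W p.2) (hcd0 : ∀ x, c0 x * d0 x = 0) (hca0 : c0 a ≠ 0) (hdf0 : d0 f ≠ 0)
    (k3 : ∀ w ∈ F, d0 w = 0) : Ex S true f p := by
  refine key_ex S hp hf ha hb hfa hfb hab hL {k | k.1 = true ∧ k.2 ∈ F} ?_ hc0 hd0 hcd0 hca0 hdf0 ?_ ?_
  · rintro ⟨s, w⟩ ⟨h1, h2⟩
    simp only at h1 h2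
    subst h1
    exact ⟨hF h2, fun h => hfF (h ▸ h2), fun h => haF (h ▸ h2), fun h => hbF (h ▸ h2), k1 w h2⟩
  · rintro ⟨s, w⟩ ⟨h1, h2⟩
    simp only at h1 h2
    subst h1
    exact Or.inl ⟨rfl, k3 w h2⟩
  · intro c hc d hd hcd hca hdf
    by_contra hcon
    push Not at hcon
    have h1 : ∀ w ∈ F, c w = 0 := by
      intro w hw
      have h2 := (hcon (true, w) ⟨rfl, hw⟩).1 rfl
      exact (mul_eq_zero.1 (hcd w)).resolve_right h2
    refine hca (TP.van_eq_zero S k2 c ⟨hc.1, fun y hy => ?_⟩)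
    rcases Finset.mem_insert.1 hy with rfl | hy
    · exact (mul_eq_zero.1 (hcd y)).resolve_right hdf
    rcases Finset.mem_union.1 hy with h | h
    · exact hc.2 y h
    · exact h1 y h

/-- a disjoint pair from ranks: `f` in the closure of `A`, `a` not -/
theorem pair_of_rank (S : TP K E) {p : Itv E} {f a : E} {A : Finset E} (hf : f ∈ gs p) (hfA : f ∉ A)
    (h1 : S.r (insert f (p.1 ∪ A)) = S.r (p.1 ∪ A)) 
    (h2 : S.r (insert a (p.1 ∪ A)) = S.r (p.1 ∪ A) + 1) :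
    ∃ c ∈ van S.U p.1, ∃ d ∈ spt S.W (insert f (p.1 ∪ A)), (∀ x, c x * d x = 0) ∧ c a = 1 ∧ d f = 1 := by
  obtain ⟨c, hc, hca⟩ := S.van_one h2
  have hf1 := Finset.mem_sdiff.1 hf
  have hfn : f ∉ p.1 ∪ A := by
    rw [Finset.mem_union, not_or]
    exact ⟨hf1.2, hfA⟩
  obtain ⟨d, hd, hdf⟩ := S.spt_one (G := insert f (p.1 ∪ A)) (Finset.mem_insert_self _ _) (by rw [Finset.erase_insert hfn, h1])
  have hcf : c f = 0 := TP.van_eq_zero S h1 c hc
  refine ⟨c, van_anti Finset.subset_union_left hc, d, hd, fun x => ?_, hca, hdf⟩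
  by_cases hx : x ∈ insert f (p.1 ∪ A)
  · rcases Finset.mem_insert.1 hx with rfl | hx
    · rw [hcf, zero_mul]
    · rw [hc.2 x hx, zero_mul]
  · rw [hd.2 x hx, mul_zero]

open Pool.Agent.FRM in
/-- the KEY LEMMA in box form: `F` a set of deletions with `M \ f, w` connected and `Ok`, `a` in the closure of `F` and `f`, `A` a set outside of `F` with `f` in
its closure and `a` not -/
theorem key_f4 (S : TP F4 E) (hNU : NU S.r) {p : Itv E} {f a b : E} (hp : p.1 ⊆ p.2) (hf : f ∈ gs p) (ha : a ∈ gs p) (hb : b ∈ gs p)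
    (hfa : f ≠ a) (hfb : f ≠ b) (hab : a ≠ b) (hL : Tri3 S.r p f a b) {F A : Finset E} (hF : F ⊆ gs p) (hfF : f ∉ F) (haF : a ∉ F) (hbF : b ∉ F)
    (hA : A ⊆ gs p) (hfA : f ∉ A) (hAF : Disjoint A F)
    (hex : ∀ w ∈ gs p, ∃ T, InVs S (rm true w p) T) (hR : HasRich S.r (rm true f p))
    (k1 : ∀ w ∈ F, QUB.Cn S.r (rm true f (rm true w p)) ∧ QUB.Ok S.r (rm true f (rm true w p)))
    (k2 : S.r (insert a (insert f (p.1 ∪ F))) = S.r (insert f (p.1 ∪ F)))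
    (k3 : S.r (insert f (p.1 ∪ A)) = S.r (p.1 ∪ A)) (k4 : S.r (insert a (p.1 ∪ A)) = S.r (p.1 ∪ A) + 1) :
    ∃ T : Fm F4 E, InV S.U S.W p T ∧ ¬ EqD S.U S.W p T 0 := by
  have hA2 : A ⊆ p.2 := fun x hx => (Finset.mem_sdiff.1 (hA hx)).1
  obtain ⟨c0, hc0, d0, hd0, hcd0, hca0, hdf0⟩ := pair_of_rank S (p := p) (a := a) hf hfA k3 k4
  have hsub : insert f (p.1 ∪ A) ⊆ p.2 :=
    Finset.insert_subset (Finset.mem_sdiff.1 hf).1 (Finset.union_subset hp hA2)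
  refine h_of_ex S (key_del S hp hf ha hb hfa hfb hab hL hF hfF haF hbF (fun w hw => ?_) k2 hc0 (spt_mono hsub hd0) hcd0
    (by rw [hca0]; exact one_ne_zero) (by rw [hdf0]; exact one_ne_zero) (fun w hw => ?_)) (hex f hf) hR
  · refine ex_ok S hNU (QUB.wf_rm hp (hF hw)) ?_ (k1 w hw).1 (k1 w hw).2 (hex w (hF hw))
    rw [gs_rm]
    exact Finset.mem_erase.2 ⟨fun h => hfF (h ▸ hw), hf⟩
  · refine hd0.2 w fun h => ?_
    rcases Finset.mem_insert.1 h with rfl | h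
    · exact hfF hw
    · rcases Finset.mem_union.1 h with h | h
      · exact (Finset.mem_sdiff.1 (hF hw)).2 h
      · exact Finset.disjoint_left.1 hAF h hw

end Pool.Agent.QU
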