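import Pool.Agent.QUN.Th
import Pool.Agent.QUT.Fone
import Pool.Agent.QUB.Move

/-!
# QUR/Tut: Tutte's triangle lemma

`p` is a 3-connected box with at least four elements and no triads, `{x, y, z}` a triangle. Then the deletion of `x` or the deletion of `y` is
3-connected (`tut_tri`). `ts_three`: the sides of the separations of order at most two of the deletions have at least three elements.
-/

set_option autoImplicit false

open QUB

namespace Pool.Agent.QU

variable {E : Type} [DecidableEq E] {r : Finset E → ℤ} {p : Itv E}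

/-- no triads -/
def NoTd (r : Finset E → ℤ) (p : Itv E) : Prop :=
  ∀ x ∈ gs p, ∀ y ∈ gs p, ∀ z ∈ gs p, x ≠ y → x ≠ z → y ≠ z → r (((p.2.erase x).erase y).erase z) = r p.2

private theorem tu_all (hp : p.1 ⊆ p.2) : p.1 ∪ gs p = p.2 := Finset.union_sdiff_of_subset hp

private theorem tu_lam (hp : p.1 ⊆ p.2) {A : Finset E} (hA : A ⊆ gs p) :
    lam r p A = r (p.1 ∪ A) + r (p.1 ∪ (gs p \ A)) - r p.2 - r p.1 := by
  have e : p.2 \ A = p.1 ∪ (gs p \ A) := by
    ext w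
    have h1 : w ∈ p.1 → w ∈ p.2 := fun h => hp h
    have h2 : w ∈ A → w ∈ p.2 ∧ w ∉ p.1 := fun h => Finset.mem_sdiff.1 (hA h)
    simp only [Finset.mem_union, Finset.mem_sdiff, gs]
    tauto
  unfold lam
  rw [e]

private theorem tu_sub (hr : Rk r) (C A B : Finset E) :
    r (C ∪ (A ∪ B)) + r (C ∪ (A ∩ B)) ≤ r (C ∪ A) + r (C ∪ B) := by
  have h := hr.sub (C ∪ A) (C ∪ B)
  have e1 : (C ∪ A) ∪ (C ∪ B) = C ∪ (A ∪ B) := by
    ext w; simp only [Finset.mem_union]; tauto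
  have e2 : (C ∪ A) ∩ (C ∪ B) = C ∪ (A ∩ B) := by
    ext w; simp only [Finset.mem_union, Finset.mem_inter]; tauto
  rw [e1, e2] at h
  exact h

/-- `x` is in the closure of `y`, `z` -/
theorem tu_cl (hr : Rk r) {C : Finset E} {x y z : E}
    (h : r (insert x (insert y (insert z C))) = r (insert y (insert z C))) {A : Finset E} (hy : y ∈ A) (hz : z ∈ A) :
    r (C ∪ insert x A) = r (C ∪ A) := by
  have h1 : insert y (insert z C) ⊆ C ∪ A := by
    intro w hw
    rcases Finset.mem_insert.1 hw with rfl | hw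
    · exact Finset.mem_union_right _ hy
    · rcases Finset.mem_insert.1 hw with rfl | hw
      · exact Finset.mem_union_right _ hz
      · exact Finset.mem_union_left _ hw
  have h2 := marg hr h1 x
  have h3 := hr.mono (C ∪ A) (insert x (C ∪ A)) (Finset.subset_insert _ _)
  have e : C ∪ insert x A = insert x (C ∪ A) := Finset.union_insert x C A
  rw [e]
  linarith

/-- 2-sides of deletions have at least three elements if there are no triads -/
theorem ts_three (hr : Rk r) (hp : p.1 ⊆ p.2) (h3 : Th3 r p) (hn : 4 ≤ (gs p).card) (hT : NoTd r p) {v : E} (hv : v ∈ gs p) {Z : Finset E}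
    (hZ : TS r p v true Z) : 3 ≤ Z.card := by
  by_contra hcon
  obtain ⟨h1, h2, h4, h5⟩ := hZ
  obtain ⟨a, b, hab, rfl⟩ := Finset.card_eq_two.1 (by omega : Z.card = 2)
  have ha := Finset.mem_erase.1 (h1 (Finset.mem_insert_self a {b}))
  have hb := Finset.mem_erase.1 (h1 (Finset.mem_insert_of_mem (Finset.mem_singleton_self b)))
  have k1 := th3_con2 hr hp h3 hn ha.2 hb.2 hab
  have k2 := th3_del1 hr hp h3 hn hv
  have k3 := hT v hv a ha.2 b hb.2 ha.1.symm hb.1.symm hab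
  have e1 : (QUB.rm true v p).1 ∪ {a, b} = insert a (insert b p.1) := by
    ext w
    simp only [QUB.rm, Finset.mem_union, Finset.mem_insert, Finset.mem_singleton]
    tauto
  have e2 : (QUB.rm true v p).2 \ {a, b} = ((p.2.erase v).erase a).erase b := by
    ext w
    simp only [QUB.rm, Finset.mem_sdiff, Finset.mem_erase, Finset.mem_insert, Finset.mem_singleton]
    tauto
  have e3 : (QUB.rm true v p).2 = p.2.erase v := rfl
  have e4 : (QUB.rm true v p).1 = p.1 := rfl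
  unfold QUB.lam at h5
  rw [e1, e2, e3, e4, k1, k2, k3] at h5
  omega

private theorem tu_rk (hr : Rk r) (hp : p.1 ⊆ p.2) {x y z : E} (hx : x ∈ gs p) (hy : y ∈ gs p) (hz : z ∈ gs p)
    (hxy : x ≠ y) (hxz : x ≠ z) (h1 : r (insert x (insert y (insert z p.1))) = r (insert y (insert z p.1))) :
    r (p.2.erase x) = r p.2 := by
  have h5 := tu_cl hr h1 (A := (gs p).erase x) (Finset.mem_erase.2 ⟨hxy.symm, hy⟩) (Finset.mem_erase.2 ⟨hxz.symm, hz⟩)
  rw [Finset.insert_erase hx, tu_all hp] at h5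
  have e : p.1 ∪ (gs p).erase x = p.2.erase x := by
    rw [← gs_rm true x p]
    exact tu_all (wf_rm (t := true) hp hx)
  rw [← e]
  exact h5.symm

/-- a 2-side of the deletion of an element of a triangle separates the two other elements -/
theorem ts_split (hr : Rk r) (hp : p.1 ⊆ p.2) (h3 : Th3 r p) {x y z : E} (hx : x ∈ gs p) (hy : y ∈ gs p)
    (hz : z ∈ gs p) (hxy : x ≠ y) (hxz : x ≠ z)
    (h1 : r (insert x (insert y (insert z p.1))) = r (insert y (insert z p.1))) {X : Finset E} (hX : TS r p x true X) (hyX : y ∈ X) : z ∉ X := by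
  intro hzX
  obtain ⟨a1, a2, a3, a4⟩ := hX
  have hI : insert x X ⊆ gs p := Finset.insert_subset hx (a1.trans (Finset.erase_subset _ _))
  have e : gs p \ insert x X = (gs p).erase x \ X := by
    ext w
    simp only [Finset.mem_sdiff, Finset.mem_erase, Finset.mem_insert]
    tauto
  have hc2 : 2 ≤ (insert x X).card := a2.trans (Finset.card_le_card (Finset.subset_insert _ _))
  have h5 := h3 (insert x X) hI hc2 (by
    have e' : Pool.Agent.QU.gs p \ insert x X = gs p \ insert x X := rfl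
    rw [e', e]
    exact a3)
  have h5' : 2 ≤ QUB.lam r p (insert x X) := h5
  have hw : (QUB.rm true x p).1 ⊆ (QUB.rm true x p).2 := wf_rm hp hx
  have hrk := tu_rk hr hp hx hy hz hxy hxz h1
  rw [tu_lam hp hI, e, tu_cl hr h1 hyX hzX] at h5'
  rw [tu_lam hw (by rw [gs_rm]; exact a1), gs_rm] at a4
  have e1 : (QUB.rm true x p).1 = p.1 := rfl
  have e2 : (QUB.rm true x p).2 = p.2.erase x := rfl
  rw [e1, e2, hrk] at a4
  omega

private theorem tu_sep (hr : Rk r) (hp : p.1 ⊆ p.2) (h3 : Th3 r p) (hn : 4 ≤ (gs p).card) (hT : NoTd r p) {x y z : E} (hx : x ∈ gs p)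
    (hy : y ∈ gs p) (hz : z ∈ gs p) (hxy : x ≠ y) (hxz : x ≠ z)
    (h1 : r (insert x (insert y (insert z p.1))) = r (insert y (insert z p.1))) (hnt : ¬ Th3 r (QUB.rm true x p)) :
    ∃ C D : Finset E, C ∪ D = (gs p).erase x ∧ Disjoint C D ∧ y ∈ C ∧ z ∈ D ∧
      r (p.1 ∪ C) + r (p.1 ∪ D) ≤ r p.2 + r p.1 + 1 ∧ 3 ≤ C.card ∧ 3 ≤ D.card := by
  unfold Th3 at hnt
  push Not at hnt
  obtain ⟨C, hC, hC2, hD2, hl⟩ := hnt
  have hg : gs (QUB.rm true x p) = (gs p).erase x := gs_rm true x p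
  have hCe : C ⊆ (gs p).erase x := hg ▸ hC
  have hD2' : 2 ≤ ((gs p).erase x \ C).card := by
    rw [← hg]
    exact hD2
  have hl' : QUB.lam r (QUB.rm true x p) C ≤ 1 := by
    have : QUB.lam r (QUB.rm true x p) C < 2 := hl
    omega
  have hts : TS r p x true C := ⟨hCe, hC2, hD2', hl'⟩
  have hts' := hts.compl hp hx
  have c1 := ts_three hr hp h3 hn hT hx hts
  have c2 := ts_three hr hp h3 hn hT hx hts'
  have hw : (QUB.rm true x p).1 ⊆ (QUB.rm true x p).2 := wf_rm hp hx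
  have hrk := tu_rk hr hp hx hy hz hxy hxz h1
  have hl2 : r (p.1 ∪ C) + r (p.1 ∪ ((gs p).erase x \ C)) ≤ r p.2 + r p.1 + 1 := by
    rw [tu_lam hw (by rw [gs_rm]; exact hCe), gs_rm] at hl'
    have e1 : (QUB.rm true x p).1 = p.1 := rfl
    have e2 : (QUB.rm true x p).2 = p.2.erase x := rfl
    rw [e1, e2, hrk] at hl'
    omega
  have hye : y ∈ (gs p).erase x := Finset.mem_erase.2 ⟨hxy.symm, hy⟩
  have hze : z ∈ (gs p).erase x := Finset.mem_erase.2 ⟨hxz.symm, hz⟩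
  by_cases hyC : y ∈ C
  · have hzC : z ∉ C := ts_split hr hp h3 hx hy hz hxy hxz h1 hts hyC
    exact ⟨C, (gs p).erase x \ C, Finset.union_sdiff_of_subset hCe, Finset.disjoint_sdiff, hyC, Finset.mem_sdiff.2 ⟨hze, hzC⟩, hl2, c1, c2⟩
  · have hyD : y ∈ (gs p).erase x \ C := Finset.mem_sdiff.2 ⟨hye, hyC⟩
    have hzD := ts_split hr hp h3 hx hy hz hxy hxz h1 hts' hyD
    have hzC : z ∈ C := by
      by_contra h
      exact hzD (Finset.mem_sdiff.2 ⟨hze, h⟩)
    exact ⟨(gs p).erase x \ C, C, Finset.sdiff_union_of_subset hCe, Finset.sdiff_disjoint, hyD, hzC, by linarith, c2, c1⟩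

private theorem tu_c4 {G C D C' D' : Finset E} {x y : E} (mU : ∀ w, w ∈ C ∨ w ∈ D ↔ w ≠ x ∧ w ∈ G)
    (mU' : ∀ w, w ∈ C' ∨ w ∈ D' ↔ w ≠ y ∧ w ∈ G) (md : ∀ w, w ∈ C → w ∉ D) (md' : ∀ w, w ∈ C' → w ∉ D') (hx : x ∈ G)
    (hyC : y ∈ C) (hxD : x ∉ D) : G \ (D ∩ C') = insert x (C ∪ D') := by
  ext w
  rw [Finset.mem_sdiff, Finset.mem_inter, Finset.mem_insert, Finset.mem_union]
  by_cases hwx : w = x
  · rw [hwx]
    exact ⟨fun _ => Or.inl rfl, fun _ => ⟨hx, fun h => hxD h.1⟩⟩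
  · constructor
    · rintro ⟨h1, h2⟩
      right
      rcases (mU w).2 ⟨hwx, h1⟩ with h | h
      · exact Or.inl h
      · by_cases hwy : w = y
        · exact Or.inl (hwy ▸ hyC)
        · rcases (mU' w).2 ⟨hwy, h1⟩ with h' | h'
          · exact absurd ⟨h, h'⟩ h2
          · exact Or.inr h'
    · rintro (h | h | h)
      · exact absurd h hwx
      · exact ⟨((mU w).1 (Or.inl h)).2, fun h' => md w h h'.1⟩
      · exact ⟨((mU' w).1 (Or.inr h)).2, fun h' => md' w h'.2 h⟩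

private theorem tu_c3 {G C D C' D' : Finset E} {x y : E} (mU : ∀ w, w ∈ C ∨ w ∈ D ↔ w ≠ x ∧ w ∈ G)
    (mU' : ∀ w, w ∈ C' ∨ w ∈ D' ↔ w ≠ y ∧ w ∈ G) (md : ∀ w, w ∈ C → w ∉ D) (md' : ∀ w, w ∈ C' → w ∉ D')
    (hyC : y ∈ C) (hxC' : x ∈ C') : G \ (D ∩ D') = C ∪ C' := by
  ext w
  rw [Finset.mem_sdiff, Finset.mem_inter, Finset.mem_union]
  constructor
  · rintro ⟨h1, h2⟩
    by_cases hwx : w = x
    · exact Or.inr (hwx ▸ hxC')
    · by_cases hwy : w = y
      · exact Or.inl (hwy ▸ hyC)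
      · rcases (mU w).2 ⟨hwx, h1⟩ with h | h
        · exact Or.inl h
        · rcases (mU' w).2 ⟨hwy, h1⟩ with h' | h'
          · exact Or.inr h'
          · exact absurd ⟨h, h'⟩ h2
  · rintro (h | h)
    · exact ⟨((mU w).1 (Or.inl h)).2, fun h' => md w h h'.1⟩
    · exact ⟨((mU' w).1 (Or.inl h)).2, fun h' => md' w h h'.2⟩

private theorem tu_c1 {G C D C' D' : Finset E} {x y : E} (mU : ∀ w, w ∈ C ∨ w ∈ D ↔ w ≠ x ∧ w ∈ G)
    (mU' : ∀ w, w ∈ C' ∨ w ∈ D' ↔ w ≠ y ∧ w ∈ G) : G \ (C ∩ C') ⊆ insert y (insert x (D ∪ D')) := by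
  intro w hw
  rw [Finset.mem_sdiff, Finset.mem_inter] at hw
  rw [Finset.mem_insert, Finset.mem_insert, Finset.mem_union]
  by_cases hwy : w = y
  · exact Or.inl hwy
  · by_cases hwx : w = x
    · exact Or.inr (Or.inl hwx)
    · rcases (mU w).2 ⟨hwx, hw.1⟩ with h | h
      · rcases (mU' w).2 ⟨hwy, hw.1⟩ with h' | h'
        · exact absurd ⟨h, h'⟩ hw.2
        · exact Or.inr (Or.inr (Or.inr h'))
      · exact Or.inr (Or.inr (Or.inl h))

/-- `D` is covered by the two quarters -/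
private theorem tu_uD {G C D C' D' : Finset E} {x y : E} (mU : ∀ w, w ∈ C ∨ w ∈ D ↔ w ≠ x ∧ w ∈ G)
    (mU' : ∀ w, w ∈ C' ∨ w ∈ D' ↔ w ≠ y ∧ w ∈ G) (hyD : y ∉ D) : D ⊆ (D ∩ D') ∪ (D ∩ C') := by
  intro w hw
  rw [Finset.mem_union, Finset.mem_inter, Finset.mem_inter]
  rcases (mU' w).2 ⟨fun h => hyD (h ▸ hw), ((mU w).1 (Or.inr hw)).2⟩ with h | h
  · exact Or.inr ⟨hw, h⟩
  · exact Or.inl ⟨hw, h⟩

/-- `C` is covered by `y` and the two quarters -/
private theorem tu_uC {G C D C' D' : Finset E} {x y : E} (mU : ∀ w, w ∈ C ∨ w ∈ D ↔ w ≠ x ∧ w ∈ G)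
    (mU' : ∀ w, w ∈ C' ∨ w ∈ D' ↔ w ≠ y ∧ w ∈ G) : C ⊆ insert y ((C ∩ C') ∪ (C ∩ D')) := by
  intro w hw
  rw [Finset.mem_insert, Finset.mem_union, Finset.mem_inter, Finset.mem_inter]
  by_cases hwy : w = y
  · exact Or.inl hwy
  · rcases (mU' w).2 ⟨hwy, ((mU w).1 (Or.inl hw)).2⟩ with h | h
    · exact Or.inr (Or.inl ⟨hw, h⟩)
    · exact Or.inr (Or.inr ⟨hw, h⟩)

/-- **Tutte's triangle lemma** -/
theorem tut_tri (hr : Rk r) (hp : p.1 ⊆ p.2) (h3 : Th3 r p) (hn : 4 ≤ (gs p).card) (hT : NoTd r p) {x y z : E} (hx : x ∈ gs p)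
    (hy : y ∈ gs p) (hz : z ∈ gs p) (hxy : x ≠ y) (hxz : x ≠ z) (hyz : y ≠ z)
    (h1 : r (insert x (insert y (insert z p.1))) = r (insert y (insert z p.1)))
    (h2 : r (insert y (insert x (insert z p.1))) = r (insert x (insert z p.1))) :
    Th3 r (QUB.rm true x p) ∨ Th3 r (QUB.rm true y p) := by
  by_contra hcon
  rw [not_or] at hcon
  obtain ⟨C, D, hU, hd, hyC, hzD, hl, hcC, hcD⟩ := tu_sep hr hp h3 hn hT hx hy hz hxy hxz h1 hcon.1
  obtain ⟨C', D', hU', hd', hxC', hzD', hl', hcC', hcD'⟩ := tu_sep hr hp h3 hn hT hy hx hz hxy.symm hyz h2 hcon.2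
  have mU : ∀ w, w ∈ C ∨ w ∈ D ↔ w ≠ x ∧ w ∈ gs p := fun w => by rw [← Finset.mem_union, hU, Finset.mem_erase]
  have mU' : ∀ w, w ∈ C' ∨ w ∈ D' ↔ w ≠ y ∧ w ∈ gs p := fun w => by rw [← Finset.mem_union, hU', Finset.mem_erase]
  have md : ∀ w, w ∈ C → w ∉ D := fun w h => Finset.disjoint_left.1 hd h
  have md' : ∀ w, w ∈ C' → w ∉ D' := fun w h => Finset.disjoint_left.1 hd' h
  have hCg : C ⊆ gs p := fun w h => ((mU w).1 (Or.inl h)).2
  have hDg : D ⊆ gs p := fun w h => ((mU w).1 (Or.inr h)).2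
  have hxC : x ∉ C := fun h => ((mU x).1 (Or.inl h)).1 rfl
  have hxD : x ∉ D := fun h => ((mU x).1 (Or.inr h)).1 rfl
  have hyC' : y ∉ C' := fun h => ((mU' y).1 (Or.inl h)).1 rfl
  have hyD' : y ∉ D' := fun h => ((mU' y).1 (Or.inr h)).1 rfl
  have hyD : y ∉ D := md y hyC
  have hxD' : x ∉ D' := md' x hxC'
  have hzC : z ∉ C := fun h => md z h hzD
  have hzC' : z ∉ C' := fun h => md' z h hzD'
  have g1 : C ∩ C' ⊆ gs p := Finset.inter_subset_left.trans hCg
  have g2 : C ∩ D' ⊆ gs p := Finset.inter_subset_left.trans hCg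
  have g3 : D ∩ D' ⊆ gs p := Finset.inter_subset_left.trans hDg
  have g4 : D ∩ C' ⊆ gs p := Finset.inter_subset_left.trans hDg
  have c4 : gs p \ (D ∩ C') = insert x (C ∪ D') := tu_c4 mU mU' md md' hx hyC hxD
  have c2 : gs p \ (D' ∩ C) = insert y (C' ∪ D) := tu_c4 mU' mU md' md hy hxC' hyD'
  rw [Finset.inter_comm D' C, Finset.union_comm C' D] at c2
  have c3 : gs p \ (D ∩ D') = C ∪ C' := tu_c3 mU mU' md md' hyC hxC'
  have c1 : gs p \ (C ∩ C') ⊆ insert y (insert x (D ∪ D')) := tu_c1 mU mU'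
  have s1 := tu_sub hr p.1 C D'
  have s2 := tu_sub hr p.1 D C'
  have s3 := tu_sub hr p.1 C C'
  have s4 := tu_sub hr p.1 D D'
  have k4 : r (p.1 ∪ insert x (C ∪ D')) = r (p.1 ∪ (C ∪ D')) :=
    tu_cl hr h1 (Finset.mem_union_left _ hyC) (Finset.mem_union_right _ hzD')
  have k2 : r (p.1 ∪ insert y (D ∪ C')) = r (p.1 ∪ (D ∪ C')) :=
    tu_cl hr h2 (Finset.mem_union_right _ hxC') (Finset.mem_union_left _ hzD)
  have l2 := tu_lam (r := r) hp g2
  have l4 := tu_lam (r := r) hp g4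
  have l3 := tu_lam (r := r) hp g3
  have l1 := tu_lam (r := r) hp g1
  rw [c2, k2] at l2
  rw [c4, k4] at l4
  rw [c3] at l3
  have sum24 : lam r p (C ∩ D') + lam r p (D ∩ C') ≤ 2 := by linarith
  have sum3 : lam r p (D ∩ D') + (r (p.1 ∪ (C ∩ C')) + r (p.1 ∪ (D ∪ D')) - r p.2 - r p.1) ≤ 2 := by linarith
  have two : ∀ u v : E, u ∈ gs p → v ∈ gs p → u ≠ v → ∀ A ⊆ gs p, u ∉ A → v ∉ A → 2 ≤ A.card → 2 ≤ lam r p A := by
    intro u v hu hv huv A hA huA hvA hA2
    refine h3 A hA hA2 ?_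
    have hs : ({u, v} : Finset E) ⊆ gs p \ A := by
      intro w hw
      rcases Finset.mem_insert.1 hw with rfl | hw
      · exact Finset.mem_sdiff.2 ⟨hu, huA⟩
      · rw [Finset.mem_singleton.1 hw]
        exact Finset.mem_sdiff.2 ⟨hv, hvA⟩
    have h := Finset.card_le_card hs
    rw [Finset.card_pair huv] at h
    exact h
  have n2 : 2 ≤ (C ∩ D').card → 2 ≤ lam r p (C ∩ D') := fun h =>
    two x z hx hz hxz _ g2 (fun h' => hxC (Finset.mem_inter.1 h').1) (fun h' => hzC (Finset.mem_inter.1 h').1) h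
  have n4 : 2 ≤ (D ∩ C').card → 2 ≤ lam r p (D ∩ C') := fun h =>
    two y z hy hz hyz _ g4 (fun h' => hyD (Finset.mem_inter.1 h').1) (fun h' => hzC' (Finset.mem_inter.1 h').2) h
  have n3 : 2 ≤ (D ∩ D').card → 2 ≤ lam r p (D ∩ D') := fun h =>
    two x y hx hy hxy _ g3 (fun h' => hxD (Finset.mem_inter.1 h').1) (fun h' => hyD (Finset.mem_inter.1 h').1) h
  have n1 : 2 ≤ (C ∩ C').card → 2 ≤ lam r p (C ∩ C') := fun h =>
    two x y hx hy hxy _ g1 (fun h' => hxC (Finset.mem_inter.1 h').1) (fun h' => hyC' (Finset.mem_inter.1 h').2) h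
  have uD : D ⊆ (D ∩ D') ∪ (D ∩ C') := tu_uD mU mU' hyD
  have uD' : D' ⊆ (D' ∩ D) ∪ (D' ∩ C) := tu_uD mU' mU hxD'
  rw [Finset.inter_comm D' D, Finset.inter_comm D' C] at uD'
  have uC : C ⊆ insert y ((C ∩ C') ∪ (C ∩ D')) := tu_uC mU mU'
  have uC' : C' ⊆ insert x ((C' ∩ C) ∪ (C' ∩ D)) := tu_uC mU' mU
  rw [Finset.inter_comm C' C, Finset.inter_comm C' D] at uC'
  have qD := (Finset.card_le_card uD).trans (Finset.card_union_le _ _)
  have qD' := (Finset.card_le_card uD').trans (Finset.card_union_le _ _)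
  have qC := ((Finset.card_le_card uC).trans (Finset.card_insert_le _ _)).trans (Nat.add_le_add_right (Finset.card_union_le _ _) 1)
  have qC' := ((Finset.card_le_card uC').trans (Finset.card_insert_le _ _)).trans (Nat.add_le_add_right (Finset.card_union_le _ _) 1)
  by_cases hb : 1 ≤ r (p.1 ∪ (C ∩ C')) + r (p.1 ∪ (D ∪ D')) - r p.2 - r p.1
  · have t3 : lam r p (D ∩ D') ≤ 1 := by linarith
    have z3 : (D ∩ D').card ≤ 1 := by
      by_contra h
      have := n3 (by omega)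
      omega
    have t2 := n2 (by omega)
    have t4 := n4 (by omega)
    omega
  · have hb' : r (p.1 ∪ (C ∩ C')) + r (p.1 ∪ (D ∪ D')) ≤ r p.2 + r p.1 := by omega
    have hzU : z ∈ D ∪ D' := Finset.mem_union_left _ hzD
    have m1 : r (p.1 ∪ insert y (insert x (D ∪ D'))) ≤ r (p.1 ∪ (D ∪ D')) + 1 := by
      have a1 : r (p.1 ∪ insert y (insert x (D ∪ D'))) = r (p.1 ∪ insert x (D ∪ D')) :=
        tu_cl hr h2 (Finset.mem_insert_self _ _) (Finset.mem_insert_of_mem hzU)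
      have a2 := hr.unit (p.1 ∪ (D ∪ D')) x
      rw [← Finset.union_insert] at a2
      linarith
    have m2 := hr.mono _ _ (Finset.union_subset_union_right c1 : p.1 ∪ (gs p \ (C ∩ C')) ⊆ _)
    have t1 : lam r p (C ∩ C') ≤ 1 := by linarith
    have z1 : (C ∩ C').card ≤ 1 := by
      by_contra h
      have := n1 (by omega)
      omega
    rcases Nat.eq_zero_or_pos (C ∩ C').card with h0 | h0
    · have t2 := n2 (by omega)
      have t4 := n4 (by omega)
      omega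
    · obtain ⟨e, he⟩ := Finset.card_eq_one.1 (by omega : (C ∩ C').card = 1)
      have heC : e ∈ C ∩ C' := by rw [he]; exact Finset.mem_singleton_self e
      have heg : e ∈ gs p := g1 heC
      have hex : e ≠ x := fun h => hxC (h ▸ (Finset.mem_inter.1 heC).1)
      have hey : e ≠ y := fun h => hyC' (h ▸ (Finset.mem_inter.1 heC).2)
      have k5 := hT x hx y hy e heg hxy hex.symm hey.symm
      have k6 := th3_con1 hr hp h3 hn heg
      have k7 : ((p.2.erase x).erase y).erase e ⊆ p.1 ∪ (D ∪ D') := by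
        intro w hw
        have w1 := Finset.mem_erase.1 hw
        have w2 := Finset.mem_erase.1 w1.2
        have w3 := Finset.mem_erase.1 w2.2
        by_cases hw0 : w ∈ p.1
        · exact Finset.mem_union_left _ hw0
        · refine Finset.mem_union_right _ ?_
          have w4 : w ∈ gs p \ (C ∩ C') := by
            refine Finset.mem_sdiff.2 ⟨Finset.mem_sdiff.2 ⟨w3.2, hw0⟩, fun h => ?_⟩
            rw [he] at h
            exact w1.1 (Finset.mem_singleton.1 h)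
          exact (Finset.mem_insert.1 ((Finset.mem_insert.1 (c1 w4)).resolve_left w2.1)).resolve_left w3.1
      have k8 := hr.mono _ _ k7
      have e9 : p.1 ∪ (C ∩ C') = insert e p.1 := by
        rw [he]
        ext w
        simp only [Finset.mem_union, Finset.mem_singleton, Finset.mem_insert]
        tauto
      rw [e9, k6] at hb'
      omega

end Pool.Agent.QU
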