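import Pool.Agent.QUR.CftA
import Pool.Agent.QUR.Key
import Pool.Agent.QUR.Tut
import Pool.Agent.QUB.Tri

set_option autoImplicit false
set_option linter.unusedSectionVars false

/-!
# QUR/Cft: conflicts at a triangle

`{x1, x2, x3}` is a triangle of a 3-connected box `p` with at least nine elements, all single deletions are 3-connected. If for an `x` of the triangle and an
`y` outside of it the deletion of `x` and `y` is not `Ok` then the hypotheses of the KEY LEMMA `key_f4` hold (`cft`).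
-/

open QUB (Rk Cn Ok Hv)

namespace Pool.Agent.QU

variable {E : Type} [DecidableEq E] {r : Finset E → ℤ} {p : Itv E}

/-- the rank function of the box -/
def cR (r : Finset E → ℤ) (p : Itv E) (X : Finset E) : ℤ := r (p.1 ∪ X) - r p.1

/-- heavy sets of the deletion of two elements -/
def cH (r : Finset E → ℤ) (p : Itv E) (x y : E) (A : Finset E) : Prop := Hv r (rm true x (rm true y p)) A

/-- `(a, b, c)` is one of the six orders of the triangle -/
def cT (x1 x2 x3 a b c : E) : Prop :=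
  (a = x1 ∧ b = x2 ∧ c = x3) ∨ (a = x1 ∧ b = x3 ∧ c = x2) ∨ (a = x2 ∧ b = x1 ∧ c = x3) ∨ (a = x2 ∧ b = x3 ∧ c = x1) ∨
    (a = x3 ∧ b = x1 ∧ c = x2) ∨ (a = x3 ∧ b = x2 ∧ c = x1)

theorem cR_mono (hr : Rk r) {A B : Finset E} (h : A ⊆ B) : cR r p A ≤ cR r p B := by
  have := hr.mono (p.1 ∪ A) (p.1 ∪ B) (Finset.union_subset_union_right h)
  unfold cR
  linarith

theorem cR_lam (hp : p.1 ⊆ p.2) {A : Finset E} (hA : A ⊆ gs p) : QUB.lam r p A = cR r p A + cR r p (gs p \ A) - cR r p (gs p) := by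
  have e1 : p.1 ∪ gs p = p.2 := Finset.union_sdiff_of_subset hp
  have e2 : p.1 ∪ (gs p \ A) = p.2 \ A := by
    ext w
    have h1 := @hp w
    have h2 := @hA w
    simp only [gs, Finset.mem_union, Finset.mem_sdiff] at *
    tauto
  unfold QUB.lam cR
  rw [e1, e2]
  ring

private theorem cG (hp : p.1 ⊆ p.2) : cR r p (gs p) = r p.2 - r p.1 := by
  have e1 : p.1 ∪ gs p = p.2 := Finset.union_sdiff_of_subset hp
  unfold cR
  rw [e1]

private theorem cdel2 (hr : Rk r) (hp : p.1 ⊆ p.2) (h3 : Th3 r p) (hn : 4 ≤ (gs p).card) {u v : E} (hu : u ∈ gs p) (hv : v ∈ gs p) (huv : u ≠ v) :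
    cR r p (((gs p).erase u).erase v) = cR r p (gs p) := by
  rw [cG hp]
  have hq := QUB.wf_rm (t := true) (x := v) (QUB.wf_rm (t := true) hp hu) (by rw [gs_rm]; exact Finset.mem_erase.2 ⟨huv.symm, hv⟩)
  have h1 := cG (r := r) hq
  rw [gs_rm, gs_rm] at h1
  have e1 : r (rm true v (rm true u p)).2 = r p.2 := th3_del2 hr hp h3 hn hu hv huv
  rw [e1] at h1
  exact h1

private theorem ctwo (hr : Rk r) (hp : p.1 ⊆ p.2) (h3 : Th3 r p) (hn : 4 ≤ (gs p).card) {A : Finset E} (hA : A ⊆ gs p) (h2 : 2 ≤ A.card) :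
    2 ≤ cR r p A := by
  obtain ⟨u, hu, v, hv, huv⟩ := Finset.one_lt_card.1 h2
  have h4 : ({u, v} : Finset E) ⊆ A := Finset.insert_subset hu (Finset.singleton_subset_iff.2 hv)
  have h5 := cR_mono (r := r) (p := p) hr h4
  have h6 := th3_con2 hr hp h3 hn (hA hu) (hA hv) huv
  have e1 : p.1 ∪ {u, v} = insert u (insert v p.1) := by
    ext w
    simp only [Finset.mem_union, Finset.mem_insert, Finset.mem_singleton]
    tauto
  unfold cR at h5
  rw [e1, h6] at h5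
  unfold cR
  linarith

private theorem cone (hr : Rk r) (hp : p.1 ⊆ p.2) (h3 : Th3 r p) (hn : 4 ≤ (gs p).card) {A : Finset E} (hA : A ⊆ gs p) (h1 : A.Nonempty) :
    1 ≤ cR r p A := by
  obtain ⟨u, hu⟩ := h1
  have h4 : ({u} : Finset E) ⊆ A := Finset.singleton_subset_iff.2 hu
  have h5 := cR_mono (r := r) (p := p) hr h4
  have h6 := th3_con1 hr hp h3 hn (hA hu)
  have e1 : p.1 ∪ {u} = insert u p.1 := by
    ext w
    simp only [Finset.mem_union, Finset.mem_insert, Finset.mem_singleton]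
    tauto
  unfold cR at h5
  rw [e1, h6] at h5
  unfold cR
  linarith

private theorem ct1a (hr : Rk r) (hp : p.1 ⊆ p.2) (h3 : Th3 r p) (hn : 4 ≤ (gs p).card) {u : E} (hu : u ∈ gs p) {A B : Finset E} (hA : A ⊆ gs p)
    (h2 : 2 ≤ A.card) (h : ((gs p).erase u \ B).card ≤ 1) : cR r p (gs p) + 2 ≤ cR r p A + cR r p B := by
  have h4 := ctwo hr hp h3 hn hA h2
  obtain ⟨v, hv, huv, hs⟩ : ∃ v ∈ gs p, u ≠ v ∧ ((gs p).erase u).erase v ⊆ B := by
    by_cases he : ((gs p).erase u \ B) = ∅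
    · have h5 : 0 < ((gs p).erase u).card := by
        have := Finset.card_erase_add_one hu
        omega
      obtain ⟨v, hv⟩ := Finset.card_pos.1 h5
      refine ⟨v, Finset.mem_of_mem_erase hv, fun h => (Finset.mem_erase.1 hv).1 h.symm, fun w hw => ?_⟩
      by_contra hwB
      have : w ∈ (gs p).erase u \ B := Finset.mem_sdiff.2 ⟨Finset.mem_of_mem_erase hw, hwB⟩
      rw [he] at this
      exact Finset.notMem_empty _ this
    · obtain ⟨v, hv⟩ := Finset.nonempty_iff_ne_empty.2 he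
      have hv1 := (Finset.mem_sdiff.1 hv).1
      refine ⟨v, Finset.mem_of_mem_erase hv1, fun h => (Finset.mem_erase.1 hv1).1 h.symm, fun w hw => ?_⟩
      by_contra hwB
      have h6 : w ∈ (gs p).erase u \ B := Finset.mem_sdiff.2 ⟨Finset.mem_of_mem_erase hw, hwB⟩
      exact (Finset.mem_erase.1 hw).1 (Finset.card_le_one.1 h w h6 v hv)
  have h5 := cR_mono (r := r) (p := p) hr hs
  rw [cdel2 hr hp h3 hn hu hv huv] at h5
  linarith

private theorem ct1 (hr : Rk r) (hp : p.1 ⊆ p.2) (h3 : Th3 r p) (hn : 4 ≤ (gs p).card) {u : E} (hu : u ∈ gs p) (hu3 : Th3 r (rm true u p))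
    {A B : Finset E} (hA : A ⊆ gs p) (hB : B ⊆ gs p) (hcov : ∀ w ∈ gs p, w ≠ u → w ∈ A ∨ w ∈ B)
    (h1 : 2 ≤ A.card) (h2 : 2 ≤ B.card) : cR r p (gs p) + 2 ≤ cR r p A + cR r p B := by
  by_cases k1 : ((gs p).erase u \ B).card ≤ 1
  · exact ct1a hr hp h3 hn hu hA h1 k1
  by_cases k2 : ((gs p).erase u \ A).card ≤ 1
  · have := ct1a hr hp h3 hn hu hB h2 k2
    linarith
  have s1 : ((gs p).erase u \ B) ⊆ A := by
    intro w hw
    obtain ⟨g1, g2⟩ := Finset.mem_sdiff.1 hw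
    obtain ⟨g3, g4⟩ := Finset.mem_erase.1 g1
    exact (hcov w g4 g3).resolve_right g2
  have s2 : ((gs p).erase u \ A) ⊆ (gs p).erase u \ ((gs p).erase u \ B) := by
    intro w hw
    obtain ⟨g1, g2⟩ := Finset.mem_sdiff.1 hw
    exact Finset.mem_sdiff.2 ⟨g1, fun g3 => g2 (s1 g3)⟩
  have s3 : (gs p).erase u \ ((gs p).erase u \ B) ⊆ B := by
    intro w hw
    obtain ⟨g1, g2⟩ := Finset.mem_sdiff.1 hw
    by_contra g3
    exact g2 (Finset.mem_sdiff.2 ⟨g1, g3⟩)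
  have hw := QUB.wf_rm (t := true) hp hu
  have k3 := hu3 ((gs p).erase u \ B) (by rw [gs_rm]; exact Finset.sdiff_subset) (by omega) (by
    rw [gs_rm]
    have := Finset.card_le_card s2
    omega)
  rw [cR_lam hw (by rw [gs_rm]; exact Finset.sdiff_subset), gs_rm] at k3
  have e1 : ∀ X : Finset E, cR r (rm true u p) X = cR r p X := fun X => rfl
  rw [e1, e1, e1] at k3
  have k4 := cR_mono (r := r) (p := p) hr s1
  have k5 := cR_mono (r := r) (p := p) hr s3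
  have k6 : cR r p ((gs p).erase u) = cR r p (gs p) := by
    have h5 : 0 < ((gs p).erase u).card := by
      have := Finset.card_erase_add_one hu
      omega
    obtain ⟨v, hv⟩ := Finset.card_pos.1 h5
    obtain ⟨g1, g2⟩ := Finset.mem_erase.1 hv
    have g3 := cdel2 hr hp h3 hn hu g2 (Ne.symm g1)
    have g4 := cR_mono (r := r) (p := p) hr (Finset.erase_subset v ((gs p).erase u))
    have g5 := cR_mono (r := r) (p := p) hr (Finset.erase_subset u (gs p))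
    linarith
  linarith

private theorem ct2 (hr : Rk r) (hp : p.1 ⊆ p.2) (h3 : Th3 r p) (hn : 4 ≤ (gs p).card) {u v : E} (hu : u ∈ gs p) (hv : v ∈ gs p) (huv : u ≠ v)
    (hc : Cn r (rm true u (rm true v p)))
    {A B : Finset E} (hA : A ⊆ gs p) (hB : B ⊆ gs p) (hcov : ∀ w ∈ gs p, w ≠ u → w ≠ v → w ∈ A ∨ w ∈ B)
    (h1 : A.Nonempty) (h2 : B.Nonempty) : cR r p (gs p) + 1 ≤ cR r p A + cR r p B := by
  have eg : gs (rm true u (rm true v p)) = ((gs p).erase v).erase u := by rw [gs_rm, gs_rm]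
  have er := cdel2 hr hp h3 hn hv hu huv.symm
  have a1 := cone hr hp h3 hn hA h1
  have b1 := cone hr hp h3 hn hB h2
  by_cases k1 : ((gs p).erase v).erase u \ B = ∅
  · have := cR_mono (r := r) (p := p) hr (Finset.sdiff_eq_empty_iff_subset.1 k1)
    linarith
  by_cases k2 : ((gs p).erase v).erase u \ A = ∅
  · have := cR_mono (r := r) (p := p) hr (Finset.sdiff_eq_empty_iff_subset.1 k2)
    linarith
  have s1 : (((gs p).erase v).erase u \ B) ⊆ A := by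
    intro w hw
    obtain ⟨g1, g2⟩ := Finset.mem_sdiff.1 hw
    obtain ⟨g3, g4⟩ := Finset.mem_erase.1 g1
    obtain ⟨g5, g6⟩ := Finset.mem_erase.1 g4
    exact (hcov w g6 g3 g5).resolve_right g2
  have s2 : (((gs p).erase v).erase u \ A) ⊆ ((gs p).erase v).erase u \ (((gs p).erase v).erase u \ B) := by
    intro w hw
    obtain ⟨g1, g2⟩ := Finset.mem_sdiff.1 hw
    exact Finset.mem_sdiff.2 ⟨g1, fun g3 => g2 (s1 g3)⟩
  have s3 : ((gs p).erase v).erase u \ (((gs p).erase v).erase u \ B) ⊆ B := by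
    intro w hw
    obtain ⟨g1, g2⟩ := Finset.mem_sdiff.1 hw
    by_contra g3
    exact g2 (Finset.mem_sdiff.2 ⟨g1, g3⟩)
  have hw := QUB.wf_rm (t := true) (x := u) (QUB.wf_rm (t := true) hp hv) (by rw [gs_rm]; exact Finset.mem_erase.2 ⟨huv, hu⟩)
  have k3 := hc (((gs p).erase v).erase u \ B) (by rw [eg]; exact Finset.sdiff_subset) (Finset.nonempty_iff_ne_empty.2 k1) (by
    rw [eg]
    exact (Finset.nonempty_iff_ne_empty.2 k2).mono s2)
  rw [cR_lam hw (by rw [eg]; exact Finset.sdiff_subset), eg] at k3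
  have e1 : ∀ X : Finset E, cR r (rm true u (rm true v p)) X = cR r p X := fun X => rfl
  rw [e1, e1, e1] at k3
  have k4 := cR_mono (r := r) (p := p) hr s1
  have k5 := cR_mono (r := r) (p := p) hr s3
  linarith

private theorem cgs (x y : E) (w : E) : w ∈ gs (rm true x (rm true y p)) ↔ w ∈ gs p ∧ w ≠ x ∧ w ≠ y := by
  rw [gs_rm, gs_rm, Finset.mem_erase, Finset.mem_erase]
  tauto

/-- the rank of the deletion of two elements -/
private theorem crG (hr : Rk r) (hp : p.1 ⊆ p.2) (h3 : Th3 r p) (hn : 4 ≤ (gs p).card) {x y : E} (hx : x ∈ gs p) (hy : y ∈ gs p) (hyx : y ≠ x) :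
    cR r (rm true x (rm true y p)) (gs (rm true x (rm true y p))) = cR r p (gs p) := by
  have e1 : ∀ X : Finset E, cR r (rm true x (rm true y p)) X = cR r p X := fun X => rfl
  rw [e1, gs_rm, gs_rm]
  exact cdel2 hr hp h3 hn hy hx hyx

private theorem cwf (hp : p.1 ⊆ p.2) {x y : E} (hx : x ∈ gs p) (hy : y ∈ gs p) (hyx : y ≠ x) :
    (rm true x (rm true y p)).1 ⊆ (rm true x (rm true y p)).2 :=
  QUB.wf_rm (t := true) (x := x) (QUB.wf_rm (t := true) hp hy) (by rw [gs_rm]; exact Finset.mem_erase.2 ⟨hyx.symm, hx⟩)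

/-- a split gives a separation -/
private theorem csp_lam (hr : Rk r) (hp : p.1 ⊆ p.2) (h3 : Th3 r p) (hn : 4 ≤ (gs p).card) {x y : E} (hx : x ∈ gs p) (hy : y ∈ gs p) (hyx : y ≠ x)
    {A B : Finset E} (hcov : ∀ w, w ∈ A ∨ w ∈ B ↔ w ∈ gs p ∧ w ≠ x ∧ w ≠ y) (hd : ∀ w, w ∈ A → w ∉ B) :
    QUB.lam r (rm true x (rm true y p)) A = cR r p A + cR r p B - cR r p (gs p) := by
  have hA : A ⊆ gs (rm true x (rm true y p)) := fun w hw => (cgs x y w).2 ((hcov w).1 (Or.inl hw))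
  have e2 : gs (rm true x (rm true y p)) \ A = B := by
    ext w
    rw [Finset.mem_sdiff, cgs]
    have h1 := hcov w
    have h2 := hd w
    tauto
  have e1 : ∀ X : Finset E, cR r (rm true x (rm true y p)) X = cR r p X := fun X => rfl
  rw [cR_lam (cwf hp hx hy hyx) hA, e2, crG hr hp h3 hn hx hy hyx, e1, e1]

/-- a split shows that the deletion is not `Ok` -/
theorem csp_nok (hr : Rk r) (hp : p.1 ⊆ p.2) (h3 : Th3 r p) (hn : 4 ≤ (gs p).card) {x y : E} (hx : x ∈ gs p) (hy : y ∈ gs p) (hyx : y ≠ x)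
    {A B : Finset E} (h : Cft.Sp (cR r p) (gs p) (cH r p) x y A B) : ¬ Ok r (rm true x (rm true y p)) := by
  intro ho
  have h1 := csp_lam hr hp h3 hn hx hy hyx h.cov h.dis
  have hA : A ⊆ gs (rm true x (rm true y p)) := fun w hw => (cgs x y w).2 ((h.cov w).1 (Or.inl hw))
  refine ho A hA ?_ ⟨h.hA, h.hB.mono fun w hw => Finset.mem_sdiff.2 ⟨(cgs x y w).2 ((h.cov w).1 (Or.inr hw)), fun h2 => h.dis w h2 hw⟩⟩
  have := h.rk
  linarith

/-- if the deletion is not `Ok` there is a split -/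
theorem csp_of_nok (hr : Rk r) (hp : p.1 ⊆ p.2) (h3 : Th3 r p) (hn : 4 ≤ (gs p).card) {x y : E} (hx : x ∈ gs p) (hy : y ∈ gs p) (hyx : y ≠ x)
    (h : ¬ Ok r (rm true x (rm true y p))) : ∃ A B, Cft.Sp (cR r p) (gs p) (cH r p) x y A B := by
  unfold Ok at h
  push Not at h
  obtain ⟨A, hA, hl, h1, h2⟩ := h
  have hcov : ∀ w, w ∈ A ∨ w ∈ gs (rm true x (rm true y p)) \ A ↔ w ∈ gs p ∧ w ≠ x ∧ w ≠ y := by
    intro w
    rw [← cgs, Finset.mem_sdiff]
    have := @hA w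
    tauto
  have hd : ∀ w, w ∈ A → w ∉ gs (rm true x (rm true y p)) \ A := fun w h1 h2 => (Finset.mem_sdiff.1 h2).2 h1
  have h4 := csp_lam hr hp h3 hn hx hy hyx hcov hd
  exact ⟨A, _, hcov, hd, by linarith, h1, h2⟩

/-- 3-connected boxes are `Ok` -/
theorem th3_ok (h3 : Th3 r p) : Ok r p := by
  intro A hA hl h
  have h1 := h.1.card
  have h2 := h.2.card
  have h4 : 2 ≤ QUB.lam r p A := h3 A hA (by omega) (by
    have e : Pool.Agent.QU.gs p \ A = gs p \ A := rfl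
    omega)
  omega

/-- the closures in a triangle -/
structure Tcl (r : Finset E → ℤ) (p : Itv E) (x1 x2 x3 : E) : Prop where
  g1 : x1 ∈ gs p
  g2 : x2 ∈ gs p
  g3 : x3 ∈ gs p
  n12 : x1 ≠ x2
  n13 : x1 ≠ x3
  n23 : x2 ≠ x3
  tri : Tri3 r p x1 x2 x3

theorem cT_facts {x1 x2 x3 a b c : E} (T : Tcl r p x1 x2 x3) (h : cT x1 x2 x3 a b c) : Tcl r p a b c := by
  obtain ⟨g1, g2, g3, n12, n13, n23, ⟨t1, t3⟩, t2⟩ := T
  have u1 : r (insert x1 (insert x3 (insert x2 p.1))) = r (insert x3 (insert x2 p.1)) := by rw [Finset.insert_comm x3 x2]; exact t1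
  have u2 : r (insert x2 (insert x3 (insert x1 p.1))) = r (insert x3 (insert x1 p.1)) := by rw [Finset.insert_comm x3 x1]; exact t2
  have u3 : r (insert x3 (insert x2 (insert x1 p.1))) = r (insert x2 (insert x1 p.1)) := by rw [Finset.insert_comm x2 x1]; exact t3
  rcases h with ⟨rfl, rfl, rfl⟩ | ⟨rfl, rfl, rfl⟩ | ⟨rfl, rfl, rfl⟩ | ⟨rfl, rfl, rfl⟩ | ⟨rfl, rfl, rfl⟩ | ⟨rfl, rfl, rfl⟩
  · exact ⟨g1, g2, g3, n12, n13, n23, ⟨t1, t3⟩, t2⟩
  · exact ⟨g1, g3, g2, n13, n12, n23.symm, ⟨u1, t2⟩, t3⟩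
  · exact ⟨g2, g1, g3, n12.symm, n23, n13, ⟨t2, u3⟩, t1⟩
  · exact ⟨g2, g3, g1, n23, n12.symm, n13.symm, ⟨u2, t1⟩, u3⟩
  · exact ⟨g3, g1, g2, n13.symm, n23.symm, n12, ⟨t3, u2⟩, u1⟩
  · exact ⟨g3, g2, g1, n23.symm, n13.symm, n12.symm, ⟨u3, u1⟩, u2⟩

private theorem cT_1 {x1 x2 x3 a b c : E} (h : cT x1 x2 x3 a b c) : cT x1 x2 x3 b a c := by
  rcases h with ⟨h1, h2, h3⟩ | ⟨h1, h2, h3⟩ | ⟨h1, h2, h3⟩ | ⟨h1, h2, h3⟩ | ⟨h1, h2, h3⟩ | ⟨h1, h2, h3⟩
  · exact Or.inr (Or.inr (Or.inl ⟨h2, h1, h3⟩))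
  · exact Or.inr (Or.inr (Or.inr (Or.inr (Or.inl ⟨h2, h1, h3⟩))))
  · exact Or.inl ⟨h2, h1, h3⟩
  · exact Or.inr (Or.inr (Or.inr (Or.inr (Or.inr ⟨h2, h1, h3⟩))))
  · exact Or.inr (Or.inl ⟨h2, h1, h3⟩)
  · exact Or.inr (Or.inr (Or.inr (Or.inl ⟨h2, h1, h3⟩)))

private theorem cT_2 {x1 x2 x3 a b c : E} (h : cT x1 x2 x3 a b c) : cT x1 x2 x3 a c b := by
  rcases h with ⟨h1, h2, h3⟩ | ⟨h1, h2, h3⟩ | ⟨h1, h2, h3⟩ | ⟨h1, h2, h3⟩ | ⟨h1, h2, h3⟩ | ⟨h1, h2, h3⟩
  · exact Or.inr (Or.inl ⟨h1, h3, h2⟩)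
  · exact Or.inl ⟨h1, h3, h2⟩
  · exact Or.inr (Or.inr (Or.inr (Or.inl ⟨h1, h3, h2⟩)))
  · exact Or.inr (Or.inr (Or.inl ⟨h1, h3, h2⟩))
  · exact Or.inr (Or.inr (Or.inr (Or.inr (Or.inr ⟨h1, h3, h2⟩))))
  · exact Or.inr (Or.inr (Or.inr (Or.inr (Or.inl ⟨h1, h3, h2⟩))))

/-- data of a conflict at the triangle, in the form needed for `key_f4` -/
structure CftD (r : Finset E → ℤ) (p : Itv E) (f a b y : E) (A B F : Finset E) : Prop where
  yG : y ∈ gs p
  yf : y ≠ f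
  ya : y ≠ a
  yb : y ≠ b
  cov : ∀ w, w ∈ A ∨ w ∈ B ↔ w ∈ gs p ∧ w ≠ b ∧ w ≠ y
  dis : ∀ w, w ∈ A → w ∉ B
  rk : cR r p A + cR r p B = cR r p (gs p) + 1
  hA : Hv r (rm true b (rm true y p)) A
  hB : Hv r (rm true b (rm true y p)) B
  nok : ¬ Ok r (rm true b (rm true y p))
  okf : Ok r (rm true f (rm true y p))
  oka : Ok r (rm true a (rm true y p))
  fA : f ∈ A
  aB : a ∈ B
  F1 : F ⊆ gs p
  F2 : f ∉ F
  F3 : a ∉ F
  F4 : b ∉ F
  F5 : Disjoint (A.erase f) F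
  k1 : ∀ w ∈ F, Cn r (rm true f (rm true w p)) ∧ Ok r (rm true f (rm true w p))
  k2 : r (insert a (insert f (p.1 ∪ F))) = r (insert f (p.1 ∪ F))
  k3 : r (insert f (p.1 ∪ A.erase f)) = r (p.1 ∪ A.erase f)
  k4 : r (insert a (p.1 ∪ A.erase f)) = r (p.1 ∪ A.erase f) + 1
  k5 : r (insert a (p.1 ∪ B.erase a)) = r (p.1 ∪ B.erase a)
  k6 : r (insert f (p.1 ∪ B.erase a)) = r (p.1 ∪ B.erase a) + 1

private theorem ccl (hr : Rk r) {a b c : E} (h : r (insert c (insert a (insert b p.1))) = r (insert a (insert b p.1))) {S : Finset E} (ha : a ∈ S) (hb : b ∈ S) :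
    cR r p (insert c S) = cR r p S := by
  unfold cR
  rw [tu_cl hr h ha hb]

private theorem cx_of (hr : Rk r) (hp : p.1 ⊆ p.2) (hc : Cn r p) (h3 : Th3 r p) (h9 : 9 ≤ (gs p).card) {x1 x2 x3 : E} (T : Tcl r p x1 x2 x3)
    (hall : ∀ w ∈ gs p, Th3 r (rm true w p)) : Cft.Cx (cR r p) (gs p) (cH r p) (cT x1 x2 x3) := by
  have h4 : 4 ≤ (gs p).card := by omega
  have hcn : ∀ u ∈ gs p, ∀ v ∈ gs p, u ≠ v → Cn r (rm true u (rm true v p)) := by
    intro u hu v hv huv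
    refine th3_cn hr (QUB.wf_rm hp hv) (th3_cn hr hp hc h3 h4 hv true) (hall v hv) ?_ ?_ true
    · rw [gs_rm]
      have := Finset.card_erase_add_one hv
      omega
    · rw [gs_rm]
      exact Finset.mem_erase.2 ⟨huv, hu⟩
  constructor
  · intro A B h
    exact cR_mono hr h
  · intro A x
    have h1 := hr.unit (p.1 ∪ A) x
    have e : p.1 ∪ insert x A = insert x (p.1 ∪ A) := Finset.union_insert x p.1 A
    unfold cR
    rw [e]
    linarith
  · intro A B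
    have h1 := hr.sub (p.1 ∪ A) (p.1 ∪ B)
    have e1 : p.1 ∪ A ∪ (p.1 ∪ B) = p.1 ∪ (A ∪ B) := by
      ext w
      simp only [Finset.mem_union]
      tauto
    have e2 : (p.1 ∪ A) ∩ (p.1 ∪ B) = p.1 ∪ (A ∩ B) := by
      ext w
      simp only [Finset.mem_union, Finset.mem_inter]
      tauto
    rw [e1, e2] at h1
    unfold cR
    linarith
  · intro u
    have h1 := hr.unit p.1 u
    have e1 : p.1 ∪ {u} = insert u p.1 := by
      ext w
      simp only [Finset.mem_union, Finset.mem_insert, Finset.mem_singleton]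
      tauto
    unfold cR
    rw [e1]
    linarith
  · intro u hu A hA B hB hcov h1 h2
    exact ct1 hr hp h3 h4 hu (hall u hu) hA hB hcov h1 h2
  · intro u hu v hv huv A hA B hB hcov h1 h2
    exact ct2 hr hp h3 h4 hu hv huv (hcn u hu v hv huv) hA hB hcov h1 h2
  · intro a b c h
    exact cT_1 h
  · intro a b c h
    exact cT_2 h
  · intro a b c h
    exact (cT_facts T h).g1
  · intro a b c h
    exact (cT_facts T h).n12
  · intro a b c h A ha hb
    have h1 := (cT_facts T h).tri.1.2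
    exact ccl hr h1 ha hb
  · intro x y A B h1 h2
    exact Hv.mono h1 h2
  · intro x y A h
    exact h.card
  · intro x y A B b hx hy hyx h hb hle
    have hB : B ⊆ gs (rm true x (rm true y p)) := fun w hw => (cgs x y w).2 ((h.cov w).1 (Or.inr hw))
    refine Hv.erase hr (cwf hp hx hy hyx) hB ?_ h.hB
    have h5 := csp_lam hr hp h3 h4 hx hy hyx (A := B.erase b) (B := insert b A) (fun w => by
      have h1 := h.cov w
      rw [Finset.mem_erase, Finset.mem_insert, ← h1]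
      have h2 := h.dis w
      by_cases h3 : w = b
      · rw [h3]
        tauto
      · tauto) (fun w h1 h2 => by
      obtain ⟨g1, g2⟩ := Finset.mem_erase.1 h1
      rcases Finset.mem_insert.1 h2 with g3 | g3
      · exact g1 g3
      · exact h.dis w g3 g2)
    linarith
  · intro a b c y A B C D ht hy hya hyb hyc hA hC
    have F := cT_facts T ht
    have hq : (rm true y p).1 ⊆ (rm true y p).2 := QUB.wf_rm hp hy
    have hm : ∀ {w : E}, w ∈ gs p → y ≠ w → w ∈ gs (rm true y p) := by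
      intro w hw hne
      rw [gs_rm]
      exact Finset.mem_erase.2 ⟨hne.symm, hw⟩
    rcases QUB.tri_del hr hq (th3_cn hr hp hc h3 h4 hy true) (th3_ok (hall y hy)) (hm F.g1 hya) (hm F.g2 hyb) (hm F.g3 hyc) F.n12 F.n13 F.n23
      F.tri.1.1 F.tri.2 with g | g
    · exact csp_nok hr hp h3 h4 F.g1 hy hya hA g
    · exact csp_nok hr hp h3 h4 F.g2 hy hyb hC g
  · exact h9

/-- CONFLICTS: if the deletion of an `x` of the triangle and a `y` outside is not `Ok`, then the hypotheses of the KEY LEMMA hold, but for the richness -/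
theorem cft (hr : Rk r) (hp : p.1 ⊆ p.2) (hc : Cn r p) (h3 : Th3 r p) (h9 : 9 ≤ (gs p).card) {x1 x2 x3 : E} (T : Tcl r p x1 x2 x3)
    (hall : ∀ w ∈ gs p, Th3 r (rm true w p)) {x y : E} (hx : x = x1 ∨ x = x2 ∨ x = x3) (hy : y ∈ gs p) (hy1 : y ≠ x1) (hy2 : y ≠ x2) (hy3 : y ≠ x3)
    (hno : ¬ Ok r (rm true x (rm true y p))) : ∃ f a b z A B F, cT x1 x2 x3 f a b ∧ Tcl r p f a b ∧ CftD r p f a b z A B F := by
  have h4 : 4 ≤ (gs p).card := by omega
  have X := cx_of hr hp hc h3 h9 T hall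
  have hcn : ∀ u ∈ gs p, ∀ v ∈ gs p, u ≠ v → Cn r (rm true u (rm true v p)) := by
    intro u hu v hv huv
    refine th3_cn hr (QUB.wf_rm hp hv) (th3_cn hr hp hc h3 h4 hv true) (hall v hv) ?_ ?_ true
    · rw [gs_rm]
      have := Finset.card_erase_add_one hv
      omega
    · rw [gs_rm]
      exact Finset.mem_erase.2 ⟨huv, hu⟩
  obtain ⟨b', c', ht, hyb, hyc, hyx, hxG⟩ : ∃ b' c', cT x1 x2 x3 x b' c' ∧ y ≠ b' ∧ y ≠ c' ∧ y ≠ x ∧ x ∈ gs p := by
    rcases hx with rfl | rfl | rfl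
    · exact ⟨x2, x3, Or.inl ⟨rfl, rfl, rfl⟩, hy2, hy3, hy1, T.g1⟩
    · exact ⟨x1, x3, Or.inr (Or.inr (Or.inl ⟨rfl, rfl, rfl⟩)), hy1, hy3, hy2, T.g2⟩
    · exact ⟨x1, x2, Or.inr (Or.inr (Or.inr (Or.inr (Or.inl ⟨rfl, rfl, rfl⟩)))), hy1, hy2, hy3, T.g3⟩
  obtain ⟨A0, B0, h0⟩ := csp_of_nok hr hp h3 h4 hxG hy hyx hno
  obtain ⟨A1, B1, h1⟩ : ∃ A1 B1, Cft.Lab (cR r p) (gs p) (cH r p) (cT x1 x2 x3) x b' c' y A1 B1 := by
    rcases X.lab_of ht hy hyx hyb hyc h0 with g | g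
    · exact ⟨_, _, g⟩
    · exact ⟨_, _, g⟩
  obtain ⟨b, f, a, z, A, B, F, hL, hK⟩ := Cft.cft_abs X h1
  have Fc := hL.fct X
  have tl := hL.tl
  have t2 : cT x1 x2 x3 f a b := cT_2 (cT_1 tl)
  have TT := cT_facts T t2
  have hins : ∀ (v : E) (S : Finset E), r (insert v (p.1 ∪ S)) = cR r p (insert v S) + r p.1 := by
    intro v S
    unfold cR
    rw [Finset.union_insert]
    ring
  have hun : ∀ S : Finset E, r (p.1 ∪ S) = cR r p S + r p.1 := by
    intro S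
    unfold cR
    ring
  have hok : ∀ {v u : E}, v ∈ gs p → u ∈ gs p → u ≠ v → (∀ P Q : Finset E, ¬ Cft.Sp (cR r p) (gs p) (cH r p) v u P Q) → Ok r (rm true v (rm true u p)) := by
    intro v u hv hu huv hS
    by_contra hcon
    obtain ⟨P, Q, hPQ⟩ := csp_of_nok hr hp h3 h4 hv hu huv hcon
    exact hS P Q hPQ
  have kcl : ∀ {v u : E} {S : Finset E}, u ∈ S → cR r p (S.erase u) = cR r p S → cR r p (insert v S) = cR r p S + 1 →
      cR r p (insert v (S.erase u)) = cR r p (S.erase u) + 1 := by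
    intro v u S hu h1 h2
    have g1 : cR r p (insert u (insert v (S.erase u))) = cR r p (insert v (S.erase u)) := X.cl_erase hu h1 (Finset.subset_insert _ _)
    rw [Finset.insert_comm u v, Finset.insert_erase hu] at g1
    linarith
  refine ⟨f, a, b, z, A, B, F, t2, TT, ?_⟩
  exact {
    yG := hL.yG
    yf := Fc.yb
    ya := Fc.yc
    yb := Fc.ya
    cov := hL.sp.cov
    dis := hL.sp.dis
    rk := Fc.rk
    hA := hL.sp.hA
    hB := hL.sp.hB
    nok := csp_nok hr hp h3 h4 Fc.aG hL.yG Fc.ya hL.sp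
    okf := hok Fc.bG hL.yG Fc.yb fun P Q h => X.tt b f a z A B P Q tl hL.yG Fc.ya Fc.yb Fc.yc hL.sp h
    oka := hok Fc.cG hL.yG Fc.yc fun P Q h => X.tt b a f z A B P Q (cT_2 tl) hL.yG Fc.ya Fc.yc Fc.yb hL.sp h
    fA := hL.bA
    aB := hL.cB
    F1 := hK.sF
    F2 := hK.bF
    F3 := hK.cF
    F4 := hK.aF
    F5 := hK.dis
    k1 := fun w hw => by
      have hwG := hK.sF hw
      have hwf : w ≠ f := fun h => hK.bF (h ▸ hw)
      exact ⟨hcn f Fc.bG w hwG hwf.symm, hok Fc.bG hwG hwf (hK.nod w hw)⟩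
    k2 := by
      have g1 := hins a (insert f F)
      have g2 := hins f F
      rw [Finset.union_insert] at g1
      rw [g1, g2, hK.k2]
    k3 := by
      rw [hins, hun, Finset.insert_erase hL.bA, Fc.eA]
    k4 := by
      rw [hins, hun, kcl hL.bA Fc.eA Fc.gA]
      ring
    k5 := by
      rw [hins, hun, Finset.insert_erase hL.cB, Fc.eB]
    k6 := by
      rw [hins, hun, kcl hL.cB Fc.eB Fc.gB]
      ring }

open Pool.Agent.FRM in
/-- `cft` together with the KEY LEMMA: it remains to show that the deletion of `f` is rich -/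
theorem cft_f4 [Fintype E] (S : TP F4 E) (hNU : NU S.r) {p : Itv E} (hp : p.1 ⊆ p.2) (hc : Cn S.r p) (h3 : Th3 S.r p) (h9 : 9 ≤ (gs p).card) {x1 x2 x3 : E}
    (T : Tcl S.r p x1 x2 x3) (hall : ∀ w ∈ gs p, Th3 S.r (rm true w p)) (hex : ∀ w ∈ gs p, ∃ T, InVs S (rm true w p) T)
    (hR : ∀ f a b z A B F, cT x1 x2 x3 f a b → Tcl S.r p f a b → CftD S.r p f a b z A B F → HasRich S.r (rm true f p))
    {x y : E} (hx : x = x1 ∨ x = x2 ∨ x = x3) (hy : y ∈ gs p) (hy1 : y ≠ x1) (hy2 : y ≠ x2) (hy3 : y ≠ x3)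
    (hno : ¬ Ok S.r (rm true x (rm true y p))) : ∃ T : Fm F4 E, InV S.U S.W p T ∧ ¬ EqD S.U S.W p T 0 := by
  obtain ⟨f, a, b, z, A, B, F, h1, h2, h5⟩ := cft S.rk hp hc h3 h9 T hall hx hy hy1 hy2 hy3 hno
  refine key_f4 S hNU hp h2.g1 h2.g2 h2.g3 h2.n12 h2.n13 h2.n23 h2.tri h5.F1 h5.F2 h5.F3 h5.F4 (A := A.erase f) ?_ (Finset.notMem_erase f A) h5.F5 hex
    (hR f a b z A B F h1 h2 h5) h5.k1 h5.k2 h5.k3 h5.k4
  intro w hw
  exact ((h5.cov w).1 (Or.inl (Finset.mem_of_mem_erase hw))).1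

end Pool.Agent.QU
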