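import Pool.Agent.QUR.Tth
import Pool.Agent.QUB.Bix

/-!
# QUR/LemJ: Lemma J

`half`: a connected minor with ground set `A ∪ y` for a proper subset `A` (the part of the 2-sum on the side `A`).
`lv_sum`: `A | B` is a separation of order at most one of `q` and on both half boxes all forms of `V` are diagonal. Then the forms of `V(q)` are
diagonal up to one scalar.
`lemJ`: a connected box `q` either has this property, or it has a heavy 2-side `X` (the other side is heavy, too) such that the half box of the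
other side is rich or not `Ok`.
-/

set_option autoImplicit false

open Module (finrank)

namespace Pool.Agent.QU

open QUB (Cn Ok Rk Hv)
open Pool.Agent.FRM

section half

variable {E : Type} [DecidableEq E] {r : Finset E → ℤ}

/-- the half box of the side `A` -/
theorem half (hr : Rk r) {A : Finset E} : ∀ (n : ℕ) {q : Itv E}, q.1 ⊆ q.2 → Cn r q → A ⊆ gs q → (gs q \ A).card = n + 1 →
    ∃ q', Sub q' q ∧ q'.1 ⊆ q'.2 ∧ Cn r q' ∧ ∃ y ∈ gs q \ A, gs q' = insert y A := by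
  intro n
  induction n with
  | zero =>
    intro q hq hc hA hn
    obtain ⟨y, hy⟩ := Finset.card_eq_one.1 hn
    refine ⟨q, ⟨Finset.Subset.rfl, Finset.Subset.rfl⟩, hq, hc, y, by rw [hy]; exact Finset.mem_singleton_self y, ?_⟩
    have h1 := Finset.sdiff_union_of_subset hA
    rw [hy] at h1
    rw [← h1]
    rfl
  | succ n ih =>
    intro q hq hc hA hn
    obtain ⟨z, hz⟩ : (gs q \ A).Nonempty := Finset.card_pos.1 (by omega)
    have hz' := Finset.mem_sdiff.1 hz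
    obtain ⟨t, ht⟩ : ∃ t, Cn r (QUB.rm t z q) := by
      rcases QUB.tutte hr hq hz'.1 hc with h | h
      · exact ⟨true, h⟩
      · exact ⟨false, h⟩
    have hg : gs (QUB.rm t z q) = (gs q).erase z := QUB.gs_rm t z q
    have hA' : A ⊆ gs (QUB.rm t z q) := by
      rw [hg]
      exact fun x hx => Finset.mem_erase.2 ⟨fun h => hz'.2 (h ▸ hx), hA hx⟩
    have hn' : (gs (QUB.rm t z q) \ A).card = n + 1 := by
      have e : gs (QUB.rm t z q) \ A = (gs q \ A).erase z := by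
        rw [hg]
        ext x
        simp only [Finset.mem_sdiff, Finset.mem_erase]
        tauto
      rw [e, Finset.card_erase_of_mem hz]
      omega
    obtain ⟨q', h1, h2, h3, y, hy, h4⟩ := ih (QUB.wf_rm hq hz'.1) ht hA' hn'
    refine ⟨q', (rm_sub t z q).trans h1, h2, h3, y, ?_, h4⟩
    rw [hg] at hy
    have hy' := Finset.mem_sdiff.1 hy
    exact Finset.mem_sdiff.2 ⟨(Finset.mem_erase.1 hy'.1).2, hy'.2⟩

end half

variable {K E : Type} [Field K] [Fintype E] [DecidableEq E]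

private theorem lj_van_sup (S : TP K E) {A B D : Finset E} (hA : D ⊆ A) (hB : D ⊆ B)
    (h : S.r A + S.r B ≤ S.r (A ∪ B) + S.r D) : van S.U A ⊔ van S.U B = van S.U D := by
  refine Submodule.eq_of_le_of_finrank_le (sup_le (van_anti hA) (van_anti hB)) ?_
  have h5 := Submodule.finrank_sup_add_finrank_inf_eq (van S.U A) (van S.U B)
  rw [← van_union] at h5
  have a1 := S.hU A
  have a2 := S.hU B
  have a3 := S.hU (A ∪ B)
  have a4 := S.hU D
  have c5 : (finrank K ↥(van S.U A ⊔ van S.U B) : ℤ) + finrank K (van S.U (A ∪ B)) =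
      finrank K (van S.U A) + finrank K (van S.U B) := by exact_mod_cast h5
  have c6 : (finrank K (van S.U D) : ℤ) ≤ finrank K ↥(van S.U A ⊔ van S.U B) := by linarith
  exact_mod_cast c6

private theorem lj_spt_sup (S : TP K E) {A B D : Finset E} (hA : A ⊆ D) (hB : B ⊆ D) (hc : D.card + (A ∩ B).card = A.card + B.card)
    (h : S.r A + S.r B ≤ S.r D + S.r (A ∩ B)) : spt S.W A ⊔ spt S.W B = spt S.W D := by
  refine Submodule.eq_of_le_of_finrank_le (sup_le (spt_mono hA) (spt_mono hB)) ?_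
  have h5 := Submodule.finrank_sup_add_finrank_inf_eq (spt S.W A) (spt S.W B)
  rw [← spt_inter] at h5
  have a1 := S.hW A
  have a2 := S.hW B
  have a3 := S.hW D
  have a4 := S.hW (A ∩ B)
  have b : (D.card : ℤ) + (A ∩ B).card = A.card + B.card := by exact_mod_cast hc
  have c5 : (finrank K ↥(spt S.W A ⊔ spt S.W B) : ℤ) + finrank K (spt S.W (A ∩ B)) =
      finrank K (spt S.W A) + finrank K (spt S.W B) := by exact_mod_cast h5
  have c6 : (finrank K (spt S.W D) : ℤ) ≤ finrank K ↥(spt S.W A ⊔ spt S.W B) := by linarith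
  exact_mod_cast c6

/-- one side: the forms which are diagonal on the half box of `A` are diagonal on the vectors inside `A` -/
private theorem lj_side (S : TP K E) {q : Itv E} (hq : q.1 ⊆ q.2) {A : Finset E} (hA : A ⊆ gs q) (hl : QUB.lam S.r q A ≤ 1)
    {qA : Itv E} {y : E} (hs : Sub qA q) (hqA : qA.1 ⊆ qA.2) (hy : y ∈ gs q \ A) (hg : gs qA = insert y A) (hlA : 1 ≤ QUB.lam S.r qA A)
    {T : Fm K E} (hT : InV S.U S.W q T) {l : E → K} (hTl : EqOn S.U S.W qA T (dg l)) {m : E → K} (hm : ∀ x ∈ A, m x = l x) :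
    (∀ u ∈ van S.U (q.1 ∪ (gs q \ A)), ∀ d ∈ spt S.W q.2, T u d = dg m u d) ∧
      ∀ c ∈ van S.U q.1, ∀ w ∈ spt S.W (q.1 ∪ A), T c w = dg m c w := by
  classical
  have hr := S.rk
  obtain ⟨s1, s2⟩ := hs
  have hy' := Finset.mem_sdiff.1 hy
  have mA : ∀ x ∈ A, x ∈ qA.2 ∧ x ∉ qA.1 := fun x hx => by
    have : x ∈ gs qA := by rw [hg]; exact Finset.mem_insert_of_mem hx
    exact ⟨(Finset.mem_sdiff.1 this).1, (Finset.mem_sdiff.1 this).2⟩
  have my : y ∈ qA.2 ∧ y ∉ qA.1 := by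
    have : y ∈ gs qA := by rw [hg]; exact Finset.mem_insert_self _ _
    exact ⟨(Finset.mem_sdiff.1 this).1, (Finset.mem_sdiff.1 this).2⟩
  have mq : ∀ x, x ∈ qA.2 → x ∉ qA.1 → x = y ∨ x ∈ A := fun x h1 h2 => by
    have : x ∈ gs qA := Finset.mem_sdiff.2 ⟨h1, h2⟩
    rw [hg] at this
    exact Finset.mem_insert.1 this
  have mq2 : ∀ x ∈ A, x ∈ q.2 ∧ x ∉ q.1 := fun x hx =>
    ⟨(Finset.mem_sdiff.1 (hA hx)).1, (Finset.mem_sdiff.1 (hA hx)).2⟩
  have hl' : S.r (q.1 ∪ A) + S.r (q.2 \ A) - S.r q.2 - S.r q.1 ≤ 1 := hl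
  have hlA' : 1 ≤ S.r (qA.1 ∪ A) + S.r (qA.2 \ A) - S.r qA.2 - S.r qA.1 := hlA
  -- submodularity
  have k1 : S.r (qA.1 ∪ A) + S.r q.1 ≤ S.r qA.1 + S.r (q.1 ∪ A) := by
    have h := hr.sub qA.1 (q.1 ∪ A)
    have e1 : qA.1 ∪ (q.1 ∪ A) = qA.1 ∪ A := by
      ext x; simp only [Finset.mem_union]
      exact ⟨fun h => h.elim Or.inl fun h => h.elim (fun h => Or.inl (s1 h)) Or.inr, fun h => h.elim Or.inl fun h => Or.inr (Or.inr h)⟩
    have e2 : qA.1 ∩ (q.1 ∪ A) = q.1 := by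
      ext x; simp only [Finset.mem_union, Finset.mem_inter]
      exact ⟨fun h => h.2.elim id fun h' => absurd h.1 (mA x h').2, fun h => ⟨s1 h, Or.inl h⟩⟩
    rw [e1, e2] at h
    linarith
  have k2 : S.r q.2 + S.r (qA.2 \ A) ≤ S.r qA.2 + S.r (q.2 \ A) := by
    have h := hr.sub qA.2 (q.2 \ A)
    have e1 : qA.2 ∪ (q.2 \ A) = q.2 := by
      ext x; simp only [Finset.mem_union, Finset.mem_sdiff]
      exact ⟨fun h => h.elim (fun h => s2 h) fun h => h.1, fun h => by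
        by_cases hx : x ∈ A
        · exact Or.inl (mA x hx).1
        · exact Or.inr ⟨h, hx⟩⟩
    have e2 : qA.2 ∩ (q.2 \ A) = qA.2 \ A := by
      ext x; simp only [Finset.mem_sdiff, Finset.mem_inter]
      exact ⟨fun h => ⟨h.1, h.2.2⟩, fun h => ⟨h.1, s2 h.1, h.2⟩⟩
    rw [e1, e2] at h
    linarith
  have hW : spt S.W qA.2 ⊔ spt S.W (q.2 \ A) = spt S.W q.2 := by
    have e2 : qA.2 ∩ (q.2 \ A) = qA.2 \ A := by
      ext x; simp only [Finset.mem_sdiff, Finset.mem_inter]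
      exact ⟨fun h => ⟨h.1, h.2.2⟩, fun h => ⟨h.1, s2 h.1, h.2⟩⟩
    refine lj_spt_sup S s2 Finset.sdiff_subset ?_ (by rw [e2]; linarith)
    have e1 : qA.2 ∪ (q.2 \ A) = q.2 := by
      ext x; simp only [Finset.mem_union, Finset.mem_sdiff]
      exact ⟨fun h => h.elim (fun h => s2 h) fun h => h.1, fun h => by
        by_cases hx : x ∈ A
        · exact Or.inl (mA x hx).1
        · exact Or.inr ⟨h, hx⟩⟩
    have h := Finset.card_union_add_card_inter qA.2 (q.2 \ A)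
    rw [e1] at h
    exact h
  have hU : van S.U qA.1 ⊔ van S.U (q.1 ∪ A) = van S.U q.1 := by
    refine lj_van_sup S s1 Finset.subset_union_left ?_
    have e1 : qA.1 ∪ (q.1 ∪ A) = qA.1 ∪ A := by
      ext x; simp only [Finset.mem_union]
      exact ⟨fun h => h.elim Or.inl fun h => h.elim (fun h => Or.inl (s1 h)) Or.inr, fun h => h.elim Or.inl fun h => Or.inr (Or.inr h)⟩
    rw [e1]
    linarith
  have dgeq : ∀ c d : E → K, (∀ x, x ∉ A → c x * d x = 0) → dg l c d = dg m c d := by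
    intro c d h
    rw [dg_apply, dg_apply]
    refine Finset.sum_congr rfl fun x _ => ?_
    by_cases hx : x ∈ A
    · rw [hm x hx]
    · rw [h x hx, mul_zero, mul_zero]
  constructor
  · intro u hu d hd
    rw [← hW] at hd
    obtain ⟨d1, h1, d2, h2, rfl⟩ := Submodule.mem_sup.1 hd
    have hu' : u ∈ van S.U qA.1 := ⟨hu.1, fun x hx => hu.2 x (by
      by_cases hx1 : x ∈ q.1
      · exact Finset.mem_union_left _ hx1
      · exact Finset.mem_union_right _ (Finset.mem_sdiff.2 ⟨Finset.mem_sdiff.2 ⟨s2 (hqA hx), hx1⟩, fun h => (mA x h).2 hx⟩))⟩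
    have hu'' : u ∈ van S.U q.1 := van_anti Finset.subset_union_left hu
    have z1 : ∀ x, x ∉ A → u x * d1 x = 0 := by
      intro x hx
      by_cases hx2 : x ∈ qA.2
      · by_cases hx1 : x ∈ q.1
        · rw [hu''.2 x hx1, zero_mul]
        · rw [hu.2 x (Finset.mem_union_right _ (Finset.mem_sdiff.2 ⟨Finset.mem_sdiff.2 ⟨s2 hx2, hx1⟩, hx⟩)), zero_mul]
      · rw [h1.2 x hx2, mul_zero]
    have z2 : ∀ x, u x * d2 x = 0 := by
      intro x
      by_cases hx2 : x ∈ q.2 \ A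
      · have hx2' := Finset.mem_sdiff.1 hx2
        by_cases hx1 : x ∈ q.1
        · rw [hu''.2 x hx1, zero_mul]
        · rw [hu.2 x (Finset.mem_union_right _ (Finset.mem_sdiff.2 ⟨Finset.mem_sdiff.2 ⟨hx2'.1, hx1⟩, hx2'.2⟩)), zero_mul]
      · rw [h2.2 x hx2, mul_zero]
    have t1 : T u d1 = dg m u d1 := by rw [hTl u hu' d1 h1, dgeq u d1 z1]
    have t2 : T u d2 = 0 := hT u hu'' d2 (spt_mono Finset.sdiff_subset h2) z2
    have t3 : dg m u d2 = 0 := by
      rw [dg_apply]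
      exact Finset.sum_eq_zero fun x _ => by rw [z2 x, mul_zero]
    rw [map_add, map_add, t1, t2, t3]
  · intro c hc w hw
    rw [← hU] at hc
    obtain ⟨c1, h1, c2, h2, rfl⟩ := Submodule.mem_sup.1 hc
    have hw' : w ∈ spt S.W qA.2 := ⟨hw.1, fun x hx => hw.2 x (by
      intro h
      rcases Finset.mem_union.1 h with h | h
      · exact hx (hqA (s1 h))
      · exact hx (mA x h).1)⟩
    have hw'' : w ∈ spt S.W q.2 := spt_mono s2 hw'
    have z1 : ∀ x, x ∉ A → c1 x * w x = 0 := by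
      intro x hx
      by_cases hx1 : x ∈ q.1
      · rw [h1.2 x (s1 hx1), zero_mul]
      · rw [hw.2 x (fun h => (Finset.mem_union.1 h).elim hx1 hx), mul_zero]
    have z2 : ∀ x, c2 x * w x = 0 := by
      intro x
      by_cases hx : x ∈ q.1 ∪ A
      · rw [h2.2 x hx, zero_mul]
      · rw [hw.2 x hx, mul_zero]
    have t1 : T c1 w = dg m c1 w := by rw [hTl c1 h1 w hw', dgeq c1 w z1]
    have t2 : T c2 w = 0 := hT c2 (van_anti Finset.subset_union_left h2) w hw'' z2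
    have t3 : dg m c2 w = 0 := by
      rw [dg_apply]
      exact Finset.sum_eq_zero fun x _ => by rw [z2 x, mul_zero]
    rw [map_add, map_add, LinearMap.add_apply, LinearMap.add_apply, t1, t2, t3]

omit [Fintype E] [DecidableEq E] in
private theorem lj_codim [Finite E] {N V : Submodule K (E → K)} (hNV : N ≤ V) (h : finrank K V ≤ finrank K N + 1) {c0 : E → K} (h0 : c0 ∈ V)
    (h1 : c0 ∉ N) : ∀ c ∈ V, ∃ k : K, c - k • c0 ∈ N := by
  have hlt : N < N ⊔ Submodule.span K {c0} :=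
    lt_of_le_of_ne le_sup_left fun h => h1 (h ▸ (Submodule.mem_sup_right (Submodule.mem_span_singleton_self c0)))
  have h2 := Submodule.finrank_lt_finrank_of_lt hlt
  have h3 : N ⊔ Submodule.span K {c0} = V := by
    refine Submodule.eq_of_le_of_finrank_le (sup_le hNV ((Submodule.span_singleton_le_iff_mem _ _).2 h0)) ?_
    omega
  intro c hc
  rw [← h3] at hc
  obtain ⟨n, hn, s, hs, rfl⟩ := Submodule.mem_sup.1 hc
  obtain ⟨k, rfl⟩ := Submodule.mem_span_singleton.1 hs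
  exact ⟨k, by rw [add_sub_cancel_right]; exact hn⟩

/-- the forms of `V` are diagonal up to one scalar -/
theorem lv_sum (S : TP K E) {q : Itv E} (hq : q.1 ⊆ q.2) {A : Finset E} (hA : A ⊆ gs q) (hl : QUB.lam S.r q A ≤ 1)
    {qA : Itv E} {y : E} (sA : Sub qA q) (wA : qA.1 ⊆ qA.2) (hy : y ∈ gs q \ A) (gA : gs qA = insert y A) (lA : 1 ≤ QUB.lam S.r qA A)
    (DA : ∀ T, InV S.U S.W qA T → EqD S.U S.W qA T 0)
    {qB : Itv E} {x : E} (sB : Sub qB q) (wB : qB.1 ⊆ qB.2) (hx : x ∈ A) (gB : gs qB = insert x (gs q \ A))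
    (lB : 1 ≤ QUB.lam S.r qB (gs q \ A)) (DB : ∀ T, InV S.U S.W qB T → EqD S.U S.W qB T 0)
    {T T' : Fm K E} (hT : InV S.U S.W q T) (hT' : InV S.U S.W q T') :
    ∃ a b : K, (a ≠ 0 ∨ b ≠ 0) ∧ EqD S.U S.W q (a • T + b • T') 0 := by
  classical
  have hl' : S.r (q.1 ∪ A) + S.r (q.2 \ A) - S.r q.2 - S.r q.1 ≤ 1 := hl
  have hlc : QUB.lam S.r q (gs q \ A) ≤ 1 := by
    have := QUB.lam_compl S.r (p := q) hq hA
    exact this.trans_le hl
  have eB : gs q \ (gs q \ A) = A := Finset.sdiff_sdiff_eq_self hA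
  have q1A : q.1 ∪ (gs q \ A) = q.2 \ A := by
    ext z
    have h1 : z ∈ q.1 → z ∈ q.2 := fun h => hq h
    have h2 : z ∈ A → z ∈ q.2 ∧ z ∉ q.1 := fun h => Finset.mem_sdiff.1 (hA h)
    simp only [Finset.mem_union, Finset.mem_sdiff, gs]
    tauto
  have hall : (q.1 ∪ A) ∪ (q.2 \ A) = q.2 := by
    ext z
    have h1 : z ∈ q.1 → z ∈ q.2 := fun h => hq h
    have h2 : z ∈ A → z ∈ q.2 ∧ z ∉ q.1 := fun h => Finset.mem_sdiff.1 (hA h)
    simp only [Finset.mem_union, Finset.mem_sdiff]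
    tauto
  have hint : (q.1 ∪ A) ∩ (q.2 \ A) = q.1 := by
    ext z
    have h1 : z ∈ q.1 → z ∈ q.2 := fun h => hq h
    have h2 : z ∈ A → z ∈ q.2 ∧ z ∉ q.1 := fun h => Finset.mem_sdiff.1 (hA h)
    simp only [Finset.mem_union, Finset.mem_sdiff, Finset.mem_inter]
    tauto
  -- the remainder
  have main : ∀ T : Fm K E, InV S.U S.W q T → ∃ m : E → K,
      (∀ u ∈ van S.U (q.1 ∪ A) ⊔ van S.U (q.2 \ A), ∀ d ∈ spt S.W q.2, (T - dg m) u d = 0) ∧
      ∀ c ∈ van S.U q.1, ∀ w ∈ spt S.W (q.1 ∪ A) ⊔ spt S.W (q.2 \ A), (T - dg m) c w = 0 := by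
    intro T hT
    obtain ⟨l, hl1⟩ := DA T (hT.mono sA)
    obtain ⟨l', hl2⟩ := DB T (hT.mono sB)
    rw [zero_add] at hl1 hl2
    refine ⟨fun z => if z ∈ A then l z else l' z, ?_⟩
    have a1 := lj_side S hq hA hl sA wA hy gA lA hT hl1 (m := fun z => if z ∈ A then l z else l' z) (fun z hz => if_pos hz)
    have a2 := lj_side S hq (A := gs q \ A) Finset.sdiff_subset hlc sB wB (by rw [eB]; exact hx) gB lB hT hl2
      (m := fun z => if z ∈ A then l z else l' z) (fun z hz => if_neg (Finset.mem_sdiff.1 hz).2)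
    rw [eB] at a2
    rw [q1A] at a1 a2
    constructor
    · intro u hu d hd
      obtain ⟨u1, h1, u2, h2, rfl⟩ := Submodule.mem_sup.1 hu
      rw [map_add, LinearMap.add_apply, LinearMap.sub_apply, LinearMap.sub_apply, LinearMap.sub_apply, LinearMap.sub_apply,
        a2.1 u1 h1 d hd, a1.1 u2 h2 d hd, sub_self, sub_self, add_zero]
    · intro c hc w hw
      obtain ⟨w1, h1, w2, h2, rfl⟩ := Submodule.mem_sup.1 hw
      rw [map_add, LinearMap.sub_apply, LinearMap.sub_apply, LinearMap.sub_apply,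
        a1.2 c hc w1 h1, a2.2 c hc w2 h2, sub_self, sub_self, add_zero]
  obtain ⟨m, m1, m2⟩ := main T hT
  obtain ⟨m', m1', m2'⟩ := main T' hT'
  by_cases h0 : ∀ c ∈ van S.U q.1, ∀ d ∈ spt S.W q.2, (T - dg m) c d = 0
  · refine ⟨1, 0, Or.inl one_ne_zero, m, fun c hc d hd => ?_⟩
    have := h0 c hc d hd
    rw [LinearMap.sub_apply, LinearMap.sub_apply, sub_eq_zero] at this
    rw [one_smul, zero_smul, add_zero, zero_add, this]
  push Not at h0
  obtain ⟨c0, hc0, d0, hd0, hne⟩ := h0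
  have nU : c0 ∉ van S.U (q.1 ∪ A) ⊔ van S.U (q.2 \ A) := fun h => hne (m1 c0 h d0 hd0)
  have nW : d0 ∉ spt S.W (q.1 ∪ A) ⊔ spt S.W (q.2 \ A) := fun h => hne (m2 c0 hc0 d0 h)
  have qA2 : q.1 ⊆ q.2 \ A := by rw [← q1A]; exact Finset.subset_union_left
  have cU := lj_codim (sup_le (van_anti Finset.subset_union_left) (van_anti qA2) :
      van S.U (q.1 ∪ A) ⊔ van S.U (q.2 \ A) ≤ van S.U q.1) (by
    have h5 := Submodule.finrank_sup_add_finrank_inf_eq (van S.U (q.1 ∪ A)) (van S.U (q.2 \ A))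
    rw [← van_union, hall] at h5
    have b1 := S.hU (q.1 ∪ A)
    have b2 := S.hU (q.2 \ A)
    have b3 := S.hU q.2
    have b4 := S.hU q.1
    have h6 : (finrank K ↥(van S.U (q.1 ∪ A) ⊔ van S.U (q.2 \ A)) : ℤ) + finrank K (van S.U q.2) =
      finrank K (van S.U (q.1 ∪ A)) + finrank K (van S.U (q.2 \ A)) := by exact_mod_cast h5
    have h7 : (finrank K (van S.U q.1) : ℤ) ≤ finrank K ↥(van S.U (q.1 ∪ A) ⊔ van S.U (q.2 \ A)) + 1 := by linarith
    exact_mod_cast h7) hc0 nU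
  have cW := lj_codim (sup_le (spt_mono (by rw [← hall]; exact Finset.subset_union_left)) (spt_mono Finset.sdiff_subset) :
      spt S.W (q.1 ∪ A) ⊔ spt S.W (q.2 \ A) ≤ spt S.W q.2) (by
    have h5 := Submodule.finrank_sup_add_finrank_inf_eq (spt S.W (q.1 ∪ A)) (spt S.W (q.2 \ A))
    rw [← spt_inter, hint] at h5
    have b1 := S.hW (q.1 ∪ A)
    have b2 := S.hW (q.2 \ A)
    have b3 := S.hW q.2
    have b4 := S.hW q.1
    have hcd := Finset.card_union_add_card_inter (q.1 ∪ A) (q.2 \ A)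
    rw [hall, hint] at hcd
    have hcd' : (q.2.card : ℤ) + q.1.card = (q.1 ∪ A).card + (q.2 \ A).card := by exact_mod_cast hcd
    have h6 : (finrank K ↥(spt S.W (q.1 ∪ A) ⊔ spt S.W (q.2 \ A)) : ℤ) + finrank K (spt S.W q.1) =
      finrank K (spt S.W (q.1 ∪ A)) + finrank K (spt S.W (q.2 \ A)) := by exact_mod_cast h5
    have h7 : (finrank K (spt S.W q.2) : ℤ) ≤ finrank K ↥(spt S.W (q.1 ∪ A) ⊔ spt S.W (q.2 \ A)) + 1 := by linarith
    exact_mod_cast h7) hd0 nW
  refine ⟨-((T' - dg m') c0 d0), (T - dg m) c0 d0, Or.inr hne, -((T' - dg m') c0 d0) • m + (T - dg m) c0 d0 • m', fun c hc d hd => ?_⟩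
  obtain ⟨k, hk⟩ := cU c hc
  obtain ⟨j, hj⟩ := cW d hd
  -- values of the two remainders
  have val : ∀ R : Fm K E, (∀ u ∈ van S.U (q.1 ∪ A) ⊔ van S.U (q.2 \ A), ∀ d ∈ spt S.W q.2, R u d = 0) →
      (∀ c ∈ van S.U q.1, ∀ w ∈ spt S.W (q.1 ∪ A) ⊔ spt S.W (q.2 \ A), R c w = 0) → R c d = k * (j * R c0 d0) := by
    intro R r1 r2
    have e1 : R c d = R (c - k • c0) d + k * R c0 d := by
      rw [map_sub, LinearMap.sub_apply, map_smul, LinearMap.smul_apply, smul_eq_mul]; ring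
    have e2 : R c0 d = R c0 (d - j • d0) + j * R c0 d0 := by
      rw [map_sub, map_smul, smul_eq_mul]; ring
    rw [e1, e2, r1 _ hk d hd, r2 c0 hc0 _ hj]
    ring
  have v1 := val (T - dg m) m1 m2
  have v2 := val (T' - dg m') m1' m2'
  rw [LinearMap.sub_apply, LinearMap.sub_apply] at v1 v2
  rw [zero_add, dg_add, dg_smul, dg_smul]
  simp only [LinearMap.add_apply, LinearMap.smul_apply, smul_eq_mul] at *
  set R0 := (T - dg m) c0 d0
  set R0' := (T' - dg m') c0 d0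
  have w1 : T c d = dg m c d + k * (j * R0) := by linear_combination v1
  have w2 : T' c d = dg m' c d + k * (j * R0') := by linear_combination v2
  rw [w1, w2]
  ring

section lemJ

variable {E : Type} [Fintype E] [DecidableEq E]

/-- **Lemma J** -/
theorem lemJ (S : TP F4 E) (hNU : NU S.r) {q : Itv E} (hq : q.1 ⊆ q.2) (hC : Cn S.r q) (hex : ∃ T, InVs S q T) :
    (∀ T T' : Fm F4 E, InV S.U S.W q T → InV S.U S.W q T' → ∃ a b : F4, (a ≠ 0 ∨ b ≠ 0) ∧ EqD S.U S.W q (a • T + b • T') 0) ∨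
      ∃ X ⊆ gs q, QUB.lam S.r q X ≤ 1 ∧ Hv S.r q X ∧ Hv S.r q (gs q \ X) ∧
        ∃ q', Sub q' q ∧ q'.1 ⊆ q'.2 ∧ (∃ y ∈ X, gs q' = insert y (gs q \ X)) ∧ Cn S.r q' ∧ (HasRich S.r q' ∨ ¬ Ok S.r q') := by
  classical
  by_cases ho : Ok S.r q
  · left
    intro T T' hT hT'
    obtain ⟨Ts, hTs⟩ := hex
    obtain ⟨k, hk⟩ := uniq_f4 S hNU hq hC ho hT hTs
    obtain ⟨k', hk'⟩ := uniq_f4 S hNU hq hC ho hT' hTs
    by_cases h0 : k = 0
    · refine ⟨1, 0, Or.inl one_ne_zero, ?_⟩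
      rw [h0, zero_smul] at hk
      rw [one_smul, zero_smul, add_zero]
      exact hk
    · refine ⟨-k', k, Or.inr h0, ?_⟩
      have h1 := (hk.smul (-k')).add (hk'.smul k)
      have e : (-k') • k • Ts + k • k' • Ts = (0 : Fm F4 E) := by
        rw [smul_smul, smul_smul, ← add_smul]
        have : -k' * k + k * k' = 0 := by ring
        rw [this, zero_smul]
      rw [e] at h1
      exact h1
  · unfold Ok at ho
    push Not at ho
    obtain ⟨A, hA, hlA, hA1, hA2⟩ := ho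
    have eB : gs q \ (gs q \ A) = A := Finset.sdiff_sdiff_eq_self hA
    have ne : ∀ B : Finset E, Hv S.r q B → B.Nonempty := by
      rintro B ⟨N, -, hN⟩
      obtain ⟨x, hx⟩ : (N ∩ B).Nonempty := Finset.card_pos.1 (by omega)
      exact ⟨x, (Finset.mem_inter.1 hx).2⟩
    have n1 := ne A hA1
    have n2 : (gs q \ A).Nonempty := ne _ hA2
    have c1 := Finset.card_pos.2 n1
    have c2 := Finset.card_pos.2 n2
    obtain ⟨qA, sA, wA, cA, y, hy, gA⟩ := half S.rk ((gs q \ A).card - 1) hq hC hA (by omega)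
    obtain ⟨qB, sB, wB, cB, x, hx, gB⟩ := half S.rk ((gs q \ (gs q \ A)).card - 1) hq hC (A := gs q \ A) Finset.sdiff_subset
      (by rw [eB]; omega)
    rw [eB] at hx
    by_cases bB : HasRich S.r qB ∨ ¬ Ok S.r qB
    · exact Or.inr ⟨A, hA, hlA, hA1, hA2, qB, sB, wB, ⟨x, hx, gB⟩, cB, bB⟩
    by_cases bA : HasRich S.r qA ∨ ¬ Ok S.r qA
    · refine Or.inr ⟨gs q \ A, Finset.sdiff_subset, (QUB.lam_compl S.r (p := q) hq hA).trans_le hlA, hA2, ?_, qA, sA, wA, ⟨y, hy, ?_⟩, cA, bA⟩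
      · rw [eB]; exact hA1
      · rw [eB]; exact gA
    rw [not_or, not_not] at bA bB
    left
    have DD : ∀ {q' : Itv E}, q'.1 ⊆ q'.2 → Cn S.r q' → ¬ HasRich S.r q' ∧ Ok S.r q' → ∀ T, InV S.U S.W q' T → EqD S.U S.W q' T 0 := by
      intro q' w' c' h T hT
      obtain ⟨k, hk⟩ := uniq_f4 S hNU w' c' h.2 hT (Ts := 0) ⟨InV.zero, fun q1 s1 h1 => absurd ⟨q1, s1, h1⟩ h.1⟩
      rw [smul_zero] at hk
      exact hk
    intro T T' hT hT'
    refine lv_sum S hq hA hlA sA wA hy gA ?_ (DD wA cA bA) sB wB hx gB ?_ (DD wB cB bB) hT hT'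
    · refine cA A (by rw [show QUB.gs qA = insert y A from gA]; exact Finset.subset_insert _ _) n1 ⟨y, ?_⟩
      rw [show QUB.gs qA = insert y A from gA]
      exact Finset.mem_sdiff.2 ⟨Finset.mem_insert_self _ _, (Finset.mem_sdiff.1 hy).2⟩
    · refine cB (gs q \ A) (by rw [show QUB.gs qB = insert x (gs q \ A) from gB]; exact Finset.subset_insert _ _) n2 ⟨x, ?_⟩
      rw [show QUB.gs qB = insert x (gs q \ A) from gB]
      exact Finset.mem_sdiff.2 ⟨Finset.mem_insert_self _ _, fun h => (Finset.mem_sdiff.1 h).2 hx⟩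

end lemJ

end Pool.Agent.QU
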