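import Pool.Agent.QUP.Md
import Pool.Agent.QUT.CaseC

/-!
# QUR/SmA: same-type minimal 2-sides, the rank part

`rich_keep`: a rich minor opposite to a 2-side `X` survives the removal of an element of `X`.
`sm_d1`: `u^s, v^t` a minimal pair with the side `X`, `x ∈ X`, the removal of `x` connected, `(u, x)` not `Ok`: the side of the conflict is
`insert v Z` with `Z` outside `X`.  `sm_clean`: for `s = t` the pair `(u, x)` is `Ok`.
-/

set_option autoImplicit false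

open QUB

namespace Pool.Agent.QU

open Pool.Agent.FRM

section

variable {E : Type} [DecidableEq E]

/-- uncrossing of a conflict of `Q_x` and a 2-side `X` of `Q_v`, `x ∈ X`, `v ∈ A` -/
theorem d1_core {r : Finset E → ℤ} (hr : Rk r) {Q : Itv E} (hQ : Q.1 ⊆ Q.2) (h3 : Th3 r Q) {v x : E} (hvQ : v ∈ gs Q) (hxQ : x ∈ gs Q)
    (hvx : v ≠ x) {t σ : Bool} {X : Finset E} (hX : X ⊆ gs (rm t v Q)) (hxX : x ∈ X) (hl : QUB.lam r (rm t v Q) X ≤ 1)
    (hc : Cn r (rm σ x (rm t v Q))) (hcR : Cn r (rm σ x Q)) (hY : 2 ≤ (gs (rm t v Q) \ X).card) {A B : Finset E}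
    (hA : A ⊆ gs (rm σ x Q)) (hB : B = gs (rm σ x Q) \ A) (hlA : QUB.lam r (rm σ x Q) A ≤ 1)
    (hHB : Hv r (rm σ x Q) B) (hvA : v ∈ A) :
    B ⊆ X ∨ (QUB.lam r (rm σ x Q) (B ∩ X) ≤ 1 ∧ Hv r (rm σ x Q) (B ∩ X) ∧ (A ∩ X).Nonempty) ∨ ∀ y ∈ A, y ∉ X := by
  have gR : gs (rm σ x Q) = (gs Q).erase x := QUB.gs_rm _ _ _
  have gN : gs (rm t v Q) = (gs Q).erase v := QUB.gs_rm _ _ _
  have gNx : gs (rm σ x (rm t v Q)) = ((gs Q).erase v).erase x := by
    rw [show gs (rm σ x (rm t v Q)) = (gs (rm t v Q)).erase x from QUB.gs_rm _ _ _, gN]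
  have eNx : rm t v (rm σ x Q) = rm σ x (rm t v Q) := rm_comm t σ v x Q
  have hwN : (rm t v Q).1 ⊆ (rm t v Q).2 := QUB.wf_rm hQ hvQ
  have hwR : (rm σ x Q).1 ⊆ (rm σ x Q).2 := QUB.wf_rm hQ hxQ
  have hxN : x ∈ gs (rm t v Q) := hX hxX
  have hvR : v ∈ gs (rm σ x Q) := by
    rw [gR]
    exact Finset.mem_erase.2 ⟨hvx, hvQ⟩
  have hwNx : (rm σ x (rm t v Q)).1 ⊆ (rm σ x (rm t v Q)).2 := QUB.wf_rm hwN hxN
  rw [gN] at hX hY
  rw [gR] at hA hB
  set Y := (gs Q).erase v \ X with hYd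
  -- membership
  have mX : ∀ y ∈ X, y ∈ gs Q ∧ y ≠ v := fun y hy => ⟨(Finset.mem_erase.1 (hX hy)).2, (Finset.mem_erase.1 (hX hy)).1⟩
  have mA : ∀ y ∈ A, y ∈ gs Q ∧ y ≠ x := fun y hy => ⟨(Finset.mem_erase.1 (hA hy)).2, (Finset.mem_erase.1 (hA hy)).1⟩
  have mB : ∀ y, y ∈ B ↔ y ∈ gs Q ∧ y ≠ x ∧ y ∉ A := by
    intro y
    rw [hB, Finset.mem_sdiff, Finset.mem_erase]
    tauto
  have mY : ∀ y, y ∈ Y ↔ y ∈ gs Q ∧ y ≠ v ∧ y ∉ X := by
    intro y
    rw [hYd, Finset.mem_sdiff, Finset.mem_erase]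
    tauto
  by_contra hcon
  rw [not_or, not_or] at hcon
  obtain ⟨c1, c2, c3⟩ := hcon
  push Not at c3
  obtain ⟨a, haA, haX⟩ := c3
  -- `B` meets `Y`
  obtain ⟨b, hbB, hbX⟩ := Finset.not_subset.1 c1
  have hbv : b ≠ v := fun h => ((mB b).1 hbB).2.2 (h ▸ hvA)
  have hbY : b ∈ Y := (mY b).2 ⟨((mB b).1 hbB).1, hbv, hbX⟩
  have hBNx : B ⊆ gs (rm σ x (rm t v Q)) := by
    intro y hy
    rw [gNx]
    have h1 := (mB y).1 hy
    exact Finset.mem_erase.2 ⟨h1.2.1, Finset.mem_erase.2 ⟨fun h => h1.2.2 (h ▸ hvA), h1.1⟩⟩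
  have hYNx : Y ⊆ gs (rm σ x (rm t v Q)) := by
    intro y hy
    rw [gNx]
    have h1 := (mY y).1 hy
    exact Finset.mem_erase.2 ⟨fun h => h1.2.2 (h ▸ hxX), Finset.mem_erase.2 ⟨h1.2.1, h1.1⟩⟩
  have hXNx : X.erase x ⊆ gs (rm σ x (rm t v Q)) := by
    intro y hy
    rw [gNx]
    have h1 := Finset.mem_erase.1 hy
    exact Finset.mem_erase.2 ⟨h1.1, hX h1.2⟩
  have hBR : B ⊆ (gs (rm σ x Q)).erase v := by
    intro y hy
    have h1 := (mB y).1 hy
    rw [gR]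
    exact Finset.mem_erase.2 ⟨fun h => h1.2.2 (h ▸ hvA), Finset.mem_erase.2 ⟨h1.2.1, h1.1⟩⟩
  have hYN : Y ⊆ (gs (rm t v Q)).erase x := by
    intro y hy
    have h1 := (mY y).1 hy
    rw [gN]
    exact Finset.mem_erase.2 ⟨fun h => h1.2.2 (h ▸ hxX), Finset.mem_erase.2 ⟨h1.2.1, h1.1⟩⟩
  -- orders
  have lB : QUB.lam r (rm σ x Q) B ≤ 1 := by
    rw [hB, ← gR, QUB.lam_compl r hwR (by rw [gR]; exact hA)]
    exact hlA
  have lBx : QUB.lam r (rm σ x (rm t v Q)) B ≤ 1 := by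
    have h1 := QUB.lam_rm_le hr (t := t) hvR hBR
    rw [show QUB.rm t v (rm σ x Q) = rm σ x (rm t v Q) from eNx] at h1
    omega
  have lY : QUB.lam r (rm t v Q) Y ≤ 1 := by
    rw [hYd, ← gN, QUB.lam_compl r hwN (by rw [gN]; exact hX)]
    exact hl
  have lYx : QUB.lam r (rm σ x (rm t v Q)) Y ≤ 1 := (QUB.lam_rm_le hr (t := σ) hxN hYN).trans lY
  have lXx : QUB.lam r (rm σ x (rm t v Q)) (X.erase x) ≤ 1 := by
    have h1 := QUB.lam_rm_le' hr hwN (t := σ) (A := X.erase x) hxN (by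
      rw [gN]
      exact Finset.erase_subset_erase _ hX)
    rw [Finset.insert_erase hxX] at h1
    exact h1.trans hl
  -- `B ∩ Y`
  have hBYs : B ∩ Y ⊆ gs (rm σ x (rm t v Q)) := Finset.inter_subset_left.trans hBNx
  have lBY : QUB.lam r (rm σ x (rm t v Q)) (B ∩ Y) ≤ 1 := by
    have h1 := QUB.lam_sub (p := rm σ x (rm t v Q)) hr B Y
    have h2 := hc (B ∪ Y) (Finset.union_subset hBNx hYNx) ⟨b, Finset.mem_union_left _ hbB⟩ ⟨a, by
      rw [show gs (rm σ x (rm t v Q)) = _ from gNx, Finset.mem_sdiff]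
      refine ⟨Finset.mem_erase.2 ⟨(mA a haA).2, Finset.mem_erase.2 ⟨(mX a haX).2, (mX a haX).1⟩⟩, ?_⟩
      intro h
      rcases Finset.mem_union.1 h with h | h
      · exact ((mB a).1 h).2.2 haA
      · exact ((mY a).1 h).2.2 haX⟩
    have h2' : 1 ≤ QUB.lam r (rm σ x (rm t v Q)) (B ∪ Y) := h2
    omega
  have lYx1 : 1 ≤ QUB.lam r (rm σ x (rm t v Q)) Y := by
    refine hc Y hYNx ⟨b, hbY⟩ ⟨a, ?_⟩
    rw [show gs (rm σ x (rm t v Q)) = _ from gNx, Finset.mem_sdiff]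
    exact ⟨Finset.mem_erase.2 ⟨(mA a haA).2, Finset.mem_erase.2 ⟨(mX a haX).2, (mX a haX).1⟩⟩, fun h => ((mY a).1 h).2.2 haX⟩
  have lBx1 : 1 ≤ QUB.lam r (rm σ x (rm t v Q)) B := by
    refine hc B hBNx ⟨b, hbB⟩ ⟨a, ?_⟩
    rw [show gs (rm σ x (rm t v Q)) = _ from gNx, Finset.mem_sdiff]
    exact ⟨Finset.mem_erase.2 ⟨(mA a haA).2, Finset.mem_erase.2 ⟨(mX a haX).2, (mX a haX).1⟩⟩, fun h => ((mB a).1 h).2.2 haA⟩
  have lBYN : QUB.lam r (rm t v Q) (B ∩ Y) ≤ 1 := by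
    have h1 := QUB.lam_L3 hr (t := σ) (p := rm t v Q) hxN (Finset.inter_subset_right : B ∩ Y ⊆ Y) hYN
    have h1' : QUB.lam r (rm t v Q) (B ∩ Y) - QUB.lam r (rm σ x (rm t v Q)) (B ∩ Y) ≤
      QUB.lam r (rm t v Q) Y - QUB.lam r (rm σ x (rm t v Q)) Y := h1
    omega
  have hBQ : B ⊆ (gs Q).erase v := by
    intro y hy
    have h1 := (mB y).1 hy
    exact Finset.mem_erase.2 ⟨fun h => h1.2.2 (h ▸ hvA), h1.1⟩
  have dB : QUB.lam r Q B ≤ QUB.lam r (rm t v Q) B := by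
    have h1 := QUB.lam_L4 hr hQ (s := σ) (t := t) (w := x) (e := v) (A := B) hxQ hvQ hvx (by
      intro y hy
      have h1 := (mB y).1 hy
      exact Finset.mem_erase.2 ⟨fun h => h1.2.2 (h ▸ hvA), Finset.mem_erase.2 ⟨h1.2.1, h1.1⟩⟩) (by
      refine hcR {v} (Finset.singleton_subset_iff.2 hvR) (Finset.singleton_nonempty v) ⟨b, ?_⟩
      rw [Finset.mem_sdiff, Finset.mem_singleton]
      exact ⟨(Finset.mem_erase.1 (hBR hbB)).2, hbv⟩)
    rw [show QUB.rm t v (QUB.rm σ x Q) = rm σ x (rm t v Q) from eNx] at h1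
    have h1' : QUB.lam r Q B + QUB.lam r (rm σ x (rm t v Q)) B ≤ QUB.lam r (rm σ x Q) B + QUB.lam r (rm t v Q) B := h1
    omega
  have lBYQ : QUB.lam r Q (B ∩ Y) ≤ 1 := by
    have h1 := QUB.lam_L3 hr (t := t) (p := Q) hvQ (Finset.inter_subset_left : B ∩ Y ⊆ B) hBQ
    have h1' : QUB.lam r Q (B ∩ Y) - QUB.lam r (rm t v Q) (B ∩ Y) ≤ QUB.lam r Q B - QUB.lam r (rm t v Q) B := h1
    omega
  have hBYc : (B ∩ Y).card ≤ 1 := by
    by_contra hcon
    push Not at hcon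
    have h1 := h3 (B ∩ Y) (Finset.inter_subset_left.trans (hBQ.trans (Finset.erase_subset _ _))) hcon (by
      have h2 : ({v, x} : Finset E) ⊆ gs Q \ (B ∩ Y) := by
        intro y hy
        rw [Finset.mem_insert, Finset.mem_singleton] at hy
        rw [Finset.mem_sdiff, Finset.mem_inter]
        rcases hy with rfl | rfl
        · exact ⟨hvQ, fun h => ((mB y).1 h.1).2.2 hvA⟩
        · exact ⟨hxQ, fun h => ((mB y).1 h.1).2.1 rfl⟩
      have h4 := Finset.card_le_card h2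
      rw [Finset.card_pair hvx] at h4
      exact h4)
    have h1' : 2 ≤ QUB.lam r Q (B ∩ Y) := h1
    omega
  -- `A` meets `Y`
  obtain ⟨y1, hy1, hy1b⟩ : ∃ y1 ∈ Y, y1 ≠ b := Finset.exists_mem_ne (by omega) b
  have hy1B : y1 ∉ B := by
    intro h
    have h1 : ({b, y1} : Finset E) ⊆ B ∩ Y := by
      intro y hy
      rw [Finset.mem_insert, Finset.mem_singleton] at hy
      rcases hy with rfl | rfl
      · exact Finset.mem_inter.2 ⟨hbB, hbY⟩
      · exact Finset.mem_inter.2 ⟨h, hy1⟩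
    have h2 := Finset.card_le_card h1
    rw [Finset.card_pair hy1b.symm] at h2
    omega
  have eBX : B.erase b = B ∩ X := by
    ext y
    rw [Finset.mem_erase, Finset.mem_inter]
    constructor
    · rintro ⟨h1, h2⟩
      refine ⟨h2, ?_⟩
      by_contra h4
      have h5 : y ∈ B ∩ Y := by
        refine Finset.mem_inter.2 ⟨h2, (mY y).2 ⟨((mB y).1 h2).1, fun h => ((mB y).1 h2).2.2 (h ▸ hvA), h4⟩⟩
      have h6 := Finset.card_le_one.1 hBYc y h5 b (Finset.mem_inter.2 ⟨hbB, hbY⟩)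
      exact h1 h6
    · rintro ⟨h1, h2⟩
      exact ⟨fun h => hbX (h ▸ h2), h1⟩
  have lBX : QUB.lam r (rm σ x (rm t v Q)) (B ∩ X) ≤ 1 := by
    have h1 := QUB.lam_sub (p := rm σ x (rm t v Q)) hr B (X.erase x)
    have h2 := hc (B ∪ X.erase x) (Finset.union_subset hBNx hXNx) ⟨b, Finset.mem_union_left _ hbB⟩ ⟨y1, by
      rw [show gs (rm σ x (rm t v Q)) = _ from gNx, Finset.mem_sdiff]
      have h4 := (mY y1).1 hy1
      refine ⟨Finset.mem_erase.2 ⟨fun h => h4.2.2 (h ▸ hxX), Finset.mem_erase.2 ⟨h4.2.1, h4.1⟩⟩, ?_⟩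
      intro h
      rcases Finset.mem_union.1 h with h | h
      · exact hy1B h
      · exact h4.2.2 (Finset.mem_erase.1 h).2⟩
    have h2' : 1 ≤ QUB.lam r (rm σ x (rm t v Q)) (B ∪ X.erase x) := h2
    have e1 : B ∩ X.erase x = B ∩ X := by
      ext y
      rw [Finset.mem_inter, Finset.mem_inter, Finset.mem_erase]
      constructor
      · rintro ⟨h4, h5⟩
        exact ⟨h4, h5.2⟩
      · rintro ⟨h4, h5⟩
        exact ⟨h4, ((mB y).1 h4).2.1, h5⟩
    rw [e1] at h1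
    omega
  have lBXR : QUB.lam r (rm σ x Q) (B ∩ X) ≤ 1 := by
    have h1 := QUB.lam_L3 hr (t := t) (p := rm σ x Q) hvR (Finset.inter_subset_left : B ∩ X ⊆ B) hBR
    rw [show QUB.rm t v (rm σ x Q) = rm σ x (rm t v Q) from eNx] at h1
    have h1' : QUB.lam r (rm σ x Q) (B ∩ X) - QUB.lam r (rm σ x (rm t v Q)) (B ∩ X) ≤
      QUB.lam r (rm σ x Q) B - QUB.lam r (rm σ x (rm t v Q)) B := h1
    omega
  refine c2 ⟨lBXR, ?_, ⟨a, Finset.mem_inter.2 ⟨haA, haX⟩⟩⟩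
  rw [← eBX] at lBXR ⊢
  exact Hv.erase hr hwR (hBR.trans (Finset.erase_subset _ _)) lBXR hHB

end

section

variable {E : Type} [Fintype E] [DecidableEq E]

/-- the torso of a 2-side has a rich minor if a rich minor of the box has at most one element on the other side -/
theorem tor_rich (S : TP F4 E) {q : Itv E} {B C : Finset E} {a : E} (T0 : Tor S.r q B C a) (hl : QUB.lam S.r q B = 1)
    (hR : ∃ q', Sub q' q ∧ Rich S.r q' ∧ ((gs q \ B) ∩ gs q').card ≤ 1) : HasRich S.r (tb q B C a) := by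
  obtain ⟨q', h1, h2, h3⟩ := hR
  have hr : Rk S.r := S.rk
  have hq := T0.hq
  have eB : q.2 \ B = q.1 ∪ (gs q \ B) := by
    ext x
    have g1 := @hq x
    have g2 := T0.Bq x
    simp only [QUB.gs, Finset.mem_union, Finset.mem_sdiff]
    tauto
  have e1 : q.1 ∪ B ∪ (q.1 ∪ C) = q.1 ∪ C ∪ B := by
    ext x
    simp only [Finset.mem_union]
    tauto
  have hX : Half S.r q B (q.1 ∪ C) a := by
    refine ⟨Finset.subset_union_left, ?_, ?_, ?_, ?_, ?_⟩
    · rw [eB]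
      exact Finset.union_subset_union_right T0.hC
    · rw [eB]
      exact Finset.mem_union_right _ T0.ha
    · intro h
      rcases Finset.mem_union.1 h with h | h
      · exact T0.aq.2.1 h
      · exact T0.haC h
    · rw [e1, T0.h1]
      have := T0.h4
      omega
    · rw [e1]
      have g1 := T0.h4
      have g2 := T0.h2
      have g3 := T0.r2 hr
      have g4 : (tb q B C a).2 = insert a (q.1 ∪ C ∪ B) := rfl
      rw [g4] at g3
      omega
  obtain ⟨q'', k1, k2, -⟩ := transport S hq T0.hB hl hX h1 h2 h3 (T := 0) (fun c _ d _ _ => by simp)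
    ⟨0, fun c _ d _ => by simp [dg_zero]⟩
  refine ⟨q'', ?_, k2⟩
  have e2 : hb q B (q.1 ∪ C) a = tb q B C a := by
    unfold hb tb
    rw [e1]
  rw [← e2]
  exact k1

/-- a rich minor opposite to a 2-side survives -/
theorem rich_keep (S : TP F4 E) {q : Itv E} (hq : q.1 ⊆ q.2) {X : Finset E} (hX : X ⊆ gs q) (hl : QUB.lam S.r q X ≤ 1)
    (hR : ∃ q', Sub q' q ∧ Rich S.r q' ∧ (X ∩ gs q').card ≤ 1) {x : E} (hx : x ∈ X) {t : Bool}
    (h1 : 1 ≤ QUB.lam S.r (rm t x q) (gs q \ X)) : ∃ q', Sub q' (rm t x q) ∧ Rich S.r q' ∧ (X ∩ gs q').card ≤ 1 := by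
  have hr : Rk S.r := S.rk
  have hxq : x ∈ gs q := hX hx
  set B := gs q \ X with hB
  have hBq : B ⊆ gs q := Finset.sdiff_subset
  have hxB : x ∉ B := fun h => (Finset.mem_sdiff.1 h).2 hx
  have hBe : B ⊆ (gs q).erase x := fun y hy => Finset.mem_erase.2 ⟨fun h => hxB (h ▸ hy), hBq hy⟩
  have l1 : QUB.lam S.r q B ≤ 1 := by
    rw [hB, QUB.lam_compl S.r hq hX]
    exact hl
  have l2 : QUB.lam S.r (rm t x q) B ≤ QUB.lam S.r q B := QUB.lam_rm_le hr hxq hBe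
  have l3 : QUB.lam S.r q B = 1 := by omega
  obtain ⟨C, a, T0⟩ := tor_ex hr hq hBq (by omega) l1
  have eX : gs q \ B = X := by
    rw [hB]
    exact Finset.sdiff_sdiff_eq_self hX
  have r0 : HasRich S.r (tb q B C a) := tor_rich S T0 l3 (by
    obtain ⟨q', k1, k2, k3⟩ := hR
    exact ⟨q', k1, k2, by rw [eX]; exact k3⟩)
  have hq2 : (rm t x q).1 ⊆ (rm t x q).2 := QUB.wf_rm hq hxq
  have hB2 : B ⊆ gs (rm t x q) := by
    rw [gs_rm]
    exact hBe
  obtain ⟨C2, a2, T1⟩ := tor_ex hr hq2 hB2 h1 (by omega)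
  have st := stab hr hq hBq l1 (y := x) (t := t) hxq hxB h1
  obtain ⟨q', k1, k2⟩ := tor_iso0 hr T0 T1 st.1 st.2 r0
  refine ⟨q', Sub.trans T1.sub k1, k2, ?_⟩
  have h3 : X ∩ gs q' ⊆ {a2} := by
    intro y hy
    have h4 := Finset.mem_inter.1 hy
    have h5 : y ∈ gs (tb (rm t x q) B C2 a2) := by
      have h6 := Finset.mem_sdiff.1 h4.2
      exact Finset.mem_sdiff.2 ⟨k1.2 h6.1, fun h => h6.2 (k1.1 h)⟩
    rw [T1.gs_eq] at h5
    rcases Finset.mem_insert.1 h5 with h6 | h6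
    · exact Finset.mem_singleton.2 h6
    · exact absurd h4.1 (Finset.mem_sdiff.1 h6).2
  exact (Finset.card_le_card h3).trans (by rw [Finset.card_singleton])

end


section

variable {E : Type} [Fintype E] [DecidableEq E] {S : TP F4 E} {p : Itv E}

omit [Fintype E] in
private theorem sa_mem {p : Itv E} {a b : E} {s : Bool} (hab : a ≠ b) (ha : a ∈ gs p) : a ∈ gs (rm s b p) := by
  rw [gs_rm]
  exact Finset.mem_erase.2 ⟨hab, ha⟩

/-- the data of a conflict of `u^s` and `x`, `x` in the side `X` of a pair `u^s, v^t` -/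
structure Smd (S : TP F4 E) (p : Itv E) (s : Bool) (u : E) (t : Bool) (v : E) (X : Finset E) (σ : Bool) (x : E) (Z : Finset E) : Prop where
  sub : Z ⊆ gs (rm s u (rm t v p)) \ X
  two : 2 ≤ Z.card
  lam : QUB.lam S.r (rm σ x (rm s u p)) (insert v Z) ≤ 1
  hv : Hv S.r (rm σ x (rm s u p)) (insert v Z)
  lamY : QUB.lam S.r (rm σ x (rm s u p)) (insert v (gs (rm s u (rm t v p)) \ X)) ≤ 1
  lamY' : QUB.lam S.r (rm s u p) (insert v (gs (rm s u (rm t v p)) \ X)) = 2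

/-- the rich minor of a minimal pair after the removal of `x ∈ X` -/
theorem Md.keep {s t : Bool} {u v x : E} {X : Finset E} (hp : p.1 ⊆ p.2) (hM : Md S.r p s u t v X) (hx : x ∈ X) {σ : Bool}
    (hc : Cn S.r (rm σ x (rm s u (rm t v p)))) :
    ∃ q', Sub q' (rm σ x (rm s u (rm t v p))) ∧ Rich S.r q' ∧ (X ∩ gs q').card ≤ 1 := by
  have hwf := hM.wf hp
  obtain ⟨q', h1, h2, h3⟩ := hM.rich
  refine rich_keep S hwf hM.sub hM.lam hM.rich hx ?_
  have h5 : (gs q').card = 5 := h2.2.1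
  have hq' : gs q' ⊆ gs (rm s u (rm t v p)) := by
    intro y hy
    have h6 := Finset.mem_sdiff.1 hy
    exact Finset.mem_sdiff.2 ⟨h1.2 h6.1, fun h => h6.2 (h1.1 h)⟩
  obtain ⟨y, hy⟩ : (gs q' \ X).Nonempty := by
    by_contra hcon
    rw [Finset.not_nonempty_iff_eq_empty, Finset.sdiff_eq_empty_iff_subset] at hcon
    rw [Finset.inter_eq_right.2 hcon] at h3
    omega
  have hy' := Finset.mem_sdiff.1 hy
  obtain ⟨x', hx', hne⟩ : ∃ x' ∈ X, x' ≠ x := Finset.exists_mem_ne (by have := hM.two; omega) x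
  have hg : gs (rm σ x (rm s u (rm t v p))) = (gs (rm s u (rm t v p))).erase x := QUB.gs_rm _ _ _
  refine hc _ ?_ ⟨y, Finset.mem_sdiff.2 ⟨hq' hy'.1, hy'.2⟩⟩ ⟨x', ?_⟩
  · intro z hz
    have hz' := Finset.mem_sdiff.1 hz
    rw [hg]
    exact Finset.mem_erase.2 ⟨fun h => hz'.2 (h ▸ hx), hz'.1⟩
  · rw [hg]
    exact Finset.mem_sdiff.2 ⟨Finset.mem_erase.2 ⟨hne, hM.sub hx'⟩, fun h => (Finset.mem_sdiff.1 h).2 hx'⟩

/-- the conflict of `u^s` and `x`, `x` in the side `X` of a minimal pair -/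
theorem sm_d1 (h : Cw S p) {s t σ : Bool} {u v x : E} {X : Finset E} (hM : Md S.r p s u t v X) (hmin : MdMin S.r p X.card) (hx : x ∈ X)
    (hc : Cn S.r (rm σ x (rm s u (rm t v p)))) (hno : ¬ Ok S.r (rm σ x (rm s u p))) : ∃ Z, Smd S p s u t v X σ x Z := by
  have hr : Rk S.r := S.rk
  have hn := h.hn
  have mu := hM.ma
  have mv := hM.mb
  have huv := hM.ab
  have eN : rm s u (rm t v p) = rm t v (rm s u p) := rm_comm s t u v p
  have gN : gs (rm s u (rm t v p)) = ((gs p).erase v).erase u := gs_rm2 s t u v p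
  have hXg := hM.sub
  rw [gN] at hXg
  have mX : ∀ y ∈ X, y ∈ gs p ∧ y ≠ u ∧ y ≠ v := fun y hy => by
    have h1 := Finset.mem_erase.1 (hXg hy)
    have h2 := Finset.mem_erase.1 h1.2
    exact ⟨h2.2, h1.1, h2.1⟩
  obtain ⟨mx, hxu, hxv⟩ := mX x hx
  have hwQ : (rm s u p).1 ⊆ (rm s u p).2 := QUB.wf_rm h.hp mu
  have hvQ : v ∈ gs (rm s u p) := sa_mem huv.symm mv
  have hxQ : x ∈ gs (rm s u p) := sa_mem hxu mx
  have cR : Cn S.r (rm σ x (rm s u p)) := h.cn2 mx mu hxu σ s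
  have hwR : (rm σ x (rm s u p)).1 ⊆ (rm σ x (rm s u p)).2 := QUB.wf_rm hwQ hxQ
  have h3 := h.th u mu s
  obtain ⟨q', k1, k2, k3⟩ := Md.keep h.hp hM hx hc
  have eNR : rm σ x (rm s u (rm t v p)) = rm t v (rm σ x (rm s u p)) := by
    rw [eN]
    exact rm_comm σ t x v _
  have k1' : Sub q' (rm σ x (rm s u p)) := by
    rw [eNR] at k1
    exact (rm_sub t v (rm σ x (rm s u p))).trans k1
  -- members of the class
  have memb : ∀ Z ⊆ X.erase x, 2 ≤ Z.card → Z ⊆ gs (rm σ x (rm s u p)) → QUB.lam S.r (rm σ x (rm s u p)) Z ≤ 1 →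
      (σ = s → Hv S.r (rm σ x (rm s u p)) Z) → False := by
    intro Z hZ hZ2 hZg hZl hZh
    have h1 := hmin σ x s u Z ⟨mx, mu, hxu, hZg, hZl, ⟨q', k1', k2, ?_⟩, hZ2, hZh⟩
    · have h2 := Finset.card_le_card hZ
      rw [Finset.card_erase_of_mem hx] at h2
      have h4 : 0 < X.card := Finset.card_pos.2 ⟨x, hx⟩
      omega
    · exact (Finset.card_le_card (Finset.inter_subset_inter_right (hZ.trans (Finset.erase_subset _ _)))).trans k3
  set Y := gs (rm s u (rm t v p)) \ X with hYd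
  have mY : ∀ y, y ∈ Y ↔ y ∈ gs p ∧ y ≠ u ∧ y ≠ v ∧ y ∉ X := by
    intro y
    rw [hYd, gN, Finset.mem_sdiff, Finset.mem_erase, Finset.mem_erase]
    tauto
  have hY4 : 4 ≤ Y.card := by
    have h5 : (gs q').card = 5 := k2.2.1
    have h6 : gs q' \ (X ∩ gs q') ⊆ Y := by
      intro y hy
      have h7 := Finset.mem_sdiff.1 hy
      have h8 := Finset.mem_sdiff.1 h7.1
      have h9 : y ∈ gs (rm σ x (rm s u (rm t v p))) := Finset.mem_sdiff.2 ⟨k1.2 h8.1, fun h' => h8.2 (k1.1 h')⟩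
      rw [gs_rm] at h9
      exact Finset.mem_sdiff.2 ⟨(Finset.mem_erase.1 h9).2, fun h' => h7.2 (Finset.mem_inter.2 ⟨h', h7.1⟩)⟩
    have h7 := Finset.card_le_card h6
    have h8 := Finset.le_card_sdiff (X ∩ gs q') (gs q')
    omega
  -- the conflict
  unfold Ok at hno
  push Not at hno
  obtain ⟨A0, hA0, hl0, hv0, hv0'⟩ := hno
  obtain ⟨A, hA, hlA, hHA, hHB, hvA⟩ : ∃ A ⊆ gs (rm σ x (rm s u p)), QUB.lam S.r (rm σ x (rm s u p)) A ≤ 1 ∧
      Hv S.r (rm σ x (rm s u p)) A ∧ Hv S.r (rm σ x (rm s u p)) (gs (rm σ x (rm s u p)) \ A) ∧ v ∈ A := by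
    by_cases hv : v ∈ A0
    · exact ⟨A0, hA0, hl0, hv0, hv0', hv⟩
    · refine ⟨gs (rm σ x (rm s u p)) \ A0, Finset.sdiff_subset, ?_, hv0', ?_, ?_⟩
      · exact (QUB.lam_compl S.r hwR hA0).trans_le hl0
      · have e : gs (rm σ x (rm s u p)) \ (gs (rm σ x (rm s u p)) \ A0) = A0 := Finset.sdiff_sdiff_eq_self hA0
        rw [e]
        exact hv0
      · exact Finset.mem_sdiff.2 ⟨sa_mem hxv.symm hvQ, hv⟩
  have hBX : ∀ Z ⊆ gs (rm σ x (rm s u p)), Z ⊆ X → Z ⊆ X.erase x := by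
    intro Z hZ hZX y hy
    have h1 := hZ hy
    rw [gs_rm] at h1
    exact Finset.mem_erase.2 ⟨(Finset.mem_erase.1 h1).1, hZX hy⟩
  rw [eN] at hc
  have core := d1_core hr hwQ h3 hvQ hxQ hxv.symm (t := t) (σ := σ) (X := X) (by rw [← eN]; exact hM.sub) hx (by rw [← eN]; exact hM.lam) hc
    cR (by rw [← eN, ← hYd]; omega) hA rfl hlA hHB hvA
  rcases core with c | ⟨c1, c2, c3⟩ | c
  · exfalso
    refine memb _ (hBX _ Finset.sdiff_subset c) ?_ Finset.sdiff_subset ?_ fun _ => hHB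
    · have := hHB.card
      omega
    · exact (QUB.lam_compl S.r hwR hA).trans_le hlA
  · exfalso
    refine memb _ (hBX _ (Finset.inter_subset_left.trans Finset.sdiff_subset) Finset.inter_subset_right) ?_
      (Finset.inter_subset_left.trans Finset.sdiff_subset) c1 fun _ => c2
    have := c2.card
    omega
  · have mA : ∀ y ∈ A, y ∈ gs p ∧ y ≠ x ∧ y ≠ u := by
      intro y hy
      have h1 := hA hy
      rw [gs_rm, gs_rm] at h1
      have h2 := Finset.mem_erase.1 h1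
      have h4 := Finset.mem_erase.1 h2.2
      exact ⟨h4.2, h2.1, h4.1⟩
    have eA : insert v (A.erase v) = A := Finset.insert_erase hvA
    have hZY : A.erase v ⊆ Y := by
      intro y hy
      have h1 := Finset.mem_erase.1 hy
      have h2 := mA y h1.2
      exact (mY y).2 ⟨h2.1, h2.2.2, h1.1, c y h1.2⟩
    have hA3 := hHA.card
    have hvY : insert v Y ⊆ (gs (rm s u p)).erase x := by
      intro y hy
      rw [gs_rm]
      rcases Finset.mem_insert.1 hy with rfl | hy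
      · exact Finset.mem_erase.2 ⟨hxv.symm, Finset.mem_erase.2 ⟨huv.symm, mv⟩⟩
      · have h1 := (mY y).1 hy
        exact Finset.mem_erase.2 ⟨fun h' => h1.2.2.2 (h' ▸ hx), Finset.mem_erase.2 ⟨h1.2.1, h1.1⟩⟩
    have hAvY : A ⊆ insert v Y := by
      rw [← eA]
      exact Finset.insert_subset_insert v hZY
    -- the order of `A` in `M_u`
    have l1 : 2 ≤ QUB.lam S.r (rm s u p) A := by
      refine h3 A (hAvY.trans (hvY.trans (Finset.erase_subset _ _))) (by omega) ?_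
      obtain ⟨z, hz, hzx⟩ : ∃ z ∈ X, z ≠ x := Finset.exists_mem_ne (by have := hM.two; omega) x
      have h2 : ({x, z} : Finset E) ⊆ gs (rm s u p) \ A := by
        intro y hy
        rw [Finset.mem_insert, Finset.mem_singleton] at hy
        rw [Finset.mem_sdiff]
        rcases hy with rfl | rfl
        · exact ⟨hxQ, fun h' => (mA _ h').2.1 rfl⟩
        · exact ⟨sa_mem (mX _ hz).2.1 (mX _ hz).1, fun h' => c _ h' hz⟩
      have h4 := Finset.card_le_card h2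
      rwa [Finset.card_pair hzx.symm] at h4
    have l2 : QUB.lam S.r (rm t v (rm s u p)) Y ≤ 1 := by
      rw [← eN, hYd]
      exact (QUB.lam_compl S.r (hM.wf h.hp) hM.sub).trans_le hM.lam
    have l3 : QUB.lam S.r (rm s u p) (insert v Y) ≤ QUB.lam S.r (rm t v (rm s u p)) Y + 1 := QUB.lam_le_rm' hr hvQ (by
      intro y hy
      have h1 := (mY y).1 hy
      rw [gs_rm]
      exact Finset.mem_erase.2 ⟨h1.2.2.1, Finset.mem_erase.2 ⟨h1.2.1, h1.1⟩⟩)
    have l4 : QUB.lam S.r (rm s u p) A - QUB.lam S.r (rm σ x (rm s u p)) A ≤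
        QUB.lam S.r (rm s u p) (insert v Y) - QUB.lam S.r (rm σ x (rm s u p)) (insert v Y) :=
      QUB.lam_L3 hr (t := σ) hxQ hAvY hvY
    have l5 : 2 ≤ QUB.lam S.r (rm s u p) (insert v Y) := by
      refine h3 (insert v Y) (hvY.trans (Finset.erase_subset _ _)) ?_ ?_
      · have h1 := Finset.card_le_card (Finset.subset_insert v Y)
        omega
      · obtain ⟨z, hz, hzx⟩ : ∃ z ∈ X, z ≠ x := Finset.exists_mem_ne (by have := hM.two; omega) x
        have h2 : ({x, z} : Finset E) ⊆ gs (rm s u p) \ insert v Y := by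
          intro y hy
          rw [Finset.mem_insert, Finset.mem_singleton] at hy
          rw [Finset.mem_sdiff, Finset.mem_insert, not_or]
          rcases hy with rfl | rfl
          · exact ⟨hxQ, hxv, fun h' => ((mY _).1 h').2.2.2 hx⟩
          · exact ⟨sa_mem (mX _ hz).2.1 (mX _ hz).1, (mX _ hz).2.2, fun h' => ((mY _).1 h').2.2.2 hz⟩
        have h4 := Finset.card_le_card h2
        rwa [Finset.card_pair hzx.symm] at h4
    refine ⟨A.erase v, hZY, ?_, ?_, ?_, ?_, ?_⟩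
    · rw [Finset.card_erase_of_mem hvA]
      omega
    · rw [eA]
      exact hlA
    · rw [eA]
      exact hHA
    · show QUB.lam S.r (rm σ x (rm s u p)) (insert v Y) ≤ 1
      omega
    · show QUB.lam S.r (rm s u p) (insert v Y) = 2
      omega

/-- for a minimal pair of one type: the pairs `(u, x)`, `x ∈ X`, are `Ok` if the removal of `x` is connected -/
theorem sm_clean (h : Cw S p) {t σ : Bool} {u v x : E} {X : Finset E} (hM : Md S.r p t u t v X) (hmin : MdMin S.r p X.card) (hx : x ∈ X)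
    (hc : Cn S.r (rm σ x (rm t u (rm t v p)))) : Ok S.r (rm t u (rm σ x p)) := by
  rw [show rm t u (rm σ x p) = rm σ x (rm t u p) from rm_comm t σ u x p]
  by_contra hno
  obtain ⟨Z, hZ⟩ := sm_d1 h hM hmin hx hc hno
  have hr : Rk S.r := S.rk
  have mu := hM.ma
  have mv := hM.mb
  have huv := hM.ab
  have eN : rm t u (rm t v p) = rm t v (rm t u p) := rm_comm t t u v p
  have gN : gs (rm t u (rm t v p)) = ((gs p).erase v).erase u := gs_rm2 t t u v p
  have hXg := hM.sub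
  rw [gN] at hXg
  have mX : ∀ y ∈ X, y ∈ gs p ∧ y ≠ u ∧ y ≠ v := fun y hy => by
    have h1 := Finset.mem_erase.1 (hXg hy)
    have h2 := Finset.mem_erase.1 h1.2
    exact ⟨h2.2, h1.1, h2.1⟩
  obtain ⟨mx, hxu, hxv⟩ := mX x hx
  have hwQ : (rm t u p).1 ⊆ (rm t u p).2 := QUB.wf_rm h.hp mu
  have hvQ : v ∈ gs (rm t u p) := sa_mem huv.symm mv
  have hxQ : x ∈ gs (rm t u p) := sa_mem hxu mx
  have hwR : (rm σ x (rm t u p)).1 ⊆ (rm σ x (rm t u p)).2 := QUB.wf_rm hwQ hxQ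
  set Y := gs (rm t u (rm t v p)) \ X with hYd
  have mY : ∀ y, y ∈ Y ↔ y ∈ gs p ∧ y ≠ u ∧ y ≠ v ∧ y ∉ X := by
    intro y
    rw [hYd, gN, Finset.mem_sdiff, Finset.mem_erase, Finset.mem_erase]
    tauto
  have l1 : QUB.lam S.r (rm σ x (rm t u p)) (insert v Y) ≤ 1 := hZ.lamY
  have l2 : QUB.lam S.r (rm t u p) (insert v Y) = 2 := hZ.lamY'
  have hX3 : 3 ≤ X.card := (hM.hv rfl).card
  have hYe : Y ⊆ ((gs (rm t u p)).erase x).erase v := by
    intro y hy
    have h1 := (mY y).1 hy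
    rw [gs_rm]
    exact Finset.mem_erase.2 ⟨h1.2.2.1, Finset.mem_erase.2 ⟨fun h' => h1.2.2.2 (h' ▸ hx), Finset.mem_erase.2 ⟨h1.2.1, h1.1⟩⟩⟩
  by_cases hσ : σ = t
  · -- one type
    subst hσ
    obtain ⟨z, hz⟩ : Z.Nonempty := Finset.card_pos.1 (by have := hZ.two; omega)
    have hzY : z ∈ Y := hZ.sub hz
    obtain ⟨x', hx', hne⟩ : ∃ x' ∈ X, x' ≠ x := Finset.exists_mem_ne (by omega) x
    have l3 : 1 ≤ QUB.lam S.r (rm σ x (rm σ u (rm σ v p))) Y := by
      refine hc Y ?_ ⟨z, hzY⟩ ⟨x', ?_⟩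
      · intro y hy
        have h1 := (mY y).1 hy
        have e : gs (rm σ x (rm σ u (rm σ v p))) = (gs (rm σ u (rm σ v p))).erase x := QUB.gs_rm _ _ _
        rw [e, gN]
        exact Finset.mem_erase.2 ⟨fun h' => h1.2.2.2 (h' ▸ hx), Finset.mem_erase.2 ⟨h1.2.1, Finset.mem_erase.2 ⟨h1.2.2.1, h1.1⟩⟩⟩
      · have e : gs (rm σ x (rm σ u (rm σ v p))) = (gs (rm σ u (rm σ v p))).erase x := QUB.gs_rm _ _ _
        rw [e, gN]
        have h1 := mX x' hx'
        exact Finset.mem_sdiff.2 ⟨Finset.mem_erase.2 ⟨hne, Finset.mem_erase.2 ⟨h1.2.1, Finset.mem_erase.2 ⟨h1.2.2, h1.1⟩⟩⟩,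
          fun h' => ((mY x').1 h').2.2.2 hx'⟩
    have l4 : QUB.lam S.r (rm σ v (rm σ u p)) Y ≤ 1 := by
      rw [← eN, hYd]
      exact (QUB.lam_compl S.r (hM.wf h.hp) hM.sub).trans_le hM.lam
    have hone : 1 ≤ QUB.lam S.r (rm σ v (rm σ u p)) {x} := by
      refine h.cn2 mv mu huv.symm σ σ {x} ?_ (Finset.singleton_nonempty x) ⟨z, ?_⟩
      · rw [Finset.singleton_subset_iff, ← eN]
        exact hM.sub hx
      · rw [Finset.mem_sdiff, Finset.mem_singleton, ← eN]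
        have h1 := (mY z).1 hzY
        exact ⟨(Finset.mem_sdiff.1 hzY).1, fun h' => h1.2.2.2 (h' ▸ hx)⟩
    have l5 : QUB.lam S.r (rm σ u p) (insert v Y) + QUB.lam S.r (rm σ x (rm σ v (rm σ u p))) Y ≤
        QUB.lam S.r (rm σ x (rm σ u p)) (insert v Y) + QUB.lam S.r (rm σ v (rm σ u p)) Y :=
      QUB.lam_L6 hr hwQ (t := σ) (w := x) (e := v) (A := Y) hxQ hvQ hxv.symm hYe hone
    rw [← eN] at l5
    have l4' : QUB.lam S.r (rm σ u (rm σ v p)) Y ≤ 1 := by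
      rw [eN]
      exact l4
    omega
  · -- the other type
    obtain ⟨q', k1, k2, k3⟩ := Md.keep h.hp hM hx hc
    have eNR : rm σ x (rm t u (rm t v p)) = rm t v (rm σ x (rm t u p)) := by
      rw [eN]
      exact rm_comm σ t x v _
    rw [eNR] at k1
    have k1' : Sub q' (rm σ x (rm t u p)) := (rm_sub t v (rm σ x (rm t u p))).trans k1
    have hXe : X.erase x ⊆ gs (rm σ x (rm t u p)) := by
      intro y hy
      have h1 := Finset.mem_erase.1 hy
      have h2 := mX y h1.2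
      exact sa_mem h1.1 (sa_mem h2.2.1 h2.1)
    have hvY : insert v Y ⊆ gs (rm σ x (rm t u p)) := by
      intro y hy
      rcases Finset.mem_insert.1 hy with rfl | hy
      · exact sa_mem hxv.symm hvQ
      · have h1 := (mY y).1 hy
        exact sa_mem (fun h' => h1.2.2.2 (h' ▸ hx)) (sa_mem h1.2.1 h1.1)
    have e1 : gs (rm σ x (rm t u p)) \ insert v Y = X.erase x := by
      have e : gs (rm σ x (rm t u p)) = ((gs p).erase u).erase x := gs_rm2 σ t x u p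
      ext y
      have h1 := mY y
      have h2 := mX y
      rw [e, Finset.mem_sdiff, Finset.mem_insert, Finset.mem_erase, Finset.mem_erase, Finset.mem_erase]
      tauto
    have l3 : QUB.lam S.r (rm σ x (rm t u p)) (X.erase x) ≤ 1 := by
      rw [← e1]
      exact (QUB.lam_compl S.r hwR hvY).trans_le l1
    have h1 := hmin σ x t u (X.erase x) ⟨mx, mu, hxu, hXe, l3, ⟨q', k1', k2, ?_⟩, ?_, fun h' => absurd h' hσ⟩
    · rw [Finset.card_erase_of_mem hx] at h1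
      omega
    · exact (Finset.card_le_card (Finset.inter_subset_inter_right (Finset.erase_subset _ _))).trans k3
    · rw [Finset.card_erase_of_mem hx]
      omega

end

end Pool.Agent.QU
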