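import Pool.Agent.QUL.LPair
import Pool.Agent.QUL.LStrong
import Pool.Agent.QUL.LSf2

set_option autoImplicit false

/-!
# Project QU, layer D: nondegenerate pairs of removals

`nd_of_cn`: two removals of one type are nondegenerate if both boxes are connected.
-/

namespace Pool.Agent.QU

variable {K E : Type} [Field K] [Fintype E] [DecidableEq E]

omit [Fintype E] in
/-- in a connected box with at least two elements no element is a loop or a coloop -/
theorem cn_step {r : Finset E → ℤ} (hr : QUB.Rk r) {q : Itv E} (hc : QUB.Cn r q) {x : E}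
    (hx : x ∈ gs q) (h2 : ((gs q).erase x).Nonempty) :
    r (q.2.erase x) = r q.2 ∧ r (insert x q.1) = r q.1 + 1 := by
  have h := hc.single hx h2
  have h' : 1 ≤ r (q.1 ∪ {x}) + r (q.2 \ {x}) - r q.2 - r q.1 := h
  have e1 : q.1 ∪ {x} = insert x q.1 := by
    rw [Finset.union_comm, ← Finset.insert_eq]
  have e2 : q.2 \ {x} = q.2.erase x := Finset.sdiff_singleton_eq_erase x q.2
  rw [e1, e2] at h'
  have h3 := hr.unit q.1 x
  have h4 := hr.mono _ _ (Finset.erase_subset x q.2)
  constructor <;> linarith

omit [Fintype E] in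
theorem nd_of_cn {r : Finset E → ℤ} (hr : QUB.Rk r) {p : Itv E} {u v : E} {t : Bool} (huv : u ≠ v)
    (hu : u ∈ gs p) (hv : v ∈ gs p) (h3 : 3 ≤ (gs p).card) (cu : QUB.Cn r (rm t u p))
    (cv : QUB.Cn r (rm t v p)) : ND r p u v t t := by
  have hne : ∀ x y : E, x ≠ y → x ∈ gs p → y ∈ gs p → ((gs (rm t x p)).erase y).Nonempty := by
    intro x y hxy hx hy
    rw [gs_rm]
    have h1 := Finset.card_erase_add_one hx
    have h2 := Finset.card_erase_add_one (Finset.mem_erase.2 ⟨hxy.symm, hy⟩)
    exact Finset.card_pos.1 (by omega)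
  have hv' : v ∈ gs (rm t u p) := by
    rw [gs_rm]
    exact Finset.mem_erase.2 ⟨huv.symm, hv⟩
  have hu' : u ∈ gs (rm t v p) := by
    rw [gs_rm]
    exact Finset.mem_erase.2 ⟨huv, hu⟩
  have a := cn_step hr cu hv' (hne u v huv hu hv)
  have b := cn_step hr cv hu' (hne v u huv.symm hv hu)
  cases t
  · have a2 : r (insert v (insert u p.1)) = r (insert u p.1) + 1 := a.2
    have b2 : r (insert u (insert v p.1)) = r (insert v p.1) + 1 := b.2
    have h1 := hr.unit p.1 u
    have h2 := QUB.marg hr (Finset.subset_insert v p.1) u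
    rw [Finset.insert_comm] at a2
    show r (insert u p.1) + r (insert v p.1) = r p.1 + r (insert u (insert v p.1))
    linarith
  · have a1 : r ((p.2.erase u).erase v) = r (p.2.erase u) := a.1
    have b1 : r ((p.2.erase v).erase u) = r (p.2.erase v) := b.1
    have h1 := hr.mono _ _ (Finset.erase_subset u p.2)
    have h2 := QUB.marg hr (Finset.erase_subset v (p.2.erase u)) u
    rw [Finset.erase_right_comm] at b1
    have hup : u ∈ p.2 := (Finset.mem_sdiff.1 hu).1
    have hvp : v ∈ p.2 := (Finset.mem_sdiff.1 hv).1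
    have h3 := QUB.marg hr (show (p.2.erase u).erase v ⊆ p.2.erase u from Finset.erase_subset _ _) v
    have h4 := QUB.marg hr (show (p.2.erase u).erase v ⊆ p.2.erase v from by
      rw [Finset.erase_right_comm]; exact Finset.erase_subset _ _) u
    rw [Finset.insert_erase (Finset.mem_erase.2 ⟨huv.symm, hvp⟩)] at h3
    have e5 : insert u ((p.2.erase u).erase v) = p.2.erase v := by
      rw [Finset.erase_right_comm, Finset.insert_erase (Finset.mem_erase.2 ⟨huv, hup⟩)]
    have h5 := hr.sub (p.2.erase u) (p.2.erase v)
    have e6 : p.2.erase u ∪ p.2.erase v = p.2 := by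
      ext x
      simp only [Finset.mem_union, Finset.mem_erase]
      constructor
      · rintro (h | h)
        · exact h.2
        · exact h.2
      · intro h
        by_cases hxu : x = u
        · right
          exact ⟨hxu ▸ huv, h⟩
        · left
          exact ⟨hxu, h⟩
    have e7 : p.2.erase u ∩ p.2.erase v = (p.2.erase u).erase v := by
      ext x
      simp only [Finset.mem_inter, Finset.mem_erase]
      tauto
    rw [e6, e7] at h5
    show r (p.2.erase u) + r (p.2.erase v) = r p.2 + r ((p.2.erase u).erase v)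
    linarith

end Pool.Agent.QU
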