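import Pool.Agent.QUB.Bix

/-!
# QUR/Bc: the inequality of Bixby and Coullard
-/

set_option autoImplicit false

open QUB

namespace Pool.Agent.QU

section

variable {E : Type} [DecidableEq E] {r : Finset E → ℤ} {q : Finset E × Finset E}

/-- one separation of a deletion and one of a contraction -/
theorem bc (hr : QUB.Rk r) (hq : q.1 ⊆ q.2) {f : E} (hf : f ∈ QUB.gs q) {A B : Finset E} (hA : A ⊆ (QUB.gs q).erase f)
    (hB : B ⊆ (QUB.gs q).erase f) :
    QUB.lam r q (A ∩ B) + QUB.lam r q (insert f (A ∪ B)) ≤ QUB.lam r (QUB.rm true f q) A + QUB.lam r (QUB.rm false f q) B + 1 := by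
  have h := QUB.unc hr hq hf hA hB
  have e : QUB.gs q \ (((QUB.gs q).erase f \ A) ∩ ((QUB.gs q).erase f \ B)) = insert f (A ∪ B) := by
    ext w
    have h1 : w ∈ A → w ≠ f ∧ w ∈ QUB.gs q := fun h => Finset.mem_erase.1 (hA h)
    have h2 : w ∈ B → w ≠ f ∧ w ∈ QUB.gs q := fun h => Finset.mem_erase.1 (hB h)
    have h3 : w = f → w ∈ QUB.gs q := fun h => h ▸ hf
    rw [Finset.mem_sdiff, Finset.mem_inter, Finset.mem_sdiff, Finset.mem_sdiff, Finset.mem_erase, Finset.mem_insert, Finset.mem_union]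
    tauto
  have h4 := QUB.lam_compl r hq (A := ((QUB.gs q).erase f \ A) ∩ ((QUB.gs q).erase f \ B))
    (fun w hw => Finset.mem_of_mem_erase (Finset.mem_sdiff.1 (Finset.mem_inter.1 hw).1).1)
  rw [e] at h4
  linarith

/-- the same, with the complement of the second set -/
theorem bc' (hr : QUB.Rk r) (hq : q.1 ⊆ q.2) {f : E} (hf : f ∈ QUB.gs q) {A B : Finset E} (hA : A ⊆ (QUB.gs q).erase f)
    (hB : B ⊆ (QUB.gs q).erase f) :
    QUB.lam r q (A \ B) + QUB.lam r q (B \ A) ≤ QUB.lam r (QUB.rm true f q) A + QUB.lam r (QUB.rm false f q) B + 1 := by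
  have h := QUB.unc hr hq hf hA (A' := (QUB.gs q).erase f \ B) Finset.sdiff_subset
  have e1 : A ∩ ((QUB.gs q).erase f \ B) = A \ B := by
    ext w
    have h1 : w ∈ A → w ∈ (QUB.gs q).erase f := fun h => hA h
    rw [Finset.mem_inter, Finset.mem_sdiff, Finset.mem_sdiff]
    tauto
  have e2 : ((QUB.gs q).erase f \ A) ∩ ((QUB.gs q).erase f \ ((QUB.gs q).erase f \ B)) = B \ A := by
    ext w
    have h1 : w ∈ B → w ∈ (QUB.gs q).erase f := fun h => hB h
    rw [Finset.mem_inter, Finset.mem_sdiff, Finset.mem_sdiff, Finset.mem_sdiff, Finset.mem_sdiff]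
    tauto
  have h4 := QUB.lam_compl r (QUB.wf_rm (t := false) hq hf) (A := B) (by
    rw [QUB.gs_rm]
    exact hB)
  rw [QUB.gs_rm] at h4
  rw [e1, e2, h4] at h
  exact h

end

end Pool.Agent.QU
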