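import Mathlib

set_option autoImplicit false
set_option linter.unusedSectionVars false

/-!
# QUR/CftA: conflicts at a triangle, abstract layer

`R` is a rank function on the subsets of `E`, `G` the ground set, `Tl a b c` says that `{a, b, c}` is the triangle. `Sp x y A B` is a split of `M \ x, y`,
`Lab a b c y A B` a split of `M \ a, y` with `b` in `A` and `c` in `B`. `cft_abs`: a split at the triangle gives the data of the KEY LEMMA.
-/

namespace Pool.Agent.QU.Cft

open Finset

variable {E : Type*} [DecidableEq E]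

/-- a split of the deletion of `x` and `y` -/
structure Sp (R : Finset E → ℤ) (G : Finset E) (H : E → E → Finset E → Prop) (x y : E) (A B : Finset E) : Prop where
  cov : ∀ w, w ∈ A ∨ w ∈ B ↔ w ∈ G ∧ w ≠ x ∧ w ≠ y
  dis : ∀ w, w ∈ A → w ∉ B
  rk : R A + R B ≤ R G + 1
  hA : H x y A
  hB : H x y B

/-- the hypotheses on the matroid -/
structure Cx (R : Finset E → ℤ) (G : Finset E) (H : E → E → Finset E → Prop) (Tl : E → E → E → Prop) : Prop where
  mono : ∀ A B : Finset E, A ⊆ B → R A ≤ R B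
  unit : ∀ (A : Finset E) (x : E), R (insert x A) ≤ R A + 1
  sub : ∀ A B : Finset E, R (A ∪ B) + R (A ∩ B) ≤ R A + R B
  one : ∀ u : E, R {u} ≤ 1
  t1 : ∀ u ∈ G, ∀ A ⊆ G, ∀ B ⊆ G, (∀ w ∈ G, w ≠ u → w ∈ A ∨ w ∈ B) → 2 ≤ A.card → 2 ≤ B.card → R G + 2 ≤ R A + R B
  t2 : ∀ u ∈ G, ∀ v ∈ G, u ≠ v → ∀ A ⊆ G, ∀ B ⊆ G, (∀ w ∈ G, w ≠ u → w ≠ v → w ∈ A ∨ w ∈ B) → A.Nonempty → B.Nonempty → R G + 1 ≤ R A + R B
  tl1 : ∀ a b c : E, Tl a b c → Tl b a c
  tl2 : ∀ a b c : E, Tl a b c → Tl a c b
  tlG : ∀ a b c : E, Tl a b c → a ∈ G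
  tln : ∀ a b c : E, Tl a b c → a ≠ b
  tri : ∀ a b c : E, Tl a b c → ∀ A : Finset E, a ∈ A → b ∈ A → R (insert c A) = R A
  hm : ∀ (x y : E) (A B : Finset E), H x y A → A ⊆ B → H x y B
  hc : ∀ (x y : E) (A : Finset E), H x y A → 3 ≤ A.card
  hmv : ∀ (x y : E) (A B : Finset E) (b : E), x ∈ G → y ∈ G → y ≠ x → Sp R G H x y A B → b ∈ B → R (B.erase b) + R (insert b A) ≤ R G + 1 → H x y (B.erase b)
  tt : ∀ (a b c y : E) (A B C D : Finset E), Tl a b c → y ∈ G → y ≠ a → y ≠ b → y ≠ c → Sp R G H a y A B → Sp R G H b y C D → False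
  n9 : 9 ≤ G.card

/-- a labelled split -/
structure Lab (R : Finset E → ℤ) (G : Finset E) (H : E → E → Finset E → Prop) (Tl : E → E → E → Prop) (a b c y : E) (A B : Finset E) : Prop where
  tl : Tl a b c
  yG : y ∈ G
  ya : y ≠ a
  sp : Sp R G H a y A B
  bA : b ∈ A
  cB : c ∈ B

variable {R : Finset E → ℤ} {G : Finset E} {H : E → E → Finset E → Prop} {Tl : E → E → E → Prop}

theorem Sp.swap {x y : E} {A B : Finset E} (h : Sp R G H x y A B) : Sp R G H x y B A := by
  refine ⟨fun w => ?_, fun w h1 h2 => h.dis w h2 h1, ?_, h.hB, h.hA⟩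
  · rw [or_comm]
    exact h.cov w
  · have := h.rk
    linarith

/-! ### closure -/

theorem Cx.cl_mono (X : Cx R G H Tl) {S T : Finset E} {v : E} (h : S ⊆ T) (hv : R (insert v S) = R S) : R (insert v T) = R T := by
  have h1 := X.sub (insert v S) T
  have h2 := X.mono S (insert v S ∩ T) (by grind)
  have e1 : insert v S ∪ T = insert v T := by grind
  rw [e1] at h1
  have h3 := X.mono T (insert v T) (subset_insert _ _)
  linarith

theorem Cx.cl_trans (X : Cx R G H Tl) {S : Finset E} {u v : E} (hv : R (insert v (insert u S)) = R (insert u S)) (hu : R (insert u S) = R S) :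
    R (insert v S) = R S := by
  have h1 := X.mono (insert v S) (insert v (insert u S)) (by grind)
  have h2 := X.mono S (insert v S) (subset_insert _ _)
  linarith

theorem Cx.cl_mem {S : Finset E} {v : E} (hv : v ∈ S) : R (insert v S) = R S := by
  rw [insert_eq_self.2 hv]

theorem Cx.cl_union (X : Cx R G H Tl) {S : Finset E} (T : Finset E) (h : ∀ v ∈ T, R (insert v S) = R S) : R (S ∪ T) = R S := by
  induction T using Finset.induction_on with
  | empty => rw [union_empty]
  | insert v T hv ih =>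
    have h1 := ih fun w hw => h w (mem_insert_of_mem hw)
    have h2 := X.cl_mono (T := S ∪ T) (v := v) subset_union_left (h v (mem_insert_self _ _))
    have e1 : S ∪ insert v T = insert v (S ∪ T) := by grind
    rw [e1, h2, h1]

/-- `v` is in the closure of the set minus `v` -/
theorem Cx.cl_erase (X : Cx R G H Tl) {S T : Finset E} {v : E} (hv : v ∈ S) (h : R (S.erase v) = R S) (hT : S.erase v ⊆ T) : R (insert v T) = R T := by
  refine X.cl_mono hT ?_
  rw [insert_erase hv, h]

theorem Cx.two (X : Cx R G H Tl) {u v : E} (hu : u ∈ G) (hv : v ∈ G) (huv : u ≠ v) : R {u, v} = 2 := by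
  have h1 := X.t1 u hu {u, v} (by grind) G (Subset.refl _) (by grind) (by rw [card_pair huv]) (by have := X.n9; omega)
  have h2 := X.unit {v} u
  have h3 := X.one v
  have e : (insert u {v} : Finset E) = {u, v} := rfl
  rw [e] at h2
  linarith

/-! ### splits -/

theorem Sp.sA {x y : E} {A B : Finset E} (h : Sp R G H x y A B) : A ⊆ G := fun w hw => ((h.cov w).1 (Or.inl hw)).1

theorem Sp.sB {x y : E} {A B : Finset E} (h : Sp R G H x y A B) : B ⊆ G := fun w hw => ((h.cov w).1 (Or.inr hw)).1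

/-- the deleted elements are not in the closure of a side -/
theorem Cx.sp_x (X : Cx R G H Tl) {x y : E} {A B : Finset E} (hx : x ∈ G) (hy : y ∈ G) (h : Sp R G H x y A B) : R (insert x A) = R A + 1 := by
  have h1 := X.unit A x
  have h2 := X.mono A (insert x A) (subset_insert _ _)
  by_contra hcon
  have h3 : R (insert x A) = R A := by omega
  have a3 := X.hc _ _ _ h.hA
  have b3 := X.hc _ _ _ h.hB
  have sA := h.sA
  have sB := h.sB
  have cv := h.cov
  have h4 := X.t1 y hy (insert x A) (by grind) B sB (by grind) (by have := card_le_card (subset_insert x A); omega) (by omega)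
  have := h.rk
  linarith

theorem Cx.sp_y (X : Cx R G H Tl) {x y : E} {A B : Finset E} (hx : x ∈ G) (hy : y ∈ G) (h : Sp R G H x y A B) : R (insert y A) = R A + 1 := by
  have h1 := X.unit A y
  have h2 := X.mono A (insert y A) (subset_insert _ _)
  by_contra hcon
  have h3 : R (insert y A) = R A := by omega
  have a3 := X.hc _ _ _ h.hA
  have b3 := X.hc _ _ _ h.hB
  have sA := h.sA
  have sB := h.sB
  have cv := h.cov
  have h4 := X.t1 x hx (insert y A) (by grind) B sB (by grind) (by have := card_le_card (subset_insert y A); omega) (by omega)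
  have := h.rk
  linarith

theorem Cx.lab_of (X : Cx R G H Tl) {a b c y : E} {A B : Finset E} (ht : Tl a b c) (hy : y ∈ G) (ya : y ≠ a) (yb : y ≠ b) (yc : y ≠ c)
    (h : Sp R G H a y A B) : Lab R G H Tl a b c y A B ∨ Lab R G H Tl a b c y B A := by
  have aG := X.tlG _ _ _ ht
  have t2 := X.tl2 _ _ _ ht
  have t3 := X.tl1 _ _ _ ht
  have t4 := X.tl2 _ _ _ t3
  have bG := X.tlG _ _ _ t3
  have cG := X.tlG _ _ _ (X.tl1 _ _ _ t2)
  have ab := X.tln _ _ _ ht
  have ac := X.tln _ _ _ t2
  have key : ∀ P : Finset E, b ∈ P → c ∈ P → R (insert a P) = R P := fun P h1 h2 => X.tri _ _ _ (X.tl2 _ _ _ (X.tl1 _ _ _ ht)) P h1 h2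
  have cb := (h.cov b).2 ⟨bG, ab.symm, yb.symm⟩
  have cc := (h.cov c).2 ⟨cG, ac.symm, yc.symm⟩
  rcases cb with h1 | h1 <;> rcases cc with h2 | h2
  · have := X.sp_x aG hy h
    have := key A h1 h2
    omega
  · exact Or.inl ⟨ht, hy, ya, h, h1, h2⟩
  · exact Or.inr ⟨ht, hy, ya, h.swap, h1, h2⟩
  · have := X.sp_x aG hy h.swap
    have := key B h1 h2
    omega

theorem Lab.swap (X : Cx R G H Tl) {a b c y : E} {A B : Finset E} (h : Lab R G H Tl a b c y A B) : Lab R G H Tl a c b y B A :=
  ⟨X.tl2 _ _ _ h.tl, h.yG, h.ya, h.sp.swap, h.cB, h.bA⟩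

/-- all the facts about a labelled split -/
structure Fct (R : Finset E → ℤ) (G : Finset E) (a b c y : E) (A B : Finset E) : Prop where
  aG : a ∈ G
  bG : b ∈ G
  cG : c ∈ G
  ab : a ≠ b
  ac : a ≠ c
  bc : b ≠ c
  ya : y ≠ a
  yb : y ≠ b
  yc : y ≠ c
  aA : a ∉ A
  aB : a ∉ B
  yA : y ∉ A
  yB : y ∉ B
  cA : c ∉ A
  bB : b ∉ B
  sA : A ⊆ G
  sB : B ⊆ G
  A3 : 3 ≤ A.card
  B3 : 3 ≤ B.card
  rk : R A + R B = R G + 1
  xA : R (insert a A) = R A + 1
  xB : R (insert a B) = R B + 1
  wA : R (insert y A) = R A + 1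
  wB : R (insert y B) = R B + 1
  gB : R (insert b B) = R B + 1
  gA : R (insert c A) = R A + 1
  eA : R (A.erase b) = R A
  eB : R (B.erase c) = R B
  tri : ∀ S : Finset E, a ∈ S → b ∈ S → R (insert c S) = R S
  tri2 : ∀ S : Finset E, a ∈ S → c ∈ S → R (insert b S) = R S
  tri3 : ∀ S : Finset E, b ∈ S → c ∈ S → R (insert a S) = R S

private theorem half (X : Cx R G H Tl) {a b c y : E} {A B : Finset E} (h : Lab R G H Tl a b c y A B) :
    R (insert b B) = R B + 1 ∧ R (A.erase b) = R A := by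
  have aG := X.tlG _ _ _ h.tl
  have t3 := X.tl1 _ _ _ h.tl
  have bG := X.tlG _ _ _ t3
  have tri3 : ∀ S : Finset E, b ∈ S → c ∈ S → R (insert a S) = R S := fun P h1 h2 => X.tri _ _ _ (X.tl2 _ _ _ t3) P h1 h2
  have sA := h.sp.sA
  have sB := h.sp.sB
  have A3 := X.hc _ _ _ h.sp.hA
  have B3 := X.hc _ _ _ h.sp.hB
  have cv := h.sp.cov
  have rk := h.sp.rk
  have h1 := X.unit B b
  have h2 := X.mono B (insert b B) (subset_insert _ _)
  have bA := h.bA
  have cB := h.cB
  have t := tri3 (insert b B) (mem_insert_self _ _) (mem_insert_of_mem cB)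
  have c1 : 2 ≤ (insert a (insert b B)).card := by
    have := card_le_card (subset_insert b B)
    have := card_le_card (subset_insert a (insert b B))
    omega
  have c2 : 2 ≤ (A.erase b).card := by
    have := card_erase_add_one bA
    omega
  have s1 : insert a (insert b B) ⊆ G := by grind
  have h4 := X.t1 y h.yG (A.erase b) (by grind) _ s1 (by grind) c2 c1
  have h5 := X.mono (A.erase b) A (erase_subset _ _)
  constructor <;> omega

theorem Lab.fct (X : Cx R G H Tl) {a b c y : E} {A B : Finset E} (h : Lab R G H Tl a b c y A B) : Fct R G a b c y A B := by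
  have aG := X.tlG _ _ _ h.tl
  have t2 := X.tl2 _ _ _ h.tl
  have t3 := X.tl1 _ _ _ h.tl
  have bG := X.tlG _ _ _ t3
  have cG := X.tlG _ _ _ (X.tl1 _ _ _ t2)
  have ab := X.tln _ _ _ h.tl
  have ac := X.tln _ _ _ t2
  have bc := X.tln _ _ _ (X.tl2 _ _ _ t3)
  have cv := h.sp.cov
  have ds := h.sp.dis
  have bA := h.bA
  have cB := h.cB
  have yG := h.yG
  have A3 := X.hc _ _ _ h.sp.hA
  have B3 := X.hc _ _ _ h.sp.hB
  have rk := h.sp.rk
  have h1 := X.t2 a aG y h.yG h.ya.symm A h.sp.sA B h.sp.sB (fun w h1 h2 h3 => (cv w).2 ⟨h1, h2, h3⟩) (card_pos.1 (by omega)) (card_pos.1 (by omega))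
  have f1 := half X h
  have f2 := half X (h.swap X)
  exact {
    aG := aG
    bG := bG
    cG := cG
    ab := ab
    ac := ac
    bc := bc
    ya := h.ya
    yb := by grind
    yc := by grind
    aA := by grind
    aB := by grind
    yA := by grind
    yB := by grind
    cA := by grind
    bB := by grind
    sA := h.sp.sA
    sB := h.sp.sB
    A3 := A3
    B3 := B3
    rk := by omega
    xA := X.sp_x aG h.yG h.sp
    xB := X.sp_x aG h.yG h.sp.swap
    wA := X.sp_y aG h.yG h.sp
    wB := X.sp_y aG h.yG h.sp.swap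
    gB := f1.1
    gA := f2.1
    eA := f1.2
    eB := f2.2
    tri := X.tri _ _ _ h.tl
    tri2 := X.tri _ _ _ t2
    tri3 := X.tri _ _ _ (X.tl2 _ _ _ t3) }

/-- in a minimal side no element is a coloop -/
theorem Lab.col (X : Cx R G H Tl) {a b c y : E} {A B : Finset E} (h : Lab R G H Tl a b c y A B)
    (hmin : ∀ A' B' : Finset E, Lab R G H Tl a b c y A' B' → B.card ≤ B'.card) {e : E} (he : e ∈ B) : R (B.erase e) = R B := by
  have F := h.fct X
  by_cases hec : e = c
  · rw [hec]
    exact F.eB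
  by_contra hcon
  have h1 := X.mono (B.erase e) B (erase_subset _ _)
  have h2 := X.unit (B.erase e) e
  rw [insert_erase he] at h2
  have h3 := X.unit A e
  have rk := F.rk
  have h4 : R (B.erase e) + R (insert e A) ≤ R G + 1 := by omega
  have h5 := X.hmv a y A B e F.aG h.yG h.ya h.sp he h4
  have cv := h.sp.cov
  have ds := h.sp.dis
  have cB := h.cB
  have bA := h.bA
  have h6 : Lab R G H Tl a b c y (insert e A) (B.erase e) := by
    refine ⟨h.tl, h.yG, h.ya, ⟨fun w => ?_, fun w => ?_, by linarith, X.hm _ _ _ _ h.sp.hA (subset_insert _ _), h5⟩, mem_insert_of_mem bA, ?_⟩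
    · have := cv w
      have := cv e
      grind
    · grind
    · grind
  have h7 := hmin _ _ h6
  have h8 := card_erase_add_one he
  omega

/-- the structure of a bad element -/
structure Bad (R : Finset E → ℤ) (G : Finset E) (y e z u : E) (A B C D : Finset E) : Prop where
  zB : z ∈ B
  zC : z ∈ C
  BC : ∀ w, w ∈ B → w ∈ C → w = z
  uA : u ∈ A
  uD : u ∈ D
  AD : ∀ w, w ∈ A → w ∈ D → w = u
  yD : y ∈ D
  cD : D.card = B.card
  rBD : R (B ∩ D) = R B - 1
  rAC : R (A ∪ C) = R A + 1
  rD : R D = R B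
  rK : R (A ∩ C) + R (B ∪ D) = R G + 1

/-- set algebra of two splits -/
structure Sf (G A B C D : Finset E) (a b y e : E) : Prop where
  s1 : B ∩ C ⊆ G
  s2 : insert a (A ∪ D) ⊆ G
  s3 : A ∩ D ⊆ G
  s4 : B ∪ C ⊆ G
  s5 : insert b (B ∪ C) ⊆ G
  s6 : B ∩ D ⊆ G
  s7 : A ∪ C ⊆ G
  s8 : A ∩ C ⊆ G
  s9 : B ∪ D ⊆ G
  c1 : ∀ w ∈ G, w ≠ y → w ≠ e → w ∈ B ∩ C ∨ w ∈ insert a (A ∪ D)
  c2 : ∀ w ∈ G, w ≠ b → w ≠ y → w ∈ A ∩ D ∨ w ∈ B ∪ C
  c3 : ∀ w ∈ G, w ≠ y → w ∈ A ∩ D ∨ w ∈ insert b (B ∪ C)
  c4 : ∀ w ∈ G, w ≠ y → w ≠ e → w ∈ B ∩ D ∨ w ∈ A ∪ C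
  c5 : ∀ w ∈ G, w ≠ a → w ≠ b → w ≠ y → w ∈ A ∩ C ∨ w ∈ B ∪ D
  d1 : D ⊆ insert y ((A ∩ D) ∪ (B ∩ D))
  d2 : (B ∩ D) ∪ (B ∩ C) ⊆ B.erase e
  d3 : B.erase e ⊆ (B ∩ D) ∪ (B ∩ C)
  d4 : Disjoint (B ∩ D) (B ∩ C)
  d5 : insert a A ⊆ A ∪ C
  d6 : A ⊆ insert b ((A ∩ C) ∪ (A ∩ D))

private theorem sf_of {G A B C D : Finset E} {a b y e : E} (cv : ∀ w, w ∈ A ∨ w ∈ B ↔ w ∈ G ∧ w ≠ a ∧ w ≠ y)
    (cv' : ∀ w, w ∈ C ∨ w ∈ D ↔ w ∈ G ∧ w ≠ b ∧ w ≠ e) (ds : ∀ w, w ∈ A → w ∉ B) (ds' : ∀ w, w ∈ C → w ∉ D)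
    (bA : b ∈ A) (aC : a ∈ C) (eB : e ∈ B) : Sf G A B C D a b y e := by
  constructor
  · grind
  · grind
  · grind
  · grind
  · grind
  · grind
  · grind
  · grind
  · grind
  · grind
  · grind
  · grind
  · grind
  · grind
  · grind
  · grind
  · grind
  · rw [disjoint_left]
    grind
  · grind
  · grind

theorem bad_of (X : Cx R G H Tl) {a b c y : E} {A B : Finset E} (h : Lab R G H Tl a b c y A B)
    (hmin : ∀ a' b' c' y' A' B', Lab R G H Tl a' b' c' y' A' B' → B.card ≤ B'.card)
    {e : E} (he : e ∈ B) {C D : Finset E} (hC : Lab R G H Tl b a c e C D) : ∃ z u, Bad R G y e z u A B C D := by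
  have F := h.fct X
  have F' := hC.fct X
  have hD3 : B.card ≤ D.card := hmin b a c e C D hC
  have cB := h.col X (fun A' B' h' => hmin _ _ _ _ _ _ h') he
  have S := sf_of h.sp.cov hC.sp.cov h.sp.dis hC.sp.dis h.bA hC.bA he
  have yG := h.yG
  have bA := h.bA
  have cB0 := h.cB
  have aC := hC.bA
  have cD0 := hC.cB
  have eG : e ∈ G := F.sB he
  have yB := F.yB
  have ye : y ≠ e := fun h => yB (h ▸ he)
  -- (i)
  have hz : (B ∩ C).Nonempty := by
    by_contra hcon
    have h2 : B.erase e ⊆ D := by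
      intro w hw
      rcases mem_union.1 (S.d3 hw) with h5 | h5
      · exact (mem_inter.1 h5).2
      · exact absurd ⟨w, h5⟩ hcon
    have h3 := X.cl_erase he cB h2
    have := F'.wB
    omega
  -- submodularity
  have sub1 := X.sub A D
  have sub2 := X.sub B C
  have rk := F.rk
  have rk' := F'.rk
  have B3 := F.B3
  have c1 : R (insert a (A ∪ D)) = R (A ∪ D) := F.tri3 _ (mem_union_left _ bA) (mem_union_right _ cD0)
  have c2 : R (insert b (B ∪ C)) = R (B ∪ C) := F.tri2 _ (mem_union_right _ aC) (mem_union_left _ cB0)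
  have cardB : (B ∩ D).card + (B ∩ C).card + 1 ≤ B.card := by
    have h1 : (B ∩ D).card + (B ∩ C).card ≤ (B.erase e).card := by
      rw [← card_union_of_disjoint S.d4]
      exact card_le_card S.d2
    have := card_erase_add_one he
    omega
  have hz1 := card_pos.2 hz
  have hz0 := X.t2 y yG e eG ye (B ∩ C) S.s1 (insert a (A ∪ D)) S.s2 S.c1 hz ⟨a, mem_insert_self _ _⟩
  have BC2 : 2 ≤ (B ∪ C).card := by
    have := card_le_card (subset_union_left (s₁ := B) (s₂ := C))
    omega
  have BC2' : 2 ≤ (insert b (B ∪ C)).card := by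
    have := card_le_card (subset_insert b (B ∪ C))
    omega
  -- (ii)
  have yD : y ∈ D := by
    by_contra hyD
    have yC : y ∈ C := by
      rcases (hC.sp.cov y).2 ⟨yG, F.yb, ye⟩ with h | h
      · exact h
      · exact absurd h hyD
    have h2 : (A ∩ D).card ≤ 1 := by
      by_contra hcon
      have h3 := X.t1 b F.bG (A ∩ D) S.s3 (B ∪ C) S.s4 (fun w h1 h2 => by
        by_cases h3 : w = y
        · rw [h3]
          exact Or.inr (mem_union_right _ yC)
        · exact S.c2 w h1 h2 h3) (by omega) BC2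
      omega
    have h3 : D.card ≤ (A ∩ D).card + (B ∩ D).card := by
      refine (card_le_card (t := (A ∩ D) ∪ (B ∩ D)) ?_).trans (card_union_le _ _)
      intro w hw
      rcases mem_insert.1 (S.d1 hw) with h4 | h4
      · exact absurd (h4 ▸ hw) hyD
      · exact h4
    omega
  -- (iii)
  have hAD : (A ∩ D).card ≤ 1 := by
    by_contra hcon
    have h3 := X.t1 y yG (A ∩ D) S.s3 (insert b (B ∪ C)) S.s5 S.c3 (by omega) BC2'
    omega
  have h4 : D.card ≤ (A ∩ D).card + (B ∩ D).card + 1 := by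
    have h6 := card_le_card S.d1
    have h7 := card_insert_le y ((A ∩ D) ∪ (B ∩ D))
    have h8 := card_union_le (A ∩ D) (B ∩ D)
    omega
  have n1 : (B ∩ C).card = 1 := by omega
  have n2 : (A ∩ D).card = 1 := by omega
  have n3 : D.card = B.card := by omega
  obtain ⟨z, hz2⟩ := card_eq_one.1 n1
  obtain ⟨u, hu2⟩ := card_eq_one.1 n2
  have mz : ∀ w, w ∈ B → w ∈ C → w = z := by
    intro w h1 h2
    have h3 : w ∈ B ∩ C := mem_inter.2 ⟨h1, h2⟩
    rw [hz2] at h3
    exact mem_singleton.1 h3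
  have mu : ∀ w, w ∈ A → w ∈ D → w = u := by
    intro w h1 h2
    have h3 : w ∈ A ∩ D := mem_inter.2 ⟨h1, h2⟩
    rw [hu2] at h3
    exact mem_singleton.1 h3
  have mz' : z ∈ B ∩ C := by rw [hz2]; exact mem_singleton_self z
  have mu' : u ∈ A ∩ D := by rw [hu2]; exact mem_singleton_self u
  obtain ⟨zB, zC⟩ := mem_inter.1 mz'
  obtain ⟨uA, uD⟩ := mem_inter.1 mu'
  -- ranks
  have k1 : R G + 1 ≤ R (B ∩ D) + R (A ∪ C) :=
    X.t2 y yG e eG ye (B ∩ D) S.s6 (A ∪ C) S.s7 S.c4 ⟨c, mem_inter.2 ⟨cB0, cD0⟩⟩ ⟨b, mem_union_left _ bA⟩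
  have k0 : (A ∩ C).Nonempty := by
    by_contra hcon
    have h1 : A ⊆ {b, u} := by
      intro w hw
      rcases mem_insert.1 (S.d6 hw) with h5 | h5
      · rw [h5]; simp
      rcases mem_union.1 h5 with h6 | h6
      · exact absurd ⟨w, h6⟩ hcon
      · rw [mu w hw (mem_inter.1 h6).2]; simp
    have h2 := card_le_card h1
    have h3 := card_le_two (a := b) (b := u)
    have := F.A3
    omega
  have k2 : R G + 1 ≤ R (A ∩ C) + R (B ∪ D) :=
    X.t2 a F.aG b F.bG F.ab (A ∩ C) S.s8 (B ∪ D) S.s9 (fun w h1 h2 h3 => by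
      by_cases h4 : w = y
      · rw [h4]
        exact Or.inr (mem_union_right _ yD)
      · exact S.c5 w h1 h2 h3 h4) k0 ⟨c, mem_union_left _ cB0⟩
  have s1 := X.sub A C
  have s2 := X.sub B D
  have k3 : R (insert a A) ≤ R (A ∪ C) := X.mono _ _ S.d5
  have k4 : R B - 1 ≤ R (B ∩ D) := by
    have h1 := X.unit (B ∩ D) z
    have h2 : B.erase e ⊆ insert z (B ∩ D) := by
      intro w hw
      rcases mem_union.1 (S.d3 hw) with h5 | h5
      · exact mem_insert_of_mem h5
      · rw [mz w (mem_inter.1 h5).1 (mem_inter.1 h5).2]; exact mem_insert_self _ _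
    have h3 := X.mono _ _ h2
    omega
  have xA := F.xA
  have rBD : R (B ∩ D) = R B - 1 := by omega
  have rAC : R (A ∪ C) = R A + 1 := by omega
  have rD : R D = R B := by
    have h1 := hC.col X (fun A' B' h' => n3 ▸ hmin _ _ _ _ _ _ h') yD
    have h2 : D.erase y ⊆ insert u (B ∩ D) := by
      intro w hw
      obtain ⟨h3, h4⟩ := mem_erase.1 hw
      rcases mem_insert.1 (S.d1 h4) with h5 | h5
      · exact absurd h5 h3
      rcases mem_union.1 h5 with h6 | h6
      · rw [mu w (mem_inter.1 h6).1 h4]; exact mem_insert_self _ _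
      · exact mem_insert_of_mem h6
    have h3 := X.mono _ _ h2
    have h4 := X.unit (B ∩ D) u
    have h5 : insert y B ⊆ B ∪ D := insert_subset (mem_union_right _ yD) subset_union_left
    have h6 := X.mono _ _ h5
    have := F.wB
    omega
  exact ⟨z, u, zB, zC, mz, uA, uD, mu, yD, n3, rBD, rAC, rD, by omega⟩

/-- the data of the KEY LEMMA -/
structure Kd (R : Finset E → ℤ) (G : Finset E) (H : E → E → Finset E → Prop) (a b c y : E) (A F : Finset E) : Prop where
  sF : F ⊆ G
  aF : a ∉ F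
  bF : b ∉ F
  cF : c ∉ F
  dis : Disjoint (A.erase b) F
  nod : ∀ w ∈ F, ∀ P S : Finset E, ¬ Sp R G H b w P S
  k2 : R (insert c (insert b F)) = R (insert b F)

/-- no bad element -/
private theorem kd_good (X : Cx R G H Tl) {a b c y : E} {A B : Finset E} (h : Lab R G H Tl a b c y A B)
    (hno : ∀ w ∈ B, w ≠ c → ∀ P S : Finset E, ¬ Sp R G H b w P S) : Kd R G H a b c y A (B.erase c) := by
  have F := h.fct X
  have ds := h.sp.dis
  refine ⟨(erase_subset _ _).trans F.sB, fun h1 => F.aB (mem_of_mem_erase h1), fun h1 => F.bB (mem_of_mem_erase h1), fun h1 => (mem_erase.1 h1).1 rfl, ?_, ?_, ?_⟩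
  · rw [disjoint_left]
    intro w h1 h2
    exact ds w (mem_of_mem_erase h1) (mem_of_mem_erase h2)
  · intro w hw
    exact hno w (mem_of_mem_erase hw) (mem_erase.1 hw).1
  · exact X.cl_erase h.cB F.eB (subset_insert _ _)

/-- one bad element, `B` large -/
private theorem kd_big (X : Cx R G H Tl) {a b c y : E} {A B : Finset E} (h : Lab R G H Tl a b c y A B)
    (hmin : ∀ a' b' c' y' A' B', Lab R G H Tl a' b' c' y' A' B' → B.card ≤ B'.card) (hB : 4 ≤ B.card)
    {e : E} (he : e ∈ B) (hec : e ≠ c) {C D : Finset E} (hC : Lab R G H Tl b a c e C D) {z u : E} (hb : Bad R G y e z u A B C D) :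
    ∃ F, Kd R G H a b c y A F := by
  have F := h.fct X
  have F' := hC.fct X
  have S := sf_of h.sp.cov hC.sp.cov h.sp.dis hC.sp.dis h.bA hC.bA he
  have ds := h.sp.dis
  have yB := F.yB
  have ye : y ≠ e := fun h => yB (h ▸ he)
  have eG : e ∈ G := F.sB he
  have hcW : c ∈ B ∩ D := mem_inter.2 ⟨h.cB, hC.cB⟩
  have czn : c ≠ z := by
    rintro rfl
    exact hC.sp.dis _ hb.zC hC.cB
  -- the card of W
  have hW : 2 ≤ (B ∩ D).card := by
    have h1 : B ⊆ insert e (insert z (B ∩ D)) := by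
      intro w hw
      by_cases h2 : w = e
      · rw [h2]; exact mem_insert_self _ _
      rcases mem_union.1 (S.d3 (mem_erase.2 ⟨h2, hw⟩)) with h5 | h5
      · exact mem_insert_of_mem (mem_insert_of_mem h5)
      · rw [hb.BC w hw (mem_inter.1 h5).2]; exact mem_insert_of_mem (mem_insert_self _ _)
    have h2 := card_le_card h1
    have h3 := card_insert_le e (insert z (B ∩ D))
    have h4 := card_insert_le z (B ∩ D)
    omega
  -- c in the closure of W - c
  have hcc : R (insert c ((B ∩ D).erase c)) = R ((B ∩ D).erase c) := by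
    have h1 : R (insert c (A ∪ C)) = R (A ∪ C) := F.tri _ (mem_union_right _ hC.bA) (mem_union_left _ h.bA)
    have h2 := X.t2 y h.yG e eG ye ((B ∩ D).erase c) ((erase_subset _ _).trans S.s6) (insert c (A ∪ C)) (insert_subset F.cG S.s7)
      (fun w g1 g2 g3 => by
        rcases S.c4 w g1 g2 g3 with g4 | g4
        · by_cases g5 : w = c
          · rw [g5]; exact Or.inr (mem_insert_self _ _)
          · exact Or.inl (mem_erase.2 ⟨g5, g4⟩)
        · exact Or.inr (mem_insert_of_mem g4)) (by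
          rw [← card_pos]
          have := card_erase_add_one hcW
          omega) ⟨c, mem_insert_self _ _⟩
    rw [insert_erase hcW]
    have h3 := X.mono _ _ (erase_subset c (B ∩ D))
    have h4 := hb.rBD
    have h5 := hb.rAC
    have h6 := F.rk
    omega
  -- a minimal F
  obtain ⟨F0, hF0, hmF⟩ : ∃ F0 : Finset E, (F0 ⊆ (B ∩ D).erase c ∧ R (insert c F0) = R F0) ∧
      ∀ F1 : Finset E, F1 ⊆ (B ∩ D).erase c ∧ R (insert c F1) = R F1 → F0.card ≤ F1.card := by
    classical
    have hex : ∃ n : ℕ, ∃ F0 : Finset E, (F0 ⊆ (B ∩ D).erase c ∧ R (insert c F0) = R F0) ∧ F0.card = n :=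
      ⟨_, _, ⟨Subset.refl _, hcc⟩, rfl⟩
    obtain ⟨F0, h1, h2⟩ := Nat.find_spec hex
    refine ⟨F0, h1, fun F1 h3 => ?_⟩
    rw [h2]
    exact Nat.find_min' hex ⟨F1, h3, rfl⟩
  obtain ⟨hF1, hF2⟩ := hF0
  have hFB : F0 ⊆ B := fun w hw => (mem_inter.1 (mem_of_mem_erase (hF1 hw))).1
  have hFD : F0 ⊆ D := fun w hw => (mem_inter.1 (mem_of_mem_erase (hF1 hw))).2
  have cF0 : c ∉ F0 := fun h => (mem_erase.1 (hF1 h)).1 rfl
  refine ⟨F0, hFB.trans F.sB, fun h1 => F.aB (hFB h1), fun h1 => F.bB (hFB h1), cF0, ?_, ?_, X.cl_mono (subset_insert _ _) hF2⟩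
  · rw [disjoint_left]
    intro w h1 h2
    exact ds w (mem_of_mem_erase h1) (hFB h2)
  intro w hw P Q hPQ
  have hwB := hFB hw
  have hwc : w ≠ c := fun h => cF0 (h ▸ hw)
  have hwz : w ≠ z := by
    rintro rfl
    exact hC.sp.dis _ hb.zC (hFD hw)
  have hwe : w ≠ e := by
    rintro rfl
    exact F'.yB (hFD hw)
  -- w is bad
  obtain ⟨C', D', hC'⟩ : ∃ C' D', Lab R G H Tl b a c w C' D' := by
    rcases X.lab_of (X.tl1 _ _ _ h.tl) (F.sB hwB) (fun h => F.bB (h ▸ hwB)) (fun h => F.aB (h ▸ hwB)) hwc hPQ with g | g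
    · exact ⟨_, _, g⟩
    · exact ⟨_, _, g⟩
  obtain ⟨z', u', hb'⟩ := bad_of X h hmin hwB hC'
  have S' := sf_of h.sp.cov hC'.sp.cov h.sp.dis hC'.sp.dis h.bA hC'.bA hwB
  have czn' : c ≠ z' := by
    rintro rfl
    exact hC'.sp.dis _ hb'.zC hC'.cB
  -- z is not in the closure of W, z' not in the closure of W'
  have hcol := fun {v : E} (hv : v ∈ B) => h.col X (fun A' B' h' => hmin _ _ _ _ _ _ h') hv
  have rz : R (insert z (B ∩ D)) = R (B ∩ D) + 1 := by
    have h1 : B.erase e ⊆ insert z (B ∩ D) := by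
      intro w hw
      rcases mem_union.1 (S.d3 hw) with h5 | h5
      · exact mem_insert_of_mem h5
      · rw [hb.BC w (mem_inter.1 h5).1 (mem_inter.1 h5).2]; exact mem_insert_self _ _
    have h2 := X.mono _ _ h1
    have h3 := hcol he
    have h4 := X.unit (B ∩ D) z
    have h5 := hb.rBD
    omega
  have rz' : R (insert z' (B ∩ D')) = R (B ∩ D') + 1 := by
    have h1 : B.erase w ⊆ insert z' (B ∩ D') := by
      intro w hw
      rcases mem_union.1 (S'.d3 hw) with h5 | h5
      · exact mem_insert_of_mem h5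
      · rw [hb'.BC w (mem_inter.1 h5).1 (mem_inter.1 h5).2]; exact mem_insert_self _ _
    have h2 := X.mono _ _ h1
    have h3 := hcol hwB
    have h4 := X.unit (B ∩ D') z'
    have h5 := hb'.rBD
    omega
  by_cases hzz : z' = z
  · -- z' = z
    subst hzz
    have h1 : B.erase z' ⊆ insert w (B ∩ D') := by
      intro v hv
      obtain ⟨g1, g2⟩ := mem_erase.1 hv
      by_cases g3 : v = w
      · rw [g3]; exact mem_insert_self _ _
      rcases mem_union.1 (S'.d3 (mem_erase.2 ⟨g3, g2⟩)) with h5 | h5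
      · exact mem_insert_of_mem h5
      · exact absurd (hb'.BC v (mem_inter.1 h5).1 (mem_inter.1 h5).2) g1
    have h2 := X.mono _ _ h1
    have h3 := hcol hb.zB
    have h4 : R (insert w (B ∩ D')) = R (B ∩ D') + 1 := by
      have := X.unit (B ∩ D') w
      have := hb'.rBD
      omega
    -- minimality
    have h5 : R (insert c (F0.erase w)) ≠ R (F0.erase w) := by
      intro h6
      have h7 := hmF (F0.erase w) ⟨(erase_subset _ _).trans hF1, h6⟩
      have := card_erase_add_one hw
      omega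
    have h6 := X.mono _ _ (subset_insert c (F0.erase w))
    have h7 := X.unit (F0.erase w) w
    rw [insert_erase hw] at h7
    have h8 : R (insert w (insert c (F0.erase w))) = R (insert c (F0.erase w)) := by
      have e1 : insert w (insert c (F0.erase w)) = insert c F0 := by
        rw [Finset.insert_comm, insert_erase hw]
      rw [e1]
      have g1 := X.mono (insert c (F0.erase w)) (insert c F0) (insert_subset_insert _ (erase_subset _ _))
      omega
    have h9 : insert c (F0.erase w) ⊆ B ∩ D' := by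
      intro v hv
      rcases mem_insert.1 hv with g1 | g1
      · rw [g1]; exact mem_inter.2 ⟨h.cB, hC'.cB⟩
      obtain ⟨g2, g3⟩ := mem_erase.1 g1
      rcases mem_union.1 (S'.d3 (mem_erase.2 ⟨g2, hFB g3⟩)) with h5 | h5
      · exact h5
      · exfalso
        have g4 := hb'.BC v (mem_inter.1 h5).1 (mem_inter.1 h5).2
        rw [g4] at g3
        exact hC.sp.dis _ hb.zC (hFD g3)
    have h10 := X.cl_mono h9 h8
    omega
  · -- z' ≠ z
    have hX : R {c, z, z'} ≤ 2 := by
      have xA := F.xA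
      have aux : ∀ {v : E} {C1 : Finset E}, v ∈ C1 → a ∈ C1 → R (A ∪ C1) = R A + 1 → R (insert v (insert a A)) = R (insert a A) := by
        intro v C1 h1 h2 h3
        have h4 : insert v (insert a A) ⊆ A ∪ C1 := by
          refine insert_subset (mem_union_right _ h1) (insert_subset (mem_union_right _ h2) subset_union_left)
        have h5 := X.mono _ _ h4
        have h6 := X.mono _ _ (subset_insert v (insert a A))
        omega
      have h1 : R (insert a A ∪ {c, z, z'}) = R (insert a A) := by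
        refine X.cl_union _ fun v hv => ?_
        rcases mem_insert.1 hv with g | g
        · rw [g]
          exact F.tri _ (mem_insert_self _ _) (mem_insert_of_mem h.bA)
        rcases mem_insert.1 g with g | g
        · rw [g]
          exact aux hb.zC hC.bA hb.rAC
        · rw [mem_singleton.1 g]
          exact aux hb'.zC hC'.bA hb'.rAC
      have h2 := X.sub (insert a A ∪ {c, z, z'}) B
      have sU : insert a A ∪ {c, z, z'} ∪ B ⊆ G := by
        refine union_subset (union_subset (insert_subset F.aG F.sA) ?_) F.sB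
        exact insert_subset F.cG (insert_subset (F.sB hb.zB) (singleton_subset_iff.2 (F.sB hb'.zB)))
      have h3 := X.t2 y h.yG e eG ye (insert a A ∪ {c, z, z'} ∪ B) sU {c} (singleton_subset_iff.2 F.cG) (fun v g1 g2 g3 => by
        left
        by_cases g4 : v = a
        · rw [g4]
          exact mem_union_left _ (mem_union_left _ (mem_insert_self _ _))
        rcases (h.sp.cov v).2 ⟨g1, g4, g2⟩ with g5 | g5
        · exact mem_union_left _ (mem_union_left _ (mem_insert_of_mem g5))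
        · exact mem_union_right _ g5) ⟨b, mem_union_left _ (mem_union_left _ (mem_insert_of_mem h.bA))⟩ ⟨c, mem_singleton_self c⟩
      have h4 := X.one c
      have h5 : ({c, z, z'} : Finset E) ⊆ (insert a A ∪ {c, z, z'}) ∩ B := by
        refine subset_inter subset_union_right ?_
        exact insert_subset h.cB (insert_subset hb.zB (singleton_subset_iff.2 hb'.zB))
      have h6 := X.mono _ _ h5
      have h7 := F.rk
      omega
    have e1 : R {c, z} = 2 := X.two F.cG (F.sB hb.zB) czn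
    have e2 : R {c, z'} = 2 := X.two F.cG (F.sB hb'.zB) czn'
    by_cases hez : z' = e
    · -- z in W'
      have g1 : z ∈ B ∩ D' := by
        rcases mem_union.1 (S'.d3 (mem_erase.2 ⟨fun h => hwz h.symm, hb.zB⟩)) with h5 | h5
        · exact h5
        · exact absurd (hb'.BC z (mem_inter.1 h5).1 (mem_inter.1 h5).2).symm hzz
      have g2 : R (insert z' {c, z}) = R {c, z} := by
        have g3 : (insert z' {c, z} : Finset E) = {c, z, z'} := by grind
        have g4 := X.mono {c, z} (insert z' {c, z}) (subset_insert _ _)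
        rw [g3] at g4 ⊢
        omega
      have g5 : ({c, z} : Finset E) ⊆ B ∩ D' := by
        have := hC'.cB
        have := h.cB
        intro v hv
        rcases mem_insert.1 hv with g | g
        · rw [g]; exact mem_inter.2 ⟨h.cB, hC'.cB⟩
        · rw [mem_singleton.1 g]; exact g1
      have g6 := X.cl_mono g5 g2
      omega
    · have g1 : z' ∈ B ∩ D := by
        rcases mem_union.1 (S.d3 (mem_erase.2 ⟨hez, hb'.zB⟩)) with h5 | h5
        · exact h5
        · exact absurd (hb.BC z' (mem_inter.1 h5).1 (mem_inter.1 h5).2) hzz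
      have g2 : R (insert z {c, z'}) = R {c, z'} := by
        have g3 : (insert z {c, z'} : Finset E) = {c, z, z'} := by grind
        have g4 := X.mono {c, z'} (insert z {c, z'}) (subset_insert _ _)
        rw [g3] at g4 ⊢
        omega
      have g5 : ({c, z'} : Finset E) ⊆ B ∩ D := by
        intro v hv
        rcases mem_insert.1 hv with g | g
        · rw [g]; exact hcW
        · rw [mem_singleton.1 g]; exact g1
      have g6 := X.cl_mono g5 g2
      omega

/-- a pair of points collinear with `c` -/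
private structure Pr (R : Finset E → ℤ) (G : Finset E) (w c s t : E) : Prop where
  sG : s ∈ G
  tG : t ∈ G
  sc : s ≠ c
  tc : t ≠ c
  sw : s ≠ w
  tw : t ≠ w
  k0 : ∀ S : Finset E, s ∈ S → t ∈ S → R (insert c S) = R S
  ks : ∀ S : Finset E, c ∈ S → t ∈ S → R (insert s S) = R S
  kt : ∀ S : Finset E, c ∈ S → s ∈ S → R (insert t S) = R S

private theorem Pr.symm {w c s t : E} (h : Pr R G w c s t) : Pr R G w c t s :=
  ⟨h.tG, h.sG, h.tc, h.sc, h.tw, h.sw, fun S h1 h2 => h.k0 S h2 h1, h.kt, h.ks⟩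

private theorem star_node (X : Cx R G H Tl) {c w : E} (cG : c ∈ G) (wG : w ∈ G) (hcw : c ≠ w) {P Q : Finset E} (h : Sp R G H c w P Q)
    {T : Finset E} (hT : ∀ v ∈ T, v = c ∨ ∃ v' ∈ T, Pr R G w c v v') : R T ≤ 3 := by
  have xP := X.sp_x cG wG h
  have xQ := X.sp_x cG wG h.swap
  have rk := h.rk
  have sp : ∀ v v', Pr R G w c v v' → (v ∈ P ∧ v' ∈ Q) ∨ (v ∈ Q ∧ v' ∈ P) := by
    intro v v' hv
    rcases (h.cov v).2 ⟨hv.sG, hv.sc, hv.sw⟩ with h1 | h1 <;> rcases (h.cov v').2 ⟨hv.tG, hv.tc, hv.tw⟩ with h2 | h2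
    · have := hv.k0 P h1 h2
      omega
    · exact Or.inl ⟨h1, h2⟩
    · exact Or.inr ⟨h1, h2⟩
    · have := hv.k0 Q h1 h2
      omega
  have h1 : R (insert c P ∪ T) = R (insert c P) := by
    refine X.cl_union _ fun v hv => ?_
    rcases hT v hv with h1 | ⟨v', -, h2⟩
    · rw [h1]
      exact Cx.cl_mem (mem_insert_self _ _)
    rcases sp v v' h2 with ⟨h3, h4⟩ | ⟨h3, h4⟩
    · exact Cx.cl_mem (mem_insert_of_mem h3)
    · exact h2.ks _ (mem_insert_self _ _) (mem_insert_of_mem h4)
  have h2 : R (insert c (Q ∩ T) ∪ T) = R (insert c (Q ∩ T)) := by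
    refine X.cl_union _ fun v hv => ?_
    rcases hT v hv with h1 | ⟨v', hv', h2⟩
    · rw [h1]
      exact Cx.cl_mem (mem_insert_self _ _)
    rcases sp v v' h2 with ⟨h3, h4⟩ | ⟨h3, h4⟩
    · exact h2.ks _ (mem_insert_self _ _) (mem_insert_of_mem (mem_inter.2 ⟨h4, hv'⟩))
    · exact Cx.cl_mem (mem_insert_of_mem (mem_inter.2 ⟨h3, hv⟩))
  have sT : T ⊆ G := by
    intro v hv
    rcases hT v hv with h1 | ⟨v', -, h2⟩
    · rw [h1]; exact cG
    · exact h2.sG
  have h3 := X.sub (insert c P ∪ T) Q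
  have h4 := X.t2 c cG w wG hcw (insert c P ∪ T ∪ Q) (union_subset (union_subset (insert_subset cG h.sA) sT) h.sB) {w}
    (singleton_subset_iff.2 wG) (fun v g1 g2 g3 => by
      left
      rcases (h.cov v).2 ⟨g1, g2, g3⟩ with g5 | g5
      · exact mem_union_left _ (mem_union_left _ (mem_insert_of_mem g5))
      · exact mem_union_right _ g5) ⟨c, mem_union_left _ (mem_union_left _ (mem_insert_self _ _))⟩ ⟨w, mem_singleton_self w⟩
  have h5 := X.one w
  have h6 : Q ∩ T ⊆ (insert c P ∪ T) ∩ Q := by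
    intro v hv
    obtain ⟨g1, g2⟩ := mem_inter.1 hv
    exact mem_inter.2 ⟨mem_union_right _ g2, g1⟩
  have h7 := X.mono _ _ h6
  have h8 := X.unit (Q ∩ T) c
  have h9 := X.mono T (insert c (Q ∩ T) ∪ T) subset_union_right
  omega

private theorem perm1 (c e z : E) : ({c, e, z} : Finset E) = {e, z, c} := by
  ext v
  simp only [mem_insert, mem_singleton]
  tauto

private theorem perm2 (c e z : E) : ({c, e, z} : Finset E) = {c, z, e} := by
  ext v
  simp only [mem_insert, mem_singleton]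
  tauto

/-- the star: `B` has three elements and one of them is bad -/
private theorem kd_star (X : Cx R G H Tl) {a b c y : E} {A B : Finset E} (h : Lab R G H Tl a b c y A B)
    (hB : B.card = 3)
    {e : E} (he : e ∈ B) (hec : e ≠ c) {C D : Finset E} (hC : Lab R G H Tl b a c e C D) {z u : E} (hb : Bad R G y e z u A B C D) :
    Kd R G H a c b y B (insert y (A ∩ C)) := by
  have F := h.fct X
  have F' := hC.fct X
  have S := sf_of h.sp.cov hC.sp.cov h.sp.dis hC.sp.dis h.bA hC.bA he
  have ds := h.sp.dis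
  have yB := F.yB
  have yA := F.yA
  have ye : y ≠ e := fun h => yB (h ▸ he)
  have eG : e ∈ G := F.sB he
  have czn : c ≠ z := by
    rintro rfl
    exact hC.sp.dis _ hb.zC hC.cB
  have ezn : e ≠ z := by
    rintro rfl
    exact F'.yA hb.zC
  have eB3 : B = {c, e, z} := by
    symm
    refine eq_of_subset_of_card_le ?_ ?_
    · exact insert_subset h.cB (insert_subset he (singleton_subset_iff.2 hb.zB))
    · rw [hB, card_insert_of_notMem, card_insert_of_notMem, card_singleton]
      · exact notMem_singleton.2 ezn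
      · rw [mem_insert, mem_singleton]
        rintro (h1 | h1)
        · exact hec h1.symm
        · exact czn h1
  have cun : c ≠ u := by
    rintro rfl
    exact F.cA hb.uA
  have yun : y ≠ u := by
    rintro rfl
    exact yA hb.uA
  have eD3 : D = {c, y, u} := by
    symm
    refine eq_of_subset_of_card_le ?_ ?_
    · exact insert_subset hC.cB (insert_subset hb.yD (singleton_subset_iff.2 hb.uD))
    · rw [hb.cD, hB, card_insert_of_notMem, card_insert_of_notMem, card_singleton]
      · exact notMem_singleton.2 yun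
      · rw [mem_insert, mem_singleton]
        rintro (h1 | h1)
        · exact F.yc h1.symm
        · exact cun h1
  -- ranks
  have rB2 : R B = 2 := by
    have h1 := F.eB
    have h2 : B.erase c = {e, z} := by
      rw [eB3, erase_insert]
      rw [mem_insert, mem_singleton]
      rintro (h1 | h1)
      · exact hec h1.symm
      · exact czn h1
    rw [h2, X.two eG (F.sB hb.zB) ezn] at h1
    exact h1.symm
  have rD2 : R D = 2 := by rw [hb.rD, rB2]
  have uG := F.sA hb.uA
  have zG := F.sB hb.zB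
  have c3 : ∀ {v w x : E} {T : Finset E}, T = {v, w, x} → R T = 2 → v ∈ G → w ∈ G → x ∈ G → v ≠ w → ∀ P : Finset E, v ∈ P → w ∈ P → R (insert x P) = R P := by
    intro v w x T hT hR hv hw hx hvw P h1 h2
    refine X.cl_mono (S := {v, w}) (insert_subset h1 (singleton_subset_iff.2 h2)) ?_
    have e1 : (insert x {v, w} : Finset E) = {v, w, x} := (perm1 x v w)
    rw [e1, ← hT, hR, X.two hv hw hvw]
  -- k2
  have yK : y ∉ A ∩ C := fun h => yA (mem_inter.1 h).1
  have cK : c ∉ A ∩ C := fun h => F.cA (mem_inter.1 h).1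
  refine ⟨?_, ?_, ?_, ?_, ?_, ?_, ?_⟩
  · exact insert_subset h.yG S.s8
  · rw [mem_insert]
    rintro (h1 | h1)
    · exact F.ya h1.symm
    · exact F.aA (mem_inter.1 h1).1
  · rw [mem_insert]
    rintro (h1 | h1)
    · exact F.yc h1.symm
    · exact cK h1
  · rw [mem_insert]
    rintro (h1 | h1)
    · exact F.yb h1.symm
    · exact F'.aA (mem_inter.1 h1).2
  · rw [disjoint_left]
    intro w h1 h2
    rcases mem_insert.1 h2 with h3 | h3
    · rw [h3] at h1
      exact yB (mem_of_mem_erase h1)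
    · exact ds w (mem_inter.1 h3).1 (mem_of_mem_erase h1)
  · -- nodes
    intro w hw P Q hPQ
    rcases mem_insert.1 hw with h1 | h1
    · rw [h1] at hPQ
      exact X.tt a c b y A B P Q (X.tl2 _ _ _ h.tl) h.yG F.ya F.yc F.yb h.sp hPQ
    obtain ⟨wA, wC⟩ := mem_inter.1 h1
    have wG := F.sA wA
    have hcw : c ≠ w := fun h2 => F.cA (h2 ▸ wA)
    have q1 : Pr R G w c a b := ⟨F.aG, F.bG, F.ac, F.bc, fun h2 => F.aA (h2 ▸ wA), fun h2 => F'.aA (h2 ▸ wC), F.tri,
      fun S h1 h2 => F.tri3 S h2 h1, fun S h1 h2 => F.tri2 S h2 h1⟩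
    have q2 : Pr R G w c e z := by
      refine ⟨eG, zG, hec, czn.symm, fun h2 => F'.yA (h2 ▸ wC), fun h2 => ds w wA (h2 ▸ hb.zB), ?_, ?_, ?_⟩
      · exact c3 (T := B) (eB3.trans (perm1 c e z)) rB2 eG zG F.cG ezn
      · exact c3 (T := B) (eB3.trans (perm2 c e z)) rB2 F.cG zG eG czn
      · exact c3 (T := B) eB3 rB2 F.cG eG zG (Ne.symm hec)
    have q3 : Pr R G w c y u := by
      refine ⟨h.yG, uG, F.yc, cun.symm, fun h2 => yA (h2 ▸ wA), fun h2 => hC.sp.dis w wC (h2 ▸ hb.uD), ?_, ?_, ?_⟩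
      · exact c3 (T := D) (eD3.trans (perm1 c y u)) rD2 h.yG uG F.cG yun
      · exact c3 (T := D) (eD3.trans (perm2 c y u)) rD2 F.cG uG h.yG cun
      · exact c3 (T := D) eD3 rD2 F.cG h.yG uG F.yc.symm
    have h7 : R {c, a, b, e, z, y, u} ≤ 3 := by
      refine star_node X F.cG wG hcw hPQ fun v hv => ?_
      simp only [mem_insert, mem_singleton] at hv
      rcases hv with rfl | rfl | rfl | rfl | rfl | rfl | rfl
      · exact Or.inl rfl
      · exact Or.inr ⟨b, by simp, q1⟩
      · exact Or.inr ⟨a, by simp, q1.symm⟩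
      · exact Or.inr ⟨z, by simp, q2⟩
      · exact Or.inr ⟨e, by simp, q2.symm⟩
      · exact Or.inr ⟨u, by simp, q3⟩
      · exact Or.inr ⟨y, by simp, q3.symm⟩
    have hsT : ({c, a, b, e, z, y, u} : Finset E) ⊆ G := by
      intro v hv
      simp only [mem_insert, mem_singleton] at hv
      rcases hv with rfl | rfl | rfl | rfl | rfl | rfl | rfl
      exacts [F.cG, F.aG, F.bG, eG, zG, h.yG, uG]
    have A4 : 4 ≤ A.card := by
      have g1 : G ⊆ insert a (insert y (A ∪ B)) := by
        intro v hv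
        by_cases g2 : v = a
        · rw [g2]; exact mem_insert_self _ _
        by_cases g3 : v = y
        · rw [g3]; exact mem_insert_of_mem (mem_insert_self _ _)
        exact mem_insert_of_mem (mem_insert_of_mem (mem_union.2 ((h.sp.cov v).2 ⟨hv, g2, g3⟩)))
      have g2 := card_le_card g1
      have g3 := card_insert_le a (insert y (A ∪ B))
      have g4 := card_insert_le y (A ∪ B)
      have g5 := card_union_le A B
      have := X.n9
      omega
    have K2 : 2 ≤ (A ∩ C).card := by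
      have g1 : A ⊆ insert b (insert u (A ∩ C)) := by
        intro v hv
        rcases mem_insert.1 (S.d6 hv) with h4 | h4
        · rw [h4]; exact mem_insert_self _ _
        rcases mem_union.1 h4 with h5 | h5
        · exact mem_insert_of_mem (mem_insert_of_mem h5)
        · rw [hb.AD v hv (mem_inter.1 h5).2]
          exact mem_insert_of_mem (mem_insert_self _ _)
      have g2 := card_le_card g1
      have g3 := card_insert_le b (insert u (A ∩ C))
      have g4 := card_insert_le u (A ∩ C)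
      omega
    have T2 : 2 ≤ ({c, a, b, e, z, y, u} : Finset E).card := by
      have g1 : ({c, a} : Finset E) ⊆ {c, a, b, e, z, y, u} := by
        intro v hv
        simp only [mem_insert, mem_singleton] at hv ⊢
        tauto
      have g2 := card_le_card g1
      rw [card_pair F.ac.symm] at g2
      exact g2
    have h8 := X.t1 c F.cG {c, a, b, e, z, y, u} hsT (A ∩ C) S.s8 (fun v g1 g2 => by
      by_cases g3 : v = a
      · left; rw [g3]; simp
      by_cases g4 : v = y
      · left; rw [g4]; simp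
      rcases (h.sp.cov v).2 ⟨g1, g3, g4⟩ with g5 | g5
      · rcases mem_insert.1 (S.d6 g5) with g6 | g6
        · left; rw [g6]; simp
        rcases mem_union.1 g6 with g7 | g7
        · exact Or.inr g7
        · left
          rw [hb.AD v g5 (mem_inter.1 g7).2]
          simp
      · left
        rw [eB3] at g5
        simp only [mem_insert, mem_singleton] at g5 ⊢
        tauto) T2 K2
    have h9 : insert y B ⊆ B ∪ D := insert_subset (mem_union_right _ hb.yD) subset_union_left
    have h10 := X.mono _ _ h9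
    have h11 := F.wB
    have h12 := hb.rK
    omega
  · -- k2
    have h1 : R (insert u (insert c (insert y (A ∩ C)))) = R (insert c (insert y (A ∩ C))) :=
      c3 eD3 rD2 F.cG h.yG uG F.yc.symm _ (mem_insert_self _ _) (mem_insert_of_mem (mem_insert_self _ _))
    refine X.cl_trans ?_ h1
    refine X.cl_erase h.bA F.eA ?_
    intro v hv
    obtain ⟨h2, h3⟩ := mem_erase.1 hv
    rcases mem_insert.1 (S.d6 h3) with h4 | h4
    · exact absurd h4 h2
    rcases mem_union.1 h4 with h5 | h5
    · exact mem_insert_of_mem (mem_insert_of_mem (mem_insert_of_mem h5))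
    · rw [hb.AD v h3 (mem_inter.1 h5).2]
      exact mem_insert_self _ _

/-- CONFLICTS: a split at the triangle gives the data of the KEY LEMMA -/
theorem cft_abs (X : Cx R G H Tl) {a0 b0 c0 y0 : E} {A0 B0 : Finset E} (h0 : Lab R G H Tl a0 b0 c0 y0 A0 B0) :
    ∃ a b c y A B F, Lab R G H Tl a b c y A B ∧ Kd R G H a b c y A F := by
  classical
  obtain ⟨a, b, c, y, A, B, h, hmin⟩ : ∃ a b c y A B, Lab R G H Tl a b c y A B ∧
      ∀ a' b' c' y' A' B', Lab R G H Tl a' b' c' y' A' B' → B.card ≤ B'.card := by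
    have hex : ∃ n : ℕ, ∃ a b c y A B, Lab R G H Tl a b c y A B ∧ B.card = n := ⟨_, _, _, _, _, _, _, h0, rfl⟩
    obtain ⟨a, b, c, y, A, B, h1, h2⟩ := Nat.find_spec hex
    refine ⟨a, b, c, y, A, B, h1, fun a' b' c' y' A' B' h3 => ?_⟩
    rw [h2]
    exact Nat.find_min' hex ⟨a', b', c', y', A', B', h3, rfl⟩
  by_cases hno : ∀ w ∈ B, w ≠ c → ∀ P S : Finset E, ¬ Sp R G H b w P S
  · exact ⟨a, b, c, y, A, B, _, h, kd_good X h hno⟩
  push Not at hno
  obtain ⟨e, he, hec, P, S, hPS⟩ := hno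
  have F := h.fct X
  obtain ⟨C, D, hC⟩ : ∃ C D, Lab R G H Tl b a c e C D := by
    rcases X.lab_of (X.tl1 _ _ _ h.tl) (F.sB he) (fun h => F.bB (h ▸ he)) (fun h => F.aB (h ▸ he)) hec hPS with g | g
    · exact ⟨_, _, g⟩
    · exact ⟨_, _, g⟩
  obtain ⟨z, u, hb⟩ := bad_of X h hmin he hC
  by_cases hB : 4 ≤ B.card
  · obtain ⟨F0, hF⟩ := kd_big X h hmin hB he hec hC hb
    exact ⟨a, b, c, y, A, B, F0, h, hF⟩
  · have := F.B3
    exact ⟨a, c, b, y, B, A, _, h.swap X, kd_star X h (by omega) he hec hC hb⟩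

end Pool.Agent.QU.Cft
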