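import Pool.Agent.QUP.Ch

/-!
# QUR/ClA: closure A of the tiny case

`ser_lift`: a form of `V(Q)` which is diagonal on `Q/y` is diagonal on `Q` if `{y,z}` is a series pair of `Q`.
`eff`: `{u,x,y,z}` a cocircuit, `(u\,y/)` and `(x\,y/)` good pairs: a form of `V(M\u)` agrees on `M\u\x` with a multiple of the form of `M\x`.
`clA`: hubs `u\`, `f\`, the targets `y\`, `x\` and `x/`.
-/

set_option autoImplicit false

open QUB

namespace Pool.Agent.QU

open Pool.Agent.FRM

variable {E : Type} [Fintype E] [DecidableEq E]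

variable {S : TP F4 E} {p : Itv E}

/-- a form which is diagonal after the contraction of an element of a series pair is diagonal -/
theorem ser_lift (S : TP F4 E) {q : Itv E} (hq : q.1 ⊆ q.2) {y z : E} (hy : y ∈ gs q) (hz : z ∈ gs q) (hyz : y ≠ z)
    (h1 : S.r ((q.2.erase y).erase z) = S.r q.2 - 1) (h2 : S.r (q.2.erase y) = S.r q.2) (h3 : S.r (q.2.erase z) = S.r q.2)
    {D : Fm F4 E} (hD : InV S.U S.W q D) (e : EqD S.U S.W (rm false y q) D 0) : EqD S.U S.W q D 0 := by
  obtain ⟨l, hl⟩ := e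
  have hy' := Finset.mem_sdiff.1 hy
  have hz' := Finset.mem_sdiff.1 hz
  have hsub : q.1 ⊆ (q.2.erase y).erase z := by
    intro w hw
    refine Finset.mem_erase.2 ⟨fun h => hz'.2 (h ▸ hw), Finset.mem_erase.2 ⟨fun h => hy'.2 (h ▸ hw), hq hw⟩⟩
  obtain ⟨c0, hc0, hc1⟩ := S.van_one (C := (q.2.erase y).erase z) (x := y) (by
    have : insert y ((q.2.erase y).erase z) = q.2.erase z := by
      ext w
      simp only [Finset.mem_insert, Finset.mem_erase]
      constructor
      · rintro (rfl | h)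
        · exact ⟨hyz, hy'.1⟩
        · exact ⟨h.1, h.2.2⟩
      · intro h
        by_cases hw : w = y
        · exact Or.inl hw
        · exact Or.inr ⟨h.1, hw, h.2⟩
    rw [this, h3, h1]
    ring)
  have hcz : ∀ w ∈ q.2, w ≠ y → w ≠ z → c0 w = 0 := fun w hw hwy hwz =>
    hc0.2 w (Finset.mem_erase.2 ⟨hwz, Finset.mem_erase.2 ⟨hwy, hw⟩⟩)
  have hc0' : c0 ∈ van S.U q.1 := ⟨hc0.1, fun w hw => hc0.2 w (hsub hw)⟩
  have hz0 : ∀ d ∈ spt S.W q.2, d y = 0 → d z = 0 := by
    intro d hd hdy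
    refine S.spt_eq_zero (G := q.2.erase y) (x := z) (Finset.mem_erase.2 ⟨hyz.symm, hz'.1⟩) (by rw [h1, h2]) d ⟨hd.1, fun w hw => ?_⟩
    by_cases hwy : w = y
    · rw [hwy, hdy]
    · exact hd.2 w fun h => hw (Finset.mem_erase.2 ⟨hwy, h⟩)
  have hphi : ∀ d ∈ spt S.W q.2, d y = 0 → D c0 d - dg l c0 d = 0 := by
    intro d hd hdy
    have hdis : ∀ w, c0 w * d w = 0 := by
      intro w
      by_cases hwq : w ∈ q.2
      · by_cases hwy : w = y
        · rw [hwy, hdy, mul_zero]
        · by_cases hwz : w = z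
          · rw [hwz, hz0 d hd hdy, mul_zero]
          · rw [hcz w hwq hwy hwz, zero_mul]
      · rw [hd.2 w hwq, mul_zero]
    rw [hD c0 hc0' d hd hdis, dg_inV q l c0 hc0' d hd hdis, sub_zero]
  have hzero : ∀ c ∈ van S.U q.1, c y = 0 → ∀ d ∈ spt S.W q.2, D c d - dg l c d = 0 := by
    intro c hc hcy d hd
    have hc' : c ∈ van S.U (rm false y q).1 := by
      refine ⟨hc.1, fun w hw => ?_⟩
      rw [rm_false] at hw
      rcases Finset.mem_insert.1 hw with h | h
      · rw [h, hcy]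
      · exact hc.2 w h
    have := hl c hc' d hd
    rw [LinearMap.add_apply, LinearMap.add_apply, LinearMap.zero_apply, LinearMap.zero_apply, zero_add] at this
    rw [this, sub_self]
  obtain ⟨d0, hd0, hd1⟩ := S.spt_one (G := q.2) (x := y) hy'.1 h2
  refine ⟨l + Pi.single y (D c0 d0 - dg l c0 d0), fun c hc d hd => ?_⟩
  have k1 := hzero (c - c y • c0) ((van S.U q.1).sub_mem hc ((van S.U q.1).smul_mem _ hc0')) (by
    rw [Pi.sub_apply, Pi.smul_apply, hc1, smul_eq_mul, mul_one, sub_self]) d hd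
  have k2 := hphi (d - d y • d0) ((spt S.W q.2).sub_mem hd ((spt S.W q.2).smul_mem _ hd0)) (by
    rw [Pi.sub_apply, Pi.smul_apply, hd1, smul_eq_mul, mul_one, sub_self])
  rw [LinearMap.add_apply, LinearMap.add_apply, LinearMap.zero_apply, LinearMap.zero_apply, zero_add, dg_add, LinearMap.add_apply,
    LinearMap.add_apply, dg_single]
  rw [map_sub, map_smul, map_sub, map_smul, LinearMap.sub_apply, LinearMap.smul_apply, LinearMap.sub_apply, LinearMap.smul_apply,
    smul_eq_mul, smul_eq_mul] at k1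
  rw [map_sub, map_smul, map_sub, map_smul, smul_eq_mul, smul_eq_mul] at k2
  linear_combination k1 + c y * k2

omit [Fintype E] in
private theorem cla_mem {p : Itv E} {a b : E} {s : Bool} (hab : a ≠ b) (ha : a ∈ gs p) : a ∈ gs (rm s b p) := by
  rw [gs_rm]
  exact Finset.mem_erase.2 ⟨hab, ha⟩

/-- comparison of two descriptions of `T` on a connected rich box -/
private theorem cla_cmp (S : TP F4 E) {q : Itv E} (hq : q.1 ⊆ q.2) (hc : QUB.Cn S.r q) (hR : HasRich S.r q) {T Ts : Fm F4 E}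
    (hTs : InVs S q Ts) {k k' : F4} {l l' : E → F4} (h : EqOn S.U S.W q T (k • Ts + dg l)) (h' : EqOn S.U S.W q T (k' • Ts + dg l')) :
    k = k' ∧ ∀ x ∈ gs q, l x = l' x := by
  have hk : k = k' := by
    by_contra hne
    obtain ⟨N, h1, h2⟩ := hR
    exact hTs.2 N h1 h2 ((eqd_diff ⟨l, h⟩ ⟨l', h'⟩ hne).mono h1)
  subst hk
  refine ⟨rfl, fun x hx => ?_⟩
  have hln : HasLn S.r q := hasLn_of_rich hR
  have h3 : EqOn S.U S.W q (dg (l - l')) 0 := by
    intro c hc d hd
    have e1 := h c hc d hd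
    have e2 := h' c hc d hd
    rw [e1, LinearMap.add_apply, LinearMap.add_apply, LinearMap.add_apply, LinearMap.add_apply] at e2
    rw [dg_sub, LinearMap.sub_apply, LinearMap.sub_apply, LinearMap.zero_apply, LinearMap.zero_apply]
    linear_combination e2
  have h4 := hom_cn S hq hc hln h3 x hx
  rw [Pi.sub_apply] at h4
  exact sub_eq_zero.1 h4

/-- a target of two hubs, the first comparison is given -/
theorem Cv.third_e (h : Cv S p) {k1 k2 x : E} {t s : Bool} (m1 : k1 ∈ gs p) (m2 : k2 ∈ gs p) (mx : x ∈ gs p) (h12 : k1 ≠ k2)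
    (h1x : k1 ≠ x) (h2x : k2 ≠ x) {T Ts : Fm F4 E} (hTs : InVs S (rm s x p) Ts) {k : F4}
    (e1 : EqD S.U S.W (rm t k1 (rm s x p)) T (k • Ts)) (i2 : InV S.U S.W (rm t k2 p) T) (o2 : Ok S.r (rm t k2 (rm s x p)))
    (c : Cn S.r (rm t k1 (rm t k2 (rm s x p)))) (R : HasRich S.r (rm t k1 (rm t k2 (rm s x p)))) : InV S.U S.W (rm s x p) T := by
  have u2 := h.uq m2 mx h2x o2
  have j2 : InV S.U S.W (rm t k2 (rm s x p)) T := i2.mono ((rm_sub s x p).rm t k2)
  have wq : (rm s x p).1 ⊆ (rm s x p).2 := QUB.wf_rm h.hp mx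
  have n1 : k1 ∈ gs (rm s x p) := cla_mem h1x m1
  have n2 : k2 ∈ gs (rm s x p) := cla_mem h2x m2
  have hnd := h.nd m1 m2 mx h12 h1x h2x t s
  generalize rm s x p = q at *
  obtain ⟨l1, e1⟩ := e1
  obtain ⟨x2, l2, e2⟩ := u2 T Ts j2 (invs_sub hTs (rm_sub t k2 q))
  have s1 : Sub (rm t k1 (rm t k2 q)) (rm t k2 q) := rm_sub t k1 _
  have s2 : Sub (rm t k1 (rm t k2 q)) (rm t k1 q) := (rm_sub t k2 q).rm t k1
  obtain ⟨hx, hl⟩ := cla_cmp S (QUB.wf_rm (QUB.wf_rm wq n2) (cla_mem h12 n1)) c R (invs_sub hTs ((rm_sub t k2 q).trans s1)) (e1.mono s2)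
    (e2.mono s1)
  subst hx
  exact (hTs.1.smul k).congrD (glue_l S h12 n1 n2 hnd e1 e2 hl)

/-- **eff**: a form of `V(M\u)` and the form of `M\x` on `M\u\x` -/
theorem eff (h : Cv S p) {u x y z : E} (mu : u ∈ gs p) (mx : x ∈ gs p) (my : y ∈ gs p) (mz : z ∈ gs p) (hux : u ≠ x) (huy : u ≠ y)
    (huz : u ≠ z) (hxy : x ≠ y) (hxz : x ≠ z) (hyz : y ≠ z) (hco : S.r (p.2 \ {u, x, y, z}) = S.r p.2 - 1)
    (ouy : Ok S.r (rm true u (rm false y p))) (oxy : Ok S.r (rm true x (rm false y p)))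
    (R : HasRich S.r (rm true u (rm true x (rm false y p)))) {T Sx : Fm F4 E} (hT : InV S.U S.W (rm true u p) T)
    (hS : InVs S (rm true x p) Sx) : ∃ k : F4, EqD S.U S.W (rm true u (rm true x p)) T (k • Sx) := by
  obtain ⟨Ty, hTy⟩ := h.ex my false
  have b1 : Sub (rm true u (rm false y p)) (rm true u p) := (rm_sub false y p).rm true u
  have b2 : Sub (rm true u (rm false y p)) (rm false y p) := rm_sub true u _
  have b3 : Sub (rm true x (rm false y p)) (rm true x p) := (rm_sub false y p).rm true x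
  have b4 : Sub (rm true x (rm false y p)) (rm false y p) := rm_sub true x _
  obtain ⟨k1, e1⟩ := h.uq mu my huy ouy T Ty (hT.mono b1) (invs_sub hTy b2)
  obtain ⟨k2, e2⟩ := h.uq mx my hxy oxy Sx Ty (hS.1.mono b3) (invs_sub hTy b4)
  -- on the triple
  have c1 : Sub (rm true u (rm true x (rm false y p))) (rm true u (rm false y p)) := (rm_sub true x _).rm true u
  have c2 : Sub (rm true u (rm true x (rm false y p))) (rm true x (rm false y p)) := rm_sub true u _
  have f1 := e1.mono c1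
  have f2 := e2.mono c2
  have hk2 : k2 ≠ 0 := by
    intro h0
    obtain ⟨N, hN1, hN2⟩ := R
    refine hS.2 N (b3.trans (c2.trans hN1)) hN2 ?_
    have := f2.mono hN1
    rw [h0, zero_smul] at this
    exact this
  refine ⟨k1 * k2⁻¹, ?_⟩
  have f3 : EqD S.U S.W (rm true u (rm true x (rm false y p))) T ((k1 * k2⁻¹) • Sx) := by
    have g1 := f2.smul (k1 * k2⁻¹)
    have g2 : (k1 * k2⁻¹) • (k2 • Ty) = k1 • Ty := by
      rw [smul_smul, mul_assoc, inv_mul_cancel₀ hk2, mul_one]
    rw [g2] at g1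
    exact f1.trans g1.symm
  have hq : (rm true u (rm true x p)).1 ⊆ (rm true u (rm true x p)).2 := QUB.wf_rm (QUB.wf_rm h.hp mx) (cla_mem hux mu)
  have hi : InV S.U S.W (rm true u (rm true x p)) (T - (k1 * k2⁻¹) • Sx) :=
    (hT.mono ((rm_sub true x p).rm true u)).sub ((hS.1.mono (rm_sub true u _)).smul _)
  have f4 : EqD S.U S.W (rm false y (rm true u (rm true x p))) (T - (k1 * k2⁻¹) • Sx) 0 := by
    have hbox : rm false y (rm true u (rm true x p)) = rm true u (rm true x (rm false y p)) := by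
      rw [rm_comm false true y u, rm_comm false true y x]
    rw [hbox]
    obtain ⟨l, hl⟩ := f3
    refine ⟨l, fun c hc d hd => ?_⟩
    have := hl c hc d hd
    rw [LinearMap.add_apply, LinearMap.add_apply] at this
    rw [LinearMap.sub_apply, LinearMap.sub_apply, LinearMap.add_apply, LinearMap.add_apply, LinearMap.zero_apply, LinearMap.zero_apply,
      this]
    ring
  have hmono := S.rk.mono
  have d3 : ∀ {a b c : E}, a ∈ gs p → b ∈ gs p → c ∈ gs p → a ≠ b → a ≠ c → b ≠ c → S.r (((p.2.erase a).erase b).erase c) = S.r p.2 := by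
    intro a b c ha hb hc hab hac hbc
    have e1 := h.nt.d3 {a, b, c} (by
      intro v hv
      simp only [Finset.mem_insert, Finset.mem_singleton] at hv
      rcases hv with rfl | rfl | rfl <;> assumption) (Finset.card_eq_three.2 ⟨a, b, c, hab, hac, hbc, rfl⟩)
    have e2 : p.2 \ {a, b, c} = ((p.2.erase a).erase b).erase c := by
      ext v
      simp only [Finset.mem_sdiff, Finset.mem_insert, Finset.mem_singleton, not_or, Finset.mem_erase]
      tauto
    rw [← e2]
    have e3 := hmono (p.2 \ {a, b, c}) p.2 Finset.sdiff_subset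
    omega
  have e0 : S.r ((p.2.erase x).erase u) = S.r p.2 := by
    have e1 := d3 mx mu my hux.symm hxy huy
    have e2 := hmono (((p.2.erase x).erase u).erase y) ((p.2.erase x).erase u) (Finset.erase_subset _ _)
    have e3 := hmono ((p.2.erase x).erase u) p.2 ((Finset.erase_subset _ _).trans (Finset.erase_subset _ _))
    omega
  have e4 : (((p.2.erase x).erase u).erase y).erase z = p.2 \ {u, x, y, z} := by
    ext v
    simp only [Finset.mem_sdiff, Finset.mem_insert, Finset.mem_singleton, not_or, Finset.mem_erase]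
    tauto
  have f5 := ser_lift S hq (cla_mem huy.symm (cla_mem hxy.symm my)) (cla_mem huz.symm (cla_mem hxz.symm mz)) hyz
    (by
      show S.r ((((p.2.erase x).erase u).erase y).erase z) = S.r ((p.2.erase x).erase u) - 1
      rw [e4, e0, hco])
    (by
      show S.r (((p.2.erase x).erase u).erase y) = S.r ((p.2.erase x).erase u)
      rw [e0, d3 mx mu my hux.symm hxy huy])
    (by
      show S.r (((p.2.erase x).erase u).erase z) = S.r ((p.2.erase x).erase u)
      rw [e0, d3 mx mu mz hux.symm hxz huz]) hi f4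
  obtain ⟨l, hl⟩ := f5
  refine ⟨l, fun c hc d hd => ?_⟩
  have := hl c hc d hd
  rw [LinearMap.sub_apply, LinearMap.sub_apply, LinearMap.add_apply, LinearMap.add_apply, LinearMap.zero_apply, LinearMap.zero_apply] at this
  rw [LinearMap.add_apply, LinearMap.add_apply]
  linear_combination this

/-- **closure A**: hubs `u\`, `f\`; `{u,x,y,z}` a cocircuit; `w` is `y` or `z` -/
theorem clA (h : Cv S p) {u f x y z w : E} (mu : u ∈ gs p) (mf : f ∈ gs p) (mx : x ∈ gs p) (my : y ∈ gs p) (mz : z ∈ gs p)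
    (huf : u ≠ f) (hux : u ≠ x) (huy : u ≠ y) (huz : u ≠ z) (hfx : f ≠ x) (hfy : f ≠ y) (hxy : x ≠ y) (hxz : x ≠ z) (hyz : y ≠ z)
    (hw : w = y ∨ w = z) (hco : S.r (p.2 \ {u, x, y, z}) = S.r p.2 - 1)
    (ouf : Ok S.r (rm true u (rm true f p))) (ofx : Ok S.r (rm true f (rm true x p))) (ofy : Ok S.r (rm true f (rm true y p)))
    (oux : Ok S.r (rm true u (rm false x p))) (ouw : Ok S.r (rm true u (rm false w p)))
    (oyx : Ok S.r (rm true y (rm false x p))) (oxw : Ok S.r (rm true x (rm false w p)))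
    (cfx : Cn S.r (rm true u (rm true f (rm true x p)))) (rfx : HasRich S.r (rm true u (rm true f (rm true x p))))
    (cfy : Cn S.r (rm true u (rm true f (rm true y p)))) (rfy : HasRich S.r (rm true u (rm true f (rm true y p))))
    (cyx : Cn S.r (rm true u (rm true y (rm false x p)))) (ryx : HasRich S.r (rm true u (rm true y (rm false x p))))
    (rxw : HasRich S.r (rm true u (rm true x (rm false w p)))) :
    ∃ T : Fm F4 E, InV S.U S.W p T ∧ ¬ EqD S.U S.W p T 0 := by
  obtain ⟨T, iu, jf, hne⟩ := h.two mu mf huf ouf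
  obtain ⟨Sx, hSx⟩ := h.ex mx true
  obtain ⟨Sy, hSy⟩ := h.ex my true
  have ex : ∃ k : F4, EqD S.U S.W (rm true u (rm true x p)) T (k • Sx) := by
    rcases hw with rfl | rfl
    · exact eff h mu mx my mz hux huy huz hxy hxz hyz hco ouw oxw rxw iu hSx
    · refine eff h mu mx mz my hux huz huy hxz hxy hyz.symm ?_ ouw oxw rxw iu hSx
      rw [show ({u, x, w, y} : Finset E) = {u, x, y, w} from by rw [Finset.pair_comm w y], hco]
  have ey : ∃ k : F4, EqD S.U S.W (rm true u (rm true y p)) T (k • Sy) := by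
    refine eff h mu my mx mz huy hux huz hxy.symm hyz hxz ?_ oux oyx ryx iu hSy
    rw [show ({u, y, x, z} : Finset E) = {u, x, y, z} from by
      ext v
      simp only [Finset.mem_insert, Finset.mem_singleton]
      tauto, hco]
  obtain ⟨kx, ex⟩ := ex
  obtain ⟨ky, ey⟩ := ey
  have ix := h.third_e mu mf mx huf hux hfx hSx ex jf ofx cfx rfx
  have iy := h.third_e mu mf my huf huy hfy hSy ey jf ofy cfy rfy
  have ix' := h.third mu my mx huy hux hxy.symm iu iy oux oyx cyx ryx
  refine ⟨T, inV_of_rm ix ix', fun hT => ?_⟩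
  obtain ⟨N, h1, h2⟩ := rfx
  have h3 : Sub N (rm true u p) := (((rm_sub true x p).trans (rm_sub true f _)).rm true u).trans h1
  exact hne N h3 h2 (hT.mono ((rm_sub true u p).trans h3))

end Pool.Agent.QU
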