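import Pool.Agent.QUR.TyC
import Pool.Agent.QUR.TyP
import Pool.Agent.QUR.SmA

/-!
# QUR/TyF: pairs and boxes of the tiny case, duality

`ok_ua`: `(u \, x /)` is `Ok`.  `ok_star`: `(x \, y /)` is `Ok` if it is not dirty.  `ty_dual`, `dirty_dual`: duality.  `cn_ufx`, `cn_uxy`:
connected boxes.  `rich_uxy`, `rich_ufx`: rich boxes.
-/

set_option autoImplicit false

open QUB

namespace Pool.Agent.QU

open Pool.Agent.FRM

section

variable {E : Type} [DecidableEq E] {r : Finset E → ℤ} {p : Itv E} {u v x y z f : E} {Y : Finset E}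

/-- `(u \, x /)` is `Ok` -/
theorem ok_ua (hr : Rk r) (hp : p.1 ⊆ p.2) (nt : Nt r p) (hn : 4 ≤ (gs p).card) (hT : Ty (rhoP r p) (r p.2 - r p.1) u v x y z Y)
    (e : gT u v x y z Y = gs p) : Ok r (rm true u (rm false x p)) := by
  refine ok_dc hr hp nt hn (e ▸ hT.uG) (e ▸ hT.xG) hT.ux fun A B hP hA hB _ _ => ?_
  exact hT.pa (by rw [e]; exact hP) hA hB

/-- `(x \, y /)` is `Ok` if it is not dirty -/
theorem ok_star (hr : Rk r) (hp : p.1 ⊆ p.2) (nt : Nt r p) (hn : 4 ≤ (gs p).card) (hT : Ty (rhoP r p) (r p.2 - r p.1) u v x y z Y)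
    (e : gT u v x y z Y = gs p) (hd : ¬ ∃ Z, Dirty (rhoP r p) (r p.2 - r p.1) u v x y z Y Z) : Ok r (rm true x (rm false y p)) := by
  refine ok_dc hr hp nt hn (e ▸ hT.xG) (e ▸ hT.yG) hT.xy fun A B hP hA hB _ _ => ?_
  exact hT.pe hd (by rw [e]; exact hP) hA hB

/-- three removals, partitions -/
theorem cn_ddd_p (hr : Rk r) (hp : p.1 ⊆ p.2) (nt : Nt r p) (hn : 3 ≤ (gs p).card) {a b c : E} (ha : a ∈ gs p) (hb : b ∈ gs p)
    (hc : c ∈ gs p)
    (H : ∀ A B : Finset E, (∀ w ∈ gs p, w ≠ a → w ≠ b → w ≠ c → w ∈ A ∨ w ∈ B) →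
      (∀ w ∈ A, w ∈ gs p ∧ w ≠ a ∧ w ≠ b ∧ w ≠ c ∧ w ∉ B) → (∀ w ∈ B, w ∈ gs p ∧ w ≠ a ∧ w ≠ b ∧ w ≠ c ∧ w ∉ A) →
      A.Nonempty → B.Nonempty → r p.2 - r p.1 + 1 ≤ rhoP r p A + rhoP r p B) : Cn r (rm true a (rm true b (rm true c p))) := by
  intro A hA h1 h2
  have hD : ({a, b, c} : Finset E) ⊆ gs p := by
    intro w hw
    simp only [Finset.mem_insert, Finset.mem_singleton] at hw
    rcases hw with rfl | rfl | rfl <;> assumption
  have hg : gs (rm true a (rm true b (rm true c p))) = (((gs p).erase c).erase b).erase a := gs_3 _ _ _ _ _ _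
  have hl := lam_nt hr hp nt hn (K := ∅) (D := {a, b, c}) (Finset.empty_subset _) hD (by simp) (by simp) Finset.card_le_three
    (bx_ddd a b c).1 (bx_ddd a b c).2 hA
  rw [Finset.empty_union, Finset.empty_union, Finset.card_empty] at hl
  have mg : ∀ w, w ∈ gs (rm true a (rm true b (rm true c p))) ↔ w ∈ gs p ∧ w ≠ a ∧ w ≠ b ∧ w ≠ c := by
    intro w
    rw [hg, Finset.mem_erase, Finset.mem_erase, Finset.mem_erase]
    tauto
  have h3 := H A (gs (rm true a (rm true b (rm true c p))) \ A) (fun w w1 w2 w3 w4 => by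
      rw [Finset.mem_sdiff, mg]
      tauto) (fun w hw => by
      have h4 := (mg w).1 (hA hw)
      exact ⟨h4.1, h4.2.1, h4.2.2.1, h4.2.2.2, fun h => (Finset.mem_sdiff.1 h).2 hw⟩) (fun w hw => by
      have h4 := Finset.mem_sdiff.1 hw
      have h5 := (mg w).1 h4.1
      exact ⟨h5.1, h5.2.1, h5.2.2.1, h5.2.2.2, h4.2⟩) h1 h2
  have hl' : QUB.lam r (rm true a (rm true b (rm true c p))) A = _ := hl
  show 1 ≤ QUB.lam r (rm true a (rm true b (rm true c p))) A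
  rw [hl']
  push_cast
  omega

/-- two deletions and a contraction, partitions -/
theorem cn_ddc_p (hr : Rk r) (hp : p.1 ⊆ p.2) (nt : Nt r p) (hn : 3 ≤ (gs p).card) {a b c : E} (ha : a ∈ gs p) (hb : b ∈ gs p)
    (hc : c ∈ gs p) (hac : a ≠ c) (hbc : b ≠ c)
    (H : ∀ A B : Finset E, (∀ w ∈ gs p, w ≠ a → w ≠ b → w ≠ c → w ∈ A ∨ w ∈ B) →
      (∀ w ∈ A, w ∈ gs p ∧ w ≠ a ∧ w ≠ b ∧ w ≠ c ∧ w ∉ B) → (∀ w ∈ B, w ∈ gs p ∧ w ≠ a ∧ w ≠ b ∧ w ≠ c ∧ w ∉ A) →
      A.Nonempty → B.Nonempty → r p.2 - r p.1 + 2 ≤ rhoP r p (insert c A) + rhoP r p (insert c B)) :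
    Cn r (rm true a (rm true b (rm false c p))) := by
  intro A hA h1 h2
  have hD : ({a, b} : Finset E) ⊆ gs p := by
    intro w hw
    simp only [Finset.mem_insert, Finset.mem_singleton] at hw
    rcases hw with rfl | rfl <;> assumption
  have hg : gs (rm true a (rm true b (rm false c p))) = (((gs p).erase c).erase b).erase a := gs_3 _ _ _ _ _ _
  have hl := lam_nt hr hp nt hn (K := {c}) (D := {a, b}) (Finset.singleton_subset_iff.2 hc) hD (by
      intro w hw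
      rw [Finset.mem_singleton] at hw
      rw [hw]
      simp only [Finset.mem_insert, Finset.mem_singleton, not_or]
      exact ⟨hac.symm, hbc.symm⟩) (card_le1 c) (card_le2 a b) (bx_ddc a b c).1 (bx_ddc a b c).2 hA
  rw [← Finset.insert_eq, ← Finset.insert_eq, Finset.card_singleton] at hl
  have mg : ∀ w, w ∈ gs (rm true a (rm true b (rm false c p))) ↔ w ∈ gs p ∧ w ≠ a ∧ w ≠ b ∧ w ≠ c := by
    intro w
    rw [hg, Finset.mem_erase, Finset.mem_erase, Finset.mem_erase]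
    tauto
  have h3 := H A (gs (rm true a (rm true b (rm false c p))) \ A) (fun w w1 w2 w3 w4 => by
      rw [Finset.mem_sdiff, mg]
      tauto) (fun w hw => by
      have h4 := (mg w).1 (hA hw)
      exact ⟨h4.1, h4.2.1, h4.2.2.1, h4.2.2.2, fun h => (Finset.mem_sdiff.1 h).2 hw⟩) (fun w hw => by
      have h4 := Finset.mem_sdiff.1 hw
      have h5 := (mg w).1 h4.1
      exact ⟨h5.1, h5.2.1, h5.2.2.1, h5.2.2.2, h4.2⟩) h1 h2
  have hl' : QUB.lam r (rm true a (rm true b (rm false c p))) A = _ := hl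
  show 1 ≤ QUB.lam r (rm true a (rm true b (rm false c p))) A
  rw [hl']
  push_cast
  omega

private theorem uxy_z (hT : Ty (rhoP r p) (r p.2 - r p.1) u v x y z Y) (e : gT u v x y z Y = gs p) {A B : Finset E}
    (hc : ∀ w ∈ gs p, w ≠ u → w ≠ x → w ≠ y → w ∈ A ∨ w ∈ B)
    (hB : ∀ w ∈ B, w ∈ gs p ∧ w ≠ u ∧ w ≠ x ∧ w ≠ y ∧ w ∉ A) (hz : z ∈ A) (nB : B.Nonempty) :
    r p.2 - r p.1 + 2 ≤ rhoP r p (insert y A) + rhoP r p (insert y B) := by
  have hsub : B ⊆ insert v Y := by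
    intro w hw
    obtain ⟨h1, h2, h3, h4, h5⟩ := hB w hw
    by_cases hwv : w = v
    · rw [hwv]; exact Finset.mem_insert_self _ _
    exact Finset.mem_insert_of_mem (memY (e ▸ h1) h2 hwv h3 h4 (fun h' => h5 (h' ▸ hz)))
  have e1 := hT.ny hsub
  obtain ⟨t, ht⟩ := nB
  have ht' := hB t ht
  have e2 := hT.cdd u hT.uG x hT.xG hT.ux (insert y A) B (by
    intro w h1 h2 h3
    by_cases hwy : w = y
    · left; rw [hwy]; exact Finset.mem_insert_self _ _
    rcases hc w (e ▸ h1) h2 h3 hwy with h4 | h4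
    · left; exact Finset.mem_insert_of_mem h4
    · right; exact h4) ⟨z, hT.zG, hT.uz.symm, hT.xz.symm, fun h' => (hB z h').2.2.2.2 hz⟩
    ⟨t, e ▸ ht'.1, ht'.2.1, ht'.2.2.1, by
      rw [Finset.mem_insert, not_or]
      exact ⟨ht'.2.2.2.1, ht'.2.2.2.2⟩⟩
  omega

/-- `M \ u \ x / y` is connected -/
theorem cn_uxy (hr : Rk r) (hp : p.1 ⊆ p.2) (nt : Nt r p) (hn : 4 ≤ (gs p).card) (hT : Ty (rhoP r p) (r p.2 - r p.1) u v x y z Y)
    (e : gT u v x y z Y = gs p) : Cn r (rm true u (rm true x (rm false y p))) := by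
  refine cn_ddc_p hr hp nt (by omega) (e ▸ hT.uG) (e ▸ hT.xG) (e ▸ hT.yG) hT.uy hT.xy fun A B hc hA hB nA nB => ?_
  rcases hc z (e ▸ hT.zG) hT.uz.symm hT.xz.symm hT.yz.symm with hz | hz
  · exact uxy_z hT e hc hB hz nB
  · rw [add_comm (rhoP r p (insert y A))]
    exact uxy_z hT e (fun w h1 h2 h3 h4 => (hc w h1 h2 h3 h4).symm) hA hz nA

private theorem ufx_y (hT : Ty (rhoP r p) (r p.2 - r p.1) u v x y z Y) (e : gT u v x y z Y = gs p) (hf : f ∈ Y)
    (gcn : ∀ A B : Finset E, (∀ w ∈ gT u v x y z Y, w ≠ u → w ≠ v → w ≠ f → w ∈ A ∨ w ∈ B) →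
      (∃ s ∈ gT u v x y z Y, s ≠ u ∧ s ≠ v ∧ s ≠ f ∧ s ∉ B) → (∃ s ∈ gT u v x y z Y, s ≠ u ∧ s ≠ v ∧ s ≠ f ∧ s ∉ A) →
      r p.2 - r p.1 + 2 ≤ rhoP r p (insert v A) + rhoP r p (insert v B))
    (g5 : rhoP r p (Y.erase f) = r p.2 - r p.1 - 1) {A B : Finset E}
    (hc : ∀ w ∈ gs p, w ≠ u → w ≠ f → w ≠ x → w ∈ A ∨ w ∈ B)
    (hA : ∀ w ∈ A, w ∈ gs p ∧ w ≠ u ∧ w ≠ f ∧ w ≠ x ∧ w ∉ B)
    (hB : ∀ w ∈ B, w ∈ gs p ∧ w ≠ u ∧ w ≠ f ∧ w ≠ x ∧ w ∉ A) (hy : y ∈ A) (nB : B.Nonempty) :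
    r p.2 - r p.1 + 1 ≤ rhoP r p A + rhoP r p B := by
  obtain ⟨t, ht⟩ := nB
  have ht' := hB t ht
  have hfy : f ≠ y := fun h' => hT.yY (h' ▸ hf)
  have hfz : f ≠ z := fun h' => hT.zY (h' ▸ hf)
  have hfv : f ≠ v := fun h' => hT.vY (h' ▸ hf)
  have hfx : f ≠ x := fun h' => hT.xY (h' ▸ hf)
  have hfu : f ≠ u := fun h' => hT.uY (h' ▸ hf)
  rcases hc z (e ▸ hT.zG) hT.uz.symm hfz.symm hT.xz.symm with hz | hz
  · -- `y, z` in `A`
    rcases hc v (e ▸ hT.vG) hT.uv.symm hfv.symm hT.vx with hv | hv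
    · have e2 := hT.cdd u hT.uG f (hT.YG hf) hfu.symm (insert x A) B (by
        intro w h1 h2 h3
        by_cases hwx : w = x
        · left; rw [hwx]; exact Finset.mem_insert_self _ _
        rcases hc w (e ▸ h1) h2 h3 hwx with h4 | h4
        · left; exact Finset.mem_insert_of_mem h4
        · right; exact h4) ⟨y, hT.yG, hT.uy.symm, hfy.symm, (hA y hy).2.2.2.2⟩
        ⟨t, e ▸ ht'.1, ht'.2.1, ht'.2.2.1, by
          rw [Finset.mem_insert, not_or]
          exact ⟨ht'.2.2.2.1, ht'.2.2.2.2⟩⟩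
      rw [hT.cx hv hy hz] at e2
      exact e2
    · by_cases hBv : ∃ s ∈ B, s ≠ v
      · obtain ⟨s, hs, hsv⟩ := hBv
        have hs' := hB s hs
        have e2 := gcn (insert x A) B (by
          intro w h1 h2 h3 h4
          by_cases hwx : w = x
          · left; rw [hwx]; exact Finset.mem_insert_self _ _
          rcases hc w (e ▸ h1) h2 h4 hwx with h5 | h5
          · left; exact Finset.mem_insert_of_mem h5
          · right; exact h5) ⟨y, hT.yG, hT.uy.symm, hT.vy.symm, hfy.symm, (hA y hy).2.2.2.2⟩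
          ⟨s, e ▸ hs'.1, hs'.2.1, hsv, hs'.2.2.1, by
            rw [Finset.mem_insert, not_or]
            exact ⟨hs'.2.2.2.1, hs'.2.2.2.2⟩⟩
        rw [Finset.insert_comm v x, hT.cx (Finset.mem_insert_self _ _) (Finset.mem_insert_of_mem hy) (Finset.mem_insert_of_mem hz),
          Finset.insert_eq_of_mem hv] at e2
        have e3 := hT.rk.unit A v
        omega
      · push Not at hBv
        have e1 := hT.ny (B := Y.erase f) ((Finset.erase_subset _ _).trans (Finset.subset_insert _ _))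
        have e2 := hT.rk.mono (insert y (Y.erase f)) A (by
          intro w hw
          rcases Finset.mem_insert.1 hw with rfl | hw
          · exact hy
          · have h1 := Finset.mem_erase.1 hw
            rcases hc w (e ▸ hT.YG h1.2) (fun h' => hT.uY (h' ▸ h1.2)) h1.1 (fun h' => hT.xY (h' ▸ h1.2)) with h2 | h2
            · exact h2
            · exact absurd h1.2 (fun h' => hT.vY (hBv w h2 ▸ h')))
        have e3 := hT.rk.mono {v} B (Finset.singleton_subset_iff.2 hv)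
        rw [hT.one hT.vG] at e3
        omega
  · -- `y` in `A`, `z` in `B`
    have sA : A.erase y ⊆ insert v Y := by
      intro w hw
      have h1 := Finset.mem_erase.1 hw
      obtain ⟨h2, h3, h4, h5, h6⟩ := hA w h1.2
      by_cases hwv : w = v
      · rw [hwv]; exact Finset.mem_insert_self _ _
      exact Finset.mem_insert_of_mem (memY (e ▸ h2) h3 hwv h5 h1.1 (fun h' => h6 (h' ▸ hz)))
    have sB : B.erase z ⊆ insert v Y := by
      intro w hw
      have h1 := Finset.mem_erase.1 hw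
      obtain ⟨h2, h3, h4, h5, h6⟩ := hB w h1.2
      by_cases hwv : w = v
      · rw [hwv]; exact Finset.mem_insert_self _ _
      exact Finset.mem_insert_of_mem (memY (e ▸ h2) h3 hwv h5 (fun h' => h6 (h' ▸ hy)) h1.1)
    have e1 := hT.ny sA
    have e2 := hT.nz sB
    rw [Finset.insert_erase hy] at e1
    rw [Finset.insert_erase hz] at e2
    have e3 := hT.rk.sub (A.erase y) (B.erase z)
    have e4 := hT.rk.mono (Y.erase f) (A.erase y ∪ B.erase z) (by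
      intro w hw
      have h1 := Finset.mem_erase.1 hw
      rw [Finset.mem_union, Finset.mem_erase, Finset.mem_erase]
      have h3 : w ≠ y := fun h' => hT.yY (h' ▸ h1.2)
      have h4 : w ≠ z := fun h' => hT.zY (h' ▸ h1.2)
      rcases hc w (e ▸ hT.YG h1.2) (fun h' => hT.uY (h' ▸ h1.2)) h1.1 (fun h' => hT.xY (h' ▸ h1.2)) with h2 | h2
      · exact Or.inl ⟨h3, h2⟩
      · exact Or.inr ⟨h4, h2⟩)
    have e5 := hT.rk.mono ∅ (A.erase y ∩ B.erase z) (Finset.empty_subset _)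
    rw [hT.rk.empty] at e5
    omega

/-- `M \ u \ f \ x` is connected -/
theorem cn_ufx (hr : Rk r) (hp : p.1 ⊆ p.2) (nt : Nt r p) (hn : 4 ≤ (gs p).card) (hT : Ty (rhoP r p) (r p.2 - r p.1) u v x y z Y)
    (e : gT u v x y z Y = gs p) (hf : f ∈ Y)
    (gcn : ∀ A B : Finset E, (∀ w ∈ gT u v x y z Y, w ≠ u → w ≠ v → w ≠ f → w ∈ A ∨ w ∈ B) →
      (∃ s ∈ gT u v x y z Y, s ≠ u ∧ s ≠ v ∧ s ≠ f ∧ s ∉ B) → (∃ s ∈ gT u v x y z Y, s ≠ u ∧ s ≠ v ∧ s ≠ f ∧ s ∉ A) →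
      r p.2 - r p.1 + 2 ≤ rhoP r p (insert v A) + rhoP r p (insert v B))
    (g5 : rhoP r p (Y.erase f) = r p.2 - r p.1 - 1) : Cn r (rm true u (rm true f (rm true x p))) := by
  refine cn_ddd_p hr hp nt (by omega) (e ▸ hT.uG) (e ▸ hT.YG hf) (e ▸ hT.xG) fun A B hc hA hB nA nB => ?_
  have hfy : f ≠ y := fun h' => hT.yY (h' ▸ hf)
  rcases hc y (e ▸ hT.yG) hT.uy.symm hfy.symm hT.xy.symm with hy | hy
  · exact ufx_y hT e hf gcn g5 hc hA hB hy nB
  · rw [add_comm (rhoP r p A)]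
    exact ufx_y hT e hf gcn g5 (fun w h1 h2 h3 h4 => (hc w h1 h2 h3 h4).symm) hB hA hy nA

end

end Pool.Agent.QU
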