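import Pool.Agent.QUR.TyP

/-!
# QUR/TyH: the pairs of a good element, weak form

`GfH`: every new 2-side of `M \ u / v \ f` inside `Y - f` spans `v` and cospans `u`.
-/

set_option autoImplicit false

open QUB

namespace Pool.Agent.QU

variable {E : Type} [DecidableEq E]

/-- a good element of type deletion, weak form -/
structure GfH (ρ : Finset E → ℤ) (R : ℤ) (u v x y z : E) (Y : Finset E) (f : E) : Prop where
  mem : f ∈ Y
  cn : ∀ A B : Finset E, (∀ w ∈ gT u v x y z Y, w ≠ u → w ≠ v → w ≠ f → w ∈ A ∨ w ∈ B) →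
    (∃ s ∈ gT u v x y z Y, s ≠ u ∧ s ≠ v ∧ s ≠ f ∧ s ∉ B) → (∃ s ∈ gT u v x y z Y, s ≠ u ∧ s ≠ v ∧ s ≠ f ∧ s ∉ A) →
    R + 2 ≤ ρ (insert v A) + ρ (insert v B)
  hu : ∀ S ⊆ Y.erase f, 3 ≤ S.card → S ≠ Y.erase f →
    ρ (insert v S) + ρ (insert v (insert x (insert y (insert z (Y.erase f \ S))))) ≤ R + 2 →
    ρ (insert v S) = ρ S ∧
      ρ (insert u (insert v (insert x (insert y (insert z (Y.erase f \ S)))))) = ρ (insert v (insert x (insert y (insert z (Y.erase f \ S))))) + 1
  g5 : ρ (Y.erase f) = R - 1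

section

variable {ρ : Finset E → ℤ} {R : ℤ} {u v x y z f : E} {Y : Finset E}

theorem GfH.rot (g : GfH ρ R u v x y z Y f) : GfH ρ R u v y z x Y f := by
  refine ⟨g.mem, ?_, ?_, g.g5⟩
  · rw [gT_rot]
    exact g.cn
  · intro S h1 h2 h3
    rw [in3_rot x y z]
    exact g.hu S h1 h2 h3

theorem GfH.swap (g : GfH ρ R u v x y z Y f) : GfH ρ R u v y x z Y f := by
  refine ⟨g.mem, ?_, ?_, g.g5⟩
  · rw [gT_swap]
    exact g.cn
  · intro S h1 h2 h3
    rw [in3_swap x y z]
    exact g.hu S h1 h2 h3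

/-- no `2 | 2` split of `Y - f` (only relevant if `Y` has five elements) -/
def N22 (ρ : Finset E → ℤ) (R : ℤ) (v x y z : E) (Y : Finset E) (f : E) : Prop :=
  ∀ S ⊆ Y.erase f, S.card = 2 → (Y.erase f \ S).card = 2 →
    R + 3 ≤ ρ (insert v S) + ρ (insert v (insert x (insert y (insert z (Y.erase f \ S)))))

theorem N22.rot (g : N22 ρ R v x y z Y f) : N22 ρ R v y z x Y f := by
  intro S h1 h2 h3
  rw [in3_rot x y z]
  exact g S h1 h2 h3

theorem N22.swap (g : N22 ρ R v x y z Y f) : N22 ρ R v y x z Y f := by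
  intro S h1 h2 h3
  rw [in3_swap x y z]
  exact g S h1 h2 h3

private theorem ex_ne {A : Finset E} {n : ℕ} (s : Finset E) (hs : s.card ≤ n) (h : n < A.card) : ∃ w ∈ A, w ∉ s := by
  by_contra hcon
  push Not at hcon
  have := Finset.card_le_card (fun w hw => hcon w hw : A ⊆ s)
  omega

namespace Ty

/-! ### `(u \, f \)` -/

private theorem h1_in (h : Ty ρ R u v x y z Y) (g : GfH ρ R u v x y z Y f) {A B : Finset E}
    (hP : Pr (gT u v x y z Y) u f A B) (hA : 4 ≤ A.card) (hv : v ∈ A) (hx : x ∈ B) (hy : y ∈ B) (hz : z ∈ B)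
    (hl : ρ A + ρ B ≤ R + 1) : False := by
  have e1 := g.cn A B (fun w h1 h2 _ h4 => hP.cov w h1 h2 h4) (by
    obtain ⟨w, h1, h2⟩ := ex_ne {v} (n := 1) (by simp) (by omega : 1 < A.card)
    rw [Finset.mem_singleton] at h2
    exact ⟨w, hP.sA h1, fun h' => hP.aA (h' ▸ h1), h2, fun h' => hP.bA (h' ▸ h1), hP.dis w h1⟩)
    ⟨x, h.xG, h.ux.symm, h.vx.symm, fun h' => hP.bB (h' ▸ hx), fun h' => hP.dis x h' hx⟩
  rw [Finset.insert_eq_of_mem hv, h.cv hx hy hz] at e1
  omega

private theorem h1_one (h : Ty ρ R u v x y z Y) {A B : Finset E} (hf : f ∈ Y)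
    (hP : Pr (gT u v x y z Y) u f A B) (hB : 2 ≤ B.card) (hv : v ∈ A) (hx : x ∈ B) (hy : y ∈ A) (hz : z ∈ A)
    (hl : ρ A + ρ B ≤ R + 1) : False := by
  have hxA : x ∉ A := fun h' => hP.dis x h' hx
  have hsub : B.erase x ⊆ insert v Y := by
    intro w hw
    have h1 := Finset.mem_erase.1 hw
    refine Finset.mem_insert_of_mem (memY (hP.sB h1.2) (fun h' => hP.aB (h' ▸ h1.2)) (fun h' => ?_) h1.1 (fun h' => ?_) (fun h' => ?_))
    · exact hP.dis v hv (h' ▸ h1.2)
    · exact hP.dis y hy (h' ▸ h1.2)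
    · exact hP.dis z hz (h' ▸ h1.2)
  have e1 := h.nx hsub
  rw [Finset.insert_erase hx] at e1
  have e2 := h.cdd u h.uG f (h.YG hf) (fun h' => h.uY (h' ▸ hf)) (insert x A) (B.erase x) (by
    intro w h1 h2 h3
    by_cases hwx : w = x
    · left; rw [hwx]; exact Finset.mem_insert_self _ _
    · rcases hP.cov w h1 h2 h3 with h4 | h4
      · left; exact Finset.mem_insert_of_mem h4
      · right; exact Finset.mem_erase.2 ⟨hwx, h4⟩)
    ⟨x, h.xG, h.ux.symm, fun h' => hP.bB (h' ▸ hx), Finset.notMem_erase _ _⟩ (by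
    obtain ⟨w, h1, h2⟩ := ex_ne {x} (n := 1) (by simp) (by omega : 1 < B.card)
    rw [Finset.mem_singleton] at h2
    refine ⟨w, hP.sB h1, fun h' => hP.aB (h' ▸ h1), fun h' => hP.bB (h' ▸ h1), ?_⟩
    rw [Finset.mem_insert, not_or]
    exact ⟨h2, fun h' => hP.dis w h' h1⟩)
  rw [h.cx hv hy hz] at e2
  omega

private theorem h1_two (h : Ty ρ R u v x y z Y) (g : GfH ρ R u v x y z Y f) {A B : Finset E}
    (hP : Pr (gT u v x y z Y) u f A B) (hA : 4 ≤ A.card) (hv : v ∈ A) (hx : x ∈ A) (hy : y ∈ B) (hz : z ∈ B)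
    (hl : ρ A + ρ B ≤ R + 1) : False := by
  have hsub : A.erase x ⊆ insert v Y := by
    intro w hw
    have h1 := Finset.mem_erase.1 hw
    by_cases hwv : w = v
    · rw [hwv]; exact Finset.mem_insert_self _ _
    refine Finset.mem_insert_of_mem (memY (hP.sA h1.2) (fun h' => hP.aA (h' ▸ h1.2)) hwv h1.1 (fun h' => ?_) (fun h' => ?_))
    · exact hP.dis y (h' ▸ h1.2) hy
    · exact hP.dis z (h' ▸ h1.2) hz
  have e1 := h.nx hsub
  rw [Finset.insert_erase hx] at e1
  have e2 := h.rk.unit B x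
  have e3 := g.cn (A.erase x) (insert x B) (by
    intro w h1 h2 h3 h4
    by_cases hwx : w = x
    · right; rw [hwx]; exact Finset.mem_insert_self _ _
    · rcases hP.cov w h1 h2 h4 with h5 | h5
      · left; exact Finset.mem_erase.2 ⟨hwx, h5⟩
      · right; exact Finset.mem_insert_of_mem h5) (by
    obtain ⟨w, h1, h2⟩ := ex_ne {v, x} (n := 2) (Finset.card_le_two) (by omega : 2 < A.card)
    simp only [Finset.mem_insert, Finset.mem_singleton, not_or] at h2
    refine ⟨w, hP.sA h1, fun h' => hP.aA (h' ▸ h1), h2.1, fun h' => hP.bA (h' ▸ h1), ?_⟩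
    rw [Finset.mem_insert, not_or]
    exact ⟨h2.2, hP.dis w h1⟩)
    ⟨y, h.yG, h.uy.symm, h.vy.symm, fun h' => hP.bB (h' ▸ hy), fun h' => hP.dis y (Finset.mem_of_mem_erase h') hy⟩
  rw [Finset.insert_eq_of_mem (Finset.mem_erase.2 ⟨h.vx, hv⟩),
    h.cv (Finset.mem_insert_self _ _) (Finset.mem_insert_of_mem hy) (Finset.mem_insert_of_mem hz)] at e3
  omega

private theorem h1_out (h : Ty ρ R u v x y z Y) (g : GfH ρ R u v x y z Y f) {A B : Finset E}
    (hP : Pr (gT u v x y z Y) u f A B) (hB : 4 ≤ B.card) (hv : v ∈ A) (hx : x ∈ A) (hy : y ∈ A) (hz : z ∈ A)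
    (hl : ρ A + ρ B ≤ R + 1) : False := by
  have hsub : B ⊆ Y.erase f := by
    intro w hw
    refine Finset.mem_erase.2 ⟨fun h' => hP.bB (h' ▸ hw), memY (hP.sB hw) (fun h' => hP.aB (h' ▸ hw)) (fun h' => ?_) (fun h' => ?_)
      (fun h' => ?_) (fun h' => ?_)⟩
    · exact hP.dis v hv (h' ▸ hw)
    · exact hP.dis x hx (h' ▸ hw)
    · exact hP.dis y hy (h' ▸ hw)
    · exact hP.dis z hz (h' ▸ hw)
  by_cases hBY : B = Y.erase f
  · have e1 := h.rk.mono {x, y, z} A (by
      intro w hw
      simp only [Finset.mem_insert, Finset.mem_singleton] at hw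
      rcases hw with rfl | rfl | rfl <;> assumption)
    rw [h.three h.xG h.yG h.zG h.xy h.xz h.yz] at e1
    have e2 := g.g5
    rw [hBY] at hl
    omega
  · have e1 := h.rk.mono (insert v (insert x (insert y (insert z (Y.erase f \ B))))) A (by
      intro w hw
      simp only [Finset.mem_insert, Finset.mem_sdiff, Finset.mem_erase] at hw
      rcases hw with rfl | rfl | rfl | rfl | ⟨⟨h1, h2⟩, h3⟩
      · exact hv
      · exact hx
      · exact hy
      · exact hz
      · rcases hP.cov w (h.YG h2) (fun h' => h.uY (h' ▸ h2)) h1 with h4 | h4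
        · exact h4
        · exact absurd h4 h3)
    have e2 := h.rk.unit B v
    have e3 := (g.hu B hsub (by omega) hBY (by omega)).1
    have e4 := g.cn A B (fun w h1 h2 _ h4 => hP.cov w h1 h2 h4)
      ⟨x, h.xG, h.ux.symm, h.vx.symm, fun h' => hP.bA (h' ▸ hx), hP.dis x hx⟩ (by
      obtain ⟨w, h1, -⟩ := ex_ne (A := B) ∅ (n := 0) (by simp) (by omega)
      exact ⟨w, hP.sB h1, fun h' => hP.aB (h' ▸ h1), fun h' => hP.dis v hv (h' ▸ h1), fun h' => hP.bB (h' ▸ h1), fun h' => hP.dis w h' h1⟩)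
    rw [Finset.insert_eq_of_mem hv, e3] at e4
    omega

private theorem h1_v (h : Ty ρ R u v x y z Y) (g : GfH ρ R u v x y z Y f) {A B : Finset E}
    (hP : Pr (gT u v x y z Y) u f A B) (hA : 4 ≤ A.card) (hB : 4 ≤ B.card) (hv : v ∈ A) : R + 2 ≤ ρ A + ρ B := by
  by_contra hcon
  have hl : ρ A + ρ B ≤ R + 1 := by omega
  have hf := g.mem
  have r1 := gT_rot u v x y z Y
  have r2 := gT_rot u v y z x Y
  have hP1 : Pr (gT u v y z x Y) u f A B := by rw [r1]; exact hP
  have hP2 : Pr (gT u v z x y Y) u f A B := by rw [r2]; exact hP1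
  have cx := hP.cov x h.xG h.ux.symm (fun h' => h.xY (h' ▸ hf))
  have cy := hP.cov y h.yG h.uy.symm (fun h' => h.yY (h' ▸ hf))
  have cz := hP.cov z h.zG h.uz.symm (fun h' => h.zY (h' ▸ hf))
  rcases cx with cx | cx <;> rcases cy with cy | cy <;> rcases cz with cz | cz
  · exact h.h1_out g hP hB hv cx cy cz hl
  · exact h.rot.rot.h1_one hf hP2 (by omega) hv cz cx cy hl
  · exact h.rot.h1_one hf hP1 (by omega) hv cy cz cx hl
  · exact h.h1_two g hP hA hv cx cy cz hl
  · exact h.h1_one hf hP (by omega) hv cx cy cz hl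
  · exact h.rot.h1_two g.rot hP1 hA hv cy cz cx hl
  · exact h.rot.rot.h1_two g.rot.rot hP2 hA hv cz cx cy hl
  · exact h.h1_in g hP hA hv cx cy cz hl

/-- the pair `u \, f \` -/
theorem h1 (h : Ty ρ R u v x y z Y) (g : GfH ρ R u v x y z Y f) {A B : Finset E}
    (hP : Pr (gT u v x y z Y) u f A B) (hA : 4 ≤ A.card) (hB : 4 ≤ B.card) : R + 2 ≤ ρ A + ρ B := by
  rcases hP.cov v h.vG h.uv.symm (fun h' => h.vY (h' ▸ g.mem)) with hv | hv
  · exact h.h1_v g hP hA hB hv
  · rw [add_comm (ρ A)]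
    exact h.h1_v g hP.symm hB hA hv

/-! ### `(f \, x \)` -/

/-- both sides split `y | z` -/
private theorem h3_cut (h : Ty ρ R u v x y z Y) (g : GfH ρ R u v x y z Y f) {A B : Finset E}
    (hP : Pr (gT u v x y z Y) f x A B) (hy : y ∈ A) (hz : z ∈ B) (hu : u ∈ A)
    (hl : ρ (insert v (A.erase u)) + ρ (insert v B) ≤ R + 1) : A ∩ Y = ∅ := by
  by_contra hne
  obtain ⟨w0, hw0⟩ := Finset.nonempty_iff_ne_empty.2 hne
  obtain ⟨hw1, hw2⟩ := Finset.mem_inter.1 hw0
  have hsub : insert v (A ∩ Y) ⊆ insert v Y := Finset.insert_subset_insert _ Finset.inter_subset_right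
  have e1 := h.ny hsub
  have e2 := h.rk.mono (insert y (insert v (A ∩ Y))) (insert v (A.erase u)) (by
    intro w hw
    simp only [Finset.mem_insert, Finset.mem_inter, Finset.mem_erase] at hw ⊢
    rcases hw with rfl | rfl | hw
    · exact Or.inr ⟨h.uy.symm, hy⟩
    · exact Or.inl rfl
    · exact Or.inr ⟨fun h' => h.uY (h' ▸ hw.2), hw.1⟩)
  have e3 := g.cn (A ∩ Y) (insert x (insert y B)) (by
    intro w h1 h2 h3 h4
    by_cases hwx : w = x
    · right; rw [hwx]; simp
    by_cases hwy : w = y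
    · right; rw [hwy]; simp
    rcases hP.cov w h1 h4 hwx with h5 | h5
    · left
      refine Finset.mem_inter.2 ⟨h5, memY h1 h2 h3 hwx hwy (fun h' => hP.dis w h5 (h' ▸ hz))⟩
    · right; simp [h5])
    ⟨w0, h.YG hw2, fun h' => h.uY (h' ▸ hw2), fun h' => h.vY (h' ▸ hw2), fun h' => hP.aA (h' ▸ hw1), by
      simp only [Finset.mem_insert, not_or]
      exact ⟨fun h' => h.xY (h' ▸ hw2), fun h' => h.yY (h' ▸ hw2), hP.dis w0 hw1⟩⟩
    ⟨z, h.zG, h.uz.symm, h.vz.symm, fun h' => hP.aB (h' ▸ hz), fun h' => hP.dis z (Finset.mem_inter.1 h').1 hz⟩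
  rw [Finset.insert_comm v x, Finset.insert_comm v y] at e3
  rw [show insert x (insert y (insert v B)) = insert x (insert y (insert v B)) from rfl,
    h.cx (B := insert y (insert v B)) (by simp) (by simp) (by simp [hz])] at e3
  have e4 := h.rk.unit (insert v B) y
  omega

private theorem h3_yz (h : Ty ρ R u v x y z Y) (g : GfH ρ R u v x y z Y f) (g2 : N22 ρ R v x y z Y f) {A B : Finset E}
    (hP : Pr (gT u v x y z Y) f x A B) (hA : 4 ≤ A.card) (hB : 4 ≤ B.card) (hu : u ∈ A) (hy : y ∈ A) (hz : z ∈ B)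
    (hl : ρ A + ρ B ≤ R + 1) : False := by
  have hf : f ∈ Y := g.mem
  have huB : u ∉ B := hP.dis u hu
  have hyB : y ∉ B := hP.dis y hy
  have hzA : z ∉ A := fun h' => hP.dis z h' hz
  -- the two parts in Y
  have hAY : A ∩ Y ⊆ Y.erase f := fun w hw =>
    Finset.mem_erase.2 ⟨fun h' => hP.aA (h' ▸ (Finset.mem_inter.1 hw).1), (Finset.mem_inter.1 hw).2⟩
  have hBY : B ∩ Y ⊆ Y.erase f := fun w hw =>
    Finset.mem_erase.2 ⟨fun h' => hP.aB (h' ▸ (Finset.mem_inter.1 hw).1), (Finset.mem_inter.1 hw).2⟩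
  have hcY : ∀ w ∈ Y.erase f, w ∈ A ∨ w ∈ B := fun w hw =>
    hP.cov w (h.YG (Finset.mem_of_mem_erase hw)) (Finset.ne_of_mem_erase hw) (fun h' => h.xY (h' ▸ Finset.mem_of_mem_erase hw))
  have hdA : Y.erase f \ (A ∩ Y) = B ∩ Y := by
    ext w
    simp only [Finset.mem_sdiff, Finset.mem_inter, not_and]
    constructor
    · rintro ⟨h1, h2⟩
      have h3 := Finset.mem_of_mem_erase h1
      rcases hcY w h1 with h4 | h4
      · exact absurd h3 (h2 h4)
      · exact ⟨h4, h3⟩
    · rintro ⟨h1, h2⟩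
      exact ⟨hBY (Finset.mem_inter.2 ⟨h1, h2⟩), fun h3 => absurd h1 (hP.dis w h3)⟩
  have hdB : Y.erase f \ (B ∩ Y) = A ∩ Y := by
    ext w
    simp only [Finset.mem_sdiff, Finset.mem_inter, not_and]
    constructor
    · rintro ⟨h1, h2⟩
      have h3 := Finset.mem_of_mem_erase h1
      rcases hcY w h1 with h4 | h4
      · exact ⟨h4, h3⟩
      · exact absurd h3 (h2 h4)
    · rintro ⟨h1, h2⟩
      exact ⟨hAY (Finset.mem_inter.2 ⟨h1, h2⟩), fun h3 => absurd h3 (hP.dis w h1)⟩
  have sA : insert v (A ∩ Y) ⊆ insert v Y := Finset.insert_subset_insert _ Finset.inter_subset_right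
  have sB : insert v (B ∩ Y) ⊆ insert v Y := Finset.insert_subset_insert _ Finset.inter_subset_right
  have e1 := h.ny sA
  have e2 := h.nz sB
  have e3 := h.rk.mono (insert y (insert v (A ∩ Y))) (insert v (A.erase u)) (by
    intro w hw
    simp only [Finset.mem_insert, Finset.mem_inter, Finset.mem_erase] at hw ⊢
    rcases hw with rfl | rfl | hw
    · exact Or.inr ⟨h.uy.symm, hy⟩
    · exact Or.inl rfl
    · exact Or.inr ⟨fun h' => h.uY (h' ▸ hw.2), hw.1⟩)
  have e4 := h.rk.mono (insert z (insert v (B ∩ Y))) (insert v B) (by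
    intro w hw
    simp only [Finset.mem_insert, Finset.mem_inter] at hw ⊢
    rcases hw with rfl | rfl | hw
    · exact Or.inr hz
    · exact Or.inl rfl
    · exact Or.inr hw.1)
  -- the large sets of the two parts
  have e5 : ρ (insert v (insert x (insert y (insert z (A ∩ Y))))) ≤ ρ (insert y (insert v (A ∩ Y))) + 1 := by
    have a1 : insert v (insert x (insert y (insert z (A ∩ Y)))) = insert x (insert z (insert y (insert v (A ∩ Y)))) := by
      ext w; simp only [Finset.mem_insert]; tauto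
    rw [a1, h.cx (by simp) (by simp) (by simp)]
    exact h.rk.unit _ _
  have e6 : ρ (insert v (insert x (insert y (insert z (B ∩ Y))))) ≤ ρ (insert z (insert v (B ∩ Y))) + 1 := by
    have a1 : insert v (insert x (insert y (insert z (B ∩ Y)))) = insert x (insert y (insert z (insert v (B ∩ Y)))) := by
      ext w; simp only [Finset.mem_insert]; tauto
    rw [a1, h.cx (by simp) (by simp) (by simp)]
    exact h.rk.unit _ _
  -- the sum of the two sides in `q \ f \ x`
  have e7 : ρ (insert v (A.erase u)) + ρ (insert v B) ≤ R + 2 := by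
    have b1 := h.rk.mono (A.erase u) A (Finset.erase_subset _ _)
    by_cases hv : v ∈ A
    · rw [Finset.insert_eq_of_mem (Finset.mem_erase.2 ⟨h.uv.symm, hv⟩)]
      have b2 := h.rk.unit B v
      omega
    · have hvB : v ∈ B := (hP.cov v h.vG (fun h' => h.vY (h' ▸ hf)) h.vx).resolve_left hv
      rw [Finset.insert_eq_of_mem hvB]
      have b2 := h.rk.unit (A.erase u) v
      omega
  have subA : A ∩ Y ⊆ Y := Finset.inter_subset_right
  have subB : B ∩ Y ⊆ Y := Finset.inter_subset_right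
  -- claim 1
  have cl1 : 3 ≤ (B ∩ Y).card → A ∩ Y = ∅ := by
    intro h3
    by_contra hne
    obtain ⟨o1, o2⟩ := g.hu _ hBY h3 (fun h' => hne (by
      rw [← hdB, h']
      exact Finset.sdiff_self _)) (by
      rw [hdB]
      omega)
    rw [hdB] at o2
    have c1 := QUB.marg h.rk (A := B ∩ Y) (B := B) Finset.inter_subset_left v
    have c2 := h.rk.mono B (insert v B) (Finset.subset_insert _ _)
    have c3 : A.erase u ⊆ insert v (insert x (insert y (insert z (A ∩ Y)))) := by
      intro w hw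
      have h1 := Finset.mem_erase.1 hw
      simp only [Finset.mem_insert, Finset.mem_inter]
      rcases mem_gT.1 (hP.sA h1.2) with h2 | h2 | h2 | h2 | h2 | h2
      · exact absurd h2 h1.1
      · exact Or.inl h2
      · exact Or.inr (Or.inl h2)
      · exact Or.inr (Or.inr (Or.inl h2))
      · exact Or.inr (Or.inr (Or.inr (Or.inl h2)))
      · exact Or.inr (Or.inr (Or.inr (Or.inr ⟨h1.2, h2⟩)))
    have c4 := QUB.marg h.rk c3 u
    rw [Finset.insert_erase hu] at c4
    refine hne (h.h3_cut g hP hy hz hu ?_)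
    by_cases hv : v ∈ A
    · rw [Finset.insert_eq_of_mem (Finset.mem_erase.2 ⟨h.uv.symm, hv⟩)]
      omega
    · have hvB : v ∈ B := (hP.cov v h.vG (fun h' => h.vY (h' ▸ hf)) h.vx).resolve_left hv
      rw [Finset.insert_eq_of_mem hvB]
      have b2 := h.rk.unit (A.erase u) v
      omega
  -- sizes
  have cA : A.card ≤ (A ∩ Y).card + 2 + (if v ∈ A then 1 else 0) := by
    have hs : A ⊆ insert u (insert y ((A ∩ Y) ∪ (if v ∈ A then {v} else ∅))) := by
      intro w hw
      simp only [Finset.mem_insert, Finset.mem_union, Finset.mem_inter]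
      rcases mem_gT.1 (hP.sA hw) with h2 | h2 | h2 | h2 | h2 | h2
      · exact Or.inl h2
      · right; right; right
        subst h2
        rw [if_pos hw]
        exact Finset.mem_singleton_self _
      · exact absurd hw (h2 ▸ hP.bA)
      · exact Or.inr (Or.inl h2)
      · exact absurd hw (h2 ▸ hzA)
      · exact Or.inr (Or.inr (Or.inl ⟨hw, h2⟩))
    have h1 := Finset.card_le_card hs
    have h2 := Finset.card_insert_le u (insert y ((A ∩ Y) ∪ (if v ∈ A then {v} else ∅)))
    have h3 := Finset.card_insert_le y ((A ∩ Y) ∪ (if v ∈ A then {v} else ∅))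
    have h4 := Finset.card_union_le (A ∩ Y) (if v ∈ A then {v} else ∅)
    have h5 : (if v ∈ A then ({v} : Finset E) else ∅).card = if v ∈ A then 1 else 0 := by
      split_ifs <;> simp
    omega
  have cB : B.card ≤ (B ∩ Y).card + 1 + (if v ∈ A then 0 else 1) := by
    have hs : B ⊆ insert z ((B ∩ Y) ∪ (if v ∈ A then ∅ else {v})) := by
      intro w hw
      simp only [Finset.mem_insert, Finset.mem_union, Finset.mem_inter]
      rcases mem_gT.1 (hP.sB hw) with h2 | h2 | h2 | h2 | h2 | h2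
      · exact absurd hw (h2 ▸ huB)
      · right; right
        subst h2
        rw [if_neg (fun h' => hP.dis _ h' hw)]
        exact Finset.mem_singleton_self _
      · exact absurd hw (h2 ▸ hP.bB)
      · exact absurd hw (h2 ▸ hyB)
      · exact Or.inl h2
      · exact Or.inr (Or.inl ⟨hw, h2⟩)
    have h1 := Finset.card_le_card hs
    have h2 := Finset.card_insert_le z ((B ∩ Y) ∪ (if v ∈ A then ∅ else {v}))
    have h4 := Finset.card_union_le (B ∩ Y) (if v ∈ A then ∅ else {v})
    have h5 : (if v ∈ A then (∅ : Finset E) else {v}).card = if v ∈ A then 0 else 1 := by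
      split_ifs <;> simp
    omega
  by_cases hv : v ∈ A
  · rw [if_pos hv] at cA cB
    have := cl1 (by omega)
    rw [this, Finset.card_empty] at cA
    omega
  · rw [if_neg hv] at cA cB
    have hvB : v ∈ B := (hP.cov v h.vG (fun h' => h.vY (h' ▸ hf)) h.vx).resolve_left hv
    by_cases hb3 : 3 ≤ (B ∩ Y).card
    · have := cl1 hb3
      rw [this, Finset.card_empty] at cA
      omega
    · by_cases ha3 : 3 ≤ (A ∩ Y).card
      · have o1 := (g.hu _ hAY ha3 (fun h' => by
          have h1 := hdA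
          rw [h', Finset.sdiff_self] at h1
          rw [← h1, Finset.card_empty] at cB
          omega) (by
          rw [hdA]
          omega)).1
        have c1 := QUB.marg h.rk (A := A ∩ Y) (B := A.erase u)
          (fun w hw => Finset.mem_erase.2 ⟨fun h' => h.uY (h' ▸ (Finset.mem_inter.1 hw).2), (Finset.mem_inter.1 hw).1⟩) v
        have c2 := h.rk.mono (A.erase u) A (Finset.erase_subset _ _)
        have hc : A ∩ Y = ∅ := by
          refine h.h3_cut g hP hy hz hu ?_
          rw [Finset.insert_eq_of_mem hvB]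
          omega
        rw [hc, Finset.card_empty] at ha3
        omega
      · have t := g2 (A ∩ Y) hAY (by omega) (by rw [hdA]; omega)
        rw [hdA] at t
        omega

private theorem h3_in (h : Ty ρ R u v x y z Y) (g : GfH ρ R u v x y z Y f) {A B : Finset E}
    (hP : Pr (gT u v x y z Y) f x A B) (hA : 4 ≤ A.card) (hu : u ∈ A) (hy : y ∈ B) (hz : z ∈ B)
    (hl : ρ A + ρ B ≤ R + 1) : False := by
  have hf : f ∈ Y := g.mem
  have hsub : A.erase u ⊆ insert v Y := by
    intro w hw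
    have h1 := Finset.mem_erase.1 hw
    by_cases hwv : w = v
    · rw [hwv]; exact Finset.mem_insert_self _ _
    exact Finset.mem_insert_of_mem (memY (hP.sA h1.2) h1.1 hwv (fun h' => hP.bA (h' ▸ h1.2)) (fun h' => hP.dis y (h' ▸ h1.2) hy)
      (fun h' => hP.dis z (h' ▸ h1.2) hz))
  have e1 := h.nu hsub
  rw [Finset.insert_erase hu] at e1
  have e2 := g.cn (A.erase u) (insert x B) (by
    intro w h1 h2 h3 h4
    by_cases hwx : w = x
    · right; rw [hwx]; simp
    rcases hP.cov w h1 h4 hwx with h5 | h5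
    · left; exact Finset.mem_erase.2 ⟨h2, h5⟩
    · right; simp [h5]) (by
    obtain ⟨w, h1, h2⟩ := ex_ne {u, v} (n := 2) (Finset.card_le_two) (by omega : 2 < A.card)
    simp only [Finset.mem_insert, Finset.mem_singleton, not_or] at h2
    refine ⟨w, hP.sA h1, h2.1, h2.2, fun h' => hP.aA (h' ▸ h1), ?_⟩
    rw [Finset.mem_insert, not_or]
    exact ⟨fun h' => hP.bA (h' ▸ h1), hP.dis w h1⟩)
    ⟨y, h.yG, h.uy.symm, h.vy.symm, fun h' => hP.aB (h' ▸ hy), fun h' => hP.dis y (Finset.mem_of_mem_erase h') hy⟩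
  rw [h.cv (Finset.mem_insert_self _ _) (Finset.mem_insert_of_mem hy) (Finset.mem_insert_of_mem hz)] at e2
  have e3 := h.rk.unit (A.erase u) v
  by_cases hv : v ∈ A
  · rw [Finset.insert_eq_of_mem (Finset.mem_erase.2 ⟨h.uv.symm, hv⟩)] at e2
    have e4 := h.rk.unit B x
    omega
  · have hvB : v ∈ B := (hP.cov v h.vG (fun h' => h.vY (h' ▸ hf)) h.vx).resolve_left hv
    rw [h.cx hvB hy hz] at e2
    omega

private theorem h3_out (h : Ty ρ R u v x y z Y) (g : GfH ρ R u v x y z Y f) {A B : Finset E}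
    (hP : Pr (gT u v x y z Y) f x A B) (hA : 4 ≤ A.card) (hB : 4 ≤ B.card) (hu : u ∈ A) (hy : y ∈ A) (hz : z ∈ A)
    (hl : ρ A + ρ B ≤ R + 1) : False := by
  have hf : f ∈ Y := g.mem
  have huB : u ∉ B := hP.dis u hu
  by_cases hv : v ∈ A
  · have e1 := h.md f (h.YG hf) (insert x A) B {y, z} B (by
      intro w h1 h2
      by_cases hwx : w = x
      · left; rw [hwx]; simp
      rcases hP.cov w h1 h2 hwx with h5 | h5
      · left; simp [h5]
      · right; exact h5) (by rw [Finset.card_pair h.yz]) (by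
      intro w hw
      simp only [Finset.mem_insert, Finset.mem_singleton] at hw
      rcases hw with rfl | rfl
      · exact ⟨h.yG, fun h' => h.yY (h' ▸ hf), hP.dis _ hy⟩
      · exact ⟨h.zG, fun h' => h.zY (h' ▸ hf), hP.dis _ hz⟩) (by omega) (by
      intro w hw
      refine ⟨hP.sB hw, fun h' => hP.aB (h' ▸ hw), ?_⟩
      rw [Finset.mem_insert, not_or]
      exact ⟨fun h' => hP.bB (h' ▸ hw), fun h' => hP.dis w h' hw⟩)
    rw [h.cx hv hy hz] at e1
    omega
  · have hvB : v ∈ B := (hP.cov v h.vG (fun h' => h.vY (h' ▸ hf)) h.vx).resolve_left hv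
    have hS : B.erase v ⊆ Y.erase f := by
      intro w hw
      have h1 := Finset.mem_erase.1 hw
      exact Finset.mem_erase.2 ⟨fun h' => hP.aB (h' ▸ h1.2), memY (hP.sB h1.2) (fun h' => huB (h' ▸ h1.2)) h1.1
        (fun h' => hP.bB (h' ▸ h1.2)) (fun h' => hP.dis y hy (h' ▸ h1.2)) (fun h' => hP.dis z hz (h' ▸ h1.2))⟩
    have hSY : B.erase v ⊆ Y := hS.trans (Finset.erase_subset _ _)
    have hc : (B.erase v).card + 1 = B.card := Finset.card_erase_add_one hvB
    have hne : B.erase v ≠ Y.erase f := by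
      intro heq
      have hs : A ⊆ {u, y, z} := by
        intro w hw
        simp only [Finset.mem_insert, Finset.mem_singleton]
        rcases mem_gT.1 (hP.sA hw) with h2 | h2 | h2 | h2 | h2 | h2
        · exact Or.inl h2
        · exact absurd hw (h2 ▸ hv)
        · exact absurd hw (h2 ▸ hP.bA)
        · exact Or.inr (Or.inl h2)
        · exact Or.inr (Or.inr h2)
        · have h3 : w ∈ Y.erase f := Finset.mem_erase.2 ⟨fun h' => hP.aA (h' ▸ hw), h2⟩
          rw [← heq] at h3
          exact absurd (Finset.mem_of_mem_erase h3) (hP.dis w hw)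
      have h1 := Finset.card_le_card hs
      have h2 : ({u, y, z} : Finset E).card ≤ 3 := Finset.card_le_three
      omega
    -- the set of the other side
    have s1 : insert v (insert x (insert y (insert z (Y.erase f \ B.erase v)))) ⊆ insert x (insert v (A.erase u)) := by
      intro w hw
      simp only [Finset.mem_insert, Finset.mem_sdiff, Finset.mem_erase, not_and] at hw ⊢
      rcases hw with rfl | rfl | rfl | rfl | ⟨⟨h1, h2⟩, h3⟩
      · exact Or.inr (Or.inl rfl)
      · exact Or.inl rfl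
      · exact Or.inr (Or.inr ⟨h.uy.symm, hy⟩)
      · exact Or.inr (Or.inr ⟨h.uz.symm, hz⟩)
      · right; right
        refine ⟨fun h' => h.uY (h' ▸ h2), ?_⟩
        rcases hP.cov w (h.YG h2) h1 (fun h' => h.xY (h' ▸ h2)) with h4 | h4
        · exact h4
        · exact absurd h4 (h3 (fun h' => h.vY (h' ▸ h2)))
    have e1 := h.rk.mono _ _ s1
    have e2 : ρ (insert x (insert v (A.erase u))) = ρ (insert v (A.erase u)) :=
      h.cx (by simp) (by simp [hy, h.uy.symm]) (by simp [hz, h.uz.symm])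
    have e3 := h.rk.unit (A.erase u) v
    have e4 := h.rk.mono (A.erase u) A (Finset.erase_subset _ _)
    have o2 := (g.hu _ hS (by omega) hne (by
      rw [Finset.insert_erase hvB]
      omega)).2
    have c3 : A.erase u ⊆ insert v (insert x (insert y (insert z (Y.erase f \ (B.erase v))))) := by
      intro w hw
      have h1 := Finset.mem_erase.1 hw
      simp only [Finset.mem_insert, Finset.mem_sdiff, Finset.mem_erase, not_and]
      rcases mem_gT.1 (hP.sA h1.2) with h2 | h2 | h2 | h2 | h2 | h2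
      · exact absurd h2 h1.1
      · exact Or.inl h2
      · exact Or.inr (Or.inl h2)
      · exact Or.inr (Or.inr (Or.inl h2))
      · exact Or.inr (Or.inr (Or.inr (Or.inl h2)))
      · exact Or.inr (Or.inr (Or.inr (Or.inr ⟨⟨fun h' => hP.aA (h' ▸ h1.2), h2⟩, fun _ => hP.dis w h1.2⟩)))
    have c4 := QUB.marg h.rk c3 u
    rw [Finset.insert_erase hu] at c4
    have e5 := g.cn (insert x (A.erase u)) B (by
      intro w h1 h2 _ h4
      by_cases hwx : w = x
      · left; rw [hwx]; simp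
      rcases hP.cov w h1 h4 hwx with h5 | h5
      · left; simp [h5, h2]
      · right; exact h5)
      ⟨y, h.yG, h.uy.symm, h.vy.symm, fun h' => h.yY (h' ▸ hf), hP.dis y hy⟩ (by
      obtain ⟨w, h1, h2⟩ := ex_ne {v} (n := 1) (by simp) (by omega : 1 < B.card)
      rw [Finset.mem_singleton] at h2
      refine ⟨w, hP.sB h1, fun h' => huB (h' ▸ h1), h2, fun h' => hP.aB (h' ▸ h1), ?_⟩
      simp only [Finset.mem_insert, Finset.mem_erase, not_or, not_and]
      exact ⟨fun h' => hP.bB (h' ▸ h1), fun _ h' => hP.dis w h' h1⟩)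
    rw [Finset.insert_comm v x, e2, Finset.insert_eq_of_mem hvB] at e5
    omega

/-- the pair `f \, x \` -/
theorem h3 (h : Ty ρ R u v x y z Y) (g : GfH ρ R u v x y z Y f) (g2 : N22 ρ R v x y z Y f) {A B : Finset E}
    (hP : Pr (gT u v x y z Y) f x A B) (hA : 4 ≤ A.card) (hB : 4 ≤ B.card) : R + 2 ≤ ρ A + ρ B := by
  have hf : f ∈ Y := g.mem
  have hsw : gT u v x z y Y = gT u v x y z Y := by
    ext w
    simp only [mem_gT]
    tauto
  have gsw : GfH ρ R u v x z y Y f := g.rot.rot.swap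
  have g2w : N22 ρ R v x z y Y f := g2.rot.rot.swap
  have key : ∀ {A B : Finset E}, Pr (gT u v x y z Y) f x A B → 4 ≤ A.card → 4 ≤ B.card → u ∈ A → R + 2 ≤ ρ A + ρ B := by
    intro A B hP hA hB hu
    by_contra hcon
    have hl : ρ A + ρ B ≤ R + 1 := by omega
    have cy := hP.cov y h.yG (fun h' => h.yY (h' ▸ hf)) h.xy.symm
    have cz := hP.cov z h.zG (fun h' => h.zY (h' ▸ hf)) h.xz.symm
    rcases cy with cy | cy <;> rcases cz with cz | cz
    · exact h.h3_out g hP hA hB hu cy cz hl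
    · exact h.h3_yz g g2 hP hA hB hu cy cz hl
    · exact h.sw.h3_yz gsw g2w (by rw [hsw]; exact hP) hA hB hu cz cy hl
    · exact h.h3_in g hP hA hu cy cz hl
  rcases hP.cov u h.uG (fun h' => h.uY (h' ▸ hf)) h.ux with hu | hu
  · exact key hP hA hB hu
  · rw [add_comm (ρ A)]
    exact key hP.symm hB hA hu

end Ty

end

end Pool.Agent.QU
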