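import Pool.Agent.QUR.ClA
import Pool.Agent.QUR.TyF
import Pool.Agent.QUR.TyH
import Pool.Agent.QUR.SmA
import Pool.Agent.QUP.Mx

/-!
# QUR/ClH: closure A from a good element

`clh_uxy`: `M \ u \ x / y` is rich.  `clh_ufx`: `M \ u \ f \ x` is rich.  `clH`: a good element `f` (deleted) closes if two of the pairs
inside the tiny side are good.
-/

set_option autoImplicit false

open QUB

namespace Pool.Agent.QU

open Pool.Agent.FRM

variable {E : Type} [Fintype E] [DecidableEq E] {S : TP F4 E} {p : Itv E} {u v x y z f : E} {X Y : Finset E}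

omit [Fintype E] in
/-- a lower bound of the order in cover form, two contracted elements or one -/
private theorem clh_lam {r : Finset E → ℤ} (hr : Rk r) (hp : p.1 ⊆ p.2) (nt : Nt r p) (hn : 3 ≤ (gs p).card) {K D : Finset E}
    (hK : K ⊆ gs p) (hD : D ⊆ gs p) (hKD : ∀ w ∈ K, w ∉ D) (cK : K.card ≤ 3) (cD : D.card ≤ 3) {q : Itv E} (h1 : q.1 = p.1 ∪ K)
    (h2 : q.2 = p.2 \ D) {A C1 C2 : Finset E} (hA : A ⊆ gs q) (hC1 : C1 ⊆ K ∪ A) (hC2 : C2 ⊆ K ∪ (gs q \ A))
    (hc : r p.2 - r p.1 + K.card + 1 ≤ rhoP r p C1 + rhoP r p C2) : 1 ≤ QUB.lam r q A := by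
  rw [lam_nt hr hp nt hn hK hD hKD cK cD h1 h2 hA]
  have e1 := (rhoP_rk hr (p := p)).mono _ _ hC1
  have e2 := (rhoP_rk hr (p := p)).mono _ _ hC2
  linarith

/-- `M \ u \ x / y` is rich -/
private theorem clh_uxy (h : Cw S p) (hc : Rcf S p u true v false X) (hX : X = {x, y, z}) (hT : Ty (rhoP S.r p) (S.r p.2 - S.r p.1) u v x y z
    (gs (rm true u (rm false v p)) \ X)) : HasRich S.r (rm true u (rm true x (rm false y p))) := by
  have hr : Rk S.r := S.rk
  have hp := h.hp
  have nt := h.nt
  have hn := h.hn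
  have hwf := hc.wf hp
  have hg : gs (rm true u (rm false v p)) = ((gs p).erase v).erase u := gs_rm2 _ _ _ _ _
  have hXq := hc.sub
  have mX : ∀ w ∈ X, w ∈ gs p ∧ w ≠ u ∧ w ≠ v := fun w hw => by
    have h1 := hXq hw
    rw [hg, Finset.mem_erase, Finset.mem_erase] at h1
    tauto
  have hxX : x ∈ X := by rw [hX]; simp
  have hyX : y ∈ X := by rw [hX]; simp
  have hzX : z ∈ X := by rw [hX]; simp
  have mx := mX x hxX
  have my := mX y hyX
  have mz := mX z hzX
  have hY : gs (rm true u (rm false v p)) \ X ⊆ insert v (gs (rm true u (rm false v p)) \ X) := Finset.subset_insert _ _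
  have e1 := hT.ny (B := insert v (gs (rm true u (rm false v p)) \ X)) (subset_refl _)
  have e2 := hT.coc
  have e3 : rhoP S.r p {y, v, z} = 3 := by
    rw [rhoP_le3 hr nt (by omega) (by
      intro w hw
      simp only [Finset.mem_insert, Finset.mem_singleton] at hw
      rcases hw with rfl | rfl | rfl
      · exact my.1
      · exact hc.mv
      · exact mz.1) Finset.card_le_three, Finset.card_eq_three.2 ⟨y, v, z, hT.vy.symm, hT.yz, hT.vz, rfl⟩]
    rfl
  have hKm : ({y, v} : Finset E) ⊆ gs p := by
    intro w hw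
    simp only [Finset.mem_insert, Finset.mem_singleton] at hw
    rcases hw with rfl | rfl
    · exact my.1
    · exact hc.mv
  have hKc : ({y, v} : Finset E).card = 2 := Finset.card_pair hT.vy.symm
  -- step 1
  have s1 : 1 ≤ QUB.lam S.r (QUB.rm false y (rm true u (rm false v p))) (gs (rm true u (rm false v p)) \ X) := by
    refine clh_lam hr hp nt (by omega) (K := {y, v}) (D := {u}) hKm (Finset.singleton_subset_iff.2 hc.mu) ?_ (card_le2 _ _) (card_le1 _)
      (bx_cdc y u v).1 (bx_cdc y u v).2 (C1 := insert y (insert v (gs (rm true u (rm false v p)) \ X))) (C2 := {y, v, z}) ?_ ?_ ?_ ?_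
    · intro w hw
      simp only [Finset.mem_insert, Finset.mem_singleton] at hw
      rw [Finset.mem_singleton]
      rcases hw with rfl | rfl
      · exact my.2.1
      · exact hT.uv.symm
    · rw [show gs (rm false y (rm true u (rm false v p))) = (gs (rm true u (rm false v p))).erase y from gs_rm _ _ _]
      intro w hw
      exact Finset.mem_erase.2 ⟨fun h' => (Finset.mem_sdiff.1 hw).2 (h' ▸ hyX), (Finset.mem_sdiff.1 hw).1⟩
    · intro w hw
      simp only [Finset.mem_insert, Finset.mem_union, Finset.mem_singleton] at hw ⊢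
      tauto
    · intro w hw
      simp only [Finset.mem_insert, Finset.mem_singleton] at hw
      rw [Finset.mem_union, Finset.mem_insert, Finset.mem_singleton, Finset.mem_sdiff,
        show gs (rm false y (rm true u (rm false v p))) = (gs (rm true u (rm false v p))).erase y from gs_rm _ _ _, Finset.mem_erase]
      rcases hw with rfl | rfl | rfl
      · tauto
      · tauto
      · exact Or.inr ⟨⟨hT.yz.symm, hXq hzX⟩, fun h' => (Finset.mem_sdiff.1 h').2 hzX⟩
    · rw [hKc, e1, e2, e3]
      push_cast
      linarith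
  obtain ⟨N2, b1, b2, b3⟩ := rich_keep S hwf hXq hc.lam hc.rich hyX (t := false) s1
  -- step 2
  have hXe : X.erase y ⊆ gs (QUB.rm false y (rm true u (rm false v p))) := by
    rw [show gs (QUB.rm false y (rm true u (rm false v p))) = (gs (rm true u (rm false v p))).erase y from gs_rm _ _ _]
    exact Finset.erase_subset_erase _ hXq
  have hle : QUB.lam S.r (QUB.rm false y (rm true u (rm false v p))) (X.erase y) ≤ 1 := by
    refine (QUB.lam_rm_le' hr hwf (hXq hyX) (Finset.erase_subset_erase _ hXq)).trans ?_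
    rw [Finset.insert_erase hyX]
    exact hc.lam
  have gY : gs (QUB.rm false y (rm true u (rm false v p))) \ X.erase y = gs (rm true u (rm false v p)) \ X := by
    rw [show gs (QUB.rm false y (rm true u (rm false v p))) = (gs (rm true u (rm false v p))).erase y from gs_rm _ _ _]
    ext w
    simp only [Finset.mem_sdiff, Finset.mem_erase, not_and]
    constructor
    · rintro ⟨⟨h1, h2⟩, h3⟩
      exact ⟨h2, h3 h1⟩
    · rintro ⟨h1, h2⟩
      exact ⟨⟨fun h' => h2 (h' ▸ hyX), h1⟩, fun _ => h2⟩
  have hbox : (QUB.rm true x (QUB.rm false y (rm true u (rm false v p)))).1 = p.1 ∪ {y, v} ∧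
      (QUB.rm true x (QUB.rm false y (rm true u (rm false v p)))).2 = p.2 \ {x, u} := by
    constructor
    · show insert y (insert v p.1) = _
      ext w
      simp only [Finset.mem_union, Finset.mem_insert, Finset.mem_singleton]
      tauto
    · show ((p.2.erase u).erase x) = _
      ext w
      simp only [Finset.mem_erase, Finset.mem_sdiff, Finset.mem_insert, Finset.mem_singleton]
      tauto
  have gxy : gs (QUB.rm true x (QUB.rm false y (rm true u (rm false v p)))) = ((gs (rm true u (rm false v p))).erase y).erase x := by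
    rw [show gs (QUB.rm true x (QUB.rm false y (rm true u (rm false v p)))) = (gs (QUB.rm false y (rm true u (rm false v p)))).erase x from
      gs_rm _ _ _, show gs (QUB.rm false y (rm true u (rm false v p))) = (gs (rm true u (rm false v p))).erase y from gs_rm _ _ _]
  have s2 : 1 ≤ QUB.lam S.r (QUB.rm true x (QUB.rm false y (rm true u (rm false v p))))
      (gs (QUB.rm false y (rm true u (rm false v p))) \ X.erase y) := by
    rw [gY]
    refine clh_lam hr hp nt (by omega) (K := {y, v}) (D := {x, u}) hKm ?_ ?_ (card_le2 _ _) (card_le2 _ _)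
      hbox.1 hbox.2 (C1 := insert y (insert v (gs (rm true u (rm false v p)) \ X))) (C2 := {y, v, z}) ?_ ?_ ?_ ?_
    · intro w hw
      simp only [Finset.mem_insert, Finset.mem_singleton] at hw
      rcases hw with rfl | rfl
      · exact mx.1
      · exact hc.mu
    · intro w hw
      simp only [Finset.mem_insert, Finset.mem_singleton] at hw ⊢
      rcases hw with rfl | rfl
      · exact fun h' => h'.elim (fun h' => hT.xy h'.symm) my.2.1
      · exact fun h' => h'.elim (fun h' => hT.vx h') hT.uv.symm
    · rw [gxy]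
      intro w hw
      exact Finset.mem_erase.2 ⟨fun h' => (Finset.mem_sdiff.1 hw).2 (h' ▸ hxX),
        Finset.mem_erase.2 ⟨fun h' => (Finset.mem_sdiff.1 hw).2 (h' ▸ hyX), (Finset.mem_sdiff.1 hw).1⟩⟩
    · intro w hw
      simp only [Finset.mem_insert, Finset.mem_union, Finset.mem_singleton] at hw ⊢
      tauto
    · intro w hw
      simp only [Finset.mem_insert, Finset.mem_singleton] at hw
      rw [Finset.mem_union, Finset.mem_insert, Finset.mem_singleton, Finset.mem_sdiff, gxy, Finset.mem_erase, Finset.mem_erase]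
      rcases hw with rfl | rfl | rfl
      · tauto
      · tauto
      · exact Or.inr ⟨⟨hT.xz.symm, hT.yz.symm, hXq hzX⟩, fun h' => (Finset.mem_sdiff.1 h').2 hzX⟩
    · rw [hKc, e1, e2, e3]
      push_cast
      linarith
  have wf2 : (QUB.rm false y (rm true u (rm false v p))).1 ⊆ (QUB.rm false y (rm true u (rm false v p))).2 := QUB.wf_rm hwf (hXq hyX)
  obtain ⟨N3, c1, c2, -⟩ := rich_keep S wf2 hXe hle ⟨N2, b1, b2, (Finset.card_le_card (Finset.inter_subset_inter_right
    (Finset.erase_subset y X))).trans b3⟩ (Finset.mem_erase.2 ⟨hT.xy, hxX⟩) (t := true) s2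
  refine ⟨N3, ?_, c2⟩
  have e4 : QUB.rm true x (QUB.rm false y (rm true u (rm false v p))) = rm false v (rm true u (rm true x (rm false y p))) := by
    show rm true x (rm false y (rm true u (rm false v p))) = _
    rw [rm_comm false true y u, rm_comm true true x u, rm_comm false false y v, rm_comm true false x v, rm_comm true false u v]
  rw [e4] at c1
  exact (rm_sub false v _).trans c1

/-- `M \ u \ f \ x` is rich -/
private theorem clh_ufx (h : Cw S p) (hc : Rcf S p u true v false X) (hX : X = {x, y, z}) (hT : Ty (rhoP S.r p) (S.r p.2 - S.r p.1) u v x y z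
    (gs (rm true u (rm false v p)) \ X)) (hf : f ∈ gs (rm true u (rm false v p)) \ X)
    (g5 : rhoP S.r p ((gs (rm true u (rm false v p)) \ X).erase f) = S.r p.2 - S.r p.1 - 1)
    (hR : ∃ q', Sub q' (rm true f (rm true u (rm false v p))) ∧ Rich S.r q' ∧ (X ∩ gs q').card ≤ 1) :
    HasRich S.r (rm true u (rm true f (rm true x p))) := by
  have hr : Rk S.r := S.rk
  have hp := h.hp
  have nt := h.nt
  have hn := h.hn
  have hwf := hc.wf hp
  have hg : gs (rm true u (rm false v p)) = ((gs p).erase v).erase u := gs_rm2 _ _ _ _ _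
  have hXq := hc.sub
  have mX : ∀ w ∈ X, w ∈ gs p ∧ w ≠ u ∧ w ≠ v := fun w hw => by
    have h1 := hXq hw
    rw [hg, Finset.mem_erase, Finset.mem_erase] at h1
    tauto
  have hxX : x ∈ X := by rw [hX]; simp
  have hyX : y ∈ X := by rw [hX]; simp
  have hzX : z ∈ X := by rw [hX]; simp
  have mx := mX x hxX
  have my := mX y hyX
  have mz := mX z hzX
  obtain ⟨hf1, hf2⟩ := Finset.mem_sdiff.1 hf
  have hf3 : f ∈ gs p ∧ f ≠ u ∧ f ≠ v := by
    have h1 := hf1
    rw [hg, Finset.mem_erase, Finset.mem_erase] at h1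
    tauto
  have hfx : f ≠ x := fun h' => hf2 (h' ▸ hxX)
  have hfy : f ≠ y := fun h' => hf2 (h' ▸ hyX)
  have hfz : f ≠ z := fun h' => hf2 (h' ▸ hzX)
  have e3 : rhoP S.r p {v, y, z} = 3 := by
    rw [rhoP_le3 hr nt (by omega) (by
      intro w hw
      simp only [Finset.mem_insert, Finset.mem_singleton] at hw
      rcases hw with rfl | rfl | rfl
      · exact hc.mv
      · exact my.1
      · exact mz.1) Finset.card_le_three, Finset.card_eq_three.2 ⟨v, y, z, hT.vy, hT.vz, hT.yz, rfl⟩]
    rfl
  have wf1 : (rm true f (rm true u (rm false v p))).1 ⊆ (rm true f (rm true u (rm false v p))).2 := QUB.wf_rm hwf hf1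
  have g1 : gs (rm true f (rm true u (rm false v p))) = (gs (rm true u (rm false v p))).erase f := gs_rm _ _ _
  have hX1 : X ⊆ gs (rm true f (rm true u (rm false v p))) := by
    rw [g1]
    intro w hw
    exact Finset.mem_erase.2 ⟨fun h' => hf2 (h' ▸ hw), hXq hw⟩
  have hl1 : QUB.lam S.r (rm true f (rm true u (rm false v p))) X ≤ 1 :=
    (QUB.lam_rm_le hr hf1 (g1 ▸ hX1)).trans hc.lam
  have g2 : gs (QUB.rm true x (rm true f (rm true u (rm false v p)))) = ((gs (rm true u (rm false v p))).erase f).erase x := by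
    rw [show gs (QUB.rm true x (rm true f (rm true u (rm false v p)))) = (gs (rm true f (rm true u (rm false v p)))).erase x from
      gs_rm _ _ _, g1]
  have hbox : (QUB.rm true x (rm true f (rm true u (rm false v p)))).1 = p.1 ∪ {v} ∧
      (QUB.rm true x (rm true f (rm true u (rm false v p)))).2 = p.2 \ {x, f, u} := by
    constructor
    · show insert v p.1 = _
      rw [Finset.union_comm, Finset.insert_eq]
    · show (((p.2.erase u).erase f).erase x) = _
      ext w
      simp only [Finset.mem_erase, Finset.mem_sdiff, Finset.mem_insert, Finset.mem_singleton]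
      tauto
  have gY : gs (rm true f (rm true u (rm false v p))) \ X = (gs (rm true u (rm false v p)) \ X).erase f := by
    rw [g1]
    ext w
    simp only [Finset.mem_sdiff, Finset.mem_erase]
    tauto
  have s2 : 1 ≤ QUB.lam S.r (QUB.rm true x (rm true f (rm true u (rm false v p)))) (gs (rm true f (rm true u (rm false v p))) \ X) := by
    rw [gY]
    refine clh_lam hr hp nt (by omega) (K := {v}) (D := {x, f, u}) (Finset.singleton_subset_iff.2 hc.mv) ?_ ?_ (card_le1 _)
      Finset.card_le_three hbox.1 hbox.2 (C1 := (gs (rm true u (rm false v p)) \ X).erase f) (C2 := {v, y, z}) ?_ ?_ ?_ ?_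
    · intro w hw
      simp only [Finset.mem_insert, Finset.mem_singleton] at hw
      rcases hw with rfl | rfl | rfl
      · exact mx.1
      · exact hf3.1
      · exact hc.mu
    · intro w hw
      rw [Finset.mem_singleton] at hw
      rw [hw]
      simp only [Finset.mem_insert, Finset.mem_singleton, not_or]
      exact ⟨hT.vx, hf3.2.2.symm, hT.uv.symm⟩
    · rw [g2]
      intro w hw
      obtain ⟨w1, w2⟩ := Finset.mem_erase.1 hw
      obtain ⟨w3, w4⟩ := Finset.mem_sdiff.1 w2
      exact Finset.mem_erase.2 ⟨fun h' => w4 (h' ▸ hxX), Finset.mem_erase.2 ⟨w1, w3⟩⟩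
    · exact Finset.subset_union_right
    · intro w hw
      simp only [Finset.mem_insert, Finset.mem_singleton] at hw
      rw [Finset.mem_union, Finset.mem_singleton, Finset.mem_sdiff, g2, Finset.mem_erase, Finset.mem_erase]
      rcases hw with rfl | rfl | rfl
      · tauto
      · exact Or.inr ⟨⟨hT.xy.symm, hfy.symm, hXq hyX⟩, fun h' => (Finset.mem_sdiff.1 (Finset.mem_erase.1 h').2).2 hyX⟩
      · exact Or.inr ⟨⟨hT.xz.symm, hfz.symm, hXq hzX⟩, fun h' => (Finset.mem_sdiff.1 (Finset.mem_erase.1 h').2).2 hzX⟩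
    · rw [Finset.card_singleton, g5, e3]
      push_cast
      linarith
  obtain ⟨N2, b1, b2, -⟩ := rich_keep S wf1 hX1 hl1 hR hxX (t := true) s2
  refine ⟨N2, ?_, b2⟩
  have e4 : QUB.rm true x (rm true f (rm true u (rm false v p))) = rm false v (rm true u (rm true f (rm true x p))) := by
    show rm true x (rm true f (rm true u (rm false v p))) = _
    rw [rm_comm true true x f, rm_comm true true x u, rm_comm true true f u, rm_comm true false x v, rm_comm true false f v,
      rm_comm true false u v]
  rw [e4] at b1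
  exact (rm_sub false v _).trans b1

/-- no `2 | 2` split, by richness -/
theorem n22_of (h : Cw S p) (hc : Rcf S p u true v false X) (hX : X = {x, y, z})
    (hf : f ∈ gs (rm true u (rm false v p)) \ X)
    (hR : ∃ q', Sub q' (rm true f (rm true u (rm false v p))) ∧ Rich S.r q' ∧ (X ∩ gs q').card ≤ 1) :
    N22 (rhoP S.r p) (S.r p.2 - S.r p.1) v x y z (gs (rm true u (rm false v p)) \ X) f := by
  intro A hA c1 c2
  by_contra hcon
  have hr : Rk S.r := S.rk
  have hp := h.hp
  have nt := h.nt
  have hn := h.hn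
  have hwf := hc.wf hp
  have hg : gs (rm true u (rm false v p)) = ((gs p).erase v).erase u := gs_rm2 _ _ _ _ _
  obtain ⟨hf1, hf2⟩ := Finset.mem_sdiff.1 hf
  have hf3 : f ∈ gs p ∧ f ≠ u ∧ f ≠ v := by
    have h1 := hf1
    rw [hg, Finset.mem_erase, Finset.mem_erase] at h1
    tauto
  have wf1 : (rm true f (rm true u (rm false v p))).1 ⊆ (rm true f (rm true u (rm false v p))).2 := QUB.wf_rm hwf hf1
  have g1 : gs (rm true f (rm true u (rm false v p))) = (gs (rm true u (rm false v p))).erase f := gs_rm _ _ _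
  have hA1 : A ⊆ gs (rm true f (rm true u (rm false v p))) := by
    rw [g1]
    intro w hw
    obtain ⟨w1, w2⟩ := Finset.mem_erase.1 (hA hw)
    exact Finset.mem_erase.2 ⟨w1, (Finset.mem_sdiff.1 w2).1⟩
  have hbox : (rm true f (rm true u (rm false v p))).1 = p.1 ∪ {v} ∧ (rm true f (rm true u (rm false v p))).2 = p.2 \ {f, u} := by
    constructor
    · show insert v p.1 = _
      rw [Finset.union_comm, Finset.insert_eq]
    · show ((p.2.erase u).erase f) = _
      ext w
      simp only [Finset.mem_erase, Finset.mem_sdiff, Finset.mem_insert, Finset.mem_singleton]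
      tauto
  have e1 := lam_nt hr hp nt (by omega) (K := {v}) (D := {f, u}) (Finset.singleton_subset_iff.2 hc.mv) (by
    intro w hw
    simp only [Finset.mem_insert, Finset.mem_singleton] at hw
    rcases hw with rfl | rfl
    · exact hf3.1
    · exact hc.mu) (by
    intro w hw
    rw [Finset.mem_singleton] at hw
    rw [hw]
    simp only [Finset.mem_insert, Finset.mem_singleton, not_or]
    exact ⟨hf3.2.2.symm, hc.uv.symm⟩) (card_le1 _) (card_le2 _ _) hbox.1 hbox.2 hA1
  have e2 : gs (rm true f (rm true u (rm false v p))) \ A ⊆ insert x (insert y (insert z ((gs (rm true u (rm false v p)) \ X).erase f \ A))) := by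
    intro w hw
    rw [Finset.mem_sdiff, g1, Finset.mem_erase] at hw
    simp only [Finset.mem_insert, Finset.mem_sdiff, Finset.mem_erase]
    by_cases hwX : w ∈ X
    · rw [hX] at hwX
      simp only [Finset.mem_insert, Finset.mem_singleton] at hwX
      tauto
    · tauto
  have e3 := (rhoP_rk hr (p := p)).mono _ _ (Finset.insert_subset_insert v e2)
  rw [← Finset.insert_eq, ← Finset.insert_eq, Finset.card_singleton] at e1
  have hl : QUB.lam S.r (rm true f (rm true u (rm false v p))) A ≤ 1 := by
    rw [e1]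
    push_cast
    linarith
  obtain ⟨N, n1, n2, n3⟩ := hR
  have hsub : gs N ⊆ (X ∩ gs N) ∪ ((A ∩ gs N) ∪ ((gs (rm true u (rm false v p)) \ X).erase f \ A)) := by
    intro w hw
    have h1 : w ∈ gs (rm true f (rm true u (rm false v p))) := by
      obtain ⟨h2, h3⟩ := Finset.mem_sdiff.1 hw
      exact Finset.mem_sdiff.2 ⟨n1.2 h2, fun h4 => h3 (n1.1 h4)⟩
    rw [g1, Finset.mem_erase] at h1
    simp only [Finset.mem_union, Finset.mem_inter, Finset.mem_sdiff, Finset.mem_erase]
    tauto
  have hcard := Finset.card_le_card hsub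
  have u1 := Finset.card_union_le (X ∩ gs N) ((A ∩ gs N) ∪ ((gs (rm true u (rm false v p)) \ X).erase f \ A))
  have u2 := Finset.card_union_le (A ∩ gs N) ((gs (rm true u (rm false v p)) \ X).erase f \ A)
  have u3 := n2.2.1
  rcases rich_side hr wf1 hA1 hl n1 n2 with h1 | h1
  · omega
  · have u4 : gs N ⊆ A ∪ ((gs (rm true f (rm true u (rm false v p))) \ A) ∩ gs N) := by
      intro w hw
      have h2 : w ∈ gs (rm true f (rm true u (rm false v p))) := by
        obtain ⟨h2, h3⟩ := Finset.mem_sdiff.1 hw
        exact Finset.mem_sdiff.2 ⟨n1.2 h2, fun h4 => h3 (n1.1 h4)⟩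
      simp only [Finset.mem_union, Finset.mem_inter, Finset.mem_sdiff]
      tauto
    have u5 := Finset.card_le_card u4
    have u6 := Finset.card_union_le A ((gs (rm true f (rm true u (rm false v p))) \ A) ∩ gs N)
    omega

/-- **closure A from a good element**: `w` is `y` or `z` -/
theorem clH (h : Cw S p) (hc : Rcf S p u true v false X) (hX : X = {x, y, z}) (xy : x ≠ y) (xz : x ≠ z) (yz : y ≠ z)
    (hf : GfH (rhoP S.r p) (S.r p.2 - S.r p.1) u v x y z (gs (rm true u (rm false v p)) \ X) f)
    (hR : ∃ q', Sub q' (rm true f (rm true u (rm false v p))) ∧ Rich S.r q' ∧ (X ∩ gs q').card ≤ 1) {w : E} (hw : w = y ∨ w = z)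
    (o1 : Ok S.r (rm true y (rm false x p))) (o2 : Ok S.r (rm true x (rm false w p))) :
    ∃ T : Fm F4 E, InV S.U S.W p T ∧ ¬ EqD S.U S.W p T 0 := by
  have hr : Rk S.r := S.rk
  have hp := h.hp
  have nt := h.nt
  have hn := h.hn
  obtain ⟨hT, e⟩ := ty_of h hc hX xy xz yz
  have h22 := n22_of h hc hX hf.mem hR
  have hYX : X = {y, x, z} := by
    rw [hX]
    ext w
    simp only [Finset.mem_insert, Finset.mem_singleton]
    tauto
  have hXZ : X = {x, z, y} := by
    rw [hX]
    ext w
    simp only [Finset.mem_insert, Finset.mem_singleton]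
    tauto
  have hTs := hT.swap
  have es : gT u v y x z (gs (rm true u (rm false v p)) \ X) = gs p := by rw [gT_swap, e]
  have hTz := hT.rot.rot.swap
  have ez : gT u v x z y (gs (rm true u (rm false v p)) \ X) = gs p := by rw [gT_swap, gT_rot, gT_rot, e]
  have mf : f ∈ gs p := e ▸ hT.YG hf.mem
  have mx : x ∈ gs p := e ▸ hT.xG
  have my : y ∈ gs p := e ▸ hT.yG
  have mz : z ∈ gs p := e ▸ hT.zG
  have huf : u ≠ f := fun h' => hT.uY (h' ▸ hf.mem)
  have hfx : f ≠ x := fun h' => hT.xY (h' ▸ hf.mem)
  have hfy : f ≠ y := fun h' => hT.yY (h' ▸ hf.mem)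
  have ouf : Ok S.r (rm true u (rm true f p)) := by
    refine ok_dd hr hp nt (by omega) hc.mu mf huf fun A B hP hA hB => ?_
    exact hT.h1 hf (by rw [e]; exact hP) hA hB
  have ofx : Ok S.r (rm true f (rm true x p)) := by
    refine ok_dd hr hp nt (by omega) mf mx hfx fun A B hP hA hB => ?_
    exact hT.h3 hf h22 (by rw [e]; exact hP) hA hB
  have ofy : Ok S.r (rm true f (rm true y p)) := by
    refine ok_dd hr hp nt (by omega) mf my hfy fun A B hP hA hB => ?_
    exact hTs.h3 hf.swap h22.swap (by rw [es]; exact hP) hA hB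
  have oux : Ok S.r (rm true u (rm false x p)) := ok_ua hr hp nt (by omega) hT e
  have oux' : Ok S.r (rm true u (rm false w p)) := by
    rcases hw with rfl | rfl
    · exact ok_ua hr hp nt (by omega) hTs es
    · refine ok_ua hr hp nt (by omega) hT.rot.rot (by rw [gT_rot, gT_rot, e])
  have rxw : HasRich S.r (rm true u (rm true x (rm false w p))) := by
    rcases hw with rfl | rfl
    · exact clh_uxy h hc hX hT
    · exact clh_uxy h hc hXZ hTz
  have hco : S.r (p.2 \ {u, x, y, z}) = S.r p.2 - 1 := by
    have h1 := hT.coc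
    unfold rhoP at h1
    have h2 : p.1 ∪ insert v (gs (rm true u (rm false v p)) \ X) = p.2 \ {u, x, y, z} := by
      have hg : gs (rm true u (rm false v p)) = ((gs p).erase v).erase u := gs_rm2 _ _ _ _ _
      have n1 := (Finset.mem_sdiff.1 hc.mu).2
      have n2 := (Finset.mem_sdiff.1 mx).2
      have n3 := (Finset.mem_sdiff.1 my).2
      have n4 := (Finset.mem_sdiff.1 mz).2
      have v1 := (Finset.mem_sdiff.1 hc.mv)
      have d1 := hT.uv
      have d2 := hT.vx
      have d3 := hT.vy
      have d4 := hT.vz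
      ext w
      rw [Finset.mem_union, Finset.mem_insert, Finset.mem_sdiff, hg, hX, Finset.mem_erase, Finset.mem_erase, Finset.mem_sdiff]
      rw [show gs p = p.2 \ p.1 from rfl, Finset.mem_sdiff]
      simp only [Finset.mem_insert, Finset.mem_singleton, not_or]
      have hpw := @hp w
      by_cases hwv : w = v
      · subst hwv
        exact ⟨fun _ => ⟨v1.1, d1.symm, d2, d3, d4⟩, fun _ => Or.inr (Or.inl rfl)⟩
      · constructor
        · rintro (h3 | h3 | h3)
          · refine ⟨hpw h3, ?_, ?_, ?_, ?_⟩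
            · rintro rfl; exact n1 h3
            · rintro rfl; exact n2 h3
            · rintro rfl; exact n3 h3
            · rintro rfl; exact n4 h3
          · exact absurd h3 hwv
          · tauto
        · rintro ⟨h3, h4, h5, h6, h7⟩
          by_cases h8 : w ∈ p.1
          · exact Or.inl h8
          · exact Or.inr (Or.inr ⟨⟨h4, hwv, h3, h8⟩, h5, h6, h7⟩)
    rw [h2] at h1
    linarith
  exact clA h.cv hc.mu mf mx my mz huf hT.ux hT.uy hT.uz hfx hfy xy xz yz hw hco ouf ofx ofy oux oux' o1 o2
    (cn_ufx hr hp nt (by omega) hT e hf.mem hf.cn hf.g5) (clh_ufx h hc hX hT hf.mem hf.g5 hR)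
    (cn_ufx hr hp nt (by omega) hTs es hf.mem hf.swap.cn hf.g5) (clh_ufx h hc hYX hTs hf.mem hf.g5 hR)
    (cn_uxy hr hp nt (by omega) hTs es) (clh_uxy h hc hYX hTs) rxw

end Pool.Agent.QU
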