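import Pool.Agent.QUR.TyF

/-!
# QUR/TyJ: duality and rich boxes of the tiny case

`ty_dual`, `dirty_dual`: the dual setting has `u` and `v` interchanged.  `rich_uxy`: `M \ u \ x / y` is rich.  `rich_ufx`: `M \ u \ f \ x` is rich.
-/

set_option autoImplicit false

open QUB

namespace Pool.Agent.QU

open Pool.Agent.FRM

section

variable {E : Type} [Fintype E] [DecidableEq E] {S : TP F4 E} {p : Itv E} {u v x y z f : E} {X Y : Finset E}

private theorem tyj_rm (s : Bool) (u : E) (p : Itv E) : rm (!s) u (QUB.dp p) = QUB.dp (rm s u p) := by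
  have := QUB.rm_dp (!s) u p
  rwa [Bool.not_not] at this

private theorem tyj_rm2 (u v : E) (p : Itv E) : rm true v (rm false u (QUB.dp p)) = QUB.dp (rm true u (rm false v p)) := by
  have h1 : rm false u (QUB.dp p) = QUB.dp (rm true u p) := tyj_rm true u p
  have h2 : rm true v (QUB.dp (rm true u p)) = QUB.dp (rm false v (rm true u p)) := tyj_rm false v (rm true u p)
  rw [h1, h2]
  congr 1

/-- the dual setting -/
theorem ty_dual (h : Cw S p) (hc : Rcf S p u true v false X) (hX : X = {x, y, z}) (xy : x ≠ y) (xz : x ≠ z) (yz : y ≠ z) :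
    Ty (rhoP S.dual.r (QUB.dp p)) (S.dual.r (QUB.dp p).2 - S.dual.r (QUB.dp p).1) v u x y z (gs (rm true u (rm false v p)) \ X) ∧
      gT v u x y z (gs (rm true u (rm false v p)) \ X) = gs (QUB.dp p) := by
  have h1 : Rcf S.dual (QUB.dp p) v true u false X := (hc.dual h.hp).symm
  have h2 := ty_of h.dual h1 hX xy xz yz
  have h3 : gs (rm true v (rm false u (QUB.dp p))) = gs (rm true u (rm false v p)) := by
    rw [tyj_rm2]
    exact QUB.gs_dp _
  rw [h3] at h2
  exact h2

/-- a dirty pair of the dual -/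
theorem dirty_dual (h : Cw S p) (hT : Ty (rhoP S.r p) (S.r p.2 - S.r p.1) u v x y z Y) (e : gT u v x y z Y = gs p) {Z : Finset E}
    (d : Dirty (rhoP S.r p) (S.r p.2 - S.r p.1) u v x y z Y Z) :
    Dirty (rhoP S.dual.r (QUB.dp p)) (S.dual.r (QUB.dp p).2 - S.dual.r (QUB.dp p).1) v u y x z Y Z := by
  have hn := h.hn
  have hx : x ∈ gs p := e ▸ hT.xG
  have hy : y ∈ gs p := e ▸ hT.yG
  have hg : gs (rm true x (rm false y p)) = ((gs p).erase y).erase x := gs_rm2 _ _ _ _ _
  have mg : ∀ w, w ∈ gs (rm true x (rm false y p)) ↔ w ∈ gs p ∧ w ≠ x ∧ w ≠ y := by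
    intro w
    rw [hg, Finset.mem_erase, Finset.mem_erase]
    tauto
  have hD : insert u (insert v Z) ⊆ gs (rm true x (rm false y p)) := by
    intro w hw
    simp only [Finset.mem_insert] at hw
    rcases hw with rfl | rfl | hw
    · exact (mg _).2 ⟨e ▸ hT.uG, hT.ux, hT.uy⟩
    · exact (mg _).2 ⟨e ▸ hT.vG, hT.vx, hT.vy⟩
    · exact (mg _).2 ⟨e ▸ hT.YG (d.sub hw), fun h' => hT.xY (h' ▸ d.sub hw), fun h' => hT.yY (h' ▸ d.sub hw)⟩
  have hcm : gs (rm true x (rm false y p)) \ insert u (insert v Z) = insert z (Y \ Z) := by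
    ext w
    rw [Finset.mem_sdiff, mg, ← e, mem_gT]
    simp only [Finset.mem_insert, Finset.mem_sdiff, not_or]
    constructor
    · rintro ⟨⟨h1, h2, h3⟩, h4, h5, h6⟩
      rcases h1 with h1 | h1 | h1 | h1 | h1 | h1
      · exact absurd h1 h4
      · exact absurd h1 h5
      · exact absurd h1 h2
      · exact absurd h1 h3
      · exact Or.inl h1
      · exact Or.inr ⟨h1, h6⟩
    · rintro (rfl | ⟨h1, h2⟩)
      · exact ⟨⟨by tauto, hT.xz.symm, hT.yz.symm⟩, hT.uz.symm, hT.vz.symm, fun h' => hT.zY (d.sub h')⟩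
      · exact ⟨⟨by tauto, fun h' => hT.xY (h' ▸ h1), fun h' => hT.yY (h' ▸ h1)⟩, fun h' => hT.uY (h' ▸ h1),
          fun h' => hT.vY (h' ▸ h1), h2⟩
  have hw : (rm true x (rm false y p)).1 ⊆ (rm true x (rm false y p)).2 := by
    refine QUB.wf_rm (QUB.wf_rm h.hp hy) ?_
    rw [show gs (rm false y p) = (gs p).erase y from QUB.gs_rm false y p]
    exact Finset.mem_erase.2 ⟨hT.xy, hx⟩
  have l1 : QUB.lam S.r (rm true x (rm false y p)) (insert u (insert v Z)) ≤ 1 := by
    have hl := lam_nt S.rk h.hp h.nt (by omega) (K := {y}) (D := {x}) (Finset.singleton_subset_iff.2 hy)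
      (Finset.singleton_subset_iff.2 hx) (by
        intro w hw
        rw [Finset.mem_singleton] at hw ⊢
        rw [hw]
        exact hT.xy.symm) (card_le1 y) (card_le1 x) bx_dc.1 bx_dc.2 hD
    rw [← Finset.insert_eq, ← Finset.insert_eq, Finset.card_singleton, hcm] at hl
    have hs := d.sep
    rw [hl]
    push_cast
    omega
  have l2 : QUB.lam S.dual.r (rm true y (rm false x (QUB.dp p))) (insert u (insert v Z)) ≤ 1 := by
    rw [tyj_rm2]
    exact (QUB.lam_dp hw hD).trans_le l1
  have hgd : gs (rm true y (rm false x (QUB.dp p))) = gs (rm true x (rm false y p)) := by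
    rw [tyj_rm2]
    exact QUB.gs_dp _
  have hgp : gs (QUB.dp p) = gs p := QUB.gs_dp _
  have hl := lam_nt S.dual.rk (QUB.wf_dp h.hp) (Nt.dual h.hp h.nt) (by rw [hgp]; omega) (K := {x}) (D := {y})
    (Finset.singleton_subset_iff.2 (hgp ▸ hx)) (Finset.singleton_subset_iff.2 (hgp ▸ hy)) (by
      intro w hw
      rw [Finset.mem_singleton] at hw ⊢
      rw [hw]
      exact hT.xy) (card_le1 x) (card_le1 y) (q := rm true y (rm false x (QUB.dp p))) bx_dc.1 bx_dc.2
    (A := insert u (insert v Z)) (by rw [hgd]; exact hD)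
  rw [← Finset.insert_eq, ← Finset.insert_eq, Finset.card_singleton, hgd, hcm] at hl
  rw [hl] at l2
  refine ⟨d.sub, d.one, d.two, ?_⟩
  rw [Finset.insert_comm v u]
  push_cast at l2
  omega

/-- `M \ u \ x / y` is rich -/
theorem rich_uxy (h : Cw S p) (hc : Rcf S p u true v false X) (hX : X = {x, y, z})
    (hT : Ty (rhoP S.r p) (S.r p.2 - S.r p.1) u v x y z (gs (rm true u (rm false v p)) \ X))
    (e : gT u v x y z (gs (rm true u (rm false v p)) \ X) = gs p) : HasRich S.r (rm true u (rm true x (rm false y p))) := by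
  have hr : Rk S.r := S.rk
  have hn := h.hn
  have hp := h.hp
  have hqw := hc.wf hp
  have hXq := hc.sub
  have hcl := hc.lam
  have hcr := hc.rich
  have bq1 : (rm true u (rm false v p)).1 = insert v p.1 := rfl
  have bq2 : (rm true u (rm false v p)).2 = p.2.erase u := rfl
  generalize rm true u (rm false v p) = q at hT e hqw hXq hcl hcr bq1 bq2
  have mx : x ∈ X := by rw [hX]; simp
  have my : y ∈ X := by rw [hX]; simp
  have hx : x ∈ gs p := e ▸ hT.xG
  have hy : y ∈ gs p := e ▸ hT.yG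
  have hu : u ∈ gs p := e ▸ hT.uG
  have hv : v ∈ gs p := e ▸ hT.vG
  have hXe : gs q \ X ⊆ gs p := fun w hw => e ▸ hT.YG hw
  -- ranks
  have rY : rhoP S.r p (insert v (gs q \ X)) = S.r p.2 - S.r p.1 - 1 := hT.coc
  -- first removal
  have g1 : gs (rm true x q) = (gs q).erase x := gs_rm _ _ _
  have b1 : (rm true x q).1 = p.1 ∪ {v} ∧ (rm true x q).2 = p.2 \ {x, u} := by
    constructor
    · show q.1 = _
      rw [bq1, Finset.union_comm, Finset.insert_eq]
    · show q.2.erase x = _
      rw [bq2]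
      ext w
      simp only [Finset.mem_erase, Finset.mem_sdiff, Finset.mem_insert, Finset.mem_singleton]
      tauto
  have s1 : gs q \ X ⊆ gs (rm true x q) := by
    rw [g1]
    intro w hw
    have h1 := Finset.mem_sdiff.1 hw
    exact Finset.mem_erase.2 ⟨fun h' => h1.2 (h' ▸ mx), h1.1⟩
  have mz : z ∈ X := by rw [hX]; simp
  have c1 : gs (rm true x q) \ (gs q \ X) = {y, z} := by
    ext w
    rw [g1, Finset.mem_sdiff, Finset.mem_erase, Finset.mem_sdiff, Finset.mem_insert, Finset.mem_singleton]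
    constructor
    · rintro ⟨⟨h1, h2⟩, h3⟩
      have h4 : w ∈ X := by_contra fun h' => h3 ⟨h2, h'⟩
      rw [hX] at h4
      simp only [Finset.mem_insert, Finset.mem_singleton] at h4
      exact h4.resolve_left h1
    · rintro (rfl | rfl)
      · exact ⟨⟨hT.xy.symm, hXq my⟩, fun h' => h'.2 my⟩
      · exact ⟨⟨hT.xz.symm, hXq mz⟩, fun h' => h'.2 mz⟩
  have hKD : ∀ w ∈ ({v} : Finset E), w ∉ ({x, u} : Finset E) := by
    intro w hw
    rw [Finset.mem_singleton] at hw
    rw [hw]
    simp only [Finset.mem_insert, Finset.mem_singleton, not_or]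
    exact ⟨hT.vx, hT.uv.symm⟩
  have sD : ({x, u} : Finset E) ⊆ gs p := by
    intro w hw
    simp only [Finset.mem_insert, Finset.mem_singleton] at hw
    rcases hw with rfl | rfl <;> assumption
  have l1 := lam_nt hr hp h.nt (by omega) (Finset.singleton_subset_iff.2 hv) sD hKD (card_le1 v) (card_le2 x u) b1.1 b1.2 s1
  rw [← Finset.insert_eq, ← Finset.insert_eq, Finset.card_singleton, c1] at l1
  have t1 : rhoP S.r p (insert v {y, z}) = 3 := hT.three hT.vG hT.yG hT.zG hT.vy hT.vz hT.yz
  rw [rY, t1] at l1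
  have r1 := rich_keep S hqw hXq hcl hcr mx (t := true) (by
    rw [l1]
    push_cast
    omega)
  -- second removal
  have w1 : (rm true x q).1 ⊆ (rm true x q).2 := QUB.wf_rm hqw (hXq mx)
  have sX : X.erase x ⊆ gs (rm true x q) := by
    rw [g1]
    exact Finset.erase_subset_erase _ hXq
  have my' : y ∈ X.erase x := Finset.mem_erase.2 ⟨hT.xy.symm, my⟩
  have c2 : gs (rm true x q) \ X.erase x = gs q \ X := by
    ext w
    rw [g1, Finset.mem_sdiff, Finset.mem_erase, Finset.mem_erase, Finset.mem_sdiff]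
    constructor
    · rintro ⟨⟨h1, h2⟩, h3⟩
      exact ⟨h2, fun h' => h3 ⟨h1, h'⟩⟩
    · rintro ⟨h1, h2⟩
      exact ⟨⟨fun h' => h2 (h' ▸ mx), h1⟩, fun h' => h2 h'.2⟩
  have l2 : QUB.lam S.r (rm true x q) (X.erase x) ≤ 1 := by
    have h1 := QUB.lam_compl S.r w1 sX
    rw [show QUB.gs (rm true x q) \ X.erase x = gs q \ X from c2, l1] at h1
    push_cast at h1
    omega
  have g2 : gs (rm false y (rm true x q)) = ((gs q).erase x).erase y := by rw [gs_rm, g1]
  have b2 : (rm false y (rm true x q)).1 = p.1 ∪ {y, v} ∧ (rm false y (rm true x q)).2 = p.2 \ {x, u} := by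
    constructor
    · show insert y q.1 = _
      rw [bq1]
      ext w
      simp only [Finset.mem_union, Finset.mem_insert, Finset.mem_singleton]
      tauto
    · show q.2.erase x = _
      rw [bq2]
      ext w
      simp only [Finset.mem_erase, Finset.mem_sdiff, Finset.mem_insert, Finset.mem_singleton]
      tauto
  have s2 : gs q \ X ⊆ gs (rm false y (rm true x q)) := by
    rw [g2]
    intro w hw
    have h1 := Finset.mem_sdiff.1 hw
    exact Finset.mem_erase.2 ⟨fun h' => h1.2 (h' ▸ my), Finset.mem_erase.2 ⟨fun h' => h1.2 (h' ▸ mx), h1.1⟩⟩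
  have c3 : gs (rm false y (rm true x q)) \ (gs q \ X) = {z} := by
    ext w
    rw [g2, Finset.mem_sdiff, Finset.mem_erase, Finset.mem_erase, Finset.mem_sdiff, Finset.mem_singleton]
    constructor
    · rintro ⟨⟨h1, h1', h2⟩, h3⟩
      have h4 : w ∈ X := by_contra fun h' => h3 ⟨h2, h'⟩
      rw [hX] at h4
      simp only [Finset.mem_insert, Finset.mem_singleton] at h4
      exact (h4.resolve_left h1').resolve_left h1
    · rintro rfl
      exact ⟨⟨hT.yz.symm, hT.xz.symm, hXq mz⟩, fun h' => h'.2 mz⟩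
  have cK : ({y, v} : Finset E).card = 2 := Finset.card_pair hT.vy.symm
  have sK : ({y, v} : Finset E) ⊆ gs p := by
    intro w hw
    simp only [Finset.mem_insert, Finset.mem_singleton] at hw
    rcases hw with rfl | rfl <;> assumption
  have hKD2 : ∀ w ∈ ({y, v} : Finset E), w ∉ ({x, u} : Finset E) := by
    intro w hw
    simp only [Finset.mem_insert, Finset.mem_singleton, not_or] at hw ⊢
    rcases hw with rfl | rfl
    · exact ⟨hT.xy.symm, hT.uy.symm⟩
    · exact ⟨hT.vx, hT.uv.symm⟩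
  have l3 := lam_nt hr hp h.nt (by omega) sK sD hKD2 (card_le2 y v) (card_le2 x u) b2.1 b2.2 s2
  have u1 : ({y, v} : Finset E) ∪ (gs q \ X) = insert y (insert v (gs q \ X)) := by
    ext w
    simp only [Finset.mem_union, Finset.mem_insert, Finset.mem_singleton]
    tauto
  have u2 : ({y, v} : Finset E) ∪ {z} = {v, y, z} := by
    ext w
    simp only [Finset.mem_union, Finset.mem_insert, Finset.mem_singleton]
    tauto
  rw [u1, c3, u2, cK, hT.ny (Finset.Subset.refl _), rY, hT.three hT.vG hT.yG hT.zG hT.vy hT.vz hT.yz] at l3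
  have r2 := rich_keep S w1 sX l2 (by
    obtain ⟨q', h1, h2, h3⟩ := r1
    exact ⟨q', h1, h2, (Finset.card_le_card (Finset.inter_subset_inter_right (Finset.erase_subset _ _))).trans h3⟩) my' (t := false) (by
    rw [c2, l3]
    push_cast
    omega)
  obtain ⟨q', h1, h2, -⟩ := r2
  refine ⟨q', ⟨fun w hw => h1.1 ?_, fun w hw => ?_⟩, h2⟩
  · have h3 : w ∈ insert y p.1 := hw
    show w ∈ insert y q.1
    rw [bq1]
    rw [Finset.mem_insert] at h3 ⊢
    rw [Finset.mem_insert]
    exact h3.imp_right Or.inr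
  · have h3 : w ∈ q.2.erase x := h1.2 hw
    rw [bq2] at h3
    show w ∈ (p.2.erase x).erase u
    rw [Finset.erase_right_comm]
    exact h3

/-- `M \ u \ f \ x` is rich -/
theorem rich_ufx (h : Cw S p) (hX : X = {x, y, z})
    (hT : Ty (rhoP S.r p) (S.r p.2 - S.r p.1) u v x y z (gs (rm true u (rm false v p)) \ X))
    (e : gT u v x y z (gs (rm true u (rm false v p)) \ X) = gs p) (hf : f ∈ gs (rm true u (rm false v p)) \ X)
    (g5 : rhoP S.r p ((gs (rm true u (rm false v p)) \ X).erase f) = S.r p.2 - S.r p.1 - 1)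
    (hR : ∃ q', Sub q' (rm true f (rm true u (rm false v p))) ∧ Rich S.r q' ∧ (X ∩ gs q').card ≤ 1) :
    HasRich S.r (rm true u (rm true f (rm true x p))) := by
  have hr : Rk S.r := S.rk
  have hn := h.hn
  have hp := h.hp
  have hx : x ∈ gs p := e ▸ hT.xG
  have hy : y ∈ gs p := e ▸ hT.yG
  have hu : u ∈ gs p := e ▸ hT.uG
  have hv : v ∈ gs p := e ▸ hT.vG
  have hfp : f ∈ gs p := e ▸ hT.YG hf
  have hgq : gs (rm true u (rm false v p)) = ((gs p).erase v).erase u := gs_rm2 _ _ _ _ _
  have hqw : (rm true u (rm false v p)).1 ⊆ (rm true u (rm false v p)).2 := by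
    refine QUB.wf_rm (QUB.wf_rm hp hv) ?_
    rw [show gs (rm false v p) = (gs p).erase v from QUB.gs_rm false v p]
    exact Finset.mem_erase.2 ⟨hT.uv, hu⟩
  have bq1 : (rm true u (rm false v p)).1 = insert v p.1 := rfl
  have bq2 : (rm true u (rm false v p)).2 = p.2.erase u := rfl
  generalize rm true u (rm false v p) = q at hT e hf g5 hR hgq hqw bq1 bq2
  have mx : x ∈ X := by rw [hX]; simp
  have my : y ∈ X := by rw [hX]; simp
  have hfX : f ∉ X := (Finset.mem_sdiff.1 hf).2
  have hfq : f ∈ gs q := (Finset.mem_sdiff.1 hf).1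
  have hXq : X ⊆ gs q := by
    intro w hw
    rw [hX] at hw
    simp only [Finset.mem_insert, Finset.mem_singleton] at hw
    rw [hgq, Finset.mem_erase, Finset.mem_erase]
    rcases hw with rfl | rfl | rfl
    · exact ⟨hT.ux.symm, hT.vx.symm, hx⟩
    · exact ⟨hT.uy.symm, hT.vy.symm, hy⟩
    · exact ⟨hT.uz.symm, hT.vz.symm, e ▸ hT.zG⟩
  have g1 : gs (rm true f q) = (gs q).erase f := gs_rm _ _ _
  have w1 : (rm true f q).1 ⊆ (rm true f q).2 := QUB.wf_rm hqw hfq
  have sX : X ⊆ gs (rm true f q) := by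
    rw [g1]
    intro w hw
    exact Finset.mem_erase.2 ⟨fun h' => hfX (h' ▸ hw), hXq hw⟩
  have c1 : gs (rm true f q) \ X = (gs q \ X).erase f := by
    ext w
    rw [g1, Finset.mem_sdiff, Finset.mem_erase, Finset.mem_erase, Finset.mem_sdiff]
    exact and_assoc
  have b1 : (rm true f q).1 = p.1 ∪ {v} ∧ (rm true f q).2 = p.2 \ {f, u} := by
    constructor
    · show q.1 = _
      rw [bq1, Finset.union_comm, Finset.insert_eq]
    · show q.2.erase f = _
      rw [bq2]
      ext w
      simp only [Finset.mem_erase, Finset.mem_sdiff, Finset.mem_insert, Finset.mem_singleton]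
      tauto
  have fu : f ≠ u := fun h' => hT.uY (h' ▸ hf)
  have fv : f ≠ v := fun h' => hT.vY (h' ▸ hf)
  have fx : f ≠ x := fun h' => hT.xY (h' ▸ hf)
  have hKD : ∀ w ∈ ({v} : Finset E), w ∉ ({f, u} : Finset E) := by
    intro w hw
    rw [Finset.mem_singleton] at hw
    rw [hw]
    simp only [Finset.mem_insert, Finset.mem_singleton, not_or]
    exact ⟨fv.symm, hT.uv.symm⟩
  have sD : ({f, u} : Finset E) ⊆ gs p := by
    intro w hw
    simp only [Finset.mem_insert, Finset.mem_singleton] at hw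
    rcases hw with rfl | rfl <;> assumption
  have rY : rhoP S.r p (insert v ((gs q \ X).erase f)) ≤ S.r p.2 - S.r p.1 - 1 := by
    have h1 := hT.rk.mono (insert v ((gs q \ X).erase f)) (insert v (gs q \ X)) (Finset.insert_subset_insert _ (Finset.erase_subset _ _))
    have h2 := hT.coc
    omega
  have rY2 := hT.rk.mono _ _ (Finset.subset_insert v ((gs q \ X).erase f))
  have l1 := lam_nt hr hp h.nt (by omega) (Finset.singleton_subset_iff.2 hv) sD hKD (card_le1 v) (card_le2 f u) b1.1 b1.2 sX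
  rw [← Finset.insert_eq, ← Finset.insert_eq, Finset.card_singleton, c1] at l1
  have t0 : rhoP S.r p (insert v X) = 3 := by
    rw [hX]
    exact hT.cir
  have lX : QUB.lam S.r (rm true f q) X ≤ 1 := by
    rw [l1, t0]
    push_cast
    omega
  -- the removal of `x`
  have b2 : (rm true x (rm true f q)).1 = p.1 ∪ {v} ∧ (rm true x (rm true f q)).2 = p.2 \ {x, f, u} := by
    constructor
    · show q.1 = _
      rw [bq1, Finset.union_comm, Finset.insert_eq]
    · show (q.2.erase f).erase x = _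
      rw [bq2]
      ext w
      simp only [Finset.mem_erase, Finset.mem_sdiff, Finset.mem_insert, Finset.mem_singleton]
      tauto
  have s2 : (gs q \ X).erase f ⊆ gs (rm true x (rm true f q)) := by
    rw [gs_rm true x (rm true f q), g1]
    intro w hw
    have h1 := Finset.mem_erase.1 hw
    have h2 := Finset.mem_sdiff.1 h1.2
    exact Finset.mem_erase.2 ⟨fun h' => h2.2 (h' ▸ mx), Finset.mem_erase.2 ⟨h1.1, h2.1⟩⟩
  have mz : z ∈ X := by rw [hX]; simp
  have c2 : gs (rm true x (rm true f q)) \ (gs q \ X).erase f = {y, z} := by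
    ext w
    rw [gs_rm true x (rm true f q), g1, Finset.mem_sdiff, Finset.mem_erase, Finset.mem_erase, Finset.mem_erase, Finset.mem_sdiff,
      Finset.mem_insert, Finset.mem_singleton]
    constructor
    · rintro ⟨⟨h1, h1', h2⟩, h3⟩
      have h4 : w ∈ X := by_contra fun h' => h3 ⟨h1', h2, h'⟩
      rw [hX] at h4
      simp only [Finset.mem_insert, Finset.mem_singleton] at h4
      exact h4.resolve_left h1
    · rintro (rfl | rfl)
      · exact ⟨⟨hT.xy.symm, fun h' => hfX (h' ▸ my), hXq my⟩, fun h' => h'.2.2 my⟩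
      · exact ⟨⟨hT.xz.symm, fun h' => hfX (h' ▸ mz), hXq mz⟩, fun h' => h'.2.2 mz⟩
  have sD2 : ({x, f, u} : Finset E) ⊆ gs p := by
    intro w hw
    simp only [Finset.mem_insert, Finset.mem_singleton] at hw
    rcases hw with rfl | rfl | rfl <;> assumption
  have hKD2 : ∀ w ∈ ({v} : Finset E), w ∉ ({x, f, u} : Finset E) := by
    intro w hw
    rw [Finset.mem_singleton] at hw
    rw [hw]
    simp only [Finset.mem_insert, Finset.mem_singleton, not_or]
    exact ⟨hT.vx, fv.symm, hT.uv.symm⟩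
  have l2 := lam_nt hr hp h.nt (by omega) (Finset.singleton_subset_iff.2 hv) sD2 hKD2 (card_le1 v) Finset.card_le_three b2.1 b2.2 s2
  rw [← Finset.insert_eq, ← Finset.insert_eq, Finset.card_singleton, c2] at l2
  have t1 : rhoP S.r p (insert v {y, z}) = 3 := hT.three hT.vG hT.yG hT.zG hT.vy hT.vz hT.yz
  have r1 := rich_keep S w1 sX lX hR mx (t := true) (by
    rw [c1, l2, t1]
    push_cast
    omega)
  obtain ⟨q', h1, h2, -⟩ := r1
  refine ⟨q', ⟨fun w hw => h1.1 ?_, fun w hw => ?_⟩, h2⟩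
  · show w ∈ q.1
    rw [bq1]
    exact Finset.mem_insert_of_mem hw
  · have h3 : w ∈ (q.2.erase f).erase x := h1.2 hw
    rw [bq2] at h3
    show w ∈ ((p.2.erase x).erase f).erase u
    simp only [Finset.mem_erase] at h3 ⊢
    tauto

end

end Pool.Agent.QU
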