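import Pool.Agent.QUX.Px

/-!
# QUR/Sep: pairs across a separation of order two

If all single removals of `M` are 3-connected and `(J | W)` is a separation of order two with at least four elements on both sides, then for
`j ∈ J`, `w ∈ W` the box `M_jw` has only small separations of order one.
-/

set_option autoImplicit false

open QUB

namespace Pool.Agent.QU

open Pool.Agent.FRM

section

variable {E : Type} [DecidableEq E] {r : Finset E → ℤ}

/-- two sides, both without small subsets of order one: everything of order one is small -/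
theorem sm_of (hr : Rk r) {m : Itv E} (hm : m.1 ⊆ m.2) {J : Finset E} (hJ : J ⊆ gs m) (hl : QUB.lam r m J ≤ 2)
    (j3 : 3 ≤ J.card) (w3 : 3 ≤ (gs m \ J).card) (h1 : ∀ S ⊆ J, 2 ≤ S.card → 2 ≤ QUB.lam r m S)
    (h2 : ∀ S ⊆ gs m \ J, 2 ≤ S.card → 2 ≤ QUB.lam r m S) : Sm r m := by
  intro A hA hlA
  have k1 : ∀ B ⊆ gs m, QUB.lam r m B ≤ 1 → 2 ≤ (B ∩ J).card → ((gs m \ B) \ J).card ≤ 1 := by
    intro B hB hlB hc
    by_contra hcon
    push Not at hcon
    have e1 := lam_sub (p := m) hr B J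
    have e2 := h1 (B ∩ J) Finset.inter_subset_right hc
    have e3 := h2 ((gs m \ B) \ J) (Finset.sdiff_subset_sdiff Finset.sdiff_subset (subset_refl _)) (by omega)
    have e4 : (gs m \ B) \ J = gs m \ (B ∪ J) := by
      ext w
      simp only [Finset.mem_sdiff, Finset.mem_union]
      tauto
    rw [e4, lam_compl r hm (Finset.union_subset hB hJ)] at e3
    omega
  have k2 : ∀ B ⊆ gs m, QUB.lam r m B ≤ 1 → 2 ≤ (B \ J).card → ((gs m \ B) ∩ J).card ≤ 1 := by
    intro B hB hlB hc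
    by_contra hcon
    push Not at hcon
    have e1 := lam_sub (p := m) hr B (gs m \ J)
    have e0 : B ∩ (gs m \ J) = B \ J := by
      ext w
      simp only [Finset.mem_sdiff, Finset.mem_inter]
      exact ⟨fun h => ⟨h.1, h.2.2⟩, fun h => ⟨h.1, hB h.1, h.2⟩⟩
    have e2 := h2 (B \ J) (Finset.sdiff_subset_sdiff hB (subset_refl _)) hc
    have e3 := h1 ((gs m \ B) ∩ J) Finset.inter_subset_right (by omega)
    have e4 : (gs m \ B) ∩ J = gs m \ (B ∪ (gs m \ J)) := by
      ext w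
      simp only [Finset.mem_sdiff, Finset.mem_union, Finset.mem_inter]
      tauto
    rw [e4, lam_compl r hm (Finset.union_subset hB Finset.sdiff_subset)] at e3
    rw [e0, lam_compl r hm hJ] at e1
    omega
  have c1 : ∀ B ⊆ gs m, (B ∩ J).card + (B \ J).card = B.card := fun B _ => by
    have e := Finset.card_inter_add_card_sdiff B J
    omega
  have c2 : ∀ B ⊆ gs m, (B \ J).card + ((gs m \ B) \ J).card = (gs m \ J).card := by
    intro B hB
    rw [← Finset.card_union_of_disjoint]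
    · congr 1
      ext w
      simp only [Finset.mem_sdiff, Finset.mem_union]
      constructor
      · rintro (⟨a, b⟩ | ⟨⟨a, -⟩, b⟩)
        · exact ⟨hB a, b⟩
        · exact ⟨a, b⟩
      · rintro ⟨a, b⟩
        by_cases hw : w ∈ B
        · exact Or.inl ⟨hw, b⟩
        · exact Or.inr ⟨⟨a, hw⟩, b⟩
    · refine Finset.disjoint_left.2 fun w h h' => ?_
      simp only [Finset.mem_sdiff] at h h'
      exact h'.1.2 h.1
  have c3 : ∀ B ⊆ gs m, (B ∩ J).card + ((gs m \ B) ∩ J).card = J.card := by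
    intro B hB
    rw [← Finset.card_union_of_disjoint]
    · congr 1
      ext w
      simp only [Finset.mem_sdiff, Finset.mem_union, Finset.mem_inter]
      constructor
      · rintro (⟨a, b⟩ | ⟨⟨a, -⟩, b⟩)
        · exact b
        · exact b
      · intro b
        by_cases hw : w ∈ B
        · exact Or.inl ⟨hw, b⟩
        · exact Or.inr ⟨⟨hJ b, hw⟩, b⟩
    · refine Finset.disjoint_left.2 fun w h h' => ?_
      simp only [Finset.mem_sdiff, Finset.mem_inter] at h h'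
      exact h'.1.2 h.1
  have key : ∀ B ⊆ gs m, QUB.lam r m B ≤ 1 → 2 ≤ (B ∩ J).card → (gs m \ B).card ≤ 2 := by
    intro B hB hlB hc
    have a1 := k1 B hB hlB hc
    have a2 := c2 B hB
    have a3 := k2 B hB hlB (by omega)
    have a4 := c1 (gs m \ B) Finset.sdiff_subset
    omega
  have a1 := c3 A hA
  by_cases hc : 2 ≤ (A ∩ J).card
  · exact Or.inr (key A hA hlA hc)
  · left
    have a2 := key (gs m \ A) Finset.sdiff_subset (by rw [lam_compl r hm hA]; exact hlA) (by omega)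
    rwa [Finset.sdiff_sdiff_eq_self hA] at a2

/-- no drop of the big side -/
private theorem sp_one (hr : Rk r) {p : Itv E} (hp : p.1 ⊆ p.2) (th : ∀ w ∈ gs p, ∀ s : Bool, Th3 r (rm s w p)) {J : Finset E}
    (hJ : J ⊆ gs p) (hl : QUB.lam r p J ≤ 2) (j3 : 3 ≤ J.card) (w3 : 3 ≤ (gs p \ J).card) {j w : E} (hj : j ∈ J)
    (hw : w ∈ gs p \ J) (s t : Bool) : 2 ≤ QUB.lam r (rm s j (rm t w p)) (J.erase j) ∧ QUB.lam r (rm t w p) J = 2 := by
  have hjG := hJ hj
  have hwG := (Finset.mem_sdiff.1 hw).1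
  have hwJ := (Finset.mem_sdiff.1 hw).2
  have hjw : j ≠ w := fun h => hwJ (h ▸ hj)
  have hJw : J ⊆ (gs p).erase w := fun y hy => Finset.mem_erase.2 ⟨fun h => hwJ (h ▸ hy), hJ hy⟩
  have a1 : 2 ≤ QUB.lam r (rm t w p) J := by
    refine th w hwG t J ?_ (by omega) ?_
    · rw [QUB.gs_rm]; exact hJw
    · have h1 : gs p \ J ⊆ insert w (gs (rm t w p) \ J) := by
        intro y hy
        rw [Finset.mem_insert, Finset.mem_sdiff, QUB.gs_rm, Finset.mem_erase]
        by_cases h : y = w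
        · exact Or.inl h
        · exact Or.inr ⟨⟨h, (Finset.mem_sdiff.1 hy).1⟩, (Finset.mem_sdiff.1 hy).2⟩
      have h2 := (Finset.card_le_card h1).trans (Finset.card_insert_le _ _)
      omega
  have a2 := lam_rm_le hr (t := t) hwG hJw
  have a3 : 2 ≤ QUB.lam r (rm s j p) (J.erase j) := by
    refine th j hjG s (J.erase j) ?_ ?_ ?_
    · rw [QUB.gs_rm]; exact Finset.erase_subset_erase _ hJ
    · rw [Finset.card_erase_of_mem hj]; omega
    · have h1 : gs p \ J ⊆ gs (rm s j p) \ J.erase j := by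
        intro y hy
        have h2 := (Finset.mem_sdiff.1 hy).2
        rw [Finset.mem_sdiff, QUB.gs_rm, Finset.mem_erase]
        exact ⟨⟨fun h => h2 (h ▸ hj), (Finset.mem_sdiff.1 hy).1⟩, fun h => h2 (Finset.mem_of_mem_erase h)⟩
      have h3 := Finset.card_le_card h1
      omega
  have a4 := lam_L5 hr hp (s := s) (t := t) (w := j) (e := w) (A := J.erase j) hjG hwG hjw.symm (by
    intro y hy
    rw [Finset.mem_erase, Finset.mem_erase]
    exact ⟨fun h => hwJ (h ▸ Finset.mem_of_mem_erase hy), Finset.ne_of_mem_erase hy, hJ (Finset.mem_of_mem_erase hy)⟩)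
  rw [Finset.insert_erase hj] at a4
  rw [rm_comm s t]
  exact ⟨by omega, by omega⟩

/-- subsets of the other side -/
private theorem sp_two (hr : Rk r) {p : Itv E} (hp : p.1 ⊆ p.2) (th : ∀ w ∈ gs p, ∀ s : Bool, Th3 r (rm s w p)) {J : Finset E}
    (hJ : J ⊆ gs p) (hl : QUB.lam r p J ≤ 2) (j3 : 3 ≤ J.card) (w3 : 3 ≤ (gs p \ J).card) {j w : E} (hj : j ∈ J)
    (hw : w ∈ gs p \ J) (s t : Bool) {S : Finset E} (hS : S ⊆ (gs p \ J).erase w) (h2 : 2 ≤ S.card) :
    2 ≤ QUB.lam r (rm s j (rm t w p)) S := by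
  obtain ⟨b1, b2⟩ := sp_one hr hp th hJ hl j3 w3 hj hw s t
  have hjG := hJ hj
  have hwG := (Finset.mem_sdiff.1 hw).1
  have hwJ := (Finset.mem_sdiff.1 hw).2
  have hjw : j ≠ w := fun h => hwJ (h ▸ hj)
  have wf1 : (rm t w p).1 ⊆ (rm t w p).2 := QUB.wf_rm hp hwG
  have hjQ : j ∈ gs (rm t w p) := by rw [QUB.gs_rm]; exact Finset.mem_erase.2 ⟨hjw, hjG⟩
  have wf2 : (rm s j (rm t w p)).1 ⊆ (rm s j (rm t w p)).2 := QUB.wf_rm wf1 hjQ
  have hBS : (gs p \ J).erase w ⊆ (gs (rm t w p)).erase j := by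
    intro y hy
    rw [Finset.mem_erase, Finset.mem_sdiff] at hy
    rw [QUB.gs_rm, Finset.mem_erase, Finset.mem_erase]
    exact ⟨fun h => hy.2.2 (h ▸ hj), hy.1, hy.2.1⟩
  have c1 := lam_L3 hr (t := s) hjQ hS hBS
  have e1 : (gs p \ J).erase w = gs (rm t w p) \ J := by
    ext y
    rw [Finset.mem_erase, Finset.mem_sdiff, Finset.mem_sdiff, QUB.gs_rm, Finset.mem_erase]
    tauto
  have e2 : (gs p \ J).erase w = gs (rm s j (rm t w p)) \ J.erase j := by
    ext y
    rw [Finset.mem_erase, Finset.mem_sdiff, Finset.mem_sdiff, QUB.gs_rm, QUB.gs_rm, Finset.mem_erase, Finset.mem_erase, Finset.mem_erase]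
    constructor
    · rintro ⟨a, b, c⟩
      exact ⟨⟨fun h => c (h ▸ hj), a, b⟩, fun h => c h.2⟩
    · rintro ⟨⟨a, b, c⟩, d⟩
      exact ⟨b, c, fun h => d ⟨a, h⟩⟩
  have c2 : QUB.lam r (rm t w p) ((gs p \ J).erase w) = 2 := by
    rw [e1, lam_compl r wf1 (by rw [QUB.gs_rm]; exact fun y hy => Finset.mem_erase.2 ⟨fun h => hwJ (h ▸ hy), hJ hy⟩), b2]
  have c3 : 2 ≤ QUB.lam r (rm s j (rm t w p)) ((gs p \ J).erase w) := by
    rw [e2, lam_compl r wf2 (by rw [QUB.gs_rm, QUB.gs_rm]; exact fun y hy => Finset.mem_erase.2 ⟨Finset.ne_of_mem_erase hy,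
      Finset.mem_erase.2 ⟨fun h => hwJ (h ▸ Finset.mem_of_mem_erase hy), hJ (Finset.mem_of_mem_erase hy)⟩⟩)]
    exact b1
  have c4 : 2 ≤ QUB.lam r (rm t w p) S := by
    refine th w hwG t S (by rw [e1] at hS; exact hS.trans Finset.sdiff_subset) h2 ?_
    have h3 : J ⊆ gs (rm t w p) \ S := by
      intro y hy
      rw [Finset.mem_sdiff, QUB.gs_rm, Finset.mem_erase]
      refine ⟨⟨fun h => hwJ (h ▸ hy), hJ hy⟩, fun h => ?_⟩
      exact (Finset.mem_sdiff.1 (Finset.mem_of_mem_erase (hS h))).2 hy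
    have h4 := Finset.card_le_card h3
    omega
  omega

/-- pairs across a separation of order two -/
theorem sep3 (hr : Rk r) {p : Itv E} (hp : p.1 ⊆ p.2) (th : ∀ w ∈ gs p, ∀ s : Bool, Th3 r (rm s w p)) {J : Finset E}
    (hJ : J ⊆ gs p) (hl : QUB.lam r p J ≤ 2) (j4 : 4 ≤ J.card) (w4 : 4 ≤ (gs p \ J).card) {j w : E} (hj : j ∈ J)
    (hw : w ∈ gs p \ J) (s t : Bool) : Sm r (rm s j (rm t w p)) := by
  obtain ⟨b1, b2⟩ := sp_one hr hp th hJ hl (by omega) (by omega) hj hw s t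
  have hjG := hJ hj
  have hwG := (Finset.mem_sdiff.1 hw).1
  have hwJ := (Finset.mem_sdiff.1 hw).2
  have hjw : j ≠ w := fun h => hwJ (h ▸ hj)
  have wf1 : (rm t w p).1 ⊆ (rm t w p).2 := QUB.wf_rm hp hwG
  have hjQ : j ∈ gs (rm t w p) := by rw [QUB.gs_rm]; exact Finset.mem_erase.2 ⟨hjw, hjG⟩
  have wf2 : (rm s j (rm t w p)).1 ⊆ (rm s j (rm t w p)).2 := QUB.wf_rm wf1 hjQ
  have hJ' : J.erase j ⊆ gs (rm s j (rm t w p)) := by
    rw [QUB.gs_rm, QUB.gs_rm]
    exact fun y hy => Finset.mem_erase.2 ⟨Finset.ne_of_mem_erase hy,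
      Finset.mem_erase.2 ⟨fun h => hwJ (h ▸ Finset.mem_of_mem_erase hy), hJ (Finset.mem_of_mem_erase hy)⟩⟩
  have e2 : gs (rm s j (rm t w p)) \ J.erase j = (gs p \ J).erase w := by
    ext y
    rw [Finset.mem_erase, Finset.mem_sdiff, Finset.mem_sdiff, QUB.gs_rm, QUB.gs_rm, Finset.mem_erase, Finset.mem_erase, Finset.mem_erase]
    constructor
    · rintro ⟨⟨a, b, c⟩, d⟩
      exact ⟨b, c, fun h => d ⟨a, h⟩⟩
    · rintro ⟨a, b, c⟩
      exact ⟨⟨fun h => c (h ▸ hj), a, b⟩, fun h => c h.2⟩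
  have hdd : gs p \ (gs p \ J) = J := Finset.sdiff_sdiff_eq_self hJ
  refine sm_of hr wf2 hJ' ?_ (by rw [Finset.card_erase_of_mem hj]; omega) (by rw [e2, Finset.card_erase_of_mem hw]; omega) ?_ ?_
  · have h1 := lam_rm_le' hr wf1 (t := s) hjQ (A := J.erase j) (by
      rw [QUB.gs_rm]
      exact fun y hy => Finset.mem_erase.2 ⟨Finset.ne_of_mem_erase hy,
        Finset.mem_erase.2 ⟨fun h => hwJ (h ▸ Finset.mem_of_mem_erase hy), hJ (Finset.mem_of_mem_erase hy)⟩⟩)
    rw [Finset.insert_erase hj] at h1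
    omega
  · intro S hS h2
    rw [rm_comm s t]
    refine sp_two hr hp th (J := gs p \ J) Finset.sdiff_subset (by rw [lam_compl r hp hJ]; exact hl) (by omega) (by rw [hdd]; omega)
      hw (by rw [hdd]; exact hj) t s (S := S) (by rw [hdd]; exact hS) h2
  · intro S hS h2
    rw [e2] at hS
    exact sp_two hr hp th hJ hl (by omega) (by omega) hj hw s t hS h2

/-- no element of a side is in the closure or coclosure of the other side -/
theorem sep3_ng (hr : Rk r) {p : Itv E} (hp : p.1 ⊆ p.2) (th : ∀ w ∈ gs p, ∀ s : Bool, Th3 r (rm s w p)) {J : Finset E}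
    (hJ : J ⊆ gs p) (hl : QUB.lam r p J ≤ 2) (j3 : 3 ≤ J.card) (w3 : 3 ≤ (gs p \ J).card) {w : E} (hw : w ∈ gs p \ J) (t : Bool) :
    QUB.lam r (rm t w p) J = 2 := by
  obtain ⟨j, hj⟩ := Finset.card_pos.1 (by omega : 0 < J.card)
  exact (sp_one hr hp th hJ hl j3 w3 hj hw true t).2

end

end Pool.Agent.QU
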