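import Pool.Agent.QUR.TyP

/-!
# QUR/TyV5: the other side `W = Y - Z` of a dirty pair; the case of five elements
-/

set_option autoImplicit false

open QUB

namespace Pool.Agent.QU

variable {E : Type} [DecidableEq E]

namespace Ty

variable {ρ : Finset E → ℤ} {R : ℤ} {u v x y z : E} {Y Z : Finset E}

/-- `y` is spanned by `z + W` -/
theorem d_yz (h : Ty ρ R u v x y z Y) (d : Dirty ρ R u v x y z Y Z) :
    ρ (insert y (insert z (Y \ Z))) = ρ (insert z (Y \ Z)) := by
  have hs := d.sep
  have hW2 := d.two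
  have e1 := h.md x h.xG (insert y (insert u (insert v Z))) (insert z (Y \ Z)) {u, v} (Y \ Z) (by
    intro w hw hwx
    rcases mem_gT.1 hw with rfl | rfl | rfl | rfl | rfl | hw
    · left; simp
    · left; simp
    · exact absurd rfl hwx
    · left; simp
    · right; simp
    · by_cases hwZ : w ∈ Z
      · left; simp [hwZ]
      · right; simp [hwZ, hw]) (by rw [Finset.card_pair h.uv]) (by
    intro w hw
    simp only [Finset.mem_insert, Finset.mem_singleton] at hw
    rcases hw with rfl | rfl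
    · refine ⟨h.uG, h.ux, ?_⟩
      simp [h.uz, h.uY]
    · refine ⟨h.vG, h.vx, ?_⟩
      simp [h.vz, h.vY]) hW2 (by
    intro w hw
    obtain ⟨h1, h2⟩ := Finset.mem_sdiff.1 hw
    refine ⟨h.YG h1, fun h' => h.xY (h' ▸ h1), ?_⟩
    simp only [Finset.mem_insert, not_or]
    exact ⟨fun h' => h.yY (h' ▸ h1), fun h' => h.uY (h' ▸ h1), fun h' => h.vY (h' ▸ h1), h2⟩)
  have e2 := h.rk.mono (insert z (Y \ Z)) (insert y (insert z (Y \ Z))) (Finset.subset_insert _ _)
  omega

/-- `z` is not spanned by `W` -/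
theorem d_z (h : Ty ρ R u v x y z Y) : ρ (insert z (Y \ Z)) = ρ (Y \ Z) + 1 :=
  h.nz (Finset.sdiff_subset.trans (Finset.subset_insert _ _))

/-- the complement of `W` -/
theorem d_compl (h : Ty ρ R u v x y z Y) (d : Dirty ρ R u v x y z Y Z) :
    gT u v x y z Y \ (Y \ Z) = insert z (insert x (insert y (insert u (insert v Z)))) := by
  have hZ := d.sub
  ext w
  simp only [Finset.mem_sdiff, mem_gT, Finset.mem_insert, not_and, not_not]
  constructor
  · rintro ⟨h1, h2⟩
    by_cases h3 : w ∈ Y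
    · have := h2 h3
      tauto
    · tauto
  · rintro (rfl | rfl | rfl | rfl | rfl | h1)
    · exact ⟨by tauto, fun h' => absurd h' h.zY⟩
    · exact ⟨by tauto, fun h' => absurd h' h.xY⟩
    · exact ⟨by tauto, fun h' => absurd h' h.yY⟩
    · exact ⟨by tauto, fun h' => absurd h' h.uY⟩
    · exact ⟨by tauto, fun h' => absurd h' h.vY⟩
    · exact ⟨by have := hZ h1; tauto, fun _ => h1⟩

/-- `W` is a 3-separating set -/
theorem d_lam (h : Ty ρ R u v x y z Y) (d : Dirty ρ R u v x y z Y Z) :
    ρ (Y \ Z) + ρ (gT u v x y z Y \ (Y \ Z)) ≤ R + 2 := by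
  have hs := d.sep
  have e1 := h.d_yz d
  have e2 := h.d_z (Z := Z)
  rw [h.d_compl d]
  have e3 : ρ (insert z (insert x (insert y (insert u (insert v Z))))) = ρ (insert x (insert y (insert u (insert v Z)))) :=
    h.cz (by simp) (by simp) (by simp)
  have e4 := h.rk.unit (insert y (insert u (insert v Z))) x
  omega

/-- `v` is not spanned by `W` -/
theorem d_v (h : Ty ρ R u v x y z Y) (d : Dirty ρ R u v x y z Y Z) : ρ (insert v (Y \ Z)) = ρ (Y \ Z) + 1 := by
  have e1 := h.d_lam d
  rw [h.d_compl d] at e1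
  have e2 := h.mc v h.vG (Y \ Z) (insert z (insert x (insert y (insert u Z)))) (Y \ Z) {x, y} (by
    intro w hw hwx
    rcases mem_gT.1 hw with rfl | rfl | rfl | rfl | rfl | hw
    · right; simp
    · exact absurd rfl hwx
    · right; simp
    · right; simp
    · right; simp
    · by_cases hwZ : w ∈ Z
      · right; simp [hwZ]
      · left; simp [hwZ, hw]) d.two (by
    intro w hw
    obtain ⟨h1, h2⟩ := Finset.mem_sdiff.1 hw
    refine ⟨h.YG h1, fun h' => h.vY (h' ▸ h1), ?_⟩
    simp only [Finset.mem_insert, not_or]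
    exact ⟨fun h' => h.zY (h' ▸ h1), fun h' => h.xY (h' ▸ h1), fun h' => h.yY (h' ▸ h1), fun h' => h.uY (h' ▸ h1), h2⟩)
    (by rw [Finset.card_pair h.xy]) (by
    intro w hw
    simp only [Finset.mem_insert, Finset.mem_singleton] at hw
    rcases hw with rfl | rfl
    · exact ⟨h.xG, h.vx.symm, fun h' => h.xY (Finset.mem_sdiff.1 h').1⟩
    · exact ⟨h.yG, h.vy.symm, fun h' => h.yY (Finset.mem_sdiff.1 h').1⟩)
  have e3 : insert v (insert z (insert x (insert y (insert u Z)))) = insert z (insert x (insert y (insert u (insert v Z)))) := by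
    ext w
    simp only [Finset.mem_insert]
    tauto
  rw [e3] at e2
  have e4 := h.rk.unit (Y \ Z) v
  omega

/-- `W` has not three elements -/
theorem d_ne3 (h : Ty ρ R u v x y z Y) (d : Dirty ρ R u v x y z Y Z) : (Y \ Z).card ≠ 3 := by
  intro h3
  have e1 := h.d_lam d
  have hs : Y \ Z ⊆ gT u v x y z Y := fun w hw => h.YG (Finset.mem_sdiff.1 hw).1
  have e2 := h.i3 (Y \ Z) hs (by omega)
  have e3 := h.d3 (Y \ Z) hs (by omega)
  rw [h3] at e2
  push_cast at e2
  omega

/-- `v` is not spanned by `W + y + z` -/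
theorem d_v' (h : Ty ρ R u v x y z Y) (d : Dirty ρ R u v x y z Y Z) {A : Finset E} (hA : A ⊆ insert y (insert z (Y \ Z))) :
    ρ (insert v A) = ρ A + 1 := by
  have e1 := QUB.marg h.rk hA v
  have e2 := h.rk.unit A v
  have e3 := h.d_yz d
  have e4 := h.d_z (Z := Z)
  have e5 := h.d_v d
  have e6 : ρ (insert z (insert v (Y \ Z))) = ρ (insert v (Y \ Z)) + 1 := h.nz (Finset.insert_subset_insert _ Finset.sdiff_subset)
  have e7 := h.rk.mono (insert z (insert v (Y \ Z))) (insert v (insert y (insert z (Y \ Z)))) (by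
    intro w hw
    simp only [Finset.mem_insert] at hw ⊢
    tauto)
  omega

/-- **five elements of rank three** -/
theorem five (h : Ty ρ R u v x y z Y) (d : Dirty ρ R u v x y z Y Z) (h5 : (Y \ Z).card = 5) (h3 : ρ (Y \ Z) = 3) :
    ∃ a ∈ Y \ Z, ρ {v, z, a} = 3 ∧ ρ (insert y ((Y \ Z).erase a) ∪ {v, z, a}) = 5 ∧
      ∀ i ∈ insert y ((Y \ Z).erase a), ∀ j ∈ insert y ((Y \ Z).erase a), i ≠ j → ρ ({i, j} ∪ {v, z, a}) = 5 := by
  set W := Y \ Z with hW
  have hWY : W ⊆ Y := Finset.sdiff_subset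
  have hWG : ∀ w ∈ W, w ∈ gT u v x y z Y := fun w hw => h.YG (hWY hw)
  have nzW : ∀ w ∈ W, w ≠ z := fun w hw h' => h.zY (h' ▸ hWY hw)
  have nyW : ∀ w ∈ W, w ≠ y := fun w hw h' => h.yY (h' ▸ hWY hw)
  -- uniqueness of the partner
  have uni : ∀ a ∈ W, ∀ p ∈ W, ∀ p' ∈ W, a ≠ p → a ≠ p' → p ≠ p' → ρ {z, y, a, p} ≤ 3 → ρ {z, y, a, p'} ≤ 3 → False := by
    intro a ha p hp p' hp' n1 n2 n3 b1 b2
    have e1 := h.rk.sub {z, y, a, p} {z, y, a, p'}
    have e2 := h.rk.mono {z, y, a} ({z, y, a, p} ∩ {z, y, a, p'}) (by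
      intro w hw
      simp only [Finset.mem_insert, Finset.mem_singleton, Finset.mem_inter] at hw ⊢
      tauto)
    have e3 := h.three h.zG h.yG (hWG a ha) h.yz.symm (nzW a ha).symm (nyW a ha).symm
    have e4 := h.rk.mono {z, a, p, p'} ({z, y, a, p} ∪ {z, y, a, p'}) (by
      intro w hw
      simp only [Finset.mem_insert, Finset.mem_singleton, Finset.mem_union] at hw ⊢
      tauto)
    have e5 : ρ {z, a, p, p'} = ρ {a, p, p'} + 1 := h.nz (by
      intro w hw
      simp only [Finset.mem_insert, Finset.mem_singleton] at hw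
      rcases hw with rfl | rfl | rfl
      · exact Finset.mem_insert_of_mem (hWY ha)
      · exact Finset.mem_insert_of_mem (hWY hp)
      · exact Finset.mem_insert_of_mem (hWY hp'))
    have e6 := h.three (hWG a ha) (hWG p hp) (hWG p' hp') n1 n2 n3
    omega
  have sym : ∀ a p : E, ρ {z, y, a, p} ≤ 3 → ρ {z, y, p, a} ≤ 3 := by
    intro a p hb
    rw [show ({z, y, p, a} : Finset E) = {z, y, a, p} by
      ext w
      simp only [Finset.mem_insert, Finset.mem_singleton]
      tauto]
    exact hb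
  -- an element without a partner
  obtain ⟨a, ha, hno⟩ : ∃ a ∈ W, ∀ p ∈ W, a ≠ p → 4 ≤ ρ {z, y, a, p} := by
    by_contra hcon
    push Not at hcon
    have hne : W.Nonempty := Finset.card_pos.1 (by omega)
    obtain ⟨a1, m1⟩ := hne
    obtain ⟨p1, n1, q1, b1⟩ := hcon a1 m1
    obtain ⟨a3, m3, hm3⟩ : ∃ a3 ∈ W, a3 ∉ ({a1, p1} : Finset E) := by
      by_contra hc
      push Not at hc
      have := Finset.card_le_card (fun w hw => hc w hw : W ⊆ {a1, p1})
      have := Finset.card_le_two (a := a1) (b := p1)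
      omega
    simp only [Finset.mem_insert, Finset.mem_singleton, not_or] at hm3
    obtain ⟨p3, n3, q3, b3⟩ := hcon a3 m3
    obtain ⟨a5, m5, hm5⟩ : ∃ a5 ∈ W, a5 ∉ ({a1, p1, a3, p3} : Finset E) := by
      by_contra hc
      push Not at hc
      have h1 := Finset.card_le_card (fun w hw => hc w hw : W ⊆ {a1, p1, a3, p3})
      have h2 := Finset.card_le_four (a := a1) (b := p1) (c := a3) (d := p3)
      omega
    simp only [Finset.mem_insert, Finset.mem_singleton, not_or] at hm5
    obtain ⟨p5, n5, q5, b5⟩ := hcon a5 m5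
    have part : ∀ a ∈ W, ∀ p ∈ W, ∀ p' ∈ W, a ≠ p → a ≠ p' → ρ {z, y, a, p} ≤ 3 → ρ {z, y, a, p'} ≤ 3 → p = p' := by
      intro a ha p hp p' hp' c1 c2 c3 c4
      by_contra hne
      exact uni a ha p hp p' hp' c1 c2 hne c3 c4
    have b1' : ρ {z, y, a1, p1} ≤ 3 := by omega
    have b3' : ρ {z, y, a3, p3} ≤ 3 := by omega
    have b5' : ρ {z, y, a5, p5} ≤ 3 := by omega
    have c31 : p3 ≠ a1 := fun h' => hm3.2 (part a1 m1 a3 m3 p1 n1 (fun h'' => hm3.1 h''.symm) q1 (sym _ _ (h' ▸ b3')) b1')
    have c3p : p3 ≠ p1 := fun h' => hm3.1 (part p1 n1 a3 m3 a1 m1 (fun h'' => hm3.2 h''.symm) q1.symm (sym _ _ (h' ▸ b3')) (sym _ _ b1'))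
    have c51 : p5 ≠ a1 := fun h' => hm5.2.1 (part a1 m1 a5 m5 p1 n1 (fun h'' => hm5.1 h''.symm) q1 (sym _ _ (h' ▸ b5')) b1')
    have c5p : p5 ≠ p1 := fun h' => hm5.1 (part p1 n1 a5 m5 a1 m1 (fun h'' => hm5.2.1 h''.symm) q1.symm (sym _ _ (h' ▸ b5')) (sym _ _ b1'))
    have c53 : p5 ≠ a3 := fun h' => hm5.2.2.2 (part a3 m3 a5 m5 p3 n3 (fun h'' => hm5.2.2.1 h''.symm) q3 (sym _ _ (h' ▸ b5')) b3')
    have c5q : p5 ≠ p3 := fun h' => hm5.2.2.1 (part p3 n3 a5 m5 a3 m3 (fun h'' => hm5.2.2.2 h''.symm) q3.symm (sym _ _ (h' ▸ b5'))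
      (sym _ _ b3'))
    have hsub : ({a1, p1, a3, p3, a5, p5} : Finset E) ⊆ W := by
      intro w hw
      simp only [Finset.mem_insert, Finset.mem_singleton] at hw
      rcases hw with rfl | rfl | rfl | rfl | rfl | rfl <;> assumption
    have hcard : ({a1, p1, a3, p3, a5, p5} : Finset E).card = 6 := by
      have d1 := hm3.1
      have d2 := hm3.2
      have d3 := hm5.1
      have d4 := hm5.2.1
      have d5 := hm5.2.2.1
      have d6 := hm5.2.2.2
      rw [Finset.card_insert_of_notMem, Finset.card_insert_of_notMem, Finset.card_insert_of_notMem, Finset.card_insert_of_notMem,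
        Finset.card_insert_of_notMem, Finset.card_singleton]
      · simpa using q5
      · simp only [Finset.mem_insert, Finset.mem_singleton, not_or]
        exact ⟨Ne.symm d6, Ne.symm c5q⟩
      · simp only [Finset.mem_insert, Finset.mem_singleton, not_or]
        exact ⟨q3, Ne.symm d5, Ne.symm c53⟩
      · simp only [Finset.mem_insert, Finset.mem_singleton, not_or]
        exact ⟨Ne.symm d2, Ne.symm c3p, Ne.symm d4, Ne.symm c5p⟩
      · simp only [Finset.mem_insert, Finset.mem_singleton, not_or]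
        exact ⟨q1, Ne.symm d1, Ne.symm c31, Ne.symm d3, Ne.symm c51⟩
    have := Finset.card_le_card hsub
    omega
  refine ⟨a, ha, h.three h.vG h.zG (hWG a ha) h.vz (fun h' => h.vY (h' ▸ hWY ha)) (nzW a ha).symm, ?_, ?_⟩
  · have e1 : insert y (W.erase a) ∪ {v, z, a} = insert v (insert y (insert z W)) := by
      ext w
      simp only [Finset.mem_union, Finset.mem_insert, Finset.mem_erase, Finset.mem_singleton]
      constructor
      · rintro ((h1 | h1) | h1 | h1 | h1)
        · exact Or.inr (Or.inl h1)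
        · exact Or.inr (Or.inr (Or.inr h1.2))
        · exact Or.inl h1
        · exact Or.inr (Or.inr (Or.inl h1))
        · exact Or.inr (Or.inr (Or.inr (h1 ▸ ha)))
      · rintro (h1 | h1 | h1 | h1)
        · exact Or.inr (Or.inl h1)
        · exact Or.inl (Or.inl h1)
        · exact Or.inr (Or.inr (Or.inl h1))
        · by_cases h2 : w = a
          · exact Or.inr (Or.inr (Or.inr h2))
          · exact Or.inl (Or.inr ⟨h2, h1⟩)
    have h3' : ρ (Y \ Z) = 3 := h3
    rw [e1, h.d_v' d (Finset.Subset.refl _), h.d_yz d, h.d_z]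
    omega
  · intro i hi j hj hij
    have hin : ∀ w ∈ insert y (W.erase a), w = y ∨ (w ∈ W ∧ w ≠ a) := by
      intro w hw
      rcases Finset.mem_insert.1 hw with h1 | h1
      · exact Or.inl h1
      · exact Or.inr ⟨Finset.mem_of_mem_erase h1, Finset.ne_of_mem_erase h1⟩
    have key : ∀ p ∈ W, p ≠ a → ρ ({y, p} ∪ {v, z, a}) = 5 := by
      intro p hp hpa
      have e1 : ({y, p} : Finset E) ∪ {v, z, a} = insert v {z, y, a, p} := by
        ext w
        simp only [Finset.mem_union, Finset.mem_insert, Finset.mem_singleton]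
        tauto
      have e2 := hno a ha
      have e3 := hno p hp hpa.symm
      have e4 := h.rk.unit {y, a, p} z
      have e5 := h.three h.yG (hWG a ha) (hWG p hp) (nyW a ha).symm (nyW p hp).symm hpa.symm
      rw [e1, h.d_v' d]
      · have e6 : insert z ({y, a, p} : Finset E) = {z, y, a, p} := rfl
        rw [e6] at e4
        omega
      · intro w hw
        simp only [Finset.mem_insert, Finset.mem_singleton] at hw ⊢
        rcases hw with rfl | rfl | rfl | rfl
        · exact Or.inr (Or.inl rfl)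
        · exact Or.inl rfl
        · exact Or.inr (Or.inr ha)
        · exact Or.inr (Or.inr hp)
    rcases hin i hi with h1 | ⟨h1, h1'⟩ <;> rcases hin j hj with h2 | ⟨h2, h2'⟩
    · exact absurd (h1.trans h2.symm) hij
    · rw [h1]
      exact key j h2 h2'
    · rw [h2, Finset.pair_comm]
      exact key i h1 h1'
    · have e1 : ({i, j} : Finset E) ∪ {v, z, a} = insert v (insert z {a, i, j}) := by
        ext w
        simp only [Finset.mem_union, Finset.mem_insert, Finset.mem_singleton]
        tauto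
      have e2 := h.three (hWG a ha) (hWG i h1) (hWG j h2) (Ne.symm h1') (Ne.symm h2') hij
      have e3 : ρ (insert z {a, i, j}) = ρ {a, i, j} + 1 := h.nz (by
        intro w hw
        simp only [Finset.mem_insert, Finset.mem_singleton] at hw
        rcases hw with rfl | rfl | rfl
        · exact Finset.mem_insert_of_mem (hWY ha)
        · exact Finset.mem_insert_of_mem (hWY h1)
        · exact Finset.mem_insert_of_mem (hWY h2))
      rw [e1, h.d_v' d, e3, e2]
      · rfl
      · intro w hw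
        simp only [Finset.mem_insert, Finset.mem_singleton] at hw ⊢
        rcases hw with rfl | rfl | rfl | rfl
        · exact Or.inr (Or.inl rfl)
        · exact Or.inr (Or.inr ha)
        · exact Or.inr (Or.inr h1)
        · exact Or.inr (Or.inr h2)

end Ty

end Pool.Agent.QU
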