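import Pool.Agent.QUR.TyH
import Pool.Agent.QUR.TyV5
import Pool.Agent.QUR.Sep

/-!
# QUR/TySep: the elements of `W = Y - Z` are good if there are at least four of them

`W` is one side of a separation of order two, so the pairs across it are clean (`sep3`).
-/

set_option autoImplicit false

open QUB

namespace Pool.Agent.QU

open Pool.Agent.FRM

variable {E : Type} [DecidableEq E]

namespace Ty

variable {ρ : Finset E → ℤ} {R : ℤ} {u v x y z : E} {Y Z : Finset E}

/-- all single removals are 3-connected -/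
private theorem ts_th (h : Ty ρ R u v x y z Y) : ∀ w ∈ gs ((∅, gT u v x y z Y) : Itv E), ∀ s : Bool,
    Th3 ρ (rm s w ((∅, gT u v x y z Y) : Itv E)) := by
  intro w hw s A hA h1 h2
  have hwG : w ∈ gT u v x y z Y := by
    simpa [QUB.gs] using hw
  rw [QUB.gs_rm] at hA h2
  have g0 : gs ((∅, gT u v x y z Y) : Itv E) = gT u v x y z Y := by
    simp [QUB.gs]
  rw [g0] at hA h2
  have c1 : ∀ t ∈ gT u v x y z Y, t ≠ w → t ∈ A ∨ t ∈ (gT u v x y z Y).erase w \ A := by
    intro t ht htw
    by_cases h3 : t ∈ A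
    · exact Or.inl h3
    · exact Or.inr (Finset.mem_sdiff.2 ⟨Finset.mem_erase.2 ⟨htw, ht⟩, h3⟩)
  have c2 : ∀ t ∈ A, t ∈ gT u v x y z Y ∧ t ≠ w ∧ t ∉ (gT u v x y z Y).erase w \ A := fun t ht =>
    ⟨Finset.mem_of_mem_erase (hA ht), Finset.ne_of_mem_erase (hA ht), fun h' => (Finset.mem_sdiff.1 h').2 ht⟩
  have c3 : ∀ t ∈ (gT u v x y z Y).erase w \ A, t ∈ gT u v x y z Y ∧ t ≠ w ∧ t ∉ A := fun t ht =>
    ⟨Finset.mem_of_mem_erase (Finset.mem_sdiff.1 ht).1, Finset.ne_of_mem_erase (Finset.mem_sdiff.1 ht).1, (Finset.mem_sdiff.1 ht).2⟩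
  have e0 := h.rk.empty
  have e1 := h.one hwG
  have e2 : ρ ((gT u v x y z Y).erase w) = R := by
    have a1 := h.d3 {w} (by
      intro t ht
      rw [Finset.mem_singleton] at ht
      rw [ht]; exact hwG) (by rw [Finset.card_singleton]; norm_num)
    rw [← a1, Finset.sdiff_singleton_eq_erase]
  have e3 := h.rG
  cases s
  · have a1 := h.mc w hwG A ((gT u v x y z Y).erase w \ A) A ((gT u v x y z Y).erase w \ A) c1 h1 c2 h2 c3
    have a2 : insert w ((gT u v x y z Y).erase w \ A) = gT u v x y z Y \ A := by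
      ext t
      simp only [Finset.mem_insert, Finset.mem_sdiff, Finset.mem_erase]
      constructor
      · rintro (rfl | ⟨⟨h3, h4⟩, h5⟩)
        · exact ⟨hwG, fun h' => Finset.ne_of_mem_erase (hA h') rfl⟩
        · exact ⟨h4, h5⟩
      · rintro ⟨h3, h4⟩
        by_cases h5 : t = w
        · exact Or.inl h5
        · exact Or.inr ⟨⟨h5, h3⟩, h4⟩
    have a3 : QUB.lam ρ (rm false w ((∅, gT u v x y z Y) : Itv E)) A
        = ρ (insert w ∅ ∪ A) + ρ (gT u v x y z Y \ A) - ρ (gT u v x y z Y) - ρ (insert w ∅) := rfl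
    have a4 : (insert w ∅ : Finset E) = {w} := rfl
    rw [a3, a4, ← Finset.insert_eq]
    rw [a2] at a1
    omega
  · have a1 := h.md w hwG A ((gT u v x y z Y).erase w \ A) A ((gT u v x y z Y).erase w \ A) c1 h1 c2 h2 c3
    have a3 : QUB.lam ρ (rm true w ((∅, gT u v x y z Y) : Itv E)) A
        = ρ (∅ ∪ A) + ρ ((gT u v x y z Y).erase w \ A) - ρ ((gT u v x y z Y).erase w) - ρ ∅ := rfl
    rw [a3, Finset.empty_union]
    omega

/-- the pairs across the separation -/
private theorem ts_sm (h : Ty ρ R u v x y z Y) (d : Dirty ρ R u v x y z Y Z) (h4 : 4 ≤ (Y \ Z).card) {j w : E}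
    (hj : j ∈ gT u v x y z Y) (hjY : j ∉ Y) (hw : w ∈ Y \ Z) (s t : Bool) :
    Sm ρ (rm s j (rm t w ((∅, gT u v x y z Y) : Itv E))) := by
  have g0 : gs ((∅, gT u v x y z Y) : Itv E) = gT u v x y z Y := by
    simp [QUB.gs]
  have hWG : Y \ Z ⊆ gT u v x y z Y := fun w hw => h.YG (Finset.mem_sdiff.1 hw).1
  have hcc : gT u v x y z Y \ (gT u v x y z Y \ (Y \ Z)) = Y \ Z := Finset.sdiff_sdiff_eq_self hWG
  refine sep3 (J := gT u v x y z Y \ (Y \ Z)) h.rk (Finset.empty_subset _) h.ts_th (by rw [g0]; exact Finset.sdiff_subset) ?_ ?_ ?_ ?_ ?_ s t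
  · have a1 : QUB.lam ρ ((∅, gT u v x y z Y) : Itv E) (gT u v x y z Y \ (Y \ Z))
        = ρ (∅ ∪ (gT u v x y z Y \ (Y \ Z))) + ρ (gT u v x y z Y \ (gT u v x y z Y \ (Y \ Z))) - ρ (gT u v x y z Y) - ρ ∅ := rfl
    rw [a1, Finset.empty_union, hcc]
    have e0 := h.rk.empty
    have e1 := h.rG
    have e2 := h.d_lam d
    omega
  · have a1 : ({u, v, x, y} : Finset E) ⊆ gT u v x y z Y \ (Y \ Z) := by
      intro t ht
      simp only [Finset.mem_insert, Finset.mem_singleton] at ht
      rw [Finset.mem_sdiff, mem_gT, Finset.mem_sdiff]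
      rcases ht with rfl | rfl | rfl | rfl
      · exact ⟨by tauto, fun h' => h.uY h'.1⟩
      · exact ⟨by tauto, fun h' => h.vY h'.1⟩
      · exact ⟨by tauto, fun h' => h.xY h'.1⟩
      · exact ⟨by tauto, fun h' => h.yY h'.1⟩
    have a2 := Finset.card_le_card a1
    have a3 : ({u, v, x, y} : Finset E).card = 4 := by
      rw [Finset.card_insert_of_notMem, Finset.card_insert_of_notMem, Finset.card_insert_of_notMem, Finset.card_singleton]
      · rw [Finset.mem_singleton]; exact h.xy
      · simp only [Finset.mem_insert, Finset.mem_singleton, not_or]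
        exact ⟨h.vx, h.vy⟩
      · simp only [Finset.mem_insert, Finset.mem_singleton, not_or]
        exact ⟨h.uv, h.ux, h.uy⟩
    omega
  · rw [g0, hcc]
    exact h4
  · exact Finset.mem_sdiff.2 ⟨hj, fun h' => hjY (Finset.mem_sdiff.1 h').1⟩
  · rw [g0, hcc]
    exact hw

/-- `M \ j \ w` -/
theorem ts_dd (h : Ty ρ R u v x y z Y) (d : Dirty ρ R u v x y z Y Z) (h4 : 4 ≤ (Y \ Z).card) {j w : E}
    (hj : j ∈ gT u v x y z Y) (hjY : j ∉ Y) (hw : w ∈ Y \ Z) {A B : Finset E} (hP : Pr (gT u v x y z Y) j w A B)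
    (hA : 3 ≤ A.card) (hB : 3 ≤ B.card) : R + 2 ≤ ρ A + ρ B := by
  have h1 := h.ts_sm d h4 hj hjY hw true true A
  rw [QUB.gs_rm, QUB.gs_rm] at h1
  have g0 : gs ((∅, gT u v x y z Y) : Itv E) = gT u v x y z Y := by
    simp [QUB.gs]
  rw [g0] at h1
  have hwG : w ∈ gT u v x y z Y := h.YG (Finset.mem_sdiff.1 hw).1
  have a0 : A ⊆ ((gT u v x y z Y).erase w).erase j := fun t ht =>
    Finset.mem_erase.2 ⟨fun h' => hP.aA (h' ▸ ht), Finset.mem_erase.2 ⟨fun h' => hP.bA (h' ▸ ht), hP.sA ht⟩⟩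
  have a1 : ((gT u v x y z Y).erase w).erase j \ A = B := by
    ext t
    simp only [Finset.mem_sdiff, Finset.mem_erase]
    constructor
    · rintro ⟨⟨b1, b2, b3⟩, b4⟩
      exact (hP.cov t b3 b1 b2).resolve_left b4
    · intro b1
      exact ⟨⟨fun h' => hP.aB (h' ▸ b1), fun h' => hP.bB (h' ▸ b1), hP.sB b1⟩, fun h' => hP.dis t h' b1⟩
  have a2 : QUB.lam ρ (rm true j (rm true w ((∅, gT u v x y z Y) : Itv E))) A
      = ρ (∅ ∪ A) + ρ (((gT u v x y z Y).erase w).erase j \ A) - ρ (((gT u v x y z Y).erase w).erase j) - ρ ∅ := rfl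
  have a3 : ρ (((gT u v x y z Y).erase w).erase j) = R := by
    rw [← h.d2 hwG hj]
    congr 1
    ext t
    simp only [Finset.mem_erase, Finset.mem_sdiff, Finset.mem_insert, Finset.mem_singleton]
    tauto
  rw [a1] at h1
  rw [a2, a1, a3, Finset.empty_union] at h1
  have e0 := h.rk.empty
  by_contra hcon
  have h2 := h1 a0 (by omega)
  omega

/-- `M \ w / j` -/
theorem ts_dc (h : Ty ρ R u v x y z Y) (d : Dirty ρ R u v x y z Y Z) (h4 : 4 ≤ (Y \ Z).card) {j w : E}
    (hj : j ∈ gT u v x y z Y) (hjY : j ∉ Y) (hw : w ∈ Y \ Z) {A B : Finset E} (hP : Pr (gT u v x y z Y) j w A B)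
    (hA : 2 ≤ A.card) (hB : 2 ≤ B.card) : R + 3 ≤ ρ (insert j A) + ρ (insert j B) := by
  have h1 := h.ts_sm d h4 hj hjY hw false true A
  rw [QUB.gs_rm, QUB.gs_rm] at h1
  have g0 : gs ((∅, gT u v x y z Y) : Itv E) = gT u v x y z Y := by
    simp [QUB.gs]
  rw [g0] at h1
  have hwG : w ∈ gT u v x y z Y := h.YG (Finset.mem_sdiff.1 hw).1
  have hjw : j ≠ w := fun h' => hjY (h' ▸ (Finset.mem_sdiff.1 hw).1)
  have a0 : A ⊆ ((gT u v x y z Y).erase w).erase j := fun t ht =>
    Finset.mem_erase.2 ⟨fun h' => hP.aA (h' ▸ ht), Finset.mem_erase.2 ⟨fun h' => hP.bA (h' ▸ ht), hP.sA ht⟩⟩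
  have a1 : ((gT u v x y z Y).erase w).erase j \ A = B := by
    ext t
    simp only [Finset.mem_sdiff, Finset.mem_erase]
    constructor
    · rintro ⟨⟨b1, b2, b3⟩, b4⟩
      exact (hP.cov t b3 b1 b2).resolve_left b4
    · intro b1
      exact ⟨⟨fun h' => hP.aB (h' ▸ b1), fun h' => hP.bB (h' ▸ b1), hP.sB b1⟩, fun h' => hP.dis t h' b1⟩
  have a1' : (gT u v x y z Y).erase w \ A = insert j B := by
    rw [← a1]
    ext t
    simp only [Finset.mem_sdiff, Finset.mem_erase, Finset.mem_insert]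
    constructor
    · rintro ⟨⟨b1, b2⟩, b3⟩
      by_cases b4 : t = j
      · exact Or.inl b4
      · exact Or.inr ⟨⟨b4, b1, b2⟩, b3⟩
    · rintro (rfl | ⟨⟨b1, b2, b3⟩, b4⟩)
      · exact ⟨⟨hjw, hj⟩, hP.aA⟩
      · exact ⟨⟨b2, b3⟩, b4⟩
  have a2 : QUB.lam ρ (rm false j (rm true w ((∅, gT u v x y z Y) : Itv E))) A
      = ρ (insert j ∅ ∪ A) + ρ ((gT u v x y z Y).erase w \ A) - ρ ((gT u v x y z Y).erase w) - ρ (insert j ∅) := rfl
  have a3 : ρ ((gT u v x y z Y).erase w) = R := by
    have b1 := h.d3 {w} (by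
      intro t ht
      rw [Finset.mem_singleton] at ht
      rw [ht]; exact hwG) (by rw [Finset.card_singleton]; norm_num)
    rw [← b1, Finset.sdiff_singleton_eq_erase]
  have a4 : (insert j ∅ : Finset E) = {j} := rfl
  have e1 := h.one hj
  rw [a1] at h1
  rw [a2, a1', a3, a4, ← Finset.insert_eq, e1] at h1
  by_contra hcon
  have h2 := h1 a0 (by omega)
  -- a side of two elements
  have key : ∀ {A B : Finset E}, Pr (gT u v x y z Y) j w A B → A.card = 2 → R + 3 ≤ ρ (insert j A) + ρ (insert j B) := by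
    intro A B hP hA
    have b1 := h.i3 (insert j A) (by
      intro t ht
      rcases Finset.mem_insert.1 ht with rfl | ht
      · exact hj
      · exact hP.sA ht) (by rw [Finset.card_insert_of_notMem hP.aA]; omega)
    rw [Finset.card_insert_of_notMem hP.aA, hA] at b1
    have b2 := h.d3 (insert w A) (by
      intro t ht
      rcases Finset.mem_insert.1 ht with rfl | ht
      · exact hwG
      · exact hP.sA ht) (by rw [Finset.card_insert_of_notMem hP.bA]; omega)
    have b3 : gT u v x y z Y \ insert w A = insert j B := by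
      ext t
      simp only [Finset.mem_sdiff, Finset.mem_insert, not_or]
      constructor
      · rintro ⟨c1, c2, c3⟩
        by_cases c4 : t = j
        · exact Or.inl c4
        · exact Or.inr ((hP.cov t c1 c4 c2).resolve_left c3)
      · rintro (rfl | c1)
        · exact ⟨hj, hjw, hP.aA⟩
        · exact ⟨hP.sB c1, fun h' => hP.bB (h' ▸ c1), fun h' => hP.dis t h' c1⟩
    rw [b3] at b2
    push_cast at b1
    omega
  rcases h2 with h2 | h2
  · exact hcon (key hP (by omega))
  · have h3 := key hP.symm (by omega)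
    omega

/-- **the elements of `W` are good** -/
theorem gfh_sep (h : Ty ρ R u v x y z Y) (d : Dirty ρ R u v x y z Y Z) (h4 : 4 ≤ (Y \ Z).card) {w : E} (hw : w ∈ Y \ Z) :
    GfH ρ R u v x y z Y w := by
  have hwY := (Finset.mem_sdiff.1 hw).1
  have hwG : w ∈ gT u v x y z Y := h.YG hwY
  have Y5 := h.Y5
  refine ⟨hwY, ?_, ?_, ?_⟩
  · intro A B hc hsA hsB
    have key : ∀ {A B : Finset E}, A ⊆ gT u v x y z Y → B ⊆ gT u v x y z Y → u ∉ A → v ∉ A → w ∉ A → u ∉ B → v ∉ B → w ∉ B →
        (∀ t ∈ gT u v x y z Y, t ≠ u → t ≠ v → t ≠ w → t ∈ A ∨ t ∈ B) → (∀ t ∈ A, t ∉ B) → 2 ≤ A.card → 1 ≤ B.card →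
        R + 2 ≤ ρ (insert v A) + ρ (insert v B) := by
      intro A B hA hB uA vA wA uB vB wB hcov hdis c1 c2
      have e1 := h.ts_dc d h4 h.vG h.vY hw (A := A) (B := insert u B)
        ⟨hA, by
          intro t ht
          rcases Finset.mem_insert.1 ht with rfl | ht
          · exact h.uG
          · exact hB ht, vA, by
          rw [Finset.mem_insert, not_or]
          exact ⟨h.uv.symm, vB⟩, wA, by
          rw [Finset.mem_insert, not_or]
          exact ⟨fun h' => h.uY (h' ▸ hwY), wB⟩, by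
          intro t ht h5 h6
          by_cases h7 : t = u
          · right; rw [h7]; exact Finset.mem_insert_self _ _
          · rcases hcov t ht h7 h5 h6 with h8 | h8
            · exact Or.inl h8
            · exact Or.inr (Finset.mem_insert_of_mem h8), by
          intro t ht h5
          rcases Finset.mem_insert.1 h5 with rfl | h5
          · exact uA ht
          · exact hdis t ht h5⟩ c1 (by
          rw [Finset.card_insert_of_notMem uB]
          omega)
      rw [Finset.insert_comm v u] at e1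
      have e2 := h.rk.unit (insert v B) u
      omega
    obtain ⟨s, s1, s2, s3, s4, s5⟩ := hsA
    obtain ⟨s', t1, t2, t3, t4, t5⟩ := hsB
    set G' := (((gT u v x y z Y).erase u).erase v).erase w with hG'
    have mG' : ∀ t, t ∈ G' ↔ t ∈ gT u v x y z Y ∧ t ≠ u ∧ t ≠ v ∧ t ≠ w := by
      intro t
      rw [hG', Finset.mem_erase, Finset.mem_erase, Finset.mem_erase]
      tauto
    have hcard : 3 ≤ (G' \ B).card + (G' ∩ B).card := by
      have a1 : ({x, y, z} : Finset E) ⊆ G' := by
        intro t ht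
        simp only [Finset.mem_insert, Finset.mem_singleton] at ht
        rw [mG']
        rcases ht with rfl | rfl | rfl
        · exact ⟨h.xG, h.ux.symm, h.vx.symm, fun h' => h.xY (h' ▸ hwY)⟩
        · exact ⟨h.yG, h.uy.symm, h.vy.symm, fun h' => h.yY (h' ▸ hwY)⟩
        · exact ⟨h.zG, h.uz.symm, h.vz.symm, fun h' => h.zY (h' ▸ hwY)⟩
      have a2 := Finset.card_le_card a1
      rw [Finset.card_eq_three.2 ⟨x, y, z, h.xy, h.xz, h.yz, rfl⟩] at a2
      have a3 := Finset.card_inter_add_card_sdiff G' B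
      omega
    have hp1 : 1 ≤ (G' \ B).card := Finset.card_pos.2 ⟨s, Finset.mem_sdiff.2 ⟨(mG' s).2 ⟨s1, s2, s3, s4⟩, s5⟩⟩
    have hp2 : 1 ≤ (G' ∩ B).card := Finset.card_pos.2 ⟨s', Finset.mem_inter.2 ⟨(mG' s').2 ⟨t1, t2, t3, t4⟩,
      (hc s' t1 t2 t3 t4).resolve_left t5⟩⟩
    have hm1 : ρ (insert v (G' \ B)) ≤ ρ (insert v A) := by
      refine h.rk.mono _ _ (Finset.insert_subset_insert _ ?_)
      intro t ht
      obtain ⟨a1, a2⟩ := Finset.mem_sdiff.1 ht
      obtain ⟨a3, a4, a5, a6⟩ := (mG' t).1 a1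
      exact (hc t a3 a4 a5 a6).resolve_right a2
    have hm2 : ρ (insert v (G' ∩ B)) ≤ ρ (insert v B) :=
      h.rk.mono _ _ (Finset.insert_subset_insert _ Finset.inter_subset_right)
    have n1 : ∀ t ∈ G' \ B, t ∈ gT u v x y z Y ∧ t ≠ u ∧ t ≠ v ∧ t ≠ w := fun t ht => (mG' t).1 (Finset.mem_sdiff.1 ht).1
    have n2 : ∀ t ∈ G' ∩ B, t ∈ gT u v x y z Y ∧ t ≠ u ∧ t ≠ v ∧ t ≠ w := fun t ht => (mG' t).1 (Finset.mem_inter.1 ht).1
    by_cases hc2 : 2 ≤ (G' \ B).card
    · have e1 := key (A := G' \ B) (B := G' ∩ B) (fun t ht => (n1 t ht).1) (fun t ht => (n2 t ht).1) (fun h' => (n1 u h').2.1 rfl)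
        (fun h' => (n1 v h').2.2.1 rfl) (fun h' => (n1 w h').2.2.2 rfl) (fun h' => (n2 u h').2.1 rfl)
        (fun h' => (n2 v h').2.2.1 rfl) (fun h' => (n2 w h').2.2.2 rfl) (fun t a1 a2 a3 a4 => by
          by_cases a5 : t ∈ B
          · exact Or.inr (Finset.mem_inter.2 ⟨(mG' t).2 ⟨a1, a2, a3, a4⟩, a5⟩)
          · exact Or.inl (Finset.mem_sdiff.2 ⟨(mG' t).2 ⟨a1, a2, a3, a4⟩, a5⟩))
        (fun t ht h' => (Finset.mem_sdiff.1 ht).2 (Finset.mem_inter.1 h').2) hc2 hp2
      omega
    · have e1 := key (A := G' ∩ B) (B := G' \ B) (fun t ht => (n2 t ht).1) (fun t ht => (n1 t ht).1) (fun h' => (n2 u h').2.1 rfl)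
        (fun h' => (n2 v h').2.2.1 rfl) (fun h' => (n2 w h').2.2.2 rfl) (fun h' => (n1 u h').2.1 rfl)
        (fun h' => (n1 v h').2.2.1 rfl) (fun h' => (n1 w h').2.2.2 rfl) (fun t a1 a2 a3 a4 => by
          by_cases a5 : t ∈ B
          · exact Or.inl (Finset.mem_inter.2 ⟨(mG' t).2 ⟨a1, a2, a3, a4⟩, a5⟩)
          · exact Or.inr (Finset.mem_sdiff.2 ⟨(mG' t).2 ⟨a1, a2, a3, a4⟩, a5⟩))
        (fun t ht h' => (Finset.mem_sdiff.1 h').2 (Finset.mem_inter.1 ht).2) (by omega) hp1
      omega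
  · intro S hS h3 hne hl
    set D := insert v (insert x (insert y (insert z (Y.erase w \ S)))) with hD
    have hDu : u ∉ D := by
      rw [hD]
      simp only [Finset.mem_insert, Finset.mem_sdiff, Finset.mem_erase, not_or, not_and]
      exact ⟨h.uv, h.ux, h.uy, h.uz, fun h' => absurd h'.2 h.uY⟩
    have hDw : w ∉ D := by
      rw [hD]
      simp only [Finset.mem_insert, Finset.mem_sdiff, Finset.mem_erase, not_or, not_and]
      exact ⟨fun h' => h.vY (h' ▸ hwY), fun h' => h.xY (h' ▸ hwY), fun h' => h.yY (h' ▸ hwY), fun h' => h.zY (h' ▸ hwY),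
        fun h' => absurd rfl h'.1⟩
    have hSY : ∀ t ∈ S, t ∈ Y ∧ t ≠ w := fun t ht => ⟨Finset.mem_of_mem_erase (hS ht), Finset.ne_of_mem_erase (hS ht)⟩
    have hDS : ∀ t ∈ S, t ∉ D := by
      intro t ht
      have a1 := (hSY t ht).1
      rw [hD]
      simp only [Finset.mem_insert, Finset.mem_sdiff, Finset.mem_erase, not_or, not_and, not_not]
      exact ⟨fun h' => h.vY (h' ▸ a1), fun h' => h.xY (h' ▸ a1), fun h' => h.yY (h' ▸ a1), fun h' => h.zY (h' ▸ a1), fun _ => ht⟩
    have hDG : D ⊆ gT u v x y z Y := by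
      intro t ht
      rw [hD] at ht
      simp only [Finset.mem_insert, Finset.mem_sdiff, Finset.mem_erase] at ht
      rw [mem_gT]
      tauto
    have hcov : ∀ t ∈ gT u v x y z Y, t ≠ u → t ≠ w → t ∈ S ∨ t ∈ D := by
      intro t ht h5 h6
      rw [hD]
      simp only [Finset.mem_insert, Finset.mem_sdiff, Finset.mem_erase]
      rcases mem_gT.1 ht with h7 | h7 | h7 | h7 | h7 | h7
      · exact absurd h7 h5
      · exact Or.inr (Or.inl h7)
      · exact Or.inr (Or.inr (Or.inl h7))
      · exact Or.inr (Or.inr (Or.inr (Or.inl h7)))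
      · exact Or.inr (Or.inr (Or.inr (Or.inr (Or.inl h7))))
      · by_cases h8 : t ∈ S
        · exact Or.inl h8
        · exact Or.inr (Or.inr (Or.inr (Or.inr (Or.inr ⟨⟨h6, h7⟩, h8⟩))))
    have hvD : v ∈ D := by rw [hD]; exact Finset.mem_insert_self _ _
    have hxD : x ∈ D := by rw [hD]; simp
    have hyD : y ∈ D := by rw [hD]; simp
    have hzD : z ∈ D := by rw [hD]; simp
    have hD3 : 3 ≤ D.card := by
      have a1 : ({x, y, z} : Finset E) ⊆ D := by
        intro t ht
        simp only [Finset.mem_insert, Finset.mem_singleton] at ht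
        rcases ht with rfl | rfl | rfl <;> assumption
      have a2 := Finset.card_le_card a1
      rw [Finset.card_eq_three.2 ⟨x, y, z, h.xy, h.xz, h.yz, rfl⟩] at a2
      exact a2
    have huS : u ∉ S := fun h' => h.uY (hSY u h').1
    have hvS : v ∉ S := fun h' => h.vY (hSY v h').1
    have hwS : w ∉ S := fun h' => (hSY w h').2 rfl
    have hSG : S ⊆ gT u v x y z Y := fun t ht => h.YG (hSY t ht).1
    constructor
    · have e1 := h.ts_dd d h4 h.uG h.uY hw (A := S) (B := D)
        ⟨hSG, hDG, huS, hDu, hwS, hDw, hcov, hDS⟩ h3 hD3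
      have e2 := h.rk.unit S v
      have e3 := h.rk.mono S (insert v S) (Finset.subset_insert _ _)
      omega
    · have e1 := h.ts_dc d h4 h.vG h.vY hw (A := S) (B := insert u (D.erase v))
        ⟨hSG, by
          intro t ht
          rcases Finset.mem_insert.1 ht with rfl | ht
          · exact h.uG
          · exact hDG (Finset.mem_of_mem_erase ht), hvS, by
          rw [Finset.mem_insert, not_or]
          exact ⟨h.uv.symm, Finset.notMem_erase _ _⟩, hwS, by
          rw [Finset.mem_insert, not_or]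
          exact ⟨fun h' => h.uY (h' ▸ hwY), fun h' => hDw (Finset.mem_of_mem_erase h')⟩, by
          intro t ht h5 h6
          by_cases h7 : t = u
          · right; rw [h7]; exact Finset.mem_insert_self _ _
          · rcases hcov t ht h7 h6 with h8 | h8
            · exact Or.inl h8
            · exact Or.inr (Finset.mem_insert_of_mem (Finset.mem_erase.2 ⟨h5, h8⟩)), by
          intro t ht h5
          rcases Finset.mem_insert.1 h5 with rfl | h5
          · exact huS ht
          · exact hDS t ht (Finset.mem_of_mem_erase h5)⟩ (by omega) (by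
          rw [Finset.card_insert_of_notMem (fun h' => hDu (Finset.mem_of_mem_erase h')), Finset.card_erase_of_mem hvD]
          omega)
      rw [Finset.insert_comm v u, Finset.insert_erase hvD] at e1
      have e2 := h.rk.unit D u
      omega
  · have hYc : 4 ≤ (Y.erase w).card := by
      rw [Finset.card_erase_of_mem hwY]
      omega
    have e1 := h.ts_dd d h4 h.uG h.uY hw (A := Y.erase w) (B := {v, x, y, z})
      ⟨fun t ht => h.YG (Finset.mem_of_mem_erase ht), by
        intro t ht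
        simp only [Finset.mem_insert, Finset.mem_singleton] at ht
        rcases ht with rfl | rfl | rfl | rfl
        · exact h.vG
        · exact h.xG
        · exact h.yG
        · exact h.zG, fun h' => h.uY (Finset.mem_of_mem_erase h'), by
        simp only [Finset.mem_insert, Finset.mem_singleton, not_or]
        exact ⟨h.uv, h.ux, h.uy, h.uz⟩, Finset.notMem_erase _ _, by
        simp only [Finset.mem_insert, Finset.mem_singleton, not_or]
        exact ⟨fun h' => h.vY (h' ▸ hwY), fun h' => h.xY (h' ▸ hwY), fun h' => h.yY (h' ▸ hwY), fun h' => h.zY (h' ▸ hwY)⟩, by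
        intro t ht h5 h6
        simp only [Finset.mem_insert, Finset.mem_singleton, Finset.mem_erase]
        rcases mem_gT.1 ht with h7 | h7 | h7 | h7 | h7 | h7
        · exact absurd h7 h5
        · tauto
        · tauto
        · tauto
        · tauto
        · exact Or.inl ⟨h6, h7⟩, by
        intro t ht h5
        have h6 := Finset.mem_of_mem_erase ht
        simp only [Finset.mem_insert, Finset.mem_singleton] at h5
        rcases h5 with rfl | rfl | rfl | rfl
        · exact h.vY h6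
        · exact h.xY h6
        · exact h.yY h6
        · exact h.zY h6⟩ (by omega) (by
        have a1 : ({x, y, z} : Finset E) ⊆ {v, x, y, z} := Finset.subset_insert _ _
        have a2 := Finset.card_le_card a1
        rw [Finset.card_eq_three.2 ⟨x, y, z, h.xy, h.xz, h.yz, rfl⟩] at a2
        exact a2)
    have e2 : ρ {v, x, y, z} = 3 := h.cir
    have e3 := h.rk.mono (Y.erase w) (insert v Y) ((Finset.erase_subset _ _).trans (Finset.subset_insert _ _))
    have e4 := h.coc
    omega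

end Ty

end Pool.Agent.QU
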