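import Pool.Agent.QUR.TyD
import Pool.Agent.QUR.TyP

/-!
# QUR/TyV: there is at most one dirty pair

`Ty.un1`: `(x\\,y/)` and `(x\\,z/)`; `Ty.un2`: `(x\\,y/)` and `(z\\,y/)`; `Ty.un3a`: `(x\\,y/)` and `(y\\,x/)`; `Ty.un3b`: `(x\\,y/)` and
`(y\\,z/)`.
-/

set_option autoImplicit false

open QUB

namespace Pool.Agent.QU

variable {E : Type} [DecidableEq E]

private theorem tv_cl {ρ : Finset E → ℤ} (hr : Rk ρ) {e : E} {A B : Finset E} (h : ρ (insert e A) = ρ A) (hAB : A ⊆ B) :
    ρ (insert e B) = ρ B := by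
  have h1 := hr.sub (insert e A) B
  have h2 := hr.mono A (insert e A ∩ B) (Finset.subset_inter (Finset.subset_insert _ _) hAB)
  have h3 := hr.mono (insert e B) (insert e A ∪ B) (by
    intro w hw
    simp only [Finset.mem_union, Finset.mem_insert] at hw ⊢
    tauto)
  have h4 := hr.mono B (insert e B) (Finset.subset_insert _ _)
  omega

private theorem tv_ncl {ρ : Finset E → ℤ} (hr : Rk ρ) {e : E} {A B : Finset E} (h : ρ (insert e B) = ρ B + 1) (hAB : A ⊆ B) :
    ρ (insert e A) = ρ A + 1 := by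
  have h1 := hr.unit A e
  have h2 := hr.mono A (insert e A) (Finset.subset_insert _ _)
  by_contra hcon
  have h3 := tv_cl hr (e := e) (A := A) (B := B) (by omega) hAB
  omega

namespace Ty

variable {ρ : Finset E → ℤ} {R : ℤ} {u v x y z : E} {Y : Finset E}

theorem rY (h : Ty ρ R u v x y z Y) : ρ Y = R - 1 := by
  have h1 := h.md u h.uG Y (insert v (insert x (insert y {z}))) Y {v, x} (by
    intro w hw hwu
    rcases mem_gT.1 hw with rfl | rfl | rfl | rfl | rfl | hw
    · exact absurd rfl hwu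
    · right; simp
    · right; simp
    · right; simp
    · right; simp
    · left; exact hw) (by have := h.Y5; omega) (by
    intro w hw
    refine ⟨h.YG hw, ?_, ?_⟩
    · rintro rfl
      exact h.uY hw
    · simp only [Finset.mem_insert, Finset.mem_singleton, not_or]
      refine ⟨?_, ?_, ?_, ?_⟩
      · rintro rfl; exact h.vY hw
      · rintro rfl; exact h.xY hw
      · rintro rfl; exact h.yY hw
      · rintro rfl; exact h.zY hw) (by rw [Finset.card_pair h.vx]) (by
    intro w hw
    simp only [Finset.mem_insert, Finset.mem_singleton] at hw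
    rcases hw with rfl | rfl
    · exact ⟨h.vG, h.uv.symm, h.vY⟩
    · exact ⟨h.xG, h.ux.symm, h.xY⟩)
  have h2 := h.rk.mono Y (insert v Y) (Finset.subset_insert _ _)
  have h3 := h.coc
  have h4 := h.cir
  omega

/-- connectivity of `M \ u / v` -/
theorem cq (h : Ty ρ R u v x y z Y) {S : Finset E} (hS : S ⊆ Y) (hne : S.Nonempty) :
    R + 2 ≤ ρ (insert v S) + ρ (insert v (insert x (insert y (insert z (Y \ S))))) := by
  obtain ⟨s, hs⟩ := hne
  refine h.cdc u h.uG v h.vG h.uv S (insert x (insert y (insert z (Y \ S)))) ?_ ⟨s, h.YG (hS hs), ?_, ?_, ?_⟩ ⟨x, h.xG, h.ux.symm, h.vx.symm, ?_⟩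
  · intro w hw hwu hwv
    rcases mem_gT.1 hw with rfl | rfl | rfl | rfl | rfl | hw
    · exact absurd rfl hwu
    · exact absurd rfl hwv
    · right; simp
    · right; simp
    · right; simp
    · by_cases hwZ : w ∈ S
      · left; exact hwZ
      · right; simp [hwZ, hw]
  · rintro rfl
    exact h.uY (hS hs)
  · rintro rfl
    exact h.vY (hS hs)
  · simp only [Finset.mem_insert, Finset.mem_sdiff, not_or]
    refine ⟨?_, ?_, ?_, fun h' => h'.2 hs⟩
    · rintro rfl; exact h.xY (hS hs)
    · rintro rfl; exact h.yY (hS hs)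
    · rintro rfl; exact h.zY (hS hs)
  · exact fun h' => h.xY (hS h')

/-- `y` in the closure of `Z + u + v` puts `u` in the closure of `Z + v + y` -/
theorem d_u (h : Ty ρ R u v x y z Y) {Z : Finset E} (hZ : Z ⊆ Y) (hc : ρ (insert y (insert u (insert v Z))) = ρ (insert u (insert v Z))) :
    ρ (insert u (insert y (insert v Z))) = ρ (insert y (insert v Z)) := by
  have hvZ : insert v Z ⊆ insert v Y := Finset.insert_subset_insert v hZ
  have e1 := h.ny hvZ
  have e3 := h.nu hvZ
  rw [Finset.insert_comm u y]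
  omega

/-- disjoint sets, one of them old with at least two elements -/
theorem d_meet (h : Ty ρ R u v x y z Y) {Z Z' : Finset E} (hZ : Z ⊆ Y) (hZ' : Z' ⊆ Y)
    (hc : ρ (insert y (insert u (insert v Z))) = ρ (insert u (insert v Z))) (o : Old ρ R v x y z Y Z') (h2 : 2 ≤ Z'.card)
    (hd : Z ⊆ Y \ Z') : False := by
  have e1 := h.d_u hZ hc
  have e2 := h.o_u hZ' h2 o
  have e3 := tv_cl h.rk e1 (B := insert v (insert x (insert y (insert z (Y \ Z'))))) (by
    intro w hw
    have := @hd w
    simp only [Finset.mem_insert, Finset.mem_sdiff] at *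
    tauto)
  omega

/-- the union of two old sets with a common element -/
theorem o_union (h : Ty ρ R u v x y z Y) {Z Z' : Finset E} (hZ : Z ⊆ Y) (o : Old ρ R v x y z Y Z)
    (o' : Old ρ R v x y z Y Z') (hne : (Z ∩ Z').Nonempty) : Old ρ R v x y z Y (Z ∪ Z') := by
  unfold Old at *
  have e0 := h.cq (S := Z ∩ Z') (Finset.inter_subset_left.trans hZ) hne
  have e1 := h.rk.sub (insert v Z) (insert v Z')
  have e2 := h.rk.sub (insert v (insert x (insert y (insert z (Y \ Z))))) (insert v (insert x (insert y (insert z (Y \ Z')))))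
  have e3 : insert v Z ∪ insert v Z' = insert v (Z ∪ Z') := by
    ext w
    simp only [Finset.mem_insert, Finset.mem_union]
    tauto
  have e4 : insert v Z ∩ insert v Z' = insert v (Z ∩ Z') := by
    ext w
    simp only [Finset.mem_insert, Finset.mem_inter]
    tauto
  have e5 : insert v (insert x (insert y (insert z (Y \ Z)))) ∪ insert v (insert x (insert y (insert z (Y \ Z')))) =
      insert v (insert x (insert y (insert z (Y \ (Z ∩ Z'))))) := by
    ext w
    simp only [Finset.mem_insert, Finset.mem_union, Finset.mem_sdiff, Finset.mem_inter]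
    tauto
  have e6 : insert v (insert x (insert y (insert z (Y \ Z)))) ∩ insert v (insert x (insert y (insert z (Y \ Z')))) =
      insert v (insert x (insert y (insert z (Y \ (Z ∪ Z'))))) := by
    ext w
    simp only [Finset.mem_insert, Finset.mem_union, Finset.mem_sdiff, Finset.mem_inter]
    tauto
  rw [e3, e4] at e1
  rw [e5, e6] at e2
  omega

/-- the union is not `Y` -/
theorem d_neY (h : Ty ρ R u v x y z Y) {Z Z' : Finset E} (hZ : Z ⊆ Y) (hZ' : Z' ⊆ Y)
    (hc : ρ (insert y (insert u (insert v Z))) = ρ (insert u (insert v Z))) (o : Old ρ R v x y z Y Z) (o' : Old ρ R v x y z Y Z')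
    (w2 : 2 ≤ (Y \ Z).card) (w2' : 2 ≤ (Y \ Z').card) : (Y \ (Z ∪ Z')).Nonempty := by
  by_contra hcon
  rw [Finset.not_nonempty_iff_eq_empty, Finset.sdiff_eq_empty_iff_subset] at hcon
  have oW : Old ρ R v x y z Y (Y \ Z) := by
    have e0 := h.cq (S := Y \ Z') Finset.sdiff_subset (Finset.card_pos.1 (by omega))
    unfold Old at *
    rw [Finset.sdiff_sdiff_eq_self hZ] at *
    rw [Finset.sdiff_sdiff_eq_self hZ'] at e0
    have e1 := h.rk.sub (insert v Z) (insert v (insert x (insert y (insert z (Y \ Z')))))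
    have e2 := h.rk.sub (insert v Z') (insert v (insert x (insert y (insert z (Y \ Z)))))
    have e3 : insert v Z ∪ insert v (insert x (insert y (insert z (Y \ Z')))) = insert v (insert x (insert y (insert z Z))) := by
      ext w
      have c1 := @hcon w
      have c2 := @hZ w
      simp only [Finset.mem_insert, Finset.mem_union, Finset.mem_sdiff] at *
      tauto
    have e4 : insert v (Y \ Z') ⊆ insert v Z ∩ insert v (insert x (insert y (insert z (Y \ Z')))) := by
      intro w
      have c1 := @hcon w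
      have c2 := @hZ w
      simp only [Finset.mem_insert, Finset.mem_union, Finset.mem_sdiff, Finset.mem_inter] at *
      tauto
    have e5 : insert v Z' ∪ insert v (insert x (insert y (insert z (Y \ Z)))) = insert v (insert x (insert y (insert z Z'))) := by
      ext w
      have c1 := @hcon w
      have c2 := @hZ' w
      simp only [Finset.mem_insert, Finset.mem_union, Finset.mem_sdiff] at *
      tauto
    have e6 : insert v (Y \ Z) ⊆ insert v Z' ∩ insert v (insert x (insert y (insert z (Y \ Z)))) := by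
      intro w
      have c1 := @hcon w
      have c2 := @hZ w
      simp only [Finset.mem_insert, Finset.mem_union, Finset.mem_sdiff, Finset.mem_inter] at *
      tauto
    have e7 := h.rk.mono _ _ e4
    have e8 := h.rk.mono _ _ e6
    rw [e3] at e1
    rw [e5] at e2
    omega
  have e1 := h.d_u hZ hc
  have e2 := h.o_u (S := Y \ Z) Finset.sdiff_subset w2 oW
  rw [Finset.sdiff_sdiff_eq_self hZ] at e2
  have e3 := tv_cl h.rk e1 (B := insert v (insert x (insert y (insert z Z)))) (by
    intro w hw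
    simp only [Finset.mem_insert] at *
    tauto)
  omega

private theorem tv_pair (h : Ty ρ R u v x y z Y) {A B : Finset E} (hc : ∀ w ∈ gT u v x y z Y, w ∈ A ∨ w ∈ B) {s t a b : E}
    (hs : s ∈ gT u v x y z Y) (ht : t ∈ gT u v x y z Y) (hst : s ≠ t) (hsB : s ∉ B) (htB : t ∉ B)
    (ha : a ∈ gT u v x y z Y) (hb : b ∈ gT u v x y z Y) (hab : a ≠ b) (haA : a ∉ A) (hbA : b ∉ A) : R + 2 ≤ ρ A + ρ B := by
  refine h.m0 A B {s, t} {a, b} hc (by rw [Finset.card_pair hst]) ?_ (by rw [Finset.card_pair hab]) ?_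
  · intro w hw
    simp only [Finset.mem_insert, Finset.mem_singleton] at hw
    rcases hw with rfl | rfl
    · exact ⟨hs, hsB⟩
    · exact ⟨ht, htB⟩
  · intro w hw
    simp only [Finset.mem_insert, Finset.mem_singleton] at hw
    rcases hw with rfl | rfl
    · exact ⟨ha, haA⟩
    · exact ⟨hb, hbA⟩

private theorem tv_dpair (h : Ty ρ R u v x y z Y) {e : E} (he : e ∈ gT u v x y z Y) {A B : Finset E}
    (hc : ∀ w ∈ gT u v x y z Y, w ≠ e → w ∈ A ∨ w ∈ B) {s t a b : E}
    (hs : s ∈ gT u v x y z Y) (ht : t ∈ gT u v x y z Y) (hst : s ≠ t) (hse : s ≠ e) (hte : t ≠ e) (hsB : s ∉ B) (htB : t ∉ B)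
    (ha : a ∈ gT u v x y z Y) (hb : b ∈ gT u v x y z Y) (hab : a ≠ b) (hae : a ≠ e) (hbe : b ≠ e) (haA : a ∉ A) (hbA : b ∉ A) :
    R + 2 ≤ ρ A + ρ B := by
  refine h.md e he A B {s, t} {a, b} hc (by rw [Finset.card_pair hst]) ?_ (by rw [Finset.card_pair hab]) ?_
  · intro w hw
    simp only [Finset.mem_insert, Finset.mem_singleton] at hw
    rcases hw with rfl | rfl
    · exact ⟨hs, hse, hsB⟩
    · exact ⟨ht, hte, htB⟩
  · intro w hw
    simp only [Finset.mem_insert, Finset.mem_singleton] at hw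
    rcases hw with rfl | rfl
    · exact ⟨ha, hae, haA⟩
    · exact ⟨hb, hbe, hbA⟩

private theorem tv_cpair (h : Ty ρ R u v x y z Y) {e : E} (he : e ∈ gT u v x y z Y) {A B : Finset E}
    (hc : ∀ w ∈ gT u v x y z Y, w ≠ e → w ∈ A ∨ w ∈ B) {s t a b : E}
    (hs : s ∈ gT u v x y z Y) (ht : t ∈ gT u v x y z Y) (hst : s ≠ t) (hse : s ≠ e) (hte : t ≠ e) (hsB : s ∉ B) (htB : t ∉ B)
    (ha : a ∈ gT u v x y z Y) (hb : b ∈ gT u v x y z Y) (hab : a ≠ b) (hae : a ≠ e) (hbe : b ≠ e) (haA : a ∉ A) (hbA : b ∉ A) :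
    R + 3 ≤ ρ (insert e A) + ρ (insert e B) := by
  refine h.mc e he A B {s, t} {a, b} hc (by rw [Finset.card_pair hst]) ?_ (by rw [Finset.card_pair hab]) ?_
  · intro w hw
    simp only [Finset.mem_insert, Finset.mem_singleton] at hw
    rcases hw with rfl | rfl
    · exact ⟨hs, hse, hsB⟩
    · exact ⟨ht, hte, htB⟩
  · intro w hw
    simp only [Finset.mem_insert, Finset.mem_singleton] at hw
    rcases hw with rfl | rfl
    · exact ⟨ha, hae, haA⟩
    · exact ⟨hb, hbe, hbA⟩

omit [DecidableEq E] in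
private theorem tv_two {V : Finset E} (h : 2 ≤ V.card) : ∃ a ∈ V, ∃ b ∈ V, a ≠ b := by
  obtain ⟨a, ha, b, hb, hab⟩ := Finset.one_lt_card.1 (by omega : 1 < V.card)
  exact ⟨a, ha, b, hb, hab⟩

theorem Old_sw {S : Finset E} (h : Old ρ R v x z y Y S) : Old ρ R v x y z Y S := by
  unfold Old at *
  rwa [Finset.insert_comm z y] at h

/-- `(x\,y/)` and `(x\,z/)` -/
theorem un1 (h : Ty ρ R u v x y z Y) {Z Z' : Finset E} (d : Dirty ρ R u v x y z Y Z) (d' : Dirty ρ R u v x z y Y Z') : False := by
  have hs := h.sw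
  have o1 := h.d_old d
  have o2 := Old_sw (hs.d_old d')
  have c1 := h.d_cl d
  have c2 := hs.d_cl d'
  obtain ⟨w, hw⟩ := h.d_neY d.sub d'.sub c1 o1 o2 d.two d'.two
  have e1 := h.rk.sub (insert u (insert v Z)) (insert u (insert v Z'))
  have e2 := h.rk.sub (insert y (insert z (Y \ Z))) (insert z (insert y (Y \ Z')))
  have f1 : insert u (insert v Z) ∪ insert u (insert v Z') = insert u (insert v (Z ∪ Z')) := by
    ext w
    simp only [Finset.mem_insert, Finset.mem_union]
    tauto
  have f2 : insert u (insert v Z) ∩ insert u (insert v Z') = insert u (insert v (Z ∩ Z')) := by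
    ext w
    simp only [Finset.mem_insert, Finset.mem_inter]
    tauto
  have f3 : insert y (insert z (Y \ Z)) ∪ insert z (insert y (Y \ Z')) = insert y (insert z (Y \ (Z ∩ Z'))) := by
    ext w
    simp only [Finset.mem_insert, Finset.mem_union, Finset.mem_sdiff, Finset.mem_inter]
    tauto
  have f4 : insert y (insert z (Y \ Z)) ∩ insert z (insert y (Y \ Z')) = insert y (insert z (Y \ (Z ∪ Z'))) := by
    ext w
    simp only [Finset.mem_insert, Finset.mem_union, Finset.mem_sdiff, Finset.mem_inter]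
    tauto
  rw [f1, f2] at e1
  rw [f3, f4] at e2
  have hZ := d.sub
  have hZ' := d'.sub
  have e3 : R + 2 ≤ ρ (insert u (insert v (Z ∩ Z'))) + ρ (insert y (insert z (Y \ (Z ∩ Z')))) := by
    refine tv_dpair h h.xG ?_ h.uG h.vG h.uv h.ux h.vx ?_ ?_ h.yG h.zG h.yz h.xy.symm h.xz.symm ?_ ?_
    · intro w hw hwx
      rw [mem_gT] at hw
      simp only [Finset.mem_insert, Finset.mem_sdiff, Finset.mem_inter]
      tauto
    · simp only [Finset.mem_insert, Finset.mem_sdiff, Finset.mem_inter, not_or]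
      exact ⟨h.uy, h.uz, fun h' => h.uY h'.1⟩
    · simp only [Finset.mem_insert, Finset.mem_sdiff, Finset.mem_inter, not_or]
      exact ⟨h.vy, h.vz, fun h' => h.vY h'.1⟩
    · simp only [Finset.mem_insert, Finset.mem_inter, not_or]
      exact ⟨h.uy.symm, h.vy.symm, fun h' => h.yY (hZ h'.1)⟩
    · simp only [Finset.mem_insert, Finset.mem_inter, not_or]
      exact ⟨h.uz.symm, h.vz.symm, fun h' => h.zY (hZ h'.1)⟩
  have s1 := d.sep
  have s2 := d'.sep
  have k1 : ρ (insert u (insert v (Z ∪ Z'))) + ρ (insert y (insert z (Y \ (Z ∪ Z')))) ≤ R + 2 := by omega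
  have g1 : ρ (insert z (insert u (insert v (Z ∪ Z')))) = ρ (insert u (insert v (Z ∪ Z'))) :=
    tv_cl h.rk c2 (Finset.insert_subset_insert _ (Finset.insert_subset_insert _ Finset.subset_union_right))
  have g2 : ρ (insert y (insert z (insert u (insert v (Z ∪ Z'))))) = ρ (insert u (insert v (Z ∪ Z'))) := by
    rw [← g1]
    exact tv_cl h.rk c1 ((Finset.insert_subset_insert _ (Finset.insert_subset_insert _ Finset.subset_union_left)).trans
      (Finset.subset_insert _ _))
  have mV : ∀ w ∈ Y \ (Z ∪ Z'), w ∈ Y ∧ w ∉ Z ∧ w ∉ Z' := by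
    intro w hw
    simp only [Finset.mem_sdiff, Finset.mem_union, not_or] at hw
    tauto
  by_cases hV : 2 ≤ (Y \ (Z ∪ Z')).card
  · obtain ⟨a, ha, b, hb, hab⟩ := tv_two hV
    have hn : ∀ w ∈ Y \ (Z ∪ Z'), w ∉ insert y (insert z (insert u (insert v (Z ∪ Z')))) := by
      intro w hw
      obtain ⟨m1, m2, m3⟩ := mV w hw
      simp only [Finset.mem_insert, Finset.mem_union, not_or]
      refine ⟨?_, ?_, ?_, ?_, m2, m3⟩
      · rintro rfl; exact h.yY m1
      · rintro rfl; exact h.zY m1
      · rintro rfl; exact h.uY m1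
      · rintro rfl; exact h.vY m1
    have hx : ∀ w ∈ Y \ (Z ∪ Z'), w ≠ x := by
      rintro w hw rfl
      exact h.xY (mV _ hw).1
    have e4 : R + 2 ≤ ρ (insert y (insert z (insert u (insert v (Z ∪ Z'))))) + ρ (Y \ (Z ∪ Z')) := by
      refine tv_dpair h h.xG ?_ h.uG h.vG h.uv h.ux h.vx ?_ ?_ (h.YG (mV a ha).1) (h.YG (mV b hb).1) hab (hx a ha) (hx b hb) (hn a ha) (hn b hb)
      · intro w hw hwx
        rw [mem_gT] at hw
        simp only [Finset.mem_insert, Finset.mem_sdiff, Finset.mem_union]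
        tauto
      · exact fun h' => h.uY (mV _ h').1
      · exact fun h' => h.vY (mV _ h').1
    have e5 := h.ny (B := Y \ (Z ∪ Z')) (Finset.sdiff_subset.trans (Finset.subset_insert _ _))
    have e6 := h.rk.mono (insert y (Y \ (Z ∪ Z'))) (insert y (insert z (Y \ (Z ∪ Z')))) (Finset.insert_subset_insert _ (Finset.subset_insert _ _))
    omega
  · have hV1 : Y \ (Z ∪ Z') = {w} := by
      obtain ⟨a, ha⟩ := Finset.card_eq_one.1 (by
        have := Finset.card_pos.2 ⟨w, hw⟩
        omega : (Y \ (Z ∪ Z')).card = 1)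
      rw [ha] at hw ⊢
      rw [Finset.mem_singleton.1 hw]
    have hwY := (mV w hw).1
    have e4 : ρ (insert y (insert z (Y \ (Z ∪ Z')))) = 3 := by
      rw [hV1]
      refine h.three h.yG h.zG (h.YG hwY) h.yz ?_ ?_
      · rintro rfl; exact h.yY hwY
      · rintro rfl; exact h.zY hwY
    have e5 := h.d3 {w} (Finset.singleton_subset_iff.2 (h.YG hwY)) (by simp)
    have e6 := h.rk.mono (gT u v x y z Y \ {w}) (insert x (insert y (insert z (insert u (insert v (Z ∪ Z')))))) (by
      intro a ha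
      rw [Finset.mem_sdiff, mem_gT, Finset.mem_singleton] at ha
      by_cases haU : a ∈ Z ∪ Z'
      · simp [haU]
      · have : a ∈ Y → a = w := fun h' => by
          have h2 : a ∈ Y \ (Z ∪ Z') := Finset.mem_sdiff.2 ⟨h', haU⟩
          rw [hV1] at h2
          exact Finset.mem_singleton.1 h2
        simp only [Finset.mem_insert]
        tauto)
    have e7 := h.cx (B := insert y (insert z (insert u (insert v (Z ∪ Z'))))) (by simp) (by simp) (by simp)
    omega

/-- `(x\,y/)` and `(z\,y/)` -/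
theorem un2 (h : Ty ρ R u v x y z Y) {Z Z' : Finset E} (d : Dirty ρ R u v x y z Y Z) (d' : Dirty ρ R u v z y x Y Z') : False := by
  have hs : Ty ρ R u v z y x Y := h.rot.swap
  have o1 := h.d_old d
  have o2 : Old ρ R v x y z Y Z' := by
    have := hs.d_old d'
    exact Old.rot (Old.rot (Old.swap this))
  have c1 := h.d_cl d
  obtain ⟨w, hw⟩ := h.d_neY d.sub d'.sub c1 o1 o2 d.two d'.two
  have q1 := h.d_cc d
  have q2 := hs.d_cc d'
  have e1 := h.rk.sub (insert y (insert u (insert v Z))) (insert y (insert u (insert v Z')))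
  have e2 := h.rk.sub (insert x (insert y (insert z (Y \ Z)))) (insert z (insert y (insert x (Y \ Z'))))
  have f1 : insert y (insert u (insert v Z)) ∪ insert y (insert u (insert v Z')) = insert y (insert u (insert v (Z ∪ Z'))) := by
    ext w
    simp only [Finset.mem_insert, Finset.mem_union]
    tauto
  have f2 : insert y (insert u (insert v Z)) ∩ insert y (insert u (insert v Z')) = insert y (insert u (insert v (Z ∩ Z'))) := by
    ext w
    simp only [Finset.mem_insert, Finset.mem_inter]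
    tauto
  have f3 : insert x (insert y (insert z (Y \ Z))) ∪ insert z (insert y (insert x (Y \ Z'))) = insert y (insert x (insert z (Y \ (Z ∩ Z')))) := by
    ext w
    simp only [Finset.mem_insert, Finset.mem_union, Finset.mem_sdiff, Finset.mem_inter]
    tauto
  have f4 : insert x (insert y (insert z (Y \ Z))) ∩ insert z (insert y (insert x (Y \ Z'))) = insert x (insert y (insert z (Y \ (Z ∪ Z')))) := by
    ext w
    simp only [Finset.mem_insert, Finset.mem_union, Finset.mem_sdiff, Finset.mem_inter]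
    tauto
  rw [f1, f2] at e1
  rw [f3, f4] at e2
  have hZ := d.sub
  have hZ' := d'.sub
  have e3 : R + 3 ≤ ρ (insert y (insert u (insert v (Z ∩ Z')))) + ρ (insert y (insert x (insert z (Y \ (Z ∩ Z'))))) := by
    refine tv_cpair h h.yG ?_ h.uG h.vG h.uv h.uy h.vy ?_ ?_ h.xG h.zG h.xz h.xy h.yz.symm ?_ ?_
    · intro w hw hwx
      rw [mem_gT] at hw
      simp only [Finset.mem_insert, Finset.mem_sdiff, Finset.mem_inter]
      tauto
    · simp only [Finset.mem_insert, Finset.mem_sdiff, Finset.mem_inter, not_or]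
      exact ⟨h.ux, h.uz, fun h' => h.uY h'.1⟩
    · simp only [Finset.mem_insert, Finset.mem_sdiff, Finset.mem_inter, not_or]
      exact ⟨h.vx, h.vz, fun h' => h.vY h'.1⟩
    · simp only [Finset.mem_insert, Finset.mem_inter, not_or]
      exact ⟨h.ux.symm, h.vx.symm, fun h' => h.xY (hZ h'.1)⟩
    · simp only [Finset.mem_insert, Finset.mem_inter, not_or]
      exact ⟨h.uz.symm, h.vz.symm, fun h' => h.zY (hZ h'.1)⟩
  have s1 := d.sep
  have s2 := d'.sep
  have k1 : ρ (insert y (insert u (insert v (Z ∪ Z')))) + ρ (insert x (insert y (insert z (Y \ (Z ∪ Z'))))) ≤ R + 3 := by omega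
  have v1 : Y \ (Z ∪ Z') ⊆ Y \ Z := Finset.sdiff_subset_sdiff (Finset.Subset.refl _) Finset.subset_union_left
  have v2 : Y \ (Z ∪ Z') ⊆ Y \ Z' := Finset.sdiff_subset_sdiff (Finset.Subset.refl _) Finset.subset_union_right
  have g1 : ρ (insert x (insert y (insert z (Y \ (Z ∪ Z'))))) = ρ (insert y (insert z (Y \ (Z ∪ Z')))) + 1 :=
    tv_ncl h.rk q1 (Finset.insert_subset_insert _ (Finset.insert_subset_insert _ v1))
  have g2 : ρ (insert z (insert y (Y \ (Z ∪ Z')))) = ρ (insert y (Y \ (Z ∪ Z'))) + 1 :=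
    tv_ncl h.rk q2 (Finset.insert_subset_insert _ (v2.trans (Finset.subset_insert _ _)))
  have g5 : insert y (insert z (Y \ (Z ∪ Z'))) = insert z (insert y (Y \ (Z ∪ Z'))) := Finset.insert_comm _ _ _
  have g6 := congrArg ρ g5
  have g3 := h.rk.unit (insert y (insert u (insert v (Z ∪ Z')))) x
  have g4 := h.cz (B := insert x (insert y (insert u (insert v (Z ∪ Z'))))) (by simp) (by simp) (by simp)
  have mV : ∀ w ∈ Y \ (Z ∪ Z'), w ∈ Y ∧ w ∉ Z ∧ w ∉ Z' := by
    intro w hw
    simp only [Finset.mem_sdiff, Finset.mem_union, not_or] at hw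
    tauto
  by_cases hV : 2 ≤ (Y \ (Z ∪ Z')).card
  · obtain ⟨a, ha, b, hb, hab⟩ := tv_two hV
    have hn : ∀ w ∈ Y \ (Z ∪ Z'), w ∉ insert z (insert x (insert u (insert v (Z ∪ Z')))) := by
      intro w hw
      obtain ⟨m1, m2, m3⟩ := mV w hw
      simp only [Finset.mem_insert, Finset.mem_union, not_or]
      refine ⟨?_, ?_, ?_, ?_, m2, m3⟩
      · rintro rfl; exact h.zY m1
      · rintro rfl; exact h.xY m1
      · rintro rfl; exact h.uY m1
      · rintro rfl; exact h.vY m1
    have hx : ∀ w ∈ Y \ (Z ∪ Z'), w ≠ y := by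
      rintro w hw rfl
      exact h.yY (mV _ hw).1
    have e4 : R + 3 ≤ ρ (insert y (insert z (insert x (insert u (insert v (Z ∪ Z')))))) + ρ (insert y (Y \ (Z ∪ Z'))) := by
      refine tv_cpair h h.yG ?_ h.uG h.vG h.uv h.uy h.vy ?_ ?_ (h.YG (mV a ha).1) (h.YG (mV b hb).1) hab (hx a ha) (hx b hb) (hn a ha) (hn b hb)
      · intro w hw hwx
        rw [mem_gT] at hw
        simp only [Finset.mem_insert, Finset.mem_sdiff, Finset.mem_union]
        tauto
      · exact fun h' => h.uY (mV _ h').1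
      · exact fun h' => h.vY (mV _ h').1
    have e5 : insert y (insert z (insert x (insert u (insert v (Z ∪ Z'))))) = insert z (insert x (insert y (insert u (insert v (Z ∪ Z'))))) := by
      rw [Finset.insert_comm y z, Finset.insert_comm y x]
    rw [e5] at e4
    omega
  · have hV1 : Y \ (Z ∪ Z') = {w} := by
      obtain ⟨a, ha⟩ := Finset.card_eq_one.1 (by
        have := Finset.card_pos.2 ⟨w, hw⟩
        omega : (Y \ (Z ∪ Z')).card = 1)
      rw [ha] at hw ⊢
      rw [Finset.mem_singleton.1 hw]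
    have hwY := (mV w hw).1
    have hyw : y ≠ w := by
      rintro rfl
      exact h.yY hwY
    have e4 : ρ (insert y (Y \ (Z ∪ Z'))) = 2 := by
      rw [hV1]
      exact h.two h.yG (h.YG hwY) hyw
    have e5 := h.d3 {x, z, w} (by
      intro a ha
      simp only [Finset.mem_insert, Finset.mem_singleton] at ha
      rcases ha with rfl | rfl | rfl
      · exact h.xG
      · exact h.zG
      · exact h.YG hwY) Finset.card_le_three
    have e6 := h.rk.mono (gT u v x y z Y \ {x, z, w}) (insert y (insert u (insert v (Z ∪ Z')))) (by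
      intro a ha
      rw [Finset.mem_sdiff, mem_gT] at ha
      by_cases haU : a ∈ Z ∪ Z'
      · simp [haU]
      · have : a ∈ Y → a = w := fun h' => by
          have h2 : a ∈ Y \ (Z ∪ Z') := Finset.mem_sdiff.2 ⟨h', haU⟩
          rw [hV1] at h2
          exact Finset.mem_singleton.1 h2
        simp only [Finset.mem_insert, Finset.mem_singleton] at ha ⊢
        tauto)
    omega

/-- different rows and different columns: the sets meet -/
private theorem tv_core (h : Ty ρ R u v x y z Y) {Z Z' : Finset E} (hZ : Z ⊆ Y) (hZ' : Z' ⊆ Y) (o1 : Old ρ R v x y z Y Z)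
    (o2 : Old ρ R v x y z Y Z') (hne : (Z ∩ Z').Nonempty) (hV : (Y \ (Z ∪ Z')).Nonempty)
    (hA : ρ (insert x (insert y (insert z (insert u (insert v (Z ∪ Z')))))) = ρ (insert u (insert v (Z ∪ Z'))))
    (hB : ρ (insert x (insert y (insert z (Y \ (Z ∪ Z'))))) = ρ (Y \ (Z ∪ Z')) + 3) : False := by
  have o := h.o_union hZ o1 o2 hne
  unfold Old at o
  have e1 := h.rk.unit (insert v (Z ∪ Z')) u
  have e2 := h.rk.mono (insert x (insert y (insert z (Y \ (Z ∪ Z'))))) (insert v (insert x (insert y (insert z (Y \ (Z ∪ Z'))))))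
    (Finset.subset_insert _ _)
  have mV : ∀ w ∈ Y \ (Z ∪ Z'), w ∈ Y ∧ w ∉ Z ∧ w ∉ Z' := by
    intro w hw
    simp only [Finset.mem_sdiff, Finset.mem_union, not_or] at hw
    tauto
  by_cases hV2 : 2 ≤ (Y \ (Z ∪ Z')).card
  · obtain ⟨a, ha, b, hb, hab⟩ := tv_two hV2
    have hn : ∀ w ∈ Y \ (Z ∪ Z'), w ∉ insert x (insert y (insert z (insert u (insert v (Z ∪ Z'))))) := by
      intro w hw
      obtain ⟨m1, m2, m3⟩ := mV w hw
      simp only [Finset.mem_insert, Finset.mem_union, not_or]
      refine ⟨?_, ?_, ?_, ?_, ?_, m2, m3⟩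
      · rintro rfl; exact h.xY m1
      · rintro rfl; exact h.yY m1
      · rintro rfl; exact h.zY m1
      · rintro rfl; exact h.uY m1
      · rintro rfl; exact h.vY m1
    have e4 : R + 2 ≤ ρ (insert x (insert y (insert z (insert u (insert v (Z ∪ Z')))))) + ρ (Y \ (Z ∪ Z')) := by
      refine tv_pair h ?_ h.uG h.vG h.uv ?_ ?_ (h.YG (mV a ha).1) (h.YG (mV b hb).1) hab (hn a ha) (hn b hb)
      · intro w hw
        rw [mem_gT] at hw
        simp only [Finset.mem_insert, Finset.mem_sdiff, Finset.mem_union]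
        tauto
      · exact fun h' => h.uY (mV _ h').1
      · exact fun h' => h.vY (mV _ h').1
    omega
  · obtain ⟨w, hw⟩ := hV
    have hV1 : Y \ (Z ∪ Z') = {w} := by
      obtain ⟨a, ha⟩ := Finset.card_eq_one.1 (by
        have := Finset.card_pos.2 ⟨w, hw⟩
        omega : (Y \ (Z ∪ Z')).card = 1)
      rw [ha] at hw ⊢
      rw [Finset.mem_singleton.1 hw]
    have hwY := (mV w hw).1
    have e4 : ρ (Y \ (Z ∪ Z')) = 1 := by
      rw [hV1]
      exact h.one (h.YG hwY)
    have e5 := h.d3 {w} (Finset.singleton_subset_iff.2 (h.YG hwY)) (by simp)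
    have e6 := h.rk.mono (gT u v x y z Y \ {w}) (insert x (insert y (insert z (insert u (insert v (Z ∪ Z')))))) (by
      intro a ha
      rw [Finset.mem_sdiff, mem_gT, Finset.mem_singleton] at ha
      by_cases haU : a ∈ Z ∪ Z'
      · simp [haU]
      · have : a ∈ Y → a = w := fun h' => by
          have h2 : a ∈ Y \ (Z ∪ Z') := Finset.mem_sdiff.2 ⟨h', haU⟩
          rw [hV1] at h2
          exact Finset.mem_singleton.1 h2
        simp only [Finset.mem_insert]
        tauto)
    omega

/-- two elements of `Y` in the closure and in the coclosure of `J` -/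
private theorem tv_single (h : Ty ρ R u v x y z Y) {w w' : E} (hw : w ∈ Y) (hw' : w' ∈ Y) (hne : w ≠ w')
    (c1 : ρ (insert w (insert u (insert v (insert x (insert y {z}))))) = ρ (insert u (insert v (insert x (insert y {z})))))
    (c2 : ρ (insert w' (insert u (insert v (insert x (insert y {z}))))) = ρ (insert u (insert v (insert x (insert y {z})))))
    (r1 : ρ (Y \ {w}) ≤ R - 2) (r2 : ρ (Y \ {w'}) ≤ R - 2) : False := by
  have e0 := h.rY
  have e1 := h.rk.sub (Y \ {w}) (Y \ {w'})
  have f1 : Y \ {w} ∪ Y \ {w'} = Y := by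
    ext a
    have c1 : ¬ (a = w ∧ a = w') := by
      rintro ⟨rfl, h2⟩
      exact hne h2
    simp only [Finset.mem_union, Finset.mem_sdiff, Finset.mem_singleton]
    tauto
  have f2 : (Y \ {w}) ∩ (Y \ {w'}) = Y \ {w, w'} := by
    ext a
    simp only [Finset.mem_inter, Finset.mem_sdiff, Finset.mem_singleton, Finset.mem_insert]
    tauto
  rw [f1, f2] at e1
  have e2 := tv_cl h.rk c1 (Finset.subset_insert w' _)
  have e3 := h.rk.unit (insert v (insert x (insert y {z}))) u
  have e4 := h.cir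
  have hc : 3 ≤ (Y \ {w, w'}).card := by
    have a1 := Finset.le_card_sdiff {w, w'} Y
    have a2 := h.Y5
    rw [Finset.card_pair hne] at a1
    omega
  obtain ⟨a, ha, b, hb, hab⟩ := tv_two (by omega : 2 ≤ (Y \ {w, w'}).card)
  have mV : ∀ a ∈ Y \ {w, w'}, a ∈ Y ∧ a ≠ w ∧ a ≠ w' := by
    intro a ha
    simp only [Finset.mem_sdiff, Finset.mem_insert, Finset.mem_singleton, not_or] at ha
    tauto
  have hn : ∀ a ∈ Y \ {w, w'}, a ∉ (insert w (insert w' (insert u (insert v (insert x (insert y {z}))))) : Finset E) := by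
    intro a ha
    obtain ⟨m1, m2, m3⟩ := mV a ha
    simp only [Finset.mem_insert, Finset.mem_singleton, not_or]
    refine ⟨m2, m3, ?_, ?_, ?_, ?_, ?_⟩
    · rintro rfl; exact h.uY m1
    · rintro rfl; exact h.vY m1
    · rintro rfl; exact h.xY m1
    · rintro rfl; exact h.yY m1
    · rintro rfl; exact h.zY m1
  have e5 : R + 2 ≤ ρ (insert w (insert w' (insert u (insert v (insert x (insert y {z})))))) + ρ (Y \ {w, w'}) := by
    refine tv_pair h ?_ h.uG h.vG h.uv ?_ ?_ (h.YG (mV a ha).1) (h.YG (mV b hb).1) hab (hn a ha) (hn b hb)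
    · intro w hw
      rw [mem_gT] at hw
      simp only [Finset.mem_insert, Finset.mem_sdiff, Finset.mem_singleton]
      tauto
    · exact fun h' => h.uY (mV _ h').1
    · exact fun h' => h.vY (mV _ h').1
  omega

/-- the data of one dirty set with one element -/
private theorem tv_one (h : Ty ρ R u v x y z Y) {Z : Finset E} (d : Dirty ρ R u v x y z Y Z) {w : E} (hw : Z = {w}) :
    ρ (insert w (insert u (insert v (insert x (insert y {z}))))) = ρ (insert u (insert v (insert x (insert y {z})))) ∧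
      ρ (Y \ {w}) ≤ R - 2 := by
  subst hw
  have hwY : w ∈ Y := Finset.singleton_subset_iff.1 d.sub
  have c1 := h.d_cl d
  have q1 := h.d_cc d
  have e1 : ρ (insert u (insert v {w})) = 3 := h.three h.uG h.vG (h.YG hwY) h.uv (by
    rintro rfl; exact h.uY hwY) (by rintro rfl; exact h.vY hwY)
  have e2 : ρ (insert u (insert v {y})) = 3 := h.three h.uG h.vG h.yG h.uv h.uy h.vy
  have e3 : (insert w (insert u (insert v {y})) : Finset E) = insert y (insert u (insert v {w})) := by
    ext a
    simp only [Finset.mem_insert, Finset.mem_singleton]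
    tauto
  constructor
  · refine tv_cl h.rk (A := insert u (insert v {y})) ?_ ?_
    · rw [e3]
      omega
    · intro a ha
      simp only [Finset.mem_insert, Finset.mem_singleton] at ha ⊢
      tauto
  · have e4 := h.rk.mono (insert x (insert y (insert z (Y \ {w})))) (gT u v x y z Y) (by
      intro a ha
      rw [mem_gT]
      simp only [Finset.mem_insert, Finset.mem_sdiff] at ha
      tauto)
    have e5 := h.nz (B := Y \ {w}) (Finset.sdiff_subset.trans (Finset.subset_insert _ _))
    have e6 := h.rk.mono (insert z (Y \ {w})) (insert y (insert z (Y \ {w}))) (Finset.subset_insert _ _)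
    have e7 := h.rG
    omega

/-- the sets of two dirty pairs meet (permuted forms of the second pair are given by its facts) -/
private theorem tv_meet (h : Ty ρ R u v x y z Y) {Z Z' : Finset E} (d : Dirty ρ R u v x y z Y Z) (hZ' : Z' ⊆ Y)
    (o' : Old ρ R v x y z Y Z') (n' : 1 ≤ Z'.card)
    (hm : Z ⊆ Y \ Z' → Z' ⊆ Y \ Z → 2 ≤ Z.card → False)
    (h1 : ∀ w : E, Z' = {w} → ρ (insert w (insert u (insert v (insert x (insert y {z}))))) = ρ (insert u (insert v (insert x (insert y {z})))) ∧
      ρ (Y \ {w}) ≤ R - 2) : (Z ∩ Z').Nonempty := by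
  by_contra hcon
  rw [Finset.not_nonempty_iff_eq_empty] at hcon
  have hd : Z ⊆ Y \ Z' := fun a ha => Finset.mem_sdiff.2 ⟨d.sub ha, fun h' => by
    have : a ∈ Z ∩ Z' := Finset.mem_inter.2 ⟨ha, h'⟩
    rw [hcon] at this
    exact Finset.notMem_empty a this⟩
  have hd' : Z' ⊆ Y \ Z := fun a ha => Finset.mem_sdiff.2 ⟨hZ' ha, fun h' => by
    have : a ∈ Z ∩ Z' := Finset.mem_inter.2 ⟨h', ha⟩
    rw [hcon] at this
    exact Finset.notMem_empty a this⟩
  have n := d.one
  by_cases c' : 2 ≤ Z'.card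
  · exact h.d_meet d.sub hZ' (h.d_cl d) o' c' hd
  by_cases c : 2 ≤ Z.card
  · exact hm hd hd' c
  obtain ⟨w, hw⟩ := Finset.card_eq_one.1 (by omega : Z.card = 1)
  obtain ⟨w', hw'⟩ := Finset.card_eq_one.1 (by omega : Z'.card = 1)
  obtain ⟨a1, a2⟩ := tv_one h d hw
  obtain ⟨b1, b2⟩ := h1 w' hw'
  have m1 : w ∈ Z := by rw [hw]; exact Finset.mem_singleton_self w
  have m2 : w' ∈ Z' := by rw [hw']; exact Finset.mem_singleton_self w'
  refine tv_single h (d.sub m1) (hZ' m2) ?_ a1 b1 a2 b2
  rintro rfl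
  exact (Finset.mem_sdiff.1 (hd m1)).2 m2

/-- `(x\,y/)` and `(y\,x/)` -/
theorem un3a (h : Ty ρ R u v x y z Y) {Z Z' : Finset E} (d : Dirty ρ R u v x y z Y Z) (d' : Dirty ρ R u v y x z Y Z') : False := by
  have hs : Ty ρ R u v y x z Y := h.swap
  have o1 := h.d_old d
  have o2 : Old ρ R v x y z Y Z' := Old.swap (hs.d_old d')
  have c1 := h.d_cl d
  have c2 := hs.d_cl d'
  have q1 := h.d_cc d
  have q2 := hs.d_cc d'
  have hm := tv_meet h d d'.sub o2 d'.one (fun _ h1 h2 => hs.d_meet d'.sub d.sub c2 (Old.swap o1) h2 h1) (fun w hw => by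
    have := tv_one hs d' hw
    rwa [Finset.insert_comm y x] at this)
  have v1 : Y \ (Z ∪ Z') ⊆ Y \ Z := Finset.sdiff_subset_sdiff (Finset.Subset.refl _) Finset.subset_union_left
  have v2 : Y \ (Z ∪ Z') ⊆ Y \ Z' := Finset.sdiff_subset_sdiff (Finset.Subset.refl _) Finset.subset_union_right
  refine tv_core h d.sub d'.sub o1 o2 hm (h.d_neY d.sub d'.sub c1 o1 o2 d.two d'.two) ?_ ?_
  · have b1 : ρ (insert x (insert u (insert v (Z ∪ Z')))) = ρ (insert u (insert v (Z ∪ Z'))) :=
      tv_cl h.rk c2 (Finset.insert_subset_insert _ (Finset.insert_subset_insert _ Finset.subset_union_right))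
    have b2 : ρ (insert y (insert x (insert u (insert v (Z ∪ Z'))))) = ρ (insert x (insert u (insert v (Z ∪ Z')))) :=
      tv_cl h.rk c1 ((Finset.insert_subset_insert _ (Finset.insert_subset_insert _ Finset.subset_union_left)).trans (Finset.subset_insert _ _))
    have b3 := h.cz (B := insert y (insert x (insert u (insert v (Z ∪ Z'))))) (by simp) (by simp) (by simp)
    have b4 : insert x (insert y (insert z (insert u (insert v (Z ∪ Z'))))) = insert z (insert y (insert x (insert u (insert v (Z ∪ Z'))))) := by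
      rw [Finset.insert_comm y z, Finset.insert_comm x z, Finset.insert_comm x y]
    rw [b4]
    omega
  · have g1 := tv_ncl h.rk q1 (Finset.insert_subset_insert y (Finset.insert_subset_insert z v1))
    have g2 := tv_ncl h.rk q2 (A := insert z (Y \ (Z ∪ Z'))) ((Finset.insert_subset_insert z v2).trans (Finset.subset_insert _ _))
    have g3 := h.nz (B := Y \ (Z ∪ Z')) (Finset.sdiff_subset.trans (Finset.subset_insert _ _))
    omega

/-- `(x\,y/)` and `(y\,z/)` -/
theorem un3b (h : Ty ρ R u v x y z Y) {Z Z' : Finset E} (d : Dirty ρ R u v x y z Y Z) (d' : Dirty ρ R u v y z x Y Z') : False := by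
  have hs : Ty ρ R u v y z x Y := h.rot
  have o1 := h.d_old d
  have o2 : Old ρ R v x y z Y Z' := Old.rot (Old.rot (hs.d_old d'))
  have c1 := h.d_cl d
  have c2 := hs.d_cl d'
  have q1 := h.d_cc d
  have q2 := hs.d_cc d'
  have hm := tv_meet h d d'.sub o2 d'.one (fun _ h1 h2 => hs.d_meet d'.sub d.sub c2 (Old.rot o1) h2 h1) (fun w hw => by
    have := tv_one hs d' hw
    have e : (insert y (insert z {x}) : Finset E) = insert x (insert y {z}) := by
      ext a
      simp only [Finset.mem_insert, Finset.mem_singleton]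
      tauto
    rwa [e] at this)
  have v1 : Y \ (Z ∪ Z') ⊆ Y \ Z := Finset.sdiff_subset_sdiff (Finset.Subset.refl _) Finset.subset_union_left
  have v2 : Y \ (Z ∪ Z') ⊆ Y \ Z' := Finset.sdiff_subset_sdiff (Finset.Subset.refl _) Finset.subset_union_right
  refine tv_core h d.sub d'.sub o1 o2 hm (h.d_neY d.sub d'.sub c1 o1 o2 d.two d'.two) ?_ ?_
  · have b1 : ρ (insert z (insert u (insert v (Z ∪ Z')))) = ρ (insert u (insert v (Z ∪ Z'))) :=
      tv_cl h.rk c2 (Finset.insert_subset_insert _ (Finset.insert_subset_insert _ Finset.subset_union_right))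
    have b2 : ρ (insert y (insert z (insert u (insert v (Z ∪ Z'))))) = ρ (insert z (insert u (insert v (Z ∪ Z')))) :=
      tv_cl h.rk c1 ((Finset.insert_subset_insert _ (Finset.insert_subset_insert _ Finset.subset_union_left)).trans (Finset.subset_insert _ _))
    have b3 := h.cx (B := insert y (insert z (insert u (insert v (Z ∪ Z'))))) (by simp) (by simp) (by simp)
    omega
  · have g1 := tv_ncl h.rk q1 (Finset.insert_subset_insert y (Finset.insert_subset_insert z v1))
    have g2 := tv_ncl h.rk q2 (A := insert z (Y \ (Z ∪ Z'))) (Finset.insert_subset_insert z (v2.trans (Finset.subset_insert _ _)))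
    have g3 := h.nz (B := Y \ (Z ∪ Z')) (Finset.sdiff_subset.trans (Finset.subset_insert _ _))
    omega

/-- **at most one dirty pair** -/
theorem uniq (h : Ty ρ R u v x y z Y) {Z : Finset E} (d : Dirty ρ R u v x y z Y Z) :
    (¬ ∃ Z', Dirty ρ R u v x z y Y Z') ∧ (¬ ∃ Z', Dirty ρ R u v y x z Y Z') ∧ (¬ ∃ Z', Dirty ρ R u v y z x Y Z') ∧
      (¬ ∃ Z', Dirty ρ R u v z x y Y Z') ∧ ¬ ∃ Z', Dirty ρ R u v z y x Y Z' :=
  ⟨fun ⟨_, d'⟩ => h.un1 d d', fun ⟨_, d'⟩ => h.un3a d d', fun ⟨_, d'⟩ => h.un3b d d', fun ⟨_, d'⟩ => h.rot.rot.un3b d' d,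
    fun ⟨_, d'⟩ => h.un2 d d'⟩

end Ty

end Pool.Agent.QU
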