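import Pool.Agent.QUR.TyD
import Pool.Agent.QUR.TyH

/-!
# QUR/TyW: a dirty pair with `|Y - Z| = 2`

If `Y - Z` has two elements then each of them is good (`GfH`).
-/

set_option autoImplicit false

open QUB

namespace Pool.Agent.QU

variable {E : Type} [DecidableEq E] {ρ : Finset E → ℤ} {R : ℤ} {u v x y z : E} {Y : Finset E}

/-- the ranks around `Y - Z = {a, b}` -/
structure W2 (ρ : Finset E → ℤ) (R : ℤ) (v x y z : E) (Y Z : Finset E) (a b : E) : Prop where
  ZY : Z ⊆ Y
  aY : a ∈ Y
  bY : b ∈ Y
  aZ : a ∉ Z
  bZ : b ∉ Z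
  ab : a ≠ b
  cov : ∀ w ∈ Y, w = a ∨ w = b ∨ w ∈ Z
  /-- `r (v + Z)` -/
  k1 : ρ (insert v Z) = R - 2
  k2 : ρ (insert a (insert b (insert v (insert x (insert y {z}))))) = 4
  k3 : ρ (insert b (insert v (insert x (insert y {z})))) = 4
  k4 : ρ (insert b (insert v Z)) = R - 1

namespace Ty

theorem w2 (h : Ty ρ R u v x y z Y) {Z : Finset E} (d : Dirty ρ R u v x y z Y Z) (h2 : (Y \ Z).card = 2) (h4 : 2 ≤ Z.card) {a b : E}
    (ha : a ∈ Y \ Z) (hb : b ∈ Y \ Z) (hab : a ≠ b) : W2 ρ R v x y z Y Z a b := by
  have hr := h.rk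
  have ha' := Finset.mem_sdiff.1 ha
  have hb' := Finset.mem_sdiff.1 hb
  have hW : Y \ Z = {a, b} := by
    symm
    apply Finset.eq_of_subset_of_card_le
    · intro w hw
      simp only [Finset.mem_insert, Finset.mem_singleton] at hw
      rcases hw with rfl | rfl
      · exact ha
      · exact hb
    · rw [h2, Finset.card_pair hab]
  have hcov : ∀ w ∈ Y, w = a ∨ w = b ∨ w ∈ Z := by
    intro w hw
    by_cases hwZ : w ∈ Z
    · exact Or.inr (Or.inr hwZ)
    · have h1 : w ∈ Y \ Z := Finset.mem_sdiff.2 ⟨hw, hwZ⟩
      rw [hW] at h1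
      simp only [Finset.mem_insert, Finset.mem_singleton] at h1
      tauto
  have ne : ∀ w ∈ Y, w ≠ u ∧ w ≠ v ∧ w ≠ x ∧ w ≠ y ∧ w ≠ z := by
    intro w hw
    exact ⟨fun h' => h.uY (h' ▸ hw), fun h' => h.vY (h' ▸ hw), fun h' => h.xY (h' ▸ hw), fun h' => h.yY (h' ▸ hw), fun h' => h.zY (h' ▸ hw)⟩
  have na := ne a ha'.1
  have nb := ne b hb'.1
  -- ranks of the complement of `{u, a, b}`
  have r1 : ρ (gT u v x y z Y \ {u, a, b}) = R := h.d3 _ (by
    intro w hw
    simp only [Finset.mem_insert, Finset.mem_singleton] at hw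
    rcases hw with rfl | rfl | rfl
    · exact h.uG
    · exact h.YG ha'.1
    · exact h.YG hb'.1) Finset.card_le_three
  have s1 : gT u v x y z Y \ {u, a, b} = insert v (insert x (insert y {z})) ∪ insert v Z := by
    ext w
    have c1 := hcov w
    have c2 : w ∈ Z → w ∈ Y ∧ w ≠ a ∧ w ≠ b ∧ w ≠ u := fun h' =>
      ⟨d.sub h', fun h3 => ha'.2 (h3 ▸ h'), fun h3 => hb'.2 (h3 ▸ h'), fun h3 => h.uY (h3 ▸ d.sub h')⟩
    have c3 : w = v → w ≠ u ∧ w ≠ a ∧ w ≠ b := by rintro rfl; exact ⟨h.uv.symm, na.2.1.symm, nb.2.1.symm⟩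
    have c4 : w = x → w ≠ u ∧ w ≠ a ∧ w ≠ b := by rintro rfl; exact ⟨h.ux.symm, na.2.2.1.symm, nb.2.2.1.symm⟩
    have c5 : w = y → w ≠ u ∧ w ≠ a ∧ w ≠ b := by rintro rfl; exact ⟨h.uy.symm, na.2.2.2.1.symm, nb.2.2.2.1.symm⟩
    have c6 : w = z → w ≠ u ∧ w ≠ a ∧ w ≠ b := by rintro rfl; exact ⟨h.uz.symm, na.2.2.2.2.symm, nb.2.2.2.2.symm⟩
    rw [Finset.mem_sdiff, mem_gT]
    simp only [Finset.mem_insert, Finset.mem_singleton, Finset.mem_union]
    clear h d ne na nb hcov r1 hW ha hb ha' hb'
    tauto
  have r2 := hr.sub (insert v (insert x (insert y {z}))) (insert v Z)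
  have r3 := hr.mono {v} (insert v (insert x (insert y {z})) ∩ insert v Z) (by
    intro w hw
    rw [Finset.mem_singleton] at hw
    rw [hw, Finset.mem_inter]
    exact ⟨Finset.mem_insert_self _ _, Finset.mem_insert_self _ _⟩)
  rw [← s1, r1] at r2
  have r4 := h.cir
  have r5 := h.one h.vG
  have hlow : R - 2 ≤ ρ (insert v Z) := by omega
  -- the upper bound from the separation
  have o := h.d_old d
  have hcl := h.d_cl d
  have hsep := d.sep
  have hZv : insert v Z ⊆ insert v Y := Finset.insert_subset_insert v d.sub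
  have r6 := h.nu hZv
  rw [hW] at hsep
  -- `{y, z, a, b}` has rank at least three
  have r7 : 3 ≤ ρ (insert y (insert z {a, b})) := by
    have h1 := h.three h.yG h.zG (h.YG ha'.1) h.yz na.2.2.2.1.symm na.2.2.2.2.symm
    have h3 := hr.mono {y, z, a} (insert y (insert z {a, b})) (by
      intro w hw
      simp only [Finset.mem_insert, Finset.mem_singleton] at hw ⊢
      tauto)
    omega
  have k1 : ρ (insert v Z) = R - 2 := by omega
  have r8 : ρ (insert y (insert z {a, b})) = 3 := by omega
  have k23 : ∀ a b : E, a ∈ Y → b ∈ Y → a ≠ b → (∀ w, w ∈ Y \ Z ↔ w = a ∨ w = b) → a ∉ Z → b ∉ Z →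
      ρ (insert y (insert z {a, b})) = 3 →
      ρ (insert a (insert b (insert v (insert x (insert y {z}))))) = 4 ∧ ρ (insert b (insert v (insert x (insert y {z})))) = 4 ∧
      ρ (insert b (insert v Z)) = R - 1 := by
    intro a b haY hbY hab hW haZ hbZ r8
    have na := ne a haY
    have nb := ne b hbY
    have e0 := hr.unit (insert v (insert x (insert y {z}))) b
    -- `a` is spanned by `y, z, b`
    have e1 := h.three h.yG h.zG (h.YG hbY) h.yz nb.2.2.2.1.symm nb.2.2.2.2.symm
    have e2 : insert a ({y, z, b} : Finset E) = insert y (insert z {a, b}) := by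
      ext w
      simp only [Finset.mem_insert, Finset.mem_singleton]
      tauto
    have e3 := QUB.marg hr (show ({y, z, b} : Finset E) ⊆ insert b (insert v (insert x (insert y {z}))) by
      intro w hw
      simp only [Finset.mem_insert, Finset.mem_singleton] at hw ⊢
      tauto) a
    rw [e2, r8, e1] at e3
    have e4 := hr.mono _ _ (Finset.subset_insert a (insert b (insert v (insert x (insert y {z})))))
    -- connectivity of `q` at `Z`
    have e5 := h.cdc u h.uG v h.vG h.uv Z (insert a (insert b (insert v (insert x (insert y {z}))))) (by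
      intro w h1 h2 h3
      rcases mem_gT.1 h1 with rfl | rfl | rfl | rfl | rfl | h4
      · exact absurd rfl h2
      · exact absurd rfl h3
      · right; simp
      · right; simp
      · right; simp
      · by_cases hwZ : w ∈ Z
        · exact Or.inl hwZ
        · right
          have h5 := (hW w).1 (Finset.mem_sdiff.2 ⟨h4, hwZ⟩)
          simp only [Finset.mem_insert]
          tauto) (by
      obtain ⟨s, hs⟩ := Finset.card_pos.1 (by omega : 0 < Z.card)
      have hs' := ne s (d.sub hs)
      refine ⟨s, h.YG (d.sub hs), hs'.1, hs'.2.1, ?_⟩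
      simp only [Finset.mem_insert, Finset.mem_singleton, not_or]
      exact ⟨fun h' => haZ (h' ▸ hs), fun h' => hbZ (h' ▸ hs), hs'.2.1, hs'.2.2.1, hs'.2.2.2.1, hs'.2.2.2.2⟩)
      ⟨x, h.xG, h.ux.symm, h.vx.symm, fun h' => h.xY (d.sub h')⟩
    rw [Finset.insert_eq_of_mem (show v ∈ insert a (insert b (insert v (insert x (insert y {z})))) by simp)] at e5
    refine ⟨by omega, by omega, ?_⟩
    -- `b` is not in the closure of `v + Z`
    have f1 := hr.unit (insert v Z) b
    have f2 := hr.mono _ _ (Finset.subset_insert b (insert v Z))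
    by_contra hcon
    have f3 : ρ (insert b (insert v Z)) = ρ (insert v Z) := by omega
    have f4 := QUB.marg hr (show insert v Z ⊆ insert y (insert u (insert v Z)) by
      intro w hw
      simp only [Finset.mem_insert] at hw ⊢
      tauto) b
    have f5 : ρ (gT u v x y z Y \ {x, z, a}) = R := h.d3 _ (by
      intro w hw
      simp only [Finset.mem_insert, Finset.mem_singleton] at hw
      rcases hw with rfl | rfl | rfl
      · exact h.xG
      · exact h.zG
      · exact h.YG haY) Finset.card_le_three
    have f6 := hr.mono (gT u v x y z Y \ {x, z, a}) (insert b (insert y (insert u (insert v Z)))) (by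
      intro w hw
      rw [Finset.mem_sdiff, mem_gT] at hw
      simp only [Finset.mem_insert, Finset.mem_singleton, not_or] at hw ⊢
      obtain ⟨h1, h2, h3, h4⟩ := hw
      rcases h1 with h1 | h1 | h1 | h1 | h1 | h1
      · tauto
      · tauto
      · exact absurd h1 h2
      · tauto
      · exact absurd h1 h3
      · by_cases hwZ : w ∈ Z
        · tauto
        · have h5 := (hW w).1 (Finset.mem_sdiff.2 ⟨h1, hwZ⟩)
          tauto)
    omega
  have kk := k23 a b ha'.1 hb'.1 hab (by
    intro w
    rw [hW]
    simp only [Finset.mem_insert, Finset.mem_singleton]) ha'.2 hb'.2 r8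
  exact ⟨d.sub, ha'.1, hb'.1, ha'.2, hb'.2, hab, hcov, k1, kk.1, kk.2.1, kk.2.2⟩

end Ty

namespace W2

variable {Z : Finset E} {a b : E}

/-- `a` is spanned by `v, x, y, z, b` -/
theorem cla (hr : Rk ρ) (k : W2 ρ R v x y z Y Z a b) {B : Finset E} (hB : insert b (insert v (insert x (insert y {z}))) ⊆ B) :
    ρ (insert a B) = ρ B := by
  have h1 := QUB.marg hr hB a
  have h2 := k.k2
  have h3 := k.k3
  have h4 := hr.mono _ _ (Finset.subset_insert a B)
  omega

/-- a side of `q \ a` which does not contain `b` or contains `b`: its part in `Z` is a side of `q` -/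
theorem side (h : Ty ρ R u v x y z Y) (k : W2 ρ R v x y z Y Z a b) {S B : Finset E} {m : ℤ} (hS : S ⊆ Y.erase a) (hB : B = S ∩ Z)
    (hl : ρ (insert v S) + ρ (insert v (insert x (insert y (insert z (Y.erase a \ S))))) ≤ m) (hb : b ∈ S) :
    ρ (insert v B) + ρ (insert v (insert x (insert y (insert z (Y \ B))))) ≤ m := by
  have hr := h.rk
  have hSm : ∀ w, w ∈ S → w ∈ Y ∧ w ≠ a := fun w hw => by
    have := Finset.mem_erase.1 (hS hw)
    exact ⟨this.2, this.1⟩
  have hBZ : ∀ w, w ∈ B ↔ w ∈ S ∧ w ∈ Z := by
    intro w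
    rw [hB, Finset.mem_inter]
  have hcov := k.cov
  have hZY : ∀ w, w ∈ Z → w ∈ Y := fun w hw => k.ZY hw
  have e1 := hr.sub (insert v S) (insert v Z)
  have e2 : insert v S ∪ insert v Z = insert b (insert v Z) := by
    ext w
    have c1 := hcov w
    have c2 := hSm w
    have c3 : w = b → w ∈ S := by rintro rfl; exact hb
    simp only [Finset.mem_union, Finset.mem_insert]
    tauto
  have e3 := hr.mono (insert v B) (insert v S ∩ insert v Z) (by
    intro w hw
    rw [Finset.mem_insert, hBZ] at hw
    rw [Finset.mem_inter, Finset.mem_insert, Finset.mem_insert]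
    tauto)
  have e4 := hr.sub (insert v (insert x (insert y (insert z (Y.erase a \ S))))) (insert b (insert v (insert x (insert y {z}))))
  have e5 := hr.mono (insert v (insert x (insert y {z})))
    (insert v (insert x (insert y (insert z (Y.erase a \ S)))) ∩ insert b (insert v (insert x (insert y {z})))) (by
    intro w hw
    simp only [Finset.mem_inter, Finset.mem_insert, Finset.mem_singleton] at hw ⊢
    tauto)
  have e6 := cla hr k (B := insert v (insert x (insert y (insert z (Y.erase a \ S)))) ∪ insert b (insert v (insert x (insert y {z}))))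
    Finset.subset_union_right
  have e7 := hr.mono (insert v (insert x (insert y (insert z (Y \ B)))))
    (insert a (insert v (insert x (insert y (insert z (Y.erase a \ S)))) ∪ insert b (insert v (insert x (insert y {z}))))) (by
    intro w hw
    have c1 := hcov w
    have c2 := hBZ w
    simp only [Finset.mem_union, Finset.mem_insert, Finset.mem_sdiff, Finset.mem_erase, Finset.mem_singleton] at hw ⊢
    tauto)
  have k1 := k.k1
  have k3 := k.k3
  have k4 := k.k4
  have c := h.cir
  rw [e2] at e1
  omega

end W2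

namespace Ty

/-- the elements of `Y - Z` are good -/
theorem gfh_two (h : Ty ρ R u v x y z Y) {Z : Finset E} (d : Dirty ρ R u v x y z Y Z) (h2 : (Y \ Z).card = 2) (h4 : 4 ≤ Z.card) {w : E}
    (hw : w ∈ Y \ Z) : GfH ρ R u v x y z Y w := by
  have hr := h.rk
  obtain ⟨b, hb, hbw⟩ := Finset.exists_mem_ne (by omega : 1 < (Y \ Z).card) w
  have k := h.w2 d h2 (by omega) hw hb hbw.symm
  have hwY := k.aY
  have hbY := k.bY
  have ne : ∀ s ∈ Y, s ≠ u ∧ s ≠ v ∧ s ≠ x ∧ s ≠ y ∧ s ≠ z := by
    intro s hs
    exact ⟨fun h' => h.uY (h' ▸ hs), fun h' => h.vY (h' ▸ hs), fun h' => h.xY (h' ▸ hs), fun h' => h.yY (h' ▸ hs), fun h' => h.zY (h' ▸ hs)⟩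
  have nw := ne w hwY
  have nb := ne b hbY
  have oZ : Old ρ R v x y z Y Z := h.d_old d
  have vZ := h.o_v k.ZY (by omega) oZ
  -- (g5)
  have g5 : ρ (Y.erase w) = R - 1 := by
    have e1 : Y.erase w = insert b Z := by
      ext s
      have c1 := k.cov s
      have c2 : s ∈ Z → s ∈ Y ∧ s ≠ w := fun h' => ⟨k.ZY h', fun h3 => k.aZ (h3 ▸ h')⟩
      have c3 : s = b → s ∈ Y ∧ s ≠ w := by rintro rfl; exact ⟨hbY, hbw⟩
      rw [Finset.mem_erase, Finset.mem_insert]
      tauto
    rw [e1]
    have e2 := QUB.marg hr (Finset.subset_insert b Z) v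
    rw [Finset.insert_comm v b] at e2
    have e3 := hr.mono (insert b Z) (insert b (insert v Z)) (Finset.insert_subset_insert _ (Finset.subset_insert _ _))
    have e4 := k.k4
    omega
  -- the sides
  have sides : ∀ S ⊆ Y.erase w, b ∉ S → ∀ m : ℤ, ρ (insert v S) + ρ (insert v (insert x (insert y (insert z (Y.erase w \ S))))) ≤ m →
      ρ (insert v S) + ρ (insert v (insert x (insert y (insert z (Y \ S))))) ≤ m := by
    intro S hS hbS m hl
    have e1 := W2.cla hr k (B := insert v (insert x (insert y (insert z (Y.erase w \ S))))) (by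
      intro s hs
      simp only [Finset.mem_insert, Finset.mem_singleton, Finset.mem_sdiff, Finset.mem_erase] at hs ⊢
      rcases hs with rfl | hs
      · right; right; right; right
        exact ⟨⟨hbw, hbY⟩, hbS⟩
      · tauto)
    have e2 := hr.mono (insert v (insert x (insert y (insert z (Y \ S))))) (insert w (insert v (insert x (insert y (insert z (Y.erase w \ S))))))
      (by
        intro s hs
        simp only [Finset.mem_insert, Finset.mem_sdiff, Finset.mem_erase] at hs ⊢
        tauto)
    omega
  have hu : ∀ S ⊆ Y.erase w, 3 ≤ S.card → S ≠ Y.erase w →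
      ρ (insert v S) + ρ (insert v (insert x (insert y (insert z (Y.erase w \ S))))) ≤ R + 2 →
      ρ (insert v S) = ρ S ∧
        ρ (insert u (insert v (insert x (insert y (insert z (Y.erase w \ S)))))) = ρ (insert v (insert x (insert y (insert z (Y.erase w \ S))))) + 1 := by
    intro S hS hS3 _ hl
    have hSY : S ⊆ Y := hS.trans (Finset.erase_subset _ _)
    -- an old part `B` of `S`
    obtain ⟨B, hBS, hB2, hBo⟩ : ∃ B ⊆ S, 2 ≤ B.card ∧ Old ρ R v x y z Y B := by
      by_cases hbS : b ∈ S
      · refine ⟨S ∩ Z, Finset.inter_subset_left, ?_, W2.side h k hS rfl hl hbS⟩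
        have e1 : S.erase b ⊆ S ∩ Z := by
          intro s hs
          have h1 := Finset.mem_erase.1 hs
          refine Finset.mem_inter.2 ⟨h1.2, ?_⟩
          have h3 := Finset.mem_erase.1 (hS h1.2)
          rcases k.cov s h3.2 with h5 | h5 | h5
          · exact absurd h5 h3.1
          · exact absurd h5 h1.1
          · exact h5
        have e2 := Finset.card_le_card e1
        rw [Finset.card_erase_of_mem hbS] at e2
        omega
      · exact ⟨S, Finset.Subset.refl _, by omega, sides S hS hbS _ hl⟩
    have e1 := h.o_v (hBS.trans hSY) hB2 hBo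
    have e2 := h.o_u (hBS.trans hSY) hB2 hBo
    constructor
    · have e3 := QUB.marg hr hBS v
      have e4 := hr.mono _ _ (Finset.subset_insert v S)
      omega
    · have e3 := QUB.marg hr (show insert v (insert x (insert y (insert z (Y.erase w \ S)))) ⊆ insert v (insert x (insert y (insert z (Y \ B)))) by
        intro s hs
        have c1 := @hBS s
        simp only [Finset.mem_insert, Finset.mem_sdiff, Finset.mem_erase] at hs ⊢
        tauto) u
      have e4 := hr.unit (insert v (insert x (insert y (insert z (Y.erase w \ S))))) u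
      omega
  refine ⟨hwY, ?_, hu, g5⟩
  -- connectivity
  intro A B hcov hA hB
  by_contra hcon
  push Not at hcon
  -- a side in `Z` of order zero is impossible
  have nz : ∀ S ⊆ Y, S.Nonempty → R + 2 ≤ ρ (insert v S) + ρ (insert v (insert x (insert y (insert z (Y \ S))))) := by
    intro S hS hne
    obtain ⟨s, hs⟩ := hne
    have e1 := h.cdc u h.uG v h.vG h.uv S (insert v (insert x (insert y (insert z (Y \ S))))) (by
      intro t h1 h2 h3
      rcases mem_gT.1 h1 with rfl | rfl | rfl | rfl | rfl | h4
      · exact absurd rfl h2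
      · exact absurd rfl h3
      · right; simp
      · right; simp
      · right; simp
      · by_cases htS : t ∈ S
        · exact Or.inl htS
        · right
          simp [h4, htS]) (by
      have hs' := ne s (hS hs)
      refine ⟨s, h.YG (hS hs), hs'.1, hs'.2.1, ?_⟩
      simp only [Finset.mem_insert, Finset.mem_sdiff, not_or]
      exact ⟨hs'.2.1, hs'.2.2.1, hs'.2.2.2.1, hs'.2.2.2.2, fun h' => h'.2 hs⟩)
      ⟨x, h.xG, h.ux.symm, h.vx.symm, fun h' => h.xY (hS h')⟩
    rw [Finset.insert_eq_of_mem (show v ∈ insert v (insert x (insert y (insert z (Y \ S)))) by simp)] at e1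
    exact e1
  -- main claim: `x, y, z` on one side
  have main : ∀ A B : Finset E, (∀ t ∈ gT u v x y z Y, t ≠ u → t ≠ v → t ≠ w → t ∈ A ∨ t ∈ B) →
      (∃ s ∈ gT u v x y z Y, s ≠ u ∧ s ≠ v ∧ s ≠ w ∧ s ∉ A) → x ∈ A → y ∈ A → z ∈ A → ρ (insert v A) + ρ (insert v B) < R + 2 → False := by
    intro A B hcov hB hx hy hz hl
    obtain ⟨s, hs, su, sv, sw, sA⟩ := hB
    have hsY : s ∈ Y := memY hs su sv (fun h' => sA (h' ▸ hx)) (fun h' => sA (h' ▸ hy)) (fun h' => sA (h' ▸ hz))
    set S := (Y.erase w) \ A with hS
    have hSe : S ⊆ Y.erase w := Finset.sdiff_subset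
    have hsS : s ∈ S := Finset.mem_sdiff.2 ⟨Finset.mem_erase.2 ⟨sw, hsY⟩, sA⟩
    have hSB : insert v S ⊆ insert v B := by
      intro t ht
      rcases Finset.mem_insert.1 ht with rfl | ht
      · exact Finset.mem_insert_self _ _
      · have h1 := Finset.mem_sdiff.1 ht
        have h3 := Finset.mem_erase.1 h1.1
        have h5 := ne t h3.2
        rcases hcov t (h.YG h3.2) h5.1 h5.2.1 h3.1 with h6 | h6
        · exact absurd h6 h1.2
        · exact Finset.mem_insert_of_mem h6
    have hSA : insert v (insert x (insert y (insert z (Y.erase w \ S)))) ⊆ insert v A := by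
      intro t ht
      simp only [hS, Finset.mem_insert, Finset.mem_sdiff, Finset.mem_erase, not_and, not_not] at ht
      rw [Finset.mem_insert]
      rcases ht with rfl | rfl | rfl | rfl | ht
      · exact Or.inl rfl
      · exact Or.inr hx
      · exact Or.inr hy
      · exact Or.inr hz
      · exact Or.inr (ht.2 ht.1)
    have m1 := hr.mono _ _ hSB
    have m2 := hr.mono _ _ hSA
    by_cases hbS : b ∈ S
    · by_cases hSZ : (S ∩ Z).Nonempty
      · have e1 := W2.side h k (m := R + 1) hSe rfl (by omega) hbS
        have e2 := nz (S ∩ Z) (Finset.inter_subset_right.trans k.ZY) hSZ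
        omega
      · -- `S = {b}`
        have e1 := h.two h.vG (h.YG hbY) nb.2.1.symm
        have e2 := hr.mono {v, b} (insert v S) (by
          intro t ht
          simp only [Finset.mem_insert, Finset.mem_singleton] at ht ⊢
          rcases ht with rfl | rfl
          · exact Or.inl rfl
          · exact Or.inr hbS)
        have e3 : ρ (gT u v x y z Y \ {u, w, b}) = R := h.d3 _ (by
          intro t ht
          simp only [Finset.mem_insert, Finset.mem_singleton] at ht
          rcases ht with rfl | rfl | rfl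
          · exact h.uG
          · exact h.YG hwY
          · exact h.YG hbY) Finset.card_le_three
        have e4 := hr.mono (gT u v x y z Y \ {u, w, b}) (insert v (insert x (insert y (insert z (Y.erase w \ S))))) (by
          intro t ht
          rw [Finset.mem_sdiff, mem_gT] at ht
          simp only [Finset.mem_insert, Finset.mem_singleton, not_or, Finset.mem_sdiff, Finset.mem_erase] at ht ⊢
          obtain ⟨h1, h2, h3, h4⟩ := ht
          rcases h1 with h1 | h1 | h1 | h1 | h1 | h1
          · exact absurd h1 h2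
          · tauto
          · tauto
          · tauto
          · tauto
          · right; right; right; right
            refine ⟨⟨h3, h1⟩, fun h5 => hSZ ⟨t, Finset.mem_inter.2 ⟨h5, ?_⟩⟩⟩
            rcases k.cov t h1 with h6 | h6 | h6
            · exact absurd h6 h3
            · exact absurd h6 h4
            · exact h6)
        omega
    · have e1 := sides S hSe hbS (R + 1) (by omega)
      have e2 := nz S (hSe.trans (Finset.erase_subset _ _)) ⟨s, hsS⟩
      omega
  -- two of `x, y, z` on a side: move the third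
  have two : ∀ A B : Finset E, (∀ t ∈ gT u v x y z Y, t ≠ u → t ≠ v → t ≠ w → t ∈ A ∨ t ∈ B) →
      (∃ s ∈ gT u v x y z Y, s ≠ u ∧ s ≠ v ∧ s ≠ w ∧ s ∉ A) →
      (x ∈ A ∧ y ∈ A ∨ x ∈ A ∧ z ∈ A ∨ y ∈ A ∧ z ∈ A) → ρ (insert v A) + ρ (insert v B) < R + 2 → False := by
    intro A B hcov hB hxyz hl
    have hcl : ρ (insert v (insert x (insert y (insert z A)))) = ρ (insert v A) := by
      rcases hxyz with ⟨h1, h3⟩ | ⟨h1, h3⟩ | ⟨h1, h3⟩
      · have e1 : insert v (insert x (insert y (insert z A))) = insert z (insert v A) := by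
          ext t
          have c1 : t = x → t ∈ A := by rintro rfl; exact h1
          have c2 : t = y → t ∈ A := by rintro rfl; exact h3
          simp only [Finset.mem_insert]
          tauto
        rw [e1]
        exact h.cz (Finset.mem_insert_self _ _) (Finset.mem_insert_of_mem h1) (Finset.mem_insert_of_mem h3)
      · have e1 : insert v (insert x (insert y (insert z A))) = insert y (insert v A) := by
          ext t
          have c1 : t = x → t ∈ A := by rintro rfl; exact h1
          have c2 : t = z → t ∈ A := by rintro rfl; exact h3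
          simp only [Finset.mem_insert]
          tauto
        rw [e1]
        exact h.cy (Finset.mem_insert_self _ _) (Finset.mem_insert_of_mem h1) (Finset.mem_insert_of_mem h3)
      · have e1 : insert v (insert x (insert y (insert z A))) = insert x (insert v A) := by
          ext t
          have c1 : t = y → t ∈ A := by rintro rfl; exact h1
          have c2 : t = z → t ∈ A := by rintro rfl; exact h3
          simp only [Finset.mem_insert]
          tauto
        rw [e1]
        exact h.cx (Finset.mem_insert_self _ _) (Finset.mem_insert_of_mem h1) (Finset.mem_insert_of_mem h3)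
    by_cases hex : ∃ s ∈ gT u v x y z Y, s ≠ u ∧ s ≠ v ∧ s ≠ w ∧ s ∉ insert x (insert y (insert z A))
    · refine main (insert x (insert y (insert z A))) B ?_ hex (by simp) (by simp) (by simp) (by rw [hcl]; exact hl)
      intro t h1 h3 h5 h6
      rcases hcov t h1 h3 h5 h6 with h7 | h7
      · left
        simp [h7]
      · exact Or.inr h7
    · push Not at hex
      obtain ⟨s, hs, su, sv, sw, sA⟩ := hB
      have hsX : s = x ∨ s = y ∨ s = z := by
        have h1 := hex s hs su sv sw
        simp only [Finset.mem_insert] at h1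
        tauto
      have hsB : s ∈ B := by
        rcases hcov s hs su sv sw with h1 | h1
        · exact absurd h1 sA
        · exact h1
      have e1 := h.two h.vG hs sv.symm
      have e2 := hr.mono {v, s} (insert v B) (by
        intro t ht
        simp only [Finset.mem_insert, Finset.mem_singleton] at ht ⊢
        rcases ht with rfl | rfl
        · exact Or.inl rfl
        · exact Or.inr hsB)
      have e3 : ρ (gT u v x y z Y \ {u, w, s}) = R := h.d3 _ (by
        intro t ht
        simp only [Finset.mem_insert, Finset.mem_singleton] at ht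
        rcases ht with rfl | rfl | rfl
        · exact h.uG
        · exact h.YG hwY
        · exact hs) Finset.card_le_three
      have e4 := hr.mono (gT u v x y z Y \ {u, w, s}) (insert v (insert x (insert y (insert z A)))) (by
        intro t ht
        rw [Finset.mem_sdiff] at ht
        simp only [Finset.mem_insert, Finset.mem_singleton, not_or] at ht ⊢
        obtain ⟨h1, h3, h5, h6⟩ := ht
        by_cases htv : t = v
        · exact Or.inl htv
        · have h7 := hex t h1 h3 htv h5
          simp only [Finset.mem_insert] at h7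
          exact Or.inr h7)
      omega
  have hA' : ∃ s ∈ gT u v x y z Y, s ≠ u ∧ s ≠ v ∧ s ≠ w ∧ s ∉ B := hA
  have hX : (x ∈ A ∧ y ∈ A ∨ x ∈ A ∧ z ∈ A ∨ y ∈ A ∧ z ∈ A) ∨ (x ∈ B ∧ y ∈ B ∨ x ∈ B ∧ z ∈ B ∨ y ∈ B ∧ z ∈ B) := by
    have c1 := hcov x h.xG h.ux.symm h.vx.symm nw.2.2.1.symm
    have c2 := hcov y h.yG h.uy.symm h.vy.symm nw.2.2.2.1.symm
    have c3 := hcov z h.zG h.uz.symm h.vz.symm nw.2.2.2.2.symm
    tauto
  rcases hX with hX | hX
  · exact two A B hcov hB hX hcon
  · exact two B A (fun t h1 h3 h5 h6 => (hcov t h1 h3 h5 h6).symm) hA hX (by omega)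

end Ty

end Pool.Agent.QU
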