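import Pool.Agent.QUR.ClH
import Pool.Agent.QUR.TyJ
import Pool.Agent.QUR.TyV
import Pool.Agent.QUR.TyW
import Pool.Agent.QUR.TySep

/-!
# QUR/ClT: the tiny case with a dirty pair

`clD`: a good element closes if some pair inside the tiny side is dirty.  `t2`: `|Y \ Z| = 2`.  `t1`: `|Y \ Z| ≥ 4` and an element of `Y \ Z`
outside a rich minor.
-/

set_option autoImplicit false

open QUB

namespace Pool.Agent.QU

open Pool.Agent.FRM

variable {E : Type} [Fintype E] [DecidableEq E] {S : TP F4 E} {p : Itv E} {u v x y z f : E} {X Z : Finset E}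

/-- a good element and a dirty pair -/
theorem clD (h : Cw S p) (hc : Rcf S p u true v false X) (hX : X = {x, y, z}) (xy : x ≠ y) (xz : x ≠ z) (yz : y ≠ z)
    (d : Dirty (rhoP S.r p) (S.r p.2 - S.r p.1) u v x y z (gs (rm true u (rm false v p)) \ X) Z)
    (hf : GfH (rhoP S.r p) (S.r p.2 - S.r p.1) u v x y z (gs (rm true u (rm false v p)) \ X) f)
    (hR : ∃ q', Sub q' (rm true f (rm true u (rm false v p))) ∧ Rich S.r q' ∧ (X ∩ gs q').card ≤ 1) :
    ∃ T : Fm F4 E, InV S.U S.W p T ∧ ¬ EqD S.U S.W p T 0 := by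
  have hr : Rk S.r := S.rk
  have hp := h.hp
  have nt := h.nt
  have hn := h.hn
  obtain ⟨hT, e⟩ := ty_of h hc hX xy xz yz
  obtain ⟨u1, -, -, u4, -⟩ := hT.uniq d
  have hXs : X = {z, x, y} := by
    rw [hX]
    ext w
    simp only [Finset.mem_insert, Finset.mem_singleton]
    tauto
  have e1 : gT u v z x y (gs (rm true u (rm false v p)) \ X) = gs p := by rw [gT_rot, gT_rot, e]
  have e2 : gT u v x z y (gs (rm true u (rm false v p)) \ X) = gs p := by rw [gT_swap, e1]
  refine clH h hc hXs xz.symm yz.symm xy hf.rot.rot hR (w := x) (Or.inl rfl) ?_ ?_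
  · exact ok_star hr hp nt (by omega) hT.rot.rot.swap e2 u1
  · exact ok_star hr hp nt (by omega) hT.rot.rot e1 u4

/-- **two elements in `Y \ Z`** -/
theorem t2 (h : Cw S p) (hc : Rcf S p u true v false X) (hX : X = {x, y, z}) (xy : x ≠ y) (xz : x ≠ z) (yz : y ≠ z)
    (d : Dirty (rhoP S.r p) (S.r p.2 - S.r p.1) u v x y z (gs (rm true u (rm false v p)) \ X) Z)
    (h2 : ((gs (rm true u (rm false v p)) \ X) \ Z).card = 2) :
    ∃ T : Fm F4 E, InV S.U S.W p T ∧ ¬ EqD S.U S.W p T 0 := by
  have hr : Rk S.r := S.rk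
  have hp := h.hp
  have nt := h.nt
  have hn := h.hn
  obtain ⟨hT, e⟩ := ty_of h hc hX xy xz yz
  have hwf := hc.wf hp
  have hg : gs (rm true u (rm false v p)) = ((gs p).erase v).erase u := gs_rm2 _ _ _ _ _
  have hXq := hc.sub
  have hZY := d.sub
  have hZq : Z ⊆ gs (rm true u (rm false v p)) := hZY.trans Finset.sdiff_subset
  -- `Z` is a 2-side of `q`
  have hlZ : QUB.lam S.r (rm true u (rm false v p)) Z ≤ 1 := by
    have h1 := hT.d_old d
    unfold Old at h1
    have h3 := lam_nt hr hp nt (by omega) (K := {v}) (D := {u}) (Finset.singleton_subset_iff.2 hc.mv) (Finset.singleton_subset_iff.2 hc.mu)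
      (by
        intro w hw
        rw [Finset.mem_singleton] at hw ⊢
        rw [hw]
        exact hc.uv.symm) (card_le1 v) (card_le1 u) bx_dc.1 bx_dc.2 hZq
    have h4 : gs (rm true u (rm false v p)) \ Z ⊆ insert x (insert y (insert z ((gs (rm true u (rm false v p)) \ X) \ Z))) := by
      intro w hw
      rw [Finset.mem_sdiff] at hw
      simp only [Finset.mem_insert, Finset.mem_sdiff]
      by_cases hwX : w ∈ X
      · rw [hX] at hwX
        simp only [Finset.mem_insert, Finset.mem_singleton] at hwX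
        tauto
      · tauto
    have h5 := (rhoP_rk hr (p := p)).mono _ _ (Finset.insert_subset_insert v h4)
    rw [← Finset.insert_eq, ← Finset.insert_eq, Finset.card_singleton] at h3
    rw [h3]
    push_cast
    linarith
  obtain ⟨N, n1, n2, n3⟩ := hc.rich
  have hNq : ∀ w ∈ gs N, w ∈ gs (rm true u (rm false v p)) := by
    intro w hw
    obtain ⟨h3, h4⟩ := Finset.mem_sdiff.1 hw
    exact Finset.mem_sdiff.2 ⟨n1.2 h3, fun h5 => h4 (n1.1 h5)⟩
  have hN5 := n2.2.1
  have c1 : gs N ⊆ (X ∩ gs N) ∪ ((Z ∩ gs N) ∪ ((gs (rm true u (rm false v p)) \ X) \ Z)) := by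
    intro w hw
    have h1 := hNq w hw
    simp only [Finset.mem_union, Finset.mem_inter, Finset.mem_sdiff]
    tauto
  have c2 := Finset.card_le_card c1
  have c3 := Finset.card_union_le (X ∩ gs N) ((Z ∩ gs N) ∪ ((gs (rm true u (rm false v p)) \ X) \ Z))
  have c4 := Finset.card_union_le (Z ∩ gs N) ((gs (rm true u (rm false v p)) \ X) \ Z)
  have n4 : ((gs (rm true u (rm false v p)) \ Z) ∩ gs N).card ≤ 1 := by
    rcases rich_side hr hwf hZq hlZ n1 n2 with h1 | h1
    · omega
    · exact h1
  have z4 : 4 ≤ Z.card := by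
    have h3 : gs N ⊆ (Z ∩ gs N) ∪ ((gs (rm true u (rm false v p)) \ Z) ∩ gs N) := by
      intro w hw
      have h1 := hNq w hw
      simp only [Finset.mem_union, Finset.mem_inter, Finset.mem_sdiff]
      tauto
    have h4 := Finset.card_le_card h3
    have h5 := Finset.card_union_le (Z ∩ gs N) ((gs (rm true u (rm false v p)) \ Z) ∩ gs N)
    have h6 := Finset.card_le_card (Finset.inter_subset_left : Z ∩ gs N ⊆ Z)
    omega
  obtain ⟨w, hw⟩ := Finset.card_pos.1 (by omega : 0 < ((gs (rm true u (rm false v p)) \ X) \ Z).card)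
  have hf := hT.gfh_two d h2 z4 hw
  obtain ⟨w1, w2⟩ := Finset.mem_sdiff.1 hw
  obtain ⟨w3, w4⟩ := Finset.mem_sdiff.1 w1
  have w5 : w ∈ gs p ∧ w ≠ u ∧ w ≠ v := by
    have h1 := w3
    rw [hg, Finset.mem_erase, Finset.mem_erase] at h1
    tauto
  -- the order of `Z` after the deletion of `w`
  have g1 : gs (rm true w (rm true u (rm false v p))) = (gs (rm true u (rm false v p))).erase w := gs_rm _ _ _
  have hZw : Z ⊆ gs (rm true w (rm true u (rm false v p))) := by
    rw [g1]
    intro t ht
    exact Finset.mem_erase.2 ⟨fun h' => w2 (h' ▸ ht), hZq ht⟩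
  have l1 : 1 ≤ QUB.lam S.r (rm true w (rm true u (rm false v p))) Z := by
    have hbox : (rm true w (rm true u (rm false v p))).1 = p.1 ∪ {v} ∧ (rm true w (rm true u (rm false v p))).2 = p.2 \ {w, u} := by
      constructor
      · show insert v p.1 = _
        rw [Finset.union_comm, Finset.insert_eq]
      · show ((p.2.erase u).erase w) = _
        ext t
        simp only [Finset.mem_erase, Finset.mem_sdiff, Finset.mem_insert, Finset.mem_singleton]
        tauto
    have h3 := lam_nt hr hp nt (by omega) (K := {v}) (D := {w, u}) (Finset.singleton_subset_iff.2 hc.mv) (by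
        intro t ht
        simp only [Finset.mem_insert, Finset.mem_singleton] at ht
        rcases ht with rfl | rfl
        · exact w5.1
        · exact hc.mu) (by
        intro t ht
        rw [Finset.mem_singleton] at ht
        rw [ht]
        simp only [Finset.mem_insert, Finset.mem_singleton, not_or]
        exact ⟨w5.2.2.symm, hc.uv.symm⟩) (card_le1 v) (card_le2 _ _) hbox.1 hbox.2 hZw
    rw [← Finset.insert_eq, ← Finset.insert_eq, Finset.card_singleton] at h3
    have h4 := hf.cn Z (gs (rm true w (rm true u (rm false v p))) \ Z) (by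
      intro t t1 t2 t3 t4
      rw [e] at t1
      by_cases ht : t ∈ Z
      · exact Or.inl ht
      · refine Or.inr (Finset.mem_sdiff.2 ⟨?_, ht⟩)
        rw [g1, hg]
        exact Finset.mem_erase.2 ⟨t4, Finset.mem_erase.2 ⟨t2, Finset.mem_erase.2 ⟨t3, t1⟩⟩⟩) (by
      obtain ⟨s, hs⟩ := Finset.card_pos.1 (by omega : 0 < Z.card)
      have hs1 := hZq hs
      rw [hg, Finset.mem_erase, Finset.mem_erase] at hs1
      exact ⟨s, e ▸ hs1.2.2, hs1.1, hs1.2.1, fun h' => w2 (h' ▸ hs), fun h' => (Finset.mem_sdiff.1 h').2 hs⟩) (by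
      refine ⟨x, hT.xG, hT.ux.symm, hT.vx.symm, fun h' => w4 (by rw [← h', hX]; simp), fun h' => ?_⟩
      exact (Finset.mem_sdiff.1 (hZY h')).2 (by rw [hX]; simp))
    rw [h3]
    push_cast
    linarith
  -- the side `X ∪ W`
  have hGZ : gs (rm true u (rm false v p)) \ (gs (rm true u (rm false v p)) \ Z) = Z := by
    ext t
    simp only [Finset.mem_sdiff, not_and, not_not]
    constructor
    · rintro ⟨h3, h4⟩
      exact h4 h3
    · intro h3
      exact ⟨hZq h3, fun _ => h3⟩
  have hlW : QUB.lam S.r (rm true u (rm false v p)) (gs (rm true u (rm false v p)) \ Z) ≤ 1 := by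
    rw [show QUB.lam S.r (rm true u (rm false v p)) (gs (rm true u (rm false v p)) \ Z) = QUB.lam S.r (rm true u (rm false v p)) Z from
      QUB.lam_compl S.r hwf hZq]
    exact hlZ
  obtain ⟨N', m1, m2, m3⟩ := rich_keep S hwf Finset.sdiff_subset hlW ⟨N, n1, n2, n4⟩ (x := w)
    (Finset.mem_sdiff.2 ⟨w3, w2⟩) (t := true) (by rw [hGZ]; exact l1)
  refine clD h hc hX xy xz yz d hf ⟨N', m1, m2, ?_⟩
  refine (Finset.card_le_card (Finset.inter_subset_inter_right ?_)).trans m3
  intro t ht
  refine Finset.mem_sdiff.2 ⟨hXq ht, fun h' => ?_⟩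
  exact (Finset.mem_sdiff.1 (hZY h')).2 ht

private theorem clt_rm3 (t : Bool) (w u v : E) (p : Itv E) :
    rm (!t) w (rm true v (rm false u (QUB.dp p))) = QUB.dp (rm t w (rm true u (rm false v p))) := by
  have h1 : QUB.rm false u (QUB.dp p) = QUB.dp (QUB.rm true u p) := by
    have := QUB.rm_dp false u p
    rwa [Bool.not_false] at this
  have h2 : QUB.rm true v (QUB.dp (QUB.rm true u p)) = QUB.dp (QUB.rm false v (QUB.rm true u p)) := by
    have := QUB.rm_dp true v (QUB.rm true u p)
    rwa [Bool.not_true] at this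
  have h3 : QUB.rm (!t) w (QUB.dp (QUB.rm false v (QUB.rm true u p))) = QUB.dp (QUB.rm t w (QUB.rm false v (QUB.rm true u p))) := by
    have := QUB.rm_dp (!t) w (QUB.rm false v (QUB.rm true u p))
    rwa [Bool.not_not] at this
  show QUB.rm (!t) w (QUB.rm true v (QUB.rm false u (QUB.dp p))) = _
  rw [h1, h2, h3, show QUB.rm false v (QUB.rm true u p) = rm true u (rm false v p) from rm_comm false true v u p]

private theorem clt_rm2 (u v : E) (p : Itv E) : rm true v (rm false u (QUB.dp p)) = QUB.dp (rm true u (rm false v p)) := by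
  have h1 : QUB.rm false u (QUB.dp p) = QUB.dp (QUB.rm true u p) := by
    have := QUB.rm_dp false u p
    rwa [Bool.not_false] at this
  have h2 : QUB.rm true v (QUB.dp (QUB.rm true u p)) = QUB.dp (QUB.rm false v (QUB.rm true u p)) := by
    have := QUB.rm_dp true v (QUB.rm true u p)
    rwa [Bool.not_true] at this
  show QUB.rm true v (QUB.rm false u (QUB.dp p)) = _
  rw [h1, h2, show QUB.rm false v (QUB.rm true u p) = rm true u (rm false v p) from rm_comm false true v u p]

/-- **at least four elements in `Y \ Z`, one of them outside a rich minor** -/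
theorem t1 (h : Cw S p) (hc : Rcf S p u true v false X) (hX : X = {x, y, z}) (xy : x ≠ y) (xz : x ≠ z) (yz : y ≠ z)
    (d : Dirty (rhoP S.r p) (S.r p.2 - S.r p.1) u v x y z (gs (rm true u (rm false v p)) \ X) Z)
    (h4 : 4 ≤ ((gs (rm true u (rm false v p)) \ X) \ Z).card) {w : E} (hw : w ∈ (gs (rm true u (rm false v p)) \ X) \ Z) {t : Bool}
    (hR : ∃ q', Sub q' (rm t w (rm true u (rm false v p))) ∧ Rich S.r q' ∧ (X ∩ gs q').card ≤ 1) :
    ∃ T : Fm F4 E, InV S.U S.W p T ∧ ¬ EqD S.U S.W p T 0 := by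
  obtain ⟨hT, e⟩ := ty_of h hc hX xy xz yz
  cases t with
  | true => exact clD h hc hX xy xz yz d (hT.gfh_sep d h4 hw) hR
  | false =>
    refine goal_dual ?_
    have hc' : Rcf S.dual (QUB.dp p) v true u false X := (hc.dual h.hp).symm
    have hY : gs (rm true v (rm false u (QUB.dp p))) \ X = gs (rm true u (rm false v p)) \ X := by
      rw [clt_rm2, show gs (QUB.dp (rm true u (rm false v p))) = gs (rm true u (rm false v p)) from QUB.gs_dp _]
    have d' := dirty_dual h hT e d
    rw [← hY] at d' h4 hw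
    have hXs : X = {y, x, z} := by
      rw [hX]
      ext t
      simp only [Finset.mem_insert, Finset.mem_singleton]
      tauto
    obtain ⟨hT', e'⟩ := ty_of h.dual hc' hXs xy.symm yz xz
    refine clD h.dual hc' hXs xy.symm yz xz d' (hT'.gfh_sep d' h4 hw) ?_
    obtain ⟨q', h1, h2, h3⟩ := hR
    refine ⟨QUB.dp q', ?_, rich_dual S h2, ?_⟩
    · rw [show rm true w (rm true v (rm false u (QUB.dp p))) = QUB.dp (rm false w (rm true u (rm false v p))) from clt_rm3 false w u v p]
      exact ⟨Finset.compl_subset_compl.2 h1.2, Finset.compl_subset_compl.2 h1.1⟩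
    · rw [show gs (QUB.dp q') = gs q' from QUB.gs_dp q']
      exact h3

end Pool.Agent.QU
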