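import Pool.Agent.QUR.Key

set_option autoImplicit false

/-!
# QUR/Cnt: the T-case by counting deletion nodes

`{f, a, b}` is a triangle. A valid set is a set `D` outside of the triangle with `f` in its closure and `a` not in its closure.
`key_none`: no valid set; `key_two`: two valid sets `D0`, `D2`, nodes `G` (deletions which extend): a node outside of `D0 ∪ D2` and
`|D0 ∩ D2| + rank - 1 < |G|`; `key_count`: one valid set, `|D0| + rank - 1 < |G|`.
-/

namespace Pool.Agent.QU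

variable {K E : Type} [Field K] [Fintype E] [DecidableEq E]

omit [Fintype E] in
private theorem cn_van {U : Submodule K (E → K)} {A : Finset E} {c : E → K} (hc : c ∈ van U A) {x : E}
    (h : c x = 0) : c ∈ van U (insert x A) := by
  refine ⟨hc.1, fun y hy => ?_⟩
  rcases Finset.mem_insert.1 hy with h1 | h1
  · rw [h1, h]
  · exact hc.2 y h1

omit [Fintype E] in
private theorem cn_spt {W : Submodule K (E → K)} {A : Finset E} {d : E → K} (hd : d ∈ spt W A) {x : E}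
    (h : d x = 0) : d ∈ spt W (A.erase x) := by
  refine ⟨hd.1, fun y hy => ?_⟩
  by_cases hyx : y = x
  · rw [hyx, h]
  · exact hd.2 y fun h1 => hy (Finset.mem_erase.2 ⟨hyx, h1⟩)

omit [Fintype E] in
/-- a basis of `A` over `C` -/
theorem basis_over {r : Finset E → ℤ} (hr : QUB.Rk r) {C A : Finset E} (hCA : C ⊆ A) :
    ∃ I ⊆ A \ C, r (C ∪ I) = r A ∧ (I.card : ℤ) = r A - r C := by
  have key : ∀ n : ℕ, ∀ J ⊆ A \ C, r (C ∪ J) = r C + J.card → (A \ C).card ≤ J.card + n →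
      ∃ I ⊆ A \ C, r (C ∪ I) = r A ∧ (I.card : ℤ) = r A - r C := by
    intro n
    induction n with
    | zero =>
      intro J hJ h1 h2
      have h3 : J = A \ C := Finset.eq_of_subset_of_card_le hJ (by omega)
      have h4 : C ∪ J = A := by rw [h3]; exact Finset.union_sdiff_of_subset hCA
      rw [h4] at h1
      exact ⟨J, hJ, by rw [h4], by linarith⟩
    | succ n ih =>
      intro J hJ h1 h2
      by_cases hx : ∃ x ∈ A \ C, r (insert x (C ∪ J)) = r (C ∪ J) + 1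
      · obtain ⟨x, hx, hx1⟩ := hx
        have hxJ : x ∉ J := by
          intro h
          rw [Finset.insert_eq_of_mem (Finset.mem_union_right _ h)] at hx1
          linarith
        refine ih (insert x J) (Finset.insert_subset hx hJ) ?_ ?_
        · rw [Finset.union_insert, hx1, h1, Finset.card_insert_of_notMem hxJ]
          push_cast
          ring
        · rw [Finset.card_insert_of_notMem hxJ]
          omega
      · push Not at hx
        have h3 : ∀ x ∈ A \ C, r (insert x (C ∪ J)) = r (C ∪ J) := by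
          intro x hxA
          have a1 := hr.unit (C ∪ J) x
          have a2 := hr.mono _ _ (Finset.subset_insert x (C ∪ J))
          have a3 := hx x hxA
          omega
        have h4 : ∀ Z ⊆ A \ C, r (C ∪ J ∪ Z) = r (C ∪ J) := by
          intro Z
          induction Z using Finset.induction_on with
          | empty => intro _; rw [Finset.union_empty]
          | insert z Z hz ihZ =>
            intro hZ
            have a1 := ihZ ((Finset.subset_insert z Z).trans hZ)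
            have a2 := h3 z (hZ (Finset.mem_insert_self z Z))
            have a3 := hr.sub (C ∪ J ∪ Z) (insert z (C ∪ J))
            have a4 : C ∪ J ∪ Z ∪ insert z (C ∪ J) = C ∪ J ∪ insert z Z := by
              ext y
              simp only [Finset.mem_union, Finset.mem_insert]
              tauto
            have a5 : C ∪ J ⊆ (C ∪ J ∪ Z) ∩ insert z (C ∪ J) :=
              Finset.subset_inter Finset.subset_union_left (Finset.subset_insert _ _)
            have a6 := hr.mono _ _ a5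
            have a7 := hr.mono (C ∪ J) (C ∪ J ∪ insert z Z) Finset.subset_union_left
            rw [a4] at a3
            linarith
        have h5 := h4 (A \ C) (Finset.Subset.refl _)
        have h6 : C ∪ J ∪ (A \ C) = A := by
          ext y
          have e1 : y ∈ J → y ∈ A \ C := fun h => hJ h
          have e2 : y ∈ C → y ∈ A := fun h => hCA h
          simp only [Finset.mem_union, Finset.mem_sdiff] at e1 ⊢
          tauto
        rw [h6] at h5
        exact ⟨J, hJ, h5.symm, by linarith⟩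
  refine key (A \ C).card ∅ (Finset.empty_subset _) ?_ ?_
  · rw [Finset.union_empty, Finset.card_empty]
    simp
  · rw [Finset.card_empty]
    omega

/-- a valid set: `f` in the closure, `a` not -/
def Vd (r : Finset E → ℤ) (p : Itv E) (f a : E) (D : Finset E) : Prop :=
  D ⊆ gs p ∧ f ∉ D ∧ r (insert f (p.1 ∪ D)) = r (p.1 ∪ D) ∧ r (insert a (p.1 ∪ D)) = r (p.1 ∪ D) + 1

/-- every vector `c` of a disjoint pair with `f` in `d` and `a` in `c` has a small disjoint partner -/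
theorem small_pair (S : TP K E) {p : Itv E} (hp : p.1 ⊆ p.2) {f a : E} (hf : f ∈ gs p) (ha : a ∈ gs p) {c d : E → K}
    (hc : c ∈ van S.U p.1) (hd : d ∈ spt S.W p.2) (hcd : ∀ x, c x * d x = 0) (hca : c a ≠ 0) (hdf : d f ≠ 0) :
    ∃ D : Finset E, Vd S.r p f a D ∧ (∀ x ∈ D, c x = 0) ∧ (D.card : ℤ) ≤ S.r p.2 - S.r p.1 - 1 ∧
      ∃ d' ∈ spt S.W (insert f (p.1 ∪ D)), (∀ x, c x * d' x = 0) ∧ d' f = 1 := by
  classical
  have hf1 := Finset.mem_sdiff.1 hf
  have ha1 := Finset.mem_sdiff.1 ha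
  have hcf : c f = 0 := (mul_eq_zero.1 (hcd f)).resolve_right hdf
  set A : Finset E := (p.2.filter fun x => c x = 0).erase f with hA
  have hpA : p.1 ⊆ A := by
    intro x hx
    refine Finset.mem_erase.2 ⟨fun h => hf1.2 (h ▸ hx), Finset.mem_filter.2 ⟨hp hx, hc.2 x hx⟩⟩
  have hAc : ∀ x ∈ A, c x = 0 := fun x hx => (Finset.mem_filter.1 (Finset.mem_of_mem_erase hx)).2
  have hA2 : A ⊆ p.2 := fun x hx => (Finset.mem_filter.1 (Finset.mem_of_mem_erase hx)).1
  have hfA : f ∉ A := Finset.notMem_erase _ _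
  have hins : insert f A = p.2.filter fun x => c x = 0 := by
    rw [hA, Finset.insert_erase]
    exact Finset.mem_filter.2 ⟨hf1.1, hcf⟩
  have hdA : d ∈ spt S.W (insert f A) := by
    refine ⟨hd.1, fun x hx => ?_⟩
    rw [hins] at hx
    by_cases hxp : x ∈ p.2
    · have h1 : c x ≠ 0 := fun h => hx (Finset.mem_filter.2 ⟨hxp, h⟩)
      exact (mul_eq_zero.1 (hcd x)).resolve_left h1
    · exact hd.2 x hxp
  have hfc : S.r (insert f A) = S.r A := by
    by_contra hne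
    have h1 := S.rk.unit A f
    have h2 := S.rk.mono _ _ (Finset.subset_insert f A)
    have h3 : S.r ((insert f A).erase f) = S.r (insert f A) - 1 := by
      rw [Finset.erase_insert hfA]
      omega
    exact hdf (S.spt_eq_zero (Finset.mem_insert_self f A) h3 d hdA)
  have hac : S.r (insert a A) = S.r A + 1 := by
    by_contra hne
    have h1 := S.rk.unit A a
    have h2 := S.rk.mono _ _ (Finset.subset_insert a A)
    exact hca (TP.van_eq_zero S (C := A) (x := a) (by omega) c ⟨hc.1, hAc⟩)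
  obtain ⟨I, hI, hI1, hI2⟩ := basis_over S.rk hpA
  have hIA : I ⊆ A := hI.trans Finset.sdiff_subset
  have hcl : ∀ x, S.r (insert x A) = S.r A → S.r (insert x (p.1 ∪ I)) = S.r (p.1 ∪ I) := by
    intro x hx
    have h1 := S.rk.mono (insert x (p.1 ∪ I)) (insert x A) (Finset.insert_subset_insert x (Finset.union_subset hpA hIA))
    have h2 := S.rk.mono _ _ (Finset.subset_insert x (p.1 ∪ I))
    linarith
  have hfI : S.r (insert f (p.1 ∪ I)) = S.r (p.1 ∪ I) := hcl f hfc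
  have haI : S.r (insert a (p.1 ∪ I)) = S.r (p.1 ∪ I) + 1 := by
    have h1 := S.rk.unit (p.1 ∪ I) a
    have h2 := S.rk.sub (insert a (p.1 ∪ I)) A
    have h3 : insert a (p.1 ∪ I) ∪ A = insert a A := by
      ext x
      have e1 : x ∈ p.1 → x ∈ A := fun h => hpA h
      have e2 : x ∈ I → x ∈ A := fun h => hIA h
      simp only [Finset.mem_union, Finset.mem_insert]
      tauto
    have h4 : p.1 ∪ I ⊆ insert a (p.1 ∪ I) ∩ A :=
      Finset.subset_inter (Finset.subset_insert _ _) (Finset.union_subset hpA hIA)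
    have h5 := S.rk.mono _ _ h4
    rw [h3] at h2
    linarith
  refine ⟨I, ⟨fun x hx => ?_, fun h => hfA (hIA h), hfI, haI⟩, fun x hx => hAc x (hIA hx), ?_, ?_⟩
  · exact Finset.mem_sdiff.2 ⟨hA2 (hIA hx), (Finset.mem_sdiff.1 (hI hx)).2⟩
  · have h1 := S.rk.mono (insert a A) p.2 (Finset.insert_subset ha1.1 hA2)
    linarith
  · have hfn : f ∉ p.1 ∪ I := by
      rw [Finset.mem_union, not_or]
      exact ⟨hf1.2, fun h => hfA (hIA h)⟩
    obtain ⟨d', hd', hd'f⟩ := S.spt_one (G := insert f (p.1 ∪ I)) (Finset.mem_insert_self _ _) (by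
      rw [Finset.erase_insert hfn, hfI])
    refine ⟨d', hd', fun x => ?_, hd'f⟩
    by_cases hx : x ∈ insert f (p.1 ∪ I)
    · rcases Finset.mem_insert.1 hx with rfl | hx
      · rw [hcf, zero_mul]
      · rw [hAc x (Finset.union_subset hpA hIA hx), zero_mul]
    · rw [hd'.2 x hx, mul_zero]

section

variable {S : TP K E} {p : Itv E} {f a b : E} {T : Fm K E} {t : E → K}

/-- a node where `thf θ` vanishes on one pair -/
theorem Tdat.step (D : Tdat S p f a b T t) {w : E} (hw : w ∈ gs p) (hwf : w ≠ f) (hwa : w ≠ a) (hwb : w ≠ b)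
    (hex : Ex S true f (rm true w p)) {θ : K} {c0 d0 : E → K} (hc0 : c0 ∈ van S.U p.1) (hd0 : d0 ∈ spt S.W p.2)
    (hcd0 : ∀ x, c0 x * d0 x = 0) (hca0 : c0 a ≠ 0) (hdf0 : d0 f ≠ 0) (h0 : d0 w = 0) (hz : thf T t f a θ c0 d0 = 0) :
    InV S.U S.W (rm true w p) (thf T t f a θ) := by
  obtain ⟨Te, hTe, ee⟩ := hex T (D.hT.mono ((rm_sub true w p).rm true f))
  obtain ⟨θ', hθ'⟩ := D.node (q := rm true w p) (Finset.Subset.refl _) (by
    intro x hx
    refine Finset.mem_erase.2 ⟨?_, D.sub hx⟩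
    rintro rfl
    simp only [Finset.mem_insert] at hx
    rcases hx with h | h | h | h
    · exact hwf h
    · exact hwa h
    · exact hwb h
    · exact (Finset.mem_sdiff.1 hw).2 h) hTe ee
  have e1 := hθ' c0 hc0 d0 (cn_spt hd0 h0) hcd0
  rw [thf_apply] at e1 hz
  have e2 : (θ - θ') * (d0 f * c0 a) = 0 := by linear_combination hz - e1
  have e3 : θ = θ' := sub_eq_zero.1 ((mul_eq_zero.1 e2).resolve_right (mul_ne_zero hdf0 hca0))
  rw [e3]
  exact hθ'

/-- the end: `thf θ` vanishes on small pairs -/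
theorem Tdat.fin (D : Tdat S p f a b T t) {θ : K}
    (h : ∀ c ∈ van S.U p.1, ∀ I : Finset E, Vd S.r p f a I → (∀ x ∈ I, c x = 0) → (I.card : ℤ) ≤ S.r p.2 - S.r p.1 - 1 →
      ∀ d ∈ spt S.W (insert f (p.1 ∪ I)), (∀ x, c x * d x = 0) → c a ≠ 0 → d f = 1 → thf T t f a θ c d = 0) :
    InV S.U S.W p (thf T t f a θ) := by
  intro c hc d hd hcd
  by_cases hca : c a = 0
  · exact D.a0 θ hc hd hcd hca
  by_cases hdf : d f = 0
  · exact D.f0 θ hc hd hcd hdf
  obtain ⟨I, hI, hI0, hI1, d', hd', hcd', hd'f⟩ := small_pair S D.hp D.hf D.ha hc hd hcd hca hdf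
  have hsub : insert f (p.1 ∪ I) ⊆ p.2 :=
    Finset.insert_subset (Finset.mem_sdiff.1 D.hf).1 (Finset.union_subset D.hp fun x hx => (Finset.mem_sdiff.1 (hI.1 hx)).1)
  have e1 := h c hc I hI hI0 hI1 d' hd' hcd' hca hd'f
  have e2 := D.f0 θ hc (Submodule.sub_mem _ hd (Submodule.smul_mem _ (d f) (spt_mono hsub hd'))) (fun x => by
    rw [Pi.sub_apply, Pi.smul_apply, smul_eq_mul, mul_sub, hcd x]
    have := hcd' x
    linear_combination (-(d f)) * this) (by
    rw [Pi.sub_apply, Pi.smul_apply, smul_eq_mul, hd'f, mul_one, sub_self])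
  rw [map_sub, map_smul, e1, smul_zero, sub_zero] at e2
  exact e2

end

/-- no valid set at all -/
theorem key_none (S : TP K E) {p : Itv E} {f a b : E} (hp : p.1 ⊆ p.2) (hf : f ∈ gs p) (ha : a ∈ gs p) (hb : b ∈ gs p)
    (hfa : f ≠ a) (hfb : f ≠ b) (hab : a ≠ b) (hL : Tri3 S.r p f a b) (h : ∀ D, ¬ Vd S.r p f a D) : Ex S true f p := by
  intro T hT
  obtain ⟨t, ht, htf⟩ := tri_vec S hfa hfb hf hL.1
  have D : Tdat S p f a b T t := ⟨hp, hf, ha, hb, hfa, hfb, hab, hL, hT, ht, htf⟩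
  exact ⟨_, D.fin (θ := 0) (fun c _ I hI _ _ _ _ _ _ _ => absurd hI (h I)), thf_f T t f a 0⟩

/-- two valid sets -/
theorem key_two (S : TP K E) {p : Itv E} {f a b : E} (hp : p.1 ⊆ p.2) (hf : f ∈ gs p) (ha : a ∈ gs p) (hb : b ∈ gs p)
    (hfa : f ≠ a) (hfb : f ≠ b) (hab : a ≠ b) (hL : Tri3 S.r p f a b) {G : Finset E} (hG : G ⊆ gs p) (hfG : f ∉ G) (haG : a ∉ G) (hbG : b ∉ G)
    (hex : ∀ w ∈ G, Ex S true f (rm true w p)) {D0 D2 : Finset E} (h0 : Vd S.r p f a D0) (h2 : Vd S.r p f a D2)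
    (hw : ∃ w ∈ G, w ∉ D0 ∧ w ∉ D2) (hcard : ((D0 ∩ D2).card : ℤ) + (S.r p.2 - S.r p.1 - 1) < G.card) : Ex S true f p := by
  intro T hT
  obtain ⟨t, ht, htf⟩ := tri_vec S hfa hfb hf hL.1
  have D : Tdat S p f a b T t := ⟨hp, hf, ha, hb, hfa, hfb, hab, hL, hT, ht, htf⟩
  have hne : ∀ w ∈ G, w ∈ gs p ∧ w ≠ f ∧ w ≠ a ∧ w ≠ b := fun w hw =>
    ⟨hG hw, fun h => hfG (h ▸ hw), fun h => haG (h ▸ hw), fun h => hbG (h ▸ hw)⟩
  have hz : ∀ I : Finset E, ∀ d ∈ spt S.W (insert f (p.1 ∪ I)), ∀ w ∈ G, w ∉ I → d w = 0 := by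
    intro I d hd w hw hwI
    refine hd.2 w fun h => ?_
    rcases Finset.mem_insert.1 h with rfl | h
    · exact hfG hw
    · rcases Finset.mem_union.1 h with h | h
      · exact (Finset.mem_sdiff.1 (hG hw)).2 h
      · exact hwI h
  have hs : ∀ I : Finset E, I ⊆ gs p → insert f (p.1 ∪ I) ⊆ p.2 := fun I hI =>
    Finset.insert_subset (Finset.mem_sdiff.1 hf).1 (Finset.union_subset hp fun x hx => (Finset.mem_sdiff.1 (hI hx)).1)
  obtain ⟨c0, hc0, d0, hd0, hcd0, hca0, hdf0⟩ := pair_of_rank S (p := p) (a := a) hf h0.2.1 h0.2.2.1 h0.2.2.2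
  obtain ⟨c2, hc2, d2, hd2, hcd2, hca2, hdf2⟩ := pair_of_rank S (p := p) (a := a) hf h2.2.1 h2.2.2.1 h2.2.2.2
  -- the scalar
  obtain ⟨θ, hθ⟩ : ∃ θ : K, thf T t f a θ c0 d0 = 0 := by
    refine ⟨T c0 t - T c0 d0, ?_⟩
    rw [thf_apply, hca0, hdf0]
    ring
  have n0 : ∀ w ∈ G, w ∉ D0 → InV S.U S.W (rm true w p) (thf T t f a θ) := by
    intro w hw hw0
    obtain ⟨m1, m2, m3, m4⟩ := hne w hw
    exact D.step m1 m2 m3 m4 (hex w hw) hc0 (spt_mono (hs D0 h0.1) hd0) hcd0 (by rw [hca0]; exact one_ne_zero)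
      (by rw [hdf0]; exact one_ne_zero) (hz D0 d0 hd0 w hw hw0) hθ
  obtain ⟨w0, hw0, hw00, hw02⟩ := hw
  have hθ2 : thf T t f a θ c2 d2 = 0 :=
    n0 w0 hw0 hw00 c2 hc2 d2 (cn_spt (spt_mono (hs D2 h2.1) hd2) (hz D2 d2 hd2 w0 hw0 hw02)) hcd2
  have n2 : ∀ w ∈ G, w ∉ D2 → InV S.U S.W (rm true w p) (thf T t f a θ) := by
    intro w hw hw2
    obtain ⟨m1, m2, m3, m4⟩ := hne w hw
    exact D.step m1 m2 m3 m4 (hex w hw) hc2 (spt_mono (hs D2 h2.1) hd2) hcd2 (by rw [hca2]; exact one_ne_zero)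
      (by rw [hdf2]; exact one_ne_zero) (hz D2 d2 hd2 w hw hw2) hθ2
  refine ⟨thf T t f a θ, D.fin ?_, thf_f T t f a θ⟩
  intro c hc I hI _ hIc d hd hcd _ _
  have hex2 : ∃ w ∈ G, w ∉ I ∧ w ∉ D0 ∩ D2 := by
    by_contra hcon
    push Not at hcon
    have h1 : G ⊆ I ∪ (D0 ∩ D2) := by
      intro w hw
      by_cases hwI : w ∈ I
      · exact Finset.mem_union_left _ hwI
      · exact Finset.mem_union_right _ (hcon w hw hwI)
    have h3 := (Finset.card_le_card h1).trans (Finset.card_union_le _ _)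
    have h4 : (G.card : ℤ) ≤ I.card + (D0 ∩ D2).card := by exact_mod_cast h3
    linarith
  obtain ⟨w, hw, hwI, hw02⟩ := hex2
  have hn : InV S.U S.W (rm true w p) (thf T t f a θ) := by
    by_cases hw0 : w ∈ D0
    · exact n2 w hw fun h => hw02 (Finset.mem_inter.2 ⟨hw0, h⟩)
    · exact n0 w hw hw0
  exact hn c hc d (cn_spt (spt_mono (hs I hI.1) hd) (hz I d hd w hw hwI)) hcd

/-- one valid set and many nodes -/
theorem key_count (S : TP K E) {p : Itv E} {f a b : E} (hp : p.1 ⊆ p.2) (hf : f ∈ gs p) (ha : a ∈ gs p) (hb : b ∈ gs p)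
    (hfa : f ≠ a) (hfb : f ≠ b) (hab : a ≠ b) (hL : Tri3 S.r p f a b) {G : Finset E} (hG : G ⊆ gs p) (hfG : f ∉ G) (haG : a ∉ G) (hbG : b ∉ G)
    (hex : ∀ w ∈ G, Ex S true f (rm true w p)) {D0 : Finset E} (h0 : Vd S.r p f a D0)
    (hcard : (D0.card : ℤ) + (S.r p.2 - S.r p.1 - 1) < G.card) : Ex S true f p := by
  refine key_two S hp hf ha hb hfa hfb hab hL hG hfG haG hbG hex h0 h0 ?_ (by rw [Finset.inter_self]; exact hcard)
  by_contra hcon
  push Not at hcon
  have h1 : G ⊆ D0 := fun w hw => by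
    by_contra hw0
    exact hw0 (hcon w hw hw0)
  have h2 := Finset.card_le_card h1
  have h3 : S.r p.1 + 1 ≤ S.r p.2 := by
    have e1 := h0.2.2.2
    have e2 := S.rk.mono p.1 (p.1 ∪ D0) Finset.subset_union_left
    have e3 := S.rk.mono (insert a (p.1 ∪ D0)) p.2 (Finset.insert_subset (Finset.mem_sdiff.1 ha).1
      (Finset.union_subset hp fun x hx => (Finset.mem_sdiff.1 (h0.1 hx)).1))
    linarith
  have h4 : (G.card : ℤ) ≤ D0.card := by exact_mod_cast h2
  linarith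

/-- all deletions extend and there are at least `2 rank - 1` of them -/
theorem key_all (S : TP K E) {p : Itv E} {f a b : E} (hp : p.1 ⊆ p.2) (hf : f ∈ gs p) (ha : a ∈ gs p) (hb : b ∈ gs p)
    (hfa : f ≠ a) (hfb : f ≠ b) (hab : a ≠ b) (hL : Tri3 S.r p f a b) {G : Finset E} (hG : G ⊆ gs p) (hfG : f ∉ G) (haG : a ∉ G) (hbG : b ∉ G)
    (hex : ∀ w ∈ G, Ex S true f (rm true w p)) (hcard : 2 * (S.r p.2 - S.r p.1 - 1) < G.card) : Ex S true f p := by
  by_cases h : ∃ c ∈ van S.U p.1, ∃ d ∈ spt S.W p.2, (∀ x, c x * d x = 0) ∧ c a ≠ 0 ∧ d f ≠ 0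
  · obtain ⟨c, hc, d, hd, hcd, hca, hdf⟩ := h
    obtain ⟨D, hD, -, hD1, -⟩ := small_pair S hp hf ha hc hd hcd hca hdf
    exact key_count S hp hf ha hb hfa hfb hab hL hG hfG haG hbG hex hD (by linarith)
  · refine key_none S hp hf ha hb hfa hfb hab hL fun D hD => h ?_
    obtain ⟨c, hc, d, hd, hcd, hca, hdf⟩ := pair_of_rank S (p := p) (a := a) hf hD.2.1 hD.2.2.1 hD.2.2.2
    have hsub : insert f (p.1 ∪ D) ⊆ p.2 :=
      Finset.insert_subset (Finset.mem_sdiff.1 hf).1 (Finset.union_subset hp fun x hx => (Finset.mem_sdiff.1 (hD.1 hx)).1)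
    exact ⟨c, hc, d, spt_mono hsub hd, hcd, by rw [hca]; exact one_ne_zero, by rw [hdf]; exact one_ne_zero⟩

section

open Pool.Agent.FRM

variable (S : TP F4 E) (hNU : NU S.r) {p : Itv E} {f a b : E} (hp : p.1 ⊆ p.2) (hf : f ∈ gs p) (ha : a ∈ gs p) (hb : b ∈ gs p)
  (hfa : f ≠ a) (hfb : f ≠ b) (hab : a ≠ b) (hL : Tri3 S.r p f a b)

include hNU hp hf ha hb hfa hfb hab hL

/-- `key_two` with connected and `Ok` boxes -/
theorem key_two_f4 {G : Finset E} (hG : G ⊆ gs p) (hfG : f ∉ G) (haG : a ∉ G) (hbG : b ∉ G)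
    (hex : ∀ w ∈ gs p, ∃ T, InVs S (rm true w p) T) (hR : HasRich S.r (rm true f p))
    (h1 : ∀ w ∈ G, QUB.Cn S.r (rm true f (rm true w p)) ∧ QUB.Ok S.r (rm true f (rm true w p)))
    {D0 D2 : Finset E} (h0 : Vd S.r p f a D0) (h2 : Vd S.r p f a D2)
    (hw : ∃ w ∈ G, w ∉ D0 ∧ w ∉ D2) (hcard : ((D0 ∩ D2).card : ℤ) + (S.r p.2 - S.r p.1 - 1) < G.card) :
    ∃ T : Fm F4 E, InV S.U S.W p T ∧ ¬ EqD S.U S.W p T 0 := by
  refine h_of_ex S (key_two S hp hf ha hb hfa hfb hab hL hG hfG haG hbG (fun w hw' => ?_) h0 h2 hw hcard) (hex f hf) hR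
  refine ex_ok S hNU (QUB.wf_rm hp (hG hw')) ?_ (h1 w hw').1 (h1 w hw').2 (hex w (hG hw'))
  rw [gs_rm]
  exact Finset.mem_erase.2 ⟨fun h => hfG (h ▸ hw'), hf⟩

/-- `key_count` with connected and `Ok` boxes -/
theorem key_count_f4 {G : Finset E} (hG : G ⊆ gs p) (hfG : f ∉ G) (haG : a ∉ G) (hbG : b ∉ G)
    (hex : ∀ w ∈ gs p, ∃ T, InVs S (rm true w p) T) (hR : HasRich S.r (rm true f p))
    (h1 : ∀ w ∈ G, QUB.Cn S.r (rm true f (rm true w p)) ∧ QUB.Ok S.r (rm true f (rm true w p)))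
    {D0 : Finset E} (h0 : Vd S.r p f a D0) (hcard : (D0.card : ℤ) + (S.r p.2 - S.r p.1 - 1) < G.card) :
    ∃ T : Fm F4 E, InV S.U S.W p T ∧ ¬ EqD S.U S.W p T 0 := by
  refine h_of_ex S (key_count S hp hf ha hb hfa hfb hab hL hG hfG haG hbG (fun w hw' => ?_) h0 hcard) (hex f hf) hR
  refine ex_ok S hNU (QUB.wf_rm hp (hG hw')) ?_ (h1 w hw').1 (h1 w hw').2 (hex w (hG hw'))
  rw [gs_rm]
  exact Finset.mem_erase.2 ⟨fun h => hfG (h ▸ hw'), hf⟩

/-- `key_all` with connected and `Ok` boxes: at least `2 rank - 1` deletions `w` with `M \ f, w` connected and `Ok` -/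
theorem key_all_f4 {G : Finset E} (hG : G ⊆ gs p) (hfG : f ∉ G) (haG : a ∉ G) (hbG : b ∉ G)
    (hex : ∀ w ∈ gs p, ∃ T, InVs S (rm true w p) T) (hR : HasRich S.r (rm true f p))
    (h1 : ∀ w ∈ G, QUB.Cn S.r (rm true f (rm true w p)) ∧ QUB.Ok S.r (rm true f (rm true w p)))
    (hcard : 2 * (S.r p.2 - S.r p.1 - 1) < G.card) :
    ∃ T : Fm F4 E, InV S.U S.W p T ∧ ¬ EqD S.U S.W p T 0 := by
  refine h_of_ex S (key_all S hp hf ha hb hfa hfb hab hL hG hfG haG hbG (fun w hw' => ?_) hcard) (hex f hf) hR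
  refine ex_ok S hNU (QUB.wf_rm hp (hG hw')) ?_ (h1 w hw').1 (h1 w hw').2 (hex w (hG hw'))
  rw [gs_rm]
  exact Finset.mem_erase.2 ⟨fun h => hfG (h ▸ hw'), hf⟩

/-- no valid set -/
theorem key_none_f4 (hex : ∃ T, InVs S (rm true f p) T) (hR : HasRich S.r (rm true f p)) (h : ∀ D, ¬ Vd S.r p f a D) :
    ∃ T : Fm F4 E, InV S.U S.W p T ∧ ¬ EqD S.U S.W p T 0 := by
  have _ := hNU
  exact h_of_ex S (key_none S hp hf ha hb hfa hfb hab hL h) hex hR

end

end Pool.Agent.QU
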