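import Pool.Agent.QUR.Cnt

set_option autoImplicit false

/-!
# QUR/Cpl: two complementary valid sets

`{f, a, b}` is a triangle, the ground set has `2 rank + 1` elements, `T` in `V(M \ f)` extends to all `M \ w`, `w` outside of the triangle. If `T` does
not extend to `M`, then there are exactly two valid sets of at most `rank - 1` elements, they are complementary, and two candidates `T1`, `T1'` for
the extension lie in `V(M \ w)` for the elements `w` of one of the two sets (`cpl_of`).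
-/

namespace Pool.Agent.QU

variable {K E : Type} [Field K] [Fintype E] [DecidableEq E]

/-- two complementary valid sets and the two candidates -/
structure Cpl (S : TP K E) (p : Itv E) (f a b : E) (A A' : Finset E) (T T' : Fm K E) : Prop where
  vA : Vd S.r p f a A
  vA' : Vd S.r p f a A'
  cA : (A.card : ℤ) = S.r p.2 - S.r p.1 - 1
  cA' : (A'.card : ℤ) = S.r p.2 - S.r p.1 - 1
  dis : Disjoint A A'
  cov : ∀ w ∈ gs p, w ≠ f → w ≠ a → w ≠ b → w ∈ A ∨ w ∈ A'
  all : ∀ D, Vd S.r p f a D → (D.card : ℤ) ≤ S.r p.2 - S.r p.1 - 1 → D = A ∨ D = A'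
  iT : ∀ w, w = f ∨ w ∈ A → InV S.U S.W (rm true w p) T
  iT' : ∀ w, w = f ∨ w ∈ A' → InV S.U S.W (rm true w p) T'
  nz : ∃ θ : K, θ ≠ 0 ∧ ∀ c d : E → K, T' c d = T c d + θ * (c a * d f)

theorem Cpl.symm {S : TP K E} {p : Itv E} {f a b : E} {A A' : Finset E} {T T' : Fm K E} (h : Cpl S p f a b A A' T T') :
    Cpl S p f a b A' A T' T := by
  obtain ⟨θ, h1, h2⟩ := h.nz
  refine ⟨h.vA', h.vA, h.cA', h.cA, h.dis.symm, fun w h1 h2 h3 h4 => (h.cov w h1 h2 h3 h4).symm, fun D h1 h2 => (h.all D h1 h2).symm,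
    h.iT', h.iT, -θ, neg_ne_zero.2 h1, fun c d => ?_⟩
  rw [h2 c d]
  ring

omit [Fintype E] in
/-- a valid set avoids the triangle -/
theorem Vd.out {r : Finset E → ℤ} (hr : QUB.Rk r) {p : Itv E} {f a b : E} (hL : Tri3 r p f a b) {D : Finset E} (h : Vd r p f a D) :
    f ∉ D ∧ a ∉ D ∧ b ∉ D := by
  refine ⟨h.2.1, fun ha => ?_, fun hb => ?_⟩
  · have h1 := h.2.2.2
    rw [Finset.insert_eq_of_mem (Finset.mem_union_right _ ha)] at h1
    linarith
  · have h1 := h.2.2.2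
    have h2 := h.2.2.1
    have h3 := hL.2
    have h4 := hr.sub (insert a (insert f (insert b p.1))) (insert f (p.1 ∪ D))
    have e1 : insert f (insert b p.1) ⊆ insert a (insert f (insert b p.1)) ∩ insert f (p.1 ∪ D) := by
      refine Finset.subset_inter (Finset.subset_insert _ _) (Finset.insert_subset_insert f ?_)
      exact Finset.insert_subset (Finset.mem_union_right _ hb) Finset.subset_union_left
    have e2 : insert a (p.1 ∪ D) ⊆ insert a (insert f (insert b p.1)) ∪ insert f (p.1 ∪ D) := by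
      refine Finset.insert_subset (Finset.mem_union_left _ (Finset.mem_insert_self _ _)) ?_
      exact (Finset.subset_insert _ _).trans Finset.subset_union_right
    have h5 := hr.mono _ _ e1
    have h6 := hr.mono _ _ e2
    linarith

/-- the dichotomy: an extension of `T`, or two complementary valid sets -/
theorem cpl_of (S : TP K E) {p : Itv E} {f a b : E} (hp : p.1 ⊆ p.2) (hf : f ∈ gs p) (ha : a ∈ gs p) (hb : b ∈ gs p)
    (hfa : f ≠ a) (hfb : f ≠ b) (hab : a ≠ b) (hL : Tri3 S.r p f a b) (hr : 2 ≤ S.r p.2 - S.r p.1)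
    (hn : 2 * (S.r p.2 - S.r p.1) + 1 = (gs p).card)
    (hex : ∀ w ∈ gs p, w ≠ f → w ≠ a → w ≠ b → Ex S true f (rm true w p)) {T : Fm K E} (hT : InV S.U S.W (rm true f p) T)
    (hno : ∀ T' : Fm K E, InV S.U S.W p T' → ¬ EqOn S.U S.W (rm true f p) T' T) :
    ∃ (A A' : Finset E) (T1 T1' : Fm K E), Cpl S p f a b A A' T1 T1' := by
  classical
  obtain ⟨t, ht, htf⟩ := tri_vec S hfa hfb hf hL.1
  have D : Tdat S p f a b T t := ⟨hp, hf, ha, hb, hfa, hfb, hab, hL, hT, ht, htf⟩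
  have hno' : ∀ θ : K, ¬ InV S.U S.W p (thf T t f a θ) := fun θ h => hno _ h (thf_f T t f a θ)
  -- the elements outside of the triangle
  set G : Finset E := gs p \ {f, a, b} with hG
  have hs3 : ({f, a, b} : Finset E) ⊆ gs p := by
    intro x hx
    simp only [Finset.mem_insert, Finset.mem_singleton] at hx
    rcases hx with rfl | rfl | rfl
    · exact hf
    · exact ha
    · exact hb
  have hc3 : ({f, a, b} : Finset E).card = 3 := Finset.card_eq_three.2 ⟨f, a, b, hfa, hfb, hab, rfl⟩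
  have hle3 := Finset.card_le_card hs3
  have hGc : (G.card : ℤ) = 2 * (S.r p.2 - S.r p.1 - 1) := by
    have h1 : G.card = (gs p).card - 3 := by rw [hG, Finset.card_sdiff_of_subset hs3, hc3]
    rw [h1]
    omega
  have hGm : ∀ w, w ∈ G ↔ w ∈ gs p ∧ w ≠ f ∧ w ≠ a ∧ w ≠ b := by
    intro w
    rw [hG, Finset.mem_sdiff]
    simp only [Finset.mem_insert, Finset.mem_singleton, not_or]
  have hVG : ∀ D, Vd S.r p f a D → D ⊆ G := by
    intro D hD x hx
    obtain ⟨h1, h2, h3⟩ := hD.out S.rk hL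
    exact (hGm x).2 ⟨hD.1 hx, fun h => h1 (h ▸ hx), fun h => h2 (h ▸ hx), fun h => h3 (h ▸ hx)⟩
  have hz : ∀ I : Finset E, ∀ d ∈ spt S.W (insert f (p.1 ∪ I)), ∀ w ∈ G, w ∉ I → d w = 0 := by
    intro I d hd w hw hwI
    refine hd.2 w fun h => ?_
    rcases Finset.mem_insert.1 h with h1 | h
    · exact ((hGm w).1 hw).2.1 h1
    · rcases Finset.mem_union.1 h with h | h
      · exact (Finset.mem_sdiff.1 ((hGm w).1 hw).1).2 h
      · exact hwI h
  have hs : ∀ I : Finset E, I ⊆ gs p → insert f (p.1 ∪ I) ⊆ p.2 := fun I hI =>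
    Finset.insert_subset (Finset.mem_sdiff.1 hf).1 (Finset.union_subset hp fun x hx => (Finset.mem_sdiff.1 (hI hx)).1)
  have hsp : ∀ {d : E → K} {w : E}, d ∈ spt S.W p.2 → d w = 0 → d ∈ spt S.W (rm true w p).2 := by
    intro d w hd h0
    refine ⟨hd.1, fun y hy => ?_⟩
    by_cases hyx : y = w
    · rw [hyx, h0]
    · exact hd.2 y fun h1 => hy (Finset.mem_erase.2 ⟨hyx, h1⟩)
  -- the scalar of a valid set
  have hth : ∀ D', Vd S.r p f a D' → ∃ θ : K, (∀ w ∈ G, w ∉ D' → InV S.U S.W (rm true w p) (thf T t f a θ)) ∧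
      ∀ θ' : K, (∃ w ∈ G, w ∉ D' ∧ InV S.U S.W (rm true w p) (thf T t f a θ')) → θ' = θ := by
    intro D' hD'
    obtain ⟨c0, hc0, d0, hd0, hcd0, hca0, hdf0⟩ := pair_of_rank S (p := p) (a := a) hf hD'.2.1 hD'.2.2.1 hD'.2.2.2
    have hd0' := spt_mono (hs D' hD'.1) hd0
    have e0 : thf T t f a (T c0 t - T c0 d0) c0 d0 = 0 := by
      rw [thf_apply, hca0, hdf0]
      ring
    refine ⟨T c0 t - T c0 d0, fun w hw hw0 => ?_, ?_⟩
    · obtain ⟨m1, m2, m3, m4⟩ := (hGm w).1 hw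
      exact D.step m1 m2 m3 m4 (hex w m1 m2 m3 m4) hc0 hd0' hcd0 (by rw [hca0]; exact one_ne_zero)
        (by rw [hdf0]; exact one_ne_zero) (hz D' d0 hd0 w hw hw0) e0
    · rintro θ' ⟨w, hw, hw0, hV⟩
      have e1 := hV c0 hc0 d0 (hsp hd0' (hz D' d0 hd0 w hw hw0)) hcd0
      rw [thf_apply, hca0, hdf0] at e1
      linear_combination e1
  -- a valid set exists
  obtain ⟨D0, hD0, hD0c⟩ : ∃ D0, Vd S.r p f a D0 ∧ (D0.card : ℤ) ≤ S.r p.2 - S.r p.1 - 1 := by
    by_contra hcon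
    push Not at hcon
    refine hno' 0 (D.fin fun c _ I hI _ hIc _ _ _ _ _ => ?_)
    have h1 := hcon I hI
    omega
  obtain ⟨θ0, hθ0, uθ0⟩ := hth D0 hD0
  obtain ⟨I0, hI0, hI0c, hI0n⟩ : ∃ I0, Vd S.r p f a I0 ∧ (I0.card : ℤ) ≤ S.r p.2 - S.r p.1 - 1 ∧
      ∀ w ∈ G, w ∉ I0 → ¬ InV S.U S.W (rm true w p) (thf T t f a θ0) := by
    by_contra hcon
    push Not at hcon
    refine hno' θ0 (D.fin fun c hc I hI _ hIc d hd hcd _ _ => ?_)
    obtain ⟨w, hw, hwI, hV⟩ := hcon I hI hIc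
    exact hV c hc d (hsp (spt_mono (hs I hI.1) hd) (hz I d hd w hw hwI)) hcd
  have hcov : G ⊆ I0 ∪ D0 := by
    intro w hw
    by_contra h
    rw [Finset.mem_union, not_or] at h
    exact hI0n w hw h.1 (hθ0 w hw h.2)
  have hunc := Finset.card_union_add_card_inter I0 D0
  have hG1 := Finset.card_le_card hcov
  have hI0e : (I0.card : ℤ) = S.r p.2 - S.r p.1 - 1 := by omega
  have hD0e : (D0.card : ℤ) = S.r p.2 - S.r p.1 - 1 := by omega
  have hdis : Disjoint I0 D0 := by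
    rw [Finset.disjoint_iff_inter_eq_empty, ← Finset.card_eq_zero]
    omega
  obtain ⟨θ1, hθ1, uθ1⟩ := hth I0 hI0
  have hDne : ∃ w, w ∈ D0 := Finset.card_pos.1 (by omega)
  have hne : θ1 ≠ θ0 := by
    rintro rfl
    obtain ⟨w, hw⟩ := hDne
    have h1 : w ∉ I0 := fun h => Finset.disjoint_left.1 hdis h hw
    exact hI0n w (hVG D0 hD0 hw) h1 (hθ1 w (hVG D0 hD0 hw) h1)
  refine ⟨I0, D0, thf T t f a θ0, thf T t f a θ1, hI0, hD0, hI0e, hD0e, hdis, ?_, ?_, ?_, ?_, θ1 - θ0, sub_ne_zero.2 hne, ?_⟩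
  · intro w h1 h2 h3 h4
    exact Finset.mem_union.1 (hcov ((hGm w).2 ⟨h1, h2, h3, h4⟩))
  · intro D' hD' hD'c
    by_contra hcon
    rw [not_or] at hcon
    have ex1 : ∀ X : Finset E, (X.card : ℤ) = S.r p.2 - S.r p.1 - 1 → X ⊆ G → D' ≠ G \ X → ∃ w ∈ G, w ∉ D' ∧ w ∉ X := by
      intro X hX hXG hne'
      by_contra hc
      push Not at hc
      have h1 : G \ X ⊆ D' := by
        intro w hw
        obtain ⟨h2, h3⟩ := Finset.mem_sdiff.1 hw
        by_contra h4
        exact h3 (hc w h2 h4)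
      have h2 : (G \ X).card = G.card - X.card := Finset.card_sdiff_of_subset hXG
      have h3 := Finset.card_le_card hXG
      exact hne' (Finset.eq_of_subset_of_card_le h1 (by omega)).symm
    have c1 : G \ D0 = I0 := by
      ext w
      rw [Finset.mem_sdiff]
      constructor
      · rintro ⟨h1, h2⟩
        exact (Finset.mem_union.1 (hcov h1)).resolve_right h2
      · intro h
        exact ⟨hVG I0 hI0 h, fun h2 => Finset.disjoint_left.1 hdis h h2⟩
    have c2 : G \ I0 = D0 := by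
      ext w
      rw [Finset.mem_sdiff]
      constructor
      · rintro ⟨h1, h2⟩
        exact (Finset.mem_union.1 (hcov h1)).resolve_left h2
      · intro h
        exact ⟨hVG D0 hD0 h, fun h2 => Finset.disjoint_left.1 hdis h2 h⟩
    obtain ⟨θ2, hθ2, uθ2⟩ := hth D' hD'
    obtain ⟨w, hw, hw1, hw2⟩ := ex1 D0 hD0e (hVG D0 hD0) (by rw [c1]; exact hcon.1)
    obtain ⟨w', hw', hw1', hw2'⟩ := ex1 I0 hI0e (hVG I0 hI0) (by rw [c2]; exact hcon.2)
    have g1 : θ0 = θ2 := uθ2 θ0 ⟨w, hw, hw1, hθ0 w hw hw2⟩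
    have g2 : θ1 = θ2 := uθ2 θ1 ⟨w', hw', hw1', hθ1 w' hw' hw2'⟩
    exact hne (g2.trans g1.symm)
  · rintro w (rfl | hw)
    · intro c hc d hd hcd
      exact D.f0 θ0 hc (spt_mono (Finset.erase_subset _ _) hd) hcd (hd.2 w (Finset.notMem_erase w p.2))
    · exact hθ0 w (hVG I0 hI0 hw) fun h => Finset.disjoint_left.1 hdis hw h
  · rintro w (rfl | hw)
    · intro c hc d hd hcd
      exact D.f0 θ1 hc (spt_mono (Finset.erase_subset _ _) hd) hcd (hd.2 w (Finset.notMem_erase w p.2))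
    · exact hθ1 w (hVG D0 hD0 hw) fun h => Finset.disjoint_left.1 hdis h hw
  · intro c d
    rw [thf_apply, thf_apply]
    ring

end Pool.Agent.QU
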