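import Pool.Agent.QUR.Cnt

set_option autoImplicit false

/-!
# QUR/CplM: two complementary valid sets, the rank part

`ρ` is the rank function of a matroid on `E0` of rank `R ≥ 5` without loops and parallel pairs, `x1, x2, x3` lie on a line. For the index `x1` there
are exactly two valid sets `A1, B1` of at most `R - 1` elements, they are disjoint and have `R - 1` elements, in the same way `A2, B2` for the index
`x2`. If `w, w'` are in `A1` and in `A2`, then `E0` without `w, w', x3` is connected (`cm_con`) and has a four point line minor (`cm_ln`).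
-/

namespace Pool.Agent.QU

variable {E : Type} [DecidableEq E] {ρ : Finset E → ℤ}

theorem cm_up (hρ : QUB.Rk ρ) (x : E) (X : Finset E) : ρ X ≤ ρ (insert x X) := hρ.mono _ _ (Finset.subset_insert x X)

theorem cm_cl (hρ : QUB.Rk ρ) {x : E} {X Y : Finset E} (h : X ⊆ Y) (hx : ρ (insert x X) = ρ X) : ρ (insert x Y) = ρ Y := by
  have h1 := hρ.sub (insert x X) Y
  have h2 : insert x X ∪ Y = insert x Y := by
    rw [Finset.insert_union, Finset.union_eq_right.2 h]
  have h3 : X ⊆ insert x X ∩ Y := Finset.subset_inter (Finset.subset_insert _ _) h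
  have h4 := hρ.mono _ _ h3
  have h5 := cm_up hρ x Y
  rw [h2] at h1
  linarith

theorem cm_card (hρ : QUB.Rk ρ) (X : Finset E) : ρ X ≤ X.card := by
  induction X using Finset.induction_on with
  | empty => rw [hρ.empty]; simp
  | insert x X hx ih =>
    have h := hρ.unit X x
    rw [Finset.card_insert_of_notMem hx]
    push_cast
    linarith

theorem cm_add (hρ : QUB.Rk ρ) (X Z : Finset E) : ρ (X ∪ Z) ≤ ρ X + Z.card := by
  have h1 := hρ.sub X Z
  have h2 := cm_card hρ Z
  have h3 := hρ.mono ∅ (X ∩ Z) (Finset.empty_subset _)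
  rw [hρ.empty] at h3
  linarith

theorem cm_ind (hρ : QUB.Rk ρ) {X Z : Finset E} (h : X ⊆ Z) (hZ : ρ Z = Z.card) : ρ X = X.card := by
  have h1 := cm_add hρ X (Z \ X)
  rw [Finset.union_sdiff_of_subset h, Finset.card_sdiff_of_subset h] at h1
  have h2 := cm_card hρ X
  have h3 := Finset.card_le_card h
  push_cast [h3] at h1
  linarith

/-- the intersection of closures of subsets of an independent set -/
theorem cm_int (hρ : QUB.Rk ρ) {B : Finset E} (hB : ρ B = B.card) {z : E} (hz : ρ (insert z B) = ρ B) {I : Finset E} (hI : I ⊆ B)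
    (h : ∀ u ∈ I, ρ (insert z (B.erase u)) = ρ (B.erase u)) : ρ (insert z (B \ I)) = ρ (B \ I) := by
  induction I using Finset.induction_on with
  | empty => rwa [Finset.sdiff_empty]
  | insert u I hu ih =>
    have h1 := ih ((Finset.subset_insert _ _).trans hI) fun v hv => h v (Finset.mem_insert_of_mem hv)
    have h2 := h u (Finset.mem_insert_self _ _)
    have huB : u ∈ B := hI (Finset.mem_insert_self _ _)
    have h3 := hρ.sub (insert z (B \ I)) (insert z (B.erase u))
    have e1 : insert z (B \ I) ∪ insert z (B.erase u) = insert z B := by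
      ext y
      simp only [Finset.mem_union, Finset.mem_insert, Finset.mem_sdiff, Finset.mem_erase]
      by_cases hyu : y = u
      · subst hyu
        tauto
      · tauto
    have e2 : insert z (B \ insert u I) ⊆ insert z (B \ I) ∩ insert z (B.erase u) := by
      intro y hy
      simp only [Finset.mem_inter, Finset.mem_insert, Finset.mem_sdiff, Finset.mem_erase] at hy ⊢
      tauto
    have h4 := hρ.mono _ _ e2
    rw [e1, hz, h1, h2] at h3
    have i1 := cm_ind hρ (Finset.sdiff_subset : B \ I ⊆ B) hB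
    have i2 := cm_ind hρ (Finset.erase_subset u B) hB
    have i3 := cm_ind hρ (Finset.sdiff_subset : B \ insert u I ⊆ B) hB
    have c1 : (B \ I).card = B.card - I.card := Finset.card_sdiff_of_subset ((Finset.subset_insert _ _).trans hI)
    have c2 : (B \ insert u I).card = B.card - (insert u I).card := Finset.card_sdiff_of_subset hI
    have c3 : (insert u I).card = I.card + 1 := Finset.card_insert_of_notMem hu
    have c4 : (B.erase u).card = B.card - 1 := Finset.card_erase_of_mem huB
    have c5 := Finset.card_le_card hI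
    have h5 := cm_up hρ z (B \ insert u I)
    rw [i1, i2, hB] at h3
    rw [i3] at h5 ⊢
    omega

/-- a valid set -/
def Va (ρ : Finset E → ℤ) (E0 : Finset E) (f a : E) (D : Finset E) : Prop :=
  D ⊆ E0 ∧ f ∉ D ∧ ρ (insert f D) = ρ D ∧ ρ (insert a D) = ρ D + 1

/-- two complementary valid sets -/
structure Vb (ρ : Finset E → ℤ) (E0 : Finset E) (R : ℤ) (f a : E) (A B : Finset E) : Prop where
  vA : Va ρ E0 f a A
  vB : Va ρ E0 f a B
  cA : (A.card : ℤ) = R - 1
  cB : (B.card : ℤ) = R - 1
  dis : Disjoint A B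
  all : ∀ D, Va ρ E0 f a D → (D.card : ℤ) ≤ R - 1 → D = A ∨ D = B

variable {E0 : Finset E} {R : ℤ} {f a : E} {A B : Finset E}

theorem Vb.symm (h : Vb ρ E0 R f a A B) : Vb ρ E0 R f a B A :=
  ⟨h.vB, h.vA, h.cB, h.cA, h.dis.symm, fun D h1 h2 => (h.all D h1 h2).symm⟩

theorem Vb.le (h : Vb ρ E0 R f a A B) {D : Finset E} (hD : Va ρ E0 f a D) : R - 1 ≤ (D.card : ℤ) := by
  by_contra hcon
  push Not at hcon
  rcases h.all D hD (by omega) with rfl | rfl
  · have := h.cA
    omega
  · have := h.cB
    omega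

/-- a smaller set with the same closure is valid -/
theorem va_sub (hρ : QUB.Rk ρ) {D D' : Finset E} (hD : Va ρ E0 f a D) (h : D' ⊆ D) (hf : ρ (insert f D') = ρ D') : Va ρ E0 f a D' := by
  refine ⟨h.trans hD.1, fun h1 => hD.2.1 (h h1), hf, ?_⟩
  by_contra hne
  have h1 := hρ.unit D' a
  have h2 := cm_up hρ a D'
  have h3 := cm_cl hρ h (x := a) (by omega)
  have h4 := hD.2.2.2
  omega

theorem Vb.ind (hρ : QUB.Rk ρ) (h : Vb ρ E0 R f a A B) : ρ A = A.card := by
  obtain ⟨I, hI, h1, h2⟩ := basis_over hρ (C := ∅) (A := A) (Finset.empty_subset _)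
  rw [Finset.sdiff_empty] at hI
  rw [Finset.empty_union] at h1
  rw [hρ.empty, sub_zero] at h2
  have hfI : ρ (insert f I) = ρ I := by
    have e1 := hρ.mono _ _ (Finset.insert_subset_insert f hI)
    have e2 := cm_up hρ f I
    have e3 := h.vA.2.2.1
    linarith
  have h3 := h.le (va_sub hρ h.vA hI hfI)
  have h4 := Finset.card_le_card hI
  have h5 := h.cA
  have h6 := cm_card hρ A
  omega

theorem Vb.crit (hρ : QUB.Rk ρ) (h : Vb ρ E0 R f a A B) {u : E} (hu : u ∈ A) : ρ (insert f (A.erase u)) = ρ (A.erase u) + 1 := by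
  by_contra hne
  have h1 := hρ.unit (A.erase u) f
  have h2 := cm_up hρ f (A.erase u)
  have h3 := h.le (va_sub hρ h.vA (Finset.erase_subset u A) (by omega))
  have h4 : (A.erase u).card = A.card - 1 := Finset.card_erase_of_mem hu
  have h5 := h.cA
  have h6 : 1 ≤ A.card := Finset.card_pos.2 ⟨u, hu⟩
  omega

theorem Vb.closed (hρ : QUB.Rk ρ) (h : Vb ρ E0 R f a A B) (hR : 3 ≤ R) (h1 : ∀ x ∈ E0, ρ {x} = 1) {z : E} (hz : z ∈ B) :
    ρ (insert z A) = ρ A + 1 := by
  by_contra hne
  have e1 := hρ.unit A z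
  have e2 := cm_up hρ z A
  have hzA : ρ (insert z A) = ρ A := by omega
  have hzn : z ∉ A := fun hh => Finset.disjoint_left.1 h.dis hh hz
  have hi := h.ind hρ
  -- an element of the circuit
  obtain ⟨u, hu, huz⟩ : ∃ u ∈ A, ρ (insert z (A.erase u)) ≠ ρ (A.erase u) := by
    by_contra hcon
    push Not at hcon
    have h2 := cm_int hρ hi hzA (Finset.Subset.refl A) hcon
    rw [Finset.sdiff_self, hρ.empty] at h2
    have h3 := h1 z (h.vB.1 hz)
    have h4 : insert z (∅ : Finset E) = {z} := by simp
    rw [h4] at h2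
    omega
  have h3 := hρ.unit (A.erase u) z
  have h4 := cm_up hρ z (A.erase u)
  have h5 : ρ (A.erase u) = (A.erase u).card := cm_ind hρ (Finset.erase_subset u A) hi
  have h6 : (A.erase u).card = A.card - 1 := Finset.card_erase_of_mem hu
  have h7 : 1 ≤ A.card := Finset.card_pos.2 ⟨u, hu⟩
  have hD : Va ρ E0 f a (insert z (A.erase u)) := by
    have hsub : insert z (A.erase u) ⊆ insert z A := Finset.insert_subset_insert z (Finset.erase_subset _ _)
    have hr : ρ (insert z (A.erase u)) = ρ (insert z A) := by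
      rw [hzA, hi]
      omega
    refine ⟨?_, ?_, ?_, ?_⟩
    · exact Finset.insert_subset (h.vB.1 hz) ((Finset.erase_subset _ _).trans h.vA.1)
    · intro hh
      rcases Finset.mem_insert.1 hh with hh | hh
      · exact h.vB.2.1 (hh ▸ hz)
      · exact h.vA.2.1 (Finset.mem_of_mem_erase hh)
    · have g1 := cm_cl hρ (Finset.subset_insert z A) h.vA.2.2.1
      have g2 := hρ.mono _ _ (Finset.insert_subset_insert f hsub)
      have g3 := cm_up hρ f (insert z (A.erase u))
      linarith
    · by_contra hne'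
      have g1 := hρ.unit (insert z (A.erase u)) a
      have g2 := cm_up hρ a (insert z (A.erase u))
      have g3 := cm_cl hρ hsub (x := a) (by omega)
      have g4 := hρ.mono _ _ (Finset.insert_subset_insert a (Finset.subset_insert z A))
      have g5 := h.vA.2.2.2
      linarith
  have hzn' : z ∉ A.erase u := fun hh => hzn (Finset.mem_of_mem_erase hh)
  have hc : (insert z (A.erase u)).card = A.card := by
    rw [Finset.card_insert_of_notMem hzn']
    omega
  have hcA := h.cA
  rcases h.all _ hD (by omega) with hh | hh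
  · exact hzn (hh ▸ Finset.mem_insert_self _ _)
  · obtain ⟨v, hv⟩ : ∃ v, v ∈ A.erase u := Finset.card_pos.1 (by omega)
    have hvB : v ∈ B := hh ▸ Finset.mem_insert_of_mem hv
    exact Finset.disjoint_left.1 h.dis (Finset.mem_of_mem_erase hv) hvB

/-- `f` is not in the closure of `a` and `A` without one element -/
theorem Vb.key (hρ : QUB.Rk ρ) (h : Vb ρ E0 R f a A B) {u : E} (hu : u ∈ A) : ρ (insert f (insert a (A.erase u))) = R := by
  have hi := h.ind hρ
  have h1 := hρ.sub (insert f A) (insert f (insert a (A.erase u)))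
  have e1 : insert f A ∪ insert f (insert a (A.erase u)) = insert f (insert a A) := by
    ext y
    simp only [Finset.mem_union, Finset.mem_insert, Finset.mem_erase]
    tauto
  have e2 : insert f (A.erase u) ⊆ insert f A ∩ insert f (insert a (A.erase u)) := by
    intro y hy
    simp only [Finset.mem_inter, Finset.mem_insert, Finset.mem_erase] at hy ⊢
    tauto
  have h2 := hρ.mono _ _ e2
  have h3 := h.crit hρ hu
  have h4 : ρ (A.erase u) = (A.erase u).card := cm_ind hρ (Finset.erase_subset u A) hi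
  have h5 : (A.erase u).card = A.card - 1 := Finset.card_erase_of_mem hu
  have h6 : 1 ≤ A.card := Finset.card_pos.2 ⟨u, hu⟩
  have h7 := h.vA.2.2.2
  have h8 := h.vA.2.2.1
  have h9 := cm_up hρ f (insert a A)
  have h10 := h.cA
  have h11 := hρ.unit (A.erase u) a
  have h12 := hρ.unit (insert a (A.erase u)) f
  rw [e1] at h1
  omega

theorem cm_con (hρ : QUB.Rk ρ) {x1 x2 x3 w w' : E} (h : Vb ρ E0 R x1 x2 A B) (hR : 5 ≤ R) (hE : ρ E0 = R)
    (h1 : ∀ x ∈ E0, ρ {x} = 1) (h2 : ∀ x ∈ E0, ∀ y ∈ E0, x ≠ y → ρ {x, y} = 2) (hx1 : x1 ∈ E0) (hx2 : x2 ∈ E0)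
    (h12 : x1 ≠ x2) (h13 : x1 ≠ x3) (h23 : x2 ≠ x3) (h3B : x3 ∉ B) (h3A : x3 ∉ A) (hw : w ∈ A) (hw' : w' ∈ A)
    (cov : ∀ y ∈ E0, y ≠ x1 → y ≠ x2 → y ≠ x3 → y ∈ A ∨ y ∈ B) {Q X : Finset E} (hQ : Q = ((E0.erase w').erase w).erase x3)
    (hX : X ⊆ Q) (hne : X.Nonempty) (hne' : (Q \ X).Nonempty) : R + 1 ≤ ρ X + ρ (Q \ X) := by
  have hi := h.symm.ind hρ
  have hB := h.cB
  have hA := h.cA
  have hQE : Q ⊆ E0 := by
    rw [hQ]
    exact (Finset.erase_subset _ _).trans ((Finset.erase_subset _ _).trans (Finset.erase_subset _ _))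
  have hwB : w ∉ B := fun hh => Finset.disjoint_left.1 h.dis hw hh
  have hwB' : w' ∉ B := fun hh => Finset.disjoint_left.1 h.dis hw' hh
  have hx1A : x1 ∉ A := h.vA.2.1
  have hx1B : x1 ∉ B := h.vB.2.1
  have hx2B : x2 ∉ B := by
    intro hh
    have := h.vB.2.2.2
    rw [Finset.insert_eq_of_mem hh] at this
    omega
  have hx2A : x2 ∉ A := by
    intro hh
    have := h.vA.2.2.2
    rw [Finset.insert_eq_of_mem hh] at this
    omega
  have memQ : ∀ y, y ∈ Q ↔ y ≠ x3 ∧ y ≠ w ∧ y ≠ w' ∧ y ∈ E0 := by
    intro y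
    rw [hQ]
    simp only [Finset.mem_erase]
  have hC1 : insert x1 B ⊆ Q := by
    intro y hy
    rcases Finset.mem_insert.1 hy with rfl | hy
    · exact (memQ _).2 ⟨h13, fun hh => hx1A (hh ▸ hw), fun hh => hx1A (hh ▸ hw'), hx1⟩
    · exact (memQ _).2 ⟨fun hh => h3B (hh ▸ hy), fun hh => hwB (hh ▸ hy), fun hh => hwB' (hh ▸ hy), h.vB.1 hy⟩
  have hx2Q : x2 ∈ Q := (memQ _).2 ⟨h23, fun hh => hx2A (hh ▸ hw), fun hh => hx2A (hh ▸ hw'), hx2⟩
  have hrx2 : ρ (insert x2 B) = R := by
    have := h.vB.2.2.2
    omega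
  have hQR : ρ Q = R := by
    have g1 := hρ.mono _ _ hQE
    have g2 := hρ.mono (insert x2 B) Q (Finset.insert_subset hx2Q ((Finset.subset_insert _ _).trans hC1))
    omega
  have hrC1 : ρ (insert x1 B) = R - 1 := by
    have := h.vB.2.2.1
    omega
  have cC1 : ((insert x1 B).card : ℤ) = R := by
    rw [Finset.card_insert_of_notMem hx1B]
    push_cast
    omega
  -- elements of `Q` outside of the circuit
  have out : ∀ y ∈ Q, y ∉ insert x1 B → ρ (insert y B) = R := by
    intro y hy hyn
    obtain ⟨m1, m2, m3, m4⟩ := (memQ y).1 hy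
    rw [Finset.mem_insert, not_or] at hyn
    by_cases hy2 : y = x2
    · rw [hy2]
      exact hrx2
    · rcases cov y m4 hyn.1 hy2 m1 with hh | hh
      · have := h.symm.closed hρ (by omega) h1 hh
        omega
      · exact absurd hh hyn.2
  -- proper subsets of the circuit are independent
  have prop : ∀ Z, Z ⊆ insert x1 B → Z ≠ insert x1 B → ρ Z = Z.card := by
    intro Z hZ hZne
    by_cases hx : x1 ∈ Z
    · obtain ⟨u, hu, huZ⟩ : ∃ u ∈ insert x1 B, u ∉ Z := by
        by_contra hcon
        push Not at hcon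
        exact hZne (Finset.Subset.antisymm hZ hcon)
      have huB : u ∈ B := (Finset.mem_insert.1 hu).resolve_left fun hh => huZ (hh ▸ hx)
      refine cm_ind hρ (Z := insert x1 (B.erase u)) (fun y hy => ?_) ?_
      · rcases Finset.mem_insert.1 (hZ hy) with hh | hh
        · rw [hh]
          exact Finset.mem_insert_self _ _
        · exact Finset.mem_insert_of_mem (Finset.mem_erase.2 ⟨fun h4 => huZ (h4 ▸ hy), hh⟩)
      · have g1 := h.symm.crit hρ huB
        have g2 : ρ (B.erase u) = (B.erase u).card := cm_ind hρ (Finset.erase_subset u B) hi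
        rw [g1, g2, Finset.card_insert_of_notMem fun hh => hx1B (Finset.mem_of_mem_erase hh)]
        push_cast
        ring
    · refine cm_ind hρ (Z := B) (fun y hy => ?_) hi
      exact (Finset.mem_insert.1 (hZ hy)).resolve_left fun hh => hx (hh ▸ hy)
  -- one side contains the circuit
  have side : ∀ X P : Finset E, X ⊆ Q → P = Q \ X → P.Nonempty → insert x1 B ⊆ X → R + 1 ≤ ρ X + ρ P := by
    intro X P hX hP hPn hC
    have g1 := hρ.mono _ _ hC
    by_cases hy : ∃ y ∈ X, y ∉ insert x1 B
    · obtain ⟨y, hyX, hyn⟩ := hy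
      have g2 := out y (hX hyX) hyn
      have g3 := hρ.mono _ _ (Finset.insert_subset hyX ((Finset.subset_insert x1 B).trans hC))
      obtain ⟨v, hv⟩ := hPn
      have hvE : v ∈ E0 := hQE (Finset.mem_sdiff.1 (hP ▸ hv)).1
      have g4 := hρ.mono {v} P (Finset.singleton_subset_iff.2 hv)
      have g5 := h1 v hvE
      omega
    · push Not at hy
      have hXe : X = insert x1 B := Finset.Subset.antisymm hy hC
      obtain ⟨z, hz⟩ : ((A.erase w).erase w').Nonempty := by
        rw [← Finset.card_pos]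
        have g2 : (A.erase w).card = A.card - 1 := Finset.card_erase_of_mem hw
        have g3 := Finset.pred_card_le_card_erase (s := A.erase w) (a := w')
        omega
      obtain ⟨z1, z2⟩ := Finset.mem_erase.1 hz
      obtain ⟨z3, z4⟩ := Finset.mem_erase.1 z2
      have hzQ : z ∈ Q := (memQ z).2 ⟨fun hh => h3A (hh ▸ z4), z3, z1, h.vA.1 z4⟩
      have hzn : z ∉ insert x1 B := by
        intro hh
        rcases Finset.mem_insert.1 hh with hh | hh
        · exact hx1A (hh ▸ z4)
        · exact Finset.disjoint_left.1 h.dis z4 hh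
      have hx2n : x2 ∉ insert x1 B := by
        intro hh
        rcases Finset.mem_insert.1 hh with hh | hh
        · exact h12 hh.symm
        · exact hx2B hh
      have hsub : {z, x2} ⊆ P := by
        intro y hy'
        rw [hP, hXe]
        rcases Finset.mem_insert.1 hy' with rfl | hy'
        · exact Finset.mem_sdiff.2 ⟨hzQ, hzn⟩
        · rw [Finset.mem_singleton] at hy'
          rw [hy']
          exact Finset.mem_sdiff.2 ⟨hx2Q, hx2n⟩
      have g2 := hρ.mono _ _ hsub
      have g3 := h2 z (h.vA.1 z4) x2 hx2 fun hh => hx2A (hh ▸ z4)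
      omega
  by_cases c1 : insert x1 B ⊆ X
  · exact side X (Q \ X) hX rfl hne' c1
  by_cases c2 : insert x1 B ⊆ Q \ X
  · have := side (Q \ X) X Finset.sdiff_subset (by
      ext y
      have m1 : y ∈ X → y ∈ Q := fun hh => hX hh
      simp only [Finset.mem_sdiff]
      tauto) hne c2
    linarith
  have p1 := prop (X ∩ insert x1 B) Finset.inter_subset_right (fun hh => c1 (by rw [← hh]; exact Finset.inter_subset_left))
  have p2 := prop ((Q \ X) ∩ insert x1 B) Finset.inter_subset_right (fun hh => c2 (by rw [← hh]; exact Finset.inter_subset_left))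
  have s1 := hρ.sub X (insert x1 B)
  have s2 := hρ.sub (Q \ X) (X ∪ insert x1 B)
  have e1 : Q \ X ∪ (X ∪ insert x1 B) = Q := by
    ext y
    have m1 : y ∈ X → y ∈ Q := fun hh => hX hh
    have m2 : y ∈ insert x1 B → y ∈ Q := fun hh => hC1 hh
    simp only [Finset.mem_union, Finset.mem_sdiff]
    tauto
  have e2 : (Q \ X) ∩ insert x1 B ⊆ (Q \ X) ∩ (X ∪ insert x1 B) :=
    Finset.inter_subset_inter_left Finset.subset_union_right
  have s3 := hρ.mono _ _ e2
  have e3 : (X ∩ insert x1 B).card + ((Q \ X) ∩ insert x1 B).card = (insert x1 B).card := by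
    rw [← Finset.card_union_of_disjoint]
    · congr 1
      ext y
      have m2 : y ∈ insert x1 B → y ∈ Q := fun hh => hC1 hh
      simp only [Finset.mem_union, Finset.mem_inter, Finset.mem_sdiff]
      tauto
    · rw [Finset.disjoint_left]
      intro y hy hy'
      exact (Finset.mem_sdiff.1 (Finset.mem_inter.1 hy').1).2 (Finset.mem_inter.1 hy).1
  rw [e1] at s2
  omega

theorem cm_ln (hρ : QUB.Rk ρ) {x1 x2 x3 w w' : E} {A1 B1 A2 B2 : Finset E} (H1 : Vb ρ E0 R x1 x2 A1 B1) (H2 : Vb ρ E0 R x2 x1 A2 B2)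
    (hR : 5 ≤ R) (hE : ρ E0 = R) (h1 : ∀ x ∈ E0, ρ {x} = 1) (h2 : ∀ x ∈ E0, ∀ y ∈ E0, x ≠ y → ρ {x, y} = 2) (hx1 : x1 ∈ E0) (hx2 : x2 ∈ E0)
    (h12 : x1 ≠ x2) (h3A : x3 ∉ A1) (hw : w ∈ A1) (hw2 : w ∈ A2)
    (cov : ∀ y ∈ E0, y ≠ x1 → y ≠ x2 → y ≠ x3 → y ∈ A2 ∨ y ∈ B2) :
    ∃ Y N : Finset E, Y ⊆ insert x2 B1 ∧ N ⊆ insert x1 (B1 ∪ (A1.erase w).erase w') ∧ N.card = 4 ∧ Disjoint N Y ∧
      ρ (Y ∪ N) = ρ Y + 2 ∧ ∀ i ∈ N, ∀ j ∈ N, i ≠ j → ρ (insert i (insert j Y)) = ρ Y + 2 := by
  classical
  have hi := H1.symm.ind hρ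
  have hB := H1.cB
  have hA := H1.cA
  have hx1A : x1 ∉ A1 := H1.vA.2.1
  have hx1B : x1 ∉ B1 := H1.vB.2.1
  have hx2B : x2 ∉ B1 := by
    intro hh
    have := H1.vB.2.2.2
    rw [Finset.insert_eq_of_mem hh] at this
    omega
  have hx2A : x2 ∉ A1 := by
    intro hh
    have := H1.vA.2.2.2
    rw [Finset.insert_eq_of_mem hh] at this
    omega
  have hrB : ρ (insert x2 B1) = R := by
    have := H1.vB.2.2.2
    omega
  have cB : ((insert x2 B1).card : ℤ) = R := by
    rw [Finset.card_insert_of_notMem hx2B]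
    push_cast
    omega
  have iB : ρ (insert x2 B1) = (insert x2 B1).card := by omega
  have top : ∀ X : Finset E, X ⊆ E0 → ρ X ≤ R := fun X hX => by
    have := hρ.mono _ _ hX
    omega
  have hBE : insert x2 B1 ⊆ E0 := Finset.insert_subset hx2 H1.vB.1
  have key := fun u (hu : u ∈ B1) => H1.symm.key hρ hu
  -- the support of an element of `A1`
  have claim : ∀ z ∈ A1, z ≠ w → (∃ u ∈ B1, ρ (insert z ((insert x2 B1).erase u)) = ρ ((insert x2 B1).erase u)) →
      z ∈ B2 ∧ ∀ y ∈ B2, y ≠ z → y ∈ B1 := by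
    intro z hz hzw hu0
    have hzE : z ∈ E0 := H1.vA.1 hz
    have hzB1 : z ∉ B1 := fun hh => Finset.disjoint_left.1 H1.dis hz hh
    have hzB : ρ (insert z B1) = ρ B1 + 1 := H1.symm.closed hρ (by omega) h1 hz
    have hzR : ρ (insert z (insert x2 B1)) = ρ (insert x2 B1) := by
      have g1 := top _ (Finset.insert_subset hzE hBE)
      have g2 := cm_up hρ z (insert x2 B1)
      omega
    set s : Finset E := B1.filter fun u => ρ (insert z ((insert x2 B1).erase u)) ≠ ρ ((insert x2 B1).erase u) with hs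
    have hsB : s ⊆ B1 := Finset.filter_subset _ _
    have e1 : insert x2 B1 \ (B1 \ s) = insert x2 s := by
      ext y
      have m1 : y ∈ s → y ∈ B1 := fun hh => hsB hh
      by_cases hy : y = x2
      · subst hy
        simp only [Finset.mem_sdiff, Finset.mem_insert]
        tauto
      · simp only [Finset.mem_sdiff, Finset.mem_insert]
        tauto
    have g1 := cm_int hρ iB hzR (I := B1 \ s) (Finset.sdiff_subset.trans (Finset.subset_insert _ _)) (fun u hu => by
      obtain ⟨m1, m2⟩ := Finset.mem_sdiff.1 hu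
      by_contra hne
      exact m2 (Finset.mem_filter.2 ⟨m1, hne⟩))
    rw [e1] at g1
    have is : ρ s = s.card := cm_ind hρ hsB hi
    have ixs : ρ (insert x2 s) = (insert x2 s).card := cm_ind hρ (Finset.insert_subset_insert x2 hsB) iB
    have hx2s : x2 ∉ s := fun hh => hx2B (hsB hh)
    have cxs : (insert x2 s).card = s.card + 1 := Finset.card_insert_of_notMem hx2s
    have g2 : ρ (insert z s) = ρ s + 1 := by
      by_contra hne
      have f1 := hρ.unit s z
      have f2 := cm_up hρ z s
      have f3 := cm_cl hρ hsB (x := z) (by omega)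
      omega
    obtain ⟨u0, hu0, hu0'⟩ := hu0
    have hu0s : u0 ∉ s := fun hh => (Finset.mem_filter.1 hh).2 hu0'
    have hlt : s.card < B1.card := Finset.card_lt_card ⟨hsB, fun hh => hu0s (hh hu0)⟩
    have e2 : insert x2 (insert z s) = insert z (insert x2 s) := Finset.insert_comm _ _ _
    have hD : Va ρ E0 x2 x1 (insert z s) := by
      refine ⟨Finset.insert_subset hzE (hsB.trans H1.vB.1), ?_, ?_, ?_⟩
      · intro hh
        rcases Finset.mem_insert.1 hh with hh | hh
        · exact hx2A (hh ▸ hz)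
        · exact hx2s hh
      · rw [e2]
        omega
      · by_contra hne
        have f1 := hρ.unit (insert z s) x1
        have f2 := cm_up hρ x1 (insert z s)
        have f3 := cm_cl hρ (Finset.subset_insert x2 (insert z s)) (x := x1) (by omega)
        have f4 := hρ.mono (insert x1 (insert x2 s)) (insert x1 (insert x2 (insert z s)))
          (Finset.insert_subset_insert _ (Finset.insert_subset_insert _ (Finset.subset_insert _ _)))
        have f5 := cm_up hρ x1 (insert x2 s)
        have f6 : s ⊆ B1.erase u0 := fun y hy => Finset.mem_erase.2 ⟨fun h4 => hu0s (h4 ▸ hy), hsB hy⟩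
        rw [e2] at f3 f4
        have f7 := cm_cl hρ (Finset.insert_subset_insert x2 f6) (x := x1) (by omega)
        have f8 := key u0 hu0
        have f9 : ρ (B1.erase u0) = (B1.erase u0).card := cm_ind hρ (Finset.erase_subset _ _) hi
        have f10 : (B1.erase u0).card = B1.card - 1 := Finset.card_erase_of_mem hu0
        have f11 := hρ.unit (B1.erase u0) x2
        omega
    have hzs : z ∉ s := fun hh => hzB1 (hsB hh)
    have cD : (insert z s).card = s.card + 1 := Finset.card_insert_of_notMem hzs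
    rcases H2.all _ hD (by omega) with hh | hh
    · exfalso
      rw [← hh] at hw2
      rcases Finset.mem_insert.1 hw2 with h4 | h4
      · exact hzw h4.symm
      · exact Finset.disjoint_left.1 H1.dis hw (hsB h4)
    · refine ⟨hh ▸ Finset.mem_insert_self _ _, fun y hy hyz => ?_⟩
      rw [← hh] at hy
      exact hsB ((Finset.mem_insert.1 hy).resolve_left hyz)
  -- an element with full support
  obtain ⟨z, hz, hzw, hzw', hfull⟩ : ∃ z ∈ A1, z ≠ w ∧ z ≠ w' ∧
      ∀ u ∈ B1, ρ (insert z ((insert x2 B1).erase u)) ≠ ρ ((insert x2 B1).erase u) := by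
    have hc : 1 < ((A1.erase w).erase w').card := by
      have g2 : (A1.erase w).card = A1.card - 1 := Finset.card_erase_of_mem hw
      have g3 := Finset.pred_card_le_card_erase (s := A1.erase w) (a := w')
      omega
    obtain ⟨z, hz, z', hz', hne⟩ := Finset.one_lt_card.1 hc
    obtain ⟨m1, m2⟩ := Finset.mem_erase.1 hz
    obtain ⟨m3, m4⟩ := Finset.mem_erase.1 m2
    obtain ⟨n1, n2⟩ := Finset.mem_erase.1 hz'
    obtain ⟨n3, n4⟩ := Finset.mem_erase.1 n2
    by_contra hcon
    push Not at hcon
    obtain ⟨-, c1⟩ := claim z m4 m3 (hcon z m4 m3 m1)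
    obtain ⟨c2, -⟩ := claim z' n4 n3 (hcon z' n4 n3 n1)
    exact Finset.disjoint_left.1 H1.dis n4 (c1 z' c2 hne.symm)
  have hzE : z ∈ E0 := H1.vA.1 hz
  have hzB1 : z ∉ B1 := fun hh => Finset.disjoint_left.1 H1.dis hz hh
  have hzx1 : z ≠ x1 := fun hh => hx1A (hh ▸ hz)
  have hzx2 : z ≠ x2 := fun hh => hx2A (hh ▸ hz)
  have cE : ∀ u ∈ B1, ρ ((insert x2 B1).erase u) = R - 1 := by
    intro u hu
    have g1 : ρ ((insert x2 B1).erase u) = ((insert x2 B1).erase u).card := cm_ind hρ (Finset.erase_subset _ _) iB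
    have g2 : ((insert x2 B1).erase u).card = (insert x2 B1).card - 1 := Finset.card_erase_of_mem (Finset.mem_insert_of_mem hu)
    have g3 : 1 ≤ (insert x2 B1).card := Finset.card_pos.2 ⟨x2, Finset.mem_insert_self _ _⟩
    omega
  have full : ∀ u ∈ B1, ρ (insert z ((insert x2 B1).erase u)) = R := by
    intro u hu
    have g1 := hfull u hu
    have g2 := hρ.unit ((insert x2 B1).erase u) z
    have g3 := cm_up hρ z ((insert x2 B1).erase u)
    have g4 := cE u hu
    omega
  -- `z` is not on the line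
  have hline : ρ (insert z {x1, x2}) ≠ ρ {x1, x2} := by
    intro hh
    obtain ⟨Z, hZ, hzZ⟩ : ∃ Z, Va ρ E0 x2 x1 Z ∧ z ∈ Z := by
      rcases cov z hzE hzx1 hzx2 (fun h4 => h3A (h4 ▸ hz)) with h4 | h4
      · exact ⟨A2, H2.vA, h4⟩
      · exact ⟨B2, H2.vB, h4⟩
    have g1 := h2 x1 hx1 x2 hx2 h12
    have g2 := h2 z hzE x2 hx2 hzx2
    have e1 : insert x1 {z, x2} = insert z ({x1, x2} : Finset E) := Finset.insert_comm _ _ _
    have g3 : ρ (insert x1 {z, x2}) = ρ {z, x2} := by rw [e1]; omega
    have g4 : ({z, x2} : Finset E) ⊆ insert x2 Z := by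
      intro y hy
      rcases Finset.mem_insert.1 hy with rfl | hy
      · exact Finset.mem_insert_of_mem hzZ
      · rw [Finset.mem_singleton.1 hy]
        exact Finset.mem_insert_self _ _
    have g5 := cm_cl hρ g4 g3
    have g6 := hρ.mono _ _ (Finset.insert_subset_insert x1 (Finset.subset_insert x2 Z))
    have g7 := hZ.2.2.1
    have g8 := hZ.2.2.2
    omega
  obtain ⟨u, hu⟩ : ∃ u, u ∈ B1 := Finset.card_pos.1 (by omega)
  have rBu := key u hu
  set Bu : Finset E := insert x1 (insert x2 (B1.erase u)) with hBu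
  have hx1n : x1 ∉ insert x2 (B1.erase u) := by
    intro hh
    rcases Finset.mem_insert.1 hh with hh | hh
    · exact h12 hh
    · exact hx1B (Finset.mem_of_mem_erase hh)
  have hx2n : x2 ∉ B1.erase u := fun hh => hx2B (Finset.mem_of_mem_erase hh)
  have cu : (B1.erase u).card = B1.card - 1 := Finset.card_erase_of_mem hu
  have cBu : (Bu.card : ℤ) = R := by
    rw [hBu, Finset.card_insert_of_notMem hx1n, Finset.card_insert_of_notMem hx2n]
    have : 1 ≤ B1.card := Finset.card_pos.2 ⟨u, hu⟩
    push_cast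
    omega
  have hBuE : Bu ⊆ E0 := Finset.insert_subset hx1 (Finset.insert_subset hx2 ((Finset.erase_subset _ _).trans H1.vB.1))
  have hzBu : ρ (insert z Bu) = ρ Bu := by
    have g1 := top _ (Finset.insert_subset hzE hBuE)
    have g2 := cm_up hρ z Bu
    omega
  obtain ⟨u', hu', hne⟩ : ∃ u' ∈ B1.erase u, ρ (insert z (Bu.erase u')) ≠ ρ (Bu.erase u') := by
    by_contra hcon
    push Not at hcon
    have g1 := cm_int hρ (by omega) hzBu (I := B1.erase u)
      ((Finset.subset_insert _ _).trans (Finset.subset_insert _ _)) hcon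
    have e1 : Bu \ B1.erase u = {x1, x2} := by
      ext y
      rw [hBu]
      simp only [Finset.mem_sdiff, Finset.mem_insert, Finset.mem_singleton]
      constructor
      · rintro ⟨m1, m2⟩
        tauto
      · rintro (rfl | rfl)
        · exact ⟨Or.inl rfl, fun hh => hx1B (Finset.mem_of_mem_erase hh)⟩
        · exact ⟨Or.inr (Or.inl rfl), hx2n⟩
    rw [e1] at g1
    exact hline g1
  obtain ⟨huu, hu'B⟩ := Finset.mem_erase.1 hu'
  have hu'Bu : u' ∈ Bu := Finset.mem_insert_of_mem (Finset.mem_insert_of_mem hu')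
  have rBuu : ρ (Bu.erase u') = R - 1 := by
    have g1 : ρ (Bu.erase u') = (Bu.erase u').card := cm_ind hρ (Finset.erase_subset _ _) (by omega)
    have g2 : (Bu.erase u').card = Bu.card - 1 := Finset.card_erase_of_mem hu'Bu
    have g3 : 1 ≤ Bu.card := Finset.card_pos.2 ⟨u', hu'Bu⟩
    omega
  have rz : ρ (insert z (Bu.erase u')) = R := by
    have g1 := hρ.unit (Bu.erase u') z
    have g2 := cm_up hρ z (Bu.erase u')
    omega
  set Y : Finset E := insert x2 ((B1.erase u).erase u') with hY
  have hux1 : u ≠ x1 := fun hh => hx1B (hh ▸ hu)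
  have hux2 : u ≠ x2 := fun hh => hx2B (hh ▸ hu)
  have hu'x1 : u' ≠ x1 := fun hh => hx1B (hh ▸ hu'B)
  have hu'x2 : u' ≠ x2 := fun hh => hx2B (hh ▸ hu'B)
  have huz : u ≠ z := fun hh => hzB1 (hh ▸ hu)
  have hu'z : u' ≠ z := fun hh => hzB1 (hh ▸ hu'B)
  have rY : ρ Y = R - 2 := by
    have g1 : ρ Y = Y.card := cm_ind hρ (Finset.insert_subset_insert x2 ((Finset.erase_subset _ _).trans (Finset.erase_subset _ _))) iB
    have g2 : Y.card = ((B1.erase u).erase u').card + 1 :=
      Finset.card_insert_of_notMem fun hh => hx2n (Finset.mem_of_mem_erase hh)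
    have g3 : ((B1.erase u).erase u').card = (B1.erase u).card - 1 := Finset.card_erase_of_mem hu'
    have g4 : 1 ≤ (B1.erase u).card := Finset.card_pos.2 ⟨u', hu'⟩
    omega
  have p1 : insert u (insert u' Y) = insert x2 B1 := by
    ext y
    rw [hY]
    simp only [Finset.mem_insert, Finset.mem_erase]
    by_cases h4 : y = u
    · subst h4
      tauto
    by_cases h5 : y = u'
    · subst h5
      tauto
    tauto
  have p2 : insert u (insert x1 Y) = insert x1 (insert x2 (B1.erase u')) := by
    ext y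
    rw [hY]
    simp only [Finset.mem_insert, Finset.mem_erase]
    by_cases h4 : y = u
    · subst h4
      have := huu.symm
      tauto
    tauto
  have p3 : insert u' (insert x1 Y) = Bu := by
    ext y
    rw [hY, hBu]
    simp only [Finset.mem_insert, Finset.mem_erase]
    by_cases h5 : y = u'
    · subst h5
      tauto
    tauto
  have p4 : insert u (insert z Y) = insert z ((insert x2 B1).erase u') := by
    ext y
    rw [hY]
    simp only [Finset.mem_insert, Finset.mem_erase]
    by_cases h4 : y = u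
    · subst h4
      have := huu.symm
      tauto
    by_cases h5 : y = x2
    · subst h5
      have := hu'x2.symm
      tauto
    tauto
  have p5 : insert u' (insert z Y) = insert z ((insert x2 B1).erase u) := by
    ext y
    rw [hY]
    simp only [Finset.mem_insert, Finset.mem_erase]
    by_cases h4 : y = u'
    · subst h4
      tauto
    by_cases h5 : y = x2
    · subst h5
      have := hux2.symm
      tauto
    tauto
  have p6 : insert x1 (insert z Y) = insert z (Bu.erase u') := by
    ext y
    rw [hY, hBu]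
    simp only [Finset.mem_insert, Finset.mem_erase]
    by_cases h4 : y = x1
    · subst h4
      have := hu'x1.symm
      tauto
    by_cases h5 : y = x2
    · subst h5
      have := hu'x2.symm
      tauto
    tauto
  have r1 : ρ (insert u (insert u' Y)) = R := by rw [p1]; exact hrB
  have r2 : ρ (insert u (insert x1 Y)) = R := by rw [p2]; exact key u' hu'B
  have r3 : ρ (insert u' (insert x1 Y)) = R := by rw [p3]; exact rBu
  have r4 : ρ (insert u (insert z Y)) = R := by rw [p4]; exact full u' hu'B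
  have r5 : ρ (insert u' (insert z Y)) = R := by rw [p5]; exact full u hu
  have r6 : ρ (insert x1 (insert z Y)) = R := by rw [p6]; exact rz
  have hYE : Y ⊆ E0 := (Finset.insert_subset_insert x2 ((Finset.erase_subset _ _).trans (Finset.erase_subset _ _))).trans hBE
  have uE : u ∈ E0 := H1.vB.1 hu
  have u'E : u' ∈ E0 := H1.vB.1 hu'B
  refine ⟨Y, {u, u', x1, z}, Finset.insert_subset_insert x2 ((Finset.erase_subset _ _).trans (Finset.erase_subset _ _)), ?_, ?_, ?_, ?_, ?_⟩
  · intro y hy
    simp only [Finset.mem_insert, Finset.mem_singleton] at hy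
    rcases hy with rfl | rfl | rfl | rfl
    · exact Finset.mem_insert_of_mem (Finset.mem_union_left _ hu)
    · exact Finset.mem_insert_of_mem (Finset.mem_union_left _ hu'B)
    · exact Finset.mem_insert_self _ _
    · exact Finset.mem_insert_of_mem (Finset.mem_union_right _ (Finset.mem_erase.2 ⟨hzw', Finset.mem_erase.2 ⟨hzw, hz⟩⟩))
  · rw [Finset.card_insert_of_notMem, Finset.card_insert_of_notMem, Finset.card_pair hzx1.symm]
    · simp only [Finset.mem_insert, Finset.mem_singleton, not_or]
      exact ⟨hu'x1, hu'z⟩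
    · simp only [Finset.mem_insert, Finset.mem_singleton, not_or]
      exact ⟨huu.symm, hux1, huz⟩
  · rw [Finset.disjoint_left]
    intro y hy hyY
    rw [hY] at hyY
    simp only [Finset.mem_insert, Finset.mem_singleton, Finset.mem_erase] at hy hyY
    rcases hy with rfl | rfl | rfl | rfl
    · rcases hyY with h4 | ⟨-, h4, -⟩
      · exact hux2 h4
      · exact h4 rfl
    · rcases hyY with h4 | ⟨h4, -⟩
      · exact hu'x2 h4
      · exact h4 rfl
    · rcases hyY with h4 | ⟨-, -, h4⟩
      · exact h12 h4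
      · exact hx1B h4
    · rcases hyY with h4 | ⟨-, -, h4⟩
      · exact hzx2 h4
      · exact hzB1 h4
  · have g1 : insert u (insert u' Y) ⊆ Y ∪ {u, u', x1, z} := by
      intro y hy
      simp only [Finset.mem_insert, Finset.mem_union, Finset.mem_singleton] at hy ⊢
      tauto
    have g2 := hρ.mono _ _ g1
    have g3 := top (Y ∪ {u, u', x1, z}) (Finset.union_subset hYE (by
      intro y hy
      simp only [Finset.mem_insert, Finset.mem_singleton] at hy
      rcases hy with rfl | rfl | rfl | rfl
      · exact uE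
      · exact u'E
      · exact hx1
      · exact hzE))
    rw [r1] at g2
    linarith
  · have rY2 : ρ Y + 2 = R := by rw [rY]; ring
    have sw : ∀ i j : E, ρ (insert i (insert j Y)) = R → ρ (insert j (insert i Y)) = ρ Y + 2 := by
      intro i j hij
      rw [Finset.insert_comm, hij, rY2]
    have st : ∀ i j : E, ρ (insert i (insert j Y)) = R → ρ (insert i (insert j Y)) = ρ Y + 2 := by
      intro i j hij
      rw [hij, rY2]
    intro i hi j hj hij
    simp only [Finset.mem_insert, Finset.mem_singleton] at hi hj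
    rcases hi with rfl | rfl | rfl | rfl <;> rcases hj with rfl | rfl | rfl | rfl
    · exact absurd rfl hij
    · exact st _ _ r1
    · exact st _ _ r2
    · exact st _ _ r4
    · exact sw _ _ r1
    · exact absurd rfl hij
    · exact st _ _ r3
    · exact st _ _ r5
    · exact sw _ _ r2
    · exact sw _ _ r3
    · exact absurd rfl hij
    · exact st _ _ r6
    · exact sw _ _ r4
    · exact sw _ _ r5
    · exact sw _ _ r6
    · exact absurd rfl hij

end Pool.Agent.QU
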