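import Pool.Agent.QUL.LRk

set_option autoImplicit false

/-!
# QUR/Del: forms in `V` after the deletion of the elements of a set

If `T` lies in `V` after the deletion of each `k` of a set `Q`, then `T` lies in `V` unless `Q` is inside one series class of some
hyperplane (a flat `A` of corank at most one). Corollaries: more than `rank` many deletions (`del_card`), the triangle trick (`del_tri`),
tight pairs (`del_pair`).
-/

open Module (finrank)

namespace Pool.Agent.QU

variable {K E : Type} [Field K] [Fintype E] [DecidableEq E]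

/-- `Q` is not inside one series class of `A` -/
def NSer (r : Finset E → ℤ) (Q A : Finset E) : Prop :=
  ¬ Q ⊆ A ∨ (∃ k ∈ Q, r (A.erase k) < r A) ∨ ∃ k ∈ Q, ∃ k' ∈ Q, k ≠ k' ∧ r ((A.erase k').erase k) = r (A.erase k')

omit [Fintype E] in
private theorem del_disj {c d : E → K} {A : Finset E} (hcA : ∀ x ∈ A, c x = 0) (hd : ∀ x, x ∉ A → d x = 0) (x : E) :
    c x * d x = 0 := by
  by_cases hx : x ∈ A
  · rw [hcA x hx, zero_mul]
  · rw [hd x hx, mul_zero]

private theorem del_zero (S : TP K E) {p : Itv E} {A : Finset E} {T : Fm K E} {k : E} (hK : InV S.U S.W (rm true k p) T)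
    (hA : A ⊆ p.2) {c : E → K} (hc : c ∈ van S.U p.1) (hcA : ∀ x ∈ A, c x = 0) {d : E → K} (hd : d ∈ spt S.W A)
    (hk : d k = 0) : T c d = 0 := by
  refine hK c hc d ⟨hd.1, fun x hx => ?_⟩ (del_disj hcA hd.2)
  by_cases hxA : x ∈ A
  · have h : x = k := by
      by_contra hne
      exact hx (Finset.mem_erase.2 ⟨hne, hA hxA⟩)
    rw [h]
    exact hk
  · exact hd.2 x hxA

theorem del_core (S : TP K E) {p : Itv E} {Q A : Finset E} {T : Fm K E} (hK : ∀ k ∈ Q, InV S.U S.W (rm true k p) T)
    (hA : A ⊆ p.2) {c : E → K} (hc : c ∈ van S.U p.1) (hcA : ∀ x ∈ A, c x = 0) {d : E → K} (hd : d ∈ spt S.W A)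
    (h : NSer S.r Q A) : T c d = 0 := by
  by_cases hQA : Q ⊆ A
  swap
  · obtain ⟨k, hk, hkA⟩ := Finset.not_subset.1 hQA
    exact del_zero S (hK k hk) hA hc hcA hd (hd.2 k hkA)
  rcases h with h | ⟨k, hk, h⟩ | ⟨k, hk, k', hk', hne, h⟩
  · exact absurd hQA h
  · refine del_zero S (hK k hk) hA hc hcA hd ?_
    have h1 := S.r_insert_le k (A.erase k)
    rw [Finset.insert_erase (hQA hk)] at h1
    exact S.spt_eq_zero (hQA hk) (by linarith) d hd
  · obtain ⟨e, he, hek⟩ := S.spt_one (G := A.erase k') (Finset.mem_erase.2 ⟨hne, hQA hk⟩) h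
    have he' : e ∈ spt S.W A := spt_mono (Finset.erase_subset _ _) he
    have h1 : T c e = 0 := del_zero S (hK k' hk') hA hc hcA he' (he.2 k' (Finset.notMem_erase _ _))
    have h2 : T c (d - d k • e) = 0 := by
      refine del_zero S (hK k hk) hA hc hcA ((spt S.W A).sub_mem hd ((spt S.W A).smul_mem _ he')) ?_
      rw [Pi.sub_apply, Pi.smul_apply, smul_eq_mul, hek, mul_one, sub_self]
    rw [map_sub, map_smul, h1, smul_zero, sub_zero] at h2
    exact h2

private theorem del_ext (S : TP K E) {A G : Finset E} (h : S.r A < S.r G) : ∃ x ∈ G, S.r (insert x A) = S.r A + 1 := by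
  by_contra hcon
  push Not at hcon
  have h1 : van S.U A ≤ van S.U G := by
    intro c hc
    refine ⟨hc.1, fun x hx => ?_⟩
    have h2 := hcon x hx
    have h3 := S.r_insert_le x A
    have h4 := S.r_mono (Finset.subset_insert x A)
    exact S.van_eq_zero (by omega) c hc
  have h2 := Submodule.finrank_mono h1
  have h3 := S.hU A
  have h4 := S.hU G
  have h5 : (finrank K (van S.U A) : ℤ) ≤ finrank K (van S.U G) := by exact_mod_cast h2
  linarith

/-- `T` lies in `V(p)` if it lies in `V` after the deletion of each `k ∈ Q` and `Q` is not inside one series class of a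
hyperplane of `p` (or of `p` itself) -/
theorem del_tight (S : TP K E) {p : Itv E} (hp : p.1 ⊆ p.2) {Q : Finset E} {T : Fm K E}
    (hK : ∀ k ∈ Q, InV S.U S.W (rm true k p) T)
    (hT : ∀ A, p.1 ⊆ A → A ⊆ p.2 → Q ⊆ A → S.r p.2 ≤ S.r A + 1 → (∀ x ∈ p.2, S.r (insert x A) = S.r A → x ∈ A) →
      NSer S.r Q A) :
    InV S.U S.W p T := by
  classical
  intro c hc d hd hcd
  have key : ∀ n : ℕ, ∀ c ∈ van S.U p.1, ∀ A : Finset E, A = p.2.filter (fun x => c x = 0) → S.r p.2 - S.r A ≤ n →
      d ∈ spt S.W A → T c d = 0 := by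
    intro n
    induction n with
    | zero =>
      intro c hc A hAdef hn hdA
      have hA2 : A ⊆ p.2 := by rw [hAdef]; exact Finset.filter_subset _ _
      have hcA : ∀ x ∈ A, c x = 0 := fun x hx => by rw [hAdef] at hx; exact (Finset.mem_filter.1 hx).2
      have hA1 : p.1 ⊆ A := fun x hx => by rw [hAdef]; exact Finset.mem_filter.2 ⟨hp hx, hc.2 x hx⟩
      by_cases hQ : Q ⊆ A
      · refine del_core S hK hA2 hc hcA hdA (hT A hA1 hA2 hQ ?_ fun x hx hr => ?_)
        · simp only [Nat.cast_zero] at hn
          linarith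
        · rw [hAdef]
          exact Finset.mem_filter.2 ⟨hx, S.van_eq_zero hr c ⟨hc.1, hcA⟩⟩
      · exact del_core S hK hA2 hc hcA hdA (Or.inl hQ)
    | succ n ih =>
      intro c hc A hAdef hn hdA
      have hA2 : A ⊆ p.2 := by rw [hAdef]; exact Finset.filter_subset _ _
      have hcA : ∀ x ∈ A, c x = 0 := fun x hx => by rw [hAdef] at hx; exact (Finset.mem_filter.1 hx).2
      have hA1 : p.1 ⊆ A := fun x hx => by rw [hAdef]; exact Finset.mem_filter.2 ⟨hp hx, hc.2 x hx⟩
      by_cases hr1 : S.r p.2 ≤ S.r A + 1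
      · by_cases hQ : Q ⊆ A
        · refine del_core S hK hA2 hc hcA hdA (hT A hA1 hA2 hQ hr1 fun x hx hr => ?_)
          rw [hAdef]
          exact Finset.mem_filter.2 ⟨hx, S.van_eq_zero hr c ⟨hc.1, hcA⟩⟩
        · exact del_core S hK hA2 hc hcA hdA (Or.inl hQ)
      push Not at hr1
      obtain ⟨x, hx, hxr⟩ := del_ext S (A := A) (G := p.2) (by linarith)
      obtain ⟨y, hy, hyr⟩ := del_ext S (A := insert x A) (G := p.2) (by linarith)
      obtain ⟨c', hc', hcy⟩ := S.van_one hyr
      have hc'A : c' ∈ van S.U A := van_anti (Finset.subset_insert x A) hc'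
      have hc'p : c' ∈ van S.U p.1 := van_anti hA1 hc'A
      have hyA : S.r A + 1 ≤ S.r (insert y A) := by
        by_contra hcon
        have h4 := S.r_mono (Finset.subset_insert y A)
        have h5 := S.van_eq_zero (C := A) (x := y) (by omega) c' hc'A
        rw [hcy] at h5
        exact one_ne_zero h5
      have step : ∀ b ∈ van S.U p.1, ∀ z ∈ p.2, b ∈ van S.U (insert z A) → S.r A + 1 ≤ S.r (insert z A) → T b d = 0 := by
        intro b hb z hz hbz hrz
        have hsub : insert z A ⊆ p.2.filter (fun x => b x = 0) := by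
          intro w hw
          refine Finset.mem_filter.2 ⟨?_, hbz.2 w hw⟩
          rcases Finset.mem_insert.1 hw with rfl | hw
          · exact hz
          · exact hA2 hw
        refine ih b hb _ rfl ?_ (spt_mono ((Finset.subset_insert z A).trans hsub) hdA)
        have h6 := S.r_mono hsub
        push_cast at hn
        linarith
      have h1 : T (c y • c') d = 0 := by
        refine step _ ((van S.U p.1).smul_mem _ hc'p) x hx ((van S.U (insert x A)).smul_mem _ hc') (by linarith)
      have h2 : T (c - c y • c') d = 0 := by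
        refine step _ ((van S.U p.1).sub_mem hc ((van S.U p.1).smul_mem _ hc'p)) y hy ⟨?_, fun w hw => ?_⟩ hyA
        · exact ((van S.U p.1).sub_mem hc ((van S.U p.1).smul_mem _ hc'p)).1
        · rcases Finset.mem_insert.1 hw with rfl | hw
          · rw [Pi.sub_apply, Pi.smul_apply, smul_eq_mul, hcy, mul_one, sub_self]
          · rw [Pi.sub_apply, Pi.smul_apply, smul_eq_mul, hcA w hw, hc'A.2 w hw, mul_zero, sub_self]
      rw [map_sub, LinearMap.sub_apply, h1, sub_zero] at h2
      exact h2
  refine key (S.r p.2 - S.r (p.2.filter (fun x => c x = 0))).toNat c hc _ rfl (Int.self_le_toNat _) ⟨hd.1, fun x hx => ?_⟩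
  by_cases hxp : x ∈ p.2
  · have h1 : c x ≠ 0 := fun h => hx (Finset.mem_filter.2 ⟨hxp, h⟩)
    rcases mul_eq_zero.1 (hcd x) with h | h
    · exact absurd h h1
    · exact h
  · exact hd.2 x hxp

/-- tight pairs: no hyperplane (and not `p`) has `e, f` in series -/
theorem del_pair (S : TP K E) {p : Itv E} (hp : p.1 ⊆ p.2) {e f : E} {T : Fm K E}
    (he : InV S.U S.W (rm true e p) T) (hf : InV S.U S.W (rm true f p) T)
    (hT : ∀ A, p.1 ⊆ A → A ⊆ p.2 → e ∈ A → f ∈ A → S.r p.2 ≤ S.r A + 1 → (∀ x ∈ p.2, S.r (insert x A) = S.r A → x ∈ A) →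
      NSer S.r {e, f} A) :
    InV S.U S.W p T := by
  refine del_tight S hp (Q := {e, f}) (fun k hk => ?_) fun A h1 h2 h3 h4 h5 => ?_
  · rcases Finset.mem_insert.1 hk with rfl | hk
    · exact he
    · rw [Finset.mem_singleton.1 hk]
      exact hf
  · exact hT A h1 h2 (h3 (Finset.mem_insert_self _ _)) (h3 (Finset.mem_insert_of_mem (Finset.mem_singleton_self _))) h4 h5

/-- a circuit `t` in the closure of `Q` which contains `k ∈ Q` and not `k' ∈ Q` makes `Q` tight (rank form: `k` lies in the closure of `X`,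
`X` inside the closure of `Q`, `k, k' ∉ X`) -/
theorem nser_of_cl (S : TP K E) {p : Itv E} {Q A X : Finset E} (hA1 : p.1 ⊆ A) (hQA : Q ⊆ A)
    (hfl : ∀ x ∈ p.2, S.r (insert x A) = S.r A → x ∈ A) {k k' : E} (hk : k ∈ Q) (hk' : k' ∈ Q) (hne : k ≠ k')
    (hX : X ⊆ p.2) (hXc : ∀ x ∈ X, S.r (insert x (p.1 ∪ Q)) = S.r (p.1 ∪ Q)) (hkX : k ∉ p.1 ∪ X) (hkX' : k' ∉ p.1 ∪ X)
    (hcl : S.r (insert k (p.1 ∪ X)) = S.r (p.1 ∪ X)) : NSer S.r Q A := by
  have hXA : X ⊆ A := by
    intro x hx
    refine hfl x (hX hx) ?_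
    have h1 := S.r_submod A (insert x (p.1 ∪ Q))
    have h2 : A ∪ insert x (p.1 ∪ Q) = insert x A := by
      ext y
      simp only [Finset.mem_union, Finset.mem_insert]
      constructor
      · rintro (h | h | h | h)
        · exact Or.inr h
        · exact Or.inl h
        · exact Or.inr (hA1 h)
        · exact Or.inr (hQA h)
      · rintro (h | h)
        · exact Or.inr (Or.inl h)
        · exact Or.inl h
    have h3 : p.1 ∪ Q ⊆ A ∩ insert x (p.1 ∪ Q) := by
      intro y hy
      refine Finset.mem_inter.2 ⟨?_, Finset.mem_insert_of_mem hy⟩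
      rcases Finset.mem_union.1 hy with h | h
      · exact hA1 h
      · exact hQA h
    have h4 := S.r_mono h3
    have h5 := S.r_mono (Finset.subset_insert x A)
    rw [h2, hXc x hx] at h1
    linarith
  refine Or.inr (Or.inr ⟨k, hk, k', hk', hne, ?_⟩)
  have h1 : p.1 ∪ X ⊆ (A.erase k').erase k := by
    intro y hy
    refine Finset.mem_erase.2 ⟨fun h => hkX (h ▸ hy), Finset.mem_erase.2 ⟨fun h => hkX' (h ▸ hy), ?_⟩⟩
    rcases Finset.mem_union.1 hy with h | h
    · exact hA1 h
    · exact hXA h
  have h2 : insert k ((A.erase k').erase k) = A.erase k' := Finset.insert_erase (Finset.mem_erase.2 ⟨hne, hQA hk⟩)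
  have h3 := S.r_submod ((A.erase k').erase k) (insert k (p.1 ∪ X))
  have h4 : ((A.erase k').erase k) ∪ insert k (p.1 ∪ X) = A.erase k' := by
    apply Finset.Subset.antisymm
    · intro y hy
      rcases Finset.mem_union.1 hy with h | h
      · exact Finset.mem_of_mem_erase h
      · rcases Finset.mem_insert.1 h with rfl | h
        · exact Finset.mem_erase.2 ⟨hne, hQA hk⟩
        · exact Finset.mem_of_mem_erase (h1 h)
    · intro y hy
      by_cases h : y = k
      · rw [h]
        exact Finset.mem_union_right _ (Finset.mem_insert_self _ _)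
      · exact Finset.mem_union_left _ (Finset.mem_erase.2 ⟨h, hy⟩)
  have h5 : p.1 ∪ X ⊆ ((A.erase k').erase k) ∩ insert k (p.1 ∪ X) := fun y hy =>
    Finset.mem_inter.2 ⟨h1 hy, Finset.mem_insert_of_mem hy⟩
  have h6 := S.r_mono h5
  have h7 := S.r_mono (Finset.erase_subset k (A.erase k'))
  rw [h4, hcl] at h3
  linarith

/-- the triangle trick: `x1, x2` two elements of a triangle `{x1, x2, x3}`, `y` outside -/
theorem del_tri (S : TP K E) {p : Itv E} (hp : p.1 ⊆ p.2) {x1 x2 x3 y : E} {T : Fm K E}
    (h1 : InV S.U S.W (rm true x1 p) T) (h2 : InV S.U S.W (rm true x2 p) T) (hy : InV S.U S.W (rm true y p) T)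
    (hx1 : x1 ∈ gs p) (hx2 : x2 ∈ gs p) (hx3 : x3 ∈ gs p) (hyp : y ∈ gs p) (h12 : x1 ≠ x2) (h13 : x1 ≠ x3)
    (hy1 : y ≠ x1) (hy2 : y ≠ x2) (hy3 : y ≠ x3)
    (ht3 : S.r (p.1 ∪ {x1, x2, x3}) = S.r (p.1 ∪ {x1, x2})) (ht1 : S.r (p.1 ∪ {x1, x2, x3}) = S.r (p.1 ∪ {x2, x3})) :
    InV S.U S.W p T := by
  have hm : ∀ z, z ∈ gs p → z ∈ p.2 ∧ z ∉ p.1 := fun z hz => by
    unfold gs at hz
    exact ⟨(Finset.mem_sdiff.1 hz).1, (Finset.mem_sdiff.1 hz).2⟩
  refine del_tight S hp (Q := {x1, x2, y}) (fun k hk => ?_) fun A hA1 hA2 hQA _ hfl => ?_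
  · simp only [Finset.mem_insert, Finset.mem_singleton] at hk
    rcases hk with rfl | rfl | rfl
    · exact h1
    · exact h2
    · exact hy
  · have e1 : x1 ∈ ({x1, x2, y} : Finset E) := by simp
    have e2 : y ∈ ({x1, x2, y} : Finset E) := by simp
    refine nser_of_cl S (X := {x2, x3}) hA1 hQA hfl e1 e2 (Ne.symm hy1) ?_ ?_ ?_ ?_ ?_
    · intro z hz
      simp only [Finset.mem_insert, Finset.mem_singleton] at hz
      rcases hz with rfl | rfl
      · exact (hm _ hx2).1
      · exact (hm _ hx3).1
    · intro z hz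
      simp only [Finset.mem_insert, Finset.mem_singleton] at hz
      rcases hz with rfl | rfl
      · rw [Finset.insert_eq_of_mem (by simp)]
      · have h3 := S.r_submod (p.1 ∪ {x1, x2, y}) (p.1 ∪ {x1, x2, z})
        have h4 : (p.1 ∪ {x1, x2, y}) ∪ (p.1 ∪ {x1, x2, z}) = insert z (p.1 ∪ {x1, x2, y}) := by
          ext w
          simp only [Finset.mem_union, Finset.mem_insert, Finset.mem_singleton]
          tauto
        have h5 : p.1 ∪ {x1, x2} ⊆ (p.1 ∪ {x1, x2, y}) ∩ (p.1 ∪ {x1, x2, z}) := by
          intro w hw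
          simp only [Finset.mem_union, Finset.mem_insert, Finset.mem_singleton, Finset.mem_inter] at hw ⊢
          tauto
        have h6 := S.r_mono h5
        have h7 := S.r_mono (Finset.subset_insert z (p.1 ∪ {x1, x2, y}))
        rw [h4, ht3] at h3
        linarith
    · simp only [Finset.mem_union, Finset.mem_insert, Finset.mem_singleton, not_or]
      exact ⟨(hm _ hx1).2, h12, h13⟩
    · simp only [Finset.mem_union, Finset.mem_insert, Finset.mem_singleton, not_or]
      exact ⟨(hm _ hyp).2, hy2, hy3⟩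
    · have h3 : insert x1 (p.1 ∪ {x2, x3}) = p.1 ∪ {x1, x2, x3} := by
        ext w
        simp only [Finset.mem_union, Finset.mem_insert, Finset.mem_singleton]
        tauto
      rw [h3]
      exact ht1

/-- a set with at least `rank + 1` deletions is tight, if two of its elements are not in series -/
theorem del_card (S : TP K E) {p : Itv E} (hp : p.1 ⊆ p.2) {Q : Finset E} {T : Fm K E}
    (hK : ∀ k ∈ Q, InV S.U S.W (rm true k p) T) (hQ : Q ⊆ gs p) (hc : S.r p.2 - S.r p.1 + 1 ≤ Q.card)
    {f g : E} (hf : f ∈ Q) (hg : g ∈ Q) (hfg : f ≠ g) (hnd : S.r ((p.2.erase g).erase f) = S.r (p.2.erase g)) :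
    InV S.U S.W p T := by
  refine del_tight S hp hK fun A hA1 hA2 hQA hr hfl => ?_
  by_cases hA : S.r A = S.r p.2
  · have h1 : A = p.2 := by
      refine Finset.Subset.antisymm hA2 fun x hx => hfl x hx ?_
      have h2 := S.r_mono (Finset.subset_insert x A)
      have h3 := S.r_mono (Finset.insert_subset hx hA2)
      linarith
    rw [h1]
    exact Or.inr (Or.inr ⟨f, hf, g, hg, hfg, hnd⟩)
  · have hA' : S.r A = S.r p.2 - 1 := by
      have h2 := S.r_mono hA2
      omega
    by_contra hcon
    unfold NSer at hcon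
    push Not at hcon
    obtain ⟨-, h1, h2⟩ := hcon
    -- all `k ∈ Q` are in series: `Q.erase f` is independent over the rest
    have key : ∀ X ⊆ Q.erase f, S.r ((A.erase f) \ X) = S.r A - X.card := by
      intro X
      induction X using Finset.induction_on with
      | empty =>
        intro _
        rw [Finset.sdiff_empty, Finset.card_empty, Nat.cast_zero, sub_zero]
        have h3 := h1 f hf
        have h4 := S.r_mono (Finset.erase_subset f A)
        linarith
      | insert x X hx ih =>
        intro hX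
        have hxQ := hX (Finset.mem_insert_self x X)
        have h3 := ih ((Finset.subset_insert x X).trans hX)
        have hxf : x ≠ f := (Finset.mem_erase.1 hxQ).1
        have h4 : S.r ((A.erase f).erase x) < S.r (A.erase f) := by
          have h5 := h2 x (Finset.mem_erase.1 hxQ).2 f hf hxf
          have h6 := S.r_mono (Finset.erase_subset x (A.erase f))
          exact lt_of_le_of_ne h6 h5
        have h5 : (A.erase f) \ insert x X = ((A.erase f) \ X).erase x := by
          ext y
          simp only [Finset.mem_sdiff, Finset.mem_erase, Finset.mem_insert]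
          tauto
        have hxA : x ∈ (A.erase f) \ X :=
          Finset.mem_sdiff.2 ⟨Finset.mem_erase.2 ⟨hxf, hQA (Finset.mem_erase.1 hxQ).2⟩, hx⟩
        have h6 := S.r_submod ((A.erase f) \ X) ((A.erase f).erase x)
        have h7 : ((A.erase f) \ X) ∪ ((A.erase f).erase x) = A.erase f := by
          ext y
          simp only [Finset.mem_union, Finset.mem_sdiff, Finset.mem_erase]
          constructor
          · rintro (h | h)
            · exact h.1
            · exact h.2
          · intro h
            by_cases hy : y = x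
            · subst hy
              exact Or.inl (Finset.mem_sdiff.1 hxA |>.imp (fun z => Finset.mem_erase.1 z) id)
            · exact Or.inr ⟨hy, h⟩
        have h8 : ((A.erase f) \ X) ∩ ((A.erase f).erase x) = ((A.erase f) \ X).erase x := by
          ext y
          simp only [Finset.mem_inter, Finset.mem_sdiff, Finset.mem_erase]
          tauto
        have h9 := S.r_insert_le x (((A.erase f) \ X).erase x)
        rw [Finset.insert_erase hxA] at h9
        rw [h7, h8] at h6
        rw [h5, Finset.card_insert_of_notMem hx]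
        push_cast
        linarith
    have h3 := key (Q.erase f) (Finset.Subset.refl _)
    have h4 : p.1 ⊆ (A.erase f) \ (Q.erase f) := by
      intro y hy
      have hyQ : y ∉ Q := fun h => by
        have h5 := hQ h
        unfold gs at h5
        exact (Finset.mem_sdiff.1 h5).2 hy
      refine Finset.mem_sdiff.2 ⟨Finset.mem_erase.2 ⟨fun h => hyQ (h ▸ hf), hA1 hy⟩, fun h => hyQ (Finset.mem_erase.1 h).2⟩
    have h5 := S.r_mono h4
    have h6 : ((Q.erase f).card : ℤ) = Q.card - 1 := by
      have h7 := Finset.card_erase_add_one hf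
      omega
    rw [h6] at h3
    linarith

end Pool.Agent.QU
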