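import Pool.Agent.QUT.Rcf

/-!
# QUR/TyG: the good element of the tiny case
-/

set_option autoImplicit false

open QUB

namespace Pool.Agent.QU

variable {E : Type} [DecidableEq E]

/-- a good element `f` of type `t` for the side `X` of `q = M \ u / v` -/
structure Gf (r : Finset E → ℤ) (p : Itv E) (u v : E) (X : Finset E) (t : Bool) (f : E) : Prop where
  mem : f ∈ gs (rm true u (rm false v p)) \ X
  cn : Cn r (rm t f (rm true u (rm false v p)))
  rich : ∃ q', Sub q' (rm t f (rm true u (rm false v p))) ∧ Rich r q' ∧ (X ∩ gs q').card ≤ 1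
  old : ∀ S, S ⊆ (gs (rm true u (rm false v p)) \ X).erase f → 3 ≤ S.card → S ≠ (gs (rm true u (rm false v p)) \ X).erase f →
    lam r (rm t f (rm true u (rm false v p))) S ≤ 1 → lam r (rm true u (rm false v p)) S ≤ 1

end Pool.Agent.QU
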