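import Pool.Agent.QUR.TyC
import Pool.Agent.QUR.TyG

/-!
# QUR/TyE: good elements, duality and rank language
-/

set_option autoImplicit false

open QUB

namespace Pool.Agent.QU

open Pool.Agent.FRM

section

variable {E : Type} [Fintype E] [DecidableEq E] {S : TP F4 E} {p : Itv E}

private theorem tye_rm (s : Bool) (u : E) (p : Itv E) : rm (!s) u (QUB.dp p) = QUB.dp (rm s u p) := by
  have := QUB.rm_dp (!s) u p
  rwa [Bool.not_not] at this

private theorem tye_rm2 (u v : E) (p : Itv E) : rm true v (rm false u (QUB.dp p)) = QUB.dp (rm true u (rm false v p)) := by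
  have h1 : rm false u (QUB.dp p) = QUB.dp (rm true u p) := tye_rm true u p
  have h2 : rm true v (QUB.dp (rm true u p)) = QUB.dp (rm false v (rm true u p)) := tye_rm false v (rm true u p)
  rw [h1, h2]
  congr 1

/-- (B6) the dual of a good element -/
theorem Gf.dual (hp : p.1 ⊆ p.2) {u v : E} (mu : u ∈ gs p) (mv : v ∈ gs p) (uv : u ≠ v) {X : Finset E} {t : Bool} {f : E}
    (h : Gf S.r p u v X t f) : Gf S.dual.r (QUB.dp p) v u X (!t) f := by
  have hw : (rm true u (rm false v p)).1 ⊆ (rm true u (rm false v p)).2 := by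
    refine QUB.wf_rm (QUB.wf_rm hp mv) ?_
    rw [show gs (rm false v p) = (gs p).erase v from QUB.gs_rm false v p]
    exact Finset.mem_erase.2 ⟨uv, mu⟩
  have hf : f ∈ gs (rm true u (rm false v p)) := (Finset.mem_sdiff.1 h.mem).1
  have hw3 : (rm t f (rm true u (rm false v p))).1 ⊆ (rm t f (rm true u (rm false v p))).2 := QUB.wf_rm hw hf
  have e1 : rm true v (rm false u (QUB.dp p)) = QUB.dp (rm true u (rm false v p)) := tye_rm2 u v p
  have e2 : rm (!t) f (rm true v (rm false u (QUB.dp p))) = QUB.dp (rm t f (rm true u (rm false v p))) := by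
    rw [e1]
    exact tye_rm t f _
  have g1 : gs (QUB.dp (rm true u (rm false v p))) = gs (rm true u (rm false v p)) := QUB.gs_dp _
  refine ⟨?_, ?_, ?_, ?_⟩
  · rw [e1, g1]
    exact h.mem
  · rw [e2]
    exact (QUB.cn_dp hw3).2 h.cn
  · rw [e2]
    obtain ⟨q', h1, h2, h3⟩ := h.rich
    refine ⟨QUB.dp q', ⟨Finset.compl_subset_compl.2 h1.2, Finset.compl_subset_compl.2 h1.1⟩, rich_dual S h2, ?_⟩
    rw [show gs (QUB.dp q') = gs q' from QUB.gs_dp q']
    exact h3
  · intro Z hZ c3 hne hl
    rw [e1, g1] at hZ hne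
    rw [e2] at hl
    rw [e1]
    have hZq : Z ⊆ gs (rm true u (rm false v p)) := hZ.trans ((Finset.erase_subset _ _).trans Finset.sdiff_subset)
    have hZq3 : Z ⊆ gs (rm t f (rm true u (rm false v p))) := by
      rw [gs_rm]
      intro w hw
      have h1 := Finset.mem_erase.1 (hZ hw)
      exact Finset.mem_erase.2 ⟨h1.1, (Finset.mem_sdiff.1 h1.2).1⟩
    have l1 : QUB.lam S.dual.r (QUB.dp (rm t f (rm true u (rm false v p)))) Z = QUB.lam S.r (rm t f (rm true u (rm false v p))) Z :=
      QUB.lam_dp hw3 hZq3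
    have l2 : QUB.lam S.dual.r (QUB.dp (rm true u (rm false v p))) Z = QUB.lam S.r (rm true u (rm false v p)) Z :=
      QUB.lam_dp hw hZq
    show QUB.lam S.dual.r (QUB.dp (rm true u (rm false v p))) Z ≤ 1
    rw [l2]
    exact h.old Z hZ c3 hne (l1.symm.trans_le hl)

end

section

variable {E : Type} [DecidableEq E] {r : Finset E → ℤ} {p : Itv E}

/-- two elements of a side of four elements -/
theorem gf_two (hr : Rk r) {q q' : Itv E} {X A : Finset E} (hs : Sub q' q) (hR : Rich r q') (hX : (X ∩ gs q').card ≤ 1)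
    (c4 : (gs q \ X).card = 4) (hA : A ⊆ gs q \ X) (c2 : A.card = 2) : 2 ≤ QUB.lam r q A := by
  have h5 := hR.2.1
  have hsub : gs q' ⊆ gs q := Finset.sdiff_subset_sdiff hs.2 hs.1
  have h1 : (gs q' \ X).card + (X ∩ gs q').card = (gs q').card := by
    rw [Finset.inter_comm]
    exact Finset.card_sdiff_add_card_inter _ _
  have h2 : gs q' \ X = gs q \ X := Finset.eq_of_subset_of_card_le (Finset.sdiff_subset_sdiff hsub (Finset.Subset.refl X)) (by omega)
  have h3 : A ⊆ gs q' := hA.trans (h2 ▸ Finset.sdiff_subset)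
  have h4 := lam_sub_le hr hs hR.1 (A := A) (hA.trans Finset.sdiff_subset)
  have h6 := rich_th hr hR A h3 c2.ge (by
    have h7 := Finset.card_sdiff_add_card_eq_card h3
    omega)
  rw [Finset.inter_eq_left.2 h3] at h4
  have h6' : 2 ≤ QUB.lam r q' A := h6
  omega

/-- the boxes of the good element -/
private theorem tye_bd (f u v : E) : (rm true f (rm true u (rm false v p))).1 = p.1 ∪ {v} ∧
    (rm true f (rm true u (rm false v p))).2 = p.2 \ {f, u} := bx_ddc f u v

private theorem tye_bc (f u v : E) : (rm false f (rm true u (rm false v p))).1 = p.1 ∪ {f, v} ∧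
    (rm false f (rm true u (rm false v p))).2 = p.2 \ {u} := bx_cdc f u v

/-- (B4) a good element of type deletion -/
theorem gfd_of (hr : Rk r) (hp : p.1 ⊆ p.2) (nt : Nt r p) (hn : 3 ≤ (gs p).card) {u v x y z f : E} {X : Finset E} (hX : X = {x, y, z})
    (hT : Ty (rhoP r p) (r p.2 - r p.1) u v x y z (gs (rm true u (rm false v p)) \ X))
    (e : gT u v x y z (gs (rm true u (rm false v p)) \ X) = gs p) (g : Gf r p u v X true f) :
    GfD (rhoP r p) (r p.2 - r p.1) u v x y z (gs (rm true u (rm false v p)) \ X) f := by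
  have hg : gs (rm true u (rm false v p)) = ((gs p).erase v).erase u := gs_rm2 _ _ _ _ _
  have mu : u ∈ gs p := e ▸ hT.uG
  have mv : v ∈ gs p := e ▸ hT.vG
  have uv : u ≠ v := hT.uv
  have mY : ∀ w, w ∈ gs (rm true u (rm false v p)) \ X ↔ w ∈ gs p ∧ w ≠ u ∧ w ≠ v ∧ w ∉ X := by
    intro w
    rw [Finset.mem_sdiff, hg, Finset.mem_erase, Finset.mem_erase]
    tauto
  have mf := (mY f).1 g.mem
  have mX : ∀ w ∈ X, w ∈ gs p ∧ w ≠ u ∧ w ≠ v := by
    intro w hw
    rw [hX] at hw
    simp only [Finset.mem_insert, Finset.mem_singleton] at hw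
    rcases hw with rfl | rfl | rfl
    · exact ⟨e ▸ hT.xG, hT.ux.symm, hT.vx.symm⟩
    · exact ⟨e ▸ hT.yG, hT.uy.symm, hT.vy.symm⟩
    · exact ⟨e ▸ hT.zG, hT.uz.symm, hT.vz.symm⟩
  have mg : ∀ w, w ∈ gs (rm true f (rm true u (rm false v p))) ↔ w ∈ gs p ∧ w ≠ u ∧ w ≠ v ∧ w ≠ f := by
    intro w
    rw [gs_3, Finset.mem_erase, Finset.mem_erase, Finset.mem_erase]
    tauto
  have hK : ({v} : Finset E) ⊆ gs p := Finset.singleton_subset_iff.2 mv
  have hD1 : ({u} : Finset E) ⊆ gs p := Finset.singleton_subset_iff.2 mu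
  have hD : ({f, u} : Finset E) ⊆ gs p := by
    intro w hw
    simp only [Finset.mem_insert, Finset.mem_singleton] at hw
    rcases hw with rfl | rfl
    · exact mf.1
    · exact mu
  have hKD : ∀ w ∈ ({v} : Finset E), w ∉ ({f, u} : Finset E) := by
    intro w hw
    rw [Finset.mem_singleton] at hw
    rw [hw]
    simp only [Finset.mem_insert, Finset.mem_singleton, not_or]
    exact ⟨fun h => mf.2.2.1 h.symm, uv.symm⟩
  have hKD1 : ∀ w ∈ ({v} : Finset E), w ∉ ({u} : Finset E) := by
    intro w hw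
    rw [Finset.mem_singleton] at hw ⊢
    rw [hw]
    exact uv.symm
  -- the complement of a subset of `Y` in the small box
  have cmp : ∀ A : Finset E, A ⊆ (gs (rm true u (rm false v p)) \ X).erase f →
      insert v (gs (rm true f (rm true u (rm false v p))) \ A) =
        insert v (insert x (insert y (insert z ((gs (rm true u (rm false v p)) \ X).erase f \ A)))) := by
    intro A hA
    ext w
    rw [Finset.mem_insert, Finset.mem_insert, Finset.mem_insert, Finset.mem_insert, Finset.mem_insert, Finset.mem_sdiff, mg,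
      Finset.mem_sdiff, Finset.mem_erase, mY]
    have hXw : w ∈ X ↔ w = x ∨ w = y ∨ w = z := by
      rw [hX]
      simp only [Finset.mem_insert, Finset.mem_singleton]
    constructor
    · rintro (h1 | ⟨⟨h1, h2, h3, h4⟩, h5⟩)
      · exact Or.inl h1
      · by_cases h6 : w ∈ X
        · rcases hXw.1 h6 with h | h | h
          · exact Or.inr (Or.inl h)
          · exact Or.inr (Or.inr (Or.inl h))
          · exact Or.inr (Or.inr (Or.inr (Or.inl h)))
        · exact Or.inr (Or.inr (Or.inr (Or.inr ⟨⟨h4, h1, h2, h3, h6⟩, h5⟩)))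
    · have k : w ∈ X → w = v ∨ ((w ∈ gs p ∧ w ≠ u ∧ w ≠ v ∧ w ≠ f) ∧ w ∉ A) := fun h =>
        Or.inr ⟨⟨(mX w h).1, (mX w h).2.1, (mX w h).2.2, fun h' => mf.2.2.2 (h' ▸ h)⟩, fun h' =>
          ((mY w).1 (Finset.mem_of_mem_erase (hA h'))).2.2.2 h⟩
      rintro (h1 | h1 | h1 | h1 | ⟨⟨h1, h2, h3, h4, h5⟩, h6⟩)
      · exact Or.inl h1
      · exact k (hXw.2 (Or.inl h1))
      · exact k (hXw.2 (Or.inr (Or.inl h1)))
      · exact k (hXw.2 (Or.inr (Or.inr h1)))
      · exact Or.inr ⟨⟨h2, h3, h4, h1⟩, h6⟩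
  have cmp0 : ∀ A : Finset E, A ⊆ gs (rm true u (rm false v p)) \ X →
      insert v (gs (rm true u (rm false v p)) \ A) =
        insert v (insert x (insert y (insert z ((gs (rm true u (rm false v p)) \ X) \ A)))) := by
    intro A hA
    ext w
    rw [Finset.mem_insert, Finset.mem_insert, Finset.mem_insert, Finset.mem_insert, Finset.mem_insert, Finset.mem_sdiff,
      Finset.mem_sdiff, Finset.mem_sdiff]
    have hXw : w ∈ X ↔ w = x ∨ w = y ∨ w = z := by
      rw [hX]
      simp only [Finset.mem_insert, Finset.mem_singleton]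
    have hXq : w ∈ X → w ∈ gs (rm true u (rm false v p)) := fun h => by
      rw [hg, Finset.mem_erase, Finset.mem_erase]
      exact ⟨(mX w h).2.1, (mX w h).2.2, (mX w h).1⟩
    have hXA : w ∈ X → w ∉ A := fun h h' => (Finset.mem_sdiff.1 (hA h')).2 h
    tauto
  have sub3 : ∀ A : Finset E, A ⊆ (gs (rm true u (rm false v p)) \ X).erase f → A ⊆ gs (rm true f (rm true u (rm false v p))) := by
    intro A hA w hw
    have h1 := Finset.mem_erase.1 (hA hw)
    have h2 := (mY w).1 h1.2
    exact (mg w).2 ⟨h2.1, h2.2.1, h2.2.2.1, h1.1⟩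
  have l3 : ∀ A : Finset E, A ⊆ (gs (rm true u (rm false v p)) \ X).erase f →
      QUB.lam r (rm true f (rm true u (rm false v p))) A = rhoP r p (insert v A) +
        rhoP r p (insert v (insert x (insert y (insert z ((gs (rm true u (rm false v p)) \ X).erase f \ A))))) - (r p.2 - r p.1) - 1 := by
    intro A hA
    have h := lam_nt hr hp nt hn hK hD hKD (card_le1 v) (card_le2 f u) (tye_bd f u v).1 (tye_bd f u v).2 (sub3 A hA)
    rw [← Finset.insert_eq, ← Finset.insert_eq, Finset.card_singleton, cmp A hA] at h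
    rw [h]
    push_cast
    ring
  have l2 : ∀ A : Finset E, A ⊆ gs (rm true u (rm false v p)) \ X →
      QUB.lam r (rm true u (rm false v p)) A = rhoP r p (insert v A) +
        rhoP r p (insert v (insert x (insert y (insert z ((gs (rm true u (rm false v p)) \ X) \ A))))) - (r p.2 - r p.1) - 1 := by
    intro A hA
    have h := lam_nt hr hp nt hn hK hD1 hKD1 (card_le1 v) (card_le1 u) bx_dc.1 bx_dc.2 (hA.trans Finset.sdiff_subset)
    rw [← Finset.insert_eq, ← Finset.insert_eq, Finset.card_singleton, cmp0 A hA] at h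
    rw [h]
    push_cast
    ring
  refine ⟨g.mem, ?_, ?_, ?_⟩
  · rw [e]
    intro A B hcov hs ht
    have hcov' : ∀ w ∈ gs (rm true f (rm true u (rm false v p))), w ∈ A ∨ w ∈ B := fun w hw =>
      hcov w ((mg w).1 hw).1 ((mg w).1 hw).2.1 ((mg w).1 hw).2.2.1 ((mg w).1 hw).2.2.2
    obtain ⟨s, s1, s2, s3, s4, s5⟩ := hs
    obtain ⟨t, t1, t2, t3, t4, t5⟩ := ht
    have h1 := cov_cn g.cn hcov' ⟨s, (mg s).2 ⟨s1, s2, s3, s4⟩, s5⟩ ⟨t, (mg t).2 ⟨t1, t2, t3, t4⟩, t5⟩
    have h2 := cov_le hr hp nt hn hK hD hKD (card_le1 v) (card_le2 f u) (tye_bd f u v).1 (tye_bd f u v).2 (A := A) (B := B) hcov' h1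
    rw [← Finset.insert_eq, ← Finset.insert_eq, Finset.card_singleton] at h2
    push_cast at h2
    omega
  · intro A hA c3 hne hl
    have h1 := l3 A hA
    have h2 := g.old A hA c3 hne (by
      show QUB.lam r (rm true f (rm true u (rm false v p))) A ≤ 1
      omega)
    have h2' : QUB.lam r (rm true u (rm false v p)) A ≤ 1 := h2
    have h3 := l2 A (hA.trans (Finset.erase_subset _ _))
    unfold Old
    omega
  · intro A hA c2 c2'
    obtain ⟨q', q1, q2, q3⟩ := g.rich
    have h4 : (gs (rm true f (rm true u (rm false v p))) \ X).card = 4 := by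
      have h5 : gs (rm true f (rm true u (rm false v p))) \ X = (gs (rm true u (rm false v p)) \ X).erase f := by
        ext w
        rw [Finset.mem_sdiff, mg, Finset.mem_erase, mY]
        tauto
      have h6 := Finset.card_sdiff_add_card_eq_card hA
      rw [h5]
      omega
    have h7 := gf_two hr q1 q2 q3 h4 (A := A) (by
      intro w hw
      have h1 := Finset.mem_erase.1 (hA hw)
      exact Finset.mem_sdiff.2 ⟨sub3 A hA hw, ((mY w).1 h1.2).2.2.2⟩) c2
    have h8 := l3 A hA
    omega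

/-- (B4) a good element of type contraction -/
theorem gfc_of (hr : Rk r) (hp : p.1 ⊆ p.2) (nt : Nt r p) (hn : 3 ≤ (gs p).card) {u v x y z f : E} {X : Finset E} (hX : X = {x, y, z})
    (hT : Ty (rhoP r p) (r p.2 - r p.1) u v x y z (gs (rm true u (rm false v p)) \ X))
    (e : gT u v x y z (gs (rm true u (rm false v p)) \ X) = gs p) (g : Gf r p u v X false f) :
    GfC (rhoP r p) (r p.2 - r p.1) u v x y z (gs (rm true u (rm false v p)) \ X) f := by
  have hg : gs (rm true u (rm false v p)) = ((gs p).erase v).erase u := gs_rm2 _ _ _ _ _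
  have mu : u ∈ gs p := e ▸ hT.uG
  have mv : v ∈ gs p := e ▸ hT.vG
  have uv : u ≠ v := hT.uv
  have mY : ∀ w, w ∈ gs (rm true u (rm false v p)) \ X ↔ w ∈ gs p ∧ w ≠ u ∧ w ≠ v ∧ w ∉ X := by
    intro w
    rw [Finset.mem_sdiff, hg, Finset.mem_erase, Finset.mem_erase]
    tauto
  have mf := (mY f).1 g.mem
  have mX : ∀ w ∈ X, w ∈ gs p ∧ w ≠ u ∧ w ≠ v := by
    intro w hw
    rw [hX] at hw
    simp only [Finset.mem_insert, Finset.mem_singleton] at hw
    rcases hw with rfl | rfl | rfl
    · exact ⟨e ▸ hT.xG, hT.ux.symm, hT.vx.symm⟩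
    · exact ⟨e ▸ hT.yG, hT.uy.symm, hT.vy.symm⟩
    · exact ⟨e ▸ hT.zG, hT.uz.symm, hT.vz.symm⟩
  have mg : ∀ w, w ∈ gs (rm false f (rm true u (rm false v p))) ↔ w ∈ gs p ∧ w ≠ u ∧ w ≠ v ∧ w ≠ f := by
    intro w
    rw [gs_3, Finset.mem_erase, Finset.mem_erase, Finset.mem_erase]
    tauto
  have hK1 : ({v} : Finset E) ⊆ gs p := Finset.singleton_subset_iff.2 mv
  have hD : ({u} : Finset E) ⊆ gs p := Finset.singleton_subset_iff.2 mu
  have hK : ({f, v} : Finset E) ⊆ gs p := by
    intro w hw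
    simp only [Finset.mem_insert, Finset.mem_singleton] at hw
    rcases hw with rfl | rfl
    · exact mf.1
    · exact mv
  have hKD : ∀ w ∈ ({f, v} : Finset E), w ∉ ({u} : Finset E) := by
    intro w hw
    simp only [Finset.mem_insert, Finset.mem_singleton] at hw ⊢
    rcases hw with rfl | rfl
    · exact mf.2.1
    · exact uv.symm
  have hKD1 : ∀ w ∈ ({v} : Finset E), w ∉ ({u} : Finset E) := by
    intro w hw
    rw [Finset.mem_singleton] at hw ⊢
    rw [hw]
    exact uv.symm
  have cK : ({f, v} : Finset E).card = 2 := Finset.card_pair mf.2.2.1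
  have un : ∀ A : Finset E, ({f, v} : Finset E) ∪ A = insert f (insert v A) := by
    intro A
    ext w
    simp only [Finset.mem_union, Finset.mem_insert, Finset.mem_singleton]
    tauto
  -- the complement of a subset of `Y` in the small box
  have cmp : ∀ A : Finset E, A ⊆ (gs (rm true u (rm false v p)) \ X).erase f →
      insert f (insert v (gs (rm false f (rm true u (rm false v p))) \ A)) =
        insert f (insert v (insert x (insert y (insert z ((gs (rm true u (rm false v p)) \ X).erase f \ A))))) := by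
    intro A hA
    congr 1
    ext w
    rw [Finset.mem_insert, Finset.mem_insert, Finset.mem_insert, Finset.mem_insert, Finset.mem_insert, Finset.mem_sdiff, mg,
      Finset.mem_sdiff, Finset.mem_erase, mY]
    have hXw : w ∈ X ↔ w = x ∨ w = y ∨ w = z := by
      rw [hX]
      simp only [Finset.mem_insert, Finset.mem_singleton]
    constructor
    · rintro (h1 | ⟨⟨h1, h2, h3, h4⟩, h5⟩)
      · exact Or.inl h1
      · by_cases h6 : w ∈ X
        · rcases hXw.1 h6 with h | h | h
          · exact Or.inr (Or.inl h)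
          · exact Or.inr (Or.inr (Or.inl h))
          · exact Or.inr (Or.inr (Or.inr (Or.inl h)))
        · exact Or.inr (Or.inr (Or.inr (Or.inr ⟨⟨h4, h1, h2, h3, h6⟩, h5⟩)))
    · have k : w ∈ X → w = v ∨ ((w ∈ gs p ∧ w ≠ u ∧ w ≠ v ∧ w ≠ f) ∧ w ∉ A) := fun h =>
        Or.inr ⟨⟨(mX w h).1, (mX w h).2.1, (mX w h).2.2, fun h' => mf.2.2.2 (h' ▸ h)⟩, fun h' =>
          ((mY w).1 (Finset.mem_of_mem_erase (hA h'))).2.2.2 h⟩
      rintro (h1 | h1 | h1 | h1 | ⟨⟨h1, h2, h3, h4, h5⟩, h6⟩)
      · exact Or.inl h1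
      · exact k (hXw.2 (Or.inl h1))
      · exact k (hXw.2 (Or.inr (Or.inl h1)))
      · exact k (hXw.2 (Or.inr (Or.inr h1)))
      · exact Or.inr ⟨⟨h2, h3, h4, h1⟩, h6⟩
  have cmp0 : ∀ A : Finset E, A ⊆ gs (rm true u (rm false v p)) \ X →
      insert v (gs (rm true u (rm false v p)) \ A) =
        insert v (insert x (insert y (insert z ((gs (rm true u (rm false v p)) \ X) \ A)))) := by
    intro A hA
    ext w
    rw [Finset.mem_insert, Finset.mem_insert, Finset.mem_insert, Finset.mem_insert, Finset.mem_insert, Finset.mem_sdiff,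
      Finset.mem_sdiff, Finset.mem_sdiff]
    have hXw : w ∈ X ↔ w = x ∨ w = y ∨ w = z := by
      rw [hX]
      simp only [Finset.mem_insert, Finset.mem_singleton]
    have hXq : w ∈ X → w ∈ gs (rm true u (rm false v p)) := fun h => by
      rw [hg, Finset.mem_erase, Finset.mem_erase]
      exact ⟨(mX w h).2.1, (mX w h).2.2, (mX w h).1⟩
    have hXA : w ∈ X → w ∉ A := fun h h' => (Finset.mem_sdiff.1 (hA h')).2 h
    tauto
  have sub3 : ∀ A : Finset E, A ⊆ (gs (rm true u (rm false v p)) \ X).erase f → A ⊆ gs (rm false f (rm true u (rm false v p))) := by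
    intro A hA w hw
    have h1 := Finset.mem_erase.1 (hA hw)
    have h2 := (mY w).1 h1.2
    exact (mg w).2 ⟨h2.1, h2.2.1, h2.2.2.1, h1.1⟩
  have l3 : ∀ A : Finset E, A ⊆ (gs (rm true u (rm false v p)) \ X).erase f →
      QUB.lam r (rm false f (rm true u (rm false v p))) A = rhoP r p (insert f (insert v A)) +
        rhoP r p (insert f (insert v (insert x (insert y (insert z ((gs (rm true u (rm false v p)) \ X).erase f \ A)))))) -
        (r p.2 - r p.1) - 2 := by
    intro A hA
    have h := lam_nt hr hp nt hn hK hD hKD (card_le2 f v) (card_le1 u) (tye_bc f u v).1 (tye_bc f u v).2 (sub3 A hA)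
    rw [un, un, cK, cmp A hA] at h
    rw [h]
    push_cast
    ring
  have l2 : ∀ A : Finset E, A ⊆ gs (rm true u (rm false v p)) \ X →
      QUB.lam r (rm true u (rm false v p)) A = rhoP r p (insert v A) +
        rhoP r p (insert v (insert x (insert y (insert z ((gs (rm true u (rm false v p)) \ X) \ A))))) - (r p.2 - r p.1) - 1 := by
    intro A hA
    have h := lam_nt hr hp nt hn hK1 hD hKD1 (card_le1 v) (card_le1 u) bx_dc.1 bx_dc.2 (hA.trans Finset.sdiff_subset)
    rw [← Finset.insert_eq, ← Finset.insert_eq, Finset.card_singleton, cmp0 A hA] at h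
    rw [h]
    push_cast
    ring
  refine ⟨g.mem, ?_, ?_, ?_⟩
  · rw [e]
    intro A B hcov hs ht
    have hcov' : ∀ w ∈ gs (rm false f (rm true u (rm false v p))), w ∈ A ∨ w ∈ B := fun w hw =>
      hcov w ((mg w).1 hw).1 ((mg w).1 hw).2.1 ((mg w).1 hw).2.2.1 ((mg w).1 hw).2.2.2
    obtain ⟨s, s1, s2, s3, s4, s5⟩ := hs
    obtain ⟨t, t1, t2, t3, t4, t5⟩ := ht
    have h1 := cov_cn g.cn hcov' ⟨s, (mg s).2 ⟨s1, s2, s3, s4⟩, s5⟩ ⟨t, (mg t).2 ⟨t1, t2, t3, t4⟩, t5⟩
    have h2 := cov_le hr hp nt hn hK hD hKD (card_le2 f v) (card_le1 u) (tye_bc f u v).1 (tye_bc f u v).2 (A := A) (B := B) hcov' h1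
    rw [un, un, cK] at h2
    push_cast at h2
    omega
  · intro A hA c3 hne hl
    have h1 := l3 A hA
    have h2 := g.old A hA c3 hne (by
      show QUB.lam r (rm false f (rm true u (rm false v p))) A ≤ 1
      omega)
    have h2' : QUB.lam r (rm true u (rm false v p)) A ≤ 1 := h2
    have h3 := l2 A (hA.trans (Finset.erase_subset _ _))
    unfold Old
    omega
  · intro A hA c2 c2'
    obtain ⟨q', q1, q2, q3⟩ := g.rich
    have h4 : (gs (rm false f (rm true u (rm false v p))) \ X).card = 4 := by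
      have h5 : gs (rm false f (rm true u (rm false v p))) \ X = (gs (rm true u (rm false v p)) \ X).erase f := by
        ext w
        rw [Finset.mem_sdiff, mg, Finset.mem_erase, mY]
        tauto
      have h6 := Finset.card_sdiff_add_card_eq_card hA
      rw [h5]
      omega
    have h7 := gf_two hr q1 q2 q3 h4 (A := A) (by
      intro w hw
      have h1 := Finset.mem_erase.1 (hA hw)
      exact Finset.mem_sdiff.2 ⟨sub3 A hA hw, ((mY w).1 h1.2).2.2.2⟩) c2
    have h8 := l3 A hA
    omega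

end

end Pool.Agent.QU
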