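import Pool.Agent.QUR.Us
import Pool.Agent.QUR.Sep
import Pool.Agent.QUR.SmA

/-!
# QUR/UsK: an element of a leaf which is a coloop of the leaf and is spanned by the rest gives a separation of order two
-/

set_option autoImplicit false

open QUB

namespace Pool.Agent.QU

open Pool.Agent.FRM

section

variable {E : Type} [DecidableEq E] {r : Finset E → ℤ}

/-- only small separations of order one: `Ok` -/
theorem Sm.ok {m : Itv E} (h : Sm r m) : Ok r m := by
  intro A hA hl hh
  have h1 := hh.1.card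
  have h2 := hh.2.card
  rcases h A hA hl with h3 | h3 <;> omega

end

variable {E : Type} [Fintype E] [DecidableEq E] {S : TP F4 E} {p : Itv E} {u v : E} {X : Finset E}

/-- (4) an element `w` in `K` and in `K*` -/
theorem us_kk (h : Cw S p) (hM : Md S.r p true u false v X) (h3 : X.card = 3) {Z : Finset E}
    (hL : Lf S.r (rm true u (rm false v p)) Z) (hZ : Z ⊆ gs (rm true u (rm false v p)) \ X)
    (hl : Light S.r (rm true u (rm false v p)) Z) (hc : 5 ≤ Z.card) {w : E} (hw : w ∈ Z)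
    (hk : S.r (p.1 ∪ Z.erase w) + 1 ≤ S.r (p.1 ∪ Z)) (hk' : S.r (insert w (p.2 \ Z)) = S.r (p.2 \ Z)) :
    ∃ f, Cla S.r p u v X f := by
  have hr : Rk S.r := S.rk
  have hp := h.hp
  have hu := hM.ma
  have hv := hM.mb
  have huv := hM.ab
  have gq : gs (rm true u (rm false v p)) = ((gs p).erase v).erase u := by rw [QUB.gs_rm, QUB.gs_rm]
  have memq : ∀ y, y ∈ gs (rm true u (rm false v p)) ↔ y ≠ u ∧ y ≠ v ∧ y ∈ gs p := by
    intro y
    rw [gq, Finset.mem_erase, Finset.mem_erase]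
  have hZq : Z ⊆ gs (rm true u (rm false v p)) := hZ.trans Finset.sdiff_subset
  have hZp : Z ⊆ gs p := fun y hy => ((memq y).1 (hZq hy)).2.2
  have wf1 : (rm false v p).1 ⊆ (rm false v p).2 := QUB.wf_rm hp hv
  have huQ : u ∈ gs (rm false v p) := by rw [QUB.gs_rm]; exact Finset.mem_erase.2 ⟨huv, hu⟩
  have wf2 : (rm true u (rm false v p)).1 ⊆ (rm true u (rm false v p)).2 := QUB.wf_rm wf1 huQ
  have l3 : QUB.lam S.r p Z ≤ 3 := by
    have e1 := lam_le_rm hr (t := false) (p := p) hv (A := Z) (fun y hy =>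
      Finset.mem_erase.2 ⟨((memq y).1 (hZq hy)).2.1, hZp hy⟩)
    have e2 := lam_le_rm hr (t := true) (p := rm false v p) huQ (A := Z) (fun y hy => by
      rw [QUB.gs_rm]
      exact Finset.mem_erase.2 ⟨((memq y).1 (hZq hy)).1, Finset.mem_erase.2 ⟨((memq y).1 (hZq hy)).2.1, hZp hy⟩⟩)
    have e3 := hL.l1
    omega
  have hwp : w ∈ p.2 := (Finset.mem_sdiff.1 (hZp hw)).1
  have e2 : p.2 \ Z.erase w = insert w (p.2 \ Z) := by
    ext y
    rw [Finset.mem_sdiff, Finset.mem_erase, Finset.mem_insert, Finset.mem_sdiff]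
    by_cases hy : y = w
    · subst hy
      simp [hwp]
    · simp [hy]
  have l2 : QUB.lam S.r p (Z.erase w) ≤ 2 := by
    unfold QUB.lam at l3 ⊢
    rw [e2, hk']
    omega
  have j4 : 4 ≤ (Z.erase w).card := by
    rw [Finset.card_erase_of_mem hw]
    omega
  have hJ : Z.erase w ⊆ gs p := (Finset.erase_subset _ _).trans hZp
  have hXJ : ∀ x ∈ X, x ∈ gs p \ Z.erase w := by
    intro x hx
    rw [Finset.mem_sdiff]
    exact ⟨((memq x).1 (hM.sub hx)).2.2, fun h' => (Finset.mem_sdiff.1 (hZ (Finset.mem_of_mem_erase h'))).2 hx⟩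
  have huJ : u ∈ gs p \ Z.erase w :=
    Finset.mem_sdiff.2 ⟨hu, fun h' => ((memq u).1 (hZq (Finset.mem_of_mem_erase h'))).1 rfl⟩
  have huX : u ∉ X := fun h' => ((memq u).1 (hM.sub h')).1 rfl
  have w4 : 4 ≤ (gs p \ Z.erase w).card := by
    have h1 : insert u X ⊆ gs p \ Z.erase w := by
      intro y hy
      rcases Finset.mem_insert.1 hy with rfl | hy
      · exact huJ
      · exact hXJ y hy
    have h2 := Finset.card_le_card h1
    rw [Finset.card_insert_of_notMem huX, h3] at h2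
    omega
  obtain ⟨f, hf⟩ := Finset.card_pos.1 (by omega : 0 < (Z.erase w).card)
  have hfZ : f ∈ Z := Finset.mem_of_mem_erase hf
  have hfw : f ≠ w := Finset.ne_of_mem_erase hf
  have hcn : Cn S.r (rm true f (rm true u (rm false v p))) := hL.cn1 hr hfZ true
  have gf : gs (rm true f (rm true u (rm false v p))) = (gs (rm true u (rm false v p))).erase f :=
    QUB.gs_rm true f _
  have hri := rich_keep S wf2 hZq hL.l1 hl hfZ (t := true) (by
    refine hcn _ ?_ hL.ne ⟨w, ?_⟩
    · rw [gf]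
      intro y hy
      refine Finset.mem_erase.2 ⟨?_, (Finset.mem_sdiff.1 hy).1⟩
      rintro rfl
      exact (Finset.mem_sdiff.1 hy).2 hfZ
    · rw [gf, Finset.mem_sdiff, Finset.mem_erase, Finset.mem_sdiff]
      exact ⟨⟨hfw.symm, hZq hw⟩, fun h' => h'.2 hw⟩)
  obtain ⟨q', s1, s2, -⟩ := hri
  refine ⟨f, hZ hfZ, hcn, ⟨q', s1, s2⟩, ?_, ?_⟩
  · rw [rm_comm true true]
    exact (sep3 hr hp h.th hJ l2 j4 w4 hf huJ true true).ok
  · intro x hx
    exact (sep3 hr hp h.th hJ l2 j4 w4 hf (hXJ x hx) true true).ok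

end Pool.Agent.QU
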