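import Pool.Agent.QUR.TyV5
import Pool.Agent.QUR.TyE
import Pool.Agent.QUR.UsK

/-!
# QUR/Ess: an element of `W` whose removal keeps a rich minor
-/

set_option autoImplicit false

open QUB

namespace Pool.Agent.QU

open Pool.Agent.FRM

section

variable {E : Type} [DecidableEq E] {r : Finset E → ℤ} {p : Itv E}

/-- a mixed pair with small separations only is 3-connected -/
theorem th3_sm (hr : Rk r) (hp : p.1 ⊆ p.2) (nt : Nt r p) (hn : 4 ≤ (gs p).card) {a b : E} (ha : a ∈ gs p) (hb : b ∈ gs p) (hab : a ≠ b)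
    (hs : Sm r (rm true a (rm false b p))) : Th3 r (rm true a (rm false b p)) := by
  have hg : gs (rm true a (rm false b p)) = ((gs p).erase b).erase a := gs_rm2 _ _ _ _ _
  have hwf : (rm true a (rm false b p)).1 ⊆ (rm true a (rm false b p)).2 := by
    refine QUB.wf_rm (QUB.wf_rm hp hb) ?_
    rw [QUB.gs_rm]
    exact Finset.mem_erase.2 ⟨hab, ha⟩
  have key : ∀ A ⊆ gs (rm true a (rm false b p)), A.card = 2 → 2 ≤ QUB.lam r (rm true a (rm false b p)) A := by
    intro A hA h2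
    have hl := lam_nt hr hp nt (by omega) (K := {b}) (D := {a}) (Finset.singleton_subset_iff.2 hb) (Finset.singleton_subset_iff.2 ha)
      (by intro w hw; rw [Finset.mem_singleton] at hw ⊢; rw [hw]; exact hab.symm) (card_le1 b) (card_le1 a) bx_dc.1 bx_dc.2 hA
    rw [Finset.card_singleton] at hl
    have hA' : ∀ w ∈ A, w ∈ gs p ∧ w ≠ a ∧ w ≠ b := by
      intro w hw
      have h1 := hA hw
      rw [hg] at h1
      have h3 := Finset.mem_erase.1 h1
      have h4 := Finset.mem_erase.1 h3.2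
      exact ⟨h4.2, h3.1, h4.1⟩
    have e1 : rhoP r p ({b} ∪ A) = 3 := by
      have h3 : ({b} ∪ A : Finset E).card = 3 := by
        rw [← Finset.insert_eq, Finset.card_insert_of_notMem (fun h' => (hA' b h').2.2 rfl)]
        omega
      rw [rhoP_le3 hr nt (by omega) (by
        intro w hw
        rcases Finset.mem_union.1 hw with h1 | h1
        · rw [Finset.mem_singleton.1 h1]; exact hb
        · exact (hA' w h1).1) (by omega), h3]
      rfl
    have e2 : r p.2 - r p.1 ≤ rhoP r p ({b} ∪ (gs (rm true a (rm false b p)) \ A)) := by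
      have h3 : (insert a A : Finset E).card ≤ 3 := (Finset.card_insert_le _ _).trans (by omega)
      have h4 : insert a A ⊆ gs p := by
        intro w hw
        rcases Finset.mem_insert.1 hw with h1 | h1
        · rw [h1]; exact ha
        · exact (hA' w h1).1
      have h5 := rhoP_co3 hr hp nt (by omega) h4 h3
      rw [← h5]
      refine (rhoP_rk hr).mono _ _ ?_
      intro w hw
      rw [Finset.mem_sdiff, Finset.mem_insert, not_or] at hw
      rw [hg, Finset.mem_union, Finset.mem_singleton]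
      by_cases hwb : w = b
      · exact Or.inl hwb
      · exact Or.inr (Finset.mem_sdiff.2 ⟨Finset.mem_erase.2 ⟨hw.2.1, Finset.mem_erase.2 ⟨hwb, hw.1⟩⟩, hw.2.2⟩)
    omega
  intro A hA h1 h2
  by_contra hcon
  rcases hs A hA (by omega) with h3 | h3
  · have := key A hA (by omega)
    omega
  · have h4 := key (gs (rm true a (rm false b p)) \ A) Finset.sdiff_subset (by omega)
    have h5 := lam_compl r hwf hA
    omega

end

variable {E : Type} [Fintype E] [DecidableEq E] {S : TP F4 E} {p : Itv E} {u v : E} {X : Finset E}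

/-- the removal of `w` from `q` is connected -/
theorem ess_cn (h : Cw S p) (hu : u ∈ gs p) (hv : v ∈ gs p) (huv : u ≠ v) {J : Finset E} (hJ : J ⊆ gs p) (hl : QUB.lam S.r p J ≤ 2)
    (j4 : 4 ≤ J.card) (w4 : 4 ≤ (gs p \ J).card) (uJ : u ∈ J) (vJ : v ∈ J) {w : E} (hw : w ∈ gs p \ J) (t : Bool) :
    Cn S.r (rm t w (rm true u (rm false v p))) := by
  have hr : Rk S.r := S.rk
  have hn := h.hn
  have hwG := (Finset.mem_sdiff.1 hw).1
  have hwu : w ≠ u := fun h' => (Finset.mem_sdiff.1 hw).2 (h' ▸ uJ)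
  have hwv : w ≠ v := fun h' => (Finset.mem_sdiff.1 hw).2 (h' ▸ vJ)
  have s1 := sep3 hr h.hp h.th hJ hl j4 w4 vJ hw false true
  have s2 := sep3 hr h.hp h.th hJ hl j4 w4 uJ hw true false
  cases t with
  | true =>
    have e1 : rm true w (rm true u (rm false v p)) = rm true u (rm true w (rm false v p)) := rm_comm _ _ _ _ _
    have e2 : rm true w (rm false v p) = rm false v (rm true w p) := rm_comm _ _ _ _ _
    rw [e1]
    refine th3_cn hr ?_ (h.cn2 hwG hv hwv true false) (th3_sm hr h.hp h.nt (by omega) hwG hv hwv (e2 ▸ s1)) ?_ ?_ true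
    · refine QUB.wf_rm (QUB.wf_rm h.hp hv) ?_
      rw [QUB.gs_rm]
      exact Finset.mem_erase.2 ⟨hwv, hwG⟩
    · rw [gs_rm2, Finset.card_erase_of_mem (Finset.mem_erase.2 ⟨hwv, hwG⟩), Finset.card_erase_of_mem hv]
      omega
    · rw [gs_rm2]
      exact Finset.mem_erase.2 ⟨hwu.symm, Finset.mem_erase.2 ⟨huv, hu⟩⟩
  | false =>
    have e1 : rm false w (rm true u (rm false v p)) = rm false v (rm true u (rm false w p)) := by
      rw [rm_comm false true w u, rm_comm false false w v, rm_comm true false u v]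
    rw [e1]
    refine th3_cn hr ?_ (h.cn2 hu hwG hwu.symm true false) (th3_sm hr h.hp h.nt (by omega) hu hwG hwu.symm s2) ?_ ?_ false
    · refine QUB.wf_rm (QUB.wf_rm h.hp hwG) ?_
      rw [QUB.gs_rm]
      exact Finset.mem_erase.2 ⟨hwu.symm, hu⟩
    · rw [gs_rm2, Finset.card_erase_of_mem (Finset.mem_erase.2 ⟨hwu.symm, hu⟩), Finset.card_erase_of_mem hwG]
      omega
    · rw [gs_rm2]
      exact Finset.mem_erase.2 ⟨huv.symm, Finset.mem_erase.2 ⟨hwv.symm, hv⟩⟩

/-- five elements of rank three -/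
theorem ess5 (h : Cw S p) {x y z : E} {Y Z : Finset E} (hT : Ty (rhoP S.r p) (S.r p.2 - S.r p.1) u v x y z Y)
    (hG : gT u v x y z Y = gs p) (d : Dirty (rhoP S.r p) (S.r p.2 - S.r p.1) u v x y z Y Z) (h5 : (Y \ Z).card = 5)
    (h3 : rhoP S.r p (Y \ Z) = 3) :
    ∃ a ∈ Y \ Z, ∃ q', Sub q' (rm false a (rm true u (rm false v p))) ∧ Rich S.r q' ∧ (({x, y, z} : Finset E) ∩ gs q').card ≤ 1 := by
  obtain ⟨a, ha, e1, e2, e3⟩ := hT.five d h5 h3
  have haY : a ∈ Y := (Finset.mem_sdiff.1 ha).1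
  have hin : ∀ w ∈ insert y ((Y \ Z).erase a), w = y ∨ (w ∈ Y ∧ w ≠ a) := by
    intro w hw
    rcases Finset.mem_insert.1 hw with h1 | h1
    · exact Or.inl h1
    · exact Or.inr ⟨(Finset.mem_sdiff.1 (Finset.mem_of_mem_erase h1)).1, Finset.ne_of_mem_erase h1⟩
  have hmem : ∀ w, w ∈ gT u v x y z Y → w ∈ p.2 ∧ w ∉ p.1 := by
    intro w hw
    rw [hG] at hw
    exact Finset.mem_sdiff.1 hw
  have hY : ∀ w ∈ Y, w ∈ p.2 ∧ w ∉ p.1 := fun w hw => hmem w (hT.YG hw)
  have hgs : gs ((p.1 ∪ {v, z, a}, p.1 ∪ (insert y ((Y \ Z).erase a) ∪ {v, z, a})) : Itv E) = insert y ((Y \ Z).erase a) := by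
    show (p.1 ∪ (insert y ((Y \ Z).erase a) ∪ {v, z, a})) \ (p.1 ∪ {v, z, a}) = _
    ext w
    simp only [Finset.mem_sdiff, Finset.mem_union, not_or]
    constructor
    · rintro ⟨h1 | h1 | h1, h2, h3⟩
      · exact absurd h1 h2
      · exact h1
      · exact absurd h1 h3
    · intro h1
      refine ⟨Or.inr (Or.inl h1), ?_, ?_⟩
      · rcases hin w h1 with h2 | h2
        · rw [h2]; exact (hmem y hT.yG).2
        · exact (hY w h2.1).2
      · simp only [Finset.mem_insert, Finset.mem_singleton, not_or]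
        rcases hin w h1 with h2 | h2
        · rw [h2]
          exact ⟨hT.vy.symm, hT.yz, fun h' => hT.yY (h' ▸ haY)⟩
        · exact ⟨fun h' => hT.vY (h' ▸ h2.1), fun h' => hT.zY (h' ▸ h2.1), h2.2⟩
  have hyW : y ∉ (Y \ Z).erase a := fun h' => hT.yY (Finset.mem_sdiff.1 (Finset.mem_of_mem_erase h')).1
  refine ⟨a, ha, (p.1 ∪ {v, z, a}, p.1 ∪ (insert y ((Y \ Z).erase a) ∪ {v, z, a})), ⟨?_, ?_⟩, ⟨?_, ?_, Or.inl ⟨?_, ?_⟩⟩, ?_⟩
  · show insert a (insert v p.1) ⊆ p.1 ∪ {v, z, a}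
    intro w hw
    simp only [Finset.mem_insert, Finset.mem_union, Finset.mem_singleton] at hw ⊢
    tauto
  · show p.1 ∪ (insert y ((Y \ Z).erase a) ∪ {v, z, a}) ⊆ p.2.erase u
    intro w hw
    rw [Finset.mem_erase]
    rcases Finset.mem_union.1 hw with h1 | h1
    · exact ⟨fun h' => (hmem u hT.uG).2 (h' ▸ h1), h.hp h1⟩
    · rcases Finset.mem_union.1 h1 with h2 | h2
      · rcases hin w h2 with h3 | h3
        · rw [h3]
          exact ⟨hT.uy.symm, (hmem y hT.yG).1⟩
        · exact ⟨fun h' => hT.uY (h' ▸ h3.1), (hY w h3.1).1⟩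
      · simp only [Finset.mem_insert, Finset.mem_singleton] at h2
        rcases h2 with rfl | rfl | rfl
        · exact ⟨hT.uv.symm, (hmem _ hT.vG).1⟩
        · exact ⟨hT.uz.symm, (hmem _ hT.zG).1⟩
        · exact ⟨fun h' => hT.uY (h' ▸ haY), (hY _ haY).1⟩
  · show p.1 ∪ {v, z, a} ⊆ p.1 ∪ (insert y ((Y \ Z).erase a) ∪ {v, z, a})
    exact Finset.union_subset_union_right Finset.subset_union_right
  · rw [hgs, Finset.card_insert_of_notMem hyW, Finset.card_erase_of_mem ha, h5]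
  · show S.r (p.1 ∪ (insert y ((Y \ Z).erase a) ∪ {v, z, a})) = S.r (p.1 ∪ {v, z, a}) + 2
    have g1 : S.r (p.1 ∪ {v, z, a}) - S.r p.1 = 3 := e1
    have g2 : S.r (p.1 ∪ (insert y ((Y \ Z).erase a) ∪ {v, z, a})) - S.r p.1 = 5 := e2
    omega
  · intro i hi j hj hij
    rw [hgs] at hi hj
    have g1 : S.r (p.1 ∪ {v, z, a}) - S.r p.1 = 3 := e1
    have g2 : S.r (p.1 ∪ ({i, j} ∪ {v, z, a})) - S.r p.1 = 5 := e3 i hi j hj hij
    show S.r (p.1 ∪ {v, z, a} ∪ {i, j}) = S.r (p.1 ∪ {v, z, a}) + 2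
    have e4 : p.1 ∪ {v, z, a} ∪ {i, j} = p.1 ∪ ({i, j} ∪ {v, z, a}) := by
      rw [Finset.union_assoc, Finset.union_comm {v, z, a}]
    rw [e4]
    omega
  · rw [hgs]
    refine (Finset.card_le_card (?_ : _ ⊆ ({y} : Finset E))).trans (by simp)
    intro w hw
    obtain ⟨h1, h2⟩ := Finset.mem_inter.1 hw
    rw [Finset.mem_singleton]
    rcases hin w h2 with h3 | h3
    · exact h3
    · simp only [Finset.mem_insert, Finset.mem_singleton] at h1
      rcases h1 with rfl | rfl | rfl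
      · exact absurd h3.1 hT.xY
      · rfl
      · exact absurd h3.1 hT.zY

end Pool.Agent.QU
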