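import Pool.Agent.QUT.Rcf
import Pool.Agent.QUT.Mdh
import Pool.Agent.QUR.Sep
import Pool.Agent.QUR.Cft

/-!
# QUR/Quad: a quad which is a four point line of a minor

`W` is a four element circuit and cocircuit of the box `p` and a four point line of some minor of `p`. Then every form of `V(p / w)`, `w ∈ W`,
extends to `V(p)` (`quad_ext`).
-/

set_option autoImplicit false
set_option linter.all false

open QUB

namespace Pool.Agent.QU

open Pool.Agent.FRM

private theorem qd_a : ∀ a b c : F4, a ≠ 0 → b ≠ 0 → c ≠ 0 → ∀ s t r : F4, s ≠ 0 → t ≠ 0 → r ≠ 0 → s ≠ t → s ≠ r → t ≠ r → a * s + b * t + c * r = 0 → a + b + c ≠ 0 →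
    b = a ∧ c = a ∧ a + b + c = a := by decide

private theorem qd_b : ∀ t : F4, t ≠ 0 → ∀ g h : F4, ∀ d e : F4, (g + t) * d = 0 → (h + t) * e = 0 → (g + h + t) * (d + e) = 0 →
    ∃ s : F4, g * (d + s) = 0 ∧ h * (e + s) = 0 ∧ (g + h) * (d + e + s) = 0 := by decide

private theorem qd_c : ∀ a b c : F4, a + b + c = 0 → c = a + b := by decide

private theorem qd_d : ∀ a : F4, a + a = 0 := by decide

section

variable {E : Type} [Fintype E] [DecidableEq E]

/-- a quad (circuit and cocircuit) which is a four point line of a minor -/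
structure QW (r : Finset E → ℤ) (p : Itv E) (W : Finset E) : Prop where
  hp : p.1 ⊆ p.2
  sub : W ⊆ gs p
  four : W.card = 4
  rW : r (p.1 ∪ W) = r p.1 + 3
  i3 : ∀ Z ⊆ W, Z.card ≤ 3 → r (p.1 ∪ Z) = r p.1 + Z.card
  cW : r (p.2 \ W) = r p.2 - 1
  d3 : ∀ Z ⊆ W, Z.card ≤ 3 → r (p.2 \ Z) = r p.2
  ln : QUB.Ln r p W

variable {S : TP F4 E} {p : Itv E} {W : Finset E}

private theorem qw_mu (S : TP F4 E) {p : Itv E} {w1 w2 w3 w4 : E} (h : S.r (insert w1 (p.1 ∪ {w2, w3, w4})) = S.r (p.1 ∪ {w2, w3, w4})) :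
    ∃ m2 m3 m4 : F4, ∀ c ∈ van S.U p.1, c w1 = m2 * c w2 + m3 * c w3 + m4 * c w4 := by
  set V := van S.U p.1 with hV
  let ev : Fin 3 → E := ![w2, w3, w4]
  let π : Fin 3 → (V →ₗ[F4] F4) := fun i => (LinearMap.proj (ev i)).comp V.subtype
  let f : V →ₗ[F4] F4 := (LinearMap.proj w1).comp V.subtype
  have hk : ⨅ i, LinearMap.ker (π i) ≤ LinearMap.ker f := by
    rintro ⟨c, hc⟩ h1
    rw [Submodule.mem_iInf] at h1
    have h2 : c w2 = 0 := h1 0
    have h3 : c w3 = 0 := h1 1
    have h4 : c w4 = 0 := h1 2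
    show c w1 = 0
    refine S.van_eq_zero h c ⟨hc.1, fun x hx => ?_⟩
    rcases Finset.mem_union.1 hx with hx | hx
    · exact hc.2 x hx
    · simp only [Finset.mem_insert, Finset.mem_singleton] at hx
      rcases hx with rfl | rfl | rfl
      · exact h2
      · exact h3
      · exact h4
  have h5 := mem_span_of_iInf_ker_le_ker hk
  obtain ⟨a, ha⟩ := (Submodule.mem_span_range_iff_exists_fun F4).1 h5
  refine ⟨a 0, a 1, a 2, fun c hc => ?_⟩
  have h7 : f ⟨c, hc⟩ = (∑ i, a i • π i) ⟨c, hc⟩ := by rw [ha]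
  rw [LinearMap.sum_apply, Fin.sum_univ_three] at h7
  exact h7

theorem QW.row (h : QW S.r p W) {w1 w2 w3 w4 : E} (hW : W = {w1, w2, w3, w4}) (h12 : w1 ≠ w2) (h13 : w1 ≠ w3) (h14 : w1 ≠ w4) (h23 : w2 ≠ w3)
    (h24 : w2 ≠ w4) (h34 : w3 ≠ w4) : ∃ a ∈ van S.U (p.2 \ W), a w1 ≠ 0 ∧ a w2 ≠ 0 ∧ a w3 ≠ 0 ∧ a w4 ≠ 0 ∧
      ∀ c ∈ van S.U p.1, (a w1)⁻¹ * c w1 + (a w2)⁻¹ * c w2 + (a w3)⁻¹ * c w3 + (a w4)⁻¹ * c w4 = 0 := by
  have hr := S.rk
  have m1 : w1 ∈ W := by rw [hW]; simp
  have m2 : w2 ∈ W := by rw [hW]; simp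
  have m3 : w3 ∈ W := by rw [hW]; simp
  have m4 : w4 ∈ W := by rw [hW]; simp
  have hWp : ∀ w ∈ W, w ∈ p.2 := fun w hw => (Finset.mem_sdiff.1 (h.sub hw)).1
  -- the cocircuit vector
  have hA : ∀ i ∈ W, S.r (insert i (p.2 \ W)) = S.r p.2 := by
    intro i hi
    have e : insert i (p.2 \ W) = p.2 \ W.erase i := by
      ext w
      have a1 := hWp w
      simp only [Finset.mem_insert, Finset.mem_sdiff, Finset.mem_erase]
      by_cases e : w = i
      · subst e; simp [hWp w hi]
      · simp [e]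
    rw [e]
    exact h.d3 _ (Finset.erase_subset _ _) (by rw [Finset.card_erase_of_mem hi, h.four])
  have hB : ∀ c ∈ van S.U (p.2 \ W), ∀ i ∈ W, c i = 0 → ∀ j ∈ W, c j = 0 := by
    intro c hc i hi hci j hj
    refine S.van_eq_zero (C := insert i (p.2 \ W)) ?_ c ⟨hc.1, fun x hx => ?_⟩
    · refine le_antisymm ?_ (hr.mono _ _ (Finset.subset_insert _ _))
      rw [hA i hi]
      exact hr.mono _ _ (by
        intro w hw
        rcases Finset.mem_insert.1 hw with rfl | hw
        · exact hWp w hj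
        rcases Finset.mem_insert.1 hw with rfl | hw
        · exact hWp w hi
        · exact (Finset.mem_sdiff.1 hw).1)
    · rcases Finset.mem_insert.1 hx with rfl | hx
      · exact hci
      · exact hc.2 x hx
  obtain ⟨a, ha, ha1⟩ := S.van_one (C := p.2 \ W) (x := w1) (by rw [hA w1 m1, h.cW]; ring)
  have a1 : a w1 ≠ 0 := by rw [ha1]; exact one_ne_zero
  have an : ∀ i ∈ W, a i ≠ 0 := fun i hi h0 => a1 (hB a ha i hi h0 w1 m1)
  -- the circuit relation
  have e234 : insert w1 (p.1 ∪ {w2, w3, w4}) = p.1 ∪ W := by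
    rw [hW]
    ext w
    simp only [Finset.mem_insert, Finset.mem_union, Finset.mem_singleton]
    tauto
  have s3 : ∀ {x y z : E}, x ∈ W → y ∈ W → z ∈ W → x ≠ y → x ≠ z → y ≠ z → S.r (p.1 ∪ {x, y, z}) = S.r p.1 + 3 := by
    intro x y z hx hy hz hxy hxz hyz
    have h1 := h.i3 {x, y, z} (by
      intro w hw
      simp only [Finset.mem_insert, Finset.mem_singleton] at hw
      rcases hw with rfl | rfl | rfl <;> assumption) (by rw [Finset.card_eq_three.2 ⟨x, y, z, hxy, hxz, hyz, rfl⟩])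
    rw [Finset.card_eq_three.2 ⟨x, y, z, hxy, hxz, hyz, rfl⟩] at h1
    exact_mod_cast h1
  have s2 : ∀ {x y : E}, x ∈ W → y ∈ W → x ≠ y → S.r (p.1 ∪ {x, y}) = S.r p.1 + 2 := by
    intro x y hx hy hxy
    have h1 := h.i3 {x, y} (by
      intro w hw
      simp only [Finset.mem_insert, Finset.mem_singleton] at hw
      rcases hw with rfl | rfl <;> assumption) (by rw [Finset.card_pair hxy]; norm_num)
    rw [Finset.card_pair hxy] at h1
    exact_mod_cast h1
  obtain ⟨n2, n3, n4, hmu⟩ := qw_mu S (p := p) (w1 := w1) (w2 := w2) (w3 := w3) (w4 := w4) (by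
    rw [e234, h.rW, s3 m2 m3 m4 h23 h24 h34])
  have one : ∀ {x y : E}, x ∈ W → y ∈ W → x ≠ y → w1 ≠ x → w1 ≠ y → ∃ c ∈ van S.U p.1, c w1 = 1 ∧ c x = 0 ∧ c y = 0 := by
    intro x y hx hy hxy h1x h1y
    obtain ⟨c, hc, hc1⟩ := S.van_one (C := p.1 ∪ {x, y}) (x := w1) (by
      have e : insert w1 (p.1 ∪ {x, y}) = p.1 ∪ {w1, x, y} := by
        ext w
        simp only [Finset.mem_insert, Finset.mem_union, Finset.mem_singleton]
        tauto
      rw [e, s3 m1 hx hy h1x h1y hxy, s2 hx hy hxy]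
      ring)
    refine ⟨c, van_anti Finset.subset_union_left hc, hc1, hc.2 x (by simp), hc.2 y (by simp)⟩
  have n2' : n2 ≠ 0 := by
    rintro rfl
    obtain ⟨c, hc, q1, q2, q3⟩ := one m3 m4 h34 h13 h14
    have := hmu c hc
    rw [q1, q2, q3] at this
    simp at this
  have n3' : n3 ≠ 0 := by
    rintro rfl
    obtain ⟨c, hc, q1, q2, q3⟩ := one m2 m4 h24 h12 h14
    have := hmu c hc
    rw [q1, q2, q3] at this
    simp at this
  have n4' : n4 ≠ 0 := by
    rintro rfl
    obtain ⟨c, hc, q1, q2, q3⟩ := one m2 m3 h23 h12 h13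
    have := hmu c hc
    rw [q1, q2, q3] at this
    simp at this
  -- the line
  obtain ⟨-, Y, y1, y2, y3, y4, y5⟩ := h.ln
  have hYW : Y ⊆ p.2 \ W := fun w hw => Finset.mem_sdiff.2 ⟨y2 (Finset.mem_union_left _ hw), fun hh => Finset.disjoint_left.1 y3 hh hw⟩
  have haY : a ∈ van S.U Y := van_anti hYW ha
  have F : ∀ c ∈ van S.U Y, ∀ i ∈ W, ∀ j ∈ W, i ≠ j → c i = 0 → c j = 0 → ∀ k ∈ W, c k = 0 := by
    intro c hc i hi j hj hij hci hcj k hk
    refine S.van_eq_zero (C := insert i (insert j Y)) ?_ c ⟨hc.1, fun x hx => ?_⟩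
    · refine le_antisymm ?_ (hr.mono _ _ (Finset.subset_insert _ _))
      rw [y5 i hi j hj hij, ← y4]
      exact hr.mono _ _ (by
        intro w hw
        rcases Finset.mem_insert.1 hw with rfl | hw
        · exact Finset.mem_union_right _ hk
        rcases Finset.mem_insert.1 hw with rfl | hw
        · exact Finset.mem_union_right _ hi
        rcases Finset.mem_insert.1 hw with rfl | hw
        · exact Finset.mem_union_right _ hj
        · exact Finset.mem_union_left _ hw)
    · rcases Finset.mem_insert.1 hx with rfl | hx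
      · exact hci
      rcases Finset.mem_insert.1 hx with rfl | hx
      · exact hcj
      · exact hc.2 x hx
  have r1 : S.r (insert w1 Y) = S.r Y + 1 := by
    have q1 := y5 w2 m2 w1 m1 h12.symm
    have q2 := hr.unit (insert w1 Y) w2
    have q3 := hr.unit Y w1
    linarith
  obtain ⟨c', hc', hc2⟩ := S.van_one (C := insert w1 Y) (x := w2) (by rw [y5 w2 m2 w1 m1 h12.symm, r1]; ring)
  have hc1 : c' w1 = 0 := hc'.2 w1 (Finset.mem_insert_self _ _)
  have hcY : c' ∈ van S.U Y := van_anti (Finset.subset_insert _ _) hc'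
  have cn : ∀ i ∈ W, w1 ≠ i → c' i ≠ 0 := by
    intro i hi h1i h0
    have := F c' hcY w1 m1 i hi h1i hc1 h0 w2 m2
    rw [hc2] at this
    exact one_ne_zero this
  have tn : ∀ i ∈ W, ∀ j ∈ W, w1 ≠ i → w1 ≠ j → i ≠ j → c' i * (a i)⁻¹ ≠ c' j * (a j)⁻¹ := by
    intro i hi j hj h1i h1j hij ht
    have he : c' - (c' i * (a i)⁻¹) • a ∈ van S.U Y := (van S.U Y).sub_mem hcY ((van S.U Y).smul_mem _ haY)
    have ei : (c' - (c' i * (a i)⁻¹) • a) i = 0 := by
      rw [Pi.sub_apply, Pi.smul_apply, smul_eq_mul, mul_assoc, inv_mul_cancel₀ (an i hi), mul_one, sub_self]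
    have ej : (c' - (c' i * (a i)⁻¹) • a) j = 0 := by
      rw [Pi.sub_apply, Pi.smul_apply, smul_eq_mul, ht, mul_assoc, inv_mul_cancel₀ (an j hj), mul_one, sub_self]
    have e1 := F _ he i hi j hj hij ei ej w1 m1
    rw [Pi.sub_apply, Pi.smul_apply, smul_eq_mul, hc1, zero_sub, neg_eq_zero] at e1
    rcases mul_eq_zero.1 e1 with e1 | e1
    · rcases mul_eq_zero.1 e1 with e1 | e1
      · exact cn i hi h1i e1
      · exact (inv_ne_zero (an i hi)) e1
    · exact a1 e1
  have b2 := an w2 m2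
  have b3 := an w3 m3
  have b4 := an w4 m4
  have key := qd_a (n2 * a w2) (n3 * a w3) (n4 * a w4) (mul_ne_zero n2' b2) (mul_ne_zero n3' b3) (mul_ne_zero n4' b4)
    (c' w2 * (a w2)⁻¹) (c' w3 * (a w3)⁻¹) (c' w4 * (a w4)⁻¹) (mul_ne_zero (cn w2 m2 h12) (inv_ne_zero b2)) (mul_ne_zero (cn w3 m3 h13) (inv_ne_zero b3))
    (mul_ne_zero (cn w4 m4 h14) (inv_ne_zero b4)) (tn w2 m2 w3 m3 h12 h13 h23) (tn w2 m2 w4 m4 h12 h14 h24) (tn w3 m3 w4 m4 h13 h14 h34)
    (by
      have q := hmu c' (van_anti y1 hcY)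
      rw [hc1] at q
      have e2 : n2 * a w2 * (c' w2 * (a w2)⁻¹) = n2 * c' w2 := by field_simp
      have e3 : n3 * a w3 * (c' w3 * (a w3)⁻¹) = n3 * c' w3 := by field_simp
      have e4 : n4 * a w4 * (c' w4 * (a w4)⁻¹) = n4 * c' w4 := by field_simp
      rw [e2, e3, e4]
      exact q.symm)
    (by
      have q := hmu a (van_anti y1 haY)
      rw [← q]
      exact a1)
  obtain ⟨k1, k2, k3⟩ := key
  have q := hmu a (van_anti y1 haY)
  rw [k3] at q
  refine ⟨a, ha, a1, b2, b3, b4, fun c hc => ?_⟩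
  have q2 := hmu c hc
  have f2 : n2 = a w1 * (a w2)⁻¹ := by
    rw [q, mul_assoc, mul_inv_cancel₀ b2, mul_one]
  have f3 : n3 = a w1 * (a w3)⁻¹ := by
    rw [q, ← k1, mul_assoc, mul_inv_cancel₀ b3, mul_one]
  have f4 : n4 = a w1 * (a w4)⁻¹ := by
    rw [q, ← k2, mul_assoc, mul_inv_cancel₀ b4, mul_one]
  have f5 : (a w1)⁻¹ * c w1 = (a w2)⁻¹ * c w2 + (a w3)⁻¹ * c w3 + (a w4)⁻¹ * c w4 := by
    rw [q2, f2, f3, f4]
    field_simp
  rw [f5]
  have := qd_d ((a w2)⁻¹ * c w2 + (a w3)⁻¹ * c w3 + (a w4)⁻¹ * c w4)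
  rw [← this]
  ring

private theorem rd_cup {r : Finset E → ℤ} {p : Itv E} {Z : Finset E} (hZ : Z ⊆ gs p) :
    QUB.rd r ((QUB.dp p).1 ∪ Z) = QUB.rd r (QUB.dp p).1 + Z.card + r (p.2 \ Z) - r p.2 := by
  have hZ1 : ∀ y ∈ Z, y ∈ p.2 ∧ y ∉ p.1 := fun y hy => Finset.mem_sdiff.1 (hZ hy)
  have e1 : ((QUB.dp p).1 ∪ Z)ᶜ = p.2 \ Z := by
    ext y
    show y ∈ (p.2ᶜ ∪ Z)ᶜ ↔ _
    simp only [Finset.mem_compl, Finset.mem_union, Finset.mem_sdiff]
    tauto
  have e2 : ((QUB.dp p).1)ᶜ = p.2 := by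
    show (p.2ᶜ)ᶜ = _
    rw [compl_compl]
  have c1 : (((QUB.dp p).1 ∪ Z).card : ℤ) = (QUB.dp p).1.card + Z.card := by
    have : ((QUB.dp p).1 ∪ Z).card = (QUB.dp p).1.card + Z.card := by
      apply Finset.card_union_of_disjoint
      rw [Finset.disjoint_left]
      intro y hy hyZ
      exact (Finset.mem_compl.1 (hy : y ∈ p.2ᶜ)) (hZ1 y hyZ).1
    exact_mod_cast this
  unfold QUB.rd
  rw [e1, e2, c1]
  ring

private theorem rd_sdf {r : Finset E → ℤ} {p : Itv E} {Z : Finset E} (hZ : Z ⊆ gs p) :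
    QUB.rd r ((QUB.dp p).2 \ Z) = QUB.rd r (QUB.dp p).2 - Z.card + r (p.1 ∪ Z) - r p.1 := by
  have hZ1 : ∀ y ∈ Z, y ∈ p.2 ∧ y ∉ p.1 := fun y hy => Finset.mem_sdiff.1 (hZ hy)
  have e3 : ((QUB.dp p).2 \ Z)ᶜ = p.1 ∪ Z := by
    ext y
    show y ∈ (p.1ᶜ \ Z)ᶜ ↔ _
    simp only [Finset.mem_compl, Finset.mem_union, Finset.mem_sdiff]
    tauto
  have e4 : ((QUB.dp p).2)ᶜ = p.1 := by
    show (p.1ᶜ)ᶜ = _
    rw [compl_compl]
  have c2 : (((QUB.dp p).2 \ Z).card : ℤ) + Z.card = (QUB.dp p).2.card := by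
    have : ((QUB.dp p).2 \ Z).card + Z.card = (QUB.dp p).2.card :=
      Finset.card_sdiff_add_card_eq_card fun y hy => (Finset.mem_compl.2 (hZ1 y hy).2 : y ∈ p.1ᶜ)
    exact_mod_cast this
  unfold QUB.rd
  rw [e3, e4]
  linarith

theorem QW.dual (h : QW S.r p W) : QW S.dual.r (QUB.dp p) W := by
  refine ⟨QUB.wf_dp h.hp, ?_, h.four, ?_, ?_, ?_, ?_, (QUB.ln_dp S.rk h.hp W).2 h.ln⟩
  · rw [show gs (QUB.dp p) = gs p from QUB.gs_dp _]
    exact h.sub
  · show QUB.rd S.r _ = QUB.rd S.r _ + 3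
    rw [rd_cup h.sub, h.cW, h.four]
    push_cast
    ring
  · intro Z hZ hc
    show QUB.rd S.r _ = QUB.rd S.r _ + _
    rw [rd_cup (hZ.trans h.sub), h.d3 Z hZ hc]
    ring
  · show QUB.rd S.r _ = QUB.rd S.r _ - 1
    rw [rd_sdf h.sub, h.rW, h.four]
    push_cast
    ring
  · intro Z hZ hc
    show QUB.rd S.r _ = QUB.rd S.r _
    rw [rd_sdf (hZ.trans h.sub), h.i3 Z hZ hc]
    ring

private theorem qw_fn (S : TP F4 E) {p : Itv E} {w1 w2 w3 w4 : E} {f : (E → F4) →ₗ[F4] F4}
    (h : ∀ c ∈ van S.U (insert w1 p.1), c w2 = 0 → c w3 = 0 → c w4 = 0 → f c = 0) :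
    ∃ m2 m3 m4 : F4, ∀ c ∈ van S.U (insert w1 p.1), f c = m2 * c w2 + m3 * c w3 + m4 * c w4 := by
  set V := van S.U (insert w1 p.1) with hV
  let ev : Fin 3 → E := ![w2, w3, w4]
  let π : Fin 3 → (V →ₗ[F4] F4) := fun i => (LinearMap.proj (ev i)).comp V.subtype
  let g : V →ₗ[F4] F4 := f.comp V.subtype
  have hk : ⨅ i, LinearMap.ker (π i) ≤ LinearMap.ker g := by
    rintro ⟨c, hc⟩ h1
    rw [Submodule.mem_iInf] at h1
    exact h c hc (h1 0) (h1 1) (h1 2)
  have h5 := mem_span_of_iInf_ker_le_ker hk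
  obtain ⟨a, ha⟩ := (Submodule.mem_span_range_iff_exists_fun F4).1 h5
  refine ⟨a 0, a 1, a 2, fun c hc => ?_⟩
  have h7 : g ⟨c, hc⟩ = (∑ i, a i • π i) ⟨c, hc⟩ := by rw [ha]
  rw [LinearMap.sum_apply, Fin.sum_univ_three] at h7
  exact h7

/-- every form of `V(p / w)`, `w` in a quad which is a four point line of a minor, extends to `V(p)` -/
theorem quad_ext (h : QW S.r p W) {w1 : E} (m1 : w1 ∈ W) {T : Fm F4 E} (hT : InV S.U S.W (rm false w1 p) T) :
    ∃ T' : Fm F4 E, InV S.U S.W p T' ∧ EqD S.U S.W (rm false w1 p) T' T := by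
  obtain ⟨w2, w3, w4, h23, h24, h34, hW3⟩ := Finset.card_eq_three.1 (show (W.erase w1).card = 3 by rw [Finset.card_erase_of_mem m1, h.four])
  have hW : W = {w1, w2, w3, w4} := by
    rw [← Finset.insert_erase m1, hW3]
  have hne : ∀ w ∈ ({w2, w3, w4} : Finset E), w1 ≠ w := by
    intro w hw e
    rw [← hW3] at hw
    exact (Finset.mem_erase.1 hw).1 e.symm
  have h12 := hne w2 (by simp)
  have h13 := hne w3 (by simp)
  have h14 := hne w4 (by simp)
  have m2 : w2 ∈ W := by rw [hW]; simp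
  have m3 : w3 ∈ W := by rw [hW]; simp
  have m4 : w4 ∈ W := by rw [hW]; simp
  have hWp : ∀ w ∈ W, w ∈ p.2 ∧ w ∉ p.1 := fun w hw => Finset.mem_sdiff.1 (h.sub hw)
  obtain ⟨a, ha, a1, a2, a3, a4, ra⟩ := h.row hW h12 h13 h14 h23 h24 h34
  obtain ⟨b, hb, b1, b2, b3, b4, rb⟩ := h.dual.row hW h12 h13 h14 h23 h24 h34
  -- membership
  have ha0 : ∀ x, x ∈ p.2 → x ∉ W → a x = 0 := fun x hx hxW => ha.2 x (Finset.mem_sdiff.2 ⟨hx, hxW⟩)
  have hb0 : ∀ x, x ∉ p.1 → x ∉ W → b x = 0 := fun x hx hxW =>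
    hb.2 x (Finset.mem_sdiff.2 ⟨(Finset.mem_compl.2 hx : x ∈ p.1ᶜ), hxW⟩)
  have hbS : b ∈ spt S.W p.2 := by
    refine ⟨hb.1, fun x hx => hb0 x (fun hh => hx (h.hp hh)) fun hh => hx (hWp x hh).1⟩
  have haV : a ∈ van S.U p.1 := ⟨ha.1, fun x hx => ha0 x (h.hp hx) fun hh => (hWp x hh).2 hx⟩
  have rb' : ∀ d ∈ spt S.W p.2, (b w1)⁻¹ * d w1 + (b w2)⁻¹ * d w2 + (b w3)⁻¹ * d w3 + (b w4)⁻¹ * d w4 = 0 := by
    intro d hd
    refine rb d ⟨hd.1, fun x hx => hd.2 x (Finset.mem_compl.1 (hx : x ∈ p.2ᶜ))⟩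
  -- the diagonal correction
  obtain ⟨k2, k3, k4, hk⟩ := qw_fn S (p := p) (w1 := w1) (w2 := w2) (w3 := w3) (w4 := w4) (f := T.flip b) (by
    intro c hc c2 c3 c4
    show T c b = 0
    refine hT c hc b hbS fun x => ?_
    by_cases hxW : x ∈ W
    · rw [hW] at hxW
      simp only [Finset.mem_insert, Finset.mem_singleton] at hxW
      rcases hxW with rfl | rfl | rfl | rfl
      · rw [hc.2 x (Finset.mem_insert_self _ _), zero_mul]
      · rw [c2, zero_mul]
      · rw [c3, zero_mul]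
      · rw [c4, zero_mul]
    · by_cases hx1 : x ∈ p.1
      · rw [hc.2 x (Finset.mem_insert_of_mem hx1), zero_mul]
      · rw [hb0 x hx1 hxW, mul_zero])
  set l : E → F4 := Pi.single w2 (-(k2 * (b w2)⁻¹)) + Pi.single w3 (-(k3 * (b w3)⁻¹)) + Pi.single w4 (-(k4 * (b w4)⁻¹)) with hl
  have hTb : ∀ c ∈ van S.U (insert w1 p.1), (T + dg l) c b = 0 := by
    intro c hc
    have e1 : T c b = k2 * c w2 + k3 * c w3 + k4 * c w4 := hk c hc
    rw [LinearMap.add_apply, LinearMap.add_apply, hl, dg_add, dg_add, LinearMap.add_apply, LinearMap.add_apply, LinearMap.add_apply,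
      LinearMap.add_apply, dg_single, dg_single, dg_single, e1]
    have f2 : -(k2 * (b w2)⁻¹) * (c w2 * b w2) = -(k2 * c w2) := by field_simp
    have f3 : -(k3 * (b w3)⁻¹) * (c w3 * b w3) = -(k3 * c w3) := by field_simp
    have f4 : -(k4 * (b w4)⁻¹) * (c w4 * b w4) = -(k4 * c w4) := by field_simp
    rw [f2, f3, f4]
    ring
  have G : ∀ c ∈ van S.U (insert w1 p.1), ∀ d ∈ spt S.W p.2, (∀ x, c x * d x = 0) → (T + dg l) c d = 0 := by
    intro c hc d hd hcd
    rw [LinearMap.add_apply, LinearMap.add_apply, hT c hc d hd hcd, zero_add]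
    exact dg_inV (U := S.U) (W := S.W) (rm false w1 p) l c hc d hd hcd
  -- the projection
  let P : (E → F4) →ₗ[F4] (E → F4) := LinearMap.id - (LinearMap.proj w1 : (E → F4) →ₗ[F4] F4).smulRight ((a w1)⁻¹ • a)
  have hP : ∀ c : E → F4, P c = c - c w1 • ((a w1)⁻¹ • a) := fun c => rfl
  have hP1 : ∀ c ∈ van S.U p.1, P c ∈ van S.U (insert w1 p.1) := by
    intro c hc
    have e : P c ∈ van S.U p.1 := by
      rw [hP]
      exact (van S.U p.1).sub_mem hc ((van S.U p.1).smul_mem _ ((van S.U p.1).smul_mem _ haV))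
    refine ⟨e.1, fun x hx => ?_⟩
    rcases Finset.mem_insert.1 hx with rfl | hx
    · rw [hP, Pi.sub_apply, Pi.smul_apply, Pi.smul_apply, smul_eq_mul, smul_eq_mul, inv_mul_cancel₀ a1, mul_one, sub_self]
    · exact e.2 x hx
  refine ⟨(T + dg l).comp P, ?_, ?_⟩
  · intro c hc d hd hcd
    show (T + dg l) (P c) d = 0
    have hc' := hP1 c hc
    set c' := P c with hc'e
    set t := c w1 * (a w1)⁻¹ with ht
    have hcc : ∀ x, c x = c' x + t * a x := by
      intro x
      rw [hc'e, hP, Pi.sub_apply, Pi.smul_apply, Pi.smul_apply, smul_eq_mul, smul_eq_mul, ht]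
      ring
    have c1 : c' w1 = 0 := hc'.2 w1 (Finset.mem_insert_self _ _)
    by_cases t0 : t = 0
    · refine G c' hc' d hd fun x => ?_
      have := hcd x
      rw [hcc x, t0, zero_mul, add_zero] at this
      exact this
    · have d1 : d w1 = 0 := by
        have := hcd w1
        rw [hcc w1, c1, zero_add] at this
        exact (mul_eq_zero.1 this).resolve_left (mul_ne_zero t0 a1)
      have s1 : (a w2)⁻¹ * c' w2 + (a w3)⁻¹ * c' w3 + (a w4)⁻¹ * c' w4 = 0 := by
        have := ra c' (van_anti (Finset.subset_insert _ _) hc')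
        rw [c1, mul_zero, zero_add] at this
        exact this
      have s2 : (b w2)⁻¹ * d w2 + (b w3)⁻¹ * d w3 + (b w4)⁻¹ * d w4 = 0 := by
        have := rb' d hd
        rw [d1, mul_zero, zero_add] at this
        exact this
      have s3 := qd_c _ _ _ s1
      have s4 := qd_c _ _ _ s2
      have fc : ∀ {w : E}, a w ≠ 0 → c' w = a w * ((a w)⁻¹ * c' w) := fun hw => by rw [← mul_assoc, mul_inv_cancel₀ hw, one_mul]
      have fd : ∀ {w : E}, b w ≠ 0 → d w = b w * ((b w)⁻¹ * d w) := fun hw => by rw [← mul_assoc, mul_inv_cancel₀ hw, one_mul]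
      have q : ∀ {w : E}, a w ≠ 0 → b w ≠ 0 → ((a w)⁻¹ * c' w + t) * ((b w)⁻¹ * d w) = 0 := by
        intro w haw hbw
        have e := hcd w
        rw [hcc w] at e
        have e2 : (c' w + t * a w) * d w = (a w * b w) * (((a w)⁻¹ * c' w + t) * ((b w)⁻¹ * d w)) := by
          have e3 := fc haw
          have e4 := fd hbw
          calc (c' w + t * a w) * d w = (a w * ((a w)⁻¹ * c' w) + t * a w) * (b w * ((b w)⁻¹ * d w)) := by rw [← e3, ← e4]
            _ = _ := by ring
        rw [e2] at e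
        exact (mul_eq_zero.1 e).resolve_left (mul_ne_zero haw hbw)
      have q4 := q a4 b4
      rw [s3, s4] at q4
      obtain ⟨s, v2, v3, v4⟩ := qd_b t t0 ((a w2)⁻¹ * c' w2) ((a w3)⁻¹ * c' w3) ((b w2)⁻¹ * d w2) ((b w3)⁻¹ * d w3) (q a2 b2) (q a3 b3) q4
      rw [← s3, ← s4] at v4
      have fin : ∀ {w : E}, a w ≠ 0 → b w ≠ 0 → (a w)⁻¹ * c' w * ((b w)⁻¹ * d w + s) = 0 → c' w * (d w + s * b w) = 0 := by
        intro w haw hbw e
        have e3 := fc haw
        have e4 := fd hbw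
        calc c' w * (d w + s * b w) = (a w * ((a w)⁻¹ * c' w)) * (b w * ((b w)⁻¹ * d w) + s * b w) := by rw [← e3, ← e4]
          _ = (a w * b w) * ((a w)⁻¹ * c' w * ((b w)⁻¹ * d w + s)) := by ring
          _ = 0 := by rw [e, mul_zero]
      have e1 := G c' hc' (d + s • b) ((spt S.W p.2).add_mem hd ((spt S.W p.2).smul_mem _ hbS)) (by
        intro x
        rw [Pi.add_apply, Pi.smul_apply, smul_eq_mul]
        by_cases hxW : x ∈ W
        · rw [hW] at hxW
          simp only [Finset.mem_insert, Finset.mem_singleton] at hxW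
          rcases hxW with rfl | rfl | rfl | rfl
          · rw [c1, zero_mul]
          · exact fin a2 b2 v2
          · exact fin a3 b3 v3
          · exact fin a4 b4 v4
        · by_cases hx1 : x ∈ p.1
          · rw [hc'.2 x (Finset.mem_insert_of_mem hx1), zero_mul]
          · rw [hb0 x hx1 hxW, mul_zero, add_zero]
            by_cases hx2 : x ∈ p.2
            · have := hcd x
              rw [hcc x, ha0 x hx2 hxW, mul_zero, add_zero] at this
              exact this
            · rw [hd.2 x hx2, mul_zero])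
      rw [map_add, map_smul, hTb c' hc', smul_zero, add_zero] at e1
      exact e1
  · refine ⟨l, fun c hc d hd => ?_⟩
    show (T + dg l) (P c) d = (T + dg l) c d
    have e : P c = c := by
      rw [hP, hc.2 w1 (Finset.mem_insert_self _ _), zero_smul, sub_zero]
    rw [e]

/-- a rich minor which contains `W` shows that `W` is a four point line of a minor -/
theorem ln_of_rich {r : Finset E → ℤ} (hr : Rk r) {p q' : Itv E} (hs : Sub q' p) (hR : Rich r q') {W : Finset E} (hW : W ⊆ gs q') (h4 : W.card = 4) :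
    QUB.Ln r p W := by
  obtain ⟨h1, h5, h6⟩ := hR
  have hWq : ∀ w ∈ W, w ∈ q'.2 ∧ w ∉ q'.1 := fun w hw => Finset.mem_sdiff.1 (hW hw)
  have hd : Disjoint W q'.1 := by
    rw [Finset.disjoint_left]
    exact fun w hw => (hWq w hw).2
  obtain ⟨a, ha, b, hb, hab⟩ := Finset.one_lt_card.1 (by omega : 1 < W.card)
  rcases h6 with ⟨h7, h8⟩ | ⟨h7, h8⟩
  · have pr : ∀ i ∈ W, ∀ j ∈ W, i ≠ j → r (insert i (insert j q'.1)) = r q'.1 + 2 := by
      intro i hi j hj hij
      have e : q'.1 ∪ {i, j} = insert i (insert j q'.1) := by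
        ext w; simp only [Finset.mem_union, Finset.mem_insert, Finset.mem_singleton]; tauto
      rw [← e]
      exact h8 i (hW hi) j (hW hj) hij
    refine ⟨h4, q'.1, hs.1, ?_, hd, ?_, pr⟩
    · exact Finset.union_subset (h1.trans hs.2) fun w hw => hs.2 (hWq w hw).1
    · have k1 := pr a ha b hb hab
      have k2 : r (insert a (insert b q'.1)) ≤ r (q'.1 ∪ W) := hr.mono _ _ (by
        intro w hw
        rcases Finset.mem_insert.1 hw with rfl | hw
        · exact Finset.mem_union_right _ ha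
        rcases Finset.mem_insert.1 hw with rfl | hw
        · exact Finset.mem_union_right _ hb
        · exact Finset.mem_union_left _ hw)
      have k3 : r (q'.1 ∪ W) ≤ r q'.2 := hr.mono _ _ (Finset.union_subset h1 fun w hw => (hWq w hw).1)
      linarith
  · obtain ⟨e, he, heW⟩ : ∃ e ∈ gs q', e ∉ W := by
      have h5' : (gs q').card = 5 := h5
      exact Finset.exists_mem_notMem_of_card_lt_card (by omega)
    obtain ⟨he2, he1⟩ := Finset.mem_sdiff.1 he
    have pr : ∀ i ∈ W, ∀ j ∈ W, i ≠ j → r (insert i (insert j (insert e q'.1))) = r q'.1 + 3 := by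
      intro i hi j hj hij
      have e1 : q'.1 ∪ {e, i, j} = insert i (insert j (insert e q'.1)) := by
        ext w; simp only [Finset.mem_union, Finset.mem_insert, Finset.mem_singleton]; tauto
      rw [← e1]
      exact h8 e he i (hW hi) j (hW hj) (fun h => heW (h ▸ hi)) (fun h => heW (h ▸ hj)) hij
    have k0 := pr a ha b hb hab
    have re : r (insert e q'.1) = r q'.1 + 1 := by
      have q1 := hr.unit q'.1 e
      have q2 := hr.unit (insert e q'.1) b
      have q3 := hr.unit (insert b (insert e q'.1)) a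
      linarith
    refine ⟨h4, insert e q'.1, hs.1.trans (Finset.subset_insert _ _), ?_, ?_, ?_, ?_⟩
    · refine Finset.union_subset (Finset.insert_subset (hs.2 he2) (h1.trans hs.2)) fun w hw => hs.2 (hWq w hw).1
    · rw [Finset.disjoint_left]
      intro w hw hw'
      rcases Finset.mem_insert.1 hw' with rfl | hw'
      · exact heW hw
      · exact (hWq w hw).2 hw'
    · have k2 : r (insert a (insert b (insert e q'.1))) ≤ r (insert e q'.1 ∪ W) := hr.mono _ _ (by
        intro w hw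
        rcases Finset.mem_insert.1 hw with rfl | hw
        · exact Finset.mem_union_right _ ha
        rcases Finset.mem_insert.1 hw with rfl | hw
        · exact Finset.mem_union_right _ hb
        · exact Finset.mem_union_left _ hw)
      have k3 : r (insert e q'.1 ∪ W) ≤ r q'.2 := hr.mono _ _ (Finset.union_subset (Finset.insert_subset he2 h1) fun w hw => (hWq w hw).1)
      linarith
    · intro i hi j hj hij
      rw [pr i hi j hj hij, re]
      ring

private theorem qd_cl {r : Finset E → ℤ} (hr : Rk r) {Z : Finset E} : ∀ V : Finset E, (∀ j ∈ V, r (insert j Z) ≤ r Z) → r (Z ∪ V) ≤ r Z := by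
  intro V
  induction V using Finset.induction_on with
  | empty => intro _; simp
  | insert a V ha ih =>
    intro h
    have h1 := ih fun j hj => h j (Finset.mem_insert_of_mem hj)
    have h2 := h a (Finset.mem_insert_self _ _)
    have h3 := hr.sub (Z ∪ V) (insert a Z)
    have h4 : r Z ≤ r ((Z ∪ V) ∩ insert a Z) := hr.mono _ _ fun w hw =>
      Finset.mem_inter.2 ⟨Finset.mem_union_left _ hw, Finset.mem_insert_of_mem hw⟩
    have e : (Z ∪ V) ∪ insert a Z = Z ∪ insert a V := by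
      ext w
      simp only [Finset.mem_union, Finset.mem_insert]
      tauto
    rw [e] at h3
    linarith

/-- **QUAD**: a quad outside of the tiny side which is a four point line of a minor -/
theorem quad_goal (h : Cw S p) {u v : E} {X W : Finset E} (hc : Rcf S p u true v false X) (h3 : X.card = 3)
    (hW : W ⊆ gs (rm true u (rm false v p)) \ X) (h4 : W.card = 4) (hl : QUB.lam S.r p W ≤ 2) (hL : QUB.Ln S.r p W) :
    ∃ T : Fm F4 E, InV S.U S.W p T ∧ ¬ EqD S.U S.W p T 0 := by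
  have hr := S.rk
  have hp := h.hp
  have hn := h.hn
  have gq : gs (rm true u (rm false v p)) = ((gs p).erase v).erase u := by rw [gs_rm, gs_rm]
  have hXq : ∀ w ∈ X, w ∈ gs p ∧ w ≠ u ∧ w ≠ v := by
    intro w hw
    have := hc.sub hw
    rw [gq] at this
    exact ⟨(Finset.mem_erase.1 (Finset.mem_erase.1 this).2).2, (Finset.mem_erase.1 this).1, (Finset.mem_erase.1 (Finset.mem_erase.1 this).2).1⟩
  have hWq : ∀ w ∈ W, w ∈ gs p ∧ w ≠ u ∧ w ≠ v ∧ w ∉ X := by
    intro w hw
    obtain ⟨a, b⟩ := Finset.mem_sdiff.1 (hW hw)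
    rw [gq] at a
    exact ⟨(Finset.mem_erase.1 (Finset.mem_erase.1 a).2).2, (Finset.mem_erase.1 a).1, (Finset.mem_erase.1 (Finset.mem_erase.1 a).2).1, b⟩
  have hWp : W ⊆ gs p := fun w hw => (hWq w hw).1
  have mu := hc.mu
  have mv := hc.mv
  have huv := hc.uv
  -- the quad
  have i3 : ∀ Z ⊆ gs p, Z.card ≤ 3 → S.r (p.1 ∪ Z) = S.r p.1 + Z.card := fun Z hZ hc => Nt.le3 hr h.nt (by omega) hZ hc
  have d3 : ∀ Z ⊆ gs p, Z.card ≤ 3 → S.r (p.2 \ Z) = S.r p.2 := by
    intro Z hZ hc
    obtain ⟨Z', h1, h2, h4⟩ := Finset.exists_subsuperset_card_eq hZ hc (by omega)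
    have h5 := h.nt.d3 Z' h2 h4
    have h6 := hr.mono (p.2 \ Z') (p.2 \ Z) (Finset.sdiff_subset_sdiff Finset.Subset.rfl h1)
    have h7 := hr.mono (p.2 \ Z) p.2 Finset.sdiff_subset
    linarith
  obtain ⟨w0, hw0⟩ := Finset.card_pos.1 (by omega : 0 < W.card)
  have low : S.r p.1 + 3 ≤ S.r (p.1 ∪ W) := by
    have h1 := i3 (W.erase w0) ((Finset.erase_subset _ _).trans hWp) (by rw [Finset.card_erase_of_mem hw0]; omega)
    rw [Finset.card_erase_of_mem hw0, h4] at h1
    have h2 := hr.mono (p.1 ∪ W.erase w0) (p.1 ∪ W) (Finset.union_subset_union_right (Finset.erase_subset _ _))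
    push_cast at h1
    linarith
  have cow : ∀ V ⊆ gs p, V.card = 4 → S.r p.2 - 1 ≤ S.r (p.2 \ V) := by
    intro V hV hV4
    obtain ⟨w, hw⟩ := Finset.card_pos.1 (by omega : 0 < V.card)
    have h1 := d3 (V.erase w) ((Finset.erase_subset _ _).trans hV) (by rw [Finset.card_erase_of_mem hw]; omega)
    have h2 := hr.unit (p.2 \ V) w
    have h3 := hr.mono (p.2 \ V.erase w) (insert w (p.2 \ V)) (by
      intro y hy
      obtain ⟨a, b⟩ := Finset.mem_sdiff.1 hy
      by_cases e : y = w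
      · rw [e]; exact Finset.mem_insert_self _ _
      · exact Finset.mem_insert_of_mem (Finset.mem_sdiff.2 ⟨a, fun hh => b (Finset.mem_erase.2 ⟨e, hh⟩)⟩))
    linarith
  have lam0 : QUB.lam S.r p W = S.r (p.1 ∪ W) + S.r (p.2 \ W) - S.r p.2 - S.r p.1 := rfl
  have coW := cow W hWp h4
  have rW : S.r (p.1 ∪ W) = S.r p.1 + 3 := by linarith
  have cW : S.r (p.2 \ W) = S.r p.2 - 1 := by linarith
  have Q : QW S.r p W := ⟨hp, hWp, h4, rW, fun Z hZ hc => i3 Z (hZ.trans hWp) hc, cW, fun Z hZ hc => d3 Z (hZ.trans hWp) hc, hL⟩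
  -- `v` is not spanned by `W`
  have rv : S.r (insert v p.1) = S.r p.1 + 1 := by
    have := i3 {v} (Finset.singleton_subset_iff.2 mv) (by simp)
    rw [Finset.card_singleton] at this
    have e : p.1 ∪ {v} = insert v p.1 := by
      ext w; simp only [Finset.mem_union, Finset.mem_insert, Finset.mem_singleton]; tauto
    rw [e] at this
    exact_mod_cast this
  have S1 : S.r p.1 + 4 ≤ S.r (insert v p.1 ∪ W) := by
    have t := h.th v mv false W (by
      rw [gs_rm]
      exact fun w hw => Finset.mem_erase.2 ⟨(hWq w hw).2.2.1, hWp hw⟩) (by omega) (by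
      have e : X ⊆ gs (rm false v p) \ W := by
        intro w hw
        rw [gs_rm]
        exact Finset.mem_sdiff.2 ⟨Finset.mem_erase.2 ⟨(hXq w hw).2.2, (hXq w hw).1⟩, fun hh => (hWq w hh).2.2.2 hw⟩
      have := Finset.card_le_card e
      omega)
    have e : Pool.Agent.QU.lam S.r (rm false v p) W = S.r (insert v p.1 ∪ W) + S.r (p.2 \ W) - S.r p.2 - S.r (insert v p.1) := rfl
    linarith
  -- the line of `X` is far from `W`
  have lamX : QUB.lam S.r (rm true u (rm false v p)) X = S.r (insert v p.1 ∪ X) + S.r (p.2.erase u \ X) - S.r (p.2.erase u) - S.r (insert v p.1) := rfl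
  have hlX := hc.lam
  have S2 : S.r p.1 + 5 ≤ S.r ((insert v p.1 ∪ X) ∪ W) := by
    have k1 := hr.sub ((insert v p.1 ∪ X) ∪ W) (p.2.erase u \ X)
    have k2 : S.r (p.2.erase u) ≤ S.r (((insert v p.1 ∪ X) ∪ W) ∪ (p.2.erase u \ X)) := hr.mono _ _ (by
      intro w hw
      by_cases e : w ∈ X
      · exact Finset.mem_union_left _ (Finset.mem_union_left _ (Finset.mem_union_right _ e))
      · exact Finset.mem_union_right _ (Finset.mem_sdiff.2 ⟨hw, e⟩))
    have k3 : S.r (insert v p.1 ∪ W) ≤ S.r (((insert v p.1 ∪ X) ∪ W) ∩ (p.2.erase u \ X)) := hr.mono _ _ (by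
      intro w hw
      have hw' : w = v ∨ w ∈ p.1 ∨ w ∈ W := by
        simpa [Finset.mem_union, Finset.mem_insert, or_assoc] using hw
      have a0 : w ∈ (insert v p.1 ∪ X) ∪ W := by
        rcases Finset.mem_union.1 hw with hw | hw
        · exact Finset.mem_union_left _ (Finset.mem_union_left _ hw)
        · exact Finset.mem_union_right _ hw
      refine Finset.mem_inter.2 ⟨a0, Finset.mem_sdiff.2 ⟨Finset.mem_erase.2 ?_, ?_⟩⟩
      · rcases hw' with rfl | hw' | hw'
        · exact ⟨huv.symm, (Finset.mem_sdiff.1 mv).1⟩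
        · exact ⟨fun e => (Finset.mem_sdiff.1 mu).2 (e ▸ hw'), hp hw'⟩
        · exact ⟨(hWq w hw').2.1, (Finset.mem_sdiff.1 (hWq w hw').1).1⟩
      · intro hX'
        rcases hw' with rfl | hw' | hw'
        · exact (hXq w hX').2.2 rfl
        · exact (Finset.mem_sdiff.1 (hXq w hX').1).2 hw'
        · exact (hWq w hw').2.2.2 hX')
    have k4 : S.r p.1 + 3 ≤ S.r (insert v p.1 ∪ X) := by
      have h1 := i3 X (fun w hw => (hXq w hw).1) (by omega)
      rw [h3] at h1
      have h2 := hr.mono (p.1 ∪ X) (insert v p.1 ∪ X) (Finset.union_subset_union_left (Finset.subset_insert _ _))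
      push_cast at h1
      linarith
    linarith
  -- a pair of `W` which does not meet the line of `X`
  obtain ⟨i, hi, j, hj, hij, S3⟩ : ∃ i ∈ W, ∃ j ∈ W, i ≠ j ∧ S.r p.1 + 5 ≤ S.r (insert i (insert j (insert v p.1 ∪ X))) := by
    by_contra hcon
    push Not at hcon
    by_cases hex : ∃ i ∈ W, S.r p.1 + 4 ≤ S.r (insert i (insert v p.1 ∪ X))
    · obtain ⟨i, hi, hi4⟩ := hex
      have k := qd_cl hr (Z := insert i (insert v p.1 ∪ X)) W (by
        intro j hj
        by_cases e : j = i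
        · rw [e, Finset.insert_idem]
        · have := hcon j hj i hi e
          linarith)
      have k2 := hr.mono ((insert v p.1 ∪ X) ∪ W) (insert i (insert v p.1 ∪ X) ∪ W) (Finset.union_subset_union_left (Finset.subset_insert _ _))
      obtain ⟨j, hj, hji⟩ : ∃ j ∈ W, j ≠ i := by
        obtain ⟨j, hj⟩ := Finset.card_pos.1 (by rw [Finset.card_erase_of_mem hi]; omega : 0 < (W.erase i).card)
        exact ⟨j, (Finset.mem_erase.1 hj).2, (Finset.mem_erase.1 hj).1⟩
      have k3 := hcon j hj i hi hji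
      have k4 := hr.mono _ _ (Finset.subset_insert j (insert i (insert v p.1 ∪ X)))
      linarith
    · push Not at hex
      have k4 : S.r p.1 + 3 ≤ S.r (insert v p.1 ∪ X) := by
        have h1 := i3 X (fun w hw => (hXq w hw).1) (by omega)
        rw [h3] at h1
        have h2 := hr.mono (p.1 ∪ X) (insert v p.1 ∪ X) (Finset.union_subset_union_left (Finset.subset_insert _ _))
        push_cast at h1
        linarith
      have k := qd_cl hr (Z := insert v p.1 ∪ X) W (by
        intro j hj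
        have := hex j hj
        linarith)
      obtain ⟨i, hi⟩ := Finset.card_pos.1 (by omega : 0 < W.card)
      have k5 := hex i hi
      have k6 := hr.mono _ _ (Finset.subset_insert i (insert v p.1 ∪ X))
      linarith
  have miW := hWq i hi
  have mjW := hWq j hj
  -- the line survives
  have wv : (rm false v p).1 ⊆ (rm false v p).2 := QUB.wf_rm hp mv
  have muv : u ∈ gs (rm false v p) := by rw [gs_rm]; exact Finset.mem_erase.2 ⟨huv, mu⟩
  have wq : (rm true u (rm false v p)).1 ⊆ (rm true u (rm false v p)).2 := QUB.wf_rm wv muv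
  have jq : j ∈ gs (rm true u (rm false v p)) := (Finset.mem_sdiff.1 (hW hj)).1
  have iq : i ∈ gs (rm true u (rm false v p)) := (Finset.mem_sdiff.1 (hW hi)).1
  have wj : (rm false j (rm true u (rm false v p))).1 ⊆ (rm false j (rm true u (rm false v p))).2 := QUB.wf_rm wq jq
  have ij : i ∈ gs (rm false j (rm true u (rm false v p))) := by rw [gs_rm]; exact Finset.mem_erase.2 ⟨hij, iq⟩
  have eX4 : p.2.erase u \ X = p.2 \ insert u X := by
    ext w
    simp only [Finset.mem_sdiff, Finset.mem_erase, Finset.mem_insert]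
    tauto
  have uX : u ∉ X := fun hh => (hXq u hh).2.1 rfl
  have cX : S.r p.2 - 1 ≤ S.r (p.2.erase u \ X) := by
    rw [eX4]
    exact cow _ (Finset.insert_subset mu fun w hw => (hXq w hw).1) (by rw [Finset.card_insert_of_notMem uX, h3])
  have ru : S.r (p.2.erase u) ≤ S.r p.2 := hr.mono _ _ (Finset.erase_subset _ _)
  have rij : S.r (insert i (insert j (insert v p.1))) ≤ S.r p.1 + 3 := by
    have k1 := hr.unit (insert j (insert v p.1)) i
    have k2 := hr.unit (insert v p.1) j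
    linarith
  have l2 : 1 ≤ QUB.lam S.r (rm false i (rm false j (rm true u (rm false v p)))) X := by
    have e : QUB.lam S.r (rm false i (rm false j (rm true u (rm false v p)))) X =
      S.r (insert i (insert j (insert v p.1)) ∪ X) + S.r (p.2.erase u \ X) - S.r (p.2.erase u) - S.r (insert i (insert j (insert v p.1))) := rfl
    have e2 : insert i (insert j (insert v p.1)) ∪ X = insert i (insert j (insert v p.1 ∪ X)) := by
      rw [Finset.insert_union, Finset.insert_union]
    rw [e, e2]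
    linarith
  have hXj : X ⊆ (gs (rm true u (rm false v p))).erase j := fun w hw =>
    Finset.mem_erase.2 ⟨fun e => mjW.2.2.2 (e ▸ hw), hc.sub hw⟩
  have hXi : X ⊆ (gs (rm false j (rm true u (rm false v p)))).erase i := fun w hw => by
    rw [gs_rm]
    exact Finset.mem_erase.2 ⟨fun e => miW.2.2.2 (e ▸ hw), hXj hw⟩
  have l1 : 1 ≤ QUB.lam S.r (rm false j (rm true u (rm false v p))) X :=
    l2.trans (QUB.lam_rm_le hr ij hXi)
  have v1 : Hv S.r (rm false j (rm true u (rm false v p))) X := hv_keep hr wq hXj jq hlX l1 hc.hv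
  have v2 : Hv S.r (rm false i (rm false j (rm true u (rm false v p)))) X :=
    hv_keep hr wj hXi ij ((QUB.lam_rm_le hr jq hXj).trans hlX) l2 v1
  have hLn : HasLn S.r (rm false i (rm false j (rm true u p))) := by
    obtain ⟨N, hN, -⟩ := v2
    have hN' : HasLn S.r (rm false i (rm false j (rm true u (rm false v p)))) := ⟨N, hN⟩
    refine hN'.mono ?_
    exact (((rm_sub false v p).rm true u).rm false j).rm false i
  -- connectivity
  have wu : (rm true u p).1 ⊆ (rm true u p).2 := QUB.wf_rm hp mu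
  have iu : i ∈ gs (rm true u p) := by rw [gs_rm]; exact Finset.mem_erase.2 ⟨miW.2.1, miW.1⟩
  have ju : j ∈ gs (rm true u p) := by rw [gs_rm]; exact Finset.mem_erase.2 ⟨mjW.2.1, mjW.1⟩
  have wui : (rm false i (rm true u p)).1 ⊆ (rm false i (rm true u p)).2 := QUB.wf_rm wu iu
  have wuj : (rm false j (rm true u p)).1 ⊆ (rm false j (rm true u p)).2 := QUB.wf_rm wu ju
  have gW : 4 ≤ (gs p \ W).card := by
    have := Finset.card_sdiff_add_card_eq_card hWp
    omega
  have huW : u ∈ gs p \ W := Finset.mem_sdiff.2 ⟨mu, fun hh => (hWq u hh).2.1 rfl⟩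
  have smi : Sm S.r (rm false i (rm true u p)) := sep3 hr hp h.th hWp hl (by omega) gW hi huW false true
  have smj : Sm S.r (rm false j (rm true u p)) := sep3 hr hp h.th hWp hl (by omega) gW hj huW false true
  have ok_of : ∀ {m : Itv E}, Sm S.r m → Ok S.r m := by
    intro m h A hA hl hh
    have h1 := hh.1.card
    have h2 := hh.2.card
    rcases h A hA hl with h3 | h3 <;> omega
  have ci := h.cn2 miW.1 mu miW.2.1 false true
  have cj := h.cn2 mjW.1 mu mjW.2.1 false true
  have th3j : Th3 S.r (rm false j (rm true u p)) := by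
    intro A hA hA2 hB2
    by_contra hcon
    have hl1 : QUB.lam S.r (rm false j (rm true u p)) A ≤ 1 := by
      have : ¬ 2 ≤ QUB.lam S.r (rm false j (rm true u p)) A := hcon
      omega
    have gj : gs (rm false j (rm true u p)) = ((gs p).erase u).erase j := by rw [gs_rm, gs_rm]
    have key : ∀ B ⊆ gs (rm false j (rm true u p)), B.card = 2 → 2 ≤ QUB.lam S.r (rm false j (rm true u p)) B := by
      intro B hB hB2
      have hB1 : ∀ w ∈ B, w ∈ gs p ∧ w ≠ u ∧ w ≠ j := by
        intro w hw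
        have := hB hw
        rw [gj] at this
        exact ⟨(Finset.mem_erase.1 (Finset.mem_erase.1 this).2).2, (Finset.mem_erase.1 (Finset.mem_erase.1 this).2).1, (Finset.mem_erase.1 this).1⟩
      have e : QUB.lam S.r (rm false j (rm true u p)) B = S.r (insert j p.1 ∪ B) + S.r (p.2.erase u \ B) - S.r (p.2.erase u) - S.r (insert j p.1) := rfl
      have jB : j ∉ B := fun hh => (hB1 j hh).2.2 rfl
      have uB : u ∉ B := fun hh => (hB1 u hh).2.1 rfl
      have k1 := i3 (insert j B) (Finset.insert_subset mjW.1 fun w hw => (hB1 w hw).1) (by rw [Finset.card_insert_of_notMem jB]; omega)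
      have k2 := d3 (insert u B) (Finset.insert_subset mu fun w hw => (hB1 w hw).1) (by rw [Finset.card_insert_of_notMem uB]; omega)
      have e1 : p.1 ∪ insert j B = insert j p.1 ∪ B := by
        ext w; simp only [Finset.mem_union, Finset.mem_insert]; tauto
      have e2 : p.2 \ insert u B = p.2.erase u \ B := by
        ext w; simp only [Finset.mem_sdiff, Finset.mem_erase, Finset.mem_insert]; tauto
      rw [e1, Finset.card_insert_of_notMem jB, hB2] at k1
      rw [e2] at k2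
      have k3 := hr.unit p.1 j
      rw [e]
      push_cast at k1
      linarith
    rcases smj A hA hl1 with h5 | h5
    · have := key A hA (by omega)
      omega
    · have e : QUB.lam S.r (rm false j (rm true u p)) (gs (rm false j (rm true u p)) \ A) = QUB.lam S.r (rm false j (rm true u p)) A :=
        lam_compl S.r wuj hA
      have := key (gs (rm false j (rm true u p)) \ A) Finset.sdiff_subset (by omega)
      omega
  have iuj : i ∈ gs (rm false j (rm true u p)) := by rw [gs_rm]; exact Finset.mem_erase.2 ⟨hij, iu⟩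
  have cij : Cn S.r (rm false i (rm false j (rm true u p))) := by
    refine th3_cn hr wuj cj th3j ?_ iuj false
    have e : gs (rm false j (rm true u p)) = ((gs p).erase u).erase j := by rw [gs_rm, gs_rm]
    rw [e, Finset.card_erase_of_mem (Finset.mem_erase.2 ⟨mjW.2.1, mjW.1⟩), Finset.card_erase_of_mem mu]
    omega
  -- a rich contraction
  have hex : ∃ w ∈ W, HasRich S.r (rm false w p) := by
    by_contra hcon
    push Not at hcon
    obtain ⟨T, hT⟩ := h.ex1 mu true
    have nr : ∀ w ∈ W, ¬ HasRich S.r (rm false w (rm true u p)) := by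
      rintro w hw ⟨N, a, b⟩
      exact hcon w hw ⟨N, ((rm_sub true u p).rm false w).trans a, b⟩
    have z1 := thmU S h.nu _ wui ci (ok_of smi) (hT.1.mono (rm_sub false i _)) (Or.inr (nr i hi))
    have z2 := thmU S h.nu _ wuj cj (ok_of smj) (hT.1.mono (rm_sub false j _)) (Or.inr (nr j hj))
    have z := g_pair S wu hij iu ju hT.1 z1 z2 cij hLn (nd_of_cn hr hij iu ju (by
      rw [gs_rm, Finset.card_erase_of_mem mu]; omega) ci cj)
    obtain ⟨N, a, b, -⟩ := hc.rich
    refine hT.2 N ?_ b (z.mono ?_)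
    · exact ((rm_sub false v p).rm true u).trans a
    · exact ((rm_sub false v p).rm true u).trans a
  obtain ⟨w, hw, N, hN1, hN2⟩ := hex
  obtain ⟨T1, hT1⟩ := h.ex1 (hWp hw) false
  obtain ⟨T', i1, i2⟩ := quad_ext Q hw hT1.1
  refine ⟨T', i1, fun hz => ?_⟩
  exact hT1.2 N hN1 hN2 (((i2.symm).trans (hz.mono (rm_sub false w p))).mono hN1)

end

end Pool.Agent.QU
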