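import Pool.Agent.QUR.Ess
import Pool.Agent.QUR.TyJ
import Pool.Agent.QUR.Quad

/-!
# QUR/EssB: an element of `W` whose removal keeps a rich minor, or the quad case
-/

set_option autoImplicit false

open QUB

namespace Pool.Agent.QU

open Pool.Agent.FRM

variable {E : Type} [Fintype E] [DecidableEq E] {S : TP F4 E} {p : Itv E} {u v : E} {X : Finset E}

private theorem eb_rm (t : Bool) (x : E) (q : Itv E) : rm t x (QUB.dp q) = QUB.dp (rm (!t) x q) := QUB.rm_dp t x q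

/-- the rank in the dual -/
theorem rhoP_dual (hp : p.1 ⊆ p.2) {W : Finset E} (hW : W ⊆ gs p) :
    rhoP S.dual.r (QUB.dp p) W = W.card + rhoP S.r p (gs p \ W) - (S.r p.2 - S.r p.1) := by
  have e1 : rhoP S.dual.r (QUB.dp p) W = (((p.2ᶜ ∪ W).card : ℤ) + S.r ((p.2ᶜ ∪ W)ᶜ) - S.r Finset.univ) -
      (((p.2ᶜ).card : ℤ) + S.r ((p.2ᶜ)ᶜ) - S.r Finset.univ) := rfl
  have e2 : (p.2ᶜ ∪ W)ᶜ = p.2 \ W := by
    ext w
    simp only [Finset.mem_compl, Finset.mem_union, Finset.mem_sdiff]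
    tauto
  have e3 : (p.2ᶜ ∪ W).card = (p.2ᶜ).card + W.card := by
    refine Finset.card_union_of_disjoint (Finset.disjoint_left.2 fun w h1 h2 => ?_)
    exact (Finset.mem_compl.1 h1) (Finset.mem_sdiff.1 (hW h2)).1
  rw [e1, e2, e3, compl_compl, rhoP_compl hp hW]
  push_cast
  ring

/-- the side `J` -/
theorem ess_J (h : Cw S p) {x y z : E} {Y Z : Finset E} (hT : Ty (rhoP S.r p) (S.r p.2 - S.r p.1) u v x y z Y)
    (hG : gT u v x y z Y = gs p) (d : Dirty (rhoP S.r p) (S.r p.2 - S.r p.1) u v x y z Y Z) :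
    QUB.lam S.r p (gs p \ (Y \ Z)) ≤ 2 ∧ 4 ≤ (gs p \ (Y \ Z)).card ∧ gs p \ (gs p \ (Y \ Z)) = Y \ Z ∧
      u ∈ gs p \ (Y \ Z) ∧ v ∈ gs p \ (Y \ Z) ∧ x ∈ gs p \ (Y \ Z) ∧ y ∈ gs p \ (Y \ Z) ∧ z ∈ gs p \ (Y \ Z) := by
  have hWG : Y \ Z ⊆ gs p := fun w hw => hG ▸ hT.YG (Finset.mem_sdiff.1 hw).1
  have hnW : ∀ w, w ∉ Y → w ∉ Y \ Z := fun w h1 h2 => h1 (Finset.mem_sdiff.1 h2).1
  have mu : u ∈ gs p \ (Y \ Z) := Finset.mem_sdiff.2 ⟨hG ▸ hT.uG, hnW u hT.uY⟩
  have mv : v ∈ gs p \ (Y \ Z) := Finset.mem_sdiff.2 ⟨hG ▸ hT.vG, hnW v hT.vY⟩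
  have mx : x ∈ gs p \ (Y \ Z) := Finset.mem_sdiff.2 ⟨hG ▸ hT.xG, hnW x hT.xY⟩
  have my : y ∈ gs p \ (Y \ Z) := Finset.mem_sdiff.2 ⟨hG ▸ hT.yG, hnW y hT.yY⟩
  have mz : z ∈ gs p \ (Y \ Z) := Finset.mem_sdiff.2 ⟨hG ▸ hT.zG, hnW z hT.zY⟩
  have hcc : gs p \ (gs p \ (Y \ Z)) = Y \ Z := Finset.sdiff_sdiff_eq_self hWG
  refine ⟨?_, ?_, hcc, mu, mv, mx, my, mz⟩
  · rw [lam_0 h.hp Finset.sdiff_subset, hcc]
    have e := hT.d_lam d
    rw [hG] at e
    omega
  · have hs : ({u, v, x, y} : Finset E) ⊆ gs p \ (Y \ Z) := by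
      intro w hw
      simp only [Finset.mem_insert, Finset.mem_singleton] at hw
      rcases hw with rfl | rfl | rfl | rfl <;> assumption
    have hc : ({u, v, x, y} : Finset E).card = 4 := by
      rw [Finset.card_insert_of_notMem, Finset.card_insert_of_notMem, Finset.card_insert_of_notMem, Finset.card_singleton]
      · simpa using hT.xy
      · simp only [Finset.mem_insert, Finset.mem_singleton, not_or]
        exact ⟨hT.vx, hT.vy⟩
      · simp only [Finset.mem_insert, Finset.mem_singleton, not_or]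
        exact ⟨hT.uv, hT.ux, hT.uy⟩
    have := Finset.card_le_card hs
    omega

/-- outside of a rich minor -/
theorem ess_out (h : Cw S p) (hc : Rcf S p u true v false X) {x y z : E} (hX : X = {x, y, z}) (xy : x ≠ y) (xz : x ≠ z) (yz : y ≠ z)
    {Z : Finset E} (d : Dirty (rhoP S.r p) (S.r p.2 - S.r p.1) u v x y z (gs (rm true u (rm false v p)) \ X) Z)
    (h4 : 4 ≤ ((gs (rm true u (rm false v p)) \ X) \ Z).card) {N : Itv E} (hs : Sub N (rm true u (rm false v p))) (hR : Rich S.r N)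
    (hN : (X ∩ gs N).card ≤ 1) (hne : ¬ (gs (rm true u (rm false v p)) \ X) \ Z ⊆ gs N) :
    ∃ w ∈ (gs (rm true u (rm false v p)) \ X) \ Z, ∃ t, Cn S.r (rm t w (rm true u (rm false v p))) ∧
      ∃ q', Sub q' (rm t w (rm true u (rm false v p))) ∧ Rich S.r q' ∧ (X ∩ gs q').card ≤ 1 := by
  obtain ⟨hT, hG⟩ := ty_of h hc hX xy xz yz
  obtain ⟨hl, j4, hcc, mu, mv, -, -, -⟩ := ess_J h hT hG d
  obtain ⟨w, hw, hwN⟩ := Finset.not_subset.1 hne
  have hwq : w ∈ gs (rm true u (rm false v p)) := (Finset.mem_sdiff.1 (Finset.mem_sdiff.1 hw).1).1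
  obtain ⟨hw2, hw1⟩ := Finset.mem_sdiff.1 hwq
  have cn := fun t => ess_cn h hc.mu hc.mv hc.uv Finset.sdiff_subset hl j4 (by rw [hcc]; exact h4) mu mv
    (w := w) (by rw [hcc]; exact hw) t
  have hor : w ∉ N.2 ∨ w ∈ N.1 := by
    by_contra hcon
    push Not at hcon
    exact hwN (Finset.mem_sdiff.2 hcon)
  rcases hor with h1 | h1
  · exact ⟨w, hw, true, cn true, N, ⟨hs.1, fun a ha => Finset.mem_erase.2 ⟨fun h' => h1 (h' ▸ ha), hs.2 ha⟩⟩, hR, hN⟩
  · exact ⟨w, hw, false, cn false, N, ⟨Finset.insert_subset_iff.2 ⟨h1, hs.1⟩, hs.2⟩, hR, hN⟩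

/-- **an element of `W` whose removal keeps a rich minor, or a form** -/
theorem ess (h : Cw S p) (hc : Rcf S p u true v false X) {x y z : E} (hX : X = {x, y, z}) (xy : x ≠ y) (xz : x ≠ z) (yz : y ≠ z)
    {Z : Finset E} (d : Dirty (rhoP S.r p) (S.r p.2 - S.r p.1) u v x y z (gs (rm true u (rm false v p)) \ X) Z)
    (h4 : 4 ≤ ((gs (rm true u (rm false v p)) \ X) \ Z).card) :
    (∃ T : Fm F4 E, InV S.U S.W p T ∧ ¬ EqD S.U S.W p T 0) ∨
      ∃ w ∈ (gs (rm true u (rm false v p)) \ X) \ Z, ∃ t, Cn S.r (rm t w (rm true u (rm false v p))) ∧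
        ∃ q', Sub q' (rm t w (rm true u (rm false v p))) ∧ Rich S.r q' ∧ (X ∩ gs q').card ≤ 1 := by
  obtain ⟨N, hs, hR, hN⟩ := hc.rich
  by_cases hne : (gs (rm true u (rm false v p)) \ X) \ Z ⊆ gs N
  swap
  · exact Or.inr (ess_out h hc hX xy xz yz d h4 hs hR hN hne)
  obtain ⟨hT, hG⟩ := ty_of h hc hX xy xz yz
  obtain ⟨hT', hG'⟩ := ty_dual h hc hX xy xz yz
  have hT5 := hR.2.1
  have hle := Finset.card_le_card hne
  have hc3 : X.card = 3 := by rw [hX]; exact Finset.card_eq_three.2 ⟨x, y, z, xy, xz, yz, rfl⟩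
  obtain ⟨hlJ, j4, hcc, mu, mv, -, -, -⟩ := ess_J h hT hG d
  have hWG : (gs (rm true u (rm false v p)) \ X) \ Z ⊆ gs p := fun w hw => hG ▸ hT.YG (Finset.mem_sdiff.1 hw).1
  have hlam := hT.d_lam d
  rw [hG] at hlam
  have cn := fun (w : E) (hw : w ∈ (gs (rm true u (rm false v p)) \ X) \ Z) (t : Bool) => ess_cn h hc.mu hc.mv hc.uv
    Finset.sdiff_subset hlJ j4 (by rw [hcc]; exact h4) mu mv (w := w) (by rw [hcc]; exact hw) t
  by_cases h4' : ((gs (rm true u (rm false v p)) \ X) \ Z).card = 4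
  · left
    have hsp : Sub N p := ⟨(Finset.subset_insert _ _).trans hs.1, hs.2.trans (Finset.erase_subset _ _)⟩
    refine quad_goal h hc hc3 Finset.sdiff_subset h4' ?_ (ln_of_rich S.rk hsp hR hne h4')
    rw [lam_0 h.hp hWG]
    omega
  right
  have h5 : ((gs (rm true u (rm false v p)) \ X) \ Z).card = 5 := by omega
  by_cases e3 : rhoP S.r p ((gs (rm true u (rm false v p)) \ X) \ Z) = 3
  · obtain ⟨a, ha, q', h1, h2, h3⟩ := ess5 h hT hG d h5 e3
    exact ⟨a, ha, false, cn a ha false, q', h1, h2, by rw [hX]; exact h3⟩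
  · -- the dual
    obtain ⟨W3, hW3, c3⟩ := Finset.exists_subset_card_eq (show 3 ≤ ((gs (rm true u (rm false v p)) \ X) \ Z).card by omega)
    have k1 := hT.rk.mono _ _ hW3
    rw [hT.i3 W3 (hG ▸ hW3.trans hWG) (by omega), c3] at k1
    have k2 := rhoP_dual (S := S) h.hp hWG
    have k3 := hT'.rk.mono _ _ hW3
    rw [hT'.i3 W3 (by
      rw [hG']
      exact (hW3.trans hWG).trans (QUB.gs_dp p).ge) (by omega), c3] at k3
    push_cast at k1 k3
    have e3' : rhoP S.dual.r (QUB.dp p) ((gs (rm true u (rm false v p)) \ X) \ Z) = 3 := by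
      rw [h5] at k2
      push_cast at k2
      omega
    obtain ⟨a, ha, q', h1, h2, h3⟩ := ess5 h.dual hT'.swap ((gT_swap _ _ _ _ _ _).trans hG') (dirty_dual h hT hG d) h5 e3'
    have e4 : rm false a (rm true v (rm false u (QUB.dp p))) = QUB.dp (rm true a (rm true u (rm false v p))) := by
      rw [eb_rm false u p, eb_rm true v, eb_rm false a]
      show QUB.dp (rm true a (rm false v (rm true u p))) = QUB.dp (rm true a (rm true u (rm false v p)))
      rw [rm_comm false true v u]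
    rw [e4] at h1
    refine ⟨a, ha, true, cn a ha true, QUB.dp q', ⟨?_, ?_⟩, ?_, ?_⟩
    · have := h1.2
      have h6 := Finset.compl_subset_compl.2 this
      rw [show (QUB.dp (rm true a (rm true u (rm false v p)))).2 = ((rm true a (rm true u (rm false v p))).1)ᶜ from rfl, compl_compl] at h6
      exact h6
    · have := h1.1
      have h6 := Finset.compl_subset_compl.2 this
      rw [show (QUB.dp (rm true a (rm true u (rm false v p)))).1 = ((rm true a (rm true u (rm false v p))).2)ᶜ from rfl, compl_compl] at h6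
      exact h6
    · have h6 := rich_dual S.dual h2
      have h7 : S.dual.dual.r = S.r := QUB.rd_rd S.rk
      rw [h7] at h6
      exact h6
    · rw [show gs (QUB.dp q') = gs q' from QUB.gs_dp q', hX]
      refine le_trans (Finset.card_le_card ?_) h3
      intro w hw
      simp only [Finset.mem_inter, Finset.mem_insert, Finset.mem_singleton] at hw ⊢
      tauto

end Pool.Agent.QU
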