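import Pool.Agent.QUR.Tt3
import Pool.Agent.QUN.Main

set_option autoImplicit false

/-!
# QUR/Tth: the triangle step of layer D

`tt3_h`: `{x1, x2, x3}` a triangle, `y` outside, `M \ x1, y` and `M \ x2, y` connected and `Ok`, `S' = M \ x1, x2, y` connected, and every form on
`S = M \ x1, x2` which is diagonal on `S'` is diagonal (`Rdg`); one of `M \ x1`, `M \ x2`, `M \ y` rich: then `V(M)` has a form which is not diagonal.
`rdg_rich`, `rdg_non`: `Rdg` if `S` is connected and `Ok`.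
-/

namespace Pool.Agent.QU

open Pool.Agent.FRM

variable {E : Type} [Fintype E] [DecidableEq E]

/-- forms on `p` which are diagonal on the minor `q` are diagonal on `p` -/
def Rdg (S : TP F4 E) (p q : Itv E) : Prop := ∀ T : Fm F4 E, InV S.U S.W p T → EqD S.U S.W q T 0 → EqD S.U S.W p T 0

theorem rdg_rich (S : TP F4 E) (hNU : NU S.r) {p q : Itv E} (hp : p.1 ⊆ p.2) (hc : QUB.Cn S.r p) (ho : QUB.Ok S.r p) (hq : Sub q p)
    (hR : HasRich S.r q) : Rdg S p q := by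
  intro T hT hd
  obtain ⟨N, h1, h2⟩ := hR
  exact thmU S hNU p hp hc ho hT (Or.inl ⟨N, hq.trans h1, h2, hd.mono h1⟩)

theorem rdg_non (S : TP F4 E) (hNU : NU S.r) {p q : Itv E} (hp : p.1 ⊆ p.2) (hc : QUB.Cn S.r p) (ho : QUB.Ok S.r p)
    (hR : ¬ HasRich S.r p) : Rdg S p q :=
  fun _ hT _ => thmU S hNU p hp hc ho hT (Or.inr hR)

theorem rdg_bin (S : TP F4 E) {p q : Itv E} (hp : p.1 ⊆ p.2) (h : ∀ N, ¬ QUB.Ln S.r p N) : Rdg S p q :=
  fun _ hT _ => bin_diag S hp h hT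

/-- uniqueness on a connected `Ok` box -/
theorem uniq_f4 (S : TP F4 E) (hNU : NU S.r) {q : Itv E} (hq : q.1 ⊆ q.2) (hc : QUB.Cn S.r q) (ho : QUB.Ok S.r q)
    {T Ts : Fm F4 E} (hT : InV S.U S.W q T) (hTs : InVs S q Ts) : ∃ k : F4, EqD S.U S.W q T (k • Ts) := by
  by_cases hR : HasRich S.r q
  · obtain ⟨N, h1, h2⟩ := hR
    obtain ⟨k, hk⟩ := rich_one S h2 (hT.mono h1) (hTs.1.mono h1) (hTs.2 N h1 h2)
    refine ⟨k, ?_⟩
    exact EqD.of_sub (thmU S hNU q hq hc ho (hT.sub (hTs.1.smul k)) (Or.inl ⟨N, h1, h2, hk.to_sub⟩))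
  · refine ⟨0, ?_⟩
    rw [zero_smul]
    exact thmU S hNU q hq hc ho hT (Or.inr hR)

private theorem tt3_aux (S : TP F4 E) (hNU : NU S.r) {p : Itv E} (hp : p.1 ⊆ p.2) {x1 x2 x3 y : E}
    (hx1 : x1 ∈ gs p) (hx2 : x2 ∈ gs p) (hx3 : x3 ∈ gs p) (hyp : y ∈ gs p) (h12 : x1 ≠ x2) (h13 : x1 ≠ x3) (h23 : x2 ≠ x3)
    (hy1 : y ≠ x1) (hy2 : y ≠ x2) (hy3 : y ≠ x3)
    (ht3 : S.r (p.1 ∪ {x1, x2, x3}) = S.r (p.1 ∪ {x1, x2})) (ht1 : S.r (p.1 ∪ {x1, x2, x3}) = S.r (p.1 ∪ {x2, x3}))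
    (ex1 : ∃ T, InVs S (rm true x1 p) T) (ex2 : ∃ T, InVs S (rm true x2 p) T) (exy : ∃ T, InVs S (rm true y p) T)
    (c1 : QUB.Cn S.r (rm true x1 (rm true y p))) (o1 : QUB.Ok S.r (rm true x1 (rm true y p)))
    (c2 : QUB.Cn S.r (rm true x2 (rm true y p))) (o2 : QUB.Ok S.r (rm true x2 (rm true y p)))
    {w : E → F4} (hw : EqOn S.U S.W (rm true x1 (rm true x2 p)) (dg w) 0)
    (hom : ∀ l : E → F4, EqOn S.U S.W (rm true x1 (rm true x2 (rm true y p))) (dg l) 0 →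
      ∃ k : F4, ∀ x ∈ gs (rm true x1 (rm true x2 (rm true y p))), l x = k * w x)
    (rig : Rdg S (rm true x1 (rm true x2 p)) (rm true x1 (rm true x2 (rm true y p))))
    (hR : HasRich S.r (rm true x1 p) ∨ HasRich S.r (rm true x2 p) ∨ HasRich S.r (rm true y p)) :
    ∃ T : Fm F4 E, InV S.U S.W p T ∧ ¬ EqD S.U S.W p T 0 := by
  obtain ⟨T1, hT1⟩ := ex1
  obtain ⟨T2, hT2⟩ := ex2
  obtain ⟨Ty, hTy⟩ := exy
  have wy : (rm true y p).1 ⊆ (rm true y p).2 := QUB.wf_rm hp hyp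
  have hx1' : x1 ∈ gs (rm true y p) := by
    rw [gs_rm]
    exact Finset.mem_erase.2 ⟨hy1.symm, hx1⟩
  have hx2' : x2 ∈ gs (rm true y p) := by
    rw [gs_rm]
    exact Finset.mem_erase.2 ⟨hy2.symm, hx2⟩
  have hx3' : x3 ∈ gs (rm true y p) := by
    rw [gs_rm]
    exact Finset.mem_erase.2 ⟨hy3.symm, hx3⟩
  have w1 : (rm true x1 (rm true y p)).1 ⊆ (rm true x1 (rm true y p)).2 := QUB.wf_rm wy hx1'
  have w2 : (rm true x2 (rm true y p)).1 ⊆ (rm true x2 (rm true y p)).2 := QUB.wf_rm wy hx2'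
  have s1 : Sub (rm true x1 (rm true y p)) (rm true x1 p) := (rm_sub true y p).rm true x1
  have s2 : Sub (rm true x2 (rm true y p)) (rm true x2 p) := (rm_sub true y p).rm true x2
  have sub1 : Sub (rm true x1 (rm true x2 (rm true y p))) (rm true x1 (rm true y p)) := by
    rw [rm_comm true true x1 x2]
    exact rm_sub true x2 _
  have sub2 : Sub (rm true x1 (rm true x2 (rm true y p))) (rm true x2 (rm true y p)) := rm_sub true x1 _
  have t1 : Sub (rm true x1 (rm true x2 p)) (rm true x1 p) := by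
    rw [rm_comm true true x1 x2]
    exact rm_sub true x2 _
  have t2 : Sub (rm true x1 (rm true x2 p)) (rm true x2 p) := rm_sub true x1 _
  have hcard : 3 ≤ (gs (rm true y p)).card := by
    have h1 : ({x1, x2, x3} : Finset E) ⊆ gs (rm true y p) := by
      intro z hz
      simp only [Finset.mem_insert, Finset.mem_singleton] at hz
      rcases hz with rfl | rfl | rfl
      · exact hx1'
      · exact hx2'
      · exact hx3'
    have h2 := Finset.card_le_card h1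
    rwa [Finset.card_eq_three.2 ⟨x1, x2, x3, h12, h13, h23, rfl⟩] at h2
  have nd : ND S.r (rm true y p) x1 x2 true true := nd_of_cn S.rk h12 hx1' hx2' hcard c1 c2
  -- the common end
  have fin : ∀ A1 A2 Ay : Fm F4 E, InV S.U S.W (rm true x1 p) A1 → InV S.U S.W (rm true x2 p) A2 → InV S.U S.W (rm true y p) Ay →
      EqD S.U S.W (rm true x1 (rm true y p)) A1 Ay → EqD S.U S.W (rm true x2 (rm true y p)) A2 Ay →
      ∃ T : Fm F4 E, InV S.U S.W p T ∧ EqD S.U S.W (rm true x1 p) T A1 ∧ EqD S.U S.W (rm true x2 p) T A2 ∧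
        EqD S.U S.W (rm true y p) T Ay := by
    intro A1 A2 Ay hA1 hA2 hAy e1 e2
    have e12 : EqD S.U S.W (rm true x1 (rm true x2 p)) A1 A2 := by
      have h1 : EqD S.U S.W (rm true x1 (rm true x2 (rm true y p))) A1 A2 := (e1.mono sub1).trans (e2.mono sub2).symm
      exact EqD.of_sub (rig (A1 - A2) ((hA1.mono t1).sub (hA2.mono t2)) h1.to_sub)
    exact tt3_w S hp hA1 hA2 hAy hx1 hx2 hx3 hyp h12 h13 hy1 hy2 hy3 ht3 ht1 e1 e2 e12 hw hom nd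
  by_cases hRy : HasRich S.r (rm true y p)
  · obtain ⟨N, n1, n2⟩ := hRy
    obtain ⟨k1, hk1⟩ := uniq_f4 S hNU w1 c1 o1 (hTy.1.mono (rm_sub true x1 _)) (Ts := T1)
      ⟨hT1.1.mono s1, fun q h h' => hT1.2 q (s1.trans h) h'⟩
    obtain ⟨k2, hk2⟩ := uniq_f4 S hNU w2 c2 o2 (hTy.1.mono (rm_sub true x2 _)) (Ts := T2)
      ⟨hT2.1.mono s2, fun q h h' => hT2.2 q (s2.trans h) h'⟩
    obtain ⟨T, hT, -, -, h3⟩ := fin (k1 • T1) (k2 • T2) Ty (hT1.1.smul k1) (hT2.1.smul k2) hTy.1 hk1.symm hk2.symm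
    refine ⟨T, hT, fun h => hTy.2 N n1 n2 ?_⟩
    exact (h3.symm.mono n1).trans (h.mono ((rm_sub true y p).trans n1))
  · have d1 : EqD S.U S.W (rm true x1 (rm true y p)) T1 0 := by
      refine thmU S hNU _ w1 c1 o1 (hT1.1.mono s1) (Or.inr ?_)
      rintro ⟨N, n1, n2⟩
      exact hRy ⟨N, (rm_sub true x1 _).trans n1, n2⟩
    have d2 : EqD S.U S.W (rm true x2 (rm true y p)) T2 0 := by
      refine thmU S hNU _ w2 c2 o2 (hT2.1.mono s2) (Or.inr ?_)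
      rintro ⟨N, n1, n2⟩
      exact hRy ⟨N, (rm_sub true x2 _).trans n1, n2⟩
    obtain ⟨T, hT, h1, h2, -⟩ := fin T1 T2 0 hT1.1 hT2.1 InV.zero d1 d2
    rcases hR with ⟨N, n1, n2⟩ | ⟨N, n1, n2⟩ | h
    · refine ⟨T, hT, fun h => hT1.2 N n1 n2 ?_⟩
      exact (h1.symm.mono n1).trans (h.mono ((rm_sub true x1 p).trans n1))
    · refine ⟨T, hT, fun h => hT2.2 N n1 n2 ?_⟩
      exact (h2.symm.mono n1).trans (h.mono ((rm_sub true x2 p).trans n1))
    · exact absurd h hRy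

/-- the triangle step -/
theorem tt3_h (S : TP F4 E) (hNU : NU S.r) {p : Itv E} (hp : p.1 ⊆ p.2) {x1 x2 x3 y : E}
    (hx1 : x1 ∈ gs p) (hx2 : x2 ∈ gs p) (hx3 : x3 ∈ gs p) (hyp : y ∈ gs p) (h12 : x1 ≠ x2) (h13 : x1 ≠ x3) (h23 : x2 ≠ x3)
    (hy1 : y ≠ x1) (hy2 : y ≠ x2) (hy3 : y ≠ x3)
    (ht3 : S.r (p.1 ∪ {x1, x2, x3}) = S.r (p.1 ∪ {x1, x2})) (ht1 : S.r (p.1 ∪ {x1, x2, x3}) = S.r (p.1 ∪ {x2, x3}))
    (ex1 : ∃ T, InVs S (rm true x1 p) T) (ex2 : ∃ T, InVs S (rm true x2 p) T) (exy : ∃ T, InVs S (rm true y p) T)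
    (c1 : QUB.Cn S.r (rm true x1 (rm true y p))) (o1 : QUB.Ok S.r (rm true x1 (rm true y p)))
    (c2 : QUB.Cn S.r (rm true x2 (rm true y p))) (o2 : QUB.Ok S.r (rm true x2 (rm true y p)))
    (c12 : QUB.Cn S.r (rm true x1 (rm true x2 (rm true y p))))
    (n12 : (∃ N, QUB.Ln S.r (rm true x1 (rm true x2 (rm true y p))) N) ∨ ∀ N, ¬ QUB.Ln S.r (rm true x1 (rm true x2 p)) N)
    (rig : Rdg S (rm true x1 (rm true x2 p)) (rm true x1 (rm true x2 (rm true y p))))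
    (hR : HasRich S.r (rm true x1 p) ∨ HasRich S.r (rm true x2 p) ∨ HasRich S.r (rm true y p)) :
    ∃ T : Fm F4 E, InV S.U S.W p T ∧ ¬ EqD S.U S.W p T 0 := by
  have w2 : (rm true x2 p).1 ⊆ (rm true x2 p).2 := QUB.wf_rm hp hx2
  have hx1' : x1 ∈ gs (rm true x2 p) := by
    rw [gs_rm]
    exact Finset.mem_erase.2 ⟨h12, hx1⟩
  have w12 : (rm true x1 (rm true x2 p)).1 ⊆ (rm true x1 (rm true x2 p)).2 := QUB.wf_rm w2 hx1'
  have e : rm true x1 (rm true x2 (rm true y p)) = rm true y (rm true x1 (rm true x2 p)) := by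
    rw [rm_comm true true x2 y, rm_comm true true x1 y]
  have hy' : y ∈ gs (rm true x1 (rm true x2 p)) := by
    rw [gs_rm, gs_rm]
    exact Finset.mem_erase.2 ⟨hy1, Finset.mem_erase.2 ⟨hy2, hyp⟩⟩
  have w12y : (rm true x1 (rm true x2 (rm true y p))).1 ⊆ (rm true x1 (rm true x2 (rm true y p))).2 := by
    rw [e]
    exact QUB.wf_rm w12 hy'
  by_cases hb : ∀ N, ¬ QUB.Ln S.r (rm true x1 (rm true x2 p)) N
  · obtain ⟨w, hw0, hw⟩ := bin_hom S w12 hb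
    have hs : Sub (rm true x1 (rm true x2 (rm true y p))) (rm true x1 (rm true x2 p)) := by
      rw [e]
      exact rm_sub true y _
    refine tt3_aux S hNU hp hx1 hx2 hx3 hyp h12 h13 h23 hy1 hy2 hy3 ht3 ht1 ex1 ex2 exy c1 o1 c2 o2 hw (fun l hl => ?_) rig hR
    refine hom_line S w12y c12 hl (hw.mono hs) (fun x hx => hw0 x ?_)
    rw [e, gs_rm] at hx
    exact (Finset.mem_erase.1 hx).2
  · have n12' := n12.resolve_right hb
    refine tt3_aux S hNU hp hx1 hx2 hx3 hyp h12 h13 h23 hy1 hy2 hy3 ht3 ht1 ex1 ex2 exy c1 o1 c2 o2 (w := 0) ?_ (fun l hl => ?_) rig hR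
    · rw [dg_zero]
      exact EqOn.rfl
    · refine ⟨0, fun x hx => ?_⟩
      rw [hom_cn S w12y c12 n12' hl x hx, zero_mul]

end Pool.Agent.QU
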