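import Pool.Agent.QUR.T2e
import Pool.Agent.QUR.Tth

set_option autoImplicit false

/-!
# QUR/ExF: `Ex` and `Rg` over `F4` (Theorem U instead of `ExpAll`), and the triangle theorems in box form

`ex_ok`: if the removal `rm t f q` is connected and `Ok` and there is a form in `V_*(q)`, then forms extend from `rm t f q` to `q`.
`rg_f4`: `f` is rigid in `q` if `q` is connected and `Ok` and `rm t f q` is connected, nonbinary and of the same level.
`t2_f4`, `t2c_f4`, `t2d_f4`, `tt3_f4`: the theorems of `T2e` with these hypotheses.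
-/

namespace Pool.Agent.QU

open Pool.Agent.FRM

variable {E : Type} [Fintype E] [DecidableEq E]

theorem ex_ok (S : TP F4 E) (hNU : NU S.r) {q : Itv E} (hq : q.1 ⊆ q.2) {t : Bool} {f : E} (hf : f ∈ gs q)
    (hc : QUB.Cn S.r (rm t f q)) (ho : QUB.Ok S.r (rm t f q)) (hex : ∃ Ts, InVs S q Ts) : Ex S t f q := by
  intro T hT
  obtain ⟨Ts, hTs⟩ := hex
  have w : (rm t f q).1 ⊆ (rm t f q).2 := QUB.wf_rm hq hf
  obtain ⟨k, l, hl⟩ := uniq_f4 S hNU w hc ho hT (Ts := Ts)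
    ⟨hTs.1.mono (rm_sub t f q), fun q' h h' => hTs.2 q' ((rm_sub t f q).trans h) h'⟩
  exact ⟨k • Ts + dg l, (hTs.1.smul k).add (dg_inV q l), hl.symm⟩

/-- rigidity from the restriction of the forms -/
theorem rg_of_rdg (S : TP F4 E) {q : Itv E} (hq : q.1 ⊆ q.2) {t : Bool} {f : E} (hf : f ∈ gs q) (h : Rdg S q (rm t f q))
    (hc' : QUB.Cn S.r (rm t f q)) (hN : ∃ N, QUB.Ln S.r (rm t f q) N) : Rg S t f q := by
  intro T hT h0
  obtain ⟨l, hl⟩ := h T hT h0.eqD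
  rw [zero_add] at hl
  have h1 : EqOn S.U S.W (rm t f q) (dg l) 0 := (hl.mono (rm_sub t f q)).symm.trans h0
  have h2 := hom_cn S (QUB.wf_rm hq hf) hc' hN h1
  refine ⟨l f, hl.trans (dg_congr fun x hx => ?_)⟩
  by_cases hxf : x = f
  · rw [hxf, Pi.single_eq_same]
  · rw [Pi.single_eq_of_ne hxf]
    refine h2 x ?_
    rw [gs_rm]
    exact Finset.mem_erase.2 ⟨hxf, hx⟩

theorem rg_f4 (S : TP F4 E) (hNU : NU S.r) {q : Itv E} (hq : q.1 ⊆ q.2) {t : Bool} {f : E} (hf : f ∈ gs q)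
    (hc : QUB.Cn S.r q) (ho : QUB.Ok S.r q) (hc' : QUB.Cn S.r (rm t f q)) (hN : ∃ N, QUB.Ln S.r (rm t f q) N)
    (hR : HasRich S.r (rm t f q) ∨ ¬ HasRich S.r q) : Rg S t f q := by
  refine rg_of_rdg S hq hf ?_ hc' hN
  rcases hR with hR | hR
  · exact rdg_rich S hNU hq hc ho (rm_sub t f q) hR
  · exact rdg_non S hNU hq hc ho hR

/-- from `Ex` and a rich removal to a form which is not diagonal -/
theorem h_of_ex (S : TP F4 E) {p : Itv E} {t : Bool} {f : E} (h : Ex S t f p) (hex : ∃ T, InVs S (rm t f p) T)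
    (hR : HasRich S.r (rm t f p)) : ∃ T : Fm F4 E, InV S.U S.W p T ∧ ¬ EqD S.U S.W p T 0 := by
  obtain ⟨T, hT⟩ := hex
  obtain ⟨N, h1, h2⟩ := hR
  exact ex_nontriv S h hT.1 fun h3 => hT.2 N h1 h2 (h3.mono h1)

section

variable (S : TP F4 E) (hNU : NU S.r) {p : Itv E} {f a b e : E} (hp : p.1 ⊆ p.2) (hf : f ∈ gs p) (ha : a ∈ gs p) (hb : b ∈ gs p)
  (hfa : f ≠ a) (hfb : f ≠ b) (hab : a ≠ b) (hL : Tri3 S.r p f a b)

include hNU hp hf ha hb hfa hfb hab hL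

/-- **T2** -/
theorem t2_f4 (ef : ∃ T, InVs S (rm true f p) T) (ea : ∃ T, InVs S (rm true a p) T) (hR : HasRich S.r (rm true f p))
    (cA : QUB.Cn S.r (rm true f (rm true a p))) (oA : QUB.Ok S.r (rm true f (rm true a p)))
    (hrg : Rg S true f (rm true a (rm false b p))) : ∃ T : Fm F4 E, InV S.U S.W p T ∧ ¬ EqD S.U S.W p T 0 := by
  refine h_of_ex S (t2_ex S hp hf ha hb hfa hfb hab hL ?_ hrg) ef hR
  refine ex_ok S hNU (QUB.wf_rm hp ha) ?_ cA oA ea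
  rw [gs_rm]
  exact Finset.mem_erase.2 ⟨hfa, hf⟩

/-- **T2C**, `e` contracted -/
theorem t2c_f4 (he : e ∈ gs p) (hef : e ≠ f) (hea : e ≠ a) (heb : S.r (insert e (insert b p.1)) = S.r (insert b p.1) + 1)
    (ef : ∃ T, InVs S (rm true f p) T) (ea : ∃ T, InVs S (rm true a p) T) (ee : ∃ T, InVs S (rm false e p) T)
    (hR : HasRich S.r (rm true f p))
    (c1 : QUB.Cn S.r (rm true f (rm false e p))) (o1 : QUB.Ok S.r (rm true f (rm false e p)))
    (c2 : QUB.Cn S.r (rm false e (rm true a p))) (o2 : QUB.Ok S.r (rm false e (rm true a p)))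
    (hrg : Rg S false e (rm true a (rm false b p))) : ∃ T : Fm F4 E, InV S.U S.W p T ∧ ¬ EqD S.U S.W p T 0 := by
  refine h_of_ex S (t2c_ex S (e := e) hp hf ha hb hfa hfb hab hL heb ?_ ?_ hrg) ef hR
  · refine ex_ok S hNU (QUB.wf_rm hp he) ?_ c1 o1 ee
    rw [gs_rm]
    exact Finset.mem_erase.2 ⟨hef.symm, hf⟩
  · refine ex_ok S hNU (QUB.wf_rm hp ha) ?_ c2 o2 ea
    rw [gs_rm]
    exact Finset.mem_erase.2 ⟨hea, he⟩

/-- **T2D**, `e` deleted -/
theorem t2d_f4 (he : e ∈ gs p) (hef : e ≠ f) (hea : e ≠ a) (heb : e ≠ b)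
    (ef : ∃ T, InVs S (rm true f p) T) (ea : ∃ T, InVs S (rm true a p) T) (ee : ∃ T, InVs S (rm true e p) T)
    (hR : HasRich S.r (rm true f p))
    (c1 : QUB.Cn S.r (rm true f (rm true e p))) (o1 : QUB.Ok S.r (rm true f (rm true e p)))
    (c2 : QUB.Cn S.r (rm true e (rm true a p))) (o2 : QUB.Ok S.r (rm true e (rm true a p)))
    (hrg : Rg S true e (rm true a (rm false b p)))
    {c0 d0 : E → F4} (hc0 : c0 ∈ van S.U p.1) (hd0 : d0 ∈ spt S.W ((p.2.erase a).erase f)) (hcd0 : ∀ x, c0 x * d0 x = 0)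
    (hcb : c0 b ≠ 0) (hde : d0 e ≠ 0) : ∃ T : Fm F4 E, InV S.U S.W p T ∧ ¬ EqD S.U S.W p T 0 := by
  refine h_of_ex S (t2d_ex S (e := e) hp hf ha hb hfa hfb hab hef hea heb he hL ?_ ?_ hrg hc0 hd0 hcd0 hcb hde) ef hR
  · refine ex_ok S hNU (QUB.wf_rm hp he) ?_ c1 o1 ee
    rw [gs_rm]
    exact Finset.mem_erase.2 ⟨hef.symm, hf⟩
  · refine ex_ok S hNU (QUB.wf_rm hp ha) ?_ c2 o2 ea
    rw [gs_rm]
    exact Finset.mem_erase.2 ⟨hea, he⟩

/-- **TT3**, `e` deleted, `e` rigid in `M \ f, a` -/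
theorem tt3_f4 (he : e ∈ gs p) (hef : e ≠ f) (hea : e ≠ a) (heb : e ≠ b)
    (ef : ∃ T, InVs S (rm true f p) T) (ea : ∃ T, InVs S (rm true a p) T) (ee : ∃ T, InVs S (rm true e p) T)
    (hR : HasRich S.r (rm true f p))
    (c1 : QUB.Cn S.r (rm true f (rm true e p))) (o1 : QUB.Ok S.r (rm true f (rm true e p)))
    (c2 : QUB.Cn S.r (rm true e (rm true a p))) (o2 : QUB.Ok S.r (rm true e (rm true a p)))
    (hrg : Rg S true e (rm true f (rm true a p)))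
    (hco : S.r (((p.2.erase a).erase f).erase e) = S.r ((p.2.erase a).erase f)) :
    ∃ T : Fm F4 E, InV S.U S.W p T ∧ ¬ EqD S.U S.W p T 0 := by
  refine h_of_ex S (t2d_ex' S (e := e) hp hf ha hb hfa hfb hab hef hea heb he hL ?_ ?_ hrg hco) ef hR
  · refine ex_ok S hNU (QUB.wf_rm hp he) ?_ c1 o1 ee
    rw [gs_rm]
    exact Finset.mem_erase.2 ⟨hef.symm, hf⟩
  · refine ex_ok S hNU (QUB.wf_rm hp ha) ?_ c2 o2 ea
    rw [gs_rm]
    exact Finset.mem_erase.2 ⟨hea, he⟩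

end

end Pool.Agent.QU
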