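import Pool.Agent.QUR.LkC
import Pool.Agent.QUN.Dul
import Pool.Agent.QUL.LDual

/-!
# QUR/Gf: the good element `f ≠ b` of a 3-connected rich box

`good_f`: `R` 3-connected, rich, at least six elements, `b ∈ R`. There is `f ≠ b` of some type such that `R_f` is rich and all its 2-separations
have a side with two elements which does not contain `b`.
-/

set_option autoImplicit false

open QUB

namespace Pool.Agent.QU

open Pool.Agent.FRM

section

variable {E : Type} [Fintype E] [DecidableEq E]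

private theorem gf_sub {p q : Itv E} (h : Sub q p) : Sub (QUB.dp q) (QUB.dp p) :=
  ⟨Finset.compl_subset_compl.2 h.2, Finset.compl_subset_compl.2 h.1⟩

theorem Lkd.dual (S : TP F4 E) {q : Itv E} (hq : q.1 ⊆ q.2) {P : Finset E} (h : Lkd S.r q P) : Lkd S.dual.r (QUB.dp q) P := by
  have hg : gs (QUB.dp q) = gs q := QUB.gs_dp q
  refine ⟨by rw [hg]; exact h.sub, ?_, ?_⟩
  · obtain ⟨N, h1, h2, h3⟩ := h.rich
    refine ⟨QUB.dp N, gf_sub h1, rich_dual S h2, ?_⟩
    rw [show gs (QUB.dp N) = gs N from QUB.gs_dp N]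
    exact h3
  · intro A hA hl
    rw [hg] at hA
    exact h.lk A hA ((QUB.lam_dp hq hA).symm.trans_le hl)

theorem Cls.dual (S : TP F4 E) {q : Itv E} (hq : q.1 ⊆ q.2) {P : Finset E} {y : E} {D : Finset E} (h : Cls S.r q P y D) :
    Cls S.dual.r (QUB.dp q) P y D := by
  have hg : gs (QUB.dp q) = gs q := QUB.gs_dp q
  refine ⟨by rw [hg]; exact h.sub, (QUB.lam_dp hq h.sub).trans_le h.lam, h.int, ?_⟩
  intro Z hZ hl hi
  rw [hg] at hZ
  exact h.mx Z hZ ((QUB.lam_dp hq hZ).symm.trans_le hl) hi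

/-- the hypotheses -/
structure Gx (S : TP F4 E) (R : Itv E) (b : E) (m : ℕ) : Prop where
  hR : R.1 ⊆ R.2
  hC : Cn S.r R
  h3 : Th3 S.r R
  hn : 6 ≤ (gs R).card
  hb : b ∈ gs R
  mx : MxP S.r R b m

private theorem gf_rm (t : Bool) (f : E) (R : Itv E) : QUB.rm (!t) f (QUB.dp R) = QUB.dp (QUB.rm t f R) := by
  have := QUB.rm_dp (!t) f R
  rwa [Bool.not_not] at this

theorem Gx.dual {S : TP F4 E} {R : Itv E} {b : E} {m : ℕ} (h : Gx S R b m) : Gx S.dual (QUB.dp R) b m := by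
  have hg : gs (QUB.dp R) = gs R := QUB.gs_dp R
  refine ⟨QUB.wf_dp h.hR, (QUB.cn_dp h.hR).2 h.hC, th3_dual S h.hR h.h3, by rw [hg]; exact h.hn, by rw [hg]; exact h.hb, ?_⟩
  intro f hf hfb t P hP
  rw [hg] at hf
  have e1 := gf_rm (!t) f R
  rw [Bool.not_not] at e1
  rw [e1] at hP
  have h1 := Lkd.dual S.dual (QUB.wf_dp (QUB.wf_rm h.hR hf)) hP
  have e2 : S.dual.dual.r = S.r := QUB.rd_rd S.rk
  rw [e2, QUB.dp_dp] at h1
  exact h.mx f hf hfb _ P h1

theorem TopD.dual {S : TP F4 E} {R : Itv E} {b : E} {m : ℕ} (hR : R.1 ⊆ R.2) {f : E} {t : Bool} {P : Finset E} {y : E} {D : Finset E}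
    (h : TopD S.r R b m f t P y D) : TopD S.dual.r (QUB.dp R) b m f (!t) P y D := by
  have hg : gs (QUB.dp R) = gs R := QUB.gs_dp R
  have wq := QUB.wf_rm (t := t) hR h.hf
  have e := gf_rm t f R
  exact ⟨by rw [hg]; exact h.hf, h.hfb, by rw [e]; exact h.lk.dual S wq, h.card, by rw [e]; exact h.cls.dual S wq, h.hb⟩

private theorem gf_back {S : TP F4 E} {R : Itv E} {b : E} {m : ℕ} (hR : R.1 ⊆ R.2) {f : E} {t : Bool} {P : Finset E} {y : E}
    {D : Finset E} (h : TopD S.dual.r (QUB.dp R) b m f t P y D) : TopD S.r R b m f (!t) P y D := by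
  have h1 := TopD.dual (S := S.dual) (QUB.wf_dp hR) h
  have e2 : S.dual.dual.r = S.r := QUB.rd_rd S.rk
  rw [e2, QUB.dp_dp] at h1
  exact h1

private theorem gf_ind {S : TP F4 E} {R : Itv E} {D : Finset E} (hD : D ⊆ gs R)
    (h : S.dual.r ((QUB.dp R).2 \ D) = S.dual.r (QUB.dp R).2) : S.r (R.1 ∪ D) = S.r R.1 + D.card := by
  have hDm : ∀ x ∈ D, x ∈ R.2 ∧ x ∉ R.1 := fun x hx => Finset.mem_sdiff.1 (hD hx)
  have h1 : QUB.rd S.r (R.1ᶜ \ D) = QUB.rd S.r R.1ᶜ := h
  unfold QUB.rd at h1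
  have e1 : (R.1ᶜ \ D)ᶜ = R.1 ∪ D := by
    ext x
    simp only [Finset.mem_compl, Finset.mem_sdiff, Finset.mem_union]
    tauto
  have hs : D ⊆ R.1ᶜ := fun x hx => Finset.mem_compl.2 (hDm x hx).2
  have c1 := Finset.card_sdiff_add_card_eq_card hs
  have c2 : ((R.1ᶜ \ D).card : ℤ) + D.card = R.1ᶜ.card := by exact_mod_cast c1
  rw [e1, compl_compl] at h1
  linarith

/-- a smaller class of `b` (`f` deleted) -/
theorem gf_step_true {S : TP F4 E} {R : Itv E} {b : E} {m : ℕ} (h : Gx S R b m) {f : E} {P : Finset E} {y : E} {D : Finset E}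
    (hT : TopD S.r R b m f true P y D) (h2 : 2 ≤ D.card) : ∃ f' t' P' y' D', TopD S.r R b m f' t' P' y' D' ∧ D'.card < D.card := by
  have hl := lkb_three S.rk h.hR h.hC h.h3 h.hn h.hb h.mx hT.hf hT.lk hT.card hT.cls h2
  have hDR : D ⊆ gs R := by
    have := hT.cls.sub
    rw [QUB.gs_rm] at this
    exact this.trans (Finset.erase_subset _ _)
  by_cases h3 : D.card = 3
  · obtain ⟨P', D', hT', hDD⟩ := lkc_three S.rk h.hR h.hC h.h3 h.hn h.hb h.mx hT h3
    refine ⟨f, false, P', b, D', hT', ?_⟩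
    have h4 := Finset.card_le_card hDD
    rcases lt_or_eq_of_le h4 with h5 | h5
    · exact h5
    · exfalso
      have e := Finset.eq_of_subset_of_card_le hDD h5.ge
      rw [e] at hT'
      have hTd := hT'.dual h.hR
      have hl' := lkb_three S.dual.rk h.dual.hR h.dual.hC h.dual.h3 h.dual.hn h.dual.hb h.dual.mx hTd.hf hTd.lk hTd.card hTd.cls h2
      have h6 := gf_ind hDR hl'.2.2.1
      have h7 := hl.2.1
      rw [h3] at h6
      push_cast at h6
      omega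
  · have h4 := hl.2.2.2.2.1
    obtain ⟨z, P', D', hT', hDD⟩ := lkc_pair S.rk h.hR h.hC h.h3 h.hn h.hb h.mx hT (by omega)
    exact ⟨z, false, P', b, D', hT', by omega⟩

theorem gf_step {S : TP F4 E} {R : Itv E} {b : E} {m : ℕ} (h : Gx S R b m) {f : E} {t : Bool} {P : Finset E} {y : E} {D : Finset E}
    (hT : TopD S.r R b m f t P y D) (h2 : 2 ≤ D.card) : ∃ f' t' P' y' D', TopD S.r R b m f' t' P' y' D' ∧ D'.card < D.card := by
  cases t
  · obtain ⟨f', t', P', y', D', h4, h5⟩ := gf_step_true h.dual (hT.dual h.hR) h2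
    exact ⟨f', !t', P', y', D', gf_back h.hR h4, h5⟩
  · exact gf_step_true h hT h2

/-- the size of a class -/
theorem gf_cls {S : TP F4 E} {R : Itv E} {b : E} {m : ℕ} (h : Gx S R b m) {f : E} {t : Bool} {P : Finset E} {y : E} {D : Finset E}
    (hf : f ∈ gs R) (hP : Lkd S.r (QUB.rm t f R) P) (hm : P.card = m) (hD : Cls S.r (QUB.rm t f R) P y D) (hbD : b ∉ D) : D.card ≤ 2 := by
  by_contra hcon
  push Not at hcon
  cases t
  · have e := gf_rm false f R
    have wq := QUB.wf_rm (t := false) h.hR hf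
    have hg : gs (QUB.dp R) = gs R := QUB.gs_dp R
    have hP' := hP.dual S wq
    have hD' := hD.dual S wq
    rw [← e] at hP' hD'
    have hl := lkb_three S.dual.rk h.dual.hR h.dual.hC h.dual.h3 h.dual.hn h.dual.hb h.dual.mx (by rw [hg]; exact hf) hP' hm hD' (by omega)
    exact hbD (hl.2.2.2.2.2 (by have := hl.2.2.2.2.1; omega)).1
  · have hl := lkb_three S.rk h.hR h.hC h.h3 h.hn h.hb h.mx hf hP hm hD (by omega)
    exact hbD (hl.2.2.2.2.2 (by have := hl.2.2.2.2.1; omega)).1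

/-- the good element -/
theorem good_f (S : TP F4 E) (hNU : NU S.r) {R : Itv E} (hR : R.1 ⊆ R.2) (hC : Cn S.r R) (h3 : Th3 S.r R) (hn : 6 ≤ (gs R).card)
    (hRi : HasRich S.r R) {b : E} (hb : b ∈ gs R) :
    ∃ f ∈ gs R, f ≠ b ∧ ∃ t : Bool, HasRich S.r (QUB.rm t f R) ∧ Cn S.r (QUB.rm t f R) ∧
      ∀ A ⊆ gs (QUB.rm t f R), QUB.lam S.r (QUB.rm t f R) A ≤ 1 → 2 ≤ A.card → 2 ≤ (gs (QUB.rm t f R) \ A).card →
        (A.card = 2 ∧ b ∉ A) ∨ ((gs (QUB.rm t f R) \ A).card = 2 ∧ b ∈ A) := by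
  classical
  -- a linked set of maximal size
  let Q : ℕ → Prop := fun n => ∃ f ∈ gs R, f ≠ b ∧ ∃ (t : Bool) (P : Finset E), Lkd S.r (QUB.rm t f R) P ∧ P.card = n
  obtain ⟨x, hx, hxb, t0, N, hN, hNr⟩ := rich_off S hNU hR h3 hn hRi b
  have hbd : ∀ n, Q n → n ≤ (gs R).card := by
    rintro n ⟨f, -, -, t, P, hP, rfl⟩
    refine Finset.card_le_card (hP.sub.trans ?_)
    rw [QUB.gs_rm]
    exact Finset.erase_subset _ _
  have hQ0 : Q (gs N).card := ⟨x, hx, hxb, t0, gs N, lkd_rich S.rk hN hNr, rfl⟩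
  have hQm : Q (Nat.findGreatest Q (gs R).card) := Nat.findGreatest_spec (hbd _ hQ0) hQ0
  set m := Nat.findGreatest Q (gs R).card with hm
  have hmx : MxP S.r R b m := by
    intro f hf hfb t P hP
    have hq : Q P.card := ⟨f, hf, hfb, t, P, hP, rfl⟩
    exact Nat.le_findGreatest (hbd _ hq) hq
  have hG : Gx S R b m := ⟨hR, hC, h3, hn, hb, hmx⟩
  have cnf : ∀ f ∈ gs R, ∀ t : Bool, Cn S.r (QUB.rm t f R) := fun f hf t => th3_cn S.rk hR hC h3 (by omega) hf t
  -- the class of `b`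
  have hex : ∃ n, ∃ f t P y D, TopD S.r R b m f t P y D ∧ D.card = n := by
    obtain ⟨f, hf, hfb, t, P, hP, hPm⟩ := hQm
    have hbq : b ∈ gs (QUB.rm t f R) := by
      rw [QUB.gs_rm]
      exact Finset.mem_erase.2 ⟨hfb.symm, hb⟩
    obtain ⟨y, hy, Z, hZ, hbZ, hZl, hZi⟩ := hP.cov S.rk (QUB.wf_rm hR hf) hPm (fun P' hP' => hmx f hf hfb t P' hP') hbq
    obtain ⟨D, hD⟩ := hP.cls S.rk (cnf f hf t) hy
    exact ⟨D.card, f, t, P, y, D, ⟨hf, hfb, hP, hPm, hD, hD.mx Z hZ hZl hZi hbZ⟩, rfl⟩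
  obtain ⟨f, t, P, y, D, hT, hDc⟩ := Nat.find_spec hex
  have hD1 : D.card ≤ 1 := by
    by_contra hcon
    push Not at hcon
    obtain ⟨f', t', P', y', D', hT', hlt⟩ := gf_step hG hT (by omega)
    rw [hDc] at hlt
    exact Nat.find_min hex hlt ⟨f', t', P', y', D', hT', rfl⟩
  have hDb : D = {b} := by
    refine Finset.eq_singleton_iff_unique_mem.2 ⟨hT.hb, fun z hz => ?_⟩
    exact Finset.card_le_one.1 hD1 z hz b hT.hb
  have hf := hT.hf
  have wq := QUB.wf_rm (t := t) hR hf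
  have hc := cnf f hf t
  refine ⟨f, hf, hT.hfb, t, hT.lk.hasRich, hc, ?_⟩
  -- light sides are classes with two elements
  have key : ∀ A ⊆ gs (QUB.rm t f R), QUB.lam S.r (QUB.rm t f R) A ≤ 1 → 2 ≤ A.card → (A ∩ P).card ≤ 1 → A.card = 2 ∧ b ∉ A := by
    intro A hA hl hA2 hAP
    obtain ⟨e, he⟩ := Finset.card_pos.1 (by omega : 0 < A.card)
    obtain ⟨w, hw, Z, hZ, heZ, hZl, hZi⟩ := hT.lk.cov S.rk wq hT.card (fun P' hP' => hmx f hf hT.hfb t P' hP') (hA he)
    -- the class which meets `A`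
    have hcls : ∃ w ∈ P, ∃ D', Cls S.r (QUB.rm t f R) P w D' ∧ A ⊆ D' ∧ (A ∩ P = ∅ → w ∉ A) := by
      rcases Nat.lt_or_ge 0 (A ∩ P).card with h0 | h0
      · obtain ⟨w', hw'⟩ := Finset.card_eq_one.1 (by omega : (A ∩ P).card = 1)
        have hw'A : w' ∈ A ∩ P := by rw [hw']; exact Finset.mem_singleton_self _
        obtain ⟨D', hD'⟩ := hT.lk.cls S.rk hc (Finset.mem_inter.1 hw'A).2
        refine ⟨w', (Finset.mem_inter.1 hw'A).2, D', hD', hD'.mx A hA hl hw', fun h => ?_⟩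
        rw [h] at hw'A
        exact absurd hw'A (Finset.notMem_empty _)
      · have hAe : A ∩ P = ∅ := Finset.card_eq_zero.1 (by omega)
        obtain ⟨D', hD'⟩ := hT.lk.cls S.rk hc hw
        have heD : e ∈ D' := hD'.mx Z hZ hZl hZi heZ
        have h1 := lam_sub (p := QUB.rm t f R) S.rk A D'
        have h2 : 1 ≤ QUB.lam S.r (QUB.rm t f R) (A ∩ D') := by
          refine hc _ (Finset.inter_subset_left.trans hA) ⟨e, Finset.mem_inter.2 ⟨he, heD⟩⟩ ⟨w, Finset.mem_sdiff.2 ⟨hT.lk.sub hw, ?_⟩⟩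
          intro h3
          have h4 : w ∈ A ∩ P := Finset.mem_inter.2 ⟨(Finset.mem_inter.1 h3).1, hw⟩
          rw [hAe] at h4
          exact absurd h4 (Finset.notMem_empty _)
        have h3 := hD'.lam
        have h4 : (A ∪ D') ∩ P = {w} := by
          rw [Finset.union_inter_distrib_right, hAe, hD'.int, Finset.empty_union]
        refine ⟨w, hw, D', hD', ?_, fun _ h5 => ?_⟩
        · exact Finset.subset_union_left.trans (hD'.mx _ (Finset.union_subset hA hD'.sub) (by omega) h4)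
        · have h6 : w ∈ A ∩ P := Finset.mem_inter.2 ⟨h5, hw⟩
          rw [hAe] at h6
          exact absurd h6 (Finset.notMem_empty _)
    obtain ⟨w', hw', D', hD', hAD, hAw⟩ := hcls
    have hbD' : b ∉ D' := by
      intro hbD'
      by_cases hyw : y = w'
      · rw [← hyw] at hD'
        have h1 := hT.cls.mx D' hD'.sub hD'.lam hD'.int
        have h2 := Finset.card_le_card (hAD.trans h1)
        omega
      · have h1 := hT.lk.dis S.rk hc hT.cls.sub hD'.sub hT.cls.lam hD'.lam hT.cls.int hD'.int hyw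
        have h2 : b ∈ D ∩ D' := Finset.mem_inter.2 ⟨hT.hb, hbD'⟩
        rw [h1] at h2
        exact absurd h2 (Finset.notMem_empty _)
    have h2 := gf_cls hG hf hT.lk hT.card hD' hbD'
    have h3 := Finset.card_le_card hAD
    exact ⟨by omega, fun h => hbD' (hAD h)⟩
  intro A hA hl hA2 hA2'
  rcases hT.lk.lk A hA hl with h1 | h1
  · exact Or.inl (key A hA hl hA2 h1)
  · right
    have h2 : (gs (QUB.rm t f R) \ A) ∩ P = P \ A := by
      ext z
      have k1 : z ∈ P → z ∈ gs (QUB.rm t f R) := fun h => hT.lk.sub h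
      rw [Finset.mem_inter, Finset.mem_sdiff, Finset.mem_sdiff]
      tauto
    have h3 := key _ Finset.sdiff_subset ((lam_compl (p := QUB.rm t f R) S.r wq hA).trans_le hl) hA2' (by rw [h2]; exact h1)
    refine ⟨h3.1, ?_⟩
    by_contra hbA
    refine h3.2 (Finset.mem_sdiff.2 ⟨?_, hbA⟩)
    rw [QUB.gs_rm]
    exact Finset.mem_erase.2 ⟨hT.hfb.symm, hb⟩

end

end Pool.Agent.QU
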