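import Pool.Agent.QUT.Csm

/-!
# QUR/GfD: linked sets (definitions for the good element)

`Lnk r q P`: every separation of `q` of order at most one has at most one element of `P` on one of its sides.
`Adm`, `GMax`: a removal `f` (not `b`) of `R` with a linked set `P` which contains a rich minor, `P` of maximal size over all of them.
`GCl`: a class of `P`: a maximal light set.
-/

set_option autoImplicit false

namespace Pool.Agent.QU

open QUB (Cn Ok Rk)
open Pool.Agent.FRM

variable {E : Type} [DecidableEq E]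

/-- every separation of order at most one has at most one element of `P` on one side -/
def Lnk (r : Finset E → ℤ) (q : Itv E) (P : Finset E) : Prop :=
  ∀ A ⊆ gs q, QUB.lam r q A ≤ 1 → (A ∩ P).card ≤ 1 ∨ (P \ A).card ≤ 1

/-- a removal `f ≠ b` of `R` and a linked set `P` of it which contains a rich minor -/
structure Adm (r : Finset E → ℤ) (R : Itv E) (b f : E) (t : Bool) (P : Finset E) : Prop where
  mf : f ∈ gs R
  fb : f ≠ b
  sub : P ⊆ gs (rm t f R)
  lnk : Lnk r (rm t f R) P
  rich : ∃ N, Sub N (rm t f R) ∧ Rich r N ∧ gs N ⊆ P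

/-- the linked set is of maximal size -/
structure GMax (r : Finset E → ℤ) (R : Itv E) (b f : E) (t : Bool) (P : Finset E) : Prop where
  adm : Adm r R b f t P
  max : ∀ f' t' P', Adm r R b f' t' P' → P'.card ≤ P.card

/-- a class of `P` in `K` -/
structure GCl (r : Finset E → ℤ) (K : Itv E) (P D : Finset E) : Prop where
  sub : D ⊆ gs K
  lam : QUB.lam r K D ≤ 1
  one : (D ∩ P).card = 1
  max : ∀ Z ⊆ gs K, QUB.lam r K Z ≤ 1 → (Z ∩ P).card ≤ 1 → (Z ∩ D).Nonempty → Z ⊆ D

/-- the good removals: one series or parallel pair which does not contain `b`, or none -/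
def GGood (r : Finset E → ℤ) (R : Itv E) (b f : E) (t : Bool) : Prop :=
  f ∈ gs R ∧ f ≠ b ∧ HasRich r (rm t f R) ∧ ∀ A ⊆ gs (rm t f R), QUB.lam r (rm t f R) A ≤ 1 → 2 ≤ A.card →
    2 ≤ (gs (rm t f R) \ A).card → (A.card = 2 ∧ b ∉ A) ∨ ((gs (rm t f R) \ A).card = 2 ∧ b ∈ A)

end Pool.Agent.QU
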