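import Pool.Agent.QUR.LkS

/-!
# QUR/LkA: classes of a linked set of maximal size

`R` 3-connected, `P` a linked set of `R_f` which is as large as possible (over all `f ≠ b`).  `lka_one`: if `z ≠ b` lies in a class `D` with at
least two elements and `R_f`, `z` removed, is connected, then `D - z` has order at most one in `R_z`.
-/

set_option autoImplicit false

open QUB

namespace Pool.Agent.QU

section

variable {E : Type} [DecidableEq E] {r : Finset E → ℤ}

/-- `m` bounds the size of the linked sets -/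
def MxP (r : Finset E → ℤ) (R : Itv E) (b : E) (m : ℕ) : Prop :=
  ∀ f ∈ gs R, f ≠ b → ∀ (t : Bool) (P : Finset E), Lkd r (QUB.rm t f R) P → P.card ≤ m

private theorem lka_S {A D Ds O S G : Finset E} (hS : S = O \ Ds) (hO : O = G \ D) (h : G \ S ⊆ D) (hx : O ∩ Ds ⊆ A) (hOG : O ⊆ G) :
    O ∩ Ds = ∅ := by
  rw [Finset.eq_empty_iff_forall_notMem]
  intro x hx
  have h1 := Finset.mem_inter.1 hx
  have h2 : x ∈ G \ S := by
    rw [hS]
    exact Finset.mem_sdiff.2 ⟨hOG h1.1, fun h => (Finset.mem_sdiff.1 h).2 h1.2⟩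
  have h3 := h1.1
  rw [hO] at h3
  exact (Finset.mem_sdiff.1 h3).2 (h h2)

theorem lka_one (hr : Rk r) {R : Itv E} (hR : R.1 ⊆ R.2) (hC : Cn r R) (h3 : Th3 r R) (hn : 6 ≤ (gs R).card) {b : E} {m : ℕ}
    (hM : MxP r R b m) {f : E} {t : Bool} {P : Finset E} (hf : f ∈ gs R) (hP : Lkd r (QUB.rm t f R) P) (hm : P.card = m) {y : E}
    {D : Finset E} (hD : Cls r (QUB.rm t f R) P y D) {z : E} (hz : z ∈ D) (hzb : z ≠ b) (h2 : 2 ≤ D.card) {s : Bool}
    (hc : Cn r (QUB.rm s z (QUB.rm t f R))) : QUB.lam r (QUB.rm s z R) (D.erase z) ≤ 1 := by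
  set q := QUB.rm t f R with hq
  set q2 := QUB.rm s z q with hq2
  set Rz := QUB.rm s z R with hRz
  have gq : gs q = (gs R).erase f := QUB.gs_rm t f R
  have gq2 : gs q2 = (gs q).erase z := QUB.gs_rm s z q
  have gRz : gs Rz = (gs R).erase z := QUB.gs_rm s z R
  have hzq : z ∈ gs q := hD.sub hz
  have hzR : z ∈ gs R := by
    rw [gq] at hzq
    exact (Finset.mem_erase.1 hzq).2
  have hzf : z ≠ f := by
    rw [gq] at hzq
    exact (Finset.mem_erase.1 hzq).1
  have wq : q.1 ⊆ q.2 := QUB.wf_rm hR hf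
  have wq2 : q2.1 ⊆ q2.2 := QUB.wf_rm wq hzq
  have wRz : Rz.1 ⊆ Rz.2 := QUB.wf_rm hR hzR
  have e2 : q2 = QUB.rm t f Rz := QUB.rm_comm s t R
  have hs2 : Sub q2 Rz := by
    rw [e2]
    exact rm_sub t f Rz
  have hcR : Cn r Rz := th3_cn hr hR hC h3 (by omega) hzR s
  set O := gs q \ D with hO
  have hOq : O ⊆ gs q := Finset.sdiff_subset
  have hzO : z ∉ O := fun h => (Finset.mem_sdiff.1 h).2 hz
  have hOq2 : O ⊆ gs q2 := by
    rw [gq2]
    exact fun x hx => Finset.mem_erase.2 ⟨fun h => hzO (h ▸ hx), hOq hx⟩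
  have eD : gs q \ O = D := by
    rw [hO]
    exact Finset.sdiff_sdiff_eq_self hD.sub
  have eD2 : gs q2 \ O = D.erase z := by
    ext x
    have k1 : x ∈ D → x ∈ gs q := fun h => hD.sub h
    simp only [gq2, hO, Finset.mem_sdiff, Finset.mem_erase]
    tauto
  have hlO : QUB.lam r q O ≤ 1 := by
    have k1 := lam_compl (p := q) r wq hD.sub
    rw [hO, k1]
    exact hD.lam
  have h5 := hP.five
  have hPD : P \ D = P ∩ O := by
    ext x
    have k1 : x ∈ P → x ∈ gs q := fun h => hP.sub h
    simp only [hO, Finset.mem_sdiff, Finset.mem_inter]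
    tauto
  have hPO : (P ∩ O).card + 1 = P.card := by
    have k1 := Finset.card_sdiff_add_card_inter P D
    rw [Finset.inter_comm, hD.int, Finset.card_singleton, hPD] at k1
    exact k1
  have hOn : 4 ≤ O.card := by
    have k1 := Finset.card_le_card (Finset.inter_subset_right (s₁ := P) (s₂ := O))
    omega
  have hD2n : (D.erase z).Nonempty := by
    rw [← Finset.card_pos, Finset.card_erase_of_mem hz]
    omega
  have hl2 : 1 ≤ QUB.lam r q2 O := hc O hOq2 (Finset.card_pos.1 (by omega)) (by rw [eD2]; exact hD2n)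
  obtain ⟨st1, st2⟩ := stab hr wq hOq hlO (y := z) (t := s) hzq hzO hl2
  obtain ⟨a, ha, hP2, hPc⟩ := lkd_swap hr wq wq2 hOq hOq2 hlO hl2 st1 st2 hP (by rw [eD]; exact hD.int)
  have hlam := lkd_lam wq wq2 hOq hOq2 st1 st2
  set P' := insert a (P ∩ O) with hP'
  rw [eD2] at ha
  have haO : a ∉ O := fun h => (Finset.mem_sdiff.1 h).2 (Finset.mem_of_mem_erase ha)
  have hP3 : Lkd r Rz P' := hP2.up hr hs2 wq2
  have hm3 : P'.card = m := hPc.trans hm
  have hmx : ∀ Q, Lkd r Rz Q → Q.card ≤ m := fun Q hQ => hM z hzR hzb s Q hQ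
  have h53 := hP3.five
  -- the class `D - z` of `q2`
  have iD2 : D.erase z ∩ P' = {a} := by
    ext x
    have k1 : x ∈ O → x ∉ D := fun h => (Finset.mem_sdiff.1 h).2
    have k2 : x = a → x ∈ D ∧ x ≠ z := fun h => h ▸ ⟨Finset.mem_of_mem_erase ha, Finset.ne_of_mem_erase ha⟩
    simp only [hP', Finset.mem_inter, Finset.mem_erase, Finset.mem_insert, Finset.mem_singleton]
    tauto
  have sD2 : D.erase z ⊆ gs q2 := by
    rw [← eD2]
    exact Finset.sdiff_subset
  have lD2 : QUB.lam r q2 (D.erase z) ≤ 1 := by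
    have k1 := lam_compl (p := q2) r wq2 hOq2
    rw [eD2] at k1
    rw [k1]
    exact (hlam O (Finset.Subset.refl _)).trans_le hlO
  have down : ∀ Z ⊆ gs Rz, QUB.lam r Rz Z ≤ 1 → ∀ w, Z ∩ P' = {w} →
      QUB.lam r q2 (Z ∩ gs q2) ≤ 1 ∧ Z ∩ gs q2 ∩ P' = {w} := by
    intro Z hZ hl w hw
    refine ⟨(lam_sub_le hr hs2 wq2 hZ).trans hl, ?_⟩
    rw [Finset.inter_assoc, Finset.inter_eq_right.2 hP2.sub, hw]
  -- the end
  have fin : ∀ F ⊆ insert f O, 2 ≤ F.card → 2 ≤ (gs R \ F).card → QUB.lam r Rz F ≤ 1 → QUB.lam r Rz (D.erase z) ≤ 1 := by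
    intro F hF hF2 hF2' hl
    have hB : insert f O ⊆ (gs R).erase z := by
      intro x hx
      rcases Finset.mem_insert.1 hx with h | h
      · rw [h]
        exact Finset.mem_erase.2 ⟨hzf.symm, hf⟩
      · refine Finset.mem_erase.2 ⟨fun h' => hzO (h' ▸ h), ?_⟩
        have := hOq h
        rw [gq] at this
        exact (Finset.mem_erase.1 this).2
    have k1 := h3 F (hF.trans (hB.trans (Finset.erase_subset _ _))) hF2 hF2'
    have k1' : 2 ≤ QUB.lam r R F := k1
    have k2 := lam_L3 hr (t := s) (x := z) hzR hF hB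
    have k3 : QUB.lam r R (insert f O) = QUB.lam r R D := by
      have e : gs R \ D = insert f O := by
        ext x
        have k1 : x ∈ D → x ∈ gs q := fun h => hD.sub h
        rw [gq, Finset.mem_erase] at k1
        have k2 : x = f → x ∈ gs R := fun h => h ▸ hf
        simp only [hO, gq, Finset.mem_sdiff, Finset.mem_erase, Finset.mem_insert]
        tauto
      rw [← e]
      refine lam_compl (p := R) r hR ?_
      have := hD.sub
      rw [gq] at this
      exact this.trans (Finset.erase_subset _ _)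
    have k4 := lam_le_rm hr (t := t) (x := f) (A := D) hf (by rw [← gq]; exact hD.sub)
    have k5 : QUB.lam r (QUB.rm t f R) D ≤ 1 := hD.lam
    have k6 : QUB.lam r Rz (D.erase z) = QUB.lam r Rz (insert f O) := by
      have e : gs Rz \ insert f O = D.erase z := by
        ext x
        have k1 : x ∈ D → x ∈ gs q := fun h => hD.sub h
        rw [gq, Finset.mem_erase] at k1
        simp only [hO, gq, gRz, Finset.mem_sdiff, Finset.mem_erase, Finset.mem_insert]
        tauto
      rw [← e]
      refine lam_compl (p := Rz) r wRz ?_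
      rw [gRz]
      exact hB
    have k7 : QUB.lam r R (insert f O) - QUB.lam r Rz (insert f O) ≥ QUB.lam r R F - QUB.lam r Rz F := k2
    rw [k6]
    omega
  obtain ⟨w, hwP, F, hFs, hfF, hFl, hFw⟩ := hP3.cov hr wRz hm3 hmx (e := f) (by rw [gRz]; exact Finset.mem_erase.2 ⟨hzf.symm, hf⟩)
  have hwF : w ∈ F := by
    have : w ∈ F ∩ P' := by rw [hFw]; exact Finset.mem_singleton_self w
    exact (Finset.mem_inter.1 this).1
  have hfP' : f ∉ P' := by
    intro h
    have := hP2.sub h
    rw [gq2, gq] at this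
    exact (Finset.mem_erase.1 (Finset.mem_erase.1 this).2).1 rfl
  by_cases hwa : w = a
  · -- `f` lies in the class of `a`
    obtain ⟨Ds, hDs⟩ := hP3.cls hr hcR (y := a) (Finset.mem_insert_self _ _)
    have d1 := down Ds hDs.sub hDs.lam a hDs.int
    have d2 := hP2.cup hr hc Finset.inter_subset_right d1.1 lD2 d1.2 iD2
    have hOD : O ∩ Ds = ∅ := by
      have hSs : O \ Ds ⊆ O := Finset.sdiff_subset
      have e3 : gs q2 \ (Ds ∩ gs q2 ∪ D.erase z) = O \ Ds := by
        ext x
        have k1 : x ∈ O → x ∈ gs q2 := fun h => hOq2 h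
        have k2 : x ∈ gs q2 \ O ↔ x ∈ D.erase z := by rw [eD2]
        have k3 : x ∈ O → x ∉ D.erase z := fun h h' => (Finset.mem_sdiff.1 (k2.2 h')).2 h
        rw [Finset.mem_sdiff] at k2
        rw [Finset.mem_sdiff, Finset.mem_union, Finset.mem_inter, Finset.mem_sdiff]
        tauto
      have k1 : QUB.lam r q2 (O \ Ds) ≤ 1 := by
        rw [← e3]
        rw [lam_compl (p := q2) r wq2 (Finset.union_subset Finset.inter_subset_right sD2)]
        exact d2.1
      rw [hlam _ hSs] at k1
      have k2 : QUB.lam r q (gs q \ (O \ Ds)) ≤ 1 := (lam_compl (p := q) r wq (hSs.trans hOq)).trans_le k1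
      have k3 : gs q \ (O \ Ds) ∩ P = {y} := by
        rw [← hD.int]
        ext x
        have m1 : x ∈ P → x ∈ gs q := fun h => hP.sub h
        have m2 : x ∈ Ds ∩ P' ↔ x = a := by rw [hDs.int]; exact Finset.mem_singleton
        have m3 : x ∈ P' ↔ x = a ∨ (x ∈ P ∧ x ∈ O) := by rw [hP', Finset.mem_insert, Finset.mem_inter]
        have m4 : x = a → x ∉ O := fun h => h ▸ haO
        have m5 : x ∈ O ↔ x ∈ gs q ∧ x ∉ D := Finset.mem_sdiff
        rw [Finset.mem_inter] at m2
        rw [Finset.mem_inter, Finset.mem_sdiff, Finset.mem_sdiff, Finset.mem_inter]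
        tauto
      have k4 := hD.mx _ Finset.sdiff_subset k2 k3
      exact lka_S (A := O ∩ Ds) rfl hO k4 (Finset.Subset.refl _) hOq
    have hDD : D.erase z ⊆ Ds := by
      intro e he
      have heR : e ∈ gs Rz := by
        have := sD2 he
        exact (Finset.sdiff_subset_sdiff hs2.2 hs2.1) this
      obtain ⟨w', -, Z, hZs, heZ, hZl, hZw⟩ := hP3.cov hr wRz hm3 hmx (e := e) heR
      by_cases hw' : w' = a
      · rw [hw'] at hZw
        exact hDs.mx Z hZs hZl hZw heZ
      · exfalso
        have d3 := down Z hZs hZl w' hZw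
        have d4 := hP2.dis hr hc Finset.inter_subset_right sD2 d3.1 lD2 d3.2 iD2 hw'
        have : e ∈ Z ∩ gs q2 ∩ D.erase z := Finset.mem_inter.2 ⟨Finset.mem_inter.2 ⟨heZ, sD2 he⟩, he⟩
        rw [d4] at this
        exact absurd this (Finset.notMem_empty e)
    have hfD : f ∈ Ds := by
      rw [hwa] at hFw
      exact hDs.mx F hFs hFl hFw hfF
    have e4 : gs Rz \ Ds = O := by
      ext x
      have k1 : x ∈ Ds → x ∈ O → False := fun h1 h2 => by
        have : x ∈ O ∩ Ds := Finset.mem_inter.2 ⟨h2, h1⟩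
        rw [hOD] at this
        exact absurd this (Finset.notMem_empty x)
      have k2 : x ∈ D.erase z → x ∈ Ds := fun h => hDD h
      have k3 : x = f → x ∈ Ds := fun h => h ▸ hfD
      have k4 : x ∈ O ↔ x ∈ gs q ∧ x ∉ D := Finset.mem_sdiff
      have k5 : x = z → x ∉ O := fun h => h ▸ hzO
      rw [gq, Finset.mem_erase] at k4
      rw [Finset.mem_erase] at k2
      rw [gRz, Finset.mem_sdiff, Finset.mem_erase]
      tauto
    refine fin O (Finset.subset_insert _ _) (by omega) ?_ ?_
    · have k1 : ({f, z} : Finset E) ⊆ gs R \ O := by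
        intro x hx
        rcases Finset.mem_insert.1 hx with h | h
        · rw [h]
          refine Finset.mem_sdiff.2 ⟨hf, fun h' => ?_⟩
          have := hOq h'
          rw [gq] at this
          exact (Finset.mem_erase.1 this).1 rfl
        · rw [Finset.mem_singleton.1 h]
          exact Finset.mem_sdiff.2 ⟨hzR, hzO⟩
      have k2 := Finset.card_le_card k1
      rwa [Finset.card_pair hzf.symm] at k2
    · rw [← e4]
      rw [lam_compl (p := Rz) r wRz hDs.sub]
      exact hDs.lam
  · -- `f` lies in another class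
    have d1 := down F hFs hFl w hFw
    have d4 := hP2.dis hr hc Finset.inter_subset_right sD2 d1.1 lD2 d1.2 iD2 hwa
    have hFO : F ⊆ insert f O := by
      intro x hx
      by_cases hxf : x = f
      · rw [hxf]
        exact Finset.mem_insert_self _ _
      · refine Finset.mem_insert_of_mem ?_
        have k1 := hFs hx
        rw [gRz] at k1
        have k2 := Finset.mem_erase.1 k1
        have k3 : x ∈ gs q2 := by
          rw [gq2, gq]
          exact Finset.mem_erase.2 ⟨k2.1, Finset.mem_erase.2 ⟨hxf, k2.2⟩⟩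
        by_contra hcon
        have k4 : x ∈ D.erase z := by
          rw [← eD2]
          exact Finset.mem_sdiff.2 ⟨k3, hcon⟩
        have : x ∈ F ∩ gs q2 ∩ D.erase z := Finset.mem_inter.2 ⟨Finset.mem_inter.2 ⟨hx, k3⟩, k4⟩
        rw [d4] at this
        exact absurd this (Finset.notMem_empty x)
    have hwf : w ≠ f := fun h => hfP' (h ▸ hwP)
    refine fin F hFO ?_ ?_ hFl
    · have k1 : ({f, w} : Finset E) ⊆ F := by
        intro x hx
        rcases Finset.mem_insert.1 hx with h | h
        · rw [h]; exact hfF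
        · rw [Finset.mem_singleton.1 h]; exact hwF
      have k2 := Finset.card_le_card k1
      rwa [Finset.card_pair hwf.symm] at k2
    · have k1 : P' \ F ⊆ gs R \ F := by
        intro x hx
        have k2 := Finset.mem_sdiff.1 hx
        have k3 := hP3.sub k2.1
        rw [gRz] at k3
        exact Finset.mem_sdiff.2 ⟨(Finset.mem_erase.1 k3).2, k2.2⟩
      have k2 := Finset.card_le_card k1
      have k3 := Finset.card_sdiff_add_card_inter P' F
      rw [Finset.inter_comm, hFw, Finset.card_singleton] at k3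
      omega

end

end Pool.Agent.QU
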