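import Pool.Agent.QUR.LkA

/-!
# QUR/LkB: the classes of a linked set of maximal size have at most three elements

`lkb_two`: removals of the type of `f` inside a class disconnect.  `lkb_three`: the ranks of a class (`f` deleted).
-/

set_option autoImplicit false

open QUB

namespace Pool.Agent.QU

section

variable {E : Type} [DecidableEq E] {r : Finset E → ℤ}

private theorem lkb_cl (hr : Rk r) {U : Finset E} (T : Finset E) (h : ∀ v ∈ T, r (insert v U) = r U) : r (U ∪ T) = r U := by
  induction T using Finset.induction_on with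
  | empty => rw [Finset.union_empty]
  | insert a s ha ih =>
    have h1 := ih fun v hv => h v (Finset.mem_insert_of_mem hv)
    have h2 := h a (Finset.mem_insert_self _ _)
    have h3 := QUB.marg hr (Finset.subset_union_left (s₁ := U) (s₂ := s)) a
    have h4 := hr.mono _ _ (Finset.subset_insert a (U ∪ s))
    rw [Finset.union_insert]
    omega

theorem lkb_two (hr : Rk r) {R : Itv E} (hR : R.1 ⊆ R.2) (hC : Cn r R) (h3 : Th3 r R) (hn : 6 ≤ (gs R).card) {b : E} {m : ℕ}
    (hM : MxP r R b m) {f : E} {t : Bool} {P : Finset E} (hf : f ∈ gs R) (hP : Lkd r (QUB.rm t f R) P) (hm : P.card = m) {y : E}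
    {D : Finset E} (hD : Cls r (QUB.rm t f R) P y D) {z : E} (hz : z ∈ D) (hzb : z ≠ b) (h2 : 2 ≤ D.card) :
    ¬ Cn r (QUB.rm t z (QUB.rm t f R)) := by
  intro hc
  have k0 := lka_one hr hR hC h3 hn hM hf hP hm hD hz hzb h2 hc
  have gq : gs (QUB.rm t f R) = (gs R).erase f := QUB.gs_rm t f R
  have hzq : z ∈ gs (QUB.rm t f R) := hD.sub hz
  have hzR : z ∈ gs R := by
    rw [gq] at hzq
    exact (Finset.mem_erase.1 hzq).2
  have hzf : z ≠ f := by
    rw [gq] at hzq
    exact (Finset.mem_erase.1 hzq).1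
  have hDR : D ⊆ gs R := by
    have := hD.sub
    rw [gq] at this
    exact this.trans (Finset.erase_subset _ _)
  have h5 := hP.five
  have hPD : (P \ D).card + 1 = P.card := by
    have k1 := Finset.card_sdiff_add_card_inter P D
    rw [Finset.inter_comm, hD.int, Finset.card_singleton] at k1
    exact k1
  set O := gs (QUB.rm t f R) \ D with hO
  have hPO : P \ D ⊆ O := Finset.sdiff_subset_sdiff hP.sub (Finset.Subset.refl _)
  have hOn : 4 ≤ O.card := by
    have k1 := Finset.card_le_card hPO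
    omega
  have hzO : z ∉ O := fun h => (Finset.mem_sdiff.1 h).2 hz
  have hfO : f ∉ O := by
    intro h
    have := (Finset.mem_sdiff.1 h).1
    rw [gq] at this
    exact (Finset.mem_erase.1 this).1 rfl
  have hOA : O ⊆ ((gs R).erase z).erase f := by
    intro x hx
    have k1 := (Finset.mem_sdiff.1 hx).1
    rw [gq] at k1
    have k2 := Finset.mem_erase.1 k1
    exact Finset.mem_erase.2 ⟨k2.1, Finset.mem_erase.2 ⟨fun h => hzO (h ▸ hx), k2.2⟩⟩
  have hcq : Cn r (QUB.rm t f R) := th3_cn hr hR hC h3 (by omega) hf t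
  have k1 : 1 ≤ QUB.lam r (QUB.rm t f R) {z} := by
    refine hcq.single hzq ?_
    rw [← Finset.card_pos, gq, Finset.card_erase_of_mem (Finset.mem_erase.2 ⟨hzf, hzR⟩), Finset.card_erase_of_mem hf]
    omega
  have k2 := lam_L6 hr hR (t := t) (w := z) (e := f) (A := O) hzR hf hzf.symm hOA k1
  have k3 : QUB.lam r R (insert f O) = QUB.lam r R D := by
    have e : gs R \ D = insert f O := by
      ext x
      have k2 : x = f → x ∈ gs R ∧ x ∉ D := fun h => h ▸ ⟨hf, fun h' => by
        have := hD.sub h'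
        rw [gq] at this
        exact (Finset.mem_erase.1 this).1 rfl⟩
      simp only [hO, gq, Finset.mem_sdiff, Finset.mem_erase, Finset.mem_insert]
      tauto
    rw [← e]
    exact lam_compl (p := R) r hR hDR
  have k4 : 2 ≤ QUB.lam r R D := by
    refine h3 D hDR h2 ?_
    have k5 : O ⊆ gs R \ D := Finset.sdiff_subset_sdiff (by rw [gq]; exact Finset.erase_subset _ _) (Finset.Subset.refl _)
    have k6 := Finset.card_le_card k5
    omega
  have k5 : QUB.lam r (QUB.rm t f R) O ≤ 1 :=
    (lam_compl (p := QUB.rm t f R) r (QUB.wf_rm hR hf) hD.sub).trans_le hD.lam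
  have wRz : (QUB.rm t z R).1 ⊆ (QUB.rm t z R).2 := QUB.wf_rm hR hzR
  have k6 : QUB.lam r (QUB.rm t z R) (insert f O) ≤ 1 := by
    have e : gs (QUB.rm t z R) \ D.erase z = insert f O := by
      ext x
      have k2 : x = f → x ∈ gs R ∧ x ∉ D ∧ x ≠ z := fun h => h ▸ ⟨hf, fun h' => by
        have := hD.sub h'
        rw [gq] at this
        exact (Finset.mem_erase.1 this).1 rfl, hzf.symm⟩
      have k3 : x = z → x ∈ D := fun h => h ▸ hz
      simp only [hO, gq, QUB.gs_rm, Finset.mem_sdiff, Finset.mem_erase, Finset.mem_insert]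
      tauto
    rw [← e]
    refine (lam_compl (p := QUB.rm t z R) r wRz ?_).trans_le k0
    intro x hx
    rw [QUB.gs_rm]
    have k7 := Finset.mem_erase.1 hx
    exact Finset.mem_erase.2 ⟨k7.1, hDR k7.2⟩
  have k7 : 1 ≤ QUB.lam r (QUB.rm t z (QUB.rm t f R)) O := by
    refine hc O ?_ (Finset.card_pos.1 (by omega)) ?_
    · rw [QUB.gs_rm, QUB.gs_rm]
      intro x hx
      have k8 := Finset.mem_erase.1 (hOA hx)
      have k9 := Finset.mem_erase.1 k8.2
      exact Finset.mem_erase.2 ⟨k9.1, Finset.mem_erase.2 ⟨k8.1, k9.2⟩⟩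
    · obtain ⟨x, hx, hxz⟩ := Finset.exists_mem_ne (by omega : 1 < D.card) z
      refine ⟨x, Finset.mem_sdiff.2 ⟨?_, fun h => (Finset.mem_sdiff.1 h).2 hx⟩⟩
      rw [QUB.gs_rm]
      exact Finset.mem_erase.2 ⟨hxz, hD.sub hx⟩
  rw [k3] at k2
  have k8 : QUB.lam r R D + QUB.lam r (QUB.rm t z (QUB.rm t f R)) O ≤
      QUB.lam r (QUB.rm t z R) (insert f O) + QUB.lam r (QUB.rm t f R) O := k2
  omega

private theorem lkb_e1 {K D : Finset E} {z : E} (hz : z ∈ D) : insert z K ∪ D.erase z = K ∪ D := by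
  ext w
  have k3 : w = z → w ∈ D := fun h => h ▸ hz
  simp only [Finset.mem_union, Finset.mem_insert, Finset.mem_erase]
  tauto

private theorem lkb_e2 {G D : Finset E} {z : E} (hz : z ∈ D) (hzG : z ∈ G) : G \ D.erase z = insert z (G \ D) := by
  ext w
  have k3 : w = z → w ∈ D ∧ w ∈ G := fun h => h ▸ ⟨hz, hzG⟩
  simp only [Finset.mem_sdiff, Finset.mem_insert, Finset.mem_erase]
  tauto

private theorem lkb_e3 {G D : Finset E} {f : E} (hf : f ∉ D) (hfG : f ∈ G) : insert f (G.erase f \ D) = G \ D := by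
  ext w
  have k3 : w = f → w ∉ D ∧ w ∈ G := fun h => h ▸ ⟨hf, hfG⟩
  simp only [Finset.mem_sdiff, Finset.mem_insert, Finset.mem_erase]
  tauto

private theorem lkb_e4 {G D S : Finset E} {z : E} (hD : D ⊆ G) : D.erase z ∩ (G.erase z \ S) = D.erase z \ S := by
  ext w
  have k1 : w ∈ D → w ∈ G := fun h => hD h
  simp only [Finset.mem_inter, Finset.mem_sdiff, Finset.mem_erase]
  tauto

private theorem lkb_e5 {K W S : Finset E} (h : K ⊆ W) (h' : ∀ w ∈ S, w ∉ K) :
    (K ∪ (S ∩ W)) ∪ (W \ S) = W ∧ (K ∪ (S ∩ W)) ∩ (W \ S) = K := by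
  constructor
  · ext w
    have k1 : w ∈ K → w ∈ W := fun h1 => h h1
    rw [Finset.mem_union, Finset.mem_union, Finset.mem_inter, Finset.mem_sdiff]
    tauto
  · ext w
    have k1 : w ∈ K → w ∈ W := fun h1 => h h1
    have k2 := h' w
    rw [Finset.mem_inter, Finset.mem_union, Finset.mem_inter, Finset.mem_sdiff]
    tauto

/-- a separation of `q \ z`, `z` on the line `D` -/
private theorem lkb_sep (hr : Rk r) {q : Itv E} (hq : q.1 ⊆ q.2) (hc : Cn r q) {D : Finset E} (hD : D ⊆ gs q) (hDr : r (q.1 ∪ D) ≤ r q.1 + 2)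
    (hi : ∀ x ∈ D, ∀ y ∈ D, x ≠ y → r (insert x (insert y q.1)) = r q.1 + 2) {z : E} (hz : z ∈ D) {S : Finset E}
    (hS : S ⊆ gs (QUB.rm true z q)) (hSn : (gs (QUB.rm true z q) \ S).Nonempty) (hl : QUB.lam r (QUB.rm true z q) S ≤ 0) :
    (D.erase z ∩ S).card ≤ 1 := by
  by_contra hcon
  push Not at hcon
  obtain ⟨x, hx, y, hy, hxy⟩ := Finset.one_lt_card.1 hcon
  have hx' := Finset.mem_inter.1 hx
  have hy' := Finset.mem_inter.1 hy
  have hzq : z ∈ gs q := hD hz
  have hzq' := Finset.mem_sdiff.1 hzq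
  have k1 := hi x (Finset.mem_of_mem_erase hx'.1) y (Finset.mem_of_mem_erase hy'.1) hxy
  have s1 : insert x (insert y q.1) ⊆ q.1 ∪ S := by
    intro w hw
    rcases Finset.mem_insert.1 hw with h | h
    · rw [h]; exact Finset.mem_union_right _ hx'.2
    · rcases Finset.mem_insert.1 h with h | h
      · rw [h]; exact Finset.mem_union_right _ hy'.2
      · exact Finset.mem_union_left _ h
  have s2 : insert z (insert x (insert y q.1)) ⊆ q.1 ∪ D := by
    intro w hw
    rcases Finset.mem_insert.1 hw with h | h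
    · rw [h]; exact Finset.mem_union_right _ hz
    rcases Finset.mem_insert.1 h with h | h
    · rw [h]; exact Finset.mem_union_right _ (Finset.mem_of_mem_erase hx'.1)
    · rcases Finset.mem_insert.1 h with h | h
      · rw [h]; exact Finset.mem_union_right _ (Finset.mem_of_mem_erase hy'.1)
      · exact Finset.mem_union_left _ h
  have k2 := hr.mono _ _ s2
  have k3 := QUB.marg hr s1 z
  have k4 := hr.mono _ _ (Finset.subset_insert z (q.1 ∪ S))
  have k5 : r (insert z (q.1 ∪ S)) = r (q.1 ∪ S) := by omega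
  have hzS : z ∉ S := by
    intro h
    have := hS h
    rw [QUB.gs_rm] at this
    exact (Finset.mem_erase.1 this).1 rfl
  have hSq : S ⊆ gs q := by
    rw [QUB.gs_rm] at hS
    exact hS.trans (Finset.erase_subset _ _)
  have k6 : 1 ≤ QUB.lam r q (insert z S) := by
    refine hc _ (Finset.insert_subset hzq hSq) ⟨z, Finset.mem_insert_self _ _⟩ ?_
    obtain ⟨w, hw⟩ := hSn
    have h1 := Finset.mem_sdiff.1 hw
    rw [QUB.gs_rm] at h1
    refine ⟨w, Finset.mem_sdiff.2 ⟨Finset.mem_of_mem_erase h1.1, fun h => ?_⟩⟩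
    rcases Finset.mem_insert.1 h with h | h
    · exact (Finset.mem_erase.1 h1.1).1 h
    · exact h1.2 h
  have k7 : QUB.lam r q (insert z S) = r (q.1 ∪ insert z S) + r (q.2 \ insert z S) - r q.2 - r q.1 := rfl
  have k8 : QUB.lam r (QUB.rm true z q) S = r (q.1 ∪ S) + r (q.2.erase z \ S) - r (q.2.erase z) - r q.1 := rfl
  have e1 : q.1 ∪ insert z S = insert z (q.1 ∪ S) := Finset.union_insert _ _ _
  have e2 : q.2 \ insert z S = q.2.erase z \ S := by
    ext w
    simp only [Finset.mem_sdiff, Finset.mem_insert, Finset.mem_erase]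
    tauto
  have k9 := hr.mono _ _ (Finset.erase_subset z q.2)
  rw [e1, e2, k5] at k7
  omega

theorem lkb_three (hr : Rk r) {R : Itv E} (hR : R.1 ⊆ R.2) (hC : Cn r R) (h3 : Th3 r R) (hn : 6 ≤ (gs R).card) {b : E} {m : ℕ}
    (hb : b ∈ gs R)
    (hM : MxP r R b m) {f : E} {P : Finset E} (hf : f ∈ gs R) (hP : Lkd r (QUB.rm true f R) P) (hm : P.card = m) {y : E}
    {D : Finset E} (hD : Cls r (QUB.rm true f R) P y D) (h2 : 2 ≤ D.card) :
    (∀ z ∈ D, z ≠ b → Cn r (QUB.rm false z (QUB.rm true f R))) ∧ r (R.1 ∪ D) = r R.1 + 2 ∧ r (R.2 \ D) = r R.2 ∧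
      r (R.2.erase f \ D) = r R.2 - 1 ∧ D.card ≤ 3 ∧
      (D.card = 3 → b ∈ D ∧ r (insert b (R.2.erase f \ D)) = r (R.2.erase f \ D)) := by
  have gq : gs (QUB.rm true f R) = (gs R).erase f := QUB.gs_rm true f R
  have wq : (QUB.rm true f R).1 ⊆ (QUB.rm true f R).2 := QUB.wf_rm hR hf
  have hcq : Cn r (QUB.rm true f R) := th3_cn hr hR hC h3 (by omega) hf true
  have hDR : D ⊆ gs R := by
    have := hD.sub
    rw [gq] at this
    exact this.trans (Finset.erase_subset _ _)
  have hfD : f ∉ D := by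
    intro h
    have := hD.sub h
    rw [gq] at this
    exact (Finset.mem_erase.1 this).1 rfl
  have hDm : ∀ x ∈ D, x ∈ R.2 ∧ x ∉ R.1 := fun x hx => Finset.mem_sdiff.1 (hDR hx)
  have hfm := Finset.mem_sdiff.1 hf
  have hbm := Finset.mem_sdiff.1 hb
  have h5 := hP.five
  have hPD : (P \ D).card + 1 = P.card := by
    have k1 := Finset.card_sdiff_add_card_inter P D
    rw [Finset.inter_comm, hD.int, Finset.card_singleton] at k1
    exact k1
  have hOn : 5 ≤ (gs R \ D).card := by
    have k1 : insert f (P \ D) ⊆ gs R \ D := by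
      intro x hx
      rcases Finset.mem_insert.1 hx with h | h
      · rw [h]; exact Finset.mem_sdiff.2 ⟨hf, hfD⟩
      · have h' := Finset.mem_sdiff.1 h
        have := hP.sub h'.1
        rw [gq] at this
        exact Finset.mem_sdiff.2 ⟨Finset.mem_of_mem_erase this, h'.2⟩
    have k2 := Finset.card_le_card k1
    have k3 : f ∉ P \ D := by
      intro h
      have := hP.sub (Finset.mem_sdiff.1 h).1
      rw [gq] at this
      exact (Finset.mem_erase.1 this).1 rfl
    rw [Finset.card_insert_of_notMem k3] at k2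
    omega
  -- connectivity
  have hcz : ∀ z ∈ D, z ≠ b → ¬ Cn r (QUB.rm true z (QUB.rm true f R)) := fun z hz hzb =>
    lkb_two hr hR hC h3 hn hM hf hP hm hD hz hzb h2
  have hcz' : ∀ z ∈ D, z ≠ b → Cn r (QUB.rm false z (QUB.rm true f R)) := fun z hz hzb =>
    (QUB.tutte hr wq (hD.sub hz) hcq).resolve_left (hcz z hz hzb)
  -- single elements
  have hsingle : ∀ x ∈ gs R, r (insert x R.1) = r R.1 + 1 ∧ r (R.2.erase x) = r R.2 := by
    intro x hx
    have k1 : 1 ≤ QUB.lam r R {x} := by
      refine hC.single hx ?_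
      rw [← Finset.card_pos, Finset.card_erase_of_mem hx]
      omega
    have k2 : QUB.lam r R {x} = r (R.1 ∪ {x}) + r (R.2 \ {x}) - r R.2 - r R.1 := rfl
    have e1 : R.1 ∪ {x} = insert x R.1 := by rw [Finset.union_comm]; rfl
    have e2 : R.2 \ {x} = R.2.erase x := Finset.sdiff_singleton_eq_erase x R.2
    rw [e1, e2] at k2
    have k3 := hr.unit R.1 x
    have k4 := hr.mono _ _ (Finset.erase_subset x R.2)
    constructor <;> omega
  have hpair : ∀ x ∈ gs R, ∀ y ∈ gs R, x ≠ y → r (insert x (insert y R.1)) = r R.1 + 2 := by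
    intro x hx y hy hxy
    have hs : ({x, y} : Finset E) ⊆ gs R := by
      intro w hw
      rcases Finset.mem_insert.1 hw with h | h
      · rw [h]; exact hx
      · rw [Finset.mem_singleton.1 h]; exact hy
    have k1 : 2 ≤ QUB.lam r R {x, y} := by
      refine h3 _ hs (Finset.card_pair hxy).ge ?_
      have k2 := Finset.card_sdiff_add_card_eq_card hs
      rw [Finset.card_pair hxy] at k2
      omega
    have k2 : QUB.lam r R {x, y} = r (R.1 ∪ {x, y}) + r (R.2 \ {x, y}) - r R.2 - r R.1 := rfl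
    have e1 : R.1 ∪ {x, y} = insert x (insert y R.1) := by
      rw [Finset.union_insert, Finset.union_comm]
      rfl
    rw [e1] at k2
    have k3 := hr.unit R.1 y
    have k4 := hr.unit (insert y R.1) x
    have k5 := hr.mono _ _ (Finset.sdiff_subset (s := R.2) (t := {x, y}))
    omega
  have hlD : 2 ≤ QUB.lam r R D := h3 D hDR h2 (by omega)
  have hlD' : QUB.lam r R D = r (R.1 ∪ D) + r (R.2 \ D) - r R.2 - r R.1 := rfl
  -- the elements of `D` other than `b` are spanned by the rest
  have hz1 : ∀ z ∈ D, z ≠ b → r (insert z (R.2 \ D)) = r (R.2 \ D) ∧ r (R.1 ∪ D) + r (R.2 \ D) = r R.2 + r R.1 + 2 := by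
    intro z hz hzb
    have k1 := lka_one hr hR hC h3 hn hM hf hP hm hD hz hzb h2 (hcz' z hz hzb)
    have k2 : QUB.lam r (QUB.rm false z R) (D.erase z) =
      r (insert z R.1 ∪ D.erase z) + r (R.2 \ D.erase z) - r R.2 - r (insert z R.1) := rfl
    have e1 : insert z R.1 ∪ D.erase z = R.1 ∪ D := lkb_e1 hz
    have e2 : R.2 \ D.erase z = insert z (R.2 \ D) := lkb_e2 hz (hDm z hz).1
    rw [e1, e2, (hsingle z (hDR hz)).1] at k2
    have k3 := hr.mono _ _ (Finset.subset_insert z (R.2 \ D))
    constructor <;> omega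
  obtain ⟨z0, hz0, hz0b⟩ := Finset.exists_mem_ne (by omega : 1 < D.card) b
  have hU : r (R.2 \ D) = r R.2 := by
    have k1 := lkb_cl hr (U := R.2 \ D) (D.erase b) fun v hv => (hz1 v (Finset.mem_of_mem_erase hv) (Finset.ne_of_mem_erase hv)).1
    have k2 : R.2.erase b ⊆ R.2 \ D ∪ D.erase b := by
      intro x hx
      have h1 := Finset.mem_erase.1 hx
      by_cases hxD : x ∈ D
      · exact Finset.mem_union_right _ (Finset.mem_erase.2 ⟨h1.1, hxD⟩)
      · exact Finset.mem_union_left _ (Finset.mem_sdiff.2 ⟨h1.2, hxD⟩)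
    have k3 := hr.mono _ _ k2
    have k4 := (hsingle b hb).2
    have k5 := hr.mono _ _ (Finset.sdiff_subset (s := R.2) (t := D))
    omega
  have hD2 : r (R.1 ∪ D) = r R.1 + 2 := by
    have := (hz1 z0 hz0 hz0b).2
    omega
  have hq2 := (hsingle f hf).2
  have hW : r (R.2.erase f \ D) = r R.2 - 1 := by
    have k1 : QUB.lam r (QUB.rm true f R) D = r (R.1 ∪ D) + r (R.2.erase f \ D) - r (R.2.erase f) - r R.1 := rfl
    have k2 := hD.lam
    have k3 := hr.unit (R.2.erase f \ D) f
    have e1 : insert f (R.2.erase f \ D) = R.2 \ D := lkb_e3 hfD hfm.1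
    rw [e1] at k3
    omega
  set W := R.2.erase f \ D with hWd
  -- two elements of `D` are not both spanned by `W`
  have htwo : ∀ x ∈ D, ∀ y ∈ D, x ≠ y → r (insert x W) = r W → r (insert y W) = r W → False := by
    intro x hx y hy hxy hxW hyW
    have k1 := lkb_cl hr (U := W) {x, y} fun v hv => by
      rcases Finset.mem_insert.1 hv with h | h
      · rw [h]; exact hxW
      · rw [Finset.mem_singleton.1 h]; exact hyW
    have s1 : R.1 ⊆ W := by
      intro w hw
      have h1 : w ≠ f := fun h => hfm.2 (h ▸ hw)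
      exact Finset.mem_sdiff.2 ⟨Finset.mem_erase.2 ⟨h1, hR hw⟩, fun h => (hDm w h).2 hw⟩
    -- every element of `D` is spanned by `x, y`
    have k2 := lkb_cl hr (U := W ∪ {x, y}) D fun v hv => by
      have s2 : insert x (insert y R.1) ⊆ W ∪ {x, y} := by
        intro w hw
        rcases Finset.mem_insert.1 hw with h | h
        · rw [h]; exact Finset.mem_union_right _ (Finset.mem_insert_self _ _)
        rcases Finset.mem_insert.1 h with h | h
        · rw [h]; exact Finset.mem_union_right _ (Finset.mem_insert_of_mem (Finset.mem_singleton_self _))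
        · exact Finset.mem_union_left _ (s1 h)
      have s3 : insert v (insert x (insert y R.1)) ⊆ R.1 ∪ D := by
        intro w hw
        rcases Finset.mem_insert.1 hw with h | h
        · rw [h]; exact Finset.mem_union_right _ hv
        rcases Finset.mem_insert.1 h with h | h
        · rw [h]; exact Finset.mem_union_right _ hx
        rcases Finset.mem_insert.1 h with h | h
        · rw [h]; exact Finset.mem_union_right _ hy
        · exact Finset.mem_union_left _ h
      have k3 := hr.mono _ _ s3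
      have k4 := QUB.marg hr s2 v
      have k5 := hpair x (hDR hx) y (hDR hy) hxy
      have k6 := hr.mono _ _ (Finset.subset_insert v (W ∪ {x, y}))
      omega
    have s4 : R.2.erase f ⊆ W ∪ {x, y} ∪ D := by
      intro w hw
      by_cases hwD : w ∈ D
      · exact Finset.mem_union_right _ hwD
      · exact Finset.mem_union_left _ (Finset.mem_union_left _ (Finset.mem_sdiff.2 ⟨hw, hwD⟩))
    have k3 := hr.mono _ _ s4
    omega
  -- the separation of `q \ z`
  have hsep : ∀ z ∈ D, z ≠ b → 3 ≤ D.card → D.card = 3 ∧ ∃ x ∈ D, x ≠ z ∧ r (insert x W) = r W := by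
    intro z hz hzb hD3
    have hnc := hcz z hz hzb
    unfold QUB.Cn at hnc
    push Not at hnc
    obtain ⟨S, hS, hSn, hSn', hSl⟩ := hnc
    set q := QUB.rm true f R with hq
    have hl0 : QUB.lam r (QUB.rm true z q) S ≤ 0 := by omega
    have wq2 : (QUB.rm true z q).1 ⊆ (QUB.rm true z q).2 := QUB.wf_rm wq (hD.sub hz)
    have hi : ∀ x ∈ D, ∀ y ∈ D, x ≠ y → r (insert x (insert y q.1)) = r q.1 + 2 := fun x hx y hy hxy =>
      hpair x (hDR hx) y (hDR hy) hxy
    have c1 := lkb_sep hr wq hcq hD.sub (by show r (R.1 ∪ D) ≤ r R.1 + 2; omega) hi hz hS hSn' hl0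
    have hS' : gs (QUB.rm true z q) \ S ⊆ gs (QUB.rm true z q) := Finset.sdiff_subset
    have c2 := lkb_sep hr wq hcq hD.sub (by show r (R.1 ∪ D) ≤ r R.1 + 2; omega) hi hz hS'
      (by rw [Finset.sdiff_sdiff_eq_self hS]; exact hSn)
      ((lam_compl (p := QUB.rm true z q) r wq2 hS).trans_le hl0)
    have c3 : D.erase z ∩ (gs (QUB.rm true z q) \ S) = D.erase z \ S := by
      rw [QUB.gs_rm]
      exact lkb_e4 hD.sub
    rw [c3] at c2
    have c4 := Finset.card_sdiff_add_card_inter (D.erase z) S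
    rw [Finset.card_erase_of_mem hz] at c4
    have c5 : D.card = 3 := by omega
    refine ⟨c5, ?_⟩
    obtain ⟨z1, hz1'⟩ := Finset.card_eq_one.1 (by omega : (D.erase z ∩ S).card = 1)
    obtain ⟨z2, hz2'⟩ := Finset.card_eq_one.1 (by omega : (D.erase z \ S).card = 1)
    have m1 : z1 ∈ D.erase z ∩ S := by rw [hz1']; exact Finset.mem_singleton_self _
    have m2 : z2 ∈ D.erase z \ S := by rw [hz2']; exact Finset.mem_singleton_self _
    have m1' := Finset.mem_inter.1 m1
    have m2' := Finset.mem_sdiff.1 m2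
    have m1'' := Finset.mem_erase.1 m1'.1
    have m2'' := Finset.mem_erase.1 m2'.1
    by_contra hcon
    push Not at hcon
    have n1 : r (insert z1 W) = r W + 1 := by
      have k1 := hcon z1 m1''.2 m1''.1
      have k2 := hr.unit W z1
      have k3 := hr.mono _ _ (Finset.subset_insert z1 W)
      omega
    have n2 : r (insert z2 W) = r W + 1 := by
      have k1 := hcon z2 m2''.2 m2''.1
      have k2 := hr.unit W z2
      have k3 := hr.mono _ _ (Finset.subset_insert z2 W)
      omega
    have hDz : ∀ w ∈ D, w = z ∨ w = z1 ∨ w = z2 := by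
      intro w hw
      by_cases hwz : w = z
      · exact Or.inl hwz
      · right
        by_cases hwS : w ∈ S
        · left
          have : w ∈ D.erase z ∩ S := Finset.mem_inter.2 ⟨Finset.mem_erase.2 ⟨hwz, hw⟩, hwS⟩
          rw [hz1'] at this
          exact Finset.mem_singleton.1 this
        · right
          have : w ∈ D.erase z \ S := Finset.mem_sdiff.2 ⟨Finset.mem_erase.2 ⟨hwz, hw⟩, hwS⟩
          rw [hz2'] at this
          exact Finset.mem_singleton.1 this
    have hSs : ∀ w ∈ S, w ∈ R.2 ∧ w ∉ R.1 ∧ w ≠ f ∧ w ≠ z := by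
      intro w hw
      have h1 := hS hw
      rw [QUB.gs_rm, gq] at h1
      have h2 := Finset.mem_erase.1 h1
      have h3 := Finset.mem_erase.1 h2.2
      have h4 := Finset.mem_sdiff.1 h3.2
      exact ⟨h4.1, h4.2, h3.1, h2.1⟩
    have hl1 : QUB.lam r (QUB.rm true z q) S =
      r (R.1 ∪ S) + r ((R.2.erase f).erase z \ S) - r ((R.2.erase f).erase z) - r R.1 := rfl
    have b1 : insert z1 (R.1 ∪ (S ∩ W)) ⊆ R.1 ∪ S := by
      intro w hw
      rcases Finset.mem_insert.1 hw with h | h
      · rw [h]; exact Finset.mem_union_right _ m1'.2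
      · rcases Finset.mem_union.1 h with h | h
        · exact Finset.mem_union_left _ h
        · exact Finset.mem_union_right _ (Finset.mem_inter.1 h).1
    have b2 : insert z2 (W \ S) ⊆ (R.2.erase f).erase z \ S := by
      intro w hw
      rcases Finset.mem_insert.1 hw with h | h
      · rw [h]
        refine Finset.mem_sdiff.2 ⟨Finset.mem_erase.2 ⟨m2''.1, Finset.mem_erase.2 ⟨fun h' => hfD (h' ▸ m2''.2), (hDm z2 m2''.2).1⟩⟩, m2'.2⟩
      · have h1 := Finset.mem_sdiff.1 h
        have h2 := Finset.mem_sdiff.1 h1.1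
        exact Finset.mem_sdiff.2 ⟨Finset.mem_erase.2 ⟨fun h' => h2.2 (h' ▸ hz), h2.1⟩, h1.2⟩
    have s1 : R.1 ⊆ W := by
      intro w hw
      have h1 : w ≠ f := fun h => hfm.2 (h ▸ hw)
      exact Finset.mem_sdiff.2 ⟨Finset.mem_erase.2 ⟨h1, hR hw⟩, fun h => (hDm w h).2 hw⟩
    have a1 := hr.mono _ _ b1
    have a2 := hr.mono _ _ b2
    have a3 := QUB.marg hr (Finset.union_subset s1 (Finset.inter_subset_right (s₁ := S) (s₂ := W))) z1
    have a4 := QUB.marg hr (Finset.sdiff_subset (s := W) (t := S)) z2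
    have a5 := hr.sub (R.1 ∪ (S ∩ W)) (W \ S)
    obtain ⟨e5, e6⟩ := lkb_e5 (S := S) s1 (fun w hw => (hSs w hw).2.1)
    rw [e5, e6] at a5
    have a6 := hr.mono _ _ (Finset.erase_subset z (R.2.erase f))
    omega
  refine ⟨hcz', hD2, hU, hW, ?_, ?_⟩
  · by_contra hcon
    have := (hsep z0 hz0 hz0b (by omega)).1
    omega
  · intro hD3
    have hbD : b ∈ D := by
      by_contra hbD
      obtain ⟨-, x, hx, hxz, hxW⟩ := hsep z0 hz0 hz0b (by omega)
      obtain ⟨-, x', hx', hxz', hxW'⟩ := hsep x hx (fun h => hbD (h ▸ hx)) (by omega)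
      exact htwo x hx x' hx' hxz'.symm hxW hxW'
    refine ⟨hbD, ?_⟩
    by_contra hcon
    obtain ⟨-, x, hx, hxz, hxW⟩ := hsep z0 hz0 hz0b (by omega)
    have hxb : x ≠ b := fun h => hcon (h ▸ hxW)
    obtain ⟨-, x', hx', hxz', hxW'⟩ := hsep x hx hxb (by omega)
    exact htwo x hx x' hx' hxz'.symm hxW hxW'

end

end Pool.Agent.QU
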