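import Pool.Agent.QUR.LkB

/-!
# QUR/LkC: exchange steps

`TopD`: a linked set of maximal size with the class `D` of `b`.  `lkc_true`: if `D` has at least two elements and `f` is deleted, there is another
pair with a smaller class of `b` (`D = {b, z}`: contract `z`; `D = {b, z1, z2}`: contract `f`).
-/

set_option autoImplicit false

open QUB

namespace Pool.Agent.QU

open Pool.Agent.FRM

section

variable {E : Type} [DecidableEq E] {r : Finset E → ℤ}

/-- a linked set of maximal size with the class of `b` -/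
structure TopD (r : Finset E → ℤ) (R : Itv E) (b : E) (m : ℕ) (f : E) (t : Bool) (P : Finset E) (y : E) (D : Finset E) : Prop where
  hf : f ∈ gs R
  hfb : f ≠ b
  lk : Lkd r (QUB.rm t f R) P
  card : P.card = m
  cls : Cls r (QUB.rm t f R) P y D
  hb : b ∈ D

theorem lkc_out {q q2 Rz : Itv E} {O P P' D D2 Ds : Finset E} {y a : E} (wq : q.1 ⊆ q.2) (wq2 : q2.1 ⊆ q2.2)
    (hO : O = gs q \ D) (hD : Cls r q P y D) (hPs : P ⊆ gs q) (hlam : ∀ A ⊆ O, QUB.lam r q2 A = QUB.lam r q A) (hOq2 : O ⊆ gs q2)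
    (eD2 : gs q2 \ O = D2) (hP' : P' = insert a (P ∩ O)) (haD2 : a ∈ D2) (_hDs : Ds ⊆ gs Rz) (hi : Ds ∩ P' = {a})
    (hcup : QUB.lam r q2 (Ds ∩ gs q2 ∪ D2) ≤ 1) : O ∩ Ds = ∅ := by
  have hOq : O ⊆ gs q := by
    rw [hO]
    exact Finset.sdiff_subset
  have hSs : O \ Ds ⊆ O := Finset.sdiff_subset
  have sD2 : D2 ⊆ gs q2 := by
    rw [← eD2]
    exact Finset.sdiff_subset
  have haO : a ∉ O := by
    rw [← eD2] at haD2
    exact (Finset.mem_sdiff.1 haD2).2
  have e3 : gs q2 \ (Ds ∩ gs q2 ∪ D2) = O \ Ds := by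
    ext x
    have k1 : x ∈ O → x ∈ gs q2 := fun h => hOq2 h
    have k2 : x ∈ gs q2 \ O ↔ x ∈ D2 := by rw [eD2]
    rw [Finset.mem_sdiff] at k2
    rw [Finset.mem_sdiff, Finset.mem_union, Finset.mem_inter, Finset.mem_sdiff]
    tauto
  have k1 : QUB.lam r q2 (O \ Ds) ≤ 1 := by
    rw [← e3]
    rw [lam_compl (p := q2) r wq2 (Finset.union_subset Finset.inter_subset_right sD2)]
    exact hcup
  rw [hlam _ hSs] at k1
  have k2 : QUB.lam r q (gs q \ (O \ Ds)) ≤ 1 := (lam_compl (p := q) r wq (hSs.trans hOq)).trans_le k1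
  have k3 : gs q \ (O \ Ds) ∩ P = {y} := by
    rw [← hD.int]
    ext x
    have m1 : x ∈ P → x ∈ gs q := fun h => hPs h
    have m2 : x ∈ Ds ∩ P' ↔ x = a := by rw [hi]; exact Finset.mem_singleton
    have m3 : x ∈ P' ↔ x = a ∨ (x ∈ P ∧ x ∈ O) := by rw [hP', Finset.mem_insert, Finset.mem_inter]
    have m4 : x = a → x ∉ O := fun h => h ▸ haO
    have m5 : x ∈ O ↔ x ∈ gs q ∧ x ∉ D := by rw [hO]; exact Finset.mem_sdiff
    rw [Finset.mem_inter] at m2
    rw [Finset.mem_inter, Finset.mem_sdiff, Finset.mem_sdiff, Finset.mem_inter]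
    tauto
  have k4 := hD.mx _ Finset.sdiff_subset k2 k3
  rw [Finset.eq_empty_iff_forall_notMem]
  intro x hx
  have h1 := Finset.mem_inter.1 hx
  have h2 : x ∈ gs q \ (O \ Ds) := Finset.mem_sdiff.2 ⟨hOq h1.1, fun h => (Finset.mem_sdiff.1 h).2 h1.2⟩
  have h3 := h1.1
  rw [hO] at h3
  exact (Finset.mem_sdiff.1 h3).2 (k4 h2)

private theorem lkc_sets {G D : Finset E} {z f : E} (hD : D ⊆ G.erase f) :
    (G.erase f).erase z \ (G.erase f \ D) = D.erase z := by
  ext x
  have k1 : x ∈ D → x ∈ G.erase f := fun h => hD h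
  rw [Finset.mem_erase] at k1
  simp only [Finset.mem_sdiff, Finset.mem_erase]
  tauto

private theorem lkc_s {R : Itv E} {D : Finset E} {f : E} (hR : R.1 ⊆ R.2) (hf : f ∈ gs R) (hD : D ⊆ gs R) (hfD : f ∉ D) :
    R.1 ∪ ((gs R).erase f \ D) = R.2.erase f \ D ∧ R.2.erase f \ ((gs R).erase f \ D) = R.1 ∪ D := by
  have hfm := Finset.mem_sdiff.1 hf
  constructor
  · ext x
    have k1 : x ∈ R.1 → x ∈ R.2 := fun h => hR h
    have k2 : x ∈ R.1 → x ≠ f := fun h h' => hfm.2 (h' ▸ h)
    have k3 : x ∈ D → x ∉ R.1 := fun h => (Finset.mem_sdiff.1 (hD h)).2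
    simp only [QUB.gs, Finset.mem_union, Finset.mem_sdiff, Finset.mem_erase]
    tauto
  · ext x
    have k1 : x ∈ R.1 → x ∈ R.2 := fun h => hR h
    have k2 : x ∈ R.1 → x ≠ f := fun h h' => hfm.2 (h' ▸ h)
    have k3 : x ∈ D → x ∈ R.2 ∧ x ∉ R.1 := fun h => Finset.mem_sdiff.1 (hD h)
    have k5 : x = f → x ∉ D := fun h => h ▸ hfD
    simp only [QUB.gs, Finset.mem_union, Finset.mem_sdiff, Finset.mem_erase]
    tauto

/-- `D = {b, z}` -/
theorem lkc_pair (hr : Rk r) {R : Itv E} (hR : R.1 ⊆ R.2) (hC : Cn r R) (h3 : Th3 r R) (hn : 6 ≤ (gs R).card) {b : E} {m : ℕ}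
    (hb : b ∈ gs R) (hM : MxP r R b m) {f : E} {P : Finset E} {y : E} {D : Finset E} (hT : TopD r R b m f true P y D)
    (h2 : D.card = 2) : ∃ z P' D', TopD r R b m z false P' b D' ∧ D'.card < 2 := by
  obtain ⟨hcz, hD2, -, hW, -, -⟩ := lkb_three hr hR hC h3 hn hb hM hT.hf hT.lk hT.card hT.cls h2.ge
  obtain ⟨z, hz, hzb⟩ := Finset.exists_mem_ne (by omega : 1 < D.card) b
  have hf := hT.hf
  have hfb := hT.hfb
  have hP := hT.lk
  have hD := hT.cls
  have hbD := hT.hb
  have hc := hcz z hz hzb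
  have eDz : D.erase z = {b} := by
    have k1 : (D.erase z).card = 1 := by rw [Finset.card_erase_of_mem hz, h2]
    obtain ⟨w, hw⟩ := Finset.card_eq_one.1 k1
    have k2 : b ∈ D.erase z := Finset.mem_erase.2 ⟨hzb.symm, hbD⟩
    rw [hw] at k2 ⊢
    rw [Finset.mem_singleton.1 k2]
  have eD' : D = {b, z} := by
    rw [← Finset.insert_erase hz, eDz, Finset.pair_comm]
  set q := QUB.rm true f R with hq
  set q2 := QUB.rm false z q with hq2
  set Rz := QUB.rm false z R with hRz
  have gq : gs q = (gs R).erase f := QUB.gs_rm true f R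
  have gq2 : gs q2 = (gs q).erase z := QUB.gs_rm false z q
  have gRz : gs Rz = (gs R).erase z := QUB.gs_rm false z R
  have hzq : z ∈ gs q := hD.sub hz
  have hzR : z ∈ gs R := by
    rw [gq] at hzq
    exact (Finset.mem_erase.1 hzq).2
  have hzf : z ≠ f := by
    rw [gq] at hzq
    exact (Finset.mem_erase.1 hzq).1
  have wq : q.1 ⊆ q.2 := QUB.wf_rm hR hf
  have wq2 : q2.1 ⊆ q2.2 := QUB.wf_rm wq hzq
  have wRz : Rz.1 ⊆ Rz.2 := QUB.wf_rm hR hzR
  have e2 : q2 = QUB.rm true f Rz := QUB.rm_comm false true R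
  have hs2 : Sub q2 Rz := by
    rw [e2]
    exact rm_sub true f Rz
  have hcR : Cn r Rz := th3_cn hr hR hC h3 (by omega) hzR false
  set O := gs q \ D with hO
  have hOq : O ⊆ gs q := Finset.sdiff_subset
  have hzO : z ∉ O := fun h => (Finset.mem_sdiff.1 h).2 hz
  have hOq2 : O ⊆ gs q2 := by
    rw [gq2]
    exact fun x hx => Finset.mem_erase.2 ⟨fun h => hzO (h ▸ hx), hOq hx⟩
  have eD : gs q \ O = D := by
    rw [hO]
    exact Finset.sdiff_sdiff_eq_self hD.sub
  have eD2 : gs q2 \ O = {b} := by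
    rw [← eDz, gq2, hO, gq]
    exact lkc_sets (by rw [← gq]; exact hD.sub)
  have hlO : QUB.lam r q O ≤ 1 := by
    have k1 := lam_compl (p := q) r wq hD.sub
    rw [hO, k1]
    exact hD.lam
  have h5 := hP.five
  have hPD : (P \ D).card + 1 = P.card := by
    have k1 := Finset.card_sdiff_add_card_inter P D
    rw [Finset.inter_comm, hD.int, Finset.card_singleton] at k1
    exact k1
  have hOn : 4 ≤ O.card := by
    have k1 := Finset.card_le_card (Finset.sdiff_subset_sdiff hP.sub (Finset.Subset.refl D))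
    have k2 : (gs (QUB.rm true f R) \ D).card = O.card := rfl
    have k3 : (P \ D).card ≤ O.card := k1
    omega
  have hl2 : 1 ≤ QUB.lam r q2 O := hc O hOq2 (Finset.card_pos.1 (by omega)) (by rw [eD2]; exact ⟨b, Finset.mem_singleton_self b⟩)
  obtain ⟨st1, st2⟩ := stab hr wq hOq hlO (y := z) (t := false) hzq hzO hl2
  obtain ⟨a, ha, hP2, hPc⟩ := lkd_swap hr wq wq2 hOq hOq2 hlO hl2 st1 st2 hP (by rw [eD]; exact hD.int)
  have hlam := lkd_lam wq wq2 hOq hOq2 st1 st2
  rw [eD2, Finset.mem_singleton] at ha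
  subst ha
  set P' := insert a (P ∩ O) with hP'
  have hP3 : Lkd r Rz P' := hP2.up hr hs2 wq2
  have haO : a ∉ O := by
    intro h
    have : a ∈ gs q2 \ O := by rw [eD2]; exact Finset.mem_singleton_self a
    exact (Finset.mem_sdiff.1 this).2 h
  obtain ⟨Ds, hDs⟩ := hP3.cls hr hcR (y := a) (Finset.mem_insert_self _ _)
  refine ⟨z, P', Ds, ⟨hzR, hzb, hP3, hPc.trans hT.card, hDs, hDs.mem.1⟩, ?_⟩
  have l1 : QUB.lam r q2 (Ds ∩ gs q2) ≤ 1 := (lam_sub_le hr hs2 wq2 hDs.sub).trans hDs.lam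
  have haq2 : a ∈ gs q2 := by
    have : a ∈ gs q2 \ O := by rw [eD2]; exact Finset.mem_singleton_self a
    exact (Finset.mem_sdiff.1 this).1
  have hcup : QUB.lam r q2 (Ds ∩ gs q2 ∪ {a}) ≤ 1 := by
    rw [Finset.union_eq_left.2 (Finset.singleton_subset_iff.2 (Finset.mem_inter.2 ⟨hDs.mem.1, haq2⟩))]
    exact l1
  have hout := lkc_out (Rz := Rz) wq wq2 hO hD hP.sub hlam hOq2 eD2 hP' (Finset.mem_singleton_self a) hDs.sub hDs.int hcup
  -- `Ds ⊆ {a, f}`
  have hDsub : ∀ x ∈ Ds, x = a ∨ x = f := by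
    intro x hx
    by_cases hxf : x = f
    · exact Or.inr hxf
    · left
      have k1 := hDs.sub hx
      rw [gRz] at k1
      have k2 := Finset.mem_erase.1 k1
      by_contra hxa
      have k3 : x ∈ O := by
        rw [hO, gq]
        refine Finset.mem_sdiff.2 ⟨Finset.mem_erase.2 ⟨hxf, k2.2⟩, fun h => ?_⟩
        rw [eD'] at h
        rcases Finset.mem_insert.1 h with h | h
        · exact hxa h
        · exact k2.1 (Finset.mem_singleton.1 h)
      have : x ∈ O ∩ Ds := Finset.mem_inter.2 ⟨k3, hx⟩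
      rw [hout] at this
      exact absurd this (Finset.notMem_empty x)
  -- `f ∉ Ds`
  have hfDs : f ∉ Ds := by
    intro hfDs
    have eDs : Ds = {a, f} := by
      ext x
      rw [Finset.mem_insert, Finset.mem_singleton]
      constructor
      · exact hDsub x
      · rintro (h | h)
        · rw [h]; exact hDs.mem.1
        · rw [h]; exact hfDs
    have hl := hDs.lam
    rw [eDs] at hl
    have l2 : QUB.lam r Rz {a, f} = r (insert z R.1 ∪ {a, f}) + r (R.2 \ {a, f}) - r R.2 - r (insert z R.1) := rfl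
    have haR : a ∈ gs R := hb
    have hpair : 2 ≤ QUB.lam r R {a, f} := by
      have hs : ({a, f} : Finset E) ⊆ gs R := by
        intro w hw
        rcases Finset.mem_insert.1 hw with h | h
        · rw [h]; exact haR
        · rw [Finset.mem_singleton.1 h]; exact hf
      refine h3 _ hs (Finset.card_pair hfb.symm).ge ?_
      have k2 := Finset.card_sdiff_add_card_eq_card hs
      rw [Finset.card_pair hfb.symm] at k2
      omega
    have l3 : QUB.lam r R {a, f} = r (R.1 ∪ {a, f}) + r (R.2 \ {a, f}) - r R.2 - r R.1 := rfl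
    have l4 : r (R.1 ∪ {a, f}) ≤ r R.1 + 2 := by
      have e1 : R.1 ∪ {a, f} = insert a (insert f R.1) := by
        rw [Finset.union_insert, Finset.union_comm]
        rfl
      rw [e1]
      have k1 := hr.unit R.1 f
      have k2 := hr.unit (insert f R.1) a
      omega
    have l5 := hr.unit R.1 z
    have hs3 : ({a, z, f} : Finset E) ⊆ gs R := by
      intro w hw
      rcases Finset.mem_insert.1 hw with h | h
      · rw [h]; exact haR
      rcases Finset.mem_insert.1 h with h | h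
      · rw [h]; exact hzR
      · rw [Finset.mem_singleton.1 h]; exact hf
    have hc3 : ({a, z, f} : Finset E).card = 3 := by
      rw [Finset.card_insert_of_notMem, Finset.card_pair hzf]
      rw [Finset.mem_insert, Finset.mem_singleton]
      rintro (h | h)
      · exact hzb h.symm
      · exact hfb h.symm
    have l6 : 2 ≤ QUB.lam r R {a, z, f} := by
      refine h3 _ hs3 (by omega) ?_
      have k2 := Finset.card_sdiff_add_card_eq_card hs3
      omega
    have l7 : QUB.lam r R {a, z, f} = r (R.1 ∪ {a, z, f}) + r (R.2 \ {a, z, f}) - r R.2 - r R.1 := rfl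
    have e3 : R.1 ∪ {a, z, f} = insert z R.1 ∪ {a, f} := by
      ext x
      simp only [Finset.mem_union, Finset.mem_insert, Finset.mem_singleton]
      tauto
    have e4 : R.2 \ {a, z, f} = R.2.erase f \ D := by
      rw [eD']
      ext x
      simp only [Finset.mem_sdiff, Finset.mem_insert, Finset.mem_singleton, Finset.mem_erase]
      tauto
    rw [e3, e4, hW] at l7
    omega
  have eDs : Ds ⊆ {a} := by
    intro x hx
    rcases hDsub x hx with h | h
    · exact Finset.mem_singleton.2 h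
    · exact absurd (h ▸ hx) hfDs
  have := Finset.card_le_card eDs
  rw [Finset.card_singleton] at this
  omega

/-- `D = {b, z1, z2}` -/
theorem lkc_three (hr : Rk r) {R : Itv E} (hR : R.1 ⊆ R.2) (hC : Cn r R) (h3 : Th3 r R) (hn : 6 ≤ (gs R).card) {b : E} {m : ℕ}
    (hb : b ∈ gs R) (hM : MxP r R b m) {f : E} {P : Finset E} {y : E} {D : Finset E} (hT : TopD r R b m f true P y D)
    (h2 : D.card = 3) : ∃ P' D', TopD r R b m f false P' b D' ∧ D' ⊆ D := by
  obtain ⟨-, hD2, hU, hW, -, hD3⟩ := lkb_three hr hR hC h3 hn hb hM hT.hf hT.lk hT.card hT.cls (by omega)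
  obtain ⟨-, hbW⟩ := hD3 h2
  have hf := hT.hf
  have hfb := hT.hfb
  have hP := hT.lk
  have hD := hT.cls
  have hbD := hT.hb
  set q := QUB.rm true f R with hq
  have gq : gs q = (gs R).erase f := QUB.gs_rm true f R
  have wq : q.1 ⊆ q.2 := QUB.wf_rm hR hf
  have hfm := Finset.mem_sdiff.1 hf
  have hbm := Finset.mem_sdiff.1 hb
  have hfD : f ∉ D := by
    intro h
    have := hD.sub h
    rw [gq] at this
    exact (Finset.mem_erase.1 this).1 rfl
  have hDR : D ⊆ gs R := by
    have := hD.sub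
    rw [gq] at this
    exact this.trans (Finset.erase_subset _ _)
  set O := gs q \ D with hO
  have hOq : O ⊆ gs q := Finset.sdiff_subset
  have hOR : ∀ x ∈ O, x ∈ R.2 ∧ x ∉ R.1 ∧ x ≠ f ∧ x ∉ D := by
    intro x hx
    have k1 := Finset.mem_sdiff.1 hx
    rw [gq] at k1
    have k2 := Finset.mem_erase.1 k1.1
    have k3 := Finset.mem_sdiff.1 k2.2
    exact ⟨k3.1, k3.2, k2.1, k1.2⟩
  have eD : gs q \ O = D := by
    rw [hO]
    exact Finset.sdiff_sdiff_eq_self hD.sub
  have hlO : QUB.lam r q O ≤ 1 := by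
    have k1 := lam_compl (p := q) r wq hD.sub
    rw [hO, k1]
    exact hD.lam
  set W := R.2.erase f \ D with hWd
  have eO : O = (gs R).erase f \ D := by rw [hO, gq]
  have eW : R.1 ∪ O = W := by
    rw [eO]
    exact (lkc_s hR hf hDR hfD).1
  have hfW : r (insert f W) = r W + 1 := by
    have e1 : insert f W = R.2 \ D := by
      ext w
      have k3 : w = f → w ∉ D ∧ w ∈ R.2 := fun h => h ▸ ⟨hfD, hfm.1⟩
      simp only [hWd, Finset.mem_sdiff, Finset.mem_insert, Finset.mem_erase]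
      tauto
    rw [e1, hU, hW]
    ring
  have hbO : b ∉ O := fun h => (hOR b h).2.2.2 hbD
  have hfO : f ∉ O := fun h => (hOR f h).2.2.1 rfl
  -- `f` is independent of subsets of `W + b`
  have hfA : ∀ A ⊆ O, r (insert f (R.1 ∪ A)) = r (R.1 ∪ A) + 1 := by
    intro A hA
    have k1 : R.1 ∪ A ⊆ W := by
      rw [← eW]
      exact Finset.union_subset_union_right hA
    have k2 := QUB.marg hr k1 f
    have k3 := hr.unit (R.1 ∪ A) f
    omega
  have hfbW : r (insert f (insert b W)) = r (insert b W) + 1 := by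
    have k1 := QUB.marg hr (Finset.subset_insert f W) b
    have k2 := hr.mono _ _ (Finset.subset_insert b (insert f W))
    have k3 : insert f (insert b W) = insert b (insert f W) := Finset.insert_comm _ _ _
    rw [k3]
    omega
  have hfA2 : ∀ A ⊆ O, r (insert f (insert b (R.1 ∪ A))) = r (insert b (R.1 ∪ A)) + 1 := by
    intro A hA
    have k1 : insert b (R.1 ∪ A) ⊆ insert b W := by
      rw [← eW]
      exact Finset.insert_subset_insert _ (Finset.union_subset_union_right hA)
    have k2 := QUB.marg hr k1 f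
    have k3 := hr.unit (insert b (R.1 ∪ A)) f
    omega
  have hb1 : r (insert b R.1) = r R.1 + 1 := by
    have k1 : 1 ≤ QUB.lam r R {b} := by
      refine hC.single hb ?_
      rw [← Finset.card_pos, Finset.card_erase_of_mem hb]
      omega
    have k2 : QUB.lam r R {b} = r (R.1 ∪ {b}) + r (R.2 \ {b}) - r R.2 - r R.1 := rfl
    have e1 : R.1 ∪ {b} = insert b R.1 := by rw [Finset.union_comm]; rfl
    rw [e1] at k2
    have k3 := hr.unit R.1 b
    have k4 := hr.mono _ _ (Finset.sdiff_subset (s := R.2) (t := {b}))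
    omega
  -- the new box
  set q2 : Itv E := (insert f R.1, insert b (insert f (R.1 ∪ O))) with hq2
  have wq2 : q2.1 ⊆ q2.2 := by
    show insert f R.1 ⊆ insert b (insert f (R.1 ∪ O))
    exact (Finset.insert_subset_insert _ Finset.subset_union_left).trans (Finset.subset_insert _ _)
  have gq2 : gs q2 = insert b O := by
    ext x
    have k1 : x ∈ O → x ∉ R.1 ∧ x ≠ f := fun h => ⟨(hOR x h).2.1, (hOR x h).2.2.1⟩
    have k2 : x = b → x ∉ R.1 ∧ x ≠ f := fun h => h ▸ ⟨hbm.2, hfb.symm⟩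
    show x ∈ insert b (insert f (R.1 ∪ O)) \ insert f R.1 ↔ x ∈ insert b O
    simp only [Finset.mem_sdiff, Finset.mem_insert, Finset.mem_union]
    tauto
  have hOq2 : O ⊆ gs q2 := by
    rw [gq2]
    exact Finset.subset_insert _ _
  have eD2 : gs q2 \ O = {b} := by
    rw [gq2]
    ext x
    have k1 : x = b → x ∉ O := fun h => h ▸ hbO
    rw [Finset.mem_sdiff, Finset.mem_insert, Finset.mem_singleton]
    tauto
  have hlq : r (R.1 ∪ D) + r (R.1 ∪ O) - r (R.1 ∪ D ∪ O) - r R.1 ≤ 1 := by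
    have k1 : QUB.lam r q O = r (R.1 ∪ O) + r (q.2 \ O) - r q.2 - r R.1 := rfl
    have e1 : q.2 \ O = R.1 ∪ D := by
      rw [eO]
      exact (lkc_s hR hf hDR hfD).2
    have e2 : R.1 ∪ D ∪ O = q.2 := by
      rw [← e1]
      refine Finset.sdiff_union_of_subset ?_
      exact hOq.trans Finset.sdiff_subset
    rw [e1] at k1
    rw [e2]
    omega
  have hWr : r (R.1 ∪ O) = r R.2 - 1 := by rw [eW, hW]
  have st1 : ∀ A ⊆ O, r (q2.1 ∪ A) - r q2.1 = r (q.1 ∪ A) - r q.1 := by
    intro A hA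
    have k1 := hfA A hA
    have k2 := hfA ∅ (Finset.empty_subset _)
    rw [Finset.union_empty] at k2
    show r (insert f R.1 ∪ A) - r (insert f R.1) = r (R.1 ∪ A) - r R.1
    rw [Finset.insert_union]
    omega
  have hdich := lks_dich hr (K := R.1) (D := R.1 ∪ D) (O := O) (C := insert b R.1) (O' := O) Finset.subset_union_left
    (Finset.subset_insert _ _) (Finset.insert_subset (Finset.mem_union_right _ hbD) Finset.subset_union_left) (Finset.Subset.refl _)
    (by
      intro x hx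
      have k1 := Finset.mem_inter.1 hx
      rcases Finset.mem_union.1 k1.1 with h | h
      · exact h
      · exact absurd h (hOR x k1.2).2.2.2) hlq
  have hbWO : r (insert b R.1 ∪ O) = r (R.1 ∪ O) := by
    rw [Finset.insert_union, eW]
    exact hbW
  have st2' : ∀ A ⊆ O, r (insert b R.1 ∪ A) - r (insert b R.1) = r (R.1 ∪ D ∪ A) - r (R.1 ∪ D) := by
    rcases hdich with h | h
    · exfalso
      have := h.2
      omega
    · exact h.1
  have st2 : ∀ A ⊆ O, r (q2.1 ∪ (gs q2 \ O) ∪ A) - r (q2.1 ∪ (gs q2 \ O)) = r (q.1 ∪ (gs q \ O) ∪ A) - r (q.1 ∪ (gs q \ O)) := by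
    intro A hA
    have k1 := hfA2 A hA
    have k2 := hfA2 ∅ (Finset.empty_subset _)
    rw [Finset.union_empty] at k2
    have k3 := st2' A hA
    rw [Finset.insert_union] at k3
    rw [eD2, eD]
    have e1 : q2.1 ∪ {b} = insert f (insert b R.1) := by
      show insert f R.1 ∪ {b} = _
      rw [Finset.union_comm, Finset.insert_comm]
      rfl
    rw [e1, Finset.insert_union, Finset.insert_union]
    show r (insert f (insert b (R.1 ∪ A))) - r (insert f (insert b R.1)) = r (R.1 ∪ D ∪ A) - r (R.1 ∪ D)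
    omega
  have hl2 : 1 ≤ QUB.lam r q2 O := by
    have k1 : QUB.lam r q2 O = r (insert f R.1 ∪ O) + r (insert b (insert f (R.1 ∪ O)) \ O) -
      r (insert b (insert f (R.1 ∪ O))) - r (insert f R.1) := rfl
    have e1 : insert b (insert f (R.1 ∪ O)) \ O = insert f (insert b R.1) := by
      ext x
      have k1 : x = b → x ∉ O := fun h => h ▸ hbO
      have k2 : x = f → x ∉ O := fun h => h ▸ hfO
      have k3 : x ∈ O → x ∉ R.1 := fun h => (hOR x h).2.1
      simp only [Finset.mem_sdiff, Finset.mem_insert, Finset.mem_union]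
      tauto
    rw [e1, Finset.insert_union, Finset.insert_comm b f (R.1 ∪ O)] at k1
    have k2 := hfA2 ∅ (Finset.empty_subset _)
    rw [Finset.union_empty] at k2
    have k3 := hfA2 O (Finset.Subset.refl _)
    have k4 := hfA O (Finset.Subset.refl _)
    have k5 := hfA ∅ (Finset.empty_subset _)
    rw [Finset.union_empty] at k5
    have k6 : r (insert b (R.1 ∪ O)) = r (R.1 ∪ O) := by rw [eW]; exact hbW
    omega
  obtain ⟨a, ha, hP2, hPc⟩ := lkd_swap hr wq wq2 hOq hOq2 hlO hl2 st1 st2 hP (by rw [eD]; exact hD.int)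
  have hlam := lkd_lam wq wq2 hOq hOq2 st1 st2
  rw [eD2, Finset.mem_singleton] at ha
  subst ha
  set P' := insert a (P ∩ O) with hP'
  set Rz := QUB.rm false f R with hRz
  have gRz : gs Rz = (gs R).erase f := QUB.gs_rm false f R
  have hs2 : Sub q2 Rz := by
    refine ⟨Finset.Subset.refl _, ?_⟩
    show insert a (insert f (R.1 ∪ O)) ⊆ R.2
    exact Finset.insert_subset hbm.1 (Finset.insert_subset hfm.1 (Finset.union_subset hR fun x hx => (hOR x hx).1))
  have hcR : Cn r Rz := th3_cn hr hR hC h3 (by omega) hf false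
  have hP3 : Lkd r Rz P' := hP2.up hr hs2 wq2
  obtain ⟨Ds, hDs⟩ := hP3.cls hr hcR (y := a) (Finset.mem_insert_self _ _)
  refine ⟨P', Ds, ⟨hf, hfb, hP3, hPc.trans hT.card, hDs, hDs.mem.1⟩, ?_⟩
  have l1 : QUB.lam r q2 (Ds ∩ gs q2) ≤ 1 := (lam_sub_le hr hs2 wq2 hDs.sub).trans hDs.lam
  have haq2 : a ∈ gs q2 := by
    rw [gq2]
    exact Finset.mem_insert_self _ _
  have hcup : QUB.lam r q2 (Ds ∩ gs q2 ∪ {a}) ≤ 1 := by
    rw [Finset.union_eq_left.2 (Finset.singleton_subset_iff.2 (Finset.mem_inter.2 ⟨hDs.mem.1, haq2⟩))]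
    exact l1
  have hout := lkc_out (Rz := Rz) wq wq2 hO hD hP.sub hlam hOq2 eD2 hP' (Finset.mem_singleton_self a) hDs.sub hDs.int hcup
  intro x hx
  by_contra hxD
  have k1 := hDs.sub hx
  rw [gRz, ← gq] at k1
  have : x ∈ O ∩ Ds := Finset.mem_inter.2 ⟨Finset.mem_sdiff.2 ⟨k1, hxD⟩, hx⟩
  rw [hout] at this
  exact absurd this (Finset.notMem_empty x)

end

end Pool.Agent.QU
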