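import Pool.Agent.QUR.Lkd

/-!
# QUR/LkS: a linked set is moved to another box with the same torso

`lkd_swap`: `q`, `q2` boxes with a common set `O` which have the same ranks on `O` and on `O` modulo the other side.  If `P` is linked in `q`
and meets the other side of `q` in one element `y`, then `P ∩ O` with some element of the other side of `q2` is linked in `q2`.
-/

set_option autoImplicit false

open QUB

namespace Pool.Agent.QU

section

variable {E : Type} [DecidableEq E] {r : Finset E → ℤ}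

private theorem lks_rect (hr : QUB.Rk r) {a a' b b' : Finset E} (ha : a ⊆ a') (hb : b ⊆ b') (h : a' ∩ b' ⊆ a ∪ b) :
    r (a' ∪ b') + r (a ∪ b) ≤ r (a' ∪ b) + r (a ∪ b') := by
  have h1 := hr.sub (a' ∪ b) (a ∪ b')
  have e1 : (a' ∪ b) ∪ (a ∪ b') = a' ∪ b' := by
    ext y
    have k1 : y ∈ a → y ∈ a' := fun h => ha h
    have k2 : y ∈ b → y ∈ b' := fun h => hb h
    simp only [Finset.mem_union]
    tauto
  have e2 : (a' ∪ b) ∩ (a ∪ b') = a ∪ b := by
    ext y
    have k1 : y ∈ a → y ∈ a' := fun h => ha h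
    have k2 : y ∈ b → y ∈ b' := fun h => hb h
    have k3 : y ∈ a' → y ∈ b' → y ∈ a ∨ y ∈ b := fun h1 h2 => Finset.mem_union.1 (h (Finset.mem_inter.2 ⟨h1, h2⟩))
    simp only [Finset.mem_union, Finset.mem_inter]
    tauto
  rw [e1, e2] at h1
  linarith

/-- a subset `C` of one side spans the base point or is skew to the other side -/
theorem lks_dich (hr : Rk r) {K D O C O' : Finset E} (hKD : K ⊆ D) (hKC : K ⊆ C) (hCD : C ⊆ D) (hO : O' ⊆ O) (hDO : D ∩ O ⊆ K)
    (hl : r D + r (K ∪ O) - r (D ∪ O) - r K ≤ 1) :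
    (∀ A ⊆ O', r (C ∪ A) - r C = r (K ∪ A) - r K) ∧ r (C ∪ O') - r C = r (K ∪ O') - r K ∨
    (∀ A ⊆ O', r (C ∪ A) - r C = r (D ∪ A) - r D) ∧ r (C ∪ O') - r C = r (K ∪ O') - r K - 1 := by
  have rc : ∀ {a a' b b' : Finset E}, K ⊆ a → a ⊆ a' → a' ⊆ D → b ⊆ b' → b' ⊆ O → r (a' ∪ b') + r (a ∪ b) ≤ r (a' ∪ b) + r (a ∪ b') := by
    intro a a' b b' h0 h1 h2 h3 h4
    exact lks_rect hr h1 h3 ((Finset.inter_subset_inter h2 h4).trans (hDO.trans (h0.trans Finset.subset_union_left)))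
  have hzero : ∀ a : Finset E, a ∪ ∅ = a := Finset.union_empty
  -- the drop on `O'`
  have d1 := rc (Finset.Subset.refl K) hKC hCD (Finset.empty_subset O') hO
  have d2 := rc hKC hCD (Finset.Subset.refl D) (Finset.empty_subset O) (Finset.Subset.refl O)
  have d3 := rc (Finset.Subset.refl K) hKC hCD hO (Finset.Subset.refl O)
  rw [hzero, hzero] at d1 d2
  by_cases hd : r (C ∪ O') - r C = r (K ∪ O') - r K
  · refine Or.inl ⟨fun A hA => ?_, hd⟩
    have d4 := rc (Finset.Subset.refl K) hKC hCD hA hO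
    have d5 := rc (Finset.Subset.refl K) hKC hCD (Finset.empty_subset A) (hA.trans hO)
    rw [hzero, hzero] at d5
    omega
  · have hd1 : r (C ∪ O') - r C = r (K ∪ O') - r K - 1 := by omega
    refine Or.inr ⟨fun A hA => ?_, hd1⟩
    have d4 := rc hKC hCD (Finset.Subset.refl D) (hA.trans hO) (Finset.Subset.refl O)
    have d5 := rc hKC hCD (Finset.Subset.refl D) (Finset.empty_subset A) (hA.trans hO)
    rw [hzero, hzero] at d5
    omega

private theorem lks_gs0 {t1 O1 G : Finset E} (hG : ∀ x ∈ G, x ∉ t1 ∧ x ∉ O1) : gs ((t1 ∪ O1, t1 ∪ O1 ∪ G) : Itv E) = G := by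
  ext x
  have k1 := hG x
  simp only [QUB.gs, Finset.mem_sdiff, Finset.mem_union]
  tauto

private theorem lks_gs1 {t1 O1 G : Finset E} {a : E} (hG : ∀ x ∈ G, x ∉ t1 ∧ x ∉ O1) (ha : a ∉ t1) (ha' : a ∉ O1) :
    gs ((t1 ∪ O1, insert a (t1 ∪ O1 ∪ G)) : Itv E) = insert a G := by
  ext x
  have k1 := hG x
  have k2 : x = a → x ∉ t1 ∧ x ∉ O1 := fun h => h ▸ ⟨ha, ha'⟩
  simp only [QUB.gs, Finset.mem_sdiff, Finset.mem_union, Finset.mem_insert]
  tauto

private theorem lks_gs2 {t1 O1 G : Finset E} {a : E} (hG : ∀ x ∈ G, x ∉ t1 ∧ x ∉ O1) (ha : a ∉ G) :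
    gs ((insert a (t1 ∪ O1), insert a (t1 ∪ O1 ∪ G)) : Itv E) = G := by
  ext x
  have k1 := hG x
  have k2 : x = a → x ∉ G := fun h => h ▸ ha
  simp only [QUB.gs, Finset.mem_sdiff, Finset.mem_union, Finset.mem_insert]
  tauto

private theorem lks_swap {G : Finset E} {y a : E} (hy : y ∉ G) (ha : a ∉ G) :
    (∀ Z ⊆ G, Z.map (Equiv.swap y a).toEmbedding = Z) ∧ ∀ Z ⊆ G, (insert y Z).map (Equiv.swap y a).toEmbedding = insert a Z := by
  have hmn : ∀ Z ⊆ G, Z.map (Equiv.swap y a).toEmbedding = Z := by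
    intro Z hZ
    ext x
    rw [Finset.mem_map]
    have k1 : ∀ z ∈ Z, (Equiv.swap y a) z = z := fun z hz =>
      Equiv.swap_apply_of_ne_of_ne (fun h => hy (h ▸ hZ hz)) (fun h => ha (h ▸ hZ hz))
    constructor
    · rintro ⟨z, hz, rfl⟩
      show (Equiv.swap y a) z ∈ Z
      rw [k1 z hz]
      exact hz
    · intro hz
      exact ⟨x, hz, k1 x hz⟩
  refine ⟨hmn, fun Z hZ => ?_⟩
  rw [Finset.map_insert, hmn Z hZ]
  congr 1
  exact Equiv.swap_apply_left y a

private theorem lks_full {q : Itv E} {O : Finset E} (hq : q.1 ⊆ q.2) (hO : O ⊆ gs q) :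
    q.1 ∪ (gs q \ O) ∪ O = q.2 ∧ q.2 \ O = q.1 ∪ (gs q \ O) := by
  have h1 : ∀ x ∈ O, x ∈ q.2 ∧ x ∉ q.1 := fun x hx => Finset.mem_sdiff.1 (hO hx)
  constructor
  · ext x
    have k1 := h1 x
    have k2 := @hq x
    simp only [QUB.gs, Finset.mem_union, Finset.mem_sdiff]
    tauto
  · ext x
    have k1 := h1 x
    have k2 := @hq x
    simp only [QUB.gs, Finset.mem_union, Finset.mem_sdiff]
    tauto

private theorem lks_N {N : Itv E} {C1 O1 G : Finset E} {y : E} (hN : N.1 ⊆ N.2) (eN1 : N.1 = C1 ∪ O1) (hGy : gs N = insert y G)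
    (hyC : y ∉ C1) (hyO : y ∉ O1) (hyG : y ∉ G) : N.2 = insert y (C1 ∪ (O1 ∪ G)) ∧ N.2 \ {y} = C1 ∪ (O1 ∪ G) := by
  have e1 : N.2 = insert y (C1 ∪ (O1 ∪ G)) := by
    have h1 : N.2 = N.1 ∪ gs N := (Finset.union_sdiff_of_subset hN).symm
    rw [h1, hGy, eN1]
    ext x
    simp only [Finset.mem_union, Finset.mem_insert]
    tauto
  refine ⟨e1, ?_⟩
  rw [e1]
  ext x
  have k1 : x = y → x ∉ C1 ∧ x ∉ O1 ∧ x ∉ G := fun h => h ▸ ⟨hyC, hyO, hyG⟩
  simp only [Finset.mem_union, Finset.mem_insert, Finset.mem_sdiff, Finset.mem_singleton]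
  tauto

/-- the rich minor is moved -/
theorem lks_rich (hr : Rk r) {q q2 N : Itv E} {O C P : Finset E} {y a : E} (hq : q.1 ⊆ q.2) (hO : O ⊆ gs q)
    (hl : QUB.lam r q O ≤ 1) (T : Tor r q2 O C a)
    (h1 : ∀ A ⊆ O, r (q2.1 ∪ A) - r q2.1 = r (q.1 ∪ A) - r q.1)
    (h2 : ∀ A ⊆ O, r (q2.1 ∪ (gs q2 \ O) ∪ A) - r (q2.1 ∪ (gs q2 \ O)) = r (q.1 ∪ (gs q \ O) ∪ A) - r (q.1 ∪ (gs q \ O)))
    (hN : Sub N q) (hR : Rich r N) (hNP : gs N ⊆ P) (hy : (gs q \ O) ∩ P = {y}) :
    ∃ N', Sub N' (tb q2 O C a) ∧ Rich r N' ∧ gs N' ⊆ insert a (P ∩ O) := by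
  set D := q.1 ∪ (gs q \ O) with hD
  have hOq : ∀ x ∈ O, x ∈ q.2 ∧ x ∉ q.1 := fun x hx => Finset.mem_sdiff.1 (hO hx)
  have n1 : ∀ x, x ∈ N.1 → x ∈ N.2 := fun x h => hR.1 h
  have n2 : ∀ x, x ∈ N.2 → x ∈ q.2 := fun x h => hN.2 h
  have n3 : ∀ x, x ∈ q.1 → x ∈ N.1 := fun x h => hN.1 h
  have n4 : ∀ x, x ∈ q.1 → x ∈ q.2 := fun x h => hq h
  have hyd : y ∈ (gs q \ O) ∩ P := by rw [hy]; exact Finset.mem_singleton_self y
  have hyd' := Finset.mem_sdiff.1 (Finset.mem_inter.1 hyd).1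
  have hyq := Finset.mem_sdiff.1 hyd'.1
  have hNO : ∀ x ∈ gs N, x = y ∨ x ∈ O := by
    intro x hx
    by_cases hxO : x ∈ O
    · exact Or.inr hxO
    · left
      have h3 := Finset.mem_sdiff.1 hx
      have : x ∈ (gs q \ O) ∩ P := by
        refine Finset.mem_inter.2 ⟨Finset.mem_sdiff.2 ⟨Finset.mem_sdiff.2 ⟨n2 x h3.1, fun h => h3.2 (n3 x h)⟩, hxO⟩, hNP hx⟩
      rw [hy] at this
      exact Finset.mem_singleton.1 this
  have hlD : r D + r (q.1 ∪ O) - r (D ∪ O) - r q.1 ≤ 1 := by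
    have e1 : D ∪ O = q.2 := (lks_full hq hO).1
    have e2 : q.2 \ O = D := (lks_full hq hO).2
    have h3 : QUB.lam r q O = r (q.1 ∪ O) + r (q.2 \ O) - r q.2 - r q.1 := rfl
    rw [e2] at h3
    rw [e1]
    linarith
  have hKD : q.1 ⊆ D := Finset.subset_union_left
  have hDO : D ∩ O ⊆ q.1 := by
    intro x hx
    have h3 := Finset.mem_inter.1 hx
    rcases Finset.mem_union.1 h3.1 with h4 | h4
    · exact h4
    · exact absurd h3.2 (Finset.mem_sdiff.1 h4).2
  -- the contracted part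
  set C1 := N.1 \ O with hC1
  have hKC : q.1 ⊆ C1 := fun x hx => Finset.mem_sdiff.2 ⟨hN.1 hx, fun h => (hOq x h).2 hx⟩
  have hCD : C1 ⊆ D := by
    intro x hx
    have h3 := Finset.mem_sdiff.1 hx
    by_cases h4 : x ∈ q.1
    · exact Finset.mem_union_left _ h4
    · exact Finset.mem_union_right _ (Finset.mem_sdiff.2 ⟨Finset.mem_sdiff.2 ⟨n2 x (n1 x h3.1), h4⟩, h3.2⟩)
  set O1 := N.1 ∩ O with hO1
  set G := gs N ∩ O with hG
  have hOO : O1 ∪ G ⊆ O := Finset.union_subset Finset.inter_subset_right Finset.inter_subset_right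
  have eN1 : N.1 = C1 ∪ O1 := by
    ext x
    simp only [hC1, hO1, Finset.mem_union, Finset.mem_sdiff, Finset.mem_inter]
    tauto
  -- ranks of the torso box
  have tB : ∀ Z ⊆ O, r ((tb q2 O C a).1 ∪ Z) - r (tb q2 O C a).1 = r (q.1 ∪ Z) - r q.1 := fun Z hZ => by
    rw [T.rk_B hr hZ, h1 Z hZ]
  have tA : ∀ Z ⊆ O, r (insert a ((tb q2 O C a).1 ∪ Z)) - r (tb q2 O C a).1 = r (D ∪ Z) - r D + 1 := fun Z hZ => by
    rw [T.rk_a hr hZ, h2 Z hZ]
  set t1 := (tb q2 O C a).1 with ht1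
  have hta : a ∉ t1 := by
    have h3 : a ∈ gs (tb q2 O C a) := by rw [T.gs_eq]; exact Finset.mem_insert_self _ _
    exact (Finset.mem_sdiff.1 h3).2
  have htO : ∀ x ∈ O, x ∉ t1 := by
    intro x hx
    have h3 : x ∈ gs (tb q2 O C a) := by rw [T.gs_eq]; exact Finset.mem_insert_of_mem hx
    exact (Finset.mem_sdiff.1 h3).2
  have haO : a ∉ O := T.aB
  have htb2 : (tb q2 O C a).2 = insert a (t1 ∪ O) := rfl
  -- finish from an isomorphism
  have fin : ∀ (N' : Itv E) (e : E ≃ E), N'.1 ⊆ N'.2 → Sub N' (tb q2 O C a) → gs N' = (gs N).map e.toEmbedding → gs N' ⊆ insert a (P ∩ O) →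
      (∀ S ⊆ gs N, r (N'.1 ∪ S.map e.toEmbedding) - r N'.1 = r (N.1 ∪ S) - r N.1) →
      ∃ N', Sub N' (tb q2 O C a) ∧ Rich r N' ∧ gs N' ⊆ insert a (P ∩ O) := by
    intro N' e k1 k2 k3 k4 k5
    obtain ⟨N'', m1, m2⟩ := iso_rich hR.1 k3 k1 k5 ⟨N, ⟨Finset.Subset.refl _, Finset.Subset.refl _⟩, hR⟩
    exact ⟨N'', k2.trans m1, m2, (Finset.sdiff_subset_sdiff m1.2 m1.1).trans k4⟩
  by_cases hyN : y ∈ gs N
  · -- `y` is an element of the rich minor
    have hyN' := Finset.mem_sdiff.1 hyN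
    have hth := rich_th hr hR
    have hcn := rich_cn hr hR
    have h5 : (gs N).card = 5 := hR.2.1
    have hNe : ((gs N).erase y).Nonempty := by
      rw [← Finset.card_pos, Finset.card_erase_of_mem hyN]
      omega
    have hly : 1 ≤ QUB.lam r N {y} := hcn.single hyN hNe
    have hGy : gs N = insert y G := by
      ext x
      rw [Finset.mem_insert, hG, Finset.mem_inter]
      constructor
      · intro hx
        rcases hNO x hx with h3 | h3
        · exact Or.inl h3
        · exact Or.inr ⟨hx, h3⟩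
      · rintro (h3 | h3)
        · rw [h3]; exact hyN
        · exact h3.1
    have hyO : y ∉ O := hyd'.2
    have hyC1 : y ∉ C1 := fun h => hyN'.2 (Finset.mem_sdiff.1 h).1
    have hyD : y ∈ D := Finset.mem_union_right _ (Finset.mem_sdiff.2 ⟨hyd'.1, hyO⟩)
    have hyO1 : y ∉ O1 := fun h => hyO (hOO (Finset.mem_union_left _ h))
    have hyG : y ∉ G := fun h => hyO (hOO (Finset.mem_union_right _ h))
    obtain ⟨eN2, eN2'⟩ := lks_N hR.1 eN1 hGy hyC1 hyO1 hyG
    have hly' : r (N.1 ∪ {y}) + r (N.2 \ {y}) - r N.2 - r N.1 ≥ 1 := hly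
    rw [eN2', eN2] at hly'
    have eNy : N.1 ∪ {y} = insert y (C1 ∪ O1) := by
      rw [eN1, Finset.union_comm]
      rfl
    rw [eNy, eN1] at hly'
    have u1 := hr.unit (C1 ∪ O1) y
    have u2 := hr.mono _ _ (Finset.subset_insert y (C1 ∪ (O1 ∪ G)))
    have u3 : r (insert y (C1 ∪ O1)) = r (C1 ∪ O1) + 1 := by omega
    have u4 : r (insert y (C1 ∪ (O1 ∪ G))) = r (C1 ∪ (O1 ∪ G)) := by omega
    -- `y` is independent of `C1`
    have u5 : r (insert y C1) = r C1 + 1 := by
      have k1 := QUB.marg hr (Finset.subset_union_left (s₁ := C1) (s₂ := O1)) y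
      have k2 := hr.unit C1 y
      omega
    set C2 := insert y C1 with hC2
    have hKC2 : q.1 ⊆ C2 := hKC.trans (Finset.subset_insert _ _)
    have hC2D : C2 ⊆ D := Finset.insert_subset hyD hCD
    have eC2 : ∀ Z : Finset E, C2 ∪ Z = insert y (C1 ∪ Z) := fun Z => Finset.insert_union _ _ _
    have dC := lks_dich hr hKD hKC hCD hOO hDO hlD
    have dC2 := lks_dich hr hKD hKC2 hC2D hOO hDO hlD
    have c1 : (∀ A ⊆ O1 ∪ G, r (C1 ∪ A) - r C1 = r (q.1 ∪ A) - r q.1) ∧ r (C1 ∪ (O1 ∪ G)) - r C1 = r (q.1 ∪ (O1 ∪ G)) - r q.1 := by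
      rcases dC with h3 | h3
      · exact h3
      · exfalso
        rcases dC2 with h4 | h4
        · rw [eC2] at h4
          omega
        · rw [eC2] at h4
          omega
    have c2 : (∀ A ⊆ O1 ∪ G, r (C2 ∪ A) - r C2 = r (D ∪ A) - r D) := by
      rcases dC2 with h4 | h4
      · exfalso
        rw [eC2] at h4
        omega
      · exact h4.1
    have hO1 : O1 ⊆ O1 ∪ G := Finset.subset_union_left
    have hO1O : O1 ⊆ O := hO1.trans hOO
    have hGO : G ⊆ O := Finset.subset_union_right.trans hOO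
    have hO1G : ∀ x ∈ G, x ∉ t1 ∧ x ∉ O1 := by
      intro x hx
      exact ⟨htO x (hGO hx), fun h3 => (Finset.mem_sdiff.1 (Finset.mem_inter.1 hx).1).2 (Finset.mem_inter.1 h3).1⟩
    have haO1 : a ∉ O1 := fun h => haO (hO1O h)
    have haG : a ∉ G := fun h => haO (hGO h)
    have hgN : gs ((t1 ∪ O1, insert a (t1 ∪ O1 ∪ G)) : Itv E) = insert a G := lks_gs1 hO1G hta haO1
    obtain ⟨hmn, hmy⟩ := lks_swap hyG haG
    have hmG : (gs N).map (Equiv.swap y a).toEmbedding = insert a G := by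
      rw [hGy]
      exact hmy G (Finset.Subset.refl _)
    refine fin (t1 ∪ O1, insert a (t1 ∪ O1 ∪ G)) (Equiv.swap y a) ?_ ⟨?_, ?_⟩ ?_ ?_ ?_
    · exact Finset.subset_union_left.trans (Finset.subset_insert _ _)
    · exact Finset.subset_union_left
    · rw [htb2]
      refine Finset.insert_subset_insert _ ?_
      rw [Finset.union_assoc]
      exact Finset.union_subset_union_right hOO
    · rw [hmG]
      exact hgN
    · rw [hgN]
      refine Finset.insert_subset_insert _ ?_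
      intro x hx
      have k1 := Finset.mem_inter.1 hx
      exact Finset.mem_inter.2 ⟨hNP k1.1, k1.2⟩
    · intro S hS
      have t0 := tB O1 hO1O
      have c0 := c1.1 O1 hO1
      by_cases hyS : y ∈ S
      · have hA : S.erase y ⊆ G := by
          intro x hx
          have k1 := Finset.mem_erase.1 hx
          have k2 := hS k1.2
          rw [hGy] at k2
          exact (Finset.mem_insert.1 k2).resolve_left k1.1
        have hS' : insert y (S.erase y) = S := Finset.insert_erase hyS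
        rw [← hS', hmy _ hA]
        have k1 := tA (O1 ∪ S.erase y) (Finset.union_subset hO1O (hA.trans hGO))
        have k2 := c2 (O1 ∪ S.erase y) (Finset.union_subset_union_right hA)
        rw [eC2] at k2
        have e3 : t1 ∪ O1 ∪ insert a (S.erase y) = insert a (t1 ∪ (O1 ∪ S.erase y)) := by
          rw [Finset.union_insert, Finset.union_assoc]
        have e4 : N.1 ∪ insert y (S.erase y) = insert y (C1 ∪ (O1 ∪ S.erase y)) := by
          rw [Finset.union_insert, eN1, Finset.union_assoc]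
        show r (t1 ∪ O1 ∪ insert a (S.erase y)) - r (t1 ∪ O1) = _
        rw [e3, e4, eN1]
        omega
      · have hA : S ⊆ G := by
          intro x hx
          have k2 := hS hx
          rw [hGy] at k2
          exact (Finset.mem_insert.1 k2).resolve_left (fun h => hyS (h ▸ hx))
        rw [hmn _ hA]
        have k1 := tB (O1 ∪ S) (Finset.union_subset hO1O (hA.trans hGO))
        have k2 := c1.1 (O1 ∪ S) (Finset.union_subset_union_right hA)
        show r (t1 ∪ O1 ∪ S) - r (t1 ∪ O1) = _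
        rw [Finset.union_assoc, eN1, Finset.union_assoc]
        omega
  · -- the rich minor is contained in `O`
    have hGO : G ⊆ O := Finset.inter_subset_right
    have hO1O : O1 ⊆ O := Finset.inter_subset_right
    have hGe : gs N = G := by
      rw [hG]
      refine (Finset.inter_eq_left.2 ?_).symm
      intro x hx
      exact (hNO x hx).resolve_left (fun h => hyN (h ▸ hx))
    have hO1 : O1 ⊆ O1 ∪ G := Finset.subset_union_left
    have hO1G : ∀ x ∈ G, x ∉ t1 ∧ x ∉ O1 := by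
      intro x hx
      exact ⟨htO x (hGO hx), fun h3 => (Finset.mem_sdiff.1 (Finset.mem_inter.1 hx).1).2 (Finset.mem_inter.1 h3).1⟩
    have haG : a ∉ G := fun h => haO (hGO h)
    have hmap : ∀ Z : Finset E, Z.map (Equiv.refl E).toEmbedding = Z := fun Z => by
      ext x
      simp
    have hGP : G ⊆ P ∩ O := by
      intro x hx
      have k1 := Finset.mem_inter.1 hx
      exact Finset.mem_inter.2 ⟨hNP k1.1, k1.2⟩
    rcases lks_dich hr hKD hKC hCD hOO hDO hlD with h3 | h3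
    · have hgN : gs ((t1 ∪ O1, t1 ∪ O1 ∪ G) : Itv E) = G := lks_gs0 hO1G
      refine fin (t1 ∪ O1, t1 ∪ O1 ∪ G) (Equiv.refl E) Finset.subset_union_left ⟨Finset.subset_union_left, ?_⟩ ?_ ?_ ?_
      · rw [htb2, Finset.union_assoc]
        exact (Finset.union_subset_union_right hOO).trans (Finset.subset_insert _ _)
      · rw [hmap, hgN, hGe]
      · rw [hgN]
        exact hGP.trans (Finset.subset_insert _ _)
      · intro S hS
        rw [hmap]
        rw [hGe] at hS
        have t0 := tB O1 hO1O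
        have c0 := h3.1 O1 hO1
        have k1 := tB (O1 ∪ S) (Finset.union_subset hO1O (hS.trans hGO))
        have k2 := h3.1 (O1 ∪ S) (Finset.union_subset_union_right hS)
        show r (t1 ∪ O1 ∪ S) - r (t1 ∪ O1) = _
        rw [Finset.union_assoc, eN1, Finset.union_assoc]
        omega
    · have hgN : gs ((insert a (t1 ∪ O1), insert a (t1 ∪ O1 ∪ G)) : Itv E) = G := lks_gs2 hO1G haG
      refine fin (insert a (t1 ∪ O1), insert a (t1 ∪ O1 ∪ G)) (Equiv.refl E) (Finset.insert_subset_insert _ Finset.subset_union_left)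
        ⟨Finset.subset_union_left.trans (Finset.subset_insert _ _), ?_⟩ ?_ ?_ ?_
      · rw [htb2, Finset.union_assoc]
        exact Finset.insert_subset_insert _ (Finset.union_subset_union_right hOO)
      · rw [hmap, hgN, hGe]
      · rw [hgN]
        exact hGP.trans (Finset.subset_insert _ _)
      · intro S hS
        rw [hmap]
        rw [hGe] at hS
        have t0 := tA O1 hO1O
        have c0 := h3.1 O1 hO1
        have k1 := tA (O1 ∪ S) (Finset.union_subset hO1O (hS.trans hGO))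
        have k2 := h3.1 (O1 ∪ S) (Finset.union_subset_union_right hS)
        show r (insert a (t1 ∪ O1) ∪ S) - r (insert a (t1 ∪ O1)) = _
        rw [Finset.insert_union, Finset.union_assoc, eN1, Finset.union_assoc]
        omega

/-- two boxes with the same ranks on `O` and modulo the other side have the same connectivity function on `O` -/
theorem lkd_lam {q q2 : Itv E} {O : Finset E} (hq : q.1 ⊆ q.2) (hq2 : q2.1 ⊆ q2.2) (hO : O ⊆ gs q) (hO2 : O ⊆ gs q2)
    (h1 : ∀ A ⊆ O, r (q2.1 ∪ A) - r q2.1 = r (q.1 ∪ A) - r q.1)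
    (h2 : ∀ A ⊆ O, r (q2.1 ∪ (gs q2 \ O) ∪ A) - r (q2.1 ∪ (gs q2 \ O)) = r (q.1 ∪ (gs q \ O) ∪ A) - r (q.1 ∪ (gs q \ O))) :
    ∀ A ⊆ O, QUB.lam r q2 A = QUB.lam r q A := by
  intro A hA
  have k1 := h1 A hA
  have k2 := h2 (O \ A) Finset.sdiff_subset
  have k3 := h2 O (Finset.Subset.refl _)
  have e : ∀ q' : Itv E, q'.1 ⊆ q'.2 → O ⊆ gs q' → q'.1 ∪ (gs q' \ O) ∪ (O \ A) = q'.2 \ A ∧ q'.1 ∪ (gs q' \ O) ∪ O = q'.2 := by
    intro q' hq' hO'
    have k4 : ∀ x ∈ O, x ∈ q'.2 ∧ x ∉ q'.1 := fun x hx => Finset.mem_sdiff.1 (hO' hx)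
    constructor
    · ext x
      have k5 := k4 x
      have k6 : x ∈ q'.1 → x ∈ q'.2 := fun h => hq' h
      have k7 : x ∈ A → x ∈ O := fun h => hA h
      simp only [QUB.gs, Finset.mem_sdiff, Finset.mem_union]
      tauto
    · ext x
      have k5 := k4 x
      have k6 : x ∈ q'.1 → x ∈ q'.2 := fun h => hq' h
      simp only [QUB.gs, Finset.mem_sdiff, Finset.mem_union]
      tauto
  rw [(e q hq hO).1, (e q2 hq2 hO2).1] at k2
  rw [(e q hq hO).2, (e q2 hq2 hO2).2] at k3
  show r (q2.1 ∪ A) + r (q2.2 \ A) - r q2.2 - r q2.1 = r (q.1 ∪ A) + r (q.2 \ A) - r q.2 - r q.1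
  omega

/-- a linked set is moved -/
theorem lkd_swap (hr : Rk r) {q q2 : Itv E} {O P : Finset E} {y : E} (hq : q.1 ⊆ q.2) (hq2 : q2.1 ⊆ q2.2) (hO : O ⊆ gs q)
    (hO2 : O ⊆ gs q2) (hl : QUB.lam r q O ≤ 1) (hl2 : 1 ≤ QUB.lam r q2 O)
    (h1 : ∀ A ⊆ O, r (q2.1 ∪ A) - r q2.1 = r (q.1 ∪ A) - r q.1)
    (h2 : ∀ A ⊆ O, r (q2.1 ∪ (gs q2 \ O) ∪ A) - r (q2.1 ∪ (gs q2 \ O)) = r (q.1 ∪ (gs q \ O) ∪ A) - r (q.1 ∪ (gs q \ O)))
    (h : Lkd r q P) (hy : (gs q \ O) ∩ P = {y}) :
    ∃ a ∈ gs q2 \ O, Lkd r q2 (insert a (P ∩ O)) ∧ (insert a (P ∩ O)).card = P.card := by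
  have hle := lkd_lam hq hq2 hO hO2 h1 h2
  obtain ⟨C, a, T⟩ := tor_ex hr hq2 hO2 hl2 ((hle O (Finset.Subset.refl _)).trans_le hl)
  have haO : a ∉ O := T.aB
  have hg : gs (tb q2 O C a) = insert a O := T.gs_eq
  have hyd : y ∈ (gs q \ O) ∩ P := by rw [hy]; exact Finset.mem_singleton_self y
  have hyd' := Finset.mem_inter.1 hyd
  have hyO : y ∉ O := (Finset.mem_sdiff.1 hyd'.1).2
  have hPO : P = insert y (P ∩ O) := by
    ext x
    rw [Finset.mem_insert, Finset.mem_inter]
    constructor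
    · intro hx
      by_cases hxO : x ∈ O
      · exact Or.inr ⟨hx, hxO⟩
      · left
        have : x ∈ (gs q \ O) ∩ P := Finset.mem_inter.2 ⟨Finset.mem_sdiff.2 ⟨h.sub hx, hxO⟩, hx⟩
        rw [hy] at this
        exact Finset.mem_singleton.1 this
    · rintro (hx | hx)
      · rw [hx]; exact hyd'.2
      · exact hx.1
  refine ⟨a, T.ha, Lkd.up hr (q2 := tb q2 O C a) ?_ T.sub T.wf, ?_⟩
  swap
  · conv_rhs => rw [hPO]
    rw [Finset.card_insert_of_notMem (fun h => haO (Finset.mem_inter.1 h).2),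
      Finset.card_insert_of_notMem (fun h => hyO (Finset.mem_inter.1 h).2)]
  refine ⟨?_, ?_, ?_⟩
  · rw [hg]
    exact Finset.insert_subset_insert _ Finset.inter_subset_right
  · obtain ⟨N, k1, k2, k3⟩ := h.rich
    exact lks_rich hr hq hO hl T h1 h2 k1 k2 k3 hy
  · have key : ∀ A ⊆ O, QUB.lam r (tb q2 O C a) A ≤ 1 → (A ∩ P).card ≤ 1 ∨ P ∩ O ⊆ A := by
      intro A hA hl'
      rw [T.lam_eq hr hA, hle A hA] at hl'
      rcases h.lk A (hA.trans hO) hl' with k1 | k1
      · exact Or.inl k1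
      · right
        intro x hx
        by_contra hxA
        have k2 : ({x, y} : Finset E) ⊆ P \ A := by
          intro z hz
          rcases Finset.mem_insert.1 hz with rfl | hz
          · exact Finset.mem_sdiff.2 ⟨(Finset.mem_inter.1 hx).1, hxA⟩
          · rw [Finset.mem_singleton.1 hz]
            exact Finset.mem_sdiff.2 ⟨hyd'.2, fun h => hyO (hA h)⟩
        have k3 := Finset.card_le_card k2
        have hxy : x ≠ y := by
          rintro rfl
          exact hyO (Finset.mem_inter.1 hx).2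
        rw [Finset.card_pair hxy] at k3
        omega
    intro A hA hl'
    rw [hg] at hA
    by_cases haA : a ∈ A
    · have hA' : insert a O \ A ⊆ O := by
        intro x hx
        have k1 := Finset.mem_sdiff.1 hx
        exact (Finset.mem_insert.1 k1.1).resolve_left (fun h => k1.2 (h ▸ haA))
      have k1 := lam_compl (p := tb q2 O C a) r T.wf (A := A) (by rw [hg]; exact hA)
      rw [hg] at k1
      rcases key _ hA' (k1.trans_le hl') with k2 | k2
      · right
        refine (Finset.card_le_card ?_).trans k2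
        intro x hx
        have k3 := Finset.mem_sdiff.1 hx
        rcases Finset.mem_insert.1 k3.1 with k4 | k4
        · exact absurd haA (k4 ▸ k3.2)
        · have k5 := Finset.mem_inter.1 k4
          exact Finset.mem_inter.2 ⟨Finset.mem_sdiff.2 ⟨Finset.mem_insert_of_mem k5.2, k3.2⟩, k5.1⟩
      · left
        refine (Finset.card_le_card (t := {a}) ?_).trans_eq (Finset.card_singleton a)
        intro x hx
        have k3 := Finset.mem_inter.1 hx
        rcases Finset.mem_insert.1 k3.2 with k4 | k4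
        · exact Finset.mem_singleton.2 k4
        · exact absurd k3.1 (Finset.mem_sdiff.1 (k2 k4)).2
    · have hA' : A ⊆ O := by
        intro x hx
        exact (Finset.mem_insert.1 (hA hx)).resolve_left (fun h => haA (h ▸ hx))
      rcases key A hA' hl' with k2 | k2
      · left
        refine (Finset.card_le_card ?_).trans k2
        intro x hx
        have k3 := Finset.mem_inter.1 hx
        rcases Finset.mem_insert.1 k3.2 with k4 | k4
        · exact absurd k3.1 (k4 ▸ haA)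
        · exact Finset.mem_inter.2 ⟨k3.1, (Finset.mem_inter.1 k4).1⟩
      · right
        refine (Finset.card_le_card (t := {a}) ?_).trans_eq (Finset.card_singleton a)
        intro x hx
        have k3 := Finset.mem_sdiff.1 hx
        rcases Finset.mem_insert.1 k3.1 with k4 | k4
        · exact Finset.mem_singleton.2 k4
        · exact absurd (k2 k4) k3.2

end

end Pool.Agent.QU
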