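import Pool.Agent.QUT.Iso
import Pool.Agent.QUP.RaC
import Pool.Agent.QUT.Csm

/-!
# QUR/Lkd: linked sets

`Lkd r q P`: the set `P` contains the ground set of a rich minor of `q`, and every set of order at most one contains at most one element of
`P` or all elements of `P` but one.  `Lkd.cup`, `Lkd.dis`, `Lkd.cls`: the maximal sets of order one with one element of `P`.
`lkd_swap`: a linked set is moved to a box with the same torso.
-/

set_option autoImplicit false

open QUB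

namespace Pool.Agent.QU

section

variable {E : Type} [DecidableEq E] {r : Finset E → ℤ}

/-- a linked set which contains the elements of a rich minor -/
structure Lkd (r : Finset E → ℤ) (q : Itv E) (P : Finset E) : Prop where
  sub : P ⊆ gs q
  rich : ∃ N, Sub N q ∧ Rich r N ∧ gs N ⊆ P
  lk : ∀ A ⊆ gs q, QUB.lam r q A ≤ 1 → (A ∩ P).card ≤ 1 ∨ (P \ A).card ≤ 1

theorem Lkd.five {q : Itv E} {P : Finset E} (h : Lkd r q P) : 5 ≤ P.card := by
  obtain ⟨N, -, hN, hNP⟩ := h.rich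
  have h1 := Finset.card_le_card hNP
  have h2 := hN.2.1
  have h3 : (gs N).card = 5 := h2
  omega

theorem Lkd.hasRich {q : Itv E} {P : Finset E} (h : Lkd r q P) : HasRich r q := by
  obtain ⟨N, h1, h2, -⟩ := h.rich
  exact ⟨N, h1, h2⟩

/-- the elements of a rich minor are linked -/
theorem lkd_rich (hr : Rk r) {q N : Itv E} (hN : Sub N q) (hR : Rich r N) : Lkd r q (gs N) := by
  refine ⟨Finset.sdiff_subset_sdiff hN.2 hN.1, ⟨N, hN, hR, Finset.Subset.refl _⟩, ?_⟩
  intro A hA hl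
  by_contra hcon
  push Not at hcon
  have h1 := lam_sub_le hr hN hR.1 hA
  have e1 : gs N \ (A ∩ gs N) = gs N \ A := by
    ext y
    simp only [Finset.mem_sdiff, Finset.mem_inter]
    tauto
  have h2 := rich_th hr hR (A ∩ gs N) Finset.inter_subset_right hcon.1 (by rw [e1]; exact hcon.2)
  omega

/-- linked sets of minors are linked -/
theorem Lkd.up (hr : Rk r) {q q2 : Itv E} {P : Finset E} (h : Lkd r q2 P) (hs : Sub q2 q) (hq2 : q2.1 ⊆ q2.2) : Lkd r q P := by
  refine ⟨h.sub.trans (Finset.sdiff_subset_sdiff hs.2 hs.1), ?_, ?_⟩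
  · obtain ⟨N, h1, h2, h3⟩ := h.rich
    exact ⟨N, hs.trans h1, h2, h3⟩
  · intro A hA hl
    have h1 := lam_sub_le hr hs hq2 hA
    have h2 := h.lk (A ∩ gs q2) Finset.inter_subset_right (h1.trans hl)
    have e1 : A ∩ gs q2 ∩ P = A ∩ P := by
      ext y
      have h4 : y ∈ P → y ∈ gs q2 := fun h5 => h.sub h5
      rw [Finset.mem_inter, Finset.mem_inter, Finset.mem_inter]
      tauto
    have e2 : P \ (A ∩ gs q2) = P \ A := by
      ext y
      have h4 : y ∈ P → y ∈ gs q2 := fun h5 => h.sub h5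
      rw [Finset.mem_sdiff, Finset.mem_sdiff, Finset.mem_inter]
      tauto
    rwa [e1, e2] at h2

theorem Lkd.cup (hr : Rk r) {q : Itv E} {P : Finset E} (hc : Cn r q) (h : Lkd r q P) {Z Z' : Finset E} {y : E} (hZ : Z ⊆ gs q)
    (hl : QUB.lam r q Z ≤ 1) (hl' : QUB.lam r q Z' ≤ 1) (e : Z ∩ P = {y}) (e' : Z' ∩ P = {y}) :
    QUB.lam r q (Z ∪ Z') ≤ 1 ∧ (Z ∪ Z') ∩ P = {y} := by
  have h5 := h.five
  have hy : y ∈ Z ∩ P := by rw [e]; exact Finset.mem_singleton_self y
  have hy' : y ∈ Z' ∩ P := by rw [e']; exact Finset.mem_singleton_self y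
  have hyZ := Finset.mem_inter.1 hy
  have hyZ' := Finset.mem_inter.1 hy'
  constructor
  · have h1 := lam_sub (p := q) hr Z Z'
    have h2 : 1 ≤ QUB.lam r q (Z ∩ Z') := by
      refine hc _ (Finset.inter_subset_left.trans hZ) ⟨y, Finset.mem_inter.2 ⟨hyZ.1, hyZ'.1⟩⟩ ?_
      obtain ⟨x, hx, hxy⟩ := Finset.exists_mem_ne (by omega : 1 < P.card) y
      refine ⟨x, Finset.mem_sdiff.2 ⟨h.sub hx, fun hxZ => hxy ?_⟩⟩
      have : x ∈ Z ∩ P := Finset.mem_inter.2 ⟨(Finset.mem_inter.1 hxZ).1, hx⟩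
      rw [e] at this
      exact Finset.mem_singleton.1 this
    omega
  · rw [Finset.union_inter_distrib_right, e, e', Finset.union_self]

theorem Lkd.dis (hr : Rk r) {q : Itv E} {P : Finset E} (hc : Cn r q) (h : Lkd r q P) {Z Z' : Finset E} {y y' : E} (hZ : Z ⊆ gs q)
    (hZ' : Z' ⊆ gs q) (hl : QUB.lam r q Z ≤ 1) (hl' : QUB.lam r q Z' ≤ 1) (e : Z ∩ P = {y}) (e' : Z' ∩ P = {y'}) (hyy : y ≠ y') :
    Z ∩ Z' = ∅ := by
  have h5 := h.five
  have e1 : (Z ∪ Z') ∩ P = {y, y'} := by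
    rw [Finset.union_inter_distrib_right, e, e']
    rfl
  have h1 := lam_sub (p := q) hr Z Z'
  have h2 : 2 ≤ QUB.lam r q (Z ∪ Z') := by
    by_contra hcon
    push Not at hcon
    have h3 := h.lk _ (Finset.union_subset hZ hZ') (by omega)
    rw [e1, Finset.card_pair hyy] at h3
    have h4 : (P \ (Z ∪ Z')).card + ((Z ∪ Z') ∩ P).card = P.card := by
      rw [Finset.inter_comm, Finset.card_sdiff_add_card_inter]
    rw [e1, Finset.card_pair hyy] at h4
    omega
  by_contra hcon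
  have h3 : 1 ≤ QUB.lam r q (Z ∩ Z') := by
    refine hc _ (Finset.inter_subset_left.trans hZ) (Finset.nonempty_iff_ne_empty.2 hcon) ?_
    obtain ⟨x, hx, hxy⟩ := Finset.exists_mem_ne (by omega : 1 < P.card) y
    refine ⟨x, Finset.mem_sdiff.2 ⟨h.sub hx, fun hxZ => hxy ?_⟩⟩
    have : x ∈ Z ∩ P := Finset.mem_inter.2 ⟨(Finset.mem_inter.1 hxZ).1, hx⟩
    rw [e] at this
    exact Finset.mem_singleton.1 this
  omega

/-- the class of `y` -/
structure Cls (r : Finset E → ℤ) (q : Itv E) (P : Finset E) (y : E) (D : Finset E) : Prop where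
  sub : D ⊆ gs q
  lam : QUB.lam r q D ≤ 1
  int : D ∩ P = {y}
  mx : ∀ Z ⊆ gs q, QUB.lam r q Z ≤ 1 → Z ∩ P = {y} → Z ⊆ D

theorem Cls.mem {q : Itv E} {P : Finset E} {y : E} {D : Finset E} (h : Cls r q P y D) : y ∈ D ∧ y ∈ P := by
  have : y ∈ D ∩ P := by rw [h.int]; exact Finset.mem_singleton_self y
  exact Finset.mem_inter.1 this

theorem Lkd.cls (hr : Rk r) {q : Itv E} {P : Finset E} (hc : Cn r q) (h : Lkd r q P) {y : E} (hy : y ∈ P) : ∃ D, Cls r q P y D := by
  classical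
  set F := (gs q).powerset.filter (fun Z => QUB.lam r q Z ≤ 1 ∧ Z ∩ P = {y}) with hF
  have hyF : {y} ∈ F := by
    rw [hF, Finset.mem_filter, Finset.mem_powerset, Finset.singleton_subset_iff]
    refine ⟨h.sub hy, lam_single_le hr (h.sub hy), ?_⟩
    exact Finset.inter_eq_left.2 (Finset.singleton_subset_iff.2 hy)
  obtain ⟨D, hD, hmax⟩ := Finset.exists_max_image F Finset.card ⟨_, hyF⟩
  rw [hF, Finset.mem_filter, Finset.mem_powerset] at hD
  refine ⟨D, hD.1, hD.2.1, hD.2.2, ?_⟩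
  intro Z hZ hl he
  have h1 := h.cup hr hc hD.1 hD.2.1 hl hD.2.2 he
  have h2 := hmax (D ∪ Z) (by
    rw [hF, Finset.mem_filter, Finset.mem_powerset]
    exact ⟨Finset.union_subset hD.1 hZ, h1.1, h1.2⟩)
  have h3 := Finset.eq_of_subset_of_card_le (Finset.subset_union_left (s₁ := D) (s₂ := Z)) h2
  rw [h3]
  exact Finset.subset_union_right

/-- an element outside of a linked set of maximal size lies in a class -/
theorem Lkd.cov {q : Itv E} (hr : Rk r) (hq : q.1 ⊆ q.2) {P : Finset E} (h : Lkd r q P) {m : ℕ} (hm : P.card = m)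
    (hmax : ∀ P', Lkd r q P' → P'.card ≤ m) {e : E} (he : e ∈ gs q) :
    ∃ y ∈ P, ∃ Z ⊆ gs q, e ∈ Z ∧ QUB.lam r q Z ≤ 1 ∧ Z ∩ P = {y} := by
  by_cases heP : e ∈ P
  · exact ⟨e, heP, {e}, Finset.singleton_subset_iff.2 he, Finset.mem_singleton_self e, lam_single_le hr he,
      Finset.inter_eq_left.2 (Finset.singleton_subset_iff.2 heP)⟩
  · have h1 : ¬ Lkd r q (insert e P) := by
      intro h2
      have h3 := hmax _ h2
      rw [Finset.card_insert_of_notMem heP] at h3
      omega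
    have h2 : ∃ A ⊆ gs q, QUB.lam r q A ≤ 1 ∧ 2 ≤ (A ∩ insert e P).card ∧ 2 ≤ (insert e P \ A).card := by
      by_contra hcon
      refine h1 ⟨Finset.insert_subset he h.sub, ?_, ?_⟩
      · obtain ⟨N, k1, k2, k3⟩ := h.rich
        exact ⟨N, k1, k2, k3.trans (Finset.subset_insert _ _)⟩
      · intro A hA hl
        by_contra hcon2
        push Not at hcon2
        exact hcon ⟨A, hA, hl, hcon2.1, hcon2.2⟩
    obtain ⟨A, hA, hl, hA1, hA2⟩ := h2
    have fin : ∀ Z ⊆ gs q, QUB.lam r q Z ≤ 1 → 2 ≤ (Z ∩ insert e P).card → (Z ∩ P).card ≤ 1 →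
        ∃ y ∈ P, ∃ Z ⊆ gs q, e ∈ Z ∧ QUB.lam r q Z ≤ 1 ∧ Z ∩ P = {y} := by
      intro Z hZ hl hZ1 hZ2
      have heZ : e ∈ Z := by
        by_contra hcon
        rw [Finset.inter_insert_of_notMem hcon] at hZ1
        omega
      rw [Finset.inter_insert_of_mem heZ, Finset.card_insert_of_notMem (fun h => heP (Finset.mem_inter.1 h).2)] at hZ1
      obtain ⟨y, hy⟩ := Finset.card_eq_one.1 (by omega : (Z ∩ P).card = 1)
      have hyP : y ∈ Z ∩ P := by rw [hy]; exact Finset.mem_singleton_self y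
      exact ⟨y, (Finset.mem_inter.1 hyP).2, Z, hZ, heZ, hl, hy⟩
    rcases h.lk A hA hl with h3 | h3
    · exact fin A hA hl hA1 h3
    · refine fin (gs q \ A) Finset.sdiff_subset ?_ ?_ ?_
      · exact (lam_compl r hq hA).trans_le hl
      · have e1 : gs q \ A ∩ insert e P = insert e P \ A := by
          ext y
          have h4 : y ∈ insert e P → y ∈ gs q := fun h5 => Finset.insert_subset he h.sub h5
          rw [Finset.mem_inter, Finset.mem_sdiff, Finset.mem_sdiff]
          tauto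
        rw [e1]
        exact hA2
      · have e1 : gs q \ A ∩ P = P \ A := by
          ext y
          have h4 : y ∈ P → y ∈ gs q := fun h5 => h.sub h5
          rw [Finset.mem_inter, Finset.mem_sdiff, Finset.mem_sdiff]
          tauto
        rw [e1]
        exact h3

end

end Pool.Agent.QU
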