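import Pool.Agent.QUR.Cnt

set_option autoImplicit false

/-!
# QUR/NSpec: the special case of the count, `n = 2 r + 1`

`{f, a, b}` is a triangle, all deletions outside of it are nodes, and there are `2 (rank - 1)` of them. `key_spec`: the forms extend, or there are exactly
two small valid sets, they are disjoint, have `rank - 1` elements and cover the complement of the triangle.
-/

namespace Pool.Agent.QU

variable {K E : Type} [Field K] [Fintype E] [DecidableEq E]

omit [Fintype E] in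
private theorem ns_spt {W : Submodule K (E → K)} {A : Finset E} {d : E → K} (hd : d ∈ spt W A) {x : E}
    (h : d x = 0) : d ∈ spt W (A.erase x) := by
  refine ⟨hd.1, fun y hy => ?_⟩
  by_cases hyx : y = x
  · rw [hyx, h]
  · exact hd.2 y fun h1 => hy (Finset.mem_erase.2 ⟨hyx, h1⟩)

omit [Fintype E] in
/-- a valid set avoids the triangle -/
theorem Vd.sub {r : Finset E → ℤ} (hr : QUB.Rk r) {p : Itv E} {f a b : E} {D : Finset E} (hL : Tri3 r p f a b) (h : Vd r p f a D) :
    D ⊆ gs p \ {f, a, b} := by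
  obtain ⟨h1, h2, h3, h4⟩ := h
  have haD : a ∉ D := by
    intro ha
    rw [Finset.insert_eq_of_mem (Finset.mem_union_right _ ha)] at h4
    omega
  have hbD : b ∉ D := by
    intro hb
    have e1 := hr.sub (insert f (p.1 ∪ D)) (insert a (insert f (insert b p.1)))
    have e2 : insert f (p.1 ∪ D) ∪ insert a (insert f (insert b p.1)) = insert a (insert f (p.1 ∪ D)) := by
      ext x
      have e0 : x = b → x ∈ D := fun h => h ▸ hb
      simp only [Finset.mem_union, Finset.mem_insert]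
      tauto
    have e3 : insert f (insert b p.1) ⊆ insert f (p.1 ∪ D) ∩ insert a (insert f (insert b p.1)) := by
      refine Finset.subset_inter ?_ (Finset.subset_insert _ _)
      refine Finset.insert_subset_insert f (Finset.insert_subset (Finset.mem_union_right _ hb) Finset.subset_union_left)
    have e4 := hr.mono _ _ e3
    have e5 := hL.2
    have e6 := hr.mono (insert a (p.1 ∪ D)) (insert a (insert f (p.1 ∪ D))) (Finset.insert_subset_insert a (Finset.subset_insert _ _))
    rw [e2] at e1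
    omega
  intro x hx
  refine Finset.mem_sdiff.2 ⟨h1 hx, ?_⟩
  simp only [Finset.mem_insert, Finset.mem_singleton, not_or]
  exact ⟨fun h => h2 (h ▸ hx), fun h => haD (h ▸ hx), fun h => hbD (h ▸ hx)⟩

/-- the count for `n = 2 r + 1` -/
theorem key_spec (S : TP K E) {p : Itv E} {f a b : E} (hp : p.1 ⊆ p.2) (hf : f ∈ gs p) (ha : a ∈ gs p) (hb : b ∈ gs p)
    (hfa : f ≠ a) (hfb : f ≠ b) (hab : a ≠ b) (hL : Tri3 S.r p f a b)
    (hex : ∀ w ∈ gs p \ {f, a, b}, Ex S true f (rm true w p))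
    (hcard : ((gs p \ {f, a, b}).card : ℤ) = 2 * (S.r p.2 - S.r p.1 - 1)) (h2 : 2 ≤ S.r p.2 - S.r p.1) :
    Ex S true f p ∨ ∃ D0 ⊆ gs p \ {f, a, b}, Vd S.r p f a D0 ∧ Vd S.r p f a ((gs p \ {f, a, b}) \ D0) ∧
      (D0.card : ℤ) = S.r p.2 - S.r p.1 - 1 ∧
      ∀ D, Vd S.r p f a D → (D.card : ℤ) ≤ S.r p.2 - S.r p.1 - 1 → D = D0 ∨ D = (gs p \ {f, a, b}) \ D0 := by
  classical
  set G := gs p \ {f, a, b} with hG
  have hGg : G ⊆ gs p := Finset.sdiff_subset
  have hfG : f ∉ G := by simp [hG]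
  have haG : a ∉ G := by simp [hG]
  have hbG : b ∉ G := by simp [hG]
  have hrk := S.rk
  have vsub : ∀ D, Vd S.r p f a D → D ⊆ G := fun D hD => hD.sub hrk hL
  by_cases hE : Ex S true f p
  · exact Or.inl hE
  right
  -- there is a small valid set
  obtain ⟨D0, hD0, hc0⟩ : ∃ D0, Vd S.r p f a D0 ∧ (D0.card : ℤ) ≤ S.r p.2 - S.r p.1 - 1 := by
    by_contra hcon
    push Not at hcon
    apply hE
    intro T hT
    obtain ⟨t, ht, htf⟩ := tri_vec S hfa hfb hf hL.1
    have D : Tdat S p f a b T t := ⟨hp, hf, ha, hb, hfa, hfb, hab, hL, hT, ht, htf⟩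
    exact ⟨_, D.fin (θ := 0) (fun c _ I hI _ hIc _ _ _ _ _ => absurd hIc (not_le.2 (hcon I hI))), thf_f T t f a 0⟩
  have hcd : ∀ D, Vd S.r p f a D → (D.card : ℤ) ≤ S.r p.2 - S.r p.1 - 1 → (D.card : ℤ) = S.r p.2 - S.r p.1 - 1 := by
    intro D hD hDc
    by_contra hne
    exact hE (key_count S hp hf ha hb hfa hfb hab hL hGg hfG haG hbG hex hD (by omega))
  have h0c := hcd D0 hD0 hc0
  have hother : ∀ D, Vd S.r p f a D → (D.card : ℤ) ≤ S.r p.2 - S.r p.1 - 1 → D = D0 ∨ D = G \ D0 := by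
    intro D hD hDc
    have hDc' := hcd D hD hDc
    by_cases hne : D = D0
    · exact Or.inl hne
    right
    have hint : ((D0 ∩ D).card : ℤ) + 1 ≤ D0.card := by
      have h3 : (D0 ∩ D).card < D0.card := by
        refine Finset.card_lt_card ⟨Finset.inter_subset_left, fun h => hne ?_⟩
        have h4 : D0 ⊆ D := fun x hx => (Finset.mem_inter.1 (h hx)).2
        exact (Finset.eq_of_subset_of_card_le h4 (by omega)).symm
      omega
    have hcov : ∀ w ∈ G, w ∈ D0 ∨ w ∈ D := by
      intro w hw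
      by_contra hcon
      rw [not_or] at hcon
      exact hE (key_two S hp hf ha hb hfa hfb hab hL hGg hfG haG hbG hex hD0 hD ⟨w, hw, hcon⟩ (by omega))
    have h5 : G \ D0 ⊆ D := by
      intro w hw
      obtain ⟨h6, h7⟩ := Finset.mem_sdiff.1 hw
      exact (hcov w h6).resolve_left h7
    have h8 : (G \ D0).card + D0.card = G.card := Finset.card_sdiff_add_card_eq_card (vsub D0 hD0)
    exact (Finset.eq_of_subset_of_card_le h5 (by omega)).symm
  refine ⟨D0, vsub D0 hD0, hD0, ?_, h0c, hother⟩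
  by_contra hnv
  apply hE
  intro T hT
  obtain ⟨t, ht, htf⟩ := tri_vec S hfa hfb hf hL.1
  have D : Tdat S p f a b T t := ⟨hp, hf, ha, hb, hfa, hfb, hab, hL, hT, ht, htf⟩
  obtain ⟨w, hw, hw0⟩ : ∃ w ∈ G, w ∉ D0 := by
    by_contra hcon
    push Not at hcon
    have h1 := Finset.card_le_card (show G ⊆ D0 from hcon)
    omega
  have hwn : w ∈ gs p ∧ w ≠ f ∧ w ≠ a ∧ w ≠ b :=
    ⟨hGg hw, fun h => hfG (h ▸ hw), fun h => haG (h ▸ hw), fun h => hbG (h ▸ hw)⟩
  obtain ⟨Te, hTe, ee⟩ := hex w hw T (hT.mono ((rm_sub true w p).rm true f))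
  obtain ⟨θ, hθ⟩ := D.node (q := rm true w p) (Finset.Subset.refl _) (by
    intro x hx
    refine Finset.mem_erase.2 ⟨?_, D.sub hx⟩
    rintro rfl
    simp only [Finset.mem_insert] at hx
    rcases hx with h | h | h | h
    · exact hwn.2.1 h
    · exact hwn.2.2.1 h
    · exact hwn.2.2.2 h
    · exact (Finset.mem_sdiff.1 hwn.1).2 h) hTe ee
  refine ⟨thf T t f a θ, D.fin ?_, thf_f T t f a θ⟩
  intro c hc I hI _ hIc d hd hcd _ _
  have hI0 : I = D0 := by
    rcases hother I hI hIc with h | h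
    · exact h
    · exact absurd (h ▸ hI) hnv
  have hdw : d w = 0 := by
    refine hd.2 w fun h => ?_
    rcases Finset.mem_insert.1 h with h | h
    · exact hwn.2.1 h
    · rcases Finset.mem_union.1 h with h | h
      · exact (Finset.mem_sdiff.1 hwn.1).2 h
      · exact hw0 (hI0 ▸ h)
  have hs : insert f (p.1 ∪ I) ⊆ p.2 :=
    Finset.insert_subset (Finset.mem_sdiff.1 hf).1 (Finset.union_subset hp fun x hx => (Finset.mem_sdiff.1 (hI.1 hx)).1)
  exact hθ c hc d (ns_spt (spt_mono hs hd) hdw) hcd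

end Pool.Agent.QU
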