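import Pool.Agent.QUR.Cnt

set_option autoImplicit false

/-!
# QUR/PSix: the matroid `P6` has no representation over the field with four elements

Six points `g1, g2, g3, u, v, w` of a plane, `u, v, w` collinear: some other triple is collinear.
-/

namespace Pool.Agent.QU

open Pool.Agent.FRM

private theorem p6_dec : ∀ b1 b2 b3 : F4, b1 ≠ 0 → b2 ≠ 0 → b3 ≠ 0 → b1 ≠ b2 → b1 ≠ b3 → b2 ≠ b3 → ∀ d1 d2 d3 : F4, d1 ≠ 0 → d2 ≠ 0 → d3 ≠ 0 →
    d1 ≠ d2 → d1 ≠ d3 → d2 ≠ d3 → b1 * d2 ≠ b2 * d1 → b1 * d3 ≠ b3 * d1 → b2 * d3 ≠ b3 * d2 →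
    (b3 - b2) * d1 + (b1 - b3) * d2 + (b2 - b1) * d3 ≠ 0 := by
  decide

variable {E : Type} [Fintype E] [DecidableEq E]

/-- no `P6` -/
theorem no_p6 (S : TP F4 E) {X W : Finset E} (hX : X ⊆ W) (h3 : S.r W ≤ S.r X + 3) {g1 g2 g3 u v w : E}
    (m1 : g1 ∈ W) (m2 : g2 ∈ W) (m3 : g3 ∈ W) (mu : u ∈ W) (mv : v ∈ W) (mw : w ∈ W)
    (B : ∀ x ∈ ({g1, g2, g3, u, v, w} : Finset E), ∀ y ∈ ({g1, g2, g3, u, v, w} : Finset E), ∀ z ∈ ({g1, g2, g3, u, v, w} : Finset E),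
      x ≠ y → x ≠ z → y ≠ z → ({x, y, z} : Finset E) ≠ {u, v, w} → S.r X + 3 ≤ S.r (insert x (insert y (insert z X))))
    (d12 : g1 ≠ g2) (d13 : g1 ≠ g3) (d23 : g2 ≠ g3) (d1u : g1 ≠ u) (d1v : g1 ≠ v) (d1w : g1 ≠ w) (d2u : g2 ≠ u) (d2v : g2 ≠ v) (d2w : g2 ≠ w)
    (d3u : g3 ≠ u) (d3v : g3 ≠ v) (d3w : g3 ≠ w) (duv : u ≠ v) (duw : u ≠ w) (dvw : v ≠ w)
    (hl : S.r (insert u (insert v (insert w X))) ≤ S.r X + 2) : False := by
  have hr := S.rk
  -- triples with one of the `g` are bases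
  have notg : ∀ {g x y : E}, g = g1 ∨ g = g2 ∨ g = g3 → ({g, x, y} : Finset E) ≠ {u, v, w} := by
    intro g x y hg h
    have h1 : g ∈ ({u, v, w} : Finset E) := by
      rw [← h]
      exact Finset.mem_insert_self _ _
    simp only [Finset.mem_insert, Finset.mem_singleton] at h1
    rcases hg with rfl | rfl | rfl <;> rcases h1 with h1 | h1 | h1
    · exact d1u h1
    · exact d1v h1
    · exact d1w h1
    · exact d2u h1
    · exact d2v h1
    · exact d2w h1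
    · exact d3u h1
    · exact d3v h1
    · exact d3w h1
  have bas : ∀ {g x y : E}, g = g1 ∨ g = g2 ∨ g = g3 → g ∈ ({g1, g2, g3, u, v, w} : Finset E) → x ∈ ({g1, g2, g3, u, v, w} : Finset E) →
      y ∈ ({g1, g2, g3, u, v, w} : Finset E) → g ≠ x → g ≠ y → x ≠ y → S.r X + 3 ≤ S.r (insert g (insert x (insert y X))) :=
    fun hg m m' m'' h h' h'' => B _ m _ m' _ m'' h h' h'' (notg hg)
  have ins : ∀ {c : E → F4} {A : Finset E} {y : E}, c ∈ van S.U A → c y = 0 → c ∈ van S.U (insert y A) := by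
    intro c A y hc h
    refine ⟨hc.1, fun x hx => ?_⟩
    rcases Finset.mem_insert.1 hx with rfl | hx
    · exact h
    · exact hc.2 x hx
  have full : ∀ x y z : E, x ∈ W → y ∈ W → z ∈ W → S.r X + 3 ≤ S.r (insert x (insert y (insert z X))) → ∀ c ∈ van S.U X, c x = 0 → c y = 0 → c z = 0 →
      ∀ t ∈ W, c t = 0 := by
    intro x y z hx hy hz hxyz c hc h1 h2 h4 t ht
    refine S.van_eq_zero (C := insert x (insert y (insert z X))) ?_ c (ins (ins (ins hc h4) h2) h1)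
    have n1 := hr.mono (insert x (insert y (insert z X))) (insert t (insert x (insert y (insert z X)))) (Finset.subset_insert _ _)
    have n2 := hr.mono (insert t (insert x (insert y (insert z X)))) W
      (Finset.insert_subset ht (Finset.insert_subset hx (Finset.insert_subset hy (Finset.insert_subset hz hX))))
    omega
  -- the three functionals
  have fun1 : ∀ g h k : E, S.r X + 3 ≤ S.r (insert g (insert h (insert k X))) → ∃ c ∈ van S.U X, c g = 1 ∧ c h = 0 ∧ c k = 0 := by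
    intro g h k hb
    have n1 := hr.unit X k
    have n2 := hr.unit (insert k X) h
    have n3 := hr.unit (insert h (insert k X)) g
    obtain ⟨c, hc, e⟩ := S.van_one (C := insert h (insert k X)) (x := g) (by omega)
    exact ⟨c, ⟨hc.1, fun x hx => hc.2 x (Finset.mem_insert_of_mem (Finset.mem_insert_of_mem hx))⟩, e, hc.2 h (Finset.mem_insert_self _ _),
      hc.2 k (Finset.mem_insert_of_mem (Finset.mem_insert_self _ _))⟩
  have s1 : g1 ∈ ({g1, g2, g3, u, v, w} : Finset E) := by simp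
  have s2 : g2 ∈ ({g1, g2, g3, u, v, w} : Finset E) := by simp
  have s3 : g3 ∈ ({g1, g2, g3, u, v, w} : Finset E) := by simp
  have su : u ∈ ({g1, g2, g3, u, v, w} : Finset E) := by simp
  have sv : v ∈ ({g1, g2, g3, u, v, w} : Finset E) := by simp
  have sw : w ∈ ({g1, g2, g3, u, v, w} : Finset E) := by simp
  obtain ⟨c1, hc1, e11, e12, e13⟩ := fun1 g1 g2 g3 (bas (Or.inl rfl) s1 s2 s3 d12 d13 d23)
  obtain ⟨c2, hc2, e22, e21, e23⟩ := fun1 g2 g1 g3 (bas (Or.inr (Or.inl rfl)) s2 s1 s3 d12.symm d23 d13)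
  obtain ⟨c3, hc3, e33, e31, e32⟩ := fun1 g3 g1 g2 (bas (Or.inr (Or.inr rfl)) s3 s1 s2 d13.symm d23.symm d12)
  -- they do not vanish on u, v, w
  have nz1 : ∀ t ∈ W, t ∈ ({g1, g2, g3, u, v, w} : Finset E) → g2 ≠ t → g3 ≠ t → c1 t ≠ 0 := by
    intro t ht hts h2 h3' h
    have := full g2 g3 t m2 m3 ht (bas (Or.inr (Or.inl rfl)) s2 s3 hts d23 h2 h3') c1 hc1 e12 e13 h g1 m1
    rw [e11] at this
    exact one_ne_zero this
  have nz2 : ∀ t ∈ W, t ∈ ({g1, g2, g3, u, v, w} : Finset E) → g1 ≠ t → g3 ≠ t → c2 t ≠ 0 := by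
    intro t ht hts h1 h3' h
    have := full g1 g3 t m1 m3 ht (bas (Or.inl rfl) s1 s3 hts d13 h1 h3') c2 hc2 e21 e23 h g2 m2
    rw [e22] at this
    exact one_ne_zero this
  have nz3 : ∀ t ∈ W, t ∈ ({g1, g2, g3, u, v, w} : Finset E) → g1 ≠ t → g2 ≠ t → c3 t ≠ 0 := by
    intro t ht hts h1 h2 h
    have := full g1 g2 t m1 m2 ht (bas (Or.inl rfl) s1 s2 hts d12 h1 h2) c3 hc3 e31 e32 h g3 m3
    rw [e33] at this
    exact one_ne_zero this
  -- the ratios
  have det : ∀ {c c' : E → F4} {g h x y : E}, c ∈ van S.U X → c' ∈ van S.U X → c g = 0 → c' g = 0 → c h = 1 → c' h = 0 → g ∈ W → h ∈ W → x ∈ W → y ∈ W →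
      S.r X + 3 ≤ S.r (insert g (insert x (insert y X))) → c' x ≠ 0 → c x * c' y ≠ c y * c' x := by
    intro c c' g h x y hc hc' z1 z2 z3 z4 hg hh hx hy hb hne heq
    have hm : c' x • c - c x • c' ∈ van S.U X := Submodule.sub_mem _ (Submodule.smul_mem _ _ hc) (Submodule.smul_mem _ _ hc')
    have := full g x y hg hx hy hb _ hm (by simp [z1, z2]) (by simp [mul_comm]) (by
      rw [Pi.sub_apply, Pi.smul_apply, Pi.smul_apply, smul_eq_mul, smul_eq_mul]
      linear_combination -heq) h hh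
    rw [Pi.sub_apply, Pi.smul_apply, Pi.smul_apply, smul_eq_mul, smul_eq_mul, z3, z4] at this
    apply hne
    linear_combination this
  have hu1 := nz1 u mu su d2u d3u
  have hv1 := nz1 v mv sv d2v d3v
  have hw1 := nz1 w mw sw d2w d3w
  have hu2 := nz2 u mu su d1u d3u
  have hv2 := nz2 v mv sv d1v d3v
  have hw2 := nz2 w mw sw d1w d3w
  have hu3 := nz3 u mu su d1u d2u
  have hv3 := nz3 v mv sv d1v d2v
  have hw3 := nz3 w mw sw d1w d2w
  have r12 : ∀ {x y : E}, x ∈ W → y ∈ W → x ∈ ({g1, g2, g3, u, v, w} : Finset E) → y ∈ ({g1, g2, g3, u, v, w} : Finset E) → g3 ≠ x → g3 ≠ y → x ≠ y →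
      c2 x ≠ 0 → c1 x * c2 y ≠ c1 y * c2 x := fun hx hy sx sy h h' h'' hne =>
    det hc1 hc2 e13 e23 e11 e21 m3 m1 hx hy (bas (Or.inr (Or.inr rfl)) s3 sx sy h h' h'') hne
  have r13 : ∀ {x y : E}, x ∈ W → y ∈ W → x ∈ ({g1, g2, g3, u, v, w} : Finset E) → y ∈ ({g1, g2, g3, u, v, w} : Finset E) → g2 ≠ x → g2 ≠ y → x ≠ y →
      c3 x ≠ 0 → c1 x * c3 y ≠ c1 y * c3 x := fun hx hy sx sy h h' h'' hne =>
    det hc1 hc3 e12 e32 e11 e31 m2 m1 hx hy (bas (Or.inr (Or.inl rfl)) s2 sx sy h h' h'') hne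
  have r23 : ∀ {x y : E}, x ∈ W → y ∈ W → x ∈ ({g1, g2, g3, u, v, w} : Finset E) → y ∈ ({g1, g2, g3, u, v, w} : Finset E) → g1 ≠ x → g1 ≠ y → x ≠ y →
      c3 x ≠ 0 → c2 x * c3 y ≠ c2 y * c3 x := fun hx hy sx sy h h' h'' hne =>
    det hc2 hc3 e21 e31 e22 e32 m1 m2 hx hy (bas (Or.inl rfl) s1 sx sy h h' h'') hne
  have uv12 := r12 mu mv su sv d3u d3v duv hu2
  have uv13 := r13 mu mv su sv d2u d2v duv hu3
  have uv23 := r23 mu mv su sv d1u d1v duv hu3
  have uw12 := r12 mu mw su sw d3u d3w duw hu2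
  have uw13 := r13 mu mw su sw d2u d2w duw hu3
  have uw23 := r23 mu mw su sw d1u d1w duw hu3
  have vw12 := r12 mv mw sv sw d3v d3w dvw hv2
  have vw13 := r13 mv mw sv sw d2v d2w dvw hv3
  have vw23 := r23 mv mw sv sw d1v d1w dvw hv3
  -- scale at u
  set b1 := c1 v * (c1 u)⁻¹ with hb1
  set b2 := c2 v * (c2 u)⁻¹ with hb2
  set b3 := c3 v * (c3 u)⁻¹ with hb3
  set f1 := c1 w * (c1 u)⁻¹ with hf1
  set f2 := c2 w * (c2 u)⁻¹ with hf2
  set f3 := c3 w * (c3 u)⁻¹ with hf3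
  have E1 : c1 v = b1 * c1 u := by rw [hb1, inv_mul_cancel_right₀ hu1]
  have E2 : c2 v = b2 * c2 u := by rw [hb2, inv_mul_cancel_right₀ hu2]
  have E3 : c3 v = b3 * c3 u := by rw [hb3, inv_mul_cancel_right₀ hu3]
  have F1 : c1 w = f1 * c1 u := by rw [hf1, inv_mul_cancel_right₀ hu1]
  have F2 : c2 w = f2 * c2 u := by rw [hf2, inv_mul_cancel_right₀ hu2]
  have F3 : c3 w = f3 * c3 u := by rw [hf3, inv_mul_cancel_right₀ hu3]
  have key := p6_dec b1 b2 b3 (mul_ne_zero hv1 (inv_ne_zero hu1)) (mul_ne_zero hv2 (inv_ne_zero hu2)) (mul_ne_zero hv3 (inv_ne_zero hu3))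
    (fun h => uv12 (by rw [E1, E2, h]; ring)) (fun h => uv13 (by rw [E1, E3, h]; ring)) (fun h => uv23 (by rw [E2, E3, h]; ring))
    f1 f2 f3 (mul_ne_zero hw1 (inv_ne_zero hu1)) (mul_ne_zero hw2 (inv_ne_zero hu2)) (mul_ne_zero hw3 (inv_ne_zero hu3))
    (fun h => uw12 (by rw [F1, F2, h]; ring)) (fun h => uw13 (by rw [F1, F3, h]; ring)) (fun h => uw23 (by rw [F2, F3, h]; ring))
    (fun h => vw12 (by rw [E1, E2, F1, F2]; linear_combination (c1 u * c2 u) * h))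
    (fun h => vw13 (by rw [E1, E3, F1, F3]; linear_combination (c1 u * c3 u) * h))
    (fun h => vw23 (by rw [E2, E3, F2, F3]; linear_combination (c2 u * c3 u) * h))
  -- the functional which vanishes on u, v
  have hm : ((b3 - b2) * (c1 u)⁻¹) • c1 + ((b1 - b3) * (c2 u)⁻¹) • c2 + ((b2 - b1) * (c3 u)⁻¹) • c3 ∈ van S.U X :=
    Submodule.add_mem _ (Submodule.add_mem _ (Submodule.smul_mem _ _ hc1) (Submodule.smul_mem _ _ hc2)) (Submodule.smul_mem _ _ hc3)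
  have val : ∀ {k1 k2 k3 : F4} {t : E}, c1 t = k1 * c1 u → c2 t = k2 * c2 u → c3 t = k3 * c3 u →
      (((b3 - b2) * (c1 u)⁻¹) • c1 + ((b1 - b3) * (c2 u)⁻¹) • c2 + ((b2 - b1) * (c3 u)⁻¹) • c3) t =
        (b3 - b2) * k1 + (b1 - b3) * k2 + (b2 - b1) * k3 := by
    intro k1 k2 k3 t h1 h2 h4
    rw [Pi.add_apply, Pi.add_apply, Pi.smul_apply, Pi.smul_apply, Pi.smul_apply, smul_eq_mul, smul_eq_mul, smul_eq_mul, h1, h2, h4]
    have i1 := inv_mul_cancel₀ hu1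
    have i2 := inv_mul_cancel₀ hu2
    have i3 := inv_mul_cancel₀ hu3
    linear_combination ((b3 - b2) * k1) * i1 + ((b1 - b3) * k2) * i2 + ((b2 - b1) * k3) * i3
  have vu := val (k1 := 1) (k2 := 1) (k3 := 1) (t := u) (by rw [one_mul]) (by rw [one_mul]) (by rw [one_mul])
  have vv := val E1 E2 E3
  have vw := val F1 F2 F3
  have nuv : S.r X + 2 ≤ S.r (insert u (insert v X)) := by
    have n1 := bas (Or.inl rfl) s1 su sv d1u d1v duv
    have n2 := hr.unit (insert u (insert v X)) g1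
    omega
  have hwz : (((b3 - b2) * (c1 u)⁻¹) • c1 + ((b1 - b3) * (c2 u)⁻¹) • c2 + ((b2 - b1) * (c3 u)⁻¹) • c3) w = 0 := by
    refine S.van_eq_zero (C := insert u (insert v X)) ?_ _ (ins (ins hm (by rw [vv]; ring)) (by rw [vu]; ring))
    have n1 := hr.mono (insert u (insert v X)) (insert w (insert u (insert v X))) (Finset.subset_insert _ _)
    have n2 : insert w (insert u (insert v X)) = insert u (insert v (insert w X)) := by
      ext x
      simp only [Finset.mem_insert]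
      tauto
    rw [n2] at n1 ⊢
    omega
  rw [vw] at hwz
  exact key hwz

end Pool.Agent.QU
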