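import Pool.Agent.QUR.NRank
import Pool.Agent.QUR.NSpec
import Pool.Agent.QUR.PSix
import Pool.Agent.QUR.Key
import Pool.Agent.QUR.ExF
import Pool.Agent.QUT.Csm
import Pool.Agent.QUL.LBinR
import Pool.Agent.QUO.FanE
import Pool.Agent.QUN.Th

set_option autoImplicit false

/-!
# QUR/NNine: no conflict at the triangle, nine elements

`n9`: a 3-connected rich box with nine elements and rank four, without triads and without two disjoint triangles, all deletions 3-connected, a triangle
`{f, a, b}` without conflicts. There is a form which is not diagonal. Count for `b`; in the special configuration `N9` there is a good element `e` for T2D.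
-/

namespace Pool.Agent.QU

open QUB (Cn Ok Rk)
open Pool.Agent.FRM

section rank

variable {E : Type} [DecidableEq E] {r : Finset E → ℤ}

/-- six elements span -/
theorem k6_of {p : Itv E} (hr : Rk r) (hp : p.1 ⊆ p.2) (hn : (gs p).card = 9) (hT : NoTd r p) {B : Finset E} (hB : B ⊆ gs p) (hc : 6 ≤ B.card) :
    r (p.1 ∪ B) = r p.2 := by
  obtain ⟨B0, hB0, hB0c⟩ := Finset.exists_subset_card_eq hc
  have hB0g := hB0.trans hB
  have h1 : (gs p \ B0).card = 3 := by
    rw [Finset.card_sdiff_of_subset hB0g, hn, hB0c]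
  obtain ⟨x, y, z, hxy, hxz, hyz, hxyz⟩ := Finset.card_eq_three.1 h1
  have m : ∀ v ∈ ({x, y, z} : Finset E), v ∈ gs p ∧ v ∉ B0 := by
    intro v hv
    rw [← hxyz] at hv
    exact Finset.mem_sdiff.1 hv
  have h2 := hT x (m x (by simp)).1 y (m y (by simp)).1 z (m z (by simp)).1 hxy hxz hyz
  have h3 : ((p.2.erase x).erase y).erase z ⊆ p.1 ∪ B0 := by
    intro v hv
    simp only [Finset.mem_erase] at hv
    obtain ⟨v1, v2, v3, v4⟩ := hv
    by_cases hv1 : v ∈ p.1
    · exact Finset.mem_union_left _ hv1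
    · have hvg : v ∈ gs p := Finset.mem_sdiff.2 ⟨v4, hv1⟩
      by_contra hcon
      have h4 : v ∈ gs p \ B0 := Finset.mem_sdiff.2 ⟨hvg, fun h' => hcon (Finset.mem_union_right _ h')⟩
      rw [hxyz] at h4
      simp only [Finset.mem_insert, Finset.mem_singleton] at h4
      tauto
  have h5 := hr.mono _ _ h3
  have h6 := hr.mono (p.1 ∪ B0) (p.1 ∪ B) (Finset.union_subset_union (Finset.Subset.refl _) hB0)
  have h7 := hr.mono (p.1 ∪ B) p.2 (Finset.union_subset hp (hB.trans Finset.sdiff_subset))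
  omega

/-- a parallel element replaces an element of a rich line -/
theorem swap_rich {q : Itv E} (hr : Rk r) (hq : q.1 ⊆ q.2) (h5 : (gs q).card = 5) (hr2 : r q.2 = r q.1 + 2)
    (hl : ∀ i ∈ gs q, ∀ j ∈ gs q, i ≠ j → r (q.1 ∪ {i, j}) = r q.1 + 2) {f y : E} (hf : f ∉ q.2) (hy : y ∈ gs q)
    (hf1 : r q.1 + 1 ≤ r (insert f q.1)) (hfy : r (insert f (insert y q.1)) ≤ r q.1 + 1) : Rich r (q.1, insert f (q.2.erase y)) := by
  have hy1 := Finset.mem_sdiff.1 hy
  have hf1' : f ∉ q.1 := fun h => hf (hq h)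
  have hg : gs (q.1, insert f (q.2.erase y)) = insert f ((gs q).erase y) := by
    ext v
    simp only [gs, Finset.mem_sdiff, Finset.mem_insert, Finset.mem_erase]
    by_cases hv : v = f
    · subst hv
      tauto
    · tauto
  have hfg : f ∉ (gs q).erase y := fun h => hf (Finset.mem_sdiff.1 (Finset.mem_erase.1 h).2).1
  -- the pairs with `f`
  have pf : ∀ j ∈ (gs q).erase y, r q.1 + 2 ≤ r (q.1 ∪ {f, j}) := by
    intro j hj
    obtain ⟨hjy, hjg⟩ := Finset.mem_erase.1 hj
    have e1 := hr.sub (q.1 ∪ {f, j}) (insert f (insert y q.1))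
    have e2 := hr.mono (insert f q.1) ((q.1 ∪ {f, j}) ∩ insert f (insert y q.1)) (by
      intro v hv
      simp only [Finset.mem_insert, Finset.mem_inter, Finset.mem_union, Finset.mem_singleton] at hv ⊢
      tauto)
    have e3 := hr.mono (q.1 ∪ {y, j}) ((q.1 ∪ {f, j}) ∪ insert f (insert y q.1)) (by
      intro v hv
      simp only [Finset.mem_insert, Finset.mem_union, Finset.mem_singleton] at hv ⊢
      tauto)
    have e4 := hl y hy j hjg hjy.symm
    omega
  have up2 : ∀ i j : E, r (q.1 ∪ {i, j}) ≤ r q.1 + 2 := by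
    intro i j
    have e1 := hr.unit q.1 j
    have e2 := hr.unit (insert j q.1) i
    have e3 : q.1 ∪ {i, j} = insert i (insert j q.1) := by
      ext v
      simp only [Finset.mem_insert, Finset.mem_union, Finset.mem_singleton]
      tauto
    rw [e3]
    omega
  refine ⟨?_, ?_, Or.inl ⟨?_, ?_⟩⟩
  · intro v hv
    refine Finset.mem_insert_of_mem (Finset.mem_erase.2 ⟨fun h => hy1.2 (h ▸ hv), hq hv⟩)
  · rw [hg, Finset.card_insert_of_notMem hfg, Finset.card_erase_of_mem hy, h5]
  · obtain ⟨i, hi, j, hj, hij⟩ := Finset.one_lt_card.1 (show 1 < ((gs q).erase y).card by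
      rw [Finset.card_erase_of_mem hy, h5]; norm_num)
    have e1 := hl i (Finset.mem_erase.1 hi).2 j (Finset.mem_erase.1 hj).2 hij
    have e2 := hr.mono (q.1 ∪ {i, j}) (insert f (q.2.erase y)) (by
      intro v hv
      simp only [Finset.mem_insert, Finset.mem_union, Finset.mem_singleton, Finset.mem_erase] at hv ⊢
      rcases hv with hv | rfl | rfl
      · exact Or.inr ⟨fun h => hy1.2 (h ▸ hv), hq hv⟩
      · exact Or.inr ⟨(Finset.mem_erase.1 hi).1, (Finset.mem_sdiff.1 (Finset.mem_erase.1 hi).2).1⟩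
      · exact Or.inr ⟨(Finset.mem_erase.1 hj).1, (Finset.mem_sdiff.1 (Finset.mem_erase.1 hj).2).1⟩)
    have e3 := hr.sub q.2 (insert f (insert y q.1))
    have e4 := hr.mono (insert f (q.2.erase y)) (q.2 ∪ insert f (insert y q.1)) (by
      intro v hv
      simp only [Finset.mem_insert, Finset.mem_union, Finset.mem_erase] at hv ⊢
      tauto)
    have e5 := hr.mono (insert y q.1) (q.2 ∩ insert f (insert y q.1)) (by
      intro v hv
      simp only [Finset.mem_insert, Finset.mem_inter] at hv ⊢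
      rcases hv with rfl | hv
      · exact ⟨hy1.1, Or.inr (Or.inl rfl)⟩
      · exact ⟨hq hv, Or.inr (Or.inr hv)⟩)
    have e6 : r q.1 + 1 ≤ r (insert y q.1) := by
      have e7 := hr.unit (insert y q.1) i
      have e8 := hl i (Finset.mem_erase.1 hi).2 y hy (Finset.mem_erase.1 hi).1
      have e9 : q.1 ∪ {i, y} = insert i (insert y q.1) := by
        ext v
        simp only [Finset.mem_insert, Finset.mem_union, Finset.mem_singleton]
        tauto
      rw [e9] at e8
      omega
    show r (insert f (q.2.erase y)) = r q.1 + 2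
    omega
  · intro i hi j hj hij
    rw [hg] at hi hj
    show r (q.1 ∪ {i, j}) = r q.1 + 2
    have hu := up2 i j
    rcases Finset.mem_insert.1 hi with hif | hi'
    · rcases Finset.mem_insert.1 hj with hjf | hj'
      · exact absurd (hif.trans hjf.symm) hij
      · have h1 := pf j hj'
        rw [← hif] at h1
        omega
    · rcases Finset.mem_insert.1 hj with hjf | hj'
      · have h1 := pf i hi'
        rw [← hjf, Finset.pair_comm] at h1
        omega
      · exact hl i (Finset.mem_erase.1 hi').2 j (Finset.mem_erase.1 hj').2 hij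

/-- three collinear elements -/
theorem tri_of {p : Itv E} (hr : Rk r) {x y z : E} (hxy : r (insert x (insert y p.1)) = r p.1 + 2)
    (hxz : r (insert x (insert z p.1)) = r p.1 + 2) (hyz : r (insert y (insert z p.1)) = r p.1 + 2)
    (hle : r (p.1 ∪ {x, y, z}) ≤ r p.1 + 2) : Tri3 r p x y z := by
  have e1 : insert x (insert y (insert z p.1)) = p.1 ∪ {x, y, z} := by
    ext w
    simp only [Finset.mem_insert, Finset.mem_union, Finset.mem_singleton]
    tauto
  have e2 : insert z (insert x (insert y p.1)) = p.1 ∪ {x, y, z} := by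
    ext w
    simp only [Finset.mem_insert, Finset.mem_union, Finset.mem_singleton]
    tauto
  have e3 : insert y (insert x (insert z p.1)) = p.1 ∪ {x, y, z} := by
    ext w
    simp only [Finset.mem_insert, Finset.mem_union, Finset.mem_singleton]
    tauto
  have m1 := hr.mono (insert y (insert z p.1)) (insert x (insert y (insert z p.1))) (Finset.subset_insert _ _)
  rw [e1] at m1
  refine ⟨⟨?_, ?_⟩, ?_⟩
  · rw [e1, hyz]
    omega
  · rw [e2, hxy]
    omega
  · rw [e3, hxz]
    omega

end rank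

section main

variable {E : Type} [Fintype E] [DecidableEq E]

/-- `M / b \ a` is not rich or stays rich after the deletion of an element of `Y` -/
theorem N9.good (S : TP F4 E) {p : Itv E} {f a b : E} {D : Finset E} (h : N9 S.r p f a b D) :
    ∃ e ∈ gs p \ {f, a, b}, HasRich S.r (rm true e (rm true a (rm false b p))) ∨ ¬ HasRich S.r (rm true a (rm false b p)) := by
  by_cases hR : HasRich S.r (rm true a (rm false b p))
  swap
  · obtain ⟨e, he⟩ := Finset.card_pos.1 (show 0 < (gs p \ {f, a, b}).card by rw [h.Yc]; norm_num)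
    exact ⟨e, he, Or.inr hR⟩
  obtain ⟨q, ⟨hq1, hq2⟩, hqq, h5, hcase⟩ := hR
  by_cases hout : ∃ e ∈ gs p \ {f, a, b}, e ∉ q.2
  · obtain ⟨e, he, heq⟩ := hout
    refine ⟨e, he, Or.inl ⟨q, ⟨hq1, ?_⟩, hqq, h5, hcase⟩⟩
    intro v hv
    exact Finset.mem_erase.2 ⟨fun h' => heq (h' ▸ hv), hq2 hv⟩
  push Not at hout
  have hr := h.hr
  have hbq : insert b p.1 ⊆ q.1 := hq1
  have hq2' : q.2 ⊆ p.2.erase a := hq2
  -- some element of `Y` is contracted
  obtain ⟨c, hcY, hcq⟩ : ∃ c ∈ gs p \ {f, a, b}, c ∈ q.1 := by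
    by_contra hcon
    push Not at hcon
    have h1 : gs p \ {f, a, b} ⊆ gs q := fun v hv => Finset.mem_sdiff.2 ⟨hout v hv, hcon v hv⟩
    have h2 := Finset.card_le_card h1
    rw [h.Yc, h5] at h2
    omega
  have hcm := h.mY.1 hcY
  have hq1r : S.r p.1 + 2 ≤ S.r q.1 := by
    have h1 := h.k2 b h.hb c hcm.1 hcm.2.2.2.symm
    have h2 := hr.mono (p.1 ∪ {b, c}) q.1 (by
      intro v hv
      simp only [Finset.mem_union, Finset.mem_insert, Finset.mem_singleton] at hv
      rcases hv with hv | rfl | rfl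
      · exact hbq (Finset.mem_insert_of_mem hv)
      · exact hbq (Finset.mem_insert_self _ _)
      · exact hcq)
    omega
  have hq2r : S.r q.2 ≤ S.r p.1 + 4 := by
    have h1 := hr.mono q.2 p.2 (hq2'.trans (Finset.erase_subset _ _))
    have h2 := h.r4
    omega
  -- the line case
  obtain ⟨hr2, hl⟩ : S.r q.2 = S.r q.1 + 2 ∧ ∀ i ∈ gs q, ∀ j ∈ gs q, i ≠ j → S.r (q.1 ∪ {i, j}) = S.r q.1 + 2 := by
    rcases hcase with h1 | h1
    · exact h1
    · exfalso
      have := h1.1
      omega
  -- two elements of `insert f Y` are not both contracted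
  have two' : ∀ x ∈ insert f (gs p \ {f, a, b}), x ∈ q.1 → x = c := by
    intro x hx hxq
    by_contra hne
    have h1 := h.two (X := {x, c}) (by
      intro v hv
      simp only [Finset.mem_insert, Finset.mem_singleton] at hv
      rcases hv with rfl | rfl
      · exact hx
      · exact Finset.mem_insert_of_mem hcY) (by rw [Finset.card_pair hne])
    have h2 := hr.mono (p.1 ∪ insert b {x, c}) q.1 (by
      intro v hv
      simp only [Finset.mem_union, Finset.mem_insert, Finset.mem_singleton] at hv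
      rcases hv with hv | rfl | rfl | rfl
      · exact hbq (Finset.mem_insert_of_mem hv)
      · exact hbq (Finset.mem_insert_self _ _)
      · exact hxq
      · exact hcq)
    omega
  have hgq : gs q = (gs p \ {f, a, b}).erase c := by
    refine (Finset.eq_of_subset_of_card_le ?_ ?_).symm
    · intro v hv
      obtain ⟨hvc, hvY⟩ := Finset.mem_erase.1 hv
      exact Finset.mem_sdiff.2 ⟨hout v hvY, fun h' => hvc (two' v (Finset.mem_insert_of_mem hvY) h')⟩
    · rw [Finset.card_erase_of_mem hcY, h.Yc, h5]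
  have hfc : f ≠ c := hcm.2.1.symm
  have hfq1 : f ∉ q.1 := fun h' => hfc (two' f (Finset.mem_insert_self _ _) h')
  have hfq2 : f ∉ q.2 := by
    intro h'
    have h1 : f ∈ gs q := Finset.mem_sdiff.2 ⟨h', hfq1⟩
    rw [hgq] at h1
    have h2 := (h.mY.1 (Finset.mem_erase.1 h1).2).2.1
    exact h2 rfl
  have hf2 : f ∈ p.2 := (Finset.mem_sdiff.1 h.hf).1
  have hq1p : q.1 ⊆ p.2 := hqq.trans (hq2'.trans (Finset.erase_subset _ _))
  have rq1 : S.r q.1 = S.r p.1 + 2 := by omega
  have hfr : S.r q.1 + 1 ≤ S.r (insert f q.1) := by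
    have h1 := h.two (X := {f, c}) (by
      intro v hv
      simp only [Finset.mem_insert, Finset.mem_singleton] at hv
      rcases hv with rfl | rfl
      · exact Finset.mem_insert_self _ _
      · exact Finset.mem_insert_of_mem hcY) (by rw [Finset.card_pair hfc])
    have h2 := hr.mono (p.1 ∪ insert b {f, c}) (insert f q.1) (by
      intro v hv
      simp only [Finset.mem_union, Finset.mem_insert, Finset.mem_singleton] at hv ⊢
      rcases hv with hv | rfl | rfl | rfl
      · exact Or.inr (hbq (Finset.mem_insert_of_mem hv))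
      · exact Or.inr (hbq (Finset.mem_insert_self _ _))
      · exact Or.inl rfl
      · exact Or.inr hcq)
    omega
  -- `f` is parallel to an element of the line
  obtain ⟨y, hy, hfy⟩ : ∃ y ∈ gs q, S.r (insert f (insert y q.1)) ≤ S.r q.1 + 1 := by
    by_contra hcon
    push Not at hcon
    have hcon' : ∀ y ∈ gs q, S.r q.1 + 2 ≤ S.r (insert y (insert f q.1)) := by
      intro y hy
      have h1 := hcon y hy
      rw [Finset.insert_comm] at h1
      omega
    have hl' : ∀ i ∈ gs q, ∀ j ∈ gs q, i ≠ j → S.r q.1 + 2 ≤ S.r (insert i (insert j q.1)) := by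
      intro i hi j hj hij
      have h1 := hl i hi j hj hij
      have h2 : q.1 ∪ {i, j} = insert i (insert j q.1) := by
        ext v
        simp only [Finset.mem_insert, Finset.mem_union, Finset.mem_singleton]
        tauto
      rw [h2] at h1
      omega
    have gm : ∀ y ∈ gs q, y ∈ p.2 := fun y hy => (hq2'.trans (Finset.erase_subset _ _)) (Finset.mem_sdiff.1 hy).1
    obtain ⟨y0, hy0⟩ := Finset.card_pos.1 (show 0 < (gs q).card by rw [h5]; norm_num)
    have h4 : ((gs q).erase y0).card = 4 := by rw [Finset.card_erase_of_mem hy0, h5]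
    obtain ⟨y1, hy1⟩ := Finset.card_pos.1 (show 0 < ((gs q).erase y0).card by rw [h4]; norm_num)
    have h3 : (((gs q).erase y0).erase y1).card = 3 := by rw [Finset.card_erase_of_mem hy1, h4]
    obtain ⟨y2, y3, y4, h23, h24, h34, he⟩ := Finset.card_eq_three.1 h3
    have m : ∀ v ∈ ({y2, y3, y4} : Finset E), v ≠ y1 ∧ v ≠ y0 ∧ v ∈ gs q := by
      intro v hv
      rw [← he] at hv
      simpa only [Finset.mem_erase] using hv
    obtain ⟨n21, n20, m2⟩ := m y2 (by simp)
    obtain ⟨n31, n30, m3⟩ := m y3 (by simp)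
    obtain ⟨n41, n40, m4⟩ := m y4 (by simp)
    obtain ⟨n10, m1⟩ := Finset.mem_erase.1 hy1
    have hp0 : S.r (insert f (insert y0 q.1)) = S.r q.1 + 2 := by
      have h1 := hcon y0 hy0
      have h2 := hr.unit (insert y0 q.1) f
      have h3 := hr.unit q.1 y0
      omega
    have hpr : S.r p.2 ≤ S.r q.1 + 2 := by
      have := h.r4
      omega
    refine no26 S (p := p) (W := q.1) (a := f) (b := y0) hf2 hpr hq1p (gm y0 hy0) hp0 (gm y1 m1) (gm y2 m2) (gm y3 m3) (gm y4 m4) ?_
      (hl' y1 m1 y2 m2 n21.symm) (hl' y1 m1 y3 m3 n31.symm) (hl' y1 m1 y4 m4 n41.symm) (hl' y2 m2 y3 m3 h23) (hl' y2 m2 y4 m4 h24)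
      (hl' y3 m3 y4 m4 h34)
    intro y hy
    simp only [Finset.mem_insert, Finset.mem_singleton] at hy
    rcases hy with rfl | rfl | rfl | rfl
    · exact ⟨hcon' _ m1, hl' _ m1 _ hy0 n10⟩
    · exact ⟨hcon' _ m2, hl' _ m2 _ hy0 n20⟩
    · exact ⟨hcon' _ m3, hl' _ m3 _ hy0 n30⟩
    · exact ⟨hcon' _ m4, hl' _ m4 _ hy0 n40⟩
  have hyY : y ∈ gs p \ {f, a, b} := by
    rw [hgq] at hy
    exact (Finset.mem_erase.1 hy).2
  refine ⟨y, hyY, Or.inl ⟨(q.1, insert f (q.2.erase y)), ⟨hq1, ?_⟩, swap_rich hr hqq h5 hr2 hl hfq2 hy hfr hfy⟩⟩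
  show insert f (q.2.erase y) ⊆ (p.2.erase a).erase y
  intro v hv
  rcases Finset.mem_insert.1 hv with rfl | hv
  · exact Finset.mem_erase.2 ⟨(h.mY.1 hyY).2.1.symm, Finset.mem_erase.2 ⟨h.hfa, hf2⟩⟩
  · obtain ⟨h1, h2⟩ := Finset.mem_erase.1 hv
    exact Finset.mem_erase.2 ⟨h1, hq2' h2⟩

/-- every element of `D` is in the plane of a triple of `Y` which does not contain `b` -/
theorem N9.plane' (S : TP F4 E) {p : Itv E} {f a b : E} {D : Finset E} (h : N9 S.r p f a b D) {e : E} (he : e ∈ D) :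
    ∃ B ⊆ gs p \ {f, a, b}, B.card = 3 ∧ e ∉ B ∧ S.r (p.1 ∪ insert e B) ≤ S.r p.1 + 3 ∧ S.r (p.1 ∪ insert b B) = S.r p.1 + 4 := by
  by_contra hcon
  push Not at hcon
  have hr := h.hr
  have heY := h.hD he
  have hem := h.mY.1 heY
  have hE2 : ((gs p \ {f, a, b}) \ D).card = 3 := h.symm.D3
  have hDe : (D.erase e).card = 2 := by rw [Finset.card_erase_of_mem he, h.D3]
  obtain ⟨u, v, huv, huve⟩ := Finset.card_eq_two.1 hDe
  obtain ⟨g1, g2, g3, d12, d13, d23, hg⟩ := Finset.card_eq_three.1 hE2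
  have mu : u ∈ D.erase e := by rw [huve]; simp
  have mv : v ∈ D.erase e := by rw [huve]; simp
  obtain ⟨nue, mu'⟩ := Finset.mem_erase.1 mu
  obtain ⟨nve, mv'⟩ := Finset.mem_erase.1 mv
  have mg : ∀ x ∈ ({g1, g2, g3} : Finset E), x ∈ gs p \ {f, a, b} ∧ x ∉ D := by
    intro x hx
    rw [← hg] at hx
    exact Finset.mem_sdiff.1 hx
  obtain ⟨mg1, ng1⟩ := mg g1 (by simp)
  obtain ⟨mg2, ng2⟩ := mg g2 (by simp)
  obtain ⟨mg3, ng3⟩ := mg g3 (by simp)
  have gp : ∀ x ∈ gs p, x ∈ p.2 := fun x hx => (Finset.mem_sdiff.1 hx).1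
  have yp : ∀ x ∈ gs p \ {f, a, b}, x ∈ p.2 := fun x hx => gp x (h.mY.1 hx).1
  have nb' : ∀ x ∈ gs p \ {f, a, b}, x ≠ b := fun x hx => (h.mY.1 hx).2.2.2
  have rX : S.r (insert e p.1) = S.r p.1 + 1 := by
    have h1 := h.k2 e hem.1 b h.hb hem.2.2.2
    have h2 := hr.unit p.1 e
    have h3 := hr.unit (insert e p.1) b
    have h4 : insert b (insert e p.1) = p.1 ∪ {e, b} := by
      ext x
      simp only [Finset.mem_union, Finset.mem_insert, Finset.mem_singleton]
      tauto
    rw [h4] at h3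
    omega
  have hr4 := h.r4
  -- elements of the six points
  have six' : ∀ x ∈ ({g1, g2, g3, u, v, b} : Finset E), x = b ∨ (x ∈ gs p \ {f, a, b} ∧ x ≠ e) := by
    intro x hx
    simp only [Finset.mem_insert, Finset.mem_singleton] at hx
    rcases hx with rfl | rfl | rfl | rfl | rfl | rfl
    · exact Or.inr ⟨mg1, fun h' => ng1 (h' ▸ he)⟩
    · exact Or.inr ⟨mg2, fun h' => ng2 (h' ▸ he)⟩
    · exact Or.inr ⟨mg3, fun h' => ng3 (h' ▸ he)⟩
    · exact Or.inr ⟨h.hD mu', nue⟩
    · exact Or.inr ⟨h.hD mv', nve⟩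
    · exact Or.inl rfl
  -- triples without `b`
  have t0 : ∀ x y z : E, x ∈ gs p \ {f, a, b} → x ≠ e → y ∈ gs p \ {f, a, b} → y ≠ e → z ∈ gs p \ {f, a, b} → z ≠ e → x ≠ y → x ≠ z → y ≠ z →
      S.r p.1 + 4 ≤ S.r (p.1 ∪ insert e {x, y, z}) := by
    intro x y z hx hxe hy hye hz hze hxy hxz hyz
    have hB : ({x, y, z} : Finset E) ⊆ gs p \ {f, a, b} := by
      intro w hw
      simp only [Finset.mem_insert, Finset.mem_singleton] at hw
      rcases hw with rfl | rfl | rfl
      · exact hx
      · exact hy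
      · exact hz
    have hBc : ({x, y, z} : Finset E).card = 3 := Finset.card_eq_three.2 ⟨x, y, z, hxy, hxz, hyz, rfl⟩
    have heB : e ∉ ({x, y, z} : Finset E) := by
      simp only [Finset.mem_insert, Finset.mem_singleton, not_or]
      exact ⟨hxe.symm, hye.symm, hze.symm⟩
    by_contra hlt
    have h1 := hcon _ hB hBc heB (by omega)
    have hup := h.up (A := insert b {x, y, z}) (Finset.insert_subset h.hb (hB.trans h.Yg))
    have hle : S.r (p.1 ∪ insert b {x, y, z}) ≤ S.r p.1 + 3 := by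
      by_contra h2
      exact h1 (by omega)
    have h4 := h.four (X := insert e {x, y, z}) (Finset.insert_subset (Finset.mem_insert_of_mem heY) (hB.trans (Finset.subset_insert _ _)))
      (by rw [Finset.card_insert_of_notMem heB, hBc])
    have h5 := hr.sub (p.1 ∪ insert e {x, y, z}) (p.1 ∪ insert b {x, y, z})
    have h6 := hr.mono (p.1 ∪ insert b (insert e {x, y, z})) ((p.1 ∪ insert e {x, y, z}) ∪ (p.1 ∪ insert b {x, y, z})) (by
      intro w hw
      simp only [Finset.mem_insert, Finset.mem_union, Finset.mem_singleton] at hw ⊢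
      tauto)
    have h7 := hr.mono (p.1 ∪ {x, y, z}) ((p.1 ∪ insert e {x, y, z}) ∩ (p.1 ∪ insert b {x, y, z})) (by
      intro w hw
      simp only [Finset.mem_insert, Finset.mem_union, Finset.mem_singleton, Finset.mem_inter] at hw ⊢
      tauto)
    have h8 := h.k3 _ hB hBc
    omega
  -- triples with `b`
  have t1 : ∀ y z : E, y ∈ gs p \ {f, a, b} → y ≠ e → z ∈ gs p \ {f, a, b} → z ≠ e → y ≠ z → ({y, z} : Finset E) ≠ {u, v} →
      S.r p.1 + 4 ≤ S.r (p.1 ∪ insert b {e, y, z}) := by
    intro y z hy hye hz hze hyz hne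
    have hB : ({e, y, z} : Finset E) ⊆ gs p \ {f, a, b} := by
      intro w hw
      simp only [Finset.mem_insert, Finset.mem_singleton] at hw
      rcases hw with rfl | rfl | rfl
      · exact heY
      · exact hy
      · exact hz
    have hBc : ({e, y, z} : Finset E).card = 3 := Finset.card_eq_three.2 ⟨e, y, z, hye.symm, hze.symm, hyz, rfl⟩
    refine (h.nb hB hBc ?_ ?_).ge
    · intro h'
      apply hne
      have h1 : ({y, z} : Finset E) = ({e, y, z} : Finset E).erase e := by
        ext w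
        simp only [Finset.mem_insert, Finset.mem_singleton, Finset.mem_erase]
        constructor
        · rintro (rfl | rfl)
          · exact ⟨hye, Or.inr (Or.inl rfl)⟩
          · exact ⟨hze, Or.inr (Or.inr rfl)⟩
        · rintro ⟨h1, h2 | h2 | h2⟩
          · exact absurd h2 h1
          · exact Or.inl h2
          · exact Or.inr h2
      rw [h1, h', huve]
    · intro h'
      have h1 : e ∈ (gs p \ {f, a, b}) \ D := by
        rw [← h']
        simp
      exact (Finset.mem_sdiff.1 h1).2 he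
  have comm3 : ∀ x y z : E, insert x (insert y (insert z (insert e p.1))) = p.1 ∪ insert e {x, y, z} := by
    intro x y z
    ext w
    simp only [Finset.mem_insert, Finset.mem_union, Finset.mem_singleton]
    tauto
  have hXW : insert e p.1 ⊆ p.2 := Finset.insert_subset (gp e hem.1) h.hp
  refine no_p6 S (X := insert e p.1) (W := p.2) hXW (by omega) (g1 := g1) (g2 := g2) (g3 := g3) (u := u) (v := v) (w := b)
    (yp _ mg1) (yp _ mg2) (yp _ mg3) (yp _ (h.hD mu')) (yp _ (h.hD mv')) (gp b h.hb) ?_ d12 d13 d23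
    (fun h' => ng1 (h' ▸ mu')) (fun h' => ng1 (h' ▸ mv')) (nb' _ mg1) (fun h' => ng2 (h' ▸ mu')) (fun h' => ng2 (h' ▸ mv')) (nb' _ mg2)
    (fun h' => ng3 (h' ▸ mu')) (fun h' => ng3 (h' ▸ mv')) (nb' _ mg3) huv (nb' _ (h.hD mu')) (nb' _ (h.hD mv')) ?_
  · intro x hx y hy z hz hxy hxz hyz hne
    rw [comm3, rX]
    have goal : S.r p.1 + 4 ≤ S.r (p.1 ∪ insert e {x, y, z}) := by
      rcases six' x hx with rfl | ⟨hx1, hx2⟩
      · have hy' := (six' y hy).resolve_left hxy.symm
        have hz' := (six' z hz).resolve_left hxz.symm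
        have e1 := t1 y z hy'.1 hy'.2 hz'.1 hz'.2 hyz (by
          intro h'
          apply hne
          have e2 : ({x, y, z} : Finset E) = insert x {y, z} := rfl
          rw [e2, h']
          ext w
          simp only [Finset.mem_insert, Finset.mem_singleton]
          tauto)
        have e2 : p.1 ∪ insert e {x, y, z} = p.1 ∪ insert x {e, y, z} := by
          ext w
          simp only [Finset.mem_insert, Finset.mem_union, Finset.mem_singleton]
          tauto
        rw [e2]
        exact e1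
      · rcases six' y hy with rfl | ⟨hy1, hy2⟩
        · have hz' := (six' z hz).resolve_left hyz.symm
          have e1 := t1 x z hx1 hx2 hz'.1 hz'.2 hxz (by
            intro h'
            apply hne
            have e2 : ({x, y, z} : Finset E) = insert y {x, z} := by
              ext w
              simp only [Finset.mem_insert, Finset.mem_singleton]
              tauto
            rw [e2, h']
            ext w
            simp only [Finset.mem_insert, Finset.mem_singleton]
            tauto)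
          have e2 : p.1 ∪ insert e {x, y, z} = p.1 ∪ insert y {e, x, z} := by
            ext w
            simp only [Finset.mem_insert, Finset.mem_union, Finset.mem_singleton]
            tauto
          rw [e2]
          exact e1
        · rcases six' z hz with rfl | ⟨hz1, hz2⟩
          · have e1 := t1 x y hx1 hx2 hy1 hy2 hxy (by
              intro h'
              apply hne
              have e2 : ({x, y, z} : Finset E) = insert z {x, y} := by
                ext w
                simp only [Finset.mem_insert, Finset.mem_singleton]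
                tauto
              rw [e2, h']
              ext w
              simp only [Finset.mem_insert, Finset.mem_singleton]
              tauto)
            have e2 : p.1 ∪ insert e {x, y, z} = p.1 ∪ insert z {e, x, y} := by
              ext w
              simp only [Finset.mem_insert, Finset.mem_union, Finset.mem_singleton]
              tauto
            rw [e2]
            exact e1
          · exact t0 x y z hx1 hx2 hy1 hy2 hz1 hz2 hxy hxz hyz
    omega
  · rw [rX]
    have e1 := h.hD1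
    have e2 := hr.mono (insert u (insert v (insert b (insert e p.1)))) (p.1 ∪ insert b D) (by
      intro w hw
      simp only [Finset.mem_insert, Finset.mem_union] at hw ⊢
      rcases hw with rfl | rfl | rfl | rfl | hw
      · exact Or.inr (Or.inr mu')
      · exact Or.inr (Or.inr mv')
      · exact Or.inr (Or.inl rfl)
      · exact Or.inr (Or.inr he)
      · exact Or.inl hw)
    omega

/-- every element of `Y` is in the plane of a triple of `Y` which does not contain `b` -/
theorem N9.plane (S : TP F4 E) {p : Itv E} {f a b : E} {D : Finset E} (h : N9 S.r p f a b D) {e : E} (he : e ∈ gs p \ {f, a, b}) :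
    ∃ B ⊆ gs p \ {f, a, b}, B.card = 3 ∧ e ∉ B ∧ S.r (p.1 ∪ insert e B) ≤ S.r p.1 + 3 ∧ S.r (p.1 ∪ insert b B) = S.r p.1 + 4 := by
  by_cases heD : e ∈ D
  · exact h.plane' S heD
  · exact N9.plane' S h.symm (Finset.mem_sdiff.2 ⟨he, heD⟩)

/-- nine elements, no conflict at the triangle -/
theorem n9 (S : TP F4 E) (hNU : NU S.r) {p : Itv E} (hp : p.1 ⊆ p.2) (hC : Cn S.r p) (h3 : Th3 S.r p)
    (hn : (gs p).card = 9) (hr : S.r p.2 - S.r p.1 = 4) (hT : NoTd S.r p)
    (hTT : ∀ x ∈ gs p, ∀ y ∈ gs p, ∀ z ∈ gs p, x ≠ y → x ≠ z → y ≠ z → ∀ x' ∈ gs p, ∀ y' ∈ gs p, ∀ z' ∈ gs p, x' ≠ y' → x' ≠ z' → y' ≠ z' →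
      Tri3 S.r p x y z → Tri3 S.r p x' y' z' → ¬ Disjoint ({x, y, z} : Finset E) {x', y', z'})
    {f a b : E} (hf : f ∈ gs p) (ha : a ∈ gs p) (hb : b ∈ gs p)
    (hfa : f ≠ a) (hfb : f ≠ b) (hab : a ≠ b) (hL : Tri3 S.r p f a b)
    (hex : ∀ w ∈ gs p, ∀ t, ∃ T, InVs S (rm t w p) T) (h3w : ∀ w ∈ gs p, Th3 S.r (rm true w p))
    (hRf : HasRich S.r (rm true f p)) (hRb : HasRich S.r (rm true b p))
    (hok : ∀ x ∈ gs p, (x = f ∨ x = a ∨ x = b) → ∀ y ∈ gs p, y ≠ f → y ≠ a → y ≠ b → Ok S.r (rm true x (rm true y p))) :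
    ∃ T : Fm F4 E, InV S.U S.W p T ∧ ¬ EqD S.U S.W p T 0 := by
  have hrk := S.rk
  have hset : ({b, f, a} : Finset E) = {f, a, b} := by
    ext x
    simp only [Finset.mem_insert, Finset.mem_singleton]
    tauto
  have mY : ∀ y, y ∈ gs p \ {f, a, b} ↔ y ∈ gs p ∧ y ≠ f ∧ y ≠ a ∧ y ≠ b := by
    intro y
    simp only [Finset.mem_sdiff, Finset.mem_insert, Finset.mem_singleton, not_or]
  have hLg : ({f, a, b} : Finset E) ⊆ gs p := by
    intro x hx
    simp only [Finset.mem_insert, Finset.mem_singleton] at hx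
    rcases hx with rfl | rfl | rfl
    · exact hf
    · exact ha
    · exact hb
  have hL3 : ({f, a, b} : Finset E).card = 3 := Finset.card_eq_three.2 ⟨f, a, b, hfa, hfb, hab, rfl⟩
  have hYc : (gs p \ {f, a, b}).card = 6 := by
    rw [Finset.card_sdiff_of_subset hLg, hL3, hn]
  -- deletions of two elements are connected
  have cn1 : ∀ w ∈ gs p, Cn S.r (rm true w p) := fun w hw => th3_cn hrk hp hC h3 (by omega) hw true
  have cn2 : ∀ w ∈ gs p, ∀ x ∈ gs p, x ≠ w → Cn S.r (rm true x (rm true w p)) := by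
    intro w hw x hx hxw
    have hg : gs (rm true w p) = (gs p).erase w := gs_rm true w p
    refine th3_cn hrk (QUB.wf_rm hp hw) (cn1 w hw) (h3w w hw) ?_ ?_ true
    · rw [hg, Finset.card_erase_of_mem hw, hn]
      norm_num
    · rw [hg]
      exact Finset.mem_erase.2 ⟨hxw, hx⟩
  -- the triangle `b f a`
  have k2 : ∀ x ∈ gs p, ∀ y ∈ gs p, x ≠ y → S.r (insert x (insert y p.1)) = S.r p.1 + 2 :=
    fun x hx y hy hxy => th3_con2 hrk hp h3 (by omega) hx hy hxy
  have kL : S.r (p.1 ∪ {f, a, b}) ≤ S.r p.1 + 2 := by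
    have h1 := hL.1.1
    have h2 := k2 a ha b hb hab
    have h4 : insert f (insert a (insert b p.1)) = p.1 ∪ {f, a, b} := by
      ext w
      simp only [Finset.mem_insert, Finset.mem_union, Finset.mem_singleton]
      tauto
    rw [h4] at h1
    omega
  have hL' : Tri3 S.r p b f a := by
    refine tri_of hrk (k2 b hb f hf hfb.symm) (k2 b hb a ha hab.symm) (k2 f hf a ha hfa) ?_
    rw [hset]
    exact kL
  -- the count at `b`
  have hexE : ∀ w ∈ gs p \ {b, f, a}, Ex S true b (rm true w p) := by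
    intro w hw
    rw [hset] at hw
    have hw' := (mY w).1 hw
    refine ex_ok S hNU (QUB.wf_rm hp hw'.1) ?_ (cn2 w hw'.1 b hb hw'.2.2.2.symm) (hok b hb (Or.inr (Or.inr rfl)) w hw'.1 hw'.2.1 hw'.2.2.1 hw'.2.2.2)
      (hex w hw'.1 true)
    rw [gs_rm]
    exact Finset.mem_erase.2 ⟨hw'.2.2.2.symm, hb⟩
  rcases key_spec S hp hb hf ha hfb.symm hab.symm hfa hL' hexE (by rw [hset, hYc, hr]; norm_num) (by rw [hr]; norm_num) with h1 | h1
  · exact h_of_ex S h1 (hex b hb true) hRb
  rw [hset] at h1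
  obtain ⟨D, hD, hV1, hV2, hDc, huni⟩ := h1
  have D3 : D.card = 3 := by omega
  have r4 : S.r p.2 = S.r p.1 + 4 := by omega
  have k2' : ∀ x ∈ gs p, ∀ y ∈ gs p, x ≠ y → S.r (p.1 ∪ {x, y}) = S.r p.1 + 2 := by
    intro x hx y hy hxy
    rw [← k2 x hx y hy hxy]
    congr 1
    ext w
    simp only [Finset.mem_insert, Finset.mem_union, Finset.mem_singleton]
    tauto
  have k6 : ∀ B ⊆ gs p, 6 ≤ B.card → S.r (p.1 ∪ B) = S.r p.2 := fun B hB hc => k6_of hrk hp hn hT hB hc
  have up3 : ∀ B : Finset E, B.card = 3 → S.r (p.1 ∪ B) ≤ S.r p.1 + 3 := by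
    intro B hB
    obtain ⟨x, y, z, _, _, _, rfl⟩ := Finset.card_eq_three.1 hB
    have e1 := hrk.unit p.1 z
    have e2 := hrk.unit (insert z p.1) y
    have e3 := hrk.unit (insert y (insert z p.1)) x
    have e4 : insert x (insert y (insert z p.1)) = p.1 ∪ {x, y, z} := by
      ext w
      simp only [Finset.mem_insert, Finset.mem_union, Finset.mem_singleton]
      tauto
    rw [e4] at e3
    omega
  have k3 : ∀ B ⊆ gs p \ {f, a, b}, B.card = 3 → S.r (p.1 ∪ B) = S.r p.1 + 3 := by
    intro B hB hB3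
    have hu := up3 B hB3
    obtain ⟨x, y, z, hxy, hxz, hyz, rfl⟩ := Finset.card_eq_three.1 hB3
    have mx := (mY x).1 (hB (by simp))
    have my := (mY y).1 (hB (by simp))
    have mz := (mY z).1 (hB (by simp))
    by_contra hne
    refine hTT f hf a ha b hb hfa hfb hab x mx.1 y my.1 z mz.1 hxy hxz hyz hL
      (tri_of hrk (k2 x mx.1 y my.1 hxy) (k2 x mx.1 z mz.1 hxz) (k2 y my.1 z mz.1 hyz) (by omega)) ?_
    rw [Finset.disjoint_left]
    intro w hw hw'
    exact (Finset.mem_sdiff.1 (hB hw')).2 hw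
  have hV : ∀ B : Finset E, B.card = 3 → Vd S.r p b f B → S.r (p.1 ∪ insert b B) ≤ S.r p.1 + 3 := by
    intro B hB hV
    have e1 := hV.2.2.1
    have e2 := up3 B hB
    rw [Finset.union_insert, e1]
    exact e2
  have hN : N9 S.r p f a b D := by
    refine ⟨hrk, hp, hf, ha, hb, hfa, hfb, hab, hn, r4, k2', k6, kL, k3, hD, D3, hV D D3 hV1, hV _ ?_ hV2, ?_⟩
    · rw [Finset.card_sdiff_of_subset hD, hYc, D3]
    · intro B hB hB3 hle
      have hB' : B ⊆ gs p := hB.trans Finset.sdiff_subset
      have r3 := k3 B hB hB3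
      have hm := hrk.mono (p.1 ∪ B) (p.1 ∪ insert b B) (Finset.union_subset_union (Finset.Subset.refl _) (Finset.subset_insert _ _))
      refine huni B ⟨hB', fun h' => ((mY b).1 (hB h')).2.2.2 rfl, ?_, ?_⟩ (by omega)
      · rw [← Finset.union_insert]
        omega
      · -- otherwise six elements do not span
        have e1 := hrk.unit (p.1 ∪ B) f
        by_contra hne
        have e2 := hrk.mono (p.1 ∪ B) (insert f (p.1 ∪ B)) (Finset.subset_insert _ _)
        have e3 := hrk.sub (p.1 ∪ insert b B) (insert f (p.1 ∪ B))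
        have e4 := hrk.mono (p.1 ∪ B) ((p.1 ∪ insert b B) ∩ insert f (p.1 ∪ B)) (by
          intro w hw
          simp only [Finset.mem_insert, Finset.mem_union, Finset.mem_inter] at hw ⊢
          tauto)
        have e5 := hrk.sub ((p.1 ∪ insert b B) ∪ insert f (p.1 ∪ B)) (p.1 ∪ {f, a, b})
        have e6 := hrk.mono (p.1 ∪ {f, b}) (((p.1 ∪ insert b B) ∪ insert f (p.1 ∪ B)) ∩ (p.1 ∪ {f, a, b})) (by
          intro w hw
          simp only [Finset.mem_insert, Finset.mem_union, Finset.mem_inter, Finset.mem_singleton] at hw ⊢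
          tauto)
        have e7 := k2' f hf b hb hfb
        have e8 := hrk.mono (p.1 ∪ (B ∪ {f, a, b})) (((p.1 ∪ insert b B) ∪ insert f (p.1 ∪ B)) ∪ (p.1 ∪ {f, a, b})) (by
          intro w hw
          simp only [Finset.mem_insert, Finset.mem_union, Finset.mem_singleton] at hw ⊢
          tauto)
        have e9 := k6 (B ∪ {f, a, b}) (Finset.union_subset hB' hLg) (by
          rw [Finset.card_union_of_disjoint, hL3, hB3]
          exact Finset.disjoint_left.2 fun x hx => (Finset.mem_sdiff.1 (hB hx)).2)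
        omega
  -- the good element
  obtain ⟨e, he, hRe⟩ := hN.good S
  have hem := (mY e).1 he
  obtain ⟨B, hB, hB3, heB, hBe, hBb⟩ := hN.plane S he
  have r3 := k3 B hB hB3
  have hBe' : S.r (insert e (p.1 ∪ B)) = S.r (p.1 ∪ B) := by
    have h1 := hrk.mono (p.1 ∪ B) (insert e (p.1 ∪ B)) (Finset.subset_insert _ _)
    rw [Finset.union_insert] at hBe
    omega
  have hBb' : S.r (insert b (p.1 ∪ B)) = S.r (p.1 ∪ B) + 1 := by
    rw [Finset.union_insert] at hBb
    omega
  obtain ⟨c0, hc0, d0, hd0, hcd0, hcb, hde⟩ := pair_of_rank S hem.1 heB hBe' hBb'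
  have hd0' : d0 ∈ spt S.W ((p.2.erase a).erase f) := by
    refine spt_mono ?_ hd0
    intro w hw
    have ha1 := (Finset.mem_sdiff.1 ha).2
    have hf1 := (Finset.mem_sdiff.1 hf).2
    rcases Finset.mem_insert.1 hw with rfl | hw
    · exact Finset.mem_erase.2 ⟨hem.2.1, Finset.mem_erase.2 ⟨hem.2.2.1, (Finset.mem_sdiff.1 hem.1).1⟩⟩
    · rcases Finset.mem_union.1 hw with hw | hw
      · exact Finset.mem_erase.2 ⟨fun h' => hf1 (h' ▸ hw), Finset.mem_erase.2 ⟨fun h' => ha1 (h' ▸ hw), hp hw⟩⟩
      · have hwm := (mY w).1 (hB hw)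
        exact Finset.mem_erase.2 ⟨hwm.2.1, Finset.mem_erase.2 ⟨hwm.2.2.1, (Finset.mem_sdiff.1 hwm.1).1⟩⟩
  have heQ : e ∈ gs (rm true a (rm false b p)) := by
    rw [hN.gsQ]
    exact Finset.mem_insert_of_mem he
  have hcQ : Cn S.r (rm true e (rm true a (rm false b p))) := by
    refine th3_cn hrk hN.wfQ hN.cnQ hN.th3Q ?_ heQ true
    rw [hN.gsQ, hN.cardQ]
    norm_num
  have hrg : Rg S true e (rm true a (rm false b p)) := rg_f4 S hNU hN.wfQ heQ hN.cnQ (csm_ok hN.th3Q) hcQ (hN.lnQ he) hRe
  refine t2d_f4 S hNU hp hf ha hb hfa hfb hab hL hem.1 hem.2.1 hem.2.2.1 hem.2.2.2 (hex f hf true) (hex a ha true) (hex e hem.1 true) hRf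
    (cn2 e hem.1 f hf hem.2.1.symm) (hok f hf (Or.inl rfl) e hem.1 hem.2.1 hem.2.2.1 hem.2.2.2) ?_ ?_ hrg hc0 hd0' hcd0
    (by rw [hcb]; exact one_ne_zero) (by rw [hde]; exact one_ne_zero)
  · rw [QUB.rm_comm]
    exact cn2 e hem.1 a ha hem.2.2.1.symm
  · rw [QUB.rm_comm]
    exact hok a ha (Or.inr (Or.inl rfl)) e hem.1 hem.2.1 hem.2.2.1 hem.2.2.2

end main

end Pool.Agent.QU
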