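import Pool.Agent.QUR.Cpl
import Pool.Agent.QUR.CplM
import Pool.Agent.QUN.Th
import Pool.Agent.QUR.Cft

set_option autoImplicit false

/-!
# QUR/NOdd: the T-case without a conflict, `n = 2 rank + 1`, rank at least five

If for all three elements of the triangle the form of the deletion does not extend, then for each of them the other elements are the union of two
complementary valid sets (`cpl_of`). Two elements `w, w'` are in the same of the two sets for two of the three indices; a combination of the three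
candidates is diagonal on `M \ w` and, up to a multiple of the pair form of the third index, on `M \ w'` (`cpl_fin`), contradiction.
-/

namespace Pool.Agent.QU

open QUB (Cn Ok Rk)
open Pool.Agent.FRM

section rk

variable {E : Type} [DecidableEq E]

/-- the rank function of the contraction -/
def rc (r : Finset E → ℤ) (C X : Finset E) : ℤ := r (C ∪ X) - r C

theorem rc_rk {r : Finset E → ℤ} (hr : Rk r) (C : Finset E) : Rk (rc r C) := by
  refine ⟨?_, fun A B h => ?_, fun A x => ?_, fun A B => ?_⟩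
  · unfold rc
    rw [Finset.union_empty, sub_self]
  · unfold rc
    have := hr.mono _ _ (Finset.union_subset_union_right (s := C) h)
    linarith
  · unfold rc
    rw [Finset.union_insert]
    have := hr.unit (C ∪ A) x
    linarith
  · unfold rc
    have h1 := hr.sub (C ∪ A) (C ∪ B)
    have e1 : C ∪ A ∪ (C ∪ B) = C ∪ (A ∪ B) := by
      ext y
      simp only [Finset.mem_union]
      tauto
    have e2 : (C ∪ A) ∩ (C ∪ B) = C ∪ A ∩ B := (Finset.union_inter_distrib_left _ _ _).symm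
    rw [e1, e2] at h1
    linarith

theorem va_iff {r : Finset E → ℤ} {p : Itv E} {f a : E} {D : Finset E} : Va (rc r p.1) (gs p) f a D ↔ Vd r p f a D := by
  unfold Va Vd rc
  rw [Finset.union_insert, Finset.union_insert]
  constructor
  · rintro ⟨h1, h2, h3, h4⟩
    exact ⟨h1, h2, by linarith, by linarith⟩
  · rintro ⟨h1, h2, h3, h4⟩
    exact ⟨h1, h2, by linarith, by linarith⟩

end rk

section

variable {K E : Type} [Field K] [Fintype E] [DecidableEq E]

theorem Cpl.vb {S : TP K E} {p : Itv E} {f a b : E} {A A' : Finset E} {T T' : Fm K E} (h : Cpl S p f a b A A' T T') :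
    Vb (rc S.r p.1) (gs p) (S.r p.2 - S.r p.1) f a A A' :=
  ⟨va_iff.2 h.vA, va_iff.2 h.vA', h.cA, h.cA', h.dis, fun D h1 h2 => h.all D (va_iff.1 h1) h2⟩

/-- two boxes of one type on which a form is diagonal -/
theorem same_diag (S : TP K E) {p : Itv E} {u v : E} {t : Bool} (huv : u ≠ v) (hu : u ∈ gs p) (hv : v ∈ gs p) {T : Fm K E}
    (h1 : EqD S.U S.W (rm t u p) T 0) (h2 : EqD S.U S.W (rm t v p) T 0)
    (hp : p.1 ⊆ p.2) (hc : Cn S.r (rm t u (rm t v p))) (hN : ∃ N, QUB.Ln S.r (rm t u (rm t v p)) N) (hnd : ND S.r p u v t t) :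
    EqD S.U S.W p T 0 := by
  obtain ⟨a, ha⟩ := h1
  obtain ⟨b, hb⟩ := h2
  rw [zero_add] at ha hb
  have hw : (rm t u (rm t v p)).1 ⊆ (rm t u (rm t v p)).2 := by
    refine QUB.wf_rm (QUB.wf_rm hp hv) ?_
    rw [QUB.gs_rm]
    exact Finset.mem_erase.2 ⟨huv, hu⟩
  have h3 : EqOn S.U S.W (rm t u (rm t v p)) (dg (a - b)) 0 := by
    intro c hc' d hd
    have e1 := ha.mono ((rm_sub t v p).rm t u) c hc' d hd
    have e2 := hb.mono (rm_sub t u _) c hc' d hd
    rw [dg_sub, LinearMap.sub_apply, LinearMap.sub_apply, LinearMap.zero_apply, LinearMap.zero_apply]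
    linear_combination e2 - e1
  have hab : ∀ x ∈ gs (rm t u (rm t v p)), a x = b x := fun x hx => sub_eq_zero.1 (hom_cn S hw hc hN h3 x hx)
  refine ⟨Function.update a u (b u), ?_⟩
  rw [zero_add]
  refine EqOn.of_sub (nd_zero S huv hu hv hnd (fun h => absurd rfl h) ?_ ?_)
  · have e1 : EqOn S.U S.W (rm t u p) (dg (Function.update a u (b u))) (dg a) := by
      refine dg_congr fun x hx => ?_
      rw [gs_rm] at hx
      rw [Function.update_of_ne (Finset.mem_erase.1 hx).1]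
    intro c hc' d hd
    have e3 := ha c hc' d hd
    have e4 := e1 c hc' d hd
    rw [LinearMap.sub_apply, LinearMap.sub_apply, LinearMap.zero_apply, LinearMap.zero_apply]
    linear_combination e3 - e4
  · have e2 : EqOn S.U S.W (rm t v p) (dg (Function.update a u (b u))) (dg b) := by
      refine dg_congr fun x hx => ?_
      by_cases hxu : x = u
      · rw [hxu, Function.update_self]
      · rw [Function.update_of_ne hxu]
        refine hab x ?_
        rw [gs_rm]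
        exact Finset.mem_erase.2 ⟨hxu, hx⟩
    intro c hc' d hd
    have e3 := hb c hc' d hd
    have e4 := e2 c hc' d hd
    rw [LinearMap.sub_apply, LinearMap.sub_apply, LinearMap.zero_apply, LinearMap.zero_apply]
    linear_combination e3 - e4

/-- two linear equations in three unknowns -/
theorem two_three (v1 v2 v3 w1 w2 w3 : K) : ∃ a b c : K, (a ≠ 0 ∨ b ≠ 0 ∨ c ≠ 0) ∧ a * v1 + b * v2 + c * v3 = 0 ∧
    a * w1 + b * w2 + c * w3 = 0 := by
  let φ : (Fin 3 → K) →ₗ[K] (Fin 2 → K) :=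
    { toFun := fun x => ![x 0 * v1 + x 1 * v2 + x 2 * v3, x 0 * w1 + x 1 * w2 + x 2 * w3]
      map_add' := by
        intro x y
        ext i
        fin_cases i <;> simp <;> ring
      map_smul' := by
        intro k x
        ext i
        fin_cases i <;> simp <;> ring }
  have h : LinearMap.ker φ ≠ ⊥ := LinearMap.ker_ne_bot_of_finrank_lt (by simp)
  obtain ⟨x, hx, hne⟩ := (Submodule.ne_bot_iff _).1 h
  have h0 := congrFun (LinearMap.mem_ker.1 hx) 0
  have h1 := congrFun (LinearMap.mem_ker.1 hx) 1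
  refine ⟨x 0, x 1, x 2, ?_, h0, h1⟩
  by_contra hcon
  push Not at hcon
  refine hne ?_
  ext i
  fin_cases i
  · exact hcon.1
  · exact hcon.2.1
  · exact hcon.2.2

/-- the value of a candidate at a pair of its own set and of the other sets -/
theorem Cpl.val {S : TP K E} {p : Itv E} {f a b : E} {A A' : Finset E} {T T' : Fm K E} (h : Cpl S p f a b A A' T T')
    (hp : p.1 ⊆ p.2) (hf : f ∈ gs p) (hb : b ∈ gs p) (hfb : f ≠ b) (hL : Tri3 S.r p f a b) (hr : 2 ≤ S.r p.2 - S.r p.1) :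
    ∃ c ∈ van S.U p.1, ∃ d ∈ spt S.W p.2, (∀ x, c x * d x = 0) ∧ d a = 0 ∧ d b = 0 ∧ T c d ≠ 0 := by
  obtain ⟨c, hc, d, hd, hcd, hca, hdf⟩ := pair_of_rank S (p := p) (a := a) hf h.vA.2.1 h.vA.2.2.1 h.vA.2.2.2
  have hsub : insert f (p.1 ∪ A) ⊆ p.2 :=
    Finset.insert_subset (Finset.mem_sdiff.1 hf).1 (Finset.union_subset hp fun x hx => (Finset.mem_sdiff.1 (h.vA.1 hx)).1)
  have hd2 := spt_mono hsub hd
  obtain ⟨h1, h2, h3⟩ := h.vA.out S.rk hL
  have hca' : c a ≠ 0 := by rw [hca]; exact one_ne_zero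
  have hda : d a = 0 := (mul_eq_zero.1 (hcd a)).resolve_left hca'
  have hcf : c f = 0 := (mul_eq_zero.1 (hcd f)).resolve_right (by rw [hdf]; exact one_ne_zero)
  have z : ∀ w, w ∉ insert f (p.1 ∪ A) → d w = 0 := hd.2
  obtain ⟨θ, hθ, hT⟩ := h.nz
  obtain ⟨w, hw⟩ : ∃ w, w ∈ A' := Finset.card_pos.1 (by have := h.cA'; omega)
  have hwd : d w = 0 := by
    refine z w fun hh => ?_
    rcases Finset.mem_insert.1 hh with hh | hh
    · exact h.vA'.2.1 (hh ▸ hw)
    rcases Finset.mem_union.1 hh with hh | hh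
    · exact (Finset.mem_sdiff.1 (h.vA'.1 hw)).2 hh
    · exact Finset.disjoint_left.1 h.dis hh hw
  have hdb : d b = 0 := by
    refine z b fun hh => ?_
    rcases Finset.mem_insert.1 hh with hh | hh
    · exact hfb hh.symm
    rcases Finset.mem_union.1 hh with hh | hh
    · exact (Finset.mem_sdiff.1 hb).2 hh
    · exact h3 hh
  have e0 := h.iT' w (Or.inr hw) c hc d ⟨hd2.1, fun y hy => by
    by_cases hyw : y = w
    · rw [hyw, hwd]
    · exact hd2.2 y fun h4 => hy (Finset.mem_erase.2 ⟨hyw, h4⟩)⟩ hcd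
  rw [hT c d, hca, hdf, mul_one, mul_one] at e0
  refine ⟨c, hc, d, hd2, hcd, hda, hdb, fun h4 => hθ ?_⟩
  rw [h4, zero_add] at e0
  exact e0

omit [DecidableEq E] in
/-- a combination of three forms is diagonal -/
theorem comb_diag {U W : Submodule K (E → K)} {q : Itv E} {T1 T2 T3 Tw : Fm K E} {a1 a2 a3 k1 k2 k3 : K}
    (e1 : EqD U W q T1 (k1 • Tw)) (e2 : EqD U W q T2 (k2 • Tw)) (e3 : EqD U W q T3 (k3 • Tw)) (h : a1 * k1 + a2 * k2 + a3 * k3 = 0) :
    EqD U W q (a1 • T1 + a2 • T2 + a3 • T3) 0 := by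
  have h1 := ((e1.smul a1).add (e2.smul a2)).add (e3.smul a3)
  rw [smul_smul, smul_smul, smul_smul, ← add_smul, ← add_smul, h, zero_smul] at h1
  exact h1

end

section

variable {E : Type} [Fintype E] [DecidableEq E]

/-- three indices with complementary valid sets -/
theorem cpl_fin (S : TP F4 E) (hNU : NU S.r) {p : Itv E} (hp : p.1 ⊆ p.2) (hC : Cn S.r p) (h3 : Th3 S.r p)
    (hr : 5 ≤ S.r p.2 - S.r p.1) (hn : 6 ≤ (gs p).card) {x1 x2 x3 : E} (m1 : x1 ∈ gs p) (m2 : x2 ∈ gs p) (m3 : x3 ∈ gs p)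
    (h12 : x1 ≠ x2) (h13 : x1 ≠ x3) (h23 : x2 ≠ x3) (hL1 : Tri3 S.r p x1 x2 x3) (hL2 : Tri3 S.r p x2 x1 x3) (hL3 : Tri3 S.r p x3 x1 x2)
    (hex : ∀ w ∈ gs p, ∃ T, InVs S (rm true w p) T) (h3w : ∀ w ∈ gs p, Th3 S.r (rm true w p))
    {A1 B1 A2 B2 A3 B3 : Finset E} {T1 T1' T2 T2' T3 T3' : Fm F4 E}
    (C1 : Cpl S p x1 x2 x3 A1 B1 T1 T1') (C2 : Cpl S p x2 x1 x3 A2 B2 T2 T2') (C3 : Cpl S p x3 x1 x2 A3 B3 T3 T3')
    {w w' : E} (hww : w ≠ w') (hw1 : w ∈ A1) (hw1' : w' ∈ A1) (hw2 : w ∈ A2) (hw2' : w' ∈ A2) (hw3 : w ∈ A3)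
    (hw3' : w' ∈ A3 ∨ w' ∈ B3) : False := by
  have hrk := S.rk
  have hwg : w ∈ gs p := C1.vA.1 hw1
  have hwg' : w' ∈ gs p := C1.vA.1 hw1'
  obtain ⟨o1, o2, o3⟩ := C1.vA.out hrk hL1
  obtain ⟨o1', o2', o3'⟩ := C1.vA'.out hrk hL1
  have hwx3 : w ≠ x3 := fun hh => o3 (hh ▸ hw1)
  have hwx3' : w' ≠ x3 := fun hh => o3 (hh ▸ hw1')
  -- the boxes
  have cw : ∀ v ∈ gs p, Cn S.r (rm true v p) := fun v hv => th3_cn hrk hp hC h3 (by omega) hv true
  have hg' : gs (rm true w' p) = (gs p).erase w' := gs_rm true w' p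
  have hwm : w ∈ gs (rm true w' p) := by
    rw [hg']
    exact Finset.mem_erase.2 ⟨hww, hwg⟩
  have hcard' : (gs (rm true w' p)).card = (gs p).card - 1 := by rw [hg']; exact Finset.card_erase_of_mem hwg'
  have cN : Cn S.r (rm true w (rm true w' p)) :=
    th3_cn hrk (QUB.wf_rm hp hwg') (cw w' hwg') (h3w w' hwg') (by omega) hwm true
  have hnd : ND S.r p w w' true true := th3_nd_same hrk hp h3 (by omega) hwg hwg' hww true
  -- the rank part
  set ρ : Finset E → ℤ := rc S.r p.1 with hρd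
  have hρ : Rk ρ := rc_rk hrk p.1
  have hsd : p.1 ∪ gs p = p.2 := Finset.union_sdiff_of_subset hp
  have hE : ρ (gs p) = S.r p.2 - S.r p.1 := by
    rw [hρd]
    unfold rc
    rw [hsd]
  have s1 : ∀ x ∈ gs p, ρ {x} = 1 := by
    intro x hx
    have h := th3_con1 hrk hp h3 (by omega) hx
    rw [hρd]
    unfold rc
    have e : p.1 ∪ {x} = insert x p.1 := by
      ext y
      simp only [Finset.mem_union, Finset.mem_singleton, Finset.mem_insert]
      tauto
    rw [e, h]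
    ring
  have s2 : ∀ x ∈ gs p, ∀ y ∈ gs p, x ≠ y → ρ {x, y} = 2 := by
    intro x hx y hy hxy
    have h := th3_con2 hrk hp h3 (by omega) hx hy hxy
    rw [hρd]
    unfold rc
    have e : p.1 ∪ {x, y} = insert x (insert y p.1) := by
      ext z
      simp only [Finset.mem_union, Finset.mem_singleton, Finset.mem_insert]
      tauto
    rw [e, h]
    ring
  set Q : Itv E := rm true x3 (rm true w (rm true w' p)) with hQ
  have hQ1 : Q.1 = p.1 := rfl
  have hQ2 : Q.2 = ((p.2.erase w').erase w).erase x3 := rfl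
  have gQ : gs Q = (((gs p).erase w').erase w).erase x3 := by
    rw [hQ, gs_rm, gs_rm, gs_rm]
  have memQ : ∀ y, y ∈ gs Q ↔ y ≠ x3 ∧ y ≠ w ∧ y ≠ w' ∧ y ∈ gs p := by
    intro y
    rw [gQ]
    simp only [Finset.mem_erase]
  have wfQ : Q.1 ⊆ Q.2 := by
    refine QUB.wf_rm (QUB.wf_rm (QUB.wf_rm hp hwg') hwm) ?_
    rw [QUB.gs_rm, QUB.gs_rm]
    exact Finset.mem_erase.2 ⟨hwx3.symm, Finset.mem_erase.2 ⟨hwx3'.symm, m3⟩⟩
  have hQu : p.1 ∪ gs Q = Q.2 := Finset.union_sdiff_of_subset wfQ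
  have cQ : Cn S.r Q := by
    intro X hX hX1 hX2
    have h := cm_con hρ (x3 := x3) C1.vb hr hE s1 s2 m1 m2 h12 h13 h23 o3' o3 hw1 hw1' (fun y h1 h2 h3 h4 => C1.cov y h1 h2 h3 h4)
      gQ hX hX1 hX2
    have e1 : Q.2 \ X = p.1 ∪ (gs Q \ X) := by
      ext y
      have k1 : y ∈ p.1 → y ∈ Q.2 := fun hh => wfQ hh
      have k2 : y ∈ X → y ∉ p.1 := fun hh => (Finset.mem_sdiff.1 (hX hh)).2
      have k3 : y ∈ gs Q ↔ y ∈ Q.2 ∧ y ∉ p.1 := Finset.mem_sdiff
      simp only [Finset.mem_sdiff, Finset.mem_union]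
      tauto
    show 1 ≤ S.r (Q.1 ∪ X) + S.r (Q.2 \ X) - S.r Q.2 - S.r Q.1
    rw [e1, hQ1]
    have h2 : S.r Q.2 ≤ S.r p.2 := hrk.mono _ _ (by
      rw [hQ2]
      exact (Finset.erase_subset _ _).trans ((Finset.erase_subset _ _).trans (Finset.erase_subset _ _)))
    rw [hρd] at h
    unfold rc at h
    linarith
  have lQ : ∃ N, QUB.Ln S.r Q N := by
    obtain ⟨Y, N, hY, hN, hN4, hdis, hr1, hr2⟩ := cm_ln hρ (x3 := x3) (w' := w') C1.vb C2.vb hr hE s1 s2 m1 m2 h12 o3 hw1 hw2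
      (fun y h1 h2 h3 h4 => C2.cov y h1 h3 h2 h4)
    have sub1 : Y ⊆ gs Q := by
      intro y hy
      rcases Finset.mem_insert.1 (hY hy) with rfl | hh
      · exact (memQ _).2 ⟨h23, fun hh => o2 (hh ▸ hw1), fun hh => o2 (hh ▸ hw1'), m2⟩
      · exact (memQ _).2 ⟨fun h4 => o3' (h4 ▸ hh), fun h4 => Finset.disjoint_left.1 C1.dis hw1 (h4 ▸ hh),
          fun h4 => Finset.disjoint_left.1 C1.dis hw1' (h4 ▸ hh), C1.vA'.1 hh⟩
    have sub2 : N ⊆ gs Q := by
      intro y hy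
      rcases Finset.mem_insert.1 (hN hy) with rfl | hh
      · exact (memQ _).2 ⟨h13, fun hh => o1 (hh ▸ hw1), fun hh => o1 (hh ▸ hw1'), m1⟩
      rcases Finset.mem_union.1 hh with hh | hh
      · exact (memQ _).2 ⟨fun h4 => o3' (h4 ▸ hh), fun h4 => Finset.disjoint_left.1 C1.dis hw1 (h4 ▸ hh),
          fun h4 => Finset.disjoint_left.1 C1.dis hw1' (h4 ▸ hh), C1.vA'.1 hh⟩
      · obtain ⟨k1, k2⟩ := Finset.mem_erase.1 hh
        obtain ⟨k3, k4⟩ := Finset.mem_erase.1 k2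
        exact (memQ _).2 ⟨fun h4 => o3 (h4 ▸ k4), k3, k1, C1.vA.1 k4⟩
    refine ⟨N, hN4, p.1 ∪ Y, Finset.subset_union_left, ?_, ?_, ?_, ?_⟩
    · rw [← hQu, Finset.union_assoc]
      exact Finset.union_subset_union_right (Finset.union_subset sub1 sub2)
    · rw [Finset.disjoint_left] at hdis ⊢
      intro y hy hy'
      rcases Finset.mem_union.1 hy' with hh | hh
      · exact (Finset.mem_sdiff.1 (sub2 hy)).2 hh
      · exact hdis hy hh
    · rw [hρd] at hr1
      unfold rc at hr1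
      rw [Finset.union_assoc]
      linarith
    · intro i hi j hj hij
      have h := hr2 i hi j hj hij
      rw [hρd] at h
      unfold rc at h
      rw [Finset.union_insert, Finset.union_insert] at h
      linarith
  have lN : ∃ N, QUB.Ln S.r (rm true w (rm true w' p)) N := by
    obtain ⟨N, h4, Y, g1, g2, g3, g4, g5⟩ := lQ
    exact ⟨N, h4, Y, g1, g2.trans (Finset.erase_subset _ _), g3, g4, g5⟩
  -- values
  obtain ⟨c1, hc1, d1, hd1, hcd1, hd12, hd13, hv1⟩ := C1.val hp m1 m3 h13 hL1 (by omega)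
  obtain ⟨c2, hc2, d2, hd2, hcd2, hd21, hd23, hv2⟩ := C2.val hp m2 m3 h23 hL2 (by omega)
  obtain ⟨c3, hc3, d3, hd3, hcd3, hd31, hd32, hv3⟩ := C3.val hp m3 m2 h23.symm hL3 (by omega)
  have vz : ∀ {T : Fm F4 E} {x : E} {c d : E → F4}, InV S.U S.W (rm true x p) T → c ∈ van S.U p.1 → d ∈ spt S.W p.2 →
      (∀ y, c y * d y = 0) → d x = 0 → T c d = 0 := by
    intro T x c d hT hc hd hcd hdx
    refine hT c hc d ⟨hd.1, fun y hy => ?_⟩ hcd
    by_cases hyx : y = x
    · rw [hyx, hdx]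
    · exact hd.2 y fun h4 => hy (Finset.mem_erase.2 ⟨hyx, h4⟩)
  have key : ∀ a1 a2 a3 : F4, EqD S.U S.W p (a1 • T1 + a2 • T2 + a3 • T3) 0 → a1 = 0 ∧ a2 = 0 ∧ a3 = 0 := by
    rintro a1 a2 a3 ⟨l, hl⟩
    rw [zero_add] at hl
    have e1 := hl c1 hc1 d1 hd1
    have e2 := hl c2 hc2 d2 hd2
    have e3 := hl c3 hc3 d3 hd3
    rw [dg_inV (U := S.U) (W := S.W) p l c1 hc1 d1 hd1 hcd1, LinearMap.add_apply, LinearMap.add_apply, LinearMap.add_apply,
      LinearMap.add_apply, LinearMap.smul_apply, LinearMap.smul_apply, LinearMap.smul_apply, LinearMap.smul_apply, LinearMap.smul_apply,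
      LinearMap.smul_apply, vz (C2.iT x2 (Or.inl rfl)) hc1 hd1 hcd1 hd12, vz (C3.iT x3 (Or.inl rfl)) hc1 hd1 hcd1 hd13, smul_zero, smul_zero,
      add_zero, add_zero, smul_eq_mul] at e1
    rw [dg_inV (U := S.U) (W := S.W) p l c2 hc2 d2 hd2 hcd2, LinearMap.add_apply, LinearMap.add_apply, LinearMap.add_apply,
      LinearMap.add_apply, LinearMap.smul_apply, LinearMap.smul_apply, LinearMap.smul_apply, LinearMap.smul_apply, LinearMap.smul_apply,
      LinearMap.smul_apply, vz (C1.iT x1 (Or.inl rfl)) hc2 hd2 hcd2 hd21, vz (C3.iT x3 (Or.inl rfl)) hc2 hd2 hcd2 hd23, smul_zero, smul_zero,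
      add_zero, zero_add, smul_eq_mul] at e2
    rw [dg_inV (U := S.U) (W := S.W) p l c3 hc3 d3 hd3 hcd3, LinearMap.add_apply, LinearMap.add_apply, LinearMap.add_apply,
      LinearMap.add_apply, LinearMap.smul_apply, LinearMap.smul_apply, LinearMap.smul_apply, LinearMap.smul_apply, LinearMap.smul_apply,
      LinearMap.smul_apply, vz (C1.iT x1 (Or.inl rfl)) hc3 hd3 hcd3 hd31, vz (C2.iT x2 (Or.inl rfl)) hc3 hd3 hcd3 hd32, smul_zero, smul_zero,
      zero_add, zero_add, smul_eq_mul] at e3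
    exact ⟨(mul_eq_zero.1 e1).resolve_right hv1, (mul_eq_zero.1 e2).resolve_right hv2, (mul_eq_zero.1 e3).resolve_right hv3⟩
  -- the scalars
  obtain ⟨Tw, hTw⟩ := hex w hwg
  obtain ⟨Tw', hTw'⟩ := hex w' hwg'
  have uq : ∀ v ∈ gs p, ∀ Tv, InVs S (rm true v p) Tv → ∀ T, InV S.U S.W (rm true v p) T → ∃ k : F4, EqD S.U S.W (rm true v p) T (k • Tv) :=
    fun v hv Tv hTv T hT => uniq_f4 S hNU (QUB.wf_rm hp hv) (cw v hv) (th3_ok (h3w v hv)) hT hTv
  obtain ⟨k1, hk1⟩ := uq w hwg Tw hTw T1 (C1.iT w (Or.inr hw1))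
  obtain ⟨k2, hk2⟩ := uq w hwg Tw hTw T2 (C2.iT w (Or.inr hw2))
  obtain ⟨k3, hk3⟩ := uq w hwg Tw hTw T3 (C3.iT w (Or.inr hw3))
  obtain ⟨n1, hn1⟩ := uq w' hwg' Tw' hTw' T1 (C1.iT w' (Or.inr hw1'))
  obtain ⟨n2, hn2⟩ := uq w' hwg' Tw' hTw' T2 (C2.iT w' (Or.inr hw2'))
  rcases hw3' with hw3' | hw3'
  · obtain ⟨n3, hn3⟩ := uq w' hwg' Tw' hTw' T3 (C3.iT w' (Or.inr hw3'))
    obtain ⟨a1, a2, a3, hne, e1, e2⟩ := two_three k1 k2 k3 n1 n2 n3
    obtain ⟨z1, z2, z3⟩ := key a1 a2 a3 (same_diag S hww hwg hwg' (comb_diag hk1 hk2 hk3 e1) (comb_diag hn1 hn2 hn3 e2) hp cN lN hnd)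
    rcases hne with h | h | h
    · exact h z1
    · exact h z2
    · exact h z3
  · obtain ⟨n3, hn3⟩ := uq w' hwg' Tw' hTw' T3' (C3.iT' w' (Or.inr hw3'))
    obtain ⟨a1, a2, a3, hne, e1, e2⟩ := two_three k1 k2 k3 n1 n2 n3
    have g1 := comb_diag hk1 hk2 hk3 e1
    have g2 := comb_diag hn1 hn2 hn3 e2
    by_cases ha3 : a3 = 0
    · have g3 : EqD S.U S.W (rm true w' p) (a1 • T1 + a2 • T2 + a3 • T3) 0 := by
        rw [ha3, zero_smul] at g2 ⊢
        exact g2
      obtain ⟨z1, z2, z3⟩ := key a1 a2 a3 (same_diag S hww hwg hwg' g1 g3 hp cN lN hnd)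
      rcases hne with h | h | h
      · exact h z1
      · exact h z2
      · exact h z3
    · obtain ⟨l1, hl1⟩ := g1
      obtain ⟨l2, hl2⟩ := g2
      rw [zero_add] at hl1 hl2
      obtain ⟨θ, hθ, hθT⟩ := C3.nz
      -- the pair form is diagonal on the common box
      have hN : ∀ c ∈ van S.U p.1, ∀ d ∈ spt S.W (rm true w (rm true w' p)).2, a3 * (θ * (c x1 * d x3)) = dg (l2 - l1) c d := by
        intro c hc d hd
        have f1 := hl1.mono ((rm_sub true w' p).rm true w) c hc d hd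
        have f2 := hl2.mono (rm_sub true w _) c hc d hd
        rw [LinearMap.add_apply, LinearMap.add_apply, LinearMap.add_apply, LinearMap.add_apply, LinearMap.smul_apply, LinearMap.smul_apply,
          LinearMap.smul_apply, LinearMap.smul_apply, LinearMap.smul_apply, LinearMap.smul_apply, smul_eq_mul, smul_eq_mul, smul_eq_mul] at f1 f2
        rw [hθT c d] at f2
        rw [dg_sub, LinearMap.sub_apply, LinearMap.sub_apply]
        linear_combination f2 - f1
      have hQz : EqOn S.U S.W Q (dg (l2 - l1)) 0 := by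
        intro c hc d hd
        rw [← hN c hc d (spt_mono (Finset.erase_subset _ _) hd), hd.2 x3 (Finset.notMem_erase x3 _)]
        simp
      have hz := hom_cn S wfQ cQ lQ hQz
      -- vectors
      obtain ⟨c, hc, hcx⟩ := S.van_one (C := insert x3 p.1) (x := x1) (by
        have g3 := th3_con2 hrk hp h3 (by omega) m1 m3 h13
        have g4 := th3_con1 hrk hp h3 (by omega) m3
        linarith)
      have hcx3 : c x3 = 0 := hc.2 x3 (Finset.mem_insert_self _ _)
      have hc' : c ∈ van S.U p.1 := van_anti (Finset.subset_insert _ _) hc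
      have hx3N : x3 ∈ (rm true w (rm true w' p)).2 :=
        Finset.mem_erase.2 ⟨hwx3.symm, Finset.mem_erase.2 ⟨hwx3'.symm, (Finset.mem_sdiff.1 m3).1⟩⟩
      have hB1Q : p.1 ∪ insert x2 B1 ⊆ Q.2 := by
        rw [← hQu]
        refine Finset.union_subset_union_right fun y hy => ?_
        rcases Finset.mem_insert.1 hy with rfl | hh
        · exact (memQ _).2 ⟨h23, fun hh => o2 (hh ▸ hw1), fun hh => o2 (hh ▸ hw1'), m2⟩
        · exact (memQ _).2 ⟨fun h4 => o3' (h4 ▸ hh), fun h4 => Finset.disjoint_left.1 C1.dis hw1 (h4 ▸ hh),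
            fun h4 => Finset.disjoint_left.1 C1.dis hw1' (h4 ▸ hh), C1.vA'.1 hh⟩
      have hrQ : S.r Q.2 = S.r p.2 := by
        have g3 : ρ (insert x2 B1) = S.r p.2 - S.r p.1 := by
          have g4 := C1.vb.symm.ind hρ
          have g5 := C1.cA'
          have g6 := (va_iff.2 C1.vA').2.2.2
          change ρ B1 = _ at g4
          change ρ (insert x2 B1) = ρ B1 + 1 at g6
          linarith
        have g4 : S.r (p.1 ∪ insert x2 B1) = S.r p.2 := by
          rw [hρd] at g3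
          unfold rc at g3
          linarith
        have g5 := hrk.mono _ _ hB1Q
        have g6 : S.r Q.2 ≤ S.r p.2 := hrk.mono _ _ (by
          rw [hQ2]
          exact (Finset.erase_subset _ _).trans ((Finset.erase_subset _ _).trans (Finset.erase_subset _ _)))
        linarith
      obtain ⟨d, hd, hdx⟩ := S.spt_one hx3N (by
        have g3 : S.r ((rm true w (rm true w' p)).2.erase x3) = S.r p.2 := hrQ
        have g4 : S.r (rm true w (rm true w' p)).2 ≤ S.r p.2 :=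
          hrk.mono _ _ ((Finset.erase_subset _ _).trans (Finset.erase_subset _ _))
        have g5 := hrk.mono _ _ (Finset.erase_subset x3 (rm true w (rm true w' p)).2)
        linarith)
      have f := hN c hc' d hd
      rw [hcx, hdx, mul_one, mul_one, dg_apply, Finset.sum_eq_zero] at f
      · exact (mul_ne_zero ha3 hθ) f
      · intro y _
        by_cases hy3 : y = x3
        · rw [hy3, hcx3]
          ring
        by_cases hy1 : y ∈ p.1
        · rw [hc'.2 y hy1]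
          ring
        by_cases hy2 : y ∈ (rm true w (rm true w' p)).2
        · have g3 : y ∈ gs Q := by
            have g4 : y ∈ Q.2 := Finset.mem_erase.2 ⟨hy3, hy2⟩
            exact Finset.mem_sdiff.2 ⟨g4, hy1⟩
          rw [hz y g3]
          ring
        · rw [hd.2 y hy2]
          ring

private theorem no_norm {S : TP F4 E} {p : Itv E} {f a b : E} {A B : Finset E} {T T' : Fm F4 E} (C : Cpl S p f a b A B T T') {w : E}
    (h : w ∈ A ∨ w ∈ B) : ∃ (A' B' : Finset E) (T1 T1' : Fm F4 E), Cpl S p f a b A' B' T1 T1' ∧ w ∈ A' ∧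
      (∀ v, (v ∈ A ↔ w ∈ A) → (v ∈ A ∨ v ∈ B) → v ∈ A') ∧ ∀ v, v ∈ A ∨ v ∈ B → v ∈ A' ∨ v ∈ B' := by
  rcases h with h | h
  · exact ⟨A, B, T, T', C, h, fun v h1 _ => h1.2 h, fun v h1 => h1⟩
  · have hn : w ∉ A := fun hh => Finset.disjoint_left.1 C.dis hh h
    exact ⟨B, A, T', T, C.symm, h, fun v h1 h2 => h2.resolve_left fun h3 => hn (h1.1 h3), fun v h1 => h1.symm⟩

/-- (5b) no conflict at the triangle, `n = 2 r + 1` -/
theorem n_odd' (S : TP F4 E) (hNU : NU S.r) {p : Itv E} (hp : p.1 ⊆ p.2) (hC : Cn S.r p) (h3 : Th3 S.r p)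
    (hr : 5 ≤ S.r p.2 - S.r p.1) (hr2 : 2 * (S.r p.2 - S.r p.1) + 1 = (gs p).card)
    {f a b : E} (hf : f ∈ gs p) (ha : a ∈ gs p) (hb : b ∈ gs p)
    (hfa : f ≠ a) (hfb : f ≠ b) (hab : a ≠ b) (hL : Tri3 S.r p f a b)
    (hex : ∀ w ∈ gs p, ∀ t, ∃ T, InVs S (rm t w p) T) (h3w : ∀ w ∈ gs p, Th3 S.r (rm true w p))
    (hRf : HasRich S.r (rm true f p)) (hRa : HasRich S.r (rm true a p)) (hRb : HasRich S.r (rm true b p))
    (hok : ∀ x ∈ gs p, (x = f ∨ x = a ∨ x = b) → ∀ y ∈ gs p, y ≠ f → y ≠ a → y ≠ b → Ok S.r (rm true x (rm true y p))) :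
    ∃ T : Fm F4 E, InV S.U S.W p T ∧ ¬ EqD S.U S.W p T 0 := by
  by_contra hcon
  have hrk := S.rk
  -- the triangle from the three points
  have hL2 : Tri3 S.r p a f b := by
    obtain ⟨⟨g1, g2⟩, g3⟩ := hL
    refine ⟨⟨g3, ?_⟩, g1⟩
    rw [Finset.insert_comm a f p.1]
    exact g2
  have hL3 : Tri3 S.r p b f a := by
    obtain ⟨⟨g1, g2⟩, g3⟩ := hL
    refine ⟨⟨g2, ?_⟩, ?_⟩
    · rw [Finset.insert_comm b f p.1]
      exact g3
    · rw [Finset.insert_comm b a p.1]
      exact g1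
  have cp : ∀ {x y z : E}, x ∈ gs p → y ∈ gs p → z ∈ gs p → x ≠ y → x ≠ z → y ≠ z → Tri3 S.r p x y z → HasRich S.r (rm true x p) →
      (∀ v ∈ gs p, v ≠ x → v ≠ y → v ≠ z → Ok S.r (rm true x (rm true v p))) →
      ∃ (A A' : Finset E) (T1 T1' : Fm F4 E), Cpl S p x y z A A' T1 T1' := by
    intro x y z hx hy hz hxy hxz hyz hT hRx hokx
    obtain ⟨Ts, hTs⟩ := hex x hx true
    refine cpl_of S hp hx hy hz hxy hxz hyz hT (by omega) hr2 (fun w hw hwx hwy hwz => ?_) (T := Ts) hTs.1 fun T' hT' heq => hcon ⟨T', hT', ?_⟩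
    · have hg : gs (rm true w p) = (gs p).erase w := gs_rm true w p
      have hcard : (gs (rm true w p)).card = (gs p).card - 1 := by rw [hg]; exact Finset.card_erase_of_mem hw
      have hxw : x ∈ gs (rm true w p) := by rw [hg]; exact Finset.mem_erase.2 ⟨hwx.symm, hx⟩
      exact ex_ok S hNU (QUB.wf_rm hp hw) hxw
        (th3_cn hrk (QUB.wf_rm hp hw) (th3_cn hrk hp hC h3 (by omega) hw true) (h3w w hw) (by omega) hxw true)
        (hokx w hw hwx hwy hwz) (hex w hw true)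
    · intro hd
      obtain ⟨N, g1, g2⟩ := hRx
      exact hTs.2 N g1 g2 ((heq.symm.mono g1).eqD.trans (hd.mono ((rm_sub true x p).trans g1)))
  obtain ⟨A1, B1, T1, T1', C1⟩ := cp hf ha hb hfa hfb hab hL hRf (fun v hv g1 g2 g3 => hok f hf (Or.inl rfl) v hv g1 g2 g3)
  obtain ⟨A2, B2, T2, T2', C2⟩ := cp ha hf hb hfa.symm hab hfb hL2 hRa
    (fun v hv g1 g2 g3 => hok a ha (Or.inr (Or.inl rfl)) v hv g2 g1 g3)
  obtain ⟨A3, B3, T3, T3', C3⟩ := cp hb hf ha hfb.symm hab.symm hfa hL3 hRb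
    (fun v hv g1 g2 g3 => hok b hb (Or.inr (Or.inr rfl)) v hv g2 g3 g1)
  -- two elements in the same cell
  classical
  set G : Finset E := gs p \ {f, a, b} with hG
  have hGm : ∀ w ∈ G, w ∈ gs p ∧ w ≠ f ∧ w ≠ a ∧ w ≠ b := by
    intro w hw
    have h := Finset.mem_sdiff.1 hw
    have h2 := h.2
    simp only [Finset.mem_insert, Finset.mem_singleton, not_or] at h2
    exact ⟨h.1, h2.1, h2.2.1, h2.2.2⟩
  have hs3 : ({f, a, b} : Finset E) ⊆ gs p := by
    intro x hx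
    simp only [Finset.mem_insert, Finset.mem_singleton] at hx
    rcases hx with rfl | rfl | rfl
    · exact hf
    · exact ha
    · exact hb
  have hc3 : ({f, a, b} : Finset E).card = 3 := Finset.card_eq_three.2 ⟨f, a, b, hfa, hfb, hab, rfl⟩
  have hGc : G.card = (gs p).card - 3 := by rw [hG, Finset.card_sdiff_of_subset hs3, hc3]
  obtain ⟨w, hw, w', hw', hww, heq⟩ : ∃ w ∈ G, ∃ w' ∈ G, w ≠ w' ∧ (decide (w ∈ A1), decide (w ∈ A2)) = (decide (w' ∈ A1), decide (w' ∈ A2)) := by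
    refine Finset.exists_ne_map_eq_of_card_lt_of_maps_to (t := (Finset.univ : Finset (Bool × Bool))) ?_ (fun x _ => Finset.mem_univ _)
    have : (Finset.univ : Finset (Bool × Bool)).card = 4 := by decide
    omega
  obtain ⟨heq1, heq2⟩ := Prod.mk.inj heq
  have q1 : w' ∈ A1 ↔ w ∈ A1 := by
    have := decide_eq_decide.1 heq1
    exact this.symm
  have q2 : w' ∈ A2 ↔ w ∈ A2 := by
    have := decide_eq_decide.1 heq2
    exact this.symm
  obtain ⟨g1, g2, g3, g4⟩ := hGm w hw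
  obtain ⟨g1', g2', g3', g4'⟩ := hGm w' hw'
  obtain ⟨A1', B1', U1, U1', D1, d1, e1, -⟩ := no_norm C1 (C1.cov w g1 g2 g3 g4)
  obtain ⟨A2', B2', U2, U2', D2, d2, e2, -⟩ := no_norm C2 (C2.cov w g1 g3 g2 g4)
  obtain ⟨A3', B3', U3, U3', D3, d3, -, e3⟩ := no_norm C3 (C3.cov w g1 g4 g2 g3)
  exact cpl_fin S hNU hp hC h3 hr (by omega) hf ha hb hfa hfb hab hL hL2 hL3 (fun v hv => hex v hv true) h3w D1 D2 D3 hww d1
    (e1 w' q1 (C1.cov w' g1' g2' g3' g4')) d2 (e2 w' q2 (C2.cov w' g1' g3' g2' g4')) d3 (e3 w' (C3.cov w' g1' g4' g2' g3'))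

end

end Pool.Agent.QU
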