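import Pool.Agent.QUR.Tut
import Pool.Agent.QUN.Defs

set_option autoImplicit false

/-!
# QUR/NRank: the special configuration with nine elements, ranks

`N9`: a box with nine elements and rank four, a triangle `{f, a, b}`, `Y` the six other elements, no three of them collinear, six elements span,
`D` and `Y \ D` are the triples of `Y` which have `b` in the closure. Then `M / b \ a` is a plane with seven points, no four on a line.
-/

open QUB

namespace Pool.Agent.QU

variable {E : Type} [DecidableEq E]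

/-- the special configuration -/
structure N9 (r : Finset E → ℤ) (p : Itv E) (f a b : E) (D : Finset E) : Prop where
  hr : Rk r
  hp : p.1 ⊆ p.2
  hf : f ∈ gs p
  ha : a ∈ gs p
  hb : b ∈ gs p
  hfa : f ≠ a
  hfb : f ≠ b
  hab : a ≠ b
  n9 : (gs p).card = 9
  r4 : r p.2 = r p.1 + 4
  k2 : ∀ x ∈ gs p, ∀ y ∈ gs p, x ≠ y → r (p.1 ∪ {x, y}) = r p.1 + 2
  k6 : ∀ B ⊆ gs p, 6 ≤ B.card → r (p.1 ∪ B) = r p.2
  kL : r (p.1 ∪ {f, a, b}) ≤ r p.1 + 2
  k3 : ∀ B ⊆ gs p \ {f, a, b}, B.card = 3 → r (p.1 ∪ B) = r p.1 + 3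
  hD : D ⊆ gs p \ {f, a, b}
  D3 : D.card = 3
  hD1 : r (p.1 ∪ insert b D) ≤ r p.1 + 3
  hD2 : r (p.1 ∪ insert b ((gs p \ {f, a, b}) \ D)) ≤ r p.1 + 3
  uni : ∀ B ⊆ gs p \ {f, a, b}, B.card = 3 → r (p.1 ∪ insert b B) ≤ r p.1 + 3 → B = D ∨ B = (gs p \ {f, a, b}) \ D

private theorem pig {α : Type} {P Q u v w : α} (hu : u = P ∨ u = Q) (hv : v = P ∨ v = Q) (hw : w = P ∨ w = Q) :
    u = v ∨ u = w ∨ v = w := by
  rcases hu with rfl | rfl <;> rcases hv with rfl | rfl <;> rcases hw with rfl | rfl <;> simp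

namespace N9

variable {r : Finset E → ℤ} {p : Itv E} {f a b : E} {D : Finset E} (h : N9 r p f a b D)
include h

theorem hL : ({f, a, b} : Finset E) ⊆ gs p := by
  intro x hx
  simp only [Finset.mem_insert, Finset.mem_singleton] at hx
  rcases hx with rfl | rfl | rfl
  · exact h.hf
  · exact h.ha
  · exact h.hb

theorem hL3 : ({f, a, b} : Finset E).card = 3 := Finset.card_eq_three.2 ⟨f, a, b, h.hfa, h.hfb, h.hab, rfl⟩

theorem Yc : (gs p \ {f, a, b}).card = 6 := by
  rw [Finset.card_sdiff_of_subset h.hL, h.hL3, h.n9]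

theorem symm : N9 r p f a b ((gs p \ {f, a, b}) \ D) := by
  have e1 : (gs p \ {f, a, b}) \ ((gs p \ {f, a, b}) \ D) = D := Finset.sdiff_sdiff_eq_self h.hD
  refine ⟨h.hr, h.hp, h.hf, h.ha, h.hb, h.hfa, h.hfb, h.hab, h.n9, h.r4, h.k2, h.k6, h.kL, h.k3, Finset.sdiff_subset, ?_, h.hD2, ?_, ?_⟩
  · rw [Finset.card_sdiff_of_subset h.hD, h.Yc, h.D3]
  · rw [e1]
    exact h.hD1
  · intro B hB hc hle
    rw [e1]
    exact (h.uni B hB hc hle).symm

theorem up {A : Finset E} (hA : A ⊆ gs p) : r (p.1 ∪ A) ≤ r p.1 + 4 := by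
  have h1 := h.hr.mono (p.1 ∪ A) p.2 (Finset.union_subset h.hp (hA.trans Finset.sdiff_subset))
  have h2 := h.r4
  omega

theorem Yg : gs p \ {f, a, b} ⊆ gs p := Finset.sdiff_subset

theorem mY {y : E} : y ∈ gs p \ {f, a, b} ↔ y ∈ gs p ∧ y ≠ f ∧ y ≠ a ∧ y ≠ b := by
  simp only [Finset.mem_sdiff, Finset.mem_insert, Finset.mem_singleton, not_or]

/-- a plane which contains `b`, `f` contains at most two points of `Y` -/
theorem six {A B : Finset E} (hB : B ⊆ gs p \ {f, a, b}) (hB3 : 3 ≤ B.card) (hBA : B ⊆ A) (hbA : b ∈ A) (hfA : f ∈ A)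
    (hle : r (p.1 ∪ A) ≤ r p.1 + 3) : False := by
  have h1 := h.hr.sub (p.1 ∪ A) (p.1 ∪ {f, a, b})
  have h2 := h.kL
  have h3 := h.k2 b h.hb f h.hf h.hfb.symm
  have h4 := h.hr.mono (p.1 ∪ {b, f}) ((p.1 ∪ A) ∩ (p.1 ∪ {f, a, b})) (by
    intro x hx
    simp only [Finset.mem_union, Finset.mem_insert, Finset.mem_singleton, Finset.mem_inter] at hx ⊢
    rcases hx with hx | rfl | rfl
    · exact ⟨Or.inl hx, Or.inl hx⟩
    · exact ⟨Or.inr hbA, by tauto⟩
    · exact ⟨Or.inr hfA, by tauto⟩)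
  have h5 := h.hr.mono (p.1 ∪ (B ∪ {f, a, b})) ((p.1 ∪ A) ∪ (p.1 ∪ {f, a, b})) (by
    intro x hx
    have e1 := @hBA x
    simp only [Finset.mem_union] at hx ⊢
    tauto)
  have h6 := h.k6 (B ∪ {f, a, b}) (Finset.union_subset (hB.trans h.Yg) h.hL) (by
    rw [Finset.card_union_of_disjoint, h.hL3]
    · omega
    · exact Finset.disjoint_left.2 fun x hx => (Finset.mem_sdiff.1 (hB hx)).2)
  have h7 := h.r4
  omega

/-- four elements of `M / b \ a` span -/
theorem four {X : Finset E} (hX : X ⊆ insert f (gs p \ {f, a, b})) (hc : 4 ≤ X.card) : r (p.1 ∪ insert b X) = r p.1 + 4 := by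
  have hXg : insert b X ⊆ gs p := by
    refine Finset.insert_subset h.hb (hX.trans (Finset.insert_subset h.hf h.Yg))
  have hup := h.up hXg
  obtain ⟨X0, hX0, hX0c⟩ := Finset.exists_subset_card_eq hc
  have hm := h.hr.mono (p.1 ∪ insert b X0) (p.1 ∪ insert b X)
    (Finset.union_subset_union (Finset.Subset.refl _) (Finset.insert_subset_insert b hX0))
  by_contra hne
  have hle : r (p.1 ∪ insert b X0) ≤ r p.1 + 3 := by omega
  by_cases hfX : f ∈ X0
  · refine h.six (A := insert b X0) (B := X0.erase f) ?_ ?_ ?_ (Finset.mem_insert_self _ _) (Finset.mem_insert_of_mem hfX) hle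
    · intro x hx
      obtain ⟨h1, h2⟩ := Finset.mem_erase.1 hx
      exact (Finset.mem_insert.1 (hX (hX0 h2))).resolve_left h1
    · rw [Finset.card_erase_of_mem hfX]
      omega
    · exact (Finset.erase_subset _ _).trans (Finset.subset_insert _ _)
  · have hXY : X0 ⊆ gs p \ {f, a, b} := by
      intro x hx
      exact (Finset.mem_insert.1 (hX (hX0 hx))).resolve_left fun h1 => hfX (h1 ▸ hx)
    have key : ∀ x ∈ X0, X0.erase x = D ∨ X0.erase x = (gs p \ {f, a, b}) \ D := by
      intro x hx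
      refine h.uni _ ((Finset.erase_subset _ _).trans hXY) (by rw [Finset.card_erase_of_mem hx]; omega) ?_
      have h1 := h.hr.mono (p.1 ∪ insert b (X0.erase x)) (p.1 ∪ insert b X0)
        (Finset.union_subset_union (Finset.Subset.refl _) (Finset.insert_subset_insert b (Finset.erase_subset _ _)))
      omega
    obtain ⟨Z, hZ, hZc⟩ := Finset.exists_subset_card_eq (show 3 ≤ X0.card by omega)
    obtain ⟨x, y, z, hxy, hxz, hyz, rfl⟩ := Finset.card_eq_three.1 hZc
    have hx : x ∈ X0 := hZ (by simp)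
    have hy : y ∈ X0 := hZ (by simp)
    have hz : z ∈ X0 := hZ (by simp)
    have hne2 : ∀ {s t : E}, s ∈ X0 → s ≠ t → X0.erase s ≠ X0.erase t := by
      intro s t hs hst he
      have h1 : s ∈ X0.erase t := Finset.mem_erase.2 ⟨hst, hs⟩
      rw [← he] at h1
      exact Finset.notMem_erase s X0 h1
    rcases pig (key x hx) (key y hy) (key z hz) with h1 | h1 | h1
    · exact hne2 hx hxy h1
    · exact hne2 hx hxz h1
    · exact hne2 hy hyz h1

/-- the element `y` is in one of the two triples -/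
theorem blk {y : E} (hy : y ∈ gs p \ {f, a, b}) : ∃ B ⊆ gs p \ {f, a, b}, B.card = 3 ∧ y ∈ B ∧ r (p.1 ∪ insert b B) ≤ r p.1 + 3 := by
  by_cases hyD : y ∈ D
  · exact ⟨D, h.hD, h.D3, hyD, h.hD1⟩
  · exact ⟨_, h.symm.hD, h.symm.D3, Finset.mem_sdiff.2 ⟨hy, hyD⟩, h.hD2⟩

/-- two elements of `M / b \ a` are independent -/
theorem two {X : Finset E} (hX : X ⊆ insert f (gs p \ {f, a, b})) (hc : 2 ≤ X.card) : r p.1 + 3 ≤ r (p.1 ∪ insert b X) := by
  obtain ⟨X0, hX0, hX0c⟩ := Finset.exists_subset_card_eq hc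
  have hm := h.hr.mono (p.1 ∪ insert b X0) (p.1 ∪ insert b X)
    (Finset.union_subset_union (Finset.Subset.refl _) (Finset.insert_subset_insert b hX0))
  by_contra hne
  have hle : r (p.1 ∪ insert b X0) ≤ r p.1 + 2 := by omega
  by_cases hfX : f ∈ X0
  · obtain ⟨y, hy⟩ := Finset.card_eq_one.1 (show (X0.erase f).card = 1 by rw [Finset.card_erase_of_mem hfX]; omega)
    have hy1 : y ∈ X0.erase f := by
      rw [hy]
      exact Finset.mem_singleton_self y
    obtain ⟨hyf, hyX⟩ := Finset.mem_erase.1 hy1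
    have hyY : y ∈ gs p \ {f, a, b} := (Finset.mem_insert.1 (hX (hX0 hyX))).resolve_left hyf
    obtain ⟨B, hB, hBc, hyB, hBr⟩ := h.blk hyY
    have hyn := h.mY.1 hyY
    have h1 := h.hr.sub (p.1 ∪ insert b B) (p.1 ∪ insert b X0)
    have h2 := h.k2 b h.hb y hyn.1 hyn.2.2.2.symm
    have h3 := h.hr.mono (p.1 ∪ {b, y}) ((p.1 ∪ insert b B) ∩ (p.1 ∪ insert b X0)) (by
      intro x hx
      simp only [Finset.mem_union, Finset.mem_insert, Finset.mem_singleton, Finset.mem_inter] at hx ⊢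
      rcases hx with hx | rfl | rfl
      · exact ⟨Or.inl hx, Or.inl hx⟩
      · exact ⟨Or.inr (Or.inl rfl), Or.inr (Or.inl rfl)⟩
      · exact ⟨Or.inr (Or.inr hyB), Or.inr (Or.inr hyX)⟩)
    have h4 : (p.1 ∪ insert b B) ∪ (p.1 ∪ insert b X0) = p.1 ∪ (insert b B ∪ insert b X0) := by
      ext x
      simp only [Finset.mem_union]
      tauto
    rw [h4] at h1
    refine h.six hB (by omega) (A := insert b B ∪ insert b X0) ?_ ?_ ?_ (by omega)
    · exact (Finset.subset_insert _ _).trans Finset.subset_union_left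
    · exact Finset.mem_union_left _ (Finset.mem_insert_self _ _)
    · exact Finset.mem_union_right _ (Finset.mem_insert_of_mem hfX)
  · have hXY : X0 ⊆ gs p \ {f, a, b} := by
      intro x hx
      exact (Finset.mem_insert.1 (hX (hX0 hx))).resolve_left fun h1 => hfX (h1 ▸ hx)
    have hrest : 3 ≤ ((gs p \ {f, a, b}) \ X0).card := by
      rw [Finset.card_sdiff_of_subset hXY, h.Yc]
      omega
    have key : ∀ z ∈ (gs p \ {f, a, b}) \ X0, insert z X0 = D ∨ insert z X0 = (gs p \ {f, a, b}) \ D := by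
      intro z hz
      obtain ⟨hz1, hz2⟩ := Finset.mem_sdiff.1 hz
      refine h.uni _ (Finset.insert_subset hz1 hXY) (by rw [Finset.card_insert_of_notMem hz2]; omega) ?_
      have h1 := h.hr.unit (p.1 ∪ insert b X0) z
      have h2 : insert z (p.1 ∪ insert b X0) = p.1 ∪ insert b (insert z X0) := by
        ext x
        simp only [Finset.mem_union, Finset.mem_insert]
        tauto
      rw [h2] at h1
      omega
    obtain ⟨Z, hZ, hZc⟩ := Finset.exists_subset_card_eq hrest
    obtain ⟨x, y, z, hxy, hxz, hyz, rfl⟩ := Finset.card_eq_three.1 hZc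
    have hx := hZ (show x ∈ ({x, y, z} : Finset E) by simp)
    have hy := hZ (show y ∈ ({x, y, z} : Finset E) by simp)
    have hz := hZ (show z ∈ ({x, y, z} : Finset E) by simp)
    have hne2 : ∀ {s t : E}, s ∈ (gs p \ {f, a, b}) \ X0 → s ≠ t → insert s X0 ≠ insert t X0 := by
      intro s t hs hst he
      have h1 : s ∈ insert t X0 := by
        rw [← he]
        exact Finset.mem_insert_self s X0
      rcases Finset.mem_insert.1 h1 with h1 | h1
      · exact hst h1
      · exact (Finset.mem_sdiff.1 hs).2 h1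
    rcases pig (key x hx) (key y hy) (key z hz) with h1 | h1 | h1
    · exact hne2 hx hxy h1
    · exact hne2 hx hxz h1
    · exact hne2 hy hyz h1

/-! ### the box `M / b \ a` -/

theorem bm : b ∈ p.2 ∧ b ∉ p.1 := Finset.mem_sdiff.1 h.hb

theorem gsQ : gs (rm true a (rm false b p)) = insert f (gs p \ {f, a, b}) := by
  have e1 : ∀ v, v ∈ gs (rm true a (rm false b p)) ↔ (v ≠ a ∧ v ∈ p.2) ∧ ¬ (v = b ∨ v ∈ p.1) := by
    intro v
    show v ∈ (p.2.erase a) \ (insert b p.1) ↔ _
    rw [Finset.mem_sdiff, Finset.mem_erase, Finset.mem_insert]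
  have hf' := Finset.mem_sdiff.1 h.hf
  have h1 := h.hfa
  have h2 := h.hfb
  ext v
  rw [e1, Finset.mem_insert, h.mY]
  have e2 : v ∈ gs p ↔ v ∈ p.2 ∧ v ∉ p.1 := Finset.mem_sdiff
  rw [e2]
  by_cases hv : v = f
  · subst hv
    tauto
  · tauto

theorem cardQ : (insert f (gs p \ {f, a, b})).card = 7 := by
  rw [Finset.card_insert_of_notMem (by simp), h.Yc]

theorem q1 (A : Finset E) : (rm true a (rm false b p)).1 ∪ A = p.1 ∪ insert b A := by
  show insert b p.1 ∪ A = _
  ext v
  simp only [Finset.mem_union, Finset.mem_insert]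
  tauto

theorem q2 {A : Finset E} (hA : A ⊆ insert f (gs p \ {f, a, b})) :
    (rm true a (rm false b p)).2 \ A = p.1 ∪ insert b (insert f (gs p \ {f, a, b}) \ A) := by
  show p.2.erase a \ A = _
  have hb1 := h.bm
  have ha1 : a ∈ p.2 ∧ a ∉ p.1 := Finset.mem_sdiff.1 h.ha
  have hf1 : f ∈ p.2 ∧ f ∉ p.1 := Finset.mem_sdiff.1 h.hf
  have h1 := h.hfa
  have h2 := h.hfb
  have h3 := h.hab
  ext v
  have e0 := @hA v
  have e2 : v ∈ gs p ↔ v ∈ p.2 ∧ v ∉ p.1 := Finset.mem_sdiff
  have e3 := @h.hp v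
  rw [Finset.mem_insert, h.mY, e2] at e0
  rw [Finset.mem_sdiff, Finset.mem_erase, Finset.mem_union, Finset.mem_insert, Finset.mem_sdiff, Finset.mem_insert, h.mY, e2]
  by_cases hvf : v = f
  · subst hvf
    tauto
  by_cases hvb : v = b
  · subst hvb
    have : a ≠ v := h3
    have h4 : v ≠ a := fun h' => h3 h'.symm
    tauto
  by_cases hva : v = a
  · subst hva
    tauto
  tauto

theorem rQ1 : r (rm true a (rm false b p)).1 = r p.1 + 1 := by
  show r (insert b p.1) = _
  have h1 := h.k2 b h.hb f h.hf h.hfb.symm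
  have h2 := h.hr.unit p.1 b
  have h3 := h.hr.unit (insert b p.1) f
  have h4 : insert f (insert b p.1) = p.1 ∪ {b, f} := by
    ext v
    simp only [Finset.mem_union, Finset.mem_insert, Finset.mem_singleton]
    tauto
  rw [h4] at h3
  omega

theorem rQ2 : r (rm true a (rm false b p)).2 = r p.1 + 4 := by
  have h1 := h.q2 (A := ∅) (Finset.empty_subset _)
  rw [Finset.sdiff_empty, Finset.sdiff_empty] at h1
  rw [h1]
  exact h.four (Finset.Subset.refl _) (by rw [h.cardQ]; omega)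

theorem wfQ : (rm true a (rm false b p)).1 ⊆ (rm true a (rm false b p)).2 := by
  show insert b p.1 ⊆ p.2.erase a
  have ha1 : a ∈ p.2 ∧ a ∉ p.1 := Finset.mem_sdiff.1 h.ha
  intro v hv
  rcases Finset.mem_insert.1 hv with rfl | hv
  · exact Finset.mem_erase.2 ⟨h.hab.symm, h.bm.1⟩
  · exact Finset.mem_erase.2 ⟨fun h' => ha1.2 (h' ▸ hv), h.hp hv⟩

theorem lamQ {A : Finset E} (hA : A ⊆ insert f (gs p \ {f, a, b})) :
    QUB.lam r (rm true a (rm false b p)) A =
      r (p.1 ∪ insert b A) + r (p.1 ∪ insert b (insert f (gs p \ {f, a, b}) \ A)) - (r p.1 + 4) - (r p.1 + 1) := by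
  unfold QUB.lam
  rw [h.q1, h.q2 hA, h.rQ1, h.rQ2]

theorem th3Q : Th3 r (rm true a (rm false b p)) := by
  intro A hA h2 h2'
  have hg := h.gsQ
  have hA' : A ⊆ insert f (gs p \ {f, a, b}) := by
    rw [← hg]
    exact hA
  have h2'' : 2 ≤ (insert f (gs p \ {f, a, b}) \ A).card := by
    rw [← hg]
    exact h2'
  have hl : lam r (rm true a (rm false b p)) A = QUB.lam r (rm true a (rm false b p)) A := rfl
  rw [hl, h.lamQ hA']
  have hc := Finset.card_sdiff_add_card_eq_card hA'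
  rw [h.cardQ] at hc
  have e1 := h.two hA' h2
  have e2 := h.two (X := insert f (gs p \ {f, a, b}) \ A) Finset.sdiff_subset h2''
  by_cases h4 : 4 ≤ A.card
  · have e3 := h.four hA' h4
    omega
  · have e3 := h.four (X := insert f (gs p \ {f, a, b}) \ A) Finset.sdiff_subset (by omega)
    omega

theorem one {X : Finset E} (hX : X ⊆ insert f (gs p \ {f, a, b})) (hne : X.Nonempty) : r p.1 + 2 ≤ r (p.1 ∪ insert b X) := by
  obtain ⟨x, hx⟩ := hne
  have hx' := hX hx
  have hxg : x ∈ gs p ∧ x ≠ b := by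
    rcases Finset.mem_insert.1 hx' with rfl | hx'
    · exact ⟨h.hf, h.hfb⟩
    · exact ⟨(h.mY.1 hx').1, (h.mY.1 hx').2.2.2⟩
  have h1 := h.k2 b h.hb x hxg.1 hxg.2.symm
  have h2 := h.hr.mono (p.1 ∪ {b, x}) (p.1 ∪ insert b X) (Finset.union_subset_union (Finset.Subset.refl _)
    (Finset.insert_subset_insert b (Finset.singleton_subset_iff.2 hx)))
  omega

theorem cnQ : Cn r (rm true a (rm false b p)) := by
  intro A hA hne hne'
  have hg : QUB.gs (rm true a (rm false b p)) = insert f (gs p \ {f, a, b}) := h.gsQ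
  rw [hg] at hA hne'
  rw [h.lamQ hA]
  have hc := Finset.card_sdiff_add_card_eq_card hA
  rw [h.cardQ] at hc
  have c1 := Finset.card_pos.2 hne
  have c2 := Finset.card_pos.2 hne'
  have e1 := h.one hA hne
  have e2 := h.one (X := insert f (gs p \ {f, a, b}) \ A) Finset.sdiff_subset hne'
  by_cases h4 : 4 ≤ A.card
  · have e3 := h.four hA h4
    by_cases h5 : 2 ≤ (insert f (gs p \ {f, a, b}) \ A).card
    · have e4 := h.two (X := insert f (gs p \ {f, a, b}) \ A) Finset.sdiff_subset h5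
      omega
    · omega
  · have e3 := h.four (X := insert f (gs p \ {f, a, b}) \ A) Finset.sdiff_subset (by omega)
    omega

/-- a triple of `Y` different from the two triples -/
theorem nb {B : Finset E} (hB : B ⊆ gs p \ {f, a, b}) (hc : B.card = 3) (h1 : B ≠ D) (h2 : B ≠ (gs p \ {f, a, b}) \ D) :
    r (p.1 ∪ insert b B) = r p.1 + 4 := by
  have hup := h.up (A := insert b B) (Finset.insert_subset h.hb (hB.trans h.Yg))
  by_contra hne
  rcases h.uni B hB hc (by omega) with h3 | h3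
  · exact h1 h3
  · exact h2 h3

/-- four point line minors of `M / b \ a, e`, `e ∈ D` -/
theorem lnQ' {e : E} (he : e ∈ D) : HasLn r (rm true e (rm true a (rm false b p))) := by
  have hE2 : ((gs p \ {f, a, b}) \ D).card = 3 := h.symm.D3
  obtain ⟨e1, he1, hne⟩ : ∃ e1 ∈ D, e1 ≠ e := by
    obtain ⟨x, hx, y, hy, hxy⟩ := Finset.one_lt_card.1 (show 1 < D.card by rw [h.D3]; norm_num)
    by_cases hxe : x = e
    · exact ⟨y, hy, fun h' => hxy (hxe.trans h'.symm)⟩
    · exact ⟨x, hx, hxe⟩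
  obtain ⟨e2, he2⟩ := Finset.card_eq_one.1 (show ((D.erase e).erase e1).card = 1 by
    rw [Finset.card_erase_of_mem (Finset.mem_erase.2 ⟨hne, he1⟩), Finset.card_erase_of_mem he, h.D3])
  have he2' : e2 ∈ (D.erase e).erase e1 := by
    rw [he2]
    exact Finset.mem_singleton_self _
  obtain ⟨n1, he2''⟩ := Finset.mem_erase.1 he2'
  obtain ⟨n2, he2D⟩ := Finset.mem_erase.1 he2''
  set E2 := (gs p \ {f, a, b}) \ D with hE2d
  have e2E : e2 ∉ E2 := fun h' => (Finset.mem_sdiff.1 h').2 he2D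
  have e1E : e1 ∉ E2 := fun h' => (Finset.mem_sdiff.1 h').2 he1
  have eE : e ∉ E2 := fun h' => (Finset.mem_sdiff.1 h').2 he
  have hNY : insert e2 E2 ⊆ gs p \ {f, a, b} := Finset.insert_subset (h.hD he2D) Finset.sdiff_subset
  have mem1 := h.mY.1 (h.hD he1)
  have meme := h.mY.1 (h.hD he)
  have e1N : e1 ∉ insert e2 E2 := by
    intro h'
    rcases Finset.mem_insert.1 h' with h' | h'
    · exact n1 h'.symm
    · exact e1E h'
  have eN : e ∉ insert e2 E2 := by
    intro h'
    rcases Finset.mem_insert.1 h' with h' | h'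
    · exact n2 h'.symm
    · exact eE h'
  have tri : ∀ i ∈ insert e2 E2, ∀ j ∈ insert e2 E2, i ≠ j → r (p.1 ∪ insert b {i, j, e1}) = r p.1 + 4 := by
    intro i hi j hj hij
    have hie : i ≠ e1 := fun h' => e1N (h' ▸ hi)
    have hje : j ≠ e1 := fun h' => e1N (h' ▸ hj)
    refine h.nb ?_ (Finset.card_eq_three.2 ⟨i, j, e1, hij, hie, hje, rfl⟩) ?_ ?_
    · intro x hx
      simp only [Finset.mem_insert, Finset.mem_singleton] at hx
      rcases hx with rfl | rfl | rfl
      · exact hNY hi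
      · exact hNY hj
      · exact h.hD he1
    · intro h'
      have h1 : e ∈ ({i, j, e1} : Finset E) := by
        rw [h']
        exact he
      simp only [Finset.mem_insert, Finset.mem_singleton] at h1
      rcases h1 with h1 | h1 | h1
      · exact eN (h1 ▸ hi)
      · exact eN (h1 ▸ hj)
      · exact hne h1.symm
    · intro h'
      have h1 : e1 ∈ E2 := by
        rw [hE2d, ← h']
        simp
      exact e1E h1
  have hY1 : r (insert e1 (insert b p.1)) = r p.1 + 2 := by
    have h1 := h.k2 b h.hb e1 mem1.1 mem1.2.2.2.symm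
    have h2 : insert e1 (insert b p.1) = p.1 ∪ {b, e1} := by
      ext v
      simp only [Finset.mem_union, Finset.mem_insert, Finset.mem_singleton]
      tauto
    rw [h2, h1]
  have hpg : ∀ v ∈ gs p \ {f, a, b}, v ∈ p.2 ∧ v ∉ p.1 := fun v hv => Finset.mem_sdiff.1 (h.mY.1 hv).1
  refine ⟨insert e2 E2, ?_, insert e1 (insert b p.1), ?_, ?_, ?_, ?_, ?_⟩
  · rw [Finset.card_insert_of_notMem e2E, hE2]
  · show insert b p.1 ⊆ _
    exact Finset.subset_insert _ _
  · show insert e1 (insert b p.1) ∪ insert e2 E2 ⊆ (p.2.erase a).erase e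
    intro v hv
    have ha1 : a ∈ p.2 ∧ a ∉ p.1 := Finset.mem_sdiff.1 h.ha
    rcases Finset.mem_union.1 hv with hv | hv
    · rcases Finset.mem_insert.1 hv with rfl | hv
      · exact Finset.mem_erase.2 ⟨hne, Finset.mem_erase.2 ⟨mem1.2.2.1, (hpg _ (h.hD he1)).1⟩⟩
      · rcases Finset.mem_insert.1 hv with rfl | hv
        · exact Finset.mem_erase.2 ⟨meme.2.2.2.symm, Finset.mem_erase.2 ⟨h.hab.symm, h.bm.1⟩⟩
        · exact Finset.mem_erase.2 ⟨fun h' => (hpg _ (h.hD he)).2 (h' ▸ hv), Finset.mem_erase.2 ⟨fun h' => ha1.2 (h' ▸ hv), h.hp hv⟩⟩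
    · exact Finset.mem_erase.2 ⟨fun h' => eN (h' ▸ hv), Finset.mem_erase.2 ⟨(h.mY.1 (hNY hv)).2.2.1, (hpg _ (hNY hv)).1⟩⟩
  · rw [Finset.disjoint_left]
    intro v hv hv'
    rcases Finset.mem_insert.1 hv' with h' | hv'
    · exact e1N (h' ▸ hv)
    · rcases Finset.mem_insert.1 hv' with h' | hv'
      · exact (h.mY.1 (hNY hv)).2.2.2 h'
      · exact (hpg _ (hNY hv)).2 hv'
  · rw [hY1]
    obtain ⟨i, hi, j, hj, hij⟩ := Finset.one_lt_card.1 (show 1 < (insert e2 E2).card by
      rw [Finset.card_insert_of_notMem e2E, hE2]; norm_num)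
    have h1 := tri i hi j hj hij
    have h2 := h.hr.mono (p.1 ∪ insert b {i, j, e1}) (insert e1 (insert b p.1) ∪ insert e2 E2) (by
      intro v hv
      simp only [Finset.mem_union, Finset.mem_insert, Finset.mem_singleton] at hv ⊢
      rcases hv with hv | rfl | rfl | rfl | rfl
      · exact Or.inl (Or.inr (Or.inr hv))
      · exact Or.inl (Or.inr (Or.inl rfl))
      · exact Or.inr (Finset.mem_insert.1 hi)
      · exact Or.inr (Finset.mem_insert.1 hj)
      · exact Or.inl (Or.inl rfl))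
    have h3 := h.up (A := insert e1 (insert b (insert e2 E2))) (Finset.insert_subset mem1.1 (Finset.insert_subset h.hb (hNY.trans h.Yg)))
    have h4 : insert e1 (insert b p.1) ∪ insert e2 E2 = p.1 ∪ insert e1 (insert b (insert e2 E2)) := by
      ext v
      simp only [Finset.mem_union, Finset.mem_insert]
      tauto
    rw [h4] at h2 ⊢
    omega
  · intro i hi j hj hij
    have h1 := tri i hi j hj hij
    rw [hY1]
    have h2 : insert i (insert j (insert e1 (insert b p.1))) = p.1 ∪ insert b {i, j, e1} := by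
      ext v
      simp only [Finset.mem_union, Finset.mem_insert, Finset.mem_singleton]
      tauto
    rw [h2, h1]
    ring

/-- four point line minors of `M / b \ a, e` -/
theorem lnQ {e : E} (he : e ∈ gs p \ {f, a, b}) : HasLn r (rm true e (rm true a (rm false b p))) := by
  by_cases heD : e ∈ D
  · exact h.lnQ' heD
  · exact h.symm.lnQ' (Finset.mem_sdiff.2 ⟨he, heD⟩)

end N9

end Pool.Agent.QU
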