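import Pool.Agent.QUP.Tri
import Pool.Agent.QUT.Conn

/-!
# QUR/RR: two hubs of one type and one target with both signs

`rr_close`: hubs `a`, `b` of the same type `t`, target `e` of both types: the pair of the hubs and the four pairs hub-target are
compatible, the two triples are connected and rich. Then `V(p)` has a form which is not diagonal.
-/

set_option autoImplicit false

namespace Pool.Agent.QU

open QUB (Cn Ok Rk)
open Pool.Agent.FRM

variable {E : Type} [Fintype E] [DecidableEq E]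

/-- `T` is in `V` of both removals of the hubs and `e` is a target of type `s` -/
theorem rr_tgt (S : TP F4 E) (hNU : NU S.r) {p : Itv E} (hp : p.1 ⊆ p.2) {a b e : E} {t s : Bool} (hab : a ≠ b) (hae : a ≠ e) (hbe : b ≠ e)
    (ma : a ∈ gs p) (mb : b ∈ gs p) (me : e ∈ gs p) {T : Fm F4 E} (i1 : InV S.U S.W (rm t a p) T) (i2 : InV S.U S.W (rm t b p) T)
    (hex : ∃ T, InVs S (rm s e p) T)
    (c1 : Cn S.r (rm t a (rm s e p))) (o1 : Ok S.r (rm t a (rm s e p)))
    (c2 : Cn S.r (rm t b (rm s e p))) (o2 : Ok S.r (rm t b (rm s e p)))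
    (c3 : Cn S.r (rm t a (rm t b (rm s e p)))) (r3 : HasRich S.r (rm t a (rm t b (rm s e p)))) : InV S.U S.W (rm s e p) T :=
  third_hub S hNU hp hab hae hbe ma mb me i1 i2 hex c1 o1 c2 o2 c3 (hasLn_of_rich r3) (Or.inl r3)

/-- RR: two hubs of the same type, one target with both signs -/
theorem rr_close (S : TP F4 E) (hNU : NU S.r) {p : Itv E} (hp : p.1 ⊆ p.2) {a b e : E} {t : Bool} (hab : a ≠ b) (hae : a ≠ e) (hbe : b ≠ e)
    (ma : a ∈ gs p) (mb : b ∈ gs p) (me : e ∈ gs p) (hex : ∀ w ∈ gs p, ∀ s, ∃ T, InVs S (rm s w p) T)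
    (c0 : Cn S.r (rm t a (rm t b p))) (o0 : Ok S.r (rm t a (rm t b p)))
    (c1 : ∀ s, Cn S.r (rm t a (rm s e p))) (o1 : ∀ s, Ok S.r (rm t a (rm s e p)))
    (c2 : ∀ s, Cn S.r (rm t b (rm s e p))) (o2 : ∀ s, Ok S.r (rm t b (rm s e p)))
    (c3 : ∀ s, Cn S.r (rm t a (rm t b (rm s e p)))) (r3 : ∀ s, HasRich S.r (rm t a (rm t b (rm s e p)))) :
    ∃ T : Fm F4 E, InV S.U S.W p T ∧ ¬ EqD S.U S.W p T 0 := by
  obtain ⟨T, i1, i2, hne⟩ := two_hub S hNU hp hab ma mb (hex a ma t) (hex b mb t) c0 o0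
  have key : ∀ s, InV S.U S.W (rm s e p) T := fun s =>
    rr_tgt S hNU hp hab hae hbe ma mb me i1 i2 (hex e me s) (c1 s) (o1 s) (c2 s) (o2 s) (c3 s) (r3 s)
  refine ⟨T, inV_of_rm (key true) (key false), fun h => ?_⟩
  obtain ⟨N, h1, h2⟩ := r3 true
  have h3 : Sub N (rm t a p) := (((rm_sub t b p).rm t a).trans (((rm_sub true e p).rm t b).rm t a)).trans h1
  exact hne N h3 h2 (h.mono ((rm_sub t a p).trans h3))

end Pool.Agent.QU
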