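import Pool.Agent.QUR.Key
import Pool.Agent.QUL.LBinR
import Pool.Agent.QUB.Tri

set_option autoImplicit false

/-!
# QUR/Rc: rich deletions of triangle elements

`{f, a, b}` is a triangle of `q`. `rg_pair`: `f` is rigid if there is a disjoint pair with `a` in `c` and `f` in `d`. `rich_of_pair`: if moreover `q` is
rich (with a form in `V_*(q)`) and `q \ f` is connected and `Ok`, then `q \ f` is rich. `sep_ranks`: the ranks of a separation of `q \ x1` of order one for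
a 3-connected `q` with a triangle `{x1, x2, x3}`. `rich_conf`: if `q` is 3-connected and rich and `q \ x1` is not `Ok`, then `q \ x2` and `q \ x3` are rich.
-/

namespace Pool.Agent.QU

open Pool.Agent.FRM

variable {K E : Type} [Field K] [Fintype E] [DecidableEq E]

omit [Fintype E] in
private theorem rc_van {U : Submodule K (E → K)} {A : Finset E} {c : E → K} (hc : c ∈ van U A) {x : E}
    (h : c x = 0) : c ∈ van U (insert x A) := by
  refine ⟨hc.1, fun y hy => ?_⟩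
  rcases Finset.mem_insert.1 hy with h1 | h1
  · rw [h1, h]
  · exact hc.2 y h1

omit [Fintype E] in
private theorem rc_spt {W : Submodule K (E → K)} {A : Finset E} {d : E → K} (hd : d ∈ spt W A) {x : E}
    (h : d x = 0) : d ∈ spt W (A.erase x) := by
  refine ⟨hd.1, fun y hy => ?_⟩
  by_cases hyx : y = x
  · rw [hyx, h]
  · exact hd.2 y fun h1 => hy (Finset.mem_erase.2 ⟨hyx, h1⟩)

private theorem rc_dis (S : TP K E) {p : Itv E} {f a b : E} (hL : Tri S.r p f a b) {c t : E → K}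
    (hc : c ∈ van S.U p.1) (h1 : c f = 0) (h2 : c a = 0)
    (ht : t ∈ spt S.W (insert f (insert a (insert b p.1)))) : ∀ x, c x * t x = 0 := by
  have h3 : c b = 0 := TP.van_eq_zero S hL.2 c (rc_van (rc_van hc h2) h1)
  intro x
  by_cases hx : x ∈ insert f (insert a (insert b p.1))
  · simp only [Finset.mem_insert] at hx
    rcases hx with rfl | rfl | rfl | hx
    · rw [h1, zero_mul]
    · rw [h2, zero_mul]
    · rw [h3, zero_mul]
    · rw [hc.2 x hx, zero_mul]
  · rw [ht.2 x hx, mul_zero]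

/-- `f` is rigid if there is a disjoint pair with `a` in `c` and `f` in `d` -/
theorem rg_pair (S : TP K E) {q : Itv E} {f a b : E} (hq : q.1 ⊆ q.2) (hf : f ∈ gs q) (ha : a ∈ gs q) (hb : b ∈ gs q)
    (hfa : f ≠ a) (hfb : f ≠ b) (hL : Tri3 S.r q f a b) {c0 d0 : E → K} (hc0 : c0 ∈ van S.U q.1) (hd0 : d0 ∈ spt S.W q.2)
    (hcd0 : ∀ x, c0 x * d0 x = 0) (hca0 : c0 a ≠ 0) (hdf0 : d0 f ≠ 0) : Rg S true f q := by
  intro T hT h0
  obtain ⟨t, ht, htf⟩ := tri_vec S hfa hfb hf hL.1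
  have hsub : insert f (insert a (insert b q.1)) ⊆ q.2 := by
    intro x hx
    simp only [Finset.mem_insert] at hx
    rcases hx with rfl | rfl | rfl | hx
    · exact (Finset.mem_sdiff.1 hf).1
    · exact (Finset.mem_sdiff.1 ha).1
    · exact (Finset.mem_sdiff.1 hb).1
    · exact hq hx
  have htq : t ∈ spt S.W q.2 := spt_mono hsub ht
  obtain ⟨k, k', hk⟩ := lin_two (van S.U q.1) (T.flip t) f a (fun c hc h1 h2 => by
    rw [LinearMap.flip_apply]
    exact hT c hc t htq (rc_dis S hL.1 hc h1 h2 ht))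
  have key : ∀ c ∈ van S.U q.1, ∀ d ∈ spt S.W q.2, T c d = d f * (k * c f + k' * c a) := by
    intro c hc d hd
    have e1 := h0 c hc (d - d f • t) (rc_spt (Submodule.sub_mem _ hd (Submodule.smul_mem _ _ htq)) (by
      rw [Pi.sub_apply, Pi.smul_apply, smul_eq_mul, htf, mul_one, sub_self]))
    rw [map_sub, map_smul, smul_eq_mul, LinearMap.zero_apply, LinearMap.zero_apply] at e1
    have e2 := hk c hc
    rw [LinearMap.flip_apply] at e2
    linear_combination e1 + d f * e2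
  have hcf0 : c0 f = 0 := (mul_eq_zero.1 (hcd0 f)).resolve_right hdf0
  have hk' : k' = 0 := by
    have e1 := key c0 hc0 d0 hd0
    rw [hT c0 hc0 d0 hd0 hcd0, hcf0] at e1
    have e2 : k' * (d0 f * c0 a) = 0 := by linear_combination -e1
    exact (mul_eq_zero.1 e2).resolve_right (mul_ne_zero hdf0 hca0)
  refine ⟨k, fun c hc d hd => ?_⟩
  rw [key c hc d hd, dg_single, hk']
  ring

/-- a rich box stays rich if the element `f` of a triangle is deleted, provided that `q \ f` is connected and `Ok` and there is a disjoint pair -/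
theorem rich_of_pair (S : TP F4 E) (hNU : NU S.r) {q : Itv E} {f a b : E} (hq : q.1 ⊆ q.2) (hf : f ∈ gs q) (ha : a ∈ gs q) (hb : b ∈ gs q)
    (hfa : f ≠ a) (hfb : f ≠ b) (hL : Tri3 S.r q f a b) {A : Finset E} (hA : A ⊆ gs q) (hfA : f ∉ A)
    (k3 : S.r (insert f (q.1 ∪ A)) = S.r (q.1 ∪ A)) (k4 : S.r (insert a (q.1 ∪ A)) = S.r (q.1 ∪ A) + 1)
    (hex : ∃ T, InVs S q T) (hR : HasRich S.r q) (c1 : QUB.Cn S.r (rm true f q)) (o1 : QUB.Ok S.r (rm true f q)) :
    HasRich S.r (rm true f q) := by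
  by_contra hcon
  obtain ⟨T, hT⟩ := hex
  obtain ⟨c0, hc0, d0, hd0, hcd0, hca0, hdf0⟩ := pair_of_rank S (p := q) (a := a) hf hfA k3 k4
  have hsub : insert f (q.1 ∪ A) ⊆ q.2 :=
    Finset.insert_subset (Finset.mem_sdiff.1 hf).1 (Finset.union_subset hq fun x hx => (Finset.mem_sdiff.1 (hA hx)).1)
  have hrg : Rg S true f q := rg_pair S hq hf ha hb hfa hfb hL hc0 (spt_mono hsub hd0) hcd0
    (by rw [hca0]; exact one_ne_zero) (by rw [hdf0]; exact one_ne_zero)
  obtain ⟨l, hl⟩ := thmU S hNU (rm true f q) (QUB.wf_rm hq hf) c1 o1 (hT.1.mono (rm_sub true f q)) (Or.inr hcon)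
  rw [zero_add] at hl
  obtain ⟨k, hk⟩ := hrg (T - dg l) (hT.1.sub (dg_inV q l)) (by
    intro c hc d hd
    rw [LinearMap.sub_apply, LinearMap.sub_apply, hl c hc d hd, sub_self, LinearMap.zero_apply, LinearMap.zero_apply])
  obtain ⟨N, h1, h2⟩ := hR
  have hE : EqD S.U S.W q T 0 := by
    refine ⟨Pi.single f k + l, fun c hc d hd => ?_⟩
    have e1 := hk c hc d hd
    rw [LinearMap.sub_apply, LinearMap.sub_apply] at e1
    rw [zero_add, dg_add, LinearMap.add_apply, LinearMap.add_apply]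
    linear_combination e1
  exact hT.2 N h1 h2 (hE.mono h1)

omit [Fintype E] in
private theorem rc_rest {q : Itv E} (hq : q.1 ⊆ q.2) {x1 : E} (h1 : x1 ∈ gs q) {Z Z' : Finset E} (hZ : Z ∪ Z' = (gs q).erase x1)
    (hd : Disjoint Z Z') : q.2 \ Z = insert x1 (q.1 ∪ Z') := by
  ext w
  have a1 : w ∈ Z ∨ w ∈ Z' ↔ w ∈ (gs q).erase x1 := by rw [← hZ, Finset.mem_union]
  rw [Finset.mem_erase] at a1
  have a2 : w ∈ Z → w ∉ Z' := fun h => Finset.disjoint_left.1 hd h
  have a3 : w ∈ q.1 → w ∈ q.2 := fun h => hq h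
  have a4 : w ∈ gs q ↔ w ∈ q.2 ∧ w ∉ q.1 := Finset.mem_sdiff
  have a5 : w = x1 → w ∈ gs q := fun h => h ▸ h1
  simp only [Finset.mem_sdiff, Finset.mem_insert, Finset.mem_union]
  tauto

omit [Fintype E] in
/-- `x2` is in the closure of the rest of its side, `x3` is not in the closure of this side -/
theorem sep_ranks {r : Finset E → ℤ} (hr : QUB.Rk r) {q : Itv E} (hq : q.1 ⊆ q.2) (h3 : Th3 r q) {x1 x2 x3 : E} (hx1 : x1 ∈ gs q)
    (h1 : r (insert x1 (insert x2 (insert x3 q.1))) = r (insert x2 (insert x3 q.1)))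
    {A B : Finset E} (hAB : A ∪ B = (gs q).erase x1) (hd : Disjoint A B) (hA3 : 3 ≤ A.card) (hB3 : 3 ≤ B.card)
    (hl : r (q.1 ∪ A) + r (q.1 ∪ B) ≤ r q.2 + r q.1 + 1) (hx2 : x2 ∈ A) (hx3 : x3 ∈ B) :
    r (insert x2 (q.1 ∪ A.erase x2)) = r (q.1 ∪ A.erase x2) ∧ r (insert x3 (q.1 ∪ A.erase x2)) = r (q.1 ∪ A.erase x2) + 1 := by
  have hAg : A ⊆ (gs q).erase x1 := hAB ▸ Finset.subset_union_left
  have hBg : B ⊆ (gs q).erase x1 := hAB ▸ Finset.subset_union_right
  have e0 : insert x2 (q.1 ∪ A.erase x2) = q.1 ∪ A := by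
    rw [← Finset.union_insert, Finset.insert_erase hx2]
  -- `x2` is in the closure of the rest
  have c2 : r (insert x2 (q.1 ∪ A.erase x2)) = r (q.1 ∪ A.erase x2) := by
    by_contra hne
    have u1 := hr.unit (q.1 ∪ A.erase x2) x2
    have u2 := hr.mono _ _ (Finset.subset_insert x2 (q.1 ∪ A.erase x2))
    rw [e0] at hne u1 u2
    have hZ : A.erase x2 ∪ insert x2 B = (gs q).erase x1 := by
      rw [← hAB]
      ext w
      simp only [Finset.mem_union, Finset.mem_erase, Finset.mem_insert]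
      by_cases hw : w = x2
      · simp [hw, hx2]
      · simp [hw]
    have hdZ : Disjoint (A.erase x2) (insert x2 B) := by
      rw [Finset.disjoint_insert_right]
      exact ⟨Finset.notMem_erase _ _, Finset.disjoint_of_subset_left (Finset.erase_subset _ _) hd⟩
    have e1 := rc_rest hq hx1 hZ hdZ
    have m1 : r (insert x1 (q.1 ∪ insert x2 B)) ≤ r (q.1 ∪ insert x2 B) := by
      have h5 := QUB.marg hr (show insert x2 (insert x3 q.1) ⊆ q.1 ∪ insert x2 B from by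
        intro w hw
        simp only [Finset.mem_insert, Finset.mem_union] at hw ⊢
        rcases hw with rfl | rfl | hw
        · exact Or.inr (Or.inl rfl)
        · exact Or.inr (Or.inr hx3)
        · exact Or.inl hw) x1
      linarith
    have m2 : r (q.1 ∪ insert x2 B) ≤ r (q.1 ∪ B) + 1 := by
      rw [Finset.union_insert]
      exact hr.unit _ _
    have h6 := h3 (A.erase x2) (fun w hw => (Finset.mem_erase.1 (hAg (Finset.mem_of_mem_erase hw))).2)
      (by rw [Finset.card_erase_of_mem hx2]; omega) (by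
        have h7 : insert x2 B ⊆ gs q \ A.erase x2 := by
          intro w hw
          refine Finset.mem_sdiff.2 ⟨?_, fun h => Finset.disjoint_left.1 hdZ h hw⟩
          have h8 : w ∈ (gs q).erase x1 := hZ ▸ Finset.mem_union_right _ hw
          exact (Finset.mem_erase.1 h8).2
        have h9 := Finset.card_le_card h7
        have h10 := Finset.card_le_card (Finset.subset_insert x2 B)
        omega)
    unfold lam at h6
    rw [e1] at h6
    omega
  refine ⟨c2, ?_⟩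
  have u1 := hr.unit (q.1 ∪ A.erase x2) x3
  have u2 := hr.mono _ _ (Finset.subset_insert x3 (q.1 ∪ A.erase x2))
  by_contra hne
  have c3 : r (insert x3 (q.1 ∪ A.erase x2)) = r (q.1 ∪ A.erase x2) := by omega
  have hx3A : x3 ∉ A := fun h => Finset.disjoint_left.1 hd h hx3
  have hZ : B.erase x3 ∪ insert x3 A = (gs q).erase x1 := by
    rw [← hAB]
    ext w
    simp only [Finset.mem_union, Finset.mem_erase, Finset.mem_insert]
    by_cases hw : w = x3
    · simp [hw, hx3]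
    · simp [hw, or_comm]
  have hdZ : Disjoint (B.erase x3) (insert x3 A) := by
    rw [Finset.disjoint_insert_right]
    exact ⟨Finset.notMem_erase _ _, Finset.disjoint_of_subset_left (Finset.erase_subset _ _) hd.symm⟩
  have e1 := rc_rest hq hx1 hZ hdZ
  have m0 : r (insert x3 (q.1 ∪ A)) ≤ r (q.1 ∪ A) := by
    have h5 := QUB.marg hr (show q.1 ∪ A.erase x2 ⊆ q.1 ∪ A from Finset.union_subset_union_right (Finset.erase_subset _ _)) x3
    linarith
  have m1 : r (insert x1 (q.1 ∪ insert x3 A)) ≤ r (q.1 ∪ insert x3 A) := by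
    have h5 := QUB.marg hr (show insert x2 (insert x3 q.1) ⊆ q.1 ∪ insert x3 A from by
      intro w hw
      simp only [Finset.mem_insert, Finset.mem_union] at hw ⊢
      rcases hw with rfl | rfl | hw
      · exact Or.inr (Or.inr hx2)
      · exact Or.inr (Or.inl rfl)
      · exact Or.inl hw) x1
    linarith
  rw [Finset.union_insert] at m1
  have m3 := hr.mono _ _ (show q.1 ∪ B.erase x3 ⊆ q.1 ∪ B from Finset.union_subset_union_right (Finset.erase_subset _ _))
  have h6 := h3 (B.erase x3) (fun w hw => (Finset.mem_erase.1 (hBg (Finset.mem_of_mem_erase hw))).2)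
    (by rw [Finset.card_erase_of_mem hx3]; omega) (by
      have h7 : insert x3 A ⊆ gs q \ B.erase x3 := by
        intro w hw
        refine Finset.mem_sdiff.2 ⟨?_, fun h => Finset.disjoint_left.1 hdZ h hw⟩
        have h8 : w ∈ (gs q).erase x1 := hZ ▸ Finset.mem_union_right _ hw
        exact (Finset.mem_erase.1 h8).2
      have h9 := Finset.card_le_card h7
      have h10 := Finset.card_le_card (Finset.subset_insert x3 A)
      omega)
  unfold lam at h6
  rw [e1, Finset.union_insert] at h6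
  omega

omit [Fintype E] in
/-- `x2`, `x3` are not on one side -/
theorem sep_side {r : Finset E → ℤ} (hr : QUB.Rk r) {q : Itv E} (hq : q.1 ⊆ q.2) (h3 : Th3 r q) {x1 x2 x3 : E} (hx1 : x1 ∈ gs q)
    (h1 : r (insert x1 (insert x2 (insert x3 q.1))) = r (insert x2 (insert x3 q.1)))
    {A B : Finset E} (hAB : A ∪ B = (gs q).erase x1) (hd : Disjoint A B) (hA3 : 3 ≤ A.card) (hB3 : 3 ≤ B.card)
    (hl : r (q.1 ∪ A) + r (q.1 ∪ B) ≤ r q.2 + r q.1 + 1) (hx2 : x2 ∈ A) (hx3 : x3 ∈ A) : False := by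
  have hBg : B ⊆ (gs q).erase x1 := hAB ▸ Finset.subset_union_right
  have hZ : B ∪ A = (gs q).erase x1 := by rw [Finset.union_comm]; exact hAB
  have e1 := rc_rest hq hx1 hZ hd.symm
  have m1 : r (insert x1 (q.1 ∪ A)) ≤ r (q.1 ∪ A) := by
    have h5 := QUB.marg hr (show insert x2 (insert x3 q.1) ⊆ q.1 ∪ A from by
      intro w hw
      simp only [Finset.mem_insert, Finset.mem_union] at hw ⊢
      rcases hw with rfl | rfl | hw
      · exact Or.inr hx2
      · exact Or.inr hx3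
      · exact Or.inl hw) x1
    linarith
  have h6 := h3 B (fun w hw => (Finset.mem_erase.1 (hBg hw)).2) (by omega) (by
      have h7 : A ⊆ gs q \ B := by
        intro w hw
        refine Finset.mem_sdiff.2 ⟨?_, fun h => Finset.disjoint_left.1 hd hw h⟩
        have h8 : w ∈ (gs q).erase x1 := hAB ▸ Finset.mem_union_left _ hw
        exact (Finset.mem_erase.1 h8).2
      have h9 := Finset.card_le_card h7
      omega)
  unfold lam at h6
  rw [e1] at h6
  omega

omit [Fintype E] in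
private theorem rc_hv3 {r : Finset E → ℤ} {q : Itv E} {A : Finset E} (h : QUB.Hv r q A) : 3 ≤ A.card := by
  obtain ⟨N, -, hN⟩ := h
  exact hN.trans (Finset.card_le_card Finset.inter_subset_right)

omit [Fintype E] in
/-- a separation of order one of `q \ x1` with heavy sides, in a 3-connected box with the triangle `{x1, x2, x3}` -/
theorem sep_of_conf {r : Finset E → ℤ} (hr : QUB.Rk r) {q : Itv E} (hq : q.1 ⊆ q.2) (h3 : Th3 r q) {x1 x2 x3 : E}
    (hx1 : x1 ∈ gs q) (hx2 : x2 ∈ gs q) (hx3 : x3 ∈ gs q) (h12 : x1 ≠ x2) (h13 : x1 ≠ x3)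
    (h1 : r (insert x1 (insert x2 (insert x3 q.1))) = r (insert x2 (insert x3 q.1))) (hno : ¬ QUB.Ok r (rm true x1 q)) :
    ∃ A B : Finset E, A ∪ B = (gs q).erase x1 ∧ Disjoint A B ∧ QUB.Hv r (rm true x1 q) A ∧ QUB.Hv r (rm true x1 q) B ∧
      3 ≤ A.card ∧ 3 ≤ B.card ∧ r (q.1 ∪ A) + r (q.1 ∪ B) ≤ r q.2 + r q.1 + 1 ∧ x2 ∈ A ∧ x3 ∈ B := by
  unfold QUB.Ok at hno
  push Not at hno
  obtain ⟨C, hC, hl, hvC, hvD⟩ := hno
  have hg : gs (rm true x1 q) = (gs q).erase x1 := QUB.gs_rm true x1 q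
  have hCe : C ⊆ (gs q).erase x1 := hg ▸ hC
  obtain ⟨D, hD⟩ : ∃ D, D = (gs q).erase x1 \ C := ⟨_, rfl⟩
  rw [hg, ← hD] at hvD
  have hU : C ∪ D = (gs q).erase x1 := by rw [hD]; exact Finset.union_sdiff_of_subset hCe
  have hd : Disjoint C D := by rw [hD]; exact Finset.disjoint_sdiff
  have hC3 := rc_hv3 hvC
  have hD3 := rc_hv3 hvD
  have e2 : (rm true x1 q).2 \ C = q.1 ∪ D := by
    show q.2.erase x1 \ C = q.1 ∪ D
    rw [hD]
    ext w
    have a1 : w ∈ q.1 → w ∈ q.2 := fun h => hq h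
    have a2 : w ∈ C → w ∈ gs q := fun h => (Finset.mem_erase.1 (hCe h)).2
    have a3 : w ∈ gs q ↔ w ∈ q.2 ∧ w ∉ q.1 := Finset.mem_sdiff
    have a4 : w = x1 → w ∈ gs q := fun h => h ▸ hx1
    simp only [Finset.mem_sdiff, Finset.mem_erase, Finset.mem_union]
    tauto
  have hlk : r (q.1 ∪ C) + r (q.1 ∪ D) ≤ r q.2 + r q.1 + 1 := by
    have h5 : r (q.1 ∪ C) + r ((rm true x1 q).2 \ C) - r (q.2.erase x1) - r q.1 ≤ 1 := hl
    rw [e2] at h5
    have h6 := hr.mono _ _ (Finset.erase_subset x1 q.2)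
    linarith
  have m2 : x2 ∈ C ∨ x2 ∈ D := by rw [← Finset.mem_union, hU]; exact Finset.mem_erase.2 ⟨h12.symm, hx2⟩
  have m3 : x3 ∈ C ∨ x3 ∈ D := by rw [← Finset.mem_union, hU]; exact Finset.mem_erase.2 ⟨h13.symm, hx3⟩
  have hU' : D ∪ C = (gs q).erase x1 := by rw [Finset.union_comm]; exact hU
  rcases m2 with m2 | m2 <;> rcases m3 with m3 | m3
  · exact (sep_side hr hq h3 hx1 h1 hU hd hC3 hD3 hlk m2 m3).elim
  · exact ⟨C, D, hU, hd, hvC, hvD, hC3, hD3, hlk, m2, m3⟩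
  · exact ⟨D, C, hU', hd.symm, hvD, hvC, hD3, hC3, by linarith, m2, m3⟩
  · exact (sep_side hr hq h3 hx1 h1 hU' hd.symm hD3 hC3 (by linarith) m2 m3).elim

private theorem rc_half (S : TP F4 E) (hNU : NU S.r) {q : Itv E} (hq : q.1 ⊆ q.2) (hcn : QUB.Cn S.r q) (h3 : Th3 S.r q)
    {x1 x2 x3 : E} (hx1 : x1 ∈ gs q) (hx2 : x2 ∈ gs q) (hx3 : x3 ∈ gs q) (h12 : x1 ≠ x2) (h13 : x1 ≠ x3) (h23 : x2 ≠ x3)
    (t1 : S.r (insert x1 (insert x2 (insert x3 q.1))) = S.r (insert x2 (insert x3 q.1)))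
    (t2 : S.r (insert x2 (insert x1 (insert x3 q.1))) = S.r (insert x1 (insert x3 q.1)))
    (t3 : S.r (insert x3 (insert x1 (insert x2 q.1))) = S.r (insert x1 (insert x2 q.1)))
    (hok : QUB.Ok S.r q) (hno : ¬ QUB.Ok S.r (rm true x1 q)) (hex : ∃ T, InVs S q T) (hR : HasRich S.r q)
    {A B : Finset E} (hAB : A ∪ B = (gs q).erase x1) (hd : Disjoint A B) (hA3 : 3 ≤ A.card) (hB3 : 3 ≤ B.card)
    (hl : S.r (q.1 ∪ A) + S.r (q.1 ∪ B) ≤ S.r q.2 + S.r q.1 + 1) (m2 : x2 ∈ A) (m3 : x3 ∈ B) : HasRich S.r (rm true x2 q) := by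
  have hr := S.rk
  obtain ⟨k3, k4⟩ := sep_ranks hr hq h3 hx1 t1 hAB hd hA3 hB3 hl m2 m3
  have hAg : A ⊆ gs q := fun w hw => (Finset.mem_erase.1 (hAB ▸ Finset.mem_union_left _ hw : w ∈ (gs q).erase x1)).2
  have hcard : 4 ≤ (gs q).card := by
    have h5 := Finset.card_le_card (show A ∪ B ⊆ gs q from hAB ▸ Finset.erase_subset _ _)
    rw [Finset.card_union_of_disjoint hd] at h5
    omega
  refine rich_of_pair S hNU (b := x1) hq hx2 hx3 hx1 h23 h12.symm ⟨⟨?_, ?_⟩, ?_⟩ (A := A.erase x2)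
    ((Finset.erase_subset _ _).trans hAg) (Finset.notMem_erase _ _) k3 k4 hex hR (th3_cn hr hq hcn h3 hcard hx2 true)
    ((QUB.tri_del hr hq hcn hok hx1 hx2 hx3 h12 h13 h23 t1 t2).resolve_left hno)
  · rw [Finset.insert_comm x3 x1 q.1]
    exact t2
  · exact t1
  · rw [Finset.insert_comm x2 x1 q.1]
    exact t3

/-- `q` is 3-connected and rich with a triangle `{x1, x2, x3}`, and `q \ x1` is not `Ok`: then `q \ x2` and `q \ x3` are rich -/
theorem rich_conf (S : TP F4 E) (hNU : NU S.r) {q : Itv E} (hq : q.1 ⊆ q.2) (hcn : QUB.Cn S.r q) (h3 : Th3 S.r q)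
    {x1 x2 x3 : E} (hx1 : x1 ∈ gs q) (hx2 : x2 ∈ gs q) (hx3 : x3 ∈ gs q) (h12 : x1 ≠ x2) (h13 : x1 ≠ x3) (h23 : x2 ≠ x3)
    (t1 : S.r (insert x1 (insert x2 (insert x3 q.1))) = S.r (insert x2 (insert x3 q.1)))
    (t2 : S.r (insert x2 (insert x1 (insert x3 q.1))) = S.r (insert x1 (insert x3 q.1)))
    (t3 : S.r (insert x3 (insert x1 (insert x2 q.1))) = S.r (insert x1 (insert x2 q.1)))
    (hok : QUB.Ok S.r q) (hno : ¬ QUB.Ok S.r (rm true x1 q)) (hex : ∃ T, InVs S q T) (hR : HasRich S.r q) :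
    HasRich S.r (rm true x2 q) ∧ HasRich S.r (rm true x3 q) := by
  have hr := S.rk
  obtain ⟨A, B, hAB, hd, -, -, hA3, hB3, hl, m2, m3⟩ := sep_of_conf hr hq h3 hx1 hx2 hx3 h12 h13 t1 hno
  refine ⟨rc_half S hNU hq hcn h3 hx1 hx2 hx3 h12 h13 h23 t1 t2 t3 hok hno hex hR hAB hd hA3 hB3 hl m2 m3, ?_⟩
  refine rc_half S hNU hq hcn h3 hx1 hx3 hx2 h13 h12 h23.symm ?_ t3 t2 hok hno hex hR (A := B) (B := A)
    (by rw [Finset.union_comm]; exact hAB) hd.symm hB3 hA3 (by linarith) m3 m2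
  rw [Finset.insert_comm x3 x2 q.1]
  exact t1

omit [Fintype E] in
private theorem rc_ok3 {r : Finset E → ℤ} {p : Itv E} (h3 : Th3 r p) : QUB.Ok r p := by
  intro A hA hl hh
  have c1 := rc_hv3 hh.1
  have c2 := rc_hv3 hh.2
  have := h3 A hA (by omega) (by omega)
  omega

/-- RC, the case that `p \ y` is rich: `p` and `p \ y` are 3-connected, `{x1, x2, x3}` is a triangle of `p` and `p \ y, x1` is not `Ok`: then `p \ y, x2`,
`p \ y, x3`, `p \ x2` and `p \ x3` are rich -/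
theorem rc_hard (S : TP F4 E) (hNU : NU S.r) {p : Itv E} (hp : p.1 ⊆ p.2) (hC : QUB.Cn S.r p) (h3p : Th3 S.r p) (hn : 4 ≤ (gs p).card)
    {y x1 x2 x3 : E} (hy : y ∈ gs p) (hx1 : x1 ∈ gs p) (hx2 : x2 ∈ gs p) (hx3 : x3 ∈ gs p) (hy1 : y ≠ x1) (hy2 : y ≠ x2) (hy3 : y ≠ x3)
    (h12 : x1 ≠ x2) (h13 : x1 ≠ x3) (h23 : x2 ≠ x3)
    (t1 : S.r (insert x1 (insert x2 (insert x3 p.1))) = S.r (insert x2 (insert x3 p.1)))
    (t2 : S.r (insert x2 (insert x1 (insert x3 p.1))) = S.r (insert x1 (insert x3 p.1)))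
    (t3 : S.r (insert x3 (insert x1 (insert x2 p.1))) = S.r (insert x1 (insert x2 p.1)))
    (h3 : Th3 S.r (rm true y p)) (hno : ¬ QUB.Ok S.r (rm true x1 (rm true y p))) (hex : ∃ T, InVs S (rm true y p) T)
    (hR : HasRich S.r (rm true y p)) :
    (HasRich S.r (rm true x2 (rm true y p)) ∧ HasRich S.r (rm true x3 (rm true y p))) ∧
      (HasRich S.r (rm true x2 p) ∧ HasRich S.r (rm true x3 p)) := by
  have hm : ∀ x, x ∈ gs p → y ≠ x → x ∈ gs (rm true y p) := fun x hx hne => by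
    rw [gs_rm]
    exact Finset.mem_erase.2 ⟨hne.symm, hx⟩
  obtain ⟨⟨q1, k1, k2⟩, ⟨q2, k3, k4⟩⟩ := rich_conf S hNU (QUB.wf_rm hp hy) (th3_cn S.rk hp hC h3p hn hy true) h3 (hm x1 hx1 hy1) (hm x2 hx2 hy2)
    (hm x3 hx3 hy3) h12 h13 h23 t1 t2 t3 (rc_ok3 h3) hno hex hR
  exact ⟨⟨⟨q1, k1, k2⟩, ⟨q2, k3, k4⟩⟩, ⟨q1, ((rm_sub true y p).rm true x2).trans k1, k2⟩, ⟨q2, ((rm_sub true y p).rm true x3).trans k3, k4⟩⟩

end Pool.Agent.QU
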