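import Pool.Agent.QUR.TwoSide
import Pool.Agent.QUL.LDual

set_option autoImplicit false

/-!
# Project QU, layer D: rigid elements and a separation of order one

`rg_two_del`: `X` is a side of a separation of order at most one of the box `q`, `e ∈ X`, `f` on the other side. If `f` is rigid (deletion) in a
half box `q'` of the side of `f`, then `f` is rigid in the box of `e` in `q`.
-/

namespace Pool.Agent.QU

variable {K E : Type} [Field K] [Fintype E] [DecidableEq E]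

private theorem rt_van_sup (S : TP K E) {A B D : Finset E} (hA : D ⊆ A) (hB : D ⊆ B)
    (h : S.r A + S.r B ≤ S.r (A ∪ B) + S.r D) : van S.U A ⊔ van S.U B = van S.U D := by
  refine Submodule.eq_of_le_of_finrank_le (sup_le (van_anti hA) (van_anti hB)) ?_
  have h5 := Submodule.finrank_sup_add_finrank_inf_eq (van S.U A) (van S.U B)
  rw [← van_union] at h5
  have a1 := S.hU A
  have a2 := S.hU B
  have a3 := S.hU (A ∪ B)
  have a4 := S.hU D
  have c5 : (Module.finrank K ↥(van S.U A ⊔ van S.U B) : ℤ) + Module.finrank K (van S.U (A ∪ B)) =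
      Module.finrank K (van S.U A) + Module.finrank K (van S.U B) := by exact_mod_cast h5
  have c6 : (Module.finrank K (van S.U D) : ℤ) ≤ Module.finrank K ↥(van S.U A ⊔ van S.U B) := by linarith
  exact_mod_cast c6

/-- rigid elements and a separation of order one, deletion of `f` -/
theorem rg_two_del (S : TP K E) {q : Itv E} (hq : q.1 ⊆ q.2) {X : Finset E} (hX : X ⊆ gs q) (hl : QUB.lam S.r q X ≤ 1)
    {e f : E} (he : e ∈ X) (h1 : S.r (q.1 ∪ X.erase e) = S.r (q.1 ∪ X))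
    (h2 : S.r (insert e (q.2 \ X)) = S.r (q.2 \ X) + 1) (hf : f ∈ gs q) (hfX : f ∉ X)
    (hfc : S.r ((q.2 \ X).erase f) = S.r (q.2 \ X)) {q' : Itv E} (hs : Sub q' q) (hf' : f ∈ q'.2)
    (h4 : S.r q'.1 + S.r (q.2 \ X) ≤ S.r (q'.1 ∪ (q.2 \ X)) + S.r q.1)
    (hfq : S.r (q'.2.erase f) = S.r q'.2) (hg : Rg S true f q') : Rg S true f (rm true e (rm false e q)) := by
  intro T hT h0
  have hXd : ∀ x ∈ X, x ∉ q.1 := fun x hx => (Finset.mem_sdiff.1 (hX hx)).2
  have hqX : q.1 ⊆ q.2 \ X := fun x hx => Finset.mem_sdiff.2 ⟨hq hx, fun h => hXd x h hx⟩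
  have hfY : f ∈ q.2 \ X := Finset.mem_sdiff.2 ⟨(Finset.mem_sdiff.1 hf).1, hfX⟩
  have hef : e ≠ f := fun h => hfX (h ▸ he)
  obtain ⟨v, hv, hvf⟩ := TP.spt_one S hfY hfc
  obtain ⟨x, hx, hxe⟩ := TP.van_one S h2
  have hB2 : (rm true e (rm false e q)).2 = q.2.erase e := rfl
  have hB1 : (rm true e (rm false e q)).1 = insert e q.1 := rfl
  have hYe : q.2 \ X ⊆ q.2.erase e := fun y hy =>
    Finset.mem_erase.2 ⟨fun h => (Finset.mem_sdiff.1 hy).2 (h ▸ he), (Finset.mem_sdiff.1 hy).1⟩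
  have hv' : v ∈ spt S.W (rm true e (rm false e q)).2 := by
    rw [hB2]
    exact spt_mono hYe hv
  -- the form is `T c v * d f`
  have hform : ∀ c ∈ van S.U (insert e q.1), ∀ d ∈ spt S.W (q.2.erase e), T c d = T c v * d f := by
    intro c hc d hd
    have h3 : d - d f • v ∈ spt S.W (rm true f (rm true e (rm false e q))).2 := by
      refine ⟨S.W.sub_mem hd.1 (S.W.smul_mem _ hv.1), fun y hy => ?_⟩
      by_cases hyf : y = f
      · rw [hyf, Pi.sub_apply, Pi.smul_apply, smul_eq_mul, hvf, mul_one, sub_self]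
      · have hy2 : y ∉ q.2.erase e := fun h => hy (Finset.mem_erase.2 ⟨hyf, h⟩)
        rw [Pi.sub_apply, Pi.smul_apply, hd.2 y hy2, hv.2 y (fun h => hy2 (hYe h)), smul_zero, sub_zero]
    have h4 := h0 c hc _ h3
    rw [map_sub, map_smul, smul_eq_mul, LinearMap.zero_apply, LinearMap.zero_apply] at h4
    linear_combination h4
  -- `T (., v)` vanishes on the vectors which are zero on the side of `f`
  have hzero : ∀ c ∈ van S.U (insert e q.1), (∀ y ∈ gs q, y ∉ X → c y = 0) → T c v = 0 := by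
    intro c hc hc0
    refine hT c hc v hv' fun y => ?_
    by_cases hy1 : y ∈ q.1
    · rw [hc.2 y (Finset.mem_insert_of_mem hy1), zero_mul]
    by_cases hy2 : y ∈ q.2 \ X
    · rw [hc0 y (Finset.mem_sdiff.2 ⟨(Finset.mem_sdiff.1 hy2).1, hy1⟩) (Finset.mem_sdiff.1 hy2).2, zero_mul]
    · rw [hv.2 y hy2, mul_zero]
  have hrho : ∀ c ∈ van S.U q.1, c - c e • x ∈ van S.U (insert e q.1) := by
    intro c hc
    refine ⟨S.U.sub_mem hc.1 (S.U.smul_mem _ hx.1), fun y hy => ?_⟩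
    rcases Finset.mem_insert.1 hy with h | h
    · rw [h, Pi.sub_apply, Pi.smul_apply, smul_eq_mul, hxe, mul_one, sub_self]
    · rw [Pi.sub_apply, Pi.smul_apply, hc.2 y h, hx.2 y (hqX h), smul_zero, sub_zero]
  have hrho2 : ∀ (c : E → K), ∀ y ∈ gs q, y ∉ X → (c - c e • x) y = c y := by
    intro c y hy hyX
    rw [Pi.sub_apply, Pi.smul_apply, hx.2 y (Finset.mem_sdiff.2 ⟨(Finset.mem_sdiff.1 hy).1, hyX⟩), smul_zero, sub_zero]
  -- the form on the half box
  let R : Fm K E := LinearMap.mk₂ K (fun c d => (T c v - c e * T x v) * d f)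
    (fun c c' d => by
      rw [Pi.add_apply, map_add, LinearMap.add_apply]
      ring)
    (fun m c d => by
      rw [Pi.smul_apply, map_smul, LinearMap.smul_apply, smul_eq_mul, smul_eq_mul, smul_eq_mul]
      ring)
    (fun c d d' => by
      rw [Pi.add_apply]
      ring)
    (fun m c d => by
      rw [Pi.smul_apply, smul_eq_mul, smul_eq_mul]
      ring)
  have hR : ∀ c d, R c d = T (c - c e • x) v * d f := by
    intro c d
    have h3 : R c d = (T c v - c e * T x v) * d f := rfl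
    rw [h3, map_sub, map_smul, LinearMap.sub_apply, LinearMap.smul_apply, smul_eq_mul]
  have hRV : InV S.U S.W q' R := by
    intro c hc d hd hcd
    have hc' : c ∈ van S.U q.1 := van_anti hs.1 hc
    have hd' : d ∈ spt S.W q.2 := spt_mono hs.2 hd
    obtain ⟨c1, hc1, d1, hd1, hcd1, hce, hde, hY⟩ := pair_avoid S hq hX hl he h1 h2 hc' hd' (fun y _ _ => hcd y)
    have hc1' : c1 ∈ van S.U (insert e q.1) := ⟨hc1.1, fun y hy => by
      rcases Finset.mem_insert.1 hy with h | h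
      · rw [h, hce]
      · exact hc1.2 y h⟩
    have hd1' : d1 ∈ spt S.W (q.2.erase e) := ⟨hd1.1, fun y hy => by
      by_cases hye : y = e
      · rw [hye, hde]
      · exact hd1.2 y fun h => hy (Finset.mem_erase.2 ⟨hye, h⟩)⟩
    have e1 : T c1 d1 = 0 := hT c1 hc1' d1 hd1' hcd1
    rw [hform c1 hc1' d1 hd1', (hY f hf hfX).2] at e1
    have e2 : T (c1 - (c - c e • x)) v = 0 := by
      refine hzero _ (Submodule.sub_mem _ hc1' (hrho c hc')) fun y hy hyX => ?_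
      rw [Pi.sub_apply, hrho2 c y hy hyX, (hY y hy hyX).1, sub_self]
    rw [map_sub, LinearMap.sub_apply] at e2
    rw [hR, ← sub_eq_zero.1 e2]
    exact e1
  have hR0 : EqOn S.U S.W (rm true f q') R 0 := by
    intro c _ d hd
    rw [hR, hd.2 f (Finset.notMem_erase f q'.2), mul_zero]
    rfl
  obtain ⟨k, hk⟩ := hg R hRV hR0
  obtain ⟨u, hu, huf⟩ := TP.spt_one S hf' hfq
  have hk' : ∀ c ∈ van S.U q'.1, T (c - c e • x) v = k * c f := by
    intro c hc
    have h3 := hk c hc u hu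
    rw [hR, dg_single, huf, mul_one, mul_one] at h3
    exact h3
  have hsup := rt_van_sup S (A := q'.1) (B := q.2 \ X) (D := q.1) hs.1 hqX h4
  refine ⟨k, fun c hc d hd => ?_⟩
  rw [hform c hc d hd, dg_single]
  have hcq : c ∈ van S.U q.1 := van_anti (Finset.subset_insert _ _) hc
  have hce : c e = 0 := hc.2 e (Finset.mem_insert_self _ _)
  obtain ⟨c1, hc1, c2, hc2, hcc⟩ := Submodule.mem_sup.1 (hsup ▸ hcq)
  have hc1q : c1 ∈ van S.U q.1 := van_anti hs.1 hc1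
  have e3 : T (c - (c1 - c1 e • x)) v = 0 := by
    refine hzero _ (Submodule.sub_mem _ hc (hrho c1 hc1q)) fun y hy hyX => ?_
    rw [Pi.sub_apply, hrho2 c1 y hy hyX, ← hcc, Pi.add_apply,
      hc2.2 y (Finset.mem_sdiff.2 ⟨(Finset.mem_sdiff.1 hy).1, hyX⟩), add_zero, sub_self]
  rw [map_sub, LinearMap.sub_apply] at e3
  have e4 : c f = c1 f := by
    rw [← hcc, Pi.add_apply, hc2.2 f hfY, add_zero]
  rw [sub_eq_zero.1 e3, hk' c1 hc1, e4]
  ring

/-- duality for rigid elements -/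
theorem rg_dual (S : TP K E) {t : Bool} {f : E} {q : Itv E} (h : Rg S.dual (!t) f (QUB.dp q)) : Rg S t f q := by
  intro T hT h0
  obtain ⟨k, hk⟩ := h (LinearMap.flip T) (inV_dual.2 hT) (by
    have h1 : QUB.rm (!t) f (QUB.dp q) = QUB.dp (QUB.rm t f q) := by rw [QUB.rm_dp, Bool.not_not]
    have h2 : rm (!t) f (QUB.dp q) = QUB.dp (rm t f q) := h1
    rw [h2]
    exact eqOn_dual.2 h0)
  refine ⟨k, ?_⟩
  rw [← eqOn_dual, dg_flip]
  exact hk

theorem rg_dual' (S : TP K E) {t : Bool} {f : E} {q : Itv E} (h : Rg S t f q) : Rg S.dual (!t) f (QUB.dp q) := by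
  intro T hT h0
  have hT' : InV S.U S.W q (LinearMap.flip T) := inV_dual.1 hT
  have h2 : rm (!t) f (QUB.dp q) = QUB.dp (rm t f q) := by
    have h1 : QUB.rm (!t) f (QUB.dp q) = QUB.dp (QUB.rm t f q) := by rw [QUB.rm_dp, Bool.not_not]
    exact h1
  rw [h2] at h0
  obtain ⟨k, hk⟩ := h (LinearMap.flip T) hT' (eqOn_dual.1 h0)
  refine ⟨k, ?_⟩
  have h3 := eqOn_dual.2 hk
  rw [dg_flip] at h3
  exact h3

/-- rigid elements and a separation of order one, contraction of `f` -/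
theorem rg_two_con (S : TP K E) {q : Itv E} (hq : q.1 ⊆ q.2) {X : Finset E} (hX : X ⊆ gs q) (hl : QUB.lam S.r q X ≤ 1)
    {e f : E} (he : e ∈ X) (h1 : S.r (q.1 ∪ X.erase e) = S.r (q.1 ∪ X))
    (h2 : S.r (insert e (q.2 \ X)) = S.r (q.2 \ X) + 1) (hf : f ∈ gs q) (hfX : f ∉ X)
    (hfc : S.r (insert f (q.1 ∪ X)) = S.r (q.1 ∪ X) + 1) {q' : Itv E} (hs : Sub q' q) (hf' : f ∉ q'.1)
    (h3 : q.2 \ X ⊆ q'.2)
    (h4 : S.r q'.2 + S.r (q.1 ∪ X) ≤ S.r (q'.2 ∩ (q.1 ∪ X)) + S.r q.2)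
    (hfq : S.r (insert f q'.1) = S.r q'.1 + 1) (hg : Rg S false f q') : Rg S false f (rm true e (rm false e q)) := by
  have hrm : QUB.dp (rm true e (rm false e q)) = rm true e (rm false e (QUB.dp q)) := by
    have h5 : QUB.rm true e (QUB.rm false e (QUB.dp q)) = QUB.dp (QUB.rm false e (QUB.rm true e q)) := by
      rw [QUB.rm_dp, QUB.rm_dp]
      rfl
    have h6 : rm true e (rm false e (QUB.dp q)) = QUB.dp (rm false e (rm true e q)) := h5
    rw [h6, rm_comm]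
  have hXd : ∀ y ∈ X, y ∈ q.2 ∧ y ∉ q.1 := fun y hy => Finset.mem_sdiff.1 (hX hy)
  have heX := hXd e he
  have hf0 := Finset.mem_sdiff.1 hf
  refine rg_dual S ?_
  rw [hrm]
  have e1 : (q.2ᶜ ∪ X.erase e)ᶜ = insert e (q.2 \ X) := by
    ext y
    by_cases hye : y = e
    · simp [hye, heX.1]
    · simp only [Finset.mem_compl, Finset.mem_union, Finset.mem_erase, Finset.mem_insert, Finset.mem_sdiff]
      tauto
  have e2 : (q.2ᶜ ∪ X)ᶜ = q.2 \ X := by
    ext y
    simp only [Finset.mem_compl, Finset.mem_union, Finset.mem_sdiff]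
    tauto
  have e3 : (q.1ᶜ \ X)ᶜ = q.1 ∪ X := by
    ext y
    simp only [Finset.mem_compl, Finset.mem_union, Finset.mem_sdiff]
    tauto
  have e4 : (insert e (q.1ᶜ \ X))ᶜ = q.1 ∪ X.erase e := by
    ext y
    by_cases hye : y = e
    · simp [hye, heX.2]
    · simp only [Finset.mem_compl, Finset.mem_union, Finset.mem_sdiff, Finset.mem_insert, Finset.mem_erase]
      tauto
  have e5 : ((q.1ᶜ \ X).erase f)ᶜ = insert f (q.1 ∪ X) := by
    ext y
    by_cases hyf : y = f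
    · simp [hyf]
    · simp only [Finset.mem_compl, Finset.mem_union, Finset.mem_sdiff, Finset.mem_insert, Finset.mem_erase]
      tauto
  have e6 : (q'.1ᶜ.erase f)ᶜ = insert f q'.1 := by
    ext y
    by_cases hyf : y = f
    · simp [hyf]
    · simp only [Finset.mem_compl, Finset.mem_insert, Finset.mem_erase]
      tauto
  have e7 : (q'.2ᶜ ∪ q.1ᶜ \ X)ᶜ = q'.2 ∩ (q.1 ∪ X) := by
    ext y
    simp only [Finset.mem_compl, Finset.mem_union, Finset.mem_sdiff, Finset.mem_inter]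
    tauto
  have hef : e ≠ f := fun h => hfX (h ▸ he)
  have c1 : ((q.2ᶜ ∪ X.erase e).card : ℤ) + 1 = (q.2ᶜ ∪ X).card := by
    have h5 : (q.2ᶜ ∪ X).erase e = q.2ᶜ ∪ X.erase e := by
      ext y
      by_cases hye : y = e
      · simp [hye, heX.1]
      · simp only [Finset.mem_erase, Finset.mem_union]
        tauto
    rw [← h5]
    exact_mod_cast Finset.card_erase_add_one (Finset.mem_union_right _ he)
  have c2 : ((insert e (q.1ᶜ \ X)).card : ℤ) = (q.1ᶜ \ X).card + 1 := by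
    rw [Finset.card_insert_of_notMem (fun h => (Finset.mem_sdiff.1 h).2 he)]
    push_cast
    ring
  have c3 : (((q.1ᶜ \ X).erase f).card : ℤ) + 1 = (q.1ᶜ \ X).card := by
    exact_mod_cast Finset.card_erase_add_one (Finset.mem_sdiff.2 ⟨Finset.mem_compl.2 hf0.2, hfX⟩)
  have c4 : ((q'.1ᶜ.erase f).card : ℤ) + 1 = q'.1ᶜ.card := by
    exact_mod_cast Finset.card_erase_add_one (Finset.mem_compl.2 hf')
  have c5 : ((q'.2ᶜ ∪ q.1ᶜ \ X).card : ℤ) + q.2ᶜ.card = q'.2ᶜ.card + (q.1ᶜ \ X).card := by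
    have h5 : q'.2ᶜ ∩ (q.1ᶜ \ X) = q.2ᶜ := by
      ext y
      simp only [Finset.mem_inter, Finset.mem_compl, Finset.mem_sdiff]
      constructor
      · rintro ⟨h6, h7, h8⟩ h9
        exact h6 (h3 (Finset.mem_sdiff.2 ⟨h9, h8⟩))
      · intro h6
        exact ⟨fun h7 => h6 (hs.2 h7), fun h7 => h6 (hq h7), fun h7 => h6 (hXd y h7).1⟩
    rw [← h5]
    exact_mod_cast Finset.card_union_add_card_inter q'.2ᶜ (q.1ᶜ \ X)
  have hr : ∀ Z, S.dual.r Z = (Z.card : ℤ) + S.r Zᶜ - S.r Finset.univ := fun Z => rfl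
  have d1 : (QUB.dp q).1 = q.2ᶜ := rfl
  have d2 : (QUB.dp q).2 = q.1ᶜ := rfl
  have d3 : (QUB.dp q').1 = q'.2ᶜ := rfl
  have d4 : (QUB.dp q').2 = q'.1ᶜ := rfl
  refine rg_two_del S.dual (q := QUB.dp q) (q' := QUB.dp q') (X := X) (e := e) (f := f) (QUB.wf_dp hq)
    (by
      have h5 : gs (QUB.dp q) = gs q := QUB.gs_dp q
      rw [h5]
      exact hX)
    (by
      have h5 : QUB.lam S.dual.r (QUB.dp q) X = QUB.lam S.r q X := QUB.lam_dp hq hX
      rw [h5]
      exact hl) he ?_ ?_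
    (by
      have h5 : gs (QUB.dp q) = gs q := QUB.gs_dp q
      rw [h5]
      exact hf) hfX ?_ ⟨Finset.compl_subset_compl.2 hs.2, Finset.compl_subset_compl.2 hs.1⟩ (Finset.mem_compl.2 hf') ?_ ?_
    (rg_dual' S hg)
  · rw [d1, hr, hr, e1, e2, h2]
    linarith
  · rw [d2, hr, hr, e4, e3, c2, h1]
    ring
  · rw [d2, hr, hr, e5, e3, hfc]
    linarith
  · rw [d1, d2, d3, hr, hr, hr, hr, e3, e7, compl_compl, compl_compl]
    linarith
  · rw [d4, hr, hr, e6, compl_compl, hfq]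
    linarith

/-- rigid elements and a separation of order one, no helper: `f` rigid in the half box of its side is rigid in `q` (deletion) -/
theorem rg_two_del0 (S : TP K E) {q : Itv E} (hq : q.1 ⊆ q.2) {X : Finset E} (hX : X ⊆ gs q)
    {f : E} (hf : f ∈ gs q) (hfX : f ∉ X)
    (hfc : S.r ((q.2 \ X).erase f) = S.r (q.2 \ X)) {q' : Itv E} (hs : Sub q' q) (hf' : f ∈ q'.2)
    (h4 : S.r q'.1 + S.r (q.2 \ X) ≤ S.r (q'.1 ∪ (q.2 \ X)) + S.r q.1)
    (hfq : S.r (q'.2.erase f) = S.r q'.2) (hg : Rg S true f q') : Rg S true f q := by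
  intro T hT h0
  have hXd : ∀ x ∈ X, x ∉ q.1 := fun x hx => (Finset.mem_sdiff.1 (hX hx)).2
  have hqX : q.1 ⊆ q.2 \ X := fun x hx => Finset.mem_sdiff.2 ⟨hq hx, fun h => hXd x h hx⟩
  have hfY : f ∈ q.2 \ X := Finset.mem_sdiff.2 ⟨(Finset.mem_sdiff.1 hf).1, hfX⟩
  obtain ⟨v, hv, hvf⟩ := TP.spt_one S hfY hfc
  have hv' : v ∈ spt S.W q.2 := spt_mono Finset.sdiff_subset hv
  have hform : ∀ c ∈ van S.U q.1, ∀ d ∈ spt S.W q.2, T c d = T c v * d f := by
    intro c hc d hd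
    have h3 : d - d f • v ∈ spt S.W (rm true f q).2 := by
      refine ⟨S.W.sub_mem hd.1 (S.W.smul_mem _ hv.1), fun y hy => ?_⟩
      by_cases hyf : y = f
      · rw [hyf, Pi.sub_apply, Pi.smul_apply, smul_eq_mul, hvf, mul_one, sub_self]
      · have hy2 : y ∉ q.2 := fun h => hy (Finset.mem_erase.2 ⟨hyf, h⟩)
        rw [Pi.sub_apply, Pi.smul_apply, hd.2 y hy2, hv.2 y (fun h => hy2 (Finset.mem_sdiff.1 h).1), smul_zero, sub_zero]
    have h4 := h0 c hc _ h3
    rw [map_sub, map_smul, smul_eq_mul, LinearMap.zero_apply, LinearMap.zero_apply] at h4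
    linear_combination h4
  have hzero : ∀ c ∈ van S.U q.1, (∀ y ∈ gs q, y ∉ X → c y = 0) → T c v = 0 := by
    intro c hc hc0
    refine hT c hc v hv' fun y => ?_
    by_cases hy1 : y ∈ q.1
    · rw [hc.2 y hy1, zero_mul]
    by_cases hy2 : y ∈ q.2 \ X
    · rw [hc0 y (Finset.mem_sdiff.2 ⟨(Finset.mem_sdiff.1 hy2).1, hy1⟩) (Finset.mem_sdiff.1 hy2).2, zero_mul]
    · rw [hv.2 y hy2, mul_zero]
  have hTq : InV S.U S.W q' T := fun c hc d hd hcd => hT c (van_anti hs.1 hc) d (spt_mono hs.2 hd) hcd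
  have hT0 : EqOn S.U S.W (rm true f q') T 0 := by
    intro c hc d hd
    have hd' : d ∈ spt S.W q'.2 := spt_mono (Finset.erase_subset _ _) hd
    rw [hform c (van_anti hs.1 hc) d (spt_mono hs.2 hd'), hd.2 f (Finset.notMem_erase f q'.2), mul_zero]
    rfl
  obtain ⟨k, hk⟩ := hg T hTq hT0
  obtain ⟨u, hu, huf⟩ := TP.spt_one S hf' hfq
  have hk' : ∀ c ∈ van S.U q'.1, T c v = k * c f := by
    intro c hc
    have h3 := hk c hc u hu
    rw [hform c (van_anti hs.1 hc) u (spt_mono hs.2 hu), dg_single, huf, mul_one, mul_one] at h3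
    exact h3
  have hsup := rt_van_sup S (A := q'.1) (B := q.2 \ X) (D := q.1) hs.1 hqX h4
  refine ⟨k, fun c hc d hd => ?_⟩
  rw [hform c hc d hd, dg_single]
  obtain ⟨c1, hc1, c2, hc2, hcc⟩ := Submodule.mem_sup.1 (hsup ▸ hc)
  have e3 : T c2 v = 0 :=
    hzero _ (van_anti hqX hc2) fun y hy hyX => hc2.2 y (Finset.mem_sdiff.2 ⟨(Finset.mem_sdiff.1 hy).1, hyX⟩)
  have e4 : c f = c1 f := by
    rw [← hcc, Pi.add_apply, hc2.2 f hfY, add_zero]
  rw [e4, ← hcc, map_add, LinearMap.add_apply, e3, add_zero, hk' c1 hc1]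
  ring

/-- the same, contraction of `f` -/
theorem rg_two_con0 (S : TP K E) {q : Itv E} (hq : q.1 ⊆ q.2) {X : Finset E} (hX : X ⊆ gs q)
    {f : E} (hf : f ∈ gs q) (hfX : f ∉ X)
    (hfc : S.r (insert f (q.1 ∪ X)) = S.r (q.1 ∪ X) + 1) {q' : Itv E} (hs : Sub q' q) (hf' : f ∉ q'.1)
    (h3 : q.2 \ X ⊆ q'.2)
    (h4 : S.r q'.2 + S.r (q.1 ∪ X) ≤ S.r (q'.2 ∩ (q.1 ∪ X)) + S.r q.2)
    (hfq : S.r (insert f q'.1) = S.r q'.1 + 1) (hg : Rg S false f q') : Rg S false f q := by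
  have hXd : ∀ y ∈ X, y ∈ q.2 ∧ y ∉ q.1 := fun y hy => Finset.mem_sdiff.1 (hX hy)
  have hf0 := Finset.mem_sdiff.1 hf
  refine rg_dual S ?_
  have e3 : (q.1ᶜ \ X)ᶜ = q.1 ∪ X := by
    ext y
    simp only [Finset.mem_compl, Finset.mem_union, Finset.mem_sdiff]
    tauto
  have e5 : ((q.1ᶜ \ X).erase f)ᶜ = insert f (q.1 ∪ X) := by
    ext y
    by_cases hyf : y = f
    · simp [hyf]
    · simp only [Finset.mem_compl, Finset.mem_union, Finset.mem_sdiff, Finset.mem_insert, Finset.mem_erase]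
      tauto
  have e6 : (q'.1ᶜ.erase f)ᶜ = insert f q'.1 := by
    ext y
    by_cases hyf : y = f
    · simp [hyf]
    · simp only [Finset.mem_compl, Finset.mem_insert, Finset.mem_erase]
      tauto
  have e7 : (q'.2ᶜ ∪ q.1ᶜ \ X)ᶜ = q'.2 ∩ (q.1 ∪ X) := by
    ext y
    simp only [Finset.mem_compl, Finset.mem_union, Finset.mem_sdiff, Finset.mem_inter]
    tauto
  have c3 : (((q.1ᶜ \ X).erase f).card : ℤ) + 1 = (q.1ᶜ \ X).card := by
    exact_mod_cast Finset.card_erase_add_one (Finset.mem_sdiff.2 ⟨Finset.mem_compl.2 hf0.2, hfX⟩)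
  have c4 : ((q'.1ᶜ.erase f).card : ℤ) + 1 = q'.1ᶜ.card := by
    exact_mod_cast Finset.card_erase_add_one (Finset.mem_compl.2 hf')
  have c5 : ((q'.2ᶜ ∪ q.1ᶜ \ X).card : ℤ) + q.2ᶜ.card = q'.2ᶜ.card + (q.1ᶜ \ X).card := by
    have h5 : q'.2ᶜ ∩ (q.1ᶜ \ X) = q.2ᶜ := by
      ext y
      simp only [Finset.mem_inter, Finset.mem_compl, Finset.mem_sdiff]
      constructor
      · rintro ⟨h6, h7, h8⟩ h9
        exact h6 (h3 (Finset.mem_sdiff.2 ⟨h9, h8⟩))
      · intro h6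
        exact ⟨fun h7 => h6 (hs.2 h7), fun h7 => h6 (hq h7), fun h7 => h6 (hXd y h7).1⟩
    rw [← h5]
    exact_mod_cast Finset.card_union_add_card_inter q'.2ᶜ (q.1ᶜ \ X)
  have hr : ∀ Z, S.dual.r Z = (Z.card : ℤ) + S.r Zᶜ - S.r Finset.univ := fun Z => rfl
  have d1 : (QUB.dp q).1 = q.2ᶜ := rfl
  have d2 : (QUB.dp q).2 = q.1ᶜ := rfl
  have d3 : (QUB.dp q').1 = q'.2ᶜ := rfl
  have d4 : (QUB.dp q').2 = q'.1ᶜ := rfl
  have h5 : gs (QUB.dp q) = gs q := QUB.gs_dp q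
  refine rg_two_del0 S.dual (q := QUB.dp q) (q' := QUB.dp q') (X := X) (f := f) (QUB.wf_dp hq) (by rw [h5]; exact hX)
    (by rw [h5]; exact hf) hfX ?_ ⟨Finset.compl_subset_compl.2 hs.2, Finset.compl_subset_compl.2 hs.1⟩ (Finset.mem_compl.2 hf') ?_ ?_
    (rg_dual' S hg)
  · rw [d2, hr, hr, e5, e3, hfc]
    linarith
  · rw [d1, d2, d3, hr, hr, hr, hr, e3, e7, compl_compl, compl_compl]
    linarith
  · rw [d4, hr, hr, e6, compl_compl, hfq]
    linarith

end Pool.Agent.QU
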