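import Pool.Agent.QUL.LSf2
import Pool.Agent.QUL.LOne

set_option autoImplicit false

/-!
# Project QU, layer D: rigid elements in the box of an element, triangles

`rig_ex` (RIG): if all forms of `V(M_f / f)` restricted to `M \ e` and to `M / e` extend and `f` is rigid in the box of `e` (the pairs
`(c, d)` with `c e = 0` and `d e = 0`), then all forms extend.
`rg_tri`: if `{f, a, b}` is a triangle and there is a pair `(c, d)` of disjoint vectors with `c a ≠ 0`, `d f ≠ 0`, `c e = d e = 0`, then `f` is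
rigid in the box of `e` (for the deletion of `f`).
`tri_ex`: if `{f, a, b}` is a triangle and all disjoint pairs `(c, d)` with `c a ≠ 0`, `d f ≠ 0` are pairs of a removal `(w, s)` for which the
forms extend, then the forms extend.
-/

namespace Pool.Agent.QU

variable {K E : Type} [Field K] [Fintype E] [DecidableEq E]

private theorem rig_ef {U W : Submodule K (E → K)} (t : Bool) (f : E) (q : Itv E) (k : K) :
    EqOn U W (rm t f q) (dg (Pi.single f k)) 0 := by
  have h : EqOn U W (rm t f q) (dg (Pi.single f k)) (dg (0 : E → K)) := by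
    refine dg_congr fun x hx => ?_
    rw [gs_rm] at hx
    rw [Pi.single_eq_of_ne (Finset.mem_erase.1 hx).1, Pi.zero_apply]
  rw [dg_zero] at h
  exact h

/-- **RIG**: `f` rigid in the box of `e` -/
theorem rig_ex (S : TP K E) {p : Itv E} {f e : E} {t : Bool} (h1 : Ex S t f (rm true e p)) (h2 : Ex S t f (rm false e p))
    (hg : Rg S t f (rm true e (rm false e p))) : Ex S t f p := by
  intro T hT
  obtain ⟨T1, hT1, e1⟩ := h1 T (hT.mono ((rm_sub true e p).rm t f))
  obtain ⟨T2, hT2, e2⟩ := h2 T (hT.mono ((rm_sub false e p).rm t f))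
  have s1 : Sub (rm true e (rm false e p)) (rm true e p) := (rm_sub false e p).rm true e
  have s2 : Sub (rm true e (rm false e p)) (rm false e p) := rm_sub true e _
  obtain ⟨k, hk⟩ := hg (T1 - T2) ((hT1.mono s1).sub (hT2.mono s2)) (by
    intro c hc d hd
    have a1 := e1.mono (s1.rm t f) c hc d hd
    have a2 := e2.mono (s2.rm t f) c hc d hd
    rw [LinearMap.sub_apply, LinearMap.sub_apply, a1, a2, sub_self, LinearMap.zero_apply, LinearMap.zero_apply])
  have hT1' : InV S.U S.W (rm true e p) (T1 - dg (Pi.single f k)) := hT1.sub (dg_inV _ _)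
  have hcomm : EqOn S.U S.W (rm true e (rm false e p)) (T1 - dg (Pi.single f k)) T2 := by
    intro c hc d hd
    have h3 := hk c hc d hd
    rw [LinearMap.sub_apply, LinearMap.sub_apply] at h3 ⊢
    rw [← h3]
    ring
  have e1' : EqOn S.U S.W (rm t f (rm true e p)) (T1 - dg (Pi.single f k)) T := by
    intro c hc d hd
    rw [LinearMap.sub_apply, LinearMap.sub_apply, e1 c hc d hd, rig_ef t f _ k c hc d hd,
      LinearMap.zero_apply, LinearMap.zero_apply, sub_zero]
  obtain ⟨T0, f1, f2⟩ := glue_rm true false e e p (T1 - dg (Pi.single f k)) T2 hcomm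
  have hT0 : InV S.U S.W p T0 := inV_of_rm (hT1'.congr f1) (hT2.congr f2)
  obtain ⟨k', hk'⟩ := eqOn_of_rm (U := S.U) (W := S.W) (x := e) (p := rm t f p) (T := T0) (T' := T)
    (by
      rw [rm_comm]
      exact (f1.mono (rm_sub t f _)).trans e1')
    (by
      rw [rm_comm]
      exact (f2.mono (rm_sub t f _)).trans e2)
  refine ⟨T0 - dg (Pi.single e k'), hT0.sub (dg_inV _ _), ?_⟩
  intro c hc d hd
  have h4 := hk' c hc d hd
  rw [LinearMap.add_apply, LinearMap.add_apply] at h4
  rw [LinearMap.sub_apply, LinearMap.sub_apply, h4, add_sub_cancel_right]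

omit [Fintype E] [DecidableEq E] in
/-- a functional which vanishes where two coordinates vanish is a combination of the two coordinates -/
private theorem rig_two (V : Submodule K (E → K)) (φ : (E → K) →ₗ[K] K) (f a : E)
    (h : ∀ c ∈ V, c f = 0 → c a = 0 → φ c = 0) :
    ∃ k k' : K, ∀ c ∈ V, φ c = k * c f + k' * c a := by
  by_cases ha : ∃ c0 ∈ V, c0 f = 0 ∧ c0 a ≠ 0
  · obtain ⟨c0, hc0, hf0, ha0⟩ := ha
    by_cases hf : ∃ c1 ∈ V, c1 f ≠ 0
    · obtain ⟨c1, hc1, hf1⟩ := hf
      refine ⟨(c1 f)⁻¹ * (φ c1 - c1 a * (c0 a)⁻¹ * φ c0), (c0 a)⁻¹ * φ c0, fun c hc => ?_⟩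
      have e1 := h (c - (c f * (c1 f)⁻¹) • c1 - ((c a - c f * (c1 f)⁻¹ * c1 a) * (c0 a)⁻¹) • c0)
        (V.sub_mem (V.sub_mem hc (V.smul_mem _ hc1)) (V.smul_mem _ hc0))
        (by
          simp only [Pi.sub_apply, Pi.smul_apply, smul_eq_mul, hf0]
          field_simp
          ring)
        (by
          simp only [Pi.sub_apply, Pi.smul_apply, smul_eq_mul]
          field_simp
          ring)
      rw [map_sub, map_sub, map_smul, map_smul, smul_eq_mul, smul_eq_mul] at e1
      linear_combination e1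
    · have hf' : ∀ c ∈ V, c f = 0 := fun c hc => by
        by_contra hne
        exact hf ⟨c, hc, hne⟩
      refine ⟨0, (c0 a)⁻¹ * φ c0, fun c hc => ?_⟩
      have e1 := h (c - (c a * (c0 a)⁻¹) • c0) (V.sub_mem hc (V.smul_mem _ hc0))
        (by
          simp only [Pi.sub_apply, Pi.smul_apply, smul_eq_mul, hf0, hf' c hc]
          ring)
        (by
          simp only [Pi.sub_apply, Pi.smul_apply, smul_eq_mul]
          field_simp
          ring)
      rw [map_sub, map_smul, smul_eq_mul] at e1
      linear_combination e1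
  · have ha' : ∀ c ∈ V, c f = 0 → c a = 0 := fun c hc h0 => by
      by_contra hne
      exact ha ⟨c, hc, h0, hne⟩
    by_cases hf : ∃ c1 ∈ V, c1 f ≠ 0
    · obtain ⟨c1, hc1, hf1⟩ := hf
      refine ⟨(c1 f)⁻¹ * φ c1, 0, fun c hc => ?_⟩
      have hf0 : (c - (c f * (c1 f)⁻¹) • c1) f = 0 := by
        simp only [Pi.sub_apply, Pi.smul_apply, smul_eq_mul]
        field_simp
        ring
      have hm : c - (c f * (c1 f)⁻¹) • c1 ∈ V := V.sub_mem hc (V.smul_mem _ hc1)
      have e1 := h _ hm hf0 (ha' _ hm hf0)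
      rw [map_sub, map_smul, smul_eq_mul] at e1
      linear_combination e1
    · refine ⟨0, 0, fun c hc => ?_⟩
      have hf' : c f = 0 := by
        by_contra hne
        exact hf ⟨c, hc, hne⟩
      rw [h c hc hf' (ha' c hc hf')]
      ring

/-- `{f, a, b}` is dependent over `p.1`, `f` is in the closure of `a`, `b` and `b` in the closure of `f`, `a` -/
def Tri (r : Finset E → ℤ) (p : Itv E) (f a b : E) : Prop :=
  r (insert f (insert a (insert b p.1))) = r (insert a (insert b p.1)) ∧
    r (insert b (insert f (insert a p.1))) = r (insert f (insert a p.1))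

omit [Fintype E] [DecidableEq E] in
private theorem rig_van {U : Submodule K (E → K)} {A : Finset E} {c : E → K} [DecidableEq E] (hc : c ∈ van U A) {x : E}
    (h : c x = 0) : c ∈ van U (insert x A) := by
  refine ⟨hc.1, fun y hy => ?_⟩
  rcases Finset.mem_insert.1 hy with h1 | h1
  · rw [h1, h]
  · exact hc.2 y h1

omit [Fintype E] in
private theorem rig_spt {W : Submodule K (E → K)} {A : Finset E} {d : E → K} (hd : d ∈ spt W A) {x : E}
    (h : d x = 0) : d ∈ spt W (A.erase x) := by
  refine ⟨hd.1, fun y hy => ?_⟩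
  by_cases hyx : y = x
  · rw [hyx, h]
  · exact hd.2 y fun h1 => hy (Finset.mem_erase.2 ⟨hyx, h1⟩)

/-- the vector of the triangle -/
private theorem rig_vec (S : TP K E) {p : Itv E} {f a b : E} (hfa : f ≠ a) (hfb : f ≠ b) (hf : f ∉ p.1)
    (hL : Tri S.r p f a b) :
    ∃ t ∈ spt S.W (insert f (insert a (insert b p.1))), t f = 1 := by
  have hne : f ∉ insert a (insert b p.1) := by
    simp only [Finset.mem_insert, not_or]
    exact ⟨hfa, hfb, hf⟩
  refine TP.spt_one S (Finset.mem_insert_self _ _) ?_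
  rw [Finset.erase_insert hne]
  exact hL.1.symm

/-- a vector which vanishes on `f`, `a` is disjoint from the triangle -/
private theorem rig_dis (S : TP K E) {p : Itv E} {f a b : E} (hL : Tri S.r p f a b) {c t : E → K}
    (hc : c ∈ van S.U p.1) (h1 : c f = 0) (h2 : c a = 0)
    (ht : t ∈ spt S.W (insert f (insert a (insert b p.1)))) : ∀ x, c x * t x = 0 := by
  have h3 : c b = 0 := TP.van_eq_zero S hL.2 c (rig_van (rig_van hc h2) h1)
  intro x
  by_cases hx : x ∈ insert f (insert a (insert b p.1))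
  · simp only [Finset.mem_insert] at hx
    rcases hx with rfl | rfl | rfl | hx
    · rw [h1, zero_mul]
    · rw [h2, zero_mul]
    · rw [h3, zero_mul]
    · rw [hc.2 x hx, zero_mul]
  · rw [ht.2 x hx, mul_zero]

/-- a form of `V(q)` which vanishes on the deletion of `f` is `(k * c f + k' * c a) * d f` on `q` -/
private theorem rig_form (S : TP K E) {p q : Itv E} {f a b : E} (hL : Tri S.r p f a b) {t : E → K}
    (ht : t ∈ spt S.W (insert f (insert a (insert b p.1)))) (htf : t f = 1) (hq1 : p.1 ⊆ q.1)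
    (hq2 : insert f (insert a (insert b p.1)) ⊆ q.2) {T : Fm K E} (hT : InV S.U S.W q T)
    (h0 : EqOn S.U S.W (rm true f q) T 0) :
    ∃ k k' : K, ∀ c ∈ van S.U q.1, ∀ d ∈ spt S.W q.2, T c d = (k * c f + k' * c a) * d f := by
  have htq : t ∈ spt S.W q.2 := spt_mono hq2 ht
  obtain ⟨k, k', hk⟩ := rig_two (van S.U q.1) (T.flip t) f a (fun c hc h1 h2 => by
    rw [LinearMap.flip_apply]
    exact hT c hc t htq (rig_dis S hL (van_anti hq1 hc) h1 h2 ht))
  refine ⟨k, k', fun c hc d hd => ?_⟩
  have e1 := hk c hc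
  rw [LinearMap.flip_apply] at e1
  have hd' : d - d f • t ∈ spt S.W ((q.2).erase f) := by
    refine rig_spt (Submodule.sub_mem _ hd (Submodule.smul_mem _ _ htq)) ?_
    rw [Pi.sub_apply, Pi.smul_apply, smul_eq_mul, htf, mul_one, sub_self]
  have e2 := h0 c hc (d - d f • t) hd'
  rw [map_sub, map_smul, smul_eq_mul, LinearMap.zero_apply, LinearMap.zero_apply] at e2
  rw [← e1]
  linear_combination e2

/-- `f` is rigid in the box of `e` if there is a triangle `{f, a, b}` and a disjoint pair outside of `e` -/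
theorem rg_tri (S : TP K E) {p : Itv E} {f a b e : E} (hfa : f ≠ a) (hfb : f ≠ b) (hef : e ≠ f) (hea : e ≠ a) (heb : e ≠ b)
    (hf : f ∈ gs p) (ha : a ∈ gs p) (hb : b ∈ gs p) (he : e ∈ gs p) (hp : p.1 ⊆ p.2) (hL : Tri S.r p f a b)
    {c d : E → K} (hc : c ∈ van S.U p.1) (hd : d ∈ spt S.W p.2) (hcd : ∀ x, c x * d x = 0) (hca : c a ≠ 0) (hdf : d f ≠ 0)
    (hce : c e = 0) (hde : d e = 0) : Rg S true f (rm true e (rm false e p)) := by
  intro T hT h0
  have hf1 := (Finset.mem_sdiff.1 hf)
  have he1 := (Finset.mem_sdiff.1 he)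
  obtain ⟨t, ht, htf⟩ := rig_vec S hfa hfb hf1.2 hL
  have hsub : insert f (insert a (insert b p.1)) ⊆ (rm true e (rm false e p)).2 := by
    intro x hx
    rw [rm_true, rm_false]
    simp only [Finset.mem_insert] at hx
    rcases hx with rfl | rfl | rfl | hx
    · exact Finset.mem_erase.2 ⟨hef.symm, hf1.1⟩
    · exact Finset.mem_erase.2 ⟨hea.symm, (Finset.mem_sdiff.1 ha).1⟩
    · exact Finset.mem_erase.2 ⟨heb.symm, (Finset.mem_sdiff.1 hb).1⟩
    · exact Finset.mem_erase.2 ⟨fun h => he1.2 (h ▸ hx), hp hx⟩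
  obtain ⟨k, k', hk⟩ := rig_form S (q := rm true e (rm false e p)) hL ht htf (Finset.subset_insert _ _) hsub hT h0
  have hcf : c f = 0 := by
    rcases mul_eq_zero.1 (hcd f) with h | h
    · exact h
    · exact absurd h hdf
  have hc' : c ∈ van S.U (rm true e (rm false e p)).1 := rig_van hc hce
  have hd' : d ∈ spt S.W (rm true e (rm false e p)).2 := rig_spt hd hde
  have e1 := hk c hc' d hd'
  rw [hT c hc' d hd' hcd, hcf] at e1
  have hk' : k' = 0 := by
    have h5 : k' * (c a * d f) = 0 := by linear_combination -e1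
    rcases mul_eq_zero.1 h5 with h | h
    · exact h
    · exact absurd h (mul_ne_zero hca hdf)
  refine ⟨k, fun c1 hc1 d1 hd1 => ?_⟩
  rw [hk c1 hc1 d1 hd1, dg_single, hk']
  ring

/-- if all disjoint pairs `(c, d)` with `c a ≠ 0`, `d f ≠ 0` are pairs of the removal `(w, s)`, then forms extend to `p` if they extend there -/
theorem tri_ex (S : TP K E) {p : Itv E} {f a b w : E} {s : Bool} (hfa : f ≠ a) (hfb : f ≠ b) (hwf : w ≠ f) (hwa : w ≠ a)
    (hwb : w ≠ b) (hf : f ∈ gs p) (ha : a ∈ gs p) (hb : b ∈ gs p) (hw : w ∈ gs p) (hp : p.1 ⊆ p.2) (hL : Tri S.r p f a b)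
    (hex : Ex S true f (rm s w p))
    (hall : ∀ c ∈ van S.U p.1, ∀ d ∈ spt S.W p.2, (∀ x, c x * d x = 0) → c a ≠ 0 → d f ≠ 0 →
      (s = true → d w = 0) ∧ (s = false → c w = 0)) : Ex S true f p := by
  intro T hT
  obtain ⟨T3, hT3, e3⟩ := hex T (hT.mono ((rm_sub s w p).rm true f))
  have hf1 := (Finset.mem_sdiff.1 hf)
  have hw1 := (Finset.mem_sdiff.1 hw)
  obtain ⟨t, ht, htf⟩ := rig_vec S hfa hfb hf1.2 hL
  have hsub0 : insert f (insert a (insert b p.1)) ⊆ p.2 := by
    intro x hx
    simp only [Finset.mem_insert] at hx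
    rcases hx with rfl | rfl | rfl | hx
    · exact hf1.1
    · exact (Finset.mem_sdiff.1 ha).1
    · exact (Finset.mem_sdiff.1 hb).1
    · exact hp hx
  have hsub : insert f (insert a (insert b p.1)) ⊆ (rm s w p).2 := by
    cases s
    · exact hsub0
    · intro x hx
      refine Finset.mem_erase.2 ⟨?_, hsub0 hx⟩
      rintro rfl
      simp only [Finset.mem_insert] at hx
      rcases hx with h | h | h | h
      · exact hwf h
      · exact hwa h
      · exact hwb h
      · exact hw1.2 h
  have htq : t ∈ spt S.W (rm s w p).2 := spt_mono hsub ht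
  have htp : t ∈ spt S.W p.2 := spt_mono hsub0 ht
  have hq1 : p.1 ⊆ (rm s w p).1 := (rm_sub s w p).1
  -- the functional `T3 (., t)`
  obtain ⟨k, k', hk⟩ := rig_two (van S.U (rm s w p).1) (T3.flip t) f a (fun c hc h1 h2 => by
    rw [LinearMap.flip_apply]
    exact hT3 c hc t htq (rig_dis S hL (van_anti hq1 hc) h1 h2 ht))
  -- the corrected form
  let R : Fm K E := LinearMap.mk₂ K (fun c d => d f * (k * c f + k' * c a - T c t))
    (fun c c' d => by
      rw [Pi.add_apply, Pi.add_apply, map_add, LinearMap.add_apply]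
      ring)
    (fun m c d => by
      rw [Pi.smul_apply, Pi.smul_apply, map_smul, LinearMap.smul_apply, smul_eq_mul, smul_eq_mul, smul_eq_mul, smul_eq_mul]
      ring)
    (fun c d d' => by
      rw [Pi.add_apply]
      ring)
    (fun m c d => by
      rw [Pi.smul_apply, smul_eq_mul, smul_eq_mul]
      ring)
  have hR : ∀ c d, R c d = d f * (k * c f + k' * c a - T c t) := fun c d => rfl
  refine ⟨T + R, ?_, ?_⟩
  · intro c hc d hd hcd
    rw [LinearMap.add_apply, LinearMap.add_apply, hR]
    by_cases hdf : d f = 0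
    · rw [hdf, zero_mul, add_zero]
      exact hT c hc d (rig_spt hd hdf) hcd
    have hcf : c f = 0 := by
      rcases mul_eq_zero.1 (hcd f) with h | h
      · exact h
      · exact absurd h hdf
    have hdt : (d - d f • t) f = 0 := by
      rw [Pi.sub_apply, Pi.smul_apply, smul_eq_mul, htf, mul_one, sub_self]
    by_cases hca : c a = 0
    · have hct := rig_dis S hL hc hcf hca ht
      have h1 := hT c hc (d - d f • t) (rig_spt (Submodule.sub_mem _ hd (Submodule.smul_mem _ _ htp)) hdt) (fun x => by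
        rw [Pi.sub_apply, Pi.smul_apply, smul_eq_mul, mul_sub, hcd x]
        have h2 := hct x
        linear_combination (-(d f)) * h2)
      rw [map_sub, map_smul, smul_eq_mul] at h1
      rw [hcf, hca]
      linear_combination h1
    · obtain ⟨hs1, hs2⟩ := hall c hc d hd hcd hca hdf
      have hc' : c ∈ van S.U (rm s w p).1 := by
        cases s
        · exact rig_van hc (hs2 rfl)
        · exact hc
      have hd' : d ∈ spt S.W (rm s w p).2 := by
        cases s
        · exact hd
        · exact rig_spt hd (hs1 rfl)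
      have h1 := hT3 c hc' d hd' hcd
      have h2 := e3 c hc' (d - d f • t) (rig_spt (Submodule.sub_mem _ hd' (Submodule.smul_mem _ _ htq)) hdt)
      have h3 := hk c hc'
      rw [LinearMap.flip_apply] at h3
      rw [map_sub, map_sub, map_smul, map_smul, smul_eq_mul, smul_eq_mul, h1, h3] at h2
      linear_combination -h2
  · intro c hc d hd
    rw [LinearMap.add_apply, LinearMap.add_apply, hR, hd.2 f (Finset.notMem_erase f p.2), zero_mul, add_zero]

end Pool.Agent.QU
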