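import Pool.Agent.QUR.SmA

/-!
# QUR/SmB: same-type minimal 2-sides, the forms

`u`, `v` of one type with a 2-side; `T1`, `T2` the forms of `M_u`, `M_v`.  `sm_one`: for a clean element `x` they agree on `M_{uvx}` up to a
scalar and a diagonal form.  `sm_rig`: one rigid clean element; `sm_pair`: two clean elements of one type.
-/

set_option autoImplicit false

open QUB

namespace Pool.Agent.QU

open Pool.Agent.FRM

variable {E : Type} [Fintype E] [DecidableEq E] {S : TP F4 E} {p : Itv E}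

theorem Cw.cv (h : Cw S p) : Cv S p := ⟨h.nu, h.hp, h.hC, h.h3, h.nt, h.hn, h.th, h.ih⟩

omit [Fintype E] in
private theorem sb_mem {p : Itv E} {a b : E} {s : Bool} (hab : a ≠ b) (ha : a ∈ gs p) : a ∈ gs (rm s b p) := by
  rw [gs_rm]
  exact Finset.mem_erase.2 ⟨hab, ha⟩

/-- a clean element -/
theorem sm_one (h : Cw S p) {u v x : E} {t s : Bool} (mu : u ∈ gs p) (mv : v ∈ gs p) (mx : x ∈ gs p) (hux : u ≠ x) (hvx : v ≠ x)
    {T1 T2 : Fm F4 E} (h1 : InVs S (rm t u p) T1) (h2 : InVs S (rm t v p) T2)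
    (o1 : Ok S.r (rm t u (rm s x p))) (o2 : Ok S.r (rm t v (rm s x p))) (R : HasRich S.r (rm s x (rm t u (rm t v p)))) :
    ∃ (k : F4) (l : E → F4), EqOn S.U S.W (rm s x (rm t u (rm t v p))) T1 (k • T2 + dg l) := by
  obtain ⟨Tx, hx⟩ := h.ex1 mx s
  have eN : rm s x (rm t u (rm t v p)) = rm t u (rm t v (rm s x p)) := by
    rw [rm_comm s t x u, rm_comm s t x v]
  rw [eN] at R ⊢
  have w1 : (rm t u (rm s x p)).1 ⊆ (rm t u (rm s x p)).2 := QUB.wf_rm (QUB.wf_rm h.hp mx) (sb_mem hux mu)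
  have w2 : (rm t v (rm s x p)).1 ⊆ (rm t v (rm s x p)).2 := QUB.wf_rm (QUB.wf_rm h.hp mx) (sb_mem hvx mv)
  obtain ⟨k1, l1, e1⟩ := uq_of_ok S h.nu w1 (h.cn2 mu mx hux t s) o1 T1 Tx (h1.1.mono ((rm_sub s x p).rm t u))
    (invs_sub hx (rm_sub t u (rm s x p)))
  obtain ⟨k2, l2, e2⟩ := uq_of_ok S h.nu w2 (h.cn2 mv mx hvx t s) o2 T2 Tx (h2.1.mono ((rm_sub s x p).rm t v))
    (invs_sub hx (rm_sub t v (rm s x p)))
  have s1 : Sub (rm t u (rm t v (rm s x p))) (rm t u (rm s x p)) := (rm_sub t v (rm s x p)).rm t u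
  have s2 : Sub (rm t u (rm t v (rm s x p))) (rm t v (rm s x p)) := rm_sub t u _
  have hk2 : k2 ≠ 0 := by
    intro hk
    obtain ⟨N, n1, n2⟩ := R
    refine h2.2 N (((rm_sub s x p).rm t v).trans (s2.trans n1)) n2 ⟨l2, ?_⟩
    have e3 := (e2.mono s2).mono n1
    rw [hk, zero_smul] at e3
    exact e3
  refine ⟨k1 * k2⁻¹, l1 - (k1 * k2⁻¹) • l2, fun c hc d hd => ?_⟩
  have f1 := (e1.mono s1) c hc d hd
  have f2 := (e2.mono s2) c hc d hd
  rw [LinearMap.add_apply, LinearMap.add_apply, LinearMap.smul_apply, LinearMap.smul_apply, smul_eq_mul] at f1 f2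
  rw [LinearMap.add_apply, LinearMap.add_apply, LinearMap.smul_apply, LinearMap.smul_apply, smul_eq_mul, dg_sub, LinearMap.sub_apply,
    LinearMap.sub_apply, dg_smul, LinearMap.smul_apply, LinearMap.smul_apply, smul_eq_mul, f1, f2]
  field_simp
  ring

/-- gluing -/
theorem sm_glue (h : Cw S p) {u v : E} {t : Bool} {T1 T2 : Fm F4 E} (h1 : InVs S (rm t u p) T1) (h2 : InVs S (rm t v p) T2) {k : F4}
    (hk : EqD S.U S.W (rm t u (rm t v p)) T1 (k • T2)) :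
    ∃ T : Fm F4 E, InV S.U S.W (rm t u p) T ∧ InV S.U S.W (rm t v p) T ∧
      ∀ q, Sub q (rm t u p) → Rich S.r q → ¬ EqD S.U S.W q T 0 := by
  obtain ⟨l, hk⟩ := hk
  obtain ⟨T, hTa, hTb⟩ := glue_rm t t u v p T1 (k • T2 + dg l) hk
  have d1 : EqD S.U S.W (rm t u p) T T1 := hTa.eqD
  have d2 : EqD S.U S.W (rm t v p) T (k • T2) := ⟨_, hTb⟩
  exact ⟨T, h1.1.congrD d1, (h2.1.smul k).congrD d2, fun q g1 g2 g3 => h1.2 q g1 g2 ((d1.symm.mono g1).trans g3)⟩

/-- one rigid clean element -/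
theorem sm_rig (h : Cw S p) {u v f : E} {t s : Bool} (mu : u ∈ gs p) (mv : v ∈ gs p) (mf : f ∈ gs p) (huf : u ≠ f) (hvf : v ≠ f)
    (o1 : Ok S.r (rm t u (rm s f p))) (o2 : Ok S.r (rm t v (rm s f p))) (R : HasRich S.r (rm s f (rm t u (rm t v p))))
    (hg : Rg S s f (rm t u (rm t v p))) :
    ∃ T : Fm F4 E, InV S.U S.W (rm t u p) T ∧ InV S.U S.W (rm t v p) T ∧
      ∀ q, Sub q (rm t u p) → Rich S.r q → ¬ EqD S.U S.W q T 0 := by
  obtain ⟨T1, h1⟩ := h.ex1 mu t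
  obtain ⟨T2, h2⟩ := h.ex1 mv t
  obtain ⟨k, l, e⟩ := sm_one h mu mv mf huf hvf h1 h2 o1 o2 R
  refine sm_glue h h1 h2 (k := k) ?_
  have i1 : InV S.U S.W (rm t u (rm t v p)) T1 := h1.1.mono ((rm_sub t v p).rm t u)
  have i2 : InV S.U S.W (rm t u (rm t v p)) T2 := h2.1.mono (rm_sub t u _)
  obtain ⟨m, hm⟩ := hg (T1 - k • T2 - dg l) ((i1.sub (i2.smul k)).sub (dg_inV _ l)) (by
    intro c hc d hd
    have f1 := e c hc d hd
    rw [LinearMap.add_apply, LinearMap.add_apply] at f1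
    rw [LinearMap.sub_apply, LinearMap.sub_apply, LinearMap.sub_apply, LinearMap.sub_apply, LinearMap.zero_apply, LinearMap.zero_apply, f1]
    ring)
  refine ⟨l + Pi.single f m, fun c hc d hd => ?_⟩
  have f1 := hm c hc d hd
  rw [LinearMap.sub_apply, LinearMap.sub_apply, LinearMap.sub_apply, LinearMap.sub_apply] at f1
  rw [LinearMap.add_apply, LinearMap.add_apply, dg_add, LinearMap.add_apply, LinearMap.add_apply, ← f1]
  ring

/-- two clean elements of one type -/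
theorem sm_pair (h : Cw S p) {u v x y : E} {t s : Bool} (mu : u ∈ gs p) (mv : v ∈ gs p) (mx : x ∈ gs p) (my : y ∈ gs p) (huv : u ≠ v)
    (hux : u ≠ x) (hvx : v ≠ x) (huy : u ≠ y) (hvy : v ≠ y) (hxy : x ≠ y)
    (o1 : Ok S.r (rm t u (rm s x p))) (o2 : Ok S.r (rm t v (rm s x p))) (o3 : Ok S.r (rm t u (rm s y p))) (o4 : Ok S.r (rm t v (rm s y p)))
    (cx : Cn S.r (rm s x (rm t u (rm t v p)))) (cy : Cn S.r (rm s y (rm t u (rm t v p))))
    (cxy : Cn S.r (rm s x (rm s y (rm t u (rm t v p))))) (R : HasRich S.r (rm s x (rm s y (rm t u (rm t v p))))) :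
    ∃ T : Fm F4 E, InV S.U S.W (rm t u p) T ∧ InV S.U S.W (rm t v p) T ∧
      ∀ q, Sub q (rm t u p) → Rich S.r q → ¬ EqD S.U S.W q T 0 := by
  obtain ⟨T1, h1⟩ := h.ex1 mu t
  obtain ⟨T2, h2⟩ := h.ex1 mv t
  set N := rm t u (rm t v p) with hN
  have wN : N.1 ⊆ N.2 := QUB.wf_rm (QUB.wf_rm h.hp mv) (sb_mem huv mu)
  have nx : x ∈ gs N := sb_mem hux.symm (sb_mem hvx.symm mx)
  have ny : y ∈ gs N := sb_mem huy.symm (sb_mem hvy.symm my)
  have sx : Sub (rm s x (rm s y N)) (rm s x N) := (rm_sub s y N).rm s x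
  have sy : Sub (rm s x (rm s y N)) (rm s y N) := rm_sub s x _
  have Rx : HasRich S.r (rm s x N) := by
    obtain ⟨Q, g1, g2⟩ := R
    exact ⟨Q, sx.trans g1, g2⟩
  have Ry : HasRich S.r (rm s y N) := by
    obtain ⟨Q, g1, g2⟩ := R
    exact ⟨Q, sy.trans g1, g2⟩
  obtain ⟨k, l, e⟩ := sm_one h mu mv mx hux hvx h1 h2 o1 o2 Rx
  obtain ⟨k', l', e'⟩ := sm_one h mu mv my huy hvy h1 h2 o3 o4 Ry
  have hk : k = k' := by
    by_contra hne
    obtain ⟨Q, g1, g2⟩ := R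
    have e1 : EqD S.U S.W (rm s x (rm s y N)) T1 (k • T2) := ⟨l, e.mono sx⟩
    have e2 : EqD S.U S.W (rm s x (rm s y N)) T1 (k' • T2) := ⟨l', e'.mono sy⟩
    refine h2.2 Q ?_ g2 ((eqd_diff e1 e2 hne).mono g1)
    exact (rm_sub t u (rm t v p)).trans ((rm_sub s x N).trans (sx.trans g1))
  subst hk
  refine sm_glue h h1 h2 (k := k) ?_
  refine glue_l S hxy nx ny ?_ e e' ?_
  · refine nd_of_cn S.rk hxy nx ny ?_ cx cy
    rw [hN, gs_rm2, Finset.card_erase_of_mem (Finset.mem_erase.2 ⟨huv, mu⟩), Finset.card_erase_of_mem mv]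
    have := h.hn
    omega
  · intro z hz
    have wxy : (rm s x (rm s y N)).1 ⊆ (rm s x (rm s y N)).2 := QUB.wf_rm (QUB.wf_rm wN ny) (sb_mem hxy nx)
    have h3 : EqOn S.U S.W (rm s x (rm s y N)) (dg (l - l')) 0 := by
      intro c hc d hd
      have f1 := (e.mono sx) c hc d hd
      have f2 := (e'.mono sy) c hc d hd
      rw [f1, LinearMap.add_apply, LinearMap.add_apply, LinearMap.add_apply, LinearMap.add_apply] at f2
      rw [dg_sub, LinearMap.sub_apply, LinearMap.sub_apply, LinearMap.zero_apply, LinearMap.zero_apply]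
      linear_combination f2
    have h4 := hom_cn S wxy cxy (hasLn_of_rich R) h3 z hz
    rw [Pi.sub_apply] at h4
    exact sub_eq_zero.1 h4

/-- an element both removals of which are clean and connected -/
theorem sm_both (h : Cw S p) {u v x : E} {t : Bool} (mu : u ∈ gs p) (mv : v ∈ gs p) (mx : x ∈ gs p) (huv : u ≠ v)
    (hux : u ≠ x) (hvx : v ≠ x) {T : Fm F4 E} (i1 : InV S.U S.W (rm t u p) T) (i2 : InV S.U S.W (rm t v p) T)
    (hne : ∀ q, Sub q (rm t u p) → Rich S.r q → ¬ EqD S.U S.W q T 0)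
    (o1 : ∀ s, Ok S.r (rm t u (rm s x p))) (o2 : ∀ s, Ok S.r (rm t v (rm s x p)))
    (c : ∀ s, Cn S.r (rm s x (rm t u (rm t v p)))) (R : ∀ s, HasRich S.r (rm s x (rm t u (rm t v p)))) :
    ∃ T : Fm F4 E, InV S.U S.W p T ∧ ¬ EqD S.U S.W p T 0 := by
  have e : ∀ s, rm s x (rm t u (rm t v p)) = rm t u (rm t v (rm s x p)) := fun s => by
    rw [rm_comm s t x u, rm_comm s t x v]
  have i : ∀ s, InV S.U S.W (rm s x p) T := fun s =>
    h.cv.third mu mv mx huv hux hvx i1 i2 (o1 s) (o2 s) (e s ▸ c s) (e s ▸ R s)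
  refine ⟨T, inV_of_rm (i true) (i false), fun hT => ?_⟩
  obtain ⟨N, h1, h2⟩ := R true
  rw [e] at h1
  have h3 : Sub N (rm t u p) := (((rm_sub true x p).trans (rm_sub t v _)).rm t u).trans h1
  exact hne N h3 h2 (hT.mono ((rm_sub t u p).trans h3))

end Pool.Agent.QU
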