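import Pool.Agent.QUR.SmB
import Pool.Agent.QUT.Lfc

/-!
# QUR/SmC: same-type minimal 2-sides, the side contains a leaf

`sm_leaf`: the side `X` of a minimal pair of deletions contains a leaf.
-/

set_option autoImplicit false

open QUB

namespace Pool.Agent.QU

open Pool.Agent.FRM

section

variable {E : Type} [DecidableEq E] {r : Finset E → ℤ} {q : Itv E}

/-- two contractions in a leaf with four elements and without triangles -/
theorem leaf_four (hr : Rk r) {M : Finset E} (hL : Lf r q M) (h4 : M.card = 4)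
    (t3 : ∀ Z ⊆ M, Z.card = 3 → r (q.1 ∪ Z) = r q.1 + 3) {x y : E} (hx : x ∈ M) (hy : y ∈ M) (hxy : x ≠ y) :
    Cn r (rm false x (rm false y q)) := by
  have wf := hL.wf
  have hMg : ∀ v ∈ M, v ∈ q.2 ∧ v ∉ q.1 := fun v hv => Finset.mem_sdiff.1 (hL.sub hv)
  have hq : ∀ v ∈ q.1, v ∈ q.2 := fun v hv => wf hv
  have hc2 : ((M.erase x).erase y).card = 2 := by
    rw [Finset.card_erase_of_mem (Finset.mem_erase.2 ⟨hxy.symm, hy⟩), Finset.card_erase_of_mem hx]
    omega
  obtain ⟨z, w, hzw, hzws⟩ := Finset.card_eq_two.1 hc2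
  have mz : z ∈ M ∧ z ≠ x ∧ z ≠ y := by
    have h1 : z ∈ (M.erase x).erase y := by rw [hzws]; exact Finset.mem_insert_self _ _
    have h2 := Finset.mem_erase.1 h1
    have h3 := Finset.mem_erase.1 h2.2
    exact ⟨h3.2, h3.1, h2.1⟩
  have mw : w ∈ M ∧ w ≠ x ∧ w ≠ y := by
    have h1 : w ∈ (M.erase x).erase y := by rw [hzws]; exact Finset.mem_insert_of_mem (Finset.mem_singleton_self _)
    have h2 := Finset.mem_erase.1 h1
    have h3 := Finset.mem_erase.1 h2.2
    exact ⟨h3.2, h3.1, h2.1⟩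
  have cov : ∀ v ∈ M, v = x ∨ v = y ∨ v = z ∨ v = w := by
    intro v hv
    by_cases h1 : v = x
    · exact Or.inl h1
    by_cases h2 : v = y
    · exact Or.inr (Or.inl h2)
    have h3 : v ∈ (M.erase x).erase y := Finset.mem_erase.2 ⟨h2, Finset.mem_erase.2 ⟨h1, hv⟩⟩
    rw [hzws, Finset.mem_insert, Finset.mem_singleton] at h3
    exact Or.inr (Or.inr h3)
  -- triples
  have tri : ∀ a ∈ M, ∀ b ∈ M, ∀ c ∈ M, a ≠ b → a ≠ c → b ≠ c → r (insert a (insert b (insert c q.1))) = r q.1 + 3 := by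
    intro a ha b hb c hc hab hac hbc
    have h1 := t3 {a, b, c} (by
      intro v hv
      simp only [Finset.mem_insert, Finset.mem_singleton] at hv
      rcases hv with rfl | rfl | rfl <;> assumption) (Finset.card_eq_three.2 ⟨a, b, c, hab, hac, hbc, rfl⟩)
    rw [← h1]
    congr 1
    ext v
    simp only [Finset.mem_union, Finset.mem_insert, Finset.mem_singleton]
    tauto
  have t1 := tri w mw.1 x hx y hy mw.2.1 mw.2.2 hxy
  have t2 := tri z mz.1 x hx y hy mz.2.1 mz.2.2 hxy
  have u1 := hr.unit q.1 y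
  have u2 := hr.unit (insert y q.1) x
  have u3 := hr.unit (insert x (insert y q.1)) w
  have k2 : r (insert x (insert y q.1)) = r q.1 + 2 := by omega
  -- the pair
  have hpair : 2 ≤ QUB.lam r q {z, w} := by
    refine hL.min _ ?_ ?_ ?_
    · intro v hv
      simp only [Finset.mem_insert, Finset.mem_singleton] at hv
      rcases hv with rfl | rfl
      · exact mz.1
      · exact mw.1
    · intro h
      rw [← h, Finset.card_pair hzw] at h4
      omega
    · rw [Finset.card_pair hzw]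
  have hpair' : 2 ≤ r (q.1 ∪ {z, w}) + r (q.2 \ {z, w}) - r q.2 - r q.1 := hpair
  have e1 : q.1 ∪ {z, w} = insert z (insert w q.1) := by
    ext v
    simp only [Finset.mem_union, Finset.mem_insert, Finset.mem_singleton]
    tauto
  rw [e1] at hpair'
  have u4 := hr.unit q.1 w
  have u5 := hr.unit (insert w q.1) z
  have m1 := hr.mono _ _ (Finset.sdiff_subset : q.2 \ {z, w} ⊆ q.2)
  have k3 : r (q.2 \ {z, w}) = r q.2 := by omega
  have hl : r (q.1 ∪ M) + r (q.2 \ M) - r q.2 - r q.1 ≤ 1 := hL.l1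
  have e2 : q.2 \ {z, w} = insert x (insert y (q.2 \ M)) := by
    ext v
    have c1 := cov v
    have c2 := hMg x hx
    have c3 := hMg y hy
    simp only [Finset.mem_sdiff, Finset.mem_insert, Finset.mem_singleton]
    constructor
    · rintro ⟨g1, g2⟩
      by_cases g3 : v ∈ M
      · have g4 := c1 g3
        tauto
      · exact Or.inr (Or.inr ⟨g1, g3⟩)
    · rintro (rfl | rfl | ⟨g1, g2⟩)
      · exact ⟨c2.1, fun g => g.elim (fun g => mz.2.1 g.symm) fun g => mw.2.1 g.symm⟩
      · exact ⟨c3.1, fun g => g.elim (fun g => mz.2.2 g.symm) fun g => mw.2.2 g.symm⟩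
      · exact ⟨g1, fun g => g.elim (fun g => g2 (g ▸ mz.1)) fun g => g2 (g ▸ mw.1)⟩
  have u6 := hr.unit (q.2 \ M) y
  have u7 := hr.unit (insert y (q.2 \ M)) x
  rw [e2] at k3
  have m2 : insert w (insert x (insert y q.1)) ⊆ q.1 ∪ M := by
    intro v hv
    simp only [Finset.mem_insert] at hv
    rcases hv with rfl | rfl | rfl | hv
    · exact Finset.mem_union_right _ mw.1
    · exact Finset.mem_union_right _ hx
    · exact Finset.mem_union_right _ hy
    · exact Finset.mem_union_left _ hv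
  have m3 := hr.mono _ _ m2
  have k4 : r (q.1 ∪ M) = r q.1 + 3 := by omega
  have k5 : r (q.2 \ M) = r q.2 - 2 := by omega
  -- all four elements
  have m4 : insert z (insert w (insert x (insert y q.1))) ⊆ q.1 ∪ M := by
    refine Finset.insert_subset (Finset.mem_union_right _ mz.1) m2
  have m5 := hr.mono _ _ m4
  have m6 := hr.mono _ _ (Finset.subset_insert z (insert w (insert x (insert y q.1))))
  have k6 : r (insert z (insert w (insert x (insert y q.1)))) = r q.1 + 3 := by omega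
  -- the box
  have hw2 : (rm false x (rm false y q)).1 ⊆ (rm false x (rm false y q)).2 := by
    refine QUB.wf_rm (QUB.wf_rm wf (hL.sub hy)) ?_
    rw [show gs (rm false y q) = (gs q).erase y from QUB.gs_rm _ _ _]
    exact Finset.mem_erase.2 ⟨hxy, hL.sub hx⟩
  have g2 : gs (rm false x (rm false y q)) = ((gs q).erase y).erase x := by
    rw [gs_rm, gs_rm]
  -- a side outside the leaf
  have key1 : ∀ A' ⊆ gs (rm false x (rm false y q)), A'.Nonempty → z ∉ A' → w ∉ A' → 1 ≤ QUB.lam r (rm false x (rm false y q)) A' := by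
    intro A' hA' hne hz hw
    have mA : ∀ v ∈ A', v ∈ q.2 ∧ v ∉ q.1 ∧ v ∉ M := by
      intro v hv
      have h1 := hA' hv
      rw [g2] at h1
      have h2 := Finset.mem_erase.1 h1
      have h3 := Finset.mem_erase.1 h2.2
      have h5 := Finset.mem_sdiff.1 h3.2
      refine ⟨h5.1, h5.2, fun h6 => ?_⟩
      rcases cov v h6 with rfl | rfl | rfl | rfl
      · exact h2.1 rfl
      · exact h3.1 rfl
      · exact hz hv
      · exact hw hv
    have h1 : 1 ≤ QUB.lam r q A' := by
      refine hL.cn A' ?_ hne ⟨x, Finset.mem_sdiff.2 ⟨hL.sub hx, fun h => (mA x h).2.2 hx⟩⟩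
      intro v hv
      exact Finset.mem_sdiff.2 ⟨(mA v hv).1, (mA v hv).2.1⟩
    have h1' : 1 ≤ r (q.1 ∪ A') + r (q.2 \ A') - r q.2 - r q.1 := h1
    have hs : q.1 ∪ A' ⊆ q.2 \ M := by
      intro v hv
      rcases Finset.mem_union.1 hv with hv | hv
      · exact Finset.mem_sdiff.2 ⟨hq v hv, fun h => (hMg v h).2 hv⟩
      · exact Finset.mem_sdiff.2 ⟨(mA v hv).1, (mA v hv).2.2⟩
    have n1 := QUB.marg hr hs y
    have n2 := QUB.marg hr (Finset.insert_subset_insert y hs) x
    have e3 : QUB.lam r (rm false x (rm false y q)) A' = r (insert x (insert y (q.1 ∪ A'))) + r (q.2 \ A') - r q.2 - r (insert x (insert y q.1)) := by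
      show r (insert x (insert y q.1) ∪ A') + r (q.2 \ A') - r q.2 - r (insert x (insert y q.1)) = _
      rw [Finset.insert_union, Finset.insert_union]
    rw [e3]
    omega
  -- a side which separates `z` and `w`
  have key2 : ∀ A' ⊆ gs (rm false x (rm false y q)), z ∈ A' → w ∉ A' → 1 ≤ QUB.lam r (rm false x (rm false y q)) A' := by
    intro A' hA' hz hw
    have mA : ∀ v ∈ A', v ∈ q.2 := by
      intro v hv
      have h1 := hA' hv
      rw [g2] at h1
      exact (Finset.mem_sdiff.1 (Finset.mem_erase.1 (Finset.mem_erase.1 h1).2).2).1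
    have n1 : r (insert w (insert x (insert y q.1) ∪ A')) = r (insert x (insert y q.1) ∪ A') := by
      have hs : insert z (insert x (insert y q.1)) ⊆ insert x (insert y q.1) ∪ A' :=
        Finset.insert_subset (Finset.mem_union_right _ hz) Finset.subset_union_left
      have n2 := QUB.marg hr hs w
      have e3 : insert w (insert z (insert x (insert y q.1))) = insert z (insert w (insert x (insert y q.1))) := Finset.insert_comm _ _ _
      rw [e3] at n2
      have n3 := hr.mono _ _ (Finset.subset_insert w (insert x (insert y q.1) ∪ A'))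
      omega
    have n2 := hr.sub (insert w (insert x (insert y q.1) ∪ A')) (q.2 \ A')
    have e4 : insert w (insert x (insert y q.1) ∪ A') ∪ (q.2 \ A') = q.2 := by
      ext v
      have c1 := mA v
      have c2 := hq v
      have c3 := (hMg x hx).1
      have c4 := (hMg y hy).1
      have c5 := (hMg w mw.1).1
      simp only [Finset.mem_union, Finset.mem_insert, Finset.mem_sdiff]
      constructor
      · rintro ((rfl | (rfl | rfl | g) | g) | g)
        · exact c5
        · exact c3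
        · exact c4
        · exact c2 g
        · exact c1 g
        · exact g.1
      · intro g
        by_cases g' : v ∈ A'
        · exact Or.inl (Or.inr (Or.inr g'))
        · exact Or.inr ⟨g, g'⟩
    have hxA : x ∉ A' := fun h => by
      have h1 := hA' h
      rw [g2] at h1
      exact (Finset.mem_erase.1 h1).1 rfl
    have hyA : y ∉ A' := fun h => by
      have h1 := hA' h
      rw [g2] at h1
      exact (Finset.mem_erase.1 (Finset.mem_erase.1 h1).2).1 rfl
    have hs : insert w (insert x (insert y q.1)) ⊆ insert w (insert x (insert y q.1) ∪ A') ∩ (q.2 \ A') := by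
      intro v hv
      rw [Finset.mem_inter, Finset.mem_sdiff]
      refine ⟨Finset.insert_subset_insert w Finset.subset_union_left hv, ?_⟩
      simp only [Finset.mem_insert] at hv
      rcases hv with rfl | rfl | rfl | hv
      · exact ⟨(hMg _ mw.1).1, hw⟩
      · exact ⟨(hMg _ hx).1, hxA⟩
      · exact ⟨(hMg _ hy).1, hyA⟩
      · refine ⟨hq v hv, fun h => ?_⟩
        have h1 := hA' h
        rw [g2] at h1
        exact (Finset.mem_sdiff.1 (Finset.mem_erase.1 (Finset.mem_erase.1 h1).2).2).2 hv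
    have n3 := hr.mono _ _ hs
    rw [e4] at n2
    show 1 ≤ r (insert x (insert y q.1) ∪ A') + r (q.2 \ A') - r q.2 - r (insert x (insert y q.1))
    omega
  intro A hA hne hne'
  have hcp := QUB.lam_compl r hw2 hA
  by_cases hz : z ∈ A
  · by_cases hw : w ∈ A
    · rw [← hcp]
      exact key1 _ Finset.sdiff_subset hne' (fun h => (Finset.mem_sdiff.1 h).2 hz) fun h => (Finset.mem_sdiff.1 h).2 hw
    · exact key2 A hA hz hw
  · by_cases hw : w ∈ A
    · rw [← hcp]
      refine key2 _ Finset.sdiff_subset ?_ fun h => (Finset.mem_sdiff.1 h).2 hw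
      rw [Finset.mem_sdiff, g2]
      exact ⟨Finset.mem_erase.2 ⟨mz.2.1, Finset.mem_erase.2 ⟨mz.2.2, hL.sub mz.1⟩⟩, hz⟩
    · exact key1 A hA hne hz hw

end

section

variable {E : Type} [Fintype E] [DecidableEq E] {S : TP F4 E} {p : Itv E}

omit [Fintype E] in
theorem Md.mX {r : Finset E → ℤ} {s t : Bool} {u v : E} {X : Finset E} (hM : Md r p s u t v X) :
    ∀ y ∈ X, y ∈ gs p ∧ y ≠ u ∧ y ≠ v := fun y hy => by
  have h0 := hM.sub hy
  rw [gs_rm, gs_rm] at h0
  have h1 := Finset.mem_erase.1 h0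
  have h2 := Finset.mem_erase.1 h1.2
  exact ⟨h2.2, h1.1, h2.1⟩

/-- both pairs are clean -/
theorem sm_clean2 (h : Cw S p) {t σ : Bool} {u v x : E} {X : Finset E} (hM : Md S.r p t u t v X) (hmin : MdMin S.r p X.card) (hx : x ∈ X)
    (hc : Cn S.r (rm σ x (rm t u (rm t v p)))) : Ok S.r (rm t u (rm σ x p)) ∧ Ok S.r (rm t v (rm σ x p)) :=
  ⟨sm_clean h hM hmin hx hc, sm_clean h hM.symm hmin hx (by rw [rm_comm t t v u]; exact hc)⟩

theorem Md.rich' {s t : Bool} {u v x : E} {X : Finset E} (hp : p.1 ⊆ p.2) (hM : Md S.r p s u t v X) (hx : x ∈ X) {σ : Bool}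
    (hc : Cn S.r (rm σ x (rm s u (rm t v p)))) : HasRich S.r (rm σ x (rm s u (rm t v p))) := by
  obtain ⟨q', h1, h2, -⟩ := Md.keep hp hM hx hc
  exact ⟨q', h1, h2⟩

/-- after two removals in the side -/
theorem Md.rich2 {s t : Bool} {u v x y : E} {X : Finset E} (hp : p.1 ⊆ p.2) (hM : Md S.r p s u t v X) (hx : x ∈ X) (hy : y ∈ X)
    (hxy : x ≠ y) (h3 : 3 ≤ X.card) {σ ρ : Bool} (hcy : Cn S.r (rm ρ y (rm s u (rm t v p))))
    (hc : Cn S.r (rm σ x (rm ρ y (rm s u (rm t v p))))) : HasRich S.r (rm σ x (rm ρ y (rm s u (rm t v p)))) := by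
  obtain ⟨q', k1, k2, k3⟩ := Md.keep hp hM hy hcy
  have hwN := hM.wf hp
  have hyN : y ∈ gs (rm s u (rm t v p)) := hM.sub hy
  set N := rm s u (rm t v p) with hN
  have hwy : (rm ρ y N).1 ⊆ (rm ρ y N).2 := QUB.wf_rm hwN hyN
  have gy : gs (rm ρ y N) = (gs N).erase y := QUB.gs_rm _ _ _
  have gxy : gs (rm σ x (rm ρ y N)) = ((gs N).erase y).erase x := by
    rw [show gs (rm σ x (rm ρ y N)) = (gs (rm ρ y N)).erase x from QUB.gs_rm _ _ _, gy]
  have hXe : X.erase y ⊆ gs (rm ρ y N) := by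
    rw [gy]
    exact Finset.erase_subset_erase y hM.sub
  have l1 : QUB.lam S.r (rm ρ y N) (X.erase y) ≤ 1 := by
    have h1 := QUB.lam_rm_le' S.rk hwN (t := ρ) (A := X.erase y) hyN (Finset.erase_subset_erase y hM.sub)
    rw [Finset.insert_erase hy] at h1
    exact h1.trans hM.lam
  have hxe : x ∈ X.erase y := Finset.mem_erase.2 ⟨hxy, hx⟩
  have k3' : (X.erase y ∩ gs q').card ≤ 1 :=
    (Finset.card_le_card (Finset.inter_subset_inter_right (Finset.erase_subset _ _))).trans k3
  -- the other side is not empty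
  have h5 : (gs q').card = 5 := k2.2.1
  obtain ⟨z, hz⟩ : (gs q' \ X.erase y).Nonempty := by
    by_contra hcon
    rw [Finset.not_nonempty_iff_eq_empty, Finset.sdiff_eq_empty_iff_subset] at hcon
    rw [Finset.inter_eq_right.2 hcon] at k3'
    omega
  have hz' := Finset.mem_sdiff.1 hz
  have hzg : z ∈ gs (rm ρ y N) := by
    have h6 := Finset.mem_sdiff.1 hz'.1
    exact Finset.mem_sdiff.2 ⟨k1.2 h6.1, fun h' => h6.2 (k1.1 h')⟩
  obtain ⟨w, hw⟩ : ((X.erase y).erase x).Nonempty := by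
    rw [← Finset.card_pos, Finset.card_erase_of_mem hxe, Finset.card_erase_of_mem hy]
    omega
  have hw1 := Finset.mem_erase.1 hw
  obtain ⟨q'', n1, n2, -⟩ := rich_keep S hwy hXe l1 ⟨q', k1, k2, k3'⟩ hxe (t := σ) (by
    refine hc _ ?_ ⟨z, Finset.mem_sdiff.2 ⟨hzg, hz'.2⟩⟩ ⟨w, ?_⟩
    · intro a ha
      have ha' := Finset.mem_sdiff.1 ha
      rw [gs_rm]
      exact Finset.mem_erase.2 ⟨fun h' => ha'.2 (h' ▸ hxe), ha'.1⟩
    · rw [Finset.mem_sdiff, gs_rm]
      exact ⟨Finset.mem_erase.2 ⟨hw1.1, hXe hw1.2⟩, fun h' => (Finset.mem_sdiff.1 h').2 hw1.2⟩)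
  exact ⟨q'', n1, n2⟩

/-- leaf with at least four elements: the form -/
theorem sm_leafT (h : Cw S p) {u v : E} {X M : Finset E} (hM : Md S.r p true u true v X) (hmin : MdMin S.r p X.card) (hMX : M ⊆ X)
    (hL : Lf S.r (rm true u (rm true v p)) M) (h4 : 4 ≤ M.card) :
    ∃ T : Fm F4 E, InV S.U S.W (rm true u p) T ∧ InV S.U S.W (rm true v p) T ∧
      ∀ q, Sub q (rm true u p) → Rich S.r q → ¬ EqD S.U S.W q T 0 := by
  have hr : Rk S.r := S.rk
  have mX := hM.mX
  have c1 : ∀ x ∈ M, ∀ s, Cn S.r (rm s x (rm true u (rm true v p))) := fun x hx s => hL.cn1 hr hx s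
  have ok : ∀ x ∈ M, ∀ s, Ok S.r (rm true u (rm s x p)) ∧ Ok S.r (rm true v (rm s x p)) := fun x hx s =>
    sm_clean2 h hM hmin (hMX hx) (c1 x hx s)
  have l1 : 1 ≤ QUB.lam S.r (rm true u (rm true v p)) M :=
    hL.cn M hL.sub (Finset.card_pos.1 (by omega)) hL.ne
  by_cases h5 : 5 ≤ M.card
  · obtain ⟨C, a, T0⟩ := tor_ex hr hL.wf hL.sub l1 hL.l1
    have h3t := T0.th3 hr hL.min
    have ct := T0.cn hr hL.cn
    have gt := T0.gs_eq
    have hcard : (gs (tb (rm true u (rm true v p)) M C a)).card = M.card + 1 := by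
      rw [gt, Finset.card_insert_of_notMem T0.aB]
    have hmem : ∀ f ∈ gs (tb (rm true u (rm true v p)) M C a), f ≠ a → f ∈ M := by
      intro f hf hfa
      rw [gt] at hf
      exact (Finset.mem_insert.1 hf).resolve_left hfa
    have hat : a ∈ gs (tb (rm true u (rm true v p)) M C a) := by
      rw [gt]
      exact Finset.mem_insert_self _ _
    obtain ⟨f, hf, s, hg⟩ : ∃ f ∈ M, ∃ s, Rg S s f (tb (rm true u (rm true v p)) M C a) := by
      by_cases hN : HasLn S.r (tb (rm true u (rm true v p)) M C a)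
      · by_cases hR : HasRich S.r (tb (rm true u (rm true v p)) M C a)
        · obtain ⟨f, hf, hfa, s, -, hg⟩ := csm_rich S h.nu T0.wf ct h3t (by omega) hR a
          exact ⟨f, hmem f hf hfa, s, hg⟩
        · obtain ⟨f, hf, hfa, -, hg⟩ := csm_ln S h.nu T0.wf ct h3t (by omega) hN hR hat true
          exact ⟨f, hmem f hf hfa, true, hg⟩
      · obtain ⟨f, hf⟩ : M.Nonempty := Finset.card_pos.1 (by omega)
        have hft : f ∈ gs (tb (rm true u (rm true v p)) M C a) := by
          rw [gt]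
          exact Finset.mem_insert_of_mem hf
        exact ⟨f, hf, true, csm_bin S T0.wf (fun N hN' => hN ⟨N, hN'⟩) hft (th3_cn hr T0.wf ct h3t (by omega) hft true)⟩
    have hg' := tor_rg S T0 hL.cn h3t (by omega) hf hg
    obtain ⟨m1, m2, m3⟩ := mX f (hMX hf)
    exact sm_rig h hM.ma hM.mb m1 m2.symm m3.symm (ok f hf s).1 (ok f hf s).2 (hM.rich' h.hp (hMX hf) (c1 f hf s)) hg'
  · have hM4 : M.card = 4 := by omega
    obtain ⟨x, hx, y, hy, hxy⟩ := Finset.one_lt_card.1 (show 1 < M.card by omega)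
    have t3 : ∀ Z ⊆ M, Z.card = 3 → S.r ((rm true u (rm true v p)).1 ∪ Z) = S.r (rm true u (rm true v p)).1 + 3 := by
      intro Z hZ hc
      exact h.nt.t3 Z (fun w hw => (mX w (hMX (hZ hw))).1) hc
    have cc := leaf_four hr hL hM4 t3 hx hy hxy
    obtain ⟨x1, x2, x3⟩ := mX x (hMX hx)
    obtain ⟨y1, y2, y3⟩ := mX y (hMX hy)
    have hX3 : 3 ≤ X.card := (hM.hv rfl).card
    exact sm_pair h hM.ma hM.mb x1 y1 hM.ab x2.symm x3.symm y2.symm y3.symm hxy (ok x hx false).1 (ok x hx false).2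
      (ok y hy false).1 (ok y hy false).2 (c1 x hx false) (c1 y hy false) cc
      (hM.rich2 h.hp (hMX hx) (hMX hy) hxy hX3 (c1 y hy false) cc)

/-- an element both removals of which are connected -/
theorem sm_end (h : Cw S p) {t : Bool} {u v x : E} {X : Finset E} (hM : Md S.r p t u t v X) (hmin : MdMin S.r p X.card) (hx : x ∈ X)
    (hc : ∀ s, Cn S.r (rm s x (rm t u (rm t v p)))) {T : Fm F4 E} (i1 : InV S.U S.W (rm t u p) T) (i2 : InV S.U S.W (rm t v p) T)
    (hne : ∀ q, Sub q (rm t u p) → Rich S.r q → ¬ EqD S.U S.W q T 0) : ∃ T : Fm F4 E, InV S.U S.W p T ∧ ¬ EqD S.U S.W p T 0 := by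
  obtain ⟨m1, m2, m3⟩ := hM.mX x hx
  exact sm_both h hM.ma hM.mb m1 hM.ab m2.symm m3.symm i1 i2 hne (fun s => (sm_clean2 h hM hmin hx (hc s)).1)
    (fun s => (sm_clean2 h hM hmin hx (hc s)).2) hc fun s => hM.rich' h.hp hx (hc s)

/-- a leaf with at least four elements: done -/
theorem sm_leaf (h : Cw S p) {u v : E} {X M : Finset E} (hM : Md S.r p true u true v X) (hmin : MdMin S.r p X.card) (hMX : M ⊆ X)
    (hL : Lf S.r (rm true u (rm true v p)) M) (h4 : 4 ≤ M.card) : ∃ T : Fm F4 E, InV S.U S.W p T ∧ ¬ EqD S.U S.W p T 0 := by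
  obtain ⟨T, i1, i2, hne⟩ := sm_leafT h hM hmin hMX hL h4
  obtain ⟨x, hx⟩ : M.Nonempty := Finset.card_pos.1 (by omega)
  exact sm_end h hM hmin (hMX hx) (fun s => hL.cn1 S.rk hx s) i1 i2 hne

end

end Pool.Agent.QU
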