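import Pool.Agent.QUR.Rig

set_option autoImplicit false

/-!
# QUR/T2e: the T-case with a typed helper (helper22's T2, T2C, T2D, helper21's TT3) in the form `Ex`/`Rg`

`{f, a, b}` is a triangle, `T` a form in `V(M \ f)`. The forms on `M` which agree with `T` on `M \ f`, up to forms which do not matter, are
`thf T t f a θ` (`θ` a scalar, `t` the vector of the triangle). `thf θ` lies in `V(M)` if it lies in `V(M \ a)` (`thf_inV`), it always lies in
`V(M / b \ a)` (`thf_b0`), and if `T` extends to `M_e`, some `thf θ` lies in `V(M_e)` (`thf_node`).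
`t2_ex`: `Ex` for `(f, M \ a)` and `f` rigid in `M \ a / b`.
`t2c_ex`: `Ex` for `(f, M / e)` and `(e, M \ a)` (contraction), `e` rigid (for contraction) in `M \ a / b`; `t2c_ex'`: rigid in `M \ a, f`.
`t2d_ex`: `Ex` for `(f, M \ e)` and `(e, M \ a)` (deletion), `e` rigid in `M \ a / b`; `t2d_ex'`: rigid in `M \ a, f`.
-/

namespace Pool.Agent.QU

variable {K E : Type} [Field K] [Fintype E] [DecidableEq E]

/-- all three elements of the triangle are in the closure of the two others -/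
def Tri3 (r : Finset E → ℤ) (p : Itv E) (f a b : E) : Prop :=
  Tri r p f a b ∧ r (insert a (insert f (insert b p.1))) = r (insert f (insert b p.1))

omit [Fintype E] [DecidableEq E] in
/-- a functional which vanishes where two coordinates vanish is a combination of the two coordinates -/
theorem lin_two (V : Submodule K (E → K)) (φ : (E → K) →ₗ[K] K) (f a : E)
    (h : ∀ c ∈ V, c f = 0 → c a = 0 → φ c = 0) :
    ∃ k k' : K, ∀ c ∈ V, φ c = k * c f + k' * c a := by
  by_cases ha : ∃ c0 ∈ V, c0 f = 0 ∧ c0 a ≠ 0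
  · obtain ⟨c0, hc0, hf0, ha0⟩ := ha
    by_cases hf : ∃ c1 ∈ V, c1 f ≠ 0
    · obtain ⟨c1, hc1, hf1⟩ := hf
      refine ⟨(c1 f)⁻¹ * (φ c1 - c1 a * (c0 a)⁻¹ * φ c0), (c0 a)⁻¹ * φ c0, fun c hc => ?_⟩
      have e1 := h (c - (c f * (c1 f)⁻¹) • c1 - ((c a - c f * (c1 f)⁻¹ * c1 a) * (c0 a)⁻¹) • c0)
        (V.sub_mem (V.sub_mem hc (V.smul_mem _ hc1)) (V.smul_mem _ hc0))
        (by
          simp only [Pi.sub_apply, Pi.smul_apply, smul_eq_mul, hf0]
          field_simp
          ring)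
        (by
          simp only [Pi.sub_apply, Pi.smul_apply, smul_eq_mul]
          field_simp
          ring)
      rw [map_sub, map_sub, map_smul, map_smul, smul_eq_mul, smul_eq_mul] at e1
      linear_combination e1
    · have hf' : ∀ c ∈ V, c f = 0 := fun c hc => by
        by_contra hne
        exact hf ⟨c, hc, hne⟩
      refine ⟨0, (c0 a)⁻¹ * φ c0, fun c hc => ?_⟩
      have e1 := h (c - (c a * (c0 a)⁻¹) • c0) (V.sub_mem hc (V.smul_mem _ hc0))
        (by
          simp only [Pi.sub_apply, Pi.smul_apply, smul_eq_mul, hf0, hf' c hc]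
          ring)
        (by
          simp only [Pi.sub_apply, Pi.smul_apply, smul_eq_mul]
          field_simp
          ring)
      rw [map_sub, map_smul, smul_eq_mul] at e1
      linear_combination e1
  · have ha' : ∀ c ∈ V, c f = 0 → c a = 0 := fun c hc h0 => by
      by_contra hne
      exact ha ⟨c, hc, h0, hne⟩
    by_cases hf : ∃ c1 ∈ V, c1 f ≠ 0
    · obtain ⟨c1, hc1, hf1⟩ := hf
      refine ⟨(c1 f)⁻¹ * φ c1, 0, fun c hc => ?_⟩
      have hf0 : (c - (c f * (c1 f)⁻¹) • c1) f = 0 := by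
        simp only [Pi.sub_apply, Pi.smul_apply, smul_eq_mul]
        field_simp
        ring
      have hm : c - (c f * (c1 f)⁻¹) • c1 ∈ V := V.sub_mem hc (V.smul_mem _ hc1)
      have e1 := h _ hm hf0 (ha' _ hm hf0)
      rw [map_sub, map_smul, smul_eq_mul] at e1
      linear_combination e1
    · refine ⟨0, 0, fun c hc => ?_⟩
      have hf' : c f = 0 := by
        by_contra hne
        exact hf ⟨c, hc, hne⟩
      rw [h c hc hf' (ha' c hc hf')]
      ring

omit [Fintype E] [DecidableEq E] in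
/-- a functional which vanishes where one coordinate vanishes is a multiple of the coordinate -/
theorem lin_one (V : Submodule K (E → K)) (φ : (E → K) →ₗ[K] K) (f : E) (h : ∀ c ∈ V, c f = 0 → φ c = 0) :
    ∃ k : K, ∀ c ∈ V, φ c = k * c f := by
  obtain ⟨k, k', hk⟩ := lin_two V φ f f (fun c hc h0 _ => h c hc h0)
  exact ⟨k + k', fun c hc => by rw [hk c hc]; ring⟩

/-- the candidates for the extension of `T` -/
def thf (T : Fm K E) (t : E → K) (f a : E) (θ : K) : Fm K E :=
  T + LinearMap.mk₂ K (fun c d => d f * (θ * c a - T c t))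
    (fun c c' d => by
      rw [Pi.add_apply, map_add, LinearMap.add_apply]
      ring)
    (fun m c d => by
      rw [Pi.smul_apply, map_smul, LinearMap.smul_apply, smul_eq_mul, smul_eq_mul, smul_eq_mul]
      ring)
    (fun c d d' => by
      rw [Pi.add_apply]
      ring)
    (fun m c d => by
      rw [Pi.smul_apply, smul_eq_mul, smul_eq_mul]
      ring)

omit [Fintype E] [DecidableEq E] in
theorem thf_apply (T : Fm K E) (t : E → K) (f a : E) (θ : K) (c d : E → K) :
    thf T t f a θ c d = T c d + d f * (θ * c a - T c t) := rfl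

omit [Fintype E] in
private theorem te_van {U : Submodule K (E → K)} {A : Finset E} {c : E → K} (hc : c ∈ van U A) {x : E}
    (h : c x = 0) : c ∈ van U (insert x A) := by
  refine ⟨hc.1, fun y hy => ?_⟩
  rcases Finset.mem_insert.1 hy with h1 | h1
  · rw [h1, h]
  · exact hc.2 y h1

omit [Fintype E] in
private theorem te_spt {W : Submodule K (E → K)} {A : Finset E} {d : E → K} (hd : d ∈ spt W A) {x : E}
    (h : d x = 0) : d ∈ spt W (A.erase x) := by
  refine ⟨hd.1, fun y hy => ?_⟩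
  by_cases hyx : y = x
  · rw [hyx, h]
  · exact hd.2 y fun h1 => hy (Finset.mem_erase.2 ⟨hyx, h1⟩)

/-- the vector of the triangle -/
theorem tri_vec (S : TP K E) {p : Itv E} {f a b : E} (hfa : f ≠ a) (hfb : f ≠ b) (hf : f ∈ gs p)
    (hL : Tri S.r p f a b) :
    ∃ t ∈ spt S.W (insert f (insert a (insert b p.1))), t f = 1 := by
  have hf1 := (Finset.mem_sdiff.1 hf).2
  have hne : f ∉ insert a (insert b p.1) := by
    simp only [Finset.mem_insert, not_or]
    exact ⟨hfa, hfb, hf1⟩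
  refine TP.spt_one S (Finset.mem_insert_self _ _) ?_
  rw [Finset.erase_insert hne]
  exact hL.1.symm

private theorem te_b0 (S : TP K E) {p : Itv E} {f a b : E} (hL : Tri S.r p f a b) {c : E → K}
    (hc : c ∈ van S.U p.1) (h1 : c f = 0) (h2 : c a = 0) : c b = 0 :=
  TP.van_eq_zero S hL.2 c (te_van (te_van hc h2) h1)

/-- a vector which vanishes on `f`, `a` is disjoint from the triangle -/
private theorem te_dis (S : TP K E) {p : Itv E} {f a b : E} (hL : Tri S.r p f a b) {c t : E → K}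
    (hc : c ∈ van S.U p.1) (h1 : c f = 0) (h2 : c a = 0)
    (ht : t ∈ spt S.W (insert f (insert a (insert b p.1)))) : ∀ x, c x * t x = 0 := by
  have h3 := te_b0 S hL hc h1 h2
  intro x
  by_cases hx : x ∈ insert f (insert a (insert b p.1))
  · simp only [Finset.mem_insert] at hx
    rcases hx with rfl | rfl | rfl | hx
    · rw [h1, zero_mul]
    · rw [h2, zero_mul]
    · rw [h3, zero_mul]
    · rw [hc.2 x hx, zero_mul]
  · rw [ht.2 x hx, mul_zero]

omit [Fintype E] in
theorem thf_f {U W : Submodule K (E → K)} {q : Itv E} (T : Fm K E) (t : E → K) (f a : E) (θ : K) :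
    EqOn U W (rm true f q) (thf T t f a θ) T := by
  intro c _ d hd
  rw [thf_apply, hd.2 f (Finset.notMem_erase f q.2), zero_mul, add_zero]

/-- context: the triangle, its vector, the form -/
structure Tdat (S : TP K E) (p : Itv E) (f a b : E) (T : Fm K E) (t : E → K) : Prop where
  hp : p.1 ⊆ p.2
  hf : f ∈ gs p
  ha : a ∈ gs p
  hb : b ∈ gs p
  hfa : f ≠ a
  hfb : f ≠ b
  hab : a ≠ b
  hL : Tri3 S.r p f a b
  hT : InV S.U S.W (rm true f p) T
  ht : t ∈ spt S.W (insert f (insert a (insert b p.1)))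
  htf : t f = 1

variable {S : TP K E} {p : Itv E} {f a b : E} {T : Fm K E} {t : E → K}

theorem Tdat.sub (D : Tdat S p f a b T t) : insert f (insert a (insert b p.1)) ⊆ p.2 := by
  intro x hx
  simp only [Finset.mem_insert] at hx
  rcases hx with rfl | rfl | rfl | hx
  · exact (Finset.mem_sdiff.1 D.hf).1
  · exact (Finset.mem_sdiff.1 D.ha).1
  · exact (Finset.mem_sdiff.1 D.hb).1
  · exact D.hp hx

/-- `thf` vanishes on the disjoint pairs with `d f = 0` -/
theorem Tdat.f0 (D : Tdat S p f a b T t) (θ : K) {c d : E → K} (hc : c ∈ van S.U p.1) (hd : d ∈ spt S.W p.2)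
    (hcd : ∀ x, c x * d x = 0) (h : d f = 0) : thf T t f a θ c d = 0 := by
  rw [thf_apply, h, zero_mul, add_zero]
  exact D.hT c hc d (te_spt hd h) hcd

/-- `thf` vanishes on the disjoint pairs with `c a = 0` -/
theorem Tdat.a0 (D : Tdat S p f a b T t) (θ : K) {c d : E → K} (hc : c ∈ van S.U p.1) (hd : d ∈ spt S.W p.2)
    (hcd : ∀ x, c x * d x = 0) (h : c a = 0) : thf T t f a θ c d = 0 := by
  by_cases hdf : d f = 0
  · exact D.f0 θ hc hd hcd hdf
  have hcf : c f = 0 := (mul_eq_zero.1 (hcd f)).resolve_right hdf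
  have hct := te_dis S D.hL.1 hc hcf h D.ht
  have h1 := D.hT c hc (d - d f • t) (te_spt (Submodule.sub_mem _ hd (Submodule.smul_mem _ _ (spt_mono D.sub D.ht))) (by
      rw [Pi.sub_apply, Pi.smul_apply, smul_eq_mul, D.htf, mul_one, sub_self])) (fun x => by
    rw [Pi.sub_apply, Pi.smul_apply, smul_eq_mul, mul_sub, hcd x]
    have h2 := hct x
    linear_combination (-(d f)) * h2)
  rw [map_sub, map_smul, smul_eq_mul] at h1
  rw [thf_apply, h]
  linear_combination h1

/-- `thf` lies in `V(M)` if it lies in `V(M \ a)` -/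
theorem Tdat.inV (D : Tdat S p f a b T t) {θ : K} (h : InV S.U S.W (rm true a p) (thf T t f a θ)) :
    InV S.U S.W p (thf T t f a θ) := by
  intro c hc d hd hcd
  by_cases hca : c a = 0
  · exact D.a0 θ hc hd hcd hca
  · have hda : d a = 0 := (mul_eq_zero.1 (hcd a)).resolve_left hca
    exact h c hc d (te_spt hd hda) hcd

/-- `thf` always lies in `V(M \ a / b)` -/
theorem Tdat.b0 (D : Tdat S p f a b T t) (θ : K) : InV S.U S.W (rm true a (rm false b p)) (thf T t f a θ) := by
  intro c hc d hd hcd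
  have hc' : c ∈ van S.U p.1 := van_anti (Finset.subset_insert b p.1) hc
  have hd' : d ∈ spt S.W p.2 := spt_mono (Finset.erase_subset a p.2) hd
  by_cases hdf : d f = 0
  · exact D.f0 θ hc' hd' hcd hdf
  have hcf : c f = 0 := (mul_eq_zero.1 (hcd f)).resolve_right hdf
  have hca : c a = 0 := TP.van_eq_zero S D.hL.2 c (te_van hc hcf)
  exact D.a0 θ hc' hd' hcd hca

/-- if `T` extends to a minor which contains the triangle then some `thf` lies in `V` of it -/
theorem Tdat.node (D : Tdat S p f a b T t) {q : Itv E} (hq1 : p.1 ⊆ q.1)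
    (hq : insert f (insert a (insert b p.1)) ⊆ q.2) {T' : Fm K E} (hT' : InV S.U S.W q T')
    (h : EqOn S.U S.W (rm true f q) T' T) : ∃ θ : K, InV S.U S.W q (thf T t f a θ) := by
  have htq : t ∈ spt S.W q.2 := spt_mono hq D.ht
  obtain ⟨k, k', hk⟩ := lin_two (van S.U q.1) (T'.flip t) f a (fun c hc h1 h2 => by
    rw [LinearMap.flip_apply]
    exact hT' c hc t htq (te_dis S D.hL.1 (van_anti hq1 hc) h1 h2 D.ht))
  refine ⟨k', fun c hc d hd hcd => ?_⟩
  have e1 := hk c hc
  rw [LinearMap.flip_apply] at e1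
  have e2 := h c hc (d - d f • t) (te_spt (Submodule.sub_mem _ hd (Submodule.smul_mem _ _ htq)) (by
    rw [Pi.sub_apply, Pi.smul_apply, smul_eq_mul, D.htf, mul_one, sub_self]))
  rw [map_sub, map_sub, map_smul, map_smul, smul_eq_mul, smul_eq_mul, hT' c hc d hd hcd] at e2
  rw [thf_apply]
  have e3 := hcd f
  linear_combination -e2 - d f * e1 - k * e3

omit [Fintype E] [DecidableEq E] in
private theorem te_single [Fintype E] [DecidableEq E] (x : E) (k : K) (c d : E → K) :
    (dg (Pi.single x k) : Fm K E) c d = k * (c x * d x) := dg_single x k c d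

/-- **T2**: `Ex` for `M \ a` and `f` rigid in `M \ a / b` -/
theorem Tdat.t2 (D : Tdat S p f a b T t) {Ta : Fm K E} (hTa : InV S.U S.W (rm true a p) Ta)
    (he : EqOn S.U S.W (rm true f (rm true a p)) Ta T) (hrg : Rg S true f (rm true a (rm false b p))) :
    ∃ θ : K, InV S.U S.W p (thf T t f a θ) := by
  by_cases hd1 : ∃ d1 ∈ spt S.W (p.2.erase a), d1 f ≠ 0
  swap
  · refine ⟨0, D.inV fun c hc d hd hcd => ?_⟩
    refine D.f0 0 hc (spt_mono (Finset.erase_subset a p.2) hd) hcd ?_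
    by_contra hne
    exact hd1 ⟨d, hd, hne⟩
  obtain ⟨d0, hd0, hd0f⟩ := hd1
  obtain ⟨d1, hd1, hd1f⟩ : ∃ d1 ∈ spt S.W (p.2.erase a), d1 f = 1 :=
    ⟨(d0 f)⁻¹ • d0, Submodule.smul_mem _ _ hd0, by rw [Pi.smul_apply, smul_eq_mul, inv_mul_cancel₀ hd0f]⟩
  -- on `M \ a / b`
  have s1 : Sub (rm true a (rm false b p)) (rm true a p) := (rm_sub false b p).rm true a
  obtain ⟨k, hk⟩ := hrg (Ta - thf T t f a 0) ((hTa.mono s1).sub (D.b0 0)) (by
    intro c hc d hd
    have a1 := he.mono (s1.rm true f) c hc d hd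
    have a2 := thf_f (U := S.U) (W := S.W) (q := rm true a (rm false b p)) T t f a 0 c hc d hd
    rw [LinearMap.sub_apply, LinearMap.sub_apply, a1, a2, sub_self, LinearMap.zero_apply, LinearMap.zero_apply])
  obtain ⟨k1, k2, hl⟩ := lin_two (van S.U p.1) ((Ta - thf T t f a 0).flip d1) f b (fun c hc h1 h2 => by
    rw [LinearMap.flip_apply, hk c (te_van hc h2) d1 hd1, dg_single, h1]
    ring)
  obtain ⟨k3, k4, hb⟩ := lin_two (van S.U p.1) (LinearMap.proj b) f a (fun c hc h1 h2 => te_b0 S D.hL.1 hc h1 h2)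
  refine ⟨k2 * k4, D.inV fun c hc d hd hcd => ?_⟩
  have e0 := hTa c hc d hd hcd
  have e1 := he c hc (d - d f • d1) (te_spt (Submodule.sub_mem _ hd (Submodule.smul_mem _ _ hd1)) (by
    rw [Pi.sub_apply, Pi.smul_apply, smul_eq_mul, hd1f, mul_one, sub_self]))
  have e2 := hl c hc
  have e3 : c b = k3 * c f + k4 * c a := hb c hc
  have e4 := hcd f
  rw [map_sub, map_sub, map_smul, map_smul, smul_eq_mul, smul_eq_mul] at e1
  rw [LinearMap.flip_apply, LinearMap.sub_apply, LinearMap.sub_apply, thf_apply, hd1f] at e2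
  rw [thf_apply]
  linear_combination -e1 + e0 - d f * e2 - d f * k2 * e3 - (k1 + k2 * k3) * e4

theorem t2_ex (S : TP K E) {p : Itv E} {f a b : E} (hp : p.1 ⊆ p.2) (hf : f ∈ gs p) (ha : a ∈ gs p) (hb : b ∈ gs p)
    (hfa : f ≠ a) (hfb : f ≠ b) (hab : a ≠ b) (hL : Tri3 S.r p f a b) (hex : Ex S true f (rm true a p))
    (hrg : Rg S true f (rm true a (rm false b p))) : Ex S true f p := by
  intro T hT
  obtain ⟨t, ht, htf⟩ := tri_vec S hfa hfb hf hL.1
  have D : Tdat S p f a b T t := ⟨hp, hf, ha, hb, hfa, hfb, hab, hL, hT, ht, htf⟩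
  obtain ⟨Ta, hTa, he⟩ := hex T (hT.mono ((rm_sub true a p).rm true f))
  obtain ⟨θ, hθ⟩ := D.t2 hTa he hrg
  exact ⟨_, hθ, thf_f T t f a θ⟩

/-- **T2C**: the helper `e` is contracted, `e` rigid in `M \ a / b` -/
theorem t2c_ex (S : TP K E) {p : Itv E} {f a b e : E} (hp : p.1 ⊆ p.2) (hf : f ∈ gs p) (ha : a ∈ gs p) (hb : b ∈ gs p)
    (hfa : f ≠ a) (hfb : f ≠ b) (hab : a ≠ b) (hL : Tri3 S.r p f a b) (heb : S.r (insert e (insert b p.1)) = S.r (insert b p.1) + 1)
    (h1 : Ex S true f (rm false e p)) (h2 : Ex S false e (rm true a p)) (h3 : Rg S false e (rm true a (rm false b p))) :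
    Ex S true f p := by
  intro T hT
  obtain ⟨t, ht, htf⟩ := tri_vec S hfa hfb hf hL.1
  have D : Tdat S p f a b T t := ⟨hp, hf, ha, hb, hfa, hfb, hab, hL, hT, ht, htf⟩
  obtain ⟨Te, hTe, ee⟩ := h1 T (hT.mono ((rm_sub false e p).rm true f))
  obtain ⟨θ, hθ⟩ := D.node (q := rm false e p) (Finset.subset_insert _ _) D.sub hTe ee
  refine ⟨thf T t f a θ, D.inV ?_, thf_f T t f a θ⟩
  have s0 : Sub (rm false e (rm true a p)) (rm false e p) := (rm_sub true a p).rm false e
  obtain ⟨Ta, hTa, ea⟩ := h2 (thf T t f a θ) (hθ.mono s0)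
  have s1 : Sub (rm true a (rm false b p)) (rm true a p) := (rm_sub false b p).rm true a
  obtain ⟨k, hk⟩ := h3 (Ta - thf T t f a θ) ((hTa.mono s1).sub (D.b0 θ)) (by
    intro c hc d hd
    have a1 := ea.mono (s1.rm false e) c hc d hd
    rw [LinearMap.sub_apply, LinearMap.sub_apply, a1, sub_self, LinearMap.zero_apply, LinearMap.zero_apply])
  obtain ⟨c1, hc1, hc1e⟩ := S.van_one heb
  intro c hc d hd hcd
  have hc1' : c1 ∈ van S.U p.1 := van_anti (Finset.subset_insert b p.1) hc1
  have e0 := hTa c hc d hd hcd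
  have e1 := ea (c - c e • c1) (te_van (Submodule.sub_mem _ hc (Submodule.smul_mem _ _ hc1')) (by
    rw [Pi.sub_apply, Pi.smul_apply, smul_eq_mul, hc1e, mul_one, sub_self])) d hd
  have e2 := hk c1 hc1 d hd
  have e3 := hcd e
  rw [LinearMap.sub_apply, LinearMap.sub_apply, dg_single, hc1e] at e2
  rw [map_sub, map_sub, map_smul, map_smul, LinearMap.sub_apply, LinearMap.sub_apply, LinearMap.smul_apply, LinearMap.smul_apply,
    smul_eq_mul, smul_eq_mul] at e1
  linear_combination -e1 + e0 - c e * e2 - k * e3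

/-- **T2C'**: the helper `e` is contracted, `e` rigid in `M \ a, f`; a disjoint pair of `M \ a / b` with `e` in `c` and `f` in `d` -/
theorem t2c_ex' (S : TP K E) {p : Itv E} {f a b e : E} (hp : p.1 ⊆ p.2) (hf : f ∈ gs p) (ha : a ∈ gs p) (hb : b ∈ gs p)
    (hfa : f ≠ a) (hfb : f ≠ b) (hab : a ≠ b) (hL : Tri3 S.r p f a b)
    (h1 : Ex S true f (rm false e p)) (h2 : Ex S false e (rm true a p)) (h3 : Rg S false e (rm true f (rm true a p)))
    {c0 d0 : E → K} (hc0 : c0 ∈ van S.U (insert b p.1)) (hd0 : d0 ∈ spt S.W (p.2.erase a)) (hcd0 : ∀ x, c0 x * d0 x = 0)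
    (hce : c0 e ≠ 0) (hdf : d0 f ≠ 0) : Ex S true f p := by
  intro T hT
  obtain ⟨t, ht, htf⟩ := tri_vec S hfa hfb hf hL.1
  have D : Tdat S p f a b T t := ⟨hp, hf, ha, hb, hfa, hfb, hab, hL, hT, ht, htf⟩
  obtain ⟨Te, hTe, ee⟩ := h1 T (hT.mono ((rm_sub false e p).rm true f))
  obtain ⟨θ, hθ⟩ := D.node (q := rm false e p) (Finset.subset_insert _ _) D.sub hTe ee
  refine ⟨thf T t f a θ, D.inV ?_, thf_f T t f a θ⟩
  have s0 : Sub (rm false e (rm true a p)) (rm false e p) := (rm_sub true a p).rm false e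
  obtain ⟨Ta, hTa, ea⟩ := h2 (thf T t f a θ) (hθ.mono s0)
  have s1 : Sub (rm true f (rm true a p)) (rm true a p) := rm_sub true f _
  have s2 : Sub (rm true f (rm true a p)) (rm true f p) := (rm_sub true a p).rm true f
  obtain ⟨k, hk⟩ := h3 (Ta - thf T t f a θ) ((hTa.mono s1).sub ((hT.mono s2).congr (thf_f T t f a θ))) (by
    intro c hc d hd
    have a1 := ea.mono (s1.rm false e) c hc d hd
    rw [LinearMap.sub_apply, LinearMap.sub_apply, a1, sub_self, LinearMap.zero_apply, LinearMap.zero_apply])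
  obtain ⟨c1, hc1, hc1e⟩ : ∃ c1 ∈ van S.U p.1, c1 e = 1 :=
    ⟨(c0 e)⁻¹ • c0, Submodule.smul_mem _ _ (van_anti (Finset.subset_insert b p.1) hc0), by
      rw [Pi.smul_apply, smul_eq_mul, inv_mul_cancel₀ hce]⟩
  obtain ⟨m, hm⟩ := lin_one (spt S.W (p.2.erase a)) ((Ta - thf T t f a θ) c1 - k • LinearMap.proj e) f (fun d hd h0 => by
    have e5 := hk c1 hc1 d (te_spt hd h0)
    rw [LinearMap.sub_apply, LinearMap.smul_apply, LinearMap.proj_apply, smul_eq_mul, e5, dg_single, hc1e]
    ring)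
  -- the difference on `M \ a`
  have key : ∀ c ∈ van S.U p.1, ∀ d ∈ spt S.W (p.2.erase a), Ta c d - thf T t f a θ c d = c e * (k * d e + m * d f) := by
    intro c hc d hd
    have e1 := ea (c - c e • c1) (te_van (Submodule.sub_mem _ hc (Submodule.smul_mem _ _ hc1)) (by
      rw [Pi.sub_apply, Pi.smul_apply, smul_eq_mul, hc1e, mul_one, sub_self])) d hd
    have e2 := hm d hd
    rw [LinearMap.sub_apply, LinearMap.smul_apply, LinearMap.proj_apply, smul_eq_mul, LinearMap.sub_apply, LinearMap.sub_apply] at e2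
    rw [map_sub, map_sub, map_smul, map_smul, LinearMap.sub_apply, LinearMap.sub_apply, LinearMap.smul_apply, LinearMap.smul_apply,
      smul_eq_mul, smul_eq_mul] at e1
    linear_combination e1 + c e * e2
  have hm0 : m = 0 := by
    have e1 := key c0 (van_anti (Finset.subset_insert b p.1) hc0) d0 hd0
    have e2 := D.b0 θ c0 hc0 d0 hd0 hcd0
    have e3 := hTa c0 (van_anti (Finset.subset_insert b p.1) hc0) d0 hd0 hcd0
    have e4 : d0 e = 0 := (mul_eq_zero.1 (hcd0 e)).resolve_left hce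
    rw [e2, e3, e4] at e1
    have e5 : m * (c0 e * d0 f) = 0 := by linear_combination -e1
    exact (mul_eq_zero.1 e5).resolve_right (mul_ne_zero hce hdf)
  intro c hc d hd hcd
  have e0 := hTa c hc d hd hcd
  have e1 := key c hc d hd
  have e3 := hcd e
  rw [hm0] at e1
  linear_combination -e1 + e0 - k * e3

/-- **T2D**: the helper `e` is deleted, `e` rigid in `M \ a / b`; a disjoint pair with `b` in `c`, `e` in `d`, `d` outside of the triangle -/
theorem t2d_ex (S : TP K E) {p : Itv E} {f a b e : E} (hp : p.1 ⊆ p.2) (hf : f ∈ gs p) (ha : a ∈ gs p) (hb : b ∈ gs p)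
    (hfa : f ≠ a) (hfb : f ≠ b) (hab : a ≠ b) (hef : e ≠ f) (hea : e ≠ a) (heb : e ≠ b) (he : e ∈ gs p) (hL : Tri3 S.r p f a b)
    (h1 : Ex S true f (rm true e p)) (h2 : Ex S true e (rm true a p)) (h3 : Rg S true e (rm true a (rm false b p)))
    {c0 d0 : E → K} (hc0 : c0 ∈ van S.U p.1) (hd0 : d0 ∈ spt S.W ((p.2.erase a).erase f)) (hcd0 : ∀ x, c0 x * d0 x = 0)
    (hcb : c0 b ≠ 0) (hde : d0 e ≠ 0) : Ex S true f p := by
  intro T hT
  obtain ⟨t, ht, htf⟩ := tri_vec S hfa hfb hf hL.1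
  have D : Tdat S p f a b T t := ⟨hp, hf, ha, hb, hfa, hfb, hab, hL, hT, ht, htf⟩
  obtain ⟨Te, hTe, ee⟩ := h1 T (hT.mono ((rm_sub true e p).rm true f))
  have hsub : insert f (insert a (insert b p.1)) ⊆ (rm true e p).2 := by
    intro x hx
    refine Finset.mem_erase.2 ⟨?_, D.sub hx⟩
    rintro rfl
    simp only [Finset.mem_insert] at hx
    rcases hx with h | h | h | h
    · exact hef h
    · exact hea h
    · exact heb h
    · exact (Finset.mem_sdiff.1 he).2 h
  obtain ⟨θ, hθ⟩ := D.node (q := rm true e p) (Finset.Subset.refl _) hsub hTe ee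
  refine ⟨thf T t f a θ, D.inV ?_, thf_f T t f a θ⟩
  have s0 : Sub (rm true e (rm true a p)) (rm true e p) := (rm_sub true a p).rm true e
  obtain ⟨Ta, hTa, ea⟩ := h2 (thf T t f a θ) (hθ.mono s0)
  have s1 : Sub (rm true a (rm false b p)) (rm true a p) := (rm_sub false b p).rm true a
  obtain ⟨k, hk⟩ := h3 (Ta - thf T t f a θ) ((hTa.mono s1).sub (D.b0 θ)) (by
    intro c hc d hd
    have a1 := ea.mono (s1.rm true e) c hc d hd
    rw [LinearMap.sub_apply, LinearMap.sub_apply, a1, sub_self, LinearMap.zero_apply, LinearMap.zero_apply])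
  have hd0' : d0 ∈ spt S.W (p.2.erase a) := spt_mono (Finset.erase_subset _ _) hd0
  obtain ⟨d1, hd1, hd1e⟩ : ∃ d1 ∈ spt S.W (p.2.erase a), d1 e = 1 :=
    ⟨(d0 e)⁻¹ • d0, Submodule.smul_mem _ _ hd0', by rw [Pi.smul_apply, smul_eq_mul, inv_mul_cancel₀ hde]⟩
  obtain ⟨m, hm⟩ := lin_one (van S.U p.1) ((Ta - thf T t f a θ).flip d1 - k • LinearMap.proj e) b (fun c hc h0 => by
    have e5 := hk c (te_van hc h0) d1 hd1
    rw [LinearMap.sub_apply, LinearMap.smul_apply, LinearMap.proj_apply, smul_eq_mul, LinearMap.flip_apply, e5, dg_single, hd1e]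
    ring)
  have key : ∀ c ∈ van S.U p.1, ∀ d ∈ spt S.W (p.2.erase a), Ta c d - thf T t f a θ c d = d e * (k * c e + m * c b) := by
    intro c hc d hd
    have e1 := ea c hc (d - d e • d1) (te_spt (Submodule.sub_mem _ hd (Submodule.smul_mem _ _ hd1)) (by
      rw [Pi.sub_apply, Pi.smul_apply, smul_eq_mul, hd1e, mul_one, sub_self]))
    have e2 := hm c hc
    rw [LinearMap.sub_apply, LinearMap.smul_apply, LinearMap.proj_apply, smul_eq_mul, LinearMap.flip_apply, LinearMap.sub_apply,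
      LinearMap.sub_apply] at e2
    rw [map_sub, map_sub, map_smul, map_smul, smul_eq_mul, smul_eq_mul] at e1
    linear_combination e1 + d e * e2
  have hm0 : m = 0 := by
    have e1 := key c0 hc0 d0 hd0'
    have e2 := D.f0 θ hc0 (spt_mono (Finset.erase_subset _ _) hd0') hcd0 (hd0.2 f (Finset.notMem_erase _ _))
    have e3 := hTa c0 hc0 d0 hd0' hcd0
    have e4 : c0 e = 0 := (mul_eq_zero.1 (hcd0 e)).resolve_right hde
    rw [e2, e3, e4] at e1
    have e5 : m * (d0 e * c0 b) = 0 := by linear_combination -e1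
    exact (mul_eq_zero.1 e5).resolve_right (mul_ne_zero hde hcb)
  intro c hc d hd hcd
  have e0 := hTa c hc d hd hcd
  have e1 := key c hc d hd
  have e3 := hcd e
  rw [hm0] at e1
  linear_combination -e1 + e0 - k * e3

/-- **TT3**: the helper `e` is deleted, `e` rigid in `M \ a, f` and no coloop of it -/
theorem t2d_ex' (S : TP K E) {p : Itv E} {f a b e : E} (hp : p.1 ⊆ p.2) (hf : f ∈ gs p) (ha : a ∈ gs p) (hb : b ∈ gs p)
    (hfa : f ≠ a) (hfb : f ≠ b) (hab : a ≠ b) (hef : e ≠ f) (hea : e ≠ a) (heb : e ≠ b) (he : e ∈ gs p) (hL : Tri3 S.r p f a b)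
    (h1 : Ex S true f (rm true e p)) (h2 : Ex S true e (rm true a p)) (h3 : Rg S true e (rm true f (rm true a p)))
    (hco : S.r (((p.2.erase a).erase f).erase e) = S.r ((p.2.erase a).erase f)) : Ex S true f p := by
  intro T hT
  obtain ⟨t, ht, htf⟩ := tri_vec S hfa hfb hf hL.1
  have D : Tdat S p f a b T t := ⟨hp, hf, ha, hb, hfa, hfb, hab, hL, hT, ht, htf⟩
  obtain ⟨Te, hTe, ee⟩ := h1 T (hT.mono ((rm_sub true e p).rm true f))
  have hsub : insert f (insert a (insert b p.1)) ⊆ (rm true e p).2 := by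
    intro x hx
    refine Finset.mem_erase.2 ⟨?_, D.sub hx⟩
    rintro rfl
    simp only [Finset.mem_insert] at hx
    rcases hx with h | h | h | h
    · exact hef h
    · exact hea h
    · exact heb h
    · exact (Finset.mem_sdiff.1 he).2 h
  obtain ⟨θ, hθ⟩ := D.node (q := rm true e p) (Finset.Subset.refl _) hsub hTe ee
  refine ⟨thf T t f a θ, D.inV ?_, thf_f T t f a θ⟩
  have s0 : Sub (rm true e (rm true a p)) (rm true e p) := (rm_sub true a p).rm true e
  obtain ⟨Ta, hTa, ea⟩ := h2 (thf T t f a θ) (hθ.mono s0)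
  have s1 : Sub (rm true f (rm true a p)) (rm true a p) := rm_sub true f _
  have s2 : Sub (rm true f (rm true a p)) (rm true f p) := (rm_sub true a p).rm true f
  obtain ⟨k, hk⟩ := h3 (Ta - thf T t f a θ) ((hTa.mono s1).sub ((hT.mono s2).congr (thf_f T t f a θ))) (by
    intro c hc d hd
    have a1 := ea.mono (s1.rm true e) c hc d hd
    rw [LinearMap.sub_apply, LinearMap.sub_apply, a1, sub_self, LinearMap.zero_apply, LinearMap.zero_apply])
  have heS : e ∈ (p.2.erase a).erase f :=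
    Finset.mem_erase.2 ⟨hef, Finset.mem_erase.2 ⟨hea, (Finset.mem_sdiff.1 he).1⟩⟩
  obtain ⟨d1, hd1, hd1e⟩ := S.spt_one heS hco
  have hd1' : d1 ∈ spt S.W (p.2.erase a) := spt_mono (Finset.erase_subset _ _) hd1
  intro c hc d hd hcd
  have e0 := hTa c hc d hd hcd
  have e1 := ea c hc (d - d e • d1) (te_spt (Submodule.sub_mem _ hd (Submodule.smul_mem _ _ hd1')) (by
    rw [Pi.sub_apply, Pi.smul_apply, smul_eq_mul, hd1e, mul_one, sub_self]))
  have e2 := hk c hc d1 hd1
  have e3 := hcd e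
  rw [LinearMap.sub_apply, LinearMap.sub_apply, dg_single, hd1e] at e2
  rw [map_sub, map_sub, map_smul, map_smul, smul_eq_mul, smul_eq_mul] at e1
  linear_combination -e1 + e0 - d e * e2 - k * e3

end Pool.Agent.QU
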