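import Pool.Agent.QUR.SmC
import Pool.Agent.QUR.T2e

/-!
# QUR/SmD: same-type minimal 2-sides, the side contains a series pair
-/

set_option autoImplicit false

open QUB

namespace Pool.Agent.QU

open Pool.Agent.FRM

section

variable {K E : Type} [Field K] [Fintype E] [DecidableEq E]

/-- an element of a series pair is rigid for the contraction -/
theorem rg_ser (S : TP K E) {q : Itv E} (hq : q.1 ⊆ q.2) {a b : E} (ha : a ∈ gs q) (hb : b ∈ gs q) (hab : a ≠ b)
    (h1 : S.r (q.2.erase a) = S.r q.2) (h2 : S.r (q.2.erase b) = S.r q.2) (h3 : S.r ((q.2.erase a).erase b) = S.r q.2 - 1) :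
    Rg S false a q := by
  intro T hT h0
  have ha' := Finset.mem_sdiff.1 ha
  have hb' := Finset.mem_sdiff.1 hb
  obtain ⟨c0, hc0, hc0a⟩ := S.van_one (C := (q.2.erase a).erase b) (x := a) (by
    have e : insert a ((q.2.erase a).erase b) = q.2.erase b := by
      rw [Finset.erase_right_comm, Finset.insert_erase (Finset.mem_erase.2 ⟨hab, ha'.1⟩)]
    rw [e, h2, h3]
    ring)
  have hsub : q.1 ⊆ (q.2.erase a).erase b := fun x hx =>
    Finset.mem_erase.2 ⟨fun h => hb'.2 (h ▸ hx), Finset.mem_erase.2 ⟨fun h => ha'.2 (h ▸ hx), hq hx⟩⟩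
  have hc0q : c0 ∈ van S.U q.1 := van_anti hsub hc0
  obtain ⟨k, hk⟩ := lin_one (spt S.W q.2) (T c0) a (fun d hd hda => by
    refine hT c0 hc0q d hd fun x => ?_
    by_cases hxa : x = a
    · rw [hxa, hda, mul_zero]
    · by_cases hxb : x = b
      · have hd' : d ∈ spt S.W (q.2.erase a) := by
          refine ⟨hd.1, fun y hy => ?_⟩
          by_cases hya : y = a
          · rw [hya, hda]
          · exact hd.2 y fun h => hy (Finset.mem_erase.2 ⟨hya, h⟩)
        rw [hxb, S.spt_eq_zero (G := q.2.erase a) (x := b) (Finset.mem_erase.2 ⟨hab.symm, hb'.1⟩) (by rw [h3, h1]) d hd', mul_zero]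
      · by_cases hxq : x ∈ q.2
        · rw [hc0.2 x (Finset.mem_erase.2 ⟨hxb, Finset.mem_erase.2 ⟨hxa, hxq⟩⟩), zero_mul]
        · rw [hd.2 x hxq, mul_zero])
  refine ⟨k, fun c hc d hd => ?_⟩
  have e1 := h0 (c - c a • c0) ?_ d hd
  · rw [map_sub, map_smul, LinearMap.sub_apply, LinearMap.smul_apply, LinearMap.zero_apply, LinearMap.zero_apply, smul_eq_mul, hk d hd] at e1
    rw [dg_single]
    linear_combination e1
  · refine ⟨Submodule.sub_mem _ hc.1 (Submodule.smul_mem _ _ hc0.1), fun y hy => ?_⟩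
    rcases Finset.mem_insert.1 (show y ∈ insert a q.1 from hy) with rfl | hy
    · rw [Pi.sub_apply, Pi.smul_apply, hc0a, smul_eq_mul, mul_one, sub_self]
    · rw [Pi.sub_apply, Pi.smul_apply, hc.2 y hy, hc0q.2 y hy, smul_zero, sub_zero]

end

section

variable {E : Type} [Fintype E] [DecidableEq E] {S : TP F4 E} {p : Itv E}

/-- the ranks of a series pair of `M \ u \ v` -/
theorem sm_ser_rk (h : Cw S p) {u v a b : E} (mu : u ∈ gs p) (mv : v ∈ gs p) (huv : u ≠ v) (ma : a ∈ gs p) (mb : b ∈ gs p) (hab : a ≠ b)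
    (hau : a ≠ u) (hav : a ≠ v) (hbu : b ≠ u) (hbv : b ≠ v) (hl : QUB.lam S.r (rm true u (rm true v p)) {a, b} ≤ 1) :
    S.r ((p.2.erase v).erase u) = S.r p.2 ∧ S.r (((p.2.erase v).erase u).erase a) = S.r p.2 ∧
      S.r (((p.2.erase v).erase u).erase b) = S.r p.2 ∧ S.r ((((p.2.erase v).erase u).erase a).erase b) = S.r p.2 - 1 := by
  have hr : Rk S.r := S.rk
  have k1 := h.nt.del hr ma mu mv hau hav huv
  have k2 := h.nt.del hr mb mu mv hbu hbv huv
  have k3 := h.nt.ins hr mu ma mb hau.symm hbu.symm hab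
  have hl' : S.r (p.1 ∪ {a, b}) + S.r ((p.2.erase v).erase u \ {a, b}) - S.r ((p.2.erase v).erase u) - S.r p.1 ≤ 1 := hl
  have e1 : p.1 ∪ {a, b} = insert a (insert b p.1) := by
    ext y
    simp only [Finset.mem_union, Finset.mem_insert, Finset.mem_singleton]
    tauto
  have e2 : (p.2.erase v).erase u \ {a, b} = (((p.2.erase v).erase u).erase a).erase b := by
    ext y
    simp only [Finset.mem_sdiff, Finset.mem_erase, Finset.mem_insert, Finset.mem_singleton]
    tauto
  rw [e1, e2] at hl'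
  have hb2 : b ∈ ((p.2.erase v).erase u).erase a :=
    Finset.mem_erase.2 ⟨hab.symm, Finset.mem_erase.2 ⟨hbu, Finset.mem_erase.2 ⟨hbv, (Finset.mem_sdiff.1 mb).1⟩⟩⟩
  have u1 := hr.unit ((((p.2.erase v).erase u).erase a).erase b) b
  rw [Finset.insert_erase hb2] at u1
  refine ⟨k1.2.1, k1.1, k2.1, ?_⟩
  omega

/-- an element of a series pair can be contracted -/
theorem sm_ser_cn (h : Cw S p) {u v a b : E} (mu : u ∈ gs p) (mv : v ∈ gs p) (huv : u ≠ v) (ma : a ∈ gs p) (mb : b ∈ gs p) (hab : a ≠ b)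
    (hau : a ≠ u) (hav : a ≠ v) (hbu : b ≠ u) (hbv : b ≠ v) (hl : QUB.lam S.r (rm true u (rm true v p)) {a, b} ≤ 1) :
    Cn S.r (rm false a (rm true u (rm true v p))) := by
  have hr : Rk S.r := S.rk
  obtain ⟨k1, k2, k3, k4⟩ := sm_ser_rk h mu mv huv ma mb hab hau hav hbu hbv hl
  have hN : gs (rm true u (rm true v p)) = ((gs p).erase v).erase u := gs_rm2 _ _ _ _ _
  have hwv : (rm true v p).1 ⊆ (rm true v p).2 := QUB.wf_rm h.hp mv
  have huv' : u ∈ gs (rm true v p) := by
    rw [gs_rm]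
    exact Finset.mem_erase.2 ⟨huv, mu⟩
  have hwN : (rm true u (rm true v p)).1 ⊆ (rm true u (rm true v p)).2 := QUB.wf_rm hwv huv'
  have haN : a ∈ gs (rm true u (rm true v p)) := by
    rw [hN]
    exact Finset.mem_erase.2 ⟨hau, Finset.mem_erase.2 ⟨hav, ma⟩⟩
  have hbN : b ∈ gs (rm true u (rm true v p)) := by
    rw [hN]
    exact Finset.mem_erase.2 ⟨hbu, Finset.mem_erase.2 ⟨hbv, mb⟩⟩
  have cN : Cn S.r (rm true u (rm true v p)) := h.cn2 mu mv huv true true
  rcases QUB.tutte hr hwN haN cN with c | c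
  · exfalso
    have hcard : 10 ≤ (gs p).card := h.hn
    obtain ⟨z, hz⟩ : (((((gs p).erase v).erase u).erase a).erase b).Nonempty := by
      rw [← Finset.card_pos]
      have h1 := Finset.pred_card_le_card_erase (s := (((gs p).erase v).erase u).erase a) (a := b)
      have h2 := Finset.pred_card_le_card_erase (s := ((gs p).erase v).erase u) (a := a)
      have h3 := Finset.pred_card_le_card_erase (s := (gs p).erase v) (a := u)
      have h4 := Finset.pred_card_le_card_erase (s := gs p) (a := v)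
      omega
    have hz1 := Finset.mem_erase.1 hz
    have g1 : gs (rm true a (rm true u (rm true v p))) = (((gs p).erase v).erase u).erase a := by
      rw [show gs (rm true a (rm true u (rm true v p))) = (gs (rm true u (rm true v p))).erase a from QUB.gs_rm _ _ _, hN]
    have c1 := c {b} (by
      rw [show gs (QUB.rm true a (rm true u (rm true v p))) = _ from g1, Finset.singleton_subset_iff]
      exact Finset.mem_erase.2 ⟨hab.symm, Finset.mem_erase.2 ⟨hbu, Finset.mem_erase.2 ⟨hbv, mb⟩⟩⟩) (Finset.singleton_nonempty b)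
      ⟨z, by
        rw [show gs (QUB.rm true a (rm true u (rm true v p))) = _ from g1, Finset.mem_sdiff, Finset.mem_singleton]
        exact ⟨hz1.2, hz1.1⟩⟩
    have c1' : 1 ≤ S.r (p.1 ∪ {b}) + S.r ((((p.2.erase v).erase u).erase a) \ {b}) - S.r (((p.2.erase v).erase u).erase a) - S.r p.1 := c1
    have e1 : p.1 ∪ {b} = insert b p.1 := by
      rw [Finset.union_comm, ← Finset.insert_eq]
    rw [e1, Finset.sdiff_singleton_eq_erase] at c1'
    have u1 := hr.unit p.1 b
    omega
  · exact c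

/-- a series pair in the side: the form -/
theorem sm_serT (h : Cw S p) {u v a b : E} {X : Finset E} (hM : Md S.r p true u true v X) (hmin : MdMin S.r p X.card) (ha : a ∈ X)
    (hb : b ∈ X) (hab : a ≠ b) (hl : QUB.lam S.r (rm true u (rm true v p)) {a, b} ≤ 1) :
    ∃ T : Fm F4 E, InV S.U S.W (rm true u p) T ∧ InV S.U S.W (rm true v p) T ∧
      ∀ q, Sub q (rm true u p) → Rich S.r q → ¬ EqD S.U S.W q T 0 := by
  obtain ⟨a1, a2, a3⟩ := hM.mX a ha
  obtain ⟨b1, b2, b3⟩ := hM.mX b hb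
  have cn := sm_ser_cn h hM.ma hM.mb hM.ab a1 b1 hab a2 a3 b2 b3 hl
  obtain ⟨k1, k2, k3, k4⟩ := sm_ser_rk h hM.ma hM.mb hM.ab a1 b1 hab a2 a3 b2 b3 hl
  obtain ⟨o1, o2⟩ := sm_clean2 h hM hmin ha cn
  refine sm_rig h hM.ma hM.mb a1 a2.symm a3.symm o1 o2 (hM.rich' h.hp ha cn) ?_
  refine rg_ser S (hM.wf h.hp) (hM.sub ha) (hM.sub hb) hab ?_ ?_ ?_
  · show S.r (((p.2.erase v).erase u).erase a) = S.r ((p.2.erase v).erase u)
    omega
  · show S.r (((p.2.erase v).erase u).erase b) = S.r ((p.2.erase v).erase u)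
    omega
  · show S.r ((((p.2.erase v).erase u).erase a).erase b) = S.r ((p.2.erase v).erase u) - 1
    omega

/-- the form lies in `V` after the contraction of an element of a series pair -/
theorem sm_serV (h : Cw S p) {u v a b : E} {X : Finset E} (hM : Md S.r p true u true v X) (hmin : MdMin S.r p X.card) (ha : a ∈ X)
    (hb : b ∈ X) (hab : a ≠ b) (hl : QUB.lam S.r (rm true u (rm true v p)) {a, b} ≤ 1) {T : Fm F4 E}
    (i1 : InV S.U S.W (rm true u p) T) (i2 : InV S.U S.W (rm true v p) T) : InV S.U S.W (rm false a p) T := by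
  obtain ⟨a1, a2, a3⟩ := hM.mX a ha
  obtain ⟨b1, b2, b3⟩ := hM.mX b hb
  have cn := sm_ser_cn h hM.ma hM.mb hM.ab a1 b1 hab a2 a3 b2 b3 hl
  obtain ⟨o1, o2⟩ := sm_clean2 h hM hmin ha cn
  have R := hM.rich' h.hp ha cn
  have e : rm false a (rm true u (rm true v p)) = rm true u (rm true v (rm false a p)) := by
    rw [rm_comm false true a u, rm_comm false true a v]
  rw [e] at cn R
  exact h.cv.third hM.ma hM.mb a1 hM.ab a2.symm a3.symm i1 i2 o1 o2 cn R

end

end Pool.Agent.QU
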