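import Pool.Agent.QUT.Lfd

/-!
# QUR/SmE: no bad disjoint pair in the presence of three series classes
-/

set_option autoImplicit false

open QUB

namespace Pool.Agent.QU

open Pool.Agent.FRM
open Module (finrank)

variable {E : Type} [Fintype E] [DecidableEq E]

/-- the rank does not drop when an element of the support of a relation is removed -/
theorem rk_of_rel (S : TP F4 E) {G : Finset E} {d : E → F4} {u : E} (hu : u ∈ G) (hd : d ∈ spt S.W G) (hdu : d u ≠ 0) :
    S.r (G.erase u) = S.r G := by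
  have h1 := S.hW G
  have h2 := S.hW (G.erase u)
  have hlt : spt S.W (G.erase u) < spt S.W G := by
    refine lt_of_le_of_ne (spt_mono (Finset.erase_subset _ _)) fun h => ?_
    rw [← h] at hd
    exact hdu (hd.2 u (Finset.notMem_erase u G))
  have h3 := Submodule.finrank_lt_finrank_of_lt hlt
  have h4 : (G.erase u).card = G.card - 1 := Finset.card_erase_of_mem hu
  have h5 : 0 < G.card := Finset.card_pos.2 ⟨u, hu⟩
  have h6 := S.rk.mono (G.erase u) G (Finset.erase_subset _ _)
  omega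

theorem end3 (S : TP F4 E) {p : Itv E} (hp : p.1 ⊆ p.2) {u v : E} (mu : u ∈ gs p) (mv : v ∈ gs p) (huv : u ≠ v) {P : Fin 3 → Finset E}
    (hP : ∀ i, P i ⊆ gs p) (hne : ∀ i, (P i).Nonempty) (hd : ∀ i j, i ≠ j → Disjoint (P i) (P j)) (hu : ∀ i, u ∉ P i) (hv : ∀ i, v ∉ P i)
    (hk : ∀ i, ∀ a ∈ P i, S.r (insert a (p.2 \ insert u (insert v (P i)))) = S.r (p.2 \ insert u (insert v (P i))) + 1) {T : Fm F4 E}
    (iu : InV S.U S.W (rm true u p) T) (iv : InV S.U S.W (rm true v p) T) (ip : ∀ i, ∀ a ∈ P i, InV S.U S.W (rm false a p) T) :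
    InV S.U S.W p T := by
  intro c hc d hdd hcd
  by_contra hne0
  have hr := S.rk
  have du : d u ≠ 0 := by
    intro h
    refine hne0 (iu c hc d ⟨hdd.1, fun x hx => ?_⟩ hcd)
    by_cases hxu : x = u
    · rw [hxu]; exact h
    · exact hdd.2 x fun h1 => hx (Finset.mem_erase.2 ⟨hxu, h1⟩)
  have dv : d v ≠ 0 := by
    intro h
    refine hne0 (iv c hc d ⟨hdd.1, fun x hx => ?_⟩ hcd)
    by_cases hxv : x = v
    · rw [hxv]; exact h
    · exact hdd.2 x fun h1 => hx (Finset.mem_erase.2 ⟨hxv, h1⟩)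
  -- the values of `T` at `d`
  have key : ∀ c' ∈ van S.U p.1, (∀ x, c' x * d x = 0) → ∀ i, ∀ a ∈ P i, c' a = 0 → T c' d = 0 := by
    intro c' hc' hcd' i a ha h0
    refine ip i a ha c' ⟨hc'.1, fun x hx => ?_⟩ d hdd hcd'
    rcases Finset.mem_insert.1 hx with rfl | hx
    · exact h0
    · exact hc'.2 x hx
  have ca : ∀ i, ∀ a ∈ P i, c a ≠ 0 := fun i a ha h0 => hne0 (key c hc hcd i a ha h0)
  have da : ∀ i, ∀ a ∈ P i, d a = 0 := by
    intro i a ha
    rcases mul_eq_zero.1 (hcd a) with h | h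
    · exact absurd h (ca i a ha)
    · exact h
  choose a ha using hne
  set D : Finset E := p.1 ∪ Finset.univ.filter (fun x => d x ≠ 0) with hD
  have memD : ∀ x, x ∈ D ↔ x ∈ p.1 ∨ d x ≠ 0 := by
    intro x
    rw [hD, Finset.mem_union, Finset.mem_filter]
    simp
  have vanD : ∀ c', c' ∈ van S.U D → c' ∈ van S.U p.1 ∧ ∀ x, c' x * d x = 0 := by
    intro c' hc'
    refine ⟨⟨hc'.1, fun x hx => hc'.2 x ((memD x).2 (Or.inl hx))⟩, fun x => ?_⟩
    by_cases h : d x = 0
    · rw [h, mul_zero]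
    · rw [hc'.2 x ((memD x).2 (Or.inr h)), zero_mul]
  have hcD : c ∈ van S.U D := by
    refine ⟨hc.1, fun x hx => ?_⟩
    rcases (memD x).1 hx with h | h
    · exact hc.2 x h
    · rcases mul_eq_zero.1 (hcd x) with h1 | h1
      · exact h1
      · exact absurd h1 h
  -- parallel
  have par : ∀ c' ∈ van S.U D, c' (a 0) = 0 → ∀ i, c' (a i) = 0 := by
    intro c' hc' h0 i
    by_contra hi
    obtain ⟨h1, h2⟩ := vanD c' hc'
    have h3 : T c' d = 0 := key c' h1 h2 0 (a 0) (ha 0) h0
    set k : F4 := c (a i) * (c' (a i))⁻¹ with hk'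
    have h4 : c - k • c' ∈ van S.U D := Submodule.sub_mem _ hcD (Submodule.smul_mem _ _ hc')
    obtain ⟨h5, h6⟩ := vanD _ h4
    have h7 : (c - k • c') (a i) = 0 := by
      rw [Pi.sub_apply, Pi.smul_apply, smul_eq_mul, hk', mul_assoc, inv_mul_cancel₀ hi, mul_one, sub_self]
    have h8 := key _ h5 h6 i (a i) (ha i) h7
    rw [map_sub, LinearMap.sub_apply, map_smul, LinearMap.smul_apply, h3, smul_zero, sub_zero] at h8
    exact hne0 h8
  -- ranks
  have hle : van S.U (insert (a 0) D) ≤ van S.U (insert (a 2) (insert (a 1) (insert (a 0) D))) := by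
    intro c' hc'
    have h1 : c' ∈ van S.U D := van_anti (Finset.subset_insert _ _) hc'
    have h0 : c' (a 0) = 0 := hc'.2 _ (Finset.mem_insert_self _ _)
    refine ⟨hc'.1, fun x hx => ?_⟩
    simp only [Finset.mem_insert] at hx
    rcases hx with rfl | rfl | rfl | hx
    · exact par c' h1 h0 2
    · exact par c' h1 h0 1
    · exact h0
    · exact h1.2 x hx
  have r1 := S.hU (insert (a 0) D)
  have r2 := S.hU (insert (a 2) (insert (a 1) (insert (a 0) D)))
  have r3 := Submodule.finrank_mono hle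
  have uD : u ∈ D := (memD u).2 (Or.inr du)
  have dD : d ∈ spt S.W D := ⟨hdd.1, fun x hx => by
    by_contra h
    exact hx ((memD x).2 (Or.inr h))⟩
  have r4 := rk_of_rel S uD dD du
  have gp : ∀ i, ∀ x ∈ P i, x ∈ p.2 ∧ x ∉ p.1 := fun i x hx => Finset.mem_sdiff.1 (hP i hx)
  have D2 : D ⊆ p.2 := by
    intro x hx
    rcases (memD x).1 hx with h | h
    · exact hp h
    · by_contra h1
      exact h (hdd.2 x h1)
  have u1 : u ∉ p.1 := (Finset.mem_sdiff.1 mu).2
  have v1 : v ∉ p.1 := (Finset.mem_sdiff.1 mv).2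
  set D0 := (D.erase u).erase v with hD0
  have r5 := hr.unit D0 v
  have r6 := hr.mono (D.erase u) (insert v D0) (by
    intro x hx
    by_cases h : x = v
    · rw [h]; exact Finset.mem_insert_self _ _
    · exact Finset.mem_insert_of_mem (Finset.mem_erase.2 ⟨h, hx⟩))
  have PD : ∀ i, ∀ x ∈ P i, x ∉ D := by
    intro i x hx h
    rcases (memD x).1 h with h | h
    · exact (gp i x hx).2 h
    · exact h (da i x hx)
  have sub0 : ∀ i, D0 ⊆ p.2 \ insert u (insert v (P i)) := by
    intro i x hx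
    have h1 := Finset.mem_erase.1 hx
    have h2 := Finset.mem_erase.1 h1.2
    refine Finset.mem_sdiff.2 ⟨D2 h2.2, fun h => ?_⟩
    rcases Finset.mem_insert.1 h with h | h
    · exact h2.1 h
    · rcases Finset.mem_insert.1 h with h | h
      · exact h1.1 h
      · exact PD i x h h2.2
  have suba : ∀ i j, i ≠ j → a j ∈ p.2 \ insert u (insert v (P i)) := by
    intro i j hij
    refine Finset.mem_sdiff.2 ⟨(gp j _ (ha j)).1, fun h => ?_⟩
    rcases Finset.mem_insert.1 h with h | h
    · exact hu j (h ▸ ha j)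
    · rcases Finset.mem_insert.1 h with h | h
      · exact hv j (h ▸ ha j)
      · exact Finset.disjoint_left.1 (hd i j hij) h (ha j)
  have up : ∀ i (X : Finset E), X ⊆ p.2 \ insert u (insert v (P i)) → S.r X + 1 ≤ S.r (insert (a i) X) := by
    intro i X hX
    have h1 := marg hr hX (a i)
    have h2 := hk i (a i) (ha i)
    omega
  have t0 := up 0 D0 (sub0 0)
  have t1 := up 1 (insert (a 0) D0) (Finset.insert_subset (suba 1 0 (by decide)) (sub0 1))
  have t2 := up 2 (insert (a 1) (insert (a 0) D0)) (Finset.insert_subset (suba 2 1 (by decide))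
    (Finset.insert_subset (suba 2 0 (by decide)) (sub0 2)))
  have t3 := hr.mono (insert (a 2) (insert (a 1) (insert (a 0) D0))) (insert (a 2) (insert (a 1) (insert (a 0) D)))
    (Finset.insert_subset_insert _ (Finset.insert_subset_insert _ (Finset.insert_subset_insert _
      ((Finset.erase_subset _ _).trans (Finset.erase_subset _ _)))))
  have t4 := hr.unit D (a 0)
  omega

end Pool.Agent.QU
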