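import Pool.Agent.QUT.Lfc

/-!
# QUR/SmF: three disjoint two-sides inside a minimal heavy side without an element both of whose removals are connected
-/

set_option autoImplicit false

open QUB

namespace Pool.Agent.QU

variable {E : Type} [DecidableEq E]

theorem three_sides {r : Finset E → ℤ} (hr : Rk r) {q : Itv E} (hq : q.1 ⊆ q.2) (hc : Cn r q) {X : Finset E} (hX : X ⊆ gs q)
    (hl : QUB.lam r q X ≤ 1) (hv : Hv r q X) (hXc : (gs q \ X).Nonempty)
    (hmin : ∀ Z ⊆ X, QUB.lam r q Z ≤ 1 → Hv r q Z → Z = X) (hno : ∀ x ∈ X, ∃ s, ¬ Cn r (rm s x q)) :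
    ∃ P : Fin 3 → Finset E, (∀ i, P i ⊆ X) ∧ (∀ i, 2 ≤ (P i).card) ∧ (∀ i, QUB.lam r q (P i) ≤ 1) ∧
      ∀ i j, i ≠ j → Disjoint (P i) (P j) := by
  classical
  obtain ⟨N, hN, hN3⟩ := hv
  have hNg : N ⊆ gs q := hN.sub
  have hN4 : N.card = 4 := hN.1
  have hXne : X.Nonempty := by
    obtain ⟨y, hy⟩ : (N ∩ X).Nonempty := Finset.card_pos.1 (by omega)
    exact ⟨y, (Finset.mem_inter.1 hy).2⟩
  -- one side for every element of the line
  have one : ∀ n ∈ N ∩ X, ∃ Z ⊆ X, 2 ≤ Z.card ∧ QUB.lam r q Z ≤ 1 ∧ N ∩ Z = {n} := by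
    intro n hn
    obtain ⟨nN, nX⟩ := Finset.mem_inter.1 hn
    have ng : n ∈ gs q := hX nX
    obtain ⟨s, hs⟩ := hno n nX
    unfold Cn at hs
    push Not at hs
    obtain ⟨P0, hP0, nP0, nQ0, lP0⟩ := hs
    have w1 : (rm s n q).1 ⊆ (rm s n q).2 := wf_rm hq ng
    have lQ0 : QUB.lam r (rm s n q) (gs (rm s n q) \ P0) < 1 := by rw [lam_compl r w1 hP0]; exact lP0
    rw [gs_rm] at hP0 nQ0 lQ0
    -- `P'` contains the other three elements
    have main : ∀ P' Q' : Finset E, P' ⊆ (gs q).erase n → Q' = (gs q).erase n \ P' → P'.Nonempty → Q'.Nonempty →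
        QUB.lam r (rm s n q) P' < 1 → QUB.lam r (rm s n q) Q' < 1 → 3 ≤ (N ∩ P').card →
        ∃ Z ⊆ X, 2 ≤ Z.card ∧ QUB.lam r q Z ≤ 1 ∧ N ∩ Z = {n} := by
      intro P' Q' hP' hQ' nP' nQ' lP' lQ' h3
      have hQs : Q' ⊆ (gs q).erase n := by rw [hQ']; exact Finset.sdiff_subset
      have hPg : P' ⊆ gs q := hP'.trans (Finset.erase_subset _ _)
      have hQg : Q' ⊆ gs q := hQs.trans (Finset.erase_subset _ _)
      have nP : n ∉ P' := fun h => (Finset.mem_erase.1 (hP' h)).1 rfl
      have nQ : n ∉ Q' := fun h => (Finset.mem_erase.1 (hQs h)).1 rfl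
      have l1 := lam_le_rm hr (t := s) ng hP'
      have l2 := lam_le_rm' hr (t := s) ng hQs
      -- `N` does not meet `Q'`
      have hNP : N ∩ P' = N.erase n := by
        refine Finset.eq_of_subset_of_card_le ?_ ?_
        · intro y hy
          rw [Finset.mem_inter] at hy
          exact Finset.mem_erase.2 ⟨fun h => nP (h ▸ hy.2), hy.1⟩
        · rw [Finset.card_erase_of_mem nN]
          omega
      have hNQ : ∀ y ∈ N, y ∉ Q' := by
        intro y hy hyQ
        have h1 : y ≠ n := fun h => nQ (h ▸ hyQ)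
        have h2 : y ∈ N ∩ P' := by rw [hNP]; exact Finset.mem_erase.2 ⟨h1, hy⟩
        rw [hQ'] at hyQ
        exact (Finset.mem_sdiff.1 hyQ).2 (Finset.mem_inter.1 h2).2
      -- outside
      have hout : (gs q \ (X ∪ insert n Q')).Nonempty := by
        by_contra hcon
        rw [Finset.not_nonempty_iff_eq_empty, Finset.sdiff_eq_empty_iff_subset] at hcon
        have hPX : P' ⊆ X := by
          intro y hy
          rcases Finset.mem_union.1 (hcon (hPg hy)) with h | h
          · exact h
          · rcases Finset.mem_insert.1 h with h | h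
            · exact absurd (h ▸ hy) nP
            · rw [hQ'] at h
              exact absurd hy (Finset.mem_sdiff.1 h).2
        have h1 := hmin P' hPX (by omega) ⟨N, hN, h3⟩
        exact nP (h1 ▸ nX)
      refine ⟨X ∩ insert n Q', Finset.inter_subset_left, ?_, ?_, ?_⟩
      · by_contra hcard
        have hXQ : ∀ y ∈ X, y ∉ Q' := by
          intro y hy hyQ
          apply hcard
          have h1 : ({n, y} : Finset E) ⊆ X ∩ insert n Q' := by
            intro v hv
            simp only [Finset.mem_insert, Finset.mem_singleton] at hv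
            simp only [Finset.mem_inter, Finset.mem_insert]
            rcases hv with rfl | rfl
            · exact ⟨nX, Or.inl rfl⟩
            · exact ⟨hy, Or.inr hyQ⟩
          have h2 := Finset.card_le_card h1
          have h3 : n ≠ y := fun h => nQ (by rw [h]; exact hyQ)
          rwa [Finset.card_pair h3] at h2
        have e1 : X ∩ P' = X.erase n := by
          ext y
          simp only [Finset.mem_inter, Finset.mem_erase]
          constructor
          · rintro ⟨a, b⟩
            exact ⟨fun h => nP (by rw [← h]; exact b), a⟩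
          · rintro ⟨a, b⟩
            refine ⟨b, ?_⟩
            by_contra hyP
            exact hXQ y b (by rw [hQ']; exact Finset.mem_sdiff.2 ⟨Finset.mem_erase.2 ⟨a, hX b⟩, hyP⟩)
        have l3 : QUB.lam r q (X ∩ P') ≤ 1 := by
          refine unc1 hr hc hX hl hPg (by omega) hXne ?_
          obtain ⟨y, hy⟩ := nQ'
          refine ⟨y, Finset.mem_sdiff.2 ⟨hQg hy, fun h => ?_⟩⟩
          rcases Finset.mem_union.1 h with h | h
          · exact hXQ y h hy
          · rw [hQ'] at hy
            exact (Finset.mem_sdiff.1 hy).2 h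
        have h4 : (N ∩ (X ∩ P')).card = (N ∩ X).card - 1 := by
          rw [e1]
          have : N ∩ X.erase n = (N ∩ X).erase n := by
            ext y
            simp only [Finset.mem_inter, Finset.mem_erase]
            tauto
          rw [this, Finset.card_erase_of_mem hn]
        have h5 := F1 hr hq (Finset.inter_subset_left.trans hX) l3 hN
        have h6 := hmin (X ∩ P') Finset.inter_subset_left l3 ⟨N, hN, by omega⟩
        rw [e1] at h6
        have h7 : n ∈ X.erase n := by rw [h6]; exact nX
        exact Finset.notMem_erase n X h7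
      · exact unc1 hr hc hX hl (Finset.insert_subset ng hQg) (by omega) hXne hout
      · ext y
        simp only [Finset.mem_inter, Finset.mem_insert, Finset.mem_singleton]
        constructor
        · rintro ⟨a, -, b | b⟩
          · exact b
          · exact absurd b (hNQ y a)
        · rintro rfl
          exact ⟨nN, nX, Or.inl rfl⟩
    -- which side
    have l1 := lam_le_rm hr (t := s) ng hP0
    have l2 := lam_le_rm' hr (t := s) ng hP0
    have f1 := F1 hr hq (hP0.trans (Finset.erase_subset _ _)) (by omega : QUB.lam r q P0 ≤ 1) hN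
    have f2 := F1 hr hq (Finset.insert_subset ng (hP0.trans (Finset.erase_subset _ _))) (by omega : QUB.lam r q (insert n P0) ≤ 1) hN
    have nP : n ∉ P0 := fun h => (Finset.mem_erase.1 (hP0 h)).1 rfl
    have c1 : (N ∩ insert n P0).card = (N ∩ P0).card + 1 := by
      have : N ∩ insert n P0 = insert n (N ∩ P0) := by
        ext y
        simp only [Finset.mem_inter, Finset.mem_insert]
        constructor
        · rintro ⟨a, b | b⟩
          · exact Or.inl b
          · exact Or.inr ⟨a, b⟩
        · rintro (rfl | ⟨a, b⟩)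
          · exact ⟨nN, Or.inl rfl⟩
          · exact ⟨a, Or.inr b⟩
      rw [this, Finset.card_insert_of_notMem (fun h => nP (Finset.mem_inter.1 h).2)]
    have c2 : (N ∩ P0).card + (N ∩ ((gs q).erase n \ P0)).card = 3 := by
      have e1 : N ∩ P0 ∪ N ∩ ((gs q).erase n \ P0) = N.erase n := by
        ext y
        simp only [Finset.mem_union, Finset.mem_inter, Finset.mem_sdiff, Finset.mem_erase]
        have h1 := @hNg y
        have h2 := @hP0 y
        rw [Finset.mem_erase] at h2
        tauto
      have e2 : Disjoint (N ∩ P0) (N ∩ ((gs q).erase n \ P0)) := by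
        rw [Finset.disjoint_left]
        intro y h1 h2
        rw [Finset.mem_inter] at h1 h2
        exact (Finset.mem_sdiff.1 h2.2).2 h1.2
      rw [← Finset.card_union_of_disjoint e2, e1, Finset.card_erase_of_mem nN]
      omega
    by_cases h3 : 3 ≤ (N ∩ P0).card
    · exact main P0 _ hP0 rfl nP0 nQ0 lP0 lQ0 h3
    · refine main _ P0 Finset.sdiff_subset ?_ nQ0 nP0 lQ0 lP0 (by omega)
      rw [Finset.sdiff_sdiff_eq_self hP0]
  choose! Z hZ using one
  obtain ⟨K, hK, hK3⟩ := Finset.exists_subset_card_eq hN3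
  obtain ⟨a, b, c, hab, hac, hbc, rfl⟩ := Finset.card_eq_three.1 hK3
  have ma : a ∈ N ∩ X := hK (by simp)
  have mb : b ∈ N ∩ X := hK (by simp)
  have mc : c ∈ N ∩ X := hK (by simp)
  have dis : ∀ m ∈ N ∩ X, ∀ n ∈ N ∩ X, m ≠ n → Disjoint (Z m) (Z n) := by
    intro m hm n hn hmn
    rw [Finset.disjoint_iff_inter_eq_empty]
    by_contra hne
    obtain ⟨z1, z2, z3, z4⟩ := hZ m hm
    obtain ⟨y1, y2, y3, y4⟩ := hZ n hn
    have h1 := lam_sub (p := q) hr (Z m) (Z n)
    have h2 := hc (Z m ∩ Z n) ((Finset.inter_subset_left.trans z1).trans hX) (Finset.nonempty_iff_ne_empty.2 hne) (by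
      obtain ⟨e, he⟩ := hXc
      rw [Finset.mem_sdiff] at he
      exact ⟨e, Finset.mem_sdiff.2 ⟨he.1, fun h => he.2 (z1 (Finset.mem_inter.1 h).1)⟩⟩)
    have h3 := F1 hr hq (Finset.union_subset (z1.trans hX) (y1.trans hX)) (by omega : QUB.lam r q (Z m ∪ Z n) ≤ 1) hN
    have h4 : (N ∩ (Z m ∪ Z n)).card = 2 := by
      rw [Finset.inter_union_distrib_left, z4, y4]
      rw [show ({m} ∪ {n} : Finset E) = {m, n} from rfl, Finset.card_pair hmn]
    omega
  refine ⟨fun i => if i = 0 then Z a else if i = 1 then Z b else Z c, ?_, ?_, ?_, ?_⟩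
  · intro i
    fin_cases i
    · exact (hZ a ma).1
    · exact (hZ b mb).1
    · exact (hZ c mc).1
  · intro i
    fin_cases i
    · exact (hZ a ma).2.1
    · exact (hZ b mb).2.1
    · exact (hZ c mc).2.1
  · intro i
    fin_cases i
    · exact (hZ a ma).2.2.1
    · exact (hZ b mb).2.2.1
    · exact (hZ c mc).2.2.1
  · intro i j hij
    fin_cases i <;> fin_cases j
    · exact absurd rfl hij
    · exact dis a ma b mb hab
    · exact dis a ma c mc hac
    · exact dis b mb a ma hab.symm
    · exact absurd rfl hij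
    · exact dis b mb c mc hbc
    · exact dis c mc a ma hac.symm
    · exact dis c mc b mb hbc.symm
    · exact absurd rfl hij

end Pool.Agent.QU
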