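import Pool.Agent.QUR.SmD
import Pool.Agent.QUR.SmE
import Pool.Agent.QUR.SmF

/-!
# QUR/SmG: a minimal 2-side of two removals of one type

`n_same`: the conclusion for a minimal member `u^t, v^t, X` of the class `Md`.
-/

set_option autoImplicit false

open QUB

namespace Pool.Agent.QU

open Pool.Agent.FRM

variable {E : Type} [Fintype E] [DecidableEq E] {S : TP F4 E} {p : Itv E}

omit [Fintype E] in
/-- a leaf has at least four elements if there are no triangles -/
theorem leaf_card {r : Finset E → ℤ} (hr : Rk r) {q : Itv E} {M : Finset E} (hL : Lf r q M)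
    (t3 : ∀ Z ⊆ M, Z.card = 3 → r (q.1 ∪ Z) = r q.1 + 3) : 4 ≤ M.card := by
  by_contra hcon
  have h3 : M.card = 3 := by have := hL.c3; omega
  obtain ⟨x, y, z, hxy, hxz, hyz, hM⟩ := Finset.card_eq_three.1 h3
  have mx : x ∈ M := by rw [hM]; simp
  have my : y ∈ M := by rw [hM]; simp
  have mz : z ∈ M := by rw [hM]; simp
  have h1 := t3 M (Finset.Subset.refl _) h3
  have h2 : r (q.1 ∪ M) + r (q.2 \ M) - r q.2 - r q.1 ≤ 1 := hL.l1
  have h4 : 2 ≤ r (q.1 ∪ {x, y}) + r (q.2 \ {x, y}) - r q.2 - r q.1 := by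
    refine hL.min {x, y} ?_ ?_ ?_
    · intro v hv
      simp only [Finset.mem_insert, Finset.mem_singleton] at hv
      rcases hv with rfl | rfl
      · exact mx
      · exact my
    · intro h
      rw [← h, Finset.card_pair hxy] at h3
      omega
    · rw [Finset.card_pair hxy]
  have e1 : q.1 ∪ {x, y} = insert x (insert y q.1) := by
    ext v
    simp only [Finset.mem_union, Finset.mem_insert, Finset.mem_singleton]
    tauto
  have e2 : q.2 \ {x, y} ⊆ insert z (q.2 \ M) := by
    intro v hv
    rw [hM]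
    simp only [Finset.mem_sdiff, Finset.mem_insert, Finset.mem_singleton] at hv ⊢
    tauto
  have u1 := hr.unit q.1 y
  have u2 := hr.unit (insert y q.1) x
  have u3 := hr.unit (q.2 \ M) z
  have u4 := hr.mono _ _ e2
  rw [e1] at h4
  omega

/-- two deletions -/
theorem n_same_true (h : Cw S p) {u v : E} {X : Finset E} (hM : Md S.r p true u true v X) (hmin : MdMin S.r p X.card) :
    ∃ T : Fm F4 E, InV S.U S.W p T ∧ ¬ EqD S.U S.W p T 0 := by
  have hr : Rk S.r := S.rk
  have mX := hM.mX
  have hwN := hM.wf h.hp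
  have cN : Cn S.r (rm true u (rm true v p)) := h.cn2 hM.ma hM.mb hM.ab true true
  have t3 : ∀ Z ⊆ X, Z.card = 3 → S.r ((rm true u (rm true v p)).1 ∪ Z) = S.r (rm true u (rm true v p)).1 + 3 := by
    intro Z hZ hc
    exact h.nt.t3 Z (fun w hw => (mX w (hZ hw)).1) hc
  -- the other side
  obtain ⟨q', k1, k2, k3⟩ := hM.rich
  have hne : (gs (rm true u (rm true v p)) \ X).Nonempty := by
    have h5 : (gs q').card = 5 := k2.2.1
    obtain ⟨y, hy⟩ : (gs q' \ X).Nonempty := by
      by_contra hcon
      rw [Finset.not_nonempty_iff_eq_empty, Finset.sdiff_eq_empty_iff_subset] at hcon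
      rw [Finset.inter_eq_right.2 hcon] at k3
      omega
    have hy' := Finset.mem_sdiff.1 hy
    have h6 := Finset.mem_sdiff.1 hy'.1
    exact ⟨y, Finset.mem_sdiff.2 ⟨Finset.mem_sdiff.2 ⟨k1.2 h6.1, fun h' => h6.2 (k1.1 h')⟩, hy'.2⟩⟩
  have leafcase : ∀ M ⊆ X, Lf S.r (rm true u (rm true v p)) M → ∃ T : Fm F4 E, InV S.U S.W p T ∧ ¬ EqD S.U S.W p T 0 :=
    fun M hMX hL => sm_leaf h hM hmin hMX hL (leaf_card hr hL fun Z hZ => t3 Z (hZ.trans hMX))
  rcases lf_ex hwN cN hM.sub hne (Finset.Subset.refl X) hM.two hM.lam with ⟨M, hMX, hL⟩ | ⟨w, w', hww, hw, hw', hl⟩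
  · exact leafcase M hMX hL
  · obtain ⟨T, i1, i2, hnd⟩ := sm_serT h hM hmin hw hw' hww hl
    by_cases hb : ∃ x ∈ X, ∀ s, Cn S.r (rm s x (rm true u (rm true v p)))
    · obtain ⟨x, hx, hc⟩ := hb
      exact sm_end h hM hmin hx hc i1 i2 hnd
    · push Not at hb
      have hmn : ∀ Z ⊆ X, QUB.lam S.r (rm true u (rm true v p)) Z ≤ 1 → Hv S.r (rm true u (rm true v p)) Z → Z = X := by
        intro Z hZ hlZ hvZ
        have h1 := hmin true u true v Z ⟨hM.ma, hM.mb, hM.ab, hZ.trans hM.sub, hlZ,
          ⟨q', k1, k2, (Finset.card_le_card (Finset.inter_subset_inter_right hZ)).trans k3⟩, by have := hvZ.card; omega, fun _ => hvZ⟩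
        exact Finset.eq_of_subset_of_card_le hZ h1
      obtain ⟨P, p1, p2, p3, p4⟩ := three_sides hr hwN cN hM.sub hM.lam (hM.hv rfl) hne hmn hb
      -- series pairs
      have key : ∀ i, ∃ a b : E, a ≠ b ∧ a ∈ P i ∧ b ∈ P i ∧ QUB.lam S.r (rm true u (rm true v p)) {a, b} ≤ 1 := by
        intro i
        rcases lf_ex hwN cN hM.sub hne (p1 i) (p2 i) (p3 i) with ⟨M, hMP, hL⟩ | hpr
        · exfalso
          obtain ⟨x, hx⟩ : M.Nonempty := Finset.card_pos.1 (by have := hL.c3; omega)
          obtain ⟨s, hs⟩ := hb x (p1 i (hMP hx))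
          exact hs (hL.cn1 hr hx s)
        · exact hpr
      choose a b hab ha hb' hlab using key
      have hP : ∀ i, ({a i, b i} : Finset E) ⊆ P i := by
        intro i y hy
        simp only [Finset.mem_insert, Finset.mem_singleton] at hy
        rcases hy with rfl | rfl
        · exact ha i
        · exact hb' i
      have hk : ∀ i, ∀ y ∈ ({a i, b i} : Finset E), S.r (insert y (p.2 \ insert u (insert v ({a i, b i} : Finset E)))) =
          S.r (p.2 \ insert u (insert v ({a i, b i} : Finset E))) + 1 := by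
        intro i y hy
        obtain ⟨a1, a2, a3⟩ := mX _ (p1 i (ha i))
        obtain ⟨b1, b2, b3⟩ := mX _ (p1 i (hb' i))
        obtain ⟨r1, r2, r3, r4⟩ := sm_ser_rk h hM.ma hM.mb hM.ab a1 b1 (hab i) a2 a3 b2 b3 (hlab i)
        have e0 : p.2 \ insert u (insert v ({a i, b i} : Finset E)) = (((p.2.erase v).erase u).erase (a i)).erase (b i) := by
          ext z
          simp only [Finset.mem_sdiff, Finset.mem_erase, Finset.mem_insert, Finset.mem_singleton]
          tauto
        rw [e0, r4]
        simp only [Finset.mem_insert, Finset.mem_singleton] at hy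
        rcases hy with rfl | rfl
        · have e1 : insert (a i) ((((p.2.erase v).erase u).erase (a i)).erase (b i)) = ((p.2.erase v).erase u).erase (b i) := by
            rw [Finset.erase_right_comm, Finset.insert_erase]
            exact Finset.mem_erase.2 ⟨hab i, Finset.mem_erase.2 ⟨a2, Finset.mem_erase.2 ⟨a3, (Finset.mem_sdiff.1 a1).1⟩⟩⟩
          rw [e1, r3]
          ring
        · have e1 : insert (b i) ((((p.2.erase v).erase u).erase (a i)).erase (b i)) = ((p.2.erase v).erase u).erase (a i) := by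
            rw [Finset.insert_erase]
            exact Finset.mem_erase.2 ⟨(hab i).symm, Finset.mem_erase.2 ⟨b2, Finset.mem_erase.2 ⟨b3, (Finset.mem_sdiff.1 b1).1⟩⟩⟩
          rw [e1, r2]
          ring
      have hin : InV S.U S.W p T := by
        refine end3 S h.hp hM.ma hM.mb hM.ab (P := fun i => {a i, b i}) ?_ ?_ ?_ ?_ ?_ hk i1 i2 ?_
        · intro i y hy
          exact (mX y (p1 i (hP i hy))).1
        · intro i
          exact ⟨a i, Finset.mem_insert_self _ _⟩
        · intro i j hij
          exact (p4 i j hij).mono (hP i) (hP j)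
        · intro i hu
          exact (mX u (p1 i (hP i hu))).2.1 rfl
        · intro i hv
          exact (mX v (p1 i (hP i hv))).2.2 rfl
        · intro i y hy
          simp only [Finset.mem_insert, Finset.mem_singleton] at hy
          rcases hy with rfl | rfl
          · exact sm_serV h hM hmin (p1 i (ha i)) (p1 i (hb' i)) (hab i) (hlab i) i1 i2
          · exact sm_serV h hM hmin (p1 i (hb' i)) (p1 i (ha i)) (hab i).symm (by rw [Finset.pair_comm]; exact hlab i) i1 i2
      refine ⟨T, hin, fun hT => ?_⟩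
      have h3 : Sub q' (rm true u p) := ((rm_sub true v p).rm true u).trans k1
      exact hnd q' h3 k2 (hT.mono ((rm_sub true u p).trans h3))

/-- **a minimal 2-side of two removals of one type** -/
theorem n_same (h : Cw S p) {u v : E} {t : Bool} {X : Finset E} (hM : Md S.r p t u t v X) (hmin : MdMin S.r p X.card) :
    ∃ T : Fm F4 E, InV S.U S.W p T ∧ ¬ EqD S.U S.W p T 0 := by
  cases t with
  | true => exact n_same_true h hM hmin
  | false => exact goal_dual (n_same_true h.dual (hM.dual h.hp) (hmin.dual h.hp))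

end Pool.Agent.QU
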