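import Pool.Agent.QUL.LStar
import Pool.Agent.QUL.LStrong
import Pool.Agent.QUL.LRich
import Pool.Agent.QUR.Nd

set_option autoImplicit false

/-!
# Project QU, layer D, the T-case: THEOREM T2

A triangle `{u, v, z}`; forms in `V_*` on `M\u`, `M\v`, `M/z`.  If `M\u` is rich, `M\u\v`, `M/z\u`, `M/z\v` are connected and `Ok`, `M/z\u\v` is
connected and not binary and not (`M\u\v`, `M/z\u` rich, `M/z\u\v` not rich), then `V(M)` has a form which is not diagonal.
-/

open Module (finrank)

namespace Pool.Agent.QU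

variable {K E : Type} [Field K] [Fintype E] [DecidableEq E]

section Par

variable {r : Finset E → ℤ}

omit [Fintype E] in
private theorem T2_up (hr : QUB.Rk r) {q : Itv E} {u v : E} (h1 : r (insert u q.1) = r (insert v q.1))
    (h2 : r (insert u (insert v q.1)) = r (insert v q.1)) {A : Finset E} (hA : q.1 ⊆ A) :
    r (insert u A) = r (insert v A) := by
  have a1 : r (insert u (insert v A)) ≤ r (insert v A) := by
    have h3 := hr.sub (insert u (insert v q.1)) (insert v A)
    have h4 : insert u (insert v q.1) ∪ insert v A = insert u (insert v A) := by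
      ext x
      simp only [Finset.mem_union, Finset.mem_insert]
      constructor
      · rintro ((h | h | h) | h | h)
        · exact Or.inl h
        · exact Or.inr (Or.inl h)
        · exact Or.inr (Or.inr (hA h))
        · exact Or.inr (Or.inl h)
        · exact Or.inr (Or.inr h)
      · rintro (h | h | h)
        · exact Or.inl (Or.inl h)
        · exact Or.inr (Or.inl h)
        · exact Or.inr (Or.inr h)
    have h5 : insert v q.1 ⊆ insert u (insert v q.1) ∩ insert v A :=
      Finset.subset_inter (Finset.subset_insert _ _) (Finset.insert_subset_insert v hA)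
    have h6 := hr.mono _ _ h5
    rw [h4] at h3
    linarith
  have a2 : r (insert u (insert v A)) ≤ r (insert u A) := by
    have h3 := hr.sub (insert u (insert v q.1)) (insert u A)
    have h4 : insert u (insert v q.1) ∪ insert u A = insert u (insert v A) := by
      ext x
      simp only [Finset.mem_union, Finset.mem_insert]
      constructor
      · rintro ((h | h | h) | h | h)
        · exact Or.inl h
        · exact Or.inr (Or.inl h)
        · exact Or.inr (Or.inr (hA h))
        · exact Or.inl h
        · exact Or.inr (Or.inr h)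
      · rintro (h | h | h)
        · exact Or.inl (Or.inl h)
        · exact Or.inl (Or.inr (Or.inl h))
        · exact Or.inr (Or.inr h)
    have h5 : insert u q.1 ⊆ insert u (insert v q.1) ∩ insert u A := by
      refine Finset.subset_inter ?_ (Finset.insert_subset_insert u hA)
      exact Finset.insert_subset_insert u (Finset.subset_insert _ _)
    have h6 := hr.mono _ _ h5
    rw [h4] at h3
    linarith
  have b1 := hr.mono _ _ (Finset.subset_insert u (insert v A))
  have b2 : r (insert u A) ≤ r (insert u (insert v A)) := hr.mono _ _ (Finset.insert_subset_insert u (Finset.subset_insert v A))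
  linarith

/-- swapping `u` and `v` -/
private def sw (u v : E) (A : Finset E) : Finset E := A.image (Equiv.swap u v)

omit [Fintype E] in
private theorem mem_sw {u v x : E} {A : Finset E} : x ∈ sw u v A ↔ Equiv.swap u v x ∈ A := by
  unfold sw
  rw [Finset.mem_image]
  constructor
  · rintro ⟨y, hy, rfl⟩
    rw [Equiv.swap_apply_self]
    exact hy
  · intro h
    exact ⟨_, h, Equiv.swap_apply_self u v x⟩

omit [Fintype E] in
private theorem sw_sw {u v : E} {A : Finset E} : sw u v (sw u v A) = A := by
  ext x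
  rw [mem_sw, mem_sw, Equiv.swap_apply_self]

omit [Fintype E] in
private theorem sw_card {u v : E} {A : Finset E} : (sw u v A).card = A.card :=
  Finset.card_image_of_injective _ (Equiv.swap u v).injective

omit [Fintype E] in
private theorem sw_mono {u v : E} {A B : Finset E} (h : A ⊆ B) : sw u v A ⊆ sw u v B := Finset.image_subset_image h

omit [Fintype E] in
private theorem sw_union {u v : E} {A B : Finset E} : sw u v (A ∪ B) = sw u v A ∪ sw u v B := by
  ext x
  simp only [mem_sw, Finset.mem_union]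

omit [Fintype E] in
private theorem sw_inter {u v : E} {A B : Finset E} : sw u v (A ∩ B) = sw u v A ∩ sw u v B := by
  ext x
  simp only [mem_sw, Finset.mem_inter]

omit [Fintype E] in
private theorem sw_sdiff {u v : E} {A B : Finset E} : sw u v (A \ B) = sw u v A \ sw u v B := by
  ext x
  simp only [mem_sw, Finset.mem_sdiff]

omit [Fintype E] in
private theorem sw_insert {u v x : E} {A : Finset E} : sw u v (insert x A) = insert (Equiv.swap u v x) (sw u v A) := by
  unfold sw
  rw [Finset.image_insert]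

omit [Fintype E] in
private theorem sw_rank (hr : QUB.Rk r) {q : Itv E} {u v : E} (hu : u ∉ q.1) (hv : v ∉ q.1)
    (h1 : r (insert u q.1) = r (insert v q.1)) (h2 : r (insert u (insert v q.1)) = r (insert v q.1)) {A : Finset E}
    (hA : q.1 ⊆ A) : r (sw u v A) = r A := by
  by_cases huv : u = v
  · subst huv
    have h3 : sw u u A = A := by
      ext x
      rw [mem_sw, Equiv.swap_self, Equiv.refl_apply]
    rw [h3]
  by_cases hua : u ∈ A <;> by_cases hva : v ∈ A
  · have h3 : sw u v A = A := by
      ext x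
      rw [mem_sw]
      by_cases hx : x = u
      · rw [hx, Equiv.swap_apply_left]
        exact ⟨fun _ => hua, fun _ => hva⟩
      by_cases hx' : x = v
      · rw [hx', Equiv.swap_apply_right]
        exact ⟨fun _ => hva, fun _ => hua⟩
      · rw [Equiv.swap_apply_of_ne_of_ne hx hx']
    rw [h3]
  · have h3 : sw u v A = insert v (A.erase u) := by
      ext x
      rw [mem_sw, Finset.mem_insert, Finset.mem_erase]
      by_cases hx : x = u
      · rw [hx, Equiv.swap_apply_left]
        constructor
        · exact fun h => absurd h hva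
        · rintro (h | h)
          · exact absurd h huv
          · exact absurd rfl h.1
      by_cases hx' : x = v
      · rw [hx', Equiv.swap_apply_right]
        exact ⟨fun _ => Or.inl rfl, fun _ => hua⟩
      · rw [Equiv.swap_apply_of_ne_of_ne hx hx']
        constructor
        · exact fun h => Or.inr ⟨hx, h⟩
        · rintro (h | h)
          · exact absurd h hx'
          · exact h.2
    have h4 : q.1 ⊆ A.erase u := fun x hx => Finset.mem_erase.2 ⟨fun h => hu (h ▸ hx), hA hx⟩
    rw [h3, ← T2_up hr h1 h2 h4, Finset.insert_erase hua]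
  · have h3 : sw u v A = insert u (A.erase v) := by
      ext x
      rw [mem_sw, Finset.mem_insert, Finset.mem_erase]
      by_cases hx : x = u
      · rw [hx, Equiv.swap_apply_left]
        exact ⟨fun _ => Or.inl rfl, fun _ => hva⟩
      by_cases hx' : x = v
      · rw [hx', Equiv.swap_apply_right]
        constructor
        · exact fun h => absurd h hua
        · rintro (h | h)
          · exact absurd h.symm huv
          · exact absurd rfl h.1
      · rw [Equiv.swap_apply_of_ne_of_ne hx hx']
        constructor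
        · exact fun h => Or.inr ⟨hx', h⟩
        · rintro (h | h)
          · exact absurd h hx
          · exact h.2
    have h4 : q.1 ⊆ A.erase v := fun x hx => Finset.mem_erase.2 ⟨fun h => hv (h ▸ hx), hA hx⟩
    rw [h3, T2_up hr h1 h2 h4, Finset.insert_erase hva]
  · have h3 : sw u v A = A := by
      ext x
      rw [mem_sw]
      by_cases hx : x = u
      · rw [hx, Equiv.swap_apply_left]
        exact ⟨fun h => absurd h hva, fun h => absurd h hua⟩
      by_cases hx' : x = v
      · rw [hx', Equiv.swap_apply_right]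
        exact ⟨fun h => absurd h hua, fun h => absurd h hva⟩
      · rw [Equiv.swap_apply_of_ne_of_ne hx hx']
    rw [h3]

/-- `u` and `v` are parallel in the box `q` -/
def Par (r : Finset E → ℤ) (q : Itv E) (u v : E) : Prop :=
  u ∉ q.1 ∧ v ∉ q.1 ∧ r (insert u q.1) = r (insert v q.1) ∧ r (insert u (insert v q.1)) = r (insert v q.1)

omit [Fintype E] in
private theorem par_rank (hr : QUB.Rk r) {q : Itv E} {u v : E} (h : Par r q u v) {A : Finset E} (hA : q.1 ⊆ A) :
    r (sw u v A) = r A := sw_rank hr h.1 h.2.1 h.2.2.1 h.2.2.2 hA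

/-- the swapped box -/
private def swp (u v : E) (p : Itv E) : Itv E := (sw u v p.1, sw u v p.2)

omit [Fintype E] in
private theorem swp_swp {u v : E} {p : Itv E} : swp u v (swp u v p) = p := by
  unfold swp
  rw [sw_sw, sw_sw]

omit [Fintype E] in
private theorem swp_rm {u v : E} {q : Itv E} (hu : u ∈ gs q) (hv : v ∈ gs q) : swp u v (rm true u q) = rm true v q := by
  have hu' := Finset.mem_sdiff.1 hu
  have hv' := Finset.mem_sdiff.1 hv
  have e1 : sw u v q.1 = q.1 := by
    ext x
    rw [mem_sw]
    by_cases hx : x = u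
    · rw [hx, Equiv.swap_apply_left]
      exact ⟨fun h => absurd h hv'.2, fun h => absurd h hu'.2⟩
    by_cases hx' : x = v
    · rw [hx', Equiv.swap_apply_right]
      exact ⟨fun h => absurd h hu'.2, fun h => absurd h hv'.2⟩
    · rw [Equiv.swap_apply_of_ne_of_ne hx hx']
  have e2 : sw u v (q.2.erase u) = q.2.erase v := by
    ext x
    rw [mem_sw, Finset.mem_erase, Finset.mem_erase]
    by_cases hx : x = u
    · rw [hx, Equiv.swap_apply_left]
      constructor
      · exact fun h => ⟨fun h3 => h.1 h3.symm, hu'.1⟩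
      · exact fun h => ⟨fun h3 => h.1 h3.symm, hv'.1⟩
    by_cases hx' : x = v
    · rw [hx', Equiv.swap_apply_right]
      constructor
      · exact fun h => absurd rfl h.1
      · exact fun h => absurd rfl h.1
    · rw [Equiv.swap_apply_of_ne_of_ne hx hx']
      exact ⟨fun h => ⟨hx', h.2⟩, fun h => ⟨hx, h.2⟩⟩
  show (sw u v q.1, sw u v (q.2.erase u)) = (q.1, q.2.erase v)
  rw [e1, e2]

omit [Fintype E] in
private theorem swp_gs {u v : E} {p : Itv E} : gs (swp u v p) = sw u v (gs p) := by
  unfold gs swp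
  rw [sw_sdiff]

omit [Fintype E] in
private theorem swp_ln (hr : QUB.Rk r) {q p : Itv E} {u v : E} (h : Par r q u v) (hq : q.1 ⊆ p.1) {N : Finset E}
    (hN : QUB.Ln r p N) : QUB.Ln r (swp u v p) (sw u v N) := by
  obtain ⟨h4, Y, h1, h2, h3, h5, h6⟩ := hN
  have hY : q.1 ⊆ Y := hq.trans h1
  refine ⟨by rw [sw_card, h4], sw u v Y, sw_mono h1, ?_, ?_, ?_, ?_⟩
  · rw [← sw_union]
    exact sw_mono h2
  · rw [Finset.disjoint_left]
    intro x hx hx'
    rw [mem_sw] at hx hx'
    exact Finset.disjoint_left.1 h3 hx hx'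
  · rw [← sw_union, par_rank hr h (hY.trans Finset.subset_union_left), par_rank hr h hY, h5]
  · intro i hi j hj hij
    rw [mem_sw] at hi hj
    have h7 := h6 _ hi _ hj fun h => hij ((Equiv.swap u v).injective h)
    have h8 : insert i (insert j (sw u v Y)) = sw u v (insert (Equiv.swap u v i) (insert (Equiv.swap u v j) Y)) := by
      rw [sw_insert, sw_insert, Equiv.swap_apply_self, Equiv.swap_apply_self]
    rw [h8, par_rank hr h (hY.trans ((Finset.subset_insert _ _).trans (Finset.subset_insert _ _))), par_rank hr h hY, h7]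

omit [Fintype E] in
private theorem swp_hv (hr : QUB.Rk r) {q p : Itv E} {u v : E} (h : Par r q u v) (hq : q.1 ⊆ p.1) {A : Finset E}
    (hA : QUB.Hv r p A) : QUB.Hv r (swp u v p) (sw u v A) := by
  obtain ⟨N, h1, h2⟩ := hA
  refine ⟨sw u v N, swp_ln hr h hq h1, ?_⟩
  rw [← sw_inter, sw_card]
  exact h2

omit [Fintype E] in
private theorem swp_lam (hr : QUB.Rk r) {q p : Itv E} {u v : E} (h : Par r q u v) (hq : q.1 ⊆ p.1) (hp : p.1 ⊆ p.2)
    {A : Finset E} (hA : A ⊆ gs p) : lam r (swp u v p) (sw u v A) = lam r p A := by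
  have h1 : q.1 ⊆ p.2 \ A := fun x hx => Finset.mem_sdiff.2 ⟨hp (hq hx), fun h3 => (Finset.mem_sdiff.1 (hA h3)).2 (hq hx)⟩
  show r (sw u v p.1 ∪ sw u v A) + r (sw u v p.2 \ sw u v A) - r (sw u v p.2) - r (sw u v p.1) =
    r (p.1 ∪ A) + r (p.2 \ A) - r p.2 - r p.1
  rw [← sw_union, ← sw_sdiff, par_rank hr h (hq.trans Finset.subset_union_left), par_rank hr h h1,
    par_rank hr h (hq.trans hp), par_rank hr h hq]

omit [Fintype E] in
private theorem swp_cn (hr : QUB.Rk r) {q p : Itv E} {u v : E} (h : Par r q u v) (hq : q.1 ⊆ p.1) (hp : p.1 ⊆ p.2)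
    (hC : QUB.Cn r p) : QUB.Cn r (swp u v p) := by
  intro A hA h1 h2
  have hA' : sw u v A ⊆ gs p := by
    have h3 := sw_mono (u := u) (v := v) hA
    rw [swp_gs, sw_sw] at h3
    exact h3
  have e : A = sw u v (sw u v A) := sw_sw.symm
  have h4 : lam r (swp u v p) (sw u v (sw u v A)) = lam r p (sw u v A) := swp_lam hr h hq hp hA'
  rw [sw_sw] at h4
  show 1 ≤ lam r (swp u v p) A
  rw [h4]
  refine hC _ hA' ?_ ?_
  · obtain ⟨x, hx⟩ := h1
    exact ⟨Equiv.swap u v x, mem_sw.2 (by rw [Equiv.swap_apply_self]; exact hx)⟩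
  · obtain ⟨x, hx⟩ := h2
    rw [swp_gs, Finset.mem_sdiff, mem_sw] at hx
    exact ⟨Equiv.swap u v x, Finset.mem_sdiff.2 ⟨hx.1, fun h3 => hx.2 (by
      rw [mem_sw, Equiv.swap_apply_self] at h3
      exact h3)⟩⟩

omit [Fintype E] in
private theorem swp_ok (hr : QUB.Rk r) {q p : Itv E} {u v : E} (h : Par r q u v) (hu : u ∈ gs q) (hv : v ∈ gs q)
    (hq : q.1 ⊆ p.1) (hp : p.1 ⊆ p.2) (hO : QUB.Ok r p) : QUB.Ok r (swp u v p) := by
  intro A hA h1 h2
  have e1 : sw u v q.1 = q.1 := congrArg Prod.fst (swp_rm hu hv)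
  have hq' : q.1 ⊆ (swp u v p).1 := by
    have h3 := sw_mono (u := u) (v := v) hq
    rw [e1] at h3
    exact h3
  have hA' : sw u v A ⊆ gs p := by
    have h3 := sw_mono (u := u) (v := v) hA
    rw [swp_gs, sw_sw] at h3
    exact h3
  have h4 : lam r (swp u v p) (sw u v (sw u v A)) = lam r p (sw u v A) := swp_lam hr h hq hp hA'
  rw [sw_sw] at h4
  refine hO (sw u v A) hA' (by rw [← h4]; exact h1) ⟨?_, ?_⟩
  · have h5 := swp_hv hr h hq' h2.1
    rw [swp_swp] at h5
    exact h5
  · have h5 := swp_hv hr h hq' h2.2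
    rw [swp_swp, sw_sdiff, swp_gs, sw_sw] at h5
    exact h5

omit [Fintype E] in
private theorem swp_rich (hr : QUB.Rk r) {q p : Itv E} {u v : E} (h : Par r q u v) (hu : u ∈ gs q) (hv : v ∈ gs q)
    (hq : q.1 ⊆ p.1) (hR : Rich r p) : Rich r (swp u v p) := by
  obtain ⟨h1, h2, h3⟩ := hR
  have hq2 : q.1 ⊆ p.2 := hq.trans h1
  refine ⟨sw_mono h1, by rw [swp_gs, sw_card]; exact h2, ?_⟩
  rcases h3 with ⟨h3, h4⟩ | ⟨h3, h4⟩
  · left
    refine ⟨?_, fun i hi j hj hij => ?_⟩
    · show r (sw u v p.2) = r (sw u v p.1) + 2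
      rw [par_rank hr h hq2, par_rank hr h hq, h3]
    · rw [swp_gs, mem_sw] at hi hj
      have h5 := h4 _ hi _ hj fun h => hij ((Equiv.swap u v).injective h)
      have h6 : (swp u v p).1 ∪ {i, j} = sw u v (p.1 ∪ {Equiv.swap u v i, Equiv.swap u v j}) := by
        ext x
        simp only [swp, mem_sw, Finset.mem_union, Finset.mem_insert, Finset.mem_singleton, EmbeddingLike.apply_eq_iff_eq]
      have h7 : r (swp u v p).1 = r p.1 := par_rank hr h hq
      rw [h6, par_rank hr h (hq.trans Finset.subset_union_left), h7, h5]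
  · right
    refine ⟨?_, fun i hi j hj k hk hij hik hjk => ?_⟩
    · show r (sw u v p.2) = r (sw u v p.1) + 3
      rw [par_rank hr h hq2, par_rank hr h hq, h3]
    · rw [swp_gs, mem_sw] at hi hj hk
      have h5 := h4 _ hi _ hj _ hk (fun h => hij ((Equiv.swap u v).injective h)) (fun h => hik ((Equiv.swap u v).injective h))
        fun h => hjk ((Equiv.swap u v).injective h)
      have h6 : (swp u v p).1 ∪ {i, j, k} = sw u v (p.1 ∪ {Equiv.swap u v i, Equiv.swap u v j, Equiv.swap u v k}) := by
        ext x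
        simp only [swp, mem_sw, Finset.mem_union, Finset.mem_insert, Finset.mem_singleton, EmbeddingLike.apply_eq_iff_eq]
      have h7 : r (swp u v p).1 = r p.1 := par_rank hr h hq
      rw [h6, par_rank hr h (hq.trans Finset.subset_union_left), h7, h5]

omit [Fintype E] in
theorem Par.symm {r : Finset E → ℤ} {q : Itv E} {u v : E} (h : Par r q u v) : Par r q v u := by
  obtain ⟨h1, h2, h3, h4⟩ := h
  refine ⟨h2, h1, h3.symm, ?_⟩
  rw [Finset.insert_comm, h4, h3]

omit [Fintype E] in
theorem par_cn (hr : QUB.Rk r) {q : Itv E} (hq : q.1 ⊆ q.2) {u v : E} (h : Par r q u v) (hu : u ∈ gs q) (hv : v ∈ gs q)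
    (hC : QUB.Cn r (rm true u q)) : QUB.Cn r (rm true v q) := by
  have h1 := swp_cn hr h (p := rm true u q) (Finset.Subset.refl _) (QUB.wf_rm hq hu) hC
  rw [swp_rm hu hv] at h1
  exact h1

omit [Fintype E] in
theorem par_ok (hr : QUB.Rk r) {q : Itv E} (hq : q.1 ⊆ q.2) {u v : E} (h : Par r q u v) (hu : u ∈ gs q) (hv : v ∈ gs q)
    (hO : QUB.Ok r (rm true u q)) : QUB.Ok r (rm true v q) := by
  have h1 := swp_ok hr h hu hv (p := rm true u q) (Finset.Subset.refl _) (QUB.wf_rm hq hu) hO
  rw [swp_rm hu hv] at h1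
  exact h1

omit [Fintype E] in
theorem par_rich (hr : QUB.Rk r) {q : Itv E} {u v : E} (h : Par r q u v) (hu : u ∈ gs q) (hv : v ∈ gs q)
    (hR : HasRich r (rm true u q)) : HasRich r (rm true v q) := by
  obtain ⟨q', h1, h2⟩ := hR
  refine ⟨swp u v q', ?_, swp_rich hr h hu hv h1.1 h2⟩
  rw [← swp_rm hu hv]
  exact ⟨sw_mono h1.1, sw_mono h1.2⟩

end Par

private theorem T2_sub {S : TP K E} {p q : Itv E} {T : Fm K E} (h : InVs S p T) (hq : Sub q p) : InVs S q T :=
  ⟨h.1.mono hq, fun q' h1 h2 => h.2 q' (hq.trans h1) h2⟩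

private theorem T2_nd {S : TP K E} {p : Itv E} {T : Fm K E} (h : InVs S p T) (hR : HasRich S.r p) :
    ¬ EqD S.U S.W p T 0 := by
  obtain ⟨q, h1, h2⟩ := hR
  exact fun h3 => h.2 q h1 h2 (h3.mono h1)

omit [Fintype E] in
private theorem T2_hr {r : Finset E → ℤ} {p q : Itv E} (h : HasRich r q) (hq : Sub q p) : HasRich r p := by
  obtain ⟨q', h1, h2⟩ := h
  exact ⟨q', hq.trans h1, h2⟩

private theorem T2_smul {S : TP K E} {p : Itv E} {T T' : Fm K E} {k : K} (hk : k ≠ 0) (h : EqD S.U S.W p (k • T) T') :
    EqD S.U S.W p T (k⁻¹ • T') := by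
  have h2 := h.smul k⁻¹
  rw [smul_smul, inv_mul_cancel₀ hk, one_smul] at h2
  exact h2

/-- THEOREM T2 (helper22) -/
theorem t2 (S : TP K E) (hexp : ExpAll S.r) {p : Itv E} (hp : p.1 ⊆ p.2) {u v z : E} (huv : u ≠ v) (hzu : z ≠ u)
    (hzv : z ≠ v) (hu : u ∈ gs p) (hv : v ∈ gs p) (hz : z ∈ gs p)
    (htri : S.r (insert z (insert u (insert v p.1))) = S.r (insert u (insert v p.1)))
    (hpar : Par S.r (rm false z p) u v)
    {Tu Tv Tz : Fm K E} (hTu : InVs S (rm true u p) Tu) (hTv : InVs S (rm true v p) Tv)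
    (hTz : InVs S (rm false z p) Tz) (hE : HasRich S.r (rm true u p))
    (cA : QUB.Cn S.r (rm true u (rm true v p))) (oA : QUB.Ok S.r (rm true u (rm true v p)))
    (cB : QUB.Cn S.r (rm true u (rm false z p))) (oB : QUB.Ok S.r (rm true u (rm false z p)))
    (cC : QUB.Cn S.r (rm true u (rm true v (rm false z p))))
    (lC : ∃ N, QUB.Ln S.r (rm true u (rm true v (rm false z p))) N)
    (hL : HasRich S.r (rm true u (rm true v p)) → HasRich S.r (rm true u (rm false z p)) →
      HasRich S.r (rm true u (rm true v (rm false z p)))) :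
    ∃ T : Fm K E, InV S.U S.W p T ∧ ¬ EqD S.U S.W p T 0 := by
  have wz : (rm false z p).1 ⊆ (rm false z p).2 := QUB.wf_rm hp hz
  have hu' : u ∈ gs (rm false z p) := by
    rw [gs_rm]
    exact Finset.mem_erase.2 ⟨hzu.symm, hu⟩
  have hv' : v ∈ gs (rm false z p) := by
    rw [gs_rm]
    exact Finset.mem_erase.2 ⟨hzv.symm, hv⟩
  have wB : (rm true u (rm false z p)).1 ⊆ (rm true u (rm false z p)).2 := QUB.wf_rm wz hu'
  have wB' : (rm true v (rm false z p)).1 ⊆ (rm true v (rm false z p)).2 := QUB.wf_rm wz hv'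
  have wv : (rm true v p).1 ⊆ (rm true v p).2 := QUB.wf_rm hp hv
  have hu2 : u ∈ gs (rm true v p) := by
    rw [gs_rm]
    exact Finset.mem_erase.2 ⟨huv, hu⟩
  have wA : (rm true u (rm true v p)).1 ⊆ (rm true u (rm true v p)).2 := QUB.wf_rm wv hu2
  have cB' : QUB.Cn S.r (rm true v (rm false z p)) := par_cn S.rk wz hpar hu' hv' cB
  have oB' : QUB.Ok S.r (rm true v (rm false z p)) := par_ok S.rk wz hpar hu' hv' oB
  -- minors
  have sA1 : Sub (rm true u (rm true v p)) (rm true u p) := (rm_sub true v p).rm true u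
  have sA2 : Sub (rm true u (rm true v p)) (rm true v p) := rm_sub true u _
  have sB1 : Sub (rm true u (rm false z p)) (rm true u p) := (rm_sub false z p).rm true u
  have sB2 : Sub (rm true u (rm false z p)) (rm false z p) := rm_sub true u _
  have sB1' : Sub (rm true v (rm false z p)) (rm true v p) := (rm_sub false z p).rm true v
  have sB2' : Sub (rm true v (rm false z p)) (rm false z p) := rm_sub true v _
  have sC1 : Sub (rm true u (rm true v (rm false z p))) (rm true u (rm false z p)) :=
    (rm_sub true v (rm false z p)).rm true u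
  have sC2 : Sub (rm true u (rm true v (rm false z p))) (rm true v (rm false z p)) := rm_sub true u _
  have sC3 : Sub (rm true u (rm true v (rm false z p))) (rm true u (rm true v p)) :=
    ((rm_sub false z p).rm true v).rm true u
  -- the three comparisons
  obtain ⟨k1, hk1⟩ := uniq S hexp wB cB oB (hTu.1.mono sB1) (T2_sub hTz sB2)
  obtain ⟨k2, hk2⟩ := uniq S hexp wB' cB' oB' (hTv.1.mono sB1') (T2_sub hTz sB2')
  have main : ∃ k k' : K, EqD S.U S.W (rm true u (rm true v p)) Tu (k • Tv) ∧
      EqD S.U S.W (rm true u (rm false z p)) Tu (k' • Tz) ∧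
      EqD S.U S.W (rm true v (rm false z p)) (k • Tv) (k' • Tz) := by
    by_cases hrB : HasRich S.r (rm true u (rm false z p))
    · have hrB' : HasRich S.r (rm true v (rm false z p)) := par_rich S.rk hpar hu' hv' hrB
      by_cases hrA : HasRich S.r (rm true u (rm true v p))
      · -- all rich
        obtain ⟨q, hq, hR⟩ := hL hrA hrB
        obtain ⟨k, hk⟩ := uniq S hexp wA cA oA (hTu.1.mono sA1) (T2_sub hTv sA2)
        refine ⟨k, k1, hk, hk1, ?_⟩
        have e1 : EqD S.U S.W q (k1 • Tz) ((k * k2) • Tz) := by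
          have e2 := (hk1.mono (sC1.trans hq)).symm.trans (hk.mono (sC3.trans hq))
          have e3 := (hk2.mono (sC2.trans hq)).smul k
          rw [smul_smul] at e3
          exact e2.trans e3
        have e4 : k1 = k * k2 := by
          by_contra hne
          have e5 : EqD S.U S.W q ((k1 - k * k2) • Tz) 0 := by
            have e6 := e1.sub (EqD.rfl (U := S.U) (W := S.W) (p := q) (T := (k * k2) • Tz))
            have e7 : (k1 - k * k2) • Tz = k1 • Tz - (k * k2) • Tz := by
              refine LinearMap.ext fun c => LinearMap.ext fun d => ?_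
              rw [LinearMap.sub_apply, LinearMap.sub_apply]
              simp only [LinearMap.smul_apply, smul_eq_mul]
              ring
            rw [sub_self ((k * k2) • Tz)] at e6
            rw [e7]
            exact e6
          have e7 := T2_smul (sub_ne_zero.2 hne) e5
          rw [smul_zero] at e7
          exact hTz.2 q ((sC1.trans hq).1.trans' sB2.1 |> fun h => ⟨h, (sC1.trans hq).2.trans sB2.2⟩) hR e7
        have e8 := hk2.smul k
        rw [smul_smul, ← e4] at e8
        exact e8
      · -- `M\u\v` is not rich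
        have n1 : EqD S.U S.W (rm true u (rm true v p)) Tu 0 :=
          uniq_zero S hexp wA cA oA ⟨hTu.1.mono sA1, fun q h1 h2 => absurd ⟨q, h1, h2⟩ hrA⟩
        have n2 : EqD S.U S.W (rm true u (rm true v p)) Tv 0 :=
          uniq_zero S hexp wA cA oA ⟨hTv.1.mono sA2, fun q h1 h2 => absurd ⟨q, h1, h2⟩ hrA⟩
        have hk2' : k2 ≠ 0 := by
          rintro rfl
          rw [zero_smul] at hk2
          exact T2_nd (T2_sub hTv sB1') hrB' hk2
        refine ⟨k1 * k2⁻¹, k1, ?_, hk1, ?_⟩
        · have e1 := n2.smul (k1 * k2⁻¹)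
          rw [smul_zero] at e1
          exact n1.trans e1.symm
        · have e1 := hk2.smul (k1 * k2⁻¹)
          rw [smul_smul, mul_assoc, inv_mul_cancel₀ hk2', mul_one] at e1
          exact e1
    · -- `M/z\u` is not rich
      have hrB' : ¬ HasRich S.r (rm true v (rm false z p)) := fun h =>
        hrB (par_rich S.rk hpar.symm hv' hu' h)
      have n1 : EqD S.U S.W (rm true u (rm false z p)) Tu 0 :=
        uniq_zero S hexp wB cB oB ⟨hTu.1.mono sB1, fun q h1 h2 => absurd ⟨q, h1, h2⟩ hrB⟩
      have n2 : EqD S.U S.W (rm true v (rm false z p)) Tv 0 :=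
        uniq_zero S hexp wB' cB' oB' ⟨hTv.1.mono sB1', fun q h1 h2 => absurd ⟨q, h1, h2⟩ hrB'⟩
      obtain ⟨k, hk⟩ := uniq S hexp wA cA oA (hTu.1.mono sA1) (T2_sub hTv sA2)
      refine ⟨k, 0, hk, ?_, ?_⟩
      · rw [zero_smul]
        exact n1
      · have e1 := n2.smul k
        rw [smul_zero] at e1
        rw [zero_smul]
        exact e1
  obtain ⟨k, k', g1, g2, g3⟩ := main
  have hcard : 3 ≤ (gs (rm false z p)).card := by
    obtain ⟨N, h4, Y, h1, h2, h3, -, -⟩ := lC
    have h5 : N ⊆ gs (rm false z p) := by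
      intro x hx
      have h6 := h2 (Finset.mem_union_right _ hx)
      have h7 : x ∉ Y := Finset.disjoint_left.1 h3 hx
      refine Finset.mem_sdiff.2 ⟨?_, fun h8 => h7 (h1 h8)⟩
      exact Finset.mem_of_mem_erase (Finset.mem_of_mem_erase h6)
    have h8 := Finset.card_le_card h5
    omega
  have hst : ∀ T : Fm K E, InV S.U S.W (rm true u (rm true v p)) T →
      EqD S.U S.W (rm true u (rm true v p)) T (Tu - k • Tv) →
      EqOn S.U S.W (rm false z (rm true u (rm true v p))) T 0 →
      ∃ k : K, EqOn S.U S.W (rm true u (rm true v p)) T (dg (Pi.single z k)) := by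
    intro T hT h1 h2
    have h3 : EqD S.U S.W (rm true u (rm true v p)) (Tu - k • Tv) 0 := by
      have h4 := g1.sub (EqD.rfl (U := S.U) (W := S.W) (p := rm true u (rm true v p)) (T := k • Tv))
      rw [sub_self (k • Tv)] at h4
      exact h4
    obtain ⟨b, hb⟩ := h1.trans h3
    rw [zero_add] at hb
    have e : rm false z (rm true u (rm true v p)) = rm true u (rm true v (rm false z p)) := by
      rw [rm_comm false true z u, rm_comm false true z v]
    have hb0 : EqOn S.U S.W (rm true u (rm true v (rm false z p))) (dg b) 0 := by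
      rw [← e]
      exact (hb.mono (rm_sub false z _)).symm.trans h2
    have wC : (rm true u (rm true v (rm false z p))).1 ⊆ (rm true u (rm true v (rm false z p))).2 := by
      refine QUB.wf_rm wB' ?_
      rw [gs_rm]
      exact Finset.mem_erase.2 ⟨huv, hu'⟩
    have hb1 := hom_cn S wC cC lC hb0
    refine ⟨b z, hb.trans (dg_congr fun x hx => ?_)⟩
    by_cases hxz : x = z
    · rw [hxz, Pi.single_eq_same]
    · rw [Pi.single_eq_of_ne hxz]
      refine hb1 x ?_
      rw [gs_rm, gs_rm, gs_rm] 
      rw [gs_rm, gs_rm] at hx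
      have h5 := Finset.mem_erase.1 hx
      have h6 := Finset.mem_erase.1 h5.2
      exact Finset.mem_erase.2 ⟨h5.1, Finset.mem_erase.2 ⟨h6.1, Finset.mem_erase.2 ⟨hxz, h6.2⟩⟩⟩
  obtain ⟨T, hT, hTu', -, -⟩ := star_tri S huv hzu hzv hu hv (Tz := k' • Tz) (Tu := Tu) (Tv := k • Tv)
    (hTz.1.smul k') hTu.1 (hTv.1.smul k) g2 g3 hst htri (nd_of_cn S.rk huv hu' hv' hcard cB cB')
  exact ⟨T, hT, fun h => T2_nd hTu hE (hTu'.symm.trans (h.mono (rm_sub true u p)))⟩

end Pool.Agent.QU
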