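import Pool.Agent.QUR.Key
import Pool.Agent.QUR.Tut
import Pool.Agent.QUT.Ffive

/-!
# QUR/WinL: the T-case if the deletion of an element of the triangle has a separation of order two

`{f, a, b}` is a triangle and `X` a 2-side of `p \ b` with `a ∈ X` (so `f` is on the other side). If the deletions of the elements of a subset `F` of
`X - a` with `a` in its closure are 3-connected and `p \ f` is rich, then `h(p) ≥ 1` (`win_l`); in particular if `X` has the minimum number of
elements among all 2-sides of deletions (`win_min`).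
-/

set_option autoImplicit false

open QUB Pool.Agent.FRM

namespace Pool.Agent.QU

variable {E : Type} [Fintype E] [DecidableEq E]

private theorem wl_cl {r : Finset E → ℤ} (hr : Rk r) {p : Itv E} (hp : p.1 ⊆ p.2) {b x : E} (hb : b ∈ gs p) {X Y : Finset E}
    (hXY : X ∪ Y = (gs p).erase b) (hd : Disjoint X Y) (hx : x ∈ X) (hX2 : (X.erase x).Nonempty) (hY : Y.Nonempty)
    (hl : QUB.lam r (QUB.rm true b p) X ≤ 1) (hbr : r (p.2.erase b) = r p.2)
    (hxr : r ((p.2.erase b).erase x) = r p.2) (cx : Cn r (QUB.rm true x (QUB.rm true b p))) : r (insert x (p.1 ∪ X.erase x)) = r (p.1 ∪ X.erase x) := by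
  have hX : X ⊆ (gs p).erase b := hXY ▸ Finset.subset_union_left
  have hYs : Y ⊆ (gs p).erase b := hXY ▸ Finset.subset_union_right
  have hxY : x ∉ Y := fun h => Finset.disjoint_left.1 hd hx h
  have g2 : gs (QUB.rm true x (QUB.rm true b p)) = ((gs p).erase b).erase x := by rw [QUB.gs_rm, QUB.gs_rm]
  have h1 : 1 ≤ QUB.lam r (QUB.rm true x (QUB.rm true b p)) (X.erase x) := by
    refine cx _ ?_ hX2 ?_
    · rw [g2]
      exact Finset.erase_subset_erase _ hX
    · obtain ⟨y, hy⟩ := hY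
      refine ⟨y, ?_⟩
      rw [g2]
      exact Finset.mem_sdiff.2 ⟨Finset.mem_erase.2 ⟨fun h => hxY (h ▸ hy), hYs hy⟩,
        fun h => Finset.disjoint_left.1 hd (Finset.mem_erase.1 h).2 hy⟩
  have hxG : x ∈ (gs p).erase b := hX hx
  have hxp : x ∉ p.1 := (Finset.mem_sdiff.1 (Finset.mem_erase.1 hxG).2).2
  have e1 : (QUB.rm true x (QUB.rm true b p)).1 = p.1 := rfl
  have e2 : (QUB.rm true x (QUB.rm true b p)).2 = (p.2.erase b).erase x := rfl
  have e3 : (QUB.rm true b p).1 = p.1 := rfl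
  have e4 : (QUB.rm true b p).2 = p.2.erase b := rfl
  have e5 : (p.2.erase b).erase x \ X.erase x = p.2.erase b \ X := by
    ext w
    simp only [Finset.mem_sdiff, Finset.mem_erase]
    constructor
    · rintro ⟨⟨h1, h2, h3⟩, h4⟩
      exact ⟨⟨h2, h3⟩, fun h => h4 ⟨h1, h⟩⟩
    · rintro ⟨⟨h2, h3⟩, h4⟩
      refine ⟨⟨fun h => h4 (h ▸ hx), h2, h3⟩, fun h => h4 h.2⟩
  unfold QUB.lam at h1 hl
  rw [e1, e2, e5] at h1
  rw [e3, e4] at hl
  have m3 := hr.unit (p.1 ∪ X.erase x) x
  have m4 := hr.mono _ _ (Finset.subset_insert x (p.1 ∪ X.erase x))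
  have e6 : insert x (p.1 ∪ X.erase x) = p.1 ∪ X := by
    rw [← Finset.union_insert, Finset.insert_erase hx]
  rw [e6] at m3 m4 ⊢
  omega

private theorem wl_mem {p : Itv E} {x y : E} {X : Finset E} (hX : X ⊆ (gs p).erase y) (hx : x ∈ X) : x ∈ gs p ∧ x ≠ y :=
  ⟨(Finset.mem_erase.1 (hX hx)).2, (Finset.mem_erase.1 (hX hx)).1⟩

/-- `b` is in the triangle and its deletion has a separation of order two -/
theorem win_l (S : TP F4 E) (hNU : NU S.r) {p : Itv E} (hp : p.1 ⊆ p.2) (hC : Cn S.r p) (h3 : Th3 S.r p) (hn : 5 ≤ (gs p).card)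
    (hT : NoTd S.r p) {f a b : E} (hf : f ∈ gs p) (ha : a ∈ gs p) (hb : b ∈ gs p)
    (hfa : f ≠ a) (hfb : f ≠ b) (hab : a ≠ b) (hL : Tri3 S.r p f a b)
    (hex : ∀ w ∈ gs p, ∃ T, InVs S (rm true w p) T) (hR : HasRich S.r (rm true f p))
    {X F : Finset E} (hX : TS S.r p b true X) (haX : a ∈ X) (hF : F ⊆ X.erase a)
    (hcl : S.r (insert a (insert f (p.1 ∪ F))) = S.r (insert f (p.1 ∪ F)))
    (h3F : ∀ w ∈ F, Th3 S.r (rm true w p)) :
    ∃ T : Fm F4 E, InV S.U S.W p T ∧ ¬ EqD S.U S.W p T 0 := by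
  have hr := S.rk
  have hXe : X ⊆ (gs p).erase b := hX.1
  -- the triangle conditions
  have t1 : S.r (insert f (insert a (insert b p.1))) = S.r (insert a (insert b p.1)) := hL.1.1
  have hLb := hL.1.2
  have t2 : S.r (insert a (insert f (insert b p.1))) = S.r (insert f (insert b p.1)) := hL.2
  have t3 : S.r (insert b (insert a (insert f p.1))) = S.r (insert a (insert f p.1)) := by
    rw [Finset.insert_comm a f]
    exact hLb
  have hfX : f ∉ X := ts_split hr hp h3 hb ha hf hab.symm hfb.symm t3 hX haX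
  obtain ⟨Y, hY⟩ : ∃ Y, Y = (gs p).erase b \ X := ⟨_, rfl⟩
  have hXY : X ∪ Y = (gs p).erase b := by rw [hY]; exact Finset.union_sdiff_of_subset hXe
  have hd : Disjoint X Y := by rw [hY]; exact Finset.disjoint_sdiff
  have hYe : Y ⊆ (gs p).erase b := hXY ▸ Finset.subset_union_right
  have hfY : f ∈ Y := by
    rw [hY]
    exact Finset.mem_sdiff.2 ⟨Finset.mem_erase.2 ⟨hfb, hf⟩, hfX⟩
  have haY : a ∉ Y := fun h => Finset.disjoint_left.1 hd haX h
  have cX : 3 ≤ X.card := ts_three hr hp h3 (by omega) hT hb hX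
  have hXc := hX.compl hp hb
  rw [← hY] at hXc
  have cY : 3 ≤ Y.card := ts_three hr hp h3 (by omega) hT hb hXc
  -- the deletions of f and a are 3-connected
  have nb : ¬ Th3 S.r (rm true b p) := by
    intro h
    have h4 := h X (by rw [gs_rm]; exact hXe) hX.2.1 (by rw [gs_rm]; exact hX.2.2.1)
    have h5 : QUB.lam S.r (QUB.rm true b p) X ≤ 1 := hX.2.2.2
    have h6 : 2 ≤ QUB.lam S.r (QUB.rm true b p) X := h4
    omega
  have h3f : Th3 S.r (rm true f p) := by
    refine (tut_tri hr hp h3 (by omega) hT hb hf ha hfb.symm hab.symm hfa ?_ ?_).resolve_left nb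
    · exact hLb
    · rw [Finset.insert_comm b a]
      exact t1
  have cf : Cn S.r (rm true f p) := th3_cn hr hp hC h3 (by omega) hf true
  have hbf : Cn S.r (QUB.rm true f (QUB.rm true b p)) := by
    rw [QUB.rm_comm]
    refine th3_cn hr (QUB.wf_rm hp hf) cf h3f ?_ ?_ true
    · rw [gs_rm, Finset.card_erase_of_mem hf]
      omega
    · rw [gs_rm]
      exact Finset.mem_erase.2 ⟨hfb.symm, hb⟩
  have rb : S.r (p.2.erase b) = S.r p.2 := th3_del1 hr hp h3 (by omega) hb
  have rbf : S.r ((p.2.erase b).erase f) = S.r p.2 := th3_del2 hr hp h3 (by omega) hb hf hfb.symm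
  have hlY : QUB.lam S.r (QUB.rm true b p) Y ≤ 1 := hXc.2.2.2
  have clf := wl_cl hr hp hb (X := Y) (Y := X) (by rw [Finset.union_comm]; exact hXY) hd.symm hfY
    (Finset.card_pos.1 (by rw [Finset.card_erase_of_mem hfY]; omega)) ⟨a, haX⟩ hlY rb rbf hbf
  -- a is not in the closure of Y
  have hYG : Y ⊆ gs p := hYe.trans (Finset.erase_subset _ _)
  have kaY : S.r (insert a (p.1 ∪ Y.erase f)) = S.r (p.1 ∪ Y.erase f) + 1 := by
    by_contra hne
    have u1 := hr.unit (p.1 ∪ Y.erase f) a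
    have u2 := hr.mono _ _ (Finset.subset_insert a (p.1 ∪ Y.erase f))
    have u3 : S.r (insert a (p.1 ∪ Y.erase f)) = S.r (p.1 ∪ Y.erase f) := by omega
    -- then a, b are in the closure of Y
    have e6 : insert f (p.1 ∪ Y.erase f) = p.1 ∪ Y := by
      rw [← Finset.union_insert, Finset.insert_erase hfY]
    have v1 : S.r (insert a (p.1 ∪ Y)) = S.r (p.1 ∪ Y) := by
      have w1 := QUB.marg hr (show p.1 ∪ Y.erase f ⊆ p.1 ∪ Y from Finset.union_subset_union_right (Finset.erase_subset _ _)) a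
      have w2 := hr.mono _ _ (Finset.subset_insert a (p.1 ∪ Y))
      omega
    have v2 : S.r (p.1 ∪ insert b (insert a Y)) = S.r (p.1 ∪ insert a Y) :=
      tu_cl hr t3 (Finset.mem_insert_self a Y) (Finset.mem_insert_of_mem hfY)
    have v3 : p.1 ∪ insert a Y = insert a (p.1 ∪ Y) := Finset.union_insert _ _ _
    have hZ : insert b Y ⊆ gs p := Finset.insert_subset hb hYG
    have c1 : gs p \ insert b Y = X := by
      ext w
      have m1 : w ∈ X ∨ w ∈ Y ↔ w ∈ (gs p).erase b := by rw [← hXY, Finset.mem_union]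
      rw [Finset.mem_erase] at m1
      have m2 : w ∈ X → w ∉ Y := fun h => Finset.disjoint_left.1 hd h
      simp only [Finset.mem_sdiff, Finset.mem_insert, not_or]
      tauto
    have q1 := h3 (insert b Y) hZ (by
      have := Finset.card_le_card (Finset.subset_insert b Y)
      omega) (by
      have e' : Pool.Agent.QU.gs p \ insert b Y = gs p \ insert b Y := rfl
      rw [e', c1]
      omega)
    have q1' : 2 ≤ S.r (p.1 ∪ insert b Y) + S.r (p.2 \ insert b Y) - S.r p.2 - S.r p.1 := q1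
    have q2 : S.r ((QUB.rm true b p).1 ∪ Y) + S.r ((QUB.rm true b p).2 \ Y) - S.r (QUB.rm true b p).2 - S.r (QUB.rm true b p).1 ≤ 1 := hlY
    have e1 : (QUB.rm true b p).1 = p.1 := rfl
    have e2 : (QUB.rm true b p).2 = p.2.erase b := rfl
    have e3 : p.2.erase b \ Y = p.2 \ insert b Y := by
      ext w
      simp only [Finset.mem_sdiff, Finset.mem_erase, Finset.mem_insert, not_or]
      tauto
    rw [e1, e2, rb, e3] at q2
    have v4 := hr.mono (p.1 ∪ insert b Y) (p.1 ∪ insert b (insert a Y)) (Finset.union_subset_union_right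
      (Finset.insert_subset_insert _ (Finset.subset_insert _ _)))
    rw [v2, v3, v1] at v4
    omega
  have memF : ∀ w ∈ F, w ∈ X ∧ w ≠ a := fun w hw => ⟨(Finset.mem_erase.1 (hF hw)).2, (Finset.mem_erase.1 (hF hw)).1⟩
  have hXG : X ⊆ gs p := hXe.trans (Finset.erase_subset _ _)
  refine key_f4 S hNU hp hf ha hb hfa hfb hab hL (F := F) (A := Y.erase f) (fun w hw => hXG (memF w hw).1) (fun h => hfX (memF f h).1)
    (fun h => (memF a h).2 rfl) (fun h => (Finset.mem_erase.1 (hXe (memF b h).1)).1 rfl) ((Finset.erase_subset _ _).trans hYG)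
    (fun h => (Finset.mem_erase.1 h).1 rfl) ?_ hex hR (fun w hw => ?_) hcl clf kaY
  · rw [Finset.disjoint_left]
    intro w h1 h2
    exact Finset.disjoint_left.1 hd (memF w h2).1 (Finset.mem_erase.1 h1).2
  · have hv := fv_of hr hp hC h3 hn hb hX cX (by rw [← hY]; exact cY) (memF w hw).1 (by rw [← hY]; exact hfY) (t := true) (u := true)
      (h3F w hw) h3f
    exact ⟨hv.cn hr (th3_cn hr hp hC h3 (by omega) (hXG (memF w hw).1) true), hv.ok hr⟩

/-- the same for a 2-side with the minimum number of elements among all 2-sides of deletions -/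
theorem win_min (S : TP F4 E) (hNU : NU S.r) {p : Itv E} (hp : p.1 ⊆ p.2) (hC : Cn S.r p) (h3 : Th3 S.r p) (hn : 5 ≤ (gs p).card)
    (hT : NoTd S.r p) {f a b : E} (hf : f ∈ gs p) (ha : a ∈ gs p) (hb : b ∈ gs p)
    (hfa : f ≠ a) (hfb : f ≠ b) (hab : a ≠ b) (hL : Tri3 S.r p f a b)
    (hex : ∀ w ∈ gs p, ∃ T, InVs S (rm true w p) T) (hR : HasRich S.r (rm true f p))
    {X : Finset E} (hX : TS S.r p b true X) (haX : a ∈ X)
    (hmin : ∀ v ∈ gs p, ∀ Z, TS S.r p v true Z → X.card ≤ Z.card) :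
    ∃ T : Fm F4 E, InV S.U S.W p T ∧ ¬ EqD S.U S.W p T 0 := by
  have hr := S.rk
  have h3X : ∀ w ∈ X, Th3 S.r (rm true w p) := fun w hw =>
    ts_th3 hr hp hC h3 (by omega) (a := fun t => t = true) (D := ∅) hb rfl hX (Finset.disjoint_empty_right _) (Finset.notMem_empty _)
      (fun v hv t ht Z hZ => ts_three hr hp h3 (by omega) hT hv (ht ▸ hZ)) (fun v hv t ht Z hZ _ => hmin v hv Z (ht ▸ hZ)) hw rfl
  have cX : 3 ≤ X.card := ts_three hr hp h3 (by omega) hT hb hX
  have hXe : X ⊆ (gs p).erase b := hX.1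
  have ca : Cn S.r (rm true a p) := th3_cn hr hp hC h3 (by omega) ha true
  have hba : Cn S.r (QUB.rm true a (QUB.rm true b p)) := by
    rw [QUB.rm_comm]
    refine th3_cn hr (QUB.wf_rm hp ha) ca (h3X a haX) ?_ ?_ true
    · rw [gs_rm, Finset.card_erase_of_mem ha]
      omega
    · rw [gs_rm]
      exact Finset.mem_erase.2 ⟨hab.symm, hb⟩
  have rb : S.r (p.2.erase b) = S.r p.2 := th3_del1 hr hp h3 (by omega) hb
  have rba : S.r ((p.2.erase b).erase a) = S.r p.2 := th3_del2 hr hp h3 (by omega) hb ha hab.symm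
  have cl := wl_cl hr hp hb (X := X) (Y := (gs p).erase b \ X) (Finset.union_sdiff_of_subset hXe) Finset.disjoint_sdiff haX
    (Finset.card_pos.1 (by rw [Finset.card_erase_of_mem haX]; omega)) (Finset.card_pos.1 (by have := hX.2.2.1; omega)) hX.2.2.2 rb rba hba
  refine win_l S hNU hp hC h3 hn hT hf ha hb hfa hfb hab hL hex hR hX haX (F := X.erase a) (Finset.Subset.refl _) ?_
    (fun w hw => h3X w (Finset.mem_erase.1 hw).2)
  have w1 := QUB.marg hr (Finset.subset_insert f (p.1 ∪ X.erase a)) a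
  have w2 := hr.mono _ _ (Finset.subset_insert a (insert f (p.1 ∪ X.erase a)))
  omega

/-- WL: the deletion of the element `b` of the triangle is not 3-connected, the deletions of the elements outside of the triangle are, and the
deletion of one other element `f` of the triangle is rich -/
theorem wl (S : TP F4 E) (hNU : NU S.r) {p : Itv E} (hp : p.1 ⊆ p.2) (hC : Cn S.r p) (h3 : Th3 S.r p) (hn : 5 ≤ (gs p).card)
    (hT : NoTd S.r p) {f a b : E} (hf : f ∈ gs p) (ha : a ∈ gs p) (hb : b ∈ gs p)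
    (hfa : f ≠ a) (hfb : f ≠ b) (hab : a ≠ b) (hL : Tri3 S.r p f a b)
    (hex : ∀ w ∈ gs p, ∃ T, InVs S (rm true w p) T) (hR : HasRich S.r (rm true f p))
    (hnb : ¬ Th3 S.r (rm true b p)) (h3w : ∀ w ∈ gs p, w ≠ f → w ≠ a → w ≠ b → Th3 S.r (rm true w p)) :
    ∃ T : Fm F4 E, InV S.U S.W p T ∧ ¬ EqD S.U S.W p T 0 := by
  have hr := S.rk
  have t1 : S.r (insert f (insert a (insert b p.1))) = S.r (insert a (insert b p.1)) := hL.1.1
  have t2 : S.r (insert a (insert f (insert b p.1))) = S.r (insert f (insert b p.1)) := hL.2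
  have t3 : S.r (insert b (insert f (insert a p.1))) = S.r (insert f (insert a p.1)) := hL.1.2
  -- a side of `p \ b`
  obtain ⟨X, hX, haX⟩ : ∃ X, TS S.r p b true X ∧ a ∈ X := by
    unfold Th3 at hnb
    push Not at hnb
    obtain ⟨C, hC1, hC2, hD2, hl⟩ := hnb
    have hg : gs (QUB.rm true b p) = (gs p).erase b := QUB.gs_rm true b p
    have hCe : C ⊆ (gs p).erase b := hg ▸ hC1
    have hl' : QUB.lam S.r (QUB.rm true b p) C ≤ 1 := by
      have : QUB.lam S.r (QUB.rm true b p) C < 2 := hl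
      omega
    have hts : TS S.r p b true C := ⟨hCe, hC2, by rw [← hg]; exact hD2, hl'⟩
    by_cases haC : a ∈ C
    · exact ⟨C, hts, haC⟩
    · exact ⟨_, hts.compl hp hb, Finset.mem_sdiff.2 ⟨Finset.mem_erase.2 ⟨hab, ha⟩, haC⟩⟩
  have hXe : X ⊆ (gs p).erase b := hX.1
  have cX : 3 ≤ X.card := ts_three hr hp h3 (by omega) hT hb hX
  have hfX : f ∉ X := ts_split hr hp h3 hb ha hf hab.symm hfb.symm (by rw [Finset.insert_comm a f]; exact t3) hX haX
  have h3a : Th3 S.r (rm true a p) := by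
    refine (tut_tri hr hp h3 (by omega) hT hb ha hf hab.symm hfb.symm hfa.symm ?_ ?_).resolve_left hnb
    · rw [Finset.insert_comm a f]
      exact t3
    · rw [Finset.insert_comm b f]
      exact t2
  have ca : Cn S.r (rm true a p) := th3_cn hr hp hC h3 (by omega) ha true
  have hba : Cn S.r (QUB.rm true a (QUB.rm true b p)) := by
    rw [QUB.rm_comm]
    refine th3_cn hr (QUB.wf_rm hp ha) ca h3a ?_ ?_ true
    · rw [gs_rm, Finset.card_erase_of_mem ha]
      omega
    · rw [gs_rm]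
      exact Finset.mem_erase.2 ⟨hab.symm, hb⟩
  have rb : S.r (p.2.erase b) = S.r p.2 := th3_del1 hr hp h3 (by omega) hb
  have rba : S.r ((p.2.erase b).erase a) = S.r p.2 := th3_del2 hr hp h3 (by omega) hb ha hab.symm
  have cl := wl_cl hr hp hb (X := X) (Y := (gs p).erase b \ X) (Finset.union_sdiff_of_subset hXe) Finset.disjoint_sdiff haX
    (Finset.card_pos.1 (by rw [Finset.card_erase_of_mem haX]; omega)) (Finset.card_pos.1 (by have := hX.2.2.1; omega)) hX.2.2.2 rb rba hba
  refine win_l S hNU hp hC h3 hn hT hf ha hb hfa hfb hab hL hex hR hX haX (F := X.erase a) (Finset.Subset.refl _) ?_ (fun w hw => ?_)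
  · have w1 := QUB.marg hr (Finset.subset_insert f (p.1 ∪ X.erase a)) a
    have w2 := hr.mono _ _ (Finset.subset_insert a (insert f (p.1 ∪ X.erase a)))
    omega
  · have w1 := Finset.mem_erase.1 hw
    have w2 := Finset.mem_erase.1 (hXe w1.2)
    exact h3w w w2.2 (fun h => hfX (h ▸ w1.2)) w1.1 w2.1

end Pool.Agent.QU
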