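import Pool.Agent.QUR.TwoKey
import Pool.Agent.QUR.WinL
import Pool.Agent.QUR.ExF
import Pool.Agent.QUB.Bix
import Pool.Agent.QUB.Tri

/-!
# QUR/TwoF4: the 2-side lemma for twisted pairs of codes over `F4`

`two_wf`: the deletion of an element `w` outside of a triangle is not 3-connected. Take a minimum 2-side `X` of a deletion which is disjoint
from the triangle `L`. The deletions of the elements of `X` are 3-connected, `p / w` is `Ok` (Bixby), `L` is a triangle of `p / w`, so that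
there is an element `f` of `L` with `p \ f` 3-connected and `p / w \ f` fine; `two_key` applies.
-/

set_option autoImplicit false

namespace Pool.Agent.QU

open QUB (Cn Ok Rk)
open Pool.Agent.FRM

section matroid

variable {E : Type} [DecidableEq E] {r : Finset E → ℤ} {p : Itv E}

/-- the contraction is fine if the deletion has a 2-side with three elements on each side -/
theorem ok_con (hr : Rk r) (hp : p.1 ⊆ p.2) (h3 : Th3 r p) {w : E} (hw : w ∈ gs p) {X : Finset E} (hX : TS r p w true X)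
    (hX3 : 3 ≤ X.card) (hY3 : 3 ≤ ((gs p).erase w \ X).card) : Ok r (QUB.rm false w p) := by
  intro A hA hl hh
  obtain ⟨⟨N, -, hN⟩, ⟨N', -, hN'⟩⟩ := hh
  rw [QUB.gs_rm] at hA hN'
  set G := (gs p).erase w with hG
  change A ⊆ G at hA
  change 3 ≤ (N' ∩ (G \ A)).card at hN'
  have c1 := Finset.card_le_card (Finset.inter_subset_right : N ∩ A ⊆ A)
  have c2 := Finset.card_le_card (Finset.inter_subset_right : N' ∩ (G \ A) ⊆ G \ A)
  have hXG : X ⊆ G := hX.1
  have u1 := QUB.unc hr hp hw (A := X) (A' := A) hXG hA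
  have u2 := QUB.unc hr hp hw (A := X) (A' := G \ A) hXG Finset.sdiff_subset
  have hlX := hX.2.2.2
  have hwG : w ∉ G := Finset.notMem_erase w _
  have hl' : QUB.lam r (QUB.rm false w p) (G \ A) ≤ 1 := by
    have e1 := QUB.lam_compl r (p := QUB.rm false w p) (QUB.wf_rm hp hw) (A := A) (by rw [QUB.gs_rm]; exact hA)
    rw [QUB.gs_rm] at e1
    exact e1.trans_le hl
  have e2 : G \ (G \ A) = A := by
    rw [Finset.sdiff_sdiff_eq_self hA]
  change QUB.lam r p (X ∩ A) + QUB.lam r p ((G \ X) ∩ (G \ A)) ≤ _ at u1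
  change QUB.lam r p (X ∩ (G \ A)) + QUB.lam r p ((G \ X) ∩ (G \ (G \ A))) ≤ _ at u2
  rw [e2] at u2
  -- quadrants
  have key : ∀ Q ⊆ G, 2 ≤ Q.card → 2 ≤ (G \ Q).card → 2 ≤ QUB.lam r p Q := by
    intro Q hQ q1 q2
    refine h3 Q (hQ.trans (Finset.erase_subset _ _)) q1 (q2.trans (Finset.card_le_card ?_))
    intro z hz
    have hz' := Finset.mem_sdiff.1 hz
    exact Finset.mem_sdiff.2 ⟨(Finset.mem_erase.1 hz'.1).2, hz'.2⟩
  have cX : (X ∩ A).card + (X ∩ (G \ A)).card = X.card := by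
    have : X ∩ (G \ A) = X \ A := by
      ext z
      simp only [Finset.mem_inter, Finset.mem_sdiff]
      exact ⟨fun h => ⟨h.1, h.2.2⟩, fun h => ⟨h.1, hXG h.1, h.2⟩⟩
    rw [this, Finset.card_inter_add_card_sdiff]
  have cY : ((G \ X) ∩ A).card + ((G \ X) ∩ (G \ A)).card = (G \ X).card := by
    have : (G \ X) ∩ (G \ A) = (G \ X) \ A := by
      ext z
      simp only [Finset.mem_inter, Finset.mem_sdiff]
      exact ⟨fun h => ⟨h.1, h.2.2⟩, fun h => ⟨h.1, h.1.1, h.2⟩⟩
    rw [this, Finset.card_inter_add_card_sdiff]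
  have cA : (X ∩ A).card + ((G \ X) ∩ A).card = A.card := by
    have : (G \ X) ∩ A = A \ X := by
      ext z
      simp only [Finset.mem_inter, Finset.mem_sdiff]
      exact ⟨fun h => ⟨h.2, h.1.2⟩, fun h => ⟨⟨hA h.1, h.2⟩, h.1⟩⟩
    rw [this, Finset.inter_comm, Finset.card_inter_add_card_sdiff]
  have cB : (X ∩ (G \ A)).card + ((G \ X) ∩ (G \ A)).card = (G \ A).card := by
    have : (G \ X) ∩ (G \ A) = (G \ A) \ X := by
      ext z
      simp only [Finset.mem_inter, Finset.mem_sdiff]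
      exact ⟨fun h => ⟨h.2, h.1.2⟩, fun h => ⟨⟨h.1.1, h.2⟩, h.1⟩⟩
    rw [this, Finset.inter_comm, Finset.card_inter_add_card_sdiff]
  have k1 : (X ∩ A).card ≤ 1 ∨ ((G \ X) ∩ (G \ A)).card ≤ 1 := by
    by_contra hcon
    rw [not_or] at hcon
    have q1 := key (X ∩ A) (Finset.inter_subset_left.trans hXG) (by omega) (by
      refine le_trans (by omega : 2 ≤ (G \ X).card) (Finset.card_le_card ?_)
      exact Finset.sdiff_subset_sdiff Finset.Subset.rfl Finset.inter_subset_left)
    have q2 := key ((G \ X) ∩ (G \ A)) (Finset.inter_subset_left.trans Finset.sdiff_subset) (by omega) (by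
      refine le_trans (by omega : 2 ≤ X.card) (Finset.card_le_card ?_)
      intro z hz
      exact Finset.mem_sdiff.2 ⟨hXG hz, fun h => (Finset.mem_sdiff.1 (Finset.mem_inter.1 h).1).2 hz⟩)
    omega
  have k2 : (X ∩ (G \ A)).card ≤ 1 ∨ ((G \ X) ∩ A).card ≤ 1 := by
    by_contra hcon
    rw [not_or] at hcon
    have q1 := key (X ∩ (G \ A)) (Finset.inter_subset_left.trans hXG) (by omega) (by
      refine le_trans (by omega : 2 ≤ (G \ X).card) (Finset.card_le_card ?_)
      exact Finset.sdiff_subset_sdiff Finset.Subset.rfl Finset.inter_subset_left)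
    have q2 := key ((G \ X) ∩ A) (Finset.inter_subset_left.trans Finset.sdiff_subset) (by omega) (by
      refine le_trans (by omega : 2 ≤ X.card) (Finset.card_le_card ?_)
      intro z hz
      exact Finset.mem_sdiff.2 ⟨hXG hz, fun h => (Finset.mem_sdiff.1 (Finset.mem_inter.1 h).1).2 hz⟩)
    omega
  omega

/-- an element of the closure of two elements of the other side can be moved -/
theorem ts_move (hr : Rk r) (hp : p.1 ⊆ p.2) (h3 : Th3 r p) (hn : 4 ≤ (gs p).card) (hT : NoTd r p) {w : E} (hw : w ∈ gs p)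
    {A : Finset E} (hA : TS r p w true A) {x y z : E} (hx : x ∈ gs p) (hy : y ∈ gs p) (hxw : x ≠ w) (hyw : y ≠ w)
    (hxA : x ∉ A) (hyA : y ∉ A) (h1 : r (insert z (insert x (insert y p.1))) = r (insert x (insert y p.1))) :
    TS r p w true (A.erase z) := by
  by_cases hz : z ∈ A
  · have hA3 := ts_three hr hp h3 hn hT hw hA
    obtain ⟨a1, a2, a3, a4⟩ := hA
    refine ⟨(Finset.erase_subset _ _).trans a1, by rw [Finset.card_erase_of_mem hz]; omega,
      a3.trans (Finset.card_le_card (Finset.sdiff_subset_sdiff Finset.Subset.rfl (Finset.erase_subset _ _))), ?_⟩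
    have e1 : (QUB.rm true w p).1 = p.1 := rfl
    have e2 : (QUB.rm true w p).2 = p.2.erase w := rfl
    have hzG := Finset.mem_erase.1 (a1 hz)
    have hzp := Finset.mem_sdiff.1 hzG.2
    have e3 : p.2.erase w \ A.erase z = p.1 ∪ insert z (p.2.erase w \ A) := by
      ext v
      have h1 : v ∈ p.1 → v ∈ p.2 := fun h => hp h
      have h2 : v ∈ A → v ∉ p.1 := fun h => (Finset.mem_sdiff.1 (Finset.mem_erase.1 (a1 h)).2).2
      have h3 : v ∈ p.1 → v ≠ w := fun h h' => (Finset.mem_sdiff.1 hw).2 (h' ▸ h)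
      simp only [Finset.mem_sdiff, Finset.mem_erase, Finset.mem_union, Finset.mem_insert]
      by_cases hvz : v = z
      · subst hvz
        simp only [ne_eq, not_true_eq_false, false_and, not_false_eq_true, and_true, true_or, or_true, iff_true]
        exact ⟨hzG.1, hzp.1⟩
      · tauto
    have e4 : p.1 ∪ (p.2.erase w \ A) = p.2.erase w \ A := by
      refine Finset.union_eq_right.2 fun v hv => Finset.mem_sdiff.2 ⟨Finset.mem_erase.2 ⟨fun h' => ?_, hp hv⟩, fun h => ?_⟩
      · exact (Finset.mem_sdiff.1 hw).2 (h' ▸ hv)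
      · exact (Finset.mem_sdiff.1 (Finset.mem_erase.1 (a1 h)).2).2 hv
    have m : ∀ v ∈ gs p, v ≠ w → v ∉ A → v ∈ p.2.erase w \ A := fun v h1 h2 h3 =>
      Finset.mem_sdiff.2 ⟨Finset.mem_erase.2 ⟨h2, (Finset.mem_sdiff.1 h1).1⟩, h3⟩
    have e5 := tu_cl hr (C := p.1) (x := z) (y := x) (z := y) h1 (A := p.2.erase w \ A) (m x hx hxw hxA) (m y hy hyw hyA)
    unfold QUB.lam at a4 ⊢
    rw [e1, e2] at a4 ⊢
    rw [e3, e5, e4]
    have m1 := hr.mono (p.1 ∪ A.erase z) (p.1 ∪ A) (Finset.union_subset_union_right (Finset.erase_subset _ _))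
    omega
  · rw [Finset.erase_eq_of_notMem hz]
    exact hA

/-- the symmetric form of `Tri3` -/
private theorem tf_sym {f a b : E} (h : Tri3 r p f a b) :
    r (insert f (insert a (insert b p.1))) = r (insert a (insert b p.1)) ∧
    r (insert a (insert f (insert b p.1))) = r (insert f (insert b p.1)) ∧
    r (insert b (insert f (insert a p.1))) = r (insert f (insert a p.1)) := by
  exact ⟨h.1.1, h.2, h.1.2⟩

/-- a 2-side which is disjoint from the triangle -/
theorem ex_side (hr : Rk r) (hp : p.1 ⊆ p.2) (h3 : Th3 r p) (hn : 4 ≤ (gs p).card) (hT : NoTd r p) {f a b w : E}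
    (hf : f ∈ gs p) (ha : a ∈ gs p) (hb : b ∈ gs p) (hw : w ∈ gs p) (hwf : w ≠ f) (hwa : w ≠ a) (hwb : w ≠ b)
    (hfa : f ≠ a) (hfb : f ≠ b) (hab : a ≠ b) (hL : Tri3 r p f a b)
    (hnw : ¬ Th3 r (QUB.rm true w p)) : ∃ Z, TS r p w true Z ∧ Disjoint Z {f, a, b} := by
  obtain ⟨l1, l2, l3⟩ := tf_sym hL
  have hdis : ∀ Z : Finset E, f ∉ Z → a ∉ Z → b ∉ Z → Disjoint Z {f, a, b} := by
    intro Z h1 h2 h3
    rw [Finset.disjoint_right]
    intro x hx
    simp only [Finset.mem_insert, Finset.mem_singleton] at hx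
    rcases hx with rfl | rfl | rfl
    · exact h1
    · exact h2
    · exact h3
  have hmv : ∀ A, TS r p w true A → (f ∉ A ∧ a ∉ A) ∨ (f ∉ A ∧ b ∉ A) ∨ (a ∉ A ∧ b ∉ A) → ∃ Z, TS r p w true Z ∧ Disjoint Z {f, a, b} := by
    intro A hA h
    rcases h with ⟨h1, h2⟩ | ⟨h1, h2⟩ | ⟨h1, h2⟩
    · refine ⟨A.erase b, ts_move hr hp h3 hn hT hw hA hf ha hwf.symm hwa.symm h1 h2 l3, ?_⟩
      exact hdis _ (fun h => h1 (Finset.mem_of_mem_erase h)) (fun h => h2 (Finset.mem_of_mem_erase h)) (Finset.notMem_erase _ _)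
    · refine ⟨A.erase a, ts_move hr hp h3 hn hT hw hA hf hb hwf.symm hwb.symm h1 h2 l2, ?_⟩
      exact hdis _ (fun h => h1 (Finset.mem_of_mem_erase h)) (Finset.notMem_erase _ _) (fun h => h2 (Finset.mem_of_mem_erase h))
    · refine ⟨A.erase f, ts_move hr hp h3 hn hT hw hA ha hb hwa.symm hwb.symm h1 h2 l1, ?_⟩
      exact hdis _ (Finset.notMem_erase _ _) (fun h => h1 (Finset.mem_of_mem_erase h)) (fun h => h2 (Finset.mem_of_mem_erase h))
  have hg : gs (QUB.rm true w p) = (gs p).erase w := QUB.gs_rm true w p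
  unfold Th3 at hnw
  push Not at hnw
  obtain ⟨A, hA, hA2, hB2, hl⟩ := hnw
  have hTS : TS r p w true A := by
    rw [hg] at hA hB2
    exact ⟨hA, hA2, hB2, by
      have : Pool.Agent.QU.lam r (QUB.rm true w p) A = QUB.lam r (QUB.rm true w p) A := rfl
      omega⟩
  by_cases hc : (f ∉ A ∧ a ∉ A) ∨ (f ∉ A ∧ b ∉ A) ∨ (a ∉ A ∧ b ∉ A)
  · exact hmv A hTS hc
  · refine hmv _ (hTS.compl hp hw) ?_
    simp only [Finset.mem_sdiff, Finset.mem_erase]
    tauto

end matroid

variable {E : Type} [Fintype E] [DecidableEq E]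

/-- (2) the 2-side lemma: `p \ w` is not 3-connected, `w` outside of the triangle -/
theorem two_wf (S : TP F4 E) (hNU : NU S.r) {p : Itv E} (hp : p.1 ⊆ p.2) (hC : Cn S.r p) (h3 : Th3 S.r p)
    (hn : 9 ≤ (gs p).card) (hT : NoTd S.r p)
    (hA : ∀ x ∈ gs p, ∀ y ∈ gs p, ∀ z ∈ gs p, x ≠ y → x ≠ z → y ≠ z → Tri3 S.r p x y z → Th3 S.r (rm true x p) → HasRich S.r (rm true x p))
    {f a b w : E} (hf : f ∈ gs p) (ha : a ∈ gs p) (hb : b ∈ gs p) (hw : w ∈ gs p)
    (hfa : f ≠ a) (hfb : f ≠ b) (hab : a ≠ b) (hwf : w ≠ f) (hwa : w ≠ a) (hwb : w ≠ b) (hL : Tri3 S.r p f a b)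
    (hex : ∀ w ∈ gs p, ∀ t, ∃ T, InVs S (rm t w p) T)
    (hnw : ¬ Th3 S.r (rm true w p)) : ∃ T : Fm F4 E, InV S.U S.W p T ∧ ¬ EqD S.U S.W p T 0 := by
  classical
  have hr := S.rk
  obtain ⟨Z0, hZ0, hd0⟩ := ex_side hr hp h3 (by omega) hT hf ha hb hw hwf hwa hwb hfa hfb hab hL hnw
  have hP : ∃ n, ∃ v ∈ gs p, ∃ Z, TS S.r p v true Z ∧ Disjoint Z {f, a, b} ∧ Z.card = n := ⟨_, w, hw, Z0, hZ0, hd0, rfl⟩
  obtain ⟨v, hv, X, hX, hXL, hXc⟩ := Nat.find_spec hP
  have hmin : ∀ v' ∈ gs p, ∀ t, (fun s : Bool => s = true) t → ∀ Z, TS S.r p v' t Z → Disjoint Z {f, a, b} → X.card ≤ Z.card := by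
    intro v' hv' t ht Z hZ hZL
    have ht' : t = true := ht
    subst ht'
    rw [hXc]
    exact Nat.find_min' hP ⟨v', hv', Z, hZ, hZL, rfl⟩
  obtain ⟨l1, l2, l3⟩ := tf_sym hL
  have hfX : f ∉ X := fun h => Finset.disjoint_left.1 hXL h (by simp)
  have haX : a ∉ X := fun h => Finset.disjoint_left.1 hXL h (by simp)
  have hbX : b ∉ X := fun h => Finset.disjoint_left.1 hXL h (by simp)
  have hXG : X ⊆ (gs p).erase v := hX.1
  have hXp : X ⊆ gs p := hXG.trans (Finset.erase_subset _ _)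
  have hvX : v ∉ X := fun h => (Finset.mem_erase.1 (hXG h)).1 rfl
  -- `v` is not in the triangle
  have hsp : ∀ x ∈ gs p, ∀ y ∈ gs p, ∀ z ∈ gs p, x ≠ y → x ≠ z → y ∉ X → z ∉ X →
      S.r (insert x (insert y (insert z p.1))) = S.r (insert y (insert z p.1)) → v ≠ x := by
    intro x hx y hy z hz hxy hxz hyX hzX h1 hvx
    subst hvx
    have h := ts_split hr hp h3 hv hy hz hxy hxz h1 (hX.compl hp hv)
      (Finset.mem_sdiff.2 ⟨Finset.mem_erase.2 ⟨hxy.symm, hy⟩, hyX⟩)
    exact h (Finset.mem_sdiff.2 ⟨Finset.mem_erase.2 ⟨hxz.symm, hz⟩, hzX⟩)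
  have hvf : v ≠ f := hsp f hf a ha b hb hfa hfb haX hbX l1
  have hva : v ≠ a := hsp a ha f hf b hb hfa.symm hab hfX hbX l2
  have hvb : v ≠ b := hsp b hb f hf a ha hfb.symm hab.symm hfX haX l3
  have hvL : v ∉ ({f, a, b} : Finset E) := by simp [hvf, hva, hvb]
  have hH : ∀ v ∈ gs p, ∀ t, (fun s : Bool => s = true) t → ∀ Z, TS S.r p v t Z → 3 ≤ Z.card := by
    intro v' hv' t ht Z hZ
    have ht' : t = true := ht
    subst ht'
    exact ts_three hr hp h3 (by omega) hT hv' hZ
  have hX3 : 3 ≤ X.card := hH v hv true rfl X hX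
  have hY3 : 3 ≤ ((gs p).erase v \ X).card := hH v hv true rfl _ (hX.compl hp hv)
  have hTh : ∀ e ∈ X, Th3 S.r (rm true e p) := fun e he =>
    ts_th3 hr hp hC h3 (by omega) (a := fun s : Bool => s = true) (D := {f, a, b}) hv rfl hX hXL hvL hH hmin he rfl
  -- no coloops in `X`
  have hcl : ∀ e ∈ X, S.r (p.1 ∪ X.erase e) = S.r (p.1 ∪ X) := by
    intro e he
    have hI : insert e (p.1 ∪ X.erase e) = p.1 ∪ X := by
      rw [← Finset.union_insert, Finset.insert_erase he]
    have m1 := hr.mono (p.1 ∪ X.erase e) (p.1 ∪ X) (Finset.union_subset_union_right (Finset.erase_subset _ _))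
    by_contra hne
    have hTS : TS S.r p v true (X.erase e) := by
      refine ⟨(Finset.erase_subset _ _).trans hXG, by rw [Finset.card_erase_of_mem he]; omega,
        le_trans (by omega : 2 ≤ ((gs p).erase v \ X).card)
          (Finset.card_le_card (Finset.sdiff_subset_sdiff Finset.Subset.rfl (Finset.erase_subset _ _))), ?_⟩
      have a4 := hX.2.2.2
      have e1 : (QUB.rm true v p).1 = p.1 := rfl
      have e2 : (QUB.rm true v p).2 = p.2.erase v := rfl
      have heG := Finset.mem_erase.1 (hXG he)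
      have hep := Finset.mem_sdiff.1 heG.2
      have e3 : p.2.erase v \ X.erase e = insert e (p.2.erase v \ X) := by
        ext u
        simp only [Finset.mem_sdiff, Finset.mem_erase, Finset.mem_insert]
        by_cases hu : u = e
        · subst hu
          simp only [ne_eq, not_true_eq_false, false_and, not_false_eq_true, and_true, true_or, iff_true]
          exact ⟨heG.1, hep.1⟩
        · tauto
      have m2 := hr.unit (p.2.erase v \ X) e
      unfold QUB.lam at a4 ⊢
      rw [e1, e2] at a4 ⊢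
      rw [e3]
      omega
    have h1 := hmin v hv true rfl _ hTS (Finset.disjoint_of_subset_left (Finset.erase_subset _ _) hXL)
    rw [Finset.card_erase_of_mem he] at h1
    omega
  have hok : Ok S.r (rm false v p) := ok_con hr hp h3 hv hX hX3 hY3
  have hcn : Cn S.r (rm false v p) := th3_cn hr hp hC h3 (by omega) hv false
  have hwf' : (rm false v p).1 ⊆ (rm false v p).2 := QUB.wf_rm hp hv
  have hgv : gs (rm false v p) = (gs p).erase v := gs_rm false v p
  have hmem : ∀ x ∈ gs p, v ≠ x → x ∈ gs (rm false v p) := fun x hx h => by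
    rw [hgv]; exact Finset.mem_erase.2 ⟨h.symm, hx⟩
  have hup : ∀ x y z : E, S.r (insert x (insert y (insert z p.1))) = S.r (insert y (insert z p.1)) →
      S.r (insert x (insert y (insert z (rm false v p).1))) = S.r (insert y (insert z (rm false v p).1)) := by
    intro x y z h
    have e := tu_cl hr (C := p.1) (x := x) (y := y) (z := z) h (A := {y, z, v}) (by simp) (by simp)
    have e1 : (rm false v p).1 = insert v p.1 := rfl
    have i1 : p.1 ∪ insert x ({y, z, v} : Finset E) = insert x (insert y (insert z (insert v p.1))) := by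
      ext u; simp only [Finset.mem_union, Finset.mem_insert, Finset.mem_singleton]; tauto
    have i2 : p.1 ∪ ({y, z, v} : Finset E) = insert y (insert z (insert v p.1)) := by
      ext u; simp only [Finset.mem_union, Finset.mem_insert, Finset.mem_singleton]; tauto
    rw [i1, i2] at e
    rw [e1]
    exact e
  -- the conclusion for one element of the triangle
  have fin : ∀ f' ∈ gs p, ∀ a' ∈ gs p, ∀ b' ∈ gs p, f' ≠ a' → f' ≠ b' → a' ≠ b' → Tri3 S.r p f' a' b' → f' ∉ X → a' ∉ X → b' ∉ X →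
      v ≠ f' → v ≠ a' → v ≠ b' → Th3 S.r (rm true f' p) → Ok S.r (rm true f' (rm false v p)) →
      ∃ T : Fm F4 E, InV S.U S.W p T ∧ ¬ EqD S.U S.W p T 0 := by
    intro f' hf' a' ha' b' hb' hfa' hfb' hab' hL' hfX' haX' hbX' hvf' hva' hvb' h3f hokf
    have hfY : f' ∈ (gs p).erase v \ X := Finset.mem_sdiff.2 ⟨Finset.mem_erase.2 ⟨hvf'.symm, hf'⟩, hfX'⟩
    have hN : ∀ e ∈ X, Ex S true f' (rm true e p) := by
      intro e he
      have hFv := fv_of hr hp hC h3 (by omega) hv hX hX3 hY3 he hfY (hTh e he) h3f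
      have heG : e ∈ gs p := hXp he
      have hef : f' ≠ e := fun h => hfX' (h ▸ he)
      refine ex_ok S hNU (QUB.wf_rm hp heG) ?_ (hFv.cn hr (th3_cn hr hp hC h3 (by omega) heG true)) (hFv.ok hr) (hex e heG true)
      rw [gs_rm]
      exact Finset.mem_erase.2 ⟨hef, hf'⟩
    have hw' : Ex S true f' (rm false v p) := by
      refine ex_ok S hNU hwf' (hmem f' hf' hvf') ?_ hokf (hex v hv false)
      have e : rm true f' (rm false v p) = rm false v (rm true f' p) := QUB.rm_comm _ _ _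
      rw [e]
      refine th3_cn hr (QUB.wf_rm hp hf') (th3_cn hr hp hC h3 (by omega) hf' true) h3f ?_ ?_ false
      · rw [show gs (QUB.rm true f' p) = (gs p).erase f' from QUB.gs_rm _ _ _, Finset.card_erase_of_mem hf']
        omega
      · rw [show gs (QUB.rm true f' p) = (gs p).erase f' from QUB.gs_rm _ _ _]
        exact Finset.mem_erase.2 ⟨hvf', hv⟩
    exact h_of_ex S (two_key S hp hf' ha' hb' hfa' hfb' hab' hL' hv hvf' hva' hvb' hXp
      (Finset.card_pos.1 (by omega)) hvX hfX' haX' hbX' hX.2.2.2 hcl hN hw') (hex f' hf' true)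
      (hA f' hf' a' ha' b' hb' hfa' hfb' hab' hL' h3f)
  have t1 := tut_tri hr hp h3 (by omega) hT hf ha hb hfa hfb hab l1 l2
  have t2 : Th3 S.r (rm true f p) ∨ Th3 S.r (rm true b p) := tut_tri hr hp h3 (by omega) hT hf hb ha hfb hfa hab.symm
    (by rw [Finset.insert_comm b a]; exact l1) l3
  have t3 : Th3 S.r (rm true a p) ∨ Th3 S.r (rm true b p) := tut_tri hr hp h3 (by omega) hT ha hb hf hab hfa.symm hfb.symm
    (by rw [Finset.insert_comm b f]; exact l2) (by rw [Finset.insert_comm a f]; exact l3)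
  have o1 := QUB.tri_del hr hwf' hcn hok (hmem f hf hvf) (hmem a ha hva) (hmem b hb hvb) hfa hfb hab (hup _ _ _ l1) (hup _ _ _ l2)
  have o2 := QUB.tri_del hr hwf' hcn hok (hmem f hf hvf) (hmem b hb hvb) (hmem a ha hva) hfb hfa hab.symm
    (hup _ _ _ (by rw [Finset.insert_comm b a]; exact l1)) (hup _ _ _ l3)
  have o3 := QUB.tri_del hr hwf' hcn hok (hmem a ha hva) (hmem b hb hvb) (hmem f hf hvf) hab hfa.symm hfb.symm
    (hup _ _ _ (by rw [Finset.insert_comm b f]; exact l2)) (hup _ _ _ (by rw [Finset.insert_comm a f]; exact l3))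
  have hLa : Tri3 S.r p a f b := ⟨⟨l2, by rw [Finset.insert_comm a f]; exact l3⟩, l1⟩
  have hLb : Tri3 S.r p b f a := ⟨⟨l3, by rw [Finset.insert_comm b f]; exact l2⟩, by rw [Finset.insert_comm b a]; exact l1⟩
  by_cases jf : Th3 S.r (rm true f p) ∧ Ok S.r (rm true f (rm false v p))
  · exact fin f hf a ha b hb hfa hfb hab hL hfX haX hbX hvf hva hvb jf.1 jf.2
  · by_cases ja : Th3 S.r (rm true a p) ∧ Ok S.r (rm true a (rm false v p))
    · exact fin a ha f hf b hb hfa.symm hab hfb hLa haX hfX hbX hva hvf hvb ja.1 ja.2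
    · have jb : Th3 S.r (rm true b p) ∧ Ok S.r (rm true b (rm false v p)) := by
        by_contra jb
        rcases t1 with t1 | t1 <;> rcases t2 with t2 | t2 <;> rcases t3 with t3 | t3 <;> rcases o1 with o1 | o1 <;> rcases o2 with o2 | o2 <;>
          rcases o3 with o3 | o3 <;> first | exact jf ⟨‹_›, ‹_›⟩ | exact ja ⟨‹_›, ‹_›⟩ | exact jb ⟨‹_›, ‹_›⟩
      exact fin b hb f hf a ha hfb.symm hab.symm hfa hLb hbX hfX haX hvb hvf hva jb.1 jb.2

end Pool.Agent.QU
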