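import Pool.Agent.QUR.WinL
import Pool.Agent.QUR.Cnt
import Pool.Agent.QUR.Cft
import Pool.Agent.QUR.TwoF4
import Pool.Agent.QUR.NOdd
import Pool.Agent.QUR.NNine

/-!
# QUR/TMain: the T-case, assembly for a twisted pair

`t_main`: a 3-connected rich minor without triads, with a triangle, `2 r + 1 ≤ n` and `9 ≤ n` has a form which is not diagonal,
from the parts `two_w`, `c_case`, `n_case`, `n9_case`; `hNR` (deletions of elements of triangles are rich if they are 3-connected) comes from the theorem NRX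
of `QUW`, otherwise a pair form `c_a d_x` is in `V(p)`.
-/

set_option autoImplicit false

namespace Pool.Agent.QU

open QUB (Cn Ok Rk)
open Pool.Agent.FRM

section parts

variable {E : Type} [Fintype E] [DecidableEq E]

/-- deletions of elements of triangles are rich if they are 3-connected -/
def AllR (r : Finset E → ℤ) (p : Itv E) : Prop :=
  ∀ x ∈ gs p, ∀ y ∈ gs p, ∀ z ∈ gs p, x ≠ y → x ≠ z → y ≠ z → Tri3 r p x y z → Th3 r (rm true x p) → HasRich r (rm true x p)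

/-- no two disjoint triangles -/
def NoTT (r : Finset E → ℤ) (p : Itv E) : Prop :=
  ∀ x ∈ gs p, ∀ y ∈ gs p, ∀ z ∈ gs p, x ≠ y → x ≠ z → y ≠ z → ∀ x' ∈ gs p, ∀ y' ∈ gs p, ∀ z' ∈ gs p, x' ≠ y' → x' ≠ z' → y' ≠ z' →
    Tri3 r p x y z → Tri3 r p x' y' z' → ¬ Disjoint ({x, y, z} : Finset E) {x', y', z'}

/-- (2) the 2-side lemma: `p \ w` is not 3-connected, `w` outside of the triangle -/
theorem two_w (S : TP F4 E) (hNU : NU S.r) {p : Itv E} (hp : p.1 ⊆ p.2) (hC : Cn S.r p) (h3 : Th3 S.r p)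
    (hn : 9 ≤ (gs p).card) (hT : NoTd S.r p) (hA : AllR S.r p) {f a b w : E} (hf : f ∈ gs p) (ha : a ∈ gs p) (hb : b ∈ gs p) (hw : w ∈ gs p)
    (hfa : f ≠ a) (hfb : f ≠ b) (hab : a ≠ b) (hwf : w ≠ f) (hwa : w ≠ a) (hwb : w ≠ b) (hL : Tri3 S.r p f a b)
    (hex : ∀ w ∈ gs p, ∀ t, ∃ T, InVs S (rm t w p) T)
    (hnw : ¬ Th3 S.r (rm true w p)) : ∃ T : Fm F4 E, InV S.U S.W p T ∧ ¬ EqD S.U S.W p T 0 :=
  two_wf S hNU hp hC h3 hn hT hA hf ha hb hw hfa hfb hab hwf hwa hwb hL hex hnw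

/-- (4) a conflict at the triangle -/
theorem c_case (S : TP F4 E) (hNU : NU S.r) {p : Itv E} (hp : p.1 ⊆ p.2) (hC : Cn S.r p) (h3 : Th3 S.r p)
    (hn : 9 ≤ (gs p).card) (hT : NoTd S.r p) (hA : AllR S.r p) {f a b y : E} (hf : f ∈ gs p) (ha : a ∈ gs p) (hb : b ∈ gs p) (hy : y ∈ gs p)
    (hfa : f ≠ a) (hfb : f ≠ b) (hab : a ≠ b) (hyf : y ≠ f) (hya : y ≠ a) (hyb : y ≠ b) (hL : Tri3 S.r p f a b)
    (hex : ∀ w ∈ gs p, ∀ t, ∃ T, InVs S (rm t w p) T) (h3w : ∀ w ∈ gs p, Th3 S.r (rm true w p))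
    (hbad : ¬ Ok S.r (rm true f (rm true y p))) : ∃ T : Fm F4 E, InV S.U S.W p T ∧ ¬ EqD S.U S.W p T 0 :=
  cft_f4 S hNU hp hC h3 hn ⟨hf, ha, hb, hfa, hfb, hab, hL⟩ h3w (fun w hw => hex w hw true)
    (fun f a b z A B F _ h2 _ => hA f h2.g1 a h2.g2 b h2.g3 h2.n12 h2.n13 h2.n23 h2.tri (h3w f h2.g1))
    (Or.inl rfl) hy hyf hya hyb hbad

/-- (5a) no conflict at the triangle, `2 r + 2 ≤ n` -/
theorem n_big (S : TP F4 E) (hNU : NU S.r) {p : Itv E} (hp : p.1 ⊆ p.2) (hC : Cn S.r p) (h3 : Th3 S.r p)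
    (hn : 5 ≤ (gs p).card) (hr2 : 2 * (S.r p.2 - S.r p.1) + 2 ≤ (gs p).card)
    {f a b : E} (hf : f ∈ gs p) (ha : a ∈ gs p) (hb : b ∈ gs p)
    (hfa : f ≠ a) (hfb : f ≠ b) (hab : a ≠ b) (hL : Tri3 S.r p f a b)
    (hex : ∀ w ∈ gs p, ∃ T, InVs S (rm true w p) T) (h3w : ∀ w ∈ gs p, Th3 S.r (rm true w p)) (hRf : HasRich S.r (rm true f p))
    (hok : ∀ y ∈ gs p, y ≠ f → y ≠ a → y ≠ b → Ok S.r (rm true f (rm true y p))) :
    ∃ T : Fm F4 E, InV S.U S.W p T ∧ ¬ EqD S.U S.W p T 0 := by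
  have hr := S.rk
  set G : Finset E := gs p \ {f, a, b} with hG
  have hs : ({f, a, b} : Finset E) ⊆ gs p := by
    intro x hx
    simp only [Finset.mem_insert, Finset.mem_singleton] at hx
    rcases hx with rfl | rfl | rfl
    · exact hf
    · exact ha
    · exact hb
  have hc3 : ({f, a, b} : Finset E).card = 3 := Finset.card_eq_three.2 ⟨f, a, b, hfa, hfb, hab, rfl⟩
  have hGc : G.card = (gs p).card - 3 := by rw [hG, Finset.card_sdiff_of_subset hs, hc3]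
  have hm : ∀ w ∈ G, w ∈ gs p ∧ w ≠ f ∧ w ≠ a ∧ w ≠ b := by
    intro w hw
    have h := Finset.mem_sdiff.1 hw
    have h2 := h.2
    simp only [Finset.mem_insert, Finset.mem_singleton, not_or] at h2
    exact ⟨h.1, h2.1, h2.2.1, h2.2.2⟩
  refine h_of_ex S (key_all S hp hf ha hb hfa hfb hab hL (G := G) Finset.sdiff_subset (by simp [hG]) (by simp [hG]) (by simp [hG])
    (fun w hw => ?_) (by rw [hGc]; omega)) (hex f hf) hRf
  obtain ⟨hw1, hwf, hwa, hwb⟩ := hm w hw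
  have hg : gs (rm true w p) = (gs p).erase w := gs_rm true w p
  have hcard : (gs (rm true w p)).card = (gs p).card - 1 := by rw [hg]; exact Finset.card_erase_of_mem hw1
  have hfw : f ∈ gs (rm true w p) := by rw [hg]; exact Finset.mem_erase.2 ⟨hwf.symm, hf⟩
  exact ex_ok S hNU (QUB.wf_rm hp hw1) hfw
    (th3_cn hr (QUB.wf_rm hp hw1) (th3_cn hr hp hC h3 (by omega) hw1 true) (h3w w hw1) (by omega) hfw true)
    (hok w hw1 hwf hwa hwb) (hex w hw1)

/-- (5b) no conflict at the triangle, `n = 2 r + 1` -/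
theorem n_odd (S : TP F4 E) (hNU : NU S.r) {p : Itv E} (hp : p.1 ⊆ p.2) (hC : Cn S.r p) (h3 : Th3 S.r p)
    (hr : 5 ≤ S.r p.2 - S.r p.1) (hr2 : 2 * (S.r p.2 - S.r p.1) + 1 = (gs p).card)
    (hT : NoTd S.r p) {f a b : E} (hf : f ∈ gs p) (ha : a ∈ gs p) (hb : b ∈ gs p)
    (hfa : f ≠ a) (hfb : f ≠ b) (hab : a ≠ b) (hL : Tri3 S.r p f a b)
    (hex : ∀ w ∈ gs p, ∀ t, ∃ T, InVs S (rm t w p) T) (h3w : ∀ w ∈ gs p, Th3 S.r (rm true w p))
    (hRf : HasRich S.r (rm true f p)) (hRa : HasRich S.r (rm true a p)) (hRb : HasRich S.r (rm true b p))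
    (hok : ∀ x ∈ gs p, (x = f ∨ x = a ∨ x = b) → ∀ y ∈ gs p, y ≠ f → y ≠ a → y ≠ b → Ok S.r (rm true x (rm true y p))) :
    ∃ T : Fm F4 E, InV S.U S.W p T ∧ ¬ EqD S.U S.W p T 0 := by
  exact n_odd' S hNU hp hC h3 hr hr2 hf ha hb hfa hfb hab hL hex h3w hRf hRa hRb hok

/-- (5) no conflict at the triangle -/
theorem n_case (S : TP F4 E) (hNU : NU S.r) {p : Itv E} (hp : p.1 ⊆ p.2) (hC : Cn S.r p) (h3 : Th3 S.r p)
    (hn : 10 ≤ (gs p).card) (hr : 4 ≤ S.r p.2 - S.r p.1) (hr2 : 2 * (S.r p.2 - S.r p.1) + 1 ≤ (gs p).card)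
    (hT : NoTd S.r p) {f a b : E} (hf : f ∈ gs p) (ha : a ∈ gs p) (hb : b ∈ gs p)
    (hfa : f ≠ a) (hfb : f ≠ b) (hab : a ≠ b) (hL : Tri3 S.r p f a b)
    (hex : ∀ w ∈ gs p, ∀ t, ∃ T, InVs S (rm t w p) T) (h3w : ∀ w ∈ gs p, Th3 S.r (rm true w p))
    (hRf : HasRich S.r (rm true f p)) (hRa : HasRich S.r (rm true a p)) (hRb : HasRich S.r (rm true b p))
    (hok : ∀ x ∈ gs p, (x = f ∨ x = a ∨ x = b) → ∀ y ∈ gs p, y ≠ f → y ≠ a → y ≠ b → Ok S.r (rm true x (rm true y p))) :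
    ∃ T : Fm F4 E, InV S.U S.W p T ∧ ¬ EqD S.U S.W p T 0 := by
  by_cases h : 2 * (S.r p.2 - S.r p.1) + 1 = (gs p).card
  · exact n_odd S hNU hp hC h3 (by omega) h hT hf ha hb hfa hfb hab hL hex h3w hRf hRa hRb hok
  · exact n_big S hNU hp hC h3 (by omega) (by omega) hf ha hb hfa hfb hab hL (fun w hw => hex w hw true) h3w hRf
      (fun y hy h1 h2 h4 => hok f hf (Or.inl rfl) y hy h1 h2 h4)

/-- (6) no conflict at the triangle, `n = 9` -/
theorem n9_case (S : TP F4 E) (hNU : NU S.r) {p : Itv E} (hp : p.1 ⊆ p.2) (hC : Cn S.r p) (h3 : Th3 S.r p)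
    (hn : (gs p).card = 9) (hr : S.r p.2 - S.r p.1 = 4) (hT : NoTd S.r p) (hTT : NoTT S.r p) (hA : AllR S.r p)
    {f a b : E} (hf : f ∈ gs p) (ha : a ∈ gs p) (hb : b ∈ gs p)
    (hfa : f ≠ a) (hfb : f ≠ b) (hab : a ≠ b) (hL : Tri3 S.r p f a b)
    (hex : ∀ w ∈ gs p, ∀ t, ∃ T, InVs S (rm t w p) T) (h3w : ∀ w ∈ gs p, Th3 S.r (rm true w p))
    (hRf : HasRich S.r (rm true f p)) (hRa : HasRich S.r (rm true a p)) (hRb : HasRich S.r (rm true b p))
    (hok : ∀ x ∈ gs p, (x = f ∨ x = a ∨ x = b) → ∀ y ∈ gs p, y ≠ f → y ≠ a → y ≠ b → Ok S.r (rm true x (rm true y p))) :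
    ∃ T : Fm F4 E, InV S.U S.W p T ∧ ¬ EqD S.U S.W p T 0 := by
  exact n9 S hNU hp hC h3 hn hr hT hTT hf ha hb hfa hfb hab hL hex h3w hRf hRb hok

end parts

section main

variable {E : Type} [DecidableEq E]

/-- permutations of a triangle -/
theorem Tri3.swap {r : Finset E → ℤ} {p : Itv E} {f a b : E} (h : Tri3 r p f a b) : Tri3 r p f b a := by
  obtain ⟨⟨h1, h2⟩, h3⟩ := h
  refine ⟨⟨?_, h3⟩, h2⟩
  rw [Finset.insert_comm b a p.1]
  exact h1

/-- permutations of a triangle -/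
theorem Tri3.rot {r : Finset E → ℤ} {p : Itv E} {f a b : E} (h : Tri3 r p f a b) : Tri3 r p a f b := by
  obtain ⟨⟨h1, h2⟩, h3⟩ := h
  refine ⟨⟨h3, ?_⟩, h1⟩
  rw [Finset.insert_comm a f p.1]
  exact h2

/-- at most one deletion of a triangle element is not 3-connected -/
theorem Tri3.two {r : Finset E → ℤ} {p : Itv E} {f a b : E} (hL : Tri3 r p f a b) (hr : Rk r) (hp : p.1 ⊆ p.2) (h3 : Th3 r p)
    (hn : 4 ≤ (gs p).card) (hT : NoTd r p) (hf : f ∈ gs p) (ha : a ∈ gs p) (hb : b ∈ gs p) (hfa : f ≠ a) (hfb : f ≠ b) (hab : a ≠ b)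
    (h : ¬ Th3 r (rm true f p)) : Th3 r (rm true a p) := by
  have h1 : r (insert f (insert a (insert b p.1))) = r (insert a (insert b p.1)) := hL.1.1
  have h2 : r (insert a (insert f (insert b p.1))) = r (insert f (insert b p.1)) := hL.2
  exact (tut_tri hr hp h3 hn hT hf ha hb hfa hfb hab h1 h2).resolve_left h

/-- the T-case -/
theorem t_main {E : Type} [Fintype E] [DecidableEq E] (S : TP F4 E) (hNU : NU S.r) {p : Itv E} (hp : p.1 ⊆ p.2) (hC : Cn S.r p)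
    (h3 : Th3 S.r p) (hn : 9 ≤ (gs p).card) (hr : 4 ≤ S.r p.2 - S.r p.1)
    (hr2 : 2 * (S.r p.2 - S.r p.1) + 1 ≤ (gs p).card) (hT : NoTd S.r p)
    (hTT : 2 * (S.r p.2 - S.r p.1) + 1 = (gs p).card → NoTT S.r p) (hA : AllR S.r p)
    {f a b : E} (hf : f ∈ gs p) (ha : a ∈ gs p) (hb : b ∈ gs p) (hfa : f ≠ a) (hfb : f ≠ b) (hab : a ≠ b) (hL : Tri3 S.r p f a b)
    (hex : ∀ w ∈ gs p, ∀ t, ∃ T, InVs S (rm t w p) T) :
    ∃ T : Fm F4 E, InV S.U S.W p T ∧ ¬ EqD S.U S.W p T 0 := by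
  have hrk := S.rk
  have hx1 : ∀ w ∈ gs p, ∃ T, InVs S (rm true w p) T := fun w hw => hex w hw true
  have Rf : Th3 S.r (rm true f p) → HasRich S.r (rm true f p) := hA f hf a ha b hb hfa hfb hab hL
  have Ra : Th3 S.r (rm true a p) → HasRich S.r (rm true a p) := hA a ha f hf b hb hfa.symm hab hfb hL.rot
  have Rb : Th3 S.r (rm true b p) → HasRich S.r (rm true b p) := hA b hb f hf a ha hfb.symm hab.symm hfa hL.swap.rot
  by_cases hall : ∀ w ∈ gs p, w ≠ f → w ≠ a → w ≠ b → Th3 S.r (rm true w p)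
  · -- outside of the triangle all deletions are 3-connected
    by_cases h3b : Th3 S.r (rm true b p)
    · by_cases h3a : Th3 S.r (rm true a p)
      · by_cases h3f : Th3 S.r (rm true f p)
        · have h3w : ∀ w ∈ gs p, Th3 S.r (rm true w p) := by
            intro w hw
            by_cases h1 : w = f
            · rw [h1]; exact h3f
            by_cases h2 : w = a
            · rw [h2]; exact h3a
            by_cases h4 : w = b
            · rw [h4]; exact h3b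
            exact hall w hw h1 h2 h4
          by_cases hok : ∀ x ∈ gs p, (x = f ∨ x = a ∨ x = b) → ∀ y ∈ gs p, y ≠ f → y ≠ a → y ≠ b → Ok S.r (rm true x (rm true y p))
          · by_cases h9 : (gs p).card = 9
            · have hr4 : S.r p.2 - S.r p.1 = 4 := by omega
              exact n9_case S hNU hp hC h3 h9 hr4 hT (hTT (by rw [hr4, h9]; norm_num)) hA hf ha hb hfa hfb hab hL hex h3w
                (Rf h3f) (Ra h3a) (Rb h3b) hok
            · exact n_case S hNU hp hC h3 (by omega) hr hr2 hT hf ha hb hfa hfb hab hL hex h3w (Rf h3f) (Ra h3a) (Rb h3b) hok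
          · push Not at hok
            obtain ⟨x, hx, hx', y, hy, hyf, hya, hyb, hbad⟩ := hok
            rcases hx' with rfl | rfl | rfl
            · exact c_case S hNU hp hC h3 (by omega) hT hA hf ha hb hy hfa hfb hab hyf hya hyb hL hex h3w hbad
            · exact c_case S hNU hp hC h3 (by omega) hT hA ha hf hb hy hfa.symm hab hfb hya hyf hyb hL.rot hex h3w hbad
            · exact c_case S hNU hp hC h3 (by omega) hT hA hb hf ha hy hfb.symm hab.symm hfa hyb hyf hya hL.swap.rot hex h3w hbad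
        · exact wl S hNU hp hC h3 (by omega) hT ha hb hf hab hfa.symm hfb.symm hL.rot.swap hx1 (Ra h3a) h3f
            fun w hw h1 h2 h4 => hall w hw h4 h1 h2
      · exact wl S hNU hp hC h3 (by omega) hT hb hf ha hfb.symm hab.symm hfa hL.swap.rot hx1 (Rb h3b) h3a
          fun w hw h1 h2 h4 => hall w hw h2 h4 h1
    · have h3f : Th3 S.r (rm true f p) := by
        by_contra h
        exact h3b (hL.swap.two hrk hp h3 (by omega) hT hf hb ha hfb hfa hab.symm h)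
      exact wl S hNU hp hC h3 (by omega) hT hf ha hb hfa hfb hab hL hx1 (Rf h3f) h3b hall
  · push Not at hall
    obtain ⟨w, hw, hwf, hwa, hwb, hnw⟩ := hall
    exact two_w S hNU hp hC h3 hn hT hA hf ha hb hw hfa hfb hab hwf hwa hwb hL hex hnw

end main

end Pool.Agent.QU
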