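import Pool.Agent.QUR.TySt
import Pool.Agent.QUR.TyV
import Pool.Agent.QUR.TyJ
import Pool.Agent.QUR.ClA
import Pool.Agent.QUP.Mx

/-!
# QUR/TcA: the tiny case without dirty pairs
-/

set_option autoImplicit false

open QUB

namespace Pool.Agent.QU

open Pool.Agent.FRM

variable {E : Type} [Fintype E] [DecidableEq E] {S : TP F4 E} {p : Itv E} {u v x y z : E} {X : Finset E}

/-- nonzero multiples -/
private theorem tca_smul {q : Itv E} {T : Fm F4 E} {k : F4} (hk : k ≠ 0) (h : InVs S q T) : InVs S q (k • T) := by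
  refine ⟨h.1.smul k, fun N h1 h2 h3 => h.2 N h1 h2 ?_⟩
  obtain ⟨l, hl⟩ := h3
  refine ⟨k⁻¹ • l, fun c hc d hd => ?_⟩
  have := hl c hc d hd
  rw [LinearMap.smul_apply, LinearMap.smul_apply, LinearMap.add_apply, LinearMap.add_apply, LinearMap.zero_apply, LinearMap.zero_apply,
    dg_apply, smul_eq_mul, zero_add] at this
  rw [LinearMap.add_apply, LinearMap.add_apply, LinearMap.zero_apply, LinearMap.zero_apply, dg_apply, zero_add]
  have e : ∑ x, (k⁻¹ • l) x * (c x * d x) = k⁻¹ * ∑ x, l x * (c x * d x) := by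
    rw [Finset.mul_sum]
    exact Finset.sum_congr rfl fun x _ => by rw [Pi.smul_apply, smul_eq_mul]; ring
  rw [e, ← this, ← mul_assoc, inv_mul_cancel₀ hk, one_mul]

/-- the facts of one ordering of the tiny side -/
theorem tc_ord (h : Cw S p) (hc : Rcf S p u true v false X) {a b c : E} (hX : X = {a, b, c}) (ab : a ≠ b) (ac : a ≠ c) (bc : b ≠ c)
    (hd : ¬ ∃ Z, Dirty (rhoP S.r p) (S.r p.2 - S.r p.1) u v a b c (gs (rm true u (rm false v p)) \ X) Z) :
    Ok S.r (rm true a (rm false b p)) ∧ Cn S.r (rm true u (rm true a (rm false b p))) ∧ HasRich S.r (rm true u (rm true a (rm false b p))) := by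
  obtain ⟨hT, e⟩ := ty_of h hc hX ab ac bc
  have hn := h.hn
  exact ⟨ok_star S.rk h.hp h.nt (by omega) hT e hd, cn_uxy S.rk h.hp h.nt (by omega) hT e, rich_uxy h hc hX hT e⟩

/-- the cocircuit -/
theorem tc_hco (h : Cw S p) (hc : Rcf S p u true v false X) (hX : X = {x, y, z}) (xy : x ≠ y) (xz : x ≠ z) (yz : y ≠ z) :
    S.r (p.2 \ {u, x, y, z}) = S.r p.2 - 1 := by
  obtain ⟨hT, e⟩ := ty_of h hc hX xy xz yz
  have h1 := hT.coc
  have h2 : ({u, x, y, z} : Finset E) ⊆ gs p := by
    rw [← e]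
    intro w hw
    rw [mem_gT]
    simp only [Finset.mem_insert, Finset.mem_singleton] at hw
    tauto
  have h3 := rhoP_compl (r := S.r) h.hp h2
  have h4 : gs p \ {u, x, y, z} = insert v (gs (rm true u (rm false v p)) \ X) := by
    rw [← e]
    ext w
    have a1 := hT.uv
    have a2 := hT.vx
    have a3 := hT.vy
    have a4 := hT.vz
    have a5 := hT.uY
    have a6 := hT.xY
    have a7 := hT.yY
    have a8 := hT.zY
    rw [Finset.mem_sdiff, mem_gT]
    generalize gs (rm true u (rm false v p)) \ X = Y at *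
    simp only [Finset.mem_insert, Finset.mem_singleton]
    constructor
    · rintro ⟨h5, h6⟩
      tauto
    · rintro (rfl | h5)
      · refine ⟨by tauto, ?_⟩
        rintro (h6 | h6 | h6 | h6)
        · exact a1 h6.symm
        · exact a2 h6
        · exact a3 h6
        · exact a4 h6
      · refine ⟨by tauto, ?_⟩
        rintro (rfl | rfl | rfl | rfl)
        · exact a5 h5
        · exact a6 h5
        · exact a7 h5
        · exact a8 h5
  rw [h4] at h3
  omega

/-- `u` is not spanned by the tiny side -/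
theorem tc_ind (h : Cw S p) (hc : Rcf S p u true v false X) (hX : X = {x, y, z}) (xy : x ≠ y) (xz : x ≠ z) (yz : y ≠ z) :
    S.r (insert x (insert y (insert z (insert u p.1)))) = S.r p.1 + 4 := by
  obtain ⟨hT, e⟩ := ty_of h hc hX xy xz yz
  have h1 := hT.coc
  have h2 := hT.mc v hT.vG (insert u (insert x (insert y {z}))) (gs (rm true u (rm false v p)) \ X) {u, x}
    (gs (rm true u (rm false v p)) \ X) (by
      intro w hw hwv
      rw [mem_gT] at hw
      simp only [Finset.mem_insert, Finset.mem_singleton]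
      tauto) (by rw [Finset.card_pair hT.ux]) (by
      intro w hw
      simp only [Finset.mem_insert, Finset.mem_singleton] at hw
      rcases hw with rfl | rfl
      · exact ⟨hT.uG, hT.uv, hT.uY⟩
      · exact ⟨hT.xG, hT.vx.symm, hT.xY⟩) (by have := hT.Y5; omega) (by
      intro w hw
      refine ⟨hT.YG hw, ?_, ?_⟩
      · rintro rfl
        exact hT.vY hw
      · simp only [Finset.mem_insert, Finset.mem_singleton, not_or]
        refine ⟨?_, ?_, ?_, ?_⟩
        · rintro rfl; exact hT.uY hw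
        · rintro rfl; exact hT.xY hw
        · rintro rfl; exact hT.yY hw
        · rintro rfl; exact hT.zY hw)
  have h3 := hT.cv (B := insert u (insert x (insert y {z}))) (by simp) (by simp) (by simp)
  have h4 := hT.three hT.xG hT.yG hT.zG hT.xy hT.xz hT.yz
  have h5 := hT.rk.unit (insert x (insert y {z})) u
  have h6 : rhoP S.r p (insert u (insert x (insert y {z}))) = 4 := by omega
  unfold rhoP at h6
  have h7 : p.1 ∪ insert u (insert x (insert y {z})) = insert x (insert y (insert z (insert u p.1))) := by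
    ext w
    simp only [Finset.mem_union, Finset.mem_insert, Finset.mem_singleton]
    tauto
  rw [h7] at h6
  omega

/-- `Ef` of an element of the tiny side -/
theorem tc_ef (h : Cw S p) (hc : Rcf S p u true v false X) {a b c : E} (hX : X = {a, b, c}) (ab : a ≠ b) (ac : a ≠ c) (bc : b ≠ c)
    (hd : ¬ ∃ Z, Dirty (rhoP S.r p) (S.r p.2 - S.r p.1) u v a b c (gs (rm true u (rm false v p)) \ X) Z)
    {Tu : Fm F4 E} (iu : InVs S (rm true u p) Tu) : Ef S p u Tu a := by
  obtain ⟨hT, e⟩ := ty_of h hc hX ab ac bc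
  obtain ⟨o, -, R⟩ := tc_ord h hc hX ab ac bc hd
  have hn := h.hn
  have hXb : X = {b, a, c} := by
    rw [hX]
    exact Finset.insert_comm _ _ _
  obtain ⟨hTb, eb⟩ := ty_of h hc hXb ab.symm bc ac
  have ou : Ok S.r (rm true u (rm false b p)) := ok_ua S.rk h.hp h.nt (by omega) hTb eb
  have ma : a ∈ gs p := e ▸ hT.xG
  have mb : b ∈ gs p := e ▸ hT.yG
  have mc : c ∈ gs p := e ▸ hT.zG
  obtain ⟨Sx, hS⟩ := h.ex1 ma true
  obtain ⟨k, hk⟩ := eff h.cv hc.mu ma mb mc hT.ux hT.uy hT.uz ab ac bc (tc_hco h hc hX ab ac bc) ou o R iu.1 hS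
  have hk0 : k ≠ 0 := by
    rintro rfl
    obtain ⟨N, h1, h2⟩ := R
    have s1 : Sub N (rm true u (rm true a p)) := (((rm_sub false b p).rm true a).rm true u).trans h1
    have s2 : Sub N (rm true u p) := (((rm_sub true a p)).rm true u).trans s1
    rw [zero_smul] at hk
    exact iu.2 N s2 h2 (hk.mono s1)
  exact ⟨k • Sx, tca_smul hk0 hS, hk⟩

/-- **(T0)** no dirty pair -/
theorem tiny_star (h : Cw S p) (hc : Rcf S p u true v false X) (hX : X = {x, y, z}) (xy : x ≠ y) (xz : x ≠ z) (yz : y ≠ z)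
    (hd : ∀ a b c : E, X = {a, b, c} → a ≠ b → a ≠ c → b ≠ c →
      ¬ ∃ Z, Dirty (rhoP S.r p) (S.r p.2 - S.r p.1) u v a b c (gs (rm true u (rm false v p)) \ X) Z) :
    ∃ T : Fm F4 E, InV S.U S.W p T ∧ ¬ EqD S.U S.W p T 0 := by
  obtain ⟨hT, e⟩ := ty_of h hc hX xy xz yz
  have hn := h.hn
  have x1 : X = {x, z, y} := by
    rw [hX]
    ext w
    simp only [Finset.mem_insert, Finset.mem_singleton]
    tauto
  have x2 : X = {y, x, z} := by
    rw [hX]
    ext w
    simp only [Finset.mem_insert, Finset.mem_singleton]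
    tauto
  have x3 : X = {y, z, x} := by
    rw [hX]
    ext w
    simp only [Finset.mem_insert, Finset.mem_singleton]
    tauto
  have x4 : X = {z, x, y} := by
    rw [hX]
    ext w
    simp only [Finset.mem_insert, Finset.mem_singleton]
    tauto
  have x5 : X = {z, y, x} := by
    rw [hX]
    ext w
    simp only [Finset.mem_insert, Finset.mem_singleton]
    tauto
  have mx : x ∈ gs p := e ▸ hT.xG
  have my : y ∈ gs p := e ▸ hT.yG
  have mz : z ∈ gs p := e ▸ hT.zG
  obtain ⟨Tu, iu⟩ := h.ex1 hc.mu true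
  obtain ⟨oxy, cxy, rxy⟩ := tc_ord h hc hX xy xz yz (hd x y z hX xy xz yz)
  obtain ⟨oxz, cxz, rxz⟩ := tc_ord h hc x1 xz xy yz.symm (hd x z y x1 xz xy yz.symm)
  obtain ⟨oyx, cyx, ryx⟩ := tc_ord h hc x2 xy.symm yz xz (hd y x z x2 xy.symm yz xz)
  obtain ⟨oyz, cyz, ryz⟩ := tc_ord h hc x3 yz xy.symm xz.symm (hd y z x x3 yz xy.symm xz.symm)
  obtain ⟨ozx, czx, rzx⟩ := tc_ord h hc x4 xz.symm yz.symm xy (hd z x y x4 xz.symm yz.symm xy)
  obtain ⟨ozy, czy, rzy⟩ := tc_ord h hc x5 yz.symm xz.symm xy.symm (hd z y x x5 yz.symm xz.symm xy.symm)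
  have ex := tc_ef h hc hX xy xz yz (hd x y z hX xy xz yz) iu
  have ey := tc_ef h hc x2 xy.symm yz xz (hd y x z x2 xy.symm yz xz) iu
  have ez := tc_ef h hc x4 xz.symm yz.symm xy (hd z x y x4 xz.symm yz.symm xy) iu
  obtain ⟨t2, e2⟩ := ty_of h hc x2 xy.symm yz xz
  obtain ⟨t4, e4⟩ := ty_of h hc x4 xz.symm yz.symm xy
  have ox : Ok S.r (rm true u (rm false x p)) := ok_ua S.rk h.hp h.nt (by omega) hT e
  have oy : Ok S.r (rm true u (rm false y p)) := ok_ua S.rk h.hp h.nt (by omega) t2 e2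
  have oz : Ok S.r (rm true u (rm false z p)) := ok_ua S.rk h.hp h.nt (by omega) t4 e4
  exact star_c h.cv hc.mu mx my mz hT.ux hT.uy hT.uz xy xz yz (tc_ind h hc hX xy xz yz) iu ex ey ez ox oy oz oyx ozx oxz oyz oxy ozy
    cyx ryx czx rzx cxz rxz cyz ryz cxy rxy czy rzy

end Pool.Agent.QU
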