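import Pool.Agent.QUR.TcA
import Pool.Agent.QUR.EssB
import Pool.Agent.QUR.ClT

/-!
# QUR/TcM: a real conflict of a deletion and a contraction with three elements
-/

set_option autoImplicit false

open QUB

namespace Pool.Agent.QU

open Pool.Agent.FRM

variable {E : Type} [Fintype E] [DecidableEq E] {S : TP F4 E} {p : Itv E}

/-- **the tiny case** -/
theorem n_tiny (h : Cw S p) {u v : E} {X : Finset E} (hc : Rcf S p u true v false X) (h3 : X.card = 3) :
    ∃ T : Fm F4 E, InV S.U S.W p T ∧ ¬ EqD S.U S.W p T 0 := by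
  obtain ⟨x, y, z, xy, xz, yz, hX⟩ := Finset.card_eq_three.1 h3
  by_cases hd : ∃ a b c : E, X = {a, b, c} ∧ a ≠ b ∧ a ≠ c ∧ b ≠ c ∧
      ∃ Z, Dirty (rhoP S.r p) (S.r p.2 - S.r p.1) u v a b c (gs (rm true u (rm false v p)) \ X) Z
  · obtain ⟨a, b, c, hX', ab, ac, bc, Z, d⟩ := hd
    obtain ⟨hT, e⟩ := ty_of h hc hX' ab ac bc
    have n2 := d.two
    have n3 := hT.d_ne3 d
    by_cases h2 : ((gs (rm true u (rm false v p)) \ X) \ Z).card = 2
    · exact t2 h hc hX' ab ac bc d h2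
    · rcases ess h hc hX' ab ac bc d (by omega) with g | ⟨w, hw, t, -, hR⟩
      · exact g
      · exact t1 h hc hX' ab ac bc d (by omega) hw hR
  · exact tiny_star h hc hX xy xz yz fun a b c h1 h2 h3 h4 h5 => hd ⟨a, b, c, h1, h2, h3, h4, h5⟩

end Pool.Agent.QU
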