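import Pool.Agent.QUR.Del
import Pool.Agent.QUR.Nd
import Pool.Agent.QUL.LUniq
import Pool.Agent.QUN.Fin

set_option autoImplicit false

/-!
# QUR/Tt3: three deletions `x1, x2, y`, `{x1, x2, x3}` a triangle

`tt3`: forms on `M \ x1`, `M \ x2`, `M \ y` which agree (up to diagonal forms) after two deletions come from one form in `V(M)`.
`w` is the kernel vector of the diagonal forms on `M \ x1, x2` (`0` if this box is nonbinary).
-/

namespace Pool.Agent.QU

variable {K E : Type} [Field K] [Fintype E] [DecidableEq E]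

omit [DecidableEq E] in
theorem EqD.to_sub {U W : Submodule K (E → K)} {q : Itv E} {T T' : Fm K E} (h : EqD U W q T T') : EqD U W q (T - T') 0 := by
  obtain ⟨l, hl⟩ := h
  refine ⟨l, fun c hc d hd => ?_⟩
  have h1 := hl c hc d hd
  rw [LinearMap.add_apply, LinearMap.add_apply] at h1
  rw [LinearMap.sub_apply, LinearMap.sub_apply, LinearMap.add_apply, LinearMap.add_apply, LinearMap.zero_apply, LinearMap.zero_apply, h1]
  ring

omit [DecidableEq E] in
theorem EqD.of_sub {U W : Submodule K (E → K)} {q : Itv E} {T T' : Fm K E} (h : EqD U W q (T - T') 0) : EqD U W q T T' := by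
  obtain ⟨l, hl⟩ := h
  refine ⟨l, fun c hc d hd => ?_⟩
  have h1 := hl c hc d hd
  rw [LinearMap.sub_apply, LinearMap.sub_apply, LinearMap.add_apply, LinearMap.add_apply, LinearMap.zero_apply, LinearMap.zero_apply] at h1
  rw [LinearMap.add_apply, LinearMap.add_apply]
  linear_combination h1

/-- three deletions, with the kernel vector `w` -/
theorem tt3_w (S : TP K E) {p : Itv E} (hp : p.1 ⊆ p.2) {x1 x2 x3 y : E} {T1 T2 Ty : Fm K E}
    (hT1 : InV S.U S.W (rm true x1 p) T1) (hT2 : InV S.U S.W (rm true x2 p) T2) (hTy : InV S.U S.W (rm true y p) Ty)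
    (hx1 : x1 ∈ gs p) (hx2 : x2 ∈ gs p) (hx3 : x3 ∈ gs p) (hyp : y ∈ gs p) (h12 : x1 ≠ x2) (h13 : x1 ≠ x3)
    (hy1 : y ≠ x1) (hy2 : y ≠ x2) (hy3 : y ≠ x3)
    (ht3 : S.r (p.1 ∪ {x1, x2, x3}) = S.r (p.1 ∪ {x1, x2})) (ht1 : S.r (p.1 ∪ {x1, x2, x3}) = S.r (p.1 ∪ {x2, x3}))
    (e1 : EqD S.U S.W (rm true x1 (rm true y p)) T1 Ty) (e2 : EqD S.U S.W (rm true x2 (rm true y p)) T2 Ty)
    (e12 : EqD S.U S.W (rm true x1 (rm true x2 p)) T1 T2) {w : E → K}
    (hw : EqOn S.U S.W (rm true x1 (rm true x2 p)) (dg w) 0)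
    (hom : ∀ l : E → K, EqOn S.U S.W (rm true x1 (rm true x2 (rm true y p))) (dg l) 0 →
      ∃ k : K, ∀ x ∈ gs (rm true x1 (rm true x2 (rm true y p))), l x = k * w x)
    (nd : ND S.r (rm true y p) x1 x2 true true) :
    ∃ T : Fm K E, InV S.U S.W p T ∧ EqD S.U S.W (rm true x1 p) T T1 ∧ EqD S.U S.W (rm true x2 p) T T2 ∧
      EqD S.U S.W (rm true y p) T Ty := by
  obtain ⟨a, ha⟩ := e1
  obtain ⟨b, hb⟩ := e2
  obtain ⟨c, hc⟩ := e12
  have sub1 : Sub (rm true x1 (rm true x2 (rm true y p))) (rm true x1 (rm true y p)) := by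
    rw [rm_comm true true x1 x2]
    exact rm_sub true x2 _
  have sub2 : Sub (rm true x1 (rm true x2 (rm true y p))) (rm true x2 (rm true y p)) := rm_sub true x1 _
  have sub3 : Sub (rm true x1 (rm true x2 (rm true y p))) (rm true x1 (rm true x2 p)) := (rm_sub true y p).rm true x2 |>.rm true x1
  have hl : EqOn S.U S.W (rm true x1 (rm true x2 (rm true y p))) (dg (a - b - c)) 0 := by
    intro u hu v hv
    have f1 := ha.mono sub1 u hu v hv
    have f2 := hb.mono sub2 u hu v hv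
    have f3 := hc.mono sub3 u hu v hv
    rw [LinearMap.add_apply, LinearMap.add_apply] at f1 f2 f3
    rw [dg_sub, dg_sub, LinearMap.sub_apply, LinearMap.sub_apply, LinearMap.sub_apply, LinearMap.sub_apply, LinearMap.zero_apply,
      LinearMap.zero_apply]
    linear_combination f1 * (-1) + f2 + f3
  obtain ⟨k, hk⟩ := hom _ hl
  have hg : EqOn S.U S.W (rm true x1 (rm true x2 p)) T1 (T2 + dg (c + k • w)) := by
    intro u hu v hv
    have f3 := hc u hu v hv
    have f4 := hw u hu v hv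
    rw [LinearMap.add_apply, LinearMap.add_apply] at f3
    rw [dg_add, dg_smul, LinearMap.add_apply, LinearMap.add_apply, LinearMap.add_apply, LinearMap.add_apply, LinearMap.smul_apply,
      LinearMap.smul_apply, f4, f3, LinearMap.zero_apply, LinearMap.zero_apply, smul_zero, add_zero]
  obtain ⟨T, hTa, hTb⟩ := glue_rm true true x1 x2 p T1 (T2 + dg (c + k • w)) hg
  -- on `M \ y`
  have hq1 : EqOn S.U S.W (rm true x1 (rm true y p)) T (Ty + dg a) := by
    have s : Sub (rm true x1 (rm true y p)) (rm true x1 p) := (rm_sub true y p).rm true x1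
    exact (hTa.mono s).trans ha
  have hq2 : EqOn S.U S.W (rm true x2 (rm true y p)) T (Ty + dg (b + (c + k • w))) := by
    have s : Sub (rm true x2 (rm true y p)) (rm true x2 p) := (rm_sub true y p).rm true x2
    intro u hu v hv
    have f1 := hTb.mono s u hu v hv
    have f2 := hb u hu v hv
    rw [LinearMap.add_apply, LinearMap.add_apply] at f1 f2
    rw [LinearMap.add_apply, LinearMap.add_apply, dg_add, LinearMap.add_apply, LinearMap.add_apply]
    linear_combination f1 + f2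
  have hab : ∀ x ∈ gs (rm true x1 (rm true x2 (rm true y p))), a x = (b + (c + k • w)) x := by
    intro x hx
    have h3 := hk x hx
    rw [Pi.sub_apply, Pi.sub_apply] at h3
    rw [Pi.add_apply, Pi.add_apply, Pi.smul_apply, smul_eq_mul]
    linear_combination h3
  have hx1' : x1 ∈ gs (rm true y p) := by
    rw [gs_rm]
    exact Finset.mem_erase.2 ⟨hy1.symm, hx1⟩
  have hx2' : x2 ∈ gs (rm true y p) := by
    rw [gs_rm]
    exact Finset.mem_erase.2 ⟨hy2.symm, hx2⟩
  have hTyy : EqD S.U S.W (rm true y p) T Ty := by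
    refine ⟨fun x => if x = x1 then (b + (c + k • w)) x1 else a x, ?_⟩
    have hm1 : EqOn S.U S.W (rm true x1 (rm true y p)) (dg fun x => if x = x1 then (b + (c + k • w)) x1 else a x) (dg a) := by
      refine dg_congr fun x hx => ?_
      rw [gs_rm] at hx
      exact if_neg (Finset.mem_erase.1 hx).1
    have hm2 : EqOn S.U S.W (rm true x2 (rm true y p)) (dg fun x => if x = x1 then (b + (c + k • w)) x1 else a x)
        (dg (b + (c + k • w))) := by
      refine dg_congr fun x hx => ?_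
      by_cases hxu : x = x1
      · rw [if_pos hxu, hxu]
      · rw [if_neg hxu]
        refine hab x ?_
        rw [gs_rm]
        exact Finset.mem_erase.2 ⟨hxu, hx⟩
    refine EqOn.of_sub (nd_zero S h12 hx1' hx2' nd (fun h => absurd rfl h) ?_ ?_)
    · intro u hu v hv
      have f1 := hq1 u hu v hv
      have f2 := hm1 u hu v hv
      rw [LinearMap.add_apply, LinearMap.add_apply] at f1
      rw [LinearMap.sub_apply, LinearMap.sub_apply, LinearMap.add_apply, LinearMap.add_apply, f1, f2, sub_self]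
      rfl
    · intro u hu v hv
      have f1 := hq2 u hu v hv
      have f2 := hm2 u hu v hv
      rw [LinearMap.add_apply, LinearMap.add_apply] at f1
      rw [LinearMap.sub_apply, LinearMap.sub_apply, LinearMap.add_apply, LinearMap.add_apply, f1, f2, sub_self]
      rfl
  have hTd1 : EqD S.U S.W (rm true x1 p) T T1 := hTa.eqD
  have hTd2 : EqD S.U S.W (rm true x2 p) T T2 := ⟨_, hTb⟩
  exact ⟨T, del_tri S hp (hT1.congrD hTd1) (hT2.congrD hTd2) (hTy.congrD hTyy) hx1 hx2 hx3 hyp h12 h13 hy1 hy2 hy3 ht3 ht1,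
    hTd1, hTd2, hTyy⟩

/-- three deletions, `M \ x1, x2, y` connected and nonbinary -/
theorem tt3 (S : TP K E) {p : Itv E} (hp : p.1 ⊆ p.2) {x1 x2 x3 y : E} {T1 T2 Ty : Fm K E}
    (hT1 : InV S.U S.W (rm true x1 p) T1) (hT2 : InV S.U S.W (rm true x2 p) T2) (hTy : InV S.U S.W (rm true y p) Ty)
    (hx1 : x1 ∈ gs p) (hx2 : x2 ∈ gs p) (hx3 : x3 ∈ gs p) (hyp : y ∈ gs p) (h12 : x1 ≠ x2) (h13 : x1 ≠ x3)
    (hy1 : y ≠ x1) (hy2 : y ≠ x2) (hy3 : y ≠ x3)
    (ht3 : S.r (p.1 ∪ {x1, x2, x3}) = S.r (p.1 ∪ {x1, x2})) (ht1 : S.r (p.1 ∪ {x1, x2, x3}) = S.r (p.1 ∪ {x2, x3}))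
    (e1 : EqD S.U S.W (rm true x1 (rm true y p)) T1 Ty) (e2 : EqD S.U S.W (rm true x2 (rm true y p)) T2 Ty)
    (e12 : EqD S.U S.W (rm true x1 (rm true x2 p)) T1 T2)
    (hom : ∀ l : E → K, EqOn S.U S.W (rm true x1 (rm true x2 (rm true y p))) (dg l) 0 →
      ∀ x ∈ gs (rm true x1 (rm true x2 (rm true y p))), l x = 0)
    (nd : ND S.r (rm true y p) x1 x2 true true) :
    ∃ T : Fm K E, InV S.U S.W p T ∧ EqD S.U S.W (rm true x1 p) T T1 ∧ EqD S.U S.W (rm true x2 p) T T2 ∧
      EqD S.U S.W (rm true y p) T Ty := by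
  refine tt3_w S hp hT1 hT2 hTy hx1 hx2 hx3 hyp h12 h13 hy1 hy2 hy3 ht3 ht1 e1 e2 e12 (w := 0) ?_ (fun l hl => ⟨0, fun x hx => ?_⟩) nd
  · rw [dg_zero]
    exact EqOn.rfl
  · rw [hom l hl x hx, zero_mul]

end Pool.Agent.QU
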