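import Pool.Agent.QUR.TwoEx
import Pool.Agent.QUR.Tut
import Pool.Agent.QUT.Ffive
import Pool.Agent.QUB.Tri
import Pool.Agent.QUB.Bix

/-!
# QUR/TwoDel: a deletion outside of a triangle which is not 3-connected

`two_del`: there is a triangle and some `p \ w`, `w` outside of the triangle, is not 3-connected; then `h(p) ≥ 1`.
-/

set_option autoImplicit false

open QUB Pool.Agent.FRM

namespace Pool.Agent.QU

section

variable {E : Type} [DecidableEq E]

/-- Bixby uncrossing: if `p \ x` has a separation of order at most two with at least three elements on both sides then `p / x` is `Ok` -/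
theorem bix_two {r : Finset E → ℤ} (hr : Rk r) {p : Itv E} (hp : p.1 ⊆ p.2) (h3 : Th3 r p) {x : E} (hx : x ∈ gs p) {A : Finset E}
    (hA : A ⊆ (gs p).erase x) (hA3 : 3 ≤ A.card) (hB3 : 3 ≤ ((gs p).erase x \ A).card) (hl : QUB.lam r (QUB.rm true x p) A ≤ 1) :
    Ok r (QUB.rm false x p) := by
  intro A' hA' hl' ⟨k1, k2⟩
  rw [QUB.gs_rm] at hA' k2
  have c1 := k1.card
  have c2 := k2.card
  have hpf : (QUB.rm false x p).1 ⊆ (QUB.rm false x p).2 := QUB.wf_rm hp hx
  have hAG : A ⊆ gs p := hA.trans (Finset.erase_subset _ _)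
  have hAG' : A' ⊆ gs p := hA'.trans (Finset.erase_subset _ _)
  have u1 := unc hr hp hx hA hA'
  have u2 := unc hr hp hx hA (A' := (gs p).erase x \ A') Finset.sdiff_subset
  rw [Finset.sdiff_sdiff_eq_self hA'] at u2
  have hl2 : QUB.lam r (QUB.rm false x p) ((gs p).erase x \ A') ≤ 1 := by
    have e1 := lam_compl r (p := QUB.rm false x p) hpf (A := A') (by rw [QUB.gs_rm]; exact hA')
    rw [QUB.gs_rm] at e1
    rw [e1]
    exact hl'
  -- one of two opposite corners is small
  have key : ∀ U V : Finset E, U ⊆ gs p → V ⊆ gs p → Disjoint U V → QUB.lam r p U + QUB.lam r p V ≤ 3 → U.card ≤ 1 ∨ V.card ≤ 1 := by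
    intro U V hU hV hd h
    by_contra hcon
    push Not at hcon
    have a1 := h3 U hU (by omega) ((by omega : 2 ≤ V.card).trans (Finset.card_le_card fun y hy =>
      Finset.mem_sdiff.2 ⟨hV hy, fun h' => Finset.disjoint_left.1 hd h' hy⟩))
    have a2 := h3 V hV (by omega) ((by omega : 2 ≤ U.card).trans (Finset.card_le_card fun y hy =>
      Finset.mem_sdiff.2 ⟨hU hy, fun h' => Finset.disjoint_left.1 hd hy h'⟩))
    have a3 : lam r p U = QUB.lam r p U := rfl
    have a4 : lam r p V = QUB.lam r p V := rfl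
    omega
  have s1 := key (A ∩ A') (((gs p).erase x \ A) ∩ ((gs p).erase x \ A')) (Finset.inter_subset_left.trans hAG)
    (Finset.inter_subset_left.trans (Finset.sdiff_subset.trans (Finset.erase_subset _ _)))
    (Finset.disjoint_left.2 fun y h h' => (Finset.mem_sdiff.1 (Finset.mem_inter.1 h').1).2 (Finset.mem_inter.1 h).1) (by linarith)
  have s2 := key (A ∩ ((gs p).erase x \ A')) (((gs p).erase x \ A) ∩ A') (Finset.inter_subset_left.trans hAG)
    (Finset.inter_subset_left.trans (Finset.sdiff_subset.trans (Finset.erase_subset _ _)))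
    (Finset.disjoint_left.2 fun y h h' => (Finset.mem_sdiff.1 (Finset.mem_inter.1 h').1).2 (Finset.mem_inter.1 h).1) (by linarith)
  -- the four corners cover the sets
  have d1 : A.card ≤ (A ∩ A').card + (A ∩ ((gs p).erase x \ A')).card := by
    refine (Finset.card_le_card fun y hy => ?_).trans (Finset.card_union_le _ _)
    by_cases h : y ∈ A'
    · exact Finset.mem_union_left _ (Finset.mem_inter.2 ⟨hy, h⟩)
    · exact Finset.mem_union_right _ (Finset.mem_inter.2 ⟨hy, Finset.mem_sdiff.2 ⟨hA hy, h⟩⟩)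
  have d2 : ((gs p).erase x \ A).card ≤ (((gs p).erase x \ A) ∩ A').card + (((gs p).erase x \ A) ∩ ((gs p).erase x \ A')).card := by
    refine (Finset.card_le_card fun y hy => ?_).trans (Finset.card_union_le _ _)
    by_cases h : y ∈ A'
    · exact Finset.mem_union_left _ (Finset.mem_inter.2 ⟨hy, h⟩)
    · exact Finset.mem_union_right _ (Finset.mem_inter.2 ⟨hy, Finset.mem_sdiff.2 ⟨(Finset.mem_sdiff.1 hy).1, h⟩⟩)
  have d3 : A'.card ≤ (A ∩ A').card + (((gs p).erase x \ A) ∩ A').card := by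
    refine (Finset.card_le_card fun y hy => ?_).trans (Finset.card_union_le _ _)
    by_cases h : y ∈ A
    · exact Finset.mem_union_left _ (Finset.mem_inter.2 ⟨h, hy⟩)
    · exact Finset.mem_union_right _ (Finset.mem_inter.2 ⟨Finset.mem_sdiff.2 ⟨hA' hy, h⟩, hy⟩)
  have d4 : ((gs p).erase x \ A').card ≤ (A ∩ ((gs p).erase x \ A')).card + (((gs p).erase x \ A) ∩ ((gs p).erase x \ A')).card := by
    refine (Finset.card_le_card fun y hy => ?_).trans (Finset.card_union_le _ _)
    by_cases h : y ∈ A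
    · exact Finset.mem_union_left _ (Finset.mem_inter.2 ⟨h, hy⟩)
    · exact Finset.mem_union_right _ (Finset.mem_inter.2 ⟨Finset.mem_sdiff.2 ⟨(Finset.mem_sdiff.1 hy).1, h⟩, hy⟩)
  omega

private theorem td_cl {r : Finset E → ℤ} (hr : Rk r) {p : Itv E} (hp : p.1 ⊆ p.2) {b x : E} (hb : b ∈ gs p) {X Y : Finset E}
    (hXY : X ∪ Y = (gs p).erase b) (hd : Disjoint X Y) (hx : x ∈ X) (hX2 : (X.erase x).Nonempty) (hY : Y.Nonempty)
    (hl : QUB.lam r (QUB.rm true b p) X ≤ 1) (hbr : r (p.2.erase b) = r p.2)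
    (hxr : r ((p.2.erase b).erase x) = r p.2) (cx : Cn r (QUB.rm true x (QUB.rm true b p))) : r (insert x (p.1 ∪ X.erase x)) = r (p.1 ∪ X.erase x) := by
  have hX : X ⊆ (gs p).erase b := hXY ▸ Finset.subset_union_left
  have hYs : Y ⊆ (gs p).erase b := hXY ▸ Finset.subset_union_right
  have hxY : x ∉ Y := fun h => Finset.disjoint_left.1 hd hx h
  have g2 : gs (QUB.rm true x (QUB.rm true b p)) = ((gs p).erase b).erase x := by rw [QUB.gs_rm, QUB.gs_rm]
  have h1 : 1 ≤ QUB.lam r (QUB.rm true x (QUB.rm true b p)) (X.erase x) := by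
    refine cx _ ?_ hX2 ?_
    · rw [g2]
      exact Finset.erase_subset_erase _ hX
    · obtain ⟨y, hy⟩ := hY
      refine ⟨y, ?_⟩
      rw [g2]
      exact Finset.mem_sdiff.2 ⟨Finset.mem_erase.2 ⟨fun h => hxY (h ▸ hy), hYs hy⟩,
        fun h => Finset.disjoint_left.1 hd (Finset.mem_erase.1 h).2 hy⟩
  have hxG : x ∈ (gs p).erase b := hX hx
  have hxp : x ∉ p.1 := (Finset.mem_sdiff.1 (Finset.mem_erase.1 hxG).2).2
  have e1 : (QUB.rm true x (QUB.rm true b p)).1 = p.1 := rfl
  have e2 : (QUB.rm true x (QUB.rm true b p)).2 = (p.2.erase b).erase x := rfl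
  have e3 : (QUB.rm true b p).1 = p.1 := rfl
  have e4 : (QUB.rm true b p).2 = p.2.erase b := rfl
  have e5 : (p.2.erase b).erase x \ X.erase x = p.2.erase b \ X := by
    ext w
    simp only [Finset.mem_sdiff, Finset.mem_erase]
    constructor
    · rintro ⟨⟨h1, h2, h3⟩, h4⟩
      exact ⟨⟨h2, h3⟩, fun h => h4 ⟨h1, h⟩⟩
    · rintro ⟨⟨h2, h3⟩, h4⟩
      refine ⟨⟨fun h => h4 (h ▸ hx), h2, h3⟩, fun h => h4 h.2⟩
  unfold QUB.lam at h1 hl
  rw [e1, e2, e5] at h1
  rw [e3, e4] at hl
  have m3 := hr.unit (p.1 ∪ X.erase x) x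
  have m4 := hr.mono _ _ (Finset.subset_insert x (p.1 ∪ X.erase x))
  have e6 : insert x (p.1 ∪ X.erase x) = p.1 ∪ X := by
    rw [← Finset.union_insert, Finset.insert_erase hx]
  rw [e6] at m3 m4 ⊢
  omega

/-- a side of `p \ w` disjoint from the triangle -/
theorem ts_avoid {r : Finset E → ℤ} (hr : Rk r) {p : Itv E} (hp : p.1 ⊆ p.2) (h3 : Th3 r p) (hn : 4 ≤ (gs p).card) (hT : NoTd r p)
    {f a b w : E} (hf : f ∈ gs p) (ha : a ∈ gs p) (hb : b ∈ gs p) (hw : w ∈ gs p) (hwf : w ≠ f) (hwa : w ≠ a) (hwb : w ≠ b)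
    (hL1 : r (insert f (insert a (insert b p.1))) = r (insert a (insert b p.1)))
    (hL2 : r (insert b (insert f (insert a p.1))) = r (insert f (insert a p.1)))
    (hL3 : r (insert a (insert f (insert b p.1))) = r (insert f (insert b p.1)))
    (hnw : ¬ Th3 r (rm true w p)) : ∃ Z, TS r p w true Z ∧ f ∉ Z ∧ a ∉ Z ∧ b ∉ Z := by
  have mv : ∀ X x y z, TS r p w true X → z ∈ gs p → w ≠ z →
      r (insert z (insert x (insert y p.1))) = r (insert x (insert y p.1)) → x ∈ X → y ∈ X →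
      ∃ Z, TS r p w true Z ∧ x ∉ Z ∧ y ∉ Z ∧ z ∉ Z := by
    intro X x y z hX hz hwz hxyz hx hy
    have hXe : X ⊆ (gs p).erase w := hX.1
    have hwp := Finset.mem_sdiff.1 hw
    have cY : 3 ≤ ((gs p).erase w \ X).card := ts_three hr hp h3 hn hT hw (hX.compl hp hw)
    have hsub : insert z X ⊆ (gs p).erase w := Finset.insert_subset (Finset.mem_erase.2 ⟨hwz.symm, hz⟩) hXe
    have hts : TS r p w true (insert z X) := by
      refine ⟨hsub, hX.2.1.trans (Finset.card_le_card (Finset.subset_insert _ _)), ?_, ?_⟩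
      · have e : (gs p).erase w \ insert z X = ((gs p).erase w \ X).erase z := by
          ext y
          simp only [Finset.mem_sdiff, Finset.mem_insert, Finset.mem_erase, not_or]
          tauto
        rw [e]
        have := Finset.pred_card_le_card_erase (s := (gs p).erase w \ X) (a := z)
        omega
      · have h1 : r ((QUB.rm true w p).1 ∪ X) + r ((QUB.rm true w p).2 \ X) - r (QUB.rm true w p).2 - r (QUB.rm true w p).1 ≤ 1 := hX.2.2.2
        have h2 : r (p.1 ∪ insert z X) = r (p.1 ∪ X) := tu_cl hr hxyz hx hy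
        have h4 := hr.mono ((QUB.rm true w p).2 \ insert z X) ((QUB.rm true w p).2 \ X)
          (Finset.sdiff_subset_sdiff (Finset.Subset.refl _) (Finset.subset_insert _ _))
        show r ((QUB.rm true w p).1 ∪ insert z X) + r ((QUB.rm true w p).2 \ insert z X) - r (QUB.rm true w p).2 - r (QUB.rm true w p).1 ≤ 1
        have e1 : (QUB.rm true w p).1 = p.1 := rfl
        rw [e1] at h1 ⊢
        rw [h2]
        omega
    refine ⟨_, hts.compl hp hw, ?_, ?_, ?_⟩
    · exact fun h => (Finset.mem_sdiff.1 h).2 (Finset.mem_insert_of_mem hx)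
    · exact fun h => (Finset.mem_sdiff.1 h).2 (Finset.mem_insert_of_mem hy)
    · exact fun h => (Finset.mem_sdiff.1 h).2 (Finset.mem_insert_self _ _)
  obtain ⟨C, hC⟩ : ∃ C, TS r p w true C := by
    unfold Th3 at hnw
    push Not at hnw
    obtain ⟨C, hC1, hC2, hD2, hl⟩ := hnw
    have hg : gs (QUB.rm true w p) = (gs p).erase w := QUB.gs_rm true w p
    have hl' : QUB.lam r (QUB.rm true w p) C ≤ 1 := by
      have : QUB.lam r (QUB.rm true w p) C < 2 := hl
      omega
    exact ⟨C, hg ▸ hC1, hC2, by rw [← hg]; exact hD2, hl'⟩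
  have hC' := hC.compl hp hw
  have mem : ∀ x ∈ gs p, w ≠ x → x ∉ C → x ∈ (gs p).erase w \ C := fun x hx hwx h =>
    Finset.mem_sdiff.2 ⟨Finset.mem_erase.2 ⟨hwx.symm, hx⟩, h⟩
  have q1 : r (insert b (insert a (insert f p.1))) = r (insert a (insert f p.1)) := by
    rw [Finset.insert_comm a f]
    exact hL2
  by_cases f1 : f ∈ C
  · by_cases a1 : a ∈ C
    · obtain ⟨Z, h1, h2, h3, h4⟩ := mv C f a b hC hb hwb hL2 f1 a1
      exact ⟨Z, h1, h2, h3, h4⟩
    · by_cases b1 : b ∈ C
      · obtain ⟨Z, h1, h2, h3, h4⟩ := mv C f b a hC ha hwa hL3 f1 b1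
        exact ⟨Z, h1, h2, h4, h3⟩
      · obtain ⟨Z, h1, h2, h3, h4⟩ := mv _ a b f hC' hf hwf hL1 (mem a ha hwa a1) (mem b hb hwb b1)
        exact ⟨Z, h1, h4, h2, h3⟩
  · by_cases a1 : a ∈ C
    · by_cases b1 : b ∈ C
      · obtain ⟨Z, h1, h2, h3, h4⟩ := mv C a b f hC hf hwf hL1 a1 b1
        exact ⟨Z, h1, h4, h2, h3⟩
      · obtain ⟨Z, h1, h2, h3, h4⟩ := mv _ f b a hC' ha hwa hL3 (mem f hf hwf f1) (mem b hb hwb b1)
        exact ⟨Z, h1, h2, h4, h3⟩
    · obtain ⟨Z, h1, h2, h3, h4⟩ := mv _ f a b hC' hb hwb hL2 (mem f hf hwf f1) (mem a ha hwa a1)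
      exact ⟨Z, h1, h2, h3, h4⟩

/-- a minimum 2-side disjoint from the triangle: there is a minimum 2-side of a deletion -/
theorem ts_min {r : Finset E → ℤ} {p : Itv E} {w : E} {Z D : Finset E} (hw : w ∈ gs p) (hZ : TS r p w true Z) (hZD : Disjoint Z D) :
    ∃ v ∈ gs p, ∃ X, TS r p v true X ∧ Disjoint X D ∧ ∀ u ∈ gs p, ∀ Z, TS r p u true Z → Disjoint Z D → X.card ≤ Z.card := by
  classical
  have hex : ∃ n : ℕ, ∃ v ∈ gs p, ∃ X, TS r p v true X ∧ Disjoint X D ∧ X.card = n := ⟨Z.card, w, hw, Z, hZ, hZD, rfl⟩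
  obtain ⟨v, hv, X, hX, hXD, hn⟩ := Nat.find_spec hex
  refine ⟨v, hv, X, hX, hXD, fun u hu Z' hZ' hZD' => ?_⟩
  rw [hn]
  exact Nat.find_min' hex ⟨u, hu, Z', hZ', hZD', rfl⟩

end

section

variable {E : Type} [Fintype E] [DecidableEq E]

/-- the final step for a minimum 2-side disjoint from the triangle -/
private theorem td_fin (S : TP F4 E) (hNU : NU S.r) {p : Itv E} (hp : p.1 ⊆ p.2) (hC : Cn S.r p) (h3 : Th3 S.r p) (hn : 9 ≤ (gs p).card)
    (hT : NoTd S.r p) {f a b v : E} (hf : f ∈ gs p) (ha : a ∈ gs p) (hb : b ∈ gs p) (hv : v ∈ gs p)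
    (hfa : f ≠ a) (hfb : f ≠ b) (hab : a ≠ b) (hvf : v ≠ f) (hva : v ≠ a) (hvb : v ≠ b) (hL : Tri3 S.r p f a b)
    (hex : ∀ w ∈ gs p, ∀ t, ∃ T, InVs S (rm t w p) T) {D X : Finset E} (hX : TS S.r p v true X) (hXD : Disjoint X D) (hvD : v ∉ D)
    (hfX : f ∉ X) (haX : a ∉ X) (hbX : b ∉ X)
    (hmin : ∀ u ∈ gs p, ∀ Z, TS S.r p u true Z → Disjoint Z D → X.card ≤ Z.card)
    (h3f : Th3 S.r (rm true f p)) (hR : HasRich S.r (rm true f p)) (hok : Ok S.r (QUB.rm true f (QUB.rm false v p))) :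
    ∃ T : Fm F4 E, InV S.U S.W p T ∧ ¬ EqD S.U S.W p T 0 := by
  have hr := S.rk
  have hXe : X ⊆ (gs p).erase v := hX.1
  have hXm : ∀ e ∈ X, e ∈ gs p ∧ e ≠ v := fun e he => ⟨(Finset.mem_erase.1 (hXe he)).2, (Finset.mem_erase.1 (hXe he)).1⟩
  have cX : 3 ≤ X.card := ts_three hr hp h3 (by omega) hT hv hX
  have hXc := hX.compl hp hv
  have cY : 3 ≤ ((gs p).erase v \ X).card := ts_three hr hp h3 (by omega) hT hv hXc
  have hmin' : ∀ u ∈ gs p, ∀ t : Bool, t = true → ∀ Z, TS S.r p u t Z → Disjoint Z D → X.card ≤ Z.card :=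
    fun u hu t ht Z hZ hd => hmin u hu Z (ht ▸ hZ) hd
  have h3X : ∀ e ∈ X, Th3 S.r (rm true e p) := fun e he =>
    ts_th3 hr hp hC h3 (by omega) (a := fun t => t = true) (D := D) hv rfl hX hXD hvD
      (fun u hu t ht Z hZ => ts_three hr hp h3 (by omega) hT hu (ht ▸ hZ)) hmin' he rfl
  have hcn : ∀ e ∈ X, Cn S.r (QUB.rm true e (QUB.rm true v p)) := fun e he =>
    ts_cn hr hp hC h3 (by omega) (a := fun t => t = true) (D := D) hv rfl hX hXD cX hmin' he true
  have rv : S.r (p.2.erase v) = S.r p.2 := th3_del1 hr hp h3 (by omega) hv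
  have hYf : f ∈ (gs p).erase v \ X := Finset.mem_sdiff.2 ⟨Finset.mem_erase.2 ⟨hvf.symm, hf⟩, hfX⟩
  have hne : X.Nonempty := Finset.card_pos.1 (by omega)
  -- ranks
  have k1 : ∀ e ∈ X, S.r (p.1 ∪ X.erase e) = S.r (p.1 ∪ X) := by
    intro e he
    have hev := hXm e he
    have rve : S.r ((p.2.erase v).erase e) = S.r p.2 := th3_del2 hr hp h3 (by omega) hv hev.1 hev.2.symm
    have cl := td_cl hr hp hv (X := X) (Y := (gs p).erase v \ X) (Finset.union_sdiff_of_subset hXe) Finset.disjoint_sdiff he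
      (Finset.card_pos.1 (by rw [Finset.card_erase_of_mem he]; omega)) (Finset.card_pos.1 (by omega)) hX.2.2.2 rv rve (hcn e he)
    have e6 : insert e (p.1 ∪ X.erase e) = p.1 ∪ X := by
      rw [← Finset.union_insert, Finset.insert_erase he]
    rw [e6] at cl
    exact cl.symm
  have k2 : ∀ e ∈ X, S.r (insert e (p.2.erase v \ X)) = S.r (p.2.erase v \ X) + 1 := by
    intro e he
    by_contra hcon
    have hev := hXm e he
    have u1 := hr.unit (p.2.erase v \ X) e
    have u2 := hr.mono _ _ (Finset.subset_insert e (p.2.erase v \ X))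
    have u3 : S.r (insert e (p.2.erase v \ X)) = S.r (p.2.erase v \ X) := by omega
    have hl : S.r (p.1 ∪ X) + S.r (p.2.erase v \ X) - S.r (p.2.erase v) - S.r p.1 ≤ 1 := hX.2.2.2
    have e1 : p.2.erase v \ X.erase e = insert e (p.2.erase v \ X) := by
      ext y
      simp only [Finset.mem_sdiff, Finset.mem_erase, Finset.mem_insert]
      constructor
      · rintro ⟨h1, h2⟩
        by_cases hye : y = e
        · exact Or.inl hye
        · exact Or.inr ⟨h1, fun h => h2 ⟨hye, h⟩⟩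
      · rintro (rfl | h)
        · exact ⟨⟨hev.2, (Finset.mem_sdiff.1 hev.1).1⟩, fun h => h.1 rfl⟩
        · exact ⟨h.1, fun h' => h.2 h'.2⟩
    have hts : TS S.r p v true (X.erase e) := by
      refine ⟨(Finset.erase_subset _ _).trans hXe, by rw [Finset.card_erase_of_mem he]; omega,
        hX.2.2.1.trans (Finset.card_le_card (Finset.sdiff_subset_sdiff (Finset.Subset.refl _) (Finset.erase_subset _ _))), ?_⟩
      show S.r (p.1 ∪ X.erase e) + S.r (p.2.erase v \ X.erase e) - S.r (p.2.erase v) - S.r p.1 ≤ 1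
      rw [e1, u3, k1 e he]
      exact hl
    have h1 := hmin v hv _ hts (Finset.disjoint_of_subset_left (Finset.erase_subset _ _) hXD)
    rw [Finset.card_erase_of_mem he] at h1
    omega
  have cf : Cn S.r (rm true f p) := th3_cn hr hp hC h3 (by omega) hf true
  refine h_of_ex S (two_ex S hp hfa hfb hab hf ha hb hv hvf hva hvb hL hXe hX.2.2.2 hfX haX hbX hne k1 k2 ?_ ?_) (hex f hf true) hR
  · intro e he
    have hev := hXm e he
    have hfe : f ≠ e := fun h => hfX (h ▸ he)
    have hfv := fv_of hr hp hC h3 (by omega) hv hX cX cY he hYf (t := true) (u := true) (h3X e he) h3f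
    refine ex_ok S hNU (QUB.wf_rm hp hev.1) ?_ (hfv.cn hr (th3_cn hr hp hC h3 (by omega) hev.1 true)) (hfv.ok hr) (hex e hev.1 true)
    rw [gs_rm]
    exact Finset.mem_erase.2 ⟨hfe, hf⟩
  · refine ex_ok S hNU (QUB.wf_rm hp hv) ?_ ?_ hok (hex v hv false)
    · rw [gs_rm]
      exact Finset.mem_erase.2 ⟨hvf.symm, hf⟩
    · show Cn S.r (QUB.rm true f (QUB.rm false v p))
      rw [QUB.rm_comm]
      refine th3_cn hr (QUB.wf_rm hp hf) cf h3f ?_ ?_ false
      · rw [gs_rm, Finset.card_erase_of_mem hf]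
        omega
      · rw [gs_rm]
        exact Finset.mem_erase.2 ⟨hvf, hv⟩

/-- P2: `p \ w` is not 3-connected, `w` outside of the triangle -/
theorem two_del (S : TP F4 E) (hNU : NU S.r) {p : Itv E} (hp : p.1 ⊆ p.2) (hC : Cn S.r p) (h3 : Th3 S.r p)
    (hn : 9 ≤ (gs p).card) (hT : NoTd S.r p)
    (hA : ∀ x ∈ gs p, ∀ y ∈ gs p, ∀ z ∈ gs p, x ≠ y → x ≠ z → y ≠ z → Tri3 S.r p x y z → Th3 S.r (rm true x p) → HasRich S.r (rm true x p))
    {f a b w : E} (hf : f ∈ gs p) (ha : a ∈ gs p) (hb : b ∈ gs p) (hw : w ∈ gs p)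
    (hfa : f ≠ a) (hfb : f ≠ b) (hab : a ≠ b) (hwf : w ≠ f) (hwa : w ≠ a) (hwb : w ≠ b) (hL : Tri3 S.r p f a b)
    (hex : ∀ w ∈ gs p, ∀ t, ∃ T, InVs S (rm t w p) T) (h3f : Th3 S.r (rm true f p)) (hR : HasRich S.r (rm true f p))
    (hnw : ¬ Th3 S.r (rm true w p)) : ∃ T : Fm F4 E, InV S.U S.W p T ∧ ¬ EqD S.U S.W p T 0 := by
  have hr := S.rk
  have t1 : S.r (insert f (insert a (insert b p.1))) = S.r (insert a (insert b p.1)) := hL.1.1
  have t2 : S.r (insert b (insert f (insert a p.1))) = S.r (insert f (insert a p.1)) := hL.1.2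
  have t3 : S.r (insert a (insert f (insert b p.1))) = S.r (insert f (insert b p.1)) := hL.2
  obtain ⟨Z, hZ, z1, z2, z3⟩ := ts_avoid hr hp h3 (by omega) hT hf ha hb hw hwf hwa hwb t1 t2 t3 hnw
  have dj : ∀ Z : Finset E, f ∉ Z → a ∉ Z → b ∉ Z → Disjoint Z ({f, a, b} : Finset E) := by
    intro Z z1 z2 z3
    rw [Finset.disjoint_left]
    intro y hy hy'
    simp only [Finset.mem_insert, Finset.mem_singleton] at hy'
    rcases hy' with rfl | rfl | rfl
    · exact z1 hy
    · exact z2 hy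
    · exact z3 hy
  obtain ⟨v, hv, X, hX, hXD, hmin⟩ := ts_min (D := ({f, a, b} : Finset E)) hw hZ (dj Z z1 z2 z3)
  have hfX : f ∉ X := fun h => Finset.disjoint_left.1 hXD h (by simp)
  have haX : a ∉ X := fun h => Finset.disjoint_left.1 hXD h (by simp)
  have hbX : b ∉ X := fun h => Finset.disjoint_left.1 hXD h (by simp)
  have hXc := hX.compl hp hv
  -- v is not in the triangle
  have mY : ∀ x ∈ gs p, v ≠ x → x ∉ X → x ∈ (gs p).erase v \ X := fun x hx hvx h =>
    Finset.mem_sdiff.2 ⟨Finset.mem_erase.2 ⟨hvx.symm, hx⟩, h⟩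
  have hvf : v ≠ f := by
    rintro rfl
    exact ts_split hr hp h3 hf ha hb hfa hfb t1 hXc (mY a ha hfa haX) (mY b hb hfb hbX)
  have hva : v ≠ a := by
    rintro rfl
    exact ts_split hr hp h3 ha hf hb hfa.symm hab t3 hXc (mY f hf hfa.symm hfX) (mY b hb hab hbX)
  have hvb : v ≠ b := by
    rintro rfl
    exact ts_split hr hp h3 hb hf ha hfb.symm hab.symm t2 hXc (mY f hf hfb.symm hfX) (mY a ha hab.symm haX)
  have hvD : v ∉ ({f, a, b} : Finset E) := by
    simp only [Finset.mem_insert, Finset.mem_singleton, not_or]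
    exact ⟨hvf, hva, hvb⟩
  have hXe : X ⊆ (gs p).erase v := hX.1
  have cX : 3 ≤ X.card := ts_three hr hp h3 (by omega) hT hv hX
  have cY : 3 ≤ ((gs p).erase v \ X).card := ts_three hr hp h3 (by omega) hT hv hXc
  by_cases hY4 : 4 ≤ ((gs p).erase v \ X).card
  · -- Bixby
    refine td_fin S hNU hp hC h3 hn hT hf ha hb hv hfa hfb hab hvf hva hvb hL hex hX hXD hvD hfX haX hbX hmin h3f hR ?_
    rw [QUB.rm_comm]
    have hpf : (rm true f p).1 ⊆ (rm true f p).2 := QUB.wf_rm hp hf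
    have gf : gs (rm true f p) = (gs p).erase f := gs_rm true f p
    have hXf : X ⊆ (gs (rm true f p)).erase v := by
      rw [gf]
      intro y hy
      have h1 := Finset.mem_erase.1 (hXe hy)
      exact Finset.mem_erase.2 ⟨h1.1, Finset.mem_erase.2 ⟨fun h => hfX (h ▸ hy), h1.2⟩⟩
    refine bix_two hr hpf h3f (x := v) ?_ (A := X) hXf cX ?_ ?_
    · rw [gf]
      exact Finset.mem_erase.2 ⟨hvf, hv⟩
    · have e : (gs (rm true f p)).erase v \ X = ((gs p).erase v \ X).erase f := by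
        rw [gf]
        ext y
        simp only [Finset.mem_sdiff, Finset.mem_erase]
        tauto
      rw [e]
      have := Finset.pred_card_le_card_erase (s := (gs p).erase v \ X) (a := f)
      omega
    · show QUB.lam S.r (QUB.rm true v (QUB.rm true f p)) X ≤ 1
      rw [QUB.rm_comm]
      refine (lam_rm_le (p := QUB.rm true v p) hr ?_ ?_).trans hX.2.2.2
      · rw [QUB.gs_rm]
        exact Finset.mem_erase.2 ⟨hvf.symm, hf⟩
      · rw [QUB.gs_rm]
        intro y hy
        exact Finset.mem_erase.2 ⟨fun h => hfX (h ▸ hy), hXe hy⟩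
  · -- the other side is the triangle
    have hY : (gs p).erase v \ X = {f, a, b} := by
      symm
      refine Finset.eq_of_subset_of_card_le ?_ ?_
      · intro y hy
        simp only [Finset.mem_insert, Finset.mem_singleton] at hy
        rcases hy with rfl | rfl | rfl
        · exact mY _ hf hvf hfX
        · exact mY _ ha hva haX
        · exact mY _ hb hvb hbX
      · have c3 : ({f, a, b} : Finset E).card = 3 := Finset.card_eq_three.2 ⟨f, a, b, hfa, hfb, hab, rfl⟩
        omega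
    rw [hY] at hXc
    have c3 : ({f, a, b} : Finset E).card = 3 := Finset.card_eq_three.2 ⟨f, a, b, hfa, hfb, hab, rfl⟩
    -- all deletions of the elements of the triangle are 3-connected
    have h3L : ∀ x ∈ ({f, a, b} : Finset E), Th3 S.r (rm true x p) := fun x hx =>
      ts_th3 hr hp hC h3 (by omega) (a := fun t => t = true) (D := ∅) hv rfl hXc (Finset.disjoint_empty_right _) (Finset.notMem_empty _)
        (fun u hu t ht Z hZ => ts_three hr hp h3 (by omega) hT hu (ht ▸ hZ))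
        (fun u hu t ht Z hZ _ => by
          have := ts_three hr hp h3 (by omega) hT hu (ht ▸ hZ : TS S.r p u true Z)
          omega) hx rfl
    -- `p / v`
    have ov : Ok S.r (QUB.rm false v p) := bix_two hr hp h3 hv hXe cX cY hX.2.2.2
    have cv : Cn S.r (QUB.rm false v p) := th3_cn hr hp hC h3 (by omega) hv false
    have up : ∀ x y z : E, S.r (insert x (insert y (insert z p.1))) = S.r (insert y (insert z p.1)) →
        S.r (insert x (insert y (insert z (insert v p.1)))) = S.r (insert y (insert z (insert v p.1))) := by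
      intro x y z h
      have hs : insert y (insert z p.1) ⊆ insert y (insert z (insert v p.1)) :=
        Finset.insert_subset_insert _ (Finset.insert_subset_insert _ (Finset.subset_insert _ _))
      have m1 := QUB.marg hr hs x
      have m2 := hr.mono _ _ (Finset.subset_insert x (insert y (insert z (insert v p.1))))
      omega
    have gv : gs (QUB.rm false v p) = (gs p).erase v := QUB.gs_rm false v p
    rcases tri_del (p := QUB.rm false v p) hr (QUB.wf_rm hp hv) cv ov (x := f) (y := a) (z := b)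
      (by rw [QUB.gs_rm]; exact Finset.mem_erase.2 ⟨hvf.symm, hf⟩) (by rw [QUB.gs_rm]; exact Finset.mem_erase.2 ⟨hva.symm, ha⟩)
      (by rw [QUB.gs_rm]; exact Finset.mem_erase.2 ⟨hvb.symm, hb⟩) hfa hfb hab (up f a b t1) (up a f b t3) with h | h
    · exact td_fin S hNU hp hC h3 hn hT hf ha hb hv hfa hfb hab hvf hva hvb hL hex hX hXD hvD hfX haX hbX hmin h3f hR h
    · have hL' : Tri3 S.r p a f b := by
        refine ⟨⟨t3, ?_⟩, t1⟩
        rw [Finset.insert_comm a f]
        exact t2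
      have h3a := h3L a (by simp)
      exact td_fin S hNU hp hC h3 hn hT ha hf hb hv hfa.symm hab hfb hva hvf hvb hL' hex hX hXD hvD haX hfX hbX hmin h3a
        (hA a ha f hf b hb hfa.symm hab hfb hL' h3a) h

end

end Pool.Agent.QU
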