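import Pool.Agent.QUR.TwoSide
import Pool.Agent.QUR.Key

set_option autoImplicit false

/-!
# QUR/TwoEx: the 2-side lemma without contractions

`pair_form`: the disjoint pair of `pair_avoid` has the same value of the form. `two_ex`: `{f, a, b}` is a triangle on one side of a separation of order
one of `M \ w` with other side `X`; if forms of `M \ f` extend to `M / w` and to all `M \ e` with `e ∈ X`, then they extend to `M`.
-/

open Module (finrank)

namespace Pool.Agent.QU

variable {K E : Type} [Field K] [Fintype E] [DecidableEq E]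

omit [Fintype E] in
private theorem tx_van {U : Submodule K (E → K)} {A B : Finset E} {c : E → K} (hA : c ∈ van U A) (hB : ∀ x ∈ B, c x = 0) :
    c ∈ van U (A ∪ B) := by
  refine ⟨hA.1, fun y hy => ?_⟩
  rcases Finset.mem_union.1 hy with h | h
  · exact hA.2 y h
  · exact hB y h

/-- dimension of the sum of two spaces `spt` -/
private theorem tx_ssup (S : TP K E) {A B : Finset E}
    (h : S.r A + S.r B ≤ S.r (A ∪ B) + S.r (A ∩ B)) : spt S.W A ⊔ spt S.W B = spt S.W (A ∪ B) := by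
  refine Submodule.eq_of_le_of_finrank_le
    (sup_le (spt_mono Finset.subset_union_left) (spt_mono Finset.subset_union_right)) ?_
  have h5 := Submodule.finrank_sup_add_finrank_inf_eq (spt S.W A) (spt S.W B)
  rw [← spt_inter] at h5
  have a1 := S.hW A
  have a2 := S.hW B
  have a3 := S.hW (A ∪ B)
  have a4 := S.hW (A ∩ B)
  have b : ((A ∪ B).card : ℤ) + (A ∩ B).card = A.card + B.card := by exact_mod_cast Finset.card_union_add_card_inter A B
  have c5 : (finrank K ↥(spt S.W A ⊔ spt S.W B) : ℤ) + finrank K (spt S.W (A ∩ B)) =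
      finrank K (spt S.W A) + finrank K (spt S.W B) := by exact_mod_cast h5
  have c6 : (finrank K (spt S.W (A ∪ B)) : ℤ) ≤ finrank K ↥(spt S.W A ⊔ spt S.W B) := by linarith
  exact_mod_cast c6

/-- dimension of the sum of two spaces `van` -/
private theorem tx_vsup (S : TP K E) {A B D : Finset E} (hA : D ⊆ A) (hB : D ⊆ B)
    (h : S.r A + S.r B ≤ S.r (A ∪ B) + S.r D) : van S.U A ⊔ van S.U B = van S.U D := by
  refine Submodule.eq_of_le_of_finrank_le (sup_le (van_anti hA) (van_anti hB)) ?_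
  have h5 := Submodule.finrank_sup_add_finrank_inf_eq (van S.U A) (van S.U B)
  rw [← van_union] at h5
  have a1 := S.hU A
  have a2 := S.hU B
  have a3 := S.hU (A ∪ B)
  have a4 := S.hU D
  have c5 : (finrank K ↥(van S.U A ⊔ van S.U B) : ℤ) + finrank K (van S.U (A ∪ B)) =
      finrank K (van S.U A) + finrank K (van S.U B) := by exact_mod_cast h5
  have c6 : (finrank K (van S.U D) : ℤ) ≤ finrank K ↥(van S.U A ⊔ van S.U B) := by linarith
  exact_mod_cast c6

/-- a disjoint pair can be moved away from `e ∈ X` without changing it outside of `X`, and without changing the value of a form which vanishes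
on the disjoint pairs with `c a = 0` or `d f = 0`, `f` and `a` outside of `X` -/
theorem pair_form (S : TP K E) {q : Itv E} (hq : q.1 ⊆ q.2) {X : Finset E} (hX : X ⊆ gs q) (hl : QUB.lam S.r q X ≤ 1)
    {e : E} (he : e ∈ X) (h1 : S.r (q.1 ∪ X.erase e) = S.r (q.1 ∪ X))
    (h2 : S.r (insert e (q.2 \ X)) = S.r (q.2 \ X) + 1) {f a : E} (hf : f ∈ gs q) (ha : a ∈ gs q) (hfX : f ∉ X) (haX : a ∉ X)
    {Θ : Fm K E} (hΘa : ∀ c ∈ van S.U q.1, ∀ d ∈ spt S.W q.2, (∀ x, c x * d x = 0) → c a = 0 → Θ c d = 0)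
    (hΘf : ∀ c ∈ van S.U q.1, ∀ d ∈ spt S.W q.2, (∀ x, c x * d x = 0) → d f = 0 → Θ c d = 0)
    {c d : E → K} (hc : c ∈ van S.U q.1) (hd : d ∈ spt S.W q.2) (hcd : ∀ x, c x * d x = 0) :
    ∃ c' ∈ van S.U q.1, ∃ d' ∈ spt S.W q.2, (∀ x, c' x * d' x = 0) ∧ c' e = 0 ∧ d' e = 0 ∧
      (∀ y ∈ gs q, y ∉ X → c' y = c y ∧ d' y = d y) ∧ Θ c' d' = Θ c d := by
  classical
  have hl' : S.r (q.1 ∪ X) + S.r (q.2 \ X) - S.r q.2 - S.r q.1 ≤ 1 := hl
  have hXq : X ⊆ q.2 := fun x hx => (Finset.mem_sdiff.1 (hX hx)).1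
  have hXd : ∀ x ∈ X, x ∉ q.1 := fun x hx => (Finset.mem_sdiff.1 (hX hx)).2
  have hqX : q.1 ⊆ q.2 \ X := fun x hx => Finset.mem_sdiff.2 ⟨hq hx, fun h => hXd x h hx⟩
  -- a decomposition of a pair
  by_cases hA : d ∈ spt S.W (q.1 ∪ X) ⊔ spt S.W (q.2 \ X)
  · obtain ⟨dX, hdX, dY, hdY, rfl⟩ := Submodule.mem_sup.1 hA
    obtain ⟨x, hx, hxe⟩ := TP.van_one S h2
    have hY : ∀ y ∈ gs q, y ∉ X → dX y = 0 := by
      intro y hy hyX
      refine hdX.2 y fun h => ?_
      rcases Finset.mem_union.1 h with h | h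
      · exact (Finset.mem_sdiff.1 hy).2 h
      · exact hyX h
    have hc' : ∀ y ∈ q.2 \ X, (c - c e • x) y = c y := by
      intro y hy
      rw [Pi.sub_apply, Pi.smul_apply, hx.2 y hy, smul_zero, sub_zero]
    refine ⟨c - c e • x, Submodule.sub_mem _ hc (Submodule.smul_mem _ _ (van_anti hqX hx)), dY,
      spt_mono Finset.sdiff_subset hdY, ?_, ?_, ?_, ?_, ?_⟩
    · intro y
      by_cases hy : y ∈ q.2 \ X
      · rw [hc' y hy]
        by_cases hyq : y ∈ q.1
        · rw [hc.2 y hyq, zero_mul]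
        · have h3 := hcd y
          rw [Pi.add_apply, hY y (Finset.mem_sdiff.2 ⟨(Finset.mem_sdiff.1 hy).1, hyq⟩) (Finset.mem_sdiff.1 hy).2,
            zero_add] at h3
          exact h3
      · rw [hdY.2 y hy, mul_zero]
    · rw [Pi.sub_apply, Pi.smul_apply, smul_eq_mul, hxe, mul_one, sub_self]
    · exact hdY.2 e fun h => (Finset.mem_sdiff.1 h).2 he
    · intro y hy hyX
      refine ⟨hc' y (Finset.mem_sdiff.2 ⟨(Finset.mem_sdiff.1 hy).1, hyX⟩), ?_⟩
      rw [Pi.add_apply, hY y hy hyX, zero_add]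
    · have hXsub : q.1 ∪ X ⊆ q.2 := Finset.union_subset hq hXq
      have v1 : Θ c dX = 0 := by
        refine hΘf c hc dX (spt_mono hXsub hdX) (fun y => ?_) (hdX.2 f fun h => ?_)
        · by_cases hyq : y ∈ q.1
          · rw [hc.2 y hyq, zero_mul]
          by_cases hyX : y ∈ X
          · have h3 := hcd y
            rw [Pi.add_apply, hdY.2 y (fun h => (Finset.mem_sdiff.1 h).2 hyX), add_zero] at h3
            exact h3
          · rw [hdX.2 y (by simp only [Finset.mem_union, not_or]; exact ⟨hyq, hyX⟩), mul_zero]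
        · rcases Finset.mem_union.1 h with h | h
          · exact (Finset.mem_sdiff.1 hf).2 h
          · exact hfX h
      have v2 : Θ x dY = 0 := by
        refine hΘa x (van_anti hqX hx) dY (spt_mono Finset.sdiff_subset hdY) (fun y => ?_)
          (hx.2 a (Finset.mem_sdiff.2 ⟨(Finset.mem_sdiff.1 ha).1, haX⟩))
        by_cases hy : y ∈ q.2 \ X
        · rw [hx.2 y hy, zero_mul]
        · rw [hdY.2 y hy, mul_zero]
      rw [map_sub, map_smul, LinearMap.sub_apply, LinearMap.smul_apply, v2, smul_zero, sub_zero, map_add, v1, zero_add]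
  · -- `d` crosses the separation
    set Z : Finset E := (gs q \ X).filter fun y => c y = 0 with hZ
    have hZg : Z ⊆ gs q \ X := Finset.filter_subset _ _
    have hZX : ∀ x ∈ Z, x ∉ X := fun x hx => (Finset.mem_sdiff.1 (hZg hx)).2
    have hZ1 : ∀ x ∈ Z, x ∉ q.1 := fun x hx => (Finset.mem_sdiff.1 (Finset.mem_sdiff.1 (hZg hx)).1).2
    have hZ2 : ∀ x ∈ Z, x ∈ q.2 := fun x hx => (Finset.mem_sdiff.1 (Finset.mem_sdiff.1 (hZg hx)).1).1
    have e1 : (q.1 ∪ X) ∪ (q.1 ∪ Z) = q.1 ∪ X ∪ Z := by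
      ext x
      simp only [Finset.mem_union]
      tauto
    have e2 : (q.1 ∪ X) ∩ (q.1 ∪ Z) = q.1 := by
      ext x
      simp only [Finset.mem_union, Finset.mem_inter]
      constructor
      · rintro ⟨h3 | h3, h4 | h4⟩
        · exact h3
        · exact h3
        · exact h4
        · exact absurd h3 (hZX x h4)
      · intro h
        exact ⟨Or.inl h, Or.inl h⟩
    have hdZ : d ∈ spt S.W (q.1 ∪ X ∪ Z) := by
      refine ⟨hd.1, fun x hx => ?_⟩
      by_contra hne
      apply hx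
      have hxq : x ∈ q.2 := by
        by_contra h
        exact hne (hd.2 x h)
      by_cases hx1 : x ∈ q.1
      · exact Finset.mem_union_left _ (Finset.mem_union_left _ hx1)
      by_cases hxX : x ∈ X
      · exact Finset.mem_union_left _ (Finset.mem_union_right _ hxX)
      refine Finset.mem_union_right _ (Finset.mem_filter.2 ⟨Finset.mem_sdiff.2 ⟨Finset.mem_sdiff.2 ⟨hxq, hx1⟩, hxX⟩, ?_⟩)
      rcases mul_eq_zero.1 (hcd x) with h | h
      · exact h
      · exact absurd h hne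
    have hr : S.r (q.1 ∪ X ∪ Z) + S.r q.1 + 1 ≤ S.r (q.1 ∪ X) + S.r (q.1 ∪ Z) := by
      by_contra hcon
      have h3 := tx_ssup S (A := q.1 ∪ X) (B := q.1 ∪ Z) (by rw [e1, e2]; omega)
      rw [e1] at h3
      rw [← h3] at hdZ
      have hZY : q.1 ∪ Z ⊆ q.2 \ X := by
        intro x hx
        rcases Finset.mem_union.1 hx with h | h
        · exact hqX h
        · exact Finset.mem_sdiff.2 ⟨hZ2 x h, hZX x h⟩
      have h4 : spt S.W (q.1 ∪ X) ⊔ spt S.W (q.1 ∪ Z) ≤ spt S.W (q.1 ∪ X) ⊔ spt S.W (q.2 \ X) :=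
        sup_le_sup le_rfl (spt_mono hZY)
      exact hA (h4 hdZ)
    have e3 : (q.1 ∪ X ∪ Z) ∪ (q.2 \ X) = q.2 := by
      ext x
      simp only [Finset.mem_union, Finset.mem_sdiff]
      constructor
      · rintro (((h | h) | h) | h)
        · exact hq h
        · exact hXq h
        · exact hZ2 x h
        · exact h.1
      · intro h
        by_cases hxX : x ∈ X
        · exact Or.inl (Or.inl (Or.inr hxX))
        · exact Or.inr ⟨h, hxX⟩
    have hsup := tx_vsup S (A := q.1 ∪ X ∪ Z) (B := q.2 \ X) (D := q.1 ∪ Z)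
      (by
        intro x hx
        rcases Finset.mem_union.1 hx with h | h
        · exact Finset.mem_union_left _ (Finset.mem_union_left _ h)
        · exact Finset.mem_union_right _ h)
      (by
        intro x hx
        rcases Finset.mem_union.1 hx with h | h
        · exact hqX h
        · exact Finset.mem_sdiff.2 ⟨hZ2 x h, hZX x h⟩)
      (by rw [e3]; linarith)
    have hcZ : c ∈ van S.U (q.1 ∪ Z) := tx_van hc fun x hx => (Finset.mem_filter.1 hx).2
    rw [← hsup] at hcZ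
    obtain ⟨c1, hc1, c2, hc2, hcc⟩ := Submodule.mem_sup.1 hcZ
    have heX : e ∈ q.1 ∪ X := Finset.mem_union_right _ he
    have e4 : (q.1 ∪ X).erase e = q.1 ∪ X.erase e := by
      ext x
      simp only [Finset.mem_erase, Finset.mem_union]
      constructor
      · rintro ⟨h3, h4 | h4⟩
        · exact Or.inl h4
        · exact Or.inr ⟨h3, h4⟩
      · rintro (h | h)
        · exact ⟨fun h3 => hXd e he (h3 ▸ h), Or.inl h⟩
        · exact ⟨h.1, Or.inr h.2⟩
    obtain ⟨x, hx, hxe⟩ := TP.spt_one S heX (by rw [e4]; exact h1)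
    have hYc : ∀ y ∈ gs q, y ∉ X → c1 y = c y := by
      intro y hy hyX
      have h3 := hc2.2 y (Finset.mem_sdiff.2 ⟨(Finset.mem_sdiff.1 hy).1, hyX⟩)
      rw [← hcc, Pi.add_apply, h3, add_zero]
    have hYd : ∀ y, y ∉ q.1 → y ∉ X → (d - d e • x) y = d y := by
      intro y hy hyX
      rw [Pi.sub_apply, Pi.smul_apply, hx.2 y (by simp only [Finset.mem_union, not_or]; exact ⟨hy, hyX⟩), smul_zero,
        sub_zero]
    have hc1X : ∀ y ∈ X, c1 y = 0 := fun y hy => hc1.2 y (Finset.mem_union_left _ (Finset.mem_union_right _ hy))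
    have hc1q : ∀ y ∈ q.1, c1 y = 0 := fun y hy => hc1.2 y (Finset.mem_union_left _ (Finset.mem_union_left _ hy))
    refine ⟨c1, ⟨hc1.1, hc1q⟩, d - d e • x,
      Submodule.sub_mem _ hd (Submodule.smul_mem _ _ (spt_mono (Finset.union_subset hq hXq) hx)), ?_, hc1X e he, ?_, ?_, ?_⟩
    · intro y
      by_cases hy1 : y ∈ q.1
      · rw [hc1q y hy1, zero_mul]
      by_cases hyX : y ∈ X
      · rw [hc1X y hyX, zero_mul]
      rw [hYd y hy1 hyX]
      by_cases hy2 : y ∈ q.2
      · rw [hYc y (Finset.mem_sdiff.2 ⟨hy2, hy1⟩) hyX]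
        exact hcd y
      · rw [hd.2 y hy2, mul_zero]
    · rw [Pi.sub_apply, Pi.smul_apply, smul_eq_mul, hxe, mul_one, sub_self]
    · intro y hy hyX
      exact ⟨hYc y hy hyX, hYd y (Finset.mem_sdiff.1 hy).2 hyX⟩
    · have v1 : Θ c1 x = 0 := by
        refine hΘf c1 ⟨hc1.1, hc1q⟩ x (spt_mono (Finset.union_subset hq hXq) hx) (fun y => ?_) (hx.2 f fun h => ?_)
        · by_cases hy : y ∈ q.1 ∪ X
          · rw [hc1.2 y (Finset.mem_union_left _ hy), zero_mul]
          · rw [hx.2 y hy, mul_zero]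
        · rcases Finset.mem_union.1 h with h | h
          · exact (Finset.mem_sdiff.1 hf).2 h
          · exact hfX h
      have v2 : Θ c2 d = 0 := by
        refine hΘa c2 (van_anti hqX hc2) d hd (fun y => ?_) (hc2.2 a (Finset.mem_sdiff.2 ⟨(Finset.mem_sdiff.1 ha).1, haX⟩))
        by_cases hyX : y ∈ X
        · have h3 := hcd y
          rw [← hcc, Pi.add_apply, hc1X y hyX, zero_add] at h3
          exact h3
        by_cases hy2 : y ∈ q.2
        · rw [hc2.2 y (Finset.mem_sdiff.2 ⟨hy2, hyX⟩), zero_mul]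
        · rw [hd.2 y hy2, mul_zero]
      rw [map_sub, map_smul, v1, smul_zero, sub_zero, ← hcc, map_add, LinearMap.add_apply, v2, add_zero]


omit [Fintype E] in
private theorem tx_ins {U : Submodule K (E → K)} {A : Finset E} {c : E → K} (hc : c ∈ van U A) {x : E}
    (h : c x = 0) : c ∈ van U (insert x A) := by
  refine ⟨hc.1, fun y hy => ?_⟩
  rcases Finset.mem_insert.1 hy with h1 | h1
  · rw [h1, h]
  · exact hc.2 y h1

omit [Fintype E] in
private theorem tx_era {W : Submodule K (E → K)} {A : Finset E} {d : E → K} (hd : d ∈ spt W A) {x : E}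
    (h : d x = 0) : d ∈ spt W (A.erase x) := by
  refine ⟨hd.1, fun y hy => ?_⟩
  by_cases hyx : y = x
  · rw [hyx, h]
  · exact hd.2 y fun h1 => hy (Finset.mem_erase.2 ⟨hyx, h1⟩)

/-- **the 2-side lemma without contractions** -/
theorem two_ex (S : TP K E) {p : Itv E} (hp : p.1 ⊆ p.2) {f a b w : E} (hfa : f ≠ a) (hfb : f ≠ b) (hab : a ≠ b)
    (hf : f ∈ gs p) (ha : a ∈ gs p) (hb : b ∈ gs p) (hw : w ∈ gs p) (hwf : w ≠ f) (hwa : w ≠ a) (hwb : w ≠ b)
    (hL : Tri3 S.r p f a b) {X : Finset E} (hX : X ⊆ (gs p).erase w) (hl : QUB.lam S.r (rm true w p) X ≤ 1)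
    (hfX : f ∉ X) (haX : a ∉ X) (hbX : b ∉ X) (hne : X.Nonempty)
    (h1 : ∀ e ∈ X, S.r (p.1 ∪ X.erase e) = S.r (p.1 ∪ X))
    (h2 : ∀ e ∈ X, S.r (insert e (p.2.erase w \ X)) = S.r (p.2.erase w \ X) + 1)
    (x1 : ∀ e ∈ X, Ex S true f (rm true e p)) (x3 : Ex S true f (rm false w p)) : Ex S true f p := by
  intro T hT
  obtain ⟨t, ht, htf⟩ := tri_vec S hfa hfb hf hL.1
  have D : Tdat S p f a b T t := ⟨hp, hf, ha, hb, hfa, hfb, hab, hL, hT, ht, htf⟩
  have hwp := Finset.mem_sdiff.1 hw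
  have hXm : ∀ e ∈ X, e ∈ gs p ∧ e ≠ w := fun e he => ⟨(Finset.mem_erase.1 (hX he)).2, (Finset.mem_erase.1 (hX he)).1⟩
  -- the nodes
  have ne : ∀ e ∈ X, ∃ θ : K, InV S.U S.W (rm true e p) (thf T t f a θ) := by
    intro e he
    obtain ⟨Te, hTe, ee⟩ := x1 e he T (hT.mono ((rm_sub true e p).rm true f))
    refine D.node (q := rm true e p) (rm_sub true e p).1 ?_ hTe ee
    intro x hx
    refine Finset.mem_erase.2 ⟨?_, D.sub hx⟩
    rintro rfl
    simp only [Finset.mem_insert] at hx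
    rcases hx with h | h | h | h
    · exact hfX (h ▸ he)
    · exact haX (h ▸ he)
    · exact hbX (h ▸ he)
    · exact (Finset.mem_sdiff.1 (hXm _ he).1).2 h
  have nw : ∃ θ : K, InV S.U S.W (rm false w p) (thf T t f a θ) := by
    obtain ⟨Te, hTe, ee⟩ := x3 T (hT.mono ((rm_sub false w p).rm true f))
    exact D.node (q := rm false w p) (rm_sub false w p).1 D.sub hTe ee
  -- pairs of `M \ w`
  have cov : ∀ e ∈ X, ∀ θ : K, InV S.U S.W (rm true e p) (thf T t f a θ) → ∀ c ∈ van S.U p.1, ∀ d ∈ spt S.W (p.2.erase w),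
      (∀ x, c x * d x = 0) → thf T t f a θ c d = 0 := by
    intro e he θ hθ c hc d hd hcd
    have hwf' : (rm true w p).1 ⊆ (rm true w p).2 := QUB.wf_rm hp hw
    have hg : gs (rm true w p) = (gs p).erase w := gs_rm true w p
    obtain ⟨c', hc', d', hd', hcd', -, hde, -, hv⟩ := pair_form S (q := rm true w p) hwf' (X := X) (by rw [hg]; exact hX) hl he
      (h1 e he) (h2 e he) (f := f) (a := a) (by rw [hg]; exact Finset.mem_erase.2 ⟨hwf.symm, hf⟩)
      (by rw [hg]; exact Finset.mem_erase.2 ⟨hwa.symm, ha⟩) hfX haX (Θ := thf T t f a θ)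
      (fun c hc d hd hcd h => D.a0 θ hc (spt_mono (Finset.erase_subset _ _) hd) hcd h)
      (fun c hc d hd hcd h => D.f0 θ hc (spt_mono (Finset.erase_subset _ _) hd) hcd h) hc hd hcd
    rw [← hv]
    exact hθ c' hc' d' (tx_era (spt_mono (Finset.erase_subset _ _) hd') hde) hcd'
  by_cases hpair : ∃ c ∈ van S.U p.1, ∃ d ∈ spt S.W p.2, (∀ x, c x * d x = 0) ∧ c a ≠ 0 ∧ d f ≠ 0 ∧ c w = 0
  · -- a common pair of `M / w` and some `M \ e`
    obtain ⟨c0, hc0, d0, hd0, hcd0, hca0, hdf0, hcw0⟩ := hpair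
    obtain ⟨e, he, d1, hd1, hcd1, hdf1, hde1⟩ : ∃ e ∈ X, ∃ d1 ∈ spt S.W p.2, (∀ x, c0 x * d1 x = 0) ∧ d1 f ≠ 0 ∧ d1 e = 0 := by
      by_cases hall : ∃ e ∈ X, d0 e = 0
      · obtain ⟨e, he, h⟩ := hall
        exact ⟨e, he, d0, hd0, hcd0, hdf0, h⟩
      · push Not at hall
        obtain ⟨e, he⟩ := hne
        have heX : e ∈ p.1 ∪ X := Finset.mem_union_right _ he
        have hep : e ∉ p.1 := (Finset.mem_sdiff.1 (hXm e he).1).2
        have e4 : (p.1 ∪ X).erase e = p.1 ∪ X.erase e := by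
          ext x
          simp only [Finset.mem_erase, Finset.mem_union]
          constructor
          · rintro ⟨h3, h4 | h4⟩
            · exact Or.inl h4
            · exact Or.inr ⟨h3, h4⟩
          · rintro (h | h)
            · exact ⟨fun h3 => hep (h3 ▸ h), Or.inl h⟩
            · exact ⟨h.1, Or.inr h.2⟩
        obtain ⟨z, hz, hze⟩ := TP.spt_one S heX (by rw [e4]; exact h1 e he)
        have hzp : z ∈ spt S.W p.2 := spt_mono (Finset.union_subset hp fun x hx => (Finset.mem_sdiff.1 (hXm x hx).1).1) hz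
        have hzf : z f = 0 := hz.2 f (by
          rw [Finset.mem_union, not_or]
          exact ⟨(Finset.mem_sdiff.1 hf).2, hfX⟩)
        refine ⟨e, he, d0 - d0 e • z, Submodule.sub_mem _ hd0 (Submodule.smul_mem _ _ hzp), fun x => ?_, ?_, ?_⟩
        · rw [Pi.sub_apply, Pi.smul_apply, smul_eq_mul, mul_sub, hcd0 x]
          by_cases hx : x ∈ p.1 ∪ X
          · have h3 : c0 x = 0 := by
              rcases Finset.mem_union.1 hx with h | h
              · exact hc0.2 x h
              · exact (mul_eq_zero.1 (hcd0 x)).resolve_right (hall x h)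
            rw [h3, zero_mul, sub_zero]
          · rw [hz.2 x hx, mul_zero, mul_zero, sub_zero]
        · rw [Pi.sub_apply, Pi.smul_apply, hzf, smul_zero, sub_zero]
          exact hdf0
        · rw [Pi.sub_apply, Pi.smul_apply, smul_eq_mul, hze, mul_one, sub_self]
    obtain ⟨θ, hθ⟩ := ne e he
    obtain ⟨θ', hθ'⟩ := nw
    have q1 := hθ c0 hc0 d1 (tx_era hd1 hde1) hcd1
    have q2 := hθ' c0 (tx_ins hc0 hcw0) d1 hd1 hcd1
    rw [thf_apply] at q1 q2
    have q3 : (d1 f * c0 a) * (θ - θ') = 0 := by linear_combination q1 - q2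
    have q4 : θ = θ' := by
      rcases mul_eq_zero.1 q3 with h | h
      · exact absurd h (mul_ne_zero hdf1 hca0)
      · exact sub_eq_zero.1 h
    subst q4
    refine ⟨thf T t f a θ, ?_, thf_f T t f a _⟩
    intro c hc d hd hcd
    by_cases hcw : c w = 0
    · exact hθ' c (tx_ins hc hcw) d hd hcd
    · exact cov e he θ hθ c hc d (tx_era hd ((mul_eq_zero.1 (hcd w)).resolve_left hcw)) hcd
  · -- all pairs are pairs of `M \ w`
    obtain ⟨e, he⟩ := hne
    obtain ⟨θ, hθ⟩ := ne e he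
    refine ⟨thf T t f a θ, ?_, thf_f T t f a _⟩
    intro c hc d hd hcd
    by_cases hca : c a = 0
    · exact D.a0 _ hc hd hcd hca
    by_cases hdf : d f = 0
    · exact D.f0 _ hc hd hcd hdf
    have hcw : c w ≠ 0 := fun h => hpair ⟨c, hc, d, hd, hcd, hca, hdf, h⟩
    exact cov e he θ hθ c hc d (tx_era hd ((mul_eq_zero.1 (hcd w)).resolve_left hcw)) hcd

end Pool.Agent.QU
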