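import Pool.Agent.QUR.Rig

set_option autoImplicit false

/-!
# Project QU, layer D: disjoint pairs and a separation of order one

`pair_avoid`: `X` is one side of a separation of order at most one (`lam ≤ 1`) of the box `q`, `e ∈ X` is in the closure of the rest of `X` and
not in the closure of the other side. Then every disjoint pair `(c, d)` can be changed on `X` to a disjoint pair outside of `e`.
`two_side`: the 2-side lemma.
-/

open Module (finrank)

namespace Pool.Agent.QU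

variable {K E : Type} [Field K] [Fintype E] [DecidableEq E]

omit [Fintype E] in
private theorem ts_van {U : Submodule K (E → K)} {A B : Finset E} {c : E → K} (hA : c ∈ van U A) (hB : ∀ x ∈ B, c x = 0) :
    c ∈ van U (A ∪ B) := by
  refine ⟨hA.1, fun y hy => ?_⟩
  rcases Finset.mem_union.1 hy with h | h
  · exact hA.2 y h
  · exact hB y h

/-- dimension of the sum of two spaces `spt` -/
private theorem ts_spt_sup (S : TP K E) {A B : Finset E}
    (h : S.r A + S.r B ≤ S.r (A ∪ B) + S.r (A ∩ B)) : spt S.W A ⊔ spt S.W B = spt S.W (A ∪ B) := by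
  refine Submodule.eq_of_le_of_finrank_le
    (sup_le (spt_mono Finset.subset_union_left) (spt_mono Finset.subset_union_right)) ?_
  have h5 := Submodule.finrank_sup_add_finrank_inf_eq (spt S.W A) (spt S.W B)
  rw [← spt_inter] at h5
  have a1 := S.hW A
  have a2 := S.hW B
  have a3 := S.hW (A ∪ B)
  have a4 := S.hW (A ∩ B)
  have b : ((A ∪ B).card : ℤ) + (A ∩ B).card = A.card + B.card := by exact_mod_cast Finset.card_union_add_card_inter A B
  have c5 : (finrank K ↥(spt S.W A ⊔ spt S.W B) : ℤ) + finrank K (spt S.W (A ∩ B)) =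
      finrank K (spt S.W A) + finrank K (spt S.W B) := by exact_mod_cast h5
  have c6 : (finrank K (spt S.W (A ∪ B)) : ℤ) ≤ finrank K ↥(spt S.W A ⊔ spt S.W B) := by linarith
  exact_mod_cast c6

/-- dimension of the sum of two spaces `van` -/
private theorem ts_van_sup (S : TP K E) {A B D : Finset E} (hA : D ⊆ A) (hB : D ⊆ B)
    (h : S.r A + S.r B ≤ S.r (A ∪ B) + S.r D) : van S.U A ⊔ van S.U B = van S.U D := by
  refine Submodule.eq_of_le_of_finrank_le (sup_le (van_anti hA) (van_anti hB)) ?_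
  have h5 := Submodule.finrank_sup_add_finrank_inf_eq (van S.U A) (van S.U B)
  rw [← van_union] at h5
  have a1 := S.hU A
  have a2 := S.hU B
  have a3 := S.hU (A ∪ B)
  have a4 := S.hU D
  have c5 : (finrank K ↥(van S.U A ⊔ van S.U B) : ℤ) + finrank K (van S.U (A ∪ B)) =
      finrank K (van S.U A) + finrank K (van S.U B) := by exact_mod_cast h5
  have c6 : (finrank K (van S.U D) : ℤ) ≤ finrank K ↥(van S.U A ⊔ van S.U B) := by linarith
  exact_mod_cast c6

/-- a disjoint pair can be moved away from `e ∈ X` without changing it outside of `X` -/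
theorem pair_avoid (S : TP K E) {q : Itv E} (hq : q.1 ⊆ q.2) {X : Finset E} (hX : X ⊆ gs q) (hl : QUB.lam S.r q X ≤ 1)
    {e : E} (he : e ∈ X) (h1 : S.r (q.1 ∪ X.erase e) = S.r (q.1 ∪ X))
    (h2 : S.r (insert e (q.2 \ X)) = S.r (q.2 \ X) + 1) {c d : E → K} (hc : c ∈ van S.U q.1) (hd : d ∈ spt S.W q.2)
    (hcd0 : ∀ x ∈ gs q, x ∉ X → c x * d x = 0) :
    ∃ c' ∈ van S.U q.1, ∃ d' ∈ spt S.W q.2, (∀ x, c' x * d' x = 0) ∧ c' e = 0 ∧ d' e = 0 ∧
      ∀ y ∈ gs q, y ∉ X → c' y = c y ∧ d' y = d y := by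
  classical
  have hcd : ∀ x, x ∉ X → c x * d x = 0 := by
    intro x hxX
    by_cases hx1 : x ∈ q.1
    · rw [hc.2 x hx1, zero_mul]
    by_cases hx2 : x ∈ q.2
    · exact hcd0 x (Finset.mem_sdiff.2 ⟨hx2, hx1⟩) hxX
    · rw [hd.2 x hx2, mul_zero]
  have hl' : S.r (q.1 ∪ X) + S.r (q.2 \ X) - S.r q.2 - S.r q.1 ≤ 1 := hl
  have hXq : X ⊆ q.2 := fun x hx => (Finset.mem_sdiff.1 (hX hx)).1
  have hXd : ∀ x ∈ X, x ∉ q.1 := fun x hx => (Finset.mem_sdiff.1 (hX hx)).2
  have hqX : q.1 ⊆ q.2 \ X := fun x hx => Finset.mem_sdiff.2 ⟨hq hx, fun h => hXd x h hx⟩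
  -- a decomposition of a pair
  by_cases hA : d ∈ spt S.W (q.1 ∪ X) ⊔ spt S.W (q.2 \ X)
  · obtain ⟨dX, hdX, dY, hdY, rfl⟩ := Submodule.mem_sup.1 hA
    obtain ⟨x, hx, hxe⟩ := TP.van_one S h2
    have hY : ∀ y ∈ gs q, y ∉ X → dX y = 0 := by
      intro y hy hyX
      refine hdX.2 y fun h => ?_
      rcases Finset.mem_union.1 h with h | h
      · exact (Finset.mem_sdiff.1 hy).2 h
      · exact hyX h
    have hc' : ∀ y ∈ q.2 \ X, (c - c e • x) y = c y := by
      intro y hy
      rw [Pi.sub_apply, Pi.smul_apply, hx.2 y hy, smul_zero, sub_zero]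
    refine ⟨c - c e • x, Submodule.sub_mem _ hc (Submodule.smul_mem _ _ (van_anti hqX hx)), dY,
      spt_mono Finset.sdiff_subset hdY, ?_, ?_, ?_, ?_⟩
    · intro y
      by_cases hy : y ∈ q.2 \ X
      · rw [hc' y hy]
        by_cases hyq : y ∈ q.1
        · rw [hc.2 y hyq, zero_mul]
        · have h3 := hcd y (Finset.mem_sdiff.1 hy).2
          rw [Pi.add_apply, hY y (Finset.mem_sdiff.2 ⟨(Finset.mem_sdiff.1 hy).1, hyq⟩) (Finset.mem_sdiff.1 hy).2,
            zero_add] at h3
          exact h3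
      · rw [hdY.2 y hy, mul_zero]
    · rw [Pi.sub_apply, Pi.smul_apply, smul_eq_mul, hxe, mul_one, sub_self]
    · exact hdY.2 e fun h => (Finset.mem_sdiff.1 h).2 he
    · intro y hy hyX
      refine ⟨hc' y (Finset.mem_sdiff.2 ⟨(Finset.mem_sdiff.1 hy).1, hyX⟩), ?_⟩
      rw [Pi.add_apply, hY y hy hyX, zero_add]
  · -- `d` crosses the separation
    set Z : Finset E := (gs q \ X).filter fun y => c y = 0 with hZ
    have hZg : Z ⊆ gs q \ X := Finset.filter_subset _ _
    have hZX : ∀ x ∈ Z, x ∉ X := fun x hx => (Finset.mem_sdiff.1 (hZg hx)).2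
    have hZ1 : ∀ x ∈ Z, x ∉ q.1 := fun x hx => (Finset.mem_sdiff.1 (Finset.mem_sdiff.1 (hZg hx)).1).2
    have hZ2 : ∀ x ∈ Z, x ∈ q.2 := fun x hx => (Finset.mem_sdiff.1 (Finset.mem_sdiff.1 (hZg hx)).1).1
    have e1 : (q.1 ∪ X) ∪ (q.1 ∪ Z) = q.1 ∪ X ∪ Z := by
      ext x
      simp only [Finset.mem_union]
      tauto
    have e2 : (q.1 ∪ X) ∩ (q.1 ∪ Z) = q.1 := by
      ext x
      simp only [Finset.mem_union, Finset.mem_inter]
      constructor
      · rintro ⟨h3 | h3, h4 | h4⟩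
        · exact h3
        · exact h3
        · exact h4
        · exact absurd h3 (hZX x h4)
      · intro h
        exact ⟨Or.inl h, Or.inl h⟩
    have hdZ : d ∈ spt S.W (q.1 ∪ X ∪ Z) := by
      refine ⟨hd.1, fun x hx => ?_⟩
      by_contra hne
      apply hx
      have hxq : x ∈ q.2 := by
        by_contra h
        exact hne (hd.2 x h)
      by_cases hx1 : x ∈ q.1
      · exact Finset.mem_union_left _ (Finset.mem_union_left _ hx1)
      by_cases hxX : x ∈ X
      · exact Finset.mem_union_left _ (Finset.mem_union_right _ hxX)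
      refine Finset.mem_union_right _ (Finset.mem_filter.2 ⟨Finset.mem_sdiff.2 ⟨Finset.mem_sdiff.2 ⟨hxq, hx1⟩, hxX⟩, ?_⟩)
      rcases mul_eq_zero.1 (hcd x hxX) with h | h
      · exact h
      · exact absurd h hne
    have hr : S.r (q.1 ∪ X ∪ Z) + S.r q.1 + 1 ≤ S.r (q.1 ∪ X) + S.r (q.1 ∪ Z) := by
      by_contra hcon
      have h3 := ts_spt_sup S (A := q.1 ∪ X) (B := q.1 ∪ Z) (by rw [e1, e2]; omega)
      rw [e1] at h3
      rw [← h3] at hdZ
      have hZY : q.1 ∪ Z ⊆ q.2 \ X := by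
        intro x hx
        rcases Finset.mem_union.1 hx with h | h
        · exact hqX h
        · exact Finset.mem_sdiff.2 ⟨hZ2 x h, hZX x h⟩
      have h4 : spt S.W (q.1 ∪ X) ⊔ spt S.W (q.1 ∪ Z) ≤ spt S.W (q.1 ∪ X) ⊔ spt S.W (q.2 \ X) :=
        sup_le_sup le_rfl (spt_mono hZY)
      exact hA (h4 hdZ)
    have e3 : (q.1 ∪ X ∪ Z) ∪ (q.2 \ X) = q.2 := by
      ext x
      simp only [Finset.mem_union, Finset.mem_sdiff]
      constructor
      · rintro (((h | h) | h) | h)
        · exact hq h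
        · exact hXq h
        · exact hZ2 x h
        · exact h.1
      · intro h
        by_cases hxX : x ∈ X
        · exact Or.inl (Or.inl (Or.inr hxX))
        · exact Or.inr ⟨h, hxX⟩
    have hsup := ts_van_sup S (A := q.1 ∪ X ∪ Z) (B := q.2 \ X) (D := q.1 ∪ Z)
      (by
        intro x hx
        rcases Finset.mem_union.1 hx with h | h
        · exact Finset.mem_union_left _ (Finset.mem_union_left _ h)
        · exact Finset.mem_union_right _ h)
      (by
        intro x hx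
        rcases Finset.mem_union.1 hx with h | h
        · exact hqX h
        · exact Finset.mem_sdiff.2 ⟨hZ2 x h, hZX x h⟩)
      (by rw [e3]; linarith)
    have hcZ : c ∈ van S.U (q.1 ∪ Z) := ts_van hc fun x hx => (Finset.mem_filter.1 hx).2
    rw [← hsup] at hcZ
    obtain ⟨c1, hc1, c2, hc2, hcc⟩ := Submodule.mem_sup.1 hcZ
    have heX : e ∈ q.1 ∪ X := Finset.mem_union_right _ he
    have e4 : (q.1 ∪ X).erase e = q.1 ∪ X.erase e := by
      ext x
      simp only [Finset.mem_erase, Finset.mem_union]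
      constructor
      · rintro ⟨h3, h4 | h4⟩
        · exact Or.inl h4
        · exact Or.inr ⟨h3, h4⟩
      · rintro (h | h)
        · exact ⟨fun h3 => hXd e he (h3 ▸ h), Or.inl h⟩
        · exact ⟨h.1, Or.inr h.2⟩
    obtain ⟨x, hx, hxe⟩ := TP.spt_one S heX (by rw [e4]; exact h1)
    have hYc : ∀ y ∈ gs q, y ∉ X → c1 y = c y := by
      intro y hy hyX
      have h3 := hc2.2 y (Finset.mem_sdiff.2 ⟨(Finset.mem_sdiff.1 hy).1, hyX⟩)
      rw [← hcc, Pi.add_apply, h3, add_zero]
    have hYd : ∀ y, y ∉ q.1 → y ∉ X → (d - d e • x) y = d y := by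
      intro y hy hyX
      rw [Pi.sub_apply, Pi.smul_apply, hx.2 y (by simp only [Finset.mem_union, not_or]; exact ⟨hy, hyX⟩), smul_zero,
        sub_zero]
    have hc1X : ∀ y ∈ X, c1 y = 0 := fun y hy => hc1.2 y (Finset.mem_union_left _ (Finset.mem_union_right _ hy))
    have hc1q : ∀ y ∈ q.1, c1 y = 0 := fun y hy => hc1.2 y (Finset.mem_union_left _ (Finset.mem_union_left _ hy))
    refine ⟨c1, ⟨hc1.1, hc1q⟩, d - d e • x,
      Submodule.sub_mem _ hd (Submodule.smul_mem _ _ (spt_mono (Finset.union_subset hq hXq) hx)), ?_, hc1X e he, ?_, ?_⟩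
    · intro y
      by_cases hy1 : y ∈ q.1
      · rw [hc1q y hy1, zero_mul]
      by_cases hyX : y ∈ X
      · rw [hc1X y hyX, zero_mul]
      rw [hYd y hy1 hyX]
      by_cases hy2 : y ∈ q.2
      · rw [hYc y (Finset.mem_sdiff.2 ⟨hy2, hy1⟩) hyX]
        exact hcd y hyX
      · rw [hd.2 y hy2, mul_zero]
    · rw [Pi.sub_apply, Pi.smul_apply, smul_eq_mul, hxe, mul_one, sub_self]
    · intro y hy hyX
      exact ⟨hYc y hy hyX, hYd y (Finset.mem_sdiff.1 hy).2 hyX⟩

/-- **the 2-side lemma**: `{f, a, b}` is a triangle in the side `Y` of a separation of order one of `rm s w p`, `e` is an element of the other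
side `X`, in the closure of the rest of `X` and not in the closure of `Y`. If forms extend over `f` for the two removals of `e` and for the
removal of `w` of the other type, then they extend for `p`. -/
theorem two_side (S : TP K E) {p : Itv E} (hp : p.1 ⊆ p.2) {f a b w e : E} {s : Bool} (hfa : f ≠ a) (hfb : f ≠ b)
    (hf : f ∈ gs p) (ha : a ∈ gs p) (hb : b ∈ gs p) (hw : w ∈ gs p) (hwf : w ≠ f) (hwa : w ≠ a) (hwb : w ≠ b)
    (hL : Tri S.r p f a b) {X : Finset E} (hX : X ⊆ gs (rm s w p)) (hl : QUB.lam S.r (rm s w p) X ≤ 1)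
    (hfX : f ∉ X) (haX : a ∉ X) (hbX : b ∉ X) (he : e ∈ X)
    (h1 : S.r ((rm s w p).1 ∪ X.erase e) = S.r ((rm s w p).1 ∪ X))
    (h2 : S.r (insert e ((rm s w p).2 \ X)) = S.r ((rm s w p).2 \ X) + 1)
    (x1 : Ex S true f (rm true e p)) (x2 : Ex S true f (rm false e p)) (x3 : Ex S true f (rm (!s) w p)) :
    Ex S true f p := by
  have hwf' : (rm s w p).1 ⊆ (rm s w p).2 := QUB.wf_rm hp hw
  have hge : e ∈ (gs p).erase w := by
    have h := hX he
    rwa [gs_rm] at h
  have he' : e ∈ gs p := Finset.mem_of_mem_erase hge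
  have hef : e ≠ f := fun h => hfX (h ▸ he)
  have hea : e ≠ a := fun h => haX (h ▸ he)
  have heb : e ≠ b := fun h => hbX (h ▸ he)
  by_cases hex : ∃ c ∈ van S.U (rm s w p).1, ∃ d ∈ spt S.W (rm s w p).2, (∀ x, c x * d x = 0) ∧ c a ≠ 0 ∧ d f ≠ 0
  · obtain ⟨c, hc, d, hd, hcd, hca, hdf⟩ := hex
    obtain ⟨c', hc', d', hd', hcd', hce, hde, hY⟩ := pair_avoid S hwf' hX hl he h1 h2 hc hd (fun x _ _ => hcd x)
    have hfg : f ∈ gs (rm s w p) := by
      rw [gs_rm]
      exact Finset.mem_erase.2 ⟨hwf.symm, hf⟩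
    have hag : a ∈ gs (rm s w p) := by
      rw [gs_rm]
      exact Finset.mem_erase.2 ⟨hwa.symm, ha⟩
    refine rig_ex S x1 x2 (rg_tri S hfa hfb hef hea heb hf ha hb he' hp hL (van_anti (rm_sub s w p).1 hc')
      (spt_mono (rm_sub s w p).2 hd') hcd' ?_ ?_ hce hde)
    · rw [(hY a hag haX).1]
      exact hca
    · rw [(hY f hfg hfX).2]
      exact hdf
  · refine tri_ex S (s := !s) hfa hfb hwf hwa hwb hf ha hb hw hp hL x3 ?_
    intro c hc d hd hcd hca hdf
    cases s
    · refine ⟨fun _ => ?_, fun h => absurd h (by simp)⟩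
      by_contra hdw
      have hcw : c w = 0 := by
        rcases mul_eq_zero.1 (hcd w) with h | h
        · exact h
        · exact absurd h hdw
      refine hex ⟨c, ⟨hc.1, fun y hy => ?_⟩, d, hd, hcd, hca, hdf⟩
      rcases Finset.mem_insert.1 hy with h | h
      · rw [h, hcw]
      · exact hc.2 y h
    · refine ⟨fun h => absurd h (by simp), fun _ => ?_⟩
      by_contra hcw
      have hdw : d w = 0 := by
        rcases mul_eq_zero.1 (hcd w) with h | h
        · exact absurd h hcw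
        · exact h
      refine hex ⟨c, hc, d, ⟨hd.1, fun y hy => ?_⟩, hcd, hca, hdf⟩
      by_cases hyw : y = w
      · rw [hyw, hdw]
      · exact hd.2 y fun h => hy (Finset.mem_erase.2 ⟨hyw, h⟩)

end Pool.Agent.QU
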