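import Pool.Agent.QUR.T2e
import Pool.Agent.QUR.TwoSide

set_option autoImplicit false

/-!
# QUR/TwoKey: a triangle and a separation of order one of the deletion of `w` (nodes in the side which does not contain the triangle)

`pair_side`: a pair which is disjoint outside of `X` can be replaced by a pair whose `d` or whose `c` vanishes on `X`.
`two_key`: `{f, a, b}` is a triangle, `X` a side of a separation of order at most one of `rm true w p` which contains no element of the triangle, `X` has no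
coloop. If forms extend over `f` for the deletions of all elements of `X` and for the contraction of `w`, then they extend for `p`.
-/

open Module (finrank)

namespace Pool.Agent.QU

variable {K E : Type} [Field K] [Fintype E] [DecidableEq E]

private theorem tk_spt_sup (S : TP K E) {A B : Finset E}
    (h : S.r A + S.r B ≤ S.r (A ∪ B) + S.r (A ∩ B)) : spt S.W A ⊔ spt S.W B = spt S.W (A ∪ B) := by
  refine Submodule.eq_of_le_of_finrank_le
    (sup_le (spt_mono Finset.subset_union_left) (spt_mono Finset.subset_union_right)) ?_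
  have h5 := Submodule.finrank_sup_add_finrank_inf_eq (spt S.W A) (spt S.W B)
  rw [← spt_inter] at h5
  have a1 := S.hW A
  have a2 := S.hW B
  have a3 := S.hW (A ∪ B)
  have a4 := S.hW (A ∩ B)
  have b : ((A ∪ B).card : ℤ) + (A ∩ B).card = A.card + B.card := by exact_mod_cast Finset.card_union_add_card_inter A B
  have c5 : (finrank K ↥(spt S.W A ⊔ spt S.W B) : ℤ) + finrank K (spt S.W (A ∩ B)) =
      finrank K (spt S.W A) + finrank K (spt S.W B) := by exact_mod_cast h5
  have c6 : (finrank K (spt S.W (A ∪ B)) : ℤ) ≤ finrank K ↥(spt S.W A ⊔ spt S.W B) := by linarith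
  exact_mod_cast c6

private theorem tk_van_sup (S : TP K E) {A B D : Finset E} (hA : D ⊆ A) (hB : D ⊆ B)
    (h : S.r A + S.r B ≤ S.r (A ∪ B) + S.r D) : van S.U A ⊔ van S.U B = van S.U D := by
  refine Submodule.eq_of_le_of_finrank_le (sup_le (van_anti hA) (van_anti hB)) ?_
  have h5 := Submodule.finrank_sup_add_finrank_inf_eq (van S.U A) (van S.U B)
  rw [← van_union] at h5
  have a1 := S.hU A
  have a2 := S.hU B
  have a3 := S.hU (A ∪ B)
  have a4 := S.hU D
  have c5 : (finrank K ↥(van S.U A ⊔ van S.U B) : ℤ) + finrank K (van S.U (A ∪ B)) =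
      finrank K (van S.U A) + finrank K (van S.U B) := by exact_mod_cast h5
  have c6 : (finrank K (van S.U D) : ℤ) ≤ finrank K ↥(van S.U A ⊔ van S.U B) := by linarith
  exact_mod_cast c6

/-- a pair which is disjoint outside of the side `X` of a separation of order one: `d` or `c` can be changed on `X` to zero -/
theorem pair_side (S : TP K E) {q : Itv E} (hq : q.1 ⊆ q.2) {X : Finset E} (hX : X ⊆ gs q) (hl : QUB.lam S.r q X ≤ 1)
    {c d : E → K} (hc : c ∈ van S.U q.1) (hd : d ∈ spt S.W q.2) (hcd0 : ∀ x ∈ gs q, x ∉ X → c x * d x = 0) :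
    (∃ d' ∈ spt S.W (q.2 \ X), ∀ y ∈ gs q, y ∉ X → d' y = d y) ∨
      ∃ c' ∈ van S.U (q.1 ∪ X), ∀ y ∈ gs q, y ∉ X → c' y = c y := by
  classical
  have hcd : ∀ x, x ∉ X → c x * d x = 0 := by
    intro x hxX
    by_cases hx1 : x ∈ q.1
    · rw [hc.2 x hx1, zero_mul]
    by_cases hx2 : x ∈ q.2
    · exact hcd0 x (Finset.mem_sdiff.2 ⟨hx2, hx1⟩) hxX
    · rw [hd.2 x hx2, mul_zero]
  have hl' : S.r (q.1 ∪ X) + S.r (q.2 \ X) - S.r q.2 - S.r q.1 ≤ 1 := hl
  have hXq : X ⊆ q.2 := fun x hx => (Finset.mem_sdiff.1 (hX hx)).1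
  have hXd : ∀ x ∈ X, x ∉ q.1 := fun x hx => (Finset.mem_sdiff.1 (hX hx)).2
  have hqX : q.1 ⊆ q.2 \ X := fun x hx => Finset.mem_sdiff.2 ⟨hq hx, fun h => hXd x h hx⟩
  by_cases hA : d ∈ spt S.W (q.1 ∪ X) ⊔ spt S.W (q.2 \ X)
  · left
    obtain ⟨dX, hdX, dY, hdY, rfl⟩ := Submodule.mem_sup.1 hA
    refine ⟨dY, hdY, fun y hy hyX => ?_⟩
    have h2 : dX y = 0 := hdX.2 y fun h => by
      rcases Finset.mem_union.1 h with h | h
      · exact (Finset.mem_sdiff.1 hy).2 h
      · exact hyX h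
    rw [Pi.add_apply, h2, zero_add]
  · right
    set Z : Finset E := (gs q \ X).filter fun y => c y = 0 with hZ
    have hZg : Z ⊆ gs q \ X := Finset.filter_subset _ _
    have hZX : ∀ x ∈ Z, x ∉ X := fun x hx => (Finset.mem_sdiff.1 (hZg hx)).2
    have hZ2 : ∀ x ∈ Z, x ∈ q.2 := fun x hx => (Finset.mem_sdiff.1 (Finset.mem_sdiff.1 (hZg hx)).1).1
    have e1 : (q.1 ∪ X) ∪ (q.1 ∪ Z) = q.1 ∪ X ∪ Z := by
      ext x
      simp only [Finset.mem_union]
      tauto
    have e2 : (q.1 ∪ X) ∩ (q.1 ∪ Z) = q.1 := by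
      ext x
      simp only [Finset.mem_union, Finset.mem_inter]
      constructor
      · rintro ⟨h3 | h3, h4 | h4⟩
        · exact h3
        · exact h3
        · exact h4
        · exact absurd h3 (hZX x h4)
      · intro h
        exact ⟨Or.inl h, Or.inl h⟩
    have hdZ : d ∈ spt S.W (q.1 ∪ X ∪ Z) := by
      refine ⟨hd.1, fun x hx => ?_⟩
      by_contra hne
      apply hx
      have hxq : x ∈ q.2 := by
        by_contra h
        exact hne (hd.2 x h)
      by_cases hx1 : x ∈ q.1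
      · exact Finset.mem_union_left _ (Finset.mem_union_left _ hx1)
      by_cases hxX : x ∈ X
      · exact Finset.mem_union_left _ (Finset.mem_union_right _ hxX)
      refine Finset.mem_union_right _ (Finset.mem_filter.2 ⟨Finset.mem_sdiff.2 ⟨Finset.mem_sdiff.2 ⟨hxq, hx1⟩, hxX⟩, ?_⟩)
      rcases mul_eq_zero.1 (hcd x hxX) with h | h
      · exact h
      · exact absurd h hne
    have hr : S.r (q.1 ∪ X ∪ Z) + S.r q.1 + 1 ≤ S.r (q.1 ∪ X) + S.r (q.1 ∪ Z) := by
      by_contra hcon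
      have h3 := tk_spt_sup S (A := q.1 ∪ X) (B := q.1 ∪ Z) (by rw [e1, e2]; omega)
      rw [e1] at h3
      rw [← h3] at hdZ
      have hZY : q.1 ∪ Z ⊆ q.2 \ X := by
        intro x hx
        rcases Finset.mem_union.1 hx with h | h
        · exact hqX h
        · exact Finset.mem_sdiff.2 ⟨hZ2 x h, hZX x h⟩
      have h4 : spt S.W (q.1 ∪ X) ⊔ spt S.W (q.1 ∪ Z) ≤ spt S.W (q.1 ∪ X) ⊔ spt S.W (q.2 \ X) :=
        sup_le_sup le_rfl (spt_mono hZY)
      exact hA (h4 hdZ)
    have e3 : (q.1 ∪ X ∪ Z) ∪ (q.2 \ X) = q.2 := by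
      ext x
      simp only [Finset.mem_union, Finset.mem_sdiff]
      constructor
      · rintro (((h | h) | h) | h)
        · exact hq h
        · exact hXq h
        · exact hZ2 x h
        · exact h.1
      · intro h
        by_cases hxX : x ∈ X
        · exact Or.inl (Or.inl (Or.inr hxX))
        · exact Or.inr ⟨h, hxX⟩
    have hsup := tk_van_sup S (A := q.1 ∪ X ∪ Z) (B := q.2 \ X) (D := q.1 ∪ Z)
      (by
        intro x hx
        rcases Finset.mem_union.1 hx with h | h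
        · exact Finset.mem_union_left _ (Finset.mem_union_left _ h)
        · exact Finset.mem_union_right _ h)
      (by
        intro x hx
        rcases Finset.mem_union.1 hx with h | h
        · exact hqX h
        · exact Finset.mem_sdiff.2 ⟨hZ2 x h, hZX x h⟩)
      (by rw [e3]; linarith)
    have hcZ : c ∈ van S.U (q.1 ∪ Z) := ⟨hc.1, fun x hx => by
      rcases Finset.mem_union.1 hx with h | h
      · exact hc.2 x h
      · exact (Finset.mem_filter.1 h).2⟩
    rw [← hsup] at hcZ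
    obtain ⟨c1, hc1, c2, hc2, hcc⟩ := Submodule.mem_sup.1 hcZ
    refine ⟨c1, van_anti Finset.subset_union_left hc1, fun y hy hyX => ?_⟩
    have h3 := hc2.2 y (Finset.mem_sdiff.2 ⟨(Finset.mem_sdiff.1 hy).1, hyX⟩)
    rw [← hcc, Pi.add_apply, h3, add_zero]

/-- **two_key** -/
theorem two_key (S : TP K E) {p : Itv E} {f a b w : E} (hp : p.1 ⊆ p.2) (hf : f ∈ gs p) (ha : a ∈ gs p) (hb : b ∈ gs p)
    (hfa : f ≠ a) (hfb : f ≠ b) (hab : a ≠ b) (hL : Tri3 S.r p f a b) (hw : w ∈ gs p) (hwf : w ≠ f) (hwa : w ≠ a) (hwb : w ≠ b)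
    {X : Finset E} (hX : X ⊆ gs p) (hXn : X.Nonempty) (hwX : w ∉ X) (hfX : f ∉ X) (haX : a ∉ X) (hbX : b ∉ X)
    (hl : QUB.lam S.r (rm true w p) X ≤ 1) (h1 : ∀ e ∈ X, S.r (p.1 ∪ X.erase e) = S.r (p.1 ∪ X))
    (hN : ∀ e ∈ X, Ex S true f (rm true e p)) (hw' : Ex S true f (rm false w p)) : Ex S true f p := by
  intro T hT
  obtain ⟨t, ht, htf⟩ := tri_vec S hfa hfb hf hL.1
  have D : Tdat S p f a b T t := ⟨hp, hf, ha, hb, hfa, hfb, hab, hL, hT, ht, htf⟩
  have hXd : ∀ x ∈ X, x ∉ p.1 := fun x hx => (Finset.mem_sdiff.1 (hX hx)).2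
  have hf0 := Finset.mem_sdiff.1 hf
  have ha0 := Finset.mem_sdiff.1 ha
  -- vectors inside of `X`
  have hin : ∀ e ∈ X, ∃ x ∈ spt S.W (p.1 ∪ X), x e = 1 := by
    intro e he
    have e4 : (p.1 ∪ X).erase e = p.1 ∪ X.erase e := by
      ext x
      simp only [Finset.mem_erase, Finset.mem_union]
      constructor
      · rintro ⟨h3, h4 | h4⟩
        · exact Or.inl h4
        · exact Or.inr ⟨h3, h4⟩
      · rintro (h | h)
        · exact ⟨fun h3 => hXd e he (h3 ▸ h), Or.inl h⟩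
        · exact ⟨h.1, Or.inr h.2⟩
    exact TP.spt_one S (Finset.mem_union_right _ he) (by rw [e4]; exact h1 e he)
  have hsub : p.1 ∪ X ⊆ p.2 := Finset.union_subset hp fun x hx => (Finset.mem_sdiff.1 (hX hx)).1
  have hfin : f ∉ p.1 ∪ X := by
    rw [Finset.mem_union, not_or]
    exact ⟨hf0.2, hfX⟩
  have hnode : ∀ e ∈ X, ∃ θ : K, InV S.U S.W (rm true e p) (thf T t f a θ) := by
    intro e he
    obtain ⟨Te, hTe, ee⟩ := hN e he T (hT.mono ((rm_sub true e p).rm true f))
    refine D.node (q := rm true e p) (rm_sub true e p).1 ?_ hTe ee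
    intro x hx
    refine Finset.mem_erase.2 ⟨?_, D.sub hx⟩
    rintro rfl
    simp only [Finset.mem_insert] at hx
    rcases hx with h | h | h | h
    · exact hfX (h ▸ he)
    · exact haX (h ▸ he)
    · exact hbX (h ▸ he)
    · exact hXd _ he h
  by_cases hex : ∃ c ∈ van S.U p.1, ∃ d ∈ spt S.W (p.2.erase w), (∀ x, c x * d x = 0) ∧ c a ≠ 0 ∧ d f ≠ 0
  · obtain ⟨c, hc, d, hd, hcd, hca, hdf⟩ := hex
    -- a common `c`
    have hcom : ∃ c' ∈ van S.U p.1, c' a ≠ 0 ∧ ∀ e ∈ X, ∃ d' ∈ spt S.W p.2, (∀ x, c' x * d' x = 0) ∧ d' f = d f ∧ d' e = 0 := by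
      have hXq : X ⊆ gs (rm true w p) := by
        intro x hx
        rw [gs_rm]
        exact Finset.mem_erase.2 ⟨fun h => hwX (h ▸ hx), hX hx⟩
      have hfq : f ∈ gs (rm true w p) := by
        rw [gs_rm]
        exact Finset.mem_erase.2 ⟨hwf.symm, hf⟩
      have haq : a ∈ gs (rm true w p) := by
        rw [gs_rm]
        exact Finset.mem_erase.2 ⟨hwa.symm, ha⟩
      rcases pair_side S (q := rm true w p) (QUB.wf_rm hp hw) hXq hl hc hd (fun x _ _ => hcd x) with ⟨d', hd', h2⟩ | ⟨c', hc', h2⟩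
      · refine ⟨c, hc, hca, fun e he => ⟨d', spt_mono ?_ hd', fun x => ?_, h2 f hfq hfX, ?_⟩⟩
        · intro x hx
          exact Finset.mem_of_mem_erase (Finset.mem_sdiff.1 hx).1
        · by_cases hx : x ∈ (rm true w p).2 \ X
          · by_cases hx1 : x ∈ p.1
            · rw [hc.2 x hx1, zero_mul]
            · rw [h2 x (Finset.mem_sdiff.2 ⟨(Finset.mem_sdiff.1 hx).1, hx1⟩) (Finset.mem_sdiff.1 hx).2]
              exact hcd x
          · rw [hd'.2 x hx, mul_zero]
        · exact hd'.2 e fun h => (Finset.mem_sdiff.1 h).2 he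
      · refine ⟨c', van_anti Finset.subset_union_left hc', by rw [h2 a haq haX]; exact hca, fun e he => ?_⟩
        obtain ⟨x, hx, hxe⟩ := hin e he
        have hd2 : d ∈ spt S.W p.2 := spt_mono (Finset.erase_subset w p.2) hd
        refine ⟨d - d e • x, Submodule.sub_mem _ hd2 (Submodule.smul_mem _ _ (spt_mono hsub hx)), fun y => ?_, ?_, ?_⟩
        · by_cases hy : y ∈ p.1 ∪ X
          · rw [hc'.2 y hy, zero_mul]
          · rw [Pi.sub_apply, Pi.smul_apply, hx.2 y hy, smul_zero, sub_zero]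
            by_cases hy2 : y ∈ (rm true w p).2
            · rw [Finset.mem_union, not_or] at hy
              rw [h2 y (Finset.mem_sdiff.2 ⟨hy2, hy.1⟩) hy.2]
              exact hcd y
            · rw [hd.2 y hy2, mul_zero]
        · rw [Pi.sub_apply, Pi.smul_apply, hx.2 f hfin, smul_zero, sub_zero]
        · rw [Pi.sub_apply, Pi.smul_apply, smul_eq_mul, hxe, mul_one, sub_self]
    obtain ⟨c', hc', hca', hcom⟩ := hcom
    obtain ⟨e0, he0⟩ := hXn
    obtain ⟨θ0, hθ0⟩ := hnode e0 he0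
    obtain ⟨d0, hd0, hcd0, hdf0, hde0⟩ := hcom e0 he0
    have hz0 : thf T t f a θ0 c' d0 = 0 := by
      refine hθ0 c' hc' d0 ⟨hd0.1, fun y hy => ?_⟩ hcd0
      by_cases hye : y = e0
      · rw [hye, hde0]
      · exact hd0.2 y fun h => hy (Finset.mem_erase.2 ⟨hye, h⟩)
    have hall : ∀ e ∈ X, InV S.U S.W (rm true e p) (thf T t f a θ0) := by
      intro e he
      obtain ⟨θ, hθ⟩ := hnode e he
      obtain ⟨d1, hd1, hcd1, hdf1, hde1⟩ := hcom e he
      have hz1 : thf T t f a θ c' d1 = 0 := by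
        refine hθ c' hc' d1 ⟨hd1.1, fun y hy => ?_⟩ hcd1
        by_cases hye : y = e
        · rw [hye, hde1]
        · exact hd1.2 y fun h => hy (Finset.mem_erase.2 ⟨hye, h⟩)
      have hz2 : thf T t f a θ c' (d1 - d0) = 0 := by
        refine D.f0 θ hc' (Submodule.sub_mem _ hd1 hd0) (fun x => ?_) ?_
        · rw [Pi.sub_apply, mul_sub, hcd1 x, hcd0 x, sub_zero]
        · rw [Pi.sub_apply, hdf1, hdf0, sub_self]
      rw [map_sub, hz1, zero_sub, neg_eq_zero] at hz2
      rw [thf_apply] at hz0 hz2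
      have h3 : (θ - θ0) * (d0 f * c' a) = 0 := by linear_combination hz2 - hz0
      have h4 : d0 f * c' a ≠ 0 := mul_ne_zero (by rw [hdf0]; exact hdf) hca'
      have h5 : θ = θ0 := sub_eq_zero.1 ((mul_eq_zero.1 h3).resolve_right h4)
      rw [← h5]
      exact hθ
    refine ⟨thf T t f a θ0, fun c2 hc2 d2 hd2 hcd2 => ?_, thf_f T t f a θ0⟩
    have hpos : ∀ d3 ∈ spt S.W p.2, (∀ x, c2 x * d3 x = 0) → (∃ e ∈ X, d3 e = 0) → thf T t f a θ0 c2 d3 = 0 := by
      rintro d3 hd3 hcd3 ⟨e, he, h0⟩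
      refine hall e he c2 hc2 d3 ⟨hd3.1, fun y hy => ?_⟩ hcd3
      by_cases hye : y = e
      · rw [hye, h0]
      · exact hd3.2 y fun h => hy (Finset.mem_erase.2 ⟨hye, h⟩)
    by_cases h0 : ∃ e ∈ X, d2 e = 0
    · exact hpos d2 hd2 hcd2 h0
    push Not at h0
    have hc0 : ∀ e ∈ X, c2 e = 0 := fun e he => (mul_eq_zero.1 (hcd2 e)).resolve_right (h0 e he)
    obtain ⟨x, hx, hxe⟩ := hin e0 he0
    have hcx : ∀ y, c2 y * x y = 0 := by
      intro y
      by_cases hy : y ∈ p.1 ∪ X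
      · rcases Finset.mem_union.1 hy with h | h
        · rw [hc2.2 y h, zero_mul]
        · rw [hc0 y h, zero_mul]
      · rw [hx.2 y hy, mul_zero]
    have hx2 := spt_mono hsub hx
    have i1 : thf T t f a θ0 c2 x = 0 := D.f0 θ0 hc2 hx2 hcx (hx.2 f hfin)
    have i2 : thf T t f a θ0 c2 (d2 - d2 e0 • x) = 0 := by
      refine hpos _ (Submodule.sub_mem _ hd2 (Submodule.smul_mem _ _ hx2)) (fun y => ?_) ⟨e0, he0, ?_⟩
      · rw [Pi.sub_apply, Pi.smul_apply, smul_eq_mul, mul_sub, hcd2 y]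
        have h3 := hcx y
        linear_combination (-(d2 e0)) * h3
      · rw [Pi.sub_apply, Pi.smul_apply, smul_eq_mul, hxe, mul_one, sub_self]
    rw [map_sub, map_smul, i1, smul_zero, sub_zero] at i2
    exact i2
  · obtain ⟨Te, hTe, ee⟩ := hw' T (hT.mono ((rm_sub false w p).rm true f))
    obtain ⟨θ, hθ⟩ := D.node (q := rm false w p) (Finset.subset_insert _ _) D.sub hTe ee
    refine ⟨thf T t f a θ, fun c hc d hd hcd => ?_, thf_f T t f a θ⟩
    by_cases hca : c a = 0
    · exact D.a0 θ hc hd hcd hca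
    by_cases hdf : d f = 0
    · exact D.f0 θ hc hd hcd hdf
    have hcw : c w = 0 := by
      by_contra hne
      have hdw : d w = 0 := (mul_eq_zero.1 (hcd w)).resolve_left hne
      refine hex ⟨c, hc, d, ⟨hd.1, fun y hy => ?_⟩, hcd, hca, hdf⟩
      by_cases hyw : y = w
      · rw [hyw, hdw]
      · exact hd.2 y fun h => hy (Finset.mem_erase.2 ⟨hyw, h⟩)
    refine hθ c ⟨hc.1, fun y hy => ?_⟩ d hd hcd
    rcases Finset.mem_insert.1 hy with h | h
    · rw [h, hcw]
    · exact hc.2 y h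

end Pool.Agent.QU
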