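import Pool.Agent.QUR.TyD
import Pool.Agent.QUR.TyG
import Pool.Agent.QUP.RaC

/-!
# QUR/TyB: from boxes to the rank language of `Ty`

`rhoP r p`: the rank function of the box `p`.
-/

set_option autoImplicit false

open QUB

namespace Pool.Agent.QU

open Pool.Agent.FRM

/-- the rank function of the box -/
def rhoP {E : Type} [DecidableEq E] (r : Finset E → ℤ) (p : Itv E) : Finset E → ℤ := fun A => r (p.1 ∪ A) - r p.1

section

variable {E : Type} [DecidableEq E] {r : Finset E → ℤ} {p : Itv E}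

theorem rhoP_rk (hr : Rk r) : Rk (rhoP r p) where
  empty := by
    unfold rhoP
    rw [Finset.union_empty]
    ring
  mono := fun A B h => by
    have := hr.mono _ _ (Finset.union_subset_union_right (s := p.1) h)
    unfold rhoP
    linarith
  unit := fun A x => by
    have := hr.unit (p.1 ∪ A) x
    unfold rhoP
    rw [Finset.union_insert]
    linarith
  sub := fun A B => by
    have h := hr.sub (p.1 ∪ A) (p.1 ∪ B)
    have e1 : (p.1 ∪ A) ∪ (p.1 ∪ B) = p.1 ∪ (A ∪ B) := by
      ext y; simp only [Finset.mem_union]; tauto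
    have e2 : (p.1 ∪ A) ∩ (p.1 ∪ B) = p.1 ∪ (A ∩ B) := by
      ext y; simp only [Finset.mem_union, Finset.mem_inter]; tauto
    rw [e1, e2] at h
    unfold rhoP
    linarith

/-- the rank of a complement in the ground set -/
theorem rhoP_compl (hp : p.1 ⊆ p.2) {Z : Finset E} (hZ : Z ⊆ gs p) : rhoP r p (gs p \ Z) = r (p.2 \ Z) - r p.1 := by
  unfold rhoP
  have e : p.1 ∪ (gs p \ Z) = p.2 \ Z := by
    ext y
    have h1 := @hp y
    have h2 := @hZ y
    simp only [gs, Finset.mem_union, Finset.mem_sdiff] at *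
    tauto
  rw [e]

theorem rhoP_gs (hp : p.1 ⊆ p.2) : rhoP r p (gs p) = r p.2 - r p.1 := by
  have h := rhoP_compl (r := r) hp (Finset.empty_subset (gs p))
  rw [Finset.sdiff_empty, Finset.sdiff_empty] at h
  exact h

/-- the order in the box itself -/
theorem lam_0 (hp : p.1 ⊆ p.2) {A : Finset E} (hA : A ⊆ gs p) :
    QUB.lam r p A = rhoP r p A + rhoP r p (gs p \ A) - (r p.2 - r p.1) := by
  rw [rhoP_compl hp hA]
  unfold rhoP QUB.lam
  ring

/-- the order in a box with contracted set `K` and deleted set `D` -/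
theorem lam_dk (hp : p.1 ⊆ p.2) {K D : Finset E} (hK : K ⊆ gs p) (hD : D ⊆ gs p) (hKD : ∀ w ∈ K, w ∉ D) {q : Itv E}
    (h1 : q.1 = p.1 ∪ K) (h2 : q.2 = p.2 \ D) {A : Finset E} (hA : A ⊆ gs q) :
    QUB.lam r q A = rhoP r p (K ∪ A) + rhoP r p (K ∪ (gs q \ A)) - rhoP r p (gs p \ D) - rhoP r p K := by
  rw [rhoP_compl hp hD]
  have e1 : q.1 ∪ A = p.1 ∪ (K ∪ A) := by
    rw [h1, Finset.union_assoc]
  have e2 : q.2 \ A = p.1 ∪ (K ∪ (gs q \ A)) := by
    ext y
    have g1 := @hp y
    have g2 := @hA y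
    have g3 := @hK y
    have g4 := @hD y
    have g5 := hKD y
    simp only [gs, h1, h2, Finset.mem_union, Finset.mem_sdiff] at *
    tauto
  unfold QUB.lam rhoP
  rw [e1, e2, h1, h2]
  ring

theorem rhoP_le3 (hr : Rk r) (nt : Nt r p) (hn : 3 ≤ (gs p).card) {Z : Finset E} (hZ : Z ⊆ gs p) (hc : Z.card ≤ 3) :
    rhoP r p Z = Z.card := by
  have h := nt.le3 hr hn hZ hc
  unfold rhoP
  linarith

theorem rhoP_co3 (hr : Rk r) (hp : p.1 ⊆ p.2) (nt : Nt r p) (hn : 3 ≤ (gs p).card) {Z : Finset E} (hZ : Z ⊆ gs p) (hc : Z.card ≤ 3) :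
    rhoP r p (gs p \ Z) = r p.2 - r p.1 := by
  obtain ⟨Z', h1, h2, h4⟩ := Finset.exists_subsuperset_card_eq hZ hc hn
  rw [rhoP_compl hp hZ]
  have h5 := nt.d3 Z' h2 h4
  have h6 := hr.mono _ _ (Finset.sdiff_subset_sdiff (Finset.Subset.refl p.2) h1)
  have h7 := hr.mono _ _ (Finset.sdiff_subset : p.2 \ Z ⊆ p.2)
  linarith

/-- the order in a box with at most three contracted and at most three deleted elements -/
theorem lam_nt (hr : Rk r) (hp : p.1 ⊆ p.2) (nt : Nt r p) (hn : 3 ≤ (gs p).card) {K D : Finset E} (hK : K ⊆ gs p) (hD : D ⊆ gs p)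
    (hKD : ∀ w ∈ K, w ∉ D) (cK : K.card ≤ 3) (cD : D.card ≤ 3) {q : Itv E}
    (h1 : q.1 = p.1 ∪ K) (h2 : q.2 = p.2 \ D) {A : Finset E} (hA : A ⊆ gs q) :
    QUB.lam r q A = rhoP r p (K ∪ A) + rhoP r p (K ∪ (gs q \ A)) - (r p.2 - r p.1) - K.card := by
  rw [lam_dk hp hK hD hKD h1 h2 hA, rhoP_co3 hr hp nt hn hD cD, rhoP_le3 hr nt hn hK cK]

/-! ### the boxes of at most three removals -/

theorem bx_dd (a b : E) : (rm true a (rm true b p)).1 = p.1 ∪ ∅ ∧ (rm true a (rm true b p)).2 = p.2 \ {a, b} := by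
  constructor
  · exact (Finset.union_empty _).symm
  · ext y
    show y ∈ (p.2.erase b).erase a ↔ _
    simp only [Finset.mem_erase, Finset.mem_sdiff, Finset.mem_insert, Finset.mem_singleton]
    tauto

theorem bx_dc {a b : E} : (rm true a (rm false b p)).1 = p.1 ∪ {b} ∧ (rm true a (rm false b p)).2 = p.2 \ {a} := by
  constructor
  · show insert b p.1 = _
    rw [Finset.union_comm, Finset.insert_eq]
  · show p.2.erase a = _
    rw [Finset.sdiff_singleton_eq_erase]

theorem bx_ddd (a b c : E) : (rm true a (rm true b (rm true c p))).1 = p.1 ∪ ∅ ∧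
    (rm true a (rm true b (rm true c p))).2 = p.2 \ {a, b, c} := by
  constructor
  · exact (Finset.union_empty _).symm
  · ext y
    show y ∈ ((p.2.erase c).erase b).erase a ↔ _
    simp only [Finset.mem_erase, Finset.mem_sdiff, Finset.mem_insert, Finset.mem_singleton]
    tauto

theorem bx_ddc (a b c : E) : (rm true a (rm true b (rm false c p))).1 = p.1 ∪ {c} ∧
    (rm true a (rm true b (rm false c p))).2 = p.2 \ {a, b} := by
  constructor
  · show insert c p.1 = _
    rw [Finset.union_comm, Finset.insert_eq]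
  · ext y
    show y ∈ (p.2.erase b).erase a ↔ _
    simp only [Finset.mem_erase, Finset.mem_sdiff, Finset.mem_insert, Finset.mem_singleton]
    tauto

theorem bx_cdc (a b c : E) : (rm false a (rm true b (rm false c p))).1 = p.1 ∪ {a, c} ∧
    (rm false a (rm true b (rm false c p))).2 = p.2 \ {b} := by
  constructor
  · show insert a (insert c p.1) = _
    ext y
    simp only [Finset.mem_union, Finset.mem_insert, Finset.mem_singleton]
    tauto
  · show p.2.erase b = _
    rw [Finset.sdiff_singleton_eq_erase]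

theorem gs_3 (s1 s2 s3 : Bool) (a b c : E) : gs (rm s1 a (rm s2 b (rm s3 c p))) = (((gs p).erase c).erase b).erase a := by
  rw [gs_rm, gs_rm, gs_rm]

theorem card_le2 (a b : E) : ({a, b} : Finset E).card ≤ 3 := (Finset.card_insert_le _ _).trans (by simp)

theorem card_le1 (a : E) : ({a} : Finset E).card ≤ 3 := by simp

/-- the hypotheses on the pair -/
theorem pr_of {a b : E} (_ha : a ∈ gs p) (_hb : b ∈ gs p) {A : Finset E} (hA : A ⊆ ((gs p).erase b).erase a) :
    Pr (gs p) a b A (((gs p).erase b).erase a \ A) := by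
  have mA : ∀ w ∈ A, w ∈ gs p ∧ w ≠ a ∧ w ≠ b := fun w hw => by
    have h1 := Finset.mem_erase.1 (hA hw)
    have h2 := Finset.mem_erase.1 h1.2
    exact ⟨h2.2, h1.1, h2.1⟩
  have mB : ∀ w, w ∈ ((gs p).erase b).erase a \ A ↔ w ∈ gs p ∧ w ≠ a ∧ w ≠ b ∧ w ∉ A := by
    intro w
    rw [Finset.mem_sdiff, Finset.mem_erase, Finset.mem_erase]
    tauto
  exact ⟨fun w hw => (mA w hw).1, fun w hw => ((mB w).1 hw).1, fun h => (mA a h).2.1 rfl, fun h => ((mB a).1 h).2.1 rfl,
    fun h => (mA b h).2.2 rfl, fun h => ((mB b).1 h).2.2.1 rfl,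
    fun w h1 h2 h3 => by
      by_cases hw : w ∈ A
      · exact Or.inl hw
      · exact Or.inr ((mB w).2 ⟨h1, h2, h3, hw⟩), fun w h1 h2 => ((mB w).1 h2).2.2.2 h1⟩

/-- (B3) a pair of a deletion and a contraction -/
theorem ok_dc (hr : Rk r) (hp : p.1 ⊆ p.2) (nt : Nt r p) (hn : 4 ≤ (gs p).card) {a b : E} (ha : a ∈ gs p) (hb : b ∈ gs p) (hab : a ≠ b)
    (H : ∀ A B, Pr (gs p) a b A B → 3 ≤ A.card → 3 ≤ B.card → (A.card = 3 → rhoP r p (insert b A) ≤ 3) →
      (B.card = 3 → rhoP r p (insert b B) ≤ 3) → r p.2 - r p.1 + 3 ≤ rhoP r p (insert b A) + rhoP r p (insert b B)) :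
    Ok r (rm true a (rm false b p)) := by
  intro A hA hl hv
  obtain ⟨hv1, hv2⟩ := hv
  have hg : gs (rm true a (rm false b p)) = ((gs p).erase b).erase a := gs_rm2 _ _ _ _ _
  have hl' := lam_nt hr hp nt (by omega) (K := {b}) (D := {a}) (Finset.singleton_subset_iff.2 hb) (Finset.singleton_subset_iff.2 ha)
    (by intro w hw; rw [Finset.mem_singleton] at hw ⊢; rw [hw]; exact hab.symm) (card_le1 b) (card_le1 a) bx_dc.1 bx_dc.2 hA
  rw [← Finset.insert_eq, ← Finset.insert_eq, Finset.card_singleton] at hl'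
  rw [hg] at hA hl'
  have hv2' : Hv r (rm true a (rm false b p)) (((gs p).erase b).erase a \ A) := by
    rw [← hg]
    exact hv2
  have hpr := pr_of ha hb hA
  set B := ((gs p).erase b).erase a \ A with hB
  have c1 := hv1.card
  have c2 := hv2'.card
  -- the complement of four elements
  have small : ∀ A' B' : Finset E, Pr (gs p) a b A' B' → A'.card = 3 → r p.2 - r p.1 - 1 ≤ rhoP r p (insert b B') := by
    intro A' B' h h3
    have e : insert b B' = gs p \ insert a A' := by
      ext w
      have g1 := h.cov w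
      have g2 := @h.sB w
      have g3 := h.aB
      have g4 := h.dis w
      have g5 := h.bA
      rw [Finset.mem_insert, Finset.mem_sdiff, Finset.mem_insert, not_or]
      constructor
      · rintro (rfl | g)
        · exact ⟨hb, hab.symm, g5⟩
        · exact ⟨g2 g, fun g' => g3 (g' ▸ g), fun g' => g4 g' g⟩
      · rintro ⟨g, g', g''⟩
        by_cases hwb : w = b
        · exact Or.inl hwb
        · exact Or.inr ((g1 g g' hwb).resolve_left g'')
    rw [e]
    have e2 : gs p \ A' ⊆ insert a (gs p \ insert a A') := by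
      intro w hw
      rw [Finset.mem_sdiff] at hw
      rw [Finset.mem_insert, Finset.mem_sdiff, Finset.mem_insert]
      tauto
    have h5 := (rhoP_rk hr (p := p)).mono _ _ e2
    have h6 := (rhoP_rk hr (p := p)).unit (gs p \ insert a A') a
    have h7 := rhoP_co3 hr hp nt (by omega) h.sA (by omega : A'.card ≤ 3)
    omega
  have h9 := H A B hpr c1 c2 (fun h3 => by have := small A B hpr h3; omega) fun h3 => by have := small B A hpr.symm h3; omega
  omega

/-- (B2) a pair of deletions -/
theorem ok_dd (hr : Rk r) (hp : p.1 ⊆ p.2) (nt : Nt r p) (hn : 4 ≤ (gs p).card) {a b : E} (ha : a ∈ gs p) (hb : b ∈ gs p) (hab : a ≠ b)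
    (H : ∀ A B, Pr (gs p) a b A B → 4 ≤ A.card → 4 ≤ B.card → r p.2 - r p.1 + 2 ≤ rhoP r p A + rhoP r p B) :
    Ok r (rm true a (rm true b p)) := by
  have hg : gs (rm true a (rm true b p)) = ((gs p).erase b).erase a := gs_rm2 _ _ _ _ _
  have hD : ({a, b} : Finset E) ⊆ gs p := by
    intro w hw
    simp only [Finset.mem_insert, Finset.mem_singleton] at hw
    rcases hw with rfl | rfl <;> assumption
  have lf : ∀ A ⊆ ((gs p).erase b).erase a, QUB.lam r (rm true a (rm true b p)) A =
      rhoP r p A + rhoP r p (((gs p).erase b).erase a \ A) - (r p.2 - r p.1) := by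
    intro A hA
    have h := lam_nt hr hp nt (by omega) (K := ∅) (D := {a, b}) (Finset.empty_subset _) hD (by simp) (by simp) (card_le2 a b)
      (bx_dd a b).1 (bx_dd a b).2 (A := A) (by rw [hg]; exact hA)
    rw [Finset.empty_union, Finset.empty_union, Finset.card_empty, hg] at h
    rw [h]
    push_cast
    ring
  have hw : (rm true a (rm true b p)).1 ⊆ (rm true a (rm true b p)).2 := by
    refine QUB.wf_rm (QUB.wf_rm hp hb) ?_
    rw [show gs (rm true b p) = (gs p).erase b from QUB.gs_rm _ _ _]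
    exact Finset.mem_erase.2 ⟨hab, ha⟩
  -- heavy sides have at least four elements
  have four : ∀ A ⊆ ((gs p).erase b).erase a, QUB.lam r (rm true a (rm true b p)) A ≤ 1 → Hv r (rm true a (rm true b p)) A → 4 ≤ A.card := by
    intro A hA hl hv
    by_contra hcon
    have h3 : A.card = 3 := by have := hv.card; omega
    obtain ⟨N, hN, hc⟩ := hv
    have hAN : A ⊆ N := by
      have h4 : N ∩ A = A := Finset.eq_of_subset_of_card_le Finset.inter_subset_right (by omega)
      rw [← h4]
      exact Finset.inter_subset_left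
    obtain ⟨i, j, k, hij, hik, hjk, hA3⟩ := Finset.card_eq_three.1 h3
    have hsub : ({i, j} : Finset E) ⊆ A := by
      rw [hA3]
      intro w hw
      simp only [Finset.mem_insert, Finset.mem_singleton] at hw ⊢
      tauto
    have l1 := lf A hA
    have l2 := lf {i, j} (hsub.trans hA)
    have r1 := rhoP_le3 hr nt (by omega) (Z := A) (hA.trans ((Finset.erase_subset _ _).trans (Finset.erase_subset _ _))) (by omega)
    have r2 := rhoP_le3 hr nt (by omega) (Z := {i, j}) ((hsub.trans hA).trans ((Finset.erase_subset _ _).trans (Finset.erase_subset _ _)))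
      (by rw [Finset.card_pair hij]; norm_num)
    rw [Finset.card_pair hij] at r2
    rw [h3] at r1
    have e : ((gs p).erase b).erase a \ {i, j} ⊆ insert k (((gs p).erase b).erase a \ A) := by
      intro w hw
      rw [hA3]
      simp only [Finset.mem_sdiff, Finset.mem_insert, Finset.mem_singleton] at hw ⊢
      tauto
    have r3 := (rhoP_rk hr (p := p)).mono _ _ e
    have r4 := (rhoP_rk hr (p := p)).unit (((gs p).erase b).erase a \ A) k
    have h5 := QUB.F1 hr hw (A := {i, j}) (by rw [show QUB.gs (rm true a (rm true b p)) = _ from hg]; exact hsub.trans hA) (by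
      show QUB.lam r (rm true a (rm true b p)) {i, j} ≤ 1
      push_cast at r1 r2
      omega) hN
    apply h5
    rw [Finset.inter_eq_right.2 (hsub.trans hAN), Finset.card_pair hij]
  intro A hA hl hv
  obtain ⟨hv1, hv2⟩ := hv
  have hcp := QUB.lam_compl r hw hA
  rw [show QUB.gs (QUB.rm true a (rm true b p)) = _ from hg] at hA hcp hv2
  have h1 := lf A hA
  have c1 := four A hA hl hv1
  have c2 := four _ Finset.sdiff_subset (by
    show QUB.lam r (rm true a (rm true b p)) (((gs p).erase b).erase a \ A) ≤ 1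
    exact hcp.trans_le hl) hv2
  have h2 := H A _ (pr_of ha hb hA) c1 c2
  have hl' : QUB.lam r (rm true a (rm true b p)) A ≤ 1 := hl
  omega

end

end Pool.Agent.QU
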