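import Pool.Agent.QUR.TyB
import Pool.Agent.QUT.Rcf

/-!
# QUR/TyC: the tiny setting from the box

`ty_of`: a real conflict `u\, v/` with a side of three elements gives `Ty`.  `cn_ddd`, `cn_ddc`: connectedness of three removals from the
cover form.  `Gf.dual`: the dual of a good element.
-/

set_option autoImplicit false

open QUB

namespace Pool.Agent.QU

open Pool.Agent.FRM

section

variable {E : Type} [DecidableEq E] {r : Finset E → ℤ} {p : Itv E}

/-- a lower bound of the order in cover form -/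
theorem cov_le (hr : Rk r) (hp : p.1 ⊆ p.2) (nt : Nt r p) (hn : 3 ≤ (gs p).card) {K D : Finset E} (hK : K ⊆ gs p) (hD : D ⊆ gs p)
    (hKD : ∀ w ∈ K, w ∉ D) (cK : K.card ≤ 3) (cD : D.card ≤ 3) {q : Itv E}
    (h1 : q.1 = p.1 ∪ K) (h2 : q.2 = p.2 \ D) {A B : Finset E} (hc : ∀ w ∈ gs q, w ∈ A ∨ w ∈ B) {m : ℤ}
    (hl : m ≤ QUB.lam r q (gs q \ B)) : r p.2 - r p.1 + m + K.card ≤ rhoP r p (K ∪ A) + rhoP r p (K ∪ B) := by
  have h := lam_nt hr hp nt hn hK hD hKD cK cD h1 h2 (A := gs q \ B) Finset.sdiff_subset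
  have e1 : K ∪ (gs q \ B) ⊆ K ∪ A := by
    refine Finset.union_subset_union_right fun w hw => ?_
    rw [Finset.mem_sdiff] at hw
    exact (hc w hw.1).resolve_right hw.2
  have e2 : K ∪ (gs q \ (gs q \ B)) ⊆ K ∪ B := by
    refine Finset.union_subset_union_right fun w hw => ?_
    rw [Finset.mem_sdiff, Finset.mem_sdiff] at hw
    by_contra hB
    exact hw.2 ⟨hw.1, hB⟩
  have e3 := (rhoP_rk hr (p := p)).mono _ _ e1
  have e4 := (rhoP_rk hr (p := p)).mono _ _ e2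
  omega

/-- the 3-connected case -/
theorem cov_th {q : Itv E} (th : Th3 r q) {A B S T : Finset E} (hc : ∀ w ∈ gs q, w ∈ A ∨ w ∈ B) (cS : 2 ≤ S.card)
    (hS : ∀ w ∈ S, w ∈ gs q ∧ w ∉ B) (cT : 2 ≤ T.card) (hT : ∀ w ∈ T, w ∈ gs q ∧ w ∉ A) : 2 ≤ QUB.lam r q (gs q \ B) := by
  refine th _ Finset.sdiff_subset (cS.trans (Finset.card_le_card fun w hw => Finset.mem_sdiff.2 (hS w hw)))
    (cT.trans (Finset.card_le_card fun w hw => ?_))
  have h := hT w hw
  have h' := (hc w h.1).resolve_left h.2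
  rw [Finset.mem_sdiff, Finset.mem_sdiff]
  exact ⟨h.1, fun h'' => h''.2 h'⟩

/-- the connected case -/
theorem cov_cn {q : Itv E} (th : Cn r q) {A B : Finset E} (hc : ∀ w ∈ gs q, w ∈ A ∨ w ∈ B) (hS : ∃ w ∈ gs q, w ∉ B)
    (hT : ∃ w ∈ gs q, w ∉ A) : 1 ≤ QUB.lam r q (gs q \ B) := by
  obtain ⟨s, s1, s2⟩ := hS
  obtain ⟨t, t1, t2⟩ := hT
  refine th _ Finset.sdiff_subset ⟨s, Finset.mem_sdiff.2 ⟨s1, s2⟩⟩ ⟨t, ?_⟩
  rw [show QUB.gs q = gs q from rfl, Finset.mem_sdiff, Finset.mem_sdiff]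
  exact ⟨t1, fun h'' => h''.2 ((hc t t1).resolve_left t2)⟩

theorem gT_of {u v x y z : E} (hu : u ∈ gs p) (hv : v ∈ gs p) (hX : ({x, y, z} : Finset E) ⊆ gs (rm true u (rm false v p))) :
    gT u v x y z (gs (rm true u (rm false v p)) \ {x, y, z}) = gs p := by
  have hg : gs (rm true u (rm false v p)) = ((gs p).erase v).erase u := gs_rm2 _ _ _ _ _
  rw [hg] at hX ⊢
  have hx : x ∈ gs p := Finset.mem_of_mem_erase (Finset.mem_of_mem_erase (hX (by simp)))
  have hy : y ∈ gs p := Finset.mem_of_mem_erase (Finset.mem_of_mem_erase (hX (by simp)))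
  have hz : z ∈ gs p := Finset.mem_of_mem_erase (Finset.mem_of_mem_erase (hX (by simp)))
  ext w
  rw [mem_gT, Finset.mem_sdiff, Finset.mem_erase, Finset.mem_erase]
  simp only [Finset.mem_insert, Finset.mem_singleton]
  constructor
  · rintro (rfl | rfl | rfl | rfl | rfl | h)
    · exact hu
    · exact hv
    · exact hx
    · exact hy
    · exact hz
    · exact h.1.2.2
  · intro h
    tauto

/-- three deletions are connected -/
theorem cn_ddd (hr : Rk r) (hp : p.1 ⊆ p.2) (nt : Nt r p) (hn : 3 ≤ (gs p).card) {a b c : E} (ha : a ∈ gs p) (hb : b ∈ gs p)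
    (hc : c ∈ gs p)
    (H : ∀ A B : Finset E, (∀ w ∈ gs p, w ≠ a → w ≠ b → w ≠ c → w ∈ A ∨ w ∈ B) →
      (∃ s ∈ gs p, s ≠ a ∧ s ≠ b ∧ s ≠ c ∧ s ∉ B) → (∃ s ∈ gs p, s ≠ a ∧ s ≠ b ∧ s ≠ c ∧ s ∉ A) →
      r p.2 - r p.1 + 1 ≤ rhoP r p A + rhoP r p B) : Cn r (rm true a (rm true b (rm true c p))) := by
  intro A hA h1 h2
  have hD : ({a, b, c} : Finset E) ⊆ gs p := by
    intro w hw
    simp only [Finset.mem_insert, Finset.mem_singleton] at hw
    rcases hw with rfl | rfl | rfl <;> assumption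
  have hg : gs (rm true a (rm true b (rm true c p))) = (((gs p).erase c).erase b).erase a := gs_3 _ _ _ _ _ _
  have hl := lam_nt hr hp nt hn (K := ∅) (D := {a, b, c}) (Finset.empty_subset _) hD (by simp) (by simp) Finset.card_le_three
    (bx_ddd a b c).1 (bx_ddd a b c).2 hA
  rw [Finset.empty_union, Finset.empty_union, Finset.card_empty] at hl
  have mg : ∀ w, w ∈ gs (rm true a (rm true b (rm true c p))) ↔ w ∈ gs p ∧ w ≠ a ∧ w ≠ b ∧ w ≠ c := by
    intro w
    rw [hg, Finset.mem_erase, Finset.mem_erase, Finset.mem_erase]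
    tauto
  obtain ⟨s, hs⟩ := h1
  obtain ⟨t, ht⟩ := h2
  have h3 := H A (gs (rm true a (rm true b (rm true c p))) \ A) (fun w w1 w2 w3 w4 => by
      rw [Finset.mem_sdiff, mg]
      tauto) ⟨s, ((mg s).1 (hA hs)).1, ((mg s).1 (hA hs)).2.1, ((mg s).1 (hA hs)).2.2.1, ((mg s).1 (hA hs)).2.2.2,
        fun h => (Finset.mem_sdiff.1 h).2 hs⟩ (by
      have ht' := Finset.mem_sdiff.1 ht
      have ht1 := (mg t).1 ht'.1
      exact ⟨t, ht1.1, ht1.2.1, ht1.2.2.1, ht1.2.2.2, ht'.2⟩)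
  have hl' : QUB.lam r (rm true a (rm true b (rm true c p))) A = _ := hl
  show 1 ≤ QUB.lam r (rm true a (rm true b (rm true c p))) A
  rw [hl']
  push_cast
  omega

/-- two deletions and a contraction are connected -/
theorem cn_ddc (hr : Rk r) (hp : p.1 ⊆ p.2) (nt : Nt r p) (hn : 3 ≤ (gs p).card) {a b c : E} (ha : a ∈ gs p) (hb : b ∈ gs p)
    (hc : c ∈ gs p) (hac : a ≠ c) (hbc : b ≠ c)
    (H : ∀ A B : Finset E, (∀ w ∈ gs p, w ≠ a → w ≠ b → w ≠ c → w ∈ A ∨ w ∈ B) →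
      (∃ s ∈ gs p, s ≠ a ∧ s ≠ b ∧ s ≠ c ∧ s ∉ B) → (∃ s ∈ gs p, s ≠ a ∧ s ≠ b ∧ s ≠ c ∧ s ∉ A) →
      r p.2 - r p.1 + 2 ≤ rhoP r p (insert c A) + rhoP r p (insert c B)) : Cn r (rm true a (rm true b (rm false c p))) := by
  intro A hA h1 h2
  have hD : ({a, b} : Finset E) ⊆ gs p := by
    intro w hw
    simp only [Finset.mem_insert, Finset.mem_singleton] at hw
    rcases hw with rfl | rfl <;> assumption
  have hg : gs (rm true a (rm true b (rm false c p))) = (((gs p).erase c).erase b).erase a := gs_3 _ _ _ _ _ _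
  have hl := lam_nt hr hp nt hn (K := {c}) (D := {a, b}) (Finset.singleton_subset_iff.2 hc) hD (by
      intro w hw
      rw [Finset.mem_singleton] at hw
      rw [hw]
      simp only [Finset.mem_insert, Finset.mem_singleton, not_or]
      exact ⟨hac.symm, hbc.symm⟩) (card_le1 c) (card_le2 a b) (bx_ddc a b c).1 (bx_ddc a b c).2 hA
  rw [← Finset.insert_eq, ← Finset.insert_eq, Finset.card_singleton] at hl
  have mg : ∀ w, w ∈ gs (rm true a (rm true b (rm false c p))) ↔ w ∈ gs p ∧ w ≠ a ∧ w ≠ b ∧ w ≠ c := by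
    intro w
    rw [hg, Finset.mem_erase, Finset.mem_erase, Finset.mem_erase]
    tauto
  obtain ⟨s, hs⟩ := h1
  obtain ⟨t, ht⟩ := h2
  have h3 := H A (gs (rm true a (rm true b (rm false c p))) \ A) (fun w w1 w2 w3 w4 => by
      rw [Finset.mem_sdiff, mg]
      tauto) ⟨s, ((mg s).1 (hA hs)).1, ((mg s).1 (hA hs)).2.1, ((mg s).1 (hA hs)).2.2.1, ((mg s).1 (hA hs)).2.2.2,
        fun h => (Finset.mem_sdiff.1 h).2 hs⟩ (by
      have ht' := Finset.mem_sdiff.1 ht
      have ht1 := (mg t).1 ht'.1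
      exact ⟨t, ht1.1, ht1.2.1, ht1.2.2.1, ht1.2.2.2, ht'.2⟩)
  have hl' : QUB.lam r (rm true a (rm true b (rm false c p))) A = _ := hl
  show 1 ≤ QUB.lam r (rm true a (rm true b (rm false c p))) A
  rw [hl']
  push_cast
  omega

end

section

variable {E : Type} [Fintype E] [DecidableEq E] {S : TP F4 E} {p : Itv E}

/-- (B1) the tiny setting -/
theorem ty_of (h : Cw S p) {u v : E} {X : Finset E} (hc : Rcf S p u true v false X) {x y z : E} (hX : X = {x, y, z}) (xy : x ≠ y)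
    (xz : x ≠ z) (yz : y ≠ z) :
    Ty (rhoP S.r p) (S.r p.2 - S.r p.1) u v x y z (gs (rm true u (rm false v p)) \ X) ∧
      gT u v x y z (gs (rm true u (rm false v p)) \ X) = gs p := by
  have hr : Rk S.r := S.rk
  have hp := h.hp
  have nt := h.nt
  have hn := h.hn
  have hg : gs (rm true u (rm false v p)) = ((gs p).erase v).erase u := gs_rm2 _ _ _ _ _
  have hXs := hc.sub
  have e := gT_of hc.mu hc.mv (hX ▸ hc.sub)
  rw [← hX] at e
  refine ⟨?_, e⟩
  have mX : ∀ w ∈ X, w ∈ gs p ∧ w ≠ u ∧ w ≠ v := fun w hw => by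
    have h1 := hXs hw
    rw [hg, Finset.mem_erase, Finset.mem_erase] at h1
    tauto
  have mx := mX x (by rw [hX]; simp)
  have my := mX y (by rw [hX]; simp)
  have mz := mX z (by rw [hX]; simp)
  have cX : X.card = 3 := by
    rw [hX]
    exact Finset.card_eq_three.2 ⟨x, y, z, xy, xz, yz, rfl⟩
  have mY : ∀ w, w ∈ gs (rm true u (rm false v p)) \ X ↔ w ∈ gs p ∧ w ≠ u ∧ w ≠ v ∧ w ∉ X := by
    intro w
    rw [Finset.mem_sdiff, hg, Finset.mem_erase, Finset.mem_erase]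
    tauto
  have hlam : rhoP S.r p (insert v X) + rhoP S.r p (insert v (gs (rm true u (rm false v p)) \ X)) ≤ S.r p.2 - S.r p.1 + 2 := by
    have hl := lam_nt hr hp nt (by omega) (K := {v}) (D := {u}) (Finset.singleton_subset_iff.2 hc.mv)
      (Finset.singleton_subset_iff.2 hc.mu) (by
        intro w hw
        rw [Finset.mem_singleton] at hw ⊢
        rw [hw]
        exact hc.uv.symm) (card_le1 v) (card_le1 u) bx_dc.1 bx_dc.2 hXs
    rw [← Finset.insert_eq, ← Finset.insert_eq, Finset.card_singleton] at hl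
    have h1 := hc.lam
    have h2 : QUB.lam S.r (rm true u (rm false v p)) X ≤ 1 := h1
    rw [hl] at h2
    push_cast at h2
    omega
  have c3 : 3 ≤ rhoP S.r p (insert v X) := by
    have h1 := rhoP_le3 hr nt (by omega) (Z := X) (fun w hw => (mX w hw).1) cX.le
    have h2 := (rhoP_rk hr (p := p)).mono _ _ (Finset.subset_insert v X)
    rw [cX] at h1
    push_cast at h1
    omega
  have cY : S.r p.2 - S.r p.1 - 1 ≤ rhoP S.r p (insert v (gs (rm true u (rm false v p)) \ X)) := by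
    have h1 := rhoP_co3 hr hp nt (by omega) (Z := X) (fun w hw => (mX w hw).1) cX.le
    have h2 := (rhoP_rk hr (p := p)).unit (insert v (gs (rm true u (rm false v p)) \ X)) u
    have h3 := (rhoP_rk hr (p := p)).mono (gs p \ X) (insert u (insert v (gs (rm true u (rm false v p)) \ X))) (by
      intro w hw
      rw [Finset.mem_sdiff] at hw
      rw [Finset.mem_insert, Finset.mem_insert, mY]
      tauto)
    omega
  -- the box formulas
  have td : ∀ a ∈ gs p, ∀ A B S' T : Finset E, (∀ w ∈ gs p, w ≠ a → w ∈ A ∨ w ∈ B) → 2 ≤ S'.card →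
      (∀ w ∈ S', w ∈ gs p ∧ w ≠ a ∧ w ∉ B) → 2 ≤ T.card → (∀ w ∈ T, w ∈ gs p ∧ w ≠ a ∧ w ∉ A) →
      S.r p.2 - S.r p.1 + 2 ≤ rhoP S.r p A + rhoP S.r p B := by
    intro a ha A B S' T hcov c1 m1 c2 m2
    have ge : ∀ w, w ∈ gs (rm true a p) ↔ w ≠ a ∧ w ∈ gs p := fun w => by rw [gs_rm]; exact Finset.mem_erase
    have h1 := cov_th (h.th a ha true) (A := A) (B := B) (fun w hw => hcov w ((ge w).1 hw).2 ((ge w).1 hw).1) c1
      (fun w hw => ⟨(ge w).2 ⟨(m1 w hw).2.1, (m1 w hw).1⟩, (m1 w hw).2.2⟩) c2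
      (fun w hw => ⟨(ge w).2 ⟨(m2 w hw).2.1, (m2 w hw).1⟩, (m2 w hw).2.2⟩)
    have h2 := cov_le hr hp nt (by omega) (K := ∅) (D := {a}) (Finset.empty_subset _) (Finset.singleton_subset_iff.2 ha) (by simp)
      (by simp) (card_le1 a) (q := rm true a p) (Finset.union_empty _).symm (by
        show p.2.erase a = _
        rw [Finset.sdiff_singleton_eq_erase]) (A := A) (B := B) (fun w hw => hcov w ((ge w).1 hw).2 ((ge w).1 hw).1) h1
    rw [Finset.empty_union, Finset.empty_union, Finset.card_empty] at h2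
    push_cast at h2
    omega
  have tc : ∀ a ∈ gs p, ∀ A B S' T : Finset E, (∀ w ∈ gs p, w ≠ a → w ∈ A ∨ w ∈ B) → 2 ≤ S'.card →
      (∀ w ∈ S', w ∈ gs p ∧ w ≠ a ∧ w ∉ B) → 2 ≤ T.card → (∀ w ∈ T, w ∈ gs p ∧ w ≠ a ∧ w ∉ A) →
      S.r p.2 - S.r p.1 + 3 ≤ rhoP S.r p (insert a A) + rhoP S.r p (insert a B) := by
    intro a ha A B S' T hcov c1 m1 c2 m2
    have ge : ∀ w, w ∈ gs (rm false a p) ↔ w ≠ a ∧ w ∈ gs p := fun w => by rw [gs_rm]; exact Finset.mem_erase
    have h1 := cov_th (h.th a ha false) (A := A) (B := B) (fun w hw => hcov w ((ge w).1 hw).2 ((ge w).1 hw).1) c1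
      (fun w hw => ⟨(ge w).2 ⟨(m1 w hw).2.1, (m1 w hw).1⟩, (m1 w hw).2.2⟩) c2
      (fun w hw => ⟨(ge w).2 ⟨(m2 w hw).2.1, (m2 w hw).1⟩, (m2 w hw).2.2⟩)
    have h2 := cov_le hr hp nt (by omega) (K := {a}) (D := ∅) (Finset.singleton_subset_iff.2 ha) (Finset.empty_subset _) (by simp)
      (card_le1 a) (by simp) (q := rm false a p) (by
        show insert a p.1 = _
        rw [Finset.union_comm, Finset.insert_eq]) Finset.sdiff_empty.symm (A := A) (B := B)
      (fun w hw => hcov w ((ge w).1 hw).2 ((ge w).1 hw).1) h1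
    rw [← Finset.insert_eq, ← Finset.insert_eq, Finset.card_singleton] at h2
    push_cast at h2
    omega
  have t0 : ∀ A B S' T : Finset E, (∀ w ∈ gs p, w ∈ A ∨ w ∈ B) → 2 ≤ S'.card → (∀ w ∈ S', w ∈ gs p ∧ w ∉ B) → 2 ≤ T.card →
      (∀ w ∈ T, w ∈ gs p ∧ w ∉ A) → S.r p.2 - S.r p.1 + 2 ≤ rhoP S.r p A + rhoP S.r p B := by
    intro A B S' T hcov c1 m1 c2 m2
    have h1 := cov_th h.h3 (A := A) (B := B) hcov c1 m1 c2 m2
    have h2 := cov_le hr hp nt (by omega) (K := ∅) (D := ∅) (Finset.empty_subset _) (Finset.empty_subset _) (by simp)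
      (by simp) (by simp) (q := p) (Finset.union_empty _).symm Finset.sdiff_empty.symm (A := A) (B := B) hcov h1
    rw [Finset.empty_union, Finset.empty_union, Finset.card_empty] at h2
    push_cast at h2
    omega
  refine ⟨rhoP_rk hr, hc.uv, mx.2.1.symm, my.2.1.symm, mz.2.1.symm, mx.2.2.symm, my.2.2.symm, mz.2.2.symm, xy, xz, yz,
    fun h' => ((mY u).1 h').2.1 rfl, fun h' => ((mY v).1 h').2.2.1 rfl, fun h' => ((mY x).1 h').2.2.2 (by rw [hX]; simp),
    fun h' => ((mY y).1 h').2.2.2 (by rw [hX]; simp), fun h' => ((mY z).1 h').2.2.2 (by rw [hX]; simp), ?_, ?_, ?_, ?_, ?_, ?_, ?_,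
    ?_, ?_, ?_, ?_⟩
  · -- Y5
    have h1 : (gs (rm true u (rm false v p))).card = (gs p).card - 1 - 1 := by
      rw [hg, Finset.card_erase_of_mem (Finset.mem_erase.2 ⟨hc.uv, hc.mu⟩), Finset.card_erase_of_mem hc.mv]
    have h2 := Finset.card_sdiff_add_card_eq_card hXs
    omega
  · rw [e]
    exact rhoP_gs hp
  · rw [e]
    exact fun Z hZ c => rhoP_le3 hr nt (by omega) hZ c
  · rw [e]
    exact fun Z hZ c => rhoP_co3 hr hp nt (by omega) hZ c
  · rw [e]
    exact t0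
  · rw [e]
    exact td
  · rw [e]
    exact tc
  · rw [e]
    intro a ha b hb hab A B hcov hs ht
    have ge : ∀ w, w ∈ gs (rm true a (rm true b p)) ↔ w ∈ gs p ∧ w ≠ a ∧ w ≠ b := fun w => by
      rw [gs_rm2, Finset.mem_erase, Finset.mem_erase]
      tauto
    have hcov' : ∀ w ∈ gs (rm true a (rm true b p)), w ∈ A ∨ w ∈ B := fun w hw =>
      hcov w ((ge w).1 hw).1 ((ge w).1 hw).2.1 ((ge w).1 hw).2.2
    obtain ⟨s, s1, s2, s3, s4⟩ := hs
    obtain ⟨t, t1, t2, t3, t4⟩ := ht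
    have h1 := cov_cn (h.cn2 ha hb hab true true) hcov' ⟨s, (ge s).2 ⟨s1, s2, s3⟩, s4⟩ ⟨t, (ge t).2 ⟨t1, t2, t3⟩, t4⟩
    have h2 := cov_le hr hp nt (by omega) (K := ∅) (D := {a, b}) (Finset.empty_subset _) (by
      intro w hw
      simp only [Finset.mem_insert, Finset.mem_singleton] at hw
      rcases hw with rfl | rfl <;> assumption) (by simp)
      (by simp) (card_le2 a b) (bx_dd a b).1 (bx_dd a b).2 (A := A) (B := B) hcov' h1
    rw [Finset.empty_union, Finset.empty_union, Finset.card_empty] at h2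
    push_cast at h2
    omega
  · rw [e]
    intro a ha b hb hab A B hcov hs ht
    have ge : ∀ w, w ∈ gs (rm true a (rm false b p)) ↔ w ∈ gs p ∧ w ≠ a ∧ w ≠ b := fun w => by
      rw [gs_rm2, Finset.mem_erase, Finset.mem_erase]
      tauto
    have hcov' : ∀ w ∈ gs (rm true a (rm false b p)), w ∈ A ∨ w ∈ B := fun w hw =>
      hcov w ((ge w).1 hw).1 ((ge w).1 hw).2.1 ((ge w).1 hw).2.2
    obtain ⟨s, s1, s2, s3, s4⟩ := hs
    obtain ⟨t, t1, t2, t3, t4⟩ := ht
    have h1 := cov_cn (h.cn2 ha hb hab true false) hcov' ⟨s, (ge s).2 ⟨s1, s2, s3⟩, s4⟩ ⟨t, (ge t).2 ⟨t1, t2, t3⟩, t4⟩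
    have h2 := cov_le hr hp nt (by omega) (K := {b}) (D := {a}) (Finset.singleton_subset_iff.2 hb)
      (Finset.singleton_subset_iff.2 ha) (by
        intro w hw
        rw [Finset.mem_singleton] at hw ⊢
        rw [hw]
        exact hab.symm)
      (card_le1 b) (card_le1 a) bx_dc.1 bx_dc.2 (A := A) (B := B) hcov' h1
    rw [← Finset.insert_eq, ← Finset.insert_eq, Finset.card_singleton] at h2
    push_cast at h2
    omega
  · have e1 : insert v (insert x (insert y {z})) = insert v X := by rw [hX]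
    rw [e1]
    omega
  · omega

end

end Pool.Agent.QU
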