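import Pool.Agent.QUR.TyR

/-!
# QUR/TyD: 2-sides of `M \ x / y`
-/

set_option autoImplicit false

open QUB

namespace Pool.Agent.QU

variable {E : Type} [DecidableEq E]

namespace Ty

variable {ρ : Finset E → ℤ} {R : ℤ} {u v x y z : E} {Y : Finset E}

/-- the 2-side of a dirty pair restricts to a 2-side of `M \ u / v` -/
theorem d_old (h : Ty ρ R u v x y z Y) {Z : Finset E} (d : Dirty ρ R u v x y z Y Z) : Old ρ R v x y z Y Z := by
  have hZ : Z ⊆ Y := d.sub
  have hs := d.sep
  have hvZ : insert v Z ⊆ insert v Y := Finset.insert_subset_insert v hZ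
  have e1 := h.ny hvZ
  have e2 : ρ (insert y (insert v Z)) ≤ ρ (insert y (insert u (insert v Z))) - 1 + 0 ∨ True := Or.inr trivial
  have e3 := h.nu hvZ
  have e4 := h.rk.mono (insert u (insert v Z)) (insert y (insert u (insert v Z))) (Finset.subset_insert _ _)
  have e5 : ρ (insert v (insert x (insert y (insert z (Y \ Z))))) = ρ (insert v (insert y (insert z (Y \ Z)))) := by
    rw [Finset.insert_comm v x]
    exact h.cx (Finset.mem_insert_self _ _) (by simp) (by simp)
  have e6 := h.rk.unit (insert y (insert z (Y \ Z))) v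
  unfold Old
  rw [e5]
  omega

/-- `y` is spanned by `Z + u + v` -/
theorem d_cl (h : Ty ρ R u v x y z Y) {Z : Finset E} (d : Dirty ρ R u v x y z Y Z) :
    ρ (insert y (insert u (insert v Z))) = ρ (insert u (insert v Z)) := by
  have hZ : Z ⊆ Y := d.sub
  have hs := d.sep
  have e1 := h.md x h.xG (insert u (insert v Z)) (insert y (insert z (Y \ Z))) {u, v} {y, z} (by
    intro w hw hwx
    rcases mem_gT.1 hw with rfl | rfl | rfl | rfl | rfl | hw
    · left; simp
    · left; simp
    · exact absurd rfl hwx
    · right; simp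
    · right; simp
    · by_cases hwZ : w ∈ Z
      · left; simp [hwZ]
      · right; simp [hwZ, hw]) (by rw [Finset.card_pair h.uv]) (by
    intro w hw
    simp only [Finset.mem_insert, Finset.mem_singleton] at hw
    rcases hw with rfl | rfl
    · refine ⟨h.uG, h.ux, ?_⟩
      simp [h.uy, h.uz, h.uY]
    · refine ⟨h.vG, h.vx, ?_⟩
      simp [h.vy, h.vz, h.vY]) (by rw [Finset.card_pair h.yz]) (by
    intro w hw
    simp only [Finset.mem_insert, Finset.mem_singleton] at hw
    rcases hw with rfl | rfl
    · refine ⟨h.yG, h.xy.symm, ?_⟩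
      simp only [Finset.mem_insert, not_or]
      exact ⟨h.uy.symm, h.vy.symm, fun h' => h.yY (hZ h')⟩
    · refine ⟨h.zG, h.xz.symm, ?_⟩
      simp only [Finset.mem_insert, not_or]
      exact ⟨h.uz.symm, h.vz.symm, fun h' => h.zY (hZ h')⟩)
  have e2 := h.rk.mono (insert u (insert v Z)) (insert y (insert u (insert v Z))) (Finset.subset_insert _ _)
  omega

/-- `x` is not spanned by `(Y - Z) + y + z` -/
theorem d_cc (h : Ty ρ R u v x y z Y) {Z : Finset E} (d : Dirty ρ R u v x y z Y Z) :
    ρ (insert x (insert y (insert z (Y \ Z)))) = ρ (insert y (insert z (Y \ Z))) + 1 := by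
  have hZ : Z ⊆ Y := d.sub
  have hs := d.sep
  have e1 := h.mc y h.yG (insert u (insert v Z)) (insert x (insert z (Y \ Z))) {u, v} {x, z} (by
    intro w hw hwx
    rcases mem_gT.1 hw with rfl | rfl | rfl | rfl | rfl | hw
    · left; simp
    · left; simp
    · right; simp
    · exact absurd rfl hwx
    · right; simp
    · by_cases hwZ : w ∈ Z
      · left; simp [hwZ]
      · right; simp [hwZ, hw]) (by rw [Finset.card_pair h.uv]) (by
    intro w hw
    simp only [Finset.mem_insert, Finset.mem_singleton] at hw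
    rcases hw with rfl | rfl
    · refine ⟨h.uG, h.uy, ?_⟩
      simp [h.ux, h.uz, h.uY]
    · refine ⟨h.vG, h.vy, ?_⟩
      simp [h.vx, h.vz, h.vY]) (by rw [Finset.card_pair h.xz]) (by
    intro w hw
    simp only [Finset.mem_insert, Finset.mem_singleton] at hw
    rcases hw with rfl | rfl
    · refine ⟨h.xG, h.xy, ?_⟩
      simp only [Finset.mem_insert, not_or]
      exact ⟨h.ux.symm, h.vx.symm, fun h' => h.xY (hZ h')⟩
    · refine ⟨h.zG, h.yz.symm, ?_⟩
      simp only [Finset.mem_insert, not_or]
      exact ⟨h.uz.symm, h.vz.symm, fun h' => h.zY (hZ h')⟩)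
  have e2 := h.rk.unit (insert y (insert z (Y \ Z))) x
  rw [Finset.insert_comm y x] at e1
  omega

/-- an old 2-side with at least two elements spans `v` -/
theorem o_v (h : Ty ρ R u v x y z Y) {S : Finset E} (hS : S ⊆ Y) (h2 : 2 ≤ S.card) (o : Old ρ R v x y z Y S) :
    ρ (insert v S) = ρ S := by
  unfold Old at o
  have e1 := h.md u h.uG S (insert v (insert x (insert y (insert z (Y \ S))))) S {v, x} (by
    intro w hw hwx
    rcases mem_gT.1 hw with rfl | rfl | rfl | rfl | rfl | hw
    · exact absurd rfl hwx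
    · right; simp
    · right; simp
    · right; simp
    · right; simp
    · by_cases hwZ : w ∈ S
      · left; exact hwZ
      · right; simp [hwZ, hw]) h2 (by
    intro w hw
    refine ⟨h.YG (hS hw), ?_, ?_⟩
    · rintro rfl
      exact h.uY (hS hw)
    · simp only [Finset.mem_insert, Finset.mem_sdiff, not_or]
      refine ⟨?_, ?_, ?_, ?_, fun h' => h'.2 hw⟩
      · rintro rfl; exact h.vY (hS hw)
      · rintro rfl; exact h.xY (hS hw)
      · rintro rfl; exact h.yY (hS hw)
      · rintro rfl; exact h.zY (hS hw)) (by rw [Finset.card_pair h.vx]) (by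
    intro w hw
    simp only [Finset.mem_insert, Finset.mem_singleton] at hw
    rcases hw with rfl | rfl
    · exact ⟨h.vG, h.uv.symm, fun h' => h.vY (hS h')⟩
    · exact ⟨h.xG, h.ux.symm, fun h' => h.xY (hS h')⟩)
  have e2 := h.rk.mono S (insert v S) (Finset.subset_insert _ _)
  omega

/-- `u` is in the coclosure of an old 2-side with at least two elements -/
theorem o_u (h : Ty ρ R u v x y z Y) {S : Finset E} (hS : S ⊆ Y) (h2 : 2 ≤ S.card) (o : Old ρ R v x y z Y S) :
    ρ (insert u (insert v (insert x (insert y (insert z (Y \ S)))))) = ρ (insert v (insert x (insert y (insert z (Y \ S))))) + 1 := by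
  unfold Old at o
  have e1 := h.mc v h.vG S (insert u (insert x (insert y (insert z (Y \ S))))) S {u, x} (by
    intro w hw hwx
    rcases mem_gT.1 hw with rfl | rfl | rfl | rfl | rfl | hw
    · right; simp
    · exact absurd rfl hwx
    · right; simp
    · right; simp
    · right; simp
    · by_cases hwZ : w ∈ S
      · left; exact hwZ
      · right; simp [hwZ, hw]) h2 (by
    intro w hw
    refine ⟨h.YG (hS hw), ?_, ?_⟩
    · rintro rfl
      exact h.vY (hS hw)
    · simp only [Finset.mem_insert, Finset.mem_sdiff, not_or]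
      refine ⟨?_, ?_, ?_, ?_, fun h' => h'.2 hw⟩
      · rintro rfl; exact h.uY (hS hw)
      · rintro rfl; exact h.xY (hS hw)
      · rintro rfl; exact h.yY (hS hw)
      · rintro rfl; exact h.zY (hS hw)) (by rw [Finset.card_pair h.ux]) (by
    intro w hw
    simp only [Finset.mem_insert, Finset.mem_singleton] at hw
    rcases hw with rfl | rfl
    · exact ⟨h.uG, h.uv, fun h' => h.uY (hS h')⟩
    · exact ⟨h.xG, h.vx.symm, fun h' => h.xY (hS h')⟩)
  have e2 := h.rk.unit (insert v (insert x (insert y (insert z (Y \ S))))) u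
  rw [Finset.insert_comm v u] at e1
  omega

end Ty

end Pool.Agent.QU
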