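import Pool.Agent.QUB.Lam

/-!
# QUR/TyR: the tiny conflict in rank language

`Ty ρ R u v x y z Y`: a matroid on `{u, v, x, y, z} ∪ Y` without triangles and triads which is 3-connected together with all its single
removals; `{v, x, y, z}` is a circuit and `{u, x, y, z}` is a cocircuit.
-/

set_option autoImplicit false

open QUB

namespace Pool.Agent.QU

variable {E : Type} [DecidableEq E]

/-- the ground set -/
def gT (u v x y z : E) (Y : Finset E) : Finset E := insert u (insert v (insert x (insert y (insert z Y))))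

theorem mem_gT {u v x y z : E} {Y : Finset E} {w : E} : w ∈ gT u v x y z Y ↔ w = u ∨ w = v ∨ w = x ∨ w = y ∨ w = z ∨ w ∈ Y := by
  unfold gT
  simp only [Finset.mem_insert]

/-- the tiny setting -/
structure Ty (ρ : Finset E → ℤ) (R : ℤ) (u v x y z : E) (Y : Finset E) : Prop where
  rk : Rk ρ
  uv : u ≠ v
  ux : u ≠ x
  uy : u ≠ y
  uz : u ≠ z
  vx : v ≠ x
  vy : v ≠ y
  vz : v ≠ z
  xy : x ≠ y
  xz : x ≠ z
  yz : y ≠ z
  uY : u ∉ Y
  vY : v ∉ Y
  xY : x ∉ Y
  yY : y ∉ Y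
  zY : z ∉ Y
  Y5 : 5 ≤ Y.card
  rG : ρ (gT u v x y z Y) = R
  i3 : ∀ Z ⊆ gT u v x y z Y, Z.card ≤ 3 → ρ Z = Z.card
  d3 : ∀ Z ⊆ gT u v x y z Y, Z.card ≤ 3 → ρ (gT u v x y z Y \ Z) = R
  /-- 3-connected -/
  m0 : ∀ A B S T : Finset E, (∀ w ∈ gT u v x y z Y, w ∈ A ∨ w ∈ B) → 2 ≤ S.card → (∀ w ∈ S, w ∈ gT u v x y z Y ∧ w ∉ B) →
    2 ≤ T.card → (∀ w ∈ T, w ∈ gT u v x y z Y ∧ w ∉ A) → R + 2 ≤ ρ A + ρ B
  /-- deletions are 3-connected -/
  md : ∀ a ∈ gT u v x y z Y, ∀ A B S T : Finset E, (∀ w ∈ gT u v x y z Y, w ≠ a → w ∈ A ∨ w ∈ B) → 2 ≤ S.card →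
    (∀ w ∈ S, w ∈ gT u v x y z Y ∧ w ≠ a ∧ w ∉ B) → 2 ≤ T.card → (∀ w ∈ T, w ∈ gT u v x y z Y ∧ w ≠ a ∧ w ∉ A) → R + 2 ≤ ρ A + ρ B
  /-- contractions are 3-connected -/
  mc : ∀ a ∈ gT u v x y z Y, ∀ A B S T : Finset E, (∀ w ∈ gT u v x y z Y, w ≠ a → w ∈ A ∨ w ∈ B) → 2 ≤ S.card →
    (∀ w ∈ S, w ∈ gT u v x y z Y ∧ w ≠ a ∧ w ∉ B) → 2 ≤ T.card → (∀ w ∈ T, w ∈ gT u v x y z Y ∧ w ≠ a ∧ w ∉ A) →
    R + 3 ≤ ρ (insert a A) + ρ (insert a B)
  /-- two removals are connected -/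
  cdd : ∀ a ∈ gT u v x y z Y, ∀ b ∈ gT u v x y z Y, a ≠ b → ∀ A B : Finset E, (∀ w ∈ gT u v x y z Y, w ≠ a → w ≠ b → w ∈ A ∨ w ∈ B) →
    (∃ s ∈ gT u v x y z Y, s ≠ a ∧ s ≠ b ∧ s ∉ B) → (∃ s ∈ gT u v x y z Y, s ≠ a ∧ s ≠ b ∧ s ∉ A) → R + 1 ≤ ρ A + ρ B
  cdc : ∀ a ∈ gT u v x y z Y, ∀ b ∈ gT u v x y z Y, a ≠ b → ∀ A B : Finset E, (∀ w ∈ gT u v x y z Y, w ≠ a → w ≠ b → w ∈ A ∨ w ∈ B) →
    (∃ s ∈ gT u v x y z Y, s ≠ a ∧ s ≠ b ∧ s ∉ B) → (∃ s ∈ gT u v x y z Y, s ≠ a ∧ s ≠ b ∧ s ∉ A) →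
    R + 2 ≤ ρ (insert b A) + ρ (insert b B)
  /-- the circuit -/
  cir : ρ (insert v (insert x (insert y {z}))) = 3
  /-- the cocircuit -/
  coc : ρ (insert v Y) = R - 1

namespace Ty

variable {ρ : Finset E → ℤ} {R : ℤ} {u v x y z : E} {Y : Finset E}

private theorem g1 (u v x y z : E) (Y : Finset E) : gT u v y x z Y = gT u v x y z Y := by
  ext w
  simp only [mem_gT]
  tauto

private theorem g2 (u v x y z : E) (Y : Finset E) : gT u v y z x Y = gT u v x y z Y := by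
  ext w
  simp only [mem_gT]
  tauto

theorem swap (h : Ty ρ R u v x y z Y) : Ty ρ R u v y x z Y := by
  have e := g1 u v x y z Y
  refine ⟨h.rk, h.uv, h.uy, h.ux, h.uz, h.vy, h.vx, h.vz, h.xy.symm, h.yz, h.xz, h.uY, h.vY, h.yY, h.xY, h.zY, h.Y5, ?_, ?_, ?_, ?_, ?_, ?_,
    ?_, ?_, ?_, h.coc⟩
  · rw [e]; exact h.rG
  · rw [e]; exact h.i3
  · rw [e]; exact h.d3
  · rw [e]; exact h.m0
  · rw [e]; exact h.md
  · rw [e]; exact h.mc
  · rw [e]; exact h.cdd
  · rw [e]; exact h.cdc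
  · rw [← h.cir]
    congr 1
    ext w
    simp only [Finset.mem_insert, Finset.mem_singleton]
    tauto

theorem rot (h : Ty ρ R u v x y z Y) : Ty ρ R u v y z x Y := by
  have e := g2 u v x y z Y
  refine ⟨h.rk, h.uv, h.uy, h.uz, h.ux, h.vy, h.vz, h.vx, h.yz, h.xy.symm, h.xz.symm, h.uY, h.vY, h.yY, h.zY, h.xY, h.Y5, ?_, ?_, ?_, ?_, ?_,
    ?_, ?_, ?_, ?_, h.coc⟩
  · rw [e]; exact h.rG
  · rw [e]; exact h.i3
  · rw [e]; exact h.d3
  · rw [e]; exact h.m0
  · rw [e]; exact h.md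
  · rw [e]; exact h.mc
  · rw [e]; exact h.cdd
  · rw [e]; exact h.cdc
  · rw [← h.cir]
    congr 1
    ext w
    simp only [Finset.mem_insert, Finset.mem_singleton]
    tauto

variable (h : Ty ρ R u v x y z Y)
include h

theorem uG : u ∈ gT u v x y z Y := mem_gT.2 (by tauto)
theorem vG : v ∈ gT u v x y z Y := mem_gT.2 (by tauto)
theorem xG : x ∈ gT u v x y z Y := mem_gT.2 (by tauto)
theorem yG : y ∈ gT u v x y z Y := mem_gT.2 (by tauto)
theorem zG : z ∈ gT u v x y z Y := mem_gT.2 (by tauto)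
theorem YG {w : E} (hw : w ∈ Y) : w ∈ gT u v x y z Y := mem_gT.2 (by tauto)

/-- rank of three elements -/
theorem three {a b c : E} (ha : a ∈ gT u v x y z Y) (hb : b ∈ gT u v x y z Y) (hc : c ∈ gT u v x y z Y) (hab : a ≠ b) (hac : a ≠ c)
    (hbc : b ≠ c) : ρ {a, b, c} = 3 := by
  have h1 := h.i3 {a, b, c} (by
    intro w hw
    simp only [Finset.mem_insert, Finset.mem_singleton] at hw
    rcases hw with rfl | rfl | rfl <;> assumption) (by rw [Finset.card_eq_three.2 ⟨a, b, c, hab, hac, hbc, rfl⟩])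
  rw [h1, Finset.card_eq_three.2 ⟨a, b, c, hab, hac, hbc, rfl⟩]
  rfl

/-- rank of two elements -/
theorem two {a b : E} (ha : a ∈ gT u v x y z Y) (hb : b ∈ gT u v x y z Y) (hab : a ≠ b) : ρ {a, b} = 2 := by
  have h1 := h.i3 {a, b} (by
    intro w hw
    simp only [Finset.mem_insert, Finset.mem_singleton] at hw
    rcases hw with rfl | rfl <;> assumption) (by rw [Finset.card_pair hab]; norm_num)
  rw [h1, Finset.card_pair hab]
  rfl

theorem one {a : E} (ha : a ∈ gT u v x y z Y) : ρ {a} = 1 := by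
  have h1 := h.i3 {a} (by
    intro w hw
    rw [Finset.mem_singleton] at hw
    rw [hw]; exact ha) (by rw [Finset.card_singleton]; norm_num)
  rw [h1, Finset.card_singleton]
  rfl

/-- `z` is spanned by `v, x, y` -/
theorem cz {B : Finset E} (h1 : v ∈ B) (h2 : x ∈ B) (h3 : y ∈ B) : ρ (insert z B) = ρ B := by
  have e1 := h.cir
  have e2 := h.three h.vG h.xG h.yG h.vx h.vy h.xy
  have e3 := h.rk.sub (insert v (insert x (insert y {z}))) B
  have e4 := h.rk.mono {v, x, y} (insert v (insert x (insert y {z})) ∩ B) (by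
    intro w hw
    simp only [Finset.mem_insert, Finset.mem_singleton] at hw
    simp only [Finset.mem_inter, Finset.mem_insert, Finset.mem_singleton]
    rcases hw with rfl | rfl | rfl <;> tauto)
  have e5 : insert v (insert x (insert y {z})) ∪ B = insert z B := by
    ext w
    simp only [Finset.mem_union, Finset.mem_insert, Finset.mem_singleton]
    constructor
    · rintro ((rfl | rfl | rfl | rfl) | h) <;> tauto
    · tauto
  have e6 := h.rk.mono B (insert z B) (Finset.subset_insert _ _)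
  rw [e5] at e3
  omega

/-- `v` is spanned by `x, y, z` -/
theorem cv {B : Finset E} (h1 : x ∈ B) (h2 : y ∈ B) (h3 : z ∈ B) : ρ (insert v B) = ρ B := by
  have e1 := h.cir
  have e2 := h.three h.xG h.yG h.zG h.xy h.xz h.yz
  have e3 := h.rk.sub (insert v (insert x (insert y {z}))) B
  have e4 := h.rk.mono {x, y, z} (insert v (insert x (insert y {z})) ∩ B) (by
    intro w hw
    simp only [Finset.mem_insert, Finset.mem_singleton] at hw
    simp only [Finset.mem_inter, Finset.mem_insert, Finset.mem_singleton]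
    rcases hw with rfl | rfl | rfl <;> tauto)
  have e5 : insert v (insert x (insert y {z})) ∪ B = insert v B := by
    ext w
    simp only [Finset.mem_union, Finset.mem_insert, Finset.mem_singleton]
    constructor
    · rintro ((rfl | rfl | rfl | rfl) | h) <;> tauto
    · tauto
  have e6 := h.rk.mono B (insert v B) (Finset.subset_insert _ _)
  rw [e5] at e3
  omega

theorem cy {B : Finset E} (h1 : v ∈ B) (h2 : x ∈ B) (h3 : z ∈ B) : ρ (insert y B) = ρ B := h.rot.rot.cz h1 h3 h2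
theorem cx {B : Finset E} (h1 : v ∈ B) (h2 : y ∈ B) (h3 : z ∈ B) : ρ (insert x B) = ρ B := h.rot.cz h1 h2 h3

/-- the rank of the complement of two elements -/
theorem d2 {a b : E} (ha : a ∈ gT u v x y z Y) (hb : b ∈ gT u v x y z Y) : ρ (gT u v x y z Y \ {a, b}) = R := by
  refine h.d3 _ ?_ ?_
  · intro w hw
    simp only [Finset.mem_insert, Finset.mem_singleton] at hw
    rcases hw with rfl | rfl <;> assumption
  · exact (Finset.card_insert_le _ _).trans (by simp)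

private theorem nn {a : E} (ha : a ∉ insert v Y) (hr : ρ (insert a (insert v Y)) = R) {B : Finset E} (hB : B ⊆ insert v Y) :
    ρ (insert a B) = ρ B + 1 := by
  have e1 := QUB.marg h.rk hB a
  have e2 := h.rk.unit B a
  have e3 := h.coc
  omega

theorem nx {B : Finset E} (hB : B ⊆ insert v Y) : ρ (insert x B) = ρ B + 1 := by
  refine h.nn ?_ ?_ hB
  · rw [Finset.mem_insert, not_or]
    exact ⟨h.vx.symm, h.xY⟩
  · have e := h.d3 {u, y, z} (by
      intro w hw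
      simp only [Finset.mem_insert, Finset.mem_singleton] at hw
      rcases hw with rfl | rfl | rfl
      · exact h.uG
      · exact h.yG
      · exact h.zG) (Finset.card_le_three)
    rw [← e]
    congr 1
    ext w
    simp only [Finset.mem_sdiff, mem_gT, Finset.mem_insert, Finset.mem_singleton]
    have := h.uv; have := h.ux; have := h.vy; have := h.vz; have := h.xy; have := h.xz; have := h.uY; have := h.yY; have := h.zY
    constructor
    · rintro (rfl | rfl | hw)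
      · exact ⟨by tauto, by rintro (h | h | h) <;> simp_all⟩
      · exact ⟨by tauto, by rintro (h | h | h) <;> simp_all⟩
      · exact ⟨by tauto, by rintro (rfl | rfl | rfl) <;> simp_all⟩
    · tauto

theorem ny {B : Finset E} (hB : B ⊆ insert v Y) : ρ (insert y B) = ρ B + 1 := h.rot.nx hB
theorem nz {B : Finset E} (hB : B ⊆ insert v Y) : ρ (insert z B) = ρ B + 1 := h.rot.rot.nx hB

theorem nu {B : Finset E} (hB : B ⊆ insert v Y) : ρ (insert u B) = ρ B + 1 := by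
  refine h.nn ?_ ?_ hB
  · rw [Finset.mem_insert, not_or]
    exact ⟨h.uv, h.uY⟩
  · have e := h.d3 {x, y, z} (by
      intro w hw
      simp only [Finset.mem_insert, Finset.mem_singleton] at hw
      rcases hw with rfl | rfl | rfl
      · exact h.xG
      · exact h.yG
      · exact h.zG) (Finset.card_le_three)
    rw [← e]
    congr 1
    ext w
    simp only [Finset.mem_sdiff, mem_gT, Finset.mem_insert, Finset.mem_singleton]
    have := h.ux; have := h.uy; have := h.uz; have := h.vx; have := h.vy; have := h.vz; have := h.xY; have := h.yY; have := h.zY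
    constructor
    · rintro (rfl | rfl | hw)
      · exact ⟨by tauto, by rintro (h | h | h) <;> simp_all⟩
      · exact ⟨by tauto, by rintro (h | h | h) <;> simp_all⟩
      · exact ⟨by tauto, by rintro (rfl | rfl | rfl) <;> simp_all⟩
    · tauto

end Ty

/-- `A ⊔ B` is the ground set without `a` and `b` -/
structure Pr (G : Finset E) (a b : E) (A B : Finset E) : Prop where
  sA : A ⊆ G
  sB : B ⊆ G
  aA : a ∉ A
  aB : a ∉ B
  bA : b ∉ A
  bB : b ∉ B
  cov : ∀ w ∈ G, w ≠ a → w ≠ b → w ∈ A ∨ w ∈ B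
  dis : ∀ w ∈ A, w ∉ B

theorem Pr.symm {G : Finset E} {a b : E} {A B : Finset E} (h : Pr G a b A B) : Pr G a b B A :=
  ⟨h.sB, h.sA, h.aB, h.aA, h.bB, h.bA, fun w h1 h2 h3 => (h.cov w h1 h2 h3).symm, fun w h1 h2 => h.dis w h2 h1⟩

theorem Pr.swap {G : Finset E} {a b : E} {A B : Finset E} (h : Pr G a b A B) : Pr G b a A B :=
  ⟨h.sA, h.sB, h.bA, h.bB, h.aA, h.aB, fun w h1 h2 h3 => h.cov w h1 h3 h2, h.dis⟩

/-- `(S | rest)` is a 2-separation of `M \ u / v` -/
def Old (ρ : Finset E → ℤ) (R : ℤ) (v x y z : E) (Y S : Finset E) : Prop :=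
  ρ (insert v S) + ρ (insert v (insert x (insert y (insert z (Y \ S))))) ≤ R + 2

/-- `Z` is the part in `Y` of a 2-side of `M \ x / y` -/
structure Dirty (ρ : Finset E → ℤ) (R : ℤ) (u v x y z : E) (Y Z : Finset E) : Prop where
  sub : Z ⊆ Y
  one : 1 ≤ Z.card
  two : 2 ≤ (Y \ Z).card
  sep : ρ (insert y (insert u (insert v Z))) + ρ (insert y (insert z (Y \ Z))) ≤ R + 2

/-- a good element of type deletion -/
structure GfD (ρ : Finset E → ℤ) (R : ℤ) (u v x y z : E) (Y : Finset E) (f : E) : Prop where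
  mem : f ∈ Y
  cn : ∀ A B : Finset E, (∀ w ∈ gT u v x y z Y, w ≠ u → w ≠ v → w ≠ f → w ∈ A ∨ w ∈ B) →
    (∃ s ∈ gT u v x y z Y, s ≠ u ∧ s ≠ v ∧ s ≠ f ∧ s ∉ B) → (∃ s ∈ gT u v x y z Y, s ≠ u ∧ s ≠ v ∧ s ≠ f ∧ s ∉ A) →
    R + 2 ≤ ρ (insert v A) + ρ (insert v B)
  old : ∀ S ⊆ Y.erase f, 3 ≤ S.card → S ≠ Y.erase f →
    ρ (insert v S) + ρ (insert v (insert x (insert y (insert z (Y.erase f \ S))))) ≤ R + 2 → Old ρ R v x y z Y S
  two : ∀ S ⊆ Y.erase f, S.card = 2 → (Y.erase f \ S).card = 2 →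
    R + 3 ≤ ρ (insert v S) + ρ (insert v (insert x (insert y (insert z (Y.erase f \ S)))))

/-- a good element of type contraction -/
structure GfC (ρ : Finset E → ℤ) (R : ℤ) (u v x y z : E) (Y : Finset E) (f : E) : Prop where
  mem : f ∈ Y
  cn : ∀ A B : Finset E, (∀ w ∈ gT u v x y z Y, w ≠ u → w ≠ v → w ≠ f → w ∈ A ∨ w ∈ B) →
    (∃ s ∈ gT u v x y z Y, s ≠ u ∧ s ≠ v ∧ s ≠ f ∧ s ∉ B) → (∃ s ∈ gT u v x y z Y, s ≠ u ∧ s ≠ v ∧ s ≠ f ∧ s ∉ A) →
    R + 3 ≤ ρ (insert f (insert v A)) + ρ (insert f (insert v B))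
  old : ∀ S ⊆ Y.erase f, 3 ≤ S.card → S ≠ Y.erase f →
    ρ (insert f (insert v S)) + ρ (insert f (insert v (insert x (insert y (insert z (Y.erase f \ S)))))) ≤ R + 3 → Old ρ R v x y z Y S
  two : ∀ S ⊆ Y.erase f, S.card = 2 → (Y.erase f \ S).card = 2 →
    R + 4 ≤ ρ (insert f (insert v S)) + ρ (insert f (insert v (insert x (insert y (insert z (Y.erase f \ S))))))

end Pool.Agent.QU
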