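import Pool.Agent.QUP.Ch
import Pool.Agent.QUT.Rcf
import Pool.Agent.QUT.Csm

/-!
# QUR/TySt: one base hub `u\`: points and lines

`Ef w`: a form of `V(M\w)` agrees with `Tu` on `M\u\w`.  `Eu T w`: `T` agrees with `Tu` on `M\u` and is in `V(M\w)`.
`ty_core`: two forms which agree on `M\u` and are in `V(M/g)` differ by `m c_g d_u` (up to a diagonal form).
`star_c`, `fsl1`, `fsl2`: closures.
-/

set_option autoImplicit false

namespace Pool.Agent.QU

open QUB (Cn Ok Rk)
open Pool.Agent.FRM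

variable {E : Type} [Fintype E] [DecidableEq E]

/-- a form of `V(M\w)` agrees with `Tu` on `M\u\w` -/
def Ef (S : TP F4 E) (p : Itv E) (u : E) (Tu : Fm F4 E) (w : E) : Prop :=
  ∃ Tw, InVs S (rm true w p) Tw ∧ EqD S.U S.W (rm true u (rm true w p)) Tu Tw

/-- `T` agrees with `Tu` on `M\u` and is in `V(M\w)` -/
structure Eu (S : TP F4 E) (p : Itv E) (u : E) (Tu T : Fm F4 E) (w : E) : Prop where
  eu : EqD S.U S.W (rm true u p) T Tu
  iw : InV S.U S.W (rm true w p) T

/-- `D` is `m c_g d_u` up to a diagonal form -/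
def Dl (S : TP F4 E) (p : Itv E) (u g : E) (D : Fm F4 E) (m : F4) : Prop :=
  ∃ l : E → F4, ∀ c ∈ van S.U p.1, ∀ d ∈ spt S.W p.2, D c d = dg l c d + m * (c g * d u)

variable {S : TP F4 E} {p : Itv E}

theorem ef_ex {u w : E} {Tu : Fm F4 E} (h : Ef S p u Tu w) : ∃ T, Eu S p u Tu T w := by
  obtain ⟨Tw, h1, l, hl⟩ := h
  obtain ⟨T, hTa, hTb⟩ := glue_rm true true u w p Tu (Tw + dg l) hl
  exact ⟨T, hTa.eqD, h1.1.congrD ⟨_, hTb⟩⟩

theorem Dl.eqd {u g : E} {D : Fm F4 E} (h : Dl S p u g D 0) : EqD S.U S.W p D 0 := by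
  obtain ⟨l, hl⟩ := h
  refine ⟨l, fun c hc d hd => ?_⟩
  rw [hl c hc d hd, LinearMap.add_apply, LinearMap.add_apply, LinearMap.zero_apply, LinearMap.zero_apply]
  ring

omit [Fintype E] in
private theorem tys_mem {p : Itv E} {a b : E} {s : Bool} (hab : a ≠ b) (ha : a ∈ gs p) : a ∈ gs (rm s b p) := by
  rw [gs_rm]
  exact Finset.mem_erase.2 ⟨hab, ha⟩

/-- **core**: `D` is diagonal on `M\u` and in `V(M/g)` -/
theorem ty_core (h : Cv S p) {u g : E} (mu : u ∈ gs p) (mg : g ∈ gs p) (hug : u ≠ g) {D : Fm F4 E}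
    (e1 : EqD S.U S.W (rm true u p) D 0) (i1 : InV S.U S.W (rm false g p) D) (R : HasRich S.r (rm true u (rm false g p))) :
    ∃ m, Dl S p u g D m := by
  have s1 : Sub (rm true u (rm false g p)) (rm true u p) := (rm_sub false g p).rm true u
  have s2 : Sub (rm true u (rm false g p)) (rm false g p) := rm_sub true u _
  have w2 : (rm false g p).1 ⊆ (rm false g p).2 := QUB.wf_rm h.hp mg
  have w12 : (rm true u (rm false g p)).1 ⊆ (rm true u (rm false g p)).2 := QUB.wf_rm w2 (tys_mem hug mu)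
  have e2 : EqD S.U S.W (rm false g p) D 0 := by
    obtain ⟨N, hN1, hN2⟩ := R
    exact thmU S h.nu (rm false g p) w2 (h.cn1 mg false) (csm_ok (h.th g mg false)) i1
      (Or.inl ⟨N, s2.trans hN1, hN2, e1.mono (s1.trans hN1)⟩)
  obtain ⟨l0, h0⟩ := e1
  obtain ⟨l1, h1⟩ := e2
  have hd : ∀ x ∈ gs (rm true u (rm false g p)), (l1 - l0) x = 0 := by
    refine hom_cn S w12 (h.cn2 mu mg hug true false) (hasLn_of_rich R) fun c hc d hd => ?_
    have a1 := (h0.mono s1) c hc d hd
    have a2 := (h1.mono s2) c hc d hd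
    rw [a1] at a2
    rw [dg_sub, LinearMap.sub_apply, LinearMap.sub_apply, LinearMap.zero_apply, LinearMap.zero_apply]
    rw [LinearMap.add_apply, LinearMap.add_apply, LinearMap.add_apply, LinearMap.add_apply] at a2
    linear_combination (-1 : F4) * a2
  have b0 : EqOn S.U S.W (rm true u p) (dg (Function.update l0 u (l1 u))) (dg l0) := by
    refine dg_congr fun x hx => ?_
    rw [gs_rm] at hx
    rw [Function.update_of_ne (Finset.mem_erase.1 hx).1]
  have b1 : EqOn S.U S.W (rm false g p) (dg (Function.update l0 u (l1 u))) (dg l1) := by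
    refine dg_congr fun x hx => ?_
    by_cases hxu : x = u
    · rw [hxu, Function.update_self]
    · rw [Function.update_of_ne hxu]
      have := hd x (by
        rw [gs_rm]
        exact Finset.mem_erase.2 ⟨hxu, hx⟩)
      rw [Pi.sub_apply] at this
      exact (sub_eq_zero.1 this).symm
  have n4 : 4 ≤ (gs p).card := by
    have := h.hn
    omega
  obtain ⟨c0, hc0, hc1⟩ := S.van_one (th3_con1 S.rk h.hp h.h3 n4 mg)
  obtain ⟨d0, hd0, hd1⟩ := S.spt_one (Finset.mem_sdiff.1 mu).1 (th3_del1 S.rk h.hp h.h3 n4 mu)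
  refine ⟨(D - dg (Function.update l0 u (l1 u))) c0 d0, Function.update l0 u (l1 u), fun c hc d hd => ?_⟩
  have z0 : ∀ c ∈ van S.U p.1, ∀ d ∈ spt S.W p.2, d u = 0 → (D - dg (Function.update l0 u (l1 u))) c d = 0 := by
    intro c hc d hd hdu
    have hd' : d ∈ spt S.W (rm true u p).2 := by
      refine ⟨hd.1, fun y hy => ?_⟩
      rw [rm_true] at hy
      by_cases hyu : y = u
      · rw [hyu, hdu]
      · exact hd.2 y fun h2 => hy (Finset.mem_erase.2 ⟨hyu, h2⟩)
    have a1 := h0 c hc d hd'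
    have a2 := b0 c hc d hd'
    rw [LinearMap.add_apply, LinearMap.add_apply, LinearMap.zero_apply, LinearMap.zero_apply, zero_add] at a1
    rw [LinearMap.sub_apply, LinearMap.sub_apply, a1, a2, sub_self]
  have z1 : ∀ c ∈ van S.U p.1, ∀ d ∈ spt S.W p.2, c g = 0 → (D - dg (Function.update l0 u (l1 u))) c d = 0 := by
    intro c hc d hd hcg
    have hc' : c ∈ van S.U (rm false g p).1 := by
      refine ⟨hc.1, fun y hy => ?_⟩
      rw [rm_false] at hy
      rcases Finset.mem_insert.1 hy with h2 | h2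
      · rw [h2, hcg]
      · exact hc.2 y h2
    have a1 := h1 c hc' d hd
    have a2 := b1 c hc' d hd
    rw [LinearMap.add_apply, LinearMap.add_apply, LinearMap.zero_apply, LinearMap.zero_apply, zero_add] at a1
    rw [LinearMap.sub_apply, LinearMap.sub_apply, a1, a2, sub_self]
  generalize (dg (Function.update l0 u (l1 u)) : Fm F4 E) = G at *
  have k1 : (D - G) (c - c g • c0) d = 0 := by
    refine z1 _ ((van S.U p.1).sub_mem hc ((van S.U p.1).smul_mem _ hc0)) d hd ?_
    rw [Pi.sub_apply, Pi.smul_apply, hc1, smul_eq_mul, mul_one, sub_self]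
  have k2 : (D - G) c0 (d - d u • d0) = 0 := by
    refine z0 _ hc0 _ ((spt S.W p.2).sub_mem hd ((spt S.W p.2).smul_mem _ hd0)) ?_
    rw [Pi.sub_apply, Pi.smul_apply, hd1, smul_eq_mul, mul_one, sub_self]
  rw [map_sub, map_smul, LinearMap.sub_apply, LinearMap.smul_apply, smul_eq_mul] at k1
  rw [map_sub, map_smul, smul_eq_mul] at k2
  have k3 : (D - G) c d = D c d - G c d := by
    rw [LinearMap.sub_apply, LinearMap.sub_apply]
  rw [k3] at k1
  linear_combination k1 + c g * k2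

/-- a target of type `/` of the hubs `u\` and `w\` -/
theorem ty_tg (h : Cv S p) {u w g : E} (mu : u ∈ gs p) (mw : w ∈ gs p) (mg : g ∈ gs p) (huw : u ≠ w) (hug : u ≠ g) (hwg : w ≠ g)
    {Tu T : Fm F4 E} (iu : InV S.U S.W (rm true u p) Tu) (e : Eu S p u Tu T w) (o1 : Ok S.r (rm true u (rm false g p)))
    (o2 : Ok S.r (rm true w (rm false g p))) (c : Cn S.r (rm true u (rm true w (rm false g p))))
    (R : HasRich S.r (rm true u (rm true w (rm false g p)))) : InV S.U S.W (rm false g p) T :=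
  h.third mu mw mg huw hug hwg (iu.congrD e.eu) e.iw o1 o2 c R

/-- two points on a line -/
theorem ty_line (h : Cv S p) {u g w w' : E} (mu : u ∈ gs p) (mg : g ∈ gs p) (hug : u ≠ g) {Tu T T' : Fm F4 E}
    (e : Eu S p u Tu T w) (e' : Eu S p u Tu T' w') (i : InV S.U S.W (rm false g p) T) (i' : InV S.U S.W (rm false g p) T')
    (R : HasRich S.r (rm true u (rm false g p))) : ∃ m, Dl S p u g (T - T') m := by
  refine ty_core h mu mg hug ?_ (i.sub i') R
  have := EqD.sub e.eu e'.eu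
  obtain ⟨l, hl⟩ := this
  refine ⟨l, fun c hc d hd => ?_⟩
  rw [hl c hc d hd, show Tu - Tu = (0 : Fm F4 E) from sub_self Tu]

/-- a linear relation of `g1`, `g2`, `g3`, `u` -/
theorem ty_zero (h : Cv S p) {u g1 g2 g3 : E} (mu : u ∈ gs p) (R : HasRich S.r (rm true u p)) {l : E → F4} {m1 m2 m3 : F4}
    (key : ∀ c ∈ van S.U p.1, ∀ d ∈ spt S.W p.2, dg l c d + (m1 * c g1 + m2 * c g2 + m3 * c g3) * d u = 0) :
    ∀ c ∈ van S.U p.1, m1 * c g1 + m2 * c g2 + m3 * c g3 + l u * c u = 0 := by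
  have n4 : 4 ≤ (gs p).card := by
    have := h.hn
    omega
  have h0 : ∀ x ∈ gs (rm true u p), l x = 0 := by
    refine hom_cn S (QUB.wf_rm h.hp mu) (h.cn1 mu true) (hasLn_of_rich R) fun c hc d hd => ?_
    have hd' : d ∈ spt S.W p.2 := ⟨hd.1, fun y hy => hd.2 y fun h2 => hy (Finset.mem_erase.1 h2).2⟩
    have hdu : d u = 0 := hd.2 u (Finset.notMem_erase u p.2)
    have := key c hc d hd'
    rw [hdu, mul_zero, add_zero] at this
    rw [this, LinearMap.zero_apply, LinearMap.zero_apply]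
  have h1 : EqOn S.U S.W p (dg l) (dg (Pi.single u (l u))) := by
    refine dg_congr fun x hx => ?_
    by_cases hxu : x = u
    · rw [hxu, Pi.single_eq_same]
    · rw [Pi.single_eq_of_ne hxu]
      refine h0 x ?_
      rw [gs_rm]
      exact Finset.mem_erase.2 ⟨hxu, hx⟩
  obtain ⟨d0, hd0, hd1⟩ := S.spt_one (Finset.mem_sdiff.1 mu).1 (th3_del1 S.rk h.hp h.h3 n4 mu)
  intro c hc
  have := key c hc d0 hd0
  rw [h1 c hc d0 hd0, dg_single, hd1] at this
  linear_combination this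

/-- the first coefficient of a linear relation vanishes -/
theorem ty_ind {u g1 g2 g3 : E} {m1 m2 m3 m4 : F4} (hr : S.r (insert g1 (insert g2 (insert g3 (insert u p.1)))) =
      S.r (insert g2 (insert g3 (insert u p.1))) + 1)
    (key : ∀ c ∈ van S.U p.1, m1 * c g1 + m2 * c g2 + m3 * c g3 + m4 * c u = 0) : m1 = 0 := by
  obtain ⟨c, hc, hc1⟩ := S.van_one hr
  have a2 : c g2 = 0 := hc.2 g2 (Finset.mem_insert_self _ _)
  have a3 : c g3 = 0 := hc.2 g3 (Finset.mem_insert_of_mem (Finset.mem_insert_self _ _))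
  have a4 : c u = 0 := hc.2 u (Finset.mem_insert_of_mem (Finset.mem_insert_of_mem (Finset.mem_insert_self _ _)))
  have hc' : c ∈ van S.U p.1 :=
    ⟨hc.1, fun y hy => hc.2 y (Finset.mem_insert_of_mem (Finset.mem_insert_of_mem (Finset.mem_insert_of_mem hy)))⟩
  have := key c hc'
  rw [a2, a3, a4, hc1] at this
  linear_combination this

/-- `T` in `V(M\w)` and in `V(M/w)` -/
theorem ty_fin {u w : E} {Tu T : Fm F4 E} (iu : InVs S (rm true u p) Tu) (R : HasRich S.r (rm true u p))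
    (e : Eu S p u Tu T w) (i : InV S.U S.W (rm false w p) T) : ∃ T : Fm F4 E, InV S.U S.W p T ∧ ¬ EqD S.U S.W p T 0 := by
  refine ⟨T, inV_of_rm e.iw i, fun h0 => ?_⟩
  obtain ⟨N, h1, h2⟩ := R
  exact iu.2 N h1 h2 ((e.eu.symm.mono h1).trans (h0.mono ((rm_sub true u p).trans h1)))

/-- the difference of two forms -/
theorem ty_sub {T T' : Fm F4 E} (h : EqD S.U S.W p (T - T') 0) : EqD S.U S.W p T T' := by
  obtain ⟨l, hl⟩ := h
  refine ⟨l, fun c hc d hd => ?_⟩
  have := hl c hc d hd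
  rw [LinearMap.sub_apply, LinearMap.sub_apply, LinearMap.add_apply, LinearMap.add_apply, LinearMap.zero_apply, LinearMap.zero_apply] at this
  rw [LinearMap.add_apply, LinearMap.add_apply]
  linear_combination this

/-- **two lines through the points of `w\` and `w'\`** -/
theorem ty_two (h : Cv S p) {u g1 g2 w w' : E} (mu : u ∈ gs p) (mg1 : g1 ∈ gs p) (mg2 : g2 ∈ gs p) (hu1 : u ≠ g1) (hu2 : u ≠ g2)
    (h12 : g1 ≠ g2) {Tu T T' : Fm F4 E} (e : Eu S p u Tu T w) (e' : Eu S p u Tu T' w')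
    (i1 : InV S.U S.W (rm false g1 p) T) (i1' : InV S.U S.W (rm false g1 p) T')
    (i2 : InV S.U S.W (rm false g2 p) T) (i2' : InV S.U S.W (rm false g2 p) T')
    (R1 : HasRich S.r (rm true u (rm false g1 p))) (R2 : HasRich S.r (rm true u (rm false g2 p))) : EqD S.U S.W p T T' := by
  obtain ⟨m1, l1, k1⟩ := ty_line h mu mg1 hu1 e e' i1 i1' R1
  obtain ⟨m2, l2, k2⟩ := ty_line h mu mg2 hu2 e e' i2 i2' R2
  have R : HasRich S.r (rm true u p) := by
    obtain ⟨N, h1, h2⟩ := R1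
    exact ⟨N, ((rm_sub false g1 p).rm true u).trans h1, h2⟩
  have z := ty_zero (g1 := g1) (g2 := g2) (g3 := u) (m1 := m1) (m2 := -m2) (m3 := 0) (l := l1 - l2) h mu R (by
    intro c hc d hd
    have a1 := k1 c hc d hd
    have a2 := k2 c hc d hd
    rw [a2] at a1
    rw [dg_sub, LinearMap.sub_apply, LinearMap.sub_apply]
    linear_combination (-1 : F4) * a1)
  have hm : m1 = 0 := by
    refine ty_ind (S := S) (p := p) (u := u) (g1 := g1) (g2 := g2) (g3 := u) ?_ z
    obtain ⟨e1, e2, -⟩ := h.nt.ins S.rk mg1 mg2 mu h12 hu1.symm hu2.symm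
    rw [Finset.insert_idem]
    omega
  refine ty_sub (Dl.eqd (u := u) (g := g1) (hm ▸ ⟨l1, k1⟩))

/-- **fsl1** (with any two lines through the points of `y\` and `z\`) -/
theorem fsl1 (h : Cv S p) {u g1 g2 y z : E} (mu : u ∈ gs p) (mg1 : g1 ∈ gs p) (mg2 : g2 ∈ gs p) (my : y ∈ gs p) (mz : z ∈ gs p)
    (hu1 : u ≠ g1) (hu2 : u ≠ g2) (h12 : g1 ≠ g2) (huy : u ≠ y) (huz : u ≠ z) (hyz : y ≠ z) (hy1 : y ≠ g1) (hy2 : y ≠ g2)
    (hz1 : z ≠ g1) (hz2 : z ≠ g2) {Tu : Fm F4 E} (iu : InVs S (rm true u p) Tu) (ey : Ef S p u Tu y) (ez : Ef S p u Tu z)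
    (o1 : Ok S.r (rm true u (rm false g1 p))) (o2 : Ok S.r (rm true u (rm false g2 p))) (o3 : Ok S.r (rm true u (rm false z p)))
    (oy1 : Ok S.r (rm true y (rm false g1 p))) (oy2 : Ok S.r (rm true y (rm false g2 p))) (oyz : Ok S.r (rm true y (rm false z p)))
    (oz1 : Ok S.r (rm true z (rm false g1 p))) (oz2 : Ok S.r (rm true z (rm false g2 p)))
    (cy1 : Cn S.r (rm true u (rm true y (rm false g1 p)))) (ry1 : HasRich S.r (rm true u (rm true y (rm false g1 p))))
    (cy2 : Cn S.r (rm true u (rm true y (rm false g2 p)))) (ry2 : HasRich S.r (rm true u (rm true y (rm false g2 p))))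
    (cyz : Cn S.r (rm true u (rm true y (rm false z p)))) (ryz : HasRich S.r (rm true u (rm true y (rm false z p))))
    (cz1 : Cn S.r (rm true u (rm true z (rm false g1 p)))) (rz1 : HasRich S.r (rm true u (rm true z (rm false g1 p))))
    (cz2 : Cn S.r (rm true u (rm true z (rm false g2 p)))) (rz2 : HasRich S.r (rm true u (rm true z (rm false g2 p)))) :
    ∃ T : Fm F4 E, InV S.U S.W p T ∧ ¬ EqD S.U S.W p T 0 := by
  obtain ⟨T, e⟩ := ef_ex ey
  obtain ⟨T', e'⟩ := ef_ex ez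
  have hR : ∀ {a b : E} , HasRich S.r (rm true u (rm true a (rm false b p))) → HasRich S.r (rm true u (rm false b p)) := by
    rintro a b ⟨N, h1, h2⟩
    exact ⟨N, ((rm_sub true a _).rm true u).trans h1, h2⟩
  have hR' : HasRich S.r (rm true u p) := by
    obtain ⟨N, h1, h2⟩ := hR ry1
    exact ⟨N, ((rm_sub false g1 p).rm true u).trans h1, h2⟩
  have e12 : EqD S.U S.W p T T' :=
    ty_two h mu mg1 mg2 hu1 hu2 h12 e e'
      (ty_tg h mu my mg1 huy hu1 hy1 iu.1 e o1 oy1 cy1 ry1) (ty_tg h mu mz mg1 huz hu1 hz1 iu.1 e' o1 oz1 cz1 rz1)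
      (ty_tg h mu my mg2 huy hu2 hy2 iu.1 e o2 oy2 cy2 ry2) (ty_tg h mu mz mg2 huz hu2 hz2 iu.1 e' o2 oz2 cz2 rz2)
      (hR ry1) (hR ry2)
  have i3 := ty_tg h mu my mz huy huz hyz iu.1 e o3 oyz cyz ryz
  exact ty_fin iu hR' e' (i3.congrD (e12.symm.mono (rm_sub false z p)))

/-- three points, the difference of any two lies in a direction -/
theorem ty_tri (h : Cv S p) {u g1 g2 g3 : E} (mu : u ∈ gs p) (R : HasRich S.r (rm true u p))
    (hr : S.r (insert g1 (insert g2 (insert g3 (insert u p.1)))) = S.r p.1 + 4) {T1 T2 T3 : Fm F4 E} {m1 m2 m3 : F4}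
    (k3 : Dl S p u g3 (T1 - T2) m3) (k1 : Dl S p u g1 (T2 - T3) m1) (k2 : Dl S p u g2 (T3 - T1) m2) :
    m1 = 0 ∧ m2 = 0 ∧ m3 = 0 := by
  obtain ⟨l3, k3⟩ := k3
  obtain ⟨l1, k1⟩ := k1
  obtain ⟨l2, k2⟩ := k2
  have z := ty_zero (g1 := g1) (g2 := g2) (g3 := g3) (m1 := m1) (m2 := m2) (m3 := m3) (l := l1 + (l2 + l3)) h mu R (by
    intro c hc d hd
    have a1 := k1 c hc d hd
    have a2 := k2 c hc d hd
    have a3 := k3 c hc d hd
    rw [LinearMap.sub_apply, LinearMap.sub_apply] at a1 a2 a3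
    rw [dg_add, dg_add, LinearMap.add_apply, LinearMap.add_apply, LinearMap.add_apply, LinearMap.add_apply]
    linear_combination (-1 : F4) * a1 - a2 - a3)
  have u1 := S.rk.unit p.1 u
  have u2 := S.rk.unit (insert u p.1) g3
  have u3 := S.rk.unit (insert g3 (insert u p.1)) g2
  have u4 := S.rk.unit (insert g2 (insert g3 (insert u p.1))) g1
  have e2 : insert g2 (insert g1 (insert g3 (insert u p.1))) = insert g1 (insert g2 (insert g3 (insert u p.1))) := Finset.insert_comm _ _ _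
  have e3 : insert g3 (insert g1 (insert g2 (insert u p.1))) = insert g1 (insert g2 (insert g3 (insert u p.1))) := by
    rw [Finset.insert_comm g3 g1, Finset.insert_comm g3 g2]
  have v3 := S.rk.unit (insert g3 (insert u p.1)) g1
  have v4 := S.rk.unit (insert g1 (insert g3 (insert u p.1))) g2
  have w2 := S.rk.unit (insert u p.1) g2
  have w3 := S.rk.unit (insert g2 (insert u p.1)) g1
  have w4 := S.rk.unit (insert g1 (insert g2 (insert u p.1))) g3
  rw [e2] at v4
  rw [e3] at w4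
  refine ⟨ty_ind (S := S) (p := p) (u := u) (g1 := g1) (g2 := g2) (g3 := g3) (by omega) z, ?_, ?_⟩
  · refine ty_ind (S := S) (p := p) (u := u) (g1 := g2) (g2 := g1) (g3 := g3) (m2 := m1) (m3 := m3) (m4 := (l1 + (l2 + l3)) u) ?_ ?_
    · rw [e2]
      omega
    · intro c hc
      linear_combination z c hc
  · refine ty_ind (S := S) (p := p) (u := u) (g1 := g3) (g2 := g1) (g3 := g2) (m2 := m1) (m3 := m2) (m4 := (l1 + (l2 + l3)) u) ?_ ?_
    · rw [e3]
      omega
    · intro c hc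
      linear_combination z c hc

/-- **fsl2**: `T^x - T^y` in the direction `z`, `T^x - T^z` in the direction `y`, `T^y - T^z` in the direction `g` -/
theorem fsl2 (h : Cv S p) {u g x y z : E} (mu : u ∈ gs p) (mg : g ∈ gs p) (mx : x ∈ gs p) (my : y ∈ gs p) (mz : z ∈ gs p)
    (hug : u ≠ g) (hux : u ≠ x) (huy : u ≠ y) (huz : u ≠ z) (hxy : x ≠ y) (hxz : x ≠ z) (hyz : y ≠ z) (hyg : y ≠ g) (hzg : z ≠ g)
    (hr : S.r (insert g (insert y (insert z (insert u p.1)))) = S.r p.1 + 4)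
    {Tu : Fm F4 E} (iu : InVs S (rm true u p) Tu) (ex : Ef S p u Tu x) (ey : Ef S p u Tu y) (ez : Ef S p u Tu z)
    (og : Ok S.r (rm true u (rm false g p))) (oy : Ok S.r (rm true u (rm false y p))) (oz : Ok S.r (rm true u (rm false z p)))
    (oyg : Ok S.r (rm true y (rm false g p))) (ozg : Ok S.r (rm true z (rm false g p)))
    (oxz : Ok S.r (rm true x (rm false z p))) (oyz : Ok S.r (rm true y (rm false z p)))
    (oxy : Ok S.r (rm true x (rm false y p))) (ozy : Ok S.r (rm true z (rm false y p)))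
    (cyg : Cn S.r (rm true u (rm true y (rm false g p)))) (ryg : HasRich S.r (rm true u (rm true y (rm false g p))))
    (czg : Cn S.r (rm true u (rm true z (rm false g p)))) (rzg : HasRich S.r (rm true u (rm true z (rm false g p))))
    (cxz : Cn S.r (rm true u (rm true x (rm false z p)))) (rxz : HasRich S.r (rm true u (rm true x (rm false z p))))
    (cyz : Cn S.r (rm true u (rm true y (rm false z p)))) (ryz : HasRich S.r (rm true u (rm true y (rm false z p))))
    (cxy : Cn S.r (rm true u (rm true x (rm false y p)))) (rxy : HasRich S.r (rm true u (rm true x (rm false y p))))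
    (czy : Cn S.r (rm true u (rm true z (rm false y p)))) (rzy : HasRich S.r (rm true u (rm true z (rm false y p)))) :
    ∃ T : Fm F4 E, InV S.U S.W p T ∧ ¬ EqD S.U S.W p T 0 := by
  obtain ⟨T1, e1⟩ := ef_ex ex
  obtain ⟨T2, e2⟩ := ef_ex ey
  obtain ⟨T3, e3⟩ := ef_ex ez
  have hR : ∀ {a b : E} , HasRich S.r (rm true u (rm true a (rm false b p))) → HasRich S.r (rm true u (rm false b p)) := by
    rintro a b ⟨N, h1, h2⟩
    exact ⟨N, ((rm_sub true a _).rm true u).trans h1, h2⟩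
  have hR' : HasRich S.r (rm true u p) := by
    obtain ⟨N, h1, h2⟩ := hR ryz
    exact ⟨N, ((rm_sub false z p).rm true u).trans h1, h2⟩
  have j1z := ty_tg h mu mx mz hux huz hxz iu.1 e1 oz oxz cxz rxz
  have j1y := ty_tg h mu mx my hux huy hxy iu.1 e1 oy oxy cxy rxy
  have j2z := ty_tg h mu my mz huy huz hyz iu.1 e2 oz oyz cyz ryz
  have j2g := ty_tg h mu my mg huy hug hyg iu.1 e2 og oyg cyg ryg
  have j3y := ty_tg h mu mz my huz huy hyz.symm iu.1 e3 oy ozy czy rzy
  have j3g := ty_tg h mu mz mg huz hug hzg iu.1 e3 og ozg czg rzg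
  obtain ⟨m3, k3⟩ := ty_line h mu mz huz e1 e2 j1z j2z (hR ryz)
  obtain ⟨m1, k1⟩ := ty_line h mu mg hug e2 e3 j2g j3g (hR ryg)
  obtain ⟨m2, k2⟩ := ty_line h mu my huy e3 e1 j3y j1y (hR rxy)
  obtain ⟨a1, a2, a3⟩ := ty_tri h mu hR' hr k3 k1 k2
  have e23 : EqD S.U S.W p T2 T3 := ty_sub (Dl.eqd (u := u) (g := g) (a1 ▸ k1))
  exact ty_fin iu hR' e3 (j2z.congrD (e23.symm.mono (rm_sub false z p)))

/-- **star_c**: all six pairs -/
theorem star_c (h : Cv S p) {u x y z : E} (mu : u ∈ gs p) (mx : x ∈ gs p) (my : y ∈ gs p) (mz : z ∈ gs p)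
    (hux : u ≠ x) (huy : u ≠ y) (huz : u ≠ z) (hxy : x ≠ y) (hxz : x ≠ z) (hyz : y ≠ z)
    (hr : S.r (insert x (insert y (insert z (insert u p.1)))) = S.r p.1 + 4)
    {Tu : Fm F4 E} (iu : InVs S (rm true u p) Tu) (ex : Ef S p u Tu x) (ey : Ef S p u Tu y) (ez : Ef S p u Tu z)
    (ox : Ok S.r (rm true u (rm false x p))) (oy : Ok S.r (rm true u (rm false y p))) (oz : Ok S.r (rm true u (rm false z p)))
    (oyx : Ok S.r (rm true y (rm false x p))) (ozx : Ok S.r (rm true z (rm false x p)))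
    (oxz : Ok S.r (rm true x (rm false z p))) (oyz : Ok S.r (rm true y (rm false z p)))
    (oxy : Ok S.r (rm true x (rm false y p))) (ozy : Ok S.r (rm true z (rm false y p)))
    (cyx : Cn S.r (rm true u (rm true y (rm false x p)))) (ryx : HasRich S.r (rm true u (rm true y (rm false x p))))
    (czx : Cn S.r (rm true u (rm true z (rm false x p)))) (rzx : HasRich S.r (rm true u (rm true z (rm false x p))))
    (cxz : Cn S.r (rm true u (rm true x (rm false z p)))) (rxz : HasRich S.r (rm true u (rm true x (rm false z p))))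
    (cyz : Cn S.r (rm true u (rm true y (rm false z p)))) (ryz : HasRich S.r (rm true u (rm true y (rm false z p))))
    (cxy : Cn S.r (rm true u (rm true x (rm false y p)))) (rxy : HasRich S.r (rm true u (rm true x (rm false y p))))
    (czy : Cn S.r (rm true u (rm true z (rm false y p)))) (rzy : HasRich S.r (rm true u (rm true z (rm false y p)))) :
    ∃ T : Fm F4 E, InV S.U S.W p T ∧ ¬ EqD S.U S.W p T 0 :=
  fsl2 h mu mx mx my mz hux hux huy huz hxy hxz hyz hxy.symm hxz.symm hr iu ex ey ez ox oy oz oyx ozx oxz oyz oxy ozy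
    cyx ryx czx rzx cxz rxz cyz ryz cxy rxy czy rzy

end Pool.Agent.QU
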