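import Pool.Agent.QUP.Md
import Pool.Agent.QUT.Lfc

/-!
# QUR/Us: usable elements of the tiny case

`q = M \ u / v`, `X` the tiny side, `Y = gs q \ X`. `OldS`: a 2-side of `q` inside `Y`. `Us`: an element `f` of `Y` of type deletion, such that every
2-side of `q \ f` inside `Y` with at least three elements has `u` in its coclosure and, if it has at least four elements, `v` in its closure.
(The type contraction is `Us` in the dual.) `Cla`: the data of closure A.
-/

set_option autoImplicit false

open QUB

namespace Pool.Agent.QU

open Pool.Agent.FRM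

section

variable {E : Type} [DecidableEq E]

/-- a 2-side of `q = M \ u / v` inside `Y` -/
structure OldS (r : Finset E → ℤ) (p : Itv E) (u v : E) (X S : Finset E) : Prop where
  sub : S ⊆ gs (rm true u (rm false v p)) \ X
  two : 2 ≤ S.card
  l1 : QUB.lam r (rm true u (rm false v p)) S ≤ 1

/-- a rich minor has at most one element in `Z` -/
def Light (r : Finset E → ℤ) (q : Itv E) (Z : Finset E) : Prop := ∃ q', Sub q' q ∧ Rich r q' ∧ (Z ∩ gs q').card ≤ 1

/-- a usable element `f` (deleted) -/
structure Us (r : Finset E → ℤ) (p : Itv E) (u v : E) (X : Finset E) (f : E) : Prop where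
  mem : f ∈ gs (rm true u (rm false v p)) \ X
  cn : Cn r (rm true f (rm true u (rm false v p)))
  rich : HasRich r (rm true f (rm true u (rm false v p)))
  cu : ∀ S ⊆ (gs (rm true u (rm false v p)) \ X).erase f, 3 ≤ S.card → QUB.lam r (rm true f (rm true u (rm false v p))) S ≤ 1 →
    r (p.2 \ insert u (insert f S)) + 1 ≤ r (p.2 \ insert f S)
  cv : ∀ S ⊆ (gs (rm true u (rm false v p)) \ X).erase f, 4 ≤ S.card → QUB.lam r (rm true f (rm true u (rm false v p))) S ≤ 1 →
    r (insert v (p.1 ∪ S)) = r (p.1 ∪ S)

/-- the data of closure A (`f` deleted) -/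
structure Cla (r : Finset E → ℤ) (p : Itv E) (u v : E) (X : Finset E) (f : E) : Prop where
  mem : f ∈ gs (rm true u (rm false v p)) \ X
  cn : Cn r (rm true f (rm true u (rm false v p)))
  rich : HasRich r (rm true f (rm true u (rm false v p)))
  oku : Ok r (rm true u (rm true f p))
  okx : ∀ x ∈ X, Ok r (rm true f (rm true x p))

end

end Pool.Agent.QU
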