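import Pool.Agent.QUR.Us
import Pool.Agent.QUR.SmA

/-!
# QUR/UsC: the criterion for an element of a light leaf with at least four elements
-/

set_option autoImplicit false

open QUB

namespace Pool.Agent.QU

open Pool.Agent.FRM

section rank

variable {E : Type} [DecidableEq E] {r : Finset E → ℤ}

theorem uc_mg (hr : Rk r) {A B : Finset E} (h : A ⊆ B) {x : E} (hx : r (insert x A) ≤ r A) : r (insert x B) ≤ r B := by
  have h1 := hr.sub (insert x A) B
  have e1 : insert x A ∪ B = insert x B := by
    ext y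
    simp only [Finset.mem_union, Finset.mem_insert]
    constructor
    · rintro ((h1 | h1) | h1)
      · exact Or.inl h1
      · exact Or.inr (h h1)
      · exact Or.inr h1
    · rintro (h1 | h1)
      · exact Or.inl (Or.inl h1)
      · exact Or.inr h1
  have h2 := hr.mono A (insert x A ∩ B) (Finset.subset_inter (Finset.subset_insert _ _) h)
  rw [e1] at h1
  omega

/-- the coclosure is monotone -/
theorem uc_co (hr : Rk r) {G A B : Finset E} (h : A ⊆ B) {u : E} (hu : u ∈ G) (hB : u ∉ B) (hA : r (G \ insert u A) + 1 ≤ r (G \ A)) :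
    r (G \ insert u B) + 1 ≤ r (G \ B) := by
  have e1 : ∀ C : Finset E, u ∉ C → G \ C = insert u (G \ insert u C) := by
    intro C hC
    ext y
    simp only [Finset.mem_sdiff, Finset.mem_insert, not_or]
    constructor
    · rintro ⟨h1, h2⟩
      by_cases h3 : y = u
      · exact Or.inl h3
      · exact Or.inr ⟨h1, h3, h2⟩
    · rintro (h1 | h1)
      · rw [h1]
        exact ⟨hu, hC⟩
      · exact ⟨h1.1, h1.2.2⟩
  by_contra hcon
  have h1 : r (insert u (G \ insert u B)) ≤ r (G \ insert u B) := by
    rw [← e1 B hB]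
    omega
  have h2 : G \ insert u B ⊆ G \ insert u A := Finset.sdiff_subset_sdiff (Finset.Subset.refl _) (Finset.insert_subset_insert u h)
  have h3 := uc_mg hr h2 h1
  rw [← e1 A (fun h' => hB (h h'))] at h3
  omega

end rank

section

variable {E : Type} [Fintype E] [DecidableEq E] {S : TP F4 E} {p : Itv E} {u v : E} {X : Finset E}

/-- a 2-side of `q` inside `Y` spans `v` and cospans `u` -/
theorem uc_old (h : Cw S p) (hM : Md S.r p true u false v X) {Z : Finset E} (hZ : Z ⊆ gs (rm true u (rm false v p)) \ X)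
    (h2 : 2 ≤ Z.card) (hl : QUB.lam S.r (rm true u (rm false v p)) Z ≤ 1) :
    S.r (insert v (p.1 ∪ Z)) = S.r (p.1 ∪ Z) ∧ S.r (p.2 \ insert u Z) + 1 ≤ S.r (p.2 \ Z) := by
  have hr : Rk S.r := S.rk
  have hn := h.hn
  have hp := h.hp
  have hX2 := hM.two
  have gq : gs (rm true u (rm false v p)) = ((gs p).erase v).erase u := gs_rm2 _ _ _ _ _
  have hsub := hM.sub
  rw [gq] at hZ hsub
  have hu := Finset.mem_sdiff.1 hM.ma
  have hv := Finset.mem_sdiff.1 hM.mb
  have hZu : u ∉ Z := fun h' => (Finset.mem_erase.1 (Finset.mem_sdiff.1 (hZ h')).1).1 rfl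
  have hZv : v ∉ Z := fun h' => (Finset.mem_erase.1 (Finset.mem_erase.1 (Finset.mem_sdiff.1 (hZ h')).1).2).1 rfl
  have hXZ : Disjoint X Z := Finset.disjoint_left.2 fun x hx hx' => (Finset.mem_sdiff.1 (hZ hx')).2 hx
  -- M \ u
  have g1 : gs (rm true u p) = (gs p).erase u := QUB.gs_rm _ _ _
  have g2 : gs (rm false v p) = (gs p).erase v := QUB.gs_rm _ _ _
  have a1 : 2 ≤ QUB.lam S.r (rm true u p) Z := by
    refine h.th u hM.ma true Z ?_ h2 ?_
    · rw [g1]
      intro z hz
      have h' := Finset.mem_erase.1 (Finset.mem_sdiff.1 (hZ hz)).1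
      exact Finset.mem_erase.2 ⟨h'.1, (Finset.mem_erase.1 h'.2).2⟩
    · refine hX2.trans (Finset.card_le_card ?_)
      rw [g1]
      intro x hx
      have h' := Finset.mem_erase.1 (hsub hx)
      exact Finset.mem_sdiff.2 ⟨Finset.mem_erase.2 ⟨h'.1, (Finset.mem_erase.1 h'.2).2⟩, Finset.disjoint_left.1 hXZ hx⟩
  have a2 : 2 ≤ QUB.lam S.r (rm false v p) Z := by
    refine h.th v hM.mb false Z ?_ h2 ?_
    · rw [g2]
      intro z hz
      exact (Finset.mem_erase.1 (Finset.mem_sdiff.1 (hZ hz)).1).2
    · refine hX2.trans (Finset.card_le_card ?_)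
      rw [g2]
      intro x hx
      exact Finset.mem_sdiff.2 ⟨(Finset.mem_erase.1 (hsub hx)).2, Finset.disjoint_left.1 hXZ hx⟩
  have b1 : 2 ≤ S.r (p.1 ∪ Z) + S.r (p.2.erase u \ Z) - S.r (p.2.erase u) - S.r p.1 := a1
  have b2 : 2 ≤ S.r (insert v p.1 ∪ Z) + S.r (p.2 \ Z) - S.r p.2 - S.r (insert v p.1) := a2
  have b3 : S.r (insert v p.1 ∪ Z) + S.r (p.2.erase u \ Z) - S.r (p.2.erase u) - S.r (insert v p.1) ≤ 1 := hl
  have e1 : insert v p.1 ∪ Z = insert v (p.1 ∪ Z) := Finset.insert_union _ _ _
  have e2 : p.2.erase u \ Z = p.2 \ insert u Z := by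
    ext y
    simp only [Finset.mem_sdiff, Finset.mem_erase, Finset.mem_insert, not_or]
    tauto
  rw [e1] at b2 b3
  rw [e2] at b1 b3
  have m1 := hr.mono (p.1 ∪ Z) (insert v (p.1 ∪ Z)) (Finset.subset_insert _ _)
  have m2 := hr.unit p.1 v
  have m3 := hr.mono (p.2.erase u) p.2 (Finset.erase_subset _ _)
  constructor
  · omega
  · omega

/-- the criterion for an element of a light leaf with at least four elements -/
theorem us_crit (h : Cw S p) (hM : Md S.r p true u false v X) (_h3 : X.card = 3) {Z : Finset E}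
    (hL : Lf S.r (rm true u (rm false v p)) Z) (hZ : Z ⊆ gs (rm true u (rm false v p)) \ X)
    (hl : Light S.r (rm true u (rm false v p)) Z) (hc : 4 ≤ Z.card) {f : E} (hf : f ∈ Z)
    (hk : S.r (p.1 ∪ Z.erase f) = S.r (p.1 ∪ Z))
    (ha : ∀ A ⊆ Z.erase f, 3 ≤ A.card → A ≠ Z.erase f → QUB.lam S.r (rm true f (rm true u (rm false v p))) A ≤ 1 →
      ∃ g ∈ Z.erase f, A = (Z.erase f).erase g ∧ S.r (p.2 \ Z) + 1 ≤ S.r (insert g (p.2 \ Z))) : Us S.r p u v X f := by
  have hr : Rk S.r := S.rk
  have hn := h.hn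
  have hp := h.hp
  have hX2 := hM.two
  have wq : (rm true u (rm false v p)).1 ⊆ (rm true u (rm false v p)).2 := hL.wf
  have cq : Cn S.r (rm true u (rm false v p)) := hL.cn
  have gq : gs (rm true u (rm false v p)) = ((gs p).erase v).erase u := gs_rm2 _ _ _ _ _
  have gm : gs (rm true f (rm true u (rm false v p))) = (gs (rm true u (rm false v p))).erase f := QUB.gs_rm _ _ _
  have hXq : X ⊆ gs (rm true u (rm false v p)) := hM.sub
  have hZq : Z ⊆ gs (rm true u (rm false v p)) := hZ.trans Finset.sdiff_subset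
  have hfq := hZq hf
  have hu := Finset.mem_sdiff.1 hM.ma
  have hv := Finset.mem_sdiff.1 hM.mb
  have huv := hM.ab
  have hXZ : Disjoint X Z := Finset.disjoint_left.2 fun x hx hx' => (Finset.mem_sdiff.1 (hZ hx')).2 hx
  have memq : ∀ y ∈ gs (rm true u (rm false v p)), y ≠ u ∧ y ≠ v ∧ y ∈ p.2 ∧ y ∉ p.1 := by
    intro y hy
    rw [gq] at hy
    have h1 := Finset.mem_erase.1 hy
    have h2 := Finset.mem_erase.1 h1.2
    have h3 := Finset.mem_sdiff.1 h2.2
    exact ⟨h1.1, h2.1, h3.1, h3.2⟩
  obtain ⟨fu, fv, f2, f1⟩ := memq f hfq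
  obtain ⟨x0, hx0⟩ : X.Nonempty := Finset.card_pos.1 (by omega)
  have hx0q := hXq hx0
  have hx0Z : x0 ∉ Z := Finset.disjoint_left.1 hXZ hx0
  have hx0f : x0 ≠ f := fun h' => hx0Z (h' ▸ hf)
  have cm : Cn S.r (rm true f (rm true u (rm false v p))) := hL.cn1 hr hf true
  have wm : (rm true f (rm true u (rm false v p))).1 ⊆ (rm true f (rm true u (rm false v p))).2 := QUB.wf_rm wq hfq
  have hcz : (Z.erase f).card = Z.card - 1 := Finset.card_erase_of_mem hf
  -- the ranks in the leaf
  have hmin := hL.min (Z.erase f) (Finset.erase_subset _ _)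
    (fun h' => Finset.notMem_erase f Z (by rw [h']; exact hf)) (by omega)
  have hl1 := hL.l1
  have e0 : p.2.erase u \ Z.erase f = insert f (p.2.erase u \ Z) := by
    ext y
    simp only [Finset.mem_sdiff, Finset.mem_erase, Finset.mem_insert, not_and]
    constructor
    · rintro ⟨h1, h2⟩
      by_cases h3 : y = f
      · exact Or.inl h3
      · exact Or.inr ⟨h1, h2 h3⟩
    · rintro (h1 | h1)
      · rw [h1]
        exact ⟨⟨fu, f2⟩, fun h' => absurd rfl h'⟩
      · exact ⟨h1.1, fun _ => h1.2⟩
  have c1 : 2 ≤ S.r (insert v p.1 ∪ Z.erase f) + S.r (p.2.erase u \ Z.erase f) - S.r (p.2.erase u) - S.r (insert v p.1) := hmin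
  have c2 : S.r (insert v p.1 ∪ Z) + S.r (p.2.erase u \ Z) - S.r (p.2.erase u) - S.r (insert v p.1) ≤ 1 := hl1
  rw [e0] at c1
  have m1 := hr.mono (insert v p.1 ∪ Z.erase f) (insert v p.1 ∪ Z) (Finset.union_subset_union_right (Finset.erase_subset _ _))
  have m2 := hr.unit (p.2.erase u \ Z) f
  have F1 : S.r (insert v p.1 ∪ Z.erase f) = S.r (insert v p.1 ∪ Z) := by omega
  have F2 : S.r (insert f (p.2.erase u \ Z)) = S.r (p.2.erase u \ Z) + 1 := by omega
  -- `f` is no coloop
  have r0 : S.r ((p.2.erase u).erase f) = S.r (p.2.erase u) := by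
    have h1 : 1 ≤ QUB.lam S.r (rm true u (rm false v p)) {f} :=
      cq {f} (Finset.singleton_subset_iff.2 hfq) (Finset.singleton_nonempty _)
        ⟨x0, Finset.mem_sdiff.2 ⟨hx0q, fun h' => hx0f (Finset.mem_singleton.1 h')⟩⟩
    have h2 : 1 ≤ S.r (insert v p.1 ∪ {f}) + S.r (p.2.erase u \ {f}) - S.r (p.2.erase u) - S.r (insert v p.1) := h1
    rw [Finset.sdiff_singleton_eq_erase, Finset.union_comm, ← Finset.insert_eq] at h2
    have h3 := hr.unit (insert v p.1) f
    have h4 := hr.mono _ _ (Finset.erase_subset f (p.2.erase u))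
    omega
  have rfull : S.r (p.2.erase u) = S.r p.2 := by
    have hcard : 3 ≤ (gs p).card := by omega
    obtain ⟨y, hy, hyn⟩ : ∃ y ∈ gs p, y ∉ ({u, v} : Finset E) := by
      by_contra hcon
      push Not at hcon
      have h1 := Finset.card_le_card (show gs p ⊆ {u, v} from hcon)
      have h2 := Finset.card_le_two (a := u) (b := v)
      omega
    simp only [Finset.mem_insert, Finset.mem_singleton, not_or] at hyn
    have h1 := h.nt.d3 {u, v, y} (by
      intro z hz
      simp only [Finset.mem_insert, Finset.mem_singleton] at hz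
      rcases hz with rfl | rfl | rfl
      · exact hM.ma
      · exact hM.mb
      · exact hy) (by
      rw [Finset.card_eq_three]
      exact ⟨u, v, y, huv, Ne.symm hyn.1, Ne.symm hyn.2, rfl⟩)
    have h2 := hr.mono (p.2 \ {u, v, y}) (p.2.erase u) (by
      intro z hz
      have h' := Finset.mem_sdiff.1 hz
      refine Finset.mem_erase.2 ⟨fun h'' => h'.2 ?_, h'.1⟩
      rw [h'']
      simp)
    have h3 := hr.mono _ _ (Finset.erase_subset u p.2)
    omega
  -- the value of `lam` in `q \ f`
  have val : ∀ A : Finset E, QUB.lam S.r (rm true f (rm true u (rm false v p))) A =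
      S.r (insert v p.1 ∪ A) + S.r (p.2 \ insert u (insert f A)) - S.r p.2 - S.r (insert v p.1) := by
    intro A
    have e : (p.2.erase u).erase f \ A = p.2 \ insert u (insert f A) := by
      ext y
      simp only [Finset.mem_sdiff, Finset.mem_erase, Finset.mem_insert, not_or]
      tauto
    show S.r (insert v p.1 ∪ A) + S.r ((p.2.erase u).erase f \ A) - S.r ((p.2.erase u).erase f) - S.r (insert v p.1) = _
    rw [e, r0, rfull]
  -- 2-sides of `q \ f` which miss `Z`
  have old : ∀ C ⊆ gs (rm true u (rm false v p)), Disjoint C Z → QUB.lam S.r (rm true f (rm true u (rm false v p))) C ≤ 1 →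
      QUB.lam S.r (rm true u (rm false v p)) C ≤ 1 := by
    intro C hC hCZ hlC
    rw [val C] at hlC
    show S.r (insert v p.1 ∪ C) + S.r (p.2.erase u \ C) - S.r (p.2.erase u) - S.r (insert v p.1) ≤ 1
    have hfC : f ∉ C := fun h' => Finset.disjoint_left.1 hCZ h' hf
    have hsub : insert v p.1 ∪ Z.erase f ⊆ p.2 \ insert u (insert f C) := by
      intro y hy
      simp only [Finset.mem_sdiff, Finset.mem_insert, not_or]
      rcases Finset.mem_union.1 hy with h1 | h1
      · rcases Finset.mem_insert.1 h1 with rfl | h1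
        · exact ⟨hv.1, huv.symm, Ne.symm fv, fun h' => (memq y (hC h')).2.1 rfl⟩
        · exact ⟨hp h1, fun h' => hu.2 (h' ▸ h1), fun h' => f1 (h' ▸ h1), fun h' => (memq y (hC h')).2.2.2 h1⟩
      · have h2 := Finset.mem_erase.1 h1
        obtain ⟨k1, k2, k3, k4⟩ := memq y (hZq h2.2)
        exact ⟨k3, k1, h2.1, fun h' => Finset.disjoint_left.1 hCZ h' h2.2⟩
    have hin : insert f (insert v p.1 ∪ Z.erase f) = insert v p.1 ∪ Z := by
      rw [← Finset.union_insert, Finset.insert_erase hf]
    have h1 := uc_mg hr hsub (x := f) (by rw [hin]; exact F1.ge)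
    have e : insert f (p.2 \ insert u (insert f C)) = p.2.erase u \ C := by
      ext y
      simp only [Finset.mem_sdiff, Finset.mem_erase, Finset.mem_insert, not_or]
      constructor
      · rintro (h1 | h1)
        · rw [h1]
          exact ⟨⟨fu, f2⟩, hfC⟩
        · exact ⟨⟨h1.2.1, h1.1⟩, h1.2.2.2⟩
      · rintro ⟨h1, h2⟩
        by_cases h3 : y = f
        · exact Or.inl h3
        · exact Or.inr ⟨h1.2, h1.1, h3, h2⟩
    rw [e] at h1
    omega
  -- old sides are fine
  have good_old : ∀ C ⊆ gs (rm true u (rm false v p)) \ X, Disjoint C Z → 2 ≤ C.card →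
      QUB.lam S.r (rm true f (rm true u (rm false v p))) C ≤ 1 →
      S.r (insert v (p.1 ∪ C)) ≤ S.r (p.1 ∪ C) ∧ S.r (p.2 \ insert u (insert f C)) + 1 ≤ S.r (p.2 \ insert f C) := by
    intro C hC hCZ h2 hlC
    have hCq := hC.trans Finset.sdiff_subset
    obtain ⟨k1, k2⟩ := uc_old h hM hC h2 (old C hCq hCZ hlC)
    refine ⟨k1.le, ?_⟩
    refine uc_co hr (Finset.subset_insert f C) hu.1 ?_ k2
    intro h'
    rcases Finset.mem_insert.1 h' with h'' | h''
    · exact fu h''.symm
    · exact (memq u (hCq h'')).1 rfl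
  -- the two conclusions for a set imply them for a larger set
  have up : ∀ A B : Finset E, A ⊆ B → B ⊆ (gs (rm true u (rm false v p)) \ X).erase f →
      (S.r (insert v (p.1 ∪ A)) ≤ S.r (p.1 ∪ A) → S.r (insert v (p.1 ∪ B)) = S.r (p.1 ∪ B)) ∧
      (S.r (p.2 \ insert u (insert f A)) + 1 ≤ S.r (p.2 \ insert f A) →
        S.r (p.2 \ insert u (insert f B)) + 1 ≤ S.r (p.2 \ insert f B)) := by
    intro A B hAB hB
    constructor
    · intro h1
      have h2 := uc_mg hr (Finset.union_subset_union_right (s := p.1) hAB) h1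
      have h3 := hr.mono (p.1 ∪ B) (insert v (p.1 ∪ B)) (Finset.subset_insert _ _)
      omega
    · intro h1
      refine uc_co hr (Finset.insert_subset_insert f hAB) hu.1 ?_ h1
      intro h'
      rcases Finset.mem_insert.1 h' with h'' | h''
      · exact fu h''.symm
      · exact (memq u (Finset.mem_sdiff.1 (Finset.mem_erase.1 (hB h'')).2).1).1 rfl
  -- the old side `Z`
  obtain ⟨z1, z2⟩ := uc_old h hM hZ (by omega) hl1
  -- main statement
  have main : ∀ T ⊆ (gs (rm true u (rm false v p)) \ X).erase f, 3 ≤ T.card →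
      QUB.lam S.r (rm true f (rm true u (rm false v p))) T ≤ 1 →
      S.r (p.2 \ insert u (insert f T)) + 1 ≤ S.r (p.2 \ insert f T) ∧
      (4 ≤ T.card → S.r (insert v (p.1 ∪ T)) = S.r (p.1 ∪ T)) := by
    intro T hT h3T hlT
    have hTq : T ⊆ gs (rm true u (rm false v p)) := (hT.trans (Finset.erase_subset _ _)).trans Finset.sdiff_subset
    have hTX : ∀ y ∈ T, y ∉ X := fun y hy => (Finset.mem_sdiff.1 (Finset.mem_erase.1 (hT hy)).2).2
    have hfT : f ∉ T := fun h' => (Finset.mem_erase.1 (hT h')).1 rfl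
    have hTm : T ⊆ gs (rm true f (rm true u (rm false v p))) := by
      rw [gm]
      intro y hy
      exact Finset.mem_erase.2 ⟨fun h' => hfT (h' ▸ hy), hTq hy⟩
    have hLm : Z.erase f ⊆ gs (rm true f (rm true u (rm false v p))) := by
      rw [gm]
      exact Finset.erase_subset_erase f hZq
    have lL : QUB.lam S.r (rm true f (rm true u (rm false v p))) (Z.erase f) ≤ 1 := by
      have h1 := QUB.lam_rm_le' hr wq (t := true) (A := Z.erase f) hfq (Finset.erase_subset_erase f hZq)
      rw [Finset.insert_erase hf] at h1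
      exact h1.trans hl1
    have hneL : (Z.erase f).Nonempty := Finset.card_pos.1 (by omega)
    have hneT : T.Nonempty := Finset.card_pos.1 (by omega)
    have x0m : x0 ∈ gs (rm true f (rm true u (rm false v p))) := by
      rw [gm]
      exact Finset.mem_erase.2 ⟨hx0f, hx0q⟩
    have x0T : x0 ∉ T := fun h' => hTX x0 h' hx0
    by_cases ca : ((Z.erase f) ∩ T).Nonempty
    swap
    · -- `T` misses `Z`
      have hdj : Disjoint T Z := by
        rw [Finset.disjoint_left]
        intro y hy hy'
        exact ca ⟨y, Finset.mem_inter.2 ⟨Finset.mem_erase.2 ⟨fun h' => hfT (h' ▸ hy), hy'⟩, hy⟩⟩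
      obtain ⟨k1, k2⟩ := good_old T (fun y hy => Finset.mem_sdiff.2 ⟨hTq hy, hTX y hy⟩) hdj (by omega) hlT
      exact ⟨k2, fun _ => ((up T T (Finset.Subset.refl _) hT).1 k1)⟩
    by_cases cb : (Z.erase f \ T).Nonempty
    swap
    · -- `T ⊇ Z - f`
      have hsub : Z.erase f ⊆ T := by
        intro y hy
        by_contra h'
        exact cb ⟨y, Finset.mem_sdiff.2 ⟨hy, h'⟩⟩
      constructor
      · have h1 : Z ⊆ insert f T := by
          intro y hy
          by_cases h' : y = f
          · exact Finset.mem_insert.2 (Or.inl h')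
          · exact Finset.mem_insert_of_mem (hsub (Finset.mem_erase.2 ⟨h', hy⟩))
        refine uc_co hr h1 hu.1 ?_ z2
        intro h'
        rcases Finset.mem_insert.1 h' with h'' | h''
        · exact fu h''.symm
        · exact (memq u (hTq h'')).1 rfl
      · intro _
        refine (up (Z.erase f) T hsub hT).1 ?_
        have h1 := hr.mono (insert v (p.1 ∪ Z.erase f)) (insert v (p.1 ∪ Z))
          (Finset.insert_subset_insert _ (Finset.union_subset_union_right (Finset.erase_subset _ _)))
        omega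
    -- crossing
    set A := (Z.erase f) ∩ T with hA
    have hAT : A ⊆ T := Finset.inter_subset_right
    have hAL : A ⊆ Z.erase f := Finset.inter_subset_left
    have lA : QUB.lam S.r (rm true f (rm true u (rm false v p))) A ≤ 1 := by
      refine unc1 hr cm hLm lL hTm hlT hneL ⟨x0, ?_⟩
      refine Finset.mem_sdiff.2 ⟨x0m, fun h' => ?_⟩
      rcases Finset.mem_union.1 h' with h'' | h''
      · exact hx0Z (Finset.mem_erase.1 h'').2
      · exact x0T h''
    have hAne : A ≠ Z.erase f := by
      intro h'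
      obtain ⟨y, hy⟩ := cb
      have hy' := Finset.mem_sdiff.1 hy
      exact hy'.2 (hAT (h' ▸ hy'.1))
    -- the part outside of `Z`
    set C := T \ Z with hC
    have hCT : C ⊆ T := Finset.sdiff_subset
    have hdj : Disjoint C Z := Finset.sdiff_disjoint
    have lC : C.Nonempty → QUB.lam S.r (rm true f (rm true u (rm false v p))) C ≤ 1 := by
      intro hCn
      have e : C = T ∩ (gs (rm true f (rm true u (rm false v p))) \ Z.erase f) := by
        ext y
        simp only [hC, Finset.mem_sdiff, Finset.mem_inter, Finset.mem_erase, not_and]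
        constructor
        · rintro ⟨h1, h2⟩
          exact ⟨h1, hTm h1, fun _ => h2⟩
        · rintro ⟨h1, h2, h3⟩
          exact ⟨h1, h3 fun h' => hfT (h' ▸ h1)⟩
      rw [e]
      obtain ⟨y, hy⟩ := cb
      have hy' := Finset.mem_sdiff.1 hy
      refine unc1 hr cm hTm hlT Finset.sdiff_subset ?_ hneT ⟨y, ?_⟩
      · rw [QUB.lam_compl S.r wm hLm]
        exact lL
      · refine Finset.mem_sdiff.2 ⟨hLm hy'.1, fun h' => ?_⟩
        rcases Finset.mem_union.1 h' with h'' | h''
        · exact hy'.2 h''
        · exact (Finset.mem_sdiff.1 h'').2 hy'.1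
    by_cases c2C : 2 ≤ C.card
    · obtain ⟨k1, k2⟩ := good_old C (fun y hy => Finset.mem_sdiff.2 ⟨hTq (hCT hy), hTX y (hCT hy)⟩) hdj c2C
        (lC (Finset.card_pos.1 (by omega)))
      exact ⟨(up C T hCT hT).2 k2, fun _ => (up C T hCT hT).1 k1⟩
    have hcard : T.card = A.card + C.card := by
      have e : T = A ∪ C := by
        ext y
        simp only [hA, hC, Finset.mem_union, Finset.mem_inter, Finset.mem_erase, Finset.mem_sdiff]
        constructor
        · intro h1
          by_cases h2 : y ∈ Z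
          · exact Or.inl ⟨⟨fun h' => hfT (h' ▸ h1), h2⟩, h1⟩
          · exact Or.inr ⟨h1, h2⟩
        · rintro (h1 | h1)
          · exact h1.2
          · exact h1.1
      have hd : Disjoint A C := by
        rw [Finset.disjoint_left]
        intro y hy hy'
        exact (Finset.mem_sdiff.1 hy').2 (Finset.mem_erase.1 (hAL hy)).2
      conv_lhs => rw [e]
      exact Finset.card_union_of_disjoint hd
    have hlA := lA
    rw [val A] at hlA
    by_cases c3A : 3 ≤ A.card
    · obtain ⟨g, hg, hAg, hgK⟩ := ha A hAL c3A hAne lA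
      have hg' := Finset.mem_erase.1 hg
      obtain ⟨gu, gv, g2, g1⟩ := memq g (hZq hg'.2)
      have hAgc : insert g A = Z.erase f := by rw [hAg, Finset.insert_erase hg]
      constructor
      · refine (up A T hAT hT).2 ?_
        -- `u` is not spanned by the complement
        have e1 : p.2 \ insert u (insert f A) = insert g (p.2 \ insert u Z) := by
          ext y
          simp only [Finset.mem_sdiff, Finset.mem_insert, not_or]
          constructor
          · rintro ⟨h1, h2, h3, h4⟩
            by_cases h5 : y = g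
            · exact Or.inl h5
            · refine Or.inr ⟨h1, h2, fun h' => h4 ?_⟩
              rw [hAg]
              exact Finset.mem_erase.2 ⟨h5, Finset.mem_erase.2 ⟨h3, h'⟩⟩
          · rintro (h1 | h1)
            · rw [h1]
              exact ⟨g2, gu, hg'.1, fun h' => by rw [hAg] at h'; exact (Finset.mem_erase.1 h').1 rfl⟩
            · exact ⟨h1.1, h1.2.1, fun h' => h1.2.2 (h' ▸ hf), fun h' => h1.2.2 (Finset.mem_erase.1 (hAL h')).2⟩
        have e2 : p.2 \ insert f A = insert g (p.2 \ Z) := by
          ext y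
          simp only [Finset.mem_sdiff, Finset.mem_insert, not_or]
          constructor
          · rintro ⟨h1, h3, h4⟩
            by_cases h5 : y = g
            · exact Or.inl h5
            · refine Or.inr ⟨h1, fun h' => h4 ?_⟩
              rw [hAg]
              exact Finset.mem_erase.2 ⟨h5, Finset.mem_erase.2 ⟨h3, h'⟩⟩
          · rintro (h1 | h1)
            · rw [h1]
              exact ⟨g2, hg'.1, fun h' => by rw [hAg] at h'; exact (Finset.mem_erase.1 h').1 rfl⟩
            · exact ⟨h1.1, fun h' => h1.2 (h' ▸ hf), fun h' => h1.2 (Finset.mem_erase.1 (hAL h')).2⟩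
        rw [e1, e2]
        have h1 := hr.unit (p.2 \ insert u Z) g
        omega
      · intro _
        refine (up A T hAT hT).1 ?_
        -- ranks
        have e1 : p.2 \ insert u (insert f A) = insert g (p.2.erase u \ Z) := by
          ext y
          simp only [Finset.mem_sdiff, Finset.mem_insert, Finset.mem_erase, not_or]
          constructor
          · rintro ⟨h1, h2, h3, h4⟩
            by_cases h5 : y = g
            · exact Or.inl h5
            · refine Or.inr ⟨⟨h2, h1⟩, fun h' => h4 ?_⟩
              rw [hAg]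
              exact Finset.mem_erase.2 ⟨h5, Finset.mem_erase.2 ⟨h3, h'⟩⟩
          · rintro (h1 | h1)
            · rw [h1]
              exact ⟨g2, gu, hg'.1, fun h' => by rw [hAg] at h'; exact (Finset.mem_erase.1 h').1 rfl⟩
            · exact ⟨h1.1.2, h1.1.1, fun h' => h1.2 (h' ▸ hf), fun h' => h1.2 (Finset.mem_erase.1 (hAL h')).2⟩
        -- the same facts for `g`
        have hming := hL.min (Z.erase g) (Finset.erase_subset _ _)
          (fun h' => Finset.notMem_erase g Z (by rw [h']; exact hg'.2)) (by rw [Finset.card_erase_of_mem hg'.2]; omega)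
        have e0g : p.2.erase u \ Z.erase g = insert g (p.2.erase u \ Z) := by
          ext y
          simp only [Finset.mem_sdiff, Finset.mem_erase, Finset.mem_insert, not_and]
          constructor
          · rintro ⟨h1, h2⟩
            by_cases h3 : y = g
            · exact Or.inl h3
            · exact Or.inr ⟨h1, h2 h3⟩
          · rintro (h1 | h1)
            · rw [h1]
              exact ⟨⟨gu, g2⟩, fun h' => absurd rfl h'⟩
            · exact ⟨h1.1, fun _ => h1.2⟩
        have c1g : 2 ≤ S.r (insert v p.1 ∪ Z.erase g) + S.r (p.2.erase u \ Z.erase g) - S.r (p.2.erase u) -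
            S.r (insert v p.1) := hming
        rw [e0g] at c1g
        have m1g := hr.mono (insert v p.1 ∪ Z.erase g) (insert v p.1 ∪ Z)
          (Finset.union_subset_union_right (Finset.erase_subset _ _))
        have m2g := hr.unit (p.2.erase u \ Z) g
        rw [e1] at hlA
        have e3 : insert v p.1 ∪ A = insert v (p.1 ∪ A) := Finset.insert_union _ _ _
        have e4 : insert v p.1 ∪ Z = insert v (p.1 ∪ Z) := Finset.insert_union _ _ _
        rw [e3] at hlA
        rw [e4] at m1g c2
        have h5 := hr.unit (p.1 ∪ A) g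
        rw [← Finset.union_insert, hAgc] at h5
        have c0 : 1 ≤ QUB.lam S.r (rm true u (rm false v p)) Z :=
          cq Z hZq ⟨f, hf⟩ ⟨x0, Finset.mem_sdiff.2 ⟨hx0q, hx0Z⟩⟩
        have c0' : 1 ≤ S.r (insert v p.1 ∪ Z) + S.r (p.2.erase u \ Z) - S.r (p.2.erase u) - S.r (insert v p.1) := c0
        rw [e4] at c0'
        omega
    · -- a series pair
      have hA2 : A.card = 2 := by omega
      obtain ⟨a, b, hab, hAe⟩ := Finset.card_eq_two.1 hA2
      have haA : a ∈ A := by rw [hAe]; simp
      have hbA : b ∈ A := by rw [hAe]; simp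
      have haZ := Finset.mem_erase.1 (hAL haA)
      have hbZ := Finset.mem_erase.1 (hAL hbA)
      obtain ⟨au, av, a2, a1⟩ := memq a (hZq haZ.2)
      obtain ⟨bu, bv, b2, b1⟩ := memq b (hZq hbZ.2)
      constructor
      · refine (up A T hAT hT).2 ?_
        have h1 := h.nt.t3 {v, a, b} (by
          intro z hz
          simp only [Finset.mem_insert, Finset.mem_singleton] at hz
          rcases hz with rfl | rfl | rfl
          · exact hM.mb
          · exact Finset.mem_sdiff.2 ⟨a2, a1⟩
          · exact Finset.mem_sdiff.2 ⟨b2, b1⟩) (by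
          rw [Finset.card_eq_three]
          exact ⟨v, a, b, Ne.symm av, Ne.symm bv, hab, rfl⟩)
        have h2 := h.nt.d3 {f, a, b} (by
          intro z hz
          simp only [Finset.mem_insert, Finset.mem_singleton] at hz
          rcases hz with rfl | rfl | rfl
          · exact Finset.mem_sdiff.2 ⟨f2, f1⟩
          · exact Finset.mem_sdiff.2 ⟨a2, a1⟩
          · exact Finset.mem_sdiff.2 ⟨b2, b1⟩) (by
          rw [Finset.card_eq_three]
          exact ⟨f, a, b, Ne.symm haZ.1, Ne.symm hbZ.1, hab, rfl⟩)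
        have e1 : insert v p.1 ∪ A = p.1 ∪ {v, a, b} := by
          rw [hAe]
          ext y
          simp only [Finset.mem_union, Finset.mem_insert, Finset.mem_singleton]
          tauto
        have h3 := hr.unit p.1 v
        rw [e1] at hlA
        have e2 : p.2 \ insert f A = p.2 \ {f, a, b} := by rw [hAe]
        rw [e2]
        omega
      · intro h4
        exfalso
        omega
  -- assembly
  have hrich : HasRich S.r (rm true f (rm true u (rm false v p))) := by
    obtain ⟨q', k1, k2, k3⟩ := hl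
    obtain ⟨q'', n1, n2, -⟩ := rich_keep S wq hZq hl1 ⟨q', k1, k2, k3⟩ hf (t := true) (by
      refine cm _ ?_ ⟨x0, Finset.mem_sdiff.2 ⟨hx0q, hx0Z⟩⟩ ?_
      · intro y hy
        rw [gm]
        have hy' := Finset.mem_sdiff.1 hy
        exact Finset.mem_erase.2 ⟨fun h' => hy'.2 (h' ▸ hf), hy'.1⟩
      · obtain ⟨y, hy⟩ : (Z.erase f).Nonempty := Finset.card_pos.1 (by omega)
        have hy' := Finset.mem_erase.1 hy
        refine ⟨y, Finset.mem_sdiff.2 ⟨?_, fun h' => (Finset.mem_sdiff.1 h').2 hy'.2⟩⟩
        rw [gm]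
        exact Finset.mem_erase.2 ⟨hy'.1, hZq hy'.2⟩)
    exact ⟨q'', n1, n2⟩
  exact ⟨hZ hf, cm, hrich, fun T hT h3 hl' => (main T hT h3 hl').1, fun T hT h4 hl' => (main T hT (by omega) hl').2 h4⟩

end

end Pool.Agent.QU
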