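import Pool.Agent.QUR.Us

/-!
# QUR/UsO: basic facts of old sides
-/

set_option autoImplicit false
set_option linter.all false

open QUB

namespace Pool.Agent.QU

open Pool.Agent.FRM

section

variable {E : Type} [Fintype E] [DecidableEq E] {S : TP F4 E} {p : Itv E} {u v : E} {X : Finset E}

/-- basic facts of old sides -/
theorem old_fact (h : Cw S p) (hM : Md S.r p true u false v X) (h3 : X.card = 3) {Z : Finset E} (hZ : OldS S.r p u v X Z) :
    3 ≤ Z.card ∧ S.r (insert v (p.1 ∪ Z)) = S.r (p.1 ∪ Z) ∧ S.r (p.2 \ insert u Z) + 1 ≤ S.r (p.2 \ Z) := by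
  have hr := S.rk
  have gq : gs (rm true u (rm false v p)) = ((gs p).erase v).erase u := by rw [gs_rm, gs_rm]
  have gu : gs (rm true u p) = (gs p).erase u := gs_rm _ _ _
  have gv : gs (rm false v p) = (gs p).erase v := gs_rm _ _ _
  have hXq : X ⊆ ((gs p).erase v).erase u := gq ▸ hM.sub
  have hZs := hZ.sub
  have hZ1 : ∀ w ∈ Z, w ∈ gs p ∧ w ≠ u ∧ w ≠ v ∧ w ∉ X := by
    intro w hw
    obtain ⟨a, b⟩ := Finset.mem_sdiff.1 (hZs hw)
    rw [gq] at a
    obtain ⟨a1, a2⟩ := Finset.mem_erase.1 a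
    obtain ⟨a3, a4⟩ := Finset.mem_erase.1 a2
    exact ⟨a4, a1, a3, b⟩
  have hX1 : ∀ w ∈ X, w ∈ gs p ∧ w ≠ u ∧ w ≠ v := by
    intro w hw
    obtain ⟨a1, a2⟩ := Finset.mem_erase.1 (hXq hw)
    obtain ⟨a3, a4⟩ := Finset.mem_erase.1 a2
    exact ⟨a4, a1, a3⟩
  have hZu : Z ⊆ gs (rm true u p) := by
    rw [gu]
    exact fun w hw => Finset.mem_erase.2 ⟨(hZ1 w hw).2.1, (hZ1 w hw).1⟩
  have hZv : Z ⊆ gs (rm false v p) := by
    rw [gv]
    exact fun w hw => Finset.mem_erase.2 ⟨(hZ1 w hw).2.2.1, (hZ1 w hw).1⟩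
  have hXu : X ⊆ gs (rm true u p) \ Z := by
    intro w hw
    obtain ⟨a, b, c⟩ := hX1 w hw
    rw [gu]
    exact Finset.mem_sdiff.2 ⟨Finset.mem_erase.2 ⟨b, a⟩, fun hh => (hZ1 w hh).2.2.2 hw⟩
  have hXv : X ⊆ gs (rm false v p) \ Z := by
    intro w hw
    obtain ⟨a, b, c⟩ := hX1 w hw
    rw [gv]
    exact Finset.mem_sdiff.2 ⟨Finset.mem_erase.2 ⟨c, a⟩, fun hh => (hZ1 w hh).2.2.2 hw⟩
  have t1 := h.th u hM.ma true Z hZu hZ.two (by have := Finset.card_le_card hXu; omega)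
  have t2 := h.th v hM.mb false Z hZv hZ.two (by have := Finset.card_le_card hXv; omega)
  have t3 := hZ.l1
  have f1 : Pool.Agent.QU.lam S.r (rm true u p) Z = S.r (p.1 ∪ Z) + S.r (p.2.erase u \ Z) - S.r (p.2.erase u) - S.r p.1 := rfl
  have f2 : Pool.Agent.QU.lam S.r (rm false v p) Z = S.r (insert v p.1 ∪ Z) + S.r (p.2 \ Z) - S.r p.2 - S.r (insert v p.1) := rfl
  have f3 : QUB.lam S.r (rm true u (rm false v p)) Z = S.r (insert v p.1 ∪ Z) + S.r (p.2.erase u \ Z) - S.r (p.2.erase u) - S.r (insert v p.1) := rfl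
  have e1 : insert v p.1 ∪ Z = insert v (p.1 ∪ Z) := Finset.insert_union v p.1 Z
  have e2 : p.2.erase u \ Z = p.2 \ insert u Z := by
    ext w
    simp only [Finset.mem_sdiff, Finset.mem_erase, Finset.mem_insert]
    tauto
  have hn3 : 3 ≤ (gs p).card := by have := h.hn; omega
  have e3 : S.r (insert v p.1) = S.r p.1 + 1 := by
    have := Nt.le3 hr h.nt hn3 (Z := {v}) (Finset.singleton_subset_iff.2 hM.mb) (by simp)
    rw [Finset.card_singleton] at this
    have e : p.1 ∪ {v} = insert v p.1 := by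
      ext w; simp only [Finset.mem_union, Finset.mem_insert, Finset.mem_singleton]; tauto
    rw [e] at this
    simpa using this
  have e4 : S.r (p.2.erase u) = S.r p.2 := by
    have h1 := th3_del1 hr h.hp h.h3 (by have := h.hn; omega) hM.ma
    exact h1
  rw [f1] at t1
  rw [f2] at t2
  rw [f3] at t3
  rw [e1] at t2 t3
  rw [e2] at t1 t3
  have e5 := hr.mono (p.1 ∪ Z) (insert v (p.1 ∪ Z)) (Finset.subset_insert _ _)
  have g1 : S.r (insert v (p.1 ∪ Z)) = S.r (p.1 ∪ Z) := by linarith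
  refine ⟨?_, g1, by linarith⟩
  by_contra hc
  have hc2 : Z.card = 2 := by have := hZ.two; omega
  have hvZ : v ∉ Z := fun hh => (hZ1 v hh).2.2.1 rfl
  have a1 := Nt.le3 hr h.nt hn3 (Z := Z) (fun w hw => (hZ1 w hw).1) (by omega)
  have a2 := Nt.le3 hr h.nt hn3 (Z := insert v Z) (Finset.insert_subset hM.mb fun w hw => (hZ1 w hw).1) (by
    rw [Finset.card_insert_of_notMem hvZ]; omega)
  rw [Finset.card_insert_of_notMem hvZ, Finset.union_insert] at a2
  push_cast at a2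
  omega

end

end Pool.Agent.QU
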